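import Pool.Agent.RFS.A2Defs

/-!
RFS chunk (a2), module BL: the bilinear form bil u v w.

Proofs: bil is a finite sum of monomials u(a,b) v_a w_b. Linearity: simp with Finset sums. Smoothness: the
coordinates of EuclideanSpace are continuous linear (contDiff_euclidean, or
EuclideanSpace.proj); derivative: product rule termwise; pdv of a vector function has the coordinates
pd of the coordinates. gram_lin: bilinearity.
-/

open scoped Manifold ContDiff Matrix
open Set

namespace Pool.Agent.RFS.AA

variable {N : ℕ}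

theorem bil_comm (u : FN N) (v w : EN N) : bil u v w = bil u w v := by
  unfold bil
  refine Finset.sum_congr rfl fun a _ => Finset.sum_congr rfl fun b _ => ?_
  ring

theorem bil_add (u u' : FN N) (v w : EN N) : bil (u + u') v w = bil u v w + bil u' v w := by
  unfold bil
  rw [← Finset.sum_add_distrib]
  refine Finset.sum_congr rfl fun a _ => ?_
  rw [← Finset.sum_add_distrib]
  refine Finset.sum_congr rfl fun b _ => ?_
  simp only [PiLp.add_apply]
  ring

theorem bil_smul (c : ℝ) (u : FN N) (v w : EN N) : bil (c • u) v w = c * bil u v w := by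
  unfold bil
  rw [Finset.mul_sum]
  refine Finset.sum_congr rfl fun a _ => ?_
  rw [Finset.mul_sum]
  refine Finset.sum_congr rfl fun b _ => ?_
  simp only [PiLp.smul_apply, smul_eq_mul]
  ring

theorem bil_zero (v w : EN N) : bil (0 : FN N) v w = 0 := by
  unfold bil
  simp

theorem bil_sum {ι : Type*} (s : Finset ι) (u : ι → FN N) (v w : EN N) :
    bil (∑ i ∈ s, u i) v w = ∑ i ∈ s, bil (u i) v w := by
  classical
  induction s using Finset.induction_on with
  | empty => simp [bil_zero]
  | insert a s ha ih => rw [Finset.sum_insert ha, Finset.sum_insert ha, bil_add, ih]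

theorem bil_sub (u u' : FN N) (v w : EN N) : bil (u - u') v w = bil u v w - bil u' v w := by
  have h : u - u' = u + (-1 : ℝ) • u' := by
    rw [neg_smul, one_smul, sub_eq_add_neg]
  rw [h, bil_add, bil_smul]
  ring

theorem bil_add_right (u : FN N) (v w w' : EN N) : bil u v (w + w') = bil u v w + bil u v w' := by
  unfold bil
  rw [← Finset.sum_add_distrib]
  refine Finset.sum_congr rfl fun a _ => ?_
  rw [← Finset.sum_add_distrib]
  refine Finset.sum_congr rfl fun b _ => ?_
  simp only [PiLp.add_apply]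
  ring

theorem bil_smul_right (c : ℝ) (u : FN N) (v w : EN N) : bil u v (c • w) = c * bil u v w := by
  unfold bil
  rw [Finset.mul_sum]
  refine Finset.sum_congr rfl fun a _ => ?_
  rw [Finset.mul_sum]
  refine Finset.sum_congr rfl fun b _ => ?_
  simp only [PiLp.smul_apply, smul_eq_mul]
  ring

theorem bil_sum_right {ι : Type*} (s : Finset ι) (u : FN N) (v : EN N) (w : ι → EN N) :
    bil u v (∑ i ∈ s, w i) = ∑ i ∈ s, bil u v (w i) := by
  classical
  induction s using Finset.induction_on with
  | empty =>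
    have h := bil_smul_right 0 u v 0
    simp only [zero_smul, zero_mul] at h
    simpa using h
  | insert a s ha ih => rw [Finset.sum_insert ha, Finset.sum_insert ha, bil_add_right, ih]

theorem bil_contDiff :
    ContDiff ℝ ∞ (fun z : FN N × EN N × EN N => bil z.1 z.2.1 z.2.2) := by
  unfold bil
  refine ContDiff.sum fun a _ => ContDiff.sum fun b _ => ?_
  have h1 : ContDiff ℝ ∞ (fun z : FN N × EN N × EN N => z.1 (a, b)) :=
    (contDiff_euclidean.1 contDiff_fst) (a, b)
  have h2 : ∀ c, ContDiff ℝ ∞ (fun z : FN N × EN N × EN N => z.2.1 c) := fun c =>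
    (contDiff_euclidean.1 (contDiff_fst.comp contDiff_snd)) c
  have h3 : ∀ c, ContDiff ℝ ∞ (fun z : FN N × EN N × EN N => z.2.2 c) := fun c =>
    (contDiff_euclidean.1 (contDiff_snd.comp contDiff_snd)) c
  exact h1.mul ((((h2 a).mul (h3 b)).add ((h2 b).mul (h3 a))).div_const 2)

theorem pd_bil {v : E3 → FN N} {a b : E3 → EN N} {x : E3} (hv : DifferentiableAt ℝ v x)
    (ha : DifferentiableAt ℝ a x) (hb : DifferentiableAt ℝ b x) (k : Fin 3) :
    pd k (fun y => bil (v y) (a y) (b y)) x
      = bil (pdv k v x) (a x) (b x) + bil (v x) (pdv k a x) (b x)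
        + bil (v x) (a x) (pdv k b x) := by
  have hv' : ∀ c, HasFDerivAt (fun y => v y c)
      ((EuclideanSpace.proj c : FN N →L[ℝ] ℝ).comp (fderiv ℝ v x)) x := fun c =>
    (EuclideanSpace.proj c : FN N →L[ℝ] ℝ).hasFDerivAt.comp x hv.hasFDerivAt
  have ha' : ∀ c, HasFDerivAt (fun y => a y c)
      ((EuclideanSpace.proj c : EN N →L[ℝ] ℝ).comp (fderiv ℝ a x)) x := fun c =>
    (EuclideanSpace.proj c : EN N →L[ℝ] ℝ).hasFDerivAt.comp x ha.hasFDerivAt
  have hb' : ∀ c, HasFDerivAt (fun y => b y c)
      ((EuclideanSpace.proj c : EN N →L[ℝ] ℝ).comp (fderiv ℝ b x)) x := fun c =>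
    (EuclideanSpace.proj c : EN N →L[ℝ] ℝ).hasFDerivAt.comp x hb.hasFDerivAt
  have key : HasFDerivAt (fun y => bil (v y) (a y) (b y)) (∑ p, ∑ q,
      (v x (p, q) • ((2 : ℝ)⁻¹ • ((a x p • ((EuclideanSpace.proj q : EN N →L[ℝ] ℝ).comp (fderiv ℝ b x))
          + b x q • ((EuclideanSpace.proj p : EN N →L[ℝ] ℝ).comp (fderiv ℝ a x)))
        + (a x q • ((EuclideanSpace.proj p : EN N →L[ℝ] ℝ).comp (fderiv ℝ b x))
          + b x p • ((EuclideanSpace.proj q : EN N →L[ℝ] ℝ).comp (fderiv ℝ a x)))))
      + ((a x p * b x q + a x q * b x p) / 2) •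
          ((EuclideanSpace.proj (p, q) : FN N →L[ℝ] ℝ).comp (fderiv ℝ v x)))) x := by
    unfold bil
    refine HasFDerivAt.fun_sum fun p _ => HasFDerivAt.fun_sum fun q _ => ?_
    have h1 := (((ha' p).mul (hb' q)).add ((ha' q).mul (hb' p))).mul_const (2 : ℝ)⁻¹
    have h2 := (hv' (p, q)).mul h1
    simp only [div_eq_mul_inv]
    exact h2
  unfold pd
  rw [key.fderiv]
  unfold bil pdv
  have hpN : ∀ (c : Fin N) (w : EN N), (EuclideanSpace.proj c : EN N →L[ℝ] ℝ) w = w c :=
    fun _ _ => rfl
  have hpF : ∀ (c : Fin N × Fin N) (w : FN N), (EuclideanSpace.proj c : FN N →L[ℝ] ℝ) w = w c :=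
    fun _ _ => rfl
  simp only [sum_apply, add_apply, smul_apply, ContinuousLinearMap.comp_apply, hpN, hpF,
    smul_eq_mul]
  simp only [← Finset.sum_add_distrib]
  refine Finset.sum_congr rfl fun p _ => Finset.sum_congr rfl fun q _ => ?_
  ring

theorem gram_transpose (u : FN N) (A : Fin 3 → EN N) : (gram u A)ᵀ = gram u A := by
  ext i j
  simp only [Matrix.transpose_apply, gram, Matrix.of_apply]
  exact bil_comm _ _ _

theorem gram_lin (u : FN N) (A : Fin 3 → EN N) (J : Mat3) :
    gram u (fun i => ∑ k, J k i • A k) = Jᵀ * gram u A * J := by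
  ext i j
  simp only [gram, Matrix.of_apply, Matrix.mul_apply, Matrix.transpose_apply]
  rw [bil_sum_right]
  refine Finset.sum_congr rfl fun k _ => ?_
  rw [bil_smul_right, bil_comm, bil_sum_right, mul_comm]
  congr 1
  refine Finset.sum_congr rfl fun l _ => ?_
  rw [bil_smul_right, bil_comm]

theorem gram_add (u u' : FN N) (A : Fin 3 → EN N) :
    gram (u + u') A = gram u A + gram u' A := by
  ext i j
  simp only [gram, Matrix.of_apply, Matrix.add_apply, bil_add]

theorem gram_sum {ι : Type*} (s : Finset ι) (u : ι → FN N) (A : Fin 3 → EN N) :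
    gram (∑ i ∈ s, u i) A = ∑ i ∈ s, gram (u i) A := by
  ext i j
  simp only [gram, Matrix.of_apply, Matrix.sum_apply, bil_sum]

theorem gram_smul (c : ℝ) (u : FN N) (A : Fin 3 → EN N) : gram (c • u) A = c • gram u A := by
  ext i j
  simp only [gram, Matrix.of_apply, Matrix.smul_apply, bil_smul, smul_eq_mul]

end Pool.Agent.RFS.AA
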