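import Pool.Agent.RFS.A2IV

/-!
RFS chunk (a2), module CH: the Cholesky factor of a positive definite 3 x 3 matrix.

Proofs. G PosDef (so symmetric). Positivity: a = G00 > 0, b = G11 - G10^2/G00 > 0 (the 2 x 2 leading
minor a b = G00 G11 - G10^2 is positive), c = G22 - G20^2/G00 - (G21 - G20 G10/G00)^2 / b > 0 (a b c =
det G). Elementary way: plug the vectors (1,0,0), (-G10/a, 1, 0) and (v0, v1, 1) solving the
triangular system into the quadratic form: the values are a, b, c (Matrix.PosDef.2 resp. dotProduct_mulVec_pos).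
* cholL_mul: L Lᵀ = G entry by entry, with sq_sqrt; G symmetric.
* det L = sqrt a sqrt b sqrt c ≠ 0, so (L⁻¹)ᵀ L⁻¹ = (L Lᵀ)⁻¹ = G⁻¹ (Matrix.mul_inv_rev,
  Matrix.transpose_nonsing_inv).
* sq_contDiffOn: the entries of cholL (G z) are ContDiffOn: quotients and square roots
  (ContDiffOn.sqrt) of functions which do not vanish on S; then A2IV.inv_contDiffOn.
-/

open scoped Manifold ContDiff Matrix
open Set

namespace Pool.Agent.RFS.AA

private lemma CH_symm {G : Mat3} (hG : G.PosDef) (i j : Fin 3) : G i j = G j i := by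
  have h := hG.isHermitian.apply i j
  simpa using h.symm

private lemma CH_quad {G : Mat3} (hG : G.PosDef) (a b c : ℝ) (h : a ≠ 0 ∨ b ≠ 0 ∨ c ≠ 0) :
    0 < G 0 0 * a ^ 2 + G 1 1 * b ^ 2 + G 2 2 * c ^ 2 + 2 * (G 1 0 * (a * b)) + 2 * (G 2 0 * (a * c))
      + 2 * (G 2 1 * (b * c)) := by
  have hv : (![a, b, c] : Fin 3 → ℝ) ≠ 0 := by
    intro h0
    have h1 := congrFun h0 0
    have h2 := congrFun h0 1
    have h3 := congrFun h0 2
    simp at h1 h2 h3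
    rcases h with h | h | h
    · exact h h1
    · exact h h2
    · exact h h3
  have h1 := hG.dotProduct_mulVec_pos hv
  have h2 : star (![a, b, c] : Fin 3 → ℝ) ⬝ᵥ G.mulVec ![a, b, c]
      = G 0 0 * a ^ 2 + G 1 1 * b ^ 2 + G 2 2 * c ^ 2 + 2 * (G 1 0 * (a * b))
        + 2 * (G 2 0 * (a * c)) + 2 * (G 2 1 * (b * c)) := by
    simp only [Matrix.mulVec, dotProduct, Fin.sum_univ_three, Pi.star_apply, star_trivial,
      Matrix.cons_val_zero, Matrix.cons_val_one, Matrix.cons_val]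
    rw [CH_symm hG 0 1, CH_symm hG 0 2, CH_symm hG 1 2]
    ring
  rw [← h2]
  exact h1

theorem cholL_pos {G : Mat3} (hG : G.PosDef) : 0 < G 0 0 ∧ 0 < G 1 1 - G 1 0 ^ 2 / G 0 0 ∧
    0 < G 2 2 - G 2 0 ^ 2 / G 0 0
      - (G 2 1 - G 2 0 * G 1 0 / G 0 0) ^ 2 / (G 1 1 - G 1 0 ^ 2 / G 0 0) := by
  have ha : 0 < G 0 0 := by
    have h := CH_quad hG 1 0 0 (Or.inl one_ne_zero)
    simpa using h
  have hb : 0 < G 1 1 - G 1 0 ^ 2 / G 0 0 := by
    have h := CH_quad hG (-(G 1 0 / G 0 0)) 1 0 (Or.inr (Or.inl one_ne_zero))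
    have h2 : G 0 0 * (-(G 1 0 / G 0 0)) ^ 2 + G 1 1 * 1 ^ 2 + G 2 2 * 0 ^ 2
        + 2 * (G 1 0 * (-(G 1 0 / G 0 0) * 1)) + 2 * (G 2 0 * (-(G 1 0 / G 0 0) * 0))
        + 2 * (G 2 1 * (1 * 0)) = G 1 1 - G 1 0 ^ 2 / G 0 0 := by
      field_simp
      ring
    rw [← h2]
    exact h
  refine ⟨ha, hb, ?_⟩
  set b := G 1 1 - G 1 0 ^ 2 / G 0 0 with hbd
  set r := G 2 1 - G 2 0 * G 1 0 / G 0 0 with hrd
  have h11 : G 1 1 = b + G 1 0 ^ 2 / G 0 0 := by rw [hbd]; ring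
  have h21 : G 2 1 = r + G 2 0 * G 1 0 / G 0 0 := by rw [hrd]; ring
  have h := CH_quad hG (-((G 2 0 + G 1 0 * (-(r / b))) / G 0 0)) (-(r / b)) 1
    (Or.inr (Or.inr one_ne_zero))
  have h2 : G 0 0 * (-((G 2 0 + G 1 0 * (-(r / b))) / G 0 0)) ^ 2 + G 1 1 * (-(r / b)) ^ 2
      + G 2 2 * 1 ^ 2 + 2 * (G 1 0 * (-((G 2 0 + G 1 0 * (-(r / b))) / G 0 0) * (-(r / b))))
      + 2 * (G 2 0 * (-((G 2 0 + G 1 0 * (-(r / b))) / G 0 0) * 1))
      + 2 * (G 2 1 * ((-(r / b)) * 1)) = G 2 2 - G 2 0 ^ 2 / G 0 0 - r ^ 2 / b := by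
    rw [h11, h21]
    have hb' : b ≠ 0 := hb.ne'
    have ha' : G 0 0 ≠ 0 := ha.ne'
    clear_value b r
    field_simp
    ring
  rw [← h2]
  exact h

theorem cholL_mul {G : Mat3} (hG : G.PosDef) : cholL G * (cholL G)ᵀ = G := by
  obtain ⟨ha, hb, hc⟩ := cholL_pos hG
  have s01 := CH_symm hG 0 1
  have s02 := CH_symm hG 0 2
  have s12 := CH_symm hG 1 2
  set b := G 1 1 - G 1 0 ^ 2 / G 0 0 with hbd
  set r := G 2 1 - G 2 0 * G 1 0 / G 0 0 with hrd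
  set c := G 2 2 - G 2 0 ^ 2 / G 0 0 - r ^ 2 / b with hcd
  have h11 : G 1 1 = b + G 1 0 ^ 2 / G 0 0 := by rw [hbd]; ring
  have h21 : G 2 1 = r + G 2 0 * G 1 0 / G 0 0 := by rw [hrd]; ring
  have h22 : G 2 2 = c + G 2 0 ^ 2 / G 0 0 + r ^ 2 / b := by rw [hcd]; ring
  have hL : cholL G = !![Real.sqrt (G 0 0), 0, 0; G 1 0 / Real.sqrt (G 0 0), Real.sqrt b, 0;
      G 2 0 / Real.sqrt (G 0 0), r / Real.sqrt b, Real.sqrt c] := rfl
  have qa : Real.sqrt (G 0 0) * Real.sqrt (G 0 0) = G 0 0 := Real.mul_self_sqrt ha.le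
  have qb : Real.sqrt b * Real.sqrt b = b := Real.mul_self_sqrt hb.le
  have qc : Real.sqrt c * Real.sqrt c = c := Real.mul_self_sqrt hc.le
  have na : Real.sqrt (G 0 0) ≠ 0 := (Real.sqrt_pos.mpr ha).ne'
  have nb : Real.sqrt b ≠ 0 := (Real.sqrt_pos.mpr hb).ne'
  have d1 : ∀ x y : ℝ, x / Real.sqrt (G 0 0) * (y / Real.sqrt (G 0 0)) = x * y / G 0 0 := by
    intro x y
    rw [div_mul_div_comm, qa]
  have d2 : ∀ x : ℝ, Real.sqrt (G 0 0) * (x / Real.sqrt (G 0 0)) = x := fun x => by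
    field_simp
  have d3 : ∀ x : ℝ, x / Real.sqrt (G 0 0) * Real.sqrt (G 0 0) = x := fun x => by
    field_simp
  have d4 : ∀ x : ℝ, Real.sqrt b * (x / Real.sqrt b) = x := fun x => by
    field_simp
  have d5 : ∀ x : ℝ, x / Real.sqrt b * Real.sqrt b = x := fun x => by
    field_simp
  have d6 : ∀ x y : ℝ, x / Real.sqrt b * (y / Real.sqrt b) = x * y / b := by
    intro x y
    rw [div_mul_div_comm, qb]
  rw [hL]
  ext i j
  rw [Matrix.mul_apply, Fin.sum_univ_three]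
  simp only [Matrix.transpose_apply]
  fin_cases i <;> fin_cases j <;> simp [d1, d2, d3, d4, d5, d6, qa, qb, qc]
  · exact s01.symm
  · exact s02.symm
  · rw [h11]; ring
  · rw [s12, h21]; ring
  · rw [h21]; ring
  · rw [h22]; ring

theorem sq_mul {G : Mat3} (hG : G.PosDef) : sq G * (sq G)ᵀ = G⁻¹ := by
  unfold sq
  rw [Matrix.transpose_transpose, Matrix.transpose_nonsing_inv, ← Matrix.mul_inv_rev,
    cholL_mul hG]

theorem sq_contDiffOn {X : Type*} [NormedAddCommGroup X] [NormedSpace ℝ X] {S : Set X}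
    {G : X → Mat3} (hG : ∀ i j, ContDiffOn ℝ ∞ (fun z => G z i j) S)
    (hp : ∀ z ∈ S, (G z).PosDef) (i j : Fin 3) : ContDiffOn ℝ ∞ (fun z => sq (G z) i j) S := by
  have hb : ContDiffOn ℝ ∞ (fun z => G z 1 1 - G z 1 0 ^ 2 / G z 0 0) S :=
    (hG 1 1).sub (((hG 1 0).pow 2).div (hG 0 0) fun z hz => (cholL_pos (hp z hz)).1.ne')
  have hr : ContDiffOn ℝ ∞ (fun z => G z 2 1 - G z 2 0 * G z 1 0 / G z 0 0) S :=
    (hG 2 1).sub (((hG 2 0).mul (hG 1 0)).div (hG 0 0) fun z hz => (cholL_pos (hp z hz)).1.ne')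
  have hc : ContDiffOn ℝ ∞ (fun z => G z 2 2 - G z 2 0 ^ 2 / G z 0 0
      - (G z 2 1 - G z 2 0 * G z 1 0 / G z 0 0) ^ 2 / (G z 1 1 - G z 1 0 ^ 2 / G z 0 0)) S :=
    ((hG 2 2).sub (((hG 2 0).pow 2).div (hG 0 0) fun z hz => (cholL_pos (hp z hz)).1.ne')).sub
      ((hr.pow 2).div hb fun z hz => (cholL_pos (hp z hz)).2.1.ne')
  have sa : ContDiffOn ℝ ∞ (fun z => Real.sqrt (G z 0 0)) S :=
    (hG 0 0).sqrt fun z hz => (cholL_pos (hp z hz)).1.ne'
  have sb : ContDiffOn ℝ ∞ (fun z => Real.sqrt (G z 1 1 - G z 1 0 ^ 2 / G z 0 0)) S :=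
    hb.sqrt fun z hz => (cholL_pos (hp z hz)).2.1.ne'
  have sc := hc.sqrt fun z hz => (cholL_pos (hp z hz)).2.2.ne'
  have ha' : ∀ z ∈ S, Real.sqrt (G z 0 0) ≠ 0 := fun z hz =>
    (Real.sqrt_pos.mpr (cholL_pos (hp z hz)).1).ne'
  have hb' : ∀ z ∈ S, Real.sqrt (G z 1 1 - G z 1 0 ^ 2 / G z 0 0) ≠ 0 := fun z hz =>
    (Real.sqrt_pos.mpr (cholL_pos (hp z hz)).2.1).ne'
  refine inv_contDiffOn (G := fun z => cholL (G z)) ?_ ?_ j i
  · intro k l
    fin_cases k <;> fin_cases l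
    · exact sa
    · exact contDiffOn_const
    · exact contDiffOn_const
    · exact (hG 1 0).div sa ha'
    · exact sb
    · exact contDiffOn_const
    · exact (hG 2 0).div sa ha'
    · exact hr.div sb hb'
    · exact sc
  · intro z hz h0
    have h1 := congrArg Matrix.det (cholL_mul (hp z hz))
    rw [Matrix.det_mul, Matrix.det_transpose, h0, mul_zero] at h1
    exact (hp z hz).det_pos.ne h1

end Pool.Agent.RFS.AA
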