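import Pool.Agent.RFS.A2BL

/-!
RFS chunk (a2), module GJ: the jets of a Gram matrix function G y = gram (v y) (A y).

Proof. First derivatives: A2BL.pd_bil entrywise. Second derivatives: pd p of each of the three terms
of gj1 at nearby points (the formula of the first derivative holds on the open set U, so pd p of
pd r G is pd p of the formula: Filter.EventuallyEq.fderiv_eq), again with pd_bil:
 ∂_p [bil q_r A_i A_j] = bil (∂_p q_r) A_i A_j + bil q_r (A2 p i) A_j + bil q_r A_i (A2 p j), etc.;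
bil (∂_p ∂_r v) A_i A_j is the entry of gram (pdv p (pdv r v) x) (A x), the rest is gj2.
All functions pdv k v, pdv k A_i are smooth on U (ContDiffOn.fderiv_of_isOpen, evaluation at bv k).
-/

open scoped Manifold ContDiff Matrix
open Set

namespace Pool.Agent.RFS.AA

variable {N : ℕ} {v : E3 → FN N} {A : E3 → Fin 3 → EN N} {U : Set E3}

private theorem A2GJ_pd_add3 {f g h : E3 → ℝ} {x : E3} (hf : DifferentiableAt ℝ f x)
    (hg : DifferentiableAt ℝ g x) (hh : DifferentiableAt ℝ h x) (p : Fin 3) :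
    pd p (fun y => f y + g y + h y) x = pd p f x + pd p g x + pd p h x := by
  unfold pd
  have e1 := ((hf.hasFDerivAt.add hg.hasFDerivAt).add hh.hasFDerivAt).fderiv
  have e2 : fderiv ℝ (fun y => f y + g y + h y) x
      = fderiv ℝ f x + fderiv ℝ g x + fderiv ℝ h x := e1
  rw [e2]
  rfl

theorem pdv_contDiffOn {X : Type*} [NormedAddCommGroup X] [NormedSpace ℝ X] {h : E3 → X}
    (hU : IsOpen U) (hh : ContDiffOn ℝ ∞ h U) (k : Fin 3) :
    ContDiffOn ℝ ∞ (fun y => pdv k h y) U := by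
  unfold pdv
  exact (hh.fderiv_of_isOpen hU (m := ∞) (by simp)).clm_apply contDiffOn_const

theorem gram_contDiffOn (hv : ContDiffOn ℝ ∞ v U)
    (hA : ∀ i, ContDiffOn ℝ ∞ (fun y => A y i) U) (i j : Fin 3) :
    ContDiffOn ℝ ∞ (fun y => gram (v y) (A y) i j) U :=
  bil_contDiff.comp_contDiffOn (hv.prodMk ((hA i).prodMk (hA j)))

theorem jet1_gram (hU : IsOpen U) (hv : ContDiffOn ℝ ∞ v U)
    (hA : ∀ i, ContDiffOn ℝ ∞ (fun y => A y i) U) {x : E3} (hx : x ∈ U) (k : Fin 3) :
    jet1 (fun y => gram (v y) (A y)) x k = gj1 (v x) (fun r => pdv r v x) (A x)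
      (fun r i => pdv r (fun y => A y i) x) k := by
  have hd : ∀ {X : Type} [NormedAddCommGroup X] [NormedSpace ℝ X] {h : E3 → X},
      ContDiffOn ℝ ∞ h U → DifferentiableAt ℝ h x := fun hh =>
    (hh.differentiableOn (by simp)).differentiableAt (hU.mem_nhds hx)
  ext i j
  exact pd_bil (hd hv) (hd (hA i)) (hd (hA j)) k

theorem jet2_gram (hU : IsOpen U) (hv : ContDiffOn ℝ ∞ v U)
    (hA : ∀ i, ContDiffOn ℝ ∞ (fun y => A y i) U) {x : E3} (hx : x ∈ U) (p r : Fin 3) :
    jet2 (fun y => gram (v y) (A y)) x p r = gj2 (v x) (fun r => pdv r v x) (A x)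
      (fun r i => pdv r (fun y => A y i) x)
      (fun p r i => pdv p (fun y => pdv r (fun z => A z i) y) x) p r
      + gram (pdv p (pdv r v) x) (A x) := by
  have hd : ∀ {X : Type} [NormedAddCommGroup X] [NormedSpace ℝ X] {h : E3 → X},
      ContDiffOn ℝ ∞ h U → ∀ y ∈ U, DifferentiableAt ℝ h y := fun hh y hy =>
    (hh.differentiableOn (by simp)).differentiableAt (hU.mem_nhds hy)
  have hv' := pdv_contDiffOn hU hv r
  have hA' := fun i => pdv_contDiffOn hU (hA i) r
  ext i j
  have heq : (fun y => pd r (fun z => bil (v z) (A z i) (A z j)) y) =ᶠ[nhds x]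
      fun y => bil (pdv r v y) (A y i) (A y j) + bil (v y) (pdv r (fun z => A z i) y) (A y j)
        + bil (v y) (A y i) (pdv r (fun z => A z j) y) := by
    filter_upwards [hU.mem_nhds hx] with y hy
    exact pd_bil (hd hv y hy) (hd (hA i) y hy) (hd (hA j) y hy) r
  have h1 : pd p (fun y => pd r (fun z => bil (v z) (A z i) (A z j)) y) x
      = pd p (fun y => bil (pdv r v y) (A y i) (A y j)
        + bil (v y) (pdv r (fun z => A z i) y) (A y j)
        + bil (v y) (A y i) (pdv r (fun z => A z j) y)) x := by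
    unfold pd at heq ⊢
    rw [heq.fderiv_eq]
  have hb : ∀ {u : E3 → FN N} {w w' : E3 → EN N}, ContDiffOn ℝ ∞ u U → ContDiffOn ℝ ∞ w U →
      ContDiffOn ℝ ∞ w' U → DifferentiableAt ℝ (fun y => bil (u y) (w y) (w' y)) x :=
    fun hu hw hw' => hd (bil_contDiff.comp_contDiffOn (hu.prodMk (hw.prodMk hw'))) x hx
  rw [A2GJ_pd_add3 (hb hv' (hA i) (hA j)) (hb hv (hA' i) (hA j)) (hb hv (hA i) (hA' j)),
    pd_bil (hd hv' x hx) (hd (hA i) x hx) (hd (hA j) x hx),
    pd_bil (hd hv x hx) (hd (hA' i) x hx) (hd (hA j) x hx),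
    pd_bil (hd hv x hx) (hd (hA i) x hx) (hd (hA' j) x hx)] at h1
  have h2 : jet2 (fun y => gram (v y) (A y)) x p r i j
      = pd p (fun y => pd r (fun z => bil (v z) (A z i) (A z j)) y) x := rfl
  rw [h2, h1, Matrix.add_apply]
  simp only [gj2, gram, Matrix.of_apply]
  show _ = _ + bil (pdv p (pdv r v) x) (A x i) (A x j)
  have e1 : (fun y => pdv r v y) = pdv r v := rfl
  rw [e1]
  ring

end Pool.Agent.RFS.AA
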