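import Pool.Agent.RFS.NCH

/-!
# RFS, chunk N, module NRI: the curvature under a change of coordinates
-/

open scoped Manifold ContDiff Matrix Topology
open Set

noncomputable section

namespace Pool.Agent.RFS.NN

/-! ### Smoothness of the inverse matrix and of the Christoffel symbols -/

theorem contDiffOn_det {E : Type*} [NormedAddCommGroup E] [NormedSpace ℝ E] {n : WithTop ℕ∞}
    {G : E → Mat3} {U : Set E} (hG : ∀ i j, ContDiffOn ℝ n (fun y => G y i j) U) :
    ContDiffOn ℝ n (fun y => (G y).det) U := by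
  simp only [Matrix.det_fin_three]
  fun_prop (disch := first | exact hG _ _ | simp)

theorem contDiffOn_inv_entry {E : Type*} [NormedAddCommGroup E] [NormedSpace ℝ E]
    {n : WithTop ℕ∞} {G : E → Mat3} {U : Set E}
    (hG : ∀ i j, ContDiffOn ℝ n (fun y => G y i j) U) (hd : ∀ y ∈ U, (G y).det ≠ 0)
    (i j : Fin 3) : ContDiffOn ℝ n (fun y => (G y)⁻¹ i j) U := by
  have h1 : (fun y => (G y)⁻¹ i j) = fun y => ((G y).det)⁻¹ * (G y).adjugate i j := by
    funext y
    rw [Matrix.inv_def, Matrix.smul_apply, smul_eq_mul, Ring.inverse_eq_inv']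
  rw [h1]
  refine ((contDiffOn_det hG).inv hd).mul ?_
  have h2 : ∀ a b c d : Fin 3, ContDiffOn ℝ n (fun y => G y a b * G y c d) U := fun a b c d =>
    (hG a b).mul (hG c d)
  fin_cases i <;> fin_cases j <;>
    simp only [Matrix.adjugate_fin_three, Matrix.of_apply, Matrix.cons_val', Matrix.cons_val,
      Matrix.cons_val_zero, Matrix.cons_val_one, Fin.zero_eta, Fin.mk_one, Fin.reduceFinMk] <;>
    first
      | exact (h2 _ _ _ _).sub (h2 _ _ _ _)
      | exact (h2 _ _ _ _).neg.add (h2 _ _ _ _)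

theorem contDiffOn_chr {G : E3 → Mat3} {U : Set E3} (hU : IsOpen U)
    (hG : ∀ i j, ContDiffOn ℝ ∞ (fun y => G y i j) U) (hd : ∀ y ∈ U, (G y).det ≠ 0)
    (k i j : Fin 3) : ContDiffOn ℝ ∞ (fun y => chr G y k i j) U := by
  unfold chr
  refine contDiffOn_const.mul (ContDiffOn.sum fun l _ => ?_)
  refine (contDiffOn_inv_entry hG hd k l).mul ?_
  exact ((contDiffOn_pd hU (hG j l) i).add (contDiffOn_pd hU (hG i l) j)).sub
    (contDiffOn_pd hU (hG i j) l)

/-! ### The curvature tensor -/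

/-- The curvature `R^k_{j,ni} = ∂ₙ Γ^k_{ij} - ∂ᵢ Γ^k_{nj} + Γ^k_{nm} Γ^m_{ij} - Γ^k_{im} Γ^m_{nj}`. -/
def riem (G : E3 → Mat3) (x : E3) (k j n i : Fin 3) : ℝ :=
  pd n (fun y => chr G y k i j) x - pd i (fun y => chr G y k n j) x
    + ∑ m, (chr G x k n m * chr G x m i j - chr G x k i m * chr G x m n j)

theorem ricci_eq_riem (G : E3 → Mat3) (x : E3) (i j : Fin 3) :
    ricci G x i j = ∑ n, riem G x n j n i := rfl

theorem contDiffOn_riem {G : E3 → Mat3} {U : Set E3} (hU : IsOpen U)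
    (hG : ∀ i j, ContDiffOn ℝ ∞ (fun y => G y i j) U) (hd : ∀ y ∈ U, (G y).det ≠ 0)
    (k j n i : Fin 3) : ContDiffOn ℝ ∞ (fun y => riem G y k j n i) U := by
  have hc := contDiffOn_chr hU hG hd
  unfold riem
  refine ((contDiffOn_pd hU (hc k i j) n).sub (contDiffOn_pd hU (hc k n j) i)).add
    (ContDiffOn.sum fun m _ => ?_)
  exact ((hc k n m).mul (hc m i j)).sub ((hc k i m).mul (hc m n j))

theorem contDiffOn_ricci {G : E3 → Mat3} {U : Set E3} (hU : IsOpen U)
    (hG : ∀ i j, ContDiffOn ℝ ∞ (fun y => G y i j) U) (hd : ∀ y ∈ U, (G y).det ≠ 0)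
    (i j : Fin 3) : ContDiffOn ℝ ∞ (fun y => ricci G y i j) U := by
  have h1 : (fun y => ricci G y i j) = fun y => ∑ n, riem G y n j n i := by
    funext y
    exact ricci_eq_riem G y i j
  rw [h1]
  exact ContDiffOn.sum fun n _ => contDiffOn_riem hU hG hd n j n i

section Alg

/-- algebra of the transformation law of the curvature, first part -/
private theorem alg_one (J : Fin 3 → Fin 3 → ℝ) (H Γ Γ' : Fin 3 → Fin 3 → Fin 3 → ℝ)
    (T dΓ dΓ' : Fin 3 → Fin 3 → Fin 3 → Fin 3 → ℝ) (c n i j : Fin 3)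
    (h1 : ∀ c i j, ∑ k, J c k * Γ k i j = H c i j + ∑ a, ∑ b, Γ' c a b * J a i * J b j)
    (h2 : ∑ k, (H c n k * Γ k i j + J c k * dΓ n k i j) = T c n i j
      + ∑ a, ∑ b, ((∑ e, dΓ' e c a b * J e n) * J a i * J b j + Γ' c a b * H a n i * J b j
        + Γ' c a b * J a i * H b n j)) :
    ∑ k, J c k * (dΓ n k i j + ∑ m, Γ k n m * Γ m i j) = T c n i j
      + (∑ a, ∑ b, (∑ e, dΓ' e c a b * J e n) * J a i * J b j)
      + (∑ a, ∑ b, Γ' c a b * H a n i * J b j)
      + (∑ a, ∑ b, Γ' c a b * J a i * H b n j)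
      + (∑ a, ∑ b, Γ' c a b * J a n * H b i j)
      + (∑ a, ∑ b, Γ' c a b * J a n * ∑ e, ∑ f, Γ' b e f * J e i * J f j) := by
  have e1 : ∑ k, J c k * (dΓ n k i j + ∑ m, Γ k n m * Γ m i j)
      = (∑ k, (H c n k * Γ k i j + J c k * dΓ n k i j))
        + ∑ m, (∑ k, J c k * Γ k n m - H c n m) * Γ m i j := by
    simp only [Fin.sum_univ_three]
    ring
  have e2 : ∑ m, (∑ k, J c k * Γ k n m - H c n m) * Γ m i j
      = ∑ a, ∑ b, Γ' c a b * J a n * ∑ m, J b m * Γ m i j := by
    have : ∀ m, ∑ k, J c k * Γ k n m - H c n m = ∑ a, ∑ b, Γ' c a b * J a n * J b m := by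
      intro m
      rw [h1 c n m]
      ring
    simp only [this]
    simp only [Fin.sum_univ_three]
    ring
  have e3 : ∑ a, ∑ b, Γ' c a b * J a n * ∑ m, J b m * Γ m i j
      = (∑ a, ∑ b, Γ' c a b * J a n * H b i j)
      + (∑ a, ∑ b, Γ' c a b * J a n * ∑ e, ∑ f, Γ' b e f * J e i * J f j) := by
    rw [← Finset.sum_add_distrib]
    refine Finset.sum_congr rfl fun a _ => ?_
    rw [← Finset.sum_add_distrib]
    refine Finset.sum_congr rfl fun b _ => ?_
    rw [h1 b i j]
    ring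
  rw [e1, e2, e3, h2]
  simp only [Finset.sum_add_distrib]
  ring

/-- algebra of the transformation law of the curvature, second part -/
private theorem alg_two (J : Fin 3 → Fin 3 → ℝ) (H Γ Γ' : Fin 3 → Fin 3 → Fin 3 → ℝ)
    (T dΓ dΓ' : Fin 3 → Fin 3 → Fin 3 → Fin 3 → ℝ) (c n i j : Fin 3)
    (hH : ∀ c i j, H c i j = H c j i) (hT : T c n i j = T c i n j)
    (h1 : ∀ c i j, ∑ k, J c k * Γ k i j = H c i j + ∑ a, ∑ b, Γ' c a b * J a i * J b j)
    (h2 : ∀ n i, ∑ k, (H c n k * Γ k i j + J c k * dΓ n k i j) = T c n i j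
      + ∑ a, ∑ b, ((∑ e, dΓ' e c a b * J e n) * J a i * J b j + Γ' c a b * H a n i * J b j
        + Γ' c a b * J a i * H b n j)) :
    ∑ k, J c k * (dΓ n k i j - dΓ i k n j + ∑ m, (Γ k n m * Γ m i j - Γ k i m * Γ m n j))
      = ∑ e, ∑ a, ∑ b, J e n * J a i * J b j * (dΓ' e c a b - dΓ' a c e b
        + ∑ m, (Γ' c e m * Γ' m a b - Γ' c a m * Γ' m e b)) := by
  have a1 := alg_one J H Γ Γ' T dΓ dΓ' c n i j h1 (h2 n i)
  have a2 := alg_one J H Γ Γ' T dΓ dΓ' c i n j h1 (h2 i n)
  have b1 : ∑ k, J c k * (dΓ n k i j - dΓ i k n j + ∑ m, (Γ k n m * Γ m i j - Γ k i m * Γ m n j))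
      = ∑ k, J c k * (dΓ n k i j + ∑ m, Γ k n m * Γ m i j)
        - ∑ k, J c k * (dΓ i k n j + ∑ m, Γ k i m * Γ m n j) := by
    rw [← Finset.sum_sub_distrib]
    refine Finset.sum_congr rfl fun k _ => ?_
    rw [Finset.sum_sub_distrib]
    ring
  have b2 : ∑ a, ∑ b, Γ' c a b * H a i n * J b j = ∑ a, ∑ b, Γ' c a b * H a n i * J b j := by
    refine Finset.sum_congr rfl fun a _ => Finset.sum_congr rfl fun b _ => ?_
    rw [hH a i n]
  have b3 : ∑ e, ∑ a, ∑ b, J e n * J a i * J b j * (dΓ' e c a b - dΓ' a c e b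
        + ∑ m, (Γ' c e m * Γ' m a b - Γ' c a m * Γ' m e b))
      = (∑ a, ∑ b, (∑ e, dΓ' e c a b * J e n) * J a i * J b j)
      - (∑ a, ∑ b, (∑ e, dΓ' e c a b * J e i) * J a n * J b j)
      + (∑ a, ∑ b, Γ' c a b * J a n * ∑ e, ∑ f, Γ' b e f * J e i * J f j)
      - (∑ a, ∑ b, Γ' c a b * J a i * ∑ e, ∑ f, Γ' b e f * J e n * J f j) := by
    simp only [Fin.sum_univ_three]
    ring
  rw [b1, a1, a2, b2, hT, b3]
  ring

end Alg

namespace Chg

variable {U V : Set E3} {φ : E3 → E3} {G G' : E3 → Mat3}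

theorem sH (h : Chg U V φ G G') (c i j : Fin 3) : ContDiffOn ℝ ∞ (fun y => hesm φ y c i j) U :=
  contDiffOn_pd h.oU (h.sJ c j) i

theorem schr (h : Chg U V φ G G') (k i j : Fin 3) : ContDiffOn ℝ ∞ (fun y => chr G y k i j) U :=
  contDiffOn_chr h.oU h.sG h.dG k i j

theorem schr' (h : Chg U V φ G G') (k i j : Fin 3) :
    ContDiffOn ℝ ∞ (fun y => chr G' y k i j) V :=
  contDiffOn_chr h.oV h.sG' h.dG' k i j

/-- transformation law of the curvature tensor -/
theorem riem_law (h : Chg U V φ G G') {x : E3} (hx : x ∈ U) (c j n i : Fin 3) :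
    ∑ k, jacm φ x c k * riem G x k j n i = ∑ e, ∑ a, ∑ b,
      jacm φ x e n * jacm φ x a i * jacm φ x b j * riem G' (φ x) c b e a := by
  have dJ : ∀ a b, DifferentiableAt ℝ (fun y => jacm φ y a b) x := fun a b =>
    differentiableAt_of_contDiffOn h.oU (h.sJ a b) hx
  have dH : ∀ a b c, DifferentiableAt ℝ (fun y => hesm φ y a b c) x := fun a b c =>
    differentiableAt_of_contDiffOn h.oU (h.sH a b c) hx
  have dΓ : ∀ a b c, DifferentiableAt ℝ (fun y => chr G y a b c) x := fun a b c =>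
    differentiableAt_of_contDiffOn h.oU (h.schr a b c) hx
  have dΓ' : ∀ a b c, DifferentiableAt ℝ (fun y => chr G' (φ y) a b c) x := fun a b c =>
    differentiableAt_of_contDiffOn h.oU (h.scomp (h.schr' a b c)) hx
  refine alg_two (fun a b => jacm φ x a b) (fun c i j => hesm φ x c i j)
    (fun k i j => chr G x k i j) (fun k i j => chr G' (φ x) k i j)
    (fun c n i j => pd n (fun y => hesm φ y c i j) x)
    (fun n k i j => pd n (fun y => chr G y k i j) x)
    (fun n k i j => pd n (fun y => chr G' y k i j) (φ x)) c n i j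
    (fun c i j => h.H_symm hx c i j) ?_ (fun c i j => h.chr_law hx c i j) ?_
  · exact pd_comm_of_contDiffOn h.oU (h.sJ c j) hx n i
  · intro n i
    have key : pd n (fun y => ∑ k, jacm φ y c k * chr G y k i j) x
        = pd n (fun y => hesm φ y c i j
          + ∑ a, ∑ b, chr G' (φ y) c a b * jacm φ y a i * jacm φ y b j) x :=
      pd_congr_of_mem h.oU hx (fun y hy => h.chr_law hy c i j) n
    have d1 : ∀ k, DifferentiableAt ℝ (fun y => jacm φ y c k * chr G y k i j) x := fun k =>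
      (dJ c k).mul (dΓ k i j)
    have d2 : ∀ a b, DifferentiableAt ℝ (fun y => chr G' (φ y) c a b * jacm φ y a i) x :=
      fun a b => (dΓ' c a b).mul (dJ a i)
    have d3 : ∀ a b, DifferentiableAt ℝ
        (fun y => chr G' (φ y) c a b * jacm φ y a i * jacm φ y b j) x := fun a b =>
      (d2 a b).mul (dJ b j)
    have d4 : ∀ a, DifferentiableAt ℝ
        (fun y => ∑ b, chr G' (φ y) c a b * jacm φ y a i * jacm φ y b j) x := fun a =>
      DifferentiableAt.fun_sum fun b _ => d3 a b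
    have d5 : DifferentiableAt ℝ
        (fun y => ∑ a, ∑ b, chr G' (φ y) c a b * jacm φ y a i * jacm φ y b j) x :=
      DifferentiableAt.fun_sum fun a _ => d4 a
    rw [pd_sum_univ d1, pd_add (dH c i j) d5, pd_sum_univ d4] at key
    have k1 : ∀ k, pd n (fun y => jacm φ y c k * chr G y k i j) x
        = hesm φ x c n k * chr G x k i j + jacm φ x c k * pd n (fun y => chr G y k i j) x :=
      fun k => pd_mul (dJ c k) (dΓ k i j) n
    have k2 : ∀ a, pd n (fun y => ∑ b, chr G' (φ y) c a b * jacm φ y a i * jacm φ y b j) x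
        = ∑ b, ((∑ e, pd e (fun y => chr G' y c a b) (φ x) * jacm φ x e n)
            * jacm φ x a i * jacm φ x b j
          + chr G' (φ x) c a b * hesm φ x a n i * jacm φ x b j
          + chr G' (φ x) c a b * jacm φ x a i * hesm φ x b n j) := by
      intro a
      rw [pd_sum_univ (d3 a)]
      refine Finset.sum_congr rfl fun b _ => ?_
      rw [pd_mul (d2 a b) (dJ b j), pd_mul (dΓ' c a b) (dJ a i)]
      have h1 : pd n (fun y => chr G' (φ y) c a b) x
          = ∑ e, pd e (fun y => chr G' y c a b) (φ x) * jacm φ x e n :=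
        pd_comp (f := fun y => chr G' y c a b)
          (differentiableAt_of_contDiffOn h.oV (h.schr' c a b) (h.maps x hx))
          (fun a => differentiableAt_of_contDiffOn h.oU (h.sφ a) hx) n
      rw [h1]
      unfold hesm
      ring
    simp only [k1, k2] at key
    exact key

/-- the Ricci tensor is natural -/
theorem ricci_law_apply (h : Chg U V φ G G') {x : E3} (hx : x ∈ U) (i j : Fin 3) :
    ricci G x i j = ∑ a, ∑ b, jacm φ x a i * jacm φ x b j * ricci G' (φ x) a b := by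
  have hJ : IsUnit (jacm φ x).det := isUnit_iff_ne_zero.mpr (h.dJ x hx)
  set K := (jacm φ x)⁻¹ with hK
  have h1 : ∀ a b, ∑ k, K a k * jacm φ x k b = if a = b then 1 else 0 := by
    intro a b
    have := congrFun (congrFun (Matrix.nonsing_inv_mul _ hJ) a) b
    rw [Matrix.mul_apply, Matrix.one_apply] at this
    exact this
  have h2 : ∀ a b, ∑ k, jacm φ x a k * K k b = if a = b then 1 else 0 := by
    intro a b
    have := congrFun (congrFun (Matrix.mul_nonsing_inv _ hJ) a) b
    rw [Matrix.mul_apply, Matrix.one_apply] at this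
    exact this
  have h3 : ∀ k n, riem G x k j n i = ∑ c, K k c * ∑ l, jacm φ x c l * riem G x l j n i := by
    intro k n
    have : ∑ c, K k c * ∑ l, jacm φ x c l * riem G x l j n i
        = ∑ l, (∑ c, K k c * jacm φ x c l) * riem G x l j n i := by
      simp only [Finset.mul_sum, Finset.sum_mul]
      rw [Finset.sum_comm]
      exact Finset.sum_congr rfl fun _ _ => Finset.sum_congr rfl fun _ _ => by ring
    rw [this]
    simp only [h1]
    simp
  rw [ricci_eq_riem]
  calc ∑ n, riem G x n j n i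
      = ∑ n, ∑ c, K n c * ∑ e, ∑ a, ∑ b,
          jacm φ x e n * jacm φ x a i * jacm φ x b j * riem G' (φ x) c b e a := by
        refine Finset.sum_congr rfl fun n _ => ?_
        rw [h3 n n]
        refine Finset.sum_congr rfl fun c _ => ?_
        rw [h.riem_law hx]
    _ = ∑ c, ∑ e, (∑ n, jacm φ x e n * K n c) * ∑ a, ∑ b,
          jacm φ x a i * jacm φ x b j * riem G' (φ x) c b e a := by
        rw [Finset.sum_comm]
        refine Finset.sum_congr rfl fun c _ => ?_
        simp only [Finset.mul_sum, Finset.sum_mul]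
        rw [Finset.sum_comm]
        refine Finset.sum_congr rfl fun e _ => ?_
        rw [Finset.sum_comm]
        refine Finset.sum_congr rfl fun a _ => ?_
        rw [Finset.sum_comm]
        exact Finset.sum_congr rfl fun _ _ => Finset.sum_congr rfl fun _ _ => by ring
    _ = ∑ a, ∑ b, jacm φ x a i * jacm φ x b j * ricci G' (φ x) a b := by
        simp only [h2, ite_mul, one_mul, zero_mul, Finset.sum_ite_eq', Finset.mem_univ, if_true]
        simp only [ricci_eq_riem, Finset.mul_sum]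
        rw [Finset.sum_comm]
        exact Finset.sum_congr rfl fun _ _ => Finset.sum_comm

theorem ricci_law (h : Chg U V φ G G') {x : E3} (hx : x ∈ U) :
    ricci G x = (jacm φ x)ᵀ * ricci G' (φ x) * jacm φ x := by
  ext i j
  rw [h.ricci_law_apply hx i j]
  simp only [Matrix.mul_apply, Matrix.transpose_apply, Finset.sum_mul]
  rw [Finset.sum_comm]
  exact Finset.sum_congr rfl fun _ _ => Finset.sum_congr rfl fun _ _ => by ring

theorem scal_law (h : Chg U V φ G G') {x : E3} (hx : x ∈ U) : scal G x = scal G' (φ x) := by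
  have hJ : IsUnit (jacm φ x).det := isUnit_iff_ne_zero.mpr (h.dJ x hx)
  unfold scal
  rw [← h.inv_law hx, h.ricci_law hx]
  rw [show (G x)⁻¹ * ((jacm φ x)ᵀ * ricci G' (φ x) * jacm φ x)
    = ((G x)⁻¹ * (jacm φ x)ᵀ * ricci G' (φ x)) * jacm φ x by simp only [Matrix.mul_assoc]]
  rw [Matrix.trace_mul_comm]
  simp only [Matrix.mul_assoc]

theorem pten_law (h : Chg U V φ G G') {x : E3} (hx : x ∈ U) :
    pten G x = (jacm φ x)ᵀ * pten G' (φ x) * jacm φ x := by
  unfold pten
  rw [h.scal_law hx, h.ricci_law hx, h.pull x hx, Matrix.mul_sub, Matrix.sub_mul]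
  congr 1
  rw [Matrix.mul_smul, Matrix.smul_mul]

theorem schouten_law (h : Chg U V φ G G') {x : E3} (hx : x ∈ U) :
    schouten G x = (jacm φ x)ᵀ * schouten G' (φ x) * jacm φ x := by
  unfold schouten
  rw [h.scal_law hx, h.ricci_law hx, h.pull x hx, Matrix.mul_sub, Matrix.sub_mul]
  congr 1
  rw [Matrix.mul_smul, Matrix.smul_mul]

end Chg

end Pool.Agent.RFS.NN
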