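import Pool.Agent.RFS.A2NA
import Pool.Agent.RFS.A2GJ
import Pool.Agent.RFS.NRI

/-!
RFS chunk (a2), module CT: changes of charts.

Proofs. IsManifold: the change of coordinates e.symm ≫ e' is in contDiffGroupoid (HasGroupoid.compatible
for e, e' ∈ atlas), which gives trans_contDiffOn (contDiffGroupoid membership, model 𝓡 3 = identity;
alternatively contMDiffOn_of_mem_maximalAtlas and contMDiffOn_symm_of_mem_maximalAtlas composed and
contMDiffOn_iff_contDiffOn). tdom is open: e.symm continuous on e.target. trans e' e ∘ trans e e' = id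
on tdom e e'; differentiate (chain rule, pd_comp): jac e' e (trans x) * jac e e' x = 1; so det ≠ 0.
jac e e' = jm (trans e e') by definition.
rep θ e = rep θ e' ∘ trans e e' on tdom e e' (e'.symm (e' q) = q).
fr_trans: chain rule for fderiv, with fderiv of trans applied to bv i = sum_k jac k i • bv k.
fr2_trans: differentiate fr_trans on the open set tdom (product rule, and the chain rule for
y -> fr θ e' (trans y) k).
sym2_pull / rmetric_pull: the cocycle condition of a metric is a Pull structure.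
bc_law: A2NA.Pull.chr.
opL_trans: with J = jac e e' x, G = Jᵀ G' J, so J G⁻¹ Jᵀ = G'⁻¹, ConLaw, fr_trans and fr2_trans:
 sum G⁻¹ p r (fr2 p r - C k p r fr k) = sum G⁻¹ p r (J_lp J_kr fr2' l k + ∂_p J_kr fr'_k - C k p r J_ak fr'_a)
 = sum G⁻¹ p r J_bp J_cr (fr2' b c - C'^a_bc fr'_a) = sum G'⁻¹ b c (fr2' b c - C'^a_bc fr'_a).
-/

open scoped Manifold ContDiff Matrix
open Set

namespace Pool.Agent.RFS.AA

variable {M : Type*} [TopologicalSpace M] [ChartedSpace E3 M] [IsManifold (𝓡 3) ∞ M]
  {X : Type*} [NormedAddCommGroup X] [NormedSpace ℝ X]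

private theorem ov_eq_aux (e e' : Ch M) : tdom e e' = (e.1.symm.trans e'.1).source := by
  ext x
  simp [tdom]

private theorem isOpen_ov_aux (e e' : Ch M) : IsOpen (tdom e e') := by
  rw [ov_eq_aux]
  exact (e.1.symm.trans e'.1).open_source

private theorem trans_mem_aux (e e' : Ch M) {x : E3} (hx : x ∈ tdom e e') :
    trans e e' x ∈ e'.1.target ∧ e'.1.symm (trans e e' x) = e.1.symm x ∧
      trans e e' x ∈ tdom e' e ∧ trans e' e (trans e e' x) = x := by
  have h1 : trans e e' x ∈ e'.1.target := e'.1.map_source hx.2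
  have h2 : e'.1.symm (trans e e' x) = e.1.symm x := e'.1.left_inv hx.2
  refine ⟨h1, h2, ⟨h1, ?_⟩, ?_⟩
  · show e'.1.symm (trans e e' x) ∈ e.1.source
    rw [h2]
    exact e.1.map_target hx.1
  · show e.1 (e'.1.symm (trans e e' x)) = x
    rw [h2]
    exact e.1.right_inv hx.1

private theorem contDiffOn_trans_aux (e e' : Ch M) :
    ContDiffOn ℝ ∞ (trans e e') (tdom e e') := by
  have h := HasGroupoid.compatible (G := contDiffGroupoid ∞ (𝓡 3)) e.2 e'.2
  rw [contDiffGroupoid, mem_groupoid_of_pregroupoid] at h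
  have h1 := h.1
  simp only [contDiffPregroupoid] at h1
  rw [ov_eq_aux]
  simp only [modelWithCornersSelf_coe, modelWithCornersSelf_coe_symm, Function.comp_id,
    Function.id_comp, preimage_id, range_id, inter_univ] at h1
  exact h1

private theorem differentiableAt_trans_aux (e e' : Ch M) {x : E3}
    (hx : x ∈ tdom e e') : DifferentiableAt ℝ (trans e e') x :=
  ((contDiffOn_trans_aux e e').contDiffAt ((isOpen_ov_aux e e').mem_nhds hx)).differentiableAt (by simp)

private theorem jac_apply_aux (e e' : Ch M) {x : E3} (hx : x ∈ tdom e e')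
    (k i : Fin 3) : jac e e' x k i = fderiv ℝ (trans e e') x (bv i) k := by
  have h := (differentiableAt_trans_aux e e' hx).hasFDerivAt
  have h2 : HasFDerivAt (fun y => trans e e' y k)
      ((EuclideanSpace.proj k : E3 →L[ℝ] ℝ).comp (fderiv ℝ (trans e e') x)) x :=
    (EuclideanSpace.proj k : E3 →L[ℝ] ℝ).hasFDerivAt.comp x h
  show fderiv ℝ (fun y => trans e e' y k) x (bv i) = _
  rw [h2.fderiv]
  rfl

private theorem contDiffOn_jac_aux (e e' : Ch M) (k i : Fin 3) :
    ContDiffOn ℝ ∞ (fun x => jac e e' x k i) (tdom e e') := by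
  have h1 : ContDiffOn ℝ ∞ (fderiv ℝ (trans e e')) (tdom e e') :=
    (contDiffOn_trans_aux e e').fderiv_of_isOpen (isOpen_ov_aux e e') (by simp)
  have h2 : ContDiffOn ℝ ∞ (fun x => fderiv ℝ (trans e e') x (bv i)) (tdom e e') :=
    h1.clm_apply contDiffOn_const
  have h3 : ContDiffOn ℝ ∞ (fun x => (EuclideanSpace.proj k : E3 →L[ℝ] ℝ)
      (fderiv ℝ (trans e e') x (bv i))) (tdom e e') :=
    (EuclideanSpace.proj k : E3 →L[ℝ] ℝ).contDiff.comp_contDiffOn h2
  exact h3.congr fun x hx => jac_apply_aux e e' hx k i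

private theorem sum_smul_bv_aux (c : Fin 3 → ℝ) (l : Fin 3) : (∑ k, c k • bv k) l = c l := by
  rw [Fin.sum_univ_three]
  fin_cases l <;> simp [bv]

private theorem fderiv_trans_bv_aux (e e' : Ch M) {x : E3} (hx : x ∈ tdom e e')
    (i : Fin 3) : fderiv ℝ (trans e e') x (bv i) = ∑ k, jac e e' x k i • bv k := by
  ext l
  rw [← jac_apply_aux e e' hx]
  exact (sum_smul_bv_aux (fun k => jac e e' x k i) l).symm

private theorem jac_mul_jac_aux (e e' : Ch M) {x : E3} (hx : x ∈ tdom e e') :
    jac e' e (trans e e' x) * jac e e' x = 1 := by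
  have hx' := (trans_mem_aux e e' hx).2.2.1
  have h1 := (differentiableAt_trans_aux e e' hx).hasFDerivAt
  have h2 := (differentiableAt_trans_aux e' e hx').hasFDerivAt
  have h3 := h2.comp x h1
  have h4 : (trans e' e ∘ trans e e') =ᶠ[nhds x] id := by
    filter_upwards [(isOpen_ov_aux e e').mem_nhds hx] with y hy
    exact (trans_mem_aux e e' hy).2.2.2
  have h5 : HasFDerivAt (trans e' e ∘ trans e e') (ContinuousLinearMap.id ℝ E3) x :=
    (hasFDerivAt_id x).congr_of_eventuallyEq h4
  have h6 := h3.unique h5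
  ext l i
  have h7 := congrArg (fun L : E3 →L[ℝ] E3 => L (bv i) l) h6
  simp only [ContinuousLinearMap.comp_apply, ContinuousLinearMap.id_apply] at h7
  rw [fderiv_trans_bv_aux e e' hx, map_sum] at h7
  simp only [map_smul] at h7
  have h8 : (∑ k, jac e e' x k i • fderiv ℝ (trans e' e) (trans e e' x) (bv k)) l =
      ∑ k, jac e e' x k i * fderiv ℝ (trans e' e) (trans e e' x) (bv k) l := by
    rw [Fin.sum_univ_three, Fin.sum_univ_three]
    simp
  rw [h8] at h7
  rw [Matrix.mul_apply, Matrix.one_apply]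
  have h9 : (bv i) l = if l = i then (1 : ℝ) else 0 := by
    fin_cases l <;> fin_cases i <;> simp [bv]
  rw [← h9, ← h7]
  apply Finset.sum_congr rfl
  intro k _
  rw [jac_apply_aux e' e hx']
  ring

theorem tdom_open (e e' : Ch M) : IsOpen (tdom e e') :=
  isOpen_ov_aux e e'

theorem trans_contDiffOn (e e' : Ch M) : ContDiffOn ℝ ∞ (trans e e') (tdom e e') :=
  contDiffOn_trans_aux e e'

theorem trans_maps (e e' : Ch M) : MapsTo (trans e e') (tdom e e') (tdom e' e) :=
  fun _ hx => (trans_mem_aux e e' hx).2.2.1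

theorem trans_trans (e e' : Ch M) {x : E3} (hx : x ∈ tdom e e') :
    trans e' e (trans e e' x) = x :=
  (trans_mem_aux e e' hx).2.2.2

theorem jac_eq (e e' : Ch M) (x : E3) : jac e e' x = jm (trans e e') x := rfl

theorem jac_mul (e e' : Ch M) {x : E3} (hx : x ∈ tdom e e') :
    jac e' e (trans e e' x) * jac e e' x = 1 :=
  jac_mul_jac_aux e e' hx

theorem jac_det (e e' : Ch M) {x : E3} (hx : x ∈ tdom e e') : (jac e e' x).det ≠ 0 := by
  intro h0
  have h1 := congrArg Matrix.det (jac_mul e e' hx)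
  rw [Matrix.det_mul, h0, mul_zero, Matrix.det_one] at h1
  exact zero_ne_one h1

theorem rep_trans (θ : M → X) (e e' : Ch M) {x : E3} (hx : x ∈ tdom e e') :
    rep θ e x = rep θ e' (trans e e' x) := by
  unfold rep
  rw [(trans_mem_aux e e' hx).2.1]

private theorem pdv_comp_trans (e e' : Ch M) {x : E3} (hx : x ∈ tdom e e') {h : E3 → X}
    (hh : DifferentiableAt ℝ h (trans e e' x)) (i : Fin 3) :
    pdv i (fun y => h (trans e e' y)) x = ∑ k, jac e e' x k i • pdv k h (trans e e' x) := by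
  have h1 := (differentiableAt_trans_aux e e' hx).hasFDerivAt
  have h2 := hh.hasFDerivAt.comp x h1
  have h3 : fderiv ℝ (fun y => h (trans e e' y)) x
      = (fderiv ℝ h (trans e e' x)).comp (fderiv ℝ (trans e e') x) := h2.fderiv
  unfold pdv
  rw [h3, ContinuousLinearMap.comp_apply, fderiv_trans_bv_aux e e' hx, map_sum]
  simp only [map_smul]

private theorem rep_diff {θ : M → X} (hθ : ∀ e : Ch M, ContDiffOn ℝ ∞ (rep θ e) e.1.target)
    (e : Ch M) {y : E3} (hy : y ∈ e.1.target) : DifferentiableAt ℝ (rep θ e) y :=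
  ((hθ e).contDiffAt (e.1.open_target.mem_nhds hy)).differentiableAt (by simp)

private theorem fr_smooth {θ : M → X} (hθ : ∀ e : Ch M, ContDiffOn ℝ ∞ (rep θ e) e.1.target)
    (e : Ch M) (i : Fin 3) : ContDiffOn ℝ ∞ (fun y => fr θ e y i) e.1.target :=
  ((hθ e).fderiv_of_isOpen e.1.open_target (m := ∞) (by simp)).clm_apply contDiffOn_const

private theorem fr_diff {θ : M → X} (hθ : ∀ e : Ch M, ContDiffOn ℝ ∞ (rep θ e) e.1.target)
    (e : Ch M) {y : E3} (hy : y ∈ e.1.target) (i : Fin 3) :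
    DifferentiableAt ℝ (fun y => fr θ e y i) y :=
  ((fr_smooth hθ e i).contDiffAt (e.1.open_target.mem_nhds hy)).differentiableAt (by simp)

theorem fr_trans {θ : M → X} (hθ : ∀ e : Ch M, ContDiffOn ℝ ∞ (rep θ e) e.1.target)
    (e e' : Ch M) {x : E3} (hx : x ∈ tdom e e') (i : Fin 3) :
    fr θ e x i = ∑ k, jac e e' x k i • fr θ e' (trans e e' x) k := by
  have h4 : rep θ e =ᶠ[nhds x] fun y => rep θ e' (trans e e' y) := by
    filter_upwards [(tdom_open e e').mem_nhds hx] with y hy
    exact rep_trans θ e e' hy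
  unfold fr
  rw [← pdv_comp_trans e e' hx (rep_diff hθ e' (trans_mem_aux e e' hx).1) i]
  unfold pdv
  rw [h4.fderiv_eq]

theorem fr2_trans {θ : M → X} (hθ : ∀ e : Ch M, ContDiffOn ℝ ∞ (rep θ e) e.1.target)
    (e e' : Ch M) {x : E3} (hx : x ∈ tdom e e') (p i : Fin 3) :
    fr2 θ e x p i = ∑ k, (pd p (fun y => jac e e' y k i) x • fr θ e' (trans e e' x) k
      + ∑ l, (jac e e' x l p * jac e e' x k i) • fr2 θ e' (trans e e' x) l k) := by
  have h4 : (fun y => fr θ e y i) =ᶠ[nhds x]
      fun y => ∑ k, jac e e' y k i • fr θ e' (trans e e' y) k := by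
    filter_upwards [(tdom_open e e').mem_nhds hx] with y hy
    exact fr_trans hθ e e' hy i
  have hx' : trans e e' x ∈ e'.1.target := (trans_mem_aux e e' hx).1
  have hJd : ∀ k, DifferentiableAt ℝ (fun y => jac e e' y k i) x := fun k =>
    ((contDiffOn_jac_aux e e' k i).contDiffAt ((tdom_open e e').mem_nhds hx)).differentiableAt
      (by simp)
  have hFd : ∀ k, DifferentiableAt ℝ (fun y => fr θ e' (trans e e' y) k) x := fun k =>
    (fr_diff hθ e' hx' k).comp x (differentiableAt_trans_aux e e' hx)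
  unfold fr2
  have h5 : pdv p (fun y => fr θ e y i) x
      = pdv p (fun y => ∑ k, jac e e' y k i • fr θ e' (trans e e' y) k) x := by
    unfold pdv
    rw [h4.fderiv_eq]
  rw [h5]
  have h6 : pdv p (fun y => ∑ k, jac e e' y k i • fr θ e' (trans e e' y) k) x
      = ∑ k, (pd p (fun y => jac e e' y k i) x • fr θ e' (trans e e' x) k
        + jac e e' x k i • pdv p (fun y => fr θ e' (trans e e' y) k) x) := by
    have hAd : ∀ k, DifferentiableAt ℝ
        (fun y => jac e e' y k i • fr θ e' (trans e e' y) k) x := fun k => (hJd k).smul (hFd k)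
    have h7 : fderiv ℝ (fun y => ∑ k, jac e e' y k i • fr θ e' (trans e e' y) k) x
        = ∑ k, fderiv ℝ (fun y => jac e e' y k i • fr θ e' (trans e e' y) k) x :=
      fderiv_fun_sum (fun k _ => hAd k)
    unfold pdv pd
    rw [h7, sum_apply]
    refine Finset.sum_congr rfl fun k _ => ?_
    rw [fderiv_fun_smul (hJd k) (hFd k)]
    simp only [add_apply, smul_apply, ContinuousLinearMap.smulRight_apply]
    rw [add_comm]
  rw [h6]
  refine Finset.sum_congr rfl fun k _ => ?_
  congr 1
  rw [pdv_comp_trans e e' hx (fr_diff hθ e' hx' k) p, Finset.smul_sum]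
  refine Finset.sum_congr rfl fun l _ => ?_
  rw [smul_smul, mul_comm]

theorem rmetric_pull (g : RMetric M) (e e' : Ch M) :
    Pull (trans e e') (g.c e) (g.c e') (tdom e e') e'.1.target := by
  refine ⟨tdom_open e e', e'.1.open_target, trans_contDiffOn e e', fun x hx => (trans_mem_aux e e' hx).1,
    g.smooth e', g.pos e', fun x hx => g.compat e e' x hx.1 hx.2, fun x hx => jac_det e e' hx⟩

theorem bc_law (g : RMetric M) (e e' : Ch M) {x : E3} (hx : x ∈ tdom e e') :
    ConLaw (trans e e') (bc g e) (bc g e') x := by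
  exact Pull.chr (rmetric_pull g e e') hx

theorem bc_contDiffOn (g : RMetric M) (e : Ch M) (k i j : Fin 3) :
    ContDiffOn ℝ ∞ (fun y => bc g e y k i j) e.1.target :=
  NN.contDiffOn_chr e.1.open_target (g.smooth e) (fun y hy => (g.pos e y hy).det_pos.ne') k i j

theorem opL_trans {θ : M → X} (hθ : ∀ e : Ch M, ContDiffOn ℝ ∞ (rep θ e) e.1.target)
    (e e' : Ch M) {x : E3} (hx : x ∈ tdom e e') {G G' : Mat3} (h0 : G'.det ≠ 0)
    (hG : G = (jac e e' x)ᵀ * G' * jac e e' x) {C C' : E3 → Con}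
    (hC : ConLaw (trans e e') C C' x) :
    opL G (C x) (rep θ e) x = opL G' (C' (trans e e' x)) (rep θ e') (trans e e' x) := by
  set J := jac e e' x with hJ
  have hJ0 : J.det ≠ 0 := jac_det e e' hx
  have hG1 : J * G⁻¹ * Jᵀ = G'⁻¹ := by
    rw [hG, Matrix.mul_inv_rev, Matrix.mul_inv_rev]
    have hu : IsUnit J.det := isUnit_iff_ne_zero.2 hJ0
    have hu' : IsUnit (Jᵀ).det := by rwa [Matrix.det_transpose]
    rw [← Matrix.mul_assoc J J⁻¹, Matrix.mul_nonsing_inv _ hu, Matrix.one_mul, Matrix.mul_assoc,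
      Matrix.nonsing_inv_mul _ hu', Matrix.mul_one]
  have hent : ∀ b c, ∑ p, ∑ r, G⁻¹ p r * (J b p * J c r) = G'⁻¹ b c := by
    intro b c
    rw [← hG1, Matrix.mul_apply]
    simp only [Matrix.mul_apply, Matrix.transpose_apply, Finset.sum_mul]
    rw [Finset.sum_comm]
    refine Finset.sum_congr rfl fun p _ => Finset.sum_congr rfl fun r _ => ?_
    ring
  set F : Fin 3 → X := fun k => fr θ e' (trans e e' x) k with hF
  set F2 : Fin 3 → Fin 3 → X := fun l k => fr2 θ e' (trans e e' x) l k with hF2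
  set D : Fin 3 → Fin 3 → X := fun b c => F2 b c - ∑ a, C' (trans e e' x) a b c • F a with hD
  have key : ∀ p r, pdv p (pdv r (rep θ e)) x - ∑ k, C x k p r • pdv k (rep θ e) x
      = ∑ b, ∑ c, (J b p * J c r) • D b c := by
    intro p r
    have h1 : pdv p (pdv r (rep θ e)) x = ∑ k, (pd p (fun y => jac e e' y k r) x • F k
      + ∑ l, (J l p * J k r) • F2 l k) := fr2_trans hθ e e' hx p r
    have h2 : ∑ k, C x k p r • pdv k (rep θ e) x
        = ∑ a, (∑ k, J a k * C x k p r) • F a := by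
      have h3 : ∀ k, pdv k (rep θ e) x = ∑ a, J a k • F a := fun k => fr_trans hθ e e' hx k
      simp only [h3, Finset.smul_sum, smul_smul, Finset.sum_smul]
      rw [Finset.sum_comm]
      refine Finset.sum_congr rfl fun a _ => Finset.sum_congr rfl fun k _ => ?_
      rw [mul_comm]
    have h4 : ∀ a, ∑ k, J a k * C x k p r
        = ∑ b, ∑ c, C' (trans e e' x) a b c * J b p * J c r + pd p (fun y => jac e e' y a r) x :=
      fun a => hC a p r
    rw [h1, h2]
    simp only [h4, add_smul, Finset.sum_add_distrib, hD, smul_sub, Finset.sum_sub_distrib]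
    have h5 : ∑ k, ∑ l, (J l p * J k r) • F2 l k = ∑ b, ∑ c, (J b p * J c r) • F2 b c :=
      Finset.sum_comm
    have h6 : ∑ a, (∑ b, ∑ c, C' (trans e e' x) a b c * J b p * J c r) • F a
        = ∑ b, ∑ c, (J b p * J c r) • ∑ a, C' (trans e e' x) a b c • F a := by
      simp only [Finset.sum_smul, Finset.smul_sum, smul_smul]
      rw [Finset.sum_comm]
      refine Finset.sum_congr rfl fun b _ => ?_
      rw [Finset.sum_comm]
      refine Finset.sum_congr rfl fun c _ => Finset.sum_congr rfl fun a _ => ?_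
      congr 1
      ring
    rw [h5, h6]
    abel
  unfold opL
  simp only [key]
  have h7 : ∀ b c, pdv b (pdv c (rep θ e')) (trans e e' x)
      - ∑ k, C' (trans e e' x) k b c • pdv k (rep θ e') (trans e e' x) = D b c := fun b c => rfl
  simp only [h7]
  simp only [Finset.smul_sum, smul_smul]
  have h8 : ∀ b c, G'⁻¹ b c • D b c = ∑ p, ∑ r, (G⁻¹ p r * (J b p * J c r)) • D b c := by
    intro b c
    rw [← hent b c]
    simp only [Finset.sum_smul]
  simp only [h8]
  have swap : ∀ f : Fin 3 → Fin 3 → Fin 3 → Fin 3 → X,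
      ∑ p, ∑ r, ∑ b, ∑ c, f p r b c = ∑ b, ∑ c, ∑ p, ∑ r, f p r b c := by
    intro f
    calc _ = ∑ p, ∑ b, ∑ r, ∑ c, f p r b c :=
          Finset.sum_congr rfl fun p _ => Finset.sum_comm
      _ = ∑ b, ∑ p, ∑ r, ∑ c, f p r b c := Finset.sum_comm
      _ = ∑ b, ∑ p, ∑ c, ∑ r, f p r b c :=
          Finset.sum_congr rfl fun b _ => Finset.sum_congr rfl fun p _ => Finset.sum_comm
      _ = ∑ b, ∑ c, ∑ p, ∑ r, f p r b c := Finset.sum_congr rfl fun b _ => Finset.sum_comm
  exact swap fun p r b c => (G⁻¹ p r * (J b p * J c r)) • D b c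

end Pool.Agent.RFS.AA
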