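import Pool.Agent.RFS.A2Defs

/-!
RFS chunk (a2), module CV: finite covers with cut off functions.

Proof. For every p take e_p = chartAt p, (U_p, r_p) from Φ.retr, and a smooth bump f_p : EN N → R with
compact support in U_p, f_p = 1 near φ p (ContDiffBump). The open sets {f_p > 0}, p in M, cover the
compact set φ(M); take a finite subcover p_1, ..., p_n. S = sum f_a^2 is smooth, > 0 on φ(M). Let
W = {S > 0}, open, containing the compact set φ(M); take a smooth k : EN N → [0,1] with k = 1 on a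
neighbourhood of φ(M) and tsupport k ⊆ W (exists_contDiff_tsupport_subset or
exists_contMDiff_zero_iff_one_iff_of_isClosed / SmoothBump for compact sets). Put
χ_a = f_a * k / sqrt(S + 1 - k^2 ...): simplest: D = S + (1 - k)  is > 0 everywhere (if k ≠ 1... k = 1
only inside W where S > 0; if k < 1 then 1 - k > 0), smooth, and D = S on φ(M). χ_a = f_a / sqrt D.
Then tsupport χ_a ⊆ tsupport f_a ⊆ U_a, compact, and sum χ_a^2 = S / D = 1 on φ(M).
If M is empty take n = 0.
-/

open scoped Manifold ContDiff Matrix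
open Set

namespace Pool.Agent.RFS.AA

theorem exists_cov {M : Type*} [TopologicalSpace M] [ChartedSpace E3 M] [CompactSpace M] {N : ℕ}
    (Φ : Emb M N) : Nonempty (Cov Φ) := by
  classical
  let ec : M → Ch M := fun p => ⟨chartAt E3 p, chart_mem_atlas E3 p⟩
  have hmem : ∀ p, p ∈ (ec p).1.source := fun p => mem_chart_source E3 p
  choose U r hUo hpU hrs hrm hre using fun p => Φ.retr (ec p) p (hmem p)
  have hb : ∀ p, ∃ f : EN N → ℝ, tsupport f ⊆ U p ∧ HasCompactSupport f ∧ ContDiff ℝ ∞ f ∧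
      range f ⊆ Icc 0 1 ∧ f (Φ.φ p) = 1 := fun p =>
    exists_contDiff_tsupport_subset (n := ⊤) ((hUo p).mem_nhds (hpU p))
  choose f hfU hfc hfs hfr hf1 using hb
  have hφc : Continuous Φ.φ := Φ.emb.continuous
  obtain ⟨t, ht⟩ := isCompact_univ.elim_finite_subcover (fun p : M => {q : M | f p (Φ.φ q) ≠ 0})
    (fun p => isOpen_ne_fun ((hfs p).continuous.comp hφc) continuous_const)
    (fun q _ => mem_iUnion.2 ⟨q, by
      show f q (Φ.φ q) ≠ 0
      rw [hf1 q]; exact one_ne_zero⟩)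
  have hK : IsClosed (range Φ.φ) := Φ.emb.isClosed_range
  obtain ⟨h, hsupp, hhs, hhr⟩ := hK.isOpen_compl.exists_contDiff_support_eq (n := ⊤)
  let ix : Fin t.card → M := fun a => (t.equivFin.symm a : M)
  let D : EN N → ℝ := fun y => (∑ a, (f (ix a) y) ^ 2) + h y
  have hh0 : ∀ y, 0 ≤ h y := fun y => (hhr (mem_range_self y)).1
  have hS0 : ∀ y, 0 ≤ ∑ a, (f (ix a) y) ^ 2 := fun y => Finset.sum_nonneg fun a _ => sq_nonneg _
  have hSpos : ∀ p, 0 < ∑ a, (f (ix a) (Φ.φ p)) ^ 2 := by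
    intro p
    obtain ⟨q, hq, hqp⟩ := mem_iUnion₂.1 (ht (mem_univ p))
    have hqp' : f q (Φ.φ p) ≠ 0 := hqp
    have h1 : (f (ix (t.equivFin ⟨q, hq⟩)) (Φ.φ p)) ^ 2 ≤ ∑ a, (f (ix a) (Φ.φ p)) ^ 2 :=
      Finset.single_le_sum (f := fun a => (f (ix a) (Φ.φ p)) ^ 2)
        (fun a _ => sq_nonneg _) (Finset.mem_univ _)
    have h2 : ix (t.equivFin ⟨q, hq⟩) = q := by simp [ix]
    rw [h2] at h1
    exact lt_of_lt_of_le (by positivity) h1
  have hDpos : ∀ y, 0 < D y := by
    intro y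
    by_cases hy : y ∈ range Φ.φ
    · obtain ⟨p, rfl⟩ := hy
      exact add_pos_of_pos_of_nonneg (hSpos p) (hh0 _)
    · have h1 : y ∈ Function.support h := by rw [hsupp]; exact hy
      have h2 : h y ≠ 0 := h1
      exact add_pos_of_nonneg_of_pos (hS0 y) (lt_of_le_of_ne (hh0 y) (Ne.symm h2))
  have hDs : ContDiff ℝ ∞ D :=
    (ContDiff.sum fun a _ => (hfs (ix a)).pow 2).add hhs
  have hDphi : ∀ p, D (Φ.φ p) = ∑ a, (f (ix a) (Φ.φ p)) ^ 2 := by
    intro p
    have h1 : Φ.φ p ∉ Function.support h := by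
      rw [hsupp]; exact fun hc => hc (mem_range_self p)
    have h2 : h (Φ.φ p) = 0 := by simpa using h1
    simp [D, h2]
  have hRs : ContDiff ℝ ∞ (fun y => (Real.sqrt (D y))⁻¹) :=
    (hDs.sqrt fun y => (hDpos y).ne').inv fun y => (Real.sqrt_pos.2 (hDpos y)).ne'
  refine ⟨{
    n := t.card
    ch := fun a => ec (ix a)
    U := fun a => U (ix a)
    r := fun a => r (ix a)
    χ := fun a y => f (ix a) y * (Real.sqrt (D y))⁻¹
    U_open := fun a => hUo _
    r_smooth := fun a => hrs _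
    r_maps := fun a => hrm _
    r_eq := fun a q hq => hre _ q hq
    χ_smooth := fun a => (hfs (ix a)).mul hRs
    χ_cpt := fun a => (hfc (ix a)).mul_right
    χ_supp := fun a => (tsupport_mul_subset_left (f := f (ix a))).trans (hfU _)
    χ_sum := ?_ }⟩
  intro p
  have h1 : ∀ a, (f (ix a) (Φ.φ p) * (Real.sqrt (D (Φ.φ p)))⁻¹) ^ 2
      = (f (ix a) (Φ.φ p)) ^ 2 * (D (Φ.φ p))⁻¹ := by
    intro a
    rw [mul_pow, inv_pow, Real.sq_sqrt (hDpos _).le]
  simp only [h1]
  rw [← Finset.sum_mul, ← hDphi, mul_inv_cancel₀ (hDpos _).ne']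

end Pool.Agent.RFS.AA
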