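import Pool.Agent.RFS.Defs

/-!
# Project RFS, chunk (a2): short time existence of the Ricci flow. Definitions.

All statements of the chunk use only these definitions and `Pool.Agent.RFS.Defs`.
-/

open scoped Manifold ContDiff Matrix
open Set

noncomputable section

namespace Pool.Agent.RFS.AA

/-! ### Functions which are smooth on space-time, up to the end points of the time interval -/

section JS

variable {E F : Type*} [NormedAddCommGroup E] [NormedSpace ℝ E]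
  [NormedAddCommGroup F] [NormedSpace ℝ F]

/-- `f (t, x)` is smooth on `J × U`. -/
def JS (J : Set ℝ) (U : Set E) (f : ℝ → E → F) : Prop :=
  ContDiffOn ℝ ∞ (fun z : ℝ × E => f z.1 z.2) (J ×ˢ U)

end JS

/-- Partial derivatives of vector valued functions on `E3`. -/
def pdv {X : Type*} [NormedAddCommGroup X] [NormedSpace ℝ X] (k : Fin 3) (f : E3 → X) (x : E3) :
    X :=
  fderiv ℝ f x (bv k)

/-- Three real indices: the Christoffel symbols `C k i j` (upper index `k`) at a point. -/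
abbrev Con := Fin 3 → Fin 3 → Fin 3 → ℝ

/-- The Jacobi matrix of a map of `E3`; entry `(k, i)` is `∂ᵢ f^k`. -/
def jm (f : E3 → E3) (x : E3) : Mat3 := Matrix.of fun k i => pd i (fun y => f y k) x

/-! ### Jets of a metric -/

/-- First derivatives of a matrix function. -/
def jet1 (G : E3 → Mat3) (x : E3) (p : Fin 3) : Mat3 :=
  Matrix.of fun i j => pd p (fun y => G y i j) x

/-- Second derivatives of a matrix function. -/
def jet2 (G : E3 → Mat3) (x : E3) (p q : Fin 3) : Mat3 :=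
  Matrix.of fun i j => pd p (fun y => pd q (fun z => G z i j) y) x

/-- Christoffel symbols from the 1-jet. -/
def chrJ (G : Mat3) (G1 : Fin 3 → Mat3) (k i j : Fin 3) : ℝ :=
  (1 / 2) * ∑ l, G⁻¹ k l * (G1 i j l + G1 j i l - G1 l i j)

/-- The derivative `∂_p Γ^k_{ij}` from the 2-jet. -/
def dchrJ (G : Mat3) (G1 : Fin 3 → Mat3) (G2 : Fin 3 → Fin 3 → Mat3) (p k i j : Fin 3) : ℝ :=
  (1 / 2) * ∑ l, (G⁻¹ k l * (G2 p i j l + G2 p j i l - G2 p l i j)
    - (G⁻¹ * G1 p * G⁻¹) k l * (G1 i j l + G1 j i l - G1 l i j))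

/-- The Ricci tensor from the 2-jet. -/
def ricJ (G : Mat3) (G1 : Fin 3 → Mat3) (G2 : Fin 3 → Fin 3 → Mat3) : Mat3 :=
  Matrix.of fun j k => ∑ i, (dchrJ G G1 G2 i i j k - dchrJ G G1 G2 j i i k
    + ∑ m, (chrJ G G1 i i m * chrJ G G1 m j k - chrJ G G1 i j m * chrJ G G1 m i k))

/-- The DeTurck vector `W^k = G^{pq} (Γ^k_{pq} - C^k_{pq})` from the 1-jet. -/
def wJ (G : Mat3) (G1 : Fin 3 → Mat3) (C : Con) (k : Fin 3) : ℝ :=
  ∑ p, ∑ q, G⁻¹ p q * (chrJ G G1 k p q - C k p q)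

/-- The derivative `∂_i W^k` from the 2-jet; `C1 i k p q = ∂_i C^k_{pq}`. -/
def dwJ (G : Mat3) (G1 : Fin 3 → Mat3) (G2 : Fin 3 → Fin 3 → Mat3) (C : Con)
    (C1 : Fin 3 → Con) (i k : Fin 3) : ℝ :=
  ∑ p, ∑ q, (G⁻¹ p q * (dchrJ G G1 G2 i k p q - C1 i k p q)
    - (G⁻¹ * G1 i * G⁻¹) p q * (chrJ G G1 k p q - C k p q))

/-- The right hand side `-2 Ric + L_W G` of the Ricci-DeTurck flow from the 2-jet. -/
def rdtJ (G : Mat3) (G1 : Fin 3 → Mat3) (G2 : Fin 3 → Fin 3 → Mat3) (C : Con)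
    (C1 : Fin 3 → Con) : Mat3 :=
  Matrix.of fun i j => -2 * ricJ G G1 G2 i j
    + ∑ k, (wJ G G1 C k * G1 k i j + G k j * dwJ G G1 G2 C C1 i k
      + G i k * dwJ G G1 G2 C C1 j k)

/-! ### The Ricci-DeTurck flow in coordinates -/

/-- The DeTurck vector field of `G` with background connection `C`. -/
def wf (G : E3 → Mat3) (C : E3 → Con) (x : E3) (k : Fin 3) : ℝ :=
  ∑ p, ∑ q, (G x)⁻¹ p q * (chr G x k p q - C x k p q)

/-- The Lie derivative `L_W G`. -/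
def lieD (G : E3 → Mat3) (W : E3 → Fin 3 → ℝ) (x : E3) : Mat3 :=
  Matrix.of fun i j => ∑ k, (W x k * pd k (fun y => G y i j) x
    + G x k j * pd i (fun y => W y k) x + G x i k * pd j (fun y => W y k) x)

/-- The right hand side of the Ricci-DeTurck flow. -/
def rdt (G : E3 → Mat3) (C : E3 → Con) (x : E3) : Mat3 :=
  Matrix.of fun i j => -2 * ricci G x i j + lieD G (wf G C) x i j

/-- The Ricci tensor of a connection. -/
def ricC (C : E3 → Con) (x : E3) : Mat3 :=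
  Matrix.of fun j k => ∑ i, (pd i (fun y => C y i j k) x - pd j (fun y => C y i i k) x
    + ∑ m, (C x i i m * C x m j k - C x i j m * C x m i k))

/-- `C` is the pull back of the connection `C'` under `f`, at the point `x`. -/
def ConLaw (f : E3 → E3) (C C' : E3 → Con) (x : E3) : Prop :=
  ∀ a i j, ∑ k, jm f x a k * C x k i j
    = ∑ b, ∑ c, C' (f x) a b c * jm f x b i * jm f x c j + pd i (fun y => jm f y a j) x

/-- `G` is the pull back of the metric `G'` (smooth and positive definite on the open set `V`)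
under the local diffeomorphism `f` of the open set `U` to `V`. -/
structure Pull (f : E3 → E3) (G G' : E3 → Mat3) (U V : Set E3) : Prop where
  U_open : IsOpen U
  V_open : IsOpen V
  f_smooth : ContDiffOn ℝ ∞ f U
  maps : MapsTo f U V
  G_smooth : ∀ i j, ContDiffOn ℝ ∞ (fun y => G' y i j) V
  G_pos : ∀ y ∈ V, (G' y).PosDef
  eq : ∀ x ∈ U, G x = (jm f x)ᵀ * G' (f x) * jm f x
  det : ∀ x ∈ U, (jm f x).det ≠ 0

/-! ### The unknown of the parabolic system -/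

/-- The ambient space. -/
abbrev EN (N : ℕ) := EuclideanSpace ℝ (Fin N)

/-- The space of values of the unknown: `N × N` matrices. -/
abbrev FN (N : ℕ) := EuclideanSpace ℝ (Fin N × Fin N)

/-- The symmetric bilinear form of `u`. -/
def bil {N : ℕ} (u : FN N) (v w : EN N) : ℝ :=
  ∑ a, ∑ b, u (a, b) * ((v a * w b + v b * w a) / 2)

/-- The Gram matrix of three vectors. -/
def gram {N : ℕ} (u : FN N) (A : Fin 3 → EN N) : Mat3 := Matrix.of fun i j => bil u (A i) (A j)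

/-- First derivatives of `gram v A`; `q k = ∂_k v`, `A2 k i = ∂_k A_i`. -/
def gj1 {N : ℕ} (u : FN N) (q : Fin 3 → FN N) (A : Fin 3 → EN N) (A2 : Fin 3 → Fin 3 → EN N)
    (k : Fin 3) : Mat3 :=
  Matrix.of fun i j => bil (q k) (A i) (A j) + bil u (A2 k i) (A j) + bil u (A i) (A2 k j)

/-- Second derivatives of `gram v A` without the second derivatives of `v`;
`A3 p r i = ∂_p ∂_r A_i`. -/
def gj2 {N : ℕ} (u : FN N) (q : Fin 3 → FN N) (A : Fin 3 → EN N) (A2 : Fin 3 → Fin 3 → EN N)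
    (A3 : Fin 3 → Fin 3 → Fin 3 → EN N) (p r : Fin 3) : Mat3 :=
  Matrix.of fun i j =>
    (bil (q r) (A2 p i) (A j) + bil (q r) (A i) (A2 p j))
    + (bil (q p) (A2 r i) (A j) + bil u (A3 p r i) (A j) + bil u (A2 r i) (A2 p j))
    + (bil (q p) (A i) (A2 r j) + bil u (A2 p i) (A2 r j) + bil u (A i) (A3 p r j))

/-- The terms of order at most one of the Ricci-DeTurck flow of `gram v A`. -/
def lowJ {N : ℕ} (u : FN N) (q : Fin 3 → FN N) (A : Fin 3 → EN N) (A2 : Fin 3 → Fin 3 → EN N)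
    (A3 : Fin 3 → Fin 3 → Fin 3 → EN N) (C : Con) (C1 : Fin 3 → Con) : Mat3 :=
  Matrix.of fun i j => rdtJ (gram u A) (gj1 u q A A2) (gj2 u q A A2 A3) C C1 i j
    + ∑ p, ∑ r, (gram u A)⁻¹ p r * ∑ k, C k p r * bil (q k) (A i) (A j)

/-- The second order operator `G^{pr} (∂_p ∂_r v - C^k_{pr} ∂_k v)`. -/
def opL {X : Type*} [NormedAddCommGroup X] [NormedSpace ℝ X] (G : Mat3) (C : Con) (v : E3 → X)
    (x : E3) : X :=
  ∑ p, ∑ r, G⁻¹ p r • (pdv p (pdv r v) x - ∑ k, C k p r • pdv k v x)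

/-- A square root of the inverse of a positive definite symmetric matrix: the transposed inverse
of the Cholesky factor. -/
def cholL (G : Mat3) : Mat3 :=
  !![Real.sqrt (G 0 0), 0, 0;
     G 1 0 / Real.sqrt (G 0 0), Real.sqrt (G 1 1 - G 1 0 ^ 2 / G 0 0), 0;
     G 2 0 / Real.sqrt (G 0 0),
       (G 2 1 - G 2 0 * G 1 0 / G 0 0) / Real.sqrt (G 1 1 - G 1 0 ^ 2 / G 0 0),
       Real.sqrt (G 2 2 - G 2 0 ^ 2 / G 0 0
         - (G 2 1 - G 2 0 * G 1 0 / G 0 0) ^ 2 / (G 1 1 - G 1 0 ^ 2 / G 0 0))]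

/-- `sq G * (sq G)ᵀ = G⁻¹`. -/
def sq (G : Mat3) : Mat3 := ((cholL G)⁻¹)ᵀ

/-! ### Embeddings -/

section Manifold

variable (M : Type*) [TopologicalSpace M] [ChartedSpace E3 M]

/-- A smooth embedding of `M` in `EN N` with local retractions. -/
structure Emb (N : ℕ) where
  φ : M → EN N
  smooth : ∀ e : Ch M, ContDiffOn ℝ ∞ (fun x => φ (e.1.symm x)) e.1.target
  emb : Topology.IsClosedEmbedding φ
  retr : ∀ (e : Ch M) (p : M), p ∈ e.1.source → ∃ (U : Set (EN N)) (r : EN N → E3),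
    IsOpen U ∧ φ p ∈ U ∧ ContDiffOn ℝ ∞ r U ∧ MapsTo r U e.1.target ∧
      ∀ q, φ q ∈ U → q ∈ e.1.source ∧ r (φ q) = e.1 q

variable {M}

/-- A finite family of charts with local retractions and cut off functions. -/
structure Cov {N : ℕ} (Φ : Emb M N) where
  n : ℕ
  ch : Fin n → Ch M
  U : Fin n → Set (EN N)
  r : Fin n → EN N → E3
  χ : Fin n → EN N → ℝ
  U_open : ∀ a, IsOpen (U a)
  r_smooth : ∀ a, ContDiffOn ℝ ∞ (r a) (U a)
  r_maps : ∀ a, MapsTo (r a) (U a) (ch a).1.target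
  r_eq : ∀ a q, Φ.φ q ∈ U a → q ∈ (ch a).1.source ∧ r a (Φ.φ q) = (ch a).1 q
  χ_smooth : ∀ a, ContDiff ℝ ∞ (χ a)
  χ_cpt : ∀ a, HasCompactSupport (χ a)
  χ_supp : ∀ a, tsupport (χ a) ⊆ U a
  χ_sum : ∀ p, ∑ a, (χ a (Φ.φ p)) ^ 2 = 1

/-- The domain of the change of coordinates from `e` to `e'`. -/
def tdom (e e' : Ch M) : Set E3 := e.1.target ∩ e.1.symm ⁻¹' e'.1.source

/-- The representative of a map `θ` of `M` in the chart `e`. -/
def rep {X : Type*} (θ : M → X) (e : Ch M) (x : E3) : X := θ (e.1.symm x)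

/-- The coordinate frame `∂_i θ` of a map `θ : M → X` in the chart `e`. -/
def fr {X : Type*} [NormedAddCommGroup X] [NormedSpace ℝ X] (θ : M → X) (e : Ch M) (x : E3)
    (i : Fin 3) : X :=
  pdv i (rep θ e) x

/-- The second derivatives `∂_p ∂_i θ`. -/
def fr2 {X : Type*} [NormedAddCommGroup X] [NormedSpace ℝ X] (θ : M → X) (e : Ch M) (x : E3)
    (p i : Fin 3) : X :=
  pdv p (fun y => fr θ e y i) x

/-- The third derivatives `∂_p ∂_r ∂_i θ`. -/
def fr3 {X : Type*} [NormedAddCommGroup X] [NormedSpace ℝ X] (θ : M → X) (e : Ch M) (x : E3)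
    (p r i : Fin 3) : X :=
  pdv p (fun y => fr2 θ e y r i) x

/-- The tensor `bil (U ∘ θ) (dθ, dθ)` in the chart `e`. -/
def pullG {N : ℕ} (U : EN N → FN N) (θ : M → EN N) (e : Ch M) (x : E3) : Mat3 :=
  gram (U (rep θ e x)) (fr θ e x)

/-- The background connection: the Levi-Civita connection of `g₀`. -/
def bc (g₀ : RMetric M) (e : Ch M) (x : E3) : Con := chr (g₀.c e) x

/-- The derivatives of the background connection. -/
def bc1 (g₀ : RMetric M) (e : Ch M) (x : E3) (i k p q : Fin 3) : ℝ :=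
  pd i (fun y => bc g₀ e y k p q) x

variable {N : ℕ} {Φ : Emb M N}

/-- The frame of the chart `a` at a point of the ambient space. -/
def Cov.A (𝒞 : Cov Φ) (a : Fin 𝒞.n) (y : EN N) : Fin 3 → EN N := fr Φ.φ (𝒞.ch a) (𝒞.r a y)

/-- The matrix of the metric in the chart `a` at a point of the ambient space. -/
def Cov.G (𝒞 : Cov Φ) (a : Fin 𝒞.n) (y : EN N) (u : FN N) : Mat3 := gram u (𝒞.A a y)

/-- The vector fields of the parabolic system. -/
def Cov.σ (𝒞 : Cov Φ) (c : Fin 𝒞.n × Fin 3) (y : EN N) (u : FN N) : EN N :=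
  𝒞.χ c.1 y • ∑ j, sq (𝒞.G c.1 y u) j c.2 • 𝒞.A c.1 y j

/-- The drift of the parabolic system. -/
def Cov.β (𝒞 : Cov Φ) (g₀ : RMetric M) (y : EN N) (u : FN N) : EN N :=
  ∑ a, (𝒞.χ a y) ^ 2 • ∑ p, ∑ q, (𝒞.G a y u)⁻¹ p q •
    (fr2 Φ.φ (𝒞.ch a) (𝒞.r a y) p q - ∑ k, bc g₀ (𝒞.ch a) (𝒞.r a y) k p q • 𝒞.A a y k)

/-- The matrix of `h (dr, dr)` for a matrix `h` in the chart `a`. -/
def Cov.io (𝒞 : Cov Φ) (a : Fin 𝒞.n) (y : EN N) (h : Mat3) : FN N :=
  WithLp.toLp 2 fun c => ∑ i, ∑ j, h i j *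
    (fderiv ℝ (𝒞.r a) y (EuclideanSpace.single c.1 1) i
      * fderiv ℝ (𝒞.r a) y (EuclideanSpace.single c.2 1) j)

/-- The space derivatives of the unknown in the chart `a`, expressed by the derivatives
`P c` in the directions `σ c`. -/
def Cov.q (𝒞 : Cov Φ) (a : Fin 𝒞.n) (y : EN N) (u : FN N) (P : Fin 𝒞.n × Fin 3 → FN N)
    (k : Fin 3) : FN N :=
  ∑ c, bil u (𝒞.A a y k) (𝒞.σ c y u) • P c

/-- The zero order term of the parabolic system. -/
def Cov.Q (𝒞 : Cov Φ) (g₀ : RMetric M) (y : EN N) (u : FN N) (P : Fin 𝒞.n × Fin 3 → FN N) :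
    FN N :=
  ∑ a, (𝒞.χ a y) ^ 2 • 𝒞.io a y (lowJ u (𝒞.q a y u P) (𝒞.A a y)
    (fr2 Φ.φ (𝒞.ch a) (𝒞.r a y)) (fr3 Φ.φ (𝒞.ch a) (𝒞.r a y))
    (bc g₀ (𝒞.ch a) (𝒞.r a y)) (bc1 g₀ (𝒞.ch a) (𝒞.r a y)))

/-- The open set of the pairs `(y, u)` at which the system makes sense. -/
def Cov.O (𝒞 : Cov Φ) : Set (EN N × FN N) :=
  {z | ∀ a, z.1 ∈ tsupport (𝒞.χ a) → (𝒞.G a z.1 z.2).PosDef}

/-- The initial value. -/
def Cov.u₀ (𝒞 : Cov Φ) (g₀ : RMetric M) (y : EN N) : FN N :=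
  ∑ a, (𝒞.χ a y) ^ 2 • 𝒞.io a y (g₀.c (𝒞.ch a) (𝒞.r a y))

/-- The DeTurck vector field on the ambient space, for the unknown `U`. -/
def Cov.W (𝒞 : Cov Φ) (g₀ : RMetric M) (U : EN N → FN N) (y : EN N) : EN N :=
  ∑ a, (𝒞.χ a y) ^ 2 • ∑ k, wf (pullG U Φ.φ (𝒞.ch a)) (bc g₀ (𝒞.ch a)) (𝒞.r a y) k • 𝒞.A a y k

end Manifold

end Pool.Agent.RFS.AA
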