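import Pool.Agent.RFS.A2Defs

/-!
RFS chunk (a2), module EM: a closed 3-manifold has a smooth embedding with local retractions.

Proof. Mathlib: exists_embedding_euclidean_of_compact gives N, φ : M → EN N smooth, closed embedding,
mfderiv injective.
* smooth: φ ∘ e.symm is ContDiffOn on e.target: contMDiffOn_of_mem_maximalAtlas /
  contMDiffOn_symm_of_mem_maximalAtlas (e ∈ atlas ⊆ maximalAtlas) and contMDiffOn_iff_contDiffOn.
* retr: let p ∈ e.source, x0 = e p, h0 = φ ∘ e.symm, D = fderiv h0 x0. D is injective: D = (mfderiv φ p) ∘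
  (mfderiv e.symm x0), both injective (e.symm is a local diffeomorphism with inverse e; or: a
  kernel vector v of D gives the vector mfderiv e.symm x0 v in the kernel of mfderiv φ, so it is 0,
  and v = mfderiv e (mfderiv e.symm v) = 0). Choose a linear left inverse L : EN N → E3 of D
  (LinearMap.exists_leftInverse_of_injective, made continuous: finite dimension). h = L ∘ h0 : E3 → E3
  has derivative id at x0 and is C^infinity near x0, so the inverse function theorem
  (ContDiffAt.toOpenPartialHomeomorph, ContDiffAt.to_localInverse with n = infinity) gives an open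
  V0 ∋ x0, V0 ⊆ e.target, and an inverse g, smooth on the open set h(V0), g (h x) = x on V0, g maps
  h(V0) to V0.
  φ is an embedding, so φ(e.symm(V0)) = range φ ∩ U1 with U1 open (e.symm(V0) is open in M).
  Put U = U1 ∩ L⁻¹(h(V0)), r = g ∘ L. If φ q ∈ U, then q ∈ e.symm(V0) (φ injective), q = e.symm x
  with x ∈ V0, r (φ q) = g (L (h0 x)) = g (h x) = x = e q.
  (Smoothness of g on all of h(V0): shrink V0 so that the derivative of h is invertible on V0, then
  contDiffAt_symm at every point; or use ContDiffAt in an open neighbourhood of h x0.)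
-/

open scoped Manifold ContDiff Matrix
open Set

namespace Pool.Agent.RFS.AA

private theorem emb_smooth {M : Type*} [TopologicalSpace M] [ChartedSpace E3 M]
    [IsManifold (𝓡 3) ∞ M] {N : ℕ} {φ : M → EN N} (hφ : ContMDiff (𝓡 3) (𝓡 N) ∞ φ) (e : Ch M) :
    ContDiffOn ℝ ∞ (fun x => φ (e.1.symm x)) e.1.target := by
  have h1 : e.1 ∈ IsManifold.maximalAtlas (𝓡 3) ∞ M :=
    IsManifold.subset_maximalAtlas e.2
  have h2 := contMDiffOn_symm_of_mem_maximalAtlas (I := 𝓡 3) (n := ∞) h1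
  have h3 := hφ.comp_contMDiffOn h2
  exact contMDiffOn_iff_contDiffOn.1 h3

private theorem emb_inj {M : Type*} [TopologicalSpace M] [ChartedSpace E3 M]
    [IsManifold (𝓡 3) ∞ M] {N : ℕ} {φ : M → EN N} (hφ : ContMDiff (𝓡 3) (𝓡 N) ∞ φ)
    (hinj : ∀ x : M, Function.Injective (mfderiv (𝓡 3) (𝓡 N) φ x)) (e : Ch M) {x : E3}
    (hx : x ∈ e.1.target) :
    Function.Injective (fderiv ℝ (fun x => φ (e.1.symm x)) x) := by
  have hI : IsManifold (𝓡 3) 1 M := IsManifold.of_le (m := 1) (n := ∞) (by simp)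
  have he : e.1.MDifferentiable (𝓡 3) (𝓡 3) := mdifferentiable_of_mem_atlas e.2
  have h1 : MDifferentiableAt (𝓡 3) (𝓡 3) e.1.symm x := he.mdifferentiableAt_symm hx
  have h2 : MDifferentiableAt (𝓡 3) (𝓡 N) φ (e.1.symm x) :=
    (hφ.mdifferentiable (by simp)) _
  have h3 := mfderiv_comp x h2 h1
  have h4 : mfderiv (𝓡 3) (𝓡 N) (φ ∘ e.1.symm) x = fderiv ℝ (φ ∘ e.1.symm) x :=
    mfderiv_eq_fderiv
  have h5 : Function.Injective (mfderiv (𝓡 3) (𝓡 3) e.1.symm x) :=
    he.symm.mfderiv_injective hx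
  have h6 : Function.Injective (mfderiv (𝓡 3) (𝓡 N) (φ ∘ e.1.symm) x) := by
    rw [h3]
    exact (hinj _).comp h5
  rw [h4] at h6
  exact h6

theorem exists_emb (M : Type*) [TopologicalSpace M] [ChartedSpace E3 M] [IsManifold (𝓡 3) ∞ M]
    [CompactSpace M] [T2Space M] : ∃ N : ℕ, Nonempty (Emb M N) := by
  obtain ⟨N, φ, hφ, hemb, hinj⟩ := exists_embedding_euclidean_of_compact (I := 𝓡 3) (M := M)
  refine ⟨N, ⟨⟨φ, emb_smooth hφ, hemb, ?_⟩⟩⟩
  intro e p hp
  have hsm := emb_smooth hφ e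
  set h0 : E3 → EN N := fun x => φ (e.1.symm x) with hh0
  set x0 : E3 := e.1 p with hx0
  have hx0t : x0 ∈ e.1.target := e.1.map_source hp
  have hDinj := emb_inj hφ hinj e hx0t
  obtain ⟨L0, hL0⟩ := LinearMap.exists_leftInverse_of_injective
    ((fderiv ℝ h0 x0 : E3 →L[ℝ] EN N) : E3 →ₗ[ℝ] EN N) (LinearMap.ker_eq_bot.2 hDinj)
  set L : EN N →L[ℝ] E3 := LinearMap.toContinuousLinearMap L0 with hL
  set h : E3 → E3 := fun x => L (h0 x) with hh
  have hhs : ContDiffOn ℝ ∞ h e.1.target := L.contDiff.comp_contDiffOn hsm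
  have hopen : IsOpen e.1.target := e.1.open_target
  have hhat : ∀ x ∈ e.1.target, ContDiffAt ℝ ∞ h x := fun x hx =>
    hhs.contDiffAt (hopen.mem_nhds hx)
  have hder : HasFDerivAt h ((ContinuousLinearEquiv.refl ℝ E3 : E3 ≃L[ℝ] E3) : E3 →L[ℝ] E3) x0 := by
    have h1 : HasFDerivAt h0 (fderiv ℝ h0 x0) x0 :=
      ((hsm.contDiffAt (hopen.mem_nhds hx0t)).differentiableAt (by simp)).hasFDerivAt
    have h2 : HasFDerivAt h (L.comp (fderiv ℝ h0 x0)) x0 := L.hasFDerivAt.comp x0 h1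
    have h3 : L.comp (fderiv ℝ h0 x0) = ((ContinuousLinearEquiv.refl ℝ E3 : E3 ≃L[ℝ] E3) : E3 →L[ℝ] E3) := by
      ext1 v
      have := LinearMap.congr_fun hL0 v
      exact this
    rwa [h3] at h2
  set P : OpenPartialHomeomorph E3 E3 :=
    (hhat x0 hx0t).toOpenPartialHomeomorph h hder (by simp) with hP
  have hPc : ∀ x, P x = h x := fun x => rfl
  have hPx0 : x0 ∈ P.source := (hhat x0 hx0t).mem_toOpenPartialHomeomorph_source hder (by simp)
  -- points where the derivative is invertible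
  have hcont : ContinuousOn (fderiv ℝ h) e.1.target := hhs.continuousOn_fderiv_of_isOpen hopen (by simp)
  set V1 : Set E3 := e.1.target ∩ (fderiv ℝ h) ⁻¹' {T | IsUnit T} with hV1
  have hV1o : IsOpen V1 := hcont.isOpen_inter_preimage hopen Units.isOpen
  have hx0V1 : x0 ∈ V1 := by
    refine ⟨hx0t, ?_⟩
    show IsUnit (fderiv ℝ h x0)
    rw [hder.fderiv]
    exact isUnit_one
  set V0 : Set E3 := P.source ∩ V1 with hV0
  have hV0o : IsOpen V0 := P.open_source.inter hV1o
  have hx0V0 : x0 ∈ V0 := ⟨hPx0, hx0V1⟩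
  set T0 : Set E3 := P.target ∩ P.symm ⁻¹' V0 with hT0
  have hT0o : IsOpen T0 := P.symm.isOpen_inter_preimage hV0o
  have hgs : ContDiffOn ℝ ∞ P.symm T0 := by
    intro a ha
    obtain ⟨ha1, ha2⟩ := ha
    obtain ⟨u, hu⟩ : IsUnit (fderiv ℝ h (P.symm a)) := ha2.2.2
    have h1 : HasFDerivAt P ((ContinuousLinearEquiv.unitsEquiv ℝ E3 u : E3 ≃L[ℝ] E3) : E3 →L[ℝ] E3)
        (P.symm a) := by
      have h2 : HasFDerivAt h (fderiv ℝ h (P.symm a)) (P.symm a) :=
        ((hhat _ ha2.2.1).differentiableAt (by simp)).hasFDerivAt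
      rw [← hu] at h2
      exact h2
    exact (P.contDiffAt_symm ha1 h1 (hhat _ ha2.2.1)).contDiffWithinAt
  -- the embedding
  have hSo : IsOpen (e.1.source ∩ e.1 ⁻¹' V0) := e.1.isOpen_inter_preimage hV0o
  obtain ⟨U1, hU1o, hU1⟩ := hemb.isInducing.isOpen_iff.1 hSo
  refine ⟨U1 ∩ L ⁻¹' T0, fun y => P.symm (L y), hU1o.inter (hT0o.preimage L.continuous), ?_, ?_, ?_, ?_⟩
  · refine ⟨?_, ?_⟩
    · have : p ∈ φ ⁻¹' U1 := by
        rw [hU1]
        exact ⟨hp, hx0V0⟩
      exact this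
    · have h1 : L (φ p) = P x0 := by
        rw [hPc]
        show L (φ p) = L (φ (e.1.symm (e.1 p)))
        rw [e.1.left_inv hp]
      show L (φ p) ∈ T0
      rw [h1]
      refine ⟨P.map_source hPx0, ?_⟩
      show P.symm (P x0) ∈ V0
      rw [P.left_inv hPx0]
      exact hx0V0
  · exact hgs.comp (L.contDiff.contDiffOn) (fun y hy => hy.2)
  · intro y hy
    exact hy.2.2.2.1
  · intro q hq
    have hq1 : q ∈ φ ⁻¹' U1 := hq.1
    rw [hU1] at hq1
    refine ⟨hq1.1, ?_⟩
    have h1 : L (φ q) = P (e.1 q) := by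
      rw [hPc]
      show L (φ q) = L (φ (e.1.symm (e.1 q)))
      rw [e.1.left_inv hq1.1]
    show P.symm (L (φ q)) = e.1 q
    rw [h1, P.left_inv hq1.2.1]

end Pool.Agent.RFS.AA
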