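import Pool.Agent.RFS.A2Defs

/-!
RFS chunk (a2), module PR: the principal part of the Ricci-DeTurck operator is `G^{pq} ∂_p ∂_q G`
(DeTurck).

Proof. Write g = G⁻¹ (symmetric, G g = 1). Everything is affine in G2. The part of dchrJ linear in
H is (1/2) sum_l g k l (H p i j l + H p j i l - H p l i j). With H p q = H q p, H p q symmetric:
 sum_i dchr i i j k = (1/2) sum_{i,l} g i l (H i j k l + H i k j l - H i l j k),
 sum_i dchr j i i k = (1/2) sum_{i,l} g i l (H j i k l + H j k i l - H j l i k)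
                    = (1/2) sum_{i,l} g i l H j k i l   (swap i and l in the last term).
So -2 Ric_jk has the linear part
 - sum g i l (H i j k l + H i k j l) + sum g i l H i l j k + sum g i l H j k i l.
W^k: sum_{p,q} g p q dchr i k p q = (1/2) sum g p q g k l (H i p q l + H i q p l - H i l p q), and
sum_k G k j g k l = delta_jl, so sum_k G k j dW i k = sum g p q (H i p q j - (1/2) H i j p q), the same
with i and j exchanged. Sum: all terms cancel except sum_{p,q} g p q H p q i j.
In Lean: expand nothing; prove the three identities with Finset.sum_comm and the symmetries, or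
(dimension 3) expand all sums with Fin.sum_univ_three after introducing names for the entries of g
(6 unknowns by symmetry), of G with the 9 relations G g = 1, and use linear_combination; the first
way is safer.
-/

open scoped Manifold ContDiff Matrix
open Set

namespace Pool.Agent.RFS.AA

private lemma PR_swap (g : Mat3) (hg : ∀ p q, g p q = g q p) (f : Fin 3 → Fin 3 → ℝ) :
    ∑ p, ∑ q, g p q * f q p = ∑ p, ∑ q, g p q * f p q := by
  rw [Finset.sum_comm]
  refine Finset.sum_congr rfl fun p _ => Finset.sum_congr rfl fun q _ => ?_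
  rw [hg q p]

private lemma PR_con (G g : Mat3) (j : Fin 3) (h : ∀ l, ∑ k, G k j * g k l = if j = l then 1 else 0)
    (T : Fin 3 → Fin 3 → Fin 3 → ℝ) :
    ∑ k, G k j * ∑ p, ∑ q, g p q * (1 / 2 * ∑ l, g k l * T p q l)
      = ∑ p, ∑ q, g p q * (1 / 2 * T p q j) := by
  have e1 : ∑ k, G k j * ∑ p, ∑ q, g p q * (1 / 2 * ∑ l, g k l * T p q l)
      = ∑ p, ∑ q, g p q * (1 / 2 * ∑ l, (∑ k, G k j * g k l) * T p q l) := by
    simp only [Finset.mul_sum, Finset.sum_mul]
    rw [Finset.sum_comm]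
    refine Finset.sum_congr rfl fun p _ => ?_
    rw [Finset.sum_comm]
    refine Finset.sum_congr rfl fun q _ => ?_
    rw [Finset.sum_comm]
    refine Finset.sum_congr rfl fun l _ => ?_
    exact Finset.sum_congr rfl fun k _ => by ring
  rw [e1]
  refine Finset.sum_congr rfl fun p _ => Finset.sum_congr rfl fun q _ => ?_
  simp only [h]
  simp

/-- the part of `dchrJ` linear in the second derivatives -/
private noncomputable def PRE (g : Mat3) (H : Fin 3 → Fin 3 → Mat3) (p k i j : Fin 3) : ℝ :=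
  (1 / 2) * ∑ l, g k l * (H p i j l + H p j i l - H p l i j)

private lemma PR_dchr (G : Mat3) (G1 : Fin 3 → Mat3) (G2 H : Fin 3 → Fin 3 → Mat3)
    (p k i j : Fin 3) : dchrJ G G1 (fun p q => G2 p q + H p q) p k i j
      = dchrJ G G1 G2 p k i j + PRE G⁻¹ H p k i j := by
  unfold dchrJ PRE
  rw [← mul_add, ← Finset.sum_add_distrib]
  congr 1
  refine Finset.sum_congr rfl fun l _ => ?_
  simp only [Matrix.add_apply]
  ring

private lemma PR_ric (G : Mat3) (G1 : Fin 3 → Mat3) (G2 H : Fin 3 → Fin 3 → Mat3)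
    (j k : Fin 3) : ricJ G G1 (fun p q => G2 p q + H p q) j k
      = ricJ G G1 G2 j k + (∑ i, PRE G⁻¹ H i i j k - ∑ i, PRE G⁻¹ H j i i k) := by
  unfold ricJ
  simp only [Matrix.of_apply, PR_dchr]
  rw [← Finset.sum_sub_distrib, ← Finset.sum_add_distrib]
  exact Finset.sum_congr rfl fun i _ => by ring

private lemma PR_dw (G : Mat3) (G1 : Fin 3 → Mat3) (G2 H : Fin 3 → Fin 3 → Mat3) (C : Con)
    (C1 : Fin 3 → Con) (i k : Fin 3) : dwJ G G1 (fun p q => G2 p q + H p q) C C1 i k
      = dwJ G G1 G2 C C1 i k + ∑ p, ∑ q, G⁻¹ p q * PRE G⁻¹ H i k p q := by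
  unfold dwJ
  simp only [PR_dchr]
  rw [← Finset.sum_add_distrib]
  refine Finset.sum_congr rfl fun p _ => ?_
  rw [← Finset.sum_add_distrib]
  exact Finset.sum_congr rfl fun q _ => by ring

theorem rdtJ_add (G : Mat3) (G1 : Fin 3 → Mat3) (G2 H : Fin 3 → Fin 3 → Mat3) (C : Con)
    (C1 : Fin 3 → Con) (hG : Gᵀ = G) (h0 : G.det ≠ 0) (hH : ∀ p q, (H p q)ᵀ = H p q)
    (hH' : ∀ p q, H p q = H q p) (i j : Fin 3) :
    rdtJ G G1 (fun p q => G2 p q + H p q) C C1 i j
      = rdtJ G G1 G2 C C1 i j + ∑ p, ∑ q, G⁻¹ p q * H p q i j := by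
  have hGs : ∀ a b, G a b = G b a := fun a b => by
    conv_lhs => rw [← hG]
    rfl
  have hgs : ∀ a b, G⁻¹ a b = G⁻¹ b a := fun a b => by
    have h1 : (G⁻¹)ᵀ = G⁻¹ := by rw [Matrix.transpose_nonsing_inv, hG]
    conv_lhs => rw [← h1]
    rfl
  have hs : ∀ p q a b, H p q a b = H p q b a := fun p q a b => by
    conv_lhs => rw [← hH p q]
    rfl
  have hid : ∀ a l, ∑ k, G k a * G⁻¹ k l = if a = l then 1 else 0 := by
    intro a l
    have h1 : G * G⁻¹ = 1 := Matrix.mul_nonsing_inv _ (isUnit_iff_ne_zero.mpr h0)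
    have h2 := congrFun (congrFun h1 a) l
    rw [Matrix.mul_apply, Matrix.one_apply] at h2
    rw [← h2]
    exact Finset.sum_congr rfl fun k _ => by rw [hGs k a]
  generalize hg : G⁻¹ = g at *
  have t1 : ∀ a b, ∑ k, G k b * ∑ p, ∑ q, g p q * PRE g H a k p q
      = ∑ p, ∑ q, g p q * H a p q b - 1 / 2 * ∑ p, ∑ q, g p q * H a b p q := by
    intro a b
    unfold PRE
    rw [PR_con G g b (hid b) (fun p q l => H a p q l + H a q p l - H a l p q)]
    have e1 : ∑ p, ∑ q, g p q * (1 / 2 * (H a p q b + H a q p b - H a b p q))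
        = 1 / 2 * ∑ p, ∑ q, g p q * H a p q b + 1 / 2 * ∑ p, ∑ q, g p q * H a q p b
          - 1 / 2 * ∑ p, ∑ q, g p q * H a b p q := by
      simp only [Finset.mul_sum]
      rw [← Finset.sum_add_distrib, ← Finset.sum_sub_distrib]
      refine Finset.sum_congr rfl fun p _ => ?_
      rw [← Finset.sum_add_distrib, ← Finset.sum_sub_distrib]
      exact Finset.sum_congr rfl fun q _ => by ring
    rw [e1, PR_swap g hgs (fun p q => H a p q b)]
    ring
  have t2 : ∑ m, PRE g H m m i j = 1 / 2 * (∑ p, ∑ q, g p q * H i p q j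
      + ∑ p, ∑ q, g p q * H j p q i - ∑ p, ∑ q, g p q * H p q i j) := by
    unfold PRE
    rw [← Finset.mul_sum]
    congr 1
    rw [← Finset.sum_add_distrib, ← Finset.sum_sub_distrib]
    refine Finset.sum_congr rfl fun p _ => ?_
    rw [← Finset.sum_add_distrib, ← Finset.sum_sub_distrib]
    refine Finset.sum_congr rfl fun q _ => ?_
    rw [hH' p i, hH' p j, hs i p j q, hs j p i q]
    ring
  have t3 : ∑ m, PRE g H i m m j = 1 / 2 * ∑ p, ∑ q, g p q * H i j p q := by
    have e1 : ∑ m, PRE g H i m m j = 1 / 2 * (∑ p, ∑ q, g p q * H i p q j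
        + ∑ p, ∑ q, g p q * H i j p q - ∑ p, ∑ q, g p q * H i q p j) := by
      unfold PRE
      rw [← Finset.mul_sum]
      congr 1
      rw [← Finset.sum_add_distrib, ← Finset.sum_sub_distrib]
      refine Finset.sum_congr rfl fun p _ => ?_
      rw [← Finset.sum_add_distrib, ← Finset.sum_sub_distrib]
      refine Finset.sum_congr rfl fun q _ => ?_
      rw [hs i p j q]
      ring
    rw [e1, PR_swap g hgs (fun p q => H i p q j)]
    ring
  have t4 : ∑ k, G i k * ∑ p, ∑ q, g p q * PRE g H j k p q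
      = ∑ p, ∑ q, g p q * H j p q i - 1 / 2 * ∑ p, ∑ q, g p q * H i j p q := by
    rw [hH' i j, ← t1 j i]
    exact Finset.sum_congr rfl fun k _ => by rw [hGs i k]
  unfold rdtJ
  simp only [Matrix.of_apply, PR_ric, PR_dw, hg]
  have e5 : ∑ k, (wJ G G1 C k * G1 k i j
      + G k j * (dwJ G G1 G2 C C1 i k + ∑ p, ∑ q, g p q * PRE g H i k p q)
      + G i k * (dwJ G G1 G2 C C1 j k + ∑ p, ∑ q, g p q * PRE g H j k p q))
      = ∑ k, (wJ G G1 C k * G1 k i j + G k j * dwJ G G1 G2 C C1 i k
        + G i k * dwJ G G1 G2 C C1 j k)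
        + ∑ k, G k j * ∑ p, ∑ q, g p q * PRE g H i k p q
        + ∑ k, G i k * ∑ p, ∑ q, g p q * PRE g H j k p q := by
    rw [← Finset.sum_add_distrib, ← Finset.sum_add_distrib]
    exact Finset.sum_congr rfl fun k _ => by ring
  rw [e5, t1 i j, t4, t2, t3]
  ring

end Pool.Agent.RFS.AA
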