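import Pool.Agent.RFS.NRI

/-!
# RFS, chunk N, module NSY: derivative of the inverse matrix, contracted Christoffel symbols,
symmetry of the Ricci tensor
-/

open scoped Manifold ContDiff Matrix Topology
open Set

noncomputable section

namespace Pool.Agent.RFS.NN

variable {U : Set E3} {G : E3 → Mat3}

/-- the matrix of the partial derivatives `∂ₙ G` -/
def dmat (G : E3 → Mat3) (x : E3) (n : Fin 3) : Mat3 :=
  Matrix.of fun a b => pd n (fun y => G y a b) x

theorem dmat_symm (hU : IsOpen U) (hs : ∀ y ∈ U, (G y)ᵀ = G y) {x : E3} (hx : x ∈ U)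
    (n : Fin 3) : (dmat G x n)ᵀ = dmat G x n := by
  ext a b
  exact pd_congr_of_mem hU hx (fun y hy => mat_symm_apply (hs y hy) b a) n

/-- the derivative of the inverse matrix -/
theorem dmat_inv (hU : IsOpen U) (hG : ∀ i j, ContDiffOn ℝ ∞ (fun y => G y i j) U)
    (hd : ∀ y ∈ U, (G y).det ≠ 0) {x : E3} (hx : x ∈ U) (n : Fin 3) :
    dmat (fun y => (G y)⁻¹) x n = -((G x)⁻¹ * dmat G x n * (G x)⁻¹) := by
  have hu : ∀ y ∈ U, IsUnit (G y).det := fun y hy => isUnit_iff_ne_zero.mpr (hd y hy)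
  have dG : ∀ a b, DifferentiableAt ℝ (fun y => G y a b) x := fun a b =>
    differentiableAt_of_contDiffOn hU (hG a b) hx
  have dI : ∀ a b, DifferentiableAt ℝ (fun y => (G y)⁻¹ a b) x := fun a b =>
    differentiableAt_of_contDiffOn hU (contDiffOn_inv_entry hG hd a b) hx
  have key : dmat (fun y => (G y)⁻¹) x n * G x + (G x)⁻¹ * dmat G x n = 0 := by
    ext a b
    have h1 : pd n (fun y => ∑ k, (G y)⁻¹ a k * G y k b) x
        = pd n (fun _ => (1 : Mat3) a b) x := by
      refine pd_congr_of_mem hU hx (fun y hy => ?_) n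
      rw [← Matrix.mul_apply, Matrix.nonsing_inv_mul _ (hu y hy)]
    have d1 : ∀ k, DifferentiableAt ℝ (fun y => (G y)⁻¹ a k * G y k b) x := fun k =>
      (dI a k).mul (dG k b)
    rw [pd_const, pd_sum_univ d1] at h1
    rw [Matrix.add_apply, Matrix.mul_apply, Matrix.mul_apply, ← Finset.sum_add_distrib,
      Matrix.zero_apply, ← h1]
    refine Finset.sum_congr rfl fun k _ => ?_
    rw [pd_mul (dI a k) (dG k b)]
    rfl
  have h2 := congrArg (fun A : Mat3 => A * (G x)⁻¹) key
  simp only [Matrix.add_mul, Matrix.zero_mul, Matrix.mul_assoc,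
    Matrix.mul_nonsing_inv _ (hu x hx), Matrix.mul_one] at h2
  rw [← Matrix.mul_assoc] at h2
  exact eq_neg_of_add_eq_zero_left h2

theorem inv_symm {A : Mat3} (h : Aᵀ = A) : (A⁻¹)ᵀ = A⁻¹ := by
  rw [Matrix.transpose_nonsing_inv, h]

/-- the contracted Christoffel symbols -/
theorem chr_contract (hU : IsOpen U) (hs : ∀ y ∈ U, (G y)ᵀ = G y) {x : E3} (hx : x ∈ U)
    (j : Fin 3) : ∑ n, chr G x n n j = (1 / 2) * ((G x)⁻¹ * dmat G x j).trace := by
  have hi := inv_symm (hs x hx)
  have hI : ∀ a b, (G x)⁻¹ a b = (G x)⁻¹ b a := fun a b => mat_symm_apply hi a b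
  have hD : ∀ n a b, pd n (fun y => G y a b) x = pd n (fun y => G y b a) x := fun n a b =>
    pd_congr_of_mem hU hx (fun y hy => mat_symm_apply (hs y hy) a b) n
  have h1 : ((G x)⁻¹ * dmat G x j).trace
      = ∑ a, ∑ b, (G x)⁻¹ a b * pd j (fun y => G y b a) x := by
    simp only [Matrix.trace, Matrix.diag_apply, Matrix.mul_apply, dmat, Matrix.of_apply]
  rw [h1]
  simp only [chr, Fin.sum_univ_three]
  rw [hI 1 0, hI 2 0, hI 2 1, hD j 1 0, hD j 2 0, hD j 2 1, hD 0 j 0, hD 0 j 1, hD 0 j 2,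
    hD 1 j 0, hD 1 j 1, hD 1 j 2, hD 2 j 0, hD 2 j 1, hD 2 j 2]
  ring

/-- the derivative of the contracted Christoffel symbols is symmetric -/
theorem pd_chr_contract_symm (hU : IsOpen U) (hG : ∀ i j, ContDiffOn ℝ ∞ (fun y => G y i j) U)
    (hs : ∀ y ∈ U, (G y)ᵀ = G y) (hd : ∀ y ∈ U, (G y).det ≠ 0) {x : E3} (hx : x ∈ U)
    (i j : Fin 3) :
    ∑ n, pd i (fun y => chr G y n n j) x = ∑ n, pd j (fun y => chr G y n n i) x := by
  have hc := contDiffOn_chr hU hG hd
  have dI : ∀ a b, DifferentiableAt ℝ (fun y => (G y)⁻¹ a b) x := fun a b =>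
    differentiableAt_of_contDiffOn hU (contDiffOn_inv_entry hG hd a b) hx
  have dD : ∀ n a b, DifferentiableAt ℝ (fun y => pd n (fun z => G z a b) y) x := fun n a b =>
    differentiableAt_of_contDiffOn hU (contDiffOn_pd hU (hG a b) n) hx
  have key : ∀ i j : Fin 3, ∑ n, pd i (fun y => chr G y n n j) x
      = (1 / 2) * ((dmat (fun y => (G y)⁻¹) x i * dmat G x j).trace
        + ∑ a, ∑ b, (G x)⁻¹ a b * pd i (fun y => pd j (fun z => G z b a) y) x) := by
    intro i j
    rw [← pd_sum_univ (fun n => differentiableAt_of_contDiffOn hU (hc n n j) hx)]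
    have h1 : pd i (fun y => ∑ n, chr G y n n j) x
        = pd i (fun y => (1 / 2) * ∑ a, ∑ b, (G y)⁻¹ a b * pd j (fun z => G z b a) y) x := by
      refine pd_congr_of_mem hU hx (fun y hy => ?_) i
      rw [chr_contract hU hs hy j]
      simp only [Matrix.trace, Matrix.diag_apply, Matrix.mul_apply, dmat, Matrix.of_apply]
    have d1 : ∀ a b, DifferentiableAt ℝ
        (fun y => (G y)⁻¹ a b * pd j (fun z => G z b a) y) x := fun a b =>
      (dI a b).mul (dD j b a)
    have d2 : ∀ a, DifferentiableAt ℝ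
        (fun y => ∑ b, (G y)⁻¹ a b * pd j (fun z => G z b a) y) x := fun a =>
      DifferentiableAt.fun_sum fun b _ => d1 a b
    rw [h1, pd_const_mul (DifferentiableAt.fun_sum fun a _ => d2 a), pd_sum_univ d2]
    congr 1
    simp only [Matrix.trace, Matrix.diag_apply, Matrix.mul_apply, dmat, Matrix.of_apply]
    rw [← Finset.sum_add_distrib]
    refine Finset.sum_congr rfl fun a _ => ?_
    rw [pd_sum_univ (d1 a), ← Finset.sum_add_distrib]
    refine Finset.sum_congr rfl fun b _ => ?_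
    rw [pd_mul (dI a b) (dD j b a)]
  rw [key, key]
  congr 1
  congr 1
  · rw [dmat_inv hU hG hd hx, dmat_inv hU hG hd hx, Matrix.neg_mul, Matrix.neg_mul,
      Matrix.trace_neg, Matrix.trace_neg]
    congr 1
    rw [show (G x)⁻¹ * dmat G x i * (G x)⁻¹ * dmat G x j
      = ((G x)⁻¹ * dmat G x i) * ((G x)⁻¹ * dmat G x j) by simp only [Matrix.mul_assoc],
      Matrix.trace_mul_comm]
    simp only [Matrix.mul_assoc]
  · refine Finset.sum_congr rfl fun a _ => Finset.sum_congr rfl fun b _ => ?_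
    rw [pd_comm_of_contDiffOn hU (hG b a) hx i j]

/-- the Ricci tensor is symmetric -/
theorem ricci_symm_apply (hU : IsOpen U) (hG : ∀ i j, ContDiffOn ℝ ∞ (fun y => G y i j) U)
    (hs : ∀ y ∈ U, (G y)ᵀ = G y) (hd : ∀ y ∈ U, (G y).det ≠ 0) {x : E3} (hx : x ∈ U)
    (i j : Fin 3) : ricci G x i j = ricci G x j i := by
  have hc : ∀ k i j, chr G x k i j = chr G x k j i := fun k i j => chr_symm hU hs hx k i j
  have hc' : ∀ n k i j, pd n (fun y => chr G y k i j) x = pd n (fun y => chr G y k j i) x :=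
    fun n k i j => pd_congr_of_mem hU hx (fun y hy => chr_symm hU hs hy k i j) n
  have e : ∀ i j, ricci G x i j = ∑ n, pd n (fun y => chr G y n i j) x
      - ∑ n, pd i (fun y => chr G y n n j) x
      + ((∑ n, ∑ m, chr G x n n m * chr G x m i j) - ∑ n, ∑ m, chr G x n i m * chr G x m n j) := by
    intro i j
    have : ricci G x i j = ∑ n, (pd n (fun y => chr G y n i j) x
      - pd i (fun y => chr G y n n j) x
      + ∑ m, (chr G x n n m * chr G x m i j - chr G x n i m * chr G x m n j)) := rfl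
    rw [this]
    simp only [Finset.sum_add_distrib, Finset.sum_sub_distrib]
  rw [e, e, pd_chr_contract_symm hU hG hs hd hx i j]
  congr 1
  · congr 1
    exact Finset.sum_congr rfl fun n _ => hc' n n i j
  · congr 1
    · exact Finset.sum_congr rfl fun n _ => Finset.sum_congr rfl fun m _ => by rw [hc m i j]
    · rw [Finset.sum_comm]
      refine Finset.sum_congr rfl fun m _ => Finset.sum_congr rfl fun n _ => ?_
      rw [hc n i m, hc m n j]
      ring

theorem ricci_symm (hU : IsOpen U) (hG : ∀ i j, ContDiffOn ℝ ∞ (fun y => G y i j) U)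
    (hs : ∀ y ∈ U, (G y)ᵀ = G y) (hd : ∀ y ∈ U, (G y).det ≠ 0) {x : E3} (hx : x ∈ U) :
    (ricci G x)ᵀ = ricci G x := by
  ext i j
  exact ricci_symm_apply hU hG hs hd hx j i

theorem contDiffOn_scal (hU : IsOpen U) (hG : ∀ i j, ContDiffOn ℝ ∞ (fun y => G y i j) U)
    (hd : ∀ y ∈ U, (G y).det ≠ 0) : ContDiffOn ℝ ∞ (fun y => scal G y) U := by
  have h1 : (fun y => scal G y) = fun y => ∑ a, ∑ b, (G y)⁻¹ a b * ricci G y b a := by
    funext y
    simp only [scal, Matrix.trace, Matrix.diag_apply, Matrix.mul_apply]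
  rw [h1]
  exact ContDiffOn.sum fun a _ => ContDiffOn.sum fun b _ =>
    (contDiffOn_inv_entry hG hd a b).mul (contDiffOn_ricci hU hG hd b a)

theorem contDiffOn_pten (hU : IsOpen U) (hG : ∀ i j, ContDiffOn ℝ ∞ (fun y => G y i j) U)
    (hd : ∀ y ∈ U, (G y).det ≠ 0) (i j : Fin 3) :
    ContDiffOn ℝ ∞ (fun y => pten G y i j) U := by
  have h1 : (fun y => pten G y i j) = fun y => scal G y / 2 * G y i j - ricci G y i j := by
    funext y
    simp only [pten, Matrix.sub_apply, Matrix.smul_apply, smul_eq_mul]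
  rw [h1]
  exact (((contDiffOn_scal hU hG hd).div_const 2).mul (hG i j)).sub (contDiffOn_ricci hU hG hd i j)

theorem pten_symm (hU : IsOpen U) (hG : ∀ i j, ContDiffOn ℝ ∞ (fun y => G y i j) U)
    (hs : ∀ y ∈ U, (G y)ᵀ = G y) (hd : ∀ y ∈ U, (G y).det ≠ 0) {x : E3} (hx : x ∈ U) :
    (pten G x)ᵀ = pten G x := by
  unfold pten
  rw [Matrix.transpose_sub, Matrix.transpose_smul, hs x hx, ricci_symm hU hG hs hd hx]

end Pool.Agent.RFS.NN
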