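import Pool.Agent.RFS.A2JC
import Pool.Agent.RFS.NSY

/-!
RFS chunk (a2), module RS: the Ricci tensor and the Ricci-DeTurck right hand side are symmetric.

Proof. With jets (A2JC.ricci_eq). G, G1 p, G2 p q symmetric matrices, G2 p q = G2 q p (symmetry of
second derivatives, ContDiffAt.isSymmSndFDerivAt or second_derivative_symmetric). chrJ and dchrJ p
are symmetric in the two lower indices. In ricJ j k: the terms dchrJ i i j k and
chrJ i i m * chrJ m j k are symmetric in j, k. sum_i sum_m chrJ i j m chrJ m i k: exchange the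
names i and m. sum_i dchrJ j i i k = (1/2) sum_{i,l} (g i l G2 j k i l - (g G1_j g) i l G1 k i l)
(the other terms cancel by the symmetry i <-> l), and sum (g G1_j g)_il (G1_k)_il =
trace (g G1_j g G1_k) is symmetric in j, k.
rdt: lieD G W is symmetric because G is symmetric.
jet2_symm: jet2 G x p q = jet2 G x q p for smooth G.
-/

open scoped Manifold ContDiff Matrix
open Set

namespace Pool.Agent.RFS.AA

variable {G : E3 → Mat3} {U : Set E3}

theorem pd_comm {f : E3 → ℝ} (hU : IsOpen U) (hf : ContDiffOn ℝ ∞ f U) {x : E3} (hx : x ∈ U)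
    (p q : Fin 3) : pd p (fun y => pd q f y) x = pd q (fun y => pd p f y) x :=
  NN.pd_comm_of_contDiffOn hU hf hx p q

theorem jet2_comm (hU : IsOpen U) (hG : ∀ i j, ContDiffOn ℝ ∞ (fun y => G y i j) U) {x : E3}
    (hx : x ∈ U) (p q : Fin 3) : jet2 G x p q = jet2 G x q p := by
  ext i j
  exact pd_comm hU (hG i j) hx p q

private theorem rs_symm (hp : ∀ y ∈ U, (G y).PosDef) : ∀ y ∈ U, (G y)ᵀ = G y := by
  intro y hy
  have h := (hp y hy).isHermitian
  ext i j
  have := congrFun (congrFun h i) j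
  simpa [Matrix.conjTranspose_apply] using this

private theorem rs_det (hp : ∀ y ∈ U, (G y).PosDef) : ∀ y ∈ U, (G y).det ≠ 0 :=
  fun y hy => (hp y hy).det_pos.ne'

theorem ricci_transpose (hU : IsOpen U) (hG : ∀ i j, ContDiffOn ℝ ∞ (fun y => G y i j) U)
    (hp : ∀ y ∈ U, (G y).PosDef) {x : E3} (hx : x ∈ U) : (ricci G x)ᵀ = ricci G x :=
  NN.ricci_symm hU hG (rs_symm hp) (rs_det hp) hx

theorem rdt_transpose (hU : IsOpen U) (hG : ∀ i j, ContDiffOn ℝ ∞ (fun y => G y i j) U)
    (hp : ∀ y ∈ U, (G y).PosDef) (C : E3 → Con) {x : E3} (hx : x ∈ U) :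
    (rdt G C x)ᵀ = rdt G C x := by
  have hs := rs_symm hp
  have h1 : ∀ i j, G x i j = G x j i := fun i j => NN.mat_symm_apply (hs x hx) i j
  have h2 : ∀ k i j, pd k (fun y => G y i j) x = pd k (fun y => G y j i) x := fun k i j =>
    NN.pd_congr_of_mem hU hx (fun y hy => NN.mat_symm_apply (hs y hy) i j) k
  have h3 : ∀ i j, ricci G x i j = ricci G x j i := fun i j =>
    NN.mat_symm_apply (ricci_transpose hU hG hp hx) i j
  ext i j
  simp only [Matrix.transpose_apply, rdt, lieD, Matrix.of_apply]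
  rw [h3 j i]
  congr 1
  refine Finset.sum_congr rfl fun k _ => ?_
  rw [h2 k j i, h1 k i, h1 j k]
  ring

end Pool.Agent.RFS.AA
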