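import Pool.Agent.RFS.A2GJ
import Pool.Agent.RFS.A2RS
import Pool.Agent.RFS.A2PR

/-!
RFS chunk (a2), module LW: the Ricci-DeTurck right hand side of a metric G = gram v A:
 rdt G C = bil (G^{pr} (∂_p ∂_r v - C^k_{pr} ∂_k v)) (A_i) (A_j) + lowJ.

Proof. A2JC.rdt_eq with the jets of A2GJ: jet2 = gj2 + H, H p r = gram (∂_p ∂_r v) A, which is a
symmetric matrix (gram_transpose) and symmetric in p, r (∂_p ∂_r v = ∂_r ∂_p v: prove pdv_comm for
vector valued functions as A2RS.pd_comm, from ContDiffAt.isSymmSndFDerivAt). A2PR.rdtJ_add: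
 rdt = rdtJ (G, gj1, gj2) + sum_{p,r} G⁻¹ p r * bil (∂_p ∂_r v) A_i A_j,
and bil (opL) A_i A_j = sum G⁻¹ p r (bil (∂_p ∂_r v) A_i A_j - sum_k C k p r bil (∂_k v) A_i A_j) by
linearity (A2BL). det G ≠ 0 from PosDef. (gram v A is symmetric.)
-/

open scoped Manifold ContDiff Matrix
open Set

namespace Pool.Agent.RFS.AA

variable {N : ℕ} {v : E3 → FN N} {A : E3 → Fin 3 → EN N} {U : Set E3}

theorem pdv_comm {X : Type*} [NormedAddCommGroup X] [NormedSpace ℝ X] {h : E3 → X}
    (hU : IsOpen U) (hh : ContDiffOn ℝ ∞ h U) {x : E3} (hx : x ∈ U) (p r : Fin 3) :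
    pdv p (pdv r h) x = pdv r (pdv p h) x := by
  have hf : ContDiffAt ℝ ∞ h x := hh.contDiffAt (hU.mem_nhds hx)
  have hsymm : IsSymmSndFDerivAt ℝ h x :=
    (hf.of_le (WithTop.coe_le_coe.mpr (le_top (a := (2 : ℕ∞))))).isSymmSndFDerivAt (by simp)
  have hd : DifferentiableAt ℝ (fderiv ℝ h) x :=
    (hf.fderiv_right (m := 1) (WithTop.coe_le_coe.mpr (le_top (a := (2 : ℕ∞))))).differentiableAt
      (by simp)
  have key : ∀ a b : Fin 3, pdv a (pdv b h) x = fderiv ℝ (fderiv ℝ h) x (bv a) (bv b) := by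
    intro a b
    have h1 : HasFDerivAt (fun y => fderiv ℝ h y (bv b))
        ((fderiv ℝ (fderiv ℝ h) x).flip (bv b)) x := by
      have := hd.hasFDerivAt.clm_apply (hasFDerivAt_const (bv b) x)
      simpa using this
    have h2 : pdv b h = fun y => fderiv ℝ h y (bv b) := rfl
    rw [h2]
    unfold pdv
    rw [h1.fderiv]
    rfl
  rw [key, key]
  exact hsymm (bv p) (bv r)

theorem rdt_gram (hU : IsOpen U) (hv : ContDiffOn ℝ ∞ v U)
    (hA : ∀ i, ContDiffOn ℝ ∞ (fun y => A y i) U)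
    (hp : ∀ y ∈ U, (gram (v y) (A y)).PosDef) {C : E3 → Con}
    (hC : ∀ k i j, ContDiffOn ℝ ∞ (fun y => C y k i j) U) {x : E3} (hx : x ∈ U) (i j : Fin 3) :
    rdt (fun y => gram (v y) (A y)) C x i j
      = bil (opL (gram (v x) (A x)) (C x) v x) (A x i) (A x j)
        + lowJ (v x) (fun r => pdv r v x) (A x) (fun r i => pdv r (fun y => A y i) x)
          (fun p r i => pdv p (fun y => pdv r (fun z => A z i) y) x) (C x)
          (fun i k p q => pd i (fun y => C y k p q) x) i j := by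
  have hG : ∀ i j, ContDiffOn ℝ ∞ (fun y => gram (v y) (A y) i j) U := gram_contDiffOn hv hA
  have h0 : ∀ y ∈ U, (gram (v y) (A y)).det ≠ 0 := fun y hy => (hp y hy).det_pos.ne'
  rw [rdt_eq hU hG h0 hC hx]
  have e1 : jet1 (fun y => gram (v y) (A y)) x = fun k => gj1 (v x) (fun r => pdv r v x) (A x)
      (fun r i => pdv r (fun y => A y i) x) k := funext fun k => jet1_gram hU hv hA hx k
  have e2 : jet2 (fun y => gram (v y) (A y)) x = fun p r =>
      gj2 (v x) (fun r => pdv r v x) (A x) (fun r i => pdv r (fun y => A y i) x)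
      (fun p r i => pdv p (fun y => pdv r (fun z => A z i) y) x) p r
      + gram (pdv p (pdv r v) x) (A x) := funext fun p => funext fun r => jet2_gram hU hv hA hx p r
  rw [e1, e2]
  have e3 := rdtJ_add (gram (v x) (A x)) (fun k => gj1 (v x) (fun r => pdv r v x) (A x)
      (fun r i => pdv r (fun y => A y i) x) k)
    (fun p r => gj2 (v x) (fun r => pdv r v x) (A x) (fun r i => pdv r (fun y => A y i) x)
      (fun p r i => pdv p (fun y => pdv r (fun z => A z i) y) x) p r)
    (fun p r => gram (pdv p (pdv r v) x) (A x)) (C x)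
    (fun i k p q => pd i (fun y => C y k p q) x) (gram_transpose _ _) (h0 x hx)
    (fun p q => gram_transpose _ _) (fun p q => by rw [pdv_comm hU hv hx p q]) i j
  rw [e3]
  have e4 : bil (opL (gram (v x) (A x)) (C x) v x) (A x i) (A x j)
      = ∑ p, ∑ r, (gram (v x) (A x))⁻¹ p r * (bil (pdv p (pdv r v) x) (A x i) (A x j)
        - ∑ k, C x k p r * bil (pdv k v x) (A x i) (A x j)) := by
    unfold opL
    rw [bil_sum]
    refine Finset.sum_congr rfl fun p _ => ?_
    rw [bil_sum]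
    refine Finset.sum_congr rfl fun r _ => ?_
    rw [bil_smul, bil_sub, bil_sum]
    congr 2
    exact Finset.sum_congr rfl fun k _ => bil_smul _ _ _ _
  rw [e4]
  simp only [lowJ, Matrix.of_apply]
  have e5 : ∑ p, ∑ q, (gram (v x) (A x))⁻¹ p q * gram (pdv p (pdv q v) x) (A x) i j
      = (∑ p, ∑ r, (gram (v x) (A x))⁻¹ p r * (bil (pdv p (pdv r v) x) (A x i) (A x j)
        - ∑ k, C x k p r * bil (pdv k v x) (A x i) (A x j)))
        + ∑ p, ∑ r, (gram (v x) (A x))⁻¹ p r
          * ∑ k, C x k p r * bil (pdv k v x) (A x i) (A x j) := by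
    rw [← Finset.sum_add_distrib]
    refine Finset.sum_congr rfl fun p _ => ?_
    rw [← Finset.sum_add_distrib]
    refine Finset.sum_congr rfl fun r _ => ?_
    have : gram (pdv p (pdv r v) x) (A x) i j = bil (pdv p (pdv r v) x) (A x i) (A x j) := rfl
    rw [this]
    ring
  rw [e5]
  ring

end Pool.Agent.RFS.AA
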