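import Pool.Agent.RFS.Defs

/-!
# RFS, chunk N, module NPD: calculus of the partial derivatives `pd`
-/

open scoped Manifold ContDiff Matrix Topology
open Set

noncomputable section

namespace Pool.Agent.RFS.NN

theorem pd_congr {f g : E3 → ℝ} {x : E3} (h : f =ᶠ[𝓝 x] g) (i : Fin 3) :
    pd i f x = pd i g x := by
  unfold pd
  rw [h.fderiv_eq]

theorem pd_congr_of_mem {f g : E3 → ℝ} {U : Set E3} (hU : IsOpen U) {x : E3} (hx : x ∈ U)
    (h : ∀ y ∈ U, f y = g y) (i : Fin 3) : pd i f x = pd i g x :=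
  pd_congr (Filter.eventuallyEq_of_mem (hU.mem_nhds hx) h) i

@[simp] theorem pd_const (c : ℝ) (x : E3) (i : Fin 3) : pd i (fun _ => c) x = 0 := by
  simp [pd]

theorem pd_add {f g : E3 → ℝ} {x : E3} (hf : DifferentiableAt ℝ f x)
    (hg : DifferentiableAt ℝ g x) (i : Fin 3) :
    pd i (fun y => f y + g y) x = pd i f x + pd i g x := by
  unfold pd
  rw [fderiv_fun_add hf hg]
  rfl

theorem pd_sub {f g : E3 → ℝ} {x : E3} (hf : DifferentiableAt ℝ f x)
    (hg : DifferentiableAt ℝ g x) (i : Fin 3) :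
    pd i (fun y => f y - g y) x = pd i f x - pd i g x := by
  unfold pd
  rw [fderiv_fun_sub hf hg]
  rfl

theorem pd_neg {f : E3 → ℝ} {x : E3} (i : Fin 3) :
    pd i (fun y => - f y) x = - pd i f x := by
  unfold pd
  rw [fderiv_fun_neg]
  rfl

theorem pd_mul {f g : E3 → ℝ} {x : E3} (hf : DifferentiableAt ℝ f x)
    (hg : DifferentiableAt ℝ g x) (i : Fin 3) :
    pd i (fun y => f y * g y) x = pd i f x * g x + f x * pd i g x := by
  unfold pd
  rw [fderiv_fun_mul hf hg]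
  simp only [add_apply, smul_apply, smul_eq_mul]
  ring

theorem pd_const_mul {f : E3 → ℝ} {x : E3} (hf : DifferentiableAt ℝ f x) (c : ℝ) (i : Fin 3) :
    pd i (fun y => c * f y) x = c * pd i f x := by
  rw [pd_mul (differentiableAt_const c) hf, pd_const]
  ring

theorem pd_sum {ι : Type*} (s : Finset ι) {f : ι → E3 → ℝ} {x : E3}
    (hf : ∀ a ∈ s, DifferentiableAt ℝ (f a) x) (i : Fin 3) :
    pd i (fun y => ∑ a ∈ s, f a y) x = ∑ a ∈ s, pd i (f a) x := by
  unfold pd
  rw [fderiv_fun_sum hf]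
  simp

theorem pd_sum_univ {ι : Type*} [Fintype ι] {f : ι → E3 → ℝ} {x : E3}
    (hf : ∀ a, DifferentiableAt ℝ (f a) x) (i : Fin 3) :
    pd i (fun y => ∑ a, f a y) x = ∑ a, pd i (f a) x :=
  pd_sum Finset.univ (fun a _ => hf a) i

/-- A vector of `E3` in terms of the standard basis. -/
theorem sum_smul_bv (v : E3) : ∑ i, v i • bv i = v := by
  ext k
  simp [bv, Finset.sum_apply, Pi.single_apply]

/-- The derivative in terms of the partial derivatives. -/
theorem fderiv_eq_sum_pd (f : E3 → ℝ) (x v : E3) :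
    fderiv ℝ f x v = ∑ a, v a * pd a f x := by
  conv_lhs => rw [← sum_smul_bv v]
  rw [map_sum]
  refine Finset.sum_congr rfl fun a _ => ?_
  rw [map_smul, smul_eq_mul]
  rfl

theorem differentiableAt_of_coord {φ : E3 → E3} {x : E3}
    (hφ : ∀ a, DifferentiableAt ℝ (fun y => φ y a) x) : DifferentiableAt ℝ φ x := by
  rw [differentiableAt_euclidean]
  exact hφ

/-- The chain rule. -/
theorem pd_comp {f : E3 → ℝ} {φ : E3 → E3} {x : E3} (hf : DifferentiableAt ℝ f (φ x))
    (hφ : ∀ a, DifferentiableAt ℝ (fun y => φ y a) x) (i : Fin 3) :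
    pd i (fun y => f (φ y)) x = ∑ a, pd a f (φ x) * pd i (fun y => φ y a) x := by
  have hφ' := differentiableAt_of_coord hφ
  have h1 : fderiv ℝ (fun y => f (φ y)) x = (fderiv ℝ f (φ x)).comp (fderiv ℝ φ x) :=
    fderiv_comp x hf hφ'
  have h2 : pd i (fun y => f (φ y)) x = fderiv ℝ f (φ x) (fderiv ℝ φ x (bv i)) := by
    unfold pd
    rw [h1]
    rfl
  rw [h2, fderiv_eq_sum_pd]
  refine Finset.sum_congr rfl fun a _ => ?_
  rw [mul_comm]
  congr 1
  have h3 : HasFDerivAt (fun y => φ y a) ((EuclideanSpace.proj a).comp (fderiv ℝ φ x)) x :=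
    (EuclideanSpace.proj (𝕜 := ℝ) a).hasFDerivAt.comp x hφ'.hasFDerivAt
  unfold pd
  rw [h3.fderiv]
  rfl

theorem contDiffOn_pd {f : E3 → ℝ} {U : Set E3} (hU : IsOpen U) (hf : ContDiffOn ℝ ∞ f U)
    (i : Fin 3) : ContDiffOn ℝ ∞ (fun y => pd i f y) U :=
  (hf.fderiv_of_isOpen hU (m := ∞) (by simp)).clm_apply contDiffOn_const

theorem differentiableAt_of_contDiffOn {f : E3 → ℝ} {U : Set E3} (hU : IsOpen U)
    (hf : ContDiffOn ℝ ∞ f U) {x : E3} (hx : x ∈ U) : DifferentiableAt ℝ f x :=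
  (hf.contDiffAt (hU.mem_nhds hx)).differentiableAt (by simp)

/-- Partial derivatives commute. -/
theorem pd_comm {f : E3 → ℝ} {x : E3} (hf : ContDiffAt ℝ ∞ f x) (i j : Fin 3) :
    pd i (fun y => pd j f y) x = pd j (fun y => pd i f y) x := by
  have hsymm : IsSymmSndFDerivAt ℝ f x :=
    (hf.of_le (WithTop.coe_le_coe.mpr (le_top (a := (2 : ℕ∞))))).isSymmSndFDerivAt (by simp)
  have hd : DifferentiableAt ℝ (fderiv ℝ f) x :=
    (hf.fderiv_right (m := 1) (WithTop.coe_le_coe.mpr (le_top (a := (2 : ℕ∞))))).differentiableAt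
      (by simp)
  have key : ∀ a b : Fin 3, pd a (fun y => pd b f y) x = fderiv ℝ (fderiv ℝ f) x (bv a) (bv b) := by
    intro a b
    have h1 : HasFDerivAt (fun y => fderiv ℝ f y (bv b))
        ((fderiv ℝ (fderiv ℝ f) x).flip (bv b)) x := by
      have := hd.hasFDerivAt.clm_apply (hasFDerivAt_const (bv b) x)
      simpa using this
    unfold pd
    rw [h1.fderiv]
    rfl
  rw [key, key]
  exact hsymm (bv i) (bv j)

theorem pd_comm_of_contDiffOn {f : E3 → ℝ} {U : Set E3} (hU : IsOpen U)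
    (hf : ContDiffOn ℝ ∞ f U) {x : E3} (hx : x ∈ U) (i j : Fin 3) :
    pd i (fun y => pd j f y) x = pd j (fun y => pd i f y) x :=
  pd_comm (hf.contDiffAt (hU.mem_nhds hx)) i j

end Pool.Agent.RFS.NN
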