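import Pool.Agent.RFS.A2NA
import Pool.Agent.RFS.NPD

/-!
RFS chunk (a2), module NC: naturality of the DeTurck vector field and of the Lie derivative.

Proof of wf_pull. Difference of the two ConLaws (A2NA.Pull.chr and the hypothesis):
 sum_k J_ak (Γ^k_pq - C^k_pq) = sum_bc (Γ'^a_bc - C'^a_bc) J_bp J_cq; multiply by (G⁻¹)_pq, sum, and use
 J G⁻¹ Jᵀ = (G')⁻¹ (A2NA.Pull.inv).
Proof of lieD_pull. W with J W = W'(f) on U. Differentiate sum_k J_ak W^k = W'^a(f) with ∂_i: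
 sum_k (∂_i J_ak W^k + J_ak ∂_i W^k) = sum_c ∂_c W'^a J_ci.     (*)
 By A2NA.Pull.pd_G:
 sum_k W^k ∂_k G_ij = sum_ab,c (W'^c ∂_c G'_ab) J_ai J_bj + sum_k,a,b W^k G'_ab (∂_k J_ai J_bj + J_ai ∂_k J_bj),
 sum_k G_kj ∂_i W^k = sum_ab G'_ab J_bj sum_k J_ak ∂_i W^k, and with (*) and ∂_k J_ai = ∂_i J_ak the terms
 with derivatives of J cancel (the same for j). Result:
 (L_W G)_ij = sum_ab (L_W' G')_ab J_ai J_bj.
-/

open scoped Manifold ContDiff Matrix
open Set

namespace Pool.Agent.RFS.AA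

variable {f : E3 → E3} {G G' : E3 → Mat3} {C C' : E3 → Con} {U V : Set E3}

private theorem alg_wf (J K Kp : Fin 3 → Fin 3 → ℝ) (L : Con) (E : Fin 3 → Fin 3 → ℝ)
    (a : Fin 3)
    (h1 : ∀ p q, ∑ k, J a k * L k p q = ∑ b, ∑ c, E b c * J b p * J c q)
    (h2 : ∀ b c, ∑ p, ∑ q, J b p * K p q * J c q = Kp b c) :
    ∑ k, J a k * (∑ p, ∑ q, K p q * L k p q) = ∑ p, ∑ q, Kp p q * E p q := by
  have e1 : ∑ k, J a k * (∑ p, ∑ q, K p q * L k p q)
      = ∑ p, ∑ q, K p q * ∑ k, J a k * L k p q := by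
    simp only [Fin.sum_univ_three]
    ring
  rw [e1]
  simp only [h1, ← h2]
  simp only [Fin.sum_univ_three]
  ring

private theorem alg_lie (J g : Fin 3 → Fin 3 → ℝ) (Di Dj : Fin 3 → Fin 3 → ℝ)
    (W W' dWi dWj : Fin 3 → ℝ) (dW' : Fin 3 → Fin 3 → ℝ) (dg : Fin 3 → Fin 3 → Fin 3 → ℝ)
    (i j : Fin 3) (h3 : ∀ a, ∑ k, J a k * W k = W' a)
    (h4i : ∀ a, ∑ k, (Di a k * W k + J a k * dWi k) = ∑ c, dW' c a * J c i)
    (h4j : ∀ a, ∑ k, (Dj a k * W k + J a k * dWj k) = ∑ c, dW' c a * J c j) :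
    ∑ k, (W k * (∑ a, ∑ b, (Di a k * g a b * J b j + J a i * (∑ c, dg c a b * J c k) * J b j
        + J a i * g a b * Dj b k)) + (∑ a, ∑ b, J a k * g a b * J b j) * dWi k
        + (∑ a, ∑ b, J a i * g a b * J b k) * dWj k)
      = ∑ a, ∑ b, J a i * (∑ c, (W' c * dg c a b + g c b * dW' a c + g a c * dW' b c))
        * J b j := by
  have e1 : ∑ k, (W k * (∑ a, ∑ b, (Di a k * g a b * J b j
        + J a i * (∑ c, dg c a b * J c k) * J b j
        + J a i * g a b * Dj b k)) + (∑ a, ∑ b, J a k * g a b * J b j) * dWi k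
        + (∑ a, ∑ b, J a i * g a b * J b k) * dWj k)
      = ∑ a, ∑ b, (g a b * J b j * (∑ k, (Di a k * W k + J a k * dWi k))
        + J a i * J b j * (∑ c, dg c a b * (∑ k, J c k * W k))
        + J a i * g a b * (∑ k, (Dj b k * W k + J b k * dWj k))) := by
    simp only [Fin.sum_univ_three]
    ring
  rw [e1]
  simp only [h3, h4i, h4j]
  simp only [Fin.sum_univ_three]
  ring

private theorem conj_apply (J g : Mat3) (i j : Fin 3) :
    (Jᵀ * g * J) i j = ∑ a, ∑ b, J a i * g a b * J b j := by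
  simp only [Matrix.mul_apply, Matrix.transpose_apply, Finset.sum_mul]
  rw [Finset.sum_comm]

theorem Pull.wf (h : Pull f G G' U V) {x : E3} (hx : x ∈ U) (hC : ConLaw f C C' x)
    (a : Fin 3) : ∑ k, jm f x a k * wf G C x k = wf G' C' (f x) a := by
  have h0 := h.chr hx
  have h1 : ∀ p q, ∑ k, jm f x a k * (Pool.Agent.RFS.chr G x k p q - C x k p q)
      = ∑ b, ∑ c, (Pool.Agent.RFS.chr G' (f x) a b c - C' (f x) a b c) * jm f x b p
        * jm f x c q := by
    intro p q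
    have e1 := h0 a p q
    have e2 := hC a p q
    simp only [mul_sub, sub_mul, Finset.sum_sub_distrib]
    linarith
  have h2 : ∀ b c, ∑ p, ∑ q, jm f x b p * (G x)⁻¹ p q * jm f x c q = (G' (f x))⁻¹ b c := by
    intro b c
    rw [← h.inv hx]
    simp only [Matrix.mul_apply, Matrix.transpose_apply, Finset.sum_mul]
    rw [Finset.sum_comm]
  exact alg_wf (fun a k => jm f x a k) (fun p q => (G x)⁻¹ p q) (fun p q => (G' (f x))⁻¹ p q)
    (fun k p q => Pool.Agent.RFS.chr G x k p q - C x k p q)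
    (fun b c => Pool.Agent.RFS.chr G' (f x) a b c - C' (f x) a b c) a h1 h2

theorem Pull.lieD (h : Pull f G G' U V) {W W' : E3 → Fin 3 → ℝ} {x : E3} (hx : x ∈ U)
    (hW : ∀ y ∈ U, ∀ a, ∑ k, jm f y a k * W y k = W' (f y) a)
    (hd : ∀ k, DifferentiableAt ℝ (fun y => W y k) x)
    (hd' : ∀ k, DifferentiableAt ℝ (fun y => W' y k) (f x)) :
    lieD G W x = (jm f x)ᵀ * lieD G' W' (f x) * jm f x := by
  have hJ : ∀ a k, DifferentiableAt ℝ (fun y => jm f y a k) x := fun a k =>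
    NN.differentiableAt_of_contDiffOn h.U_open (jm_contDiffOn h.U_open h.f_smooth a k) hx
  have h4 : ∀ i a, ∑ k, (pd k (fun y => jm f y a i) x * W x k
      + jm f x a k * pd i (fun y => W y k) x) = ∑ c, pd c (fun y => W' y a) (f x) * jm f x c i := by
    intro i a
    have e1 : pd i (fun y => ∑ k, jm f y a k * W y k) x = pd i (fun y => W' (f y) a) x :=
      NN.pd_congr_of_mem h.U_open hx (fun y hy => hW y hy a) i
    rw [NN.pd_sum_univ (f := fun k y => jm f y a k * W y k) (fun k => (hJ a k).mul (hd k)),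
      pd_comp h.U_open h.f_smooth hx (h := fun z => W' z a) (hd' a)] at e1
    rw [← e1]
    refine Finset.sum_congr rfl fun k _ => ?_
    rw [NN.pd_mul (hJ a k) (hd k), jm_comm h.U_open h.f_smooth hx a k i]
  ext i j
  rw [conj_apply]
  have h5 : ∀ a b, G x a b = ∑ c, ∑ d, jm f x c a * G' (f x) c d * jm f x d b := by
    intro a b
    rw [h.eq x hx, conj_apply]
  have h6 := alg_lie (fun a k => jm f x a k) (fun a b => G' (f x) a b)
    (fun a k => pd k (fun y => jm f y a i) x) (fun a k => pd k (fun y => jm f y a j) x)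
    (W x) (W' (f x)) (fun k => pd i (fun y => W y k) x) (fun k => pd j (fun y => W y k) x)
    (fun c a => pd c (fun y => W' y a) (f x)) (fun c a b => pd c (fun y => G' y a b) (f x))
    i j (hW x hx) (h4 i) (h4 j)
  simp only [Pool.Agent.RFS.AA.lieD, Matrix.of_apply]
  refine Eq.trans (Finset.sum_congr rfl fun k _ => ?_) h6
  rw [h.pd_G hx k i j, h5 k j, h5 i k]

end Pool.Agent.RFS.AA
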