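import Pool.Agent.RFS.A2NB
import Pool.Agent.RFS.A2NC
import Pool.Agent.RFS.NPD

/-!
RFS chunk (a2), module ND: naturality of the Ricci-DeTurck right hand side.

Proof. rdt G C = -2 ricci G + lieD G (wf G C). Pull.ricci, Pull.lieD with W = wf G C, W' = wf G' C'
(Pull.wf on U; differentiability from A2JC.wf_contDiffOn on U and V).
-/

open scoped Manifold ContDiff Matrix
open Set

namespace Pool.Agent.RFS.AA

variable {f : E3 → E3} {G G' : E3 → Mat3} {C C' : E3 → Con} {U V : Set E3}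

theorem Pull.rdt (h : Pull f G G' U V) (hC : ∀ k i j, ContDiffOn ℝ ∞ (fun y => C y k i j) U)
    (hC' : ∀ k i j, ContDiffOn ℝ ∞ (fun y => C' y k i j) V) (hl : ∀ x ∈ U, ConLaw f C C' x)
    {x : E3} (hx : x ∈ U) : rdt G C x = (jm f x)ᵀ * rdt G' C' (f x) * jm f x := by
  have hw := wf_contDiffOn h.U_open h.G_contDiffOn (fun y hy => (h.posDef hy).det_pos.ne') hC
  have hw' := wf_contDiffOn h.V_open h.G_smooth (fun y hy => (h.G_pos y hy).det_pos.ne') hC'
  have h1 : Pool.Agent.RFS.AA.lieD G (Pool.Agent.RFS.AA.wf G C) x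
      = (jm f x)ᵀ * Pool.Agent.RFS.AA.lieD G' (Pool.Agent.RFS.AA.wf G' C') (f x) * jm f x :=
    h.lieD hx (fun y hy a => h.wf hy (hl y hy) a)
      (fun k => NN.differentiableAt_of_contDiffOn h.U_open (hw k) hx)
      (fun k => NN.differentiableAt_of_contDiffOn h.V_open (hw' k) (h.maps hx))
  have h2 : ∀ (H : E3 → Mat3) (D : E3 → Con) (z : E3), Pool.Agent.RFS.AA.rdt H D z
      = (-2 : ℝ) • Pool.Agent.RFS.ricci H z + Pool.Agent.RFS.AA.lieD H (Pool.Agent.RFS.AA.wf H D) z := by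
    intro H D z
    ext i j
    simp [Pool.Agent.RFS.AA.rdt]
  rw [h2, h2, h1, h.ricci hx, Matrix.mul_add, Matrix.add_mul, Matrix.mul_smul, Matrix.smul_mul]

end Pool.Agent.RFS.AA
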