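import Pool.Agent.RFS.A2F2
import Pool.Agent.RFS.A2LW
import Pool.Agent.RFS.A2ND

/-!
RFS chunk (a2), module EQ: the parabolic system gives the Ricci-DeTurck flow on M.

Proof. y = rep φ e x, u = V y, p = e.symm x. gram is linear in the first argument.
(1) gram (sum D²V(σ,σ) + DV β) (fr φ e x) = gram (opL ...) (fr φ e x) by A2F1.frame_id.
(2) gram (Q) (fr e x) = sum_a χ_a^2 gram (io a y L_a) (fr φ e x), L_a = lowJ u (q) (A_a) (...) at x_a = r a y. By A2F2.q_eq,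
 q k = pdv k v_a x_a with v_a = V ∘ rep φ (ch a). The metric of V in the chart ch a is
 pullG V φ (ch a) z = gram (v_a z) (fr φ (ch a) z), PosDef on the target (A2U0.pullG_posDef), so A2LW.rdt_gram (U = target,
 A z i = fr φ (ch a) z i; fr2, fr3 are by definition the iterated pdv of A; bc1 = pd of bc) gives
 L_a = rdt (pullG V φ (ch a)) (bc g₀ (ch a)) x_a - gram (opL (pullG ..) (C_a) v_a x_a) (A_a). It is symmetric (rdt_transpose,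
 gram_transpose), so gram_io gives Jᵀ L_a J, J = jac e (ch a) x.
 Jᵀ rdt_a(x_a) J = rdt (pullG V φ e) (bc g₀ e) x by A2ND.Pull.rdt for f = trans e (ch a) (Pull structure from
 pullG_compat, pullG_posDef, pullG_contDiffOn, jac_det; bc_law, bc_contDiffOn).
 Jᵀ gram (opL_a) (A_a) J = gram (opL_a) (fr φ e x) = gram (opL (gram u (fr e x)) (bc g₀ e x) (V ∘ rep φ e) x) (fr φ e x) by fr_trans, gram_lin and
 opL_trans.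
(3) Add, with sum_a χ_a^2 = 1: the opL terms cancel, rdt remains.
-/

open scoped Manifold ContDiff Matrix
open Set

namespace Pool.Agent.RFS.AA

variable {M : Type*} [TopologicalSpace M] [ChartedSpace E3 M] [IsManifold (𝓡 3) ∞ M] {N : ℕ}
  {Φ : Emb M N}

private theorem pull_chart (𝒞 : Cov Φ) {V : EN N → FN N} (hV : ContDiff ℝ ∞ V)
    (hO : ∀ p, (Φ.φ p, V (Φ.φ p)) ∈ 𝒞.O) (e e' : Ch M) :
    Pull (trans e e') (pullG V Φ.φ e) (pullG V Φ.φ e') (tdom e e') e'.1.target where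
  U_open := tdom_open e e'
  V_open := e'.1.open_target
  f_smooth := trans_contDiffOn e e'
  maps := fun z hz => (trans_maps e e' hz).1
  G_smooth := pullG_contDiffOn hV (emb_rep Φ) e'
  G_pos := fun z hz => pullG_posDef 𝒞 hO e' hz
  eq := fun z hz => by
    rw [← jac_eq]
    exact pullG_compat V (emb_rep Φ) e e' hz
  det := fun z hz => by
    rw [← jac_eq]
    exact jac_det e e' hz

private theorem rdt_chart (𝒞 : Cov Φ) (g₀ : RMetric M) {V : EN N → FN N} (hV : ContDiff ℝ ∞ V)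
    (hO : ∀ p, (Φ.φ p, V (Φ.φ p)) ∈ 𝒞.O) (e e' : Ch M) {x : E3} (hx : x ∈ tdom e e') :
    rdt (pullG V Φ.φ e) (bc g₀ e) x = (jac e e' x)ᵀ
      * rdt (pullG V Φ.φ e') (bc g₀ e') (trans e e' x) * jac e e' x := by
  rw [jac_eq]
  exact (pull_chart 𝒞 hV hO e e').rdt
    (fun k i j => (bc_contDiffOn g₀ e k i j).mono inter_subset_left)
    (bc_contDiffOn g₀ e') (fun z hz => bc_law g₀ e e' hz) hx

private theorem gram_tr (Φ : Emb M N) (w : FN N) (e e' : Ch M) {x : E3} (hx : x ∈ tdom e e') :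
    (jac e e' x)ᵀ * gram w (fr Φ.φ e' (trans e e' x)) * jac e e' x = gram w (fr Φ.φ e x) := by
  rw [← gram_lin]
  congr 1
  funext i
  exact (fr_trans (emb_rep Φ) e e' hx i).symm

private theorem low_eq (𝒞 : Cov Φ) (g₀ : RMetric M) {V : EN N → FN N} (hV : ContDiff ℝ ∞ V)
    (hO : ∀ p, (Φ.φ p, V (Φ.φ p)) ∈ 𝒞.O) (a : Fin 𝒞.n) (p : M) (hp : Φ.φ p ∈ 𝒞.U a) :
    lowJ (V (Φ.φ p))
        (𝒞.q a (Φ.φ p) (V (Φ.φ p)) (fun c => fderiv ℝ V (Φ.φ p) (𝒞.σ c (Φ.φ p) (V (Φ.φ p)))))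
        (𝒞.A a (Φ.φ p)) (fr2 Φ.φ (𝒞.ch a) (𝒞.r a (Φ.φ p))) (fr3 Φ.φ (𝒞.ch a) (𝒞.r a (Φ.φ p)))
        (bc g₀ (𝒞.ch a) (𝒞.r a (Φ.φ p))) (bc1 g₀ (𝒞.ch a) (𝒞.r a (Φ.φ p)))
      = rdt (pullG V Φ.φ (𝒞.ch a)) (bc g₀ (𝒞.ch a)) (𝒞.r a (Φ.φ p))
        - gram (opL (gram (V (Φ.φ p)) (𝒞.A a (Φ.φ p))) (bc g₀ (𝒞.ch a) (𝒞.r a (Φ.φ p)))
            (fun z => V (rep Φ.φ (𝒞.ch a) z)) (𝒞.r a (Φ.φ p))) (𝒞.A a (Φ.φ p)) := by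
  have hr : 𝒞.r a (Φ.φ p) ∈ (𝒞.ch a).1.target := 𝒞.r_maps a hp
  have hq : 𝒞.q a (Φ.φ p) (V (Φ.φ p))
      (fun c => fderiv ℝ V (Φ.φ p) (𝒞.σ c (Φ.φ p) (V (Φ.φ p))))
      = fun k => pdv k (fun z => V (rep Φ.φ (𝒞.ch a) z)) (𝒞.r a (Φ.φ p)) :=
    funext fun k => q_eq 𝒞 hV a p hp (hO p) k
  have hv : V (rep Φ.φ (𝒞.ch a) (𝒞.r a (Φ.φ p))) = V (Φ.φ p) := by rw [cov_rep 𝒞 a p hp]
  rw [hq]
  ext i j
  have h := rdt_gram (v := fun z => V (rep Φ.φ (𝒞.ch a) z)) (A := fun z => fr Φ.φ (𝒞.ch a) z)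
    (𝒞.ch a).1.open_target (hV.comp_contDiffOn (emb_rep Φ (𝒞.ch a)))
    (fun i => pdv_contDiffOn (𝒞.ch a).1.open_target (emb_rep Φ (𝒞.ch a)) i)
    (fun z hz => pullG_posDef 𝒞 hO (𝒞.ch a) hz) (bc_contDiffOn g₀ (𝒞.ch a)) hr i j
  simp only [hv] at h
  rw [Matrix.sub_apply]
  have h' : rdt (pullG V Φ.φ (𝒞.ch a)) (bc g₀ (𝒞.ch a)) (𝒞.r a (Φ.φ p)) i j = _ := h
  rw [h']
  exact (add_sub_cancel_left _ _).symm

private theorem io_eq (𝒞 : Cov Φ) (g₀ : RMetric M) {V : EN N → FN N} (hV : ContDiff ℝ ∞ V)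
    (hO : ∀ p, (Φ.φ p, V (Φ.φ p)) ∈ 𝒞.O) (a : Fin 𝒞.n) (e : Ch M) {x : E3}
    (hx : x ∈ e.1.target) (hU : rep Φ.φ e x ∈ 𝒞.U a) :
    gram (𝒞.io a (rep Φ.φ e x) (lowJ (V (rep Φ.φ e x))
        (𝒞.q a (rep Φ.φ e x) (V (rep Φ.φ e x))
          (fun c => fderiv ℝ V (rep Φ.φ e x) (𝒞.σ c (rep Φ.φ e x) (V (rep Φ.φ e x)))))
        (𝒞.A a (rep Φ.φ e x)) (fr2 Φ.φ (𝒞.ch a) (𝒞.r a (rep Φ.φ e x)))
        (fr3 Φ.φ (𝒞.ch a) (𝒞.r a (rep Φ.φ e x)))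
        (bc g₀ (𝒞.ch a) (𝒞.r a (rep Φ.φ e x))) (bc1 g₀ (𝒞.ch a) (𝒞.r a (rep Φ.φ e x)))))
      (fr Φ.φ e x)
      = rdt (pullG V Φ.φ e) (bc g₀ e) x
        - gram (opL (gram (V (rep Φ.φ e x)) (fr Φ.φ e x)) (bc g₀ e x)
            (fun z => V (rep Φ.φ e z)) x) (fr Φ.φ e x) := by
  have hp : Φ.φ (e.1.symm x) ∈ 𝒞.U a := hU
  obtain ⟨ht, hr⟩ := cov_mem 𝒞 a e hx hU
  have hr' : 𝒞.r a (Φ.φ (e.1.symm x)) = trans e (𝒞.ch a) x := hr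
  have hm : trans e (𝒞.ch a) x ∈ (𝒞.ch a).1.target := (trans_maps e (𝒞.ch a) ht).1
  have hlow := low_eq 𝒞 g₀ hV hO a (e.1.symm x) hp
  rw [hr'] at hlow
  have hA : 𝒞.A a (Φ.φ (e.1.symm x)) = fr Φ.φ (𝒞.ch a) (trans e (𝒞.ch a) x) := by
    rw [← hr']
    rfl
  rw [hr]
  show gram (𝒞.io a (Φ.φ (e.1.symm x)) (lowJ (V (Φ.φ (e.1.symm x)))
        (𝒞.q a (Φ.φ (e.1.symm x)) (V (Φ.φ (e.1.symm x)))
          (fun c => fderiv ℝ V (Φ.φ (e.1.symm x)) (𝒞.σ c (Φ.φ (e.1.symm x))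
            (V (Φ.φ (e.1.symm x))))))
        (𝒞.A a (Φ.φ (e.1.symm x))) (fr2 Φ.φ (𝒞.ch a) (trans e (𝒞.ch a) x))
        (fr3 Φ.φ (𝒞.ch a) (trans e (𝒞.ch a) x))
        (bc g₀ (𝒞.ch a) (trans e (𝒞.ch a) x)) (bc1 g₀ (𝒞.ch a) (trans e (𝒞.ch a) x))))
      (fr Φ.φ e x) = _
  rw [hlow, hA]
  have hGc := pullG_contDiffOn (N := N) hV (emb_rep Φ) (𝒞.ch a)
  have hsym : (rdt (pullG V Φ.φ (𝒞.ch a)) (bc g₀ (𝒞.ch a)) (trans e (𝒞.ch a) x)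
        - gram (opL (gram (V (Φ.φ (e.1.symm x))) (fr Φ.φ (𝒞.ch a) (trans e (𝒞.ch a) x)))
            (bc g₀ (𝒞.ch a) (trans e (𝒞.ch a) x))
            (fun z => V (rep Φ.φ (𝒞.ch a) z)) (trans e (𝒞.ch a) x))
          (fr Φ.φ (𝒞.ch a) (trans e (𝒞.ch a) x)))ᵀ
      = rdt (pullG V Φ.φ (𝒞.ch a)) (bc g₀ (𝒞.ch a)) (trans e (𝒞.ch a) x)
        - gram (opL (gram (V (Φ.φ (e.1.symm x))) (fr Φ.φ (𝒞.ch a) (trans e (𝒞.ch a) x)))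
            (bc g₀ (𝒞.ch a) (trans e (𝒞.ch a) x))
            (fun z => V (rep Φ.φ (𝒞.ch a) z)) (trans e (𝒞.ch a) x))
          (fr Φ.φ (𝒞.ch a) (trans e (𝒞.ch a) x)) := by
    rw [Matrix.transpose_sub, gram_transpose, rdt_transpose (𝒞.ch a).1.open_target hGc
      (fun z hz => pullG_posDef 𝒞 hO (𝒞.ch a) hz) _ hm]
  have hio := gram_io 𝒞 a e hx hU hsym
  refine Eq.trans hio ?_
  rw [Matrix.mul_sub, Matrix.sub_mul, ← rdt_chart 𝒞 g₀ hV hO e (𝒞.ch a) ht, gram_tr Φ _ e _ ht]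
  have hθ : ∀ e : Ch M, ContDiffOn ℝ ∞ (rep (fun q => V (Φ.φ q)) e) e.1.target :=
    fun e => hV.comp_contDiffOn (emb_rep Φ e)
  have hrt : rep Φ.φ e x = rep Φ.φ (𝒞.ch a) (trans e (𝒞.ch a) x) := rep_trans Φ.φ e _ ht
  have h0 : (gram (V (Φ.φ (e.1.symm x))) (fr Φ.φ (𝒞.ch a) (trans e (𝒞.ch a) x))).det ≠ 0 := by
    have h1 := (pullG_posDef 𝒞 hO (𝒞.ch a) hm).det_pos.ne'
    have h2 : pullG V Φ.φ (𝒞.ch a) (trans e (𝒞.ch a) x)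
        = gram (V (Φ.φ (e.1.symm x))) (fr Φ.φ (𝒞.ch a) (trans e (𝒞.ch a) x)) := by
      show gram (V (rep Φ.φ (𝒞.ch a) (trans e (𝒞.ch a) x))) _ = _
      rw [← hrt]
      rfl
    rwa [h2] at h1
  have hop := opL_trans (θ := fun q => V (Φ.φ q)) hθ e (𝒞.ch a) ht
    (G := gram (V (Φ.φ (e.1.symm x))) (fr Φ.φ e x)) h0 (gram_tr Φ _ e _ ht).symm
    (bc_law g₀ e (𝒞.ch a) ht)
  congr 2
  exact hop.symm

theorem main_eq (𝒞 : Cov Φ) (g₀ : RMetric M) {V : EN N → FN N} (hV : ContDiff ℝ ∞ V)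
    (hO : ∀ p, (Φ.φ p, V (Φ.φ p)) ∈ 𝒞.O) (e : Ch M) {x : E3} (hx : x ∈ e.1.target)
    {y : EN N} (hy : y = rep Φ.φ e x) :
    gram ((∑ c, fderiv ℝ (fderiv ℝ V) y (𝒞.σ c y (V y)) (𝒞.σ c y (V y)))
        + fderiv ℝ V y (𝒞.β g₀ y (V y))
        + 𝒞.Q g₀ y (V y) (fun c => fderiv ℝ V y (𝒞.σ c y (V y)))) (fr Φ.φ e x)
      = rdt (pullG V Φ.φ e) (bc g₀ e) x := by
  subst hy
  have hu : (rep Φ.φ e x, V (rep Φ.φ e x)) ∈ 𝒞.O := hO (e.1.symm x)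
  rw [gram_add, frame_id 𝒞 g₀ hV e hx hu]
  unfold Cov.Q
  rw [gram_sum]
  have hterm : ∀ a ∈ Finset.univ, gram ((𝒞.χ a (rep Φ.φ e x)) ^ 2 • 𝒞.io a (rep Φ.φ e x)
      (lowJ (V (rep Φ.φ e x))
        (𝒞.q a (rep Φ.φ e x) (V (rep Φ.φ e x))
          (fun c => fderiv ℝ V (rep Φ.φ e x) (𝒞.σ c (rep Φ.φ e x) (V (rep Φ.φ e x)))))
        (𝒞.A a (rep Φ.φ e x)) (fr2 Φ.φ (𝒞.ch a) (𝒞.r a (rep Φ.φ e x)))
        (fr3 Φ.φ (𝒞.ch a) (𝒞.r a (rep Φ.φ e x)))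
        (bc g₀ (𝒞.ch a) (𝒞.r a (rep Φ.φ e x))) (bc1 g₀ (𝒞.ch a) (𝒞.r a (rep Φ.φ e x)))))
      (fr Φ.φ e x)
      = (𝒞.χ a (rep Φ.φ e x)) ^ 2 • (rdt (pullG V Φ.φ e) (bc g₀ e) x
        - gram (opL (gram (V (rep Φ.φ e x)) (fr Φ.φ e x)) (bc g₀ e x)
            (fun z => V (rep Φ.φ e z)) x) (fr Φ.φ e x)) := by
    intro a _
    rw [gram_smul]
    by_cases h0 : 𝒞.χ a (rep Φ.φ e x) = 0
    · rw [h0]
      simp
    · have hU : rep Φ.φ e x ∈ 𝒞.U a :=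
        𝒞.χ_supp a (subset_tsupport _ (Function.mem_support.mpr h0))
      rw [io_eq 𝒞 g₀ hV hO a e hx hU]
  rw [Finset.sum_congr rfl hterm, ← Finset.sum_smul]
  have hs : ∑ a, (𝒞.χ a (rep Φ.φ e x)) ^ 2 = 1 := 𝒞.χ_sum (e.1.symm x)
  rw [hs, one_smul, add_sub_cancel]

end Pool.Agent.RFS.AA
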