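import Pool.Agent.RFS.A2Defs

/-!
RFS chunk (a2), module JA: basic facts on JS (functions smooth on [a,b] x U, U open, a < b).

Proofs. J = Icc a b with a < b, so J x U has unique derivatives (uniqueDiffOn_Icc, IsOpen.uniqueDiffOn,
UniqueDiffOn.prod).
* slice: compose with x -> (t,x) (ContDiffOn.comp, maps U to J x U).
* fderiv: for t in J, x in U: fderiv (f t) x = (fderivWithin (uncurry f) (J x U) (t,x)).comp (inr)
  (chain rule: HasFDerivWithinAt.comp for x -> (t,x), U is a neighbourhood of x, so the derivative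
  within U is the derivative). ContDiffOn.fderivWithin, then congr. pd, pdv: evaluate at bv k.
* iterated: continuity of (t,x) -> iteratedFDeriv k (f t) x by induction on k for all f with
  iteratedFDeriv_succ_eq_comp_right (the curry map is a linear isometry equivalence) and fderiv.
* comp, comp_right: ContDiffOn.comp with (t,x) -> (t, g t x).
* of_contDiffOn: compose with the second projection.
* of_local: ContDiffWithinAt is local: at (t,x) the function is smooth within J' x V, and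
  J' x V is a neighbourhood of (t,x) within J x U (ContDiffWithinAt.mono_of_mem_nhdsWithin,
  prod_mem_nhdsWithin... ).
* hasDerivWithinAt: the time derivative is fderivWithin (uncurry f) (J x U) (t,x) (1,0); it is JS.
-/

open scoped Manifold ContDiff
open Set

namespace Pool.Agent.RFS.AA

variable {E E' F G : Type*} [NormedAddCommGroup E] [NormedSpace ℝ E]
  [NormedAddCommGroup E'] [NormedSpace ℝ E']
  [NormedAddCommGroup F] [NormedSpace ℝ F] [NormedAddCommGroup G] [NormedSpace ℝ G]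
  {J J' : Set ℝ} {U U' : Set E} {a b : ℝ}

private theorem a2ja_uniq {U : Set E} (hab : a < b) (hU : IsOpen U) :
    UniqueDiffOn ℝ (Icc a b ×ˢ U) := (uniqueDiffOn_Icc hab).prod hU.uniqueDiffOn

private theorem a2ja_fderiv {f : ℝ → E → F} (hU : IsOpen U)
    (h : ContDiffOn ℝ ∞ (fun z : ℝ × E => f z.1 z.2) (Icc a b ×ˢ U)) {z : ℝ × E}
    (hz : z ∈ Icc a b ×ˢ U) :
    fderiv ℝ (f z.1) z.2 = (fderivWithin ℝ (fun z : ℝ × E => f z.1 z.2) (Icc a b ×ˢ U) z).comp
      (ContinuousLinearMap.inr ℝ ℝ E) := by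
  obtain ⟨t, x⟩ := z
  have h1 : HasFDerivWithinAt (fun z : ℝ × E => f z.1 z.2)
      (fderivWithin ℝ (fun z : ℝ × E => f z.1 z.2) (Icc a b ×ˢ U) (t, x)) (Icc a b ×ˢ U) (t, x) :=
    ((h.differentiableOn (by simp)) (t, x) hz).hasFDerivWithinAt
  have h2 : HasFDerivWithinAt (fun y : E => ((t, y) : ℝ × E)) (ContinuousLinearMap.inr ℝ ℝ E) U x :=
    (hasFDerivAt_prodMk_right t x).hasFDerivWithinAt
  have h3 := h1.comp x h2 (fun y hy => ⟨hz.1, hy⟩)
  exact (h3.hasFDerivAt (hU.mem_nhds hz.2)).fderiv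

private theorem a2ja_JS_fderiv {f : ℝ → E → F} (hab : a < b) (hU : IsOpen U)
    (h : JS (Icc a b) U f) : JS (Icc a b) U (fun t x => fderiv ℝ (f t) x) := by
  have h1 : ContDiffOn ℝ ∞ (fderivWithin ℝ (fun z : ℝ × E => f z.1 z.2) (Icc a b ×ˢ U))
      (Icc a b ×ˢ U) := ContDiffOn.fderivWithin h (a2ja_uniq hab hU) (by simp)
  have h2 : ContDiffOn ℝ ∞ (fun z : ℝ × E => (fderivWithin ℝ (fun z : ℝ × E => f z.1 z.2)
      (Icc a b ×ˢ U) z).comp (ContinuousLinearMap.inr ℝ ℝ E)) (Icc a b ×ˢ U) :=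
    h1.clm_comp contDiffOn_const
  exact h2.congr fun z hz => a2ja_fderiv hU h hz

private theorem a2ja_iter {f : ℝ → E → F} (hab : a < b) (hU : IsOpen U) (h : JS (Icc a b) U f)
    (k : ℕ) : JS (Icc a b) U (fun t x => iteratedFDeriv ℝ k (f t) x) := by
  induction k with
  | zero => exact (continuousMultilinearCurryFin0 ℝ E F).symm.contDiff.comp_contDiffOn h
  | succ k ih =>
    exact (continuousMultilinearCurryLeftEquiv ℝ (fun _ : Fin (k + 1) => E) F).symm.contDiff.comp_contDiffOn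
      (a2ja_JS_fderiv hab hU ih)

theorem JS.slice {f : ℝ → E → F} (h : JS J U f) {t : ℝ} (ht : t ∈ J) :
    ContDiffOn ℝ ∞ (f t) U :=
  ContDiffOn.comp (g := fun z : ℝ × E => f z.1 z.2) (f := fun x : E => ((t, x) : ℝ × E)) h
    (contDiff_const.prodMk contDiff_id).contDiffOn (fun _ hx => ⟨ht, hx⟩)

theorem JS.fderiv {f : ℝ → E → F} (hab : a < b) (hU : IsOpen U) (h : JS (Icc a b) U f) :
    JS (Icc a b) U (fun t x => fderiv ℝ (f t) x) :=
  a2ja_JS_fderiv hab hU h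

theorem JS.pdv {f : ℝ → E3 → F} {U : Set E3} (hab : a < b) (hU : IsOpen U)
    (h : JS (Icc a b) U f) (k : Fin 3) : JS (Icc a b) U (fun t x => pdv k (f t) x) := by
  have h1 : JS (Icc a b) U (fun t x => _root_.fderiv ℝ (f t) x) := a2ja_JS_fderiv hab hU h
  exact ContDiffOn.clm_apply h1 contDiffOn_const

theorem JS.pd {f : ℝ → E3 → ℝ} {U : Set E3} (hab : a < b) (hU : IsOpen U)
    (h : JS (Icc a b) U f) (k : Fin 3) : JS (Icc a b) U (fun t x => pd k (f t) x) := by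
  have h1 : JS (Icc a b) U (fun t x => _root_.fderiv ℝ (f t) x) := a2ja_JS_fderiv hab hU h
  exact ContDiffOn.clm_apply h1 contDiffOn_const

theorem JS.iterated {f : ℝ → E → F} (hab : a < b) (hU : IsOpen U) (h : JS (Icc a b) U f)
    (k : ℕ) : ContinuousOn (fun z : ℝ × E => iteratedFDeriv ℝ k (f z.1) z.2) (Icc a b ×ˢ U) :=
  ContDiffOn.continuousOn (a2ja_iter hab hU h k)

theorem JS.comp {f : ℝ → E → F} {g : ℝ → E' → E} {V : Set E'} (hf : JS J U f) (hg : JS J V g)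
    (hm : ∀ t ∈ J, ∀ x ∈ V, g t x ∈ U) : JS J V (fun t x => f t (g t x)) :=
  ContDiffOn.comp (g := fun z : ℝ × E => f z.1 z.2)
    (f := fun z : ℝ × E' => ((z.1, g z.1 z.2) : ℝ × E)) hf
    (ContDiffOn.prodMk contDiff_fst.contDiffOn hg) (fun z hz => ⟨hz.1, hm z.1 hz.1 z.2 hz.2⟩)

theorem JS.comp_right {f : ℝ → E → F} {h : E' → E} {V : Set E'} (hf : JS J U f)
    (hh : ContDiffOn ℝ ∞ h V) (hm : MapsTo h V U) : JS J V (fun t x => f t (h x)) :=
  ContDiffOn.comp (g := fun z : ℝ × E => f z.1 z.2)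
    (f := fun z : ℝ × E' => ((z.1, h z.2) : ℝ × E)) hf
    (ContDiffOn.prodMk contDiff_fst.contDiffOn
      (ContDiffOn.comp (g := h) (f := fun z : ℝ × E' => z.2) hh contDiff_snd.contDiffOn
        (fun _ hz => hz.2))) (fun _ hz => ⟨hz.1, hm hz.2⟩)

theorem JS.of_contDiffOn {h : E → F} (hf : ContDiffOn ℝ ∞ h U) : JS J U (fun _ => h) :=
  ContDiffOn.comp (g := h) (f := fun z : ℝ × E => z.2) hf contDiff_snd.contDiffOn
    (fun _ hz => hz.2)

theorem JS.of_local {f : ℝ → E → F} (h : ∀ t ∈ J, ∀ x ∈ U, ∃ V : Set E, IsOpen V ∧ x ∈ V ∧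
    ∃ J' : Set ℝ, t ∈ J' ∧ J' ∈ nhdsWithin t J ∧ JS J' V f) : JS J U f := by
  rintro ⟨t, x⟩ ⟨ht, hx⟩
  obtain ⟨V, hV, hxV, J', htJ', hJ', hJS⟩ := h t ht x hx
  have h1 : ContDiffWithinAt ℝ ∞ (fun z : ℝ × E => f z.1 z.2) (J' ×ˢ V) (t, x) :=
    hJS (t, x) ⟨htJ', hxV⟩
  refine h1.mono_of_mem_nhdsWithin ?_
  rw [nhdsWithin_prod_eq]
  exact Filter.prod_mem_prod hJ' (mem_nhdsWithin_of_mem_nhds (hV.mem_nhds hxV))

theorem JS.hasDerivWithinAt {f : ℝ → E → F} (hab : a < b) (hU : IsOpen U)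
    (h : JS (Icc a b) U f) : ∃ h' : ℝ → E → F, JS (Icc a b) U h' ∧
      ∀ t ∈ Icc a b, ∀ x ∈ U, HasDerivWithinAt (fun s => f s x) (h' t x) (Icc a b) t := by
  refine ⟨fun t x => fderivWithin ℝ (fun z : ℝ × E => f z.1 z.2) (Icc a b ×ˢ U) (t, x) (1, 0),
    ?_, fun t ht x hx => ?_⟩
  · have h1 : ContDiffOn ℝ ∞ (fderivWithin ℝ (fun z : ℝ × E => f z.1 z.2) (Icc a b ×ˢ U))
        (Icc a b ×ˢ U) := ContDiffOn.fderivWithin h (a2ja_uniq hab hU) (by simp)
    exact ContDiffOn.clm_apply h1 contDiffOn_const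
  · have h1 : HasFDerivWithinAt (fun z : ℝ × E => f z.1 z.2)
        (fderivWithin ℝ (fun z : ℝ × E => f z.1 z.2) (Icc a b ×ˢ U) (t, x))
        (Icc a b ×ˢ U) (t, x) :=
      ((ContDiffOn.differentiableOn h (by simp)) (t, x) ⟨ht, hx⟩).hasFDerivWithinAt
    have h2 : HasDerivWithinAt (fun s : ℝ => ((s, x) : ℝ × E)) (1, 0) (Icc a b) t :=
      (hasDerivWithinAt_id t _).prodMk (hasDerivWithinAt_const t _ x)
    have hm : MapsTo (fun s : ℝ => ((s, x) : ℝ × E)) (Icc a b) (Icc a b ×ˢ U) :=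
      fun s hs => ⟨hs, hx⟩
    exact h1.comp_hasDerivWithinAt t h2 hm

end Pool.Agent.RFS.AA
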