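import Pool.Agent.RFS.A2CT
import Pool.Agent.RFS.A2JA

/-!
RFS chunk (a2), module PG: the tensors pullG U θ = bil (U ∘ θ) (dθ, dθ).

Proofs. pullG U θ e x = gram (U (rep θ e x)) (fr θ e x). Smoothness: A2GJ.gram_contDiffOn with
v = U ∘ rep θ e, A y i = pdv i (rep θ e) y. Transpose: gram_transpose. Compatibility: rep_trans,
fr_trans and gram_lin. JS: bil_contDiff composed with the JS functions u t (rep (θ t) e x) (JS.comp) and
fr (θ t) e x i = pdv i (rep (θ t) e) x (JS.pdv); pairs: ContDiffOn.prodMk.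
-/

open scoped Manifold ContDiff Matrix
open Set

namespace Pool.Agent.RFS.AA

variable {M : Type*} [TopologicalSpace M] [ChartedSpace E3 M] [IsManifold (𝓡 3) ∞ M] {N : ℕ}

theorem pullG_contDiffOn {U : EN N → FN N} (hU : ContDiff ℝ ∞ U) {θ : M → EN N}
    (hθ : ∀ e : Ch M, ContDiffOn ℝ ∞ (rep θ e) e.1.target) (e : Ch M) (i j : Fin 3) :
    ContDiffOn ℝ ∞ (fun x => pullG U θ e x i j) e.1.target := by
  have hv : ContDiffOn ℝ ∞ (fun x => U (rep θ e x)) e.1.target := hU.comp_contDiffOn (hθ e)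
  exact gram_contDiffOn hv (A := fun x => fr θ e x)
    (fun i => pdv_contDiffOn e.1.open_target (hθ e) i) i j

omit [IsManifold (𝓡 3) ∞ M] in
theorem pullG_transpose (U : EN N → FN N) (θ : M → EN N) (e : Ch M) (x : E3) :
    (pullG U θ e x)ᵀ = pullG U θ e x := gram_transpose _ _

theorem pullG_compat (U : EN N → FN N) {θ : M → EN N}
    (hθ : ∀ e : Ch M, ContDiffOn ℝ ∞ (rep θ e) e.1.target) (e e' : Ch M) {x : E3}
    (hx : x ∈ tdom e e') :
    pullG U θ e x = (jac e e' x)ᵀ * pullG U θ e' (trans e e' x) * jac e e' x := by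
  unfold pullG
  rw [rep_trans θ e e' hx, ← gram_lin]
  congr 1
  funext i
  exact fr_trans hθ e e' hx i

theorem pullG_JS {T : ℝ} (hT : 0 < T) {u : ℝ → EN N → FN N} (hu : JS (Icc 0 T) univ u)
    {θ : ℝ → M → EN N} (e : Ch M) (hθ : JS (Icc 0 T) e.1.target (fun t x => rep (θ t) e x))
    (i j : Fin 3) : JS (Icc 0 T) e.1.target (fun t x => pullG (u t) (θ t) e x i j) := by
  have h1 : JS (Icc 0 T) e.1.target (fun t x => u t (rep (θ t) e x)) :=
    hu.comp hθ (fun _ _ _ _ => mem_univ _)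
  have h2 : ∀ i, JS (Icc 0 T) e.1.target (fun t x => fr (θ t) e x i) := fun i =>
    hθ.pdv hT e.1.open_target i
  exact bil_contDiff.comp_contDiffOn (ContDiffOn.prodMk h1 (ContDiffOn.prodMk (h2 i) (h2 j)))

end Pool.Agent.RFS.AA
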