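import Pool.Agent.RFS.A2SG
import Pool.Agent.RFS.A2PG

/-!
RFS chunk (a2), module U0: the initial value u₀ represents the metric g₀ on M.

Proofs.
* u₀ is smooth with compact support: each term χ_a^2 • io a y (g₀.c (ch a) (r a y)) is smooth on U a
  (io_contDiffOn; g₀.c smooth on the target, r a maps U a there) and χ_a has compact support in U a
  (outside tsupport χ_a the term vanishes near the point).
* u₀_eq: for x ∈ e.target, y = rep φ e x: for every a with χ_a y ≠ 0, y ∈ U a, r a y = trans e (ch a) x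
  (cov_mem), gram (io a y (g₀.c (ch a) (r a y))) (fr φ e x) = Jᵀ g₀.c (ch a) (trans x) J = g₀.c e x (gram_io, compat of
  g₀). Sum with weights χ_a^2, sum = 1 (χ_sum at the point e.symm x). gram_sum, gram_smul.
* u₀_mem: for a with φ p ∈ tsupport χ_a ⊆ U a: G a (φ p) (u₀ (φ p)) = gram (u₀ (φ p)) (fr φ (ch a) x), x = r a (φ p) =
  ch a p (r_eq, rep φ (ch a) x = φ p), which is g₀.c (ch a) x by u₀_eq, PosDef.
* pullG_posDef: x ∈ e.target, p = e.symm x; some a has χ_a (φ p) ≠ 0 (sum = 1); then φ p ∈ tsupport χ_a, so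
  pullG U φ (ch a) (trans e (ch a) x) = G a (φ p) (U (φ p)) is PosDef, and
  pullG U φ e x = Jᵀ (...) J with det J ≠ 0 (pullG_compat, jac_det).
-/

open scoped Manifold ContDiff Matrix
open Set

namespace Pool.Agent.RFS.AA

variable {M : Type*} [TopologicalSpace M] [ChartedSpace E3 M] [IsManifold (𝓡 3) ∞ M] {N : ℕ}
  {Φ : Emb M N}

theorem Cov.u₀_contDiff (𝒞 : Cov Φ) (g₀ : RMetric M) : ContDiff ℝ ∞ (𝒞.u₀ g₀) := by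
  have h : ∀ a, ContDiff ℝ ∞
      (fun y => (𝒞.χ a y) ^ 2 • 𝒞.io a y (g₀.c (𝒞.ch a) (𝒞.r a y))) := by
    intro a
    have h1 : ContDiffOn ℝ ∞ (fun y => 𝒞.io a y (g₀.c (𝒞.ch a) (𝒞.r a y))) (𝒞.U a) :=
      𝒞.io_contDiffOn a (y := fun y => y) (h := fun y => g₀.c (𝒞.ch a) (𝒞.r a y)) contDiffOn_id
        (fun y hy => hy) (fun i j => (g₀.smooth (𝒞.ch a) i j).comp (𝒞.r_smooth a) (𝒞.r_maps a))
    rw [contDiff_iff_contDiffAt]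
    intro y
    by_cases hy : y ∈ tsupport (𝒞.χ a)
    · exact ((𝒞.χ_smooth a).pow 2).contDiffAt.smul
        (h1.contDiffAt ((𝒞.U_open a).mem_nhds (𝒞.χ_supp a hy)))
    · have h2 : (fun y => (𝒞.χ a y) ^ 2 • 𝒞.io a y (g₀.c (𝒞.ch a) (𝒞.r a y))) =ᶠ[nhds y]
          fun _ => 0 := by
        filter_upwards [(isClosed_tsupport (𝒞.χ a)).isOpen_compl.mem_nhds hy] with z hz
        have h3 : 𝒞.χ a z = 0 := image_eq_zero_of_notMem_tsupport hz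
        rw [h3]
        simp
      exact contDiffAt_const.congr_of_eventuallyEq h2
  exact ContDiff.sum fun a _ => h a

omit [IsManifold (𝓡 3) ∞ M] in
theorem Cov.u₀_cpt (𝒞 : Cov Φ) (g₀ : RMetric M) : HasCompactSupport (𝒞.u₀ g₀) := by
  refine HasCompactSupport.intro (isCompact_iUnion fun a => 𝒞.χ_cpt a) fun y hy => ?_
  show ∑ a, (𝒞.χ a y) ^ 2 • 𝒞.io a y (g₀.c (𝒞.ch a) (𝒞.r a y)) = 0
  refine Finset.sum_eq_zero fun a _ => ?_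
  have h3 : 𝒞.χ a y = 0 := by
    apply image_eq_zero_of_notMem_tsupport
    intro h
    exact hy (mem_iUnion.2 ⟨a, h⟩)
  rw [h3]
  simp

theorem Cov.u₀_eq (𝒞 : Cov Φ) (g₀ : RMetric M) (e : Ch M) {x : E3} (hx : x ∈ e.1.target) :
    pullG (𝒞.u₀ g₀) Φ.φ e x = g₀.c e x := by
  have h0 : pullG (𝒞.u₀ g₀) Φ.φ e x = gram (∑ a, (𝒞.χ a (rep Φ.φ e x)) ^ 2 •
      𝒞.io a (rep Φ.φ e x) (g₀.c (𝒞.ch a) (𝒞.r a (rep Φ.φ e x)))) (fr Φ.φ e x) := rfl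
  rw [h0, gram_sum]
  have h1 : ∀ a, gram ((𝒞.χ a (rep Φ.φ e x)) ^ 2 •
      𝒞.io a (rep Φ.φ e x) (g₀.c (𝒞.ch a) (𝒞.r a (rep Φ.φ e x)))) (fr Φ.φ e x)
      = (𝒞.χ a (rep Φ.φ e x)) ^ 2 • g₀.c e x := by
    intro a
    rw [gram_smul]
    by_cases hz : 𝒞.χ a (rep Φ.φ e x) = 0
    · rw [hz]; simp
    · have hU : rep Φ.φ e x ∈ 𝒞.U a := 𝒞.χ_supp a (subset_tsupport _ hz)
      obtain ⟨h2, h3⟩ := cov_mem 𝒞 a e hx hU
      congr 1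
      rw [gram_io 𝒞 a e hx hU (g₀.symm (𝒞.ch a) _ (𝒞.r_maps a hU)), h3]
      exact (g₀.compat e (𝒞.ch a) x hx h2.2).symm
  rw [Finset.sum_congr rfl fun a _ => h1 a, ← Finset.sum_smul]
  have h4 : ∑ a, (𝒞.χ a (rep Φ.φ e x)) ^ 2 = 1 := 𝒞.χ_sum (e.1.symm x)
  rw [h4, one_smul]

theorem Cov.u₀_mem (𝒞 : Cov Φ) (g₀ : RMetric M) (p : M) : (Φ.φ p, 𝒞.u₀ g₀ (Φ.φ p)) ∈ 𝒞.O := by
  intro a ha
  have hU : Φ.φ p ∈ 𝒞.U a := 𝒞.χ_supp a ha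
  have h1 := cov_rep 𝒞 a p hU
  have h2 := 𝒞.u₀_eq g₀ (𝒞.ch a) (𝒞.r_maps a hU)
  have h3 : 𝒞.G a (Φ.φ p) (𝒞.u₀ g₀ (Φ.φ p)) = g₀.c (𝒞.ch a) (𝒞.r a (Φ.φ p)) := by
    rw [← h2]
    show gram (𝒞.u₀ g₀ (Φ.φ p)) (fr Φ.φ (𝒞.ch a) (𝒞.r a (Φ.φ p)))
      = gram (𝒞.u₀ g₀ (rep Φ.φ (𝒞.ch a) (𝒞.r a (Φ.φ p)))) (fr Φ.φ (𝒞.ch a) (𝒞.r a (Φ.φ p)))
    rw [h1]
  show (𝒞.G a (Φ.φ p) (𝒞.u₀ g₀ (Φ.φ p))).PosDef
  rw [h3]
  exact g₀.pos _ _ (𝒞.r_maps a hU)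

theorem pullG_posDef (𝒞 : Cov Φ) {U : EN N → FN N} (hO : ∀ p, (Φ.φ p, U (Φ.φ p)) ∈ 𝒞.O)
    (e : Ch M) {x : E3} (hx : x ∈ e.1.target) : (pullG U Φ.φ e x).PosDef := by
  obtain ⟨a, ha⟩ : ∃ a, 𝒞.χ a (rep Φ.φ e x) ≠ 0 := by
    by_contra hcon
    push Not at hcon
    have h1 : ∑ a, (𝒞.χ a (rep Φ.φ e x)) ^ 2 = 1 := 𝒞.χ_sum (e.1.symm x)
    rw [Finset.sum_eq_zero fun a _ => by rw [hcon a]; simp] at h1
    exact zero_ne_one h1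
  have hts : rep Φ.φ e x ∈ tsupport (𝒞.χ a) := subset_tsupport _ ha
  have hU : rep Φ.φ e x ∈ 𝒞.U a := 𝒞.χ_supp a hts
  obtain ⟨h2, h3⟩ := cov_mem 𝒞 a e hx hU
  have h4 : (𝒞.G a (rep Φ.φ e x) (U (rep Φ.φ e x))).PosDef := hO (e.1.symm x) a hts
  have h5 : 𝒞.G a (rep Φ.φ e x) (U (rep Φ.φ e x)) = pullG U Φ.φ (𝒞.ch a) (trans e (𝒞.ch a) x) := by
    show gram (U (rep Φ.φ e x)) (fr Φ.φ (𝒞.ch a) (𝒞.r a (rep Φ.φ e x)))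
      = gram (U (rep Φ.φ (𝒞.ch a) (trans e (𝒞.ch a) x)))
        (fr Φ.φ (𝒞.ch a) (trans e (𝒞.ch a) x))
    rw [h3, ← rep_trans Φ.φ e (𝒞.ch a) h2]
  rw [h5] at h4
  rw [pullG_compat U (emb_rep Φ) e (𝒞.ch a) h2]
  have h6 : Function.Injective (jac e (𝒞.ch a) x).mulVec :=
    Matrix.mulVec_injective_iff_isUnit.2
      ((Matrix.isUnit_iff_isUnit_det _).2 (isUnit_iff_ne_zero.2 (jac_det e (𝒞.ch a) h2)))
  have h7 := h4.conjTranspose_mul_mul_same h6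
  rwa [Matrix.conjTranspose_eq_transpose_of_trivial] at h7

end Pool.Agent.RFS.AA
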