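import Pool.Agent.RFS.A2RX
import Pool.Agent.RFS.A2CH
import Pool.Agent.RFS.A2U0

/-!
RFS chunk (a2), module F1: the second order operator of the system, restricted to M, is
 G^{pr} (∂_p ∂_r - C^k_pr ∂_k) for the metric of u.

Notation: y = rep φ e x, p = e.symm x, A = fr φ e x, for a with χ_a y ≠ 0: y ∈ U a (tsupport), x_a := r a y =
trans e (ch a) x, A_a = 𝒞.A a y = fr φ (ch a) x_a, G_a = 𝒞.G a y u PosDef (u in O), J = jac e (ch a) x.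
* second_comp: for V smooth on EN N, v = V ∘ rep φ e: pdv p v x = DV(y)(A p),
  pdv p (pdv r v) x = D²V(y)(A p)(A r) + DV(y)(fr2 φ e x p r) (chain rule, product rule).
* sigma_sum: for any bilinear map B on EN N: sum_i B (σ (a,i)) (σ (a,i)) = χ_a^2 sum_{j,k} G_a⁻¹ j k B (A_a j) (A_a k),
  because sum_i sq j i * sq k i = G_a⁻¹ j k (A2CH.sq_mul).
* frame_id: the left side is sum_a χ_a^2 [ sum G_a⁻¹ j k D²V (A_a j)(A_a k) + DV (sum G_a⁻¹ p q (fr2 φ (ch a) x_a p q -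
  C k p q A_a k)) ] = sum_a χ_a^2 opL G_a (C_a) (rep (V ∘ φ) (ch a)) x_a   (second_comp in the chart ch a)
  = sum_a χ_a^2 opL (gram u A) (bc g₀ e x) (rep (V ∘ φ) e) x   (A2CT.opL_trans for θ = V ∘ φ, with
  gram u A = Jᵀ G_a J by fr_trans and gram_lin, and bc_law)
  and sum_a χ_a^2 = 1 (χ_sum at p). Note rep (V ∘ φ) e z = V (rep φ e z) by definition.
-/

open scoped Manifold ContDiff Matrix
open Set

namespace Pool.Agent.RFS.AA

variable {M : Type*} [TopologicalSpace M] [ChartedSpace E3 M] [IsManifold (𝓡 3) ∞ M] {N : ℕ}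
  {Φ : Emb M N} {X : Type*} [NormedAddCommGroup X] [NormedSpace ℝ X]

omit [IsManifold (𝓡 3) ∞ M] in
private theorem f1_rep (e : Ch M) {x : E3} (hx : x ∈ e.1.target) :
    HasFDerivAt (rep Φ.φ e) (fderiv ℝ (rep Φ.φ e) x) x :=
  (((emb_rep Φ e).contDiffAt (e.1.open_target.mem_nhds hx)).differentiableAt
    (by simp)).hasFDerivAt

omit [IsManifold (𝓡 3) ∞ M] in
private theorem f1_fr (e : Ch M) {x : E3} (hx : x ∈ e.1.target) (r : Fin 3) :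
    HasFDerivAt (fun z => fr Φ.φ e z r) (fderiv ℝ (fun z => fr Φ.φ e z r) x) x :=
  (((pdv_contDiffOn e.1.open_target (emb_rep Φ e) r).contDiffAt
    (e.1.open_target.mem_nhds hx)).differentiableAt (by simp)).hasFDerivAt

omit [IsManifold (𝓡 3) ∞ M] in
theorem first_comp {V : EN N → X} (hV : ContDiff ℝ ∞ V) (e : Ch M) {x : E3}
    (hx : x ∈ e.1.target) (p : Fin 3) :
    pdv p (fun z => V (rep Φ.φ e z)) x = fderiv ℝ V (rep Φ.φ e x) (fr Φ.φ e x p) := by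
  have h1 : HasFDerivAt (rep Φ.φ e) (fderiv ℝ (rep Φ.φ e) x) x := f1_rep e hx
  have h2 : HasFDerivAt V (fderiv ℝ V (rep Φ.φ e x)) (rep Φ.φ e x) :=
    (hV.differentiable (by simp) _).hasFDerivAt
  have h3 := h2.comp x h1
  unfold pdv
  have h4 : (fun z => V (rep Φ.φ e z)) = V ∘ rep Φ.φ e := rfl
  rw [h4, h3.fderiv]
  rfl

omit [IsManifold (𝓡 3) ∞ M] in
theorem second_comp {V : EN N → X} (hV : ContDiff ℝ ∞ V) (e : Ch M) {x : E3}
    (hx : x ∈ e.1.target) (p r : Fin 3) :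
    pdv p (pdv r (fun z => V (rep Φ.φ e z))) x
      = fderiv ℝ (fderiv ℝ V) (rep Φ.φ e x) (fr Φ.φ e x p) (fr Φ.φ e x r)
        + fderiv ℝ V (rep Φ.φ e x) (fr2 Φ.φ e x p r) := by
  have h0 : pdv r (fun z => V (rep Φ.φ e z))
      =ᶠ[nhds x] fun z => fderiv ℝ V (rep Φ.φ e z) (fr Φ.φ e z r) := by
    filter_upwards [e.1.open_target.mem_nhds hx] with z hz
    exact first_comp hV e hz r
  have h1 : HasFDerivAt (rep Φ.φ e) (fderiv ℝ (rep Φ.φ e) x) x := f1_rep e hx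
  have hV1 : ContDiff ℝ ∞ (fderiv ℝ V) := hV.fderiv_right (by simp)
  have h2 : HasFDerivAt (fderiv ℝ V) (fderiv ℝ (fderiv ℝ V) (rep Φ.φ e x)) (rep Φ.φ e x) :=
    (hV1.differentiable (by simp) _).hasFDerivAt
  have h3 := h2.comp x h1
  have h4 := h3.clm_apply (f1_fr (Φ := Φ) e hx r)
  have h5 : pdv p (pdv r (fun z => V (rep Φ.φ e z))) x
      = fderiv ℝ (fun z => fderiv ℝ V (rep Φ.φ e z) (fr Φ.φ e z r)) x (bv p) := by
    unfold pdv at h0 ⊢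
    rw [h0.fderiv_eq]
  have h6 : (fun z => fderiv ℝ V (rep Φ.φ e z) (fr Φ.φ e z r))
      = fun z => (fderiv ℝ V ∘ rep Φ.φ e) z (fr Φ.φ e z r) := rfl
  rw [h5, h6, h4.fderiv]
  simp only [add_apply, ContinuousLinearMap.comp_apply,
    ContinuousLinearMap.flip_apply, Function.comp]
  rw [add_comm]
  rfl

omit [IsManifold (𝓡 3) ∞ M] in
theorem sigma_sum (𝒞 : Cov Φ) (a : Fin 𝒞.n) (y : EN N) (u : FN N) (hp : (𝒞.G a y u).PosDef)
    (B : EN N →L[ℝ] EN N →L[ℝ] X) :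
    ∑ i, B (𝒞.σ (a, i) y u) (𝒞.σ (a, i) y u)
      = (𝒞.χ a y) ^ 2 • ∑ j, ∑ k, (𝒞.G a y u)⁻¹ j k • B (𝒞.A a y j) (𝒞.A a y k) := by
  have h1 : ∀ i, B (𝒞.σ (a, i) y u) (𝒞.σ (a, i) y u) = (𝒞.χ a y) ^ 2 • ∑ j, ∑ k,
      (sq (𝒞.G a y u) j i * sq (𝒞.G a y u) k i) • B (𝒞.A a y j) (𝒞.A a y k) := by
    intro i
    unfold Cov.σ
    simp only [map_smul, map_sum, smul_apply, sum_apply,
      Finset.smul_sum, smul_smul]
    rw [Finset.sum_comm]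
    refine Finset.sum_congr rfl fun j _ => Finset.sum_congr rfl fun k _ => ?_
    congr 1
    ring
  simp only [h1]
  rw [← Finset.smul_sum]
  congr 1
  rw [Finset.sum_comm]
  refine Finset.sum_congr rfl fun j _ => ?_
  rw [Finset.sum_comm]
  refine Finset.sum_congr rfl fun k _ => ?_
  rw [← Finset.sum_smul, ← sq_mul hp, Matrix.mul_apply]
  rfl

theorem gram_chart (𝒞 : Cov Φ) (a : Fin 𝒞.n) (e : Ch M) {x : E3} (hx : x ∈ e.1.target)
    (h : rep Φ.φ e x ∈ 𝒞.U a) (u : FN N) :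
    gram u (fr Φ.φ e x) = (jac e (𝒞.ch a) x)ᵀ * 𝒞.G a (rep Φ.φ e x) u * jac e (𝒞.ch a) x := by
  obtain ⟨h1, h2⟩ := cov_mem 𝒞 a e hx h
  have h3 : fr Φ.φ e x
      = fun i => ∑ k, jac e (𝒞.ch a) x k i • fr Φ.φ (𝒞.ch a) (trans e (𝒞.ch a) x) k :=
    funext fun i => fr_trans (fun e' => emb_rep Φ e') e (𝒞.ch a) h1 i
  have h4 : 𝒞.G a (rep Φ.φ e x) u = gram u (fr Φ.φ (𝒞.ch a) (trans e (𝒞.ch a) x)) := by
    unfold Cov.G Cov.A
    rw [h2]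
  rw [h3, h4, gram_lin]

theorem frame_id (𝒞 : Cov Φ) (g₀ : RMetric M) {V : EN N → X} (hV : ContDiff ℝ ∞ V) (e : Ch M)
    {x : E3} (hx : x ∈ e.1.target) {u : FN N} (hu : (rep Φ.φ e x, u) ∈ 𝒞.O) :
    (∑ c, fderiv ℝ (fderiv ℝ V) (rep Φ.φ e x) (𝒞.σ c (rep Φ.φ e x) u)
        (𝒞.σ c (rep Φ.φ e x) u))
      + fderiv ℝ V (rep Φ.φ e x) (𝒞.β g₀ (rep Φ.φ e x) u)
      = opL (gram u (fr Φ.φ e x)) (bc g₀ e x) (fun z => V (rep Φ.φ e z)) x := by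
  set y := rep Φ.φ e x with hy
  have hθ : ∀ e' : Ch M, ContDiffOn ℝ ∞ (rep (fun p => V (Φ.φ p)) e') e'.1.target :=
    fun e' => hV.comp_contDiffOn (emb_rep Φ e')
  -- the identity for one chart
  have key : ∀ a, (∑ i, fderiv ℝ (fderiv ℝ V) y (𝒞.σ (a, i) y u) (𝒞.σ (a, i) y u))
      + (𝒞.χ a y) ^ 2 • fderiv ℝ V y (∑ p, ∑ q, (𝒞.G a y u)⁻¹ p q •
        (fr2 Φ.φ (𝒞.ch a) (𝒞.r a y) p q - ∑ k, bc g₀ (𝒞.ch a) (𝒞.r a y) k p q • 𝒞.A a y k))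
      = (𝒞.χ a y) ^ 2
        • opL (gram u (fr Φ.φ e x)) (bc g₀ e x) (fun z => V (rep Φ.φ e z)) x := by
    intro a
    by_cases h0 : 𝒞.χ a y = 0
    · have h1 : ∀ i, 𝒞.σ (a, i) y u = 0 := by
        intro i
        unfold Cov.σ
        simp only [h0, zero_smul]
      simp [h1, h0]
    · have hs : y ∈ tsupport (𝒞.χ a) := subset_tsupport _ h0
      have hU : rep Φ.φ e x ∈ 𝒞.U a := 𝒞.χ_supp a hs
      have hp : (𝒞.G a y u).PosDef := hu a hs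
      obtain ⟨h1, h2⟩ := cov_mem 𝒞 a e hx hU
      have h3 : rep Φ.φ (𝒞.ch a) (trans e (𝒞.ch a) x) = y := (rep_trans Φ.φ e (𝒞.ch a) h1).symm
      have hx' : trans e (𝒞.ch a) x ∈ (𝒞.ch a).1.target := (trans_maps e (𝒞.ch a) h1).1
      have h4 : opL (gram u (fr Φ.φ e x)) (bc g₀ e x) (rep (fun p => V (Φ.φ p)) e) x
          = opL (𝒞.G a y u) (bc g₀ (𝒞.ch a) (trans e (𝒞.ch a) x))
            (rep (fun p => V (Φ.φ p)) (𝒞.ch a)) (trans e (𝒞.ch a) x) :=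
        opL_trans hθ e (𝒞.ch a) h1 hp.det_pos.ne' (gram_chart 𝒞 a e hx hU u)
          (bc_law g₀ e (𝒞.ch a) h1)
      have h5 : rep (fun p => V (Φ.φ p)) e = fun z => V (rep Φ.φ e z) := rfl
      have h6 : rep (fun p => V (Φ.φ p)) (𝒞.ch a) = fun z => V (rep Φ.φ (𝒞.ch a) z) := rfl
      rw [← h5, h4, sigma_sum 𝒞 a y u hp, ← smul_add]
      congr 1
      unfold opL
      rw [h6]
      simp only [second_comp hV (𝒞.ch a) hx', first_comp hV (𝒞.ch a) hx', h3]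
      have h7 : 𝒞.r a y = trans e (𝒞.ch a) x := h2
      unfold Cov.A
      rw [h7]
      simp only [map_sum, map_smul, map_sub, ← Finset.sum_add_distrib, ← smul_add]
      refine Finset.sum_congr rfl fun p _ => Finset.sum_congr rfl fun r _ => ?_
      congr 1
      abel
  have h8 : ∑ a, (𝒞.χ a y) ^ 2 = 1 := 𝒞.χ_sum (e.1.symm x)
  have h9 : fderiv ℝ V y (𝒞.β g₀ y u) = ∑ a, (𝒞.χ a y) ^ 2 • fderiv ℝ V y (∑ p, ∑ q,
      (𝒞.G a y u)⁻¹ p q • (fr2 Φ.φ (𝒞.ch a) (𝒞.r a y) p q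
        - ∑ k, bc g₀ (𝒞.ch a) (𝒞.r a y) k p q • 𝒞.A a y k)) := by
    unfold Cov.β
    rw [map_sum]
    exact Finset.sum_congr rfl fun a _ => map_smul _ _ _
  rw [Fintype.sum_prod_type, h9, ← Finset.sum_add_distrib,
    Finset.sum_congr rfl fun a _ => key a, ← Finset.sum_smul, h8, one_smul]

end Pool.Agent.RFS.AA
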