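import Pool.Agent.RFS.A2F1

/-!
RFS chunk (a2), module F2: tangent vectors are recovered from the fields σ.

Proof of frame_id2. By A2F1.sigma_sum with the bilinear map B (v, w) = bil u (fr φ e x k) v • w:
 sum_i bil u w0 (σ (a,i)) • σ (a,i) = χ_a^2 sum_jl G_a⁻¹ j l bil u w0 (A_a j) • A_a l.
For w0 = A_a m this is χ_a^2 A_a m (G_a m j = bil u (A_a m) (A_a j), G_a G_a⁻¹ = 1); fr φ e x k = sum_m J m k A_a m
(fr_trans), so it is χ_a^2 fr φ e x k. Terms with χ_a y = 0 vanish. Sum over a: χ_sum.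
q_eq: 𝒞.q a y u P k with P c = fderiv V y (σ c y u) is fderiv V y (sum_c bil u (A_a k) (σ c) • σ c) = fderiv V y (A_a k)
(frame_id2 in the chart ch a at the point r a y; rep φ (ch a) (r a y) = y by cov_rep)
= pdv k (V ∘ rep φ (ch a)) (r a y) (first_comp).
-/

open scoped Manifold ContDiff Matrix
open Set

namespace Pool.Agent.RFS.AA

variable {M : Type*} [TopologicalSpace M] [ChartedSpace E3 M] [IsManifold (𝓡 3) ∞ M] {N : ℕ}
  {Φ : Emb M N}

/-- the linear form `bil u w` -/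
private noncomputable def bl (u : FN N) (w : EN N) : EN N →L[ℝ] ℝ :=
  LinearMap.toContinuousLinearMap
    { toFun := fun v => bil u w v
      map_add' := fun v v' => bil_add_right u w v v'
      map_smul' := fun c v => bil_smul_right c u w v }

private theorem bl_apply (u : FN N) (w v : EN N) : bl u w v = bil u w v := rfl

private noncomputable def bb (u : FN N) (w : EN N) : EN N →L[ℝ] EN N →L[ℝ] EN N :=
  (ContinuousLinearMap.lsmul ℝ ℝ : ℝ →L[ℝ] EN N →L[ℝ] EN N).comp (bl u w)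

private theorem bb_apply (u : FN N) (w v v' : EN N) : bb u w v v' = bil u w v • v' := rfl

/-- recovering a vector from its products with a frame -/
private theorem rec_frame (u : FN N) (A : Fin 3 → EN N) (h0 : (gram u A).det ≠ 0)
    (c : Fin 3 → ℝ) :
    ∑ j, ∑ l, (gram u A)⁻¹ j l • (bil u (∑ m, c m • A m) (A j) • A l) = ∑ m, c m • A m := by
  have h1 : ∀ j, bil u (∑ m, c m • A m) (A j) = ∑ m, c m * gram u A m j := by
    intro j
    rw [bil_comm, bil_sum_right]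
    refine Finset.sum_congr rfl fun m _ => ?_
    rw [bil_smul_right, bil_comm]
    rfl
  have h2 : ∀ m l, ∑ j, gram u A m j * (gram u A)⁻¹ j l = if m = l then 1 else 0 := by
    intro m l
    have := congrFun (congrFun (Matrix.mul_nonsing_inv (gram u A) (isUnit_iff_ne_zero.mpr h0)) m) l
    rw [Matrix.mul_apply, Matrix.one_apply] at this
    exact this
  rw [Finset.sum_comm]
  refine Finset.sum_congr rfl fun l _ => ?_
  have h3 : ∀ j, (gram u A)⁻¹ j l • (bil u (∑ m, c m • A m) (A j) • A l)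
      = ((gram u A)⁻¹ j l * ∑ m, c m * gram u A m j) • A l := by
    intro j
    rw [h1, smul_smul]
  rw [Finset.sum_congr rfl fun j _ => h3 j, ← Finset.sum_smul]
  congr 1
  have h4 : ∑ j, (gram u A)⁻¹ j l * ∑ m, c m * gram u A m j
      = ∑ m, c m * ∑ j, gram u A m j * (gram u A)⁻¹ j l := by
    simp only [Finset.mul_sum]
    rw [Finset.sum_comm]
    exact Finset.sum_congr rfl fun _ _ => Finset.sum_congr rfl fun _ _ => by ring
  rw [h4]
  simp [h2]

theorem frame_id2 (𝒞 : Cov Φ) (e : Ch M) {x : E3} (hx : x ∈ e.1.target) {u : FN N}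
    (hu : (rep Φ.φ e x, u) ∈ 𝒞.O) (k : Fin 3) :
    ∑ c, bil u (fr Φ.φ e x k) (𝒞.σ c (rep Φ.φ e x) u) • 𝒞.σ c (rep Φ.φ e x) u
      = fr Φ.φ e x k := by
  rw [Fintype.sum_prod_type]
  have hterm : ∀ a ∈ Finset.univ, ∑ i, bil u (fr Φ.φ e x k) (𝒞.σ (a, i) (rep Φ.φ e x) u)
        • 𝒞.σ (a, i) (rep Φ.φ e x) u
      = (𝒞.χ a (rep Φ.φ e x)) ^ 2 • fr Φ.φ e x k := by
    intro a _
    by_cases h0 : 𝒞.χ a (rep Φ.φ e x) = 0
    · have hσ : ∀ i, 𝒞.σ (a, i) (rep Φ.φ e x) u = 0 := by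
        intro i
        unfold Cov.σ
        simp only [h0, zero_smul]
      rw [h0]
      simp only [hσ, smul_zero, Finset.sum_const_zero]
      simp
    · have hs : rep Φ.φ e x ∈ tsupport (𝒞.χ a) :=
        subset_tsupport _ (Function.mem_support.mpr h0)
      have hU : rep Φ.φ e x ∈ 𝒞.U a := 𝒞.χ_supp a hs
      have hp : (𝒞.G a (rep Φ.φ e x) u).PosDef := hu a hs
      obtain ⟨ht, hr⟩ := cov_mem 𝒞 a e hx hU
      have h1 := sigma_sum 𝒞 a (rep Φ.φ e x) u hp (bb u (fr Φ.φ e x k))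
      simp only [bb_apply] at h1
      rw [h1]
      congr 1
      have hA : 𝒞.A a (rep Φ.φ e x) = fr Φ.φ (𝒞.ch a) (trans e (𝒞.ch a) x) := by
        rw [← hr]
        rfl
      have hw : fr Φ.φ e x k = ∑ m, jac e (𝒞.ch a) x m k • 𝒞.A a (rep Φ.φ e x) m := by
        rw [hA]
        exact fr_trans (emb_rep Φ) e (𝒞.ch a) ht k
      rw [hw]
      exact rec_frame u (𝒞.A a (rep Φ.φ e x)) hp.det_pos.ne' fun m => jac e (𝒞.ch a) x m k
  rw [Finset.sum_congr rfl hterm, ← Finset.sum_smul]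
  have hs : ∑ a, (𝒞.χ a (rep Φ.φ e x)) ^ 2 = 1 := 𝒞.χ_sum (e.1.symm x)
  rw [hs, one_smul]

theorem q_eq (𝒞 : Cov Φ) {V : EN N → FN N} (hV : ContDiff ℝ ∞ V) (a : Fin 𝒞.n) (p : M)
    (hp : Φ.φ p ∈ 𝒞.U a) {u : FN N} (hu : (Φ.φ p, u) ∈ 𝒞.O) (k : Fin 3) :
    𝒞.q a (Φ.φ p) u (fun c => fderiv ℝ V (Φ.φ p) (𝒞.σ c (Φ.φ p) u)) k
      = pdv k (fun z => V (rep Φ.φ (𝒞.ch a) z)) (𝒞.r a (Φ.φ p)) := by
  have hr : 𝒞.r a (Φ.φ p) ∈ (𝒞.ch a).1.target := 𝒞.r_maps a hp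
  have hrep : rep Φ.φ (𝒞.ch a) (𝒞.r a (Φ.φ p)) = Φ.φ p := cov_rep 𝒞 a p hp
  rw [first_comp hV (𝒞.ch a) hr k]
  have hf := frame_id2 𝒞 (𝒞.ch a) hr (u := u) (by rw [hrep]; exact hu) k
  rw [hrep] at hf ⊢
  conv_rhs => rw [← hf]
  rw [map_sum]
  unfold Cov.q
  refine Finset.sum_congr rfl fun c _ => ?_
  rw [map_smul]
  rfl

end Pool.Agent.RFS.AA
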