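import Pool.Agent.RFS.A2RX
import Pool.Agent.RFS.A2JA

/-!
RFS chunk (a2), module IN: the flow of a field which is tangent to φ(M) preserves φ(M).

Proof. Fix p. S = {t ∈ [0,T] | ψ t (φ p) ∈ range φ} is closed (range φ is closed, t -> ψ t (φ p) continuous), 0 ∈ S.
Let t0 ∈ S, t0 < T: ψ t0 (φ p) = φ q, e = chartAt q, z0 = e q ∈ e.target. By Picard-Lindelöf (w e is continuously
differentiable, so locally Lipschitz in x and continuous in t) there is a solution z of z' = w e t z on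
[t0, t0+δ], z t0 = z0, inside e.target (IsPicardLindelof ... exists_eq_forall_mem_Icc_hasDerivWithinAt; take a
small closed ball around z0 inside e.target). Then y t = rep φ e (z t) satisfies y' = Dφ_e(z)(w) =
sum_k w_k • fr φ e z k = V t (y t), y t0 = φ q. V is smooth in (t,x), so Lipschitz in x on compact sets, and the
solution is unique: ODE_solution_unique_of_mem_Icc_right (Lipschitz on a ball containing both curves).
So ψ t (φ p) = rep φ e (z t) ∈ range φ for t ∈ [t0, t0+δ]. Conclude with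
IsClosed.Icc_subset_of_forall_mem_nhdsGT_of_Icc_subset / IsClosed.Icc_subset_of_forall_exists_gt.
-/

open scoped Manifold ContDiff Matrix
open Set

namespace Pool.Agent.RFS.AA

variable {M : Type*} [TopologicalSpace M] [ChartedSpace E3 M] {N : ℕ}


private theorem a2in_lip {E F : Type*} [NormedAddCommGroup E] [NormedSpace ℝ E]
    [FiniteDimensional ℝ E] [NormedAddCommGroup F] [NormedSpace ℝ F] {T : ℝ} (hT : 0 < T)
    {U : Set E} (hU : IsOpen U) {f : ℝ → E → F} (hf : JS (Icc 0 T) U f) {c : E} {ρ : ℝ}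
    (hρ : Metric.closedBall c ρ ⊆ U) :
    ∃ K L : NNReal, ∀ t ∈ Icc 0 T, LipschitzOnWith K (f t) (Metric.closedBall c ρ) ∧
      ∀ y ∈ Metric.closedBall c ρ, ‖f t y‖ ≤ L := by
  have : ProperSpace E := FiniteDimensional.proper_real E
  have hK : IsCompact (Icc 0 T ×ˢ Metric.closedBall c ρ) :=
    isCompact_Icc.prod (isCompact_closedBall c ρ)
  have hsub : Icc 0 T ×ˢ Metric.closedBall c ρ ⊆ Icc 0 T ×ˢ U := prod_mono_right hρ
  have hfc : ContinuousOn (fun z : ℝ × E => f z.1 z.2) (Icc 0 T ×ˢ Metric.closedBall c ρ) :=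
    (ContDiffOn.continuousOn hf).mono hsub
  have hf' : JS (Icc 0 T) U (fun t x => fderiv ℝ (f t) x) := JS.fderiv hT hU hf
  have hfc' : ContinuousOn (fun z : ℝ × E => fderiv ℝ (f z.1) z.2)
      (Icc 0 T ×ˢ Metric.closedBall c ρ) := (ContDiffOn.continuousOn hf').mono hsub
  obtain ⟨L, hL⟩ := hK.exists_bound_of_continuousOn hfc
  obtain ⟨K, hKK⟩ := hK.exists_bound_of_continuousOn hfc'
  refine ⟨K.toNNReal, L.toNNReal, fun t ht => ⟨?_, fun y hy => ?_⟩⟩
  · refine Convex.lipschitzOnWith_of_nnnorm_fderiv_le (𝕜 := ℝ) (fun x hx => ?_) (fun x hx => ?_)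
      (convex_closedBall c ρ)
    · exact ((hf.slice ht).contDiffAt (hU.mem_nhds (hρ hx))).differentiableAt (by simp)
    · rw [← NNReal.coe_le_coe, coe_nnnorm]
      exact (hKK (t, x) ⟨ht, hx⟩).trans (Real.le_coe_toNNReal K)
  · exact (hL (t, y) ⟨ht, hy⟩).trans (Real.le_coe_toNNReal L)

private theorem a2in_lin {N : ℕ} (L : E3 →L[ℝ] EN N) (v : E3) :
    L v = ∑ k, v k • L (bv k) := by
  have h : v = ∑ k, v k • bv k := by
    ext i
    simp [bv, Finset.sum_apply, Pi.single_apply]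
  conv_lhs => rw [h]
  rw [map_sum]
  simp only [map_smul]

theorem flow_range (Φ : Emb M N) {T : ℝ} (hT : 0 < T) {V : ℝ → EN N → EN N}
    (hV : JS (Icc 0 T) univ V) {ψ : ℝ → EN N → EN N} (h0 : ∀ x, ψ 0 x = x)
    (hψ : ∀ t ∈ Icc 0 T, ∀ x, HasDerivWithinAt (fun s => ψ s x) (V t (ψ t x)) (Icc 0 T) t)
    (w : Ch M → ℝ → E3 → Fin 3 → ℝ)
    (hw : ∀ e k, JS (Icc 0 T) e.1.target (fun t x => w e t x k))
    (ht : ∀ t ∈ Icc 0 T, ∀ e : Ch M, ∀ x ∈ e.1.target,
      V t (rep Φ.φ e x) = ∑ k, w e t x k • fr Φ.φ e x k) :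
    ∀ t ∈ Icc 0 T, ∀ p, ψ t (Φ.φ p) ∈ range Φ.φ := by
  intro t₁ ht₁ p
  have hcont : ContinuousOn (fun s => ψ s (Φ.φ p)) (Icc 0 T) := fun s hs =>
    (hψ s hs (Φ.φ p)).continuousWithinAt
  have hcl : IsClosed ({s | ψ s (Φ.φ p) ∈ range Φ.φ} ∩ Icc 0 T) := by
    have := hcont.preimage_isClosed_of_isClosed isClosed_Icc Φ.emb.isClosed_range
    rw [inter_comm]
    exact this
  have h0S : (0 : ℝ) ∈ {s | ψ s (Φ.φ p) ∈ range Φ.φ} := ⟨p, (h0 _).symm⟩
  refine hcl.Icc_subset_of_forall_mem_nhdsWithin h0S ?_ ht₁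
  rintro t₀ ⟨⟨q, hq⟩, ht₀⟩
  have ht₀' : t₀ ∈ Icc 0 T := Ico_subset_Icc_self ht₀
  let e : Ch M := ⟨chartAt E3 q, chart_mem_atlas E3 q⟩
  have hqs : q ∈ e.1.source := mem_chart_source E3 q
  set z₀ : E3 := e.1 q with hz₀
  have hz₀t : z₀ ∈ e.1.target := e.1.map_source hqs
  have hrep0 : rep Φ.φ e z₀ = Φ.φ q := by
    unfold rep
    rw [hz₀, e.1.left_inv hqs]
  obtain ⟨ρ, hρ, hρs⟩ := Metric.nhds_basis_closedBall.mem_iff.1 (e.1.open_target.mem_nhds hz₀t)
  let W : ℝ → E3 → E3 := fun t x => WithLp.toLp 2 (fun k => w e t x k)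
  have hW : JS (Icc 0 T) e.1.target W := by
    unfold JS
    rw [contDiffOn_euclidean]
    intro k
    exact hw e k
  obtain ⟨K, L, hKL⟩ := a2in_lip hT e.1.open_target hW hρs
  obtain ⟨δ, hδ, hδT, hδL⟩ : ∃ δ : ℝ, 0 < δ ∧ t₀ + δ ≤ T ∧ (L : ℝ) * δ ≤ ρ := by
    refine ⟨min (T - t₀) (ρ / (L + 1)), lt_min (by linarith [ht₀.2]) (by positivity), ?_, ?_⟩
    · have := min_le_left (T - t₀) (ρ / (L + 1))
      linarith
    · have h1 := min_le_right (T - t₀) (ρ / (L + 1))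
      have h2 : (L : ℝ) * min (T - t₀) (ρ / (L + 1)) ≤ L * (ρ / (L + 1)) :=
        mul_le_mul_of_nonneg_left h1 L.2
      have h3 : (L : ℝ) * (ρ / (L + 1)) ≤ ρ := by
        have hL1 : (0 : ℝ) < L + 1 := by positivity
        rw [mul_div_assoc', div_le_iff₀ hL1]
        nlinarith
      exact h2.trans h3
  have hIsub : Icc t₀ (t₀ + δ) ⊆ Icc 0 T := Icc_subset_Icc ht₀.1 hδT
  have hPL : IsPicardLindelof W (tmin := t₀) (tmax := t₀ + δ)
      ⟨t₀, left_mem_Icc.2 (by linarith)⟩ z₀ ρ.toNNReal 0 L K := by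
    have hρr : (ρ.toNNReal : ℝ) = ρ := Real.coe_toNNReal ρ hρ.le
    refine ⟨fun t ht => ?_, fun x hx => ?_, fun t ht x hx => ?_, ?_⟩
    · rw [hρr]
      exact (hKL t (hIsub ht)).1
    · rw [hρr] at hx
      have h1 : ContinuousOn (fun z : ℝ × E3 => W z.1 z.2) (Icc 0 T ×ˢ e.1.target) :=
        ContDiffOn.continuousOn hW
      exact h1.comp (f := fun t : ℝ => ((t, x) : ℝ × E3))
        (Continuous.prodMk continuous_id continuous_const).continuousOn
        (fun t ht => ⟨hIsub ht, hρs hx⟩)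
    · rw [hρr] at hx
      exact (hKL t (hIsub ht)).2 x hx
    · rw [hρr]
      simp only [add_sub_cancel_left, sub_self, NNReal.coe_zero, sub_zero]
      rw [max_eq_left hδ.le]
      exact hδL
  obtain ⟨α, hα0, hα⟩ := hPL.exists_eq_forall_mem_Icc_hasDerivWithinAt₀
  have hα0' : α t₀ = z₀ := hα0
  have hαc : ContinuousOn α (Icc t₀ (t₀ + δ)) := fun t ht => (hα t ht).continuousWithinAt
  obtain ⟨δ', hδ', hδδ', hball⟩ : ∃ δ' : ℝ, 0 < δ' ∧ δ' ≤ δ ∧
      ∀ t ∈ Icc t₀ (t₀ + δ'), α t ∈ Metric.closedBall z₀ ρ := by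
    have h1 := hαc t₀ (left_mem_Icc.2 (by linarith))
    have h2 : α ⁻¹' Metric.closedBall z₀ ρ ∈ nhdsWithin t₀ (Icc t₀ (t₀ + δ)) := by
      apply h1.preimage_mem_nhdsWithin
      rw [hα0']
      exact Metric.closedBall_mem_nhds z₀ hρ
    rw [Metric.mem_nhdsWithin_iff] at h2
    obtain ⟨ε, hε, hε2⟩ := h2
    refine ⟨min (ε / 2) δ, lt_min (by positivity) hδ, min_le_right _ _, fun t ht => ?_⟩
    have h3 := min_le_left (ε / 2) δ
    have h4 := min_le_right (ε / 2) δ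
    refine hε2 ⟨?_, ht.1, by linarith [ht.2]⟩
    rw [Metric.mem_ball, Real.dist_eq, abs_of_nonneg (by linarith [ht.1])]
    linarith [ht.2]
  have hIsub' : Icc t₀ (t₀ + δ') ⊆ Icc t₀ (t₀ + δ) := Icc_subset_Icc le_rfl (by linarith)
  have hy : ∀ t ∈ Icc t₀ (t₀ + δ'), HasDerivWithinAt (fun s => rep Φ.φ e (α s))
      (V t (rep Φ.φ e (α t))) (Icc t₀ (t₀ + δ')) t := by
    intro t ht'
    have hat : α t ∈ e.1.target := hρs (hball t ht')
    have h1 : HasFDerivAt (rep Φ.φ e) (fderiv ℝ (rep Φ.φ e) (α t)) (α t) :=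
      ((Φ.smooth e).contDiffAt (e.1.open_target.mem_nhds hat)).differentiableAt (by simp)
        |>.hasFDerivAt
    have h2 := h1.comp_hasDerivWithinAt t ((hα t (hIsub' ht')).mono hIsub')
    have h3 : fderiv ℝ (rep Φ.φ e) (α t) (W t (α t)) = V t (rep Φ.φ e (α t)) := by
      rw [ht t (hIsub (hIsub' ht')) e (α t) hat, a2in_lin]
      rfl
    rw [h3] at h2
    exact h2
  have hyc : ContinuousOn (fun s => rep Φ.φ e (α s)) (Icc t₀ (t₀ + δ')) := fun t ht' =>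
    (hy t ht').continuousWithinAt
  have hγc : ContinuousOn (fun s => ψ s (Φ.φ p)) (Icc t₀ (t₀ + δ')) :=
    hcont.mono (hIsub'.trans hIsub)
  obtain ⟨R₁, hR₁⟩ := isCompact_Icc.exists_bound_of_continuousOn hyc
  obtain ⟨R₂, hR₂⟩ := isCompact_Icc.exists_bound_of_continuousOn hγc
  obtain ⟨K', L', hKL'⟩ := a2in_lip hT isOpen_univ hV (c := 0) (ρ := max R₁ R₂) (subset_univ _)
  have hIco : Ico t₀ (t₀ + δ') ⊆ Icc t₀ (t₀ + δ') := Ico_subset_Icc_self
  have heq : EqOn (fun s => ψ s (Φ.φ p)) (fun s => rep Φ.φ e (α s)) (Icc t₀ (t₀ + δ')) := by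
    refine ODE_solution_unique_of_mem_Icc_right (v := V) (K := K')
      (s := fun _ => Metric.closedBall 0 (max R₁ R₂)) (fun t ht' => ?_) hγc (fun t ht' => ?_)
      (fun t ht' => ?_) hyc (fun t ht' => ?_) (fun t ht' => ?_) ?_
    · exact (hKL' t (hIsub (hIsub' (hIco ht')))).1
    · have h1 := (hψ t (hIsub (hIsub' (hIco ht'))) (Φ.φ p)).mono (hIsub'.trans hIsub)
      exact h1.mono_of_mem_nhdsWithin (Icc_mem_nhdsGE_of_mem ht')
    · rw [mem_closedBall_zero_iff]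
      exact (hR₂ t (hIco ht')).trans (le_max_right _ _)
    · exact (hy t (hIco ht')).mono_of_mem_nhdsWithin (Icc_mem_nhdsGE_of_mem ht')
    · rw [mem_closedBall_zero_iff]
      exact (hR₁ t (hIco ht')).trans (le_max_left _ _)
    · show ψ t₀ (Φ.φ p) = rep Φ.φ e (α t₀)
      rw [hα0', hrep0, hq]
  refine Filter.mem_of_superset (Ioc_mem_nhdsGT (by linarith : t₀ < t₀ + δ')) fun t ht' => ?_
  have h1 := heq (Ioc_subset_Icc_self ht')
  show ψ t (Φ.φ p) ∈ range Φ.φ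
  exact ⟨e.1.symm (α t), h1.symm⟩

end Pool.Agent.RFS.AA
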