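import Pool.Agent.RFS.A2RX
import Pool.Agent.RFS.A2JA

/-!
RFS chunk (a2), module LC: the flow of M in charts.

Proof. p0 = e.symm x₀, ψ t₀ (φ p0) = φ p1 (range), e' = chartAt p1, (U, r) from Φ.retr e' p1. f t x = r (ψ t (rep φ e x)). The
map (t,x) -> ψ t (rep φ e x) is smooth on [0,T] x e.target and maps (t₀,x₀) into the open set U, so there are an open
S ∋ x₀, S ⊆ e.target and δ > 0 with ψ t (rep φ e x) ∈ U for t ∈ [0,T], |t - t₀| ≤ δ, x ∈ S. a = max 0 (t₀ - δ),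
b = min T (t₀ + δ): a < b, Icc a b is a neighbourhood of t₀ within Icc 0 T.
* JS f: composition. * ψ t (rep φ e x) = φ q for some q (range at e.symm x), φ q ∈ U, so q ∈ e'.source and
 f t x = r (φ q) = e' q ∈ e'.target, rep φ e' (f t x) = φ q = ψ t (rep φ e x).
* time derivative: Dr(φ q) (V t (φ q)) = Dr (sum_k w e' t z k • fr φ e' z k) with z = f t x, and Dr (fr φ e' z k) = bv k because
 r ∘ rep φ e' = id near z (e'.symm continuous, so rep φ e' maps a neighbourhood of z into U). The k-th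
 coordinate is w e' t z k.
* det: if jm (f t) x v = 0 (so fderiv (f t) x v = 0, v ≠ 0) then the derivative of rep φ e' ∘ f t = ψ t ∘ rep φ e (equality on
 the open set S) in the direction v is 0, but fderiv (ψ t) and fderiv (rep φ e) x are injective (hi, A2RX.emb_injective).
 jm f x is the matrix of fderiv f x (column i = fderiv f x (bv i)).
-/

open scoped Manifold ContDiff Matrix
open Set

namespace Pool.Agent.RFS.AA

variable {M : Type*} [TopologicalSpace M] [ChartedSpace E3 M] {N : ℕ}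

private theorem lc_retr (Φ : Emb M N) (e : Ch M) {x : E3} (hx : x ∈ e.1.target) {U : Set (EN N)}
    (hU : IsOpen U) {r : EN N → E3} (hr : ContDiffOn ℝ ∞ r U) (h : rep Φ.φ e x ∈ U)
    (hq : ∀ q, Φ.φ q ∈ U → q ∈ e.1.source ∧ r (Φ.φ q) = e.1 q) (k : Fin 3) :
    fderiv ℝ r (rep Φ.φ e x) (fr Φ.φ e x k) = bv k := by
  have hc : ContDiffAt ℝ ∞ (rep Φ.φ e) x :=
    (Φ.smooth e).contDiffAt (e.1.open_target.mem_nhds hx)
  have hd : HasFDerivAt (rep Φ.φ e) (fderiv ℝ (rep Φ.φ e) x) x :=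
    (hc.differentiableAt (by simp)).hasFDerivAt
  have hr' : HasFDerivAt r (fderiv ℝ r (rep Φ.φ e x)) (rep Φ.φ e x) :=
    ((hr.contDiffAt (hU.mem_nhds h)).differentiableAt (by simp)).hasFDerivAt
  have h1 : HasFDerivAt (fun y : E3 => y)
      ((fderiv ℝ r (rep Φ.φ e x)).comp (fderiv ℝ (rep Φ.φ e) x)) x := by
    refine (hr'.comp x hd).congr_of_eventuallyEq ?_
    filter_upwards [e.1.open_target.mem_nhds hx,
      hc.continuousAt.preimage_mem_nhds (hU.mem_nhds h)] with y hy1 hy2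
    have h2 := (hq (e.1.symm y) hy2).2
    show y = r (rep Φ.φ e y)
    unfold Pool.Agent.RFS.AA.rep
    rw [h2, e.1.right_inv hy1]
  have h2 : (fderiv ℝ r (rep Φ.φ e x)).comp (fderiv ℝ (rep Φ.φ e) x)
      = ContinuousLinearMap.id ℝ E3 := h1.unique (hasFDerivAt_id x)
  have h3 := congrArg (fun L : E3 →L[ℝ] E3 => L (bv k)) h2
  exact h3

private theorem lc_coord {f : E3 → E3} {x : E3} (hf : DifferentiableAt ℝ f x) (u : E3) (k : Fin 3) :
    fderiv ℝ f x u k = (jm f x).mulVec (fun i => u i) k := by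
  have h3 : HasFDerivAt (fun y => f y k) ((EuclideanSpace.proj k).comp (fderiv ℝ f x)) x :=
    (EuclideanSpace.proj (𝕜 := ℝ) k).hasFDerivAt.comp x hf.hasFDerivAt
  have h4 : fderiv ℝ f x u k = fderiv ℝ (fun y => f y k) x u := by
    rw [h3.fderiv]
    rfl
  rw [h4, NN.fderiv_eq_sum_pd]
  simp only [Matrix.mulVec, dotProduct, jm, Matrix.of_apply]
  refine Finset.sum_congr rfl fun a _ => mul_comm _ _

theorem local_form (Φ : Emb M N) {T : ℝ} (hT : 0 < T) {V : ℝ → EN N → EN N}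
    {ψ : ℝ → EN N → EN N} (hJ : JS (Icc 0 T) univ ψ)
    (hψ : ∀ t ∈ Icc 0 T, ∀ x, HasDerivWithinAt (fun s => ψ s x) (V t (ψ t x)) (Icc 0 T) t)
    (hi : ∀ t ∈ Icc 0 T, ∀ x, Function.Injective (fderiv ℝ (ψ t) x))
    (hr : ∀ t ∈ Icc 0 T, ∀ p, ψ t (Φ.φ p) ∈ range Φ.φ)
    (w : Ch M → ℝ → E3 → Fin 3 → ℝ)
    (ht : ∀ t ∈ Icc 0 T, ∀ e : Ch M, ∀ x ∈ e.1.target,
      V t (rep Φ.φ e x) = ∑ k, w e t x k • fr Φ.φ e x k)
    (e : Ch M) {t₀ : ℝ} (ht₀ : t₀ ∈ Icc 0 T) {x₀ : E3} (hx₀ : x₀ ∈ e.1.target) :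
    ∃ (e' : Ch M) (S : Set E3) (a b : ℝ) (f : ℝ → E3 → E3), IsOpen S ∧ x₀ ∈ S ∧
      S ⊆ e.1.target ∧ a < b ∧ Icc a b ⊆ Icc 0 T ∧ t₀ ∈ Icc a b ∧
      Icc a b ∈ nhdsWithin t₀ (Icc 0 T) ∧ JS (Icc a b) S f ∧
      (∀ t ∈ Icc a b, ∀ x ∈ S, f t x ∈ e'.1.target ∧
        rep Φ.φ e' (f t x) = ψ t (rep Φ.φ e x)) ∧
      (∀ t ∈ Icc a b, ∀ x ∈ S, ∀ k, HasDerivWithinAt (fun s => f s x k) (w e' t (f t x) k)
        (Icc a b) t) ∧
      ∀ t ∈ Icc a b, ∀ x ∈ S, (jm (f t) x).det ≠ 0 := by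
  have htt := ht
  clear ht
  obtain ⟨p₁, hp₁⟩ := hr t₀ ht₀ (e.1.symm x₀)
  set e' : Ch M := ⟨chartAt E3 p₁, chart_mem_atlas E3 p₁⟩ with he'
  have hsrc : p₁ ∈ e'.1.source := mem_chart_source E3 p₁
  obtain ⟨U, r, hU, hpU, hrs, hrm, hq⟩ := Φ.retr e' p₁ hsrc
  have hg : JS (Icc 0 T) e.1.target (fun t x => ψ t (rep Φ.φ e x)) :=
    hJ.comp_right (Φ.smooth e) (fun _ _ => mem_univ _)
  have hgc : ContinuousOn (fun z : ℝ × E3 => ψ z.1 (rep Φ.φ e z.2)) (Icc 0 T ×ˢ e.1.target) :=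
    ContDiffOn.continuousOn hg
  have hmem : (t₀, x₀) ∈ Icc 0 T ×ˢ e.1.target := ⟨ht₀, hx₀⟩
  have hval : ψ t₀ (rep Φ.φ e x₀) ∈ U := by
    have : ψ t₀ (rep Φ.φ e x₀) = Φ.φ p₁ := hp₁.symm
    rw [this]
    exact hpU
  have hpre : (fun z : ℝ × E3 => ψ z.1 (rep Φ.φ e z.2)) ⁻¹' U
      ∈ nhdsWithin (t₀, x₀) (Icc 0 T ×ˢ e.1.target) :=
    hgc _ hmem (hU.mem_nhds hval)
  rw [nhdsWithin_prod_eq, (e.1.open_target).nhdsWithin_eq hx₀] at hpre
  obtain ⟨I, hI, S₁, hS₁, hIS⟩ := Filter.mem_prod_iff.1 hpre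
  obtain ⟨δ, hδ, hδI⟩ := Metric.mem_nhdsWithin_iff.1 hI
  obtain ⟨S₂, hS₂, hS₂o, hxS₂⟩ := mem_nhds_iff.1 hS₁
  have ha1 : max 0 (t₀ - δ / 2) ≤ t₀ := max_le ht₀.1 (by linarith)
  have hb1 : t₀ ≤ min T (t₀ + δ / 2) := le_min ht₀.2 (by linarith)
  have hab : max 0 (t₀ - δ / 2) < min T (t₀ + δ / 2) := by
    rw [max_lt_iff, lt_min_iff, lt_min_iff]
    exact ⟨⟨hT, by linarith [ht₀.1]⟩, ⟨by linarith [ht₀.2], by linarith⟩⟩
  have hsub : Icc (max 0 (t₀ - δ / 2)) (min T (t₀ + δ / 2)) ⊆ Icc 0 T := fun t ht =>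
    ⟨(le_max_left _ _).trans ht.1, ht.2.trans (min_le_left _ _)⟩
  have hsubI : Icc (max 0 (t₀ - δ / 2)) (min T (t₀ + δ / 2)) ⊆ I := fun t ht => by
    apply hδI
    refine ⟨?_, hsub ht⟩
    rw [Metric.mem_ball, Real.dist_eq, abs_lt]
    have h1 := (le_max_right 0 (t₀ - δ / 2)).trans ht.1
    have h2 := ht.2.trans (min_le_right T (t₀ + δ / 2))
    constructor <;> linarith
  have hnh : Icc (max 0 (t₀ - δ / 2)) (min T (t₀ + δ / 2)) ∈ nhdsWithin t₀ (Icc 0 T) := by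
    rw [Metric.mem_nhdsWithin_iff]
    refine ⟨δ / 2, by linarith, fun t ht => ?_⟩
    obtain ⟨h1, h2⟩ := ht
    rw [Metric.mem_ball, Real.dist_eq, abs_lt] at h1
    exact ⟨max_le h2.1 (by linarith [h1.1]), le_min h2.2 (by linarith [h1.2])⟩
  have hSo : IsOpen (S₂ ∩ e.1.target) := hS₂o.inter e.1.open_target
  have hgU : ∀ t ∈ Icc (max 0 (t₀ - δ / 2)) (min T (t₀ + δ / 2)), ∀ x ∈ S₂ ∩ e.1.target,
      ψ t (rep Φ.φ e x) ∈ U := fun t ht x hx => hIS (show (t, x) ∈ I ×ˢ S₁ from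
    ⟨hsubI ht, hS₂ hx.1⟩)
  have hgJ : JS (Icc (max 0 (t₀ - δ / 2)) (min T (t₀ + δ / 2))) (S₂ ∩ e.1.target)
      (fun t x => ψ t (rep Φ.φ e x)) :=
    ContDiffOn.mono hg (prod_mono hsub inter_subset_right)
  have hfJ : JS (Icc (max 0 (t₀ - δ / 2)) (min T (t₀ + δ / 2))) (S₂ ∩ e.1.target)
      (fun t x => r (ψ t (rep Φ.φ e x))) :=
    ContDiffOn.comp (g := r) (f := fun z : ℝ × E3 => ψ z.1 (rep Φ.φ e z.2)) hrs hgJ
      (fun z hz => hgU z.1 hz.1 z.2 hz.2)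
  have hA : ∀ t ∈ Icc (max 0 (t₀ - δ / 2)) (min T (t₀ + δ / 2)), ∀ x ∈ S₂ ∩ e.1.target,
      r (ψ t (rep Φ.φ e x)) ∈ e'.1.target ∧
        rep Φ.φ e' (r (ψ t (rep Φ.φ e x))) = ψ t (rep Φ.φ e x) := by
    intro t ht x hx
    obtain ⟨q, hqq⟩ := hr t (hsub ht) (e.1.symm x)
    have hqq' : Φ.φ q = ψ t (rep Φ.φ e x) := hqq
    have hU1 := hgU t ht x hx
    rw [← hqq'] at hU1 ⊢
    obtain ⟨h1, h2⟩ := hq q hU1
    rw [h2]
    refine ⟨e'.1.map_source h1, ?_⟩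
    show Φ.φ (e'.1.symm (e'.1 q)) = Φ.φ q
    rw [e'.1.left_inv h1]
  refine ⟨e', S₂ ∩ e.1.target, max 0 (t₀ - δ / 2), min T (t₀ + δ / 2),
    fun t x => r (ψ t (rep Φ.φ e x)), hSo, ⟨hxS₂, hx₀⟩, inter_subset_right, hab, hsub,
    ⟨ha1, hb1⟩, hnh, hfJ, hA, ?_, ?_⟩
  · intro t ht x hx k
    obtain ⟨hz1, hz2⟩ := hA t ht x hx
    have hU1 := hgU t ht x hx
    have h1 : HasDerivWithinAt (fun s => ψ s (rep Φ.φ e x)) (V t (ψ t (rep Φ.φ e x)))
        (Icc (max 0 (t₀ - δ / 2)) (min T (t₀ + δ / 2))) t :=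
      (hψ t (hsub ht) (rep Φ.φ e x)).mono hsub
    have hr' : HasFDerivAt r (fderiv ℝ r (ψ t (rep Φ.φ e x))) (ψ t (rep Φ.φ e x)) :=
      ((hrs.contDiffAt (hU.mem_nhds hU1)).differentiableAt (by simp)).hasFDerivAt
    have h2 := hr'.comp_hasDerivWithinAt t h1
    have h3 : fderiv ℝ r (ψ t (rep Φ.φ e x)) (V t (ψ t (rep Φ.φ e x)))
        = ∑ i, w e' t (r (ψ t (rep Φ.φ e x))) i • bv i := by
      have hU2 : rep Φ.φ e' (r (ψ t (rep Φ.φ e x))) ∈ U := by rw [hz2]; exact hU1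
      have hV := htt t (hsub ht) e' (r (ψ t (rep Φ.φ e x))) hz1
      rw [hz2] at hV
      rw [hV, map_sum]
      refine Finset.sum_congr rfl fun i _ => ?_
      rw [map_smul]
      congr 1
      have h6 := lc_retr Φ e' hz1 hU hrs hU2 hq i
      rwa [hz2] at h6
    rw [h3] at h2
    have h4 := ((EuclideanSpace.proj (𝕜 := ℝ) k).hasFDerivAt (x := r (ψ t (rep Φ.φ e x)))).comp_hasDerivWithinAt t h2
    have h5 : (EuclideanSpace.proj (𝕜 := ℝ) k)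
        (∑ i, w e' t (r (ψ t (rep Φ.φ e x))) i • bv i : E3) = w e' t (r (ψ t (rep Φ.φ e x))) k := by
      simp [bv]
    rw [h5] at h4
    exact h4
  · intro t ht x hx hdet
    obtain ⟨v, hv, hv0⟩ := Matrix.exists_mulVec_eq_zero_iff.2 hdet
    have hfs : ContDiffOn ℝ ∞ (fun y => r (ψ t (rep Φ.φ e y))) (S₂ ∩ e.1.target) :=
      hfJ.slice ht
    have hfd : DifferentiableAt ℝ (fun y => r (ψ t (rep Φ.φ e y))) x :=
      (hfs.contDiffAt (hSo.mem_nhds hx)).differentiableAt (by simp)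
    have h1 : fderiv ℝ (fun y => r (ψ t (rep Φ.φ e y))) x (WithLp.toLp 2 v) = 0 := by
      ext k
      rw [lc_coord hfd]
      exact congrFun hv0 k
    have hθd : DifferentiableAt ℝ (rep Φ.φ e') (r (ψ t (rep Φ.φ e x))) :=
      ((Φ.smooth e').contDiffAt (e'.1.open_target.mem_nhds (hA t ht x hx).1)).differentiableAt
        (by simp)
    have hed : DifferentiableAt ℝ (rep Φ.φ e) x :=
      ((Φ.smooth e).contDiffAt (e.1.open_target.mem_nhds hx.2)).differentiableAt (by simp)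
    have hψd : DifferentiableAt ℝ (ψ t) (rep Φ.φ e x) :=
      ((hJ.slice (hsub ht)).contDiffAt Filter.univ_mem).differentiableAt (by simp)
    have h2 : (fun y => rep Φ.φ e' (r (ψ t (rep Φ.φ e y)))) =ᶠ[nhds x]
        fun y => ψ t (rep Φ.φ e y) := by
      filter_upwards [hSo.mem_nhds hx] with y hy
      exact (hA t ht y hy).2
    have h3 : (fderiv ℝ (rep Φ.φ e') (r (ψ t (rep Φ.φ e x)))).comp
        (fderiv ℝ (fun y => r (ψ t (rep Φ.φ e y))) x)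
        = (fderiv ℝ (ψ t) (rep Φ.φ e x)).comp (fderiv ℝ (rep Φ.φ e) x) := by
      have a1 : HasFDerivAt (fun y => rep Φ.φ e' (r (ψ t (rep Φ.φ e y))))
          ((fderiv ℝ (rep Φ.φ e') (r (ψ t (rep Φ.φ e x)))).comp
            (fderiv ℝ (fun y => r (ψ t (rep Φ.φ e y))) x)) x :=
        HasFDerivAt.comp (f := fun y => r (ψ t (rep Φ.φ e y))) (g := rep Φ.φ e') x
          hθd.hasFDerivAt hfd.hasFDerivAt
      have a2 : HasFDerivAt (fun y => ψ t (rep Φ.φ e y))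
          ((fderiv ℝ (ψ t) (rep Φ.φ e x)).comp (fderiv ℝ (rep Φ.φ e) x)) x :=
        HasFDerivAt.comp x hψd.hasFDerivAt hed.hasFDerivAt
      exact (a1.congr_of_eventuallyEq h2.symm).unique a2
    have h5 := congrArg (fun L : E3 →L[ℝ] EN N => L (WithLp.toLp 2 v)) h3
    simp only [ContinuousLinearMap.comp_apply] at h5
    rw [h1, map_zero] at h5
    have h6 : fderiv ℝ (rep Φ.φ e) x (WithLp.toLp 2 v) = 0 := by
      apply hi t (hsub ht) (rep Φ.φ e x)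
      rw [← h5, map_zero]
    have h7 : (WithLp.toLp 2 v : E3) = 0 := by
      apply emb_injective Φ e hx.2
      rw [h6, map_zero]
    apply hv
    funext k
    have := congrArg (fun u : E3 => u k) h7
    simpa using this

end Pool.Agent.RFS.AA
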