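import Pool.Agent.RFS.A2PG

/-!
RFS chunk (a2), module PB: if θ = rep φ e' ∘ f locally, then pullG U θ e = Jᵀ pullG U φ e' (f) J.

Proof. On the open set S: rep θ e x = rep φ e' (f x), so fr θ e x i = sum_k jm f x k i • fr φ e' (f x) k (chain rule:
fderiv f x (bv i) = sum_k jm f x k i • bv k) and pullG U θ e x = gram (U (rep φ e' (f x))) (that) = Jᵀ (...) J by gram_lin.
-/

open scoped Manifold ContDiff Matrix
open Set

namespace Pool.Agent.RFS.AA

variable {M : Type*} [TopologicalSpace M] [ChartedSpace E3 M] [IsManifold (𝓡 3) ∞ M] {N : ℕ}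

private theorem pb_fderiv_bv {f : E3 → E3} {x : E3} (hf : DifferentiableAt ℝ f x) (i : Fin 3) :
    fderiv ℝ f x (bv i) = ∑ k, jm f x k i • bv k := by
  rw [← NN.sum_smul_bv (fderiv ℝ f x (bv i))]
  refine Finset.sum_congr rfl fun k _ => ?_
  congr 1
  have h3 : HasFDerivAt (fun y => f y k) ((EuclideanSpace.proj k).comp (fderiv ℝ f x)) x :=
    (EuclideanSpace.proj (𝕜 := ℝ) k).hasFDerivAt.comp x hf.hasFDerivAt
  have h4 : jm f x k i = pd i (fun y => f y k) x := rfl
  rw [h4]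
  unfold pd
  rw [h3.fderiv]
  rfl

omit [IsManifold (𝓡 3) ∞ M] in
theorem pullG_local (U : EN N → FN N) {θ θ' : M → EN N} (e e' : Ch M)
    (hθ' : ContDiffOn ℝ ∞ (rep θ' e') e'.1.target) {S : Set E3} (hS : IsOpen S) {f : E3 → E3}
    (hf : ContDiffOn ℝ ∞ f S) (hm : MapsTo f S e'.1.target)
    (h : ∀ x ∈ S, rep θ e x = rep θ' e' (f x)) {x : E3} (hx : x ∈ S) :
    pullG U θ e x = (jm f x)ᵀ * pullG U θ' e' (f x) * jm f x := by
  unfold pullG
  rw [h x hx, ← gram_lin]
  congr 1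
  funext i
  have hfd : DifferentiableAt ℝ f x :=
    (hf.contDiffAt (hS.mem_nhds hx)).differentiableAt (by simp)
  have hθd : DifferentiableAt ℝ (rep θ' e') (f x) :=
    (hθ'.contDiffAt (e'.1.open_target.mem_nhds (hm hx))).differentiableAt (by simp)
  have h1 : rep θ e =ᶠ[nhds x] fun y => rep θ' e' (f y) := by
    filter_upwards [hS.mem_nhds hx] with y hy
    exact h y hy
  have h2 : fderiv ℝ (rep θ e) x = (fderiv ℝ (rep θ' e') (f x)).comp (fderiv ℝ f x) := by
    rw [h1.fderiv_eq]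
    exact fderiv_comp x hθd hfd
  unfold fr pdv
  rw [h2, ContinuousLinearMap.comp_apply, pb_fderiv_bv hfd, map_sum]
  refine Finset.sum_congr rfl fun k _ => ?_
  rw [map_smul]

end Pool.Agent.RFS.AA
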