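import Pool.Agent.RFS.A2Defs

/-!
RFS chunk (a2), module OM: cut off functions.

Proofs.
* exists_cut: K compact in the open set O of a finite dimensional space X. Cover K by finitely many
  balls with bump functions (ContDiffBump) supported in O, S = sum of bumps > 0 on K; or use
  exists_contMDiff_zero_iff..., or IsCompact smooth Urysohn: exists_contDiff_tsupport... Then compose
  to get the value 1 on a neighbourhood of K: with c = min_K S > 0 take om = Real.smoothTransition (2 S / c),
  which is 1 where S ≥ c/2, an open neighbourhood {S > c/2} of K, and 0 where S ≤ 0; compact support.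
* smul_cut: at a point z: if π z ∈ O the product of smooth functions; if π z ∉ O then π z ∉ tsupport om, so om ∘ π
  vanishes near z.
-/

open scoped Manifold ContDiff Matrix
open Set

namespace Pool.Agent.RFS.AA

variable {X Y Z : Type*} [NormedAddCommGroup X] [NormedSpace ℝ X]
  [NormedAddCommGroup Y] [NormedSpace ℝ Y] [NormedAddCommGroup Z] [NormedSpace ℝ Z]

theorem exists_cut [FiniteDimensional ℝ X] {K O : Set X} (hK : IsCompact K) (hO : IsOpen O)
    (h : K ⊆ O) : ∃ om : X → ℝ, ContDiff ℝ ∞ om ∧ HasCompactSupport om ∧ tsupport om ⊆ O ∧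
      ∃ B : Set X, IsOpen B ∧ K ⊆ B ∧ ∀ z ∈ B, om z = 1 := by
  have : ProperSpace X := FiniteDimensional.proper_real X
  obtain ⟨V, hV, hKV, hVO, hVc⟩ := exists_open_between_and_isCompact_closure hK hO h
  obtain ⟨f, h1, h0, -⟩ := exists_contMDiffMap_one_nhds_of_subset_interior (n := (⊤ : ℕ∞))
    (𝓘(ℝ, X)) hK.isClosed (hKV.trans (interior_maximal subset_closure hV))
  have hsub : tsupport (fun x => f x) ⊆ closure V := by
    refine closure_minimal ?_ isClosed_closure
    intro x hx
    by_contra hc
    exact hx (h0 x hc)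
  refine ⟨fun x => f x, f.contMDiff.contDiff, ?_, hsub.trans hVO, ?_⟩
  · exact hVc.of_isClosed_subset (isClosed_tsupport _) hsub
  · rw [eventually_nhdsSet_iff_exists] at h1
    exact h1

theorem smul_cut {om : X → ℝ} (hom : ContDiff ℝ ∞ om) {O : Set X} (hO : IsOpen O)
    (hs : tsupport om ⊆ O) {π : Z → X} (hπ : ContDiff ℝ ∞ π) {f : Z → Y}
    (hf : ContDiffOn ℝ ∞ f (π ⁻¹' O)) : ContDiff ℝ ∞ (fun z => om (π z) • f z) := by
  rw [contDiff_iff_contDiffAt]
  intro z
  by_cases hz : π z ∈ O
  · have hop : IsOpen (π ⁻¹' O) := hO.preimage hπ.continuous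
    have h1 : ContDiffAt ℝ ∞ f z := hf.contDiffAt (hop.mem_nhds hz)
    have h2 : ContDiffAt ℝ ∞ (fun w => om (π w)) z := (hom.comp hπ).contDiffAt
    exact h2.smul h1
  · have hz' : π z ∉ tsupport om := fun hc => hz (hs hc)
    have h1 : om =ᶠ[nhds (π z)] 0 := notMem_tsupport_iff_eventuallyEq.1 hz'
    have h2 : (fun w => om (π w) • f w) =ᶠ[nhds z] fun _ => (0 : Y) := by
      have h3 := hπ.continuous.continuousAt.eventually h1
      filter_upwards [h3] with w hw
      have : om (π w) = 0 := hw
      rw [this, zero_smul]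
    exact contDiffAt_const.congr_of_eventuallyEq h2

end Pool.Agent.RFS.AA
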