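import Pool.Agent.RFS.A2TE
import Pool.Agent.RFS.A2EQ
import Pool.Agent.RFS.A2OM

/-!
RFS chunk (a2), module RT: short time existence for the Ricci-DeTurck flow, as a flow of functions
u t on the ambient space.

Proof. K = {(φ p, u₀ (φ p)) | p ∈ M} is compact (M compact, Φ.emb.continuous, u₀ continuous), contained in the
open set O (u₀_mem, O_open). exists_cut: om, B. Let σ' c y u = om (y,u) • σ c y u, β' = om • β, Q' = om (y,u) • Q. They are
smooth on the whole space (smul_cut with π = id, resp. π (y,u,P) = (y,u); SG.σ_contDiffOn etc.) and zero for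
norm y ≥ R, because tsupport om is compact, so bounded. exists_parabolic gives T, u. By continuity of
(t,p) -> (φ p, u t (φ p)) and compactness of M (tube lemma: generalized_tube_lemma, or IsCompact and
closedness of the complement) there is T' ∈ (0,T] with (φ p, u t (φ p)) ∈ B for all t ≤ T', p. There om = 1, so
on [0,T'] at y = rep φ e x the right side is that of main_eq (A2EQ), V = u t (ContDiff from JS: slice on univ;
contDiffOn_univ). B ⊆ O: intersect B with O, or: om = 1 ≠ 0 on B, so B ⊆ support om ⊆ tsupport om ⊆ O.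
pullG (u s) φ e x i j = bil (u s y) (fr φ e x i) (fr φ e x j) is linear in u s y: its time derivative is the entry of
gram (∂_t u) (fr φ e x) (bil is continuous linear in the first argument; HasDerivWithinAt of finite sums of
coordinates), = rdt by main_eq. JS and HasDerivWithinAt restrict from [0,T] to [0,T'] (mono).
-/

open scoped Manifold ContDiff Matrix
open Set

namespace Pool.Agent.RFS.AA

variable {M : Type*} [TopologicalSpace M] [ChartedSpace E3 M] [IsManifold (𝓡 3) ∞ M] {N : ℕ}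
  {Φ : Emb M N}


private theorem a2rt_bil {N : ℕ} {f : ℝ → FN N} {f' : FN N} {S : Set ℝ} {t : ℝ}
    (hf : HasDerivWithinAt f f' S t) (v w : EN N) :
    HasDerivWithinAt (fun s => bil (f s) v w) (bil f' v w) S t := by
  unfold bil
  refine HasDerivWithinAt.fun_sum fun a _ => HasDerivWithinAt.fun_sum fun b _ => ?_
  have h1 := ((EuclideanSpace.proj (a, b) : FN N →L[ℝ] ℝ).hasFDerivAt
    (x := f t)).comp_hasDerivWithinAt t hf
  exact HasDerivWithinAt.mul_const h1 _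

theorem exists_rdt [CompactSpace M] (𝒞 : Cov Φ) (g₀ : RMetric M) :
    ∃ T : ℝ, 0 < T ∧ ∃ u : ℝ → EN N → FN N, JS (Icc 0 T) univ u ∧ u 0 = 𝒞.u₀ g₀ ∧
      (∀ t ∈ Icc 0 T, ∀ p, (Φ.φ p, u t (Φ.φ p)) ∈ 𝒞.O) ∧
      ∀ t ∈ Icc 0 T, ∀ e : Ch M, ∀ x ∈ e.1.target, ∀ i j,
        HasDerivWithinAt (fun s => pullG (u s) Φ.φ e x i j)
          (rdt (pullG (u t) Φ.φ e) (bc g₀ e) x i j) (Icc 0 T) t := by
  have hu0c : Continuous (𝒞.u₀ g₀) := (𝒞.u₀_contDiff g₀).continuous
  have hφc : Continuous Φ.φ := Φ.emb.continuous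
  have hKc : IsCompact (range fun p => (Φ.φ p, 𝒞.u₀ g₀ (Φ.φ p))) :=
    isCompact_range (hφc.prodMk (hu0c.comp hφc))
  have hKO : (range fun p => (Φ.φ p, 𝒞.u₀ g₀ (Φ.φ p))) ⊆ 𝒞.O := by
    rintro _ ⟨p, rfl⟩
    exact 𝒞.u₀_mem g₀ p
  obtain ⟨om, hom, homc, hsub, B, hB, hKB, hB1⟩ := exists_cut hKc 𝒞.O_open hKO
  have hBO : B ⊆ 𝒞.O := by
    intro z hz
    apply hsub
    apply subset_tsupport
    rw [Function.mem_support, hB1 z hz]
    exact one_ne_zero
  obtain ⟨R₀, hR₀⟩ := homc.isCompact.isBounded.subset_closedBall (0 : EN N × FN N)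
  have hom0 : ∀ x u, R₀ + 1 ≤ ‖x‖ → om (x, u) = 0 := by
    intro x u hx
    apply image_eq_zero_of_notMem_tsupport
    intro hmem
    have h1 := hR₀ hmem
    rw [mem_closedBall_zero_iff] at h1
    have h2 : ‖x‖ ≤ ‖(x, u)‖ := norm_fst_le (x, u)
    linarith
  obtain ⟨T, hT, u, hJS, hu0, hueq⟩ := exists_parabolic (ι := Fin 𝒞.n × Fin 3)
    (fun c y u => om (y, u) • 𝒞.σ c y u) (fun y u => om (y, u) • 𝒞.β g₀ y u)
    (fun y u P => om (y, u) • 𝒞.Q g₀ y u P)
    (fun c => smul_cut hom 𝒞.O_open hsub (π := fun z => z) contDiff_id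
      (f := fun z : EN N × FN N => 𝒞.σ c z.1 z.2) (𝒞.σ_contDiffOn c))
    (smul_cut hom 𝒞.O_open hsub (π := fun z => z) contDiff_id
      (f := fun z : EN N × FN N => 𝒞.β g₀ z.1 z.2) (𝒞.β_contDiffOn g₀))
    (smul_cut hom 𝒞.O_open hsub
      (π := fun z : EN N × FN N × (Fin 𝒞.n × Fin 3 → FN N) => (z.1, z.2.1))
      (contDiff_fst.prodMk contDiff_snd.fst)
      (f := fun z : EN N × FN N × (Fin 𝒞.n × Fin 3 → FN N) => 𝒞.Q g₀ z.1 z.2.1 z.2.2)
      (𝒞.Q_contDiffOn g₀))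
    (R₀ + 1) (fun c x u hx => by simp only [hom0 x u hx, zero_smul])
    (fun x u hx => by simp only [hom0 x u hx, zero_smul])
    (fun x u P hx => by simp only [hom0 x u hx, zero_smul])
    (𝒞.u₀ g₀) (𝒞.u₀_contDiff g₀) (𝒞.u₀_cpt g₀)
  have hFc : ContinuousOn (fun z : ℝ × M => (Φ.φ z.2, u z.1 (Φ.φ z.2))) (Icc 0 T ×ˢ univ) := by
    have h1 : ContinuousOn (fun z : ℝ × EN N => u z.1 z.2) (Icc 0 T ×ˢ univ) :=
      ContDiffOn.continuousOn hJS
    have h2 : ContinuousOn (fun z : ℝ × M => u z.1 (Φ.φ z.2)) (Icc 0 T ×ˢ univ) :=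
      h1.comp (f := fun z : ℝ × M => ((z.1, Φ.φ z.2) : ℝ × EN N))
        (continuous_fst.prodMk (hφc.comp continuous_snd)).continuousOn
        (fun z hz => ⟨hz.1, mem_univ _⟩)
    exact (hφc.comp continuous_snd).continuousOn.prodMk h2
  have hev : ∀ᶠ t in nhds (0 : ℝ), ∀ p ∈ (univ : Set M), t ∈ Icc 0 T →
      (Φ.φ p, u t (Φ.φ p)) ∈ B := by
    refine isCompact_univ.eventually_forall_of_forall_eventually
      (P := fun (t : ℝ) (p : M) => t ∈ Icc 0 T → (Φ.φ p, u t (Φ.φ p)) ∈ B) fun p _ => ?_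
    have h1 := hFc (0, p) ⟨⟨le_rfl, hT.le⟩, mem_univ _⟩
    have h2 : B ∈ nhds (Φ.φ p, u 0 (Φ.φ p)) := by
      apply hB.mem_nhds
      apply hKB
      rw [hu0]
      exact ⟨p, rfl⟩
    have h3 := h1.preimage_mem_nhdsWithin h2
    have h4 := eventually_nhdsWithin_iff.1 h3
    filter_upwards [h4] with z hz hz1
    exact hz ⟨hz1, mem_univ _⟩
  obtain ⟨ε, hε, hball⟩ := Metric.eventually_nhds_iff_ball.1 hev
  have hT' : 0 < min (ε / 2) T := lt_min (by positivity) hT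
  have hTT : min (ε / 2) T ≤ T := min_le_right _ _
  have hIcc : Icc 0 (min (ε / 2) T) ⊆ Icc 0 T := Icc_subset_Icc_right hTT
  have hBmem : ∀ t ∈ Icc 0 (min (ε / 2) T), ∀ p, (Φ.φ p, u t (Φ.φ p)) ∈ B := by
    intro t ht p
    refine hball t ?_ p (mem_univ _) (hIcc ht)
    rw [Metric.mem_ball, Real.dist_eq, sub_zero, abs_of_nonneg ht.1]
    have := min_le_left (ε / 2) T
    linarith [ht.2]
  refine ⟨min (ε / 2) T, hT', u, ContDiffOn.mono hJS (prod_mono_left hIcc), hu0,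
    fun t ht p => hBO (hBmem t ht p), fun t ht e x hx i j => ?_⟩
  have hom1 : om (rep Φ.φ e x, u t (rep Φ.φ e x)) = 1 := hB1 _ (hBmem t ht (e.1.symm x))
  have hV : ContDiff ℝ ∞ (u t) := contDiffOn_univ.1 (hJS.slice (hIcc ht))
  have h1 := (hueq t (hIcc ht) (rep Φ.φ e x)).mono hIcc
  simp only [hom1, one_smul] at h1
  have h2 := main_eq 𝒞 g₀ hV (fun p => hBO (hBmem t ht p)) e hx rfl
  have h3 := a2rt_bil h1 (fr Φ.φ e x i) (fr Φ.φ e x j)
  rw [← h2]
  exact h3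

end Pool.Agent.RFS.AA
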