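import Pool.Agent.RFS.A2JA

/-!
RFS chunk (a2), module TC: the time derivative commutes with the space derivative.

Proof. Let Φ = uncurry f on S = Icc a b x U (unique derivatives), smooth. D_x f (t,x) =
(fderivWithin Φ S (t,x)).comp inr, h (t,x) = fderivWithin Φ S (t,x) (1,0) by uniqueness of the
derivative within Icc a b (a < b). Second derivatives within S are symmetric
(ContDiffWithinAt.isSymmSndFDerivWithinAt; points of S are in the closure of the interior
Ioo a b x U). So d_t (D_x f) v = fderivWithin (fderivWithin Φ S) S (t,x) (1,0) (0,v)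
= fderivWithin (fderivWithin Φ S) S (t,x) (0,v) (1,0) = D_x h v.
-/

open scoped Manifold ContDiff
open Set

namespace Pool.Agent.RFS.AA

variable {E F : Type*} [NormedAddCommGroup E] [NormedSpace ℝ E]
  [NormedAddCommGroup F] [NormedSpace ℝ F]

theorem hasDerivWithinAt_fderiv {a b : ℝ} (hab : a < b) {U : Set E} (hU : IsOpen U)
    {f h : ℝ → E → F} (hf : JS (Icc a b) U f)
    (hd : ∀ t ∈ Icc a b, ∀ x ∈ U, HasDerivWithinAt (fun s => f s x) (h t x) (Icc a b) t) :
    ∀ t ∈ Icc a b, ∀ x ∈ U, HasDerivWithinAt (fun s => fderiv ℝ (f s) x) (fderiv ℝ (h t) x)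
      (Icc a b) t := by
  set S : Set (ℝ × E) := Icc a b ×ˢ U with hS
  set Φ : ℝ × E → F := fun z => f z.1 z.2 with hΦ
  have hfS : ContDiffOn ℝ ∞ Φ S := hf
  have huS : UniqueDiffOn ℝ S := (uniqueDiffOn_Icc hab).prod hU.uniqueDiffOn
  have hinr : ∀ (t : ℝ) (x : E), HasFDerivAt (fun y : E => (t, y)) (ContinuousLinearMap.inr ℝ ℝ E) x :=
    fun t x => hasFDerivAt_prodMk_right t x
  have hinl : ∀ (t : ℝ) (x : E), HasDerivAt (fun s : ℝ => (s, x)) ((1 : ℝ), (0 : E)) t := by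
    intro t x
    exact (hasDerivAt_id t).prodMk (hasDerivAt_const t x)
  have hmapr : ∀ t ∈ Icc a b, MapsTo (fun y : E => (t, y)) U S := fun t ht y hy => ⟨ht, hy⟩
  have hmapl : ∀ x ∈ U, MapsTo (fun s : ℝ => (s, x)) (Icc a b) S := fun x hx s hs => ⟨hs, hx⟩
  have hD : ∀ z ∈ S, HasFDerivWithinAt Φ (fderivWithin ℝ Φ S z) S z := fun z hz =>
    ((hfS z hz).differentiableWithinAt (by simp)).hasFDerivWithinAt
  have h1 : ∀ t ∈ Icc a b, ∀ x ∈ U, fderiv ℝ (f t) x
      = (fderivWithin ℝ Φ S (t, x)).comp (ContinuousLinearMap.inr ℝ ℝ E) := by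
    intro t ht x hx
    have := (hD (t, x) ⟨ht, hx⟩).comp x ((hinr t x).hasFDerivWithinAt (s := U)) (hmapr t ht)
    exact (this.hasFDerivAt (hU.mem_nhds hx)).fderiv
  have h2 : ∀ t ∈ Icc a b, ∀ x ∈ U, h t x = fderivWithin ℝ Φ S (t, x) ((1 : ℝ), (0 : E)) := by
    intro t ht x hx
    have := (hD (t, x) ⟨ht, hx⟩).comp_hasDerivWithinAt t ((hinl t x).hasDerivWithinAt (s := Icc a b))
      (hmapl x hx)
    exact ((uniqueDiffOn_Icc hab) t ht).eq_deriv _ (hd t ht x hx) this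
  have hS' : ContDiffOn ℝ ∞ (fderivWithin ℝ Φ S) S := hfS.fderivWithin huS (by simp)
  have hD' : ∀ z ∈ S, HasFDerivWithinAt (fderivWithin ℝ Φ S)
      (fderivWithin ℝ (fderivWithin ℝ Φ S) S z) S z := fun z hz =>
    ((hS' z hz).differentiableWithinAt (by simp)).hasFDerivWithinAt
  intro t ht x hx
  have hz : (t, x) ∈ S := ⟨ht, hx⟩
  have hcl : (t, x) ∈ closure (interior S) := by
    rw [hS, interior_prod_eq, interior_Icc, hU.interior_eq, closure_prod_eq, closure_Ioo hab.ne]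
    exact ⟨ht, subset_closure hx⟩
  have hsym : IsSymmSndFDerivWithinAt ℝ Φ S (t, x) :=
    ((hfS (t, x) hz).of_le (WithTop.coe_le_coe.mpr (le_top (a := (2 : ℕ∞))))).isSymmSndFDerivWithinAt
      (by simp) huS hcl hz
  have h3 : HasDerivWithinAt (fun s => fderivWithin ℝ Φ S (s, x))
      (fderivWithin ℝ (fderivWithin ℝ Φ S) S (t, x) ((1 : ℝ), (0 : E))) (Icc a b) t :=
    (hD' (t, x) hz).comp_hasDerivWithinAt t ((hinl t x).hasDerivWithinAt (s := Icc a b))
      (hmapl x hx)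
  have h4 : HasDerivWithinAt (fun s => (fderivWithin ℝ Φ S (s, x)).comp
      (ContinuousLinearMap.inr ℝ ℝ E))
      ((fderivWithin ℝ (fderivWithin ℝ Φ S) S (t, x) ((1 : ℝ), (0 : E))).comp
        (ContinuousLinearMap.inr ℝ ℝ E)) (Icc a b) t :=
    (((ContinuousLinearMap.compL ℝ E (ℝ × E) F).flip
      (ContinuousLinearMap.inr ℝ ℝ E)).hasFDerivAt).comp_hasDerivWithinAt t h3
  have h5 : fderiv ℝ (h t) x
      = (fderivWithin ℝ (fderivWithin ℝ Φ S) S (t, x) ((1 : ℝ), (0 : E))).comp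
        (ContinuousLinearMap.inr ℝ ℝ E) := by
    have e1 : HasFDerivWithinAt (fun y => fderivWithin ℝ Φ S (t, y))
        ((fderivWithin ℝ (fderivWithin ℝ Φ S) S (t, x)).comp (ContinuousLinearMap.inr ℝ ℝ E)) U x :=
      (hD' (t, x) hz).comp x ((hinr t x).hasFDerivWithinAt (s := U)) (hmapr t ht)
    have e2 : HasFDerivAt (fun y => fderivWithin ℝ Φ S (t, y))
        ((fderivWithin ℝ (fderivWithin ℝ Φ S) S (t, x)).comp (ContinuousLinearMap.inr ℝ ℝ E)) x :=
      e1.hasFDerivAt (hU.mem_nhds hx)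
    have e3 : HasFDerivAt (fun y => fderivWithin ℝ Φ S (t, y) ((1 : ℝ), (0 : E)))
        ((((fderivWithin ℝ (fderivWithin ℝ Φ S) S (t, x)).comp
          (ContinuousLinearMap.inr ℝ ℝ E))).flip ((1 : ℝ), (0 : E))) x := by
      have := e2.clm_apply (hasFDerivAt_const ((1 : ℝ), (0 : E)) x)
      simpa using this
    have e4 : HasFDerivAt (h t) ((((fderivWithin ℝ (fderivWithin ℝ Φ S) S (t, x)).comp
          (ContinuousLinearMap.inr ℝ ℝ E))).flip ((1 : ℝ), (0 : E))) x := by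
      refine e3.congr_of_eventuallyEq ?_
      filter_upwards [hU.mem_nhds hx] with y hy
      exact h2 t ht y hy
    rw [e4.fderiv]
    ext v
    exact hsym ((0 : ℝ), v) ((1 : ℝ), (0 : E))
  rw [h5]
  exact h4.congr (fun s hs => h1 s hs x hx) (h1 t ht x hx)

theorem hasDerivWithinAt_pd {a b : ℝ} (hab : a < b) {U : Set E3} (hU : IsOpen U)
    {f h : ℝ → E3 → ℝ} (hf : JS (Icc a b) U f)
    (hd : ∀ t ∈ Icc a b, ∀ x ∈ U, HasDerivWithinAt (fun s => f s x) (h t x) (Icc a b) t)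
    (k : Fin 3) : ∀ t ∈ Icc a b, ∀ x ∈ U,
      HasDerivWithinAt (fun s => pd k (f s) x) (pd k (h t) x) (Icc a b) t := by
  intro t ht x hx
  have h1 := hasDerivWithinAt_fderiv hab hU hf hd t ht x hx
  have h2 := h1.clm_apply (hasDerivWithinAt_const t (Icc a b) (bv k))
  simpa [pd] using h2

end Pool.Agent.RFS.AA
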