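import Pool.Agent.RFS.A2NA
import Pool.Agent.RFS.A2TC

/-!
RFS chunk (a2), module TD: the time derivative of the pull back of a time dependent metric.

Statement: ∂_t G' = R' (entrywise, on S'), ∂_t f^k = - w^k (t, f) on S. Then
 ∂_t (Jᵀ G'(t, f) J) = Jᵀ (R' - L_w G')(f) J, J = jm (f t) x.
Proof. The (i,j) entry is sum_ab J a i * G'_ab (t, f t x) * J b j.
(1) ∂_t J a i = pd i (x -> - w^a (t, f t x)) = - sum_c (∂_c w^a)(t,f) J c i: A2TC.hasDerivWithinAt_pd applied to x -> f t x a (JS) and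
 h t x = - w t (f t x) a; chain rule A2NA.pd_comp (f t smooth on S: slice; w t smooth on S').
(2) ∂_t [G'_ab (t, f t x)] = R'_ab (t, f) - sum_c (∂_c G'_ab)(t,f) w^c (t,f): chain rule for the jointly smooth function
 (t,y) -> G' t y a b on Icc a b x S' (HasFDerivWithinAt at (t, f t x) within Icc a b x S', composed with s -> (s, f s x)
 within Icc a b): the derivative in the direction (1,0) is R'_ab (uniqueness of derivatives within Icc a b, a < b), in
 the direction (0, bv c) it is pd c.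
(3) Product rule and the definition of lieD (k is the summation index):
 sum_ab J a i J b j sum_k (w^k ∂_k G'_ab + G'_kb ∂_a w^k + G'_ak ∂_b w^k).
-/

open scoped Manifold ContDiff Matrix
open Set

namespace Pool.Agent.RFS.AA

private theorem td_curve {S : Set ℝ} {γ : ℝ → E3} {v : E3} {t : ℝ}
    (h : ∀ k, HasDerivWithinAt (fun s => γ s k) (v k) S t) : HasDerivWithinAt γ v S t := by
  rw [hasDerivWithinAt_iff_hasFDerivWithinAt, hasFDerivWithinAt_euclidean]
  intro k
  exact (h k).hasFDerivWithinAt.congr_fderiv (by ext; simp)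

private theorem td_alg (J G R : Fin 3 → Fin 3 → ℝ) (D : Fin 3 → Fin 3 → Fin 3 → ℝ) (W : Fin 3 → ℝ)
    (W1 : Fin 3 → Fin 3 → ℝ) (i j : Fin 3) :
    ∑ a, ∑ b, (((-∑ c, W1 c a * J c i) * G a b + J a i * (R a b - ∑ c, D c a b * W c)) * J b j
      + J a i * G a b * (-∑ c, W1 c b * J c j))
    = ∑ b, (∑ a, J a i * (R a b - ∑ k, (W k * D k a b + G k b * W1 a k + G a k * W1 b k))) * J b j := by
  simp only [Fin.sum_univ_three]
  ring

theorem pull_deriv {a b : ℝ} (hab : a < b) {S S' : Set E3} (hS : IsOpen S) (hS' : IsOpen S')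
    {G' R' : ℝ → E3 → Mat3} (hG : ∀ i j, JS (Icc a b) S' (fun t y => G' t y i j))
    (hR : ∀ t ∈ Icc a b, ∀ y ∈ S', ∀ i j,
      HasDerivWithinAt (fun s => G' s y i j) (R' t y i j) (Icc a b) t)
    {w : ℝ → E3 → Fin 3 → ℝ} (hw : ∀ k, JS (Icc a b) S' (fun t y => w t y k))
    {f : ℝ → E3 → E3} (hf : JS (Icc a b) S f) (hm : ∀ t ∈ Icc a b, ∀ x ∈ S, f t x ∈ S')
    (hd : ∀ t ∈ Icc a b, ∀ x ∈ S, ∀ k,
      HasDerivWithinAt (fun s => f s x k) (-(w t (f t x) k)) (Icc a b) t)
    {t : ℝ} (ht : t ∈ Icc a b) {x : E3} (hx : x ∈ S) (i j : Fin 3) :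
    HasDerivWithinAt (fun s => ((jm (f s) x)ᵀ * G' s (f s x) * jm (f s) x) i j)
      (((jm (f t) x)ᵀ * (R' t (f t x) - lieD (G' t) (w t) (f t x)) * jm (f t) x) i j)
      (Icc a b) t := by
  have hft : ContDiffOn ℝ ∞ (f t) S := hf.slice ht
  have hJ : ∀ p q, HasDerivWithinAt (fun s => jm (f s) x p q)
      (-∑ c, pd c (fun y => w t y p) (f t x) * jm (f t) x c q) (Icc a b) t := by
    intro p q
    have hfc : JS (Icc a b) S (fun s y => f s y p) := (contDiffOn_euclidean.1 hf) p
    have h1 := hasDerivWithinAt_pd hab hS hfc (h := fun s y => -(w s (f s y) p))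
      (fun s hs y hy => hd s hs y hy p) q t ht x hx
    have hwd : DifferentiableAt ℝ (fun y => w t y p) (f t x) :=
      (((hw p).slice ht).contDiffAt (hS'.mem_nhds (hm t ht x hx))).differentiableAt (by simp)
    have h2 : pd q (fun y => -(w t (f t y) p)) x
        = -∑ c, pd c (fun y => w t y p) (f t x) * jm (f t) x c q := by
      rw [NN.pd_neg q, pd_comp hS hft hx (h := fun y => w t y p) hwd q]
    rw [h2] at h1
    exact h1
  have hcur : HasDerivWithinAt (fun s => f s x) (WithLp.toLp 2 (fun k => -(w t (f t x) k)))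
      (Icc a b) t := td_curve (fun k => hd t ht x hx k)
  have hGd : ∀ p q, HasDerivWithinAt (fun s => G' s (f s x) p q)
      (R' t (f t x) p q - ∑ c, pd c (fun y => G' t y p q) (f t x) * w t (f t x) c)
      (Icc a b) t := by
    intro p q
    set Φ : ℝ × E3 → ℝ := fun z => G' z.1 z.2 p q with hΦ
    have hΦs : ContDiffOn ℝ ∞ Φ (Icc a b ×ˢ S') := hG p q
    have hmem : (t, f t x) ∈ Icc a b ×ˢ S' := ⟨ht, hm t ht x hx⟩
    have hD : HasFDerivWithinAt Φ (fderivWithin ℝ Φ (Icc a b ×ˢ S') (t, f t x))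
        (Icc a b ×ˢ S') (t, f t x) :=
      ((hΦs _ hmem).differentiableWithinAt (by simp)).hasFDerivWithinAt
    set D := fderivWithin ℝ Φ (Icc a b ×ˢ S') (t, f t x) with hDdef
    have m1 : MapsTo (fun s => (s, f s x)) (Icc a b) (Icc a b ×ˢ S') :=
      fun s hs => ⟨hs, hm s hs x hx⟩
    have m2 : MapsTo (fun s => (s, f t x)) (Icc a b) (Icc a b ×ˢ S') :=
      fun s hs => ⟨hs, hm t ht x hx⟩
    have c1 : HasDerivWithinAt (fun s => (s, f s x))
        ((1 : ℝ), (WithLp.toLp 2 (fun k => -(w t (f t x) k)) : E3)) (Icc a b) t :=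
      (hasDerivWithinAt_id t _).prodMk hcur
    have c2 : HasDerivWithinAt (fun s => (s, f t x)) ((1 : ℝ), (0 : E3)) (Icc a b) t :=
      (hasDerivWithinAt_id t _).prodMk (hasDerivWithinAt_const t _ (f t x))
    have h1 : HasDerivWithinAt (fun s => G' s (f s x) p q)
        (D ((1 : ℝ), WithLp.toLp 2 (fun k => -(w t (f t x) k)))) (Icc a b) t :=
      HasFDerivWithinAt.comp_hasDerivWithinAt (l := Φ) (f := fun s => (s, f s x)) t hD c1 m1
    have h2 : HasDerivWithinAt (fun s => G' s (f t x) p q) (D ((1 : ℝ), (0 : E3))) (Icc a b) t :=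
      HasFDerivWithinAt.comp_hasDerivWithinAt (l := Φ) (f := fun s => (s, f t x)) t hD c2 m2
    have h3 : D ((1 : ℝ), (0 : E3)) = R' t (f t x) p q :=
      ((uniqueDiffOn_Icc hab) t ht).eq_deriv _ h2 (hR t ht _ (hm t ht x hx) p q)
    have h4 : fderiv ℝ (fun y => G' t y p q) (f t x)
        = D.comp (ContinuousLinearMap.inr ℝ ℝ E3) := by
      have := hD.comp (f t x) ((hasFDerivAt_prodMk_right t (f t x)).hasFDerivWithinAt (s := S'))
        (fun y hy => ⟨ht, hy⟩)
      exact (this.hasFDerivAt (hS'.mem_nhds (hm t ht x hx))).fderiv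
    have h5 : ∀ v : E3, D ((0 : ℝ), v) = ∑ c, v c * pd c (fun y => G' t y p q) (f t x) := by
      intro v
      rw [← NN.fderiv_eq_sum_pd, h4]
      rfl
    have h6 : D ((1 : ℝ), WithLp.toLp 2 (fun k => -(w t (f t x) k)))
        = R' t (f t x) p q - ∑ c, pd c (fun y => G' t y p q) (f t x) * w t (f t x) c := by
      have e1 : ((1 : ℝ), (WithLp.toLp 2 (fun k => -(w t (f t x) k)) : E3))
          = ((1 : ℝ), (0 : E3)) + ((0 : ℝ), (WithLp.toLp 2 (fun k => -(w t (f t x) k)) : E3)) := by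
        simp
      rw [e1, map_add, h3, h5, sub_eq_add_neg, ← Finset.sum_neg_distrib]
      congr 1
      refine Finset.sum_congr rfl fun c _ => ?_
      show -(w t (f t x) c) * _ = _
      ring
    rw [h6] at h1
    exact h1
  have hfun : (fun s => ((jm (f s) x)ᵀ * G' s (f s x) * jm (f s) x) i j)
      = fun s => ∑ p, ∑ q, jm (f s) x p i * G' s (f s x) p q * jm (f s) x q j := by
    funext s
    simp only [Matrix.mul_apply, Matrix.transpose_apply, Finset.sum_mul]
    rw [Finset.sum_comm]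
  have hval : ((jm (f t) x)ᵀ * (R' t (f t x) - lieD (G' t) (w t) (f t x)) * jm (f t) x) i j
      = ∑ p, ∑ q, (((-∑ c, pd c (fun y => w t y p) (f t x) * jm (f t) x c i) * G' t (f t x) p q
        + jm (f t) x p i * (R' t (f t x) p q
          - ∑ c, pd c (fun y => G' t y p q) (f t x) * w t (f t x) c)) * jm (f t) x q j
        + jm (f t) x p i * G' t (f t x) p q
          * (-∑ c, pd c (fun y => w t y q) (f t x) * jm (f t) x c j)) := by
    rw [td_alg (fun p q => jm (f t) x p q) (fun p q => G' t (f t x) p q)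
      (fun p q => R' t (f t x) p q) (fun c p q => pd c (fun y => G' t y p q) (f t x))
      (fun k => w t (f t x) k) (fun c p => pd c (fun y => w t y p) (f t x)) i j]
    simp only [Matrix.mul_apply, Matrix.transpose_apply, Matrix.sub_apply, lieD, Matrix.of_apply]
  rw [hfun, hval]
  refine HasDerivWithinAt.fun_sum fun p _ => HasDerivWithinAt.fun_sum fun q _ => ?_
  exact ((hJ p i).mul (hGd p q)).mul (hJ q j)

end Pool.Agent.RFS.AA
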