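import Pool.Agent.RFS.A2U0
import Pool.Agent.RFS.A2ND

/-!
RFS chunk (a2), module WM: the DeTurck vector field on the ambient space.

Proofs.
* W_on: y = rep φ e x. For a with χ_a y ≠ 0: y ∈ U a, r a y = trans e (ch a) x (cov_mem). A2NC.Pull.wf for
  f = trans e (ch a), metrics pullG U φ e, pullG U φ (ch a), connections bc (bc_law):
  wf_a (x_a) m = sum_k J m k wf_e x k, so sum_m wf_a m • A_a m = sum_k wf_e x k • sum_m J m k • A_a m = sum_k wf_e x k • fr φ e x k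
  (fr_trans). Weights χ_a^2 sum to 1.
* wf_JS: the entries of pullG (u t) φ e are JS on [0,T] x target (pullG_JS with θ t = φ; rep φ e smooth), PosDef, so
  wf (pullG (u t) φ e) (bc g₀ e) x k is a smooth function of (t,x): it is a rational function of the entries
  and their first derivatives pd (JS.pd) and of bc. (Use A2IV.inv_contDiffOn on the set J x target in the
  space ℝ × E3.)
* W_JS: term a: (t,y) -> χ_a(y)^2 • sum_k wf(...)(r a y) k • 𝒞.A a y k is smooth on [0,T] x U a (JS.comp_right with r a,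
  A_contDiffOn), and vanishes near (t,y) if y ∉ tsupport χ_a; so it is smooth on [0,T] x univ
  (JS.of_local or ContDiffOn locality).
* W_supp: the χ_a have compact support; take R larger than the norms of all points of the union of the
  tsupports (finite union of compact sets).
-/

open scoped Manifold ContDiff Matrix
open Set

namespace Pool.Agent.RFS.AA

variable {M : Type*} [TopologicalSpace M] [ChartedSpace E3 M] [IsManifold (𝓡 3) ∞ M] {N : ℕ}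
  {Φ : Emb M N}

/-- The Pull structure for the metrics `pullG V φ`. -/
theorem pullG_pull (𝒞 : Cov Φ) {V : EN N → FN N} (hV : ContDiff ℝ ∞ V)
    (hO : ∀ p, (Φ.φ p, V (Φ.φ p)) ∈ 𝒞.O) (e e' : Ch M) :
    Pull (trans e e') (pullG V Φ.φ e) (pullG V Φ.φ e') (tdom e e') e'.1.target := by
  exact
  { U_open := tdom_open e e'
    V_open := e'.1.open_target
    f_smooth := trans_contDiffOn e e'
    maps := fun z hz => (trans_maps e e' hz).1
    G_smooth := pullG_contDiffOn hV (emb_rep Φ) e'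
    G_pos := fun z hz => pullG_posDef 𝒞 hO e' hz
    eq := fun z hz => by
      rw [← jac_eq]
      exact pullG_compat V (emb_rep Φ) e e' hz
    det := fun z hz => by
      rw [← jac_eq]
      exact jac_det e e' hz }

theorem W_on (𝒞 : Cov Φ) (g₀ : RMetric M) {V : EN N → FN N} (hV : ContDiff ℝ ∞ V)
    (hO : ∀ p, (Φ.φ p, V (Φ.φ p)) ∈ 𝒞.O) (e : Ch M) {x : E3} (hx : x ∈ e.1.target) :
    𝒞.W g₀ V (rep Φ.φ e x)
      = ∑ k, wf (pullG V Φ.φ e) (bc g₀ e) x k • fr Φ.φ e x k := by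
  have hterm : ∀ a ∈ Finset.univ, (𝒞.χ a (rep Φ.φ e x)) ^ 2 •
      ∑ k, wf (pullG V Φ.φ (𝒞.ch a)) (bc g₀ (𝒞.ch a)) (𝒞.r a (rep Φ.φ e x)) k •
        𝒞.A a (rep Φ.φ e x) k
      = (𝒞.χ a (rep Φ.φ e x)) ^ 2 • ∑ k, wf (pullG V Φ.φ e) (bc g₀ e) x k • fr Φ.φ e x k := by
    intro a _
    by_cases h0 : 𝒞.χ a (rep Φ.φ e x) = 0
    · rw [h0]
      simp
    · have hU : rep Φ.φ e x ∈ 𝒞.U a :=
        𝒞.χ_supp a (subset_tsupport _ (Function.mem_support.mpr h0))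
      obtain ⟨ht, hr⟩ := cov_mem 𝒞 a e hx hU
      congr 1
      have hA : ∀ k, 𝒞.A a (rep Φ.φ e x) k = fr Φ.φ (𝒞.ch a) (trans e (𝒞.ch a) x) k := by
        intro k
        rw [← hr]
        rfl
      have hw : ∀ m, wf (pullG V Φ.φ (𝒞.ch a)) (bc g₀ (𝒞.ch a)) (trans e (𝒞.ch a) x) m
          = ∑ k, jac e (𝒞.ch a) x m k * wf (pullG V Φ.φ e) (bc g₀ e) x k := by
        intro m
        rw [jac_eq]
        exact ((pullG_pull 𝒞 hV hO e (𝒞.ch a)).wf ht (bc_law g₀ e (𝒞.ch a) ht) m).symm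
      rw [hr]
      simp only [hA, hw, fr_trans (emb_rep Φ) e (𝒞.ch a) ht, Finset.sum_smul, Finset.smul_sum,
        smul_smul]
      rw [Finset.sum_comm]
      refine Finset.sum_congr rfl fun k _ => Finset.sum_congr rfl fun m _ => ?_
      rw [mul_comm]
  unfold Cov.W
  rw [Finset.sum_congr rfl hterm, ← Finset.sum_smul]
  have hs : ∑ a, (𝒞.χ a (rep Φ.φ e x)) ^ 2 = 1 := 𝒞.χ_sum (e.1.symm x)
  rw [hs, one_smul]

theorem wf_JS (𝒞 : Cov Φ) (g₀ : RMetric M) {T : ℝ} (hT : 0 < T) {u : ℝ → EN N → FN N}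
    (hu : JS (Icc 0 T) univ u) (hO : ∀ t ∈ Icc 0 T, ∀ p, (Φ.φ p, u t (Φ.φ p)) ∈ 𝒞.O)
    (e : Ch M) (k : Fin 3) :
    JS (Icc 0 T) e.1.target (fun t x => wf (pullG (u t) Φ.φ e) (bc g₀ e) x k) := by
  have hG : ∀ i j, JS (Icc 0 T) e.1.target (fun t x => pullG (u t) Φ.φ e x i j) := fun i j =>
    pullG_JS hT hu (θ := fun _ => Φ.φ) e (JS.of_contDiffOn (emb_rep Φ e)) i j
  have hpos : ∀ z ∈ Icc 0 T ×ˢ e.1.target, (pullG (u z.1) Φ.φ e z.2).det ≠ 0 := fun z hz =>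
    (pullG_posDef 𝒞 (hO z.1 hz.1) e hz.2).det_pos.ne'
  have hI : ∀ i j, ContDiffOn ℝ ∞ (fun z : ℝ × E3 => (pullG (u z.1) Φ.φ e z.2)⁻¹ i j)
      (Icc 0 T ×ˢ e.1.target) := fun i j =>
    inv_contDiffOn (G := fun z : ℝ × E3 => pullG (u z.1) Φ.φ e z.2) hG hpos i j
  have hP : ∀ l i j, ContDiffOn ℝ ∞
      (fun z : ℝ × E3 => pd l (fun y => pullG (u z.1) Φ.φ e y i j) z.2)
      (Icc 0 T ×ˢ e.1.target) := fun l i j => (hG i j).pd hT e.1.open_target l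
  have hB : ∀ k i j, ContDiffOn ℝ ∞ (fun z : ℝ × E3 => bc g₀ e z.2 k i j)
      (Icc 0 T ×ˢ e.1.target) := fun k i j => JS.of_contDiffOn (bc_contDiffOn g₀ e k i j)
  have hchr : ∀ k i j, ContDiffOn ℝ ∞ (fun z : ℝ × E3 => chr (pullG (u z.1) Φ.φ e) z.2 k i j)
      (Icc 0 T ×ˢ e.1.target) := by
    intro k i j
    unfold chr
    refine ContDiffOn.mul contDiffOn_const ?_
    refine ContDiffOn.sum fun l _ => (hI k l).mul ?_
    exact ((hP i j l).add (hP j i l)).sub (hP l i j)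
  unfold JS wf
  refine ContDiffOn.sum fun p _ => ContDiffOn.sum fun q _ => (hI p q).mul ?_
  exact (hchr k p q).sub (hB k p q)

theorem W_JS (𝒞 : Cov Φ) (g₀ : RMetric M) {T : ℝ} (hT : 0 < T) {u : ℝ → EN N → FN N}
    (hu : JS (Icc 0 T) univ u) (hO : ∀ t ∈ Icc 0 T, ∀ p, (Φ.φ p, u t (Φ.φ p)) ∈ 𝒞.O) :
    JS (Icc 0 T) univ (fun t y => 𝒞.W g₀ (u t) y) := by
  have hterm : ∀ a, JS (Icc 0 T) univ (fun t y => (𝒞.χ a y) ^ 2 •
      ∑ k, wf (pullG (u t) Φ.φ (𝒞.ch a)) (bc g₀ (𝒞.ch a)) (𝒞.r a y) k • 𝒞.A a y k) := by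
    intro a
    refine JS.of_local fun t ht y _ => ?_
    by_cases hy : y ∈ 𝒞.U a
    · refine ⟨𝒞.U a, 𝒞.U_open a, hy, Icc 0 T, ht, self_mem_nhdsWithin, ?_⟩
      have h1 : ContDiffOn ℝ ∞ (fun z : ℝ × EN N => (𝒞.χ a z.2) ^ 2) (Icc 0 T ×ˢ 𝒞.U a) :=
        (((𝒞.χ_smooth a).comp contDiff_snd).pow 2).contDiffOn
      have h2 : ∀ k, ContDiffOn ℝ ∞ (fun z : ℝ × EN N => wf (pullG (u z.1) Φ.φ (𝒞.ch a))
          (bc g₀ (𝒞.ch a)) (𝒞.r a z.2) k) (Icc 0 T ×ˢ 𝒞.U a) := fun k =>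
        JS.comp_right (wf_JS 𝒞 g₀ hT hu hO (𝒞.ch a) k) (𝒞.r_smooth a) (𝒞.r_maps a)
      have h3 : ∀ k, ContDiffOn ℝ ∞ (fun z : ℝ × EN N => 𝒞.A a z.2 k) (Icc 0 T ×ˢ 𝒞.U a) :=
        fun k => JS.of_contDiffOn (𝒞.A_contDiffOn a k)
      exact h1.smul (ContDiffOn.sum fun k _ => (h2 k).smul (h3 k))
    · refine ⟨(tsupport (𝒞.χ a))ᶜ, (isClosed_tsupport _).isOpen_compl,
        fun h => hy (𝒞.χ_supp a h), Icc 0 T, ht, self_mem_nhdsWithin, ?_⟩
      refine ContDiffOn.congr (f := fun _ => (0 : EN N)) contDiffOn_const fun z hz => ?_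
      have h0 : 𝒞.χ a z.2 = 0 := image_eq_zero_of_notMem_tsupport hz.2
      simp only [h0]
      simp
  exact ContDiffOn.sum fun a _ => hterm a

omit [IsManifold (𝓡 3) ∞ M] in
theorem W_supp (𝒞 : Cov Φ) (g₀ : RMetric M) : ∃ R : ℝ, ∀ (V : EN N → FN N) (y : EN N),
    R ≤ ‖y‖ → 𝒞.W g₀ V y = 0 := by
  have hK : IsCompact (⋃ a, tsupport (𝒞.χ a)) := isCompact_iUnion fun a => 𝒞.χ_cpt a
  obtain ⟨R₀, hR₀⟩ := hK.isBounded.subset_closedBall (0 : EN N)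
  refine ⟨R₀ + 1, fun V y hy => ?_⟩
  have hnot : y ∉ ⋃ a, tsupport (𝒞.χ a) := by
    intro hmem
    have h1 := hR₀ hmem
    rw [mem_closedBall_zero_iff] at h1
    linarith
  refine Finset.sum_eq_zero fun a _ => ?_
  have h3 : 𝒞.χ a y = 0 := by
    apply image_eq_zero_of_notMem_tsupport
    intro h
    exact hnot (mem_iUnion.2 ⟨a, h⟩)
  rw [h3]
  simp

end Pool.Agent.RFS.AA
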