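import Pool.Agent.QPE.OFK
import Pool.Agent.RFS.A2RT
import Pool.Agent.RFS.A2WM
import Pool.Agent.RFS.A2IN
import Pool.Agent.RFS.A2LC
import Pool.Agent.RFS.A2TD
import Pool.Agent.RFS.A2PB
import Pool.Agent.RFS.A2EM
import Pool.Agent.RFS.A2CV

/-!
RFS chunk (a2), module FN: SHORT TIME EXISTENCE of the Ricci flow on a closed 3-manifold.

Proof. Φ, 𝒞 (exists_emb, exists_cov), T, u (exists_rdt). V t y = - 𝒞.W g₀ (u t) y is JS on [0,T] x univ and zero for large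
|y| (W_JS, W_supp). ψ = flow of V (QPE.Flow.exists_joint_flow). w e t x k = - wf (pullG (u t) φ e) (bc g₀ e) x k; W_on gives the
tangency hypothesis, wf_JS the smoothness; flow_range. θ t = ψ t ∘ φ for t ∈ [0,T].
For t ∈ [0,T] the matrices pullG (u t) (θ t) e form an RMetric: smooth (pullG_contDiffOn; rep (θ t) e = ψ t ∘ rep φ e is smooth),
symmetric, compatible (pullG_compat), PosDef: local_form and pullG_local: Jᵀ (PosDef) J with det J ≠ 0.
For t outside [0,T] take the metric at the projection of t to [0,T] (projIcc).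
g 0 = g₀ on targets: ψ 0 = id, u 0 = u₀, u₀_eq.
IsRF.cont: pullG_JS and JS.iterated (for z.1 ∈ Icc 0 T the projection is the identity).
IsRF.eqn at t₀, x₀: local_form gives e', S, [a,b], f. For t ∈ [a,b], x ∈ S: c e x = (jm (f t) x)ᵀ * pullG (u t) φ e' (f t x) * jm (f t) x
(pullG_local). pull_deriv with G' t = pullG (u t) φ e', R' t = rdt (G' t) (bc g₀ e') on the target of e' (exists_rdt, restricted
to [a,b]), w := wf (G' t) (bc g₀ e'): the derivative within [a,b] is Jᵀ (rdt - lieD (G' t) (wf ..)) J = Jᵀ (-2 ricci (G' t)) J by the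
definition of rdt, = -2 ricci (c e) x₀ by A2NB.Pull.ricci (Pull (f t) (c e) (G' t) S e'.target). Icc a b is a neighbourhood of t₀
within Icc 0 T, so it is the derivative within Icc 0 T (HasDerivWithinAt.mono_of_mem_nhdsWithin, congr).
-/

open scoped Manifold ContDiff Matrix
open Set

namespace Pool.Agent.RFS.AA

theorem short_time {M : Type*} [TopologicalSpace M] [ChartedSpace E3 M]
    [IsManifold (𝓡 3) ∞ M] [CompactSpace M] [T2Space M] (g₀ : RMetric M) :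
    ∃ ε : ℝ, 0 < ε ∧ ∃ g : ℝ → RMetric M,
      (∀ e : Ch M, ∀ x ∈ e.1.target, (g 0).c e x = g₀.c e x) ∧ IsRF g (Icc 0 ε) := by
  obtain ⟨N, ⟨Φ⟩⟩ := exists_emb M
  obtain ⟨𝒞⟩ := exists_cov Φ
  obtain ⟨T, hT, u, hu, hu0, hO, hrdt⟩ := exists_rdt 𝒞 g₀
  obtain ⟨R, hR⟩ := W_supp 𝒞 g₀
  have hV : JS (Icc 0 T) univ (fun t y => -(𝒞.W g₀ (u t) y)) := (W_JS 𝒞 g₀ hT hu hO).neg
  obtain ⟨ψ, hψ0, hψJ, hψd, hψs, -, -, -, hψi, -⟩ :=
    Pool.Agent.QPE.Flow.exists_joint_flow T R hT (fun t y => -(𝒞.W g₀ (u t) y)) hV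
      (fun t _ x hx => by simp [hR _ _ hx])
  have huS : ∀ t ∈ Icc 0 T, ContDiff ℝ ∞ (u t) := fun t ht => contDiffOn_univ.1 (hu.slice ht)
  have htan : ∀ t ∈ Icc 0 T, ∀ e : Ch M, ∀ x ∈ e.1.target,
      (fun t y => -(𝒞.W g₀ (u t) y)) t (rep Φ.φ e x)
        = ∑ k, (fun (e : Ch M) t x k => -(wf (pullG (u t) Φ.φ e) (bc g₀ e) x k)) e t x k
          • fr Φ.φ e x k := by
    intro t ht e x hx
    simp only
    rw [W_on 𝒞 g₀ (huS t ht) (hO t ht) e hx, ← Finset.sum_neg_distrib]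
    exact Finset.sum_congr rfl fun k _ => (neg_smul _ _).symm
  have hw : ∀ (e : Ch M) k, JS (Icc 0 T) e.1.target (fun t x =>
      (fun (e : Ch M) t x k => -(wf (pullG (u t) Φ.φ e) (bc g₀ e) x k)) e t x k) :=
    fun e k => (wf_JS 𝒞 g₀ hT hu hO e k).neg
  have hr := flow_range Φ hT hV hψ0 hψd _ hw htan
  -- the moving embedding
  set θ : ℝ → M → EN N := fun t p => ψ t (Φ.φ p) with hθdef
  have hψJ' : JS (Icc 0 T) univ ψ := hψJ
  have hθJ : ∀ e : Ch M, JS (Icc 0 T) e.1.target (fun t x => rep (θ t) e x) := by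
    intro e
    show JS (Icc 0 T) e.1.target (fun t x => ψ t (rep Φ.φ e x))
    exact JS.comp_right (U := univ) hψJ' (emb_rep Φ e) (fun _ _ => mem_univ _)
  have hθs : ∀ t ∈ Icc 0 T, ∀ e : Ch M, ContDiffOn ℝ ∞ (rep (θ t) e) e.1.target :=
    fun t ht e => (hθJ e).slice ht
  -- local form
  have hloc : ∀ (e : Ch M), ∀ t₀ ∈ Icc 0 T, ∀ x₀ ∈ e.1.target,
      ∃ (e' : Ch M) (S : Set E3) (a b : ℝ) (f : ℝ → E3 → E3), IsOpen S ∧ x₀ ∈ S ∧
      S ⊆ e.1.target ∧ a < b ∧ Icc a b ⊆ Icc 0 T ∧ t₀ ∈ Icc a b ∧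
      Icc a b ∈ nhdsWithin t₀ (Icc 0 T) ∧ JS (Icc a b) S f ∧
      (∀ t ∈ Icc a b, ∀ x ∈ S, f t x ∈ e'.1.target) ∧
      (∀ t ∈ Icc a b, ∀ x ∈ S, ∀ k, HasDerivWithinAt (fun s => f s x k)
        (-(wf (pullG (u t) Φ.φ e') (bc g₀ e') (f t x) k)) (Icc a b) t) ∧
      (∀ t ∈ Icc a b, Pull (f t) (pullG (u t) (θ t) e) (pullG (u t) Φ.φ e') S e'.1.target) := by
    intro e t₀ ht₀ x₀ hx₀
    obtain ⟨e', S, a, b, f, hS, hxS, hSe, hab, hsub, hta, hnb, hfJ, hfm, hfd, hdet⟩ :=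
      local_form Φ hT (V := fun t y => -(𝒞.W g₀ (u t) y)) hψJ hψd hψi hr
        (fun (e : Ch M) t x k => -(wf (pullG (u t) Φ.φ e) (bc g₀ e) x k)) htan e ht₀ hx₀
    refine ⟨e', S, a, b, f, hS, hxS, hSe, hab, hsub, hta, hnb, hfJ,
      fun t ht x hx => (hfm t ht x hx).1, hfd, fun t ht => ?_⟩
    have hfs : ContDiffOn ℝ ∞ (f t) S := hfJ.slice ht
    have hmaps : MapsTo (f t) S e'.1.target := fun x hx => (hfm t ht x hx).1
    exact
      { U_open := hS
        V_open := e'.1.open_target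
        f_smooth := hfs
        maps := hmaps
        G_smooth := pullG_contDiffOn (huS t (hsub ht)) (emb_rep Φ) e'
        G_pos := fun y hy => pullG_posDef 𝒞 (hO t (hsub ht)) e' hy
        eq := fun x hx => pullG_local (θ := θ t) (u t) e e' (emb_rep Φ e') hS hfs hmaps
          (fun z hz => (hfm t ht z hz).2.symm) hx
        det := fun x hx => hdet t ht x hx }
  -- the metrics
  let met : ∀ t ∈ Icc 0 T, RMetric M := fun t ht =>
    { c := pullG (u t) (θ t)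
      smooth := fun e i j => pullG_contDiffOn (huS t ht) (hθs t ht) e i j
      symm := fun e x _ => pullG_transpose _ _ e x
      compat := fun e e' x hx hx' => pullG_compat _ (hθs t ht) e e' ⟨hx, hx'⟩
      pos := fun e x hx => by
        obtain ⟨e', S, a, b, f, hS, hxS, -, -, -, hta, -, -, -, -, hP⟩ := hloc e t ht x hx
        exact (hP t hta).posDef hxS }
  let g : ℝ → RMetric M := fun t => met (projIcc 0 T hT.le t) (projIcc 0 T hT.le t).2
  have hg : ∀ t ∈ Icc 0 T, ∀ e x, (g t).c e x = pullG (u t) (θ t) e x := by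
    intro t ht e x
    show pullG (u (projIcc 0 T hT.le t)) (θ (projIcc 0 T hT.le t)) e x = _
    rw [projIcc_of_mem hT.le ht]
  refine ⟨T, hT, g, ?_, ?_, ?_⟩
  · intro e x hx
    rw [hg 0 ⟨le_refl _, hT.le⟩ e x, hu0]
    have : θ 0 = Φ.φ := funext fun p => hψ0 _
    rw [this]
    exact Cov.u₀_eq 𝒞 g₀ e hx
  · intro e i j k
    refine (JS.iterated hT e.1.open_target (pullG_JS hT hu e (hθJ e) i j) k).congr ?_
    intro z hz
    have h1 : (fun y => (g z.1).c e y i j) = fun y => pullG (u z.1) (θ z.1) e y i j :=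
      funext fun y => by rw [hg z.1 hz.1 e y]
    show iteratedFDeriv ℝ k (fun y => (g z.1).c e y i j) z.2 = _
    rw [h1]
  · intro e x₀ hx₀ t₀ ht₀ i j
    obtain ⟨e', S, a, b, f, hS, hxS, hSe, hab, hsub, hta, hnb, hfJ, hfm, hfd, hP⟩ :=
      hloc e t₀ ht₀ x₀ hx₀
    have hsubn : ∀ {X : Type} [NormedAddCommGroup X] [NormedSpace ℝ X] {U : Set E3}
        {h : ℝ → E3 → X}, JS (Icc 0 T) U h → JS (Icc a b) U h := fun hh =>
      hh.mono (prod_mono hsub (subset_refl _))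
    have hder := pull_deriv hab hS e'.1.open_target (G' := fun t => pullG (u t) Φ.φ e')
      (R' := fun t => rdt (pullG (u t) Φ.φ e') (bc g₀ e'))
      (fun i j => hsubn (pullG_JS hT hu (θ := fun _ => Φ.φ) e'
        (JS.of_contDiffOn (emb_rep Φ e')) i j))
      (fun t ht y hy i j => (hrdt t (hsub ht) e' y hy i j).mono hsub)
      (w := fun t => wf (pullG (u t) Φ.φ e') (bc g₀ e'))
      (fun k => hsubn (wf_JS 𝒞 g₀ hT hu hO e' k)) hfJ hfm hfd hta hxS i j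
    have hval : ((jm (f t₀) x₀)ᵀ * (rdt (pullG (u t₀) Φ.φ e') (bc g₀ e') (f t₀ x₀)
        - lieD (pullG (u t₀) Φ.φ e') (wf (pullG (u t₀) Φ.φ e') (bc g₀ e')) (f t₀ x₀))
        * jm (f t₀) x₀) i j = -2 * ricci ((g t₀).c e) x₀ i j := by
      have h1 : rdt (pullG (u t₀) Φ.φ e') (bc g₀ e') (f t₀ x₀)
        - lieD (pullG (u t₀) Φ.φ e') (wf (pullG (u t₀) Φ.φ e') (bc g₀ e')) (f t₀ x₀)
          = (-2 : ℝ) • ricci (pullG (u t₀) Φ.φ e') (f t₀ x₀) := by
        ext i j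
        simp [rdt]
      have h2 : (g t₀).c e = pullG (u t₀) (θ t₀) e := funext fun y => hg t₀ ht₀ e y
      rw [h1, h2, (hP t₀ hta).ricci hxS]
      simp [Matrix.mul_assoc]
    rw [hval] at hder
    have hfin := hder.mono_of_mem_nhdsWithin hnb
    have heq : ∀ s ∈ Icc a b, (g s).c e x₀ i j
        = ((jm (f s) x₀)ᵀ * pullG (u s) Φ.φ e' (f s x₀) * jm (f s) x₀) i j := by
      intro s hs
      rw [hg s (hsub hs) e x₀, (hP s hs).eq x₀ hxS]
    exact hfin.congr_of_eventuallyEq (Filter.eventually_of_mem hnb heq) (heq t₀ hta)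

end Pool.Agent.RFS.AA
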