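import Pool.Agent.RFS.A2TE
import Pool.Agent.RFS.A2OM
import Pool.Agent.RFS.A2F1
import Pool.Agent.RFS.A2EM
import Pool.Agent.RFS.A2CV

/-!
RFS chunk (a2), module HT: the heat equation on a closed Riemannian 3-manifold has smooth solutions on every
[0,T].

Proof. Φ, 𝒞 (exists_emb, exists_cov), U = 𝒞.u₀ g represents g on M: (φ p, U (φ p)) ∈ O, pullG U φ e = g.c e on targets
(A2U0). K = {(φ p, U (φ p))} compact in O, om from exists_cut. σ' c y = om (y, U y) • 𝒞.σ c y (U y), β' y = om (y, U y) • 𝒞.β g y (U y): smooth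
(smul_cut with π y = (y, U y), σ_contDiffOn composed with π), zero for |y| ≥ R.
Initial value: F₀ y = sum_a χ_a(y)^2 * f ((ch a).symm (r a y)): smooth with compact support (rep f (ch a) smooth on the
target, r a smooth on U a), F₀ (φ p) = f p (r a (φ p) = ch a p). exists_heat: F. On M: om = 1, frame_id (X = ℝ, V = F t, u = U y):
∂_t F = opL (gram (U y) (fr φ e x)) (bc g e x) (F t ∘ rep φ e) x and gram (U y) (fr φ e x) = pullG U φ e x = g.c e x.
The solution on M is h t p = F t (φ p); rep (h t) e x = F t (rep φ e x).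
-/

open scoped Manifold ContDiff Matrix
open Set

namespace Pool.Agent.RFS.AA

private theorem A2HT_init {M : Type*} [TopologicalSpace M] [ChartedSpace E3 M] {N : ℕ}
    {Φ : Emb M N} (𝒞 : Cov Φ) (f : M → ℝ)
    (hf : ∀ e : Ch M, ContDiffOn ℝ ∞ (rep f e) e.1.target) :
    ∃ F₀ : EN N → ℝ, ContDiff ℝ ∞ F₀ ∧ HasCompactSupport F₀ ∧ ∀ p, F₀ (Φ.φ p) = f p := by
  refine ⟨fun y => ∑ a, 𝒞.χ a y • (𝒞.χ a y • rep f (𝒞.ch a) (𝒞.r a y)), ?_, ?_, ?_⟩
  · apply ContDiff.sum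
    intro a _
    refine smul_cut (𝒞.χ_smooth a) (𝒞.U_open a) (𝒞.χ_supp a) (π := fun y => y) contDiff_id
      (f := fun y => 𝒞.χ a y • rep f (𝒞.ch a) (𝒞.r a y)) ?_
    exact (𝒞.χ_smooth a).contDiffOn.smul
      ((hf (𝒞.ch a)).comp (𝒞.r_smooth a) (𝒞.r_maps a))
  · have key : ∀ s : Finset (Fin 𝒞.n), HasCompactSupport
        (fun y => ∑ a ∈ s, 𝒞.χ a y • (𝒞.χ a y • rep f (𝒞.ch a) (𝒞.r a y))) := by
      intro s
      induction s using Finset.induction_on with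
      | empty =>
        simp only [Finset.sum_empty]
        exact HasCompactSupport.zero
      | insert a s ha ih =>
        simp only [Finset.sum_insert ha]
        exact HasCompactSupport.add ((𝒞.χ_cpt a).smul_right) ih
    exact key Finset.univ
  · intro p
    have h1 : ∀ a, 𝒞.χ a (Φ.φ p) • (𝒞.χ a (Φ.φ p) • rep f (𝒞.ch a) (𝒞.r a (Φ.φ p)))
        = (𝒞.χ a (Φ.φ p)) ^ 2 * f p := by
      intro a
      by_cases h0 : 𝒞.χ a (Φ.φ p) = 0
      · simp [h0]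
      · have hU : Φ.φ p ∈ 𝒞.U a := 𝒞.χ_supp a (subset_tsupport _ h0)
        obtain ⟨h2, h3⟩ := 𝒞.r_eq a p hU
        have h4 : rep f (𝒞.ch a) (𝒞.r a (Φ.φ p)) = f p := by
          unfold rep
          rw [h3, (𝒞.ch a).1.left_inv h2]
        rw [h4, smul_eq_mul, smul_eq_mul]
        ring
    simp only [h1]
    rw [← Finset.sum_mul, 𝒞.χ_sum p, one_mul]

theorem heat_flow {M : Type*} [TopologicalSpace M] [ChartedSpace E3 M]
    [IsManifold (𝓡 3) ∞ M] [CompactSpace M] [T2Space M] (g : RMetric M) (f : M → ℝ)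
    (hf : ∀ e : Ch M, ContDiffOn ℝ ∞ (rep f e) e.1.target) (T : ℝ) (hT : 0 < T) :
    ∃ h : ℝ → M → ℝ, h 0 = f ∧
      (∀ e : Ch M, JS (Icc 0 T) e.1.target (fun t x => rep (h t) e x)) ∧
      ∀ t ∈ Icc 0 T, ∀ e : Ch M, ∀ x ∈ e.1.target,
        HasDerivWithinAt (fun s => rep (h s) e x)
          (opL (g.c e x) (bc g e x) (rep (h t) e) x) (Icc 0 T) t := by
  obtain ⟨N, ⟨Φ⟩⟩ := exists_emb M
  obtain ⟨𝒞⟩ := exists_cov Φ
  obtain ⟨F₀, hF1, hF2, hF3⟩ := A2HT_init 𝒞 f hf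
  set U : EN N → FN N := 𝒞.u₀ g with hUdef
  have hU : ContDiff ℝ ∞ U := 𝒞.u₀_contDiff g
  have hmem : ∀ p, (Φ.φ p, U (Φ.φ p)) ∈ 𝒞.O := fun p => 𝒞.u₀_mem g p
  have hπ : ContDiff ℝ ∞ (fun y : EN N => (y, U y)) := contDiff_id.prodMk hU
  have hK : IsCompact (range fun p => (Φ.φ p, U (Φ.φ p))) :=
    isCompact_range (hπ.continuous.comp Φ.emb.continuous)
  obtain ⟨om, hom, homc, homs, B, hB, hKB, hom1⟩ := exists_cut hK 𝒞.O_open (by
    rintro z ⟨p, rfl⟩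
    exact hmem p)
  obtain ⟨R, hR0, hR⟩ := homc.exists_pos_le_norm
  have hR' : ∀ y : EN N, R ≤ ‖y‖ → om (y, U y) = 0 := fun y hy =>
    hR _ (hy.trans (norm_fst_le (y, U y)))
  obtain ⟨F, hJ, hF0, hFd⟩ := exists_heat (fun c y => om (y, U y) • 𝒞.σ c y (U y))
    (fun y => om (y, U y) • 𝒞.β g y (U y))
    (fun c => smul_cut hom 𝒞.O_open homs hπ
      ((𝒞.σ_contDiffOn c).comp hπ.contDiffOn fun y hy => hy))
    (smul_cut hom 𝒞.O_open homs hπ
      ((𝒞.β_contDiffOn g).comp hπ.contDiffOn fun y hy => hy)) R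
    (fun c y hy => by simp only [hR' y hy, zero_smul])
    (fun y hy => by simp only [hR' y hy, zero_smul]) T hT F₀ hF1 hF2
  have hJ' : ContDiffOn ℝ ∞ (fun z : ℝ × EN N => F z.1 z.2) (Icc 0 T ×ˢ univ) := hJ
  refine ⟨fun t p => F t (Φ.φ p), ?_, ?_, ?_⟩
  · funext p
    show F 0 (Φ.φ p) = f p
    rw [hF0]
    exact hF3 p
  · intro e
    have h1 : ContDiffOn ℝ ∞ (fun z : ℝ × E3 => (z.1, rep Φ.φ e z.2)) (Icc 0 T ×ˢ e.1.target) :=
      contDiffOn_fst.prodMk ((emb_rep Φ e).comp contDiffOn_snd fun z hz => hz.2)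
    exact hJ'.comp h1 fun z hz => ⟨hz.1, mem_univ _⟩
  · intro t ht e x hx
    have hFt : ContDiff ℝ ∞ (F t) :=
      hJ'.comp_contDiff (contDiff_const.prodMk contDiff_id) fun y => ⟨ht, mem_univ _⟩
    have hy : (rep Φ.φ e x, U (rep Φ.φ e x)) ∈ 𝒞.O := hmem (e.1.symm x)
    have h1 : om (rep Φ.φ e x, U (rep Φ.φ e x)) = 1 := hom1 _ (hKB ⟨e.1.symm x, rfl⟩)
    have h2 := hFd t ht (rep Φ.φ e x)
    simp only [h1, one_smul] at h2
    rw [frame_id 𝒞 g hFt e hx hy] at h2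
    have h3 : gram (U (rep Φ.φ e x)) (fr Φ.φ e x) = g.c e x := 𝒞.u₀_eq g e hx
    rw [h3] at h2
    exact h2

end Pool.Agent.RFS.AA
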