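import Pool.Agent.RFS.A2Defs

/-!
RFS chunk (a2), module IV: the inverse of a matrix function.

Proofs.
* inv_contDiffOn: (G z)⁻¹ i j = (det (G z))⁻¹ * adjugate (G z) i j (Matrix.inv_def,
  Ring.inverse_eq_inv', Matrix.smul_apply); determinant and adjugate are polynomials in the
  entries (Matrix.det_fin_three, Matrix.adjugate_fin_three or det of updateRow); ContDiffOn.inv.
* pd_inv: G⁻¹ G = 1 near x (the determinant is continuous at x, so non zero near x); differentiate
  sum_j (G⁻¹) i j G j k = const: (d G⁻¹) G + G⁻¹ (d G) = 0, multiply by G⁻¹ on the right. The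
  entries of G⁻¹ are differentiable at x by the formula with the adjugate.
-/

open scoped Manifold ContDiff Matrix
open Set

namespace Pool.Agent.RFS.AA

private lemma IV_adj {X : Type*} (P : (X → ℝ) → Prop)
    (hadd : ∀ f g, P f → P g → P (fun z => f z + g z))
    (hsub : ∀ f g, P f → P g → P (fun z => f z - g z))
    (hmul : ∀ f g, P f → P g → P (fun z => f z * g z))
    (hneg : ∀ f, P f → P (fun z => -f z)) {G : X → Mat3} (hG : ∀ i j, P (fun z => G z i j))
    (i j : Fin 3) : P (fun z => (G z).adjugate i j) := by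
  have key : ∀ a b c e a' b' c' e', P (fun z => G z a b * G z c e - G z a' b' * G z c' e') :=
    fun a b c e a' b' c' e' => hsub _ _ (hmul _ _ (hG a b) (hG c e)) (hmul _ _ (hG a' b') (hG c' e'))
  have key' : ∀ a b c e a' b' c' e', P (fun z => -(G z a b * G z c e) + G z a' b' * G z c' e') :=
    fun a b c e a' b' c' e' => hadd _ _ (hneg _ (hmul _ _ (hG a b) (hG c e)))
      (hmul _ _ (hG a' b') (hG c' e'))
  have h : ∀ z, (G z).adjugate = _ := fun z => Matrix.adjugate_fin_three (G z)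
  simp only [h]
  fin_cases i <;> fin_cases j
  · exact key 1 1 2 2 1 2 2 1
  · exact key' 0 1 2 2 0 2 2 1
  · exact key 0 1 1 2 0 2 1 1
  · exact key' 1 0 2 2 1 2 2 0
  · exact key 0 0 2 2 0 2 2 0
  · exact key' 0 0 1 2 0 2 1 0
  · exact key 1 0 2 1 1 1 2 0
  · exact key' 0 0 2 1 0 1 2 0
  · exact key 0 0 1 1 0 1 1 0

private lemma IV_det {X : Type*} (P : (X → ℝ) → Prop)
    (hadd : ∀ f g, P f → P g → P (fun z => f z + g z))
    (hsub : ∀ f g, P f → P g → P (fun z => f z - g z))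
    (hmul : ∀ f g, P f → P g → P (fun z => f z * g z))
    {G : X → Mat3} (hG : ∀ i j, P (fun z => G z i j)) : P (fun z => (G z).det) := by
  simp only [Matrix.det_fin_three]
  have key : ∀ a b c e a' b', P (fun z => G z a b * G z c e * G z a' b') :=
    fun a b c e a' b' => hmul _ _ (hmul _ _ (hG a b) (hG c e)) (hG a' b')
  exact hsub _ _ (hadd _ _ (hadd _ _ (hsub _ _ (hsub _ _ (key _ _ _ _ _ _) (key _ _ _ _ _ _))
    (key _ _ _ _ _ _)) (key _ _ _ _ _ _)) (key _ _ _ _ _ _)) (key _ _ _ _ _ _)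

private lemma IV_inv (A : Mat3) (i j : Fin 3) : A⁻¹ i j = (A.det)⁻¹ * A.adjugate i j := by
  rw [Matrix.inv_def, Ring.inverse_eq_inv', Matrix.smul_apply, smul_eq_mul]

theorem inv_contDiffOn {X : Type*} [NormedAddCommGroup X] [NormedSpace ℝ X] {S : Set X}
    {G : X → Mat3} (hG : ∀ i j, ContDiffOn ℝ ∞ (fun z => G z i j) S)
    (h0 : ∀ z ∈ S, (G z).det ≠ 0) (i j : Fin 3) : ContDiffOn ℝ ∞ (fun z => (G z)⁻¹ i j) S := by
  simp only [IV_inv]
  refine ContDiffOn.mul (ContDiffOn.inv ?_ h0) ?_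
  · exact IV_det (fun f => ContDiffOn ℝ ∞ f S) (fun f g hf hg => hf.add hg)
      (fun f g hf hg => hf.sub hg) (fun f g hf hg => hf.mul hg) hG
  · exact IV_adj (fun f => ContDiffOn ℝ ∞ f S) (fun f g hf hg => hf.add hg)
      (fun f g hf hg => hf.sub hg) (fun f g hf hg => hf.mul hg) (fun f hf => hf.neg) hG i j

theorem det_contDiffOn {X : Type*} [NormedAddCommGroup X] [NormedSpace ℝ X] {S : Set X}
    {G : X → Mat3} (hG : ∀ i j, ContDiffOn ℝ ∞ (fun z => G z i j) S) :
    ContDiffOn ℝ ∞ (fun z => (G z).det) S :=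
  IV_det (fun f => ContDiffOn ℝ ∞ f S) (fun f g hf hg => hf.add hg)
      (fun f g hf hg => hf.sub hg) (fun f g hf hg => hf.mul hg) hG

private lemma IV_det_diff {G : E3 → Mat3} {x : E3}
    (hG : ∀ i j, DifferentiableAt ℝ (fun y => G y i j) x) :
    DifferentiableAt ℝ (fun y => (G y).det) x :=
  IV_det (fun f => DifferentiableAt ℝ f x) (fun f g hf hg => hf.add hg)
      (fun f g hf hg => hf.sub hg) (fun f g hf hg => hf.mul hg) hG

theorem inv_differentiableAt {G : E3 → Mat3} {x : E3}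
    (hG : ∀ i j, DifferentiableAt ℝ (fun y => G y i j) x) (h0 : (G x).det ≠ 0) (i j : Fin 3) :
    DifferentiableAt ℝ (fun y => (G y)⁻¹ i j) x := by
  simp only [IV_inv]
  refine DifferentiableAt.mul (DifferentiableAt.inv (IV_det_diff hG) h0) ?_
  exact IV_adj (fun f => DifferentiableAt ℝ f x) (fun f g hf hg => hf.add hg)
      (fun f g hf hg => hf.sub hg) (fun f g hf hg => hf.mul hg) (fun f hf => hf.neg) hG i j

theorem pd_inv {G : E3 → Mat3} {x : E3} (hG : ∀ i j, DifferentiableAt ℝ (fun y => G y i j) x)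
    (h0 : (G x).det ≠ 0) (p i j : Fin 3) :
    pd p (fun y => (G y)⁻¹ i j) x = -((G x)⁻¹ * jet1 G x p * (G x)⁻¹) i j := by
  set D : Mat3 := Matrix.of fun i j => pd p (fun y => (G y)⁻¹ i j) x with hD
  have hI := inv_differentiableAt hG h0
  have hne : ∀ᶠ y in nhds x, (G y).det ≠ 0 :=
    (IV_det_diff hG).continuousAt.eventually_ne h0
  have key : D * G x + (G x)⁻¹ * jet1 G x p = 0 := by
    ext a b
    have e1 : (fun y => ∑ k, (G y)⁻¹ a k * G y k b) =ᶠ[nhds x] fun _ => (1 : Mat3) a b := by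
      filter_upwards [hne] with y hy
      have e2 : (G y)⁻¹ * G y = 1 := Matrix.nonsing_inv_mul _ (isUnit_iff_ne_zero.mpr hy)
      rw [← e2, Matrix.mul_apply]
    have e3 : pd p (fun y => ∑ k, (G y)⁻¹ a k * G y k b) x = 0 := by
      unfold pd
      rw [e1.fderiv_eq, fderiv_fun_const]
      rfl
    have e4 : pd p (fun y => ∑ k, (G y)⁻¹ a k * G y k b) x
        = ∑ k, (pd p (fun y => (G y)⁻¹ a k) x * G x k b
          + (G x)⁻¹ a k * pd p (fun y => G y k b) x) := by
      unfold pd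
      rw [fderiv_fun_sum fun k _ => (hI a k).fun_mul (hG k b), ContinuousLinearMap.sum_apply]
      refine Finset.sum_congr rfl fun k _ => ?_
      rw [fderiv_fun_mul (hI a k) (hG k b)]
      simp only [ContinuousLinearMap.add_apply, ContinuousLinearMap.smul_apply, smul_eq_mul]
      ring
    rw [e3] at e4
    rw [Matrix.add_apply, Matrix.mul_apply, Matrix.mul_apply, Matrix.zero_apply,
      ← Finset.sum_add_distrib]
    exact e4.symm
  have h1 : G x * (G x)⁻¹ = 1 := Matrix.mul_nonsing_inv _ (isUnit_iff_ne_zero.mpr h0)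
  have h2 : D = -((G x)⁻¹ * jet1 G x p * (G x)⁻¹) := by
    have h3 : D * G x = -((G x)⁻¹ * jet1 G x p) := eq_neg_of_add_eq_zero_left key
    calc D = D * (G x * (G x)⁻¹) := by rw [h1, Matrix.mul_one]
      _ = (D * G x) * (G x)⁻¹ := by rw [Matrix.mul_assoc]
      _ = -((G x)⁻¹ * jet1 G x p * (G x)⁻¹) := by rw [h3, Matrix.neg_mul]
  have h4 := congrFun (congrFun h2 i) j
  rw [Matrix.neg_apply] at h4
  rw [← h4]
  rfl

end Pool.Agent.RFS.AA
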