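import Pool.Agent.RFS.A2IV
import Pool.Agent.RFS.NPD

/-!
RFS chunk (a2), module JC: Christoffel symbols, Ricci tensor and the Ricci-DeTurck right hand side in
terms of jets.

Proofs. chr is chrJ of the 1-jet by definition (rfl up to Matrix.of_apply). pd of a sum, product:
with A2IV.pd_inv for G⁻¹ and the definition of jet2 (jet2 G x p i j l = ∂_p ∂_i G_jl). The entries of G
are smooth on U, their first derivatives are differentiable on U (ContDiffOn.fderiv_of_isOpen; write
pd i f y = fderiv f y (bv i)). For rdt also dwJ is the derivative of wf: product rule.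
smoothness: chr is a finite sum of products of smooth functions.
-/

open scoped Manifold ContDiff Matrix
open Set

namespace Pool.Agent.RFS.AA

variable {G : E3 → Mat3} {U : Set E3}

/-- Derivatives of smooth functions are smooth. -/
theorem pd_contDiffOn {f : E3 → ℝ} (hU : IsOpen U) (hf : ContDiffOn ℝ ∞ f U) (k : Fin 3) :
    ContDiffOn ℝ ∞ (fun y => pd k f y) U := by
  exact NN.contDiffOn_pd hU hf k

theorem chr_eq (x : E3) (k i j : Fin 3) : chr G x k i j = chrJ (G x) (jet1 G x) k i j := by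
  rfl

theorem chr_contDiffOn (hU : IsOpen U) (hG : ∀ i j, ContDiffOn ℝ ∞ (fun y => G y i j) U)
    (h0 : ∀ y ∈ U, (G y).det ≠ 0) (k i j : Fin 3) :
    ContDiffOn ℝ ∞ (fun y => chr G y k i j) U := by
  unfold chr
  exact contDiffOn_const.mul (ContDiffOn.sum fun l _ => (inv_contDiffOn hG h0 k l).mul
    (((pd_contDiffOn hU (hG j l) i).add (pd_contDiffOn hU (hG i l) j)).sub
      (pd_contDiffOn hU (hG i j) l)))

theorem pd_chr (hU : IsOpen U) (hG : ∀ i j, ContDiffOn ℝ ∞ (fun y => G y i j) U)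
    (h0 : ∀ y ∈ U, (G y).det ≠ 0) {x : E3} (hx : x ∈ U) (p k i j : Fin 3) :
    pd p (fun y => chr G y k i j) x = dchrJ (G x) (jet1 G x) (jet2 G x) p k i j := by
  have hd : ∀ i j, DifferentiableAt ℝ (fun y => G y i j) x := fun i j =>
    NN.differentiableAt_of_contDiffOn hU (hG i j) hx
  have hi : ∀ k l, DifferentiableAt ℝ (fun y => (G y)⁻¹ k l) x := fun k l =>
    inv_differentiableAt hd (h0 x hx) k l
  have hp : ∀ q i j, DifferentiableAt ℝ (fun y => pd q (fun z => G z i j) y) x := fun q i j =>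
    NN.differentiableAt_of_contDiffOn hU (pd_contDiffOn hU (hG i j) q) hx
  have hA : ∀ l, DifferentiableAt ℝ (fun y => pd i (fun z => G z j l) y
      + pd j (fun z => G z i l) y - pd l (fun z => G z i j) y) x := fun l =>
    ((hp i j l).fun_add (hp j i l)).fun_sub (hp l i j)
  have hadd : ∀ l, DifferentiableAt ℝ (fun y => pd i (fun z => G z j l) y
      + pd j (fun z => G z i l) y) x := fun l => (hp i j l).fun_add (hp j i l)
  have hmul : ∀ l, DifferentiableAt ℝ (fun y => (G y)⁻¹ k l * (pd i (fun z => G z j l) y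
      + pd j (fun z => G z i l) y - pd l (fun z => G z i j) y)) x := fun l =>
    (hi k l).fun_mul (hA l)
  have hsum : DifferentiableAt ℝ (fun y => ∑ l, (G y)⁻¹ k l * (pd i (fun z => G z j l) y
      + pd j (fun z => G z i l) y - pd l (fun z => G z i j) y)) x :=
    DifferentiableAt.fun_sum fun l _ => hmul l
  have hpA : ∀ l, pd p (fun y => pd i (fun z => G z j l) y
      + pd j (fun z => G z i l) y - pd l (fun z => G z i j) y) x
      = jet2 G x p i j l + jet2 G x p j i l - jet2 G x p l i j := by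
    intro l
    rw [NN.pd_sub (hadd l) (hp l i j), NN.pd_add (hp i j l) (hp j i l)]
    rfl
  have h1 : pd p (fun y => chr G y k i j) x
      = (1 / 2) * ∑ l, (pd p (fun y => (G y)⁻¹ k l) x * (pd i (fun z => G z j l) x
      + pd j (fun z => G z i l) x - pd l (fun z => G z i j) x)
      + (G x)⁻¹ k l * pd p (fun y => pd i (fun z => G z j l) y
      + pd j (fun z => G z i l) y - pd l (fun z => G z i j) y) x) := by
    unfold chr
    rw [NN.pd_const_mul hsum, NN.pd_sum_univ hmul]
    congr 1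
    exact Finset.sum_congr rfl fun l _ => NN.pd_mul (hi k l) (hA l) p
  rw [h1]
  unfold dchrJ
  congr 1
  refine Finset.sum_congr rfl fun l _ => ?_
  rw [hpA l, pd_inv hd (h0 x hx)]
  simp only [jet1, Matrix.of_apply]
  ring

theorem ricci_eq (hU : IsOpen U) (hG : ∀ i j, ContDiffOn ℝ ∞ (fun y => G y i j) U)
    (h0 : ∀ y ∈ U, (G y).det ≠ 0) {x : E3} (hx : x ∈ U) :
    ricci G x = ricJ (G x) (jet1 G x) (jet2 G x) := by
  ext j k
  simp only [ricci, ricJ, Matrix.of_apply, pd_chr hU hG h0 hx]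
  simp only [chr_eq]

theorem wf_contDiffOn (hU : IsOpen U) (hG : ∀ i j, ContDiffOn ℝ ∞ (fun y => G y i j) U)
    (h0 : ∀ y ∈ U, (G y).det ≠ 0) {C : E3 → Con}
    (hC : ∀ k i j, ContDiffOn ℝ ∞ (fun y => C y k i j) U) (k : Fin 3) :
    ContDiffOn ℝ ∞ (fun y => wf G C y k) U := by
  unfold wf
  exact ContDiffOn.sum fun p _ => ContDiffOn.sum fun q _ => (inv_contDiffOn hG h0 p q).mul
    ((chr_contDiffOn hU hG h0 k p q).sub (hC k p q))

theorem rdt_eq (hU : IsOpen U) (hG : ∀ i j, ContDiffOn ℝ ∞ (fun y => G y i j) U)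
    (h0 : ∀ y ∈ U, (G y).det ≠ 0) {C : E3 → Con}
    (hC : ∀ k i j, ContDiffOn ℝ ∞ (fun y => C y k i j) U) {x : E3} (hx : x ∈ U) :
    rdt G C x = rdtJ (G x) (jet1 G x) (jet2 G x) (C x)
      (fun i k p q => pd i (fun y => C y k p q) x) := by
  have hd : ∀ i j, DifferentiableAt ℝ (fun y => G y i j) x := fun i j =>
    NN.differentiableAt_of_contDiffOn hU (hG i j) hx
  have hi : ∀ k l, DifferentiableAt ℝ (fun y => (G y)⁻¹ k l) x := fun k l =>
    inv_differentiableAt hd (h0 x hx) k l
  have hc : ∀ k p q, DifferentiableAt ℝ (fun y => chr G y k p q) x := fun k p q =>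
    NN.differentiableAt_of_contDiffOn hU (chr_contDiffOn hU hG h0 k p q) hx
  have hC' : ∀ k p q, DifferentiableAt ℝ (fun y => C y k p q) x := fun k p q =>
    NN.differentiableAt_of_contDiffOn hU (hC k p q) hx
  have hw : ∀ i k, pd i (fun y => wf G C y k) x = dwJ (G x) (jet1 G x) (jet2 G x) (C x)
      (fun i k p q => pd i (fun y => C y k p q) x) i k := by
    intro i k
    have h1 : ∀ p q, DifferentiableAt ℝ (fun y => chr G y k p q - C y k p q) x := fun p q =>
      (hc k p q).fun_sub (hC' k p q)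
    have h2 : ∀ p q, DifferentiableAt ℝ (fun y => (G y)⁻¹ p q * (chr G y k p q - C y k p q)) x :=
      fun p q => (hi p q).fun_mul (h1 p q)
    have h3 : ∀ p, DifferentiableAt ℝ
        (fun y => ∑ q, (G y)⁻¹ p q * (chr G y k p q - C y k p q)) x :=
      fun p => DifferentiableAt.fun_sum fun q _ => h2 p q
    unfold wf
    rw [NN.pd_sum_univ h3]
    unfold dwJ
    refine Finset.sum_congr rfl fun p _ => ?_
    rw [NN.pd_sum_univ (h2 p)]
    refine Finset.sum_congr rfl fun q _ => ?_
    rw [NN.pd_mul (hi p q) (h1 p q), NN.pd_sub (hc k p q) (hC' k p q),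
      pd_inv hd (h0 x hx), pd_chr hU hG h0 hx, chr_eq]
    ring
  ext i j
  simp only [rdt, rdtJ, lieD, Matrix.of_apply, ricci_eq hU hG h0 hx, hw]
  rfl

end Pool.Agent.RFS.AA
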