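import Pool.Agent.RFS.NPD

/-!
# RFS, chunk N, module NCH: the Christoffel symbols under a change of coordinates

`Chg U V φ G G'` : on the open set `U` the matrix function `G` is the pull back of `G'` (on the open
set `V`) by the smooth map `φ : U → V` with invertible Jacobi matrix.
-/

open scoped Manifold ContDiff Matrix Topology
open Set

noncomputable section

namespace Pool.Agent.RFS.NN

/-- The Jacobi matrix of a map `φ`; entry `(k, i)` is `∂ᵢ φ^k`. -/
def jacm (φ : E3 → E3) (x : E3) : Mat3 := Matrix.of fun k i => pd i (fun y => φ y k) x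

/-- The second derivatives `∂ᵢ ∂ⱼ φ^c`. -/
def hesm (φ : E3 → E3) (x : E3) (c i j : Fin 3) : ℝ := pd i (fun y => jacm φ y c j) x

/-- `G` is the pull back of the metric `G'` by the local diffeomorphism `φ : U → V`. -/
structure Chg (U V : Set E3) (φ : E3 → E3) (G G' : E3 → Mat3) : Prop where
  oU : IsOpen U
  oV : IsOpen V
  maps : ∀ x ∈ U, φ x ∈ V
  sφ : ∀ k, ContDiffOn ℝ ∞ (fun y => φ y k) U
  dJ : ∀ x ∈ U, (jacm φ x).det ≠ 0
  sG' : ∀ i j, ContDiffOn ℝ ∞ (fun y => G' y i j) V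
  symm' : ∀ y ∈ V, (G' y)ᵀ = G' y
  dG' : ∀ y ∈ V, (G' y).det ≠ 0
  pull : ∀ x ∈ U, G x = (jacm φ x)ᵀ * G' (φ x) * jacm φ x

/-- Christoffel symbols of the first kind, `Γ_{l,ij}`. -/
def chl (G : E3 → Mat3) (x : E3) (l i j : Fin 3) : ℝ :=
  (1 / 2) * (pd i (fun y => G y j l) x + pd j (fun y => G y i l) x - pd l (fun y => G y i j) x)

theorem chr_eq_chl (G : E3 → Mat3) (x : E3) (k i j : Fin 3) :
    chr G x k i j = ∑ l, (G x)⁻¹ k l * chl G x l i j := by
  unfold chr chl
  rw [Finset.mul_sum]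
  refine Finset.sum_congr rfl fun l _ => ?_
  ring

theorem mat_symm_apply {A : Mat3} (h : Aᵀ = A) (i j : Fin 3) : A i j = A j i := by
  conv_lhs => rw [← h]
  rfl

theorem chl_symm {G : E3 → Mat3} {U : Set E3} (hU : IsOpen U) (hs : ∀ y ∈ U, (G y)ᵀ = G y)
    {x : E3} (hx : x ∈ U) (l i j : Fin 3) : chl G x l i j = chl G x l j i := by
  have h1 : pd l (fun y => G y i j) x = pd l (fun y => G y j i) x :=
    pd_congr_of_mem hU hx (fun y hy => mat_symm_apply (hs y hy) i j) l
  unfold chl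
  rw [h1]
  ring

theorem chr_symm {G : E3 → Mat3} {U : Set E3} (hU : IsOpen U) (hs : ∀ y ∈ U, (G y)ᵀ = G y)
    {x : E3} (hx : x ∈ U) (k i j : Fin 3) : chr G x k i j = chr G x k j i := by
  rw [chr_eq_chl, chr_eq_chl]
  exact Finset.sum_congr rfl fun l _ => by rw [chl_symm hU hs hx]

section Alg

/-- algebra of the transformation law of `Γ_{l,ij}` -/
private theorem alg_chl (g J : Fin 3 → Fin 3 → ℝ) (dg H : Fin 3 → Fin 3 → Fin 3 → ℝ)
    (hg : ∀ a b, g a b = g b a) (hH : ∀ b i j, H b i j = H b j i) (i j l : Fin 3) :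
    (1 / 2) * ((∑ b, ∑ c, (H b i j * g b c * J c l + J b j * (∑ a, dg a b c * J a i) * J c l
        + J b j * g b c * H c i l))
      + (∑ b, ∑ c, (H b j i * g b c * J c l + J b i * (∑ a, dg a b c * J a j) * J c l
        + J b i * g b c * H c j l))
      - (∑ b, ∑ c, (H b l i * g b c * J c j + J b i * (∑ a, dg a b c * J a l) * J c j
        + J b i * g b c * H c l j)))
    = ∑ d, J d l * ((∑ b, g d b * H b i j)
      + ∑ a, ∑ b, (1 / 2) * (dg a b d + dg b a d - dg d a b) * J a i * J b j) := by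
  simp only [Fin.sum_univ_three]
  rw [hg 1 0, hg 2 0, hg 2 1, hH 0 j i, hH 1 j i, hH 2 j i, hH 0 l i, hH 1 l i, hH 2 l i,
    hH 0 l j, hH 1 l j, hH 2 l j]
  ring

end Alg

namespace Chg

variable {U V : Set E3} {φ : E3 → E3} {G G' : E3 → Mat3}

theorem sJ (h : Chg U V φ G G') (k i : Fin 3) : ContDiffOn ℝ ∞ (fun y => jacm φ y k i) U :=
  contDiffOn_pd h.oU (h.sφ k) i

theorem sφ' (h : Chg U V φ G G') : ContDiffOn ℝ ∞ φ U := by
  rw [contDiffOn_euclidean]
  exact h.sφ

theorem scomp (h : Chg U V φ G G') {f : E3 → ℝ} (hf : ContDiffOn ℝ ∞ f V) :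
    ContDiffOn ℝ ∞ (fun y => f (φ y)) U :=
  hf.comp h.sφ' h.maps

theorem H_symm (h : Chg U V φ G G') {x : E3} (hx : x ∈ U) (c i j : Fin 3) :
    hesm φ x c i j = hesm φ x c j i :=
  pd_comm_of_contDiffOn h.oU (h.sφ c) hx i j

theorem pull_apply (h : Chg U V φ G G') {x : E3} (hx : x ∈ U) (j l : Fin 3) :
    G x j l = ∑ b, ∑ c, jacm φ x b j * G' (φ x) b c * jacm φ x c l := by
  rw [h.pull x hx]
  simp only [Matrix.mul_apply, Matrix.transpose_apply, Finset.sum_mul]
  rw [Finset.sum_comm]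

theorem sG (h : Chg U V φ G G') (i j : Fin 3) : ContDiffOn ℝ ∞ (fun y => G y i j) U := by
  refine ContDiffOn.congr (f := fun x => ∑ b, ∑ c, jacm φ x b i * G' (φ x) b c * jacm φ x c j)
    ?_ (fun y hy => h.pull_apply hy i j)
  refine ContDiffOn.sum fun b _ => ContDiffOn.sum fun c _ => ?_
  exact ((h.sJ b i).mul (h.scomp (h.sG' b c))).mul (h.sJ c j)

theorem symm (h : Chg U V φ G G') : ∀ y ∈ U, (G y)ᵀ = G y := by
  intro y hy
  rw [h.pull y hy, Matrix.transpose_mul, Matrix.transpose_mul, Matrix.transpose_transpose,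
    h.symm' _ (h.maps y hy), Matrix.mul_assoc]

theorem dG (h : Chg U V φ G G') : ∀ y ∈ U, (G y).det ≠ 0 := by
  intro y hy
  rw [h.pull y hy, Matrix.det_mul, Matrix.det_mul, Matrix.det_transpose]
  exact mul_ne_zero (mul_ne_zero (h.dJ y hy) (h.dG' _ (h.maps y hy))) (h.dJ y hy)

theorem pd_pull (h : Chg U V φ G G') {x : E3} (hx : x ∈ U) (i j l : Fin 3) :
    pd i (fun y => G y j l) x = ∑ b, ∑ c, (hesm φ x b i j * G' (φ x) b c * jacm φ x c l
      + jacm φ x b j * (∑ a, pd a (fun y => G' y b c) (φ x) * jacm φ x a i) * jacm φ x c l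
      + jacm φ x b j * G' (φ x) b c * hesm φ x c i l) := by
  have hJ : ∀ a b, DifferentiableAt ℝ (fun y => jacm φ y a b) x := fun a b =>
    differentiableAt_of_contDiffOn h.oU (h.sJ a b) hx
  have hg : ∀ a b, DifferentiableAt ℝ (fun y => G' (φ y) a b) x := fun a b =>
    differentiableAt_of_contDiffOn h.oU (h.scomp (h.sG' a b)) hx
  rw [pd_congr_of_mem h.oU hx (fun y hy => h.pull_apply hy j l) i]
  have hd0 : ∀ b c, DifferentiableAt ℝ (fun y => jacm φ y b j * G' (φ y) b c) x := fun b c =>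
    (hJ b j).mul (hg b c)
  have hd : ∀ b c, DifferentiableAt ℝ
      (fun y => jacm φ y b j * G' (φ y) b c * jacm φ y c l) x := fun b c =>
    (hd0 b c).mul (hJ c l)
  have hd1 : ∀ b, DifferentiableAt ℝ
      (fun y => ∑ c, jacm φ y b j * G' (φ y) b c * jacm φ y c l) x := fun b =>
    DifferentiableAt.fun_sum fun c _ => hd b c
  rw [pd_sum_univ hd1]
  refine Finset.sum_congr rfl fun b _ => ?_
  rw [pd_sum_univ (hd b)]
  refine Finset.sum_congr rfl fun c _ => ?_
  rw [pd_mul (hd0 b c) (hJ c l), pd_mul (hJ b j) (hg b c)]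
  have h1 : pd i (fun y => G' (φ y) b c) x
      = ∑ a, pd a (fun y => G' y b c) (φ x) * jacm φ x a i :=
    pd_comp (f := fun y => G' y b c)
      (differentiableAt_of_contDiffOn h.oV (h.sG' b c) (h.maps x hx))
      (fun a => differentiableAt_of_contDiffOn h.oU (h.sφ a) hx) i
  rw [h1]
  unfold hesm
  ring

/-- transformation of the Christoffel symbols of the first kind -/
theorem chl_law (h : Chg U V φ G G') {x : E3} (hx : x ∈ U) (l i j : Fin 3) :
    chl G x l i j = ∑ d, jacm φ x d l * ((∑ b, G' (φ x) d b * hesm φ x b i j)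
      + ∑ a, ∑ b, chl G' (φ x) d a b * jacm φ x a i * jacm φ x b j) := by
  unfold chl
  rw [h.pd_pull hx, h.pd_pull hx, h.pd_pull hx]
  exact alg_chl (fun a b => G' (φ x) a b) (fun a b => jacm φ x a b)
    (fun a b c => pd a (fun y => G' y b c) (φ x)) (fun c i j => hesm φ x c i j)
    (fun a b => mat_symm_apply (h.symm' _ (h.maps x hx)) a b) (fun c i j => h.H_symm hx c i j)
    i j l

theorem inv_law (h : Chg U V φ G G') {x : E3} (hx : x ∈ U) :
    jacm φ x * (G x)⁻¹ * (jacm φ x)ᵀ = (G' (φ x))⁻¹ := by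
  have hJ : IsUnit (jacm φ x).det := isUnit_iff_ne_zero.mpr (h.dJ x hx)
  have hJt : IsUnit ((jacm φ x)ᵀ).det := by rwa [Matrix.det_transpose]
  rw [h.pull x hx, Matrix.mul_inv_rev, Matrix.mul_inv_rev, ← Matrix.mul_assoc,
    Matrix.mul_nonsing_inv _ hJ, Matrix.one_mul, Matrix.mul_assoc, Matrix.nonsing_inv_mul _ hJt,
    Matrix.mul_one]

/-- transformation law of the Christoffel symbols -/
theorem chr_law (h : Chg U V φ G G') {x : E3} (hx : x ∈ U) (c i j : Fin 3) :
    ∑ k, jacm φ x c k * chr G x k i j = hesm φ x c i j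
      + ∑ a, ∑ b, chr G' (φ x) c a b * jacm φ x a i * jacm φ x b j := by
  set J := jacm φ x with hJdef
  set g' := G' (φ x) with hg'
  set X : Fin 3 → ℝ := fun d => (∑ b, g' d b * hesm φ x b i j)
      + ∑ a, ∑ b, chl G' (φ x) d a b * J a i * J b j with hX
  have h1 : ∀ l, chl G x l i j = (Jᵀ *ᵥ X) l := by
    intro l
    rw [h.chl_law hx l i j]
    simp only [Matrix.mulVec, dotProduct, Matrix.transpose_apply, hX, hJdef, hg']
  have h2 : ∑ k, J c k * chr G x k i j = (J *ᵥ ((G x)⁻¹ *ᵥ (Jᵀ *ᵥ X))) c := by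
    simp only [Matrix.mulVec, dotProduct]
    refine Finset.sum_congr rfl fun k _ => ?_
    rw [chr_eq_chl]
    congr 1
    refine Finset.sum_congr rfl fun l _ => ?_
    rw [h1]
    simp only [Matrix.mulVec, dotProduct]
  rw [h2, Matrix.mulVec_mulVec, Matrix.mulVec_mulVec, h.inv_law hx]
  have hgu : IsUnit g'.det := isUnit_iff_ne_zero.mpr (h.dG' _ (h.maps x hx))
  have h3 : X = g' *ᵥ (fun b => hesm φ x b i j)
      + fun d => ∑ a, ∑ b, chl G' (φ x) d a b * J a i * J b j := by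
    funext d
    simp only [hX, Pi.add_apply, Matrix.mulVec, dotProduct]
  rw [← hg', h3, Matrix.mulVec_add, Matrix.mulVec_mulVec, Matrix.nonsing_inv_mul _ hgu,
    Matrix.one_mulVec, Pi.add_apply]
  congr 1
  simp only [Matrix.mulVec, dotProduct, chr_eq_chl, Finset.mul_sum, Finset.sum_mul]
  rw [Finset.sum_comm]
  refine Finset.sum_congr rfl fun a _ => ?_
  rw [Finset.sum_comm]
  refine Finset.sum_congr rfl fun b _ => Finset.sum_congr rfl fun d _ => ?_
  rw [← hg']
  ring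

end Chg

end Pool.Agent.RFS.NN
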