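import Pool.Agent.RFS.A2RS
import Pool.Agent.RFS.NCH

/-!
RFS chunk (a2), module NA: naturality of the Levi-Civita connection.

Facts on Pull: J = jm f x, entries J a i = ∂_i f^a smooth on U; D^a_{ki} := ∂_k J a i = ∂_k ∂_i f^a is
symmetric in k, i (A2RS.pd_comm). G is smooth and PosDef on U (J invertible; Matrix.PosDef
of Jᵀ G' J: PosDef.conjTranspose_mul_mul_same or directly).

Proof of chr_pull (Christoffel symbols with lower index c_{ij,l} = (1/2)(∂_i G_jl + ∂_j G_il - ∂_l G_ij)).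
Derivative of G_ij = sum_ab J_ai G'_ab(f) J_bj:
 ∂_k G_ij = sum_ab (D^a_ki G'_ab J_bj + J_ai (sum_c ∂_c G'_ab J_ck) J_bj + J_ai G'_ab D^b_kj).
With G' symmetric and D symmetric:
 c_{ij,l} = sum_ab D^a_ij G'_ab J_bl + sum_abc c'_{bc,a} J_al J_bi J_cj.
J G⁻¹ = (G')⁻¹ (Jᵀ)⁻¹ (from G = Jᵀ G' J), so
 sum_k J_ak Γ^k_ij = sum_l (J G⁻¹)_al c_{ij,l} = D^a_ij + sum_bc Γ'^a_bc J_bi J_cj,
which is ConLaw (pd i (jm f y a j) = D^a_ij).
-/

open scoped Manifold ContDiff Matrix
open Set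

namespace Pool.Agent.RFS.AA

variable {f : E3 → E3} {G G' : E3 → Mat3} {U V : Set E3}

theorem jm_contDiffOn (hU : IsOpen U) (hf : ContDiffOn ℝ ∞ f U) (a i : Fin 3) :
    ContDiffOn ℝ ∞ (fun y => jm f y a i) U :=
  NN.contDiffOn_pd hU ((contDiffOn_euclidean.1 hf) a) i

theorem jm_comm (hU : IsOpen U) (hf : ContDiffOn ℝ ∞ f U) {x : E3} (hx : x ∈ U)
    (a k i : Fin 3) : pd k (fun y => jm f y a i) x = pd i (fun y => jm f y a k) x :=
  NN.pd_comm_of_contDiffOn hU ((contDiffOn_euclidean.1 hf) a) hx k i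

/-- Chain rule. -/
theorem pd_comp (hU : IsOpen U) (hf : ContDiffOn ℝ ∞ f U) {x : E3} (hx : x ∈ U) {h : E3 → ℝ}
    (hh : DifferentiableAt ℝ h (f x)) (k : Fin 3) :
    pd k (fun y => h (f y)) x = ∑ c, pd c h (f x) * jm f x c k :=
  NN.pd_comp hh (fun a =>
    NN.differentiableAt_of_contDiffOn hU ((contDiffOn_euclidean.1 hf) a) hx) k

private theorem na_chg (h : Pull f G G' U V) : NN.Chg U V f G G' where
  oU := h.U_open
  oV := h.V_open
  maps := fun x hx => h.maps hx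
  sφ := fun k => (contDiffOn_euclidean.1 h.f_smooth) k
  dJ := h.det
  sG' := h.G_smooth
  symm' := by
    intro y hy
    have h1 := (h.G_pos y hy).isHermitian
    ext i j
    have := congrFun (congrFun h1 i) j
    simpa [Matrix.conjTranspose_apply] using this
  dG' := fun y hy => (h.G_pos y hy).det_pos.ne'
  pull := h.eq

theorem Pull.G_contDiffOn (h : Pull f G G' U V) (i j : Fin 3) :
    ContDiffOn ℝ ∞ (fun y => G y i j) U :=
  (na_chg h).sG i j

theorem Pull.posDef (h : Pull f G G' U V) {x : E3} (hx : x ∈ U) : (G x).PosDef := by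
  rw [h.eq x hx]
  have h1 := h.G_pos (f x) (h.maps hx)
  have h2 : Function.Injective (jm f x).mulVec :=
    Matrix.mulVec_injective_of_isUnit
      ((Matrix.isUnit_iff_isUnit_det _).2 (isUnit_iff_ne_zero.mpr (h.det x hx)))
  have h3 := h1.conjTranspose_mul_mul_same h2
  have h4 : (jm f x)ᴴ = (jm f x)ᵀ := by
    ext i j
    simp [Matrix.conjTranspose_apply]
  rwa [h4] at h3

theorem Pull.pd_G (h : Pull f G G' U V) {x : E3} (hx : x ∈ U) (k i j : Fin 3) :
    pd k (fun y => G y i j) x = ∑ a, ∑ b,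
      (pd k (fun y => jm f y a i) x * G' (f x) a b * jm f x b j
        + jm f x a i * (∑ c, pd c (fun y => G' y a b) (f x) * jm f x c k) * jm f x b j
        + jm f x a i * G' (f x) a b * pd k (fun y => jm f y b j) x) :=
  (na_chg h).pd_pull hx k i j

theorem Pull.inv (h : Pull f G G' U V) {x : E3} (hx : x ∈ U) :
    jm f x * (G x)⁻¹ * (jm f x)ᵀ = (G' (f x))⁻¹ :=
  (na_chg h).inv_law hx

theorem Pull.chr (h : Pull f G G' U V) {x : E3} (hx : x ∈ U) :
    ConLaw f (chr G) (chr G') x := by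
  intro a i j
  have h1 := (na_chg h).chr_law hx a i j
  rw [add_comm] at h1
  exact h1

end Pool.Agent.RFS.AA
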