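import Pool.Agent.RFS.A2NA
import Pool.Agent.RFS.NPD

/-!
RFS chunk (a2), module NB: naturality of the Ricci tensor of a connection, and of the Ricci tensor
of a metric.

Proof. Write J_ai = jm f x a i, D = derivatives of J. Rm^k_{j,li} = ∂_l Γ^k_ij - ∂_i Γ^k_lj
+ Γ^k_lm Γ^m_ij - Γ^k_im Γ^m_lj for C = Γ; Ric_ij = sum_k Rm^k_{j,ki}.
ConLaw on U: sum_k J_ak Γ^k_ij = sum_bc Γ'^a_bc(f) J_bi J_cj + ∂_i J_aj. Differentiate with ∂_l:
 sum_k (∂_l J_ak Γ^k_ij + J_ak ∂_l Γ^k_ij) = sum (∂_d Γ'^a_bc) J_dl J_bi J_cj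
    + sum Γ'^a_bc (∂_l J_bi J_cj + J_bi ∂_l J_cj) + ∂_l ∂_i J_aj.
Subtract the same with l, i exchanged: ∂_l J_bi = ∂_i J_bl, ∂_l∂_i J = ∂_i∂_l J cancel.
Moreover sum_k J_ak Γ^k_lm Γ^m_ij = sum_m (sum_bc Γ'^a_bc J_bl J_cm + ∂_l J_am) Γ^m_ij
 = sum_bc Γ'^a_bc J_bl (sum_de Γ'^c_de J_di J_ej + ∂_i J_cj) + sum_m ∂_l J_am Γ^m_ij.
Adding everything, all terms with derivatives of J cancel:
 sum_k J_ak Rm^k_{j,li} = sum Rm'^a_{c,db}(f) J_dl J_bi J_cj.
Multiply by (J⁻¹)_{l a} and sum over a, l (that is k = l contraction):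
 Ric_ij = sum_bc Ric'_bc(f) J_bi J_cj, i.e. ricC C x = Jᵀ ricC C' (f x) J.
ricci G = ricC (chr G) by definition; apply with A2NA.Pull.chr and A2JC.chr_contDiffOn.
-/

open scoped Manifold ContDiff Matrix
open Set

namespace Pool.Agent.RFS.AA

variable {f : E3 → E3} {G G' : E3 → Mat3} {C C' : E3 → Con} {U V : Set E3}

/-- algebra of the transformation law of the curvature, first part -/
private theorem A2NB_alg_one (J : Fin 3 → Fin 3 → ℝ) (H Γ Γ' : Fin 3 → Fin 3 → Fin 3 → ℝ)
    (T dΓ dΓ' : Fin 3 → Fin 3 → Fin 3 → Fin 3 → ℝ) (c n i j : Fin 3)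
    (h1 : ∀ c i j, ∑ k, J c k * Γ k i j = H c i j + ∑ a, ∑ b, Γ' c a b * J a i * J b j)
    (h2 : ∑ k, (H c n k * Γ k i j + J c k * dΓ n k i j) = T c n i j
      + ∑ a, ∑ b, ((∑ e, dΓ' e c a b * J e n) * J a i * J b j + Γ' c a b * H a n i * J b j
        + Γ' c a b * J a i * H b n j)) :
    ∑ k, J c k * (dΓ n k i j + ∑ m, Γ k n m * Γ m i j) = T c n i j
      + (∑ a, ∑ b, (∑ e, dΓ' e c a b * J e n) * J a i * J b j)
      + (∑ a, ∑ b, Γ' c a b * H a n i * J b j)
      + (∑ a, ∑ b, Γ' c a b * J a i * H b n j)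
      + (∑ a, ∑ b, Γ' c a b * J a n * H b i j)
      + (∑ a, ∑ b, Γ' c a b * J a n * ∑ e, ∑ f, Γ' b e f * J e i * J f j) := by
  have e1 : ∑ k, J c k * (dΓ n k i j + ∑ m, Γ k n m * Γ m i j)
      = (∑ k, (H c n k * Γ k i j + J c k * dΓ n k i j))
        + ∑ m, (∑ k, J c k * Γ k n m - H c n m) * Γ m i j := by
    simp only [Fin.sum_univ_three]
    ring
  have e2 : ∑ m, (∑ k, J c k * Γ k n m - H c n m) * Γ m i j
      = ∑ a, ∑ b, Γ' c a b * J a n * ∑ m, J b m * Γ m i j := by
    have : ∀ m, ∑ k, J c k * Γ k n m - H c n m = ∑ a, ∑ b, Γ' c a b * J a n * J b m := by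
      intro m
      rw [h1 c n m]
      ring
    simp only [this]
    simp only [Fin.sum_univ_three]
    ring
  have e3 : ∑ a, ∑ b, Γ' c a b * J a n * ∑ m, J b m * Γ m i j
      = (∑ a, ∑ b, Γ' c a b * J a n * H b i j)
      + (∑ a, ∑ b, Γ' c a b * J a n * ∑ e, ∑ f, Γ' b e f * J e i * J f j) := by
    rw [← Finset.sum_add_distrib]
    refine Finset.sum_congr rfl fun a _ => ?_
    rw [← Finset.sum_add_distrib]
    refine Finset.sum_congr rfl fun b _ => ?_
    rw [h1 b i j]
    ring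
  rw [e1, e2, e3, h2]
  simp only [Finset.sum_add_distrib]
  ring

/-- algebra of the transformation law of the curvature, second part -/
private theorem A2NB_alg_two (J : Fin 3 → Fin 3 → ℝ) (H Γ Γ' : Fin 3 → Fin 3 → Fin 3 → ℝ)
    (T dΓ dΓ' : Fin 3 → Fin 3 → Fin 3 → Fin 3 → ℝ) (c n i j : Fin 3)
    (hH : ∀ c i j, H c i j = H c j i) (hT : T c n i j = T c i n j)
    (h1 : ∀ c i j, ∑ k, J c k * Γ k i j = H c i j + ∑ a, ∑ b, Γ' c a b * J a i * J b j)
    (h2 : ∀ n i, ∑ k, (H c n k * Γ k i j + J c k * dΓ n k i j) = T c n i j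
      + ∑ a, ∑ b, ((∑ e, dΓ' e c a b * J e n) * J a i * J b j + Γ' c a b * H a n i * J b j
        + Γ' c a b * J a i * H b n j)) :
    ∑ k, J c k * (dΓ n k i j - dΓ i k n j + ∑ m, (Γ k n m * Γ m i j - Γ k i m * Γ m n j))
      = ∑ e, ∑ a, ∑ b, J e n * J a i * J b j * (dΓ' e c a b - dΓ' a c e b
        + ∑ m, (Γ' c e m * Γ' m a b - Γ' c a m * Γ' m e b)) := by
  have a1 := A2NB_alg_one J H Γ Γ' T dΓ dΓ' c n i j h1 (h2 n i)
  have a2 := A2NB_alg_one J H Γ Γ' T dΓ dΓ' c i n j h1 (h2 i n)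
  have b1 : ∑ k, J c k * (dΓ n k i j - dΓ i k n j + ∑ m, (Γ k n m * Γ m i j - Γ k i m * Γ m n j))
      = ∑ k, J c k * (dΓ n k i j + ∑ m, Γ k n m * Γ m i j)
        - ∑ k, J c k * (dΓ i k n j + ∑ m, Γ k i m * Γ m n j) := by
    rw [← Finset.sum_sub_distrib]
    refine Finset.sum_congr rfl fun k _ => ?_
    rw [Finset.sum_sub_distrib]
    ring
  have b2 : ∑ a, ∑ b, Γ' c a b * H a i n * J b j = ∑ a, ∑ b, Γ' c a b * H a n i * J b j := by
    refine Finset.sum_congr rfl fun a _ => Finset.sum_congr rfl fun b _ => ?_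
    rw [hH a i n]
  have b3 : ∑ e, ∑ a, ∑ b, J e n * J a i * J b j * (dΓ' e c a b - dΓ' a c e b
        + ∑ m, (Γ' c e m * Γ' m a b - Γ' c a m * Γ' m e b))
      = (∑ a, ∑ b, (∑ e, dΓ' e c a b * J e n) * J a i * J b j)
      - (∑ a, ∑ b, (∑ e, dΓ' e c a b * J e i) * J a n * J b j)
      + (∑ a, ∑ b, Γ' c a b * J a n * ∑ e, ∑ f, Γ' b e f * J e i * J f j)
      - (∑ a, ∑ b, Γ' c a b * J a i * ∑ e, ∑ f, Γ' b e f * J e n * J f j) := by
    simp only [Fin.sum_univ_three]
    ring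
  rw [b1, a1, a2, b2, hT, b3]
  ring


private noncomputable def A2NB_riem (C : E3 → Con) (x : E3) (k j n i : Fin 3) : ℝ :=
  pd n (fun y => C y k i j) x - pd i (fun y => C y k n j) x
    + ∑ m, (C x k n m * C x m i j - C x k i m * C x m n j)

private theorem A2NB_ric_eq (C : E3 → Con) (x : E3) (i j : Fin 3) :
    ricC C x i j = ∑ n, A2NB_riem C x n j n i := rfl

private theorem A2NB_law (hU : IsOpen U) (hV : IsOpen V) (hf : ContDiffOn ℝ ∞ f U)
    (hm : MapsTo f U V)
    (hC : ∀ k i j, ContDiffOn ℝ ∞ (fun y => C y k i j) U)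
    (hC' : ∀ k i j, ContDiffOn ℝ ∞ (fun y => C' y k i j) V) (hl : ∀ x ∈ U, ConLaw f C C' x)
    {x : E3} (hx : x ∈ U) (c j n i : Fin 3) :
    ∑ k, jm f x c k * A2NB_riem C x k j n i = ∑ e, ∑ a, ∑ b,
      jm f x e n * jm f x a i * jm f x b j * A2NB_riem C' (f x) c b e a := by
  have sJ : ∀ a b, ContDiffOn ℝ ∞ (fun y => jm f y a b) U := fun a b =>
    jm_contDiffOn hU hf a b
  have dJ : ∀ a b, DifferentiableAt ℝ (fun y => jm f y a b) x := fun a b =>
    NN.differentiableAt_of_contDiffOn hU (sJ a b) hx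
  have dH : ∀ a b c, DifferentiableAt ℝ (fun y => pd b (fun z => jm f z a c) y) x := fun a b c =>
    NN.differentiableAt_of_contDiffOn hU (NN.contDiffOn_pd hU (sJ a c) b) hx
  have dΓ : ∀ a b c, DifferentiableAt ℝ (fun y => C y a b c) x := fun a b c =>
    NN.differentiableAt_of_contDiffOn hU (hC a b c) hx
  have dΓ0 : ∀ a b c, DifferentiableAt ℝ (fun y => C' y a b c) (f x) := fun a b c =>
    NN.differentiableAt_of_contDiffOn hV (hC' a b c) (hm hx)
  have dΓ' : ∀ a b c, DifferentiableAt ℝ (fun y => C' (f y) a b c) x := fun a b c =>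
    NN.differentiableAt_of_contDiffOn (f := fun y => C' (f y) a b c) hU
      ((hC' a b c).comp hf hm) hx
  have hl' : ∀ y ∈ U, ∀ c i j, ∑ k, jm f y c k * C y k i j = pd i (fun z => jm f z c j) y
      + ∑ a, ∑ b, C' (f y) c a b * jm f y a i * jm f y b j := by
    intro y hy c i j
    rw [hl y hy c i j, add_comm]
  refine A2NB_alg_two (fun a b => jm f x a b) (fun c i j => pd i (fun y => jm f y c j) x)
    (fun k i j => C x k i j) (fun k i j => C' (f x) k i j)
    (fun c n i j => pd n (fun y => pd i (fun z => jm f z c j) y) x)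
    (fun n k i j => pd n (fun y => C y k i j) x)
    (fun n k i j => pd n (fun y => C' y k i j) (f x)) c n i j
    (fun c i j => jm_comm hU hf hx c i j) ?_ (fun c i j => hl' x hx c i j) ?_
  · exact NN.pd_comm_of_contDiffOn hU (sJ c j) hx n i
  · intro n i
    have key : pd n (fun y => ∑ k, jm f y c k * C y k i j) x
        = pd n (fun y => pd i (fun z => jm f z c j) y
          + ∑ a, ∑ b, C' (f y) c a b * jm f y a i * jm f y b j) x :=
      NN.pd_congr_of_mem hU hx (fun y hy => hl' y hy c i j) n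
    have d1 : ∀ k, DifferentiableAt ℝ (fun y => jm f y c k * C y k i j) x := fun k =>
      (dJ c k).mul (dΓ k i j)
    have d2 : ∀ a b, DifferentiableAt ℝ (fun y => C' (f y) c a b * jm f y a i) x :=
      fun a b => (dΓ' c a b).mul (dJ a i)
    have d3 : ∀ a b, DifferentiableAt ℝ
        (fun y => C' (f y) c a b * jm f y a i * jm f y b j) x := fun a b =>
      (d2 a b).mul (dJ b j)
    have d4 : ∀ a, DifferentiableAt ℝ
        (fun y => ∑ b, C' (f y) c a b * jm f y a i * jm f y b j) x := fun a =>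
      DifferentiableAt.fun_sum fun b _ => d3 a b
    have d5 : DifferentiableAt ℝ
        (fun y => ∑ a, ∑ b, C' (f y) c a b * jm f y a i * jm f y b j) x :=
      DifferentiableAt.fun_sum fun a _ => d4 a
    rw [NN.pd_sum_univ d1, NN.pd_add (dH c i j) d5, NN.pd_sum_univ d4] at key
    have k1 : ∀ k, pd n (fun y => jm f y c k * C y k i j) x
        = pd n (fun y => jm f y c k) x * C x k i j + jm f x c k * pd n (fun y => C y k i j) x :=
      fun k => NN.pd_mul (dJ c k) (dΓ k i j) n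
    have k2 : ∀ a, pd n (fun y => ∑ b, C' (f y) c a b * jm f y a i * jm f y b j) x
        = ∑ b, ((∑ e, pd e (fun y => C' y c a b) (f x) * jm f x e n)
            * jm f x a i * jm f x b j
          + C' (f x) c a b * pd n (fun y => jm f y a i) x * jm f x b j
          + C' (f x) c a b * jm f x a i * pd n (fun y => jm f y b j) x) := by
      intro a
      rw [NN.pd_sum_univ (d3 a)]
      refine Finset.sum_congr rfl fun b _ => ?_
      rw [NN.pd_mul (d2 a b) (dJ b j), NN.pd_mul (dΓ' c a b) (dJ a i)]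
      have h1 : pd n (fun y => C' (f y) c a b) x
          = ∑ e, pd e (fun y => C' y c a b) (f x) * jm f x e n :=
        pd_comp (h := fun y => C' y c a b) hU hf hx (dΓ0 c a b) n
      rw [h1]
      ring
    simp only [k1, k2] at key
    exact key

theorem ricci_eq_ricC (G : E3 → Mat3) (x : E3) : ricci G x = ricC (chr G) x := rfl

theorem ricC_pull (hU : IsOpen U) (hV : IsOpen V) (hf : ContDiffOn ℝ ∞ f U) (hm : MapsTo f U V)
    (hd : ∀ x ∈ U, (jm f x).det ≠ 0) (hC : ∀ k i j, ContDiffOn ℝ ∞ (fun y => C y k i j) U)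
    (hC' : ∀ k i j, ContDiffOn ℝ ∞ (fun y => C' y k i j) V) (hl : ∀ x ∈ U, ConLaw f C C' x)
    {x : E3} (hx : x ∈ U) : ricC C x = (jm f x)ᵀ * ricC C' (f x) * jm f x := by
  have hJ : IsUnit (jm f x).det := isUnit_iff_ne_zero.mpr (hd x hx)
  set K := (jm f x)⁻¹ with hK
  have h1 : ∀ a b, ∑ k, K a k * jm f x k b = if a = b then 1 else 0 := by
    intro a b
    have := congrFun (congrFun (Matrix.nonsing_inv_mul _ hJ) a) b
    rw [Matrix.mul_apply, Matrix.one_apply] at this
    exact this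
  have h2 : ∀ a b, ∑ k, jm f x a k * K k b = if a = b then 1 else 0 := by
    intro a b
    have := congrFun (congrFun (Matrix.mul_nonsing_inv _ hJ) a) b
    rw [Matrix.mul_apply, Matrix.one_apply] at this
    exact this
  have key : ∀ i j, ricC C x i j
      = ∑ a, ∑ b, jm f x a i * jm f x b j * ricC C' (f x) a b := by
    intro i j
    have h3 : ∀ k n, A2NB_riem C x k j n i
        = ∑ c, K k c * ∑ l, jm f x c l * A2NB_riem C x l j n i := by
      intro k n
      have : ∑ c, K k c * ∑ l, jm f x c l * A2NB_riem C x l j n i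
          = ∑ l, (∑ c, K k c * jm f x c l) * A2NB_riem C x l j n i := by
        simp only [Finset.mul_sum, Finset.sum_mul]
        rw [Finset.sum_comm]
        exact Finset.sum_congr rfl fun _ _ => Finset.sum_congr rfl fun _ _ => by ring
      rw [this]
      simp only [h1]
      simp
    rw [A2NB_ric_eq]
    calc ∑ n, A2NB_riem C x n j n i
        = ∑ n, ∑ c, K n c * ∑ e, ∑ a, ∑ b,
            jm f x e n * jm f x a i * jm f x b j * A2NB_riem C' (f x) c b e a := by
          refine Finset.sum_congr rfl fun n _ => ?_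
          rw [h3 n n]
          refine Finset.sum_congr rfl fun c _ => ?_
          rw [A2NB_law hU hV hf hm hC hC' hl hx]
      _ = ∑ c, ∑ e, (∑ n, jm f x e n * K n c) * ∑ a, ∑ b,
            jm f x a i * jm f x b j * A2NB_riem C' (f x) c b e a := by
          rw [Finset.sum_comm]
          refine Finset.sum_congr rfl fun c _ => ?_
          simp only [Finset.mul_sum, Finset.sum_mul]
          rw [Finset.sum_comm]
          refine Finset.sum_congr rfl fun e _ => ?_
          rw [Finset.sum_comm]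
          refine Finset.sum_congr rfl fun a _ => ?_
          rw [Finset.sum_comm]
          exact Finset.sum_congr rfl fun _ _ => Finset.sum_congr rfl fun _ _ => by ring
      _ = ∑ a, ∑ b, jm f x a i * jm f x b j * ricC C' (f x) a b := by
          simp only [h2, ite_mul, one_mul, zero_mul, Finset.sum_ite_eq', Finset.mem_univ, if_true]
          simp only [A2NB_ric_eq, Finset.mul_sum]
          rw [Finset.sum_comm]
          exact Finset.sum_congr rfl fun _ _ => Finset.sum_comm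
  ext i j
  rw [key i j]
  simp only [Matrix.mul_apply, Matrix.transpose_apply, Finset.sum_mul]
  rw [Finset.sum_comm]
  exact Finset.sum_congr rfl fun _ _ => Finset.sum_congr rfl fun _ _ => by ring

theorem Pull.ricci (h : Pull f G G' U V) {x : E3} (hx : x ∈ U) :
    ricci G x = (jm f x)ᵀ * ricci G' (f x) * jm f x := by
  have h0 : ∀ y ∈ U, (G y).det ≠ 0 := fun y hy => (h.posDef hy).det_pos.ne'
  have h0' : ∀ y ∈ V, (G' y).det ≠ 0 := fun y hy => (h.G_pos y hy).det_pos.ne'
  rw [ricci_eq_ricC, ricci_eq_ricC]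
  exact ricC_pull h.U_open h.V_open h.f_smooth h.maps h.det
    (fun k i j => chr_contDiffOn h.U_open h.G_contDiffOn h0 k i j)
    (fun k i j => chr_contDiffOn h.V_open h.G_smooth h0' k i j) (fun y hy => h.chr hy) hx

end Pool.Agent.RFS.AA
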