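import Pool.Agent.RFS.A2CT

/-!
RFS chunk (a2), module RX: the embedding and the local retractions in charts.

Proofs.
* emb_rep: Φ.smooth (rep Φ.φ e x = Φ.φ (e.1.symm x)).
* cov_mem: if rep Φ.φ e x ∈ U a (x ∈ e.target), then q = e.symm x satisfies Φ.φ q ∈ U a, so
  q ∈ (ch a).source and r a (Φ.φ q) = ch a q = trans e (ch a) x.
* the set {x ∈ e.target | rep Φ.φ e x ∈ U a} is open (continuity on the open set e.target), contained in
  tdom e (ch a), and r a ∘ rep Φ.φ e = trans e (ch a) on it.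
* dr_fr: differentiate this identity: fderiv (r a) (rep φ e x) (fr φ e x i) = pdv i (trans e (ch a)) x, whose
  k-th coordinate is jac e (ch a) x k i.
* gram_io: bil (io a y h) v w = sum_ij h i j (Dr(v)_i Dr(w)_j + Dr(w)_i Dr(v)_j) / 2 (expand v, w in the standard
  basis, linearity of Dr = fderiv (r a) y); with v = fr e x i', w = fr e x j' and h symmetric this is
  (Jᵀ h J) i' j', J = jac e (ch a) x.
* emb_injective: Dr (fr φ e x i) = e_i with e = ch a, or with Φ.retr for the chart e itself: the three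
  vectors fr Φ.φ e x i are linearly independent.
-/

open scoped Manifold ContDiff Matrix
open Set

namespace Pool.Agent.RFS.AA

variable {M : Type*} [TopologicalSpace M] [ChartedSpace E3 M] [IsManifold (𝓡 3) ∞ M] {N : ℕ}
  {Φ : Emb M N}

omit [IsManifold (𝓡 3) ∞ M] in
theorem emb_rep (Φ : Emb M N) (e : Ch M) : ContDiffOn ℝ ∞ (rep Φ.φ e) e.1.target := Φ.smooth e

omit [IsManifold (𝓡 3) ∞ M] in
theorem cov_mem (𝒞 : Cov Φ) (a : Fin 𝒞.n) (e : Ch M) {x : E3} (hx : x ∈ e.1.target)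
    (h : rep Φ.φ e x ∈ 𝒞.U a) :
    x ∈ tdom e (𝒞.ch a) ∧ 𝒞.r a (rep Φ.φ e x) = trans e (𝒞.ch a) x := by
  obtain ⟨h1, h2⟩ := 𝒞.r_eq a (e.1.symm x) h
  exact ⟨⟨hx, h1⟩, h2⟩

omit [IsManifold (𝓡 3) ∞ M] in
/-- Points of `M` in the chart `a`: `φ (r a y) = y`. -/
theorem cov_rep (𝒞 : Cov Φ) (a : Fin 𝒞.n) (p : M) (h : Φ.φ p ∈ 𝒞.U a) :
    rep Φ.φ (𝒞.ch a) (𝒞.r a (Φ.φ p)) = Φ.φ p := by
  obtain ⟨h1, h2⟩ := 𝒞.r_eq a p h
  unfold rep
  rw [h2, (𝒞.ch a).1.left_inv h1]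

omit [IsManifold (𝓡 3) ∞ M] in
/-- the derivative of a composition which is known near a point -/
private theorem rx_comp' {F : Type*} [NormedAddCommGroup F] [NormedSpace ℝ F]
    (Φ : Emb M N) (e : Ch M) {x : E3} (hx : x ∈ e.1.target) {U : Set (EN N)} (hU : IsOpen U)
    {r : EN N → F} (hr : ContDiffOn ℝ ∞ r U) (h : rep Φ.φ e x ∈ U) {T : E3 → F}
    (hT : ∀ y ∈ e.1.target, rep Φ.φ e y ∈ U → r (rep Φ.φ e y) = T y) :
    HasFDerivAt T ((fderiv ℝ r (rep Φ.φ e x)).comp (fderiv ℝ (rep Φ.φ e) x)) x := by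
  have hc : ContDiffAt ℝ ∞ (rep Φ.φ e) x :=
    (Φ.smooth e).contDiffAt (e.1.open_target.mem_nhds hx)
  have hd : HasFDerivAt (rep Φ.φ e) (fderiv ℝ (rep Φ.φ e) x) x :=
    (hc.differentiableAt (by simp)).hasFDerivAt
  have hr' : HasFDerivAt r (fderiv ℝ r (rep Φ.φ e x)) (rep Φ.φ e x) :=
    ((hr.contDiffAt (hU.mem_nhds h)).differentiableAt (by simp)).hasFDerivAt
  refine (hr'.comp x hd).congr_of_eventuallyEq ?_
  filter_upwards [e.1.open_target.mem_nhds hx, hc.continuousAt.preimage_mem_nhds (hU.mem_nhds h)]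
    with y hy1 hy2
  exact (hT y hy1 hy2).symm

theorem dr_fr (𝒞 : Cov Φ) (a : Fin 𝒞.n) (e : Ch M) {x : E3} (hx : x ∈ e.1.target)
    (h : rep Φ.φ e x ∈ 𝒞.U a) (i k : Fin 3) :
    fderiv ℝ (𝒞.r a) (rep Φ.φ e x) (fr Φ.φ e x i) k = jac e (𝒞.ch a) x k i := by
  have h1 := rx_comp' Φ e hx (𝒞.U_open a) (𝒞.r_smooth a) h (T := trans e (𝒞.ch a))
    (fun y hy1 hy2 => (cov_mem 𝒞 a e hy1 hy2).2)
  have h2 : HasFDerivAt (fun y => trans e (𝒞.ch a) y k)
      ((EuclideanSpace.proj k).comp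
        ((fderiv ℝ (𝒞.r a) (rep Φ.φ e x)).comp (fderiv ℝ (rep Φ.φ e) x))) x :=
    (EuclideanSpace.proj (𝕜 := ℝ) k).hasFDerivAt.comp x h1
  unfold jac pd
  rw [Matrix.of_apply, h2.fderiv]
  rfl

omit [IsManifold (𝓡 3) ∞ M] in
private theorem rx_bil (𝒞 : Cov Φ) (a : Fin 𝒞.n) (y : EN N) {H : Mat3} (hH : Hᵀ = H)
    (v w : EN N) : bil (𝒞.io a y H) v w
      = ∑ i, ∑ j, H i j * (fderiv ℝ (𝒞.r a) y v i * fderiv ℝ (𝒞.r a) y w j) := by
  have hex : ∀ (v : EN N) (i : Fin 3), fderiv ℝ (𝒞.r a) y v i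
      = ∑ b, v b * fderiv ℝ (𝒞.r a) y (EuclideanSpace.single b 1) i := by
    intro v i
    have h1 : v = ∑ b, v b • EuclideanSpace.single b (1 : ℝ) := by
      ext c
      simp [Finset.sum_apply, Pi.single_apply]
    conv_lhs => rw [h1]
    rw [map_sum]
    simp
  have key : ∀ v w : EN N, ∑ b, ∑ c, (𝒞.io a y H) (b, c) * (v b * w c)
      = ∑ i, ∑ j, H i j * (fderiv ℝ (𝒞.r a) y v i * fderiv ℝ (𝒞.r a) y w j) := by
    intro v w
    have h1 : ∀ b c, (𝒞.io a y H) (b, c) = ∑ i, ∑ j, H i j *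
        (fderiv ℝ (𝒞.r a) y (EuclideanSpace.single b 1) i
          * fderiv ℝ (𝒞.r a) y (EuclideanSpace.single c 1) j) := fun b c => rfl
    simp only [h1, hex v, hex w, Finset.sum_mul, Finset.mul_sum]
    calc _ = ∑ b, ∑ i, ∑ c, ∑ j, H i j *
          (fderiv ℝ (𝒞.r a) y (EuclideanSpace.single b 1) i
            * fderiv ℝ (𝒞.r a) y (EuclideanSpace.single c 1) j) * (v b * w c) :=
          Finset.sum_congr rfl fun b _ => Finset.sum_comm
      _ = ∑ i, ∑ b, ∑ c, ∑ j, H i j *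
          (fderiv ℝ (𝒞.r a) y (EuclideanSpace.single b 1) i
            * fderiv ℝ (𝒞.r a) y (EuclideanSpace.single c 1) j) * (v b * w c) :=
          Finset.sum_comm
      _ = ∑ i, ∑ b, ∑ j, ∑ c, H i j *
          (fderiv ℝ (𝒞.r a) y (EuclideanSpace.single b 1) i
            * fderiv ℝ (𝒞.r a) y (EuclideanSpace.single c 1) j) * (v b * w c) :=
          Finset.sum_congr rfl fun i _ => Finset.sum_congr rfl fun b _ => Finset.sum_comm
      _ = ∑ i, ∑ j, ∑ b, ∑ c, H i j *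
          (fderiv ℝ (𝒞.r a) y (EuclideanSpace.single b 1) i
            * fderiv ℝ (𝒞.r a) y (EuclideanSpace.single c 1) j) * (v b * w c) :=
          Finset.sum_congr rfl fun i _ => Finset.sum_comm
      _ = _ := by
          refine Finset.sum_congr rfl fun i _ => Finset.sum_congr rfl fun j _ => ?_
          rw [Finset.sum_comm]
          refine Finset.sum_congr rfl fun b _ => Finset.sum_congr rfl fun c _ => ?_
          ring
  have h2 : bil (𝒞.io a y H) v w = (∑ b, ∑ c, (𝒞.io a y H) (b, c) * (v b * w c)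
      + ∑ b, ∑ c, (𝒞.io a y H) (b, c) * (w b * v c)) / 2 := by
    unfold bil
    rw [← Finset.sum_add_distrib, Finset.sum_div]
    refine Finset.sum_congr rfl fun b _ => ?_
    rw [← Finset.sum_add_distrib, Finset.sum_div]
    refine Finset.sum_congr rfl fun c _ => ?_
    ring
  have h3 : ∑ i, ∑ j, H i j * (fderiv ℝ (𝒞.r a) y w i * fderiv ℝ (𝒞.r a) y v j)
      = ∑ i, ∑ j, H i j * (fderiv ℝ (𝒞.r a) y v i * fderiv ℝ (𝒞.r a) y w j) := by
    rw [Finset.sum_comm]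
    refine Finset.sum_congr rfl fun j _ => Finset.sum_congr rfl fun i _ => ?_
    have : H i j = H j i := by
      conv_lhs => rw [← hH]
      rfl
    rw [this]
    ring
  rw [h2, key, key, h3]
  ring

theorem gram_io (𝒞 : Cov Φ) (a : Fin 𝒞.n) (e : Ch M) {x : E3} (hx : x ∈ e.1.target)
    (h : rep Φ.φ e x ∈ 𝒞.U a) {H : Mat3} (hH : Hᵀ = H) :
    gram (𝒞.io a (rep Φ.φ e x) H) (fr Φ.φ e x)
      = (jac e (𝒞.ch a) x)ᵀ * H * jac e (𝒞.ch a) x := by
  ext i j
  have h1 : gram (𝒞.io a (rep Φ.φ e x) H) (fr Φ.φ e x) i j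
      = bil (𝒞.io a (rep Φ.φ e x) H) (fr Φ.φ e x i) (fr Φ.φ e x j) := rfl
  rw [h1, rx_bil 𝒞 a _ hH]
  simp only [dr_fr 𝒞 a e hx h, Matrix.mul_apply, Matrix.transpose_apply, Finset.sum_mul]
  rw [Finset.sum_comm]
  refine Finset.sum_congr rfl fun k _ => Finset.sum_congr rfl fun l _ => ?_
  ring

omit [IsManifold (𝓡 3) ∞ M] in
theorem emb_injective (Φ : Emb M N) (e : Ch M) {x : E3} (hx : x ∈ e.1.target) :
    Function.Injective (fderiv ℝ (rep Φ.φ e) x) := by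
  obtain ⟨U, r, hU, hp, hr, -, hq⟩ := Φ.retr e (e.1.symm x) (e.1.map_target hx)
  have h1 := rx_comp' Φ e hx hU hr hp (T := fun y => y)
    (fun y hy1 hy2 => by
      have := (hq (e.1.symm y) hy2).2
      unfold rep
      rw [this, e.1.right_inv hy1])
  have h2 : (fderiv ℝ r (rep Φ.φ e x)).comp (fderiv ℝ (rep Φ.φ e) x)
      = ContinuousLinearMap.id ℝ E3 := h1.unique (hasFDerivAt_id x)
  intro v w hvw
  have h3 := congrArg (fun L : E3 →L[ℝ] E3 => L v) h2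
  have h4 := congrArg (fun L : E3 →L[ℝ] E3 => L w) h2
  simp only [ContinuousLinearMap.comp_apply, ContinuousLinearMap.id_apply] at h3 h4
  rw [← h3, ← h4, hvw]

omit [IsManifold (𝓡 3) ∞ M] in
theorem fr_linearIndependent (Φ : Emb M N) (e : Ch M) {x : E3} (hx : x ∈ e.1.target) :
    LinearIndependent ℝ (fr Φ.φ e x) := by
  have h1 : LinearIndependent ℝ (fun i : Fin 3 => bv i) := by
    have h0 : (fun i : Fin 3 => bv i) = ⇑(EuclideanSpace.basisFun (Fin 3) ℝ) := by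
      funext i
      simp [bv]
    rw [h0]
    exact (EuclideanSpace.basisFun (Fin 3) ℝ).orthonormal.linearIndependent
  have h2 := h1.map' (fderiv ℝ (rep Φ.φ e) x).toLinearMap
    (LinearMap.ker_eq_bot.mpr (emb_injective Φ e hx))
  exact h2

end Pool.Agent.RFS.AA
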