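import Pool.Agent.RFS.A2IV
import Pool.Agent.RFS.A2BL

/-!
RFS chunk (a2), module SM: lowJ of smooth families is smooth.

Proof. lowJ is built from sums and products of the entries of: gram u A, its inverse, gj1, gj2 (which
are sums of bil of the data, smooth by A2BL.bil_contDiff), C, C1. Use A2IV.inv_contDiffOn for the
inverse of z -> gram (u z) (A z), ContDiffOn.sum, ContDiffOn.mul. First prove the lemma for rdtJ with
arbitrary smooth matrix functions G, G1, G2, C, C1.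
-/

open scoped Manifold ContDiff Matrix
open Set

namespace Pool.Agent.RFS.AA

variable {X : Type*} [NormedAddCommGroup X] [NormedSpace ℝ X] {S : Set X} {N : ℕ}

private theorem A2SM_mul3 {I K : X → Mat3} (hI : ∀ i j, ContDiffOn ℝ ∞ (fun z => I z i j) S)
    (hK : ∀ i j, ContDiffOn ℝ ∞ (fun z => K z i j) S) (k l : Fin 3) :
    ContDiffOn ℝ ∞ (fun z => (I z * K z * I z) k l) S := by
  simp only [Matrix.mul_apply]
  exact ContDiffOn.sum fun a _ => (ContDiffOn.sum fun c _ => (hI k c).mul (hK c a)).mul (hI a l)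

private theorem A2SM_chrJ {G : X → Mat3} {G1 : X → Fin 3 → Mat3}
    (hI : ∀ i j, ContDiffOn ℝ ∞ (fun z => (G z)⁻¹ i j) S)
    (hG1 : ∀ p i j, ContDiffOn ℝ ∞ (fun z => G1 z p i j) S) (k i j : Fin 3) :
    ContDiffOn ℝ ∞ (fun z => chrJ (G z) (G1 z) k i j) S := by
  unfold chrJ
  exact contDiffOn_const.mul (ContDiffOn.sum fun l _ =>
    (hI k l).mul (((hG1 i j l).add (hG1 j i l)).sub (hG1 l i j)))

private theorem A2SM_dchrJ {G : X → Mat3} {G1 : X → Fin 3 → Mat3} {G2 : X → Fin 3 → Fin 3 → Mat3}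
    (hI : ∀ i j, ContDiffOn ℝ ∞ (fun z => (G z)⁻¹ i j) S)
    (hG1 : ∀ p i j, ContDiffOn ℝ ∞ (fun z => G1 z p i j) S)
    (hG2 : ∀ p q i j, ContDiffOn ℝ ∞ (fun z => G2 z p q i j) S) (p k i j : Fin 3) :
    ContDiffOn ℝ ∞ (fun z => dchrJ (G z) (G1 z) (G2 z) p k i j) S := by
  unfold dchrJ
  exact contDiffOn_const.mul (ContDiffOn.sum fun l _ =>
    ((hI k l).mul (((hG2 p i j l).add (hG2 p j i l)).sub (hG2 p l i j))).sub
      ((A2SM_mul3 hI (hG1 p) k l).mul (((hG1 i j l).add (hG1 j i l)).sub (hG1 l i j))))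

private theorem A2SM_bil {u : X → FN N} {v w : X → EN N} (hu : ContDiffOn ℝ ∞ u S)
    (hv : ContDiffOn ℝ ∞ v S) (hw : ContDiffOn ℝ ∞ w S) :
    ContDiffOn ℝ ∞ (fun z => bil (u z) (v z) (w z)) S :=
  bil_contDiff.comp_contDiffOn (hu.prodMk (hv.prodMk hw))

theorem rdtJ_contDiffOn {G : X → Mat3} {G1 : X → Fin 3 → Mat3} {G2 : X → Fin 3 → Fin 3 → Mat3}
    {C : X → Con} {C1 : X → Fin 3 → Con} (hG : ∀ i j, ContDiffOn ℝ ∞ (fun z => G z i j) S)
    (hG1 : ∀ p i j, ContDiffOn ℝ ∞ (fun z => G1 z p i j) S)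
    (hG2 : ∀ p q i j, ContDiffOn ℝ ∞ (fun z => G2 z p q i j) S)
    (hC : ∀ k i j, ContDiffOn ℝ ∞ (fun z => C z k i j) S)
    (hC1 : ∀ l k i j, ContDiffOn ℝ ∞ (fun z => C1 z l k i j) S)
    (h0 : ∀ z ∈ S, (G z).det ≠ 0) (i j : Fin 3) :
    ContDiffOn ℝ ∞ (fun z => rdtJ (G z) (G1 z) (G2 z) (C z) (C1 z) i j) S := by
  have hI : ∀ i j, ContDiffOn ℝ ∞ (fun z => (G z)⁻¹ i j) S := inv_contDiffOn hG h0
  have hc := A2SM_chrJ hI hG1
  have hdc := A2SM_dchrJ hI hG1 hG2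
  have hm := fun p => A2SM_mul3 hI (hG1 p)
  have hw : ∀ k, ContDiffOn ℝ ∞ (fun z => wJ (G z) (G1 z) (C z) k) S := by
    intro k
    unfold wJ
    exact ContDiffOn.sum fun p _ => ContDiffOn.sum fun q _ =>
      (hI p q).mul ((hc k p q).sub (hC k p q))
  have hdw : ∀ i k, ContDiffOn ℝ ∞ (fun z => dwJ (G z) (G1 z) (G2 z) (C z) (C1 z) i k) S := by
    intro i k
    unfold dwJ
    exact ContDiffOn.sum fun p _ => ContDiffOn.sum fun q _ =>
      ((hI p q).mul ((hdc i k p q).sub (hC1 i k p q))).sub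
        ((hm i p q).mul ((hc k p q).sub (hC k p q)))
  have hr : ∀ j k, ContDiffOn ℝ ∞ (fun z => ricJ (G z) (G1 z) (G2 z) j k) S := by
    intro j k
    show ContDiffOn ℝ ∞ (fun z => ∑ i, (dchrJ (G z) (G1 z) (G2 z) i i j k
      - dchrJ (G z) (G1 z) (G2 z) j i i k
      + ∑ m, (chrJ (G z) (G1 z) i i m * chrJ (G z) (G1 z) m j k
        - chrJ (G z) (G1 z) i j m * chrJ (G z) (G1 z) m i k))) S
    exact ContDiffOn.sum fun i _ => ((hdc i i j k).sub (hdc j i i k)).add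
      (ContDiffOn.sum fun m _ => ((hc i i m).mul (hc m j k)).sub ((hc i j m).mul (hc m i k)))
  show ContDiffOn ℝ ∞ (fun z => -2 * ricJ (G z) (G1 z) (G2 z) i j
    + ∑ k, (wJ (G z) (G1 z) (C z) k * G1 z k i j
      + G z k j * dwJ (G z) (G1 z) (G2 z) (C z) (C1 z) i k
      + G z i k * dwJ (G z) (G1 z) (G2 z) (C z) (C1 z) j k)) S
  exact (contDiffOn_const.mul (hr i j)).add (ContDiffOn.sum fun k _ =>
    (((hw k).mul (hG1 k i j)).add ((hG k j).mul (hdw i k))).add ((hG i k).mul (hdw j k)))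

theorem lowJ_contDiffOn {u : X → FN N} {q : X → Fin 3 → FN N} {A : X → Fin 3 → EN N}
    {A2 : X → Fin 3 → Fin 3 → EN N} {A3 : X → Fin 3 → Fin 3 → Fin 3 → EN N}
    {C : X → Con} {C1 : X → Fin 3 → Con} (hu : ContDiffOn ℝ ∞ u S)
    (hq : ∀ k, ContDiffOn ℝ ∞ (fun z => q z k) S) (hA : ∀ i, ContDiffOn ℝ ∞ (fun z => A z i) S)
    (hA2 : ∀ p i, ContDiffOn ℝ ∞ (fun z => A2 z p i) S)
    (hA3 : ∀ p r i, ContDiffOn ℝ ∞ (fun z => A3 z p r i) S)
    (hC : ∀ k i j, ContDiffOn ℝ ∞ (fun z => C z k i j) S)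
    (hC1 : ∀ l k i j, ContDiffOn ℝ ∞ (fun z => C1 z l k i j) S)
    (h0 : ∀ z ∈ S, (gram (u z) (A z)).det ≠ 0) (i j : Fin 3) :
    ContDiffOn ℝ ∞ (fun z => lowJ (u z) (q z) (A z) (A2 z) (A3 z) (C z) (C1 z) i j) S := by
  have hG : ∀ i j, ContDiffOn ℝ ∞ (fun z => gram (u z) (A z) i j) S :=
    fun i j => A2SM_bil hu (hA i) (hA j)
  have hG1 : ∀ p i j, ContDiffOn ℝ ∞ (fun z => gj1 (u z) (q z) (A z) (A2 z) p i j) S :=
    fun p i j => ((A2SM_bil (hq p) (hA i) (hA j)).add (A2SM_bil hu (hA2 p i) (hA j))).add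
      (A2SM_bil hu (hA i) (hA2 p j))
  have hG2 : ∀ p r i j, ContDiffOn ℝ ∞
      (fun z => gj2 (u z) (q z) (A z) (A2 z) (A3 z) p r i j) S :=
    fun p r i j =>
      (((A2SM_bil (hq r) (hA2 p i) (hA j)).add (A2SM_bil (hq r) (hA i) (hA2 p j))).add
        (((A2SM_bil (hq p) (hA2 r i) (hA j)).add (A2SM_bil hu (hA3 p r i) (hA j))).add
          (A2SM_bil hu (hA2 r i) (hA2 p j)))).add
      (((A2SM_bil (hq p) (hA i) (hA2 r j)).add (A2SM_bil hu (hA2 p i) (hA2 r j))).add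
        (A2SM_bil hu (hA i) (hA3 p r j)))
  have hI : ∀ i j, ContDiffOn ℝ ∞ (fun z => (gram (u z) (A z))⁻¹ i j) S := inv_contDiffOn hG h0
  have h1 := rdtJ_contDiffOn hG hG1 hG2 hC hC1 h0 i j
  show ContDiffOn ℝ ∞ (fun z => rdtJ (gram (u z) (A z)) (gj1 (u z) (q z) (A z) (A2 z))
    (gj2 (u z) (q z) (A z) (A2 z) (A3 z)) (C z) (C1 z) i j
    + ∑ p, ∑ r, (gram (u z) (A z))⁻¹ p r * ∑ k, C z k p r * bil (q z k) (A z i) (A z j)) S
  exact h1.add (ContDiffOn.sum fun p _ => ContDiffOn.sum fun r _ => (hI p r).mul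
    (ContDiffOn.sum fun k _ => (hC k p r).mul (A2SM_bil (hq k) (hA i) (hA j))))

end Pool.Agent.RFS.AA
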