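import Pool.Agent.RFS.A2RX
import Pool.Agent.RFS.A2SM
import Pool.Agent.RFS.A2CH

/-!
RFS chunk (a2), module SG: the coefficients of the parabolic system are smooth on the open set O.

Proofs.
* O_open: the complement is the union over a of {z | z.1 ∈ tsupport χ_a and G a z.1 z.2 is not PosDef}. For
  z0 in O: if z0.1 ∉ tsupport χ_a, the same holds near z0. If z0.1 ∈ tsupport χ_a ⊆ U a, then z -> G a z.1 z.2 is
  continuous near z0 (U a open, smooth by A_contDiffOn) and PosDef is an open condition: for symmetric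
  3 x 3 matrices use Sylvester (cholL_pos and its converse), or: the quadratic form is ≥ c > 0 on the unit
  sphere and the entries are close. (G a is always symmetric, gram_transpose.)
* A_contDiffOn etc: y ↦ fr φ (ch a) (r a y) i is ContDiffOn on U a: fr φ e is smooth on e.target
  (A2GJ.pdv_contDiffOn twice/three times) composed with r a (maps U a to the target).
* σ, β, Q: local smoothness at z0 ∈ O, for every term a: if z0.1 ∉ tsupport χ_a then the term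
  vanishes near z0 (χ_a = 0 near z0.1); if z0.1 ∈ tsupport χ_a then z0 lies in the open set
  {z.1 ∈ U a, G a z.1 z.2 PosDef} where everything is smooth: A2CH.sq_contDiffOn, A2IV.inv_contDiffOn,
  A2SM.lowJ_contDiffOn, bc and bc1 smooth on targets (A2CT.bc_contDiffOn, pd_contDiffOn), io: fderiv (r a) is
  smooth on U a. In Q the directions q use all σ c, which are smooth on O by the first part.
  (Finite sums: ContDiffAt.sum / ContDiffOn.sum; ContDiffOn of an open set is pointwise ContDiffAt.)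
-/

open scoped Manifold ContDiff Matrix
open Set

namespace Pool.Agent.RFS.AA

variable {M : Type*} [TopologicalSpace M] [ChartedSpace E3 M] [IsManifold (𝓡 3) ∞ M] {N : ℕ}
  {Φ : Emb M N}

private theorem sg_fr (Φ : Emb M N) (e : Ch M) (i : Fin 3) :
    ContDiffOn ℝ ∞ (fun x => fr Φ.φ e x i) e.1.target :=
  pdv_contDiffOn e.1.open_target (emb_rep Φ e) i

private theorem sg_fr2 (Φ : Emb M N) (e : Ch M) (p i : Fin 3) :
    ContDiffOn ℝ ∞ (fun x => fr2 Φ.φ e x p i) e.1.target :=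
  pdv_contDiffOn e.1.open_target (sg_fr Φ e i) p

private theorem sg_fr3 (Φ : Emb M N) (e : Ch M) (p r i : Fin 3) :
    ContDiffOn ℝ ∞ (fun x => fr3 Φ.φ e x p r i) e.1.target :=
  pdv_contDiffOn e.1.open_target (sg_fr2 Φ e r i) p

theorem Cov.A_contDiffOn (𝒞 : Cov Φ) (a : Fin 𝒞.n) (i : Fin 3) :
    ContDiffOn ℝ ∞ (fun y => 𝒞.A a y i) (𝒞.U a) :=
  (sg_fr Φ (𝒞.ch a) i).comp (𝒞.r_smooth a) (𝒞.r_maps a)

theorem Cov.A2_contDiffOn (𝒞 : Cov Φ) (a : Fin 𝒞.n) (p i : Fin 3) :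
    ContDiffOn ℝ ∞ (fun y => fr2 Φ.φ (𝒞.ch a) (𝒞.r a y) p i) (𝒞.U a) :=
  (sg_fr2 Φ (𝒞.ch a) p i).comp (𝒞.r_smooth a) (𝒞.r_maps a)

theorem Cov.A3_contDiffOn (𝒞 : Cov Φ) (a : Fin 𝒞.n) (p r i : Fin 3) :
    ContDiffOn ℝ ∞ (fun y => fr3 Φ.φ (𝒞.ch a) (𝒞.r a y) p r i) (𝒞.U a) :=
  (sg_fr3 Φ (𝒞.ch a) p r i).comp (𝒞.r_smooth a) (𝒞.r_maps a)

theorem Cov.io_contDiffOn (𝒞 : Cov Φ) (a : Fin 𝒞.n) {X : Type*} [NormedAddCommGroup X]
    [NormedSpace ℝ X] {S : Set X} {y : X → EN N} {h : X → Mat3} (hy : ContDiffOn ℝ ∞ y S)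
    (hm : MapsTo y S (𝒞.U a)) (hh : ∀ i j, ContDiffOn ℝ ∞ (fun z => h z i j) S) :
    ContDiffOn ℝ ∞ (fun z => 𝒞.io a (y z) (h z)) S := by
  have h1 : ContDiffOn ℝ ∞ (fun x => fderiv ℝ (𝒞.r a) x) (𝒞.U a) :=
    (𝒞.r_smooth a).fderiv_of_isOpen (𝒞.U_open a) (m := ∞) (by simp)
  have h2 : ContDiffOn ℝ ∞ (fun z => fderiv ℝ (𝒞.r a) (y z)) S := h1.comp hy hm
  have h3 : ∀ (v : EN N) (i : Fin 3), ContDiffOn ℝ ∞ (fun z => fderiv ℝ (𝒞.r a) (y z) v i) S := by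
    intro v i
    exact (contDiffOn_euclidean.1 (h2.clm_apply contDiffOn_const)) i
  rw [contDiffOn_euclidean]
  intro c
  show ContDiffOn ℝ ∞ (fun z => ∑ i, ∑ j, h z i j *
      (fderiv ℝ (𝒞.r a) (y z) (EuclideanSpace.single c.1 1) i
        * fderiv ℝ (𝒞.r a) (y z) (EuclideanSpace.single c.2 1) j)) S
  exact ContDiffOn.sum fun i _ => ContDiffOn.sum fun j _ =>
    (hh i j).mul ((h3 _ i).mul (h3 _ j))

private theorem sg_posDef {G : Mat3} (hs : Gᵀ = G) (h1 : 0 < G 0 0)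
    (h2 : 0 < G 1 1 - G 1 0 ^ 2 / G 0 0)
    (h3 : 0 < G 2 2 - G 2 0 ^ 2 / G 0 0
      - (G 2 1 - G 2 0 * G 1 0 / G 0 0) ^ 2 / (G 1 1 - G 1 0 ^ 2 / G 0 0)) : G.PosDef := by
  have e01 : G 0 1 = G 1 0 := congrFun (congrFun hs 1) 0
  have e02 : G 0 2 = G 2 0 := congrFun (congrFun hs 2) 0
  have e12 : G 1 2 = G 2 1 := congrFun (congrFun hs 2) 1
  refine Matrix.PosDef.of_dotProduct_mulVec_pos ?_ ?_
  · have h4 : Gᴴ = Gᵀ := by
      ext i j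
      simp [Matrix.conjTranspose_apply]
    rw [Matrix.IsHermitian, h4, hs]
  · intro x hx
    have key : star x ⬝ᵥ (G *ᵥ x) = G 0 0 * (x 0 + (G 1 0 * x 1 + G 2 0 * x 2) / G 0 0) ^ 2
        + (G 1 1 - G 1 0 ^ 2 / G 0 0) * (x 1 + (G 2 1 - G 2 0 * G 1 0 / G 0 0) * x 2
          / (G 1 1 - G 1 0 ^ 2 / G 0 0)) ^ 2
        + (G 2 2 - G 2 0 ^ 2 / G 0 0
          - (G 2 1 - G 2 0 * G 1 0 / G 0 0) ^ 2 / (G 1 1 - G 1 0 ^ 2 / G 0 0)) * x 2 ^ 2 := by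
      simp only [dotProduct, Matrix.mulVec, Fin.sum_univ_three, Pi.star_apply, star_trivial]
      rw [e01, e02, e12]
      have hb := h2.ne'
      set b := G 1 1 - G 1 0 ^ 2 / G 0 0 with hbdef
      have hG11 : G 1 1 = b + G 1 0 ^ 2 / G 0 0 := by rw [hbdef]; ring
      rw [hG11]
      have ha := h1.ne'
      field_simp
      ring
    rw [key]
    by_cases hx2 : x 2 = 0
    · by_cases hx1 : x 1 = 0
      · have hx0 : x 0 ≠ 0 := by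
          intro hx0
          apply hx
          funext i
          fin_cases i
          · exact hx0
          · exact hx1
          · exact hx2
        rw [hx1, hx2]
        have : 0 < x 0 ^ 2 := by positivity
        have := mul_pos h1 this
        simpa using this
      · rw [hx2]
        have h5 : 0 < x 1 ^ 2 := by positivity
        have h6 := mul_pos h2 h5
        have h7 : 0 ≤ G 0 0 * (x 0 + (G 1 0 * x 1 + G 2 0 * 0) / G 0 0) ^ 2 :=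
          mul_nonneg h1.le (sq_nonneg _)
        simp only [mul_zero, zero_div, add_zero] at h7 ⊢
        nlinarith
    · have h5 : 0 < x 2 ^ 2 := by positivity
      have h6 := mul_pos h3 h5
      have h7 : 0 ≤ G 0 0 * (x 0 + (G 1 0 * x 1 + G 2 0 * x 2) / G 0 0) ^ 2 :=
        mul_nonneg h1.le (sq_nonneg _)
      have h8 : 0 ≤ (G 1 1 - G 1 0 ^ 2 / G 0 0) * (x 1 + (G 2 1 - G 2 0 * G 1 0 / G 0 0) * x 2
          / (G 1 1 - G 1 0 ^ 2 / G 0 0)) ^ 2 := mul_nonneg h2.le (sq_nonneg _)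
      linarith

private theorem sg_eventually {X : Type*} [TopologicalSpace X] {G : X → Mat3} {z₀ : X}
    (hc : ∀ i j, ContinuousAt (fun z => G z i j) z₀) (hs : ∀ z, (G z)ᵀ = G z)
    (h : (G z₀).PosDef) : ∀ᶠ z in nhds z₀, (G z).PosDef := by
  obtain ⟨h1, h2, h3⟩ := cholL_pos h
  have c2 : ContinuousAt (fun z => G z 1 1 - G z 1 0 ^ 2 / G z 0 0) z₀ :=
    (hc 1 1).sub (((hc 1 0).pow 2).div (hc 0 0) h1.ne')
  have c3 : ContinuousAt (fun z => G z 2 2 - G z 2 0 ^ 2 / G z 0 0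
      - (G z 2 1 - G z 2 0 * G z 1 0 / G z 0 0) ^ 2 / (G z 1 1 - G z 1 0 ^ 2 / G z 0 0)) z₀ :=
    ((hc 2 2).sub (((hc 2 0).pow 2).div (hc 0 0) h1.ne')).sub
      ((((hc 2 1).sub (((hc 2 0).mul (hc 1 0)).div (hc 0 0) h1.ne')).pow 2).div c2 h2.ne')
  filter_upwards [(hc 0 0).eventually (lt_mem_nhds h1), c2.eventually (lt_mem_nhds h2),
    c3.eventually (lt_mem_nhds h3)] with z a1 a2 a3
  exact sg_posDef (hs z) a1 a2 a3

section local_lemmas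

variable {Z : Type*} [NormedAddCommGroup Z] [NormedSpace ℝ Z] {y : Z → EN N} {u : Z → FN N}

/-- the domain of smoothness of the terms with index `a` -/
private def sgV (𝒞 : Cov Φ) (y : Z → EN N) (u : Z → FN N) (a : Fin 𝒞.n) : Set Z :=
  {z | y z ∈ 𝒞.U a ∧ (𝒞.G a (y z) (u z)).PosDef}

private theorem sg_A (𝒞 : Cov Φ) (hy : ContDiff ℝ ∞ y) (a : Fin 𝒞.n) (i : Fin 3) :
    ContDiffOn ℝ ∞ (fun z => 𝒞.A a (y z) i) (y ⁻¹' 𝒞.U a) :=
  (𝒞.A_contDiffOn a i).comp hy.contDiffOn (fun _ h => h)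

private theorem sg_G (𝒞 : Cov Φ) (hy : ContDiff ℝ ∞ y) (hu : ContDiff ℝ ∞ u) (a : Fin 𝒞.n)
    (i j : Fin 3) : ContDiffOn ℝ ∞ (fun z => 𝒞.G a (y z) (u z) i j) (y ⁻¹' 𝒞.U a) :=
  bil_contDiff.comp_contDiffOn (hu.contDiffOn.prodMk ((sg_A 𝒞 hy a i).prodMk (sg_A 𝒞 hy a j)))

private theorem sg_pre_open (𝒞 : Cov Φ) (hy : ContDiff ℝ ∞ y) (a : Fin 𝒞.n) :
    IsOpen (y ⁻¹' 𝒞.U a) := (𝒞.U_open a).preimage hy.continuous

private theorem sg_V_eventually (𝒞 : Cov Φ) (hy : ContDiff ℝ ∞ y) (hu : ContDiff ℝ ∞ u)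
    (a : Fin 𝒞.n) {z₀ : Z} (h1 : y z₀ ∈ 𝒞.U a) (h2 : (𝒞.G a (y z₀) (u z₀)).PosDef) :
    ∀ᶠ z in nhds z₀, (𝒞.G a (y z) (u z)).PosDef := by
  have h3 : ∀ i j, ContinuousAt (fun z => 𝒞.G a (y z) (u z) i j) z₀ := fun i j =>
    ((sg_G 𝒞 hy hu a i j).continuousOn).continuousAt ((sg_pre_open 𝒞 hy a).mem_nhds h1)
  exact sg_eventually (G := fun z => 𝒞.G a (y z) (u z)) h3 (fun z => gram_transpose _ _) h2

private theorem sg_V_open (𝒞 : Cov Φ) (hy : ContDiff ℝ ∞ y) (hu : ContDiff ℝ ∞ u)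
    (a : Fin 𝒞.n) : IsOpen (sgV 𝒞 y u a) := by
  rw [isOpen_iff_mem_nhds]
  rintro z₀ ⟨h1, h2⟩
  filter_upwards [(sg_pre_open 𝒞 hy a).mem_nhds h1, sg_V_eventually 𝒞 hy hu a h1 h2] with z a1 a2
  exact ⟨a1, a2⟩

private theorem sg_O_eventually (𝒞 : Cov Φ) (hy : ContDiff ℝ ∞ y) (hu : ContDiff ℝ ∞ u) {z₀ : Z}
    (h : (y z₀, u z₀) ∈ 𝒞.O) : ∀ᶠ z in nhds z₀, (y z, u z) ∈ 𝒞.O := by
  have h' : ∀ a : Fin 𝒞.n, ∀ᶠ z in nhds z₀,
      (y z ∈ tsupport (𝒞.χ a) → (𝒞.G a (y z) (u z)).PosDef) := by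
    intro a
    by_cases ha : y z₀ ∈ tsupport (𝒞.χ a)
    · filter_upwards [sg_V_eventually 𝒞 hy hu a (𝒞.χ_supp a ha) (h a ha)] with z hz _
      exact hz
    · have hopen : IsOpen (y ⁻¹' (tsupport (𝒞.χ a))ᶜ) :=
        (isClosed_tsupport _).isOpen_compl.preimage hy.continuous
      filter_upwards [hopen.mem_nhds ha] with z hz hz'
      exact absurd hz' hz
  filter_upwards [Filter.eventually_all.2 h'] with z hz a
  exact hz a

/-- a term with the factor `χ a` is smooth if it is smooth near the support of `χ a` -/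
private theorem sg_local (𝒞 : Cov Φ) (hy : ContDiff ℝ ∞ y) (a : Fin 𝒞.n) {F : Type*}
    [NormedAddCommGroup F] [NormedSpace ℝ F] {T : Z → F} {V S : Set Z} (hV : IsOpen V)
    (hT : ContDiffOn ℝ ∞ T V) (h1 : ∀ z ∈ S, y z ∈ tsupport (𝒞.χ a) → z ∈ V)
    (h0 : ∀ z, 𝒞.χ a (y z) = 0 → T z = 0) : ContDiffOn ℝ ∞ T S := by
  intro z hz
  apply ContDiffAt.contDiffWithinAt
  by_cases ha : y z ∈ tsupport (𝒞.χ a)
  · exact hT.contDiffAt (hV.mem_nhds (h1 z hz ha))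
  · have hopen : IsOpen (y ⁻¹' (tsupport (𝒞.χ a))ᶜ) :=
      (isClosed_tsupport _).isOpen_compl.preimage hy.continuous
    have hev : T =ᶠ[nhds z] fun _ => (0 : F) := by
      filter_upwards [hopen.mem_nhds ha] with w hw
      exact h0 w (image_eq_zero_of_notMem_tsupport hw)
    exact contDiffAt_const.congr_of_eventuallyEq hev

private theorem sg_chi (𝒞 : Cov Φ) (hy : ContDiff ℝ ∞ y) (a : Fin 𝒞.n) :
    ContDiff ℝ ∞ (fun z => 𝒞.χ a (y z)) := (𝒞.χ_smooth a).comp hy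

private theorem sg_V_sub (𝒞 : Cov Φ) (a : Fin 𝒞.n) : sgV 𝒞 y u a ⊆ y ⁻¹' 𝒞.U a :=
  fun _ h => h.1

private theorem sg_inv (𝒞 : Cov Φ) (hy : ContDiff ℝ ∞ y) (hu : ContDiff ℝ ∞ u) (a : Fin 𝒞.n)
    (i j : Fin 3) : ContDiffOn ℝ ∞ (fun z => (𝒞.G a (y z) (u z))⁻¹ i j) (sgV 𝒞 y u a) :=
  inv_contDiffOn (fun i j => (sg_G 𝒞 hy hu a i j).mono (sg_V_sub 𝒞 a))
    (fun _ hz => hz.2.det_pos.ne') i j

private theorem sg_sigma (𝒞 : Cov Φ) (hy : ContDiff ℝ ∞ y) (hu : ContDiff ℝ ∞ u)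
    (c : Fin 𝒞.n × Fin 3) :
    ContDiffOn ℝ ∞ (fun z => 𝒞.σ c (y z) (u z)) {z | (y z, u z) ∈ 𝒞.O} := by
  apply sg_local 𝒞 hy c.1 (sg_V_open 𝒞 hy hu c.1)
  · have hA : ∀ j, ContDiffOn ℝ ∞ (fun z => 𝒞.A c.1 (y z) j) (sgV 𝒞 y u c.1) := fun j =>
      (sg_A 𝒞 hy c.1 j).mono (sg_V_sub 𝒞 c.1)
    have hs : ∀ i j, ContDiffOn ℝ ∞ (fun z => sq (𝒞.G c.1 (y z) (u z)) i j) (sgV 𝒞 y u c.1) :=
      fun i j => sq_contDiffOn (fun i j => (sg_G 𝒞 hy hu c.1 i j).mono (sg_V_sub 𝒞 c.1))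
        (fun _ hz => hz.2) i j
    exact (sg_chi 𝒞 hy c.1).contDiffOn.smul (ContDiffOn.sum fun j _ => (hs j c.2).smul (hA j))
  · intro z hz hz'
    exact ⟨𝒞.χ_supp c.1 hz', hz c.1 hz'⟩
  · intro z hz
    simp only [Cov.σ, hz, zero_smul]

private theorem sg_bc (𝒞 : Cov Φ) (g₀ : RMetric M) (hy : ContDiff ℝ ∞ y) (a : Fin 𝒞.n)
    (k i j : Fin 3) :
    ContDiffOn ℝ ∞ (fun z => bc g₀ (𝒞.ch a) (𝒞.r a (y z)) k i j) (y ⁻¹' 𝒞.U a) :=
  (bc_contDiffOn g₀ (𝒞.ch a) k i j).comp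
    ((𝒞.r_smooth a).comp hy.contDiffOn (fun _ h => h)) (fun _ h => 𝒞.r_maps a h)

private theorem sg_bc1 (𝒞 : Cov Φ) (g₀ : RMetric M) (hy : ContDiff ℝ ∞ y) (a : Fin 𝒞.n)
    (l k i j : Fin 3) :
    ContDiffOn ℝ ∞ (fun z => bc1 g₀ (𝒞.ch a) (𝒞.r a (y z)) l k i j) (y ⁻¹' 𝒞.U a) :=
  (pd_contDiffOn (𝒞.ch a).1.open_target (bc_contDiffOn g₀ (𝒞.ch a) k i j) l).comp
    ((𝒞.r_smooth a).comp hy.contDiffOn (fun _ h => h)) (fun _ h => 𝒞.r_maps a h)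

end local_lemmas

theorem Cov.O_open (𝒞 : Cov Φ) : IsOpen 𝒞.O := by
  rw [isOpen_iff_mem_nhds]
  intro z₀ hz
  exact sg_O_eventually 𝒞 contDiff_fst contDiff_snd (z₀ := z₀) hz

theorem Cov.σ_contDiffOn (𝒞 : Cov Φ) (c : Fin 𝒞.n × Fin 3) :
    ContDiffOn ℝ ∞ (fun z : EN N × FN N => 𝒞.σ c z.1 z.2) 𝒞.O :=
  sg_sigma 𝒞 contDiff_fst contDiff_snd c

theorem Cov.β_contDiffOn (𝒞 : Cov Φ) (g₀ : RMetric M) :
    ContDiffOn ℝ ∞ (fun z : EN N × FN N => 𝒞.β g₀ z.1 z.2) 𝒞.O := by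
  have hy : ContDiff ℝ ∞ (fun z : EN N × FN N => z.1) := contDiff_fst
  have hu : ContDiff ℝ ∞ (fun z : EN N × FN N => z.2) := contDiff_snd
  refine ContDiffOn.sum fun a _ => ?_
  apply sg_local 𝒞 hy a (sg_V_open 𝒞 hy hu a)
  · have hsub := sg_V_sub (y := fun z : EN N × FN N => z.1) (u := fun z : EN N × FN N => z.2) 𝒞 a
    refine ContDiffOn.smul (𝕜 := ℝ) ((sg_chi 𝒞 hy a).contDiffOn.pow 2) ?_
    refine ContDiffOn.sum fun p _ => ContDiffOn.sum fun q _ => ?_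
    refine ContDiffOn.smul (𝕜 := ℝ) (sg_inv 𝒞 hy hu a p q) ?_
    refine ContDiffOn.sub ?_ (ContDiffOn.sum fun k _ => ?_)
    · exact ((𝒞.A2_contDiffOn a p q).comp hy.contDiffOn (fun _ h => h)).mono hsub
    · exact ((sg_bc 𝒞 g₀ hy a k p q).mono hsub).smul ((sg_A 𝒞 hy a k).mono hsub)
  · intro z hz hz'
    exact ⟨𝒞.χ_supp a hz', hz a hz'⟩
  · intro z hz
    simp only [hz, ne_eq, OfNat.ofNat_ne_zero, not_false_eq_true, zero_pow, zero_smul]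

theorem Cov.Q_contDiffOn (𝒞 : Cov Φ) (g₀ : RMetric M) :
    ContDiffOn ℝ ∞ (fun z : EN N × FN N × (Fin 𝒞.n × Fin 3 → FN N) => 𝒞.Q g₀ z.1 z.2.1 z.2.2)
      {z | (z.1, z.2.1) ∈ 𝒞.O} := by
  have hy : ContDiff ℝ ∞ (fun z : EN N × FN N × (Fin 𝒞.n × Fin 3 → FN N) => z.1) := contDiff_fst
  have hu : ContDiff ℝ ∞ (fun z : EN N × FN N × (Fin 𝒞.n × Fin 3 → FN N) => z.2.1) :=
    contDiff_snd.fst
  have hP : ∀ c, ContDiff ℝ ∞ (fun z : EN N × FN N × (Fin 𝒞.n × Fin 3 → FN N) => z.2.2 c) := by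
    intro c
    exact (contDiff_apply ℝ (FN N) c).comp contDiff_snd.snd
  set S : Set (EN N × FN N × (Fin 𝒞.n × Fin 3 → FN N)) := {z | (z.1, z.2.1) ∈ 𝒞.O} with hS
  have hSo : IsOpen S := by
    rw [isOpen_iff_mem_nhds]
    intro z₀ hz
    exact sg_O_eventually 𝒞 hy hu (z₀ := z₀) hz
  refine ContDiffOn.sum fun a _ => ?_
  apply sg_local 𝒞 hy a ((sg_V_open 𝒞 hy hu a).inter hSo)
  · have hsub : sgV 𝒞 (fun z : EN N × FN N × (Fin 𝒞.n × Fin 3 → FN N) => z.1)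
        (fun z => z.2.1) a ∩ S
        ⊆ (fun z : EN N × FN N × (Fin 𝒞.n × Fin 3 → FN N) => z.1) ⁻¹' 𝒞.U a :=
      fun _ h => h.1.1
    have hσ : ∀ c, ContDiffOn ℝ ∞ (fun z : EN N × FN N × (Fin 𝒞.n × Fin 3 → FN N) =>
        𝒞.σ c z.1 z.2.1) (sgV 𝒞 (fun z : EN N × FN N × (Fin 𝒞.n × Fin 3 → FN N) => z.1)
        (fun z => z.2.1) a ∩ S) := fun c => (sg_sigma 𝒞 hy hu c).mono inter_subset_right
    refine ContDiffOn.smul (𝕜 := ℝ) ((sg_chi 𝒞 hy a).contDiffOn.pow 2) ?_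
    refine 𝒞.io_contDiffOn a hy.contDiffOn hsub (fun i j => ?_)
    refine lowJ_contDiffOn hu.contDiffOn (fun k => ?_) (fun i => (sg_A 𝒞 hy a i).mono hsub)
      (fun p i => ((𝒞.A2_contDiffOn a p i).comp hy.contDiffOn (fun _ h => h)).mono hsub)
      (fun p r i => ((𝒞.A3_contDiffOn a p r i).comp hy.contDiffOn (fun _ h => h)).mono hsub)
      (fun k i j => (sg_bc 𝒞 g₀ hy a k i j).mono hsub)
      (fun l k i j => (sg_bc1 𝒞 g₀ hy a l k i j).mono hsub)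
      (fun z hz => hz.1.2.det_pos.ne') i j
    refine ContDiffOn.sum fun c _ => ?_
    have hb : ContDiffOn ℝ ∞ (fun z : EN N × FN N × (Fin 𝒞.n × Fin 3 → FN N) =>
        bil z.2.1 (𝒞.A a z.1 k) (𝒞.σ c z.1 z.2.1)) (sgV 𝒞 (fun z : EN N × FN N ×
        (Fin 𝒞.n × Fin 3 → FN N) => z.1) (fun z => z.2.1) a ∩ S) :=
      bil_contDiff.comp_contDiffOn
        (hu.contDiffOn.prodMk (((sg_A 𝒞 hy a k).mono hsub).prodMk (hσ c)))
    exact hb.smul (hP c).contDiffOn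
  · intro z hz hz'
    exact ⟨⟨𝒞.χ_supp a hz', hz a hz'⟩, hz⟩
  · intro z hz
    simp only [hz, ne_eq, OfNat.ofNat_ne_zero, not_false_eq_true, zero_pow, zero_smul]

end Pool.Agent.RFS.AA
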