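import Pool.Agent.QPE.WRE
import Pool.Agent.RFS.A2Defs

/-!
RFS chunk (a2), module TE: Theorem E and Theorem L (project QPE, helper26) in the form used here: the
unknown takes values in FN N = EuclideanSpace ℝ (Fin N × Fin N) (resp. in ℝ), the fields are indexed by a finite
type ι.

Proof. K = N * N, Fin K ≃ Fin N × Fin N, m = card ι, Fin m ≃ ι (Fintype.equivFin), the linear isometry
EuclideanSpace ℝ (Fin K) ≃ FN N (LinearIsometryEquiv.piLpCongrLeft). Transport σ, β, Q, u₀ by these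
equivalences to an EDat N K m (QPE/WRA.lean), R as given; exists_esol (δ = 1; the bounds of the derivatives
of u₀: iteratedFDeriv of a smooth function with compact support is continuous with compact support,
hence bounded); transport the solution back. JS (Icc 0 T) univ u is the field joint; chain rule for
fderiv (fderiv (L ∘ w)) = L (fderiv (fderiv w) ..) for a continuous linear equivalence L
(ContinuousLinearEquiv.comp_fderiv, applied twice). For exists_heat: K = 1, target ℝ.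
-/

open scoped Manifold ContDiff Matrix
open Set

namespace Pool.Agent.RFS.AA

private noncomputable def TE_dat {Y : Type*} [NormedAddCommGroup Y] [NormedSpace ℝ Y] {ι : Type}
    {N K m : ℕ} (e : ι ≃ Fin m) (L : EN K ≃L[ℝ] Y)
    (σ : ι → EN N → Y → EN N) (β : EN N → Y → EN N) (Q : EN N → Y → (ι → Y) → Y)
    (hσ : ∀ c, ContDiff ℝ ∞ (fun z : EN N × Y => σ c z.1 z.2))
    (hβ : ContDiff ℝ ∞ (fun z : EN N × Y => β z.1 z.2))
    (hQ : ContDiff ℝ ∞ (fun z : EN N × (Fin m → EN K) × Y =>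
      L.symm (Q z.1 z.2.2 (fun c => L (z.2.1 (e c)))))) (R : ℝ)
    (hσR : ∀ c x u, R ≤ ‖x‖ → σ c x u = 0) (hβR : ∀ x u, R ≤ ‖x‖ → β x u = 0)
    (hQR : ∀ x u P, R ≤ ‖x‖ → Q x u P = 0) : Pool.Agent.QPE.EDat N K m where
  sigma := fun c x v => σ (e.symm c) x (L v)
  beta := fun x v => β x (L v)
  Q := fun x v p => L.symm (Q x (L v) (fun c => L (p (e c))))
  R := R
  sigma_smooth := fun c => (hσ (e.symm c)).comp
    (contDiff_fst.prodMk (L.contDiff.comp contDiff_snd))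
  beta_smooth := hβ.comp (contDiff_fst.prodMk (L.contDiff.comp contDiff_snd))
  Q_smooth := hQ.comp (contDiff_fst.prodMk ((contDiff_snd.comp contDiff_snd).prodMk
    (L.contDiff.comp (contDiff_fst.comp contDiff_snd))))
  sigma_supp := fun c x v hx => hσR _ _ _ hx
  beta_supp := fun x v hx => hβR _ _ hx
  Q_supp := fun x v p hx => by rw [hQR _ _ _ hx, map_zero]

private theorem TE_Q {Y : Type*} [NormedAddCommGroup Y] [NormedSpace ℝ Y] {ι : Type} [Fintype ι]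
    {N K m : ℕ} (e : ι ≃ Fin m) (L : EN K ≃L[ℝ] Y) (Q : EN N → Y → (ι → Y) → Y)
    (hQ : ContDiff ℝ ∞ (fun z : EN N × Y × (ι → Y) => Q z.1 z.2.1 z.2.2)) :
    ContDiff ℝ ∞ (fun z : EN N × (Fin m → EN K) × Y =>
      L.symm (Q z.1 z.2.2 (fun c => L (z.2.1 (e c))))) := by
  refine L.symm.contDiff.comp (hQ.comp (contDiff_fst.prodMk
    ((contDiff_snd.comp contDiff_snd).prodMk (contDiff_pi.2 fun c => ?_))))
  exact L.contDiff.comp ((contDiff_apply ℝ (EN K) (e c)).comp (contDiff_fst.comp contDiff_snd))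

private theorem TE_fderiv2 {Y : Type*} [NormedAddCommGroup Y] [NormedSpace ℝ Y]
    {N K : ℕ} (L : EN K ≃L[ℝ] Y) {w : EN N → EN K} (hw : ContDiff ℝ ∞ w) (x a b : EN N) :
    fderiv ℝ (fderiv ℝ (fun y => L (w y))) x a b = L (fderiv ℝ (fderiv ℝ w) x a b) := by
  have h1 : fderiv ℝ (fun y => L (w y))
      = fun y => (L : EN K →L[ℝ] Y).comp (fderiv ℝ w y) := by
    funext y
    exact L.comp_fderiv
  rw [h1]
  have hd : DifferentiableAt ℝ (fderiv ℝ w) x :=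
    (hw.fderiv_right (m := 1) (by norm_cast)).differentiable (by norm_num) x
  have h2 := (ContinuousLinearMap.compL ℝ (EN N) (EN K) Y (L : EN K →L[ℝ] Y)).hasFDerivAt.comp x
    hd.hasFDerivAt
  have h3 : (⇑(ContinuousLinearMap.compL ℝ (EN N) (EN K) Y (L : EN K →L[ℝ] Y)) ∘ fderiv ℝ w)
      = fun y => (L : EN K →L[ℝ] Y).comp (fderiv ℝ w y) := rfl
  rw [h3] at h2
  rw [h2.fderiv]
  rfl

private theorem TE_core {Y : Type*} [NormedAddCommGroup Y] [NormedSpace ℝ Y] {ι : Type} [Fintype ι]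
    {N K m : ℕ} (e : ι ≃ Fin m) (L : EN K ≃L[ℝ] Y)
    (σ : ι → EN N → Y → EN N) (β : EN N → Y → EN N) (Q : EN N → Y → (ι → Y) → Y)
    (hσ : ∀ c, ContDiff ℝ ∞ (fun z : EN N × Y => σ c z.1 z.2))
    (hβ : ContDiff ℝ ∞ (fun z : EN N × Y => β z.1 z.2))
    (hQ : ContDiff ℝ ∞ (fun z : EN N × (Fin m → EN K) × Y =>
      L.symm (Q z.1 z.2.2 (fun c => L (z.2.1 (e c)))))) (R : ℝ)
    (hσR : ∀ c x u, R ≤ ‖x‖ → σ c x u = 0) (hβR : ∀ x u, R ≤ ‖x‖ → β x u = 0)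
    (hQR : ∀ x u P, R ≤ ‖x‖ → Q x u P = 0) (w0 : EN N → EN K) (T : ℝ) (w : ℝ → EN N → EN K)
    (hw : Pool.Agent.QPE.ESol (TE_dat e L σ β Q hσ hβ hQ R hσR hβR hQR) w0 T w) :
    JS (Icc 0 T) univ (fun t x => L (w t x)) ∧ (fun x => L (w 0 x)) = (fun x => L (w0 x)) ∧
      ∀ t ∈ Icc 0 T, ∀ x, HasDerivWithinAt (fun s => L (w s x))
        ((∑ c, fderiv ℝ (fderiv ℝ (fun y => L (w t y))) x (σ c x (L (w t x))) (σ c x (L (w t x))))
          + fderiv ℝ (fun y => L (w t y)) x (β x (L (w t x)))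
          + Q x (L (w t x)) (fun c => fderiv ℝ (fun y => L (w t y)) x (σ c x (L (w t x)))))
        (Icc 0 T) t := by
  refine ⟨L.contDiff.comp_contDiffOn hw.joint, by rw [hw.init], fun t ht x => ?_⟩
  have h1 := (L : EN K →L[ℝ] Y).hasFDerivAt.comp_hasDerivWithinAt t (hw.deriv t ht x)
  have hf1 : ∀ a, fderiv ℝ (fun y => L (w t y)) x a = L (fderiv ℝ (w t) x a) := by
    intro a
    have : fderiv ℝ (fun y => L (w t y)) x = (L : EN K →L[ℝ] Y).comp (fderiv ℝ (w t) x) :=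
      L.comp_fderiv
    rw [this]
    rfl
  refine HasDerivWithinAt.congr_deriv h1 ?_
  show L (Pool.Agent.QPE.EDat.rhs _ (w t) x) = _
  unfold Pool.Agent.QPE.EDat.rhs
  rw [map_add, map_add, map_sum]
  congr 1
  · congr 1
    · rw [← e.symm.sum_comp]
      refine Finset.sum_congr rfl fun c _ => ?_
      rw [TE_fderiv2 L (hw.smooth t ht)]
      rfl
    · rw [hf1]
      rfl
  · show L (L.symm (Q x (L (w t x)) (fun c => L (fderiv ℝ (w t) x (σ (e.symm (e c)) x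
      (L (w t x))))))) = _
    rw [L.apply_symm_apply]
    congr 1
    funext c
    rw [hf1, e.symm_apply_apply]

private theorem TE_bd {Y : Type*} [NormedAddCommGroup Y] [NormedSpace ℝ Y] {N : ℕ} {f : EN N → Y}
    (hf : ContDiff ℝ ∞ f) (hc : HasCompactSupport f) (k : ℕ) :
    ∃ C : ℝ, ∀ x, ‖iteratedFDeriv ℝ k f x‖ ≤ C :=
  (hc.iteratedFDeriv k).exists_bound_of_continuous
    (hf.continuous_iteratedFDeriv (by exact_mod_cast le_top))

theorem exists_parabolic {ι : Type} [Fintype ι] {N : ℕ} (σ : ι → EN N → FN N → EN N)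
    (β : EN N → FN N → EN N) (Q : EN N → FN N → (ι → FN N) → FN N)
    (hσ : ∀ c, ContDiff ℝ ∞ (fun z : EN N × FN N => σ c z.1 z.2))
    (hβ : ContDiff ℝ ∞ (fun z : EN N × FN N => β z.1 z.2))
    (hQ : ContDiff ℝ ∞ (fun z : EN N × FN N × (ι → FN N) => Q z.1 z.2.1 z.2.2)) (R : ℝ)
    (hσR : ∀ c x u, R ≤ ‖x‖ → σ c x u = 0) (hβR : ∀ x u, R ≤ ‖x‖ → β x u = 0)
    (hQR : ∀ x u P, R ≤ ‖x‖ → Q x u P = 0) (u₀ : EN N → FN N) (h0 : ContDiff ℝ ∞ u₀)
    (h0c : HasCompactSupport u₀) :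
    ∃ T : ℝ, 0 < T ∧ ∃ u : ℝ → EN N → FN N, JS (Icc 0 T) univ u ∧ u 0 = u₀ ∧
      ∀ t ∈ Icc 0 T, ∀ x, HasDerivWithinAt (fun s => u s x)
        ((∑ c, fderiv ℝ (fderiv ℝ (u t)) x (σ c x (u t x)) (σ c x (u t x)))
          + fderiv ℝ (u t) x (β x (u t x))
          + Q x (u t x) (fun c => fderiv ℝ (u t) x (σ c x (u t x)))) (Icc 0 T) t := by
  classical
  let L : EN (N * N) ≃L[ℝ] FN N :=
    (LinearIsometryEquiv.piLpCongrLeft 2 ℝ ℝ finProdFinEquiv.symm).toContinuousLinearEquiv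
  let e : ι ≃ Fin (Fintype.card ι) := Fintype.equivFin ι
  have hQ' := TE_Q e L Q hQ
  have hw0 : ContDiff ℝ ∞ (fun x => L.symm (u₀ x)) := L.symm.contDiff.comp h0
  have hw0c : HasCompactSupport (fun x => L.symm (u₀ x)) :=
    h0c.comp_left (g := fun y => L.symm y) (map_zero _)
  obtain ⟨T, hT, w, hw, -⟩ := Pool.Agent.QPE.exists_esol
    (TE_dat e L σ β Q hσ hβ hQ' R hσR hβR hQR) (fun x => L.symm (u₀ x)) hw0
    (fun k => TE_bd hw0 hw0c k) 1 one_pos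
  obtain ⟨h1, h2, h3⟩ := TE_core e L σ β Q hσ hβ hQ' R hσR hβR hQR _ T w hw
  refine ⟨T, hT, fun t x => L (w t x), h1, ?_, h3⟩
  show (fun x => L (w 0 x)) = u₀
  rw [h2]
  funext x
  exact L.apply_symm_apply _

theorem exists_heat {ι : Type} [Fintype ι] {N : ℕ} (σ : ι → EN N → EN N) (β : EN N → EN N)
    (hσ : ∀ c, ContDiff ℝ ∞ (σ c)) (hβ : ContDiff ℝ ∞ β) (R : ℝ)
    (hσR : ∀ c x, R ≤ ‖x‖ → σ c x = 0) (hβR : ∀ x, R ≤ ‖x‖ → β x = 0) (T : ℝ) (hT : 0 < T)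
    (u₀ : EN N → ℝ) (h0 : ContDiff ℝ ∞ u₀) (h0c : HasCompactSupport u₀) :
    ∃ u : ℝ → EN N → ℝ, JS (Icc 0 T) univ u ∧ u 0 = u₀ ∧
      ∀ t ∈ Icc 0 T, ∀ x, HasDerivWithinAt (fun s => u s x)
        ((∑ c, fderiv ℝ (fderiv ℝ (u t)) x (σ c x) (σ c x))
          + fderiv ℝ (u t) x (β x)) (Icc 0 T) t := by
  classical
  let L : EN 1 ≃L[ℝ] ℝ := (EuclideanSpace.equiv (Fin 1) ℝ).trans
    (ContinuousLinearEquiv.funUnique (Fin 1) ℝ ℝ)
  let e : ι ≃ Fin (Fintype.card ι) := Fintype.equivFin ι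
  have hσ' : ∀ c, ContDiff ℝ ∞ (fun z : EN N × ℝ => (fun c x (_ : ℝ) => σ c x) c z.1 z.2) :=
    fun c => (hσ c).comp contDiff_fst
  have hβ' : ContDiff ℝ ∞ (fun z : EN N × ℝ => (fun x (_ : ℝ) => β x) z.1 z.2) :=
    hβ.comp contDiff_fst
  have hQ' := TE_Q (N := N) e L (fun _ _ _ => (0 : ℝ)) contDiff_const
  have hw0 : ContDiff ℝ ∞ (fun x => L.symm (u₀ x)) := L.symm.contDiff.comp h0
  have hw0c : HasCompactSupport (fun x => L.symm (u₀ x)) :=
    h0c.comp_left (g := fun y => L.symm y) (map_zero _)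
  have hlin : (TE_dat e L (fun c x (_ : ℝ) => σ c x) (fun x _ => β x) (fun _ _ _ => (0 : ℝ))
      hσ' hβ' hQ' R (fun c x _ h => hσR c x h) (fun x _ h => hβR x h)
      (fun _ _ _ _ => rfl)).IsLin := by
    refine ⟨fun _ _ _ _ => rfl, fun _ _ _ => rfl, fun x v p r => ?_⟩
    show L.symm 0 = r • L.symm 0
    rw [map_zero, smul_zero]
  obtain ⟨w, hw⟩ := Pool.Agent.QPE.exists_esol_linear _ hlin T hT (fun x => L.symm (u₀ x)) hw0
    (fun k => TE_bd hw0 hw0c k)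
  obtain ⟨h1, h2, h3⟩ := TE_core e L (fun c x (_ : ℝ) => σ c x) (fun x _ => β x)
    (fun _ _ _ => (0 : ℝ)) hσ' hβ' hQ' R (fun c x _ h => hσR c x h) (fun x _ h => hβR x h)
    (fun _ _ _ _ => rfl) _ T w hw
  refine ⟨fun t x => L (w t x), h1, ?_, fun t ht x => ?_⟩
  · show (fun x => L (w 0 x)) = u₀
    rw [h2]
    funext x
    exact L.apply_symm_apply _
  · have h4 := h3 t ht x
    simpa using h4

end Pool.Agent.RFS.AA
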