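import Pool.Agent.RFS.FCH
import Pool.Agent.RFS.NSY

/-!
# RFS, chunk N, module NMF: naturality on a manifold

The Ricci tensor and the tensor `P = (R / 2) g - Ric` of a metric `g : RMetric M` are tensors
(`Sym2 M`); the scalar curvature is a function on `M`.
-/

open scoped Manifold ContDiff Matrix Topology
open Set

noncomputable section

namespace Pool.Agent.RFS.NN

variable {M : Type*} [TopologicalSpace M] [ChartedSpace E3 M]

theorem jac_eq_jacm (e e' : Ch M) (x : E3) : jac e e' x = jacm (trans e e') x := rfl

theorem det_ne_zero_of_metric (g : RMetric M) (e : Ch M) :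
    ∀ y ∈ e.1.target, (g.c e y).det ≠ 0 := fun y hy => (g.pos e y hy).det_pos.ne'

variable [IsManifold (𝓡 3) ∞ M]

/-- the change of charts is a change of coordinates in the sense of `Chg` -/
theorem chg_of_metric (g : RMetric M) (e e' : Ch M) :
    Chg (ov e e') e'.1.target (trans e e') (g.c e) (g.c e') where
  oU := isOpen_ov e e'
  oV := e'.1.open_target
  maps := fun _ hx => (trans_mem e e' hx).1
  sφ := contDiffOn_euclidean.mp (contDiffOn_trans e e')
  dJ := by
    intro x hx h0
    have h1 := congrArg Matrix.det (jac_mul_jac e e' hx)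
    rw [Matrix.det_mul, jac_eq_jacm e e' x, h0, mul_zero, Matrix.det_one] at h1
    exact zero_ne_one h1
  sG' := g.smooth e'
  symm' := g.symm e'
  dG' := det_ne_zero_of_metric g e'
  pull := fun x hx => g.compat e e' x hx.1 hx.2

theorem ricci_compat (g : RMetric M) (e e' : Ch M) {x : E3} (hx : x ∈ ov e e') :
    ricci (g.c e) x = (jac e e' x)ᵀ * ricci (g.c e') (trans e e' x) * jac e e' x :=
  (chg_of_metric g e e').ricci_law hx

theorem scal_compat (g : RMetric M) (e e' : Ch M) {x : E3} (hx : x ∈ ov e e') :
    scal (g.c e) x = scal (g.c e') (trans e e' x) :=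
  (chg_of_metric g e e').scal_law hx

theorem pten_compat (g : RMetric M) (e e' : Ch M) {x : E3} (hx : x ∈ ov e e') :
    pten (g.c e) x = (jac e e' x)ᵀ * pten (g.c e') (trans e e' x) * jac e e' x :=
  (chg_of_metric g e e').pten_law hx

/-- transformation law of the Christoffel symbols under a change of charts -/
theorem chr_compat (g : RMetric M) (e e' : Ch M) {x : E3} (hx : x ∈ ov e e') (c i j : Fin 3) :
    ∑ k, jac e e' x c k * chr (g.c e) x k i j = pd i (fun y => jac e e' y c j) x
      + ∑ a, ∑ b, chr (g.c e') (trans e e' x) c a b * jac e e' x a i * jac e e' x b j :=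
  (chg_of_metric g e e').chr_law hx c i j

/-- the Ricci tensor of a metric -/
def ricSym (g : RMetric M) : Sym2 M where
  c := fun e => ricci (g.c e)
  smooth := fun e i j => contDiffOn_ricci e.1.open_target (g.smooth e)
    (det_ne_zero_of_metric g e) i j
  symm := fun e _ hx => ricci_symm e.1.open_target (g.smooth e) (g.symm e)
    (det_ne_zero_of_metric g e) hx
  compat := fun e e' _ h1 h2 => ricci_compat g e e' ⟨h1, h2⟩

/-- the tensor `P` of a metric -/
def ptenSym (g : RMetric M) : Sym2 M where
  c := fun e => pten (g.c e)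
  smooth := fun e i j => contDiffOn_pten e.1.open_target (g.smooth e)
    (det_ne_zero_of_metric g e) i j
  symm := fun e _ hx => pten_symm e.1.open_target (g.smooth e) (g.symm e)
    (det_ne_zero_of_metric g e) hx
  compat := fun e e' _ h1 h2 => pten_compat g e e' ⟨h1, h2⟩

end Pool.Agent.RFS.NN
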