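import Pool.Agent.RFS.BRE
import Pool.Agent.RFS.NMF

/-!
# RFS, chunk (b), module BFR: charts of the bundle of orthonormal frames

Proofs.
* `lmet`: `hg.pos_b`, `e.1.open_target`, `hg.smooth e`, `(g t).symm e`, `(g t).pos e`.
* `jac_comp`: chain rule: near `x`, `trans e e'' = trans e' e'' ∘ trans e e'`.
* `jac_self`: near `x ∈ target`, `trans e e = id`.
* `Phi_chg`: `Sym2.compat` of `g q.1`: `G_e = Jᵀ G_e' J`, so `(J a)ᵀ G_e' (J a) = aᵀ G_e a`
  (`Phi_eq`, matrices).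
* `smooth_chg`: `contDiffOn_trans`, `contDiffOn_jac` of `FCH`.
* `frq_val`: by `Phi_chg` the condition in the definition of `frq` holds for `q ∈ oset`.
* `coo_frq`: `chg_chg`.
* `frq_coo`, `frq_chg`, `coo_mem`: from `chg_chg`, `chg_self`, `Phi_chg`, `Subtype.ext`.
* `nonempty_Fr`: take `p : M`, `e = ch p`, `x = e p`, `a = cgs (G_e(0, x))` (`cgs_spec`).
-/

open scoped Manifold ContDiff Matrix Topology
open Set MeasureTheory

noncomputable section

namespace Pool.Agent.RFS.BB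

variable {M : Type*} [TopologicalSpace M] [ChartedSpace E3 M] {g : ℝ → RMetric M} {b : ℝ}

theorem IsFam.lmet (hg : IsFam g b) (e : Ch M) : LMet b e.1.target (gt g e) where
  pos_b := hg.pos_b
  open_U := e.1.open_target
  smooth := hg.smooth e
  symm := fun t _ x hx => (g t).symm e x hx
  posDef := fun t _ x hx => (g t).pos e x hx

theorem mem_source_ch (p : M) : p ∈ (ch p).1.source := mem_chart_source E3 p

variable [IsManifold (𝓡 3) ∞ M]

theorem jac_comp (e e' e'' : Ch M) {x : E3} (h1 : x ∈ ov e e') (h2 : x ∈ ov e e'') :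
    jac e e'' x = jac e' e'' (trans e e' x) * jac e e' x := by
  have hm := trans_mem e e' h1
  have hx' : trans e e' x ∈ ov e' e'' := by
    refine ⟨hm.1, ?_⟩
    rw [hm.2.1]
    exact h2.2
  have d1 := (differentiableAt_trans e e' h1).hasFDerivAt
  have d2 := (differentiableAt_trans e' e'' hx').hasFDerivAt
  have d3 := d2.comp x d1
  have h4 : trans e e'' =ᶠ[nhds x] (trans e' e'' ∘ trans e e') := by
    filter_upwards [(isOpen_ov e e').mem_nhds h1] with y hy
    show e''.1 (e.1.symm y) = e''.1 (e'.1.symm (trans e e' y))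
    rw [(trans_mem e e' hy).2.1]
  have h6 := (d3.congr_of_eventuallyEq h4).fderiv
  ext l i
  rw [jac_apply e e'' h2, h6, Matrix.mul_apply]
  rw [ContinuousLinearMap.comp_apply, fderiv_trans_bv e e' h1, map_sum]
  simp only [map_smul]
  rw [Fin.sum_univ_three, Fin.sum_univ_three]
  simp only [jac_apply e' e'' hx', PiLp.add_apply, PiLp.smul_apply, smul_eq_mul]
  ring

theorem jac_self (e : Ch M) {x : E3} (hx : x ∈ e.1.target) : jac e e x = 1 := by
  have hx' : x ∈ ov e e := ⟨hx, e.1.map_target hx⟩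
  have h4 : trans e e =ᶠ[nhds x] id := by
    filter_upwards [e.1.open_target.mem_nhds hx] with y hy
    exact e.1.right_inv hy
  have h6 := ((hasFDerivAt_id (𝕜 := ℝ) x).congr_of_eventuallyEq h4).fderiv
  ext l i
  rw [jac_apply e e hx', h6, Matrix.one_apply]
  fin_cases l <;> fin_cases i <;> simp [bv]

theorem chg_self (e : Ch M) {q : Qs} (hq : q.2.1 ∈ e.1.target) : chg e e q = q := by
  refine Prod.ext rfl (Prod.ext (e.1.right_inv hq) ?_)
  funext m j
  show ∑ k, jac e e q.2.1 m k * q.2.2 k j = q.2.2 m j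
  rw [jac_self e hq]
  simp [Matrix.one_apply]

private theorem BFR_fm (e e' : Ch M) (q : Qs) :
    Matrix.of (chg e e' q).2.2 = jac e e' q.2.1 * Matrix.of q.2.2 := by
  ext m j
  rw [Matrix.mul_apply]
  rfl

theorem chg_chg (e e' e'' : Ch M) {q : Qs} (h1 : q.2.1 ∈ ov e e') (h2 : q.2.1 ∈ ov e e'') :
    chg e' e'' (chg e e' q) = chg e e'' q := by
  refine Prod.ext rfl (Prod.ext ?_ ?_)
  · show e''.1 (e'.1.symm (trans e e' q.2.1)) = e''.1 (e.1.symm q.2.1)
    rw [(trans_mem e e' h1).2.1]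
  · apply Matrix.of.injective
    rw [BFR_fm, BFR_fm, BFR_fm, jac_comp e e' e'' h1 h2, Matrix.mul_assoc]
    rfl

theorem Phi_chg (e e' : Ch M) {q : Qs} (hq : q.2.1 ∈ ov e e') :
    Phi (gt g e') (chg e e' q) = Phi (gt g e) q := by
  apply Matrix.of.injective
  rw [Phi_eq, Phi_eq, BFR_fm]
  have h := (g q.1).compat e e' q.2.1 hq.1 hq.2
  show (jac e e' q.2.1 * Matrix.of q.2.2)ᵀ * (g q.1).c e' (trans e e' q.2.1)
    * (jac e e' q.2.1 * Matrix.of q.2.2) = (Matrix.of q.2.2)ᵀ * (g q.1).c e q.2.1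
      * Matrix.of q.2.2
  rw [h, Matrix.transpose_mul]
  simp only [Matrix.mul_assoc]

theorem chg_mem_oset (e e' : Ch M) {q : Qs} (hq : q ∈ oset b e.1.target (gt g e))
    (hx : q.2.1 ∈ ov e e') : chg e e' q ∈ oset b e'.1.target (gt g e') :=
  ⟨hq.1, (trans_mem e e' hx).1, (Phi_chg e e' hx).trans hq.2.2⟩

theorem chg_mem_wset (e e' : Ch M) {q : Qs} (hq : q ∈ wset b (ov e e')) :
    chg e e' q ∈ wset b e'.1.target := by
  refine ⟨hq.1, (trans_mem e e' hq.2.1).1, ?_⟩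
  show (Matrix.of (chg e e' q).2.2).det ≠ 0
  rw [BFR_fm, Matrix.det_mul]
  refine mul_ne_zero ?_ hq.2.2
  intro h0
  have h1 := congrArg Matrix.det (jac_mul_jac e e' hq.2.1)
  rw [Matrix.det_mul, h0, mul_zero, Matrix.det_one] at h1
  exact zero_ne_one h1

theorem smooth_chg (e e' : Ch M) : ContDiffOn ℝ ∞ (chg e e') (wset b (ov e e')) := by
  have hm : MapsTo (fun q : Qs => q.2.1) (wset b (ov e e')) (ov e e') := fun q hq => hq.2.1
  have hs : ContDiffOn ℝ ∞ (fun q : Qs => q.2.1) (wset b (ov e e')) :=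
    (contDiff_fst.comp contDiff_snd).contDiffOn
  refine contDiff_fst.contDiffOn.prodMk (ContDiffOn.prodMk ?_ ?_)
  · exact (contDiffOn_trans e e').comp hs hm
  · refine contDiffOn_pi.2 fun m => contDiffOn_pi.2 fun j => ?_
    refine ContDiffOn.sum fun k _ => ContDiffOn.mul ?_ ?_
    · exact (contDiffOn_jac e e' m k).comp hs hm
    · exact ((contDiff_apply_apply ℝ ℝ k j).comp (contDiff_snd.comp contDiff_snd)).contDiffOn

omit [IsManifold (𝓡 3) ∞ M] in
private theorem BFR_point {t : ℝ} (ht : t ∈ Ico 0 b) (p : M) :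
    ∃ z : Fr g b, z.tm = t ∧ z.bs = p := by
  have hp := (g t).pos (ch p) ((ch p).1 p) ((ch p).1.map_source (mem_source_ch p))
  have hsy := (g t).symm (ch p) ((ch p).1 p) ((ch p).1.map_source (mem_source_ch p))
  have h1 := cgs_spec (H := fun i j => (g t).c (ch p) ((ch p).1 p) i j)
    (fun i j => by
      have := congrFun (congrFun hsy j) i
      simpa [Matrix.transpose_apply] using this) hp
  refine ⟨⟨(t, p, cgs (fun i j => (g t).c (ch p) ((ch p).1 p) i j)), ht, ?_⟩, rfl, rfl⟩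
  apply Matrix.of.injective
  rw [Phi_eq, one3_eq]
  exact h1

theorem nonempty_Fr [Nonempty M] (hg : IsFam g b) : Nonempty (Fr g b) := by
  obtain ⟨z, -, -⟩ := BFR_point (g := g) (b := b) (t := 0) ⟨le_rfl, hg.pos_b⟩
    (Classical.arbitrary M)
  exact ⟨z⟩

theorem exists_point [Nonempty M] (hg : IsFam g b) {t : ℝ} (ht : t ∈ Ico 0 b) (p : M) :
    ∃ z : Fr g b, z.tm = t ∧ z.bs = p :=
  BFR_point ht p

variable [Nonempty (Fr g b)]

omit [IsManifold (𝓡 3) ∞ M] [Nonempty (Fr g b)] in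
private theorem BFR_ov (e : Ch M) {x : E3} (hx : x ∈ e.1.target) :
    x ∈ ov e (ch (e.1.symm x)) := ⟨hx, mem_source_ch _⟩

omit [Nonempty (Fr g b)] in
private theorem BFR_cond (e : Ch M) {q : Qs} (hq : q ∈ oset b e.1.target (gt g e)) :
    q.1 ∈ Ico 0 b ∧ Phi (gt g (ch (e.1.symm q.2.1)))
        (q.1, (ch (e.1.symm q.2.1)).1 (e.1.symm q.2.1), (chg e (ch (e.1.symm q.2.1)) q).2.2)
        = one3 :=
  ⟨hq.1, (Phi_chg e (ch (e.1.symm q.2.1)) (BFR_ov e hq.2.1)).trans hq.2.2⟩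

private theorem BFR_val (e : Ch M) {q : Qs} (hq : q ∈ oset b e.1.target (gt g e)) :
    frq g b e q = ⟨(q.1, e.1.symm q.2.1, (chg e (ch (e.1.symm q.2.1)) q).2.2),
      BFR_cond e hq⟩ := by
  unfold frq
  rw [dif_pos (BFR_cond e hq)]

omit [IsManifold (𝓡 3) ∞ M] [Nonempty (Fr g b)] in
/-- the coordinates in the preferred chart -/
private def BFR_loc (z : Fr g b) : Qs := (z.tm, (ch z.bs).1 z.bs, z.fm)

omit [IsManifold (𝓡 3) ∞ M] [Nonempty (Fr g b)] in
private theorem BFR_loc_mem (z : Fr g b) :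
    BFR_loc z ∈ oset b (ch z.bs).1.target (gt g (ch z.bs)) :=
  ⟨z.2.1, (ch z.bs).1.map_source (mem_source_ch _), z.2.2⟩

omit [IsManifold (𝓡 3) ∞ M] [Nonempty (Fr g b)] in
private theorem BFR_coo_eq (e : Ch M) (z : Fr g b) :
    coo e z = chg (ch z.bs) e (BFR_loc z) := by
  refine Prod.ext rfl (Prod.ext ?_ rfl)
  show e.1 z.bs = e.1 ((ch z.bs).1.symm ((ch z.bs).1 z.bs))
  rw [(ch z.bs).1.left_inv (mem_source_ch _)]

omit [IsManifold (𝓡 3) ∞ M] [Nonempty (Fr g b)] in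
private theorem BFR_loc_ov (e : Ch M) {z : Fr g b} (hz : z.bs ∈ e.1.source) :
    (BFR_loc z).2.1 ∈ ov (ch z.bs) e := by
  refine ⟨(ch z.bs).1.map_source (mem_source_ch _), ?_⟩
  show (ch z.bs).1.symm ((ch z.bs).1 z.bs) ∈ e.1.source
  rw [(ch z.bs).1.left_inv (mem_source_ch _)]
  exact hz

theorem frq_tm (e : Ch M) {q : Qs} (hq : q ∈ oset b e.1.target (gt g e)) :
    (frq g b e q).tm = q.1 := by
  rw [BFR_val e hq]
  rfl

theorem frq_bs (e : Ch M) {q : Qs} (hq : q ∈ oset b e.1.target (gt g e)) :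
    (frq g b e q).bs = e.1.symm q.2.1 := by
  rw [BFR_val e hq]
  rfl

theorem coo_frq (e e' : Ch M) {q : Qs} (hq : q ∈ oset b e.1.target (gt g e))
    (hx : q.2.1 ∈ ov e e') : coo e' (frq g b e q) = chg e e' q := by
  rw [BFR_val e hq, BFR_coo_eq]
  exact chg_chg e (ch (e.1.symm q.2.1)) e' (BFR_ov e hq.2.1) hx

theorem coo_mem (e : Ch M) {z : Fr g b} (hz : z.bs ∈ e.1.source) :
    coo e z ∈ oset b e.1.target (gt g e) := by
  rw [BFR_coo_eq]
  exact chg_mem_oset (ch z.bs) e (BFR_loc_mem z) (BFR_loc_ov e hz)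

theorem frq_coo (e : Ch M) {z : Fr g b} (hz : z.bs ∈ e.1.source) : frq g b e (coo e z) = z := by
  rw [BFR_val e (coo_mem e hz)]
  have hp : e.1.symm (coo e z).2.1 = z.bs := e.1.left_inv hz
  apply Subtype.ext
  refine Prod.ext rfl (Prod.ext hp ?_)
  show (chg e (ch (e.1.symm (coo e z).2.1)) (coo e z)).2.2 = z.fm
  rw [hp, BFR_coo_eq, chg_chg (ch z.bs) e (ch z.bs) (BFR_loc_ov e hz)
    (BFR_loc_ov (ch z.bs) (mem_source_ch _)),
    chg_self (ch z.bs) ((ch z.bs).1.map_source (mem_source_ch _))]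
  rfl

theorem frq_chg (e e' : Ch M) {q : Qs} (hq : q ∈ oset b e.1.target (gt g e))
    (hx : q.2.1 ∈ ov e e') : frq g b e' (chg e e' q) = frq g b e q := by
  have hz : (frq g b e q).bs ∈ e'.1.source := by
    rw [frq_bs e hq]
    exact hx.2
  rw [← coo_frq e e' hq hx]
  exact frq_coo e' hz

theorem exists_frq (z : Fr g b) : ∃ (e : Ch M) (q : Qs), q ∈ oset b e.1.target (gt g e) ∧
    z = frq g b e q :=
  ⟨ch z.bs, coo (ch z.bs) z, coo_mem (ch z.bs) (mem_source_ch _),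
    (frq_coo (ch z.bs) (mem_source_ch _)).symm⟩

end Pool.Agent.RFS.BB
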