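import Pool.Agent.RFS.BSA
import Pool.Agent.RFS.BFR

/-!
# RFS, chunk (b), module BAL: the algebra of smooth functions on the frame bundle

Proofs.
* `FA`: `can0 g b (f * h) e = can0 g b f e * can0 g b h e` etc. (definitional), `ContDiffOn.mul`, ...
* `can0_eq`: `retr_eq`.
* `mem_FA_of_rep`: `can0 g b f e = F ∘ retr (gt g e)` on `wset` because `retr` maps `wset` into
  `oset` (`retr_mem`) and `F = f ∘ frq` there; `ContDiffOn.comp`, `smooth_retr`.
* `can`: the value is `fun q => can0 g b f.1 e q` restricted to `wset`; it is in `smAlg` because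
  `ext0` of the restriction agrees with `can0 g b f.1 e` on `wset`.
-/

open scoped Manifold ContDiff Matrix Topology
open Set MeasureTheory

noncomputable section

namespace Pool.Agent.RFS.BB

variable {M : Type*} [TopologicalSpace M] [ChartedSpace E3 M] (g : ℝ → RMetric M) (b : ℝ)
  [Nonempty (Fr g b)]

/-- The canonical extension of a function on the bundle to all frames in the chart `e`. -/
def can0 (f : Fr g b → ℝ) (e : Ch M) (q : Qs) : ℝ := f (frq g b e (retr (gt g e) q))

/-- The algebra of the smooth functions on the bundle of orthonormal frames over `[0, b)`. -/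
def FA : Subalgebra ℝ (Fr g b → ℝ) where
  carrier := {f | ∀ e, ContDiffOn ℝ ∞ (can0 g b f e) (wset b e.1.target)}
  mul_mem' := by
    intro f h hf hh e
    exact (hf e).mul (hh e)
  add_mem' := by
    intro f h hf hh e
    exact (hf e).add (hh e)
  algebraMap_mem' := by
    intro r e
    exact contDiffOn_const

theorem FA_ext {f h : FA g b} (H : ∀ z, f.1 z = h.1 z) : f = h := Subtype.ext (funext H)

theorem can0_eq (f : Fr g b → ℝ) (e : Ch M) {q : Qs} (hq : q ∈ oset b e.1.target (gt g e)) :
    can0 g b f e q = f (frq g b e q) := by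
  unfold can0
  rw [LMet.retr_eq hq]

theorem smooth_can0 (f : FA g b) (e : Ch M) :
    ContDiffOn ℝ ∞ (can0 g b f.1 e) (wset b e.1.target) := f.2 e

/-- The canonical extension as an algebra homomorphism. -/
def can (e : Ch M) : FA g b →ₐ[ℝ] smAlg (wset b e.1.target) where
  toFun := fun f => ⟨fun q => can0 g b f.1 e q, by
    exact (smMk (can0 g b f.1 e) (f.2 e)).2⟩
  map_one' := by
    exact Subtype.ext (funext fun q => rfl)
  map_mul' := by
    intro f h
    exact Subtype.ext (funext fun q => rfl)
  map_zero' := by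
    exact Subtype.ext (funext fun q => rfl)
  map_add' := by
    intro f h
    exact Subtype.ext (funext fun q => rfl)
  commutes' := by
    intro r
    exact Subtype.ext (funext fun q => rfl)

theorem can_apply (e : Ch M) (f : FA g b) (q : wset b e.1.target) :
    (can g b e f).1 q = can0 g b f.1 e q := by
  rfl

theorem mem_FA_of_rep [IsManifold (𝓡 3) ∞ M] (hg : IsFam g b) (f : Fr g b → ℝ)
    (h : ∀ e : Ch M, ∃ F : Qs → ℝ, ContDiffOn ℝ ∞ F (wset b e.1.target) ∧
      ∀ q ∈ oset b e.1.target (gt g e), F q = f (frq g b e q)) : f ∈ FA g b := by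
  intro e
  obtain ⟨F, hF, hFf⟩ := h e
  have hl := hg.lmet e
  have hm : MapsTo (retr (gt g e)) (wset b e.1.target) (wset b e.1.target) :=
    fun q hq => hl.oset_sub (hl.retr_mem hq)
  refine (hF.comp hl.smooth_retr hm).congr ?_
  intro q hq
  exact (hFf _ (hl.retr_mem hq)).symm

theorem sum_FA {ι : Type*} (s : Finset ι) (f : ι → FA g b) (z : Fr g b) :
    (∑ i ∈ s, f i).1 z = ∑ i ∈ s, (f i).1 z := by
  have h : (∑ i ∈ s, f i).1 = ∑ i ∈ s, (f i).1 := by
    exact AddSubmonoidClass.coe_finsetSum f s
  rw [h, Finset.sum_apply]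

end Pool.Agent.RFS.BB
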