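import Pool.Agent.RFS.BNI

/-!
# RFS, chunk (b), module BBA: elements of the algebra which are functions of `(t, p)`

Proofs.
* `basic_smooth`: on `Ico 0 b ×ˢ target`, with `c = cgs (Phi G (t, x, one3))`,
  `(t, x, c) ∈ oset`, so `u t (e.symm x) = f (frq (t, x, c)) = can0 g b f.1 e (t, x, c)`, a composition
  of smooth maps (`contDiffAt_cgs`, `smooth_Phi`).
* `basic_cont`: near `(t₀, p₀)` use `e = ch p₀`: `u t p = U (t, e p)` on the source, `U` continuous
  (`basic_smooth`), `e` continuous on its (open) source.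
* `basic_der`: `der0_eq` with `F q' = u q'.1 (e.1.symm q'.2.1)`, smooth on `wset` (`smooth_lift`); its
  derivative in the direction `(s, v, w)` is
  `fderivWithin U (Ico 0 b ×ˢ target) (q.1, q.2.1) (s, v)`.
* `basic_D`: `s = 0`, `pd_eq_fderivWithin`.  `basic_V`: direction `(0, 0, w)`.
* `basic_T`: direction `(1, 0, w)`; `derivWithin_eq_fderivWithin`, `Ico 0 b` is a neighbourhood of
  `t > 0`.
* `basic_mem`: `mem_FA_of_rep` with the same `F`.
-/

open scoped Manifold ContDiff Matrix Topology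
open Set MeasureTheory

noncomputable section

namespace Pool.Agent.RFS.BB

variable {M : Type*} [TopologicalSpace M] [ChartedSpace E3 M] [IsManifold (𝓡 3) ∞ M]
  {g : ℝ → RMetric M} {b : ℝ} [Nonempty (Fr g b)]

private theorem BBA_frq (f : FA g b) (u : ℝ → M → ℝ)
    (hu : ∀ z : Fr g b, f.1 z = u z.tm z.bs) (e : Ch M) {q : Qs}
    (hq : q ∈ oset b e.1.target (gt g e)) :
    f.1 (frq g b e q) = u q.1 (e.1.symm q.2.1) := by
  rw [hu, frq_tm e hq, frq_bs e hq]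

theorem basic_smooth (hg : IsFam g b) (f : FA g b) (u : ℝ → M → ℝ)
    (hu : ∀ z : Fr g b, f.1 z = u z.tm z.bs) (e : Ch M) :
    ContDiffOn ℝ ∞ (fun q : ℝ × E3 => u q.1 (e.1.symm q.2)) (Ico 0 b ×ˢ e.1.target) := by
  have hone : (Matrix.of one3).det ≠ 0 := by
    rw [one3_eq, Matrix.det_one]
    exact one_ne_zero
  have hm : MapsTo (fun q : ℝ × E3 => ((q.1, q.2, one3) : Qs)) (Ico 0 b ×ˢ e.1.target)
      (wset b e.1.target) := fun q hq => ⟨hq.1, hq.2, hone⟩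
  have h1 : ContDiffOn ℝ ∞ (fun q : ℝ × E3 => can0 g b f.1 e (q.1, q.2, one3))
      (Ico 0 b ×ˢ e.1.target) :=
    (smooth_can0 g b f e).comp
      (contDiff_fst.prodMk (contDiff_snd.prodMk contDiff_const)).contDiffOn hm
  refine h1.congr fun q hq => ?_
  have h2 := (hg.lmet e).retr_mem (hm hq)
  show u q.1 (e.1.symm q.2) = f.1 (frq g b e (retr (gt g e) (q.1, q.2, one3)))
  rw [BBA_frq f u hu e h2]
  rfl

theorem basic_cont (hg : IsFam g b) (f : FA g b) (u : ℝ → M → ℝ)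
    (hu : ∀ z : Fr g b, f.1 z = u z.tm z.bs) :
    ContinuousOn (fun q : ℝ × M => u q.1 q.2) (Ico 0 b ×ˢ univ) := by
  rintro ⟨t, p⟩ hp
  have hps : p ∈ (ch p).1.source := mem_source_ch p
  have hU := (basic_smooth hg f u hu (ch p)).continuousOn
  have h1 : ContinuousOn (fun q : ℝ × M => ((q.1, (ch p).1 q.2) : ℝ × E3))
      (Ico 0 b ×ˢ (ch p).1.source) :=
    continuousOn_fst.prodMk ((ch p).1.continuousOn.comp continuousOn_snd fun q hq => hq.2)
  have h2 : ContinuousOn (fun q : ℝ × M => u q.1 ((ch p).1.symm ((ch p).1 q.2)))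
      (Ico 0 b ×ˢ (ch p).1.source) :=
    hU.comp h1 fun q hq => ⟨hq.1, (ch p).1.map_source hq.2⟩
  have h3 : ContinuousOn (fun q : ℝ × M => u q.1 q.2) (Ico 0 b ×ˢ (ch p).1.source) :=
    h2.congr fun q hq => by
      show u q.1 q.2 = u q.1 ((ch p).1.symm ((ch p).1 q.2))
      rw [(ch p).1.left_inv hq.2]
  have h4 := h3 (t, p) ⟨hp.1, hps⟩
  refine h4.mono_of_mem_nhdsWithin ?_
  have h5 : (univ ×ˢ (ch p).1.source : Set (ℝ × M)) ∈ 𝓝 (t, p) :=
    (isOpen_univ.prod (ch p).1.open_source).mem_nhds ⟨mem_univ _, hps⟩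
  filter_upwards [mem_nhdsWithin_of_mem_nhds h5, self_mem_nhdsWithin] with q hq1 hq2
  exact ⟨hq2.1, hq1.2⟩

theorem basic_der (hg : IsFam g b) (N : NatField g b) (f : FA g b) (u : ℝ → M → ℝ)
    (hu : ∀ z : Fr g b, f.1 z = u z.tm z.bs) (e : Ch M) {q : Qs}
    (hq : q ∈ oset b e.1.target (gt g e)) : (N.der hg f).1 (frq g b e q) =
      fderivWithin ℝ (fun q : ℝ × E3 => u q.1 (e.1.symm q.2)) (Ico 0 b ×ˢ e.1.target)
        (q.1, q.2.1) ((N.X e q).1, (N.X e q).2.1) := by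
  have hqw := (hg.lmet e).oset_sub hq
  have hU := basic_smooth hg f u hu e
  have hF : ContDiffOn ℝ ∞ (fun q' : Qs => u q'.1 (e.1.symm q'.2.1)) (wset b e.1.target) :=
    smooth_lift hU
  rw [N.der_apply hg, N.der0_eq hg f e hq (fun q' : Qs => u q'.1 (e.1.symm q'.2.1))
    ((hF q hqw).differentiableWithinAt (by simp))
    (by
      filter_upwards [self_mem_nhdsWithin] with q' hq'
      exact (BBA_frq f u hu e hq').symm)]
  let P : Qs →L[ℝ] ℝ × E3 := (ContinuousLinearMap.fst ℝ ℝ (E3 × Fm)).prod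
    ((ContinuousLinearMap.fst ℝ E3 Fm).comp (ContinuousLinearMap.snd ℝ ℝ (E3 × Fm)))
  have h1 : HasFDerivWithinAt (fun q : ℝ × E3 => u q.1 (e.1.symm q.2))
      (fderivWithin ℝ (fun q : ℝ × E3 => u q.1 (e.1.symm q.2)) (Ico 0 b ×ˢ e.1.target)
        (q.1, q.2.1)) (Ico 0 b ×ˢ e.1.target) (P q) :=
    ((hU.differentiableOn (by simp)) (q.1, q.2.1) ⟨hqw.1, hqw.2.1⟩).hasFDerivWithinAt
  have h2 := h1.comp q P.hasFDerivWithinAt
    (fun (z : Qs) (hz : z ∈ wset b e.1.target) => ⟨hz.1, hz.2.1⟩)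
  have h3 := h2.fderivWithin (uniqueDiffOn_wset hg.pos_b e.1.open_target q hqw)
  have h4 := congrArg (fun L : Qs →L[ℝ] ℝ => L (N.X e q)) h3
  exact h4

theorem basic_D (hg : IsFam g b) (i : Fin 3) (f : FA g b) (u : ℝ → M → ℝ)
    (hu : ∀ z : Fr g b, f.1 z = u z.tm z.bs) (e : Ch M) {q : Qs}
    (hq : q ∈ oset b e.1.target (gt g e)) : ((natD hg i).der hg f).1 (frq g b e q) =
      ∑ k, q.2.2 k i * pd k (fun y => u q.1 (e.1.symm y)) q.2.1 := by
  have hqw := (hg.lmet e).oset_sub hq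
  have hU := basic_smooth hg f u hu e
  rw [basic_der hg (natD hg i) f u hu e hq]
  have h1 : (((natD hg i).X e q).1, ((natD hg i).X e q).2.1) =
      ∑ k, q.2.2 k i • ((0, bv k) : ℝ × E3) := by
    show ((0 : ℝ), ∑ k, q.2.2 k i • bv k) = _
    simp only [Fin.sum_univ_three, Prod.smul_mk, smul_zero, Prod.mk_add_mk, add_zero]
  rw [h1, map_sum]
  refine Finset.sum_congr rfl fun k _ => ?_
  rw [map_smul, smul_eq_mul, ← pd_eq_fderivWithin hg.pos_b e.1.open_target hU k hqw.1 hqw.2.1]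

theorem basic_V (hg : IsFam g b) (n : Fin 3) (f : FA g b) (u : ℝ → M → ℝ)
    (hu : ∀ z : Fr g b, f.1 z = u z.tm z.bs) : (natV hg n).der hg f = 0 := by
  refine FA_ext g b fun z => ?_
  obtain ⟨e, q, hq, rfl⟩ := exists_frq z
  rw [basic_der hg (natV hg n) f u hu e hq]
  exact map_zero _

theorem basic_T (hg : IsFam g b) (f : FA g b) (u : ℝ → M → ℝ)
    (hu : ∀ z : Fr g b, f.1 z = u z.tm z.bs) (z : Fr g b) (h0 : 0 < z.tm) :
    HasDerivAt (fun s => u s z.bs) (((natT hg).der hg f).1 z) z.tm := by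
  obtain ⟨e, q, hq, rfl⟩ := exists_frq z
  have hqw := (hg.lmet e).oset_sub hq
  have hU := basic_smooth hg f u hu e
  rw [frq_tm e hq] at h0
  rw [basic_der hg (natT hg) f u hu e hq, frq_tm e hq, frq_bs e hq]
  have h1 : fderivWithin ℝ (fun q : ℝ × E3 => u q.1 (e.1.symm q.2)) (Ico 0 b ×ˢ e.1.target)
      (q.1, q.2.1) (((natT hg).X e q).1, ((natT hg).X e q).2.1) =
      derivWithin (fun s => u s (e.1.symm q.2.1)) (Ico 0 b) q.1 :=
    (derivWithin_eq_fderivWithin hg.pos_b e.1.open_target hU hqw.1 hqw.2.1).symm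
  rw [h1]
  have hn : Ico 0 b ∈ 𝓝 q.1 := Ico_mem_nhds h0 hqw.1.2
  have h2 : DifferentiableWithinAt ℝ (fun s => u s (e.1.symm q.2.1)) (Ico 0 b) q.1 := by
    have h3 : DifferentiableWithinAt ℝ (fun q : ℝ × E3 => u q.1 (e.1.symm q.2))
        (Ico 0 b ×ˢ e.1.target) (q.1, q.2.1) :=
      (hU.differentiableOn (by simp)) (q.1, q.2.1) ⟨hqw.1, hqw.2.1⟩
    exact h3.comp (f := fun s : ℝ => ((s, q.2.1) : ℝ × E3)) q.1
      (differentiableWithinAt_id.prodMk (differentiableWithinAt_const q.2.1))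
      (fun s hs => ⟨hs, hqw.2.1⟩)
  exact h2.hasDerivWithinAt.hasDerivAt hn

theorem basic_mem (hg : IsFam g b) (u : ℝ → M → ℝ)
    (hu : ∀ e : Ch M, ContDiffOn ℝ ∞ (fun q : ℝ × E3 => u q.1 (e.1.symm q.2))
      (Ico 0 b ×ˢ e.1.target)) : (fun z : Fr g b => u z.tm z.bs) ∈ FA g b := by
  refine mem_FA_of_rep g b hg _ fun e => ⟨fun q => u q.1 (e.1.symm q.2.1), ?_, ?_⟩
  · exact smooth_lift (hu e)
  · intro q hq
    show u q.1 (e.1.symm q.2.1) = u (frq g b e q).tm (frq g b e q).bs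
    rw [frq_tm e hq, frq_bs e hq]

end Pool.Agent.RFS.BB
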