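import Pool.Agent.RFS.BSM

/-!
# RFS, chunk (b), module BSF: smoothness of the fields on the full frame bundle

Proofs.
* `smooth_lift`: composition with the projection `q ↦ (q.1, q.2.1)`, which maps `wset b U` into
  `Ico 0 b ×ˢ U`.
* `smooth_Phi`, `smooth_hD`, `smooth_hT`, `smooth_hV`: `contDiffOn_pi`, `ContDiffOn.prodMk`, sums and
  products of the coordinate functions `q.2.2 m j` (`ContDiff` as continuous linear maps), of `bv k`
  (constant), and of the functions of `BSM`.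
* `tangent_hD`, `tangent_hT`: `fderivWithin ℝ (Phi G) (wset b U) q v` entry by entry
  (`fderivWithin_pi`/`hasFDerivWithinAt_pi`), product rule.  For `v = hD G i q`:
  `∑ ∂_r G_kl a_ri a_kp a_lq - ∑ G_kl (Γ^k_rs a_ri a_sp a_lq + a_kp Γ^l_rs a_ri a_sq) = 0` by metric
  compatibility `pd r G_kl = ∑ m (Γ^m_rk G_ml + Γ^m_rl G_mk)` (`compat_chr`, from the definition of
  `chr`, `G⁻¹ * G = 1` and the symmetry of `G`).  For `hT`: `∂ₜ G = -2 rdot`,
  `G * (G⁻¹ * rdot) = rdot`, `rdot` symmetric (it is the derivative of a symmetric matrix).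
* `tangent_hV`: the derivative of `Phi` in the direction `hV n q` is
  `∑ k, (eps n i k * Phi k j + eps n j k * Phi i k)`; on `oset` this is `eps n i j + eps n j i = 0`.
-/

open scoped Manifold ContDiff Matrix
open Set MeasureTheory

noncomputable section

namespace Pool.Agent.RFS.BB

private theorem BSF_coord (m k : Fin 3) : ContDiff ℝ ∞ (fun q : Qs => q.2.2 m k) :=
  (contDiff_apply_apply ℝ ℝ m k).comp (contDiff_snd.comp contDiff_snd)

private theorem BSF_tri (X Y : Fm) (H : Mat3) (p j : Fin 3) :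
    ∑ k, ∑ l, X k p * H k l * Y l j = ((Matrix.of X)ᵀ * H * Matrix.of Y) p j := by
  rw [Matrix.mul_apply, Finset.sum_comm]
  refine Finset.sum_congr rfl fun l _ => ?_
  rw [Matrix.mul_apply, Finset.sum_mul]
  rfl

theorem smooth_lift {b : ℝ} {U : Set E3} {u : ℝ × E3 → ℝ}
    (hu : ContDiffOn ℝ ∞ u (Ico 0 b ×ˢ U)) :
    ContDiffOn ℝ ∞ (fun q : Qs => u (q.1, q.2.1)) (wset b U) :=
  hu.comp (contDiff_fst.prodMk (contDiff_fst.comp contDiff_snd)).contDiffOn
    (fun _ hq => ⟨hq.1, hq.2.1⟩)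

theorem smooth_hV (n : Fin 3) (W : Set Qs) : ContDiffOn ℝ ∞ (hV n) W := by
  refine contDiffOn_const.prodMk (contDiffOn_const.prodMk ?_)
  refine contDiffOn_pi.2 fun m => contDiffOn_pi.2 fun j => ?_
  exact ContDiffOn.sum fun k _ => contDiffOn_const.mul (BSF_coord m k).contDiffOn

namespace LMet

variable {b : ℝ} {U : Set E3} {G : ℝ → E3 → Mat3}

theorem smooth_Phi (h : LMet b U G) : ContDiffOn ℝ ∞ (Phi G) (wset b U) := by
  refine contDiffOn_pi.2 fun i => contDiffOn_pi.2 fun j => ?_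
  exact ContDiffOn.sum fun k _ => ContDiffOn.sum fun l _ =>
    ((BSF_coord k i).contDiffOn.mul (smooth_lift (h.smooth k l))).mul (BSF_coord l j).contDiffOn

theorem smooth_hD (h : LMet b U G) (i : Fin 3) : ContDiffOn ℝ ∞ (hD G i) (wset b U) := by
  refine contDiffOn_const.prodMk (ContDiffOn.prodMk ?_ ?_)
  · exact ContDiffOn.sum fun k _ => (BSF_coord k i).contDiffOn.smul contDiffOn_const
  · refine contDiffOn_pi.2 fun m => contDiffOn_pi.2 fun j => ?_
    exact (ContDiffOn.sum fun k _ => ContDiffOn.sum fun l _ =>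
      ((smooth_lift (h.smooth_chr m k l)).mul (BSF_coord k i).contDiffOn).mul
        (BSF_coord l j).contDiffOn).neg

theorem smooth_hT (h : LMet b U G) : ContDiffOn ℝ ∞ (hT b G) (wset b U) := by
  refine contDiffOn_const.prodMk (contDiffOn_const.prodMk ?_)
  refine contDiffOn_pi.2 fun m => contDiffOn_pi.2 fun j => ?_
  exact ContDiffOn.sum fun l _ => (ContDiffOn.sum fun p _ =>
    (smooth_lift (h.smooth_inv m p)).mul (smooth_lift (h.smooth_rdot p l))).mul
      (BSF_coord l j).contDiffOn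

theorem compat_chr (h : LMet b U G) {t : ℝ} (ht : t ∈ Ico 0 b) {x : E3} (hx : x ∈ U)
    (r k l : Fin 3) : pd r (fun y => G t y k l) x =
      ∑ m, (chr (G t) x m r k * G t x m l + chr (G t) x m r l * G t x m k) := by
  have hsym : ∀ y ∈ U, ∀ i j, G t y i j = G t y j i := by
    intro y hy i j
    have := congrFun (congrFun (h.symm t ht y hy) j) i
    simpa [Matrix.transpose_apply] using this
  have hpds : ∀ l i j, pd l (fun y => G t y i j) x = pd l (fun y => G t y j i) x := by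
    intro l i j
    have e : (fun y => G t y i j) =ᶠ[nhds x] fun y => G t y j i := by
      filter_upwards [h.open_U.mem_nhds hx] with y hy
      exact hsym y hy i j
    unfold pd
    rw [e.fderiv_eq]
  have hH : ((G t x)⁻¹)ᵀ = (G t x)⁻¹ := by
    rw [Matrix.transpose_nonsing_inv, h.symm t ht x hx]
  have hHG : (G t x)⁻¹ * G t x = 1 :=
    Matrix.nonsing_inv_mul _ (isUnit_iff_ne_zero.2 (h.posDef t ht x hx).det_pos.ne')
  have hcon : ∀ (D : Fin 3 → ℝ) (j : Fin 3),
      ∑ m, ((1 / 2) * ∑ n, (G t x)⁻¹ m n * D n) * G t x m j = (1 / 2) * D j := by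
    intro D j
    have h1 : ∀ n, ∑ m, (G t x)⁻¹ m n * G t x m j = if n = j then 1 else 0 := by
      intro n
      have h2 : ((G t x)⁻¹ * G t x) n j = ∑ m, (G t x)⁻¹ n m * G t x m j := Matrix.mul_apply
      rw [hHG, Matrix.one_apply] at h2
      rw [h2]
      refine Finset.sum_congr rfl fun m _ => ?_
      have := congrFun (congrFun hH m) n
      rw [Matrix.transpose_apply] at this
      rw [← this]
    calc ∑ m, ((1 / 2) * ∑ n, (G t x)⁻¹ m n * D n) * G t x m j
        = (1 / 2) * ∑ n, D n * ∑ m, (G t x)⁻¹ m n * G t x m j := by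
          simp only [Finset.mul_sum, Finset.sum_mul]
          rw [Finset.sum_comm]
          refine Finset.sum_congr rfl fun n _ => Finset.sum_congr rfl fun m _ => ?_
          ring
      _ = (1 / 2) * D j := by
          congr 1
          rw [Finset.sum_congr rfl fun n _ => by rw [h1 n]]
          simp
  rw [Finset.sum_add_distrib]
  have e1 : ∑ m, chr (G t) x m r k * G t x m l = (1 / 2) *
      (pd r (fun y => G t y k l) x + pd k (fun y => G t y r l) x
        - pd l (fun y => G t y r k) x) :=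
    hcon (fun n => pd r (fun y => G t y k n) x + pd k (fun y => G t y r n) x
      - pd n (fun y => G t y r k) x) l
  have e2 : ∑ m, chr (G t) x m r l * G t x m k = (1 / 2) *
      (pd r (fun y => G t y l k) x + pd l (fun y => G t y r k) x
        - pd k (fun y => G t y r l) x) :=
    hcon (fun n => pd r (fun y => G t y l n) x + pd l (fun y => G t y r n) x
      - pd n (fun y => G t y r l) x) k
  rw [e1, e2, hpds r l k]
  ring

/-- The derivative of the metric in the direction `w`. -/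
private def dG (b : ℝ) (U : Set E3) (G : ℝ → E3 → Mat3) (q : Qs) (w : ℝ × E3) : Mat3 :=
  Matrix.of fun k l => fderivWithin ℝ (fun z : ℝ × E3 => G z.1 z.2 k l) (Ico 0 b ×ˢ U)
    (q.1, q.2.1) w

private theorem BSF_deriv (h : LMet b U G) {q : Qs} (hq : q ∈ wset b U) (v : Qs) :
    Matrix.of (fderivWithin ℝ (Phi G) (wset b U) q v) =
      (Matrix.of v.2.2)ᵀ * G q.1 q.2.1 * Matrix.of q.2.2
      + (Matrix.of q.2.2)ᵀ * dG b U G q (v.1, v.2.1) * Matrix.of q.2.2
      + (Matrix.of q.2.2)ᵀ * G q.1 q.2.1 * Matrix.of v.2.2 := by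
  ext p r
  have hH : HasFDerivWithinAt (Phi G) (fderivWithin ℝ (Phi G) (wset b U) q) (wset b U) q :=
    ((h.smooth_Phi.differentiableOn (by simp)) q hq).hasFDerivWithinAt
  have hH2 := hasFDerivWithinAt_pi'.1 (hasFDerivWithinAt_pi'.1 hH p) r
  let L : Fin 3 → Fin 3 → Qs →L[ℝ] ℝ := fun k p =>
    ((ContinuousLinearMap.proj (R := ℝ) (φ := fun _ : Fin 3 => ℝ) p).comp
      (ContinuousLinearMap.proj (R := ℝ) (φ := fun _ : Fin 3 => (Fin 3 → ℝ)) k)).comp
      ((ContinuousLinearMap.snd ℝ E3 Fm).comp (ContinuousLinearMap.snd ℝ ℝ (E3 × Fm)))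
  have ha : ∀ k p, HasFDerivWithinAt (fun q : Qs => q.2.2 k p) (L k p) (wset b U) q :=
    fun k p => (L k p).hasFDerivWithinAt
  let P : Qs →L[ℝ] ℝ × E3 := (ContinuousLinearMap.fst ℝ ℝ (E3 × Fm)).prod
    ((ContinuousLinearMap.fst ℝ E3 Fm).comp (ContinuousLinearMap.snd ℝ ℝ (E3 × Fm)))
  have hG : ∀ k l, HasFDerivWithinAt (fun q : Qs => G q.1 q.2.1 k l)
      ((fderivWithin ℝ (fun z : ℝ × E3 => G z.1 z.2 k l) (Ico 0 b ×ˢ U) (q.1, q.2.1)).comp P)
      (wset b U) q := by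
    intro k l
    have h1 : HasFDerivWithinAt (fun z : ℝ × E3 => G z.1 z.2 k l)
        (fderivWithin ℝ (fun z : ℝ × E3 => G z.1 z.2 k l) (Ico 0 b ×ˢ U) (q.1, q.2.1))
        (Ico 0 b ×ˢ U) (P q) :=
      (((h.smooth k l).differentiableOn (by simp)) (q.1, q.2.1) ⟨hq.1, hq.2.1⟩).hasFDerivWithinAt
    exact h1.comp q P.hasFDerivWithinAt (fun z hz => ⟨hz.1, hz.2.1⟩)
  have hsum : HasFDerivWithinAt (fun q : Qs => ∑ k, ∑ l, q.2.2 k p * G q.1 q.2.1 k l * q.2.2 l r)
      (∑ k, ∑ l, ((q.2.2 k p * G q.1 q.2.1 k l) • L l r + q.2.2 l r •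
        (q.2.2 k p • ((fderivWithin ℝ (fun z : ℝ × E3 => G z.1 z.2 k l) (Ico 0 b ×ˢ U)
          (q.1, q.2.1)).comp P) + G q.1 q.2.1 k l • L k p))) (wset b U) q :=
    HasFDerivWithinAt.fun_sum fun k _ => HasFDerivWithinAt.fun_sum fun l _ =>
      ((ha k p).mul (hG k l)).mul (ha l r)
  have huniq := (uniqueDiffOn_wset h.pos_b h.open_U q hq).eq hH2 hsum
  have hv := congrArg (fun F : Qs →L[ℝ] ℝ => F v) huniq
  have hl : fderivWithin ℝ (Phi G) (wset b U) q v p r = ∑ k, ∑ l,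
      ((q.2.2 k p * G q.1 q.2.1 k l) * v.2.2 l r + q.2.2 l r *
        (q.2.2 k p * (dG b U G q (v.1, v.2.1)) k l + G q.1 q.2.1 k l * v.2.2 k p)) := by
    refine Eq.trans hv ?_
    simp only [FunLike.coe_sum, Finset.sum_apply, add_apply,
      smul_apply, smul_eq_mul]
    rfl
  show fderivWithin ℝ (Phi G) (wset b U) q v p r = _
  rw [hl, Matrix.add_apply, Matrix.add_apply, ← BSF_tri, ← BSF_tri, ← BSF_tri,
    ← Finset.sum_add_distrib, ← Finset.sum_add_distrib]
  refine Finset.sum_congr rfl fun k _ => ?_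
  rw [← Finset.sum_add_distrib, ← Finset.sum_add_distrib]
  refine Finset.sum_congr rfl fun l _ => ?_
  ring

private theorem BSF_symm (h : LMet b U G) {q : Qs} (hq : q ∈ wset b U) :
    (G q.1 q.2.1)ᵀ = G q.1 q.2.1 := h.symm q.1 hq.1 q.2.1 hq.2.1

theorem tangent_hD (h : LMet b U G) (i : Fin 3) {q : Qs} (hq : q ∈ wset b U) :
    fderivWithin ℝ (Phi G) (wset b U) q (hD G i q) = 0 := by
  suffices hs : Matrix.of (fderivWithin ℝ (Phi G) (wset b U) q (hD G i q)) = 0 from hs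
  rw [BSF_deriv h hq]
  let Nm : Mat3 := Matrix.of fun m k => ∑ r, chr (G q.1) q.2.1 m r k * q.2.2 r i
  have h1 : Matrix.of (hD G i q).2.2 = -(Nm * Matrix.of q.2.2) := by
    ext m j
    rw [Matrix.neg_apply, Matrix.mul_apply]
    show -∑ k, ∑ l, chr (G q.1) q.2.1 m k l * q.2.2 k i * q.2.2 l j = _
    rw [Finset.sum_comm]
    congr 1
    refine Finset.sum_congr rfl fun l _ => ?_
    show _ = (∑ r, chr (G q.1) q.2.1 m r l * q.2.2 r i) * q.2.2 l j
    rw [Finset.sum_mul]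
  have h2 : dG b U G q ((hD G i q).1, (hD G i q).2.1) =
      Nmᵀ * G q.1 q.2.1 + (Nmᵀ * G q.1 q.2.1)ᵀ := by
    ext k l
    have e1 : (((hD G i q).1, (hD G i q).2.1) : ℝ × E3) =
        ∑ r, q.2.2 r i • ((0, bv r) : ℝ × E3) := by
      show ((0, ∑ k, q.2.2 k i • bv k) : ℝ × E3) = _
      rw [Prod.ext_iff, Prod.fst_sum, Prod.snd_sum]
      constructor
      · simp
      · simp
    rw [Matrix.add_apply, Matrix.transpose_apply, Matrix.mul_apply, Matrix.mul_apply]
    show fderivWithin ℝ (fun z : ℝ × E3 => G z.1 z.2 k l) (Ico 0 b ×ˢ U) (q.1, q.2.1) _ = _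
    rw [e1, map_sum]
    have e2 : ∀ r, fderivWithin ℝ (fun z : ℝ × E3 => G z.1 z.2 k l) (Ico 0 b ×ˢ U) (q.1, q.2.1)
        (q.2.2 r i • ((0, bv r) : ℝ × E3)) = q.2.2 r i *
        ∑ m, (chr (G q.1) q.2.1 m r k * G q.1 q.2.1 m l
          + chr (G q.1) q.2.1 m r l * G q.1 q.2.1 m k) := by
      intro r
      rw [map_smul, smul_eq_mul, ← pd_eq_fderivWithin h.pos_b h.open_U (h.smooth k l) r hq.1 hq.2.1]
      congr 1
      exact h.compat_chr hq.1 hq.2.1 r k l
    rw [Finset.sum_congr rfl fun r _ => e2 r, ← Finset.sum_add_distrib]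
    simp only [Matrix.transpose_apply]
    show _ = ∑ m, ((∑ r, chr (G q.1) q.2.1 m r k * q.2.2 r i) * G q.1 q.2.1 m l
      + (∑ r, chr (G q.1) q.2.1 m r l * q.2.2 r i) * G q.1 q.2.1 m k)
    simp only [Finset.mul_sum, Finset.sum_mul, ← Finset.sum_add_distrib]
    rw [Finset.sum_comm]
    refine Finset.sum_congr rfl fun m _ => Finset.sum_congr rfl fun r _ => ?_
    ring
  rw [h1, h2, Matrix.transpose_mul Nmᵀ, Matrix.transpose_transpose, BSF_symm h hq,
    Matrix.transpose_neg, Matrix.transpose_mul]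
  noncomm_ring

theorem tangent_hT (h : LMet b U G) {q : Qs} (hq : q ∈ wset b U) :
    fderivWithin ℝ (Phi G) (wset b U) q (hT b G q) = 0 := by
  suffices hs : Matrix.of (fderivWithin ℝ (Phi G) (wset b U) q (hT b G q)) = 0 from hs
  rw [BSF_deriv h hq]
  have hR : (rdot b G q.1 q.2.1)ᵀ = rdot b G q.1 q.2.1 := by
    ext i j
    rw [Matrix.transpose_apply]
    show -(1 / 2) * derivWithin (fun s => G s q.2.1 j i) (Ico 0 b) q.1
      = -(1 / 2) * derivWithin (fun s => G s q.2.1 i j) (Ico 0 b) q.1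
    congr 1
    have e : ∀ s ∈ Ico 0 b, G s q.2.1 j i = G s q.2.1 i j := by
      intro s hs
      have := congrFun (congrFun (h.symm s hs q.2.1 hq.2.1) i) j
      simpa [Matrix.transpose_apply] using this
    exact derivWithin_congr e (e q.1 hq.1)
  have h1 : Matrix.of (hT b G q).2.2 = (G q.1 q.2.1)⁻¹ * rdot b G q.1 q.2.1 * Matrix.of q.2.2 := by
    ext m j
    rw [Matrix.mul_apply]
    show ∑ l, (∑ p, (G q.1 q.2.1)⁻¹ m p * rdot b G q.1 q.2.1 p l) * q.2.2 l j = _
    refine Finset.sum_congr rfl fun l _ => ?_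
    rw [Matrix.mul_apply]
    rfl
  have h2 : dG b U G q ((hT b G q).1, (hT b G q).2.1) = (-2 : ℝ) • rdot b G q.1 q.2.1 := by
    ext k l
    show fderivWithin ℝ (fun z : ℝ × E3 => G z.1 z.2 k l) (Ico 0 b ×ˢ U) (q.1, q.2.1) (1, 0) = _
    rw [← derivWithin_eq_fderivWithin h.pos_b h.open_U (h.smooth k l) hq.1 hq.2.1,
      Matrix.smul_apply]
    show _ = (-2 : ℝ) * (-(1 / 2) * derivWithin (fun s => G s q.2.1 k l) (Ico 0 b) q.1)
    ring
  have hinv : (G q.1 q.2.1)⁻¹ * G q.1 q.2.1 = 1 :=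
    Matrix.nonsing_inv_mul _ (isUnit_iff_ne_zero.2 (h.posDef q.1 hq.1 q.2.1 hq.2.1).det_pos.ne')
  have hinv' : G q.1 q.2.1 * (G q.1 q.2.1)⁻¹ = 1 :=
    Matrix.mul_nonsing_inv _ (isUnit_iff_ne_zero.2 (h.posDef q.1 hq.1 q.2.1 hq.2.1).det_pos.ne')
  rw [h1, h2, Matrix.transpose_mul, Matrix.transpose_mul, hR, Matrix.transpose_nonsing_inv,
    BSF_symm h hq]
  have e1 : (Matrix.of q.2.2)ᵀ * (rdot b G q.1 q.2.1 * (G q.1 q.2.1)⁻¹) * G q.1 q.2.1
      * Matrix.of q.2.2 = (Matrix.of q.2.2)ᵀ * rdot b G q.1 q.2.1 * Matrix.of q.2.2 := by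
    rw [Matrix.mul_assoc _ (rdot b G q.1 q.2.1 * (G q.1 q.2.1)⁻¹), Matrix.mul_assoc
      (rdot b G q.1 q.2.1), hinv, Matrix.mul_one]
  have e2 : (Matrix.of q.2.2)ᵀ * G q.1 q.2.1 * ((G q.1 q.2.1)⁻¹ * rdot b G q.1 q.2.1
      * Matrix.of q.2.2) = (Matrix.of q.2.2)ᵀ * rdot b G q.1 q.2.1 * Matrix.of q.2.2 := by
    rw [Matrix.mul_assoc, ← Matrix.mul_assoc (G q.1 q.2.1), ← Matrix.mul_assoc (G q.1 q.2.1),
      hinv', Matrix.one_mul, Matrix.mul_assoc]
  rw [e1, e2, Matrix.mul_smul, Matrix.smul_mul]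
  module

theorem tangent_hV (h : LMet b U G) (n : Fin 3) {q : Qs} (hq : q ∈ oset b U G) :
    fderivWithin ℝ (Phi G) (wset b U) q (hV n q) = 0 := by
  have hAGA : (Matrix.of q.2.2)ᵀ * G q.1 q.2.1 * Matrix.of q.2.2 = 1 := by
    ext i j
    rw [← BSF_tri, Matrix.one_apply]
    exact congrFun (congrFun hq.2.2 i) j
  have hdet : (Matrix.of q.2.2).det ≠ 0 := by
    intro h0
    have h1 := congrArg Matrix.det hAGA
    rw [Matrix.det_mul, h0, mul_zero, Matrix.det_one] at h1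
    exact zero_ne_one h1
  have hq' : q ∈ wset b U := ⟨hq.1, hq.2.1, hdet⟩
  suffices hs : Matrix.of (fderivWithin ℝ (Phi G) (wset b U) q (hV n q)) = 0 from hs
  rw [BSF_deriv h hq']
  let Em : Mat3 := Matrix.of fun j k => eps n j k
  have h1 : Matrix.of (hV n q).2.2 = Matrix.of q.2.2 * Emᵀ := by
    ext m j
    rw [Matrix.mul_apply]
    show ∑ k, eps n j k * q.2.2 m k = ∑ k, q.2.2 m k * eps n j k
    exact Finset.sum_congr rfl fun k _ => mul_comm _ _
  have h2 : dG b U G q ((hV n q).1, (hV n q).2.1) = 0 := by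
    ext k l
    show fderivWithin ℝ (fun z : ℝ × E3 => G z.1 z.2 k l) (Ico 0 b ×ˢ U) (q.1, q.2.1)
      ((0 : ℝ), (0 : E3)) = 0
    exact map_zero _
  have hE : Em + Emᵀ = 0 := by
    ext j k
    rw [Matrix.add_apply, Matrix.transpose_apply]
    show eps n j k + eps n k j = 0
    unfold eps
    ring
  rw [h1, h2, Matrix.mul_zero, Matrix.zero_mul, add_zero, Matrix.transpose_mul,
    Matrix.transpose_transpose, Matrix.mul_assoc Em, Matrix.mul_assoc Em, hAGA, Matrix.mul_one,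
    ← Matrix.mul_assoc, hAGA, Matrix.one_mul, hE]

end LMet

end Pool.Agent.RFS.BB
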