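import Pool.Agent.RFS.BSA
import Pool.Agent.RFS.BSF

/-!
# RFS, chunk (b), module BCL: the coordinate calculus of a metric family on a patch

Proofs.
* fields of `cal`: commutation by `pder_comm` with `wset_subset`; `dt (x k) = 0` etc. by
  `pder_congr` with the linear coordinate functions (`fderivWithin` of a continuous linear map, with
  `h.ud`), `smAlg_ext`; `da_g`, `da_gi`: the function does not depend on the frame, chain rule with
  the projection `q ↦ (q.1, q.2.1)` (`fderivWithin_comp`, or: the derivative in the direction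
  `(0, 0, w)` is the derivative of the constant curve); `g_symm` from `h.symm`; `gi_symm`: the inverse
  of a symmetric matrix is symmetric (`Matrix.transpose_nonsing_inv`); `gi_g`:
  `Matrix.nonsing_inv_mul` (`det ≠ 0` by `h.posDef`), entry by entry.
* `cal_vec`: `Cal.vec` unfolded, `pder_apply`, linearity of `fderivWithin`:
  `(u, ∑ v k • bv k, w) = u • (1,0,0) + ∑ v k • (0, bv k, 0) + ∑ w m j • (0, 0, single m (single j 1))`.
* `cal_lift_dx`, `cal_lift_dt`: for `F q = u (q.1, q.2.1)`: chain rule and `pd_eq_fderivWithin`,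
  `derivWithin_eq_fderivWithin`.
-/

open scoped Manifold ContDiff Matrix
open Set MeasureTheory

noncomputable section

namespace Pool.Agent.RFS.BB

/-- The coordinate `x k` as a continuous linear map. -/
private def Lx (k : Fin 3) : Qs →L[ℝ] ℝ :=
  (EuclideanSpace.proj k : E3 →L[ℝ] ℝ).comp
    ((ContinuousLinearMap.fst ℝ E3 Fm).comp (ContinuousLinearMap.snd ℝ ℝ (E3 × Fm)))

/-- The coordinate `a m j` as a continuous linear map. -/
private def La (m j : Fin 3) : Qs →L[ℝ] ℝ :=
  ((ContinuousLinearMap.proj (R := ℝ) (φ := fun _ : Fin 3 => ℝ) j).comp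
      (ContinuousLinearMap.proj (R := ℝ) (φ := fun _ : Fin 3 => (Fin 3 → ℝ)) m)).comp
      ((ContinuousLinearMap.snd ℝ E3 Fm).comp (ContinuousLinearMap.snd ℝ ℝ (E3 × Fm)))

private theorem Lx_apply (k : Fin 3) (q : Qs) : Lx k q = q.2.1 k := rfl

private theorem La_apply (m j : Fin 3) (q : Qs) : La m j q = q.2.2 m j := rfl

private theorem BCL_lin {W : Set Qs} (hW : UniqueDiffOn ℝ W) (v : Qs) (L : Qs →L[ℝ] ℝ)
    (f : smAlg W) (hf : ∀ q : W, f.1 q = L q) (q : W) : (pder hW v f).1 q = L v := by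
  rw [pder_congr hW v f (fun q => L q) (fun q => (hf q).symm) q]
  rw [L.fderivWithin (hW q q.2)]

private theorem BCL_lift {b : ℝ} {U : Set E3} (hud : UniqueDiffOn ℝ (wset b U))
    {u : ℝ × E3 → ℝ} (hu : ContDiffOn ℝ ∞ u (Ico 0 b ×ˢ U)) (v : Qs)
    (f : smAlg (wset b U)) (hf : ∀ q : wset b U, f.1 q = u (q.1.1, q.1.2.1)) (q : wset b U) :
    (pder hud v f).1 q = fderivWithin ℝ u (Ico 0 b ×ˢ U) (q.1.1, q.1.2.1) (v.1, v.2.1) := by
  rw [pder_congr hud v f (fun q : Qs => u (q.1, q.2.1)) (fun q => (hf q).symm) q]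
  let P : Qs →L[ℝ] ℝ × E3 := (ContinuousLinearMap.fst ℝ ℝ (E3 × Fm)).prod
    ((ContinuousLinearMap.fst ℝ E3 Fm).comp (ContinuousLinearMap.snd ℝ ℝ (E3 × Fm)))
  have h1 : HasFDerivWithinAt u (fderivWithin ℝ u (Ico 0 b ×ˢ U) (q.1.1, q.1.2.1))
      (Ico 0 b ×ˢ U) (P q.1) :=
    ((hu.differentiableOn (by simp)) (q.1.1, q.1.2.1) ⟨q.2.1, q.2.2.1⟩).hasFDerivWithinAt
  have h2 : HasFDerivWithinAt (fun q : Qs => u (q.1, q.2.1))
      ((fderivWithin ℝ u (Ico 0 b ×ˢ U) (q.1.1, q.1.2.1)).comp P) (wset b U) q.1 :=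
    h1.comp q.1 P.hasFDerivWithinAt (fun z hz => ⟨hz.1, hz.2.1⟩)
  rw [h2.fderivWithin (hud q q.2)]
  rfl

private theorem BCL_ite {W : Set Qs} (c : Prop) [Decidable c] (q : W) :
    (if c then (1 : smAlg W) else 0).1 q = if c then 1 else 0 := by
  split_ifs <;> rfl

private theorem BCL_dsum {A : Type*} [CommRing A] [Algebra ℝ A] {ι : Type*} (s : Finset ι)
    (d : ι → Derivation ℝ A A) (f : A) : (∑ i ∈ s, d i) f = ∑ i ∈ s, d i f := by
  have h := map_sum (Derivation.coeFnAddMonoidHom (R := ℝ) (A := A) (M := A)) d s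
  have h2 := congrFun h f
  rw [Finset.sum_apply] at h2
  exact h2

namespace LMet

variable {b : ℝ} {U : Set E3} {G : ℝ → E3 → Mat3}

theorem ud (h : LMet b U G) : UniqueDiffOn ℝ (wset b U) := uniqueDiffOn_wset h.pos_b h.open_U

/-- A function of `(t, x)` as element of the ring. -/
def lift {b : ℝ} {U : Set E3} (u : ℝ × E3 → ℝ) (hu : ContDiffOn ℝ ∞ u (Ico 0 b ×ˢ U)) :
    smAlg (wset b U) := smMk (fun q => u (q.1, q.2.1)) (smooth_lift hu)

/-- The coordinate `x k`. -/
def cx (b : ℝ) (U : Set E3) (k : Fin 3) : smAlg (wset b U) := smMk (fun q => q.2.1 k) (by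
  exact (Lx k).contDiff.contDiffOn)

/-- The coordinate `a m j`. -/
def ca (b : ℝ) (U : Set E3) (m j : Fin 3) : smAlg (wset b U) := smMk (fun q => q.2.2 m j) (by
  exact (La m j).contDiff.contDiffOn)

/-- The coordinate calculus. -/
def cal (h : LMet b U G) : Cal (smAlg (wset b U)) where
  dt := pder h.ud (1, 0, 0)
  dx := fun k => pder h.ud (0, bv k, 0)
  da := fun m j => pder h.ud (0, 0, Pi.single m (Pi.single j 1))
  x := cx b U
  a := ca b U
  g := fun k l => lift (fun q => G q.1 q.2 k l) (h.smooth k l)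
  gi := fun k l => lift (fun q => (G q.1 q.2)⁻¹ k l) (h.smooth_inv k l)
  dt_dx := by
    exact fun k f => pder_comm h.ud (wset_subset h.pos_b h.open_U) _ _ f
  dt_da := by
    exact fun m j f => pder_comm h.ud (wset_subset h.pos_b h.open_U) _ _ f
  dx_dx := by
    exact fun k l f => pder_comm h.ud (wset_subset h.pos_b h.open_U) _ _ f
  dx_da := by
    exact fun k m j f => pder_comm h.ud (wset_subset h.pos_b h.open_U) _ _ f
  da_da := by
    exact fun m j m' j' f => pder_comm h.ud (wset_subset h.pos_b h.open_U) _ _ f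
  dt_x := by
    intro k
    apply smAlg_ext
    intro q
    exact BCL_lin h.ud (1, 0, 0) (Lx k) (cx b U k) (fun q => rfl) q
  dx_x := by
    intro k l
    apply smAlg_ext
    intro q
    rw [BCL_ite, BCL_lin h.ud (0, bv k, 0) (Lx l) (cx b U l) (fun q => rfl) q, Lx_apply]
    show (EuclideanSpace.single k (1 : ℝ)) l = _
    rw [PiLp.single_apply]
    by_cases hkl : k = l
    · rw [if_pos hkl, if_pos hkl.symm]
    · rw [if_neg hkl, if_neg (fun e => hkl e.symm)]
  da_x := by
    intro m j k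
    apply smAlg_ext
    intro q
    exact BCL_lin h.ud _ (Lx k) (cx b U k) (fun q => rfl) q
  dt_a := by
    intro m j
    apply smAlg_ext
    intro q
    exact BCL_lin h.ud _ (La m j) (ca b U m j) (fun q => rfl) q
  dx_a := by
    intro k m j
    apply smAlg_ext
    intro q
    exact BCL_lin h.ud _ (La m j) (ca b U m j) (fun q => rfl) q
  da_a := by
    intro m j m' j'
    apply smAlg_ext
    intro q
    rw [BCL_ite, BCL_lin h.ud _ (La m' j') (ca b U m' j') (fun q => rfl) q, La_apply]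
    show (Pi.single m (Pi.single j (1 : ℝ)) : Fm) m' j' = _
    by_cases hm : m = m'
    · subst hm
      rw [Pi.single_eq_same]
      by_cases hj : j = j'
      · subst hj
        rw [Pi.single_eq_same, if_pos ⟨rfl, rfl⟩]
      · rw [Pi.single_eq_of_ne (fun e => hj e.symm), if_neg (fun e => hj e.2)]
    · rw [Pi.single_eq_of_ne (fun e => hm e.symm), if_neg (fun e => hm e.1)]
      rfl
  da_g := by
    intro m j k l
    apply smAlg_ext
    intro q
    rw [BCL_lift h.ud (h.smooth k l) _ _ (fun q => rfl) q]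
    exact map_zero _
  da_gi := by
    intro m j k l
    apply smAlg_ext
    intro q
    rw [BCL_lift h.ud (h.smooth_inv k l) _ _ (fun q => rfl) q]
    exact map_zero _
  g_symm := by
    intro k l
    apply smAlg_ext
    intro q
    show G q.1.1 q.1.2.1 k l = G q.1.1 q.1.2.1 l k
    have := congrFun (congrFun (h.symm q.1.1 q.2.1 q.1.2.1 q.2.2.1) l) k
    simpa [Matrix.transpose_apply] using this
  gi_symm := by
    intro k l
    apply smAlg_ext
    intro q
    show (G q.1.1 q.1.2.1)⁻¹ k l = (G q.1.1 q.1.2.1)⁻¹ l k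
    have hH : ((G q.1.1 q.1.2.1)⁻¹)ᵀ = (G q.1.1 q.1.2.1)⁻¹ := by
      rw [Matrix.transpose_nonsing_inv, h.symm q.1.1 q.2.1 q.1.2.1 q.2.2.1]
    have := congrFun (congrFun hH l) k
    rw [Matrix.transpose_apply] at this
    exact this
  gi_g := by
    intro k m
    apply smAlg_ext
    intro q
    rw [BCL_ite, sum_apply]
    have hHG : (G q.1.1 q.1.2.1)⁻¹ * G q.1.1 q.1.2.1 = 1 :=
      Matrix.nonsing_inv_mul _ (isUnit_iff_ne_zero.2
        (h.posDef q.1.1 q.2.1 q.1.2.1 q.2.2.1).det_pos.ne')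
    have h2 : ((G q.1.1 q.1.2.1)⁻¹ * G q.1.1 q.1.2.1) k m =
        ∑ l, (G q.1.1 q.1.2.1)⁻¹ k l * G q.1.1 q.1.2.1 l m := Matrix.mul_apply
    rw [hHG, Matrix.one_apply] at h2
    rw [h2]
    rfl

theorem cal_a (h : LMet b U G) (m j : Fin 3) (q : wset b U) : (h.cal.a m j).1 q = q.1.2.2 m j := by
  rfl

theorem cal_x (h : LMet b U G) (k : Fin 3) (q : wset b U) : (h.cal.x k).1 q = q.1.2.1 k := by
  rfl

theorem cal_g (h : LMet b U G) (k l : Fin 3) (q : wset b U) :
    (h.cal.g k l).1 q = G q.1.1 q.1.2.1 k l := by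
  rfl

theorem cal_gi (h : LMet b U G) (k l : Fin 3) (q : wset b U) :
    (h.cal.gi k l).1 q = (G q.1.1 q.1.2.1)⁻¹ k l := by
  rfl

theorem cal_dx_lift (h : LMet b U G) (u : ℝ × E3 → ℝ) (hu : ContDiffOn ℝ ∞ u (Ico 0 b ×ˢ U))
    (f : smAlg (wset b U)) (hf : ∀ q : wset b U, f.1 q = u (q.1.1, q.1.2.1)) (k : Fin 3)
    (q : wset b U) : (h.cal.dx k f).1 q = pd k (fun y => u (q.1.1, y)) q.1.2.1 := by
  rw [pd_eq_fderivWithin h.pos_b h.open_U hu k q.2.1 q.2.2.1]
  exact BCL_lift h.ud hu (0, bv k, 0) f hf q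

theorem cal_dt_lift (h : LMet b U G) (u : ℝ × E3 → ℝ) (hu : ContDiffOn ℝ ∞ u (Ico 0 b ×ˢ U))
    (f : smAlg (wset b U)) (hf : ∀ q : wset b U, f.1 q = u (q.1.1, q.1.2.1))
    (q : wset b U) : (h.cal.dt f).1 q = derivWithin (fun s => u (s, q.1.2.1)) (Ico 0 b) q.1.1 := by
  rw [derivWithin_eq_fderivWithin h.pos_b h.open_U hu q.2.1 q.2.2.1]
  exact BCL_lift h.ud hu (1, 0, 0) f hf q

theorem cal_vec (h : LMet b U G) (u : smAlg (wset b U)) (v : Fin 3 → smAlg (wset b U))
    (w : Fin 3 → Fin 3 → smAlg (wset b U)) (f : smAlg (wset b U)) (q : wset b U) :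
    (h.cal.vec u v w f).1 q = fderivWithin ℝ (ext0 f.1) (wset b U) q
      (u.1 q, ∑ k, (v k).1 q • bv k, fun m j => (w m j).1 q) := by
  have hdec : ((u.1 q, ∑ k, (v k).1 q • bv k, fun m j => (w m j).1 q) : Qs) =
      u.1 q • ((1, 0, 0) : Qs) + ∑ k, (v k).1 q • ((0, bv k, 0) : Qs) +
        ∑ m, ∑ j, (w m j).1 q • ((0, 0, Pi.single m (Pi.single j 1)) : Qs) := by
    rw [Prod.ext_iff, Prod.ext_iff]
    refine ⟨?_, ?_, ?_⟩
    · simp [Prod.fst_sum]
    · simp [Prod.fst_sum, Prod.snd_sum]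
    · have h3 : ∀ m j, (w m j).1 q • (Pi.single m (Pi.single j 1) : Fm) =
          Pi.single m (Pi.single j ((w m j).1 q)) := by
        intro m j
        rw [← Pi.single_smul, ← Pi.single_smul, smul_eq_mul, mul_one]
      simp only [Prod.snd_add, Prod.smul_snd, Prod.snd_sum, h3, smul_zero, zero_add,
        Finset.sum_const_zero]
      funext m j
      rw [Finset.sum_apply, Finset.sum_apply, Finset.sum_eq_single m, Finset.sum_apply,
        Finset.sum_apply, Finset.sum_eq_single j]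
      · simp
      · intro j' _ hj'
        simp [Pi.single_eq_of_ne (fun e => hj' e.symm)]
      · intro hj
        exact absurd (Finset.mem_univ _) hj
      · intro m' _ hm'
        simp [Finset.sum_apply, Pi.single_eq_of_ne (fun e => hm' e.symm)]
      · intro hm
        exact absurd (Finset.mem_univ _) hm
  rw [hdec, map_add, map_add, map_smul, map_sum, map_sum]
  have h1 : (h.cal.vec u v w f).1 q = u.1 q * (h.cal.dt f).1 q +
      ∑ k, (v k).1 q * (h.cal.dx k f).1 q + ∑ m, ∑ j, (w m j).1 q * (h.cal.da m j f).1 q := by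
    have h2 : h.cal.vec u v w f = u * h.cal.dt f + ∑ k, v k * h.cal.dx k f +
        ∑ m, ∑ j, w m j * h.cal.da m j f := by
      rw [Cal.vec]
      simp only [Derivation.add_apply, Derivation.smul_apply, BCL_dsum, smul_eq_mul]
    rw [h2]
    show u.1 q * (h.cal.dt f).1 q + (∑ k, v k * h.cal.dx k f).1 q +
      (∑ m, ∑ j, w m j * h.cal.da m j f).1 q = _
    rw [sum_apply, sum_apply]
    congr 1
  rw [h1]
  congr 1
  · congr 1
    refine Finset.sum_congr rfl fun k _ => ?_
    rw [map_smul]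
    rfl
  · refine Finset.sum_congr rfl fun m _ => ?_
    rw [map_sum]
    refine Finset.sum_congr rfl fun j _ => ?_
    rw [map_smul]
    rfl

end LMet

end Pool.Agent.RFS.BB
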