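import Pool.Agent.RFS.BCL

/-!
# RFS, chunk (b), module BCM: values of the elements of the coordinate calculus

Proofs.  Unfold the definitions of `Cal`, push the evaluation at `q` through (`sum_apply`, the
coercions of the subalgebra), `cal_g`, `cal_gi`, `cal_a`, `cal_dx_lift` (with the smooth functions
`G`, `chr`: `h.smooth`, `h.smooth_chr`), `cal_dt_lift`.
* `cal_P`, `cal_rho`: `Matrix.mul_apply`, `Finset.sum_mul`, `Finset.sum_comm`;
  `scal = trace (G⁻¹ * ricci) = ∑ k, ∑ l, G⁻¹ k l * ricci l k`.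
* `cal_D`, `cal_V`, `cal_T`: `cal_vec` and the values of the components.
-/

open scoped Manifold ContDiff Matrix
open Set MeasureTheory

noncomputable section

namespace Pool.Agent.RFS.BB

private theorem BCM_mul {W : Set Qs} (f g : smAlg W) (q : W) : (f * g).1 q = f.1 q * g.1 q := rfl

private theorem BCM_add {W : Set Qs} (f g : smAlg W) (q : W) : (f + g).1 q = f.1 q + g.1 q := rfl

private theorem BCM_sub {W : Set Qs} (f g : smAlg W) (q : W) : (f - g).1 q = f.1 q - g.1 q := rfl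

private theorem BCM_neg {W : Set Qs} (f : smAlg W) (q : W) : (-f).1 q = -f.1 q := rfl

private theorem BCM_smul {W : Set Qs} (c : ℝ) (f : smAlg W) (q : W) :
    (c • f).1 q = c * f.1 q := rfl

private theorem BCM_zero {W : Set Qs} (q : W) : (0 : smAlg W).1 q = 0 := rfl

private theorem BCM_one {W : Set Qs} (q : W) : (1 : smAlg W).1 q = 1 := rfl

private theorem BCM_tri (X Y : Fm) (H : Mat3) (i j : Fin 3) :
    ∑ k, ∑ l, X k i * H k l * Y l j = ((Matrix.of X)ᵀ * H * Matrix.of Y) i j := by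
  rw [Matrix.mul_apply, Finset.sum_comm]
  refine Finset.sum_congr rfl fun l _ => ?_
  rw [Matrix.mul_apply, Finset.sum_mul]
  rfl

namespace LMet

variable {b : ℝ} {U : Set E3} {G : ℝ → E3 → Mat3}

theorem cal_Gam (h : LMet b U G) (k i j : Fin 3) (q : wset b U) :
    (h.cal.Gam k i j).1 q = chr (G q.1.1) q.1.2.1 k i j := by
  have hd : ∀ r k l, (h.cal.dx r (h.cal.g k l)).1 q = pd r (fun y => G q.1.1 y k l) q.1.2.1 :=
    fun r k l => h.cal_dx_lift (fun z => G z.1 z.2 k l) (h.smooth k l) _ (fun q => rfl) r q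
  rw [Cal.Gam, BCM_smul, sum_apply]
  simp only [BCM_mul, BCM_add, BCM_sub, hd, cal_gi]
  rfl

theorem cal_ric (h : LMet b U G) (j k : Fin 3) (q : wset b U) :
    (h.cal.ric j k).1 q = ricci (G q.1.1) q.1.2.1 j k := by
  have hd : ∀ r k i j, (h.cal.dx r (h.cal.Gam k i j)).1 q =
      pd r (fun y => chr (G q.1.1) y k i j) q.1.2.1 :=
    fun r k i j => h.cal_dx_lift (fun z => chr (G z.1) z.2 k i j) (h.smooth_chr k i j) _
      (fun q => h.cal_Gam k i j q) r q
  rw [Cal.ric, sum_apply]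
  simp only [BCM_mul, BCM_add, BCM_sub, hd, cal_Gam, sum_apply]
  rfl

theorem cal_sc (h : LMet b U G) (q : wset b U) : (h.cal.sc).1 q = scal (G q.1.1) q.1.2.1 := by
  rw [Cal.sc, sum_apply]
  simp only [sum_apply, BCM_mul, cal_gi, cal_ric]
  rw [scal, Matrix.trace]
  refine Finset.sum_congr rfl fun k _ => ?_
  rw [Matrix.diag_apply, Matrix.mul_apply]

theorem cal_P (h : LMet b U G) (i j : Fin 3) (q : wset b U) : (h.cal.P i j).1 q =
    ((Matrix.of q.1.2.2)ᵀ * pten (G q.1.1) q.1.2.1 * Matrix.of q.1.2.2) i j := by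
  rw [Cal.P, sum_apply, ← BCM_tri]
  refine Finset.sum_congr rfl fun k _ => ?_
  rw [sum_apply]
  refine Finset.sum_congr rfl fun l _ => ?_
  rw [BCM_mul, BCM_mul, BCM_sub, BCM_smul, BCM_mul, cal_a, cal_a, cal_sc, cal_g, cal_ric, pten,
    Matrix.sub_apply, Matrix.smul_apply, smul_eq_mul]
  ring

theorem cal_rt (h : LMet b U G) (k l : Fin 3) (q : wset b U) :
    (h.cal.rt k l).1 q = rdot b G q.1.1 q.1.2.1 k l := by
  rw [Cal.rt, BCM_smul, h.cal_dt_lift (fun z => G z.1 z.2 k l) (h.smooth k l) _ (fun q => rfl) q]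
  rfl

theorem cal_rho (h : LMet b U G) (i j : Fin 3) (q : wset b U) : (h.cal.rho i j).1 q =
    ((Matrix.of q.1.2.2)ᵀ * rdot b G q.1.1 q.1.2.1 * Matrix.of q.1.2.2) i j := by
  rw [Cal.rho, sum_apply, ← BCM_tri]
  refine Finset.sum_congr rfl fun k _ => ?_
  rw [sum_apply]
  refine Finset.sum_congr rfl fun l _ => ?_
  rw [BCM_mul, BCM_mul, cal_a, cal_a, cal_rt]

theorem cal_h (h : LMet b U G) (i j : Fin 3) (q : wset b U) :
    (h.cal.h i j).1 q = Phi G q.1 i j := by
  rw [Cal.h, sum_apply]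
  refine Finset.sum_congr rfl fun k _ => ?_
  rw [sum_apply]
  rfl

theorem cal_D (h : LMet b U G) (i : Fin 3) (f : smAlg (wset b U)) (q : wset b U) :
    (h.cal.D i f).1 q = fderivWithin ℝ (ext0 f.1) (wset b U) q (hD G i q) := by
  rw [Cal.D, h.cal_vec]
  congr 1
  refine Prod.ext rfl (Prod.ext rfl ?_)
  funext m j
  show (-∑ k, ∑ l, h.cal.Gam m k l * h.cal.a k i * h.cal.a l j : smAlg (wset b U)).1 q = _
  rw [BCM_neg, sum_apply]
  simp only [sum_apply, BCM_mul, cal_Gam, cal_a]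
  rfl

theorem cal_V (h : LMet b U G) (n : Fin 3) (f : smAlg (wset b U)) (q : wset b U) :
    (h.cal.V n f).1 q = fderivWithin ℝ (ext0 f.1) (wset b U) q (hV n q) := by
  rw [Cal.V, h.cal_vec]
  congr 1
  refine Prod.ext rfl (Prod.ext ?_ ?_)
  · show ∑ k, (0 : ℝ) • bv k = 0
    simp
  · funext m j
    show (∑ k, eps n j k • h.cal.a m k : smAlg (wset b U)).1 q = _
    rw [sum_apply]
    rfl

theorem cal_T (h : LMet b U G) (f : smAlg (wset b U)) (q : wset b U) :
    (h.cal.T f).1 q = fderivWithin ℝ (ext0 f.1) (wset b U) q (hT b G q) := by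
  rw [Cal.T, h.cal_vec]
  congr 1
  refine Prod.ext rfl (Prod.ext ?_ ?_)
  · show ∑ k, (0 : ℝ) • bv k = 0
    simp
  · funext m j
    show (∑ l, (∑ p, h.cal.gi m p * h.cal.rt p l) * h.cal.a l j : smAlg (wset b U)).1 q = _
    rw [sum_apply]
    simp only [sum_apply, BCM_mul, cal_gi, cal_rt, cal_a]
    rfl

end LMet

end Pool.Agent.RFS.BB
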