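import Pool.Agent.RFS.BVV

/-!
# RFS, chunk (b), module BCO: metric compatibility

Proofs.
* `Gam_symm`: `g_symm`, `ring` inside the sum.
* `g_gi`: matrices over a commutative ring, `Matrix.mul_eq_one_comm` applied to
  `Matrix.of C.gi * Matrix.of C.g = 1`; or transpose `gi_g` with `g_symm`, `gi_symm`.
* `lower`: `∑ m, Γ^m_ki g_mj = (1/2) ∑ l (∑ m gi_ml g_mj) (...)_l`, `gi_symm`, `gi_g`.
* `compat`: add two instances of `lower` and use `g_symm`.
* `D_h`: `D i` of `h p q` by the Leibniz rule: `D i (g k l) = ∑ r, a r i * dx r (g k l)` (`vec_apply`,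
  `da_g`), `D_a`, then `compat` and renaming of the summation indices.
* `T_h`: `T (g k l) = dt (g k l) = (-2) • rt k l`, `T_a`; `∑ m, g_lm gi_mp = δ` (`g_gi`) and
  `rt` symmetric.
-/

open scoped Manifold ContDiff Matrix
open Set MeasureTheory

noncomputable section

namespace Pool.Agent.RFS.BB

namespace Cal

variable {B : Type*} [CommRing B] [Algebra ℝ B] (C : Cal B)

theorem Gam_symm (k i j : Fin 3) : C.Gam k i j = C.Gam k j i := by
  unfold Gam
  congr 1
  refine Finset.sum_congr rfl fun l _ => ?_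
  rw [C.g_symm i j]
  ring

theorem g_gi (k m : Fin 3) : ∑ l, C.g k l * C.gi l m = if k = m then 1 else 0 := by
  have h := C.gi_g m k
  rw [eq_comm] at h
  have h1 : (if m = k then (1 : B) else 0) = if k = m then 1 else 0 := by
    split_ifs with h1 h2 h2
    · rfl
    · exact absurd h1.symm h2
    · exact absurd h2.symm h1
    · rfl
  rw [← h1, h]
  refine Finset.sum_congr rfl fun l _ => ?_
  rw [C.g_symm k l, C.gi_symm l m, mul_comm]

theorem lower (k i j : Fin 3) : ∑ m, C.Gam m k i * C.g m j =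
    (1 / 2 : ℝ) • (C.dx k (C.g i j) + C.dx i (C.g k j) - C.dx j (C.g k i)) := by
  have h1 : ∑ m, C.Gam m k i * C.g m j = (1 / 2 : ℝ) • ∑ l, (∑ m, C.gi l m * C.g m j) *
      (C.dx k (C.g i l) + C.dx i (C.g k l) - C.dx l (C.g k i)) := by
    unfold Gam
    rw [Finset.smul_sum]
    simp only [smul_mul_assoc, Finset.sum_mul, Finset.smul_sum]
    rw [Finset.sum_comm]
    refine Finset.sum_congr rfl fun l _ => Finset.sum_congr rfl fun m _ => ?_
    rw [C.gi_symm m l]
    congr 1
    ring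
  rw [h1]
  congr 1
  simp only [C.gi_g, ite_mul, one_mul, zero_mul, Finset.sum_ite_eq', Finset.mem_univ, if_true]

theorem compat (k i j : Fin 3) :
    C.dx k (C.g i j) = ∑ m, (C.Gam m k i * C.g m j + C.Gam m k j * C.g m i) := by
  rw [Finset.sum_add_distrib, lower, lower, ← smul_add, C.g_symm j i]
  have h1 : C.dx k (C.g i j) + C.dx i (C.g k j) - C.dx j (C.g k i) +
      (C.dx k (C.g i j) + C.dx j (C.g k i) - C.dx i (C.g k j)) =
      (2 : ℝ) • C.dx k (C.g i j) := by
    rw [two_smul]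
    ring
  rw [h1, smul_smul]
  norm_num

private theorem bco_D_g (i k l : Fin 3) :
    C.D i (C.g k l) = ∑ m, ((∑ r, C.Gam m r k * C.a r i) * C.g m l
      + (∑ r, C.Gam m r l * C.a r i) * C.g m k) := by
  have h1 : C.D i (C.g k l) = ∑ r, C.a r i * C.dx r (C.g k l) := by
    unfold D
    rw [C.vec_apply]
    simp only [C.da_g, mul_zero, Finset.sum_const_zero, add_zero, zero_mul, zero_add]
  rw [h1]
  simp only [C.compat _ k l, Finset.mul_sum, Finset.sum_mul, ← Finset.sum_add_distrib]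
  rw [Finset.sum_comm]
  refine Finset.sum_congr rfl fun m _ => Finset.sum_congr rfl fun r _ => ?_
  ring

private theorem bco_D_a (i m j : Fin 3) :
    C.D i (C.a m j) = -∑ l, (∑ r, C.Gam m r l * C.a r i) * C.a l j := by
  rw [D_a]
  congr 1
  simp only [Finset.sum_mul]
  rw [Finset.sum_comm]

private theorem bco_alg {L : Type*} [CommRing L] (a g G : Fin 3 → Fin 3 → L)
    (hg : ∀ k l, g k l = g l k) (p q : Fin 3) :
    ∑ k, ∑ l, ((-∑ s, G k s * a s p) * g k l * a l q
      + a k p * (∑ m, (G m k * g m l + G m l * g m k)) * a l q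
      + a k p * g k l * (-∑ s, G l s * a s q)) = 0 := by
  simp only [Fin.sum_univ_three, hg 1 0, hg 2 0, hg 2 1]
  ring

private theorem bco_leib (d : Derivation ℝ B B) (a g b : B) :
    d (a * g * b) = d a * g * b + a * d g * b + a * g * d b := by
  simp only [Derivation.leibniz, smul_eq_mul]
  ring

theorem D_h (i p q : Fin 3) : C.D i (C.h p q) = 0 := by
  unfold h
  simp only [map_sum, bco_leib, bco_D_g, bco_D_a]
  exact bco_alg C.a C.g (fun m l => ∑ r, C.Gam m r l * C.a r i) C.g_symm p q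

private theorem bco_dt_g (k l : Fin 3) : C.dt (C.g k l) = -(C.rt k l + C.rt k l) := by
  unfold rt
  rw [← add_smul, ← neg_smul]
  norm_num

private theorem bco_T_g (k l : Fin 3) : C.T (C.g k l) = -(C.rt k l + C.rt k l) := by
  rw [← bco_dt_g]
  unfold T
  rw [C.vec_apply]
  simp only [C.da_g, mul_zero, Finset.sum_const_zero, add_zero, one_mul, Pi.zero_apply, zero_mul]

private theorem bco_gH (k l : Fin 3) :
    ∑ m, C.g k m * (∑ p, C.gi m p * C.rt p l) = C.rt k l := by
  have h1 : ∑ m, C.g k m * (∑ p, C.gi m p * C.rt p l)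
      = ∑ p, (∑ m, C.g k m * C.gi m p) * C.rt p l := by
    simp only [Finset.mul_sum, Finset.sum_mul]
    rw [Finset.sum_comm]
    refine Finset.sum_congr rfl fun m _ => Finset.sum_congr rfl fun r _ => ?_
    ring
  rw [h1]
  simp only [C.g_gi, ite_mul, one_mul, zero_mul, Finset.sum_ite_eq, Finset.mem_univ, if_true]

private theorem bco_algT {L : Type*} [CommRing L] (a g H r : Fin 3 → Fin 3 → L)
    (h1 : ∀ k l, (∑ m, H m k * g m l) = r k l) (h2 : ∀ k l, (∑ m, g k m * H m l) = r k l)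
    (p q : Fin 3) :
    ∑ k, ∑ l, ((∑ s, H k s * a s p) * g k l * a l q
      + a k p * (-(r k l + r k l)) * a l q
      + a k p * g k l * (∑ s, H l s * a s q)) = 0 := by
  simp only [Fin.sum_univ_three] at h1 h2 ⊢
  linear_combination a 0 p * a 0 q * h1 0 0 + a 0 p * a 0 q * h2 0 0 + a 0 p * a 1 q * h1 0 1 + a 0 p * a 1 q *
    h2 0 1 + a 0 p * a 2 q * h1 0 2 + a 0 p * a 2 q * h2 0 2 + a 1 p * a 0 q * h1 1 0 + a 1 p
    * a 0 q * h2 1 0 + a 1 p * a 1 q * h1 1 1 + a 1 p * a 1 q * h2 1 1 + a 1 p * a 2 q * h1 1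
    2 + a 1 p * a 2 q * h2 1 2 + a 2 p * a 0 q * h1 2 0 + a 2 p * a 0 q * h2 2 0 + a 2 p * a 1
    q * h1 2 1 + a 2 p * a 1 q * h2 2 1 + a 2 p * a 2 q * h1 2 2 + a 2 p * a 2 q * h2 2 2

theorem T_h (p q : Fin 3) : C.T (C.h p q) = 0 := by
  have h1 : ∀ k l, C.rt k l = C.rt l k := fun k l => by
    unfold rt
    rw [C.g_symm]
  unfold h
  simp only [map_sum, bco_leib, bco_T_g, T_a]
  refine bco_algT C.a C.g (fun m l => ∑ p, C.gi m p * C.rt p l) C.rt (fun k l => ?_)
    (fun k l => C.bco_gH k l) p q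
  rw [h1 k l, ← C.bco_gH l k]
  refine Finset.sum_congr rfl fun m _ => ?_
  rw [C.g_symm m l, mul_comm]

end Cal

end Pool.Agent.RFS.BB
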