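import Pool.Agent.RFS.BCO

/-!
# RFS, chunk (b), module BDD: the brackets of the horizontal fields and of the time derivative

`Z i j m p = - ∑ R^m_{l r k} a_ri a_kj a_lp`, `low w q p = (aᵀ g w)_qp`.

Proofs.
* `comm_DD_vec`: `vec_comm`.  The `x k`-component is `D i (a k j) - D j (a k i) = 0` by `D_a` and
  `Gam_symm`.  The `dt`-component is `0`.  The `a m p`-component is
  `D i (-∑∑ Γ^m_kl a_kj a_lp) - D j (-∑∑ Γ^m_kl a_ki a_lp)`; with
  `D i (Γ) = ∑ r, a_ri * dx r Γ` (`vec_apply`, `da_Gam`) and `D_a` it equals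
  `-∑ a_ri a_kj a_lp (dx r Γ^m_kl - dx k Γ^m_rl + Γ^m_rs Γ^s_kl - Γ^m_ks Γ^s_rl)`
  (the terms `Γ^m_kl Γ^k_rs a_ri a_sj a_lp` cancel by symmetry).  To keep the sums small, treat
  `∑ k l` symbolically (`Finset.sum_comm`, `Finset.mul_sum`) or expand everything with
  `Fin.sum_univ_three` only in the inner sums.
* `comm_TD_vec`: `vec_comm`, the `x k`-component is `T (a k i)`, the `dt`-component is `- D i 1 = 0`.
* `low_add`: `vec 0 0 w (h p q) = ∑∑ w_kp g_kl a_lq + ∑∑ a_kp g_kl w_lq` (Leibniz, `vec_a`, `g` is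
  killed by `da`), and `g_symm`.
* `Z_antisymm`: `vec 0 0 (Z i j) (h p q) = D i (D j h) - D j (D i h) = 0` by `D_h`.
* `Z_swap`: `Rm m l r k = - Rm m l k r`.
-/

open scoped Manifold ContDiff Matrix
open Set MeasureTheory

noncomputable section

namespace Pool.Agent.RFS.BB

namespace Cal

variable {B : Type*} [CommRing B] [Algebra ℝ B] (C : Cal B)

/-- The vertical components of `[D i, D j]`. -/
def Z (i j m p : Fin 3) : B := -∑ r, ∑ k, ∑ l, C.Rm m l r k * C.a r i * C.a k j * C.a l p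

/-- `(aᵀ g w) q p`. -/
def low (w : Fin 3 → Fin 3 → B) (q p : Fin 3) : B := ∑ k, ∑ l, C.a k q * C.g k l * w l p

/-- The vertical components of `[T, D i]`. -/
def Y (i m p : Fin 3) : B :=
  C.T (-∑ k, ∑ l, C.Gam m k l * C.a k i * C.a l p) -
    C.D i (∑ l, (∑ r, C.gi m r * C.rt r l) * C.a l p)

private theorem bdd_base (i : Fin 3) (f : B) (hf : ∀ m j, C.da m j f = 0) :
    C.D i f = ∑ r, C.a r i * C.dx r f := by
  unfold D
  rw [vec_apply]
  simp [hf]

private theorem bdd_sym (i j k : Fin 3) : C.D i (C.a k j) = C.D j (C.a k i) := by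
  rw [D_a, D_a, neg_inj, Finset.sum_comm]
  refine Finset.sum_congr rfl fun l _ => Finset.sum_congr rfl fun r _ => ?_
  rw [C.Gam_symm k l r]
  ring

private theorem bdd_leib (d : Derivation ℝ B B) (x y z : B) :
    d (x * y * z) = d x * y * z + x * d y * z + x * y * d z := by
  rw [Derivation.leibniz, Derivation.leibniz]
  simp only [smul_eq_mul]
  ring

private theorem bdd_w (i j m p : Fin 3) :
    C.D i (-∑ k, ∑ l, C.Gam m k l * C.a k j * C.a l p) =
      -∑ k, ∑ l, ((∑ r, C.a r i * C.dx r (C.Gam m k l)) * C.a k j * C.a l p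
        + C.Gam m k l * C.D i (C.a k j) * C.a l p
        + C.Gam m k l * C.a k j * (-∑ r, ∑ s, C.Gam l r s * C.a r i * C.a s p)) := by
  rw [map_neg, map_sum, neg_inj]
  refine Finset.sum_congr rfl fun k _ => ?_
  rw [map_sum]
  refine Finset.sum_congr rfl fun l _ => ?_
  rw [bdd_leib, C.bdd_base i (C.Gam m k l) (fun m' j' => C.da_Gam m' j' m k l), C.D_a i l p]

private theorem bdd_Z (i j m p : Fin 3) :
    C.D i (-∑ k, ∑ l, C.Gam m k l * C.a k j * C.a l p)
      - C.D j (-∑ k, ∑ l, C.Gam m k l * C.a k i * C.a l p) = C.Z i j m p := by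
  rw [bdd_w, bdd_w]
  simp only [C.bdd_sym j i]
  unfold Z Rm
  generalize C.Gam = Γ
  simp only [Fin.sum_univ_three]
  ring

theorem comm_DD_vec (i j : Fin 3) (f : B) :
    C.D i (C.D j f) - C.D j (C.D i f) = C.vec 0 0 (C.Z i j) f := by
  have h := C.vec_comm 0 0 (fun k => C.a k i) (fun k => C.a k j)
    (fun m p => -∑ k, ∑ l, C.Gam m k l * C.a k i * C.a l p)
    (fun m p => -∑ k, ∑ l, C.Gam m k l * C.a k j * C.a l p) f
  have h1 : (fun m p => C.D i (-∑ k, ∑ l, C.Gam m k l * C.a k j * C.a l p)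
      - C.D j (-∑ k, ∑ l, C.Gam m k l * C.a k i * C.a l p)) = C.Z i j :=
    funext fun m => funext fun p => C.bdd_Z i j m p
  have h2 : (fun k => C.D i (C.a k j) - C.D j (C.a k i)) = 0 := by
    funext k
    rw [C.bdd_sym i j k, sub_self]
    rfl
  have h3 : C.D i 0 - C.D j 0 = 0 := by rw [map_zero, map_zero, sub_zero]
  change C.D i (C.D j f) - C.D j (C.D i f) = C.vec (C.D i 0 - C.D j 0)
    (fun k => C.D i (C.a k j) - C.D j (C.a k i))
    (fun m p => C.D i (-∑ k, ∑ l, C.Gam m k l * C.a k j * C.a l p)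
      - C.D j (-∑ k, ∑ l, C.Gam m k l * C.a k i * C.a l p)) f at h
  rw [h, h1, h2, h3]

theorem comm_TD_vec (i : Fin 3) (f : B) :
    C.T (C.D i f) - C.D i (C.T f) =
      C.vec 0 (fun k => ∑ l, (∑ p, C.gi k p * C.rt p l) * C.a l i) (C.Y i) f := by
  have h := C.vec_comm 1 0 0 (fun k => C.a k i)
    (fun m j => ∑ l, (∑ p, C.gi m p * C.rt p l) * C.a l j)
    (fun m p => -∑ k, ∑ l, C.Gam m k l * C.a k i * C.a l p) f
  have h2 : (fun k => C.T (C.a k i) - C.D i ((0 : Fin 3 → B) k))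
      = fun k => ∑ l, (∑ p, C.gi k p * C.rt p l) * C.a l i := by
    funext k
    rw [Pi.zero_apply, map_zero, sub_zero, C.T_a]
  have h3 : C.T 0 - C.D i 1 = 0 := by rw [map_zero, Derivation.map_one_eq_zero, sub_zero]
  change C.T (C.D i f) - C.D i (C.T f) = C.vec (C.T 0 - C.D i 1)
    (fun k => C.T (C.a k i) - C.D i ((0 : Fin 3 → B) k)) (C.Y i) f at h
  rw [h, h2, h3]

theorem low_add (w : Fin 3 → Fin 3 → B) (p q : Fin 3) :
    C.vec 0 0 w (C.h p q) = C.low w q p + C.low w p q := by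
  have hg : ∀ k l, C.vec 0 0 w (C.g k l) = 0 := by
    intro k l
    rw [C.vec_apply]
    simp [C.da_g]
  have h1 : C.vec 0 0 w (C.h p q) = ∑ k, ∑ l, (w k p * C.g k l * C.a l q
      + C.a k p * C.g k l * w l q) := by
    unfold h
    rw [map_sum]
    refine Finset.sum_congr rfl fun k _ => ?_
    rw [map_sum]
    refine Finset.sum_congr rfl fun l _ => ?_
    rw [bdd_leib, hg, C.vec_a, C.vec_a]
    ring
  rw [h1]
  unfold low
  simp only [Finset.sum_add_distrib]
  congr 1
  rw [Finset.sum_comm]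
  refine Finset.sum_congr rfl fun l _ => Finset.sum_congr rfl fun k _ => ?_
  rw [C.g_symm k l]
  ring

theorem Z_antisymm (i j p q : Fin 3) : C.low (C.Z i j) q p = -C.low (C.Z i j) p q := by
  have h1 := C.low_add (C.Z i j) p q
  rw [← C.comm_DD_vec, C.D_h, C.D_h, map_zero, map_zero, sub_zero] at h1
  exact eq_neg_of_add_eq_zero_left h1.symm

theorem Z_swap (i j p q : Fin 3) : C.low (C.Z i j) q p = -C.low (C.Z j i) q p := by
  have h1 : ∀ m l r k, C.Rm m l r k = -C.Rm m l k r := by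
    intro m l r k
    unfold Rm
    simp only [Finset.sum_sub_distrib]
    ring
  have h2 : ∀ m, C.Z i j m p = -C.Z j i m p := by
    intro m
    unfold Z
    rw [neg_inj, Finset.sum_comm, ← Finset.sum_neg_distrib]
    refine Finset.sum_congr rfl fun k _ => ?_
    rw [← Finset.sum_neg_distrib]
    refine Finset.sum_congr rfl fun r _ => ?_
    rw [← Finset.sum_neg_distrib]
    refine Finset.sum_congr rfl fun l _ => ?_
    rw [h1 m l r k]
    ring
  unfold low
  rw [← Finset.sum_neg_distrib]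
  refine Finset.sum_congr rfl fun k _ => ?_
  rw [← Finset.sum_neg_distrib]
  refine Finset.sum_congr rfl fun l _ => ?_
  rw [h2 l]
  ring

end Cal

end Pool.Agent.RFS.BB
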