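import Pool.Agent.RFS.FCH

/-!
# RFS, chunk (b): common definitions of the frame calculus

* abstract structures `GAlg` (general family of metrics), `Cal` (coordinate calculus), `JAlg`;
* the full frame bundle in a chart: `Qs = ℝ × E3 × Fm`, the fields `hD`, `hV`, `hT`, the Gram matrix
  `Phi`, the sets `wset`, `oset`, the Gram-Schmidt matrix `cgs`, the retraction `retr`;
* the global bundle `Fr g b` of orthonormal frames, its charts `frq`, the change of charts `chg`.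
-/

open scoped Manifold ContDiff Matrix
open Set MeasureTheory

noncomputable section

namespace Pool.Agent.RFS.BB

/-! ### Abstract structures -/

/-- The frame calculus of a general smooth family of metrics `g(t)`, `∂ₜ g = - 2 rho`. -/
structure GAlg (A : Type*) [CommRing A] [Algebra ℝ A] where
  T : Derivation ℝ A A
  D : Fin 3 → Derivation ℝ A A
  V : Fin 3 → Derivation ℝ A A
  P : Fin 3 → Fin 3 → A
  rho : Fin 3 → Fin 3 → A
  P_symm : ∀ i j, P i j = P j i
  rho_symm : ∀ i j, rho i j = rho j i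
  comm_VV : ∀ m n f, V m (V n f) - V n (V m f) = ∑ k, eps m n k • V k f
  comm_VD : ∀ n i f, V n (D i f) - D i (V n f) = ∑ j, eps n i j • D j f
  V_P : ∀ n i j, V n (P i j) = ∑ k, (eps n i k • P k j + eps n j k • P i k)
  V_rho : ∀ n i j, V n (rho i j) = ∑ k, (eps n i k • rho k j + eps n j k • rho i k)
  comm_DD : ∀ i j f, D i (D j f) - D j (D i f) = ∑ m, ∑ n, eps i j m • (P m n * V n f)
  div_P : ∀ j, ∑ i, D i (P i j) = 0
  comm_TV : ∀ n f, T (V n f) = V n (T f)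
  comm_TD : ∀ i f, T (D i f) - D i (T f) =
    ∑ j, rho i j * D j f + ∑ n, ∑ p, ∑ q, eps p q n • (D p (rho q i) * V n f)
  T_P : ∀ l n, T (P l n) = (∑ k, rho k k) * P l n - ∑ k, rho l k * P k n
    + ∑ i, ∑ j, ∑ p, ∑ q, (eps i j l * eps p q n) • D i (D p (rho q j))

/-- The structure from which the Jacobi identities give `GAlg`. -/
structure JAlg (L : Type*) [CommRing L] [Algebra ℝ L] where
  T : Derivation ℝ L L
  D : Fin 3 → Derivation ℝ L L
  V : Fin 3 → Derivation ℝ L L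
  P : Fin 3 → Fin 3 → L
  rho : Fin 3 → Fin 3 → L
  W : Fin 3 → Fin 3 → L
  x : Fin 3 → L
  a : Fin 3 → Fin 3 → L
  ai : Fin 3 → Fin 3 → L
  ai_a : ∀ i j, ∑ m, ai i m * a m j = if i = j then 1 else 0
  D_x : ∀ i k, D i (x k) = a k i
  V_x : ∀ n k, V n (x k) = 0
  V_a : ∀ n m j, V n (a m j) = ∑ k, eps n j k • a m k
  rho_symm : ∀ i j, rho i j = rho j i
  comm_VV : ∀ m n f, V m (V n f) - V n (V m f) = ∑ k, eps m n k • V k f
  comm_VD : ∀ n i f, V n (D i f) - D i (V n f) = ∑ j, eps n i j • D j f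
  V_P : ∀ n i j, V n (P i j) = ∑ k, (eps n i k • P k j + eps n j k • P i k)
  V_rho : ∀ n i j, V n (rho i j) = ∑ k, (eps n i k • rho k j + eps n j k • rho i k)
  comm_DD : ∀ i j f, D i (D j f) - D j (D i f) = ∑ m, ∑ n, eps i j m • (P n m * V n f)
  comm_TV : ∀ n f, T (V n f) = V n (T f)
  comm_TD : ∀ i f, T (D i f) - D i (T f) = ∑ j, rho i j * D j f + ∑ n, W i n * V n f

/-- The coordinate calculus on the full frame bundle over a coordinate patch: commuting partial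
derivatives `dt`, `dx k`, `da m j`, the coordinates `x k`, `a m j` (the `m`-th component of the `j`-th
frame vector), the metric `g` and its inverse `gi`. -/
structure Cal (B : Type*) [CommRing B] [Algebra ℝ B] where
  dt : Derivation ℝ B B
  dx : Fin 3 → Derivation ℝ B B
  da : Fin 3 → Fin 3 → Derivation ℝ B B
  x : Fin 3 → B
  a : Fin 3 → Fin 3 → B
  g : Fin 3 → Fin 3 → B
  gi : Fin 3 → Fin 3 → B
  dt_dx : ∀ k f, dt (dx k f) = dx k (dt f)
  dt_da : ∀ m j f, dt (da m j f) = da m j (dt f)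
  dx_dx : ∀ k l f, dx k (dx l f) = dx l (dx k f)
  dx_da : ∀ k m j f, dx k (da m j f) = da m j (dx k f)
  da_da : ∀ m j m' j' f, da m j (da m' j' f) = da m' j' (da m j f)
  dt_x : ∀ k, dt (x k) = 0
  dx_x : ∀ k l, dx k (x l) = if k = l then 1 else 0
  da_x : ∀ m j k, da m j (x k) = 0
  dt_a : ∀ m j, dt (a m j) = 0
  dx_a : ∀ k m j, dx k (a m j) = 0
  da_a : ∀ m j m' j', da m j (a m' j') = if m = m' ∧ j = j' then 1 else 0
  da_g : ∀ m j k l, da m j (g k l) = 0
  da_gi : ∀ m j k l, da m j (gi k l) = 0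
  g_symm : ∀ k l, g k l = g l k
  gi_symm : ∀ k l, gi k l = gi l k
  gi_g : ∀ k m, ∑ l, gi k l * g l m = if k = m then 1 else 0

namespace Cal

variable {B : Type*} [CommRing B] [Algebra ℝ B] (C : Cal B)

/-- The vector field with components `u`, `v k`, `w m j`. -/
def vec (u : B) (v : Fin 3 → B) (w : Fin 3 → Fin 3 → B) : Derivation ℝ B B :=
  u • C.dt + ∑ k, v k • C.dx k + ∑ m, ∑ j, w m j • C.da m j

/-- Christoffel symbols. -/
def Gam (k i j : Fin 3) : B :=
  (1 / 2 : ℝ) • ∑ l, C.gi k l * (C.dx i (C.g j l) + C.dx j (C.g i l) - C.dx l (C.g i j))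

/-- The curvature tensor `R^m_{l r k}`. -/
def Rm (m l r k : Fin 3) : B :=
  C.dx r (C.Gam m k l) - C.dx k (C.Gam m r l) +
    ∑ s, (C.Gam m r s * C.Gam s k l - C.Gam m k s * C.Gam s r l)

/-- The Ricci tensor, same formula as `ricci`. -/
def ric (j k : Fin 3) : B :=
  ∑ i, (C.dx i (C.Gam i j k) - C.dx j (C.Gam i i k)
    + ∑ m, (C.Gam i i m * C.Gam m j k - C.Gam i j m * C.Gam m i k))

/-- The scalar curvature. -/
def sc : B := ∑ k, ∑ l, C.gi k l * C.ric l k

/-- `P i j = (aᵀ * pten * a) i j`. -/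
def P (i j : Fin 3) : B :=
  ∑ k, ∑ l, C.a k i * ((1 / 2 : ℝ) • (C.sc * C.g k l) - C.ric k l) * C.a l j

/-- `- (1 / 2) ∂ₜ g` in coordinates. -/
def rt (k l : Fin 3) : B := (-(1 / 2) : ℝ) • C.dt (C.g k l)

/-- `rho i j = (aᵀ * rt * a) i j`. -/
def rho (i j : Fin 3) : B := ∑ k, ∑ l, C.a k i * C.rt k l * C.a l j

/-- The Gram matrix of the frame. -/
def h (i j : Fin 3) : B := ∑ k, ∑ l, C.a k i * C.g k l * C.a l j

/-- The horizontal fields. -/
def D (i : Fin 3) : Derivation ℝ B B :=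
  C.vec 0 (fun k => C.a k i) (fun m j => -∑ k, ∑ l, C.Gam m k l * C.a k i * C.a l j)

/-- The rotations. -/
def V (n : Fin 3) : Derivation ℝ B B := C.vec 0 0 (fun m j => ∑ k, eps n j k • C.a m k)

/-- The time derivative. -/
def T : Derivation ℝ B B :=
  C.vec 1 0 (fun m j => ∑ l, (∑ p, C.gi m p * C.rt p l) * C.a l j)

/-- The ideal `I` (of the functions which vanish on the orthonormal frames). -/
structure Good (I : Ideal B) : Prop where
  h_mem : ∀ i j, C.h i j - (if i = j then 1 else 0) ∈ I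
  T_mem : ∀ f ∈ I, C.T f ∈ I
  D_mem : ∀ i, ∀ f ∈ I, C.D i f ∈ I
  V_mem : ∀ n, ∀ f ∈ I, C.V n f ∈ I

end Cal

/-! ### Charts -/

/-- Frames: `a m j` is the `m`-th component of the `j`-th frame vector. -/
abbrev Fm := Fin 3 → Fin 3 → ℝ

/-- Space-time-frame space. -/
abbrev Qs := ℝ × E3 × Fm

/-- The identity frame. -/
def one3 : Fm := fun i j => if i = j then 1 else 0

/-- Matrix product. -/
def fmul (a c : Fm) : Fm := fun i j => ∑ k, a i k * c k j

/-- The Gram matrix `aᵀ G(t,x) a`. -/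
def Phi (G : ℝ → E3 → Mat3) (q : Qs) : Fm :=
  fun i j => ∑ k, ∑ l, q.2.2 k i * G q.1 q.2.1 k l * q.2.2 l j

/-- `- (1 / 2) ∂ₜ G`. -/
def rdot (b : ℝ) (G : ℝ → E3 → Mat3) (t : ℝ) (x : E3) : Mat3 :=
  Matrix.of fun i j => -(1 / 2) * derivWithin (fun s => G s x i j) (Ico 0 b) t

/-- The horizontal fields on the full frame bundle. -/
def hD (G : ℝ → E3 → Mat3) (i : Fin 3) (q : Qs) : Qs :=
  (0, ∑ k, q.2.2 k i • bv k,
    fun m j => -∑ k, ∑ l, chr (G q.1) q.2.1 m k l * q.2.2 k i * q.2.2 l j)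

/-- The rotations. -/
def hV (n : Fin 3) (q : Qs) : Qs := (0, 0, fun m j => ∑ k, eps n j k * q.2.2 m k)

/-- The time field. -/
def hT (b : ℝ) (G : ℝ → E3 → Mat3) (q : Qs) : Qs :=
  (1, 0, fun m j => ∑ l, (∑ p, (G q.1 q.2.1)⁻¹ m p * rdot b G q.1 q.2.1 p l) * q.2.2 l j)

/-- All frames over `[0, b) × U`. -/
def wset (b : ℝ) (U : Set E3) : Set Qs :=
  Ico 0 b ×ˢ (U ×ˢ {a : Fm | (Matrix.of a).det ≠ 0})

/-- The orthonormal frames over `[0, b) × U`. -/
def oset (b : ℝ) (U : Set E3) (G : ℝ → E3 → Mat3) : Set Qs :=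
  {q | q.1 ∈ Ico 0 b ∧ q.2.1 ∈ U ∧ Phi G q = one3}

/-- The Gram-Schmidt matrix: `cᵀ H c = 1`. -/
def cgs (H : Fm) : Fm :=
  let d2 := H 0 0 * H 1 1 - H 0 1 * H 0 1
  let m0 := H 0 1 * H 1 2 - H 0 2 * H 1 1
  let m1 := H 0 1 * H 0 2 - H 0 0 * H 1 2
  let d3 := m0 * H 0 2 + m1 * H 1 2 + d2 * H 2 2
  ![![1 / √(H 0 0), -H 0 1 / √(H 0 0 * d2), m0 / √(d3 * d2)],
    ![0, H 0 0 / √(H 0 0 * d2), m1 / √(d3 * d2)],
    ![0, 0, d2 / √(d3 * d2)]]

/-- The retraction onto the orthonormal frames. -/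
def retr (G : ℝ → E3 → Mat3) (q : Qs) : Qs := (q.1, q.2.1, fmul q.2.2 (cgs (Phi G q)))

/-- A smooth family of metrics over `[0, b) × U`. -/
structure LMet (b : ℝ) (U : Set E3) (G : ℝ → E3 → Mat3) : Prop where
  pos_b : 0 < b
  open_U : IsOpen U
  smooth : ∀ i j, ContDiffOn ℝ ∞ (fun q : ℝ × E3 => G q.1 q.2 i j) (Ico 0 b ×ˢ U)
  symm : ∀ t ∈ Ico 0 b, ∀ x ∈ U, (G t x)ᵀ = G t x
  posDef : ∀ t ∈ Ico 0 b, ∀ x ∈ U, (G t x).PosDef

/-! ### The ring of smooth functions on a set -/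

section Smooth

variable {E : Type*} [NormedAddCommGroup E] [NormedSpace ℝ E]

open Classical in
/-- Extension by zero. -/
def ext0 {W : Set E} (f : W → ℝ) (q : E) : ℝ := if h : q ∈ W then f ⟨q, h⟩ else 0

end Smooth

/-! ### The global bundle -/

section Manifold

variable {M : Type*} [TopologicalSpace M] [ChartedSpace E3 M]

/-- The preferred chart at `p`. -/
def ch (p : M) : Ch M := ⟨chartAt E3 p, chart_mem_atlas E3 p⟩

/-- The metric family in the chart `e`. -/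
def gt (g : ℝ → RMetric M) (e : Ch M) : ℝ → E3 → Mat3 := fun t => (g t).c e

/-- A smooth family of metrics on `[0, b)`. -/
structure IsFam (g : ℝ → RMetric M) (b : ℝ) : Prop where
  pos_b : 0 < b
  smooth : ∀ e i j, ContDiffOn ℝ ∞ (fun q : ℝ × E3 => (g q.1).c e q.2 i j)
    (Ico 0 b ×ˢ e.1.target)

/-- The bundle of orthonormal frames: triples (time, base point, frame in the preferred chart). -/
def Fr (g : ℝ → RMetric M) (b : ℝ) : Type _ :=
  {z : ℝ × M × Fm // z.1 ∈ Ico 0 b ∧ Phi (gt g (ch z.2.1)) (z.1, (ch z.2.1).1 z.2.1, z.2.2) = one3}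

namespace Fr

variable {g : ℝ → RMetric M} {b : ℝ}

/-- The time. -/
def tm (z : Fr g b) : ℝ := z.1.1

/-- The base point. -/
def bs (z : Fr g b) : M := z.1.2.1

/-- The frame in the preferred chart. -/
def fm (z : Fr g b) : Fm := z.1.2.2

end Fr

/-- The change of charts on the frame bundle. -/
def chg (e e' : Ch M) (q : Qs) : Qs :=
  (q.1, trans e e' q.2.1, fun m j => ∑ k, jac e e' q.2.1 m k * q.2.2 k j)

variable (g : ℝ → RMetric M) (b : ℝ)

open Classical in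
/-- The point of the bundle with coordinates `q` in the chart `e` (junk if `q` is not an
orthonormal frame). -/
def frq [Nonempty (Fr g b)] (e : Ch M) (q : Qs) : Fr g b :=
  if h : q.1 ∈ Ico 0 b ∧
      Phi (gt g (ch (e.1.symm q.2.1)))
        (q.1, (ch (e.1.symm q.2.1)).1 (e.1.symm q.2.1), (chg e (ch (e.1.symm q.2.1)) q).2.2) = one3
  then ⟨(q.1, e.1.symm q.2.1, (chg e (ch (e.1.symm q.2.1)) q).2.2), h⟩
  else Classical.arbitrary _

/-- The coordinates in the chart `e` of a point of the bundle. -/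
def coo {g : ℝ → RMetric M} {b : ℝ} (e : Ch M) (z : Fr g b) : Qs :=
  (z.tm, e.1 z.bs, (chg (ch z.bs) e (z.tm, (ch z.bs).1 z.bs, z.fm)).2.2)

end Manifold

end Pool.Agent.RFS.BB
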