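import Pool.Agent.RFS.Defs

/-!
# RFS, chunk (f), module FIP: the integral of a derivative of a compactly supported function

Proof.  Let `H = U.indicator h`.  `H` is `C^1` on `E3`: near a point of `U` it equals `h`, and on
the open set `Kᶜ` it is `0`; `U ∪ Kᶜ = univ`.  Its support is contained in the compact set `K`.
`pd j H = pd j h` on `U` and `pd j H = 0` outside `U` (there `H = 0` near the point, as it is in the open
set `Kᶜ`), so the left side is `∫ x, pd j H x`.  This vanishes: take a smooth `χ` with compact support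
and `χ = 1` on a neighbourhood of `K` (`exists_contDiff_tsupport_subset`, or a bump function on a
large ball) and apply `integral_mul_fderiv_eq_neg_fderiv_mul_of_integrable` (integration by parts,
Mathlib.Analysis.Calculus.LineDeriv.IntegrationByParts) to `χ` and `H`: the derivative of `χ` is zero on the support of `H`.
-/

open scoped Manifold ContDiff Matrix
open Set MeasureTheory

noncomputable section

namespace Pool.Agent.RFS

theorem integral_pd_compact (H : E3 → ℝ) (hH : ContDiff ℝ 1 H) (hc : HasCompactSupport H)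
    (j : Fin 3) : ∫ x, pd j H x = 0 := by
  obtain ⟨R, hR0, hR⟩ := hc.isCompact.isBounded.subset_ball_lt 0 0
  let χ : ContDiffBump (0 : E3) := ⟨R, R + 1, hR0, by linarith⟩
  have hχ1 : ∀ x ∈ Metric.ball (0 : E3) R, χ x = 1 := fun x hx =>
    χ.one_of_mem_closedBall (Metric.ball_subset_closedBall hx)
  have hχ' : ∀ x ∈ Metric.ball (0 : E3) R, fderiv ℝ χ x = 0 := by
    intro x hx
    have : (χ : E3 → ℝ) =ᶠ[nhds x] fun _ => 1 := by
      filter_upwards [Metric.isOpen_ball.mem_nhds hx] with y hy
      exact hχ1 y hy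
    rw [this.fderiv_eq]
    simp
  have hH0 : ∀ x, x ∉ Metric.ball (0 : E3) R → x ∉ tsupport H := fun x hx h => hx (hR h)
  have hH0' : ∀ x, x ∉ Metric.ball (0 : E3) R → H x = 0 := fun x hx =>
    image_eq_zero_of_notMem_tsupport (hH0 x hx)
  have hH1' : ∀ x, x ∉ Metric.ball (0 : E3) R → fderiv ℝ H x = 0 := by
    intro x hx
    exact fderiv_of_notMem_tsupport (𝕜 := ℝ) (hH0 x hx)
  have hcont : Continuous (fun x => fderiv ℝ H x (bv j)) :=
    (hH.continuous_fderiv (by simp)).clm_apply continuous_const
  have hcs : HasCompactSupport (fun x => fderiv ℝ H x (bv j)) := by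
    exact (hc.fderiv (𝕜 := ℝ)).comp_left (g := fun L : E3 →L[ℝ] ℝ => L (bv j)) (by simp)
  have e1 : (fun x => fderiv ℝ χ x (bv j) * H x) = fun _ => 0 := by
    ext x
    by_cases hx : x ∈ Metric.ball (0 : E3) R
    · rw [hχ' x hx]; simp
    · rw [hH0' x hx]; simp
  have e2 : (fun x => χ x * fderiv ℝ H x (bv j)) = fun x => fderiv ℝ H x (bv j) := by
    ext x
    by_cases hx : x ∈ Metric.ball (0 : E3) R
    · rw [hχ1 x hx]; simp
    · rw [hH1' x hx]; simp
  have e3 : (fun x => χ x * H x) = H := by
    ext x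
    by_cases hx : x ∈ Metric.ball (0 : E3) R
    · rw [hχ1 x hx]; simp
    · rw [hH0' x hx]; simp
  have key := integral_mul_fderiv_eq_neg_fderiv_mul_of_integrable (μ := (volume : Measure E3))
    (f := (χ : E3 → ℝ)) (g := H) (v := bv j)
    (by rw [e1]; exact integrable_zero _ _ _)
    (by rw [e2]; exact hcont.integrable_of_hasCompactSupport hcs)
    (by rw [e3]; exact hH.continuous.integrable_of_hasCompactSupport hc)
    (fun x _ => χ.contDiff.differentiable (n := 1) (by simp) x)
    (fun x _ => hH.differentiable (by simp) x)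
  rw [e1, e2] at key
  simpa [pd] using key

theorem integral_pd_eq_zero {U K : Set E3} (hU : IsOpen U) (hK : IsCompact K) (hKU : K ⊆ U)
    (h : E3 → ℝ) (hd : ContDiffOn ℝ 1 h U) (h0 : ∀ x ∈ U, x ∉ K → h x = 0) (j : Fin 3) :
    ∫ x in U, pd j h x = 0 := by
  classical
  let H : E3 → ℝ := U.indicator h
  have hHU : ∀ x ∈ U, H =ᶠ[nhds x] h := by
    intro x hx
    filter_upwards [hU.mem_nhds hx] with y hy
    exact indicator_of_mem hy h
  have hHK : ∀ x ∉ K, H =ᶠ[nhds x] fun _ => 0 := by
    intro x hx
    filter_upwards [hK.isClosed.isOpen_compl.mem_nhds hx] with y hy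
    by_cases hyU : y ∈ U
    · show U.indicator h y = 0
      rw [indicator_of_mem hyU]
      exact h0 y hyU hy
    · exact indicator_of_notMem hyU h
  have hC : ContDiff ℝ 1 H := by
    rw [contDiff_iff_contDiffAt]
    intro x
    by_cases hx : x ∈ U
    · exact (hd.contDiffAt (hU.mem_nhds hx)).congr_of_eventuallyEq (hHU x hx)
    · exact contDiffAt_const.congr_of_eventuallyEq (hHK x (fun hxK => hx (hKU hxK)))
  have hcs : HasCompactSupport H := by
    apply HasCompactSupport.intro hK
    intro x hx
    exact (hHK x hx).eq_of_nhds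
  have h1 := integral_pd_compact H hC hcs j
  have h2 : ∀ x, x ∉ U → pd j H x = 0 := by
    intro x hx
    rw [pd, (hHK x (fun hxK => hx (hKU hxK))).fderiv_eq]
    simp
  rw [← setIntegral_eq_integral_of_forall_compl_eq_zero h2] at h1
  rw [← h1]
  apply setIntegral_congr_fun hU.measurableSet
  intro x hx
  simp only [pd]
  rw [(hHU x hx).fderiv_eq]

theorem integrableOn_pd {U K : Set E3} (hU : IsOpen U) (hK : IsCompact K) (hKU : K ⊆ U)
    (h : E3 → ℝ) (hd : ContDiffOn ℝ 1 h U) (h0 : ∀ x ∈ U, x ∉ K → h x = 0) (j : Fin 3) :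
    IntegrableOn (pd j h) U := by
  have hc : ContinuousOn (pd j h) U :=
    (hd.continuousOn_fderiv_of_isOpen hU (by simp)).clm_apply continuousOn_const
  have h1 : IntegrableOn (pd j h) K := (hc.mono hKU).integrableOn_compact hK
  refine h1.of_forall_sdiff_eq_zero hU.measurableSet ?_
  intro x hx
  have h2 : h =ᶠ[nhds x] fun _ => 0 := by
    filter_upwards [(hU.sdiff hK.isClosed).mem_nhds hx] with y hy
    exact h0 y hy.1 hy.2
  rw [pd, h2.fderiv_eq]
  simp

end Pool.Agent.RFS
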