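import Pool.Agent.RFS.Defs

/-!
# RFS, chunk (f), module FSM: smoothness of the coordinate expressions

Entries of the inverse matrix, the Christoffel symbols, the Ricci tensor and the scalar curvature of a
smooth invertible symmetric matrix function are smooth.
-/

open scoped Manifold ContDiff Matrix
open Set MeasureTheory

noncomputable section

namespace Pool.Agent.RFS

variable {U : Set E3} {G : E3 → Mat3}

theorem contDiffOn_pd (hU : IsOpen U) {f : E3 → ℝ} (hf : ContDiffOn ℝ ∞ f U) (i : Fin 3) :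
    ContDiffOn ℝ ∞ (pd i f) U :=
  (hf.fderiv_of_isOpen hU (by simp)).clm_apply contDiffOn_const

theorem contDiffOn_det (hG : ∀ i j, ContDiffOn ℝ ∞ (fun x => G x i j) U) :
    ContDiffOn ℝ ∞ (fun x => (G x).det) U := by
  simp only [Matrix.det_fin_three]
  exact (((((((hG 0 0).mul (hG 1 1)).mul (hG 2 2)).sub
    (((hG 0 0).mul (hG 1 2)).mul (hG 2 1))).sub
    (((hG 0 1).mul (hG 1 0)).mul (hG 2 2))).add (((hG 0 1).mul (hG 1 2)).mul (hG 2 0))).add
    (((hG 0 2).mul (hG 1 0)).mul (hG 2 1))).sub (((hG 0 2).mul (hG 1 1)).mul (hG 2 0))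

theorem contDiffOn_adj (hG : ∀ i j, ContDiffOn ℝ ∞ (fun x => G x i j) U) (k l : Fin 3) :
    ContDiffOn ℝ ∞ (fun x => (G x).adjugate k l) U := by
  have h : ∀ i j i' j', ContDiffOn ℝ ∞ (fun x => G x i j * G x i' j') U := fun i j i' j' =>
    (hG i j).mul (hG i' j')
  simp only [Matrix.adjugate_fin_three]
  fin_cases k <;> fin_cases l <;> simp <;>
    first
    | exact (h _ _ _ _).sub (h _ _ _ _)
    | exact ((h _ _ _ _).neg).add (h _ _ _ _)

theorem contDiffOn_inv (hG : ∀ i j, ContDiffOn ℝ ∞ (fun x => G x i j) U)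
    (hd : ∀ x ∈ U, (G x).det ≠ 0) (k l : Fin 3) :
    ContDiffOn ℝ ∞ (fun x => (G x)⁻¹ k l) U := by
  have h : ContDiffOn ℝ ∞ (fun x => ((G x).det)⁻¹ * (G x).adjugate k l) U :=
    ((contDiffOn_det hG).inv hd).mul (contDiffOn_adj hG k l)
  refine h.congr fun x hx => ?_
  rw [Matrix.inv_def, Ring.inverse_eq_inv', Matrix.smul_apply, smul_eq_mul]

theorem contDiffOn_chr (hU : IsOpen U) (hG : ∀ i j, ContDiffOn ℝ ∞ (fun x => G x i j) U)
    (hd : ∀ x ∈ U, (G x).det ≠ 0) (k i j : Fin 3) :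
    ContDiffOn ℝ ∞ (fun x => chr G x k i j) U := by
  simp only [chr]
  refine contDiffOn_const.mul (ContDiffOn.sum fun l _ => ?_)
  exact (contDiffOn_inv hG hd k l).mul (((contDiffOn_pd hU (hG j l) i).add
    (contDiffOn_pd hU (hG i l) j)).sub (contDiffOn_pd hU (hG i j) l))

theorem contDiffOn_ricci (hU : IsOpen U) (hG : ∀ i j, ContDiffOn ℝ ∞ (fun x => G x i j) U)
    (hd : ∀ x ∈ U, (G x).det ≠ 0) (j k : Fin 3) :
    ContDiffOn ℝ ∞ (fun x => ricci G x j k) U := by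
  have hc : ∀ k i j, ContDiffOn ℝ ∞ (fun x => chr G x k i j) U := contDiffOn_chr hU hG hd
  simp only [ricci, Matrix.of_apply]
  refine ContDiffOn.sum fun i _ => ?_
  refine ((contDiffOn_pd hU (hc i j k) i).sub (contDiffOn_pd hU (hc i i k) j)).add
    (ContDiffOn.sum fun m _ => ?_)
  exact ((hc i i m).mul (hc m j k)).sub ((hc i j m).mul (hc m i k))

theorem contDiffOn_scal (hU : IsOpen U) (hG : ∀ i j, ContDiffOn ℝ ∞ (fun x => G x i j) U)
    (hd : ∀ x ∈ U, (G x).det ≠ 0) : ContDiffOn ℝ ∞ (scal G) U := by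
  have h : ContDiffOn ℝ ∞ (fun x => ∑ i, ∑ j, (G x)⁻¹ i j * ricci G x j i) U :=
    ContDiffOn.sum fun i _ => ContDiffOn.sum fun j _ =>
      (contDiffOn_inv hG hd i j).mul (contDiffOn_ricci hU hG hd j i)
  refine h.congr fun x hx => ?_
  simp only [scal, Matrix.trace, Matrix.diag, Matrix.mul_apply]

theorem contDiffOn_pten (hU : IsOpen U) (hG : ∀ i j, ContDiffOn ℝ ∞ (fun x => G x i j) U)
    (hd : ∀ x ∈ U, (G x).det ≠ 0) (j k : Fin 3) :
    ContDiffOn ℝ ∞ (fun x => pten G x j k) U := by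
  have h : ContDiffOn ℝ ∞ (fun x => scal G x / 2 * G x j k - ricci G x j k) U :=
    (((contDiffOn_scal hU hG hd).div_const 2).mul (hG j k)).sub (contDiffOn_ricci hU hG hd j k)
  refine h.congr fun x hx => ?_
  simp only [pten, Matrix.sub_apply, Matrix.smul_apply, smul_eq_mul]

theorem contDiffOn_sqrt_det (hG : ∀ i j, ContDiffOn ℝ ∞ (fun x => G x i j) U)
    (hd : ∀ x ∈ U, 0 < (G x).det) : ContDiffOn ℝ ∞ (fun x => Real.sqrt (G x).det) U :=
  (contDiffOn_det hG).sqrt fun x hx => (hd x hx).ne'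

end Pool.Agent.RFS
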