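import Pool.Agent.RFS.FDI
import Pool.Agent.RFS.FIP
import Pool.Agent.RFS.FSM

/-!
# RFS, chunk (f), module FDV: the divergence theorem on a closed manifold

`W e x` are the components of a `C^1` vector field in the chart `e`, `u` is its divergence.

Proof.  Take `n, E, ρ` from `exists_partition`.  Write `r e = √ det (g.c e)`.
1. For `p` in `e.1.source` put `L i e x = ∑ j, W e x j * pd j (fun y => ρ i (e.1.symm y)) x`
   (the derivative of `ρ i` in the direction `W`).  By `pd_comp` and the compatibility of `W`: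
   `L i e x = L i e' (trans e e' x)` on `ov e e'` (`∑ j, W e x j * jac k j = W e' k`).  So
   `l i p = L i e (e p)` with `e = chartAt E3 p` (an element of the atlas) satisfies
   `l i (e.1.symm x) = L i e x` for EVERY chart `e` and `x` in its target.
2. `∑ i, l i p = 0`: derivative of the constant `∑ i, ρ i = 1` (`fderiv` of a finite sum).
3. `l i` vanishes outside `tsupport (ρ i)` (there `ρ i = 0` near the point).
4. For every `i`, with `e = E i`: `∫ ρ i * u ∂μ = - ∫ l i ∂μ`.  Both sides by `integral_chart`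
   (the functions are continuous on the source: in the chart they are continuous, being built from
   `C^1` data; `hu` for `u`).  In the chart
   `ρ u r + l r = ∑ j, pd j (fun y => ρ i (e.1.symm y) * W e y j * r e y) x`
   by the product rule and `pd_sqrt_det` (`pd j r = r * ∑ l, chr l l j`), and each term has integral
   zero by `integral_pd_eq_zero` with `U = e.1.target`, `K = e.1 '' tsupport (ρ i)` (compact, as
   `tsupport (ρ i)` is compact in the compact space and contained in the source).
   Each function is integrable on `e.1.target` (continuous there, zero outside `K`).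
5. Sum over `i`: `∫ u = ∑ i, ∫ ρ i * u = - ∫ ∑ i, l i = 0`.  (All functions are continuous on the
   compact space `M` and `μ` is finite, or use integrability from 4.)
-/

open scoped Manifold ContDiff Matrix
open Set MeasureTheory

noncomputable section

namespace Pool.Agent.RFS

variable {M : Type*} [TopologicalSpace M] [ChartedSpace E3 M]

/-- The derivative of the function `ρ` in the direction of the field `W`, in the chart `e`. -/
def dirD (W : Ch M → E3 → Fin 3 → ℝ) (ρ : M → ℝ) (e : Ch M) (x : E3) : ℝ :=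
  ∑ j, W e x j * pd j (fun y => ρ (e.1.symm y)) x

theorem dirD_trans [IsManifold (𝓡 3) ∞ M] (W : Ch M → E3 → Fin 3 → ℝ)
    (hc : ∀ e e' : Ch M, ∀ x ∈ ov e e', ∀ k,
      W e' (trans e e' x) k = ∑ j, jac e e' x k j * W e x j) (ρ : M → ℝ)
    (hρ : ∀ e : Ch M, ContDiffOn ℝ ∞ (fun x => ρ (e.1.symm x)) e.1.target)
    (e e' : Ch M) {x : E3} (hx : x ∈ ov e e') :
    dirD W ρ e x = dirD W ρ e' (trans e e' x) := by
  have hx' := (trans_mem e e' hx).1
  have hd : DifferentiableAt ℝ (fun y => ρ (e'.1.symm y)) (trans e e' x) :=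
    ((hρ e').contDiffAt (e'.1.open_target.mem_nhds hx')).differentiableAt (by simp)
  simp only [dirD, pd_comp e e' hx ρ hd, hc e e' x hx, Finset.sum_mul, Finset.mul_sum]
  rw [Finset.sum_comm]
  apply Finset.sum_congr rfl
  intro k _
  apply Finset.sum_congr rfl
  intro j _
  ring

/-- The same as a function on the manifold. -/
def dirM (W : Ch M → E3 → Fin 3 → ℝ) (ρ : M → ℝ) (p : M) : ℝ :=
  dirD W ρ ⟨chartAt E3 p, chart_mem_atlas E3 p⟩ (chartAt E3 p p)

theorem dirM_symm [IsManifold (𝓡 3) ∞ M] (W : Ch M → E3 → Fin 3 → ℝ)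
    (hc : ∀ e e' : Ch M, ∀ x ∈ ov e e', ∀ k,
      W e' (trans e e' x) k = ∑ j, jac e e' x k j * W e x j) (ρ : M → ℝ)
    (hρ : ∀ e : Ch M, ContDiffOn ℝ ∞ (fun x => ρ (e.1.symm x)) e.1.target)
    (e : Ch M) {x : E3} (hx : x ∈ e.1.target) :
    dirM W ρ (e.1.symm x) = dirD W ρ e x := by
  let e' : Ch M := ⟨chartAt E3 (e.1.symm x), chart_mem_atlas E3 _⟩
  have hov : x ∈ ov e e' := ⟨hx, mem_chart_source E3 _⟩
  rw [dirD_trans W hc ρ hρ e e' hov]
  rfl

theorem continuousOn_dirD (W : Ch M → E3 → Fin 3 → ℝ)
    (hW : ∀ e j, ContDiffOn ℝ 1 (fun x => W e x j) e.1.target) (ρ : M → ℝ)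
    (hρ : ∀ e : Ch M, ContDiffOn ℝ ∞ (fun x => ρ (e.1.symm x)) e.1.target) (e : Ch M) :
    ContinuousOn (dirD W ρ e) e.1.target := by
  apply continuousOn_finsetSum
  intro j _
  refine (hW e j).continuousOn.mul ?_
  exact ((hρ e).continuousOn_fderiv_of_isOpen e.1.open_target (by simp)).clm_apply
    continuousOn_const

/-- A function on `M` which is continuous in every chart is continuous. -/
theorem continuous_of_charts (u : M → ℝ)
    (hu : ∀ e : Ch M, ContinuousOn (fun x => u (e.1.symm x)) e.1.target) : Continuous u := by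
  rw [continuous_iff_continuousAt]
  intro p
  let e : Ch M := ⟨chartAt E3 p, chart_mem_atlas E3 p⟩
  have hp : p ∈ e.1.source := mem_chart_source E3 p
  have h1 : ContinuousAt (fun x => u (e.1.symm x)) (e.1 p) :=
    (hu e).continuousAt (e.1.open_target.mem_nhds (e.1.map_source hp))
  have h2 : ContinuousAt (fun q => u (e.1.symm (e.1 q))) p :=
    h1.comp (e.1.continuousAt hp)
  refine h2.congr ?_
  filter_upwards [e.1.open_source.mem_nhds hp] with q hq
  rw [e.1.left_inv hq]

/-- The pointwise product rule behind the divergence theorem. -/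
theorem div_pointwise (g : RMetric M) (e : Ch M) (W : E3 → Fin 3 → ℝ)
    (hW : ∀ j, ContDiffOn ℝ 1 (fun x => W x j) e.1.target) (r : E3 → ℝ)
    (hr : ContDiffOn ℝ 1 r e.1.target) {x : E3} (hx : x ∈ e.1.target) :
    ∑ j, pd j (fun y => r y * W y j * Real.sqrt (g.c e y).det) x =
      r x * (∑ j, (pd j (fun y => W y j) x + ∑ k, chr (g.c e) x j j k * W x k)) *
        Real.sqrt (g.c e x).det + (∑ j, W x j * pd j r x) * Real.sqrt (g.c e x).det := by
  have hdr : DifferentiableAt ℝ r x :=
    (hr.contDiffAt (e.1.open_target.mem_nhds hx)).differentiableAt (by simp)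
  have hdW : ∀ j, DifferentiableAt ℝ (fun y => W y j) x := fun j =>
    ((hW j).contDiffAt (e.1.open_target.mem_nhds hx)).differentiableAt (by simp)
  have hdG : ∀ i j, DifferentiableAt ℝ (fun y => g.c e y i j) x := fun i j =>
    ((g.smooth e i j).contDiffAt (e.1.open_target.mem_nhds hx)).differentiableAt (by simp)
  have hpos : 0 < (g.c e x).det := (g.pos e x hx).det_pos
  have hds := differentiableAt_sqrt_det (g.c e) x hdG hpos
  have hpd : ∀ k, pd k (fun y => Real.sqrt (g.c e y).det) x =
      Real.sqrt (g.c e x).det * ∑ j, chr (g.c e) x j j k := fun k =>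
    pd_sqrt_det (g.c e) e.1.target e.1.open_target x hx hdG (g.symm e) hpos k
  have hprod : ∀ j, pd j (fun y => r y * W y j * Real.sqrt (g.c e y).det) x =
      (pd j r x * W x j + r x * pd j (fun y => W y j) x) * Real.sqrt (g.c e x).det +
        r x * W x j * pd j (fun y => Real.sqrt (g.c e y).det) x := by
    intro j
    have h := ((hdr.hasFDerivAt.fun_mul (hdW j).hasFDerivAt).fun_mul hds.hasFDerivAt).fderiv
    rw [pd, h]
    simp only [pd, _root_.add_apply, _root_.smul_apply, smul_eq_mul]
    ring
  simp only [hprod, hpd, Fin.sum_univ_three]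
  ring

variable [MeasurableSpace M] [BorelSpace M]

theorem integral_div [IsManifold (𝓡 3) ∞ M] [CompactSpace M] [T2Space M] (g : RMetric M)
    {μ : Measure M} (hμ : IsVol g μ) (W : Ch M → E3 → Fin 3 → ℝ)
    (hW : ∀ e j, ContDiffOn ℝ 1 (fun x => W e x j) e.1.target)
    (hc : ∀ e e' : Ch M, ∀ x ∈ ov e e', ∀ k,
      W e' (trans e e' x) k = ∑ j, jac e e' x k j * W e x j)
    (u : M → ℝ)
    (hu : ∀ e : Ch M, ∀ x ∈ e.1.target, u (e.1.symm x) =
      ∑ j, (pd j (fun y => W e y j) x + ∑ k, chr (g.c e) x j j k * W e x k)) :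
    ∫ p, u p ∂μ = 0 := by
  obtain ⟨n, E, ρ, hρ, hs, h1, h0, hsm⟩ := exists_partition (M := M)
  have hfin := isVol_finite g hμ
  have hρs : ∀ i (e : Ch M), ContDiffOn ℝ ∞ (fun x => ρ i (e.1.symm x)) e.1.target := hsm
  -- continuity of `u`
  have hdiv : ∀ e : Ch M, ContinuousOn (fun x => ∑ j, (pd j (fun y => W e y j) x +
      ∑ k, chr (g.c e) x j j k * W e x k)) e.1.target := by
    intro e
    apply continuousOn_finsetSum
    intro j _
    refine ContinuousOn.add ?_ (continuousOn_finsetSum _ fun k _ => ?_)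
    · exact ((hW e j).continuousOn_fderiv_of_isOpen e.1.open_target (by simp)).clm_apply
        continuousOn_const
    · exact (contDiffOn_chr e.1.open_target (g.smooth e)
        (fun x hx => (g.pos e x hx).det_pos.ne') j j k).continuousOn.mul (hW e k).continuousOn
  have huc : Continuous u := continuous_of_charts u fun e => (hdiv e).congr (hu e)
  -- continuity of the directional derivatives
  have hlc : ∀ i, Continuous (dirM W (ρ i)) := fun i => continuous_of_charts _ fun e =>
    (continuousOn_dirD W hW (ρ i) (hρs i) e).congr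
      (fun x hx => dirM_symm W hc (ρ i) (hρs i) e hx)
  -- the sum of the directional derivatives is zero
  have hsum : ∀ p, ∑ i, dirM W (ρ i) p = 0 := by
    intro p
    let e : Ch M := ⟨chartAt E3 p, chart_mem_atlas E3 p⟩
    have hx : e.1 p ∈ e.1.target := e.1.map_source (mem_chart_source E3 p)
    have h2 : ∀ j, ∑ i, pd j (fun y => ρ i (e.1.symm y)) (e.1 p) = 0 := by
      intro j
      have h3 : ∀ i, DifferentiableAt ℝ (fun y => ρ i (e.1.symm y)) (e.1 p) := fun i =>
        ((hρs i e).contDiffAt (e.1.open_target.mem_nhds hx)).differentiableAt (by simp)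
      have h4 : fderiv ℝ (fun y => ∑ i, ρ i (e.1.symm y)) (e.1 p) =
          ∑ i, fderiv ℝ (fun y => ρ i (e.1.symm y)) (e.1 p) := fderiv_fun_sum fun i _ => h3 i
      simp only [h1] at h4
      have h5 := congrArg (fun L : E3 →L[ℝ] ℝ => L (bv j)) h4
      simp only [_root_.sum_apply] at h5
      simp only [pd]
      rw [← h5]
      simp
    show ∑ i, ∑ j, W e (e.1 p) j * pd j (fun y => ρ i (e.1.symm y)) (e.1 p) = 0
    rw [Finset.sum_comm]
    apply Finset.sum_eq_zero
    intro j _
    rw [← Finset.mul_sum, h2, mul_zero]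
  -- the local identity
  have hloc : ∀ i, ∫ p, (ρ i p * u p + dirM W (ρ i) p) ∂μ = 0 := by
    intro i
    obtain ⟨k1, k2, k3⟩ := image_tsupport (E i) (ρ i) (hs i)
    have hl0 : ∀ p, p ∉ tsupport (ρ i) → dirM W (ρ i) p = 0 := by
      intro p hp
      let e : Ch M := ⟨chartAt E3 p, chart_mem_atlas E3 p⟩
      have hps : p ∈ e.1.source := mem_chart_source E3 p
      have h2 : (fun y => ρ i (e.1.symm y)) =ᶠ[nhds (e.1 p)] fun _ => 0 := by
        have h3 : ContinuousAt e.1.symm (e.1 p) :=
          e.1.symm.continuousAt (e.1.map_source hps)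
        have h4 : (tsupport (ρ i))ᶜ ∈ nhds (e.1.symm (e.1 p)) := by
          rw [e.1.left_inv hps]
          exact (isClosed_tsupport (ρ i)).isOpen_compl.mem_nhds hp
        filter_upwards [h3 h4] with y hy
        exact image_eq_zero_of_notMem_tsupport hy
      show ∑ j, W e (e.1 p) j * pd j (fun y => ρ i (e.1.symm y)) (e.1 p) = 0
      apply Finset.sum_eq_zero
      intro j _
      rw [pd, h2.fderiv_eq]
      simp
    rw [integral_chart g hμ (E i)]
    · have h2 : ∀ x ∈ (E i).1.target, (ρ i ((E i).1.symm x) * u ((E i).1.symm x) +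
          dirM W (ρ i) ((E i).1.symm x)) * Real.sqrt (g.c (E i) x).det =
          ∑ j, pd j (fun y => ρ i ((E i).1.symm y) * W (E i) y j *
            Real.sqrt (g.c (E i) y).det) x := by
        intro x hx
        rw [div_pointwise g (E i) (W (E i)) (hW (E i)) (fun y => ρ i ((E i).1.symm y))
          ((hρs i (E i)).of_le (by simp)) hx, hu (E i) x hx, dirM_symm W hc (ρ i) (hρs i) (E i) hx]
        simp only [dirD]
        ring
      rw [setIntegral_congr_fun (E i).1.open_target.measurableSet h2]
      have hC : ∀ j, ContDiffOn ℝ 1 (fun y => ρ i ((E i).1.symm y) * W (E i) y j *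
          Real.sqrt (g.c (E i) y).det) (E i).1.target := fun j =>
        (((hρs i (E i)).of_le (by simp)).mul (hW (E i) j)).mul
          ((contDiffOn_sqrt_det (g.smooth (E i))
            (fun x hx => (g.pos (E i) x hx).det_pos)).of_le (by simp))
      have hK : ∀ j, ∀ x ∈ (E i).1.target, x ∉ (E i).1 '' tsupport (ρ i) →
          ρ i ((E i).1.symm x) * W (E i) x j * Real.sqrt (g.c (E i) x).det = 0 := by
        intro j x hx hx'
        rw [k3 x hx hx']
        ring
      rw [integral_finsetSum]
      · apply Finset.sum_eq_zero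
        intro j _
        exact integral_pd_eq_zero (E i).1.open_target k1 k2 _ (hC j) (hK j) j
      · intro j _
        exact integrableOn_pd (E i).1.open_target k1 k2 _ (hC j) (hK j) j
    · exact (((hρ i).mul huc).add (hlc i)).continuousOn
    · intro p hp
      have hp' : p ∉ tsupport (ρ i) := fun h => hp (hs i h)
      rw [hl0 p hp', image_eq_zero_of_notMem_tsupport hp']
      ring
  have hint : ∀ v : M → ℝ, Continuous v → Integrable v μ := fun v hv =>
    hv.integrable_of_hasCompactSupport (HasCompactSupport.of_compactSpace _)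
  have h3 : (fun p => ∑ i, (ρ i p * u p + dirM W (ρ i) p)) = u := by
    ext p
    rw [Finset.sum_add_distrib, hsum, ← Finset.sum_mul, h1]
    ring
  have h4 : ∀ i, Integrable (fun p => ρ i p * u p + dirM W (ρ i) p) μ := fun i =>
    hint _ (((hρ i).mul huc).add (hlc i))
  rw [← h3]
  show ∫ p, ∑ i, (ρ i p * u p + dirM W (ρ i) p) ∂μ = 0
  rw [integral_finsetSum _ fun i _ => h4 i]
  exact Finset.sum_eq_zero fun i _ => hloc i

end Pool.Agent.RFS
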