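import Pool.Agent.RFS.BRO
import Pool.Agent.RFS.BBA
import Pool.Agent.RFS.FDV

/-!
# RFS, chunk (b), module BDV: the divergence theorem in the frame calculus

`v i ∈ FA` with `R_Q v_i = ∑ j, Q j i v_j`.  Fix `t ∈ [0, b)`.  In the chart `e` put
`Wv e x k = ∑ i, F_i (t, x, c) * c k i`, `c = cgs (Phi (gt g e) (t, x, one3))`,
`F_i = can0 g b (v i).1 e`.

Proofs.
* `Wv_eq`: for EVERY orthonormal frame `(t, x, a) ∈ oset`: `Wv e x k = ∑ i, (v i) (frq (t,x,a)) * a k i`: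
  `a = c Q` with `Q` orthogonal (`Q = c⁻¹ a`), `(v i)(frq (c Q)) = ∑ j, Q j i (v j)(frq c)`
  (`frq_rot`, `RA_apply`), `∑ i, Q j i Q l i = δ_jl`.
* `v_eq`: `(v i) (frq (t,x,a)) = ∑ j k, G j k * Wv e x j * a k i` (`aᵀ G a = 1`).
* `Wv_compat`: `Wv e' (φ x) k = ∑ j, jac e e' x k j * Wv e x j`: `Wv_eq` with the frame `J c`
  (`frq_chg`, `chg_mem_oset`).
* `Wv_smooth`: `Wv e` is `ContDiffOn ∞` on the target (slice of a smooth function).
* `div_eq`: `(∑ i, D i (v i)) (frq (t,x,a)) = ∑ j, (pd j (Wv j) + ∑ k, chr j j k * Wv k)`: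
  by `v_eq` and the slice form of the local formula (`der0_eq` with `F` = the right side of `v_eq`,
  extended to all `(t', x', a')` by the same formula with `t'`; or `LMet.slice_congr`), derivative in
  the direction `hD G i q`:
  `∑ r, a_ri pd r (G_jk W_j) a_ki - ∑ G_jk W_j Γ^k_rs a_ri a_si`; sum over `i` with
  `∑ i, a_ri a_ki = G⁻¹ r k`; then `pd r G_jk = ∑ m (Γ^m_rj G_mk + Γ^m_rk G_mj)` (`LMet.compat_chr`).
* `div_FA`: `integral_div` (module `FDV`).
-/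

open scoped Manifold ContDiff Matrix Topology
open Set MeasureTheory

noncomputable section

namespace Pool.Agent.RFS.BB

private theorem BDV_alg (A G : Fin 3 → Fin 3 → ℝ) (Γ : Fin 3 → Fin 3 → Fin 3 → ℝ)
    (W : Fin 3 → ℝ) (dW : Fin 3 → Fin 3 → ℝ) (hs : ∀ j k, G j k = G k j)
    (hH : ∀ r m, ∑ k, (∑ i, A r i * A k i) * G m k = if r = m then 1 else 0) :
    ∑ i, ∑ j, ∑ k, ((∑ r, A r i * ((∑ m, (Γ m r j * G m k + Γ m r k * G m j)) * W j +
      G j k * dW r j)) * A k i + G j k * W j * (-∑ r, ∑ s, Γ k r s * A r i * A s i)) =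
      ∑ j, (dW j j + ∑ k, Γ j j k * W k) := by
  set H : Fin 3 → Fin 3 → ℝ := fun r k => ∑ i, A r i * A k i with hHdef
  have h1 : ∑ i, ∑ j, ∑ k, ((∑ r, A r i * ((∑ m, (Γ m r j * G m k + Γ m r k * G m j)) * W j +
      G j k * dW r j)) * A k i + G j k * W j * (-∑ r, ∑ s, Γ k r s * A r i * A s i)) =
      ∑ j, ∑ k, ∑ r, H r k * ((∑ m, (Γ m r j * G m k + Γ m r k * G m j)) * W j + G j k * dW r j)
      - ∑ j, ∑ k, G j k * W j * ∑ r, ∑ s, Γ k r s * H r s := by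
    rw [Finset.sum_comm, ← Finset.sum_sub_distrib]
    refine Finset.sum_congr rfl fun j _ => ?_
    rw [Finset.sum_comm, ← Finset.sum_sub_distrib]
    refine Finset.sum_congr rfl fun k _ => ?_
    rw [Finset.sum_add_distrib]
    have e1 : ∑ i, (∑ r, A r i * ((∑ m, (Γ m r j * G m k + Γ m r k * G m j)) * W j +
        G j k * dW r j)) * A k i = ∑ r, H r k *
        ((∑ m, (Γ m r j * G m k + Γ m r k * G m j)) * W j + G j k * dW r j) := by
      simp only [hHdef, Finset.sum_mul]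
      rw [Finset.sum_comm]
      refine Finset.sum_congr rfl fun r _ => Finset.sum_congr rfl fun i _ => ?_
      ring
    have e2 : ∑ i, G j k * W j * (-∑ r, ∑ s, Γ k r s * A r i * A s i) =
        -(G j k * W j * ∑ r, ∑ s, Γ k r s * H r s) := by
      rw [← Finset.mul_sum, ← mul_neg, Finset.sum_neg_distrib]
      congr 2
      rw [Finset.sum_comm]
      refine Finset.sum_congr rfl fun r _ => ?_
      rw [Finset.sum_comm]
      refine Finset.sum_congr rfl fun s _ => ?_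
      simp only [hHdef, Finset.mul_sum]
      refine Finset.sum_congr rfl fun i _ => ?_
      ring
    rw [e1, e2]
    ring
  rw [h1]
  have h2 : ∑ j, ∑ k, ∑ r, H r k * ((∑ m, (Γ m r j * G m k + Γ m r k * G m j)) * W j +
      G j k * dW r j) = ∑ r, ∑ j, dW r j * (∑ k, H r k * G j k) +
      ∑ j, W j * (∑ r, ∑ m, Γ m r j * ∑ k, H r k * G m k) +
      ∑ j, ∑ k, G k j * W j * ∑ r, ∑ s, Γ k r s * H r s := by
    simp only [Fin.sum_univ_three]
    ring
  rw [h2]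
  have h3 : ∑ j, ∑ k, G k j * W j * ∑ r, ∑ s, Γ k r s * H r s =
      ∑ j, ∑ k, G j k * W j * ∑ r, ∑ s, Γ k r s * H r s := by
    refine Finset.sum_congr rfl fun j _ => Finset.sum_congr rfl fun k _ => ?_
    rw [hs k j]
  rw [h3, add_sub_cancel_right]
  have h4 : ∀ r m, ∑ k, H r k * G m k = if r = m then 1 else 0 := hH
  simp only [h4, mul_ite, mul_one, mul_zero, Finset.sum_ite_eq, Finset.mem_univ, if_true]
  rw [Finset.sum_add_distrib]
  congr 1
  simp only [Finset.mul_sum]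
  rw [Finset.sum_comm]
  refine Finset.sum_congr rfl fun r _ => Finset.sum_congr rfl fun j _ => ?_
  ring

variable {M : Type*} [TopologicalSpace M] [ChartedSpace E3 M] [IsManifold (𝓡 3) ∞ M]
  {g : ℝ → RMetric M} {b : ℝ} [Nonempty (Fr g b)]

/-- The vector field in the chart `e`. -/
def Wv (v : Fin 3 → FA g b) (t : ℝ) (e : Ch M) (x : E3) (k : Fin 3) : ℝ :=
  ∑ i, can0 g b (v i).1 e (t, x, cgs (Phi (gt g e) (t, x, one3))) *
    cgs (Phi (gt g e) (t, x, one3)) k i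

omit [IsManifold (𝓡 3) ∞ M] [Nonempty (Fr g b)] in
private theorem BDV_one (e : Ch M) {t : ℝ} {x : E3} (ht : t ∈ Ico 0 b) (hx : x ∈ e.1.target) :
    ((t, x, one3) : Qs) ∈ wset b e.1.target := by
  refine ⟨ht, hx, ?_⟩
  show (Matrix.of one3).det ≠ 0
  rw [one3_eq, Matrix.det_one]
  exact one_ne_zero

omit [IsManifold (𝓡 3) ∞ M] [Nonempty (Fr g b)] in
private theorem BDV_base (hg : IsFam g b) (e : Ch M) {t : ℝ} {x : E3} (ht : t ∈ Ico 0 b)
    (hx : x ∈ e.1.target) :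
    ((t, x, cgs (Phi (gt g e) (t, x, one3))) : Qs) ∈ oset b e.1.target (gt g e) := by
  have h1 := (hg.lmet e).retr_mem (BDV_one (b := b) e ht hx)
  have h2 : retr (gt g e) ((t, x, one3) : Qs) = (t, x, cgs (Phi (gt g e) (t, x, one3))) := by
    refine Prod.ext rfl (Prod.ext rfl ?_)
    funext i j
    show ∑ k, one3 i k * cgs (Phi (gt g e) (t, x, one3)) k j = _
    simp [one3]
  rwa [h2] at h1

theorem Wv_eq (hg : IsFam g b) (v : Fin 3 → FA g b)
    (hv : ∀ Q i, RA hg Q (v i) = ∑ j, (Q : Mat3) j i • v j) (e : Ch M) {q : Qs}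
    (hq : q ∈ oset b e.1.target (gt g e)) (k : Fin 3) :
    Wv v q.1 e q.2.1 k = ∑ i, (v i).1 (frq g b e q) * q.2.2 k i := by
  set c : Fm := cgs (Phi (gt g e) (q.1, q.2.1, one3)) with hc
  have hqc : ((q.1, q.2.1, c) : Qs) ∈ oset b e.1.target (gt g e) := BDV_base hg e hq.1 hq.2.1
  obtain ⟨Q, hQ⟩ := rot_transF (frq g b e (q.1, q.2.1, c)) (frq g b e q)
    (by rw [frq_tm e hqc, frq_tm e hq]) (by rw [frq_bs e hqc, frq_bs e hq])
  have hrot : frq g b e q = frq g b e (rotq Q (q.1, q.2.1, c)) := by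
    rw [hQ, frq_rot Q e hqc]
  have hqr : rotq Q ((q.1, q.2.1, c) : Qs) ∈ oset b e.1.target (gt g e) :=
    ⟨hq.1, hq.2.1, Phi_rotq Q (gt g e) hqc.2.2⟩
  have hov : q.2.1 ∈ ov e e := ⟨hq.2.1, e.1.map_target hq.2.1⟩
  have hcoo := congrArg (coo e) hrot
  rw [coo_frq e e hq hov, coo_frq e e hqr hov, chg_self e hq.2.1, chg_self e hqr.2.1] at hcoo
  have ha : ∀ k i, q.2.2 k i = ∑ l, c k l * (Q : Mat3) l i := fun k i =>
    congrFun (congrFun (congrArg (fun w : Qs => w.2.2) hcoo) k) i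
  have hvi : ∀ i, (v i).1 (frq g b e q) =
      ∑ j, (Q : Mat3) j i * (v j).1 (frq g b e (q.1, q.2.1, c)) := by
    intro i
    rw [hQ, ← RA_apply hg Q (v i), hv Q i, sum_FA]
    rfl
  have hQQ : ∀ j l, ∑ i, (Q : Mat3) j i * (Q : Mat3) l i = if j = l then 1 else 0 := by
    intro j l
    have h1 : (Q : Mat3) * star (Q : Mat3) = 1 := (Matrix.mem_orthogonalGroup_iff (Fin 3) ℝ).1 Q.2
    have h2 := congrFun (congrFun h1 j) l
    rw [Matrix.mul_apply, Matrix.one_apply] at h2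
    rw [← h2]
    rfl
  have hl : Wv v q.1 e q.2.1 k = ∑ i, (v i).1 (frq g b e (q.1, q.2.1, c)) * c k i := by
    show ∑ i, can0 g b (v i).1 e (q.1, q.2.1, c) * c k i = _
    refine Finset.sum_congr rfl fun i _ => ?_
    rw [can0_eq g b (v i).1 e hqc]
  rw [hl]
  have hr : ∑ i, (v i).1 (frq g b e q) * q.2.2 k i =
      ∑ j, ∑ l, (v j).1 (frq g b e (q.1, q.2.1, c)) * c k l *
        ∑ i, (Q : Mat3) j i * (Q : Mat3) l i := by
    simp only [hvi, ha]
    simp only [Fin.sum_univ_three]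
    ring
  rw [hr]
  simp only [hQQ, mul_ite, mul_one, mul_zero, Finset.sum_ite_eq, Finset.mem_univ, if_true]

omit [IsManifold (𝓡 3) ∞ M] [Nonempty (Fr g b)] in
private theorem BDV_gram (e : Ch M) {q : Qs} (hq : q ∈ oset b e.1.target (gt g e))
    (l i : Fin 3) : ∑ j, ∑ k, q.2.2 j l * (g q.1).c e q.2.1 j k * q.2.2 k i =
      if l = i then 1 else 0 := congrFun (congrFun hq.2.2 l) i

theorem v_eq (hg : IsFam g b) (v : Fin 3 → FA g b)
    (hv : ∀ Q i, RA hg Q (v i) = ∑ j, (Q : Mat3) j i • v j) (e : Ch M) {q : Qs}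
    (hq : q ∈ oset b e.1.target (gt g e)) (i : Fin 3) : (v i).1 (frq g b e q) =
      ∑ j, ∑ k, (g q.1).c e q.2.1 j k * Wv v q.1 e q.2.1 j * q.2.2 k i := by
  simp only [Wv_eq hg v hv e hq]
  have h1 : ∑ j, ∑ k, (g q.1).c e q.2.1 j k * (∑ l, (v l).1 (frq g b e q) * q.2.2 j l) *
      q.2.2 k i = ∑ l, (v l).1 (frq g b e q) *
        ∑ j, ∑ k, q.2.2 j l * (g q.1).c e q.2.1 j k * q.2.2 k i := by
    simp only [Fin.sum_univ_three]
    ring
  rw [h1]
  simp only [BDV_gram e hq, mul_ite, mul_one, mul_zero, Finset.sum_ite_eq', Finset.mem_univ,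
    if_true]

theorem Wv_compat (hg : IsFam g b) (v : Fin 3 → FA g b)
    (hv : ∀ Q i, RA hg Q (v i) = ∑ j, (Q : Mat3) j i • v j) {t : ℝ} (ht : t ∈ Ico 0 b)
    (e e' : Ch M) {x : E3} (hx : x ∈ ov e e') (k : Fin 3) :
    Wv v t e' (trans e e' x) k = ∑ j, jac e e' x k j * Wv v t e x j := by
  have hq := BDV_base hg e ht hx.1
  have h1 := Wv_eq hg v hv e' (chg_mem_oset e e' hq hx) k
  rw [frq_chg e e' hq hx] at h1
  have h2 : ∀ j, Wv v t e x j = ∑ i, (v i).1 (frq g b e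
      (t, x, cgs (Phi (gt g e) (t, x, one3)))) * cgs (Phi (gt g e) (t, x, one3)) j i :=
    fun j => Wv_eq hg v hv e hq j
  have h3 : Wv v t e' (trans e e' x) k = ∑ i, (v i).1 (frq g b e
      (t, x, cgs (Phi (gt g e) (t, x, one3)))) *
        ∑ j, jac e e' x k j * cgs (Phi (gt g e) (t, x, one3)) j i := h1
  rw [h3]
  simp only [h2, Fin.sum_univ_three]
  ring

theorem Wv_smooth (hg : IsFam g b) (v : Fin 3 → FA g b) (e : Ch M) (k : Fin 3) :
    ContDiffOn ℝ ∞ (fun q : ℝ × E3 => Wv v q.1 e q.2 k) (Ico 0 b ×ˢ e.1.target) := by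
  have hL := hg.lmet e
  have hι : ContDiffOn ℝ ∞ (fun q : ℝ × E3 => ((q.1, q.2, one3) : Qs))
      (Ico 0 b ×ˢ e.1.target) :=
    (contDiff_fst.prodMk (contDiff_snd.prodMk contDiff_const)).contDiffOn
  have hιm : MapsTo (fun q : ℝ × E3 => ((q.1, q.2, one3) : Qs)) (Ico 0 b ×ˢ e.1.target)
      (wset b e.1.target) := fun q hq => BDV_one e hq.1 hq.2
  have hP : ContDiffOn ℝ ∞ (fun q : ℝ × E3 => Phi (gt g e) ((q.1, q.2, one3) : Qs))
      (Ico 0 b ×ˢ e.1.target) := hL.smooth_Phi.comp hι hιm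
  have hc : ContDiffOn ℝ ∞ (fun q : ℝ × E3 => cgs (Phi (gt g e) ((q.1, q.2, one3) : Qs)))
      (Ico 0 b ×ˢ e.1.target) := by
    intro q hq
    have h1 : ContDiffAt ℝ ∞ cgs (Phi (gt g e) ((q.1, q.2, one3) : Qs)) :=
      contDiffAt_cgs (fun i j => hL.Phi_symm (hιm hq) i j) (hL.Phi_posDef (hιm hq))
    exact h1.comp_contDiffWithinAt q (hP q hq)
  have hq3 : ContDiffOn ℝ ∞ (fun q : ℝ × E3 =>
      ((q.1, q.2, cgs (Phi (gt g e) ((q.1, q.2, one3) : Qs))) : Qs))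
      (Ico 0 b ×ˢ e.1.target) :=
    contDiffOn_fst.prodMk (contDiffOn_snd.prodMk hc)
  have hq3m : MapsTo (fun q : ℝ × E3 =>
      ((q.1, q.2, cgs (Phi (gt g e) ((q.1, q.2, one3) : Qs))) : Qs))
      (Ico 0 b ×ˢ e.1.target) (wset b e.1.target) := fun q hq =>
    hL.oset_sub (BDV_base hg e hq.1 hq.2)
  refine ContDiffOn.sum fun i _ => ContDiffOn.mul ?_ ?_
  · exact (smooth_can0 g b (v i) e).comp hq3 hq3m
  · exact (contDiffOn_pi.1 (contDiffOn_pi.1 hc k)) i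

/-- The derivative of a function of `(t, x)` in a horizontal direction. -/
private theorem BDV_lift {U : Set E3} (hb : 0 < b) (hU : IsOpen U) {u : ℝ × E3 → ℝ}
    (hu : ContDiffOn ℝ ∞ u (Ico 0 b ×ˢ U)) {q : Qs} (hq : q ∈ wset b U) :
    ∃ L : Qs →L[ℝ] ℝ, HasFDerivWithinAt (fun q' : Qs => u (q'.1, q'.2.1)) L (wset b U) q ∧
      ∀ (a : Fin 3 → ℝ) (w : Fm), L ((0, ∑ r, a r • bv r, w) : Qs) =
        ∑ r, a r * pd r (fun y => u (q.1, y)) q.2.1 := by
  let P : Qs →L[ℝ] ℝ × E3 := (ContinuousLinearMap.fst ℝ ℝ (E3 × Fm)).prod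
    ((ContinuousLinearMap.fst ℝ E3 Fm).comp (ContinuousLinearMap.snd ℝ ℝ (E3 × Fm)))
  have h1 : HasFDerivWithinAt u (fderivWithin ℝ u (Ico 0 b ×ˢ U) (q.1, q.2.1))
      (Ico 0 b ×ˢ U) (P q) :=
    ((hu.differentiableOn (by simp)) (q.1, q.2.1) ⟨hq.1, hq.2.1⟩).hasFDerivWithinAt
  refine ⟨_, h1.comp q P.hasFDerivWithinAt (fun z hz => ⟨hz.1, hz.2.1⟩), fun a w => ?_⟩
  show fderivWithin ℝ u (Ico 0 b ×ˢ U) (q.1, q.2.1) ((0 : ℝ), ∑ r, a r • bv r) = _
  have e1 : (((0 : ℝ), ∑ r, a r • bv r) : ℝ × E3) = ∑ r, a r • (((0 : ℝ), bv r) : ℝ × E3) := by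
    rw [Prod.ext_iff, Prod.fst_sum, Prod.snd_sum]
    constructor
    · simp
    · simp
  rw [e1, map_sum]
  refine Finset.sum_congr rfl fun r _ => ?_
  rw [map_smul, smul_eq_mul, pd_eq_fderivWithin hb hU hu r hq.1 hq.2.1]

theorem div_eq (hg : IsFam g b) (v : Fin 3 → FA g b)
    (hv : ∀ Q i, RA hg Q (v i) = ∑ j, (Q : Mat3) j i • v j) (e : Ch M) {q : Qs}
    (hq : q ∈ oset b e.1.target (gt g e)) :
    (∑ i, (natD hg i).der hg (v i)).1 (frq g b e q) =
      ∑ j, (pd j (fun y => Wv v q.1 e y j) q.2.1 +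
        ∑ k, chr ((g q.1).c e) q.2.1 j j k * Wv v q.1 e q.2.1 k) := by
  have hL := hg.lmet e
  have hqw : q ∈ wset b e.1.target := hL.oset_sub hq
  have hud : UniqueDiffOn ℝ (wset b e.1.target) := uniqueDiffOn_wset hL.pos_b hL.open_U
  have hdG : ∀ j k, DifferentiableAt ℝ (fun y => (g q.1).c e y j k) q.2.1 := fun j k =>
    (((g q.1).smooth e j k).contDiffAt (e.1.open_target.mem_nhds hq.2.1)).differentiableAt
      (by simp)
  have hWs : ∀ j, ContDiffOn ℝ ∞ (fun y => Wv v q.1 e y j) e.1.target := fun j =>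
    (Wv_smooth hg v e j).comp (contDiffOn_const.prodMk contDiffOn_id)
      (fun y hy => ⟨hq.1, hy⟩)
  have hdW : ∀ j, DifferentiableAt ℝ (fun y => Wv v q.1 e y j) q.2.1 := fun j =>
    ((hWs j).contDiffAt (e.1.open_target.mem_nhds hq.2.1)).differentiableAt (by simp)
  let Lc : Fin 3 → Fin 3 → Qs →L[ℝ] ℝ := fun k p =>
    ((ContinuousLinearMap.proj (R := ℝ) (φ := fun _ : Fin 3 => ℝ) p).comp
      (ContinuousLinearMap.proj (R := ℝ) (φ := fun _ : Fin 3 => (Fin 3 → ℝ)) k)).comp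
      ((ContinuousLinearMap.snd ℝ E3 Fm).comp (ContinuousLinearMap.snd ℝ ℝ (E3 × Fm)))
  have hu : ∀ j k, ContDiffOn ℝ ∞ (fun p : ℝ × E3 => (g p.1).c e p.2 j k * Wv v p.1 e p.2 j)
      (Ico 0 b ×ˢ e.1.target) := fun j k => (hL.smooth j k).mul (Wv_smooth hg v e j)
  choose L hLd hLv using fun j k => BDV_lift hL.pos_b hL.open_U (hu j k) hqw
  have hF : ∀ i, HasFDerivWithinAt
      (fun q' : Qs => ∑ j, ∑ k, (g q'.1).c e q'.2.1 j k * Wv v q'.1 e q'.2.1 j * q'.2.2 k i)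
      (∑ j, ∑ k, (((g q.1).c e q.2.1 j k * Wv v q.1 e q.2.1 j) • Lc k i + q.2.2 k i • L j k))
      (wset b e.1.target) q := by
    intro i
    refine HasFDerivWithinAt.fun_sum fun j _ => HasFDerivWithinAt.fun_sum fun k _ => ?_
    exact (hLd j k).mul (Lc k i).hasFDerivWithinAt
  have hterm : ∀ i, ((natD hg i).der hg (v i)).1 (frq g b e q) =
      ∑ j, ∑ k, ((∑ r, q.2.2 r i * ((∑ m, (chr ((g q.1).c e) q.2.1 m r j *
        (g q.1).c e q.2.1 m k + chr ((g q.1).c e) q.2.1 m r k * (g q.1).c e q.2.1 m j)) *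
          Wv v q.1 e q.2.1 j + (g q.1).c e q.2.1 j k *
            pd r (fun y => Wv v q.1 e y j) q.2.1)) * q.2.2 k i +
        (g q.1).c e q.2.1 j k * Wv v q.1 e q.2.1 j *
          (-∑ r, ∑ s, chr ((g q.1).c e) q.2.1 k r s * q.2.2 r i * q.2.2 s i)) := by
    intro i
    rw [NatField.der_apply, NatField.der0_eq hg (natD hg i) (v i) e hq _
      (hF i).differentiableWithinAt (by
        filter_upwards [self_mem_nhdsWithin] with q' hq'
        exact (v_eq hg v hv e hq' i).symm), (hF i).fderivWithin (hud q hqw)]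
    have hX : (natD hg i).X e q = ((0, ∑ k, q.2.2 k i • bv k,
      fun m j => -∑ k, ∑ l, chr (gt g e q.1) q.2.1 m k l * q.2.2 k i * q.2.2 l j) : Qs) := rfl
    rw [hX]
    simp only [FunLike.coe_sum, Finset.sum_apply, add_apply, smul_apply, smul_eq_mul, hLv]
    refine Finset.sum_congr rfl fun j _ => Finset.sum_congr rfl fun k _ => ?_
    have hpd : ∀ r, pd r (fun y => (g q.1).c e y j k * Wv v q.1 e y j) q.2.1 =
        (∑ m, (chr ((g q.1).c e) q.2.1 m r j * (g q.1).c e q.2.1 m k +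
          chr ((g q.1).c e) q.2.1 m r k * (g q.1).c e q.2.1 m j)) * Wv v q.1 e q.2.1 j +
          (g q.1).c e q.2.1 j k * pd r (fun y => Wv v q.1 e y j) q.2.1 := by
      intro r
      have h2 := ((hdG j k).hasFDerivAt.fun_mul (hdW j).hasFDerivAt).fderiv
      have h3 : pd r (fun y => (g q.1).c e y j k) q.2.1 =
          ∑ m, (chr ((g q.1).c e) q.2.1 m r j * (g q.1).c e q.2.1 m k +
            chr ((g q.1).c e) q.2.1 m r k * (g q.1).c e q.2.1 m j) :=
        hL.compat_chr hq.1 hq.2.1 r j k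
      rw [← h3, pd, h2]
      simp only [pd, add_apply, smul_apply, smul_eq_mul]
      ring
    simp only [hpd]
    show (g q.1).c e q.2.1 j k * Wv v q.1 e q.2.1 j *
      (-∑ r, ∑ s, chr ((g q.1).c e) q.2.1 k r s * q.2.2 r i * q.2.2 s i) + q.2.2 k i * _ = _
    ring
  rw [sum_FA]
  simp only [hterm]
  refine BDV_alg q.2.2 (fun j k => (g q.1).c e q.2.1 j k)
    (fun m r j => chr ((g q.1).c e) q.2.1 m r j) (fun j => Wv v q.1 e q.2.1 j)
    (fun r j => pd r (fun y => Wv v q.1 e y j) q.2.1) ?_ ?_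
  · intro j k
    have := congrFun (congrFun ((g q.1).symm e q.2.1 hq.2.1) j) k
    rw [Matrix.transpose_apply] at this
    exact this.symm
  · intro r m
    have h1 : (Matrix.of q.2.2)ᵀ * (g q.1).c e q.2.1 * Matrix.of q.2.2 = 1 := by
      have h2 := Phi_eq (gt g e) q
      rw [hq.2.2, one3_eq] at h2
      exact h2.symm
    have h2 : Matrix.of q.2.2 * ((Matrix.of q.2.2)ᵀ * (g q.1).c e q.2.1) = 1 :=
      mul_eq_one_comm.1 h1
    have hsym := (g q.1).symm e q.2.1 hq.2.1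
    rw [← Matrix.mul_assoc] at h2
    have h3 := congrFun (congrFun h2 r) m
    rw [Matrix.mul_apply, Matrix.one_apply] at h3
    rw [← h3]
    refine Finset.sum_congr rfl fun k _ => ?_
    rw [Matrix.mul_apply]
    have h4 : (g q.1).c e q.2.1 m k = (g q.1).c e q.2.1 k m := by
      have := congrFun (congrFun hsym k) m
      rw [Matrix.transpose_apply] at this
      exact this
    rw [h4]
    rfl

theorem div_FA [CompactSpace M] [T2Space M] [MeasurableSpace M] [BorelSpace M] (hg : IsFam g b)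
    (v : Fin 3 → FA g b) (hv : ∀ Q i, RA hg Q (v i) = ∑ j, (Q : Mat3) j i • v j)
    (u : ℝ → M → ℝ) (hu : ∀ z : Fr g b, (∑ i, (natD hg i).der hg (v i)).1 z = u z.tm z.bs)
    {t : ℝ} (ht : t ∈ Ico 0 b) {μ : Measure M} (hμ : IsVol (g t) μ) :
    ∫ p, u t p ∂μ = 0 := by
  refine integral_div (g t) hμ (fun e x k => Wv v t e x k) ?_ ?_ (u t) ?_
  · intro e j
    exact ((Wv_smooth hg v e j).comp (contDiffOn_const.prodMk contDiffOn_id)
      (fun y hy => ⟨ht, hy⟩)).of_le (by simp)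
  · intro e e' x hx k
    exact Wv_compat hg v hv ht e e' hx k
  · intro e x hx
    have hq := BDV_base hg e ht hx
    have h1 := hu (frq g b e (t, x, cgs (Phi (gt g e) (t, x, one3))))
    rw [frq_tm e hq, frq_bs e hq, div_eq hg v hv e hq] at h1
    exact h1.symm

end Pool.Agent.RFS.BB
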