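import Pool.Agent.RFS.BNI

/-!
# RFS, chunk (b), module BFC: functional calculus and the time function

Proofs.
* `fcA`: `h = ⟨fun z => ψ (f.1 z), _⟩`; `can0 g b (ψ ∘ f) e = ψ ∘ can0 g b f e` (definitional) and
  `can0 g b f e q = f.1 _ ∈ U` for every `q`, so `ContDiffOn.comp`.  Derivative: `der0_rep` for both,
  `fderivWithin` of a composition with `ψ` differentiable at `f.1 z` (`U` open; `HasDerivAt.comp_hasFDerivWithinAt`).
* `tauA`: `can0 g b Fr.tm e q = q.1` on `wset` (`frq_tm`, `retr_mem`, `(retr G q).1 = q.1`).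
  The derivative in the direction `N.X e q` is `(N.X e q).1`, which is `1` for `T` and `0` for
  `D i`, `V n`.
-/

open scoped Manifold ContDiff Matrix Topology
open Set MeasureTheory

noncomputable section

namespace Pool.Agent.RFS.BB

variable {M : Type*} [TopologicalSpace M] [ChartedSpace E3 M] [IsManifold (𝓡 3) ∞ M]
  {g : ℝ → RMetric M} {b : ℝ} [Nonempty (Fr g b)]

theorem fcA (hg : IsFam g b) (ψ : ℝ → ℝ) (U : Set ℝ) (hU : IsOpen U) (hψ : ContDiffOn ℝ ∞ ψ U)
    (f : FA g b) (hf : ∀ z, f.1 z ∈ U) :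
    ∃ h : FA g b, (∀ z, h.1 z = ψ (f.1 z)) ∧
      ∀ (N : NatField g b) (z : Fr g b), (N.der hg h).1 z = deriv ψ (f.1 z) * (N.der hg f).1 z := by
  have hs : ∀ e : Ch M, ContDiffOn ℝ ∞ (can0 g b (fun z => ψ (f.1 z)) e) (wset b e.1.target) := by
    intro e
    have h1 : ContDiffOn ℝ ∞ (fun q => ψ (can0 g b f.1 e q)) (wset b e.1.target) :=
      hψ.comp (smooth_can0 g b f e) (fun q _ => hf _)
    exact h1
  refine ⟨⟨fun z => ψ (f.1 z), hs⟩, fun z => rfl, fun N z => ?_⟩
  obtain ⟨e, q, hq, rfl⟩ := exists_frq z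
  have hqw : q ∈ wset b e.1.target := (hg.lmet e).oset_sub hq
  have hud := uniqueDiffOn_wset (hg.lmet e).pos_b (hg.lmet e).open_U q hqw
  rw [N.der_apply hg, N.der_apply hg, N.der0_rep hg _ e hq, N.der0_rep hg _ e hq]
  have h1 : HasFDerivWithinAt (can0 g b f.1 e)
      (fderivWithin ℝ (can0 g b f.1 e) (wset b e.1.target) q) (wset b e.1.target) q :=
    ((smooth_can0 g b f e q hqw).differentiableWithinAt (by simp)).hasFDerivWithinAt
  have h2 : can0 g b f.1 e q = f.1 (frq g b e q) := can0_eq g b f.1 e hq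
  have h3 : HasDerivAt ψ (deriv ψ (can0 g b f.1 e q)) (can0 g b f.1 e q) := by
    have h4 : can0 g b f.1 e q ∈ U := hf _
    exact (((hψ _ h4).contDiffAt (hU.mem_nhds h4)).differentiableAt (by simp)).hasDerivAt
  have h5 := h3.comp_hasFDerivWithinAt q h1
  have h6 : fderivWithin ℝ (can0 g b (fun z => ψ (f.1 z)) e) (wset b e.1.target) q =
      deriv ψ (can0 g b f.1 e q) • fderivWithin ℝ (can0 g b f.1 e) (wset b e.1.target) q :=
    HasFDerivWithinAt.fderivWithin h5 hud
  show fderivWithin ℝ (can0 g b (fun z => ψ (f.1 z)) e) (wset b e.1.target) q (N.X e q) = _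
  rw [h6, h2]
  rfl

private theorem BFC_tau (hg : IsFam g b) : (Fr.tm : Fr g b → ℝ) ∈ FA g b := by
  intro e
  have h1 : ContDiffOn ℝ ∞ (fun q : Qs => q.1) (wset b e.1.target) := contDiff_fst.contDiffOn
  refine h1.congr fun q hq => ?_
  exact frq_tm e ((hg.lmet e).retr_mem hq)

/-- The time function. -/
def tauA (hg : IsFam g b) : FA g b := ⟨Fr.tm, by
  exact BFC_tau hg⟩

theorem tauA_apply (hg : IsFam g b) (z : Fr g b) : (tauA hg).1 z = z.tm := rfl

private theorem BFC_der (hg : IsFam g b) (N : NatField g b) (e : Ch M) {q : Qs}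
    (hq : q ∈ oset b e.1.target (gt g e)) :
    (N.der hg (tauA hg)).1 (frq g b e q) = (N.X e q).1 := by
  have hqw : q ∈ wset b e.1.target := (hg.lmet e).oset_sub hq
  have hud := uniqueDiffOn_wset (hg.lmet e).pos_b (hg.lmet e).open_U q hqw
  have h1 : HasFDerivWithinAt (fun q : Qs => q.1) (ContinuousLinearMap.fst ℝ ℝ (E3 × Fm))
      (wset b e.1.target) q := hasFDerivAt_fst.hasFDerivWithinAt
  rw [N.der_apply hg, N.der0_eq hg (tauA hg) e hq (fun q => q.1) h1.differentiableWithinAt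
    (by
      filter_upwards [self_mem_nhdsWithin] with q' hq'
      exact (frq_tm e hq').symm), h1.fderivWithin hud]
  rfl

theorem T_tauA (hg : IsFam g b) : (natT hg).der hg (tauA hg) = 1 := by
  refine FA_ext g b fun z => ?_
  obtain ⟨e, q, hq, rfl⟩ := exists_frq z
  rw [BFC_der hg _ e hq]
  rfl

theorem D_tauA (hg : IsFam g b) (i : Fin 3) : (natD hg i).der hg (tauA hg) = 0 := by
  refine FA_ext g b fun z => ?_
  obtain ⟨e, q, hq, rfl⟩ := exists_frq z
  rw [BFC_der hg _ e hq]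
  rfl

theorem V_tauA (hg : IsFam g b) (n : Fin 3) : (natV hg n).der hg (tauA hg) = 0 := by
  refine FA_ext g b fun z => ?_
  obtain ⟨e, q, hq, rfl⟩ := exists_frq z
  rw [BFC_der hg _ e hq]
  rfl

end Pool.Agent.RFS.BB
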