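import Pool.Agent.RFS.BDF

/-!
# RFS, chunk (b), module BGR: the Ricci flow case `rho = tr P - P`

Proof of `T_P`.  Write `S = ∑ k, P k k`, `rho q j = S δ_qj - P q j`.
`tr rho = 2 S`, so the first part of `GAlg.T_P` is `2 S P - (S P - P²) = S P + P²`.
Second part, with `eps i j l eps p q n =` determinant of Kronecker symbols:
* `∑ eps i j l eps p j n D i (D p S) = δ_ln Lap S - D n (D l S)`;
* `∑ eps i j l eps p q n D i (D p (P q j))
   = δ_ln Lap S - Lap (P l n) - δ_ln ∑ D i (D p (P i p)) + ∑ i, D i (D l (P i n)) + D n (∑ D j (P l j)) - D n (D l S)`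
   and the third and fifth term vanish by `div_P`, `P_symm`.
So the second part is `Lap (P l n) - ∑ i, D i (D l (P i n)) = Lap (P l n) - ∑ i, [D i, D l] (P i n)`
(`div_P`), and by `comm_DD`, `V_P`:
`∑ i, [D i, D l] (P i n) = S P l n - (P²) l n - ∑ (eps l k m eps n p q) P k p P m q`.
Total: `T P = Lap P + 2 P² + ∑ eps eps P P`.
In Lean: for each of the 9 (6 by symmetry) values of `(l, n)`: `fin_cases l <;> fin_cases n`,
`simp [Fin.sum_univ_three, eps]`, rewrite `rho` by `h`, `map_sub`, `map_add`, and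
`linear_combination` of `div_P`, `D i` of `div_P`, and instances of `comm_DD` applied to `P i n`.
The `comm_TD` field: `GAlg.comm_TD` with `h` inserted.
-/

open scoped Manifold ContDiff Matrix
open Set MeasureTheory

noncomputable section

namespace Pool.Agent.RFS.BB

namespace GAlg

variable {A : Type*} [CommRing A] [Algebra ℝ A] (S : GAlg A)

theorem comm_TD_rf (h : ∀ i j, S.rho i j = (if i = j then ∑ k, S.P k k else 0) - S.P i j)
    (i : Fin 3) (f : A) : S.T (S.D i f) - S.D i (S.T f) =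
    (∑ k, S.P k k) * S.D i f - ∑ j, S.P i j * S.D j f
      + ∑ n, ∑ p, ∑ q, eps p q n •
        (S.D p ((if q = i then ∑ k, S.P k k else 0) - S.P q i) * S.V n f) := by
  rw [S.comm_TD]
  simp only [h]
  congr 1
  simp only [sub_mul, ite_mul, zero_mul, Finset.sum_sub_distrib, Finset.sum_ite_eq,
    Finset.mem_univ, if_true]

private theorem e_val : (∀ j k : Fin 3, eps j j k = 0) ∧ (∀ j k : Fin 3, eps j k k = 0) ∧
    (∀ j k : Fin 3, eps j k j = 0) ∧ eps 0 1 2 = 1 ∧ eps 1 2 0 = 1 ∧ eps 2 0 1 = 1 ∧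
    eps 0 2 1 = -1 ∧ eps 1 0 2 = -1 ∧ eps 2 1 0 = -1 := by
  refine ⟨fun j k => ?_, fun j k => ?_, fun j k => ?_, ?_, ?_, ?_, ?_, ?_, ?_⟩ <;>
    simp [eps] <;> norm_num

private theorem dd (a j : Fin 3) :
    S.D a (S.D 0 (S.P 0 j)) + S.D a (S.D 1 (S.P 1 j)) + S.D a (S.D 2 (S.P 2 j)) = 0 := by
  have h1 := congrArg (S.D a) (S.div_P j)
  rw [Fin.sum_univ_three, map_add, map_add, map_zero] at h1
  exact h1

private theorem cm (a i j : Fin 3) : S.D a (S.D i (S.P a j)) - S.D i (S.D a (S.P a j)) =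
    ∑ m, ∑ n, eps a i m • (S.P m n * ∑ k, (eps n a k • S.P k j + eps n j k • S.P a k)) := by
  rw [S.comm_DD]
  exact Finset.sum_congr rfl fun m _ => Finset.sum_congr rfl fun n _ => by rw [S.V_P]

theorem T_P_rf (h : ∀ i j, S.rho i j = (if i = j then ∑ k, S.P k k else 0) - S.P i j)
    (i j : Fin 3) : S.T (S.P i j) = ∑ k, S.D k (S.D k (S.P i j)) + 2 * ∑ k, S.P i k * S.P k j
    + ∑ k, ∑ l, ∑ m, ∑ n, (eps i k l * eps j m n) • (S.P k m * S.P l n) := by
  obtain ⟨a1, a2, a3, b1, b2, b3, b4, b5, b6⟩ := e_val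
  have s1 := S.P_symm 1 0
  have s2 := S.P_symm 2 0
  have s3 := S.P_symm 2 1
  have r00 : S.rho 0 0 = S.P 1 1 + S.P 2 2 := by
    rw [h, if_pos rfl, Fin.sum_univ_three]; ring
  have r11 : S.rho 1 1 = S.P 0 0 + S.P 2 2 := by
    rw [h, if_pos rfl, Fin.sum_univ_three]; ring
  have r22 : S.rho 2 2 = S.P 0 0 + S.P 1 1 := by
    rw [h, if_pos rfl, Fin.sum_univ_three]; ring
  have r01 : S.rho 0 1 = - S.P 0 1 := by rw [h, if_neg (by decide), zero_sub]
  have r02 : S.rho 0 2 = - S.P 0 2 := by rw [h, if_neg (by decide), zero_sub]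
  have r12 : S.rho 1 2 = - S.P 1 2 := by rw [h, if_neg (by decide), zero_sub]
  have r10 : S.rho 1 0 = - S.P 0 1 := by rw [h, if_neg (by decide), zero_sub, s1]
  have r20 : S.rho 2 0 = - S.P 0 2 := by rw [h, if_neg (by decide), zero_sub, s2]
  have r21 : S.rho 2 1 = - S.P 1 2 := by rw [h, if_neg (by decide), zero_sub, s3]
  have e00 : S.T (S.P 0 0) = ∑ k, S.D k (S.D k (S.P 0 0)) + 2 * ∑ k, S.P 0 k * S.P k 0
    + ∑ k, ∑ l, ∑ m, ∑ n, (eps 0 k l * eps 0 m n) • (S.P k m * S.P l n) := by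
    have t := S.T_P 0 0
    have d00 := S.dd 0 0
    have d11 := S.dd 1 1
    have d22 := S.dd 2 2
    have u1 := S.dd 0 0
    have u2 := S.dd 0 0
    have c1 := S.cm 1 0 0
    have c2 := S.cm 2 0 0
    simp only [Fin.sum_univ_three, a1, a2, a3, b1, b2, b3, b4, b5, b6, zero_smul, one_smul,
      neg_smul, add_zero, zero_add, mul_zero, mul_neg, neg_zero, zero_mul, mul_one, neg_neg, s1, s2,
      s3, r00, r01, r02, r10, r11, r12, r20, r21, r22, map_add, map_neg] at t d00 d11 d22 u1 u2 c1 c2 ⊢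
    linear_combination t + d00 + d11 + d22 - u1 - u2 - c1 - c2
  have e01 : S.T (S.P 0 1) = ∑ k, S.D k (S.D k (S.P 0 1)) + 2 * ∑ k, S.P 0 k * S.P k 1
    + ∑ k, ∑ l, ∑ m, ∑ n, (eps 0 k l * eps 1 m n) • (S.P k m * S.P l n) := by
    have t := S.T_P 0 1
    have u1 := S.dd 1 0
    have u2 := S.dd 0 1
    have c1 := S.cm 1 0 1
    have c2 := S.cm 2 0 1
    simp only [Fin.sum_univ_three, a1, a2, a3, b1, b2, b3, b4, b5, b6, zero_smul, one_smul,
      neg_smul, add_zero, zero_add, mul_zero, mul_neg, neg_zero, zero_mul, mul_one, neg_neg, s1, s2,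
      s3, r00, r01, r02, r10, r11, r12, r20, r21, r22, map_add, map_neg] at t u1 u2 c1 c2 ⊢
    linear_combination t - u1 - u2 - c1 - c2
  have e02 : S.T (S.P 0 2) = ∑ k, S.D k (S.D k (S.P 0 2)) + 2 * ∑ k, S.P 0 k * S.P k 2
    + ∑ k, ∑ l, ∑ m, ∑ n, (eps 0 k l * eps 2 m n) • (S.P k m * S.P l n) := by
    have t := S.T_P 0 2
    have u1 := S.dd 2 0
    have u2 := S.dd 0 2
    have c1 := S.cm 1 0 2
    have c2 := S.cm 2 0 2
    simp only [Fin.sum_univ_three, a1, a2, a3, b1, b2, b3, b4, b5, b6, zero_smul, one_smul,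
      neg_smul, add_zero, zero_add, mul_zero, mul_neg, neg_zero, zero_mul, mul_one, neg_neg, s1, s2,
      s3, r00, r01, r02, r10, r11, r12, r20, r21, r22, map_add, map_neg] at t u1 u2 c1 c2 ⊢
    linear_combination t - u1 - u2 - c1 - c2
  have e10 : S.T (S.P 1 0) = ∑ k, S.D k (S.D k (S.P 1 0)) + 2 * ∑ k, S.P 1 k * S.P k 0
    + ∑ k, ∑ l, ∑ m, ∑ n, (eps 1 k l * eps 0 m n) • (S.P k m * S.P l n) := by
    have t := S.T_P 1 0
    have u1 := S.dd 0 1
    have u2 := S.dd 1 0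
    have c0 := S.cm 0 1 0
    have c2 := S.cm 2 1 0
    simp only [Fin.sum_univ_three, a1, a2, a3, b1, b2, b3, b4, b5, b6, zero_smul, one_smul,
      neg_smul, add_zero, zero_add, mul_zero, mul_neg, neg_zero, zero_mul, mul_one, neg_neg, s1, s2,
      s3, r00, r01, r02, r10, r11, r12, r20, r21, r22, map_add, map_neg] at t u1 u2 c0 c2 ⊢
    linear_combination t - u1 - u2 - c0 - c2
  have e11 : S.T (S.P 1 1) = ∑ k, S.D k (S.D k (S.P 1 1)) + 2 * ∑ k, S.P 1 k * S.P k 1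
    + ∑ k, ∑ l, ∑ m, ∑ n, (eps 1 k l * eps 1 m n) • (S.P k m * S.P l n) := by
    have t := S.T_P 1 1
    have d00 := S.dd 0 0
    have d11 := S.dd 1 1
    have d22 := S.dd 2 2
    have u1 := S.dd 1 1
    have u2 := S.dd 1 1
    have c0 := S.cm 0 1 1
    have c2 := S.cm 2 1 1
    simp only [Fin.sum_univ_three, a1, a2, a3, b1, b2, b3, b4, b5, b6, zero_smul, one_smul,
      neg_smul, add_zero, zero_add, mul_zero, mul_neg, neg_zero, zero_mul, mul_one, neg_neg, s1, s2,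
      s3, r00, r01, r02, r10, r11, r12, r20, r21, r22, map_add, map_neg] at t d00 d11 d22 u1 u2 c0 c2 ⊢
    linear_combination t + d00 + d11 + d22 - u1 - u2 - c0 - c2
  have e12 : S.T (S.P 1 2) = ∑ k, S.D k (S.D k (S.P 1 2)) + 2 * ∑ k, S.P 1 k * S.P k 2
    + ∑ k, ∑ l, ∑ m, ∑ n, (eps 1 k l * eps 2 m n) • (S.P k m * S.P l n) := by
    have t := S.T_P 1 2
    have u1 := S.dd 2 1
    have u2 := S.dd 1 2
    have c0 := S.cm 0 1 2
    have c2 := S.cm 2 1 2
    simp only [Fin.sum_univ_three, a1, a2, a3, b1, b2, b3, b4, b5, b6, zero_smul, one_smul,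
      neg_smul, add_zero, zero_add, mul_zero, mul_neg, neg_zero, zero_mul, mul_one, neg_neg, s1, s2,
      s3, r00, r01, r02, r10, r11, r12, r20, r21, r22, map_add, map_neg] at t u1 u2 c0 c2 ⊢
    linear_combination t - u1 - u2 - c0 - c2
  have e20 : S.T (S.P 2 0) = ∑ k, S.D k (S.D k (S.P 2 0)) + 2 * ∑ k, S.P 2 k * S.P k 0
    + ∑ k, ∑ l, ∑ m, ∑ n, (eps 2 k l * eps 0 m n) • (S.P k m * S.P l n) := by
    have t := S.T_P 2 0
    have u1 := S.dd 0 2
    have u2 := S.dd 2 0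
    have c0 := S.cm 0 2 0
    have c1 := S.cm 1 2 0
    simp only [Fin.sum_univ_three, a1, a2, a3, b1, b2, b3, b4, b5, b6, zero_smul, one_smul,
      neg_smul, add_zero, zero_add, mul_zero, mul_neg, neg_zero, zero_mul, mul_one, neg_neg, s1, s2,
      s3, r00, r01, r02, r10, r11, r12, r20, r21, r22, map_add, map_neg] at t u1 u2 c0 c1 ⊢
    linear_combination t - u1 - u2 - c0 - c1
  have e21 : S.T (S.P 2 1) = ∑ k, S.D k (S.D k (S.P 2 1)) + 2 * ∑ k, S.P 2 k * S.P k 1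
    + ∑ k, ∑ l, ∑ m, ∑ n, (eps 2 k l * eps 1 m n) • (S.P k m * S.P l n) := by
    have t := S.T_P 2 1
    have u1 := S.dd 1 2
    have u2 := S.dd 2 1
    have c0 := S.cm 0 2 1
    have c1 := S.cm 1 2 1
    simp only [Fin.sum_univ_three, a1, a2, a3, b1, b2, b3, b4, b5, b6, zero_smul, one_smul,
      neg_smul, add_zero, zero_add, mul_zero, mul_neg, neg_zero, zero_mul, mul_one, neg_neg, s1, s2,
      s3, r00, r01, r02, r10, r11, r12, r20, r21, r22, map_add, map_neg] at t u1 u2 c0 c1 ⊢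
    linear_combination t - u1 - u2 - c0 - c1
  have e22 : S.T (S.P 2 2) = ∑ k, S.D k (S.D k (S.P 2 2)) + 2 * ∑ k, S.P 2 k * S.P k 2
    + ∑ k, ∑ l, ∑ m, ∑ n, (eps 2 k l * eps 2 m n) • (S.P k m * S.P l n) := by
    have t := S.T_P 2 2
    have d00 := S.dd 0 0
    have d11 := S.dd 1 1
    have d22 := S.dd 2 2
    have u1 := S.dd 2 2
    have u2 := S.dd 2 2
    have c0 := S.cm 0 2 2
    have c1 := S.cm 1 2 2
    simp only [Fin.sum_univ_three, a1, a2, a3, b1, b2, b3, b4, b5, b6, zero_smul, one_smul,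
      neg_smul, add_zero, zero_add, mul_zero, mul_neg, neg_zero, zero_mul, mul_one, neg_neg, s1, s2,
      s3, r00, r01, r02, r10, r11, r12, r20, r21, r22, map_add, map_neg] at t d00 d11 d22 u1 u2 c0 c1 ⊢
    linear_combination t + d00 + d11 + d22 - u1 - u2 - c0 - c1
  fin_cases i <;> fin_cases j
  exacts [e00, e01, e02, e10, e11, e12, e20, e21, e22]

/-- The Ricci flow calculus. -/
def toRF (h : ∀ i j, S.rho i j = (if i = j then ∑ k, S.P k k else 0) - S.P i j) : RFAlg A where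
  T := S.T
  D := S.D
  V := S.V
  P := S.P
  P_symm := S.P_symm
  comm_VV := S.comm_VV
  comm_VD := S.comm_VD
  V_P := S.V_P
  comm_DD := S.comm_DD
  div_P := S.div_P
  comm_TV := S.comm_TV
  comm_TD := S.comm_TD_rf h
  T_P := S.T_P_rf h

end GAlg

end Pool.Agent.RFS.BB
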