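import Pool.Agent.RFS.BRO

/-!
# RFS, chunk (b), module BMC: functions of the algebra attain their maximum on compact sets

Proof.  `isCompact_orth`: the set of `Q : Fm` with `Qᵀ Q = 1` is closed and bounded (`|Q i j| ≤ 1`) in
`Fin 3 → Fin 3 → ℝ`, hence compact (`Metric.isCompact_of_isClosed_isBounded`).
`exists_max_compact`: let `J ⊆ Ico 0 b` be compact and non-empty.  `M` is compact: finitely many
charts `e i` and compact `K i ⊆ (e i).1.source` cover `M` (e.g. `FVO.exists_cover` or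
`exists_partition` of `FPU`, or local compactness + `IsCompact.elim_nhds_subcover`).
For each `i` the function `Ψ (t, x, Q) = can0 g b f.1 (e i) (t, x, c Q)`,
`c = cgs (Phi G (t, x, one3))`, is continuous on the compact set `J × e i (K i) × orth`
(`contDiffAt_cgs`; `(t, x, c Q) ∈ oset`), and every `z` with `z.tm ∈ J`, `z.bs ∈ K i` is
`frq (e i) (t, x, c Q)` for some `Q`: `coo (e i) z = (t, x, a)`, `Q = c⁻¹ a` is orthogonal.
So `f` attains its maximum over the points with base point in `K i` (if there are any: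
`exists_point`), and the maximum over the finitely many `i` is attained.
-/

open scoped Manifold ContDiff Matrix Topology
open Set MeasureTheory

noncomputable section

namespace Pool.Agent.RFS.BB

theorem isCompact_orth :
    IsCompact {Q : Fm | (Matrix.of Q)ᵀ * Matrix.of Q = 1} := by
  have hcl : IsClosed {Q : Fm | (Matrix.of Q)ᵀ * Matrix.of Q = 1} := by
    have h1 : {Q : Fm | (Matrix.of Q)ᵀ * Matrix.of Q = 1} =
        ⋂ i, ⋂ j, {Q : Fm | ∑ k, Q k i * Q k j = (1 : Mat3) i j} := by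
      ext Q
      simp only [mem_ofPred_eq, mem_iInter]
      constructor
      · intro h i j
        rw [← h, Matrix.mul_apply]
        rfl
      · intro h
        ext i j
        rw [Matrix.mul_apply]
        exact h i j
    rw [h1]
    refine isClosed_iInter fun i => isClosed_iInter fun j => isClosed_eq ?_ continuous_const
    fun_prop
  have hsub : {Q : Fm | (Matrix.of Q)ᵀ * Matrix.of Q = 1} ⊆ Metric.closedBall 0 1 := by
    intro Q hQ
    rw [mem_closedBall_zero_iff, pi_norm_le_iff_of_nonneg zero_le_one]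
    intro i
    rw [pi_norm_le_iff_of_nonneg zero_le_one]
    intro j
    have h2 : ∑ k, Q k j * Q k j = 1 := by
      have := congrFun (congrFun hQ j) j
      rwa [Matrix.mul_apply, Matrix.one_apply_eq] at this
    have h3 : Q i j * Q i j ≤ 1 := by
      rw [← h2]
      exact Finset.single_le_sum (f := fun k => Q k j * Q k j) (fun k _ => mul_self_nonneg _)
        (Finset.mem_univ i)
    rw [Real.norm_eq_abs]
    exact abs_le_one_iff_mul_self_le_one.2 h3
  exact (isCompact_closedBall 0 1).of_isClosed_subset hcl hsub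

private theorem BMC_fmul_eq (a c : Fm) : Matrix.of (fmul a c) = Matrix.of a * Matrix.of c := by
  ext i j
  simp [fmul, Matrix.mul_apply]

/-- orthonormal frames from orthogonal matrices -/
private def BMC_th (G : ℝ → E3 → Mat3) (q : Qs) : Qs :=
  (q.1, q.2.1, fmul (cgs (Phi G (q.1, q.2.1, one3))) q.2.2)

section

variable {b : ℝ} {U : Set E3} {G : ℝ → E3 → Mat3}

private theorem BMC_one_mem (U : Set E3) {q : Qs} (h1 : q.1 ∈ Ico 0 b) (h2 : q.2.1 ∈ U) :
    ((q.1, q.2.1, one3) : Qs) ∈ wset b U := by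
  refine ⟨h1, h2, ?_⟩
  show (Matrix.of one3).det ≠ 0
  rw [one3_eq, Matrix.det_one]
  exact one_ne_zero

private theorem BMC_spec (h : LMet b U G) {q : Qs} (h1 : q.1 ∈ Ico 0 b) (h2 : q.2.1 ∈ U) :
    (Matrix.of (cgs (Phi G (q.1, q.2.1, one3))))ᵀ * G q.1 q.2.1 *
      Matrix.of (cgs (Phi G (q.1, q.2.1, one3))) = 1 := by
  have hw := BMC_one_mem U h1 h2
  have h3 := cgs_spec (fun i j => h.Phi_symm hw i j) (h.Phi_posDef hw)
  have h4 : Matrix.of (Phi G (q.1, q.2.1, one3)) = G q.1 q.2.1 := by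
    rw [Phi_eq]
    show (Matrix.of one3)ᵀ * G q.1 q.2.1 * Matrix.of one3 = _
    rw [one3_eq, Matrix.transpose_one, Matrix.one_mul, Matrix.mul_one]
  rwa [h4] at h3

private theorem BMC_th_oset (h : LMet b U G) {q : Qs} (h1 : q.1 ∈ Ico 0 b) (h2 : q.2.1 ∈ U)
    (h3 : (Matrix.of q.2.2)ᵀ * Matrix.of q.2.2 = 1) : BMC_th G q ∈ oset b U G := by
  refine ⟨h1, h2, ?_⟩
  apply Matrix.of.injective
  rw [one3_eq, Phi_eq]
  show (Matrix.of (fmul (cgs (Phi G (q.1, q.2.1, one3))) q.2.2))ᵀ * G q.1 q.2.1 *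
    Matrix.of (fmul (cgs (Phi G (q.1, q.2.1, one3))) q.2.2) = 1
  rw [BMC_fmul_eq, Matrix.transpose_mul]
  have h4 := BMC_spec h h1 h2
  calc (Matrix.of q.2.2)ᵀ * (Matrix.of (cgs (Phi G (q.1, q.2.1, one3))))ᵀ * G q.1 q.2.1 *
        (Matrix.of (cgs (Phi G (q.1, q.2.1, one3))) * Matrix.of q.2.2)
      = (Matrix.of q.2.2)ᵀ * ((Matrix.of (cgs (Phi G (q.1, q.2.1, one3))))ᵀ * G q.1 q.2.1 *
        Matrix.of (cgs (Phi G (q.1, q.2.1, one3)))) * Matrix.of q.2.2 := by
        simp only [Matrix.mul_assoc]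
    _ = 1 := by rw [h4, Matrix.mul_one, h3]

private theorem BMC_th_surj (h : LMet b U G) {q : Qs} (hq : q ∈ oset b U G) :
    ∃ Q : Fm, (Matrix.of Q)ᵀ * Matrix.of Q = 1 ∧ BMC_th G (q.1, q.2.1, Q) = q := by
  obtain ⟨h1, h2, h3⟩ := hq
  have hw := BMC_one_mem U h1 h2
  have h4 := BMC_spec h h1 h2
  have hd := det_cgs (fun i j => h.Phi_symm hw i j) (h.Phi_posDef hw)
  set c := Matrix.of (cgs (Phi G (q.1, q.2.1, one3))) with hc
  have h5 : c * (c⁻¹ * Matrix.of q.2.2) = Matrix.of q.2.2 :=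
    Matrix.mul_nonsing_inv_cancel_left _ _ (isUnit_iff_ne_zero.mpr hd)
  obtain ⟨Q, hQ⟩ : ∃ Q : Fm, Matrix.of Q = c⁻¹ * Matrix.of q.2.2 :=
    ⟨Matrix.of.symm (c⁻¹ * Matrix.of q.2.2), Matrix.of.apply_symm_apply _⟩
  have h6 : c * Matrix.of Q = Matrix.of q.2.2 := by rw [hQ, h5]
  refine ⟨Q, ?_, ?_⟩
  · have h7 : (Matrix.of q.2.2)ᵀ * G q.1 q.2.1 * Matrix.of q.2.2 = 1 := by
      rw [← Phi_eq, h3, one3_eq]
    rw [← h6, Matrix.transpose_mul] at h7
    rw [← h7]
    calc (Matrix.of Q)ᵀ * Matrix.of Q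
        = (Matrix.of Q)ᵀ * (cᵀ * G q.1 q.2.1 * c) * Matrix.of Q := by rw [h4, Matrix.mul_one]
      _ = _ := by simp only [Matrix.mul_assoc]
  · refine Prod.ext rfl (Prod.ext rfl ?_)
    apply Matrix.of.injective
    show Matrix.of (fmul (cgs (Phi G (q.1, q.2.1, one3))) Q) = _
    rw [BMC_fmul_eq]
    exact h6

private theorem BMC_th_cont (h : LMet b U G) {S : Set Qs} (hS : ∀ q ∈ S, q.1 ∈ Ico 0 b ∧ q.2.1 ∈ U) :
    ContinuousOn (BMC_th G) S := by
  have h1 : ContinuousOn (fun q : Qs => Phi G (q.1, q.2.1, one3)) S := by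
    refine ContinuousOn.comp (t := wset b U) h.smooth_Phi.continuousOn ?_
      (fun q hq => BMC_one_mem U (hS q hq).1 (hS q hq).2)
    fun_prop
  have h2 : ContinuousOn (fun q : Qs => cgs (Phi G (q.1, q.2.1, one3))) S := by
    intro q hq
    have hw := BMC_one_mem U (hS q hq).1 (hS q hq).2
    exact ContinuousAt.comp_continuousWithinAt (g := cgs)
      (contDiffAt_cgs (fun i j => h.Phi_symm hw i j) (h.Phi_posDef hw)).continuousAt (h1 q hq)
  refine ContinuousOn.prodMk continuous_fst.continuousOn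
    (ContinuousOn.prodMk (continuous_fst.comp continuous_snd).continuousOn ?_)
  refine continuousOn_pi.2 fun i => continuousOn_pi.2 fun j => ?_
  show ContinuousOn (fun q : Qs => ∑ k, cgs (Phi G (q.1, q.2.1, one3)) i k * q.2.2 k j) S
  refine continuousOn_finsetSum _ fun k _ => ContinuousOn.mul ?_ ?_
  · exact continuousOn_pi.1 (continuousOn_pi.1 h2 i) k
  · fun_prop

end

variable {M : Type*} [TopologicalSpace M] [ChartedSpace E3 M] [IsManifold (𝓡 3) ∞ M]
  {g : ℝ → RMetric M} {b : ℝ} [Nonempty (Fr g b)]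

theorem exists_max_compact [CompactSpace M] [T2Space M] [Nonempty M] (hg : IsFam g b) (f : FA g b)
    {J : Set ℝ} (hJ : IsCompact J) (hJb : J ⊆ Ico 0 b) (hne : J.Nonempty) :
    ∃ z : Fr g b, z.tm ∈ J ∧ ∀ z' : Fr g b, z'.tm ∈ J → f.1 z' ≤ f.1 z := by
  -- compact neighbourhoods in charts
  have h1 : ∀ p : M, ∃ K : Set M, IsCompact K ∧ p ∈ interior K ∧ K ⊆ (ch p).1.source := fun p =>
    exists_compact_subset (ch p).1.open_source (mem_source_ch p)
  choose K hK1 hK2 hK3 using h1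
  obtain ⟨t, -, ht⟩ := (isCompact_univ (X := M)).elim_nhds_subcover K
    (fun p _ => mem_interior_iff_mem_nhds.1 (hK2 p))
  -- the compact sets of frames
  have h2 : ∀ p : M, ∃ S : Set Qs, IsCompact S ∧ S ⊆ oset b (ch p).1.target (gt g (ch p)) ∧
      (∀ q ∈ S, q.1 ∈ J) ∧ ∀ z : Fr g b, z.tm ∈ J → z.bs ∈ K p → coo (ch p) z ∈ S := by
    intro p
    have hS0 : ∀ q ∈ (J ×ˢ (((ch p).1 '' K p) ×ˢ {Q : Fm | (Matrix.of Q)ᵀ * Matrix.of Q = 1}) : Set Qs),
        q.1 ∈ Ico 0 b ∧ q.2.1 ∈ (ch p).1.target := by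
      rintro q ⟨hq1, ⟨y, hy, hy2⟩, -⟩
      refine ⟨hJb hq1, ?_⟩
      rw [← hy2]
      exact (ch p).1.map_source (hK3 p hy)
    refine ⟨BMC_th (gt g (ch p)) '' (J ×ˢ (((ch p).1 '' K p) ×ˢ
      {Q : Fm | (Matrix.of Q)ᵀ * Matrix.of Q = 1})), ?_, ?_, ?_, ?_⟩
    · refine IsCompact.image_of_continuousOn (hJ.prod (IsCompact.prod ?_ isCompact_orth))
        (BMC_th_cont (hg.lmet (ch p)) hS0)
      exact (hK1 p).image_of_continuousOn ((ch p).1.continuousOn.mono (hK3 p))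
    · rintro _ ⟨q, hq, rfl⟩
      exact BMC_th_oset (hg.lmet (ch p)) (hS0 q hq).1 (hS0 q hq).2 hq.2.2
    · rintro _ ⟨q, hq, rfl⟩
      exact hq.1
    · intro z hz1 hz2
      have hz3 := coo_mem (g := g) (b := b) (ch p) (hK3 p hz2)
      obtain ⟨Q, hQ1, hQ2⟩ := BMC_th_surj (hg.lmet (ch p)) hz3
      exact ⟨((coo (ch p) z).1, (coo (ch p) z).2.1, Q), ⟨hz1, ⟨z.bs, hz2, rfl⟩, hQ1⟩, hQ2⟩
  choose S hS1 hS2 hS3 hS4 using h2
  set V : Set ℝ := ⋃ p ∈ t, can0 g b f.1 (ch p) '' S p with hV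
  have hVc : IsCompact V := by
    refine t.finite_toSet.isCompact_biUnion fun p _ => ?_
    exact (hS1 p).image_of_continuousOn ((smooth_can0 g b f (ch p)).continuousOn.mono
      fun q hq => (hg.lmet (ch p)).oset_sub (hS2 p hq))
  have hval : ∀ z : Fr g b, z.tm ∈ J → f.1 z ∈ V := by
    intro z hz
    obtain ⟨p, hp, hzp⟩ := mem_iUnion₂.1 (ht (mem_univ z.bs))
    refine mem_iUnion₂.2 ⟨p, hp, coo (ch p) z, hS4 p z hz hzp, ?_⟩
    rw [can0_eq g b f.1 (ch p) (coo_mem (ch p) (hK3 p hzp)), frq_coo (ch p) (hK3 p hzp)]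
  have hVn : V.Nonempty := by
    obtain ⟨s, hs⟩ := hne
    obtain ⟨z, hz1, -⟩ := exists_point hg (hJb hs) (Classical.arbitrary M)
    exact ⟨_, hval z (by rw [hz1]; exact hs)⟩
  obtain ⟨v, hv1, hv2⟩ := hVc.exists_isGreatest hVn
  obtain ⟨p, hp, q, hq, hqv⟩ := mem_iUnion₂.1 hv1
  have hqo := hS2 p hq
  refine ⟨frq g b (ch p) q, ?_, fun z' hz' => ?_⟩
  · rw [frq_tm (ch p) hqo]
    exact hS3 p q hq
  · rw [← can0_eq g b f.1 (ch p) hqo, hqv]
    exact hv2 (hval z' hz')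

end Pool.Agent.RFS.BB
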