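import Pool.Agent.RFS.BNI

/-!
# RFS, chunk (b), module BMD: first and second order conditions at a maximum

Let `z = frq g b e q`, `F = can0 g b f.1 e`, `W = wset b e.1.target`.  `F q' = f (frq (retr q'))` and the
time of `frq (retr q')` is `q'.1`.

Proofs.
* `first_order`: if `f z' ≤ f z` for all `z'` with the same time, then `F q' ≤ F q` for all `q' ∈ W`
  with `q'.1 = q.1`.  For a direction `v = (0, v', w')` the curve `s ↦ q + s v` stays in `W` for small
  `|s|`, so `φ s = F (q + s v)` has a local maximum at `0`: `fderivWithin F W q v = 0`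
  (`IsLocalMax.deriv_eq_zero`, chain rule with the affine curve).  Apply it with `v = hD G i q`
  (`der0_rep`).
* `second_order`: the function `F₁ q' = fderivWithin F W q' (X q')`, `X = hD G i`, represents
  `D i f`; `fderivWithin F₁ W q (X q) = (second derivative of F at q) (X q) (X q)
  + fderivWithin F W q (fderivWithin X W q (X q))`; the last term is `0` because the time component of
  `X` is `0` (first order condition).  `φ s = F (q + s v)`, `v = X q`, has
  `φ' s = fderivWithin F W (q + s v) v`, `φ'' 0 = (second derivative) v v ≤ 0`: otherwise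
  `isLocalMin_of_deriv_deriv_pos` gives a local minimum, so `φ` is locally constant and
  `φ'' 0 = 0`.
* `time_order`: if `f z' ≤ f z` for all `z'` with `z'.tm ≤ z.tm` and `0 < z.tm`, then
  `F (q - s (1,0,0)) ≤ F q` for small `s ≥ 0`, so `fderivWithin F W q (1,0,0) ≥ 0`; and
  `hT = (1,0,0) + (0,0,w)`, the second direction gives `0`.
-/

open scoped Manifold ContDiff Matrix Topology
open Set MeasureTheory

noncomputable section

namespace Pool.Agent.RFS.BB

variable {M : Type*} [TopologicalSpace M] [ChartedSpace E3 M] [IsManifold (𝓡 3) ∞ M]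
  {g : ℝ → RMetric M} {b : ℝ} [Nonempty (Fr g b)]

/-- The line through `q` in the direction `v`. -/
private def BMD_ln (q v : Qs) (s : ℝ) : Qs := q + s • v

private theorem BMD_ln_deriv (q v : Qs) (s : ℝ) : HasDerivAt (BMD_ln q v) v s := by
  have h1 : HasDerivAt (fun s : ℝ => s • v) ((1 : ℝ) • v) s := (hasDerivAt_id s).smul_const v
  rw [one_smul] at h1
  exact h1.const_add q

private theorem BMD_ln_zero (q v : Qs) : BMD_ln q v 0 = q := by
  simp [BMD_ln]

private theorem BMD_open {b : ℝ} {U : Set E3} (hU : IsOpen U) {q v : Qs} (hq : q ∈ wset b U)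
    (hv : v.1 = 0) : IsOpen {s | BMD_ln q v s ∈ wset b U} ∧
      (0 : ℝ) ∈ {s | BMD_ln q v s ∈ wset b U} := by
  have hc : Continuous (BMD_ln q v) := by
    unfold BMD_ln
    fun_prop
  have e : {s | BMD_ln q v s ∈ wset b U} =
      (fun s => (BMD_ln q v s).2) ⁻¹' (U ×ˢ {a : Fm | (Matrix.of a).det ≠ 0}) := by
    ext s
    constructor
    · exact fun h => h.2
    · intro h
      refine ⟨?_, h⟩
      have h1 : (BMD_ln q v s).1 = q.1 := by simp [BMD_ln, hv]
      rw [h1]
      exact hq.1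
  constructor
  · rw [e]
    exact (hU.prod isOpen_inv).preimage (continuous_snd.comp hc)
  · show BMD_ln q v 0 ∈ wset b U
    rw [BMD_ln_zero]
    exact hq

private theorem BMD_phi {b : ℝ} {U : Set E3} (hU : IsOpen U) {F : Qs → ℝ}
    (hF : ContDiffOn ℝ ∞ F (wset b U)) {q v : Qs} (hq : q ∈ wset b U) (hv : v.1 = 0) {s : ℝ}
    (hs : BMD_ln q v s ∈ wset b U) : HasDerivAt (fun s => F (BMD_ln q v s))
      (fderivWithin ℝ F (wset b U) (BMD_ln q v s) v) s := by
  have h1 : HasFDerivWithinAt F (fderivWithin ℝ F (wset b U) (BMD_ln q v s)) (wset b U)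
      (BMD_ln q v s) := ((hF.differentiableOn (by simp)) _ hs).hasFDerivWithinAt
  exact h1.comp_hasDerivAt s (BMD_ln_deriv q v s) ((BMD_open hU hq hv).1.mem_nhds hs)

/-- The value of the extension in terms of the function. -/
private theorem BMD_val (hg : IsFam g b) (f : Fr g b → ℝ) (e : Ch M) {q : Qs}
    (hq : q ∈ wset b e.1.target) :
    ∃ z : Fr g b, z.tm = q.1 ∧ can0 g b f e q = f z :=
  ⟨frq g b e (retr (gt g e) q), frq_tm e ((hg.lmet e).retr_mem hq), rfl⟩

private theorem BMD_first (hg : IsFam g b) (f : FA g b) (e : Ch M) {q : Qs}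
    (hq : q ∈ oset b e.1.target (gt g e))
    (hz : ∀ z' : Fr g b, z'.tm = (frq g b e q).tm → f.1 z' ≤ f.1 (frq g b e q))
    {v : Qs} (hv : v.1 = 0) :
    fderivWithin ℝ (can0 g b f.1 e) (wset b e.1.target) q v = 0 ∧
      IsLocalMax (fun s => can0 g b f.1 e (BMD_ln q v s)) 0 := by
  have hqw : q ∈ wset b e.1.target := (hg.lmet e).oset_sub hq
  obtain ⟨ho, h0⟩ := BMD_open e.1.open_target hqw hv
  have hmax : IsLocalMax (fun s => can0 g b f.1 e (BMD_ln q v s)) 0 := by
    filter_upwards [ho.mem_nhds h0] with s hs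
    show can0 g b f.1 e (BMD_ln q v s) ≤ can0 g b f.1 e (BMD_ln q v 0)
    obtain ⟨z', h1, h2⟩ := BMD_val hg f.1 e hs
    rw [h2, BMD_ln_zero, can0_eq g b f.1 e hq]
    refine hz z' ?_
    rw [h1, frq_tm e hq]
    simp [BMD_ln, hv]
  refine ⟨?_, hmax⟩
  have h3 := BMD_phi e.1.open_target (smooth_can0 g b f e) hqw hv h0
  have h4 := hmax.hasDerivAt_eq_zero h3
  rwa [BMD_ln_zero] at h4

theorem first_order (hg : IsFam g b) (f : FA g b) (z : Fr g b)
    (hz : ∀ z' : Fr g b, z'.tm = z.tm → f.1 z' ≤ f.1 z) (i : Fin 3) :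
    ((natD hg i).der hg f).1 z = 0 := by
  obtain ⟨e, q, hq, rfl⟩ := exists_frq z
  rw [NatField.der_apply, NatField.der0_rep hg _ f e hq]
  exact (BMD_first hg f e hq hz rfl).1

theorem second_order (hg : IsFam g b) (f : FA g b) (z : Fr g b)
    (hz : ∀ z' : Fr g b, z'.tm = z.tm → f.1 z' ≤ f.1 z) (i : Fin 3) :
    ((natD hg i).der hg ((natD hg i).der hg f)).1 z ≤ 0 := by
  obtain ⟨e, q, hq, rfl⟩ := exists_frq z
  have hL := hg.lmet e
  have hqw : q ∈ wset b e.1.target := hL.oset_sub hq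
  have hud : UniqueDiffOn ℝ (wset b e.1.target) := uniqueDiffOn_wset hL.pos_b hL.open_U
  have hF : ContDiffOn ℝ ∞ (can0 g b f.1 e) (wset b e.1.target) := smooth_can0 g b f e
  have hF' : ContDiffOn ℝ ∞ (fderivWithin ℝ (can0 g b f.1 e) (wset b e.1.target))
      (wset b e.1.target) := hF.fderivWithin hud (by simp)
  have hX : ContDiffOn ℝ ∞ (hD (gt g e) i) (wset b e.1.target) := hL.smooth_hD i
  have hFq := ((hF'.differentiableOn (by simp)) q hqw).hasFDerivWithinAt
  have hXq := ((hX.differentiableOn (by simp)) q hqw).hasFDerivWithinAt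
  have hF1 := hFq.clm_apply hXq
  rw [NatField.der_apply, NatField.der0_eq hg _ _ e hq
    (fun q' => fderivWithin ℝ (can0 g b f.1 e) (wset b e.1.target) q' (hD (gt g e) i q'))
    hF1.differentiableWithinAt (by
      filter_upwards [self_mem_nhdsWithin] with q' hq'
      rw [NatField.der_apply, NatField.der0_rep hg _ f e hq']
      rfl), hF1.fderivWithin (hud q hqw)]
  set v : Qs := hD (gt g e) i q with hv
  have hv0 : v.1 = 0 := rfl
  show (fderivWithin ℝ (can0 g b f.1 e) (wset b e.1.target) q)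
      (fderivWithin ℝ (hD (gt g e) i) (wset b e.1.target) q v) +
    (fderivWithin ℝ (fderivWithin ℝ (can0 g b f.1 e) (wset b e.1.target))
      (wset b e.1.target) q v) v ≤ 0
  have hw0 : (fderivWithin ℝ (hD (gt g e) i) (wset b e.1.target) q v).1 = 0 := by
    have h1 : HasFDerivWithinAt (fun q' : Qs => (hD (gt g e) i q').1)
        ((ContinuousLinearMap.fst ℝ ℝ (E3 × Fm)).comp
          (fderivWithin ℝ (hD (gt g e) i) (wset b e.1.target) q)) (wset b e.1.target) q :=
      (ContinuousLinearMap.fst ℝ ℝ (E3 × Fm)).hasFDerivAt.comp_hasFDerivWithinAt q hXq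
    have h2 : HasFDerivWithinAt (fun q' : Qs => (hD (gt g e) i q').1) (0 : Qs →L[ℝ] ℝ)
        (wset b e.1.target) q := hasFDerivWithinAt_const (0 : ℝ) q _
    have h3 := (hud q hqw).eq h1 h2
    exact congrArg (fun L : Qs →L[ℝ] ℝ => L v) h3
  rw [(BMD_first hg f e hq hz hw0).1, zero_add]
  obtain ⟨ho, h0⟩ := BMD_open e.1.open_target hqw hv0
  obtain ⟨hd0, hmax⟩ := BMD_first hg f e hq hz hv0
  have hev : deriv (fun s => can0 g b f.1 e (BMD_ln q v s)) =ᶠ[𝓝 0]
      fun s => fderivWithin ℝ (can0 g b f.1 e) (wset b e.1.target) (BMD_ln q v s) v := by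
    filter_upwards [ho.mem_nhds h0] with s hs
    exact (BMD_phi e.1.open_target hF hqw hv0 hs).deriv
  have hsec : HasDerivAt
      (fun s => fderivWithin ℝ (can0 g b f.1 e) (wset b e.1.target) (BMD_ln q v s) v)
      ((fderivWithin ℝ (fderivWithin ℝ (can0 g b f.1 e) (wset b e.1.target))
        (wset b e.1.target) q v) v) 0 := by
    have h1 : HasFDerivWithinAt (fderivWithin ℝ (can0 g b f.1 e) (wset b e.1.target))
        (fderivWithin ℝ (fderivWithin ℝ (can0 g b f.1 e) (wset b e.1.target))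
          (wset b e.1.target) q) (wset b e.1.target) (BMD_ln q v 0) := by
      rw [BMD_ln_zero]
      exact hFq
    have h2 := h1.comp_hasDerivAt 0 (BMD_ln_deriv q v 0) (ho.mem_nhds h0)
    have h3 := h2.clm_apply (hasDerivAt_const (0 : ℝ) v)
    simpa using h3
  by_contra hpos
  rw [not_le] at hpos
  have hdd : deriv (deriv (fun s => can0 g b f.1 e (BMD_ln q v s))) 0 =
      (fderivWithin ℝ (fderivWithin ℝ (can0 g b f.1 e) (wset b e.1.target))
        (wset b e.1.target) q v) v := by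
    rw [hev.deriv_eq]
    exact hsec.deriv
  have hphi0 := BMD_phi e.1.open_target hF hqw hv0 h0
  have hmin : IsLocalMin (fun s => can0 g b f.1 e (BMD_ln q v s)) 0 := by
    refine isLocalMin_of_deriv_deriv_pos ?_ ?_ hphi0.continuousAt
    · rw [hdd]
      exact hpos
    · rw [hphi0.deriv, BMD_ln_zero]
      exact hd0
  have hconst : (fun s => can0 g b f.1 e (BMD_ln q v s)) =ᶠ[𝓝 0]
      fun _ => can0 g b f.1 e (BMD_ln q v 0) := by
    filter_upwards [hmin, hmax] with s h1 h2
    exact le_antisymm h2 h1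
  have hz2 : deriv (deriv (fun s => can0 g b f.1 e (BMD_ln q v s))) 0 = 0 := by
    rw [hconst.deriv.deriv_eq]
    simp
  rw [hdd] at hz2
  exact hpos.ne' hz2

theorem time_order (hg : IsFam g b) (f : FA g b) (z : Fr g b) (h0 : 0 < z.tm)
    (hz : ∀ z' : Fr g b, z'.tm ≤ z.tm → f.1 z' ≤ f.1 z) :
    0 ≤ ((natT hg).der hg f).1 z := by
  obtain ⟨e, q, hq, rfl⟩ := exists_frq z
  have hL := hg.lmet e
  have hqw : q ∈ wset b e.1.target := hL.oset_sub hq
  have htm : (frq g b e q).tm = q.1 := frq_tm e hq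
  have hF : ContDiffOn ℝ ∞ (can0 g b f.1 e) (wset b e.1.target) := smooth_can0 g b f e
  rw [NatField.der_apply, NatField.der0_rep hg _ f e hq]
  have hsplit : (natT hg).X e q = ((1, 0, 0) : Qs) + ((0, ((natT hg).X e q).2) : Qs) := by
    refine Prod.ext ?_ ?_
    · show (1 : ℝ) = 1 + 0
      rw [add_zero]
    · show ((natT hg).X e q).2 = 0 + ((natT hg).X e q).2
      rw [zero_add]
  rw [hsplit, map_add, (BMD_first hg f e hq (fun z' h' => hz z' h'.le)
    (v := (0, ((natT hg).X e q).2)) rfl).1, add_zero]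
  have hd := ((hF.differentiableOn (by simp)) q hqw).hasFDerivWithinAt
  set W' : Set Qs := wset b e.1.target ∩ {q' | q'.1 ≤ q.1} with hW'
  have hmax : IsLocalMaxOn (can0 g b f.1 e) W' q := by
    filter_upwards [self_mem_nhdsWithin] with q' hq'
    obtain ⟨z', h1, h2⟩ := BMD_val hg f.1 e hq'.1
    rw [h2, can0_eq g b f.1 e hq]
    refine hz z' ?_
    rw [h1, htm]
    exact hq'.2
  rw [htm] at h0
  have hcone : (((-q.1), 0, 0) : Qs) ∈ posTangentConeAt W' q := by
    refine mem_posTangentConeAt_of_segment_subset ?_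
    intro y hy
    rw [segment_eq_image'] at hy
    obtain ⟨θ, hθ, rfl⟩ := hy
    have e1 : q + θ • (q + (((-q.1), 0, 0) : Qs) - q) = (q.1 - θ * q.1, q.2) := by
      refine Prod.ext ?_ ?_
      · show q.1 + θ * (q.1 + -q.1 - q.1) = q.1 - θ * q.1
        ring
      · show q.2 + θ • (q.2 + 0 - q.2) = q.2
        simp
    show q + θ • (q + (((-q.1), 0, 0) : Qs) - q) ∈ W'
    rw [e1]
    have hθ2 : 0 ≤ θ * q.1 := mul_nonneg hθ.1 h0.le
    have hθ3 : θ * q.1 ≤ q.1 := mul_le_of_le_one_left h0.le hθ.2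
    refine ⟨⟨⟨?_, ?_⟩, hqw.2⟩, ?_⟩
    · show 0 ≤ q.1 - θ * q.1
      linarith
    · show q.1 - θ * q.1 < b
      have := hqw.1.2
      linarith
    · show q.1 - θ * q.1 ≤ q.1
      linarith
  have hle := hmax.hasFDerivWithinAt_nonpos (hd.mono inter_subset_left) hcone
  have e2 : (((-q.1), 0, 0) : Qs) = (-q.1) • ((1, 0, 0) : Qs) := by
    refine Prod.ext ?_ (Prod.ext ?_ ?_)
    · show -q.1 = (-q.1) * 1
      ring
    · show (0 : E3) = (-q.1) • (0 : E3)
      simp
    · show (0 : Fm) = (-q.1) • (0 : Fm)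
      simp
  rw [e2, map_smul, smul_eq_mul] at hle
  nlinarith

end Pool.Agent.RFS.BB
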