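import Pool.Agent.RFS.CJ5

/-!
# RFS chunk (c), module CJ6: a Ricci flow is jointly smooth

PROOF. Apply `SpC.of_evolution` / `contDiffOn_of_evolution` (CJ4) to `f t = toM9 ((g t).c e)`,
`U = e.target`, `Φ = -2 • ricci` of `exists_ricci_jet`
(`det ≠ 0` from `(g t).pos`). `SpC 0`: the slices are smooth (`Sym2.smooth`, `contDiffOn_pi`);
the iterated derivatives are jointly continuous because each entry is (`IsRF.cont`) and
`toM9 G = ∑ i j, G_ij • (unit vectors)`: a finite sum of compositions of the entries with continuous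
linear maps `ℝ → M9` (`ContinuousLinearMap.iteratedFDeriv_comp_left` and additivity, or
`SpC.comp`/`SpC.prodMk`). Time derivative: `IsRF.eqn` and `hasDerivWithinAt_pi`.
`contDiffOn_Ico`: `Ico 0 b` is convex with nonempty interior (`uniqueDiffOn_Ico`). `locRF`: restrict
to the open interval. -/

open scoped ContDiff Matrix
open Set

noncomputable section

namespace Pool.Agent.RFS

private theorem SpC.sum {ι : Type} {E F : Type} [NormedAddCommGroup E] [NormedSpace ℝ E]
    [NormedAddCommGroup F] [NormedSpace ℝ F] {n : ℕ} {J : Set ℝ} {U : Set E} (hU : IsOpen U)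
    (s : Finset ι) {h : ι → ℝ → E → F} (H : ∀ i ∈ s, SpC n J U (h i)) :
    SpC n J U (fun t x => ∑ i ∈ s, h i t x) := by
  classical
  induction s using Finset.induction_on with
  | empty =>
    refine ⟨fun t _ => by simpa using contDiffOn_const, fun k => ?_⟩
    have : (fun p : ℝ × E => iteratedFDeriv ℝ k (fun x => ∑ i ∈ (∅ : Finset ι), h i p.1 x) p.2)
        = fun _ => 0 := by
      funext p
      simp only [Finset.sum_empty]
      exact congrFun iteratedFDeriv_fun_zero p.2
    rw [this]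
    exact contDiffOn_const
  | insert a s ha ih =>
    have h1 := (H a (Finset.mem_insert_self a s)).prodMk hU
      (ih (fun i hi => H i (Finset.mem_insert_of_mem hi)))
    have hΦ : ContDiffOn ℝ ∞ (fun p : F × F => p.1 + p.2) univ :=
      (contDiff_fst.add contDiff_snd).contDiffOn
    have h2 := SpC.comp hU h1 isOpen_univ hΦ (fun _ _ _ _ => mem_univ _)
    refine h2.congr hU (fun t _ x _ => ?_)
    rw [Finset.sum_insert ha]

variable {M : Type*} [TopologicalSpace M] [ChartedSpace E3 M]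

private theorem spC_entry {g : ℝ → RMetric M} {J : Set ℝ} (h : IsRF g J) (e : Ch M)
    (i j : Fin 3) : SpC 0 J e.1.target (fun t x => (g t).c e x i j) :=
  ⟨fun t _ => (g t).smooth e i j, fun k => contDiffOn_zero.2 (h.cont e i j k)⟩

private theorem spC_zero {g : ℝ → RMetric M} {J : Set ℝ} (h : IsRF g J) (e : Ch M) :
    SpC 0 J e.1.target (fun t => toM9 ((g t).c e)) := by
  have hU : IsOpen e.1.target := e.1.open_target
  have h1 : ∀ p : Fin 3 × Fin 3, SpC 0 J e.1.target
      (fun t x => (Pi.single p.1 (Pi.single p.2 ((g t).c e x p.1 p.2)) : M9)) := by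
    intro p
    have hL : ContDiff ℝ ∞ (fun r : ℝ => (Pi.single p.1 (Pi.single p.2 r) : M9)) := by
      rw [contDiff_pi]
      intro i
      rw [contDiff_pi]
      intro j
      by_cases hi : i = p.1
      · subst hi
        by_cases hj : j = p.2
        · subst hj
          have : (fun r : ℝ => (Pi.single p.1 (Pi.single p.2 r) : M9) p.1 p.2) = id := by
            funext r; simp
          rw [this]; exact contDiff_id
        · simpa [hj] using contDiff_const
      · simpa [hi] using contDiff_const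
    exact SpC.comp (Φ := fun r : ℝ => (Pi.single p.1 (Pi.single p.2 r) : M9)) hU
      (spC_entry h e p.1 p.2) isOpen_univ hL.contDiffOn (fun _ _ _ _ => mem_univ _)
  have h2 := SpC.sum hU (Finset.univ : Finset (Fin 3 × Fin 3)) (fun p _ => h1 p)
  refine h2.congr hU (fun t _ x _ => ?_)
  funext i j
  rw [Fintype.sum_prod_type]
  simp only [Finset.sum_apply, toM9]
  fin_cases i <;> fin_cases j <;> simp [Fin.sum_univ_three, Pi.single_apply]

private theorem evol {g : ℝ → RMetric M} {J : Set ℝ} (h : IsRF g J) (e : Ch M) :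
    ∃ (V : Set (M9 × (E3 →L[ℝ] M9) × (E3 →L[ℝ] E3 →L[ℝ] M9)))
      (Φ : M9 × (E3 →L[ℝ] M9) × (E3 →L[ℝ] E3 →L[ℝ] M9) → M9),
      IsOpen V ∧ ContDiffOn ℝ ∞ Φ V ∧
      (∀ t ∈ J, ∀ x ∈ e.1.target, RFS.jet2 (toM9 ((g t).c e)) x ∈ V) ∧
      ∀ t ∈ J, ∀ x ∈ e.1.target, HasDerivWithinAt (fun s => toM9 ((g s).c e) x)
        (Φ (RFS.jet2 (toM9 ((g t).c e)) x)) J t := by
  obtain ⟨V, Φ, hV, hΦ, hr⟩ := exists_ricci_jet
  have hdet : ∀ t, ∀ x ∈ e.1.target, ((g t).c e x).det ≠ 0 := fun t x hx =>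
    ((g t).pos e x hx).det_pos.ne'
  refine ⟨V, fun q => (-2 : ℝ) • Φ q, hV, hΦ.const_smul (-2 : ℝ), fun t _ x hx => ?_,
    fun t ht x hx => ?_⟩
  · exact (hr e.1.target e.1.open_target ((g t).c e) ((g t).smooth e) x hx (hdet t x hx)).1
  · have h1 := (hr e.1.target e.1.open_target ((g t).c e) ((g t).smooth e) x hx (hdet t x hx)).2
    rw [hasDerivWithinAt_pi]
    intro i
    rw [hasDerivWithinAt_pi]
    intro j
    have h2 := h.eqn e x hx t ht i j
    have h3 : ((-2 : ℝ) • Φ (RFS.jet2 (toM9 ((g t).c e)) x)) i j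
        = -2 * ricci ((g t).c e) x i j := by
      rw [Pi.smul_apply, Pi.smul_apply, h1 i j, smul_eq_mul]
    refine HasDerivWithinAt.congr_deriv h2 ?_
    exact h3.symm

theorem IsRF.spC {g : ℝ → RMetric M} {J : Set ℝ} (h : IsRF g J) (hJ : Convex ℝ J)
    (hJu : UniqueDiffOn ℝ J) (e : Ch M) (n : ℕ) :
    SpC n J e.1.target (fun t => toM9 ((g t).c e)) := by
  obtain ⟨V, Φ, hV, hΦ, hm, hder⟩ := evol h e
  exact SpC.of_evolution hJ hJu e.1.open_target hV hΦ (spC_zero h e) hm hder n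

theorem IsRF.contDiffOn {g : ℝ → RMetric M} {J : Set ℝ} (h : IsRF g J) (hJ : Convex ℝ J)
    (hJu : UniqueDiffOn ℝ J) (e : Ch M) (i j : Fin 3) :
    ContDiffOn ℝ ∞ (fun z : ℝ × E3 => (g z.1).c e z.2 i j) (J ×ˢ e.1.target) := by
  obtain ⟨V, Φ, hV, hΦ, hm, hder⟩ := evol h e
  have h1 := contDiffOn_of_evolution hJ hJu e.1.open_target hV hΦ (spC_zero h e) hm hder
  exact (contDiffOn_pi.1 ((contDiffOn_pi.1 h1) i)) j

theorem IsRF.contDiffOn_Ico {g : ℝ → RMetric M} {b : ℝ} (h : IsRF g (Ico 0 b))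
    (e : Ch M) (i j : Fin 3) :
    ContDiffOn ℝ ∞ (fun z : ℝ × E3 => (g z.1).c e z.2 i j) (Ico 0 b ×ˢ e.1.target) :=
  h.contDiffOn (convex_Ico 0 b) (uniqueDiffOn_Ico 0 b) e i j

/-- In each chart a Ricci flow on `[0, b)` is a local Ricci flow on `(0, b)`. -/
theorem IsRF.locRF {g : ℝ → RMetric M} {b : ℝ} (h : IsRF g (Ico 0 b)) (e : Ch M) :
    LocRF (fun t => (g t).c e) e.1.target b := by
  refine ⟨e.1.open_target, fun i j => ?_, fun t _ x hx => (g t).symm e x hx,
    fun t _ x hx => (g t).pos e x hx, fun t ht x hx i j => ?_⟩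
  · exact (h.contDiffOn_Ico e i j).mono (prod_mono Ioo_subset_Ico_self subset_rfl)
  · exact (h.eqn e x hx t (Ioo_subset_Ico_self ht) i j).hasDerivAt (Ico_mem_nhds ht.1 ht.2)

end Pool.Agent.RFS
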