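import Pool.Agent.RFS.CS1

/-!
# RFS chunk (c), module CL0: definitions for the local estimates (no proofs needed)

`FrOk`, `FrRep`: how the abstract points `z : X.Fr` are parametrised by chart, time, point and
orthonormal frame, with the local formula for `D i` (interface with chunk (b)).
`covd`, `ricT`: covariant derivatives of the Ricci tensor in coordinates.
`ricA`, `ricW`: the same as elements of the frame algebra.
-/

open scoped ContDiff Matrix
open Set

noncomputable section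

namespace Pool.Agent.RFS

/-- 3 x 3 matrices as a normed space. -/
abbrev M9 := Fin 3 → Fin 3 → ℝ

section

variable {M : Type*} [TopologicalSpace M] [ChartedSpace E3 M]

/-- `a` (columns = frame vectors) is an orthonormal frame at `(t, x)` in the chart `e`. -/
def FrOk (g : ℝ → RMetric M) (b : ℝ) (e : Ch M) (t : ℝ) (x : E3) (a : M9) : Prop :=
  t ∈ Ico 0 b ∧ x ∈ e.1.target ∧ (Matrix.of a)ᵀ * (g t).c e x * Matrix.of a = 1

/-- The horizontal vector `(a_i, - Γ(a_i, a_j))` at `(x, a)`. -/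
def horiz (G : E3 → Mat3) (x : E3) (a : M9) (i : Fin 3) : E3 × M9 :=
  (∑ k, a k i • bv k, fun m j => - ∑ k, ∑ l, chr G x m k l * a k i * a l j)

variable {A : Type*} [CommRing A] [Algebra ℝ A] {S : RFAlg A} [MeasurableSpace M] {b : ℝ}

/-- The parametrisation of the frame bundle by charts, times, points and orthonormal frames. -/
structure FrRep (X : RFSpace S M b) (g : ℝ → RMetric M) where
  fr : Ch M → ℝ → E3 → M9 → X.Fr
  tm_fr : ∀ e t x a, FrOk g b e t x a → X.tm (fr e t x a) = t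
  bs_fr : ∀ e t x a, FrOk g b e t x a → X.bs (fr e t x a) = e.1.symm x
  surj : ∀ z, ∃ e t x a, FrOk g b e t x a ∧ z = fr e t x a
  ev_P : ∀ e t x a, FrOk g b e t x a → ∀ i j,
    X.ev (fr e t x a) (S.P i j) = ((Matrix.of a)ᵀ * pten ((g t).c e) x * Matrix.of a) i j
  ev_D : ∀ (f : A) (e : Ch M) (t : ℝ) (x : E3) (a : M9), 0 < t → FrOk g b e t x a →
    ∀ F : E3 × M9 → ℝ, DifferentiableAt ℝ F (x, a) →
    (∀ x' a', FrOk g b e t x' a' → X.ev (fr e t x' a') f = F (x', a')) →
    ∀ i, X.ev (fr e t x a) (S.D i f) = fderiv ℝ F (x, a) (horiz ((g t).c e) x a i)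

end

/-- The covariant derivative of a covariant tensor in coordinates; the new index is the first
one. -/
def covd {r : ℕ} (G : E3 → Mat3) (Ψ : E3 → (Fin r → Fin 3) → ℝ) (x : E3)
    (J : Fin (r + 1) → Fin 3) : ℝ :=
  pd (J 0) (fun y => Ψ y (Fin.tail J)) x
    - ∑ s : Fin r, ∑ m, chr G x m (J 0) (J s.succ) * Ψ x (Function.update (Fin.tail J) s m)

/-- The k-th covariant derivative of the Ricci tensor in coordinates. -/
def ricT (G : E3 → Mat3) : (k : ℕ) → E3 → (Fin (k + 2) → Fin 3) → ℝ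
  | 0 => fun x J => ricci G x (J 0) (J 1)
  | k + 1 => covd G (ricT G k)

section

variable {A : Type*} [CommRing A] [Algebra ℝ A]

/-- The Ricci tensor as element of the frame algebra: `Ric = (tr P) I - P`. -/
def ricA (S : RFAlg A) (i j : Fin 3) : A := (if i = j then ∑ k, S.P k k else 0) - S.P i j

/-- The k-th covariant derivative of the Ricci tensor in the frame algebra. -/
def ricW (S : RFAlg A) : (k : ℕ) → (Fin (k + 2) → Fin 3) → A
  | 0 => fun I => ricA S (I 0) (I 1)
  | k + 1 => fun I => S.D (I 0) (ricW S k (Fin.tail I))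

end

/-- Bounds for all spatial derivatives of order at most `m` of a function of `(t, x)`, locally
uniformly in `x`, for times in `[t₀, b)`. -/
def Bd (U : Set E3) (t₀ b : ℝ) : ℕ → (ℝ → E3 → ℝ) → Prop
  | 0, h => ∀ K ⊆ U, IsCompact K → ∃ C : ℝ, ∀ t ∈ Ico t₀ b, ∀ x ∈ K, |h t x| ≤ C
  | m + 1, h => (∀ K ⊆ U, IsCompact K → ∃ C : ℝ, ∀ t ∈ Ico t₀ b, ∀ x ∈ K, |h t x| ≤ C) ∧
      ∀ l, Bd U t₀ b m (fun t x => pd l (h t) x)

/-- A Ricci flow in one chart, in the interior of the time interval. -/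
structure LocRF (G : ℝ → E3 → Mat3) (U : Set E3) (b : ℝ) : Prop where
  isOpen : IsOpen U
  joint : ∀ i j, ContDiffOn ℝ ∞ (fun z : ℝ × E3 => G z.1 z.2 i j) (Ioo 0 b ×ˢ U)
  symm : ∀ t ∈ Ioo 0 b, ∀ x ∈ U, (G t x)ᵀ = G t x
  pos : ∀ t ∈ Ioo 0 b, ∀ x ∈ U, (G t x).PosDef
  eqn : ∀ t ∈ Ioo 0 b, ∀ x ∈ U, ∀ i j, HasDerivAt (fun s => G s x i j)
    (-2 * ricci (G t) x i j) t

end Pool.Agent.RFS
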