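import Pool.Agent.RFS.Defs

/-!
# RFS, chunk (f), module FAL: the Schouten tensor in an orthonormal frame

Proof.  `a` is invertible and `(G x)⁻¹ = a * aᵀ` (from `aᵀ G a = 1`; `Matrix.inv_eq_right_inv`,
`mul_eq_one_comm`).  For every matrix `S`: `(G x)⁻¹ * S = a * (aᵀ * S * a) * a⁻¹`, so traces of `(G x)⁻¹ * S` and of
its square are the traces of `aᵀ S a` and of its square (`Matrix.trace_mul_comm`).  With `Ric' = aᵀ ricci a`,
`R = scal = tr Ric'`: `Q = (R / 2) 1 - Ric'`, so `tr Q = R / 2`, `Ric' = tr Q • 1 - Q`, and the Schouten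
tensor becomes `Ric' - (R / 4) 1 = (tr Q / 2) 1 - Q`.
Then `sig1 = tr Q / 2`, `sig2 = ((tr Q)^2 / 4 - (tr Q^2 - (tr Q)^2 / 4)) / 2`.
-/

open scoped Manifold ContDiff Matrix
open Set MeasureTheory

noncomputable section

namespace Pool.Agent.RFS

theorem frame_inv {G a : Mat3} (ha : aᵀ * G * a = 1) : G⁻¹ = a * aᵀ ∧ IsUnit a.det := by
  have hd : a.det * (G.det * a.det) = 1 := by
    have := congrArg Matrix.det ha
    rw [Matrix.det_mul, Matrix.det_mul, Matrix.det_transpose, Matrix.det_one] at this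
    rw [← this]; ring
  have hu : IsUnit a.det := IsUnit.of_mul_eq_one _ hd
  refine ⟨?_, hu⟩
  apply Matrix.inv_eq_right_inv
  have h1 : a * (aᵀ * G) = 1 := mul_eq_one_comm.1 ha
  have h2 : (G * (a * aᵀ))ᵀᵀ = 1 := by
    have h3 : aᵀ * (G * a) = 1 := by rw [← mul_assoc]; exact ha
    have h4 : G * a * aᵀ = 1 := mul_eq_one_comm.1 h3
    rw [Matrix.transpose_transpose, ← mul_assoc]
    exact h4
  simpa using h2

theorem trace_inv_mul {G a : Mat3} (ha : aᵀ * G * a = 1) (S : Mat3) :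
    (G⁻¹ * S).trace = (aᵀ * S * a).trace := by
  rw [(frame_inv ha).1, mul_assoc, Matrix.trace_mul_comm, mul_assoc]

theorem trace_inv_mul_sq {G a : Mat3} (ha : aᵀ * G * a = 1) (S : Mat3) :
    ((G⁻¹ * S) * (G⁻¹ * S)).trace = ((aᵀ * S * a) * (aᵀ * S * a)).trace := by
  rw [(frame_inv ha).1]
  have h1 : (a * aᵀ * S) * (a * aᵀ * S) = a * (aᵀ * S * a * aᵀ * S) := by
    simp only [mul_assoc]
  rw [h1, Matrix.trace_mul_comm]
  congr 1
  simp only [mul_assoc]

theorem frame_formulas (G : E3 → Mat3) (x : E3) (a Q : Mat3) (ha : aᵀ * G x * a = 1)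
    (hQ : Q = aᵀ * pten G x * a) :
    scal G x = 2 * Q.trace ∧ aᵀ * ricci G x * a = Q.trace • (1 : Mat3) - Q ∧
      sig1 G x = Q.trace / 2 ∧ sig2 G x = (Q.trace ^ 2 - 2 * (Q * Q).trace) / 4 := by
  have hR : aᵀ * ricci G x * a = (scal G x / 2) • (1 : Mat3) - Q := by
    have h1 : aᵀ * pten G x * a = (scal G x / 2) • (aᵀ * G x * a) - aᵀ * ricci G x * a := by
      rw [pten, Matrix.mul_sub, Matrix.sub_mul, Matrix.mul_smul, Matrix.smul_mul]
    rw [hQ, h1, ha]
    abel
  have hs : scal G x = 2 * Q.trace := by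
    have h2 : scal G x = (aᵀ * ricci G x * a).trace := trace_inv_mul ha _
    rw [hR, Matrix.trace_sub, Matrix.trace_smul, Matrix.trace_one] at h2
    simp only [Fintype.card_fin, smul_eq_mul] at h2
    push_cast at h2
    linarith
  have hR' : aᵀ * ricci G x * a = Q.trace • (1 : Mat3) - Q := by
    rw [hR, hs]
    congr 2
    ring
  have hS : aᵀ * schouten G x * a = (Q.trace / 2) • (1 : Mat3) - Q := by
    rw [schouten, Matrix.mul_sub, Matrix.sub_mul, Matrix.mul_smul, Matrix.smul_mul, ha, hR', hs]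
    rw [sub_right_comm, ← sub_smul]
    congr 2
    ring
  refine ⟨hs, hR', ?_, ?_⟩
  · rw [sig1, trace_inv_mul ha, hS, Matrix.trace_sub, Matrix.trace_smul, Matrix.trace_one]
    simp only [Fintype.card_fin, smul_eq_mul]
    push_cast
    ring
  · rw [sig2, trace_inv_mul ha, trace_inv_mul_sq ha, hS]
    have h3 : ((Q.trace / 2) • (1 : Mat3) - Q) * ((Q.trace / 2) • (1 : Mat3) - Q) =
        (Q.trace / 2) ^ 2 • (1 : Mat3) - Q.trace • Q + Q * Q := by
      rw [Matrix.sub_mul, Matrix.mul_sub, Matrix.mul_sub, Matrix.smul_mul, Matrix.smul_mul,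
        Matrix.mul_smul, Matrix.one_mul, Matrix.one_mul, Matrix.mul_smul, Matrix.mul_one,
        smul_smul]
      ext i j
      simp only [Matrix.sub_apply, Matrix.add_apply, Matrix.smul_apply, smul_eq_mul]
      ring
    rw [h3]
    simp only [Matrix.trace_sub, Matrix.trace_add, Matrix.trace_smul, Matrix.trace_one,
      Fintype.card_fin, smul_eq_mul]
    push_cast
    ring

end Pool.Agent.RFS
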