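import Pool.Agent.RFS.Defs

/-!
# RFS, chunk (f), module FLD: derivatives of the volume density `√ det G`

Proofs.  Jacobi's formula for a `3 × 3` matrix function: `(det G)' = ∑ i j, adj(G) j i G' i j`
(expand with `Matrix.det_fin_three`, product rule; `Matrix.adjugate` is given by
`Matrix.adjugate_fin_three`), and `G⁻¹ = (det G)⁻¹ adj G` (`Matrix.inv_def`, `det G ≠ 0`), so
`(√ det G)' = (det G)' / (2 √ det G) = √ det G / 2 * tr (G⁻¹ G')`.
* `hasDerivWithinAt_sqrt_det`: this with one variable `t`.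
* `pd_sqrt_det`: the same along the line in the direction `bv k` (or with `HasFDerivAt`) gives
  `pd k (√ det G) = √ det G / 2 * ∑ j l, G⁻¹ j l * pd k (G j l)`, and
  `∑ j, chr G x j j k = 1/2 ∑ j l, G⁻¹ j l (pd j (G k l) + pd k (G j l) - pd l (G j k))`, where the
  first and the last terms cancel after exchanging `j` and `l` (`G⁻¹` and `G` are symmetric; the
  partial derivatives of `G l j` and `G j l` agree since `G` is symmetric near `x`).
-/

open scoped Manifold ContDiff Matrix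
open Set MeasureTheory

noncomputable section

namespace Pool.Agent.RFS

theorem det_mul_inv_apply (A : Mat3) (h : A.det ≠ 0) (i j : Fin 3) :
    A.det * A⁻¹ i j = A.adjugate i j := by
  rw [Matrix.inv_def, Ring.inverse_eq_inv', Matrix.smul_apply, smul_eq_mul, ← mul_assoc,
    mul_inv_cancel₀ h, one_mul]

theorem trace_adj_mul (A B : Mat3) (h : A.det ≠ 0) :
    (A.adjugate * B).trace = A.det * (A⁻¹ * B).trace := by
  rw [Matrix.inv_def, Ring.inverse_eq_inv', Matrix.smul_mul, Matrix.trace_smul, smul_eq_mul,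
    ← mul_assoc, mul_inv_cancel₀ h, one_mul]

theorem hasDerivWithinAt_det (G : ℝ → Mat3) (G' : Mat3) (J : Set ℝ) (t : ℝ)
    (hG : ∀ i j, HasDerivWithinAt (fun s => G s i j) (G' i j) J t) :
    HasDerivWithinAt (fun s => (G s).det) (((G t).adjugate * G').trace) J t := by
  simp only [Matrix.det_fin_three]
  have h := (((((((hG 0 0).mul (hG 1 1)).mul (hG 2 2)).sub
    (((hG 0 0).mul (hG 1 2)).mul (hG 2 1))).sub
    (((hG 0 1).mul (hG 1 0)).mul (hG 2 2))).add (((hG 0 1).mul (hG 1 2)).mul (hG 2 0))).add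
    (((hG 0 2).mul (hG 1 0)).mul (hG 2 1))).sub (((hG 0 2).mul (hG 1 1)).mul (hG 2 0))
  refine h.congr_deriv ?_
  simp only [Matrix.adjugate_fin_three, Matrix.trace, Matrix.diag, Matrix.mul_apply,
    Fin.sum_univ_three, Matrix.of_apply, Matrix.cons_val', Matrix.cons_val_zero,
    Matrix.cons_val_one, Matrix.cons_val_two]
  simp
  ring

theorem hasDerivWithinAt_sqrt_det (G : ℝ → Mat3) (G' : Mat3) (J : Set ℝ) (t : ℝ)
    (hG : ∀ i j, HasDerivWithinAt (fun s => G s i j) (G' i j) J t) (hpos : 0 < (G t).det) :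
    HasDerivWithinAt (fun s => Real.sqrt (G s).det)
      (Real.sqrt (G t).det / 2 * ((G t)⁻¹ * G').trace) J t := by
  have h := (hasDerivWithinAt_det G G' J t hG).sqrt hpos.ne'
  refine h.congr_deriv ?_
  rw [trace_adj_mul _ _ hpos.ne']
  have h1 : Real.sqrt (G t).det ≠ 0 := (Real.sqrt_pos.2 hpos).ne'
  have h2 : (G t).det = Real.sqrt (G t).det * Real.sqrt (G t).det :=
    (Real.mul_self_sqrt hpos.le).symm
  rw [div_eq_iff (by positivity)]
  nth_rewrite 1 [h2]
  ring

theorem differentiableAt_sqrt_det (G : E3 → Mat3) (x : E3)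
    (hG : ∀ i j, DifferentiableAt ℝ (fun y => G y i j) x) (hpos : 0 < (G x).det) :
    DifferentiableAt ℝ (fun y => Real.sqrt (G y).det) x := by
  have h : DifferentiableAt ℝ (fun y => (G y).det) x := by
    simp only [Matrix.det_fin_three]
    exact (((((((hG 0 0).mul (hG 1 1)).mul (hG 2 2)).sub
    (((hG 0 0).mul (hG 1 2)).mul (hG 2 1))).sub
    (((hG 0 1).mul (hG 1 0)).mul (hG 2 2))).add (((hG 0 1).mul (hG 1 2)).mul (hG 2 0))).add
    (((hG 0 2).mul (hG 1 0)).mul (hG 2 1))).sub (((hG 0 2).mul (hG 1 1)).mul (hG 2 0))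
  exact h.sqrt hpos.ne'

theorem pd_eq_of_hasDerivAt (k : Fin 3) (f : E3 → ℝ) (x : E3) (hf : DifferentiableAt ℝ f x) :
    HasDerivAt (fun s : ℝ => f (x + s • bv k)) (pd k f x) 0 := by
  have h1 : HasDerivAt (fun s : ℝ => x + s • bv k) (bv k) 0 := by
    have := ((hasDerivAt_id (0 : ℝ)).smul_const (bv k)).const_add x
    simpa using this
  have h2 : HasFDerivAt f (fderiv ℝ f x) (x + (0 : ℝ) • bv k) := by
    simpa using hf.hasFDerivAt
  exact h2.comp_hasDerivAt 0 h1

theorem pd_sqrt_det (G : E3 → Mat3) (U : Set E3) (hU : IsOpen U) (x : E3) (hx : x ∈ U)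
    (hG : ∀ i j, DifferentiableAt ℝ (fun y => G y i j) x)
    (hs : ∀ y ∈ U, (G y)ᵀ = G y) (hpos : 0 < (G x).det) (k : Fin 3) :
    pd k (fun y => Real.sqrt (G y).det) x = Real.sqrt (G x).det * ∑ j, chr G x j j k := by
  have h1 := pd_eq_of_hasDerivAt k _ x (differentiableAt_sqrt_det G x hG hpos)
  have h2 : HasDerivAt (fun s : ℝ => Real.sqrt (G (x + s • bv k)).det)
      (Real.sqrt (G x).det / 2 * ((G x)⁻¹ *
        (Matrix.of fun i j => pd k (fun y => G y i j) x)).trace) 0 := by
    have h3 := hasDerivWithinAt_sqrt_det (fun s : ℝ => G (x + s • bv k))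
      (Matrix.of fun i j => pd k (fun y => G y i j) x) univ 0
      (fun i j => (pd_eq_of_hasDerivAt k _ x (hG i j)).hasDerivWithinAt)
      (by simpa using hpos)
    rw [hasDerivWithinAt_univ] at h3
    simpa using h3
  rw [h1.unique h2]
  have hsym : ∀ i j l, pd l (fun y => G y i j) x = pd l (fun y => G y j i) x := by
    intro i j l
    have : (fun y => G y i j) =ᶠ[nhds x] (fun y => G y j i) := by
      filter_upwards [hU.mem_nhds hx] with y hy
      have := congrFun (congrFun (hs y hy) j) i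
      simpa [Matrix.transpose_apply] using this
    rw [pd, pd, this.fderiv_eq]
  have hinv : ∀ i j, (G x)⁻¹ i j = (G x)⁻¹ j i := by
    intro i j
    have h4 : ((G x)⁻¹)ᵀ = (G x)⁻¹ := by
      rw [Matrix.transpose_nonsing_inv, hs x hx]
    have := congrFun (congrFun h4 j) i
    simpa [Matrix.transpose_apply] using this
  simp only [chr, Matrix.trace, Matrix.diag, Matrix.mul_apply, Fin.sum_univ_three,
    Matrix.of_apply]
  rw [hsym 0 k 0, hsym 0 k 1, hsym 0 k 2, hsym 1 k 0, hsym 1 k 1, hsym 1 k 2, hsym 2 k 0,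
    hsym 2 k 1, hsym 2 k 2, hinv 1 0, hinv 2 0, hinv 2 1, hsym 1 0 k, hsym 2 0 k, hsym 2 1 k]
  ring

end Pool.Agent.RFS
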