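import Pool.Agent.RFS.Defs

/-!
# RFS, chunk (f), module FPI: integrals over a compact set with a parameter

Proofs.
* `continuousOn_integral_compact`: near `t` in `Ico 0 b` the function is bounded on the compact set
  `Icc 0 c ×ˢ K` (`t < c < b`); dominated convergence (`continuousWithinAt_of_dominated`), or
  `continuousOn_integral_of_compact_support`-like lemmas.  `volume.restrict K` is finite.
* `hasDerivAt_integral_compact`: for `t ∈ Ioo 0 b` choose a closed interval `Icc c d ⊆ Ioo 0 b` which
  is a neighbourhood of `t`; `F'` is bounded by a constant on the compact set `Icc c d ×ˢ K`;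
  `hasDerivAt_integral_of_dominated_loc_of_deriv_le` with `volume.restrict K`
  (`F s` and `F' t` are continuous on `K`, hence a.e.-strongly measurable and integrable there).
-/

open scoped Manifold ContDiff Matrix
open Set MeasureTheory

noncomputable section

namespace Pool.Agent.RFS

theorem continuousOn_integral_compact (b : ℝ) {K : Set E3} (hK : IsCompact K)
    (F : ℝ → E3 → ℝ)
    (hF : ContinuousOn (fun z : ℝ × E3 => F z.1 z.2) (Ico 0 b ×ˢ K)) :
    ContinuousOn (fun s => ∫ x in K, F s x) (Ico 0 b) := by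
  intro t ht
  obtain ⟨c, htc, hcb⟩ := exists_between ht.2
  have hsub : Icc 0 c ×ˢ K ⊆ Ico 0 b ×ˢ K :=
    prod_mono (fun s hs => ⟨hs.1, hs.2.trans_lt hcb⟩) le_rfl
  obtain ⟨C, hC⟩ := (isCompact_Icc.prod hK).exists_bound_of_continuousOn (hF.mono hsub)
  have hnhds : Icc 0 c ∈ nhdsWithin t (Ico 0 b) := by
    filter_upwards [self_mem_nhdsWithin, mem_nhdsWithin_of_mem_nhds (Iio_mem_nhds htc)] with s hs hs'
    exact ⟨hs.1, hs'.le⟩
  have hcont : ∀ s ∈ Ico 0 b, ContinuousOn (fun x => F s x) K := by
    intro s hs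
    exact hF.comp (continuousOn_const.prodMk continuousOn_id) (fun x hx => ⟨hs, hx⟩)
  apply MeasureTheory.continuousWithinAt_of_dominated (bound := fun _ => C)
  · filter_upwards [self_mem_nhdsWithin] with s hs
    exact (hcont s hs).aestronglyMeasurable hK.measurableSet
  · filter_upwards [hnhds] with s hs
    rw [ae_restrict_iff' hK.measurableSet]
    exact Filter.Eventually.of_forall fun x hx => hC (s, x) ⟨hs, hx⟩
  · have : IsFiniteMeasure (volume.restrict K) := ⟨by simpa using hK.measure_lt_top⟩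
    exact integrable_const C
  · rw [ae_restrict_iff' hK.measurableSet]
    refine Filter.Eventually.of_forall fun x hx => ?_
    exact hF.comp (f := fun s => (s, x)) (continuousOn_id.prodMk continuousOn_const) (fun s hs => ⟨hs, hx⟩) t ht

theorem hasDerivAt_integral_compact (b : ℝ) {K : Set E3} (hK : IsCompact K)
    (F F' : ℝ → E3 → ℝ)
    (hF : ContinuousOn (fun z : ℝ × E3 => F z.1 z.2) (Ioo 0 b ×ˢ K))
    (hF' : ContinuousOn (fun z : ℝ × E3 => F' z.1 z.2) (Ioo 0 b ×ˢ K))
    (hd : ∀ t ∈ Ioo 0 b, ∀ x ∈ K, HasDerivAt (fun s => F s x) (F' t x) t) :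
    ∀ t ∈ Ioo 0 b, HasDerivAt (fun s => ∫ x in K, F s x) (∫ x in K, F' t x) t := by
  intro t ht
  obtain ⟨c, h0c, hct⟩ := exists_between ht.1
  obtain ⟨d, htd, hdb⟩ := exists_between ht.2
  have hsubI : Icc c d ⊆ Ioo 0 b := fun s hs => ⟨h0c.trans_le hs.1, hs.2.trans_lt hdb⟩
  have hsub : Icc c d ×ˢ K ⊆ Ioo 0 b ×ˢ K := prod_mono hsubI le_rfl
  obtain ⟨C, hC⟩ := (isCompact_Icc.prod hK).exists_bound_of_continuousOn (hF'.mono hsub)
  have hnhds : Icc c d ∈ nhds t := Icc_mem_nhds hct htd
  have hfin : IsFiniteMeasure (volume.restrict K) := ⟨by simpa using hK.measure_lt_top⟩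
  have hcont : ∀ (Φ : ℝ → E3 → ℝ), ContinuousOn (fun z : ℝ × E3 => Φ z.1 z.2) (Ioo 0 b ×ˢ K) →
      ∀ s ∈ Ioo 0 b, ContinuousOn (fun x => Φ s x) K := by
    intro Φ hΦ s hs
    exact hΦ.comp (continuousOn_const.prodMk continuousOn_id) (fun x hx => ⟨hs, hx⟩)
  have key := hasDerivAt_integral_of_dominated_loc_of_deriv_le (μ := volume.restrict K)
    (F := F) (F' := F') (x₀ := t) (s := Icc c d) (bound := fun _ => C) hnhds
    (by
      filter_upwards [hnhds] with s hs
      exact (hcont F hF s (hsubI hs)).aestronglyMeasurable hK.measurableSet)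
    ((hcont F hF t ht).integrableOn_compact hK)
    ((hcont F' hF' t ht).aestronglyMeasurable hK.measurableSet)
    (by
      rw [ae_restrict_iff' hK.measurableSet]
      exact Filter.Eventually.of_forall fun x hx s hs => hC (s, x) ⟨hs, hx⟩)
    (integrable_const C)
    (by
      rw [ae_restrict_iff' hK.measurableSet]
      exact Filter.Eventually.of_forall fun x hx s hs => hd s (hsubI hs) x hx)
  exact key.2

end Pool.Agent.RFS
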