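import Pool.Agent.RFS.FCH

/-!
# RFS, chunk (f), module FPU: a finite smooth partition of unity subordinate to charts

Proof.  `M` is compact: finitely many points `z_i`, `i : Fin n`, with `⋃ (chartAt E3 z_i).source = univ`.
Apply `SmoothPartitionOfUnity.exists_isSubordinate (𝓡 3)` with the closed set `univ` and the family
`U i = (chartAt E3 z_i).source` (needs `T2Space`, `SigmaCompactSpace`, finite dimension: all available).
`ρ i` is `ContMDiff (𝓡 3) 𝓘(ℝ) ∞`; compose with `e.1.symm`, which is `ContMDiffOn` on the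
target (`contMDiffOn_symm_of_mem_maximalAtlas`, `IsManifold.subset_maximalAtlas`), and
`contMDiffOn_iff_contDiffOn`.  The sum is 1 everywhere (a finsum over a finite type).
-/

open scoped Manifold ContDiff Matrix
open Set MeasureTheory

noncomputable section

namespace Pool.Agent.RFS

variable {M : Type*} [TopologicalSpace M] [ChartedSpace E3 M]

theorem exists_partition [IsManifold (𝓡 3) ∞ M] [CompactSpace M] [T2Space M] :
    ∃ (n : ℕ) (E : Fin n → Ch M) (ρ : Fin n → M → ℝ),
      (∀ i, Continuous (ρ i)) ∧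
      (∀ i, tsupport (ρ i) ⊆ (E i).1.source) ∧
      (∀ p, ∑ i, ρ i p = 1) ∧
      (∀ i p, 0 ≤ ρ i p) ∧
      (∀ i (e : Ch M), ContDiffOn ℝ ∞ (fun x => ρ i (e.1.symm x)) e.1.target) := by
  obtain ⟨t, ht⟩ := isCompact_univ.elim_finite_subcover
    (fun p : M => (chartAt E3 p).source) (fun p => (chartAt E3 p).open_source)
    (fun p _ => mem_iUnion.2 ⟨p, mem_chart_source E3 p⟩)
  obtain ⟨n, f, hf⟩ : ∃ (n : ℕ) (f : Fin n → M), (⋃ i, (chartAt E3 (f i)).source) = univ := by
    refine ⟨t.card, fun i => (t.equivFin.symm i : M), ?_⟩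
    apply eq_univ_of_univ_subset
    intro p hp
    obtain ⟨q, hq, hpq⟩ := mem_iUnion₂.1 (ht hp)
    refine mem_iUnion.2 ⟨t.equivFin ⟨q, hq⟩, ?_⟩
    simpa using hpq
  obtain ⟨ρ, hρ⟩ := SmoothPartitionOfUnity.exists_isSubordinate (𝓡 3) (s := (univ : Set M))
    isClosed_univ (fun i => (chartAt E3 (f i)).source)
    (fun i => (chartAt E3 (f i)).open_source) (by rw [hf])
  refine ⟨n, fun i => ⟨chartAt E3 (f i), chart_mem_atlas E3 (f i)⟩, fun i => ρ i, ?_, ?_, ?_, ?_, ?_⟩
  · exact fun i => (ρ i).contMDiff.continuous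
  · exact fun i => hρ i
  · intro p
    have h := ρ.sum_eq_one (mem_univ p)
    rwa [finsum_eq_sum_of_fintype] at h
  · exact fun i p => ρ.nonneg i p
  · intro i e
    have h1 : ContMDiffOn (𝓡 3) (𝓡 3) ∞ e.1.symm e.1.target :=
      contMDiffOn_symm_of_mem_maximalAtlas (IsManifold.subset_maximalAtlas e.2)
    have h2 := (ρ i).contMDiff.comp_contMDiffOn h1
    exact contMDiffOn_iff_contDiffOn.1 h2

end Pool.Agent.RFS
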