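import Pool.Agent.RFS.FVA

/-!
# RFS, chunk (f), module FVO: existence and uniqueness of the Riemannian volume

Proofs.
* Existence.  For a chart `e` let `ν e` be the measure
  `((volume.restrict e.1.target).withDensity √det).map e.1.symm`
  (`e.1.symm` is a.e.-measurable with respect to the restriction, being continuous on the target).
  For measurable `B`: `ν e B = ∫⁻ x in e.1 '' (B ∩ e.1.source), √det`
  (`Measure.map_apply_of_aemeasurable`; `e.1.target ∩ e.1.symm ⁻¹' B = e.1 '' (B ∩ e.1.source)`;
  `√ det` is continuous on the target).  By compactness finitely many charts `e_1, ..., e_n`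
  (for instance `chartAt`) cover `M`; put `A_i = (e_i).source \ ⋃ j < i, (e_j).source` (measurable,
  pairwise disjoint, union `univ`; see `disjointed`) and `μ = ∑ i, (ν e_i).restrict A_i`.  For `e` and measurable
  `B ⊆ e.1.source`: `(ν e_i) (B ∩ A_i) = (ν e) (B ∩ A_i)` by `lintegral_ov`, and the sum over `i` is
  `ν e B`.
* Uniqueness: same cover, `μ B = ∑ μ (B ∩ A_i)`, each term is determined by `IsVol`.
* Finiteness: every `p` has a neighbourhood of finite measure (preimage of a small closed ball
  contained in the target, `√ det` is bounded there), so `μ` is locally finite, and `M` is compact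
  (`CompactSpace.isFiniteMeasure` or `IsCompact.measure_lt_top`).
-/

open scoped Manifold ContDiff Matrix ENNReal Topology
open Set MeasureTheory

noncomputable section

namespace Pool.Agent.RFS

variable {M : Type*} [TopologicalSpace M] [ChartedSpace E3 M]

theorem continuousOn_sqrt_det (g : RMetric M) (e : Ch M) :
    ContinuousOn (fun x => Real.sqrt (g.c e x).det) e.1.target := by
  apply ContinuousOn.sqrt
  have h : ∀ i j, ContinuousOn (fun x => g.c e x i j) e.1.target := fun i j =>
    (g.smooth e i j).continuousOn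
  simp only [Matrix.det_fin_three]
  exact ((((((h 0 0).mul (h 1 1)).mul (h 2 2)).sub (((h 0 0).mul (h 1 2)).mul (h 2 1))).sub
    (((h 0 1).mul (h 1 0)).mul (h 2 2))).add (((h 0 1).mul (h 1 2)).mul (h 2 0))).add
    (((h 0 2).mul (h 1 0)).mul (h 2 1)) |>.sub (((h 0 2).mul (h 1 1)).mul (h 2 0))

/-- Cut a set into measurable pieces contained in charts. -/
theorem exists_cover [CompactSpace M] [MeasurableSpace M] [BorelSpace M] :
    ∃ (n : ℕ) (E : Fin n → Ch M) (A : Fin n → Set M), (∀ i, A i ⊆ (E i).1.source) ∧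
      (∀ i, MeasurableSet (A i)) ∧
      (Pairwise (Function.onFun Disjoint A)) ∧ (⋃ i, A i) = univ := by
  obtain ⟨t, ht⟩ := isCompact_univ.elim_finite_subcover
    (fun p : M => (chartAt E3 p).source) (fun p => (chartAt E3 p).open_source)
    (fun p _ => mem_iUnion.2 ⟨p, mem_chart_source E3 p⟩)
  obtain ⟨n, f, hf⟩ : ∃ (n : ℕ) (f : Fin n → M), (⋃ i, (chartAt E3 (f i)).source) = univ := by
    refine ⟨t.card, fun i => (t.equivFin.symm i : M), ?_⟩
    apply eq_univ_of_univ_subset
    intro p hp
    obtain ⟨q, hq, hpq⟩ := mem_iUnion₂.1 (ht hp)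
    refine mem_iUnion.2 ⟨t.equivFin ⟨q, hq⟩, ?_⟩
    simpa using hpq
  refine ⟨n, fun i => ⟨chartAt E3 (f i), chart_mem_atlas E3 (f i)⟩,
    disjointed (fun i => (chartAt E3 (f i)).source), fun i => disjointed_subset _ i, ?_,
    disjoint_disjointed _, ?_⟩
  · intro i
    rw [disjointed_eq_inter_compl]
    exact (chartAt E3 (f i)).open_source.measurableSet.inter
      (MeasurableSet.biInter (to_countable _)
        (fun j _ => (chartAt E3 (f j)).open_source.measurableSet.compl))
  · rw [iUnion_disjointed, hf]

variable [MeasurableSpace M] [BorelSpace M]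

/-- The measure with density `√ det G` in the chart `e`, transported to `M`. -/
def nuM (g : RMetric M) (e : Ch M) : Measure M :=
  ((volume.restrict e.1.target).withDensity
    (fun x => ENNReal.ofReal (Real.sqrt (g.c e x).det))).map e.1.symm

theorem aemeasurable_symm (e : Ch M) : AEMeasurable e.1.symm (volume.restrict e.1.target) :=
  e.1.symm.continuousOn.aemeasurable e.1.open_target.measurableSet

omit [MeasurableSpace M] [BorelSpace M] in
theorem image_eq (e : Ch M) (B : Set M) :
    e.1 '' (B ∩ e.1.source) = e.1.target ∩ e.1.symm ⁻¹' B := by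
  rw [e.1.image_eq_target_inter_inv_preimage inter_subset_right]
  ext x
  constructor
  · rintro ⟨h1, h2, h3⟩
    exact ⟨h1, h2⟩
  · rintro ⟨h1, h2⟩
    exact ⟨h1, h2, e.1.map_target h1⟩

theorem nuM_apply (g : RMetric M) (e : Ch M) {B : Set M} (hB : MeasurableSet B) :
    nuM g e B = ∫⁻ x in e.1 '' (B ∩ e.1.source), ENNReal.ofReal (Real.sqrt (g.c e x).det) := by
  have hac : ((volume.restrict e.1.target).withDensity
    (fun x => ENNReal.ofReal (Real.sqrt (g.c e x).det))) ≪ volume.restrict e.1.target :=
    withDensity_absolutelyContinuous _ _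
  have hm : AEMeasurable (fun x => ENNReal.ofReal (Real.sqrt (g.c e x).det))
      (volume.restrict e.1.target) :=
    ((continuousOn_sqrt_det g e).aemeasurable e.1.open_target.measurableSet).ennreal_ofReal
  have hBm : MeasurableSet (e.1.target ∩ e.1.symm ⁻¹' B) := by
    rw [← image_eq]
    exact measurableSet_image e (hB.inter e.1.open_source.measurableSet) inter_subset_right
  rw [nuM, Measure.map_apply_of_aemeasurable ((aemeasurable_symm e).mono_ac hac) hB, image_eq]
  rw [withDensity_apply' _ _, Measure.restrict_restrict' e.1.open_target.measurableSet, inter_comm]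

theorem nuM_of_isVol (g : RMetric M) {μ : Measure M} (h : IsVol g μ) (e : Ch M) {B : Set M}
    (hB : MeasurableSet B) (hs : B ⊆ e.1.source) : μ B = nuM g e B := by
  rw [h e B hB hs, nuM_apply g e hB, inter_eq_left.2 hs]

omit [TopologicalSpace M] [ChartedSpace E3 M] [BorelSpace M] in
theorem measure_eq_sum (ρ : Measure M) {n : ℕ} {A : Fin n → Set M}
    (hAm : ∀ i, MeasurableSet (A i)) (hAd : Pairwise (Function.onFun Disjoint A))
    (hAu : (⋃ i, A i) = univ) {B : Set M} (hB : MeasurableSet B) :
    ρ B = ∑ i, ρ (B ∩ A i) := by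
  have h1 : ρ (⋃ i, B ∩ A i) = ∑' i, ρ (B ∩ A i) :=
    measure_iUnion (fun i j hij => (hAd hij).mono inter_subset_right inter_subset_right)
      (fun i => hB.inter (hAm i))
  rw [← inter_iUnion, hAu, inter_univ, tsum_fintype] at h1
  exact h1

theorem exists_isVol [IsManifold (𝓡 3) ∞ M] [CompactSpace M] (g : RMetric M) :
    ∃ μ : Measure M, IsVol g μ := by
  obtain ⟨n, E, A, hAs, hAm, hAd, hAu⟩ := exists_cover (M := M)
  refine ⟨∑ i, (nuM g (E i)).restrict (A i), fun e B hB hs => ?_⟩
  have h1 : ∀ i, (nuM g (E i)).restrict (A i) B = nuM g e (B ∩ A i) := by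
    intro i
    rw [Measure.restrict_apply hB, nuM_apply g _ (hB.inter (hAm i)),
      nuM_apply g _ (hB.inter (hAm i)), inter_eq_left.2 (inter_subset_right.trans (hAs i)),
      inter_eq_left.2 (inter_subset_left.trans hs)]
    exact lintegral_ov g (E i) e (hB.inter (hAm i)) (inter_subset_right.trans (hAs i))
      (inter_subset_left.trans hs)
  rw [Measure.finsetSum_apply]
  simp only [h1]
  have h2 : nuM g e B = ∑ i, nuM g e (B ∩ A i) := measure_eq_sum _ hAm hAd hAu hB
  rw [← h2, nuM_apply g e hB, inter_eq_left.2 hs]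

theorem isVol_unique [CompactSpace M] (g : RMetric M) {μ ν : Measure M} (hμ : IsVol g μ)
    (hν : IsVol g ν) : μ = ν := by
  obtain ⟨n, E, A, hAs, hAm, hAd, hAu⟩ := exists_cover (M := M)
  ext B hB
  have h : ∀ ρ : Measure M, ρ B = ∑ i, ρ (B ∩ A i) := fun ρ => measure_eq_sum ρ hAm hAd hAu hB
  rw [h μ, h ν]
  apply Finset.sum_congr rfl
  intro i _
  rw [hμ (E i) _ (hB.inter (hAm i)) (inter_subset_right.trans (hAs i)),
    hν (E i) _ (hB.inter (hAm i)) (inter_subset_right.trans (hAs i))]

theorem isVol_finite [CompactSpace M] (g : RMetric M) {μ : Measure M} (hμ : IsVol g μ) :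
    IsFiniteMeasure μ := by
  have hloc : IsLocallyFiniteMeasure μ := by
    refine ⟨fun p => ?_⟩
    let e : Ch M := ⟨chartAt E3 p, chart_mem_atlas E3 p⟩
    have hp : p ∈ e.1.source := mem_chart_source E3 p
    obtain ⟨r, hr, hball⟩ := Metric.nhds_basis_closedBall.mem_iff.1
      (e.1.open_target.mem_nhds (e.1.map_source hp))
    have hopen : IsOpen (e.1.source ∩ e.1 ⁻¹' (Metric.ball (e.1 p) r)) :=
      e.1.isOpen_inter_preimage Metric.isOpen_ball
    refine ⟨_, hopen.mem_nhds ⟨hp, Metric.mem_ball_self hr⟩, ?_⟩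
    rw [hμ e _ hopen.measurableSet inter_subset_left]
    have hsub : e.1 '' (e.1.source ∩ e.1 ⁻¹' (Metric.ball (e.1 p) r)) ⊆
        Metric.closedBall (e.1 p) r := by
      rintro x ⟨q, ⟨_, hq⟩, rfl⟩
      exact Metric.ball_subset_closedBall hq
    obtain ⟨C, hC⟩ := (isCompact_closedBall (e.1 p) r).bddAbove_image
      ((continuousOn_sqrt_det g e).mono hball)
    refine lt_of_le_of_lt (lintegral_mono_set hsub) ?_
    calc ∫⁻ x in Metric.closedBall (e.1 p) r, ENNReal.ofReal (Real.sqrt (g.c e x).det)
        ≤ ∫⁻ x in Metric.closedBall (e.1 p) r, ENNReal.ofReal C := by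
          apply setLIntegral_mono' measurableSet_closedBall
          intro x hx
          exact ENNReal.ofReal_le_ofReal (hC ⟨x, hx, rfl⟩)
      _ < ⊤ := by
          rw [setLIntegral_const]
          exact ENNReal.mul_lt_top ENNReal.ofReal_lt_top measure_closedBall_lt_top
  exact CompactSpace.isFiniteMeasure

end Pool.Agent.RFS
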