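import Pool.Agent.RFS.FIN
import Pool.Agent.RFS.FVO
import Pool.Agent.RFS.FPU
import Pool.Agent.RFS.FLD
import Pool.Agent.RFS.FPI

/-!
# RFS, chunk (f), module FDI: integrals along a Ricci flow

Proof of `int_deriv_rf`.  Take `n, E, ρ` from `exists_partition`, `K i = (E i).1 '' tsupport (ρ i)`
(compact: `tsupport (ρ i)` is closed in the compact space `M` and contained in the source, where `E i`
is continuous; contained in the target).  For `t ∈ Ioo 0 b`, `∫ u t ∂μ t = ∑ i, ∫ ρ i * u t ∂μ t`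
(finite sum of integrable functions: each `ρ i * u t` is continuous on the compact space `M`; `μ t` is
finite by `isVol_finite`) and by `integral_chart`
`∫ ρ i * u t ∂μ t = ∫ x in target, F i t x = ∫ x in K i, F i t x` with
`F i t x = ρ i (e.symm x) * u t (e.symm x) * √ det ((g t).c e x)`, `e = E i` (it vanishes on the target
outside `K i`).  The same with `u'`.  The derivative of `F i` in `t` is
`ρ i (e.symm x) * ((u' + scal u) √ det + u * √ det / 2 * tr (G⁻¹ (-2 Ric))) = ρ i (e.symm x) * u' * √ det` by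
`hasDerivWithinAt_sqrt_det` (with `J = Ico 0 b`, which is a neighbourhood of `t`) and `IsRF.eqn`
(`scal = tr (G⁻¹ Ric)`).  `F i` and its derivative are continuous on `Ioo 0 b ×ˢ K i` (`IsRF.cont` with
`k = 0` for `G`; `hu`, `hu'`; `e.symm` is continuous on the target).  Apply
`hasDerivAt_integral_compact` and sum over `i`.
Proof of `int_cont_rf`: the same with `continuousOn_integral_compact` on `Ico 0 b`.
-/

open scoped Manifold ContDiff Matrix
open Set MeasureTheory

noncomputable section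

namespace Pool.Agent.RFS

variable {M : Type*} [TopologicalSpace M] [ChartedSpace E3 M] [MeasurableSpace M] [BorelSpace M]

omit [MeasurableSpace M] [BorelSpace M] in
/-- The image of the support of `ρ` in a chart. -/
theorem image_tsupport [CompactSpace M] (e : Ch M) (ρ : M → ℝ) (hs : tsupport ρ ⊆ e.1.source) :
    IsCompact (e.1 '' tsupport ρ) ∧ e.1 '' tsupport ρ ⊆ e.1.target ∧
      ∀ x ∈ e.1.target, x ∉ e.1 '' tsupport ρ → ρ (e.1.symm x) = 0 := by
  refine ⟨?_, ?_, ?_⟩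
  · exact (isClosed_tsupport ρ).isCompact.image_of_continuousOn (e.1.continuousOn.mono hs)
  · rintro x ⟨p, hp, rfl⟩
    exact e.1.map_source (hs hp)
  · intro x hx hx'
    apply image_eq_zero_of_notMem_tsupport
    intro h
    exact hx' ⟨_, h, e.1.right_inv hx⟩

theorem integral_mul_chart [CompactSpace M] (g : RMetric M) {μ : Measure M} (hμ : IsVol g μ)
    (e : Ch M) (ρ u : M → ℝ) (hρ : Continuous ρ) (hs : tsupport ρ ⊆ e.1.source)
    (hu : Continuous u) :
    ∫ p, ρ p * u p ∂μ = ∫ x in e.1 '' tsupport ρ,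
      ρ (e.1.symm x) * u (e.1.symm x) * Real.sqrt (g.c e x).det := by
  obtain ⟨h1, h2, h3⟩ := image_tsupport e ρ hs
  rw [integral_chart g hμ e (fun p => ρ p * u p) (hρ.mul hu).continuousOn]
  · apply setIntegral_eq_of_subset_of_forall_sdiff_eq_zero e.1.open_target.measurableSet h2
    intro x hx
    rw [h3 x hx.1 hx.2]
    ring
  · intro p hp
    rw [image_eq_zero_of_notMem_tsupport (fun h => hp (hs h))]
    ring

theorem integral_partition [CompactSpace M] (g : RMetric M) {μ : Measure M} (hμ : IsVol g μ)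
    {n : ℕ} (E : Fin n → Ch M) (ρ : Fin n → M → ℝ) (hρ : ∀ i, Continuous (ρ i))
    (hs : ∀ i, tsupport (ρ i) ⊆ (E i).1.source) (h1 : ∀ p, ∑ i, ρ i p = 1)
    (u : M → ℝ) (hu : Continuous u) :
    ∫ p, u p ∂μ = ∑ i, ∫ x in (E i).1 '' tsupport (ρ i),
      ρ i ((E i).1.symm x) * u ((E i).1.symm x) * Real.sqrt (g.c (E i) x).det := by
  have hfin := isVol_finite g hμ
  have h2 : u = fun p => ∑ i, ρ i p * u p := by
    ext p
    rw [← Finset.sum_mul, h1, one_mul]
  have h3 : ∀ i, Integrable (fun p => ρ i p * u p) μ := fun i =>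
    ((hρ i).mul hu).integrable_of_hasCompactSupport (HasCompactSupport.of_compactSpace _)
  conv_lhs => rw [h2]
  rw [integral_finsetSum _ (fun i _ => h3 i)]
  exact Finset.sum_congr rfl fun i _ => integral_mul_chart g hμ (E i) (ρ i) u (hρ i) (hs i) hu

omit [BorelSpace M] [MeasurableSpace M] in
theorem continuousOn_sqrt_det_rf (J : Set ℝ) (g : ℝ → RMetric M) (hg : IsRF g J) (e : Ch M) :
    ContinuousOn (fun z : ℝ × E3 => Real.sqrt ((g z.1).c e z.2).det) (J ×ˢ e.1.target) := by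
  apply ContinuousOn.sqrt
  have h : ∀ i j, ContinuousOn (fun z : ℝ × E3 => (g z.1).c e z.2 i j) (J ×ˢ e.1.target) := by
    intro i j
    have h0 := hg.cont e i j 0
    have h1 := ((ContinuousMultilinearMap.apply ℝ (fun _ : Fin 0 => E3) ℝ
      (fun i => i.elim0)).continuous.comp_continuousOn h0)
    simpa [Function.comp_def, iteratedFDeriv_zero_apply] using h1
  simp only [Matrix.det_fin_three]
  exact ((((((h 0 0).mul (h 1 1)).mul (h 2 2)).sub (((h 0 0).mul (h 1 2)).mul (h 2 1))).sub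
    (((h 0 1).mul (h 1 0)).mul (h 2 2))).add (((h 0 1).mul (h 1 2)).mul (h 2 0))).add
    (((h 0 2).mul (h 1 0)).mul (h 2 1)) |>.sub (((h 0 2).mul (h 1 1)).mul (h 2 0))

omit [BorelSpace M] [MeasurableSpace M] in
theorem continuousOn_local (J : Set ℝ) (g : ℝ → RMetric M) (hg : IsRF g J) (e : Ch M)
    {K : Set E3} (hK : K ⊆ e.1.target) (ρ : M → ℝ) (hρ : Continuous ρ) (u : ℝ → M → ℝ)
    (hu : ContinuousOn (fun q : ℝ × M => u q.1 q.2) (J ×ˢ univ)) :
    ContinuousOn (fun z : ℝ × E3 => ρ (e.1.symm z.2) * u z.1 (e.1.symm z.2) *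
      Real.sqrt ((g z.1).c e z.2).det) (J ×ˢ K) := by
  have hsub : J ×ˢ K ⊆ J ×ˢ e.1.target := prod_mono le_rfl hK
  have hsymm : ContinuousOn (fun z : ℝ × E3 => e.1.symm z.2) (J ×ˢ K) :=
    (e.1.symm.continuousOn.comp continuousOn_snd (fun z hz => hz.2)).mono hsub
  refine ContinuousOn.mul (ContinuousOn.mul ?_ ?_) ((continuousOn_sqrt_det_rf J g hg e).mono hsub)
  · exact hρ.comp_continuousOn hsymm
  · exact hu.comp (f := fun z : ℝ × E3 => (z.1, e.1.symm z.2)) (continuousOn_fst.prodMk hsymm)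
      (fun z hz => ⟨hz.1, mem_univ _⟩)

omit [BorelSpace M] [MeasurableSpace M] [ChartedSpace E3 M] in
theorem continuous_slice {J : Set ℝ} {u : ℝ → M → ℝ}
    (hu : ContinuousOn (fun q : ℝ × M => u q.1 q.2) (J ×ˢ univ)) {t : ℝ} (ht : t ∈ J) :
    Continuous (u t) := by
  rw [← continuousOn_univ]
  exact hu.comp (f := fun p : M => (t, p)) (continuousOn_const.prodMk continuousOn_id)
    (fun p _ => ⟨ht, mem_univ _⟩)

theorem int_cont_rf [IsManifold (𝓡 3) ∞ M] [CompactSpace M] [T2Space M] (b : ℝ)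
    (g : ℝ → RMetric M) (hg : IsRF g (Ico 0 b)) (μ : ℝ → Measure M)
    (hμ : ∀ t ∈ Ico 0 b, IsVol (g t) (μ t)) (u : ℝ → M → ℝ)
    (hu : ContinuousOn (fun q : ℝ × M => u q.1 q.2) (Ico 0 b ×ˢ univ)) :
    ContinuousOn (fun s => ∫ p, u s p ∂(μ s)) (Ico 0 b) := by
  obtain ⟨n, E, ρ, hρ, hs, h1, h0, hsm⟩ := exists_partition (M := M)
  have h2 : ContinuousOn (fun s => ∑ i, ∫ x in (E i).1 '' tsupport (ρ i),
      ρ i ((E i).1.symm x) * u s ((E i).1.symm x) * Real.sqrt ((g s).c (E i) x).det)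
      (Ico 0 b) := by
    apply continuousOn_finsetSum
    intro i _
    obtain ⟨k1, k2, k3⟩ := image_tsupport (E i) (ρ i) (hs i)
    exact continuousOn_integral_compact b k1
      (fun s x => ρ i ((E i).1.symm x) * u s ((E i).1.symm x) * Real.sqrt ((g s).c (E i) x).det)
      (continuousOn_local _ g hg (E i) k2 (ρ i) (hρ i) u hu)
  exact h2.congr fun s hs' => integral_partition (g s) (hμ s hs') E ρ hρ hs h1 (u s)
    (continuous_slice hu hs')

theorem int_deriv_rf [IsManifold (𝓡 3) ∞ M] [CompactSpace M] [T2Space M] (b : ℝ)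
    (g : ℝ → RMetric M) (hg : IsRF g (Ico 0 b)) (μ : ℝ → Measure M)
    (hμ : ∀ t ∈ Ico 0 b, IsVol (g t) (μ t)) (u u' : ℝ → M → ℝ)
    (hu : ContinuousOn (fun q : ℝ × M => u q.1 q.2) (Ioo 0 b ×ˢ univ))
    (hu' : ContinuousOn (fun q : ℝ × M => u' q.1 q.2) (Ioo 0 b ×ˢ univ))
    (hd : ∀ t ∈ Ioo 0 b, ∀ e : Ch M, ∀ x ∈ e.1.target,
      HasDerivAt (fun s => u s (e.1.symm x))
        (u' t (e.1.symm x) + scal ((g t).c e) x * u t (e.1.symm x)) t) :
    ∀ t ∈ Ioo 0 b, HasDerivAt (fun s => ∫ p, u s p ∂(μ s)) (∫ p, u' t p ∂(μ t)) t := by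
  obtain ⟨n, E, ρ, hρ, hs, h1, h0, hsm⟩ := exists_partition (M := M)
  have hIoo : Ioo 0 b ⊆ Ico 0 b := Ioo_subset_Ico_self
  have hcontS : ∀ (v : ℝ → M → ℝ), ContinuousOn (fun q : ℝ × M => v q.1 q.2) (Ioo 0 b ×ˢ univ) →
      ∀ i, ContinuousOn (fun z : ℝ × E3 => ρ i ((E i).1.symm z.2) * v z.1 ((E i).1.symm z.2) *
      Real.sqrt ((g z.1).c (E i) z.2).det) (Ioo 0 b ×ˢ ((E i).1 '' tsupport (ρ i))) := by
    intro v hv i
    obtain ⟨k1, k2, k3⟩ := image_tsupport (E i) (ρ i) (hs i)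
    exact continuousOn_local _ g
      ⟨fun e i j k => (hg.cont e i j k).mono (prod_mono hIoo le_rfl),
        fun e x hx t ht i j => (hg.eqn e x hx t (hIoo ht) i j).mono hIoo⟩ (E i) k2 (ρ i) (hρ i) v hv
  intro t ht
  have h2 : HasDerivAt (fun s => ∑ i, ∫ x in (E i).1 '' tsupport (ρ i),
      ρ i ((E i).1.symm x) * u s ((E i).1.symm x) * Real.sqrt ((g s).c (E i) x).det)
      (∑ i, ∫ x in (E i).1 '' tsupport (ρ i),
      ρ i ((E i).1.symm x) * u' t ((E i).1.symm x) * Real.sqrt ((g t).c (E i) x).det) t := by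
    apply HasDerivAt.fun_sum
    intro i _
    obtain ⟨k1, k2, k3⟩ := image_tsupport (E i) (ρ i) (hs i)
    apply hasDerivAt_integral_compact b k1
      (fun s x => ρ i ((E i).1.symm x) * u s ((E i).1.symm x) * Real.sqrt ((g s).c (E i) x).det)
      (fun s x => ρ i ((E i).1.symm x) * u' s ((E i).1.symm x) * Real.sqrt ((g s).c (E i) x).det)
      (hcontS u hu i) (hcontS u' hu' i) _ t ht
    intro r hr x hx
    have hxt := k2 hx
    have hpos : 0 < ((g r).c (E i) x).det := ((g r).pos (E i) x hxt).det_pos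
    have hdet := (hasDerivWithinAt_sqrt_det (fun s => (g s).c (E i) x)
      ((-2 : ℝ) • ricci ((g r).c (E i)) x) (Ico 0 b) r
      (fun k l => by simpa using hg.eqn (E i) x hxt r (hIoo hr) k l) hpos).hasDerivAt
        (Filter.mem_of_superset (Ioo_mem_nhds hr.1 hr.2) hIoo)
    have hprod := ((hd r hr (E i) x hxt).const_mul (ρ i ((E i).1.symm x))).mul hdet
    refine hprod.congr_deriv ?_
    have htr : (((g r).c (E i) x)⁻¹ * ((-2 : ℝ) • ricci ((g r).c (E i)) x)).trace =
        -2 * scal ((g r).c (E i)) x := by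
      rw [scal, Matrix.mul_smul, Matrix.trace_smul, smul_eq_mul]
    rw [htr]
    ring
  have h3 : (fun s => ∫ p, u s p ∂(μ s)) =ᶠ[nhds t] (fun s => ∑ i, ∫ x in (E i).1 '' tsupport (ρ i),
      ρ i ((E i).1.symm x) * u s ((E i).1.symm x) * Real.sqrt ((g s).c (E i) x).det) := by
    filter_upwards [Ioo_mem_nhds ht.1 ht.2] with s hs'
    exact integral_partition (g s) (hμ s (hIoo hs')) E ρ hρ hs h1 (u s) (continuous_slice hu hs')
  rw [integral_partition (g t) (hμ t (hIoo ht)) E ρ hρ hs h1 (u' t) (continuous_slice hu' ht)]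
  exact h2.congr_of_eventuallyEq h3

end Pool.Agent.RFS
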