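import Pool.Agent.RFS.BGA
import Pool.Agent.RFS.BGR
import Pool.Agent.RFS.BDV
import Pool.Agent.RFS.BMC
import Pool.Agent.RFS.BMD
import Pool.Agent.RFS.BFC
import Pool.Agent.RFS.CJ6
import Pool.Agent.RFS.CL0
import Pool.Agent.RFS.FAL
import Pool.Agent.RFS.FDI
import Pool.Agent.RFS.FVO

/-!
# RFS, chunk (b), module BEX: the frame calculus of a Ricci flow (`exists_RFSpace`)
-/

open scoped Manifold ContDiff Matrix Topology
open Set MeasureTheory

noncomputable section

namespace Pool.Agent.RFS.BB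

variable {M : Type*} [TopologicalSpace M] [ChartedSpace E3 M] [IsManifold (𝓡 3) ∞ M]
  {g : ℝ → RMetric M} {b : ℝ}

theorem isFam_of_rf (hb : 0 < b) (hg : IsRF g (Ico 0 b)) : IsFam g b :=
  ⟨hb, fun e i j => hg.contDiffOn_Ico e i j⟩

theorem rdot_rf (hg : IsRF g (Ico 0 b)) (e : Ch M) {t : ℝ} (ht : t ∈ Ico 0 b) {x : E3}
    (hx : x ∈ e.1.target) : rdot b (gt g e) t x = ricci ((g t).c e) x := by
  ext i j
  have h := (hg.eqn e x hx t ht i j).derivWithin (uniqueDiffOn_Ico 0 b t ht)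
  simp only [rdot, Matrix.of_apply, gt]
  rw [h]
  ring

theorem mem_oset_iff (e : Ch M) (t : ℝ) (x : E3) (a : Fm) :
    ((t, x, a) : Qs) ∈ oset b e.1.target (gt g e) ↔ FrOk g b e t x a := by
  have key : Phi (gt g e) (t, x, a) = one3 ↔
      (Matrix.of a)ᵀ * (g t).c e x * Matrix.of a = 1 := by
    have h1 := Phi_eq (gt g e) (t, x, a)
    constructor
    · intro h
      rw [h, one3_eq] at h1
      exact h1.symm
    · intro h
      have h2 : Matrix.of (Phi (gt g e) (t, x, a)) = Matrix.of one3 := by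
        rw [h1, one3_eq]
        exact h
      exact Matrix.of.injective h2
  unfold oset FrOk
  simp only [mem_setOf_eq, key]

theorem frame_one {e : Ch M} {q : Qs} (hq : q ∈ oset b e.1.target (gt g e)) :
    (Matrix.of q.2.2)ᵀ * (g q.1).c e q.2.1 * Matrix.of q.2.2 = 1 :=
  ((mem_oset_iff e q.1 q.2.1 q.2.2).1 hq).2.2

section

variable [Nonempty (Fr g b)]

theorem rho_rf (hg : IsFam g b) (hR : IsRF g (Ico 0 b)) (i j : Fin 3) :
    rhoA hg i j = (if i = j then ∑ k, PA hg k k else 0) - PA hg i j := by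
  apply FA_ext
  intro z
  obtain ⟨e, q, hq, rfl⟩ := exists_frq z
  have h1 : (rhoA hg i j).1 (frq g b e q) =
      ((Matrix.of q.2.2)ᵀ * ricci ((g q.1).c e) q.2.1 * Matrix.of q.2.2) i j := by
    rw [rhoA_frq hg i j e hq, rdot_rf hR e hq.1 hq.2.1]
  obtain ⟨-, h2, -, -⟩ := frame_formulas ((g q.1).c e) q.2.1 (Matrix.of q.2.2)
    ((Matrix.of q.2.2)ᵀ * pten ((g q.1).c e) q.2.1 * Matrix.of q.2.2) (frame_one hq) rfl
  have h3 : ((if i = j then ∑ k, PA hg k k else 0) - PA hg i j : FA g b).1 (frq g b e q) =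
      (if i = j then ∑ k, (PA hg k k).1 (frq g b e q) else 0) -
        (PA hg i j).1 (frq g b e q) := by
    split_ifs with h
    · rw [← sum_FA]
      rfl
    · rfl
  rw [h1, h2, h3]
  simp only [PA_frq hg _ _ e hq, Matrix.sub_apply, Matrix.smul_apply, Matrix.one_apply,
    Matrix.trace, Matrix.diag_apply, smul_eq_mul, mul_ite, mul_one, mul_zero]

/-- The frame calculus of the Ricci flow. -/
def rfAlg (hg : IsFam g b) (hR : IsRF g (Ico 0 b)) : RFAlg (FA g b) :=
  (galgA hg).toRF (rho_rf hg hR)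

/-- Evaluation at a point. -/
def evA (z : Fr g b) : FA g b →ₐ[ℝ] ℝ := (Pi.evalAlgHom ℝ (fun _ : Fr g b => ℝ) z).comp (FA g b).val

theorem evA_apply (z : Fr g b) (f : FA g b) : evA z f = f.1 z := rfl

/-- The Riemannian volume. -/
def volA [CompactSpace M] [MeasurableSpace M] [BorelSpace M] (g : ℝ → RMetric M) (t : ℝ) :
    Measure M := Classical.choose (exists_isVol (g t))

theorem volA_spec [CompactSpace M] [MeasurableSpace M] [BorelSpace M] (g : ℝ → RMetric M)
    (t : ℝ) : IsVol (g t) (volA g t) := Classical.choose_spec (exists_isVol (g t))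

theorem trace_P_val (hg : IsFam g b) (hR : IsRF g (Ico 0 b)) {e : Ch M} {q : Qs}
    (hq : q ∈ oset b e.1.target (gt g e)) :
    2 * (∑ k, PA hg k k).1 (frq g b e q) = scal ((g q.1).c e) q.2.1 := by
  obtain ⟨h1, -, -, -⟩ := frame_formulas ((g q.1).c e) q.2.1 (Matrix.of q.2.2)
    ((Matrix.of q.2.2)ᵀ * pten ((g q.1).c e) q.2.1 * Matrix.of q.2.2) (frame_one hq) rfl
  rw [h1, sum_FA]
  simp only [PA_frq hg _ _ e hq, Matrix.trace, Matrix.diag_apply]

theorem rotq_mem (Q : O3) (e : Ch M) {q : Qs} (hq : q ∈ oset b e.1.target (gt g e)) :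
    rotq Q q ∈ oset b e.1.target (gt g e) := ⟨hq.1, hq.2.1, Phi_rotq Q _ hq.2.2⟩

theorem RA_PA (hg : IsFam g b) (Q : O3) (i j : Fin 3) : RA hg Q (PA hg i j) =
    ∑ k, ∑ l, ((Q : Mat3) k i * (Q : Mat3) l j) • PA hg k l := by
  apply FA_ext
  intro z
  obtain ⟨e, q, hq, rfl⟩ := exists_frq z
  have h1 : (∑ k, ∑ l, ((Q : Mat3) k i * (Q : Mat3) l j) • PA hg k l).1 (frq g b e q) =
      ∑ k, ∑ l, ((Q : Mat3) k i * (Q : Mat3) l j) * (PA hg k l).1 (frq g b e q) := by
    rw [sum_FA]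
    refine Finset.sum_congr rfl fun k _ => ?_
    rw [sum_FA]
    rfl
  rw [h1, RA_apply, frq_rot Q e hq, PA_frq hg i j e (rotq_mem Q e hq)]
  simp only [PA_frq hg _ _ e hq]
  have h2 : (Matrix.of (rotq Q q).2.2) = Matrix.of q.2.2 * (Q : Mat3) := by
    ext m n
    simp [rotq, fmul, Matrix.mul_apply]
  have h3 : (rotq Q q).1 = q.1 := rfl
  have h4 : (rotq Q q).2.1 = q.2.1 := rfl
  rw [h2, h3, h4, Matrix.transpose_mul]
  generalize pten ((g q.1).c e) q.2.1 = S
  have h5 : (Q : Mat3)ᵀ * (Matrix.of q.2.2)ᵀ * S * (Matrix.of q.2.2 * (Q : Mat3)) =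
      (Q : Mat3)ᵀ * ((Matrix.of q.2.2)ᵀ * S * Matrix.of q.2.2) * (Q : Mat3) := by
    simp only [Matrix.mul_assoc]
  rw [h5]
  generalize (Matrix.of q.2.2)ᵀ * S * Matrix.of q.2.2 = R
  simp only [Matrix.mul_apply, Matrix.transpose_apply, Finset.sum_mul]
  rw [Finset.sum_comm]
  refine Finset.sum_congr rfl fun k _ => Finset.sum_congr rfl fun l _ => ?_
  ring

variable [CompactSpace M] [T2Space M] [Nonempty M] [MeasurableSpace M] [BorelSpace M]

theorem int_derivA (hg : IsFam g b) (hR : IsRF g (Ico 0 b)) (f : FA g b) (u u' : ℝ → M → ℝ)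
    (hu : ∀ z : Fr g b, f.1 z = u z.tm z.bs)
    (hu' : ∀ z : Fr g b, ((natT hg).der hg f - 2 * (∑ k, PA hg k k) * f).1 z = u' z.tm z.bs) :
    ∀ t ∈ Ioo 0 b, HasDerivAt (fun s => ∫ p, u s p ∂(volA g s)) (∫ p, u' t p ∂(volA g t)) t := by
  apply int_deriv_rf b g hR (volA g) (fun t _ => volA_spec g t) u u'
  · exact (basic_cont hg f u hu).mono (prod_mono Ioo_subset_Ico_self subset_rfl)
  · exact (basic_cont hg _ u' hu').mono (prod_mono Ioo_subset_Ico_self subset_rfl)
  · intro t ht e x hx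
    obtain ⟨z, hz1, hz2⟩ := exists_point hg (Ioo_subset_Ico_self ht) (e.1.symm x)
    have hzs : z.bs ∈ e.1.source := by
      rw [hz2]
      exact e.1.map_target hx
    have hq := coo_mem e hzs
    have hz := frq_coo e hzs
    have h1 := basic_T hg f u hu z (by rw [hz1]; exact ht.1)
    rw [hz2, hz1] at h1
    have h2 := hu' z
    rw [hz1, hz2] at h2
    have h3 := trace_P_val hg hR hq
    rw [hz] at h3
    have h4 : (coo e z).1 = t := hz1
    have h5 : (coo e z).2.1 = x := by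
      show e.1 z.bs = x
      rw [hz2]
      exact e.1.right_inv hx
    rw [h4, h5] at h3
    have h6 := hu z
    rw [hz1, hz2] at h6
    have h7 : ((natT hg).der hg f - 2 * (∑ k, PA hg k k) * f).1 z =
        ((natT hg).der hg f).1 z - 2 * (∑ k, PA hg k k).1 z * f.1 z := rfl
    rw [h7, h3, h6] at h2
    refine h1.congr_deriv ?_
    rw [← h2]
    ring

/-- The interface. -/
def rfSpace (hg : IsFam g b) (hR : IsRF g (Ico 0 b)) : RFSpace (rfAlg hg hR) M b where
  Fr := Fr g b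
  tm := Fr.tm
  bs := Fr.bs
  tm_mem := fun z => z.2.1
  exists_pt := fun t ht p => exists_point hg ht p
  ev := evA
  ev_ext := fun f h H => FA_ext g b H
  rot := rotF
  tm_rot := tm_rotF
  bs_rot := bs_rotF
  rot_trans := rot_transF
  R := RA hg
  ev_R := fun Q z f => RA_apply hg Q f z
  R_D := RA_D hg
  R_T := RA_T hg
  R_P := RA_PA hg
  τ := tauA hg
  ev_τ := fun z => rfl
  T_τ := T_tauA hg
  D_τ := D_tauA hg
  V_τ := V_tauA hg
  fc := by
    intro ψ U hU hψ f hf
    obtain ⟨h, h1, h2⟩ := fcA hg ψ U hU hψ f hf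
    exact ⟨h, h1, fun z => h2 (natT hg) z, fun z i => h2 (natD hg i) z,
      fun z n => h2 (natV hg n) z⟩
  cont := fun f u hu => basic_cont hg f u hu
  time_deriv := fun f u hu z h0 => basic_T hg f u hu z h0
  exists_max := by
    intro f t₁ ht
    obtain ⟨z, hz1, hz2⟩ := exists_max_compact hg f (J := Icc 0 t₁) isCompact_Icc
      (fun s hs => ⟨hs.1, hs.2.trans_lt ht.2⟩) ⟨0, le_refl 0, ht.1⟩
    refine ⟨z, hz1.2, fun z' hz' => hz2 z' ⟨z'.2.1.1, hz'⟩, fun h0 => ⟨?_, ?_, ?_⟩⟩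
    · exact time_order hg f z h0 (fun z' hz' => hz2 z' ⟨z'.2.1.1, hz'.trans hz1.2⟩)
    · intro i
      exact first_order hg f z (fun z' hz' => hz2 z' ⟨z'.2.1.1, hz'.le.trans hz1.2⟩) i
    · intro i
      exact second_order hg f z (fun z' hz' => hz2 z' ⟨z'.2.1.1, hz'.le.trans hz1.2⟩) i
  exists_max_slice := by
    intro f t ht
    obtain ⟨z, hz1, hz2⟩ := exists_max_compact hg f (J := {t}) isCompact_singleton
      (by rintro s rfl; exact ht) (singleton_nonempty t)
    have hz3 : z.tm = t := hz1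
    refine ⟨z, hz3, fun z' hz' => hz2 z' hz', fun _ => ⟨?_, ?_⟩⟩
    · intro i
      exact first_order hg f z (fun z' hz' => hz2 z' (hz'.trans hz3)) i
    · intro i
      exact second_order hg f z (fun z' hz' => hz2 z' (hz'.trans hz3)) i
  vol := volA g
  vol_fin := fun t _ => isVol_finite (g t) (volA_spec g t)
  div_int := fun v hv u hu t ht =>
    div_FA hg v hv u hu (Ioo_subset_Ico_self ht) (volA_spec g t)
  int_cont := fun f u hu => int_cont_rf b g hR (volA g) (fun t _ => volA_spec g t) u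
    (basic_cont hg f u hu)
  int_deriv := fun f u u' hu hu' => int_derivA hg hR f u u' hu hu'

/-- The parametrisation by charts. -/
def frRep (hg : IsFam g b) (hR : IsRF g (Ico 0 b)) : FrRep (rfSpace hg hR) g where
  fr := fun e t x a => frq g b e (t, x, a)
  tm_fr := fun e t x a h => frq_tm e ((mem_oset_iff e t x a).2 h)
  bs_fr := fun e t x a h => frq_bs e ((mem_oset_iff e t x a).2 h)
  surj := by
    intro z
    obtain ⟨e, q, hq, h⟩ := exists_frq (z : Fr g b)
    exact ⟨e, q.1, q.2.1, q.2.2, (mem_oset_iff e q.1 q.2.1 q.2.2).1 hq, h⟩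
  ev_P := fun e t x a h i j => PA_frq hg i j e ((mem_oset_iff e t x a).2 h)
  ev_D := by
    intro f e t x a h0 h F hF hFf i
    have hq := (mem_oset_iff e t x a).2 h
    have h1 : ((natD hg i).der hg f).1 (frq g b e (t, x, a)) =
        fderivWithin ℝ (can0 g b f.1 e) (wset b e.1.target) (t, x, a)
          (hD (gt g e) i (t, x, a)) := by
      rw [NatField.der_apply, NatField.der0_rep hg _ f e hq]
      rfl
    have h2 := (hg.lmet e).slice_congr (F := can0 g b f.1 e) (F' := F) (t := t) (y := (x, a)) hq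
      (((smooth_can0 g b f e).differentiableOn (by simp)) _ ((hg.lmet e).oset_sub hq)) hF
      (fun y' hy' => by
        rw [can0_eq g b f.1 e hy']
        exact hFf y'.1 y'.2 ((mem_oset_iff e t y'.1 y'.2).1 hy'))
      (w := horiz ((g t).c e) x a i)
      ((hg.lmet e).tangent_hD i ((hg.lmet e).oset_sub hq))
    exact h1.trans h2

end

end Pool.Agent.RFS.BB

namespace Pool.Agent.RFS

universe u

/-- The frame calculus of a Ricci flow on a closed 3-manifold. -/
theorem exists_RFSpace {M : Type u} [TopologicalSpace M] [ChartedSpace E3 M]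
    [IsManifold (𝓡 3) ∞ M] [CompactSpace M] [T2Space M] [Nonempty M] [MeasurableSpace M]
    [BorelSpace M] {b : ℝ} (hb : 0 < b) (g : ℝ → RMetric M) (hR : IsRF g (Ico 0 b)) :
    ∃ (A : Type u) (_ : CommRing A) (_ : Algebra ℝ A) (S : RFAlg A) (X : RFSpace.{u, u, u} S M b),
      Nonempty (FrRep X g) ∧ ∀ t ∈ Ico 0 b, IsVol (g t) (X.vol t) := by
  have hg := BB.isFam_of_rf hb hR
  haveI : Nonempty (BB.Fr g b) := BB.nonempty_Fr hg
  exact ⟨BB.FA g b, inferInstance, inferInstance, BB.rfAlg hg hR, BB.rfSpace hg hR,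
    ⟨BB.frRep hg hR⟩, fun t _ => BB.volA_spec g t⟩

end Pool.Agent.RFS
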