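import Pool.Agent.RFS.BJB

/-!
# RFS, chunk (b), module BJC: from the Jacobi identities to `GAlg`

Proof of `T_P`.  Multiply `vertical` by `eps i j l / 2`, sum over `i, j`
(`∑ i j, eps i j l eps i j m = 2 δ_lm`) and insert `W_eq`.  First part:
`(1/2) ∑ eps i j l (rho i p eps p j m + rho j p eps i p m) P n m
 = ∑ eps i j l eps p j m rho i p P n m = tr rho P n l - ∑ i, rho i l P n i`
(as `∑ j, eps i j l eps p j m = δ_ip δ_lm - δ_im δ_lp`).  Second part:
`(1/2) ∑ eps i j l (D i (W j n) - D j (W i n)) = ∑ i j, eps i j l D i (W j n)`.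
Then `P_symm`.  (Or `fin_cases l, n` and `linear_combination` of three instances of `vertical`.)
-/

open scoped Manifold ContDiff Matrix
open Set MeasureTheory

noncomputable section

namespace Pool.Agent.RFS.BB

namespace JAlg

variable {L : Type*} [CommRing L] [Algebra ℝ L] (J : JAlg L)

private theorem e_val : (∀ j k : Fin 3, eps j j k = 0) ∧ (∀ j k : Fin 3, eps j k k = 0) ∧
    (∀ j k : Fin 3, eps j k j = 0) ∧ eps 0 1 2 = 1 ∧ eps 1 2 0 = 1 ∧ eps 2 0 1 = 1 ∧
    eps 0 2 1 = -1 ∧ eps 1 0 2 = -1 ∧ eps 2 1 0 = -1 := by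
  refine ⟨fun j k => ?_, fun j k => ?_, fun j k => ?_, ?_, ?_, ?_, ?_, ?_, ?_⟩ <;>
    simp [eps] <;> norm_num

theorem T_P (l n : Fin 3) : J.T (J.P l n) = (∑ k, J.rho k k) * J.P l n - ∑ k, J.rho l k * J.P k n
    + ∑ i, ∑ j, ∑ p, ∑ q, (eps i j l * eps p q n) • J.D i (J.D p (J.rho q j)) := by
  obtain ⟨a1, a2, a3, b1, b2, b3, b4, b5, b6⟩ := e_val
  have hW : ∀ k i : Fin 3, J.D k (J.W i n) = ∑ p, ∑ q, eps p q n • J.D k (J.D p (J.rho q i)) := by
    intro k i
    rw [J.W_eq, map_sum]
    refine Finset.sum_congr rfl fun p _ => ?_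
    rw [map_sum]
    exact Finset.sum_congr rfl fun q _ => by rw [Derivation.map_smul]
  have hs : ∀ i j l : Fin 3, ∑ p, ∑ q, (eps i j l * eps p q n) • J.D i (J.D p (J.rho q j)) =
      eps i j l • J.D i (J.W j n) := by
    intro i j l
    rw [hW, Finset.smul_sum]
    refine Finset.sum_congr rfl fun p _ => ?_
    rw [Finset.smul_sum]
    exact Finset.sum_congr rfl fun q _ => by rw [smul_smul]
  simp only [hs]
  have v12 := J.vertical 1 2 n
  have v20 := J.vertical 2 0 n
  have v01 := J.vertical 0 1 n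
  simp only [Fin.sum_univ_three, a1, a2, a3, b1, b2, b3, b4, b5, b6, zero_smul, one_smul, neg_smul,
    add_zero, zero_add, mul_zero, mul_neg] at v12 v20 v01 ⊢
  have s1 := J.rho_symm 1 0
  have s2 := J.rho_symm 2 0
  have s3 := J.rho_symm 2 1
  have p0 := J.P_symm n 0
  have p1 := J.P_symm n 1
  have p2 := J.P_symm n 2
  simp only [p0, p1, p2, s1, s2, s3] at v12 v20 v01
  fin_cases l
  · simp only [Fin.zero_eta, Fin.mk_one, Fin.reduceFinMk, a1, a2, a3, b1, b2, b3, b4, b5, b6,
      zero_smul, one_smul, neg_smul, add_zero, zero_add]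
    linear_combination v12
  · simp only [Fin.zero_eta, Fin.mk_one, Fin.reduceFinMk, a1, a2, a3, b1, b2, b3, b4, b5, b6,
      zero_smul, one_smul, neg_smul, add_zero, zero_add, s1]
    linear_combination v20
  · simp only [Fin.zero_eta, Fin.mk_one, Fin.reduceFinMk, a1, a2, a3, b1, b2, b3, b4, b5, b6,
      zero_smul, one_smul, neg_smul, add_zero, zero_add, s2, s3]
    linear_combination v01

/-- The frame calculus. -/
def galg : GAlg L where
  T := J.T
  D := J.D
  V := J.V
  P := J.P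
  rho := J.rho
  P_symm := J.P_symm
  rho_symm := J.rho_symm
  comm_VV := J.comm_VV
  comm_VD := J.comm_VD
  V_P := J.V_P
  V_rho := J.V_rho
  comm_DD := fun i j f => by
    rw [J.comm_DD]
    exact Finset.sum_congr rfl fun m _ => Finset.sum_congr rfl fun n _ => by rw [J.P_symm n m]
  div_P := J.div_P
  comm_TV := J.comm_TV
  comm_TD := fun i f => by
    rw [J.comm_TD]
    congr 1
    refine Finset.sum_congr rfl fun n _ => ?_
    rw [J.W_eq, Finset.sum_mul]
    refine Finset.sum_congr rfl fun p _ => ?_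
    rw [Finset.sum_mul]
    refine Finset.sum_congr rfl fun q _ => ?_
    rw [smul_mul_assoc]
  T_P := J.T_P

end JAlg

end Pool.Agent.RFS.BB
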