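import Pool.Agent.RFS.BQL

/-!
# RFS, chunk (b), module BTW: the bracket `[T, D i]` modulo the ideal

Proof.  Let `U f = T (D i f) - D i (T f) - ∑ j, rho i j * D j f`.  By `comm_TD_vec` and the definition
of `D` (`vec` is additive in its components, `vec_apply`)
`U f = vec 0 v w f` with `v k = ∑ l (∑ p, gi k p * rt p l) * a l i - ∑ j, rho i j * a k j` and
`w m p = Y i m p + ∑ j, rho i j * ∑∑ Γ a a`.
(1) `v k ∈ I`: `∑ j, rho i j * a k j = ∑ j l m, a_li rt_lm a_mj a_kj ≡ ∑ l m, a_li rt_lm gi_mk` (`a_at`),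
and `rt` is symmetric.
(2) `U (h p q) = 0` by `D_h`, `T_h`, so `vec 0 0 w (h p q) = - ∑ k, v k * dx k (h p q) ∈ I`, i.e.
`low w q p + low w p q ∈ I` (`low_add`).
(3) `vert`: `vec 0 0 w f ≡ ∑ n, z n * V n f`, and `U f - vec 0 0 w f = ∑ k, v k * dx k f ∈ I`.
-/

open scoped Manifold ContDiff Matrix
open Set MeasureTheory

noncomputable section

namespace Pool.Agent.RFS.BB

namespace Cal

variable {B : Type*} [CommRing B] [Algebra ℝ B] (C : Cal B) {I : Ideal B}

private theorem btw_split (v : Fin 3 → B) (w : Fin 3 → Fin 3 → B) (f : B) :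
    C.vec 0 v w f = ∑ k, v k * C.dx k f + C.vec 0 0 w f := by
  rw [C.vec_apply, C.vec_apply]
  simp

private theorem btw_U (i : Fin 3) (f : B) :
    C.T (C.D i f) - C.D i (C.T f) - ∑ j, C.rho i j * C.D j f =
      C.vec 0 (fun k => ∑ l, (∑ p, C.gi k p * C.rt p l) * C.a l i - ∑ j, C.rho i j * C.a k j)
        (fun m p => C.Y i m p -
          ∑ j, C.rho i j * (-∑ k, ∑ l, C.Gam m k l * C.a k j * C.a l p)) f := by
  rw [C.comm_TD_vec]
  unfold D
  simp only [C.vec_apply, zero_mul, zero_add, mul_add, Finset.sum_add_distrib, sub_mul,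
    Finset.sum_sub_distrib]
  have h1 : ∑ j, C.rho i j * ∑ k, C.a k j * C.dx k f
      = ∑ k, (∑ j, C.rho i j * C.a k j) * C.dx k f := by
    simp only [Finset.mul_sum, Finset.sum_mul]
    rw [Finset.sum_comm]
    refine Finset.sum_congr rfl fun _ _ => Finset.sum_congr rfl fun _ _ => ?_
    ring
  have h2 : ∑ j, C.rho i j * ∑ m, ∑ p, (-∑ k, ∑ l, C.Gam m k l * C.a k j * C.a l p) * C.da m p f
      = ∑ m, ∑ p, (∑ j, C.rho i j * (-∑ k, ∑ l, C.Gam m k l * C.a k j * C.a l p))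
        * C.da m p f := by
    generalize (fun m j p => -∑ k, ∑ l, C.Gam m k l * C.a k j * C.a l p) = F
    simp only [Finset.mul_sum, Finset.sum_mul]
    rw [Finset.sum_comm]
    refine Finset.sum_congr rfl fun _ _ => ?_
    rw [Finset.sum_comm]
    refine Finset.sum_congr rfl fun _ _ => Finset.sum_congr rfl fun _ _ => ?_
    ring
  rw [h1, h2]
  ring

private theorem btw_v (hI : C.Good I) (i k : Fin 3) :
    ∑ l, (∑ p, C.gi k p * C.rt p l) * C.a l i - ∑ j, C.rho i j * C.a k j ∈ I := by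
  have h0 : ∀ k l, C.rt k l = C.rt l k := fun k l => by
    unfold rt
    rw [C.g_symm]
  have h1 : ∑ l, (∑ p, C.gi k p * C.rt p l) * C.a l i - ∑ j, C.rho i j * C.a k j
      = -∑ l, ∑ m, C.a l i * C.rt l m * (∑ q, C.a m q * C.a k q - C.gi m k) := by
    have h2 : ∑ j, C.rho i j * C.a k j
        = ∑ l, ∑ m, C.a l i * C.rt l m * ∑ q, C.a m q * C.a k q := by
      unfold rho
      simp only [Finset.mul_sum, Finset.sum_mul]
      rw [Finset.sum_comm]
      refine Finset.sum_congr rfl fun _ _ => ?_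
      rw [Finset.sum_comm]
      refine Finset.sum_congr rfl fun _ _ => Finset.sum_congr rfl fun _ _ => ?_
      ring
    have h3 : ∑ l, (∑ p, C.gi k p * C.rt p l) * C.a l i
        = ∑ l, ∑ m, C.a l i * C.rt l m * C.gi m k := by
      simp only [Finset.sum_mul]
      refine Finset.sum_congr rfl fun l _ => Finset.sum_congr rfl fun m _ => ?_
      rw [h0 m l, C.gi_symm k m]
      ring
    rw [h2, h3]
    simp only [mul_sub, Finset.sum_sub_distrib]
    ring
  rw [h1]
  refine I.neg_mem (I.sum_mem fun l _ => I.sum_mem fun m _ => ?_)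
  exact I.mul_mem_left _ (C.a_at hI m k)

theorem comm_TD_mem (hI : C.Good I) (i : Fin 3) : ∃ W : Fin 3 → B, ∀ f,
    C.T (C.D i f) - C.D i (C.T f) - (∑ j, C.rho i j * C.D j f + ∑ n, W n * C.V n f) ∈ I := by
  set v : Fin 3 → B :=
    fun k => ∑ l, (∑ p, C.gi k p * C.rt p l) * C.a l i - ∑ j, C.rho i j * C.a k j with hv
  set w : Fin 3 → Fin 3 → B := fun m p => C.Y i m p -
    ∑ j, C.rho i j * (-∑ k, ∑ l, C.Gam m k l * C.a k j * C.a l p) with hw
  have hU : ∀ f, C.T (C.D i f) - C.D i (C.T f) - ∑ j, C.rho i j * C.D j f = C.vec 0 v w f :=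
    fun f => C.btw_U i f
  have hvI : ∀ k, v k ∈ I := fun k => C.btw_v hI i k
  have hsum : ∀ f, ∑ k, v k * C.dx k f ∈ I := fun f =>
    I.sum_mem fun k _ => I.mul_mem_right _ (hvI k)
  have hlow : ∀ p q, C.low w q p + C.low w p q ∈ I := by
    intro p q
    rw [← C.low_add]
    have h1 := hU (C.h p q)
    rw [C.btw_split] at h1
    simp only [C.D_h, C.T_h, map_zero, mul_zero, Finset.sum_const_zero, sub_zero] at h1
    have h2 : C.vec 0 0 w (C.h p q) = -∑ k, v k * C.dx k (C.h p q) := by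
      linear_combination -h1
    rw [h2]
    exact I.neg_mem (hsum _)
  refine ⟨fun n => (1 / 2 : ℝ) • ∑ p, ∑ q, eps n p q • C.low w q p, fun f => ?_⟩
  have h1 : C.T (C.D i f) - C.D i (C.T f) - (∑ j, C.rho i j * C.D j f +
      ∑ n, ((1 / 2 : ℝ) • ∑ p, ∑ q, eps n p q • C.low w q p) * C.V n f)
      = ∑ k, v k * C.dx k f + (C.vec 0 0 w f -
        ∑ n, ((1 / 2 : ℝ) • ∑ p, ∑ q, eps n p q • C.low w q p) * C.V n f) := by
    rw [← sub_sub, hU f, C.btw_split]
    ring
  rw [h1]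
  exact I.add_mem (hsum f) (C.vert hI w hlow f)

end Cal

end Pool.Agent.RFS.BB
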