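import Pool.Agent.RFS.BSE
import Pool.Agent.RFS.BTW
import Pool.Agent.RFS.BJC

/-!
# RFS, chunk (b), module BJG: the local frame calculus modulo the ideal

Everything is obtained from the statements in `B` by applying `Ideal.Quotient.mk I` and
`qder_mk`; identities for all elements of `B ⧸ I` by `Ideal.Quotient.mk_surjective`.
`ai i m = mk (∑ k, a k i * g k m)`.
-/

open scoped Manifold ContDiff Matrix
open Set MeasureTheory

noncomputable section

namespace Pool.Agent.RFS.BB

namespace Cal

variable {B : Type*} [CommRing B] [Algebra ℝ B] (C : Cal B) {I : Ideal B}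

private theorem BJG_smul (r : ℝ) (x : B) :
    Ideal.Quotient.mk I (r • x) = r • Ideal.Quotient.mk I x := rfl

omit [Algebra ℝ B] in
private theorem BJG_of_mem {x y : B} (h : x - y ∈ I) :
    Ideal.Quotient.mk I x = Ideal.Quotient.mk I y := (Ideal.Quotient.mk_eq_mk_iff_sub_mem x y).2 h

/-- The structure with the Jacobi identities. -/
def jalg (hI : C.Good I) : JAlg (B ⧸ I) where
  T := qder C.T I hI.T_mem
  D := fun i => qder (C.D i) I (hI.D_mem i)
  V := fun n => qder (C.V n) I (hI.V_mem n)
  P := fun i j => Ideal.Quotient.mk I (C.P i j)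
  rho := fun i j => Ideal.Quotient.mk I (C.rho i j)
  W := fun i n => Ideal.Quotient.mk I (Classical.choose (C.comm_TD_mem hI i) n)
  x := fun k => Ideal.Quotient.mk I (C.x k)
  a := fun m j => Ideal.Quotient.mk I (C.a m j)
  ai := fun i m => Ideal.Quotient.mk I (∑ k, C.a k i * C.g k m)
  ai_a := by
    intro i j
    have h := BJG_of_mem (hI.h_mem i j)
    have h1 : ∑ m, Ideal.Quotient.mk I (∑ k, C.a k i * C.g k m) * Ideal.Quotient.mk I (C.a m j)
        = Ideal.Quotient.mk I (C.h i j) := by
      simp only [← map_mul]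
      rw [← map_sum]
      congr 1
      unfold Cal.h
      rw [Finset.sum_comm]
      refine Finset.sum_congr rfl fun m _ => ?_
      rw [Finset.sum_mul]
    rw [h1, h]
    split_ifs
    · exact map_one _
    · exact map_zero _
  D_x := by
    intro i k
    rw [qder_mk, C.D_x]
  V_x := by
    intro n k
    rw [qder_mk, C.V_x, map_zero]
  V_a := by
    intro n m j
    rw [qder_mk, C.V_a, map_sum]
    exact Finset.sum_congr rfl fun k _ => BJG_smul _ _
  rho_symm := fun i j => congrArg _ (C.rho_symm i j)
  comm_VV := by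
    intro m n f
    obtain ⟨f, rfl⟩ := Ideal.Quotient.mk_surjective f
    simp only [qder_mk]
    rw [← map_sub, C.comm_VV, map_sum]
    exact Finset.sum_congr rfl fun k _ => BJG_smul _ _
  comm_VD := by
    intro n i f
    obtain ⟨f, rfl⟩ := Ideal.Quotient.mk_surjective f
    simp only [qder_mk]
    rw [← map_sub, C.comm_VD, map_sum]
    exact Finset.sum_congr rfl fun k _ => BJG_smul _ _
  V_P := by
    intro n i j
    rw [qder_mk, C.V_P, map_sum]
    refine Finset.sum_congr rfl fun k _ => ?_
    rw [map_add, BJG_smul, BJG_smul]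
  V_rho := by
    intro n i j
    rw [qder_mk, C.V_rho, map_sum]
    refine Finset.sum_congr rfl fun k _ => ?_
    rw [map_add, BJG_smul, BJG_smul]
  comm_DD := by
    intro i j f
    obtain ⟨f, rfl⟩ := Ideal.Quotient.mk_surjective f
    simp only [qder_mk]
    rw [← map_sub, BJG_of_mem (C.comm_DD_mem hI i j f), map_sum]
    refine Finset.sum_congr rfl fun m _ => ?_
    rw [map_sum]
    refine Finset.sum_congr rfl fun n _ => ?_
    rw [BJG_smul, map_mul]
  comm_TV := by
    intro n f
    obtain ⟨f, rfl⟩ := Ideal.Quotient.mk_surjective f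
    simp only [qder_mk]
    rw [C.comm_TV]
  comm_TD := by
    intro i f
    obtain ⟨f, rfl⟩ := Ideal.Quotient.mk_surjective f
    have h := BJG_of_mem (Classical.choose_spec (C.comm_TD_mem hI i) f)
    simp only [qder_mk]
    rw [← map_sub, h, map_add, map_sum, map_sum]
    congr 1

end Cal

end Pool.Agent.RFS.BB
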