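import Pool.Agent.RFS.BGS
import Pool.Agent.RFS.BSF

/-!
# RFS, chunk (b), module BRE: the retraction onto the orthonormal frames; tangency

Proofs.
* `Phi_eq`: matrix multiplication, `Matrix.mul_apply`, `Finset.sum_comm`.
* `Phi_posDef`: `aᵀ G a` is positive definite for invertible `a` (`Matrix.PosDef.conjTranspose_mul_mul_same`
  or directly from the definition), symmetric.
* `oset_sub`: from `aᵀ G a = 1` the determinant of `a` is non-zero.
* `retr_mem`: `(a c)ᵀ G (a c) = cᵀ (aᵀ G a) c = 1` (`cgs_spec`).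
* `retr_eq`: `Phi = one3`, `cgs_one`, `fmul a one3 = a`.
* `smooth_retr`: `smooth_Phi`, `contDiffAt_cgs`, products.
* `fderivWithin_retr`: product rule for `fmul`: the derivative of the third component in the direction `w`
  is `fmul w.2.2 (cgs (Phi q)) + fmul q.2.2 (d cgs (d Phi w))`, `Phi q = one3`, `d Phi w = 0`.
* `deriv_congr`: near `q` within `wset` we have `F ∘ retr = F' ∘ retr` (`retr` maps `wset` to `oset`,
  is continuous and `retr q = q`), so by the chain rule (`fderivWithin_comp`, unique derivatives)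
  `fderivWithin F q (fderivWithin retr q w) = fderivWithin F' q (fderivWithin retr q w)` and
  `fderivWithin retr q w = w`.
* `slice_congr`: the same with the retraction in the variables `(x, a)` at fixed time `t`:
  `ρ (x, a) = (retr G (t, x, a)).2` is differentiable at `(x, a)` and its derivative maps `(v, w)` to
  `(v, w)`; here `(0, v, w)` is tangent.
-/

open scoped Manifold ContDiff Matrix
open Set MeasureTheory
open scoped Topology

noncomputable section

namespace Pool.Agent.RFS.BB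

theorem Phi_eq (G : ℝ → E3 → Mat3) (q : Qs) :
    Matrix.of (Phi G q) = (Matrix.of q.2.2)ᵀ * G q.1 q.2.1 * Matrix.of q.2.2 := by
  ext i j
  rw [Matrix.mul_apply]
  simp only [Matrix.mul_apply, Matrix.transpose_apply, Matrix.of_apply, Phi, Finset.sum_mul]
  rw [Finset.sum_comm]

theorem one3_eq : Matrix.of one3 = 1 := by
  ext i j
  simp [one3, Matrix.one_apply]

private theorem BRE_fmul_one (a : Fm) : fmul a one3 = a := by
  funext i j
  simp [fmul, one3]

private theorem BRE_fmul_eq (a c : Fm) : Matrix.of (fmul a c) = Matrix.of a * Matrix.of c := by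
  ext i j
  simp [fmul, Matrix.mul_apply]

namespace LMet

variable {b : ℝ} {U : Set E3} {G : ℝ → E3 → Mat3}

theorem Phi_symm (h : LMet b U G) {q : Qs} (hq : q ∈ wset b U) (i j : Fin 3) :
    Phi G q i j = Phi G q j i := by
  have h1 : (Matrix.of (Phi G q))ᵀ = Matrix.of (Phi G q) := by
    rw [Phi_eq, Matrix.transpose_mul, Matrix.transpose_mul, Matrix.transpose_transpose,
      h.symm q.1 hq.1 q.2.1 hq.2.1, Matrix.mul_assoc]
  have := congrFun (congrFun h1 j) i
  simpa using this

theorem Phi_posDef (h : LMet b U G) {q : Qs} (hq : q ∈ wset b U) :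
    (Matrix.of (Phi G q)).PosDef := by
  rw [Phi_eq]
  have hp := h.posDef q.1 hq.1 q.2.1 hq.2.1
  have hinj : Function.Injective (Matrix.of q.2.2).mulVec :=
    Matrix.mulVec_injective_iff_isUnit.mpr
      ((Matrix.isUnit_iff_isUnit_det _).mpr (isUnit_iff_ne_zero.mpr hq.2.2))
  have := hp.conjTranspose_mul_mul_same hinj
  rwa [Matrix.conjTranspose_eq_transpose_of_trivial] at this

theorem oset_sub (h : LMet b U G) : oset b U G ⊆ wset b U := by
  rintro q ⟨h1, h2, h3⟩
  refine ⟨h1, h2, ?_⟩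
  show (Matrix.of q.2.2).det ≠ 0
  intro h0
  have h4 := Phi_eq G q
  rw [h3, one3_eq] at h4
  have h5 := congrArg Matrix.det h4
  rw [Matrix.det_one, Matrix.det_mul, h0, mul_zero] at h5
  exact one_ne_zero h5

theorem retr_mem (h : LMet b U G) {q : Qs} (hq : q ∈ wset b U) : retr G q ∈ oset b U G := by
  refine ⟨hq.1, hq.2.1, ?_⟩
  have h1 := Phi_eq G (retr G q)
  have h2 : Matrix.of (retr G q).2.2 = Matrix.of q.2.2 * Matrix.of (cgs (Phi G q)) :=
    BRE_fmul_eq _ _
  have h3 : G (retr G q).1 (retr G q).2.1 = G q.1 q.2.1 := rfl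
  rw [h2, h3, Matrix.transpose_mul] at h1
  have h4 : (Matrix.of (cgs (Phi G q)))ᵀ * (Matrix.of q.2.2)ᵀ * G q.1 q.2.1 *
      (Matrix.of q.2.2 * Matrix.of (cgs (Phi G q))) =
      (Matrix.of (cgs (Phi G q)))ᵀ * Matrix.of (Phi G q) * Matrix.of (cgs (Phi G q)) := by
    rw [Phi_eq]
    simp only [Matrix.mul_assoc]
  rw [h4, cgs_spec (fun i j => h.Phi_symm hq i j) (h.Phi_posDef hq), ← one3_eq] at h1
  exact Matrix.of.injective h1

theorem retr_eq {q : Qs} (hq : q ∈ oset b U G) : retr G q = q := by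
  show (q.1, q.2.1, fmul q.2.2 (cgs (Phi G q))) = q
  rw [hq.2.2, cgs_one, BRE_fmul_one]

/-- the retraction as a function of the frame and the Gram matrix -/
private def BRE_R (p : Qs × Fm) : Qs := (p.1.1, p.1.2.1, fmul p.1.2.2 (cgs p.2))

private theorem BRE_R_smooth {p : Qs × Fm} (hs : ∀ i j, p.2 i j = p.2 j i)
    (hp : (Matrix.of p.2).PosDef) : ContDiffAt ℝ ∞ BRE_R p := by
  have hc : ContDiffAt ℝ ∞ (fun p : Qs × Fm => cgs p.2) p :=
    ContDiffAt.comp p (contDiffAt_cgs hs hp) contDiffAt_snd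
  refine ContDiffAt.prodMk (contDiffAt_fst.fst) (ContDiffAt.prodMk (contDiffAt_fst.snd.fst) ?_)
  rw [contDiffAt_pi]
  intro i
  rw [contDiffAt_pi]
  intro j
  show ContDiffAt ℝ ∞ (fun p : Qs × Fm => ∑ k, p.1.2.2 i k * cgs p.2 k j) p
  refine ContDiffAt.sum fun k _ => ContDiffAt.mul ?_ ?_
  · have h1 : ContDiffAt ℝ ∞ (fun p : Qs × Fm => p.1.2.2) p := contDiffAt_fst.snd.snd
    exact (contDiffAt_pi.mp (contDiffAt_pi.mp h1 i)) k
  · exact (contDiffAt_pi.mp (contDiffAt_pi.mp hc k)) j

theorem smooth_retr (h : LMet b U G) : ContDiffOn ℝ ∞ (retr G) (wset b U) := by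
  intro q hq
  have h1 : ContDiffAt ℝ ∞ BRE_R (q, Phi G q) :=
    BRE_R_smooth (fun i j => h.Phi_symm hq i j) (h.Phi_posDef hq)
  exact h1.comp_contDiffWithinAt q (contDiffWithinAt_id.prodMk (h.smooth_Phi q hq))

private theorem BRE_hasF (h : LMet b U G) {q : Qs} (hq : q ∈ wset b U) :
    HasFDerivWithinAt (retr G) (fderivWithin ℝ (retr G) (wset b U) q) (wset b U) q :=
  ((h.smooth_retr q hq).differentiableWithinAt (by simp)).hasFDerivWithinAt

theorem fderivWithin_retr (h : LMet b U G) {q : Qs} (hq : q ∈ oset b U G) {w : Qs}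
    (hw : fderivWithin ℝ (Phi G) (wset b U) q w = 0) :
    fderivWithin ℝ (retr G) (wset b U) q w = w := by
  have hqw := h.oset_sub hq
  have hR : HasFDerivAt BRE_R (fderiv ℝ BRE_R (q, Phi G q)) (q, Phi G q) :=
    ((BRE_R_smooth (p := (q, Phi G q)) (fun i j => h.Phi_symm hqw i j)
      (h.Phi_posDef hqw)).differentiableAt (by simp)).hasFDerivAt
  have hP : HasFDerivWithinAt (Phi G) (fderivWithin ℝ (Phi G) (wset b U) q) (wset b U) q :=
    ((h.smooth_Phi q hqw).differentiableWithinAt (by simp)).hasFDerivWithinAt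
  have h1 : HasFDerivWithinAt (retr G) ((fderiv ℝ BRE_R (q, Phi G q)).comp
      ((ContinuousLinearMap.id ℝ Qs).prod (fderivWithin ℝ (Phi G) (wset b U) q)))
      (wset b U) q :=
    HasFDerivAt.comp_hasFDerivWithinAt (g := BRE_R) (f := fun p : Qs => ((p, Phi G p) : Qs × Fm))
      q hR ((hasFDerivWithinAt_id q _).prodMk hP)
  rw [h1.fderivWithin (uniqueDiffOn_wset h.pos_b h.open_U q hqw)]
  have h2 : HasFDerivAt (fun p : Qs => BRE_R (p, Phi G q))
      ((fderiv ℝ BRE_R (q, Phi G q)).comp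
        ((ContinuousLinearMap.id ℝ Qs).prod (0 : Qs →L[ℝ] Fm))) q :=
    HasFDerivAt.comp (g := BRE_R) (f := fun p : Qs => ((p, Phi G q) : Qs × Fm))
      q hR ((hasFDerivAt_id q).prodMk (hasFDerivAt_const (Phi G q) q))
  have h3 : (fun p : Qs => BRE_R (p, Phi G q)) = fun p => p := by
    funext p
    show (p.1, p.2.1, fmul p.2.2 (cgs (Phi G q))) = p
    rw [hq.2.2, cgs_one, BRE_fmul_one]
  rw [h3] at h2
  have h4 := h2.unique (hasFDerivAt_id q)
  have h5 := congrArg (fun L : Qs →L[ℝ] Qs => L w) h4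
  simp only [ContinuousLinearMap.comp_apply, ContinuousLinearMap.prod_apply,
    ContinuousLinearMap.id_apply, ContinuousLinearMap.zero_apply] at h5
  simp only [ContinuousLinearMap.comp_apply, ContinuousLinearMap.prod_apply,
    ContinuousLinearMap.id_apply, hw]
  exact h5

theorem deriv_congr (h : LMet b U G) {F F' : Qs → ℝ} {q : Qs} (hq : q ∈ oset b U G)
    (hF : DifferentiableWithinAt ℝ F (wset b U) q)
    (hF' : DifferentiableWithinAt ℝ F' (wset b U) q)
    (heq : ∀ᶠ q' in 𝓝[oset b U G] q, F q' = F' q') {w : Qs}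
    (hw : fderivWithin ℝ (Phi G) (wset b U) q w = 0) :
    fderivWithin ℝ F (wset b U) q w = fderivWithin ℝ F' (wset b U) q w := by
  have hqw := h.oset_sub hq
  have hr := BRE_hasF h hqw
  have hrq : retr G q = q := retr_eq hq
  have hmaps : MapsTo (retr G) (wset b U) (wset b U) := fun p hp => h.oset_sub (h.retr_mem hp)
  have ht : Filter.Tendsto (retr G) (𝓝[wset b U] q) (𝓝[oset b U G] q) := by
    rw [tendsto_nhdsWithin_iff]
    refine ⟨?_, ?_⟩
    · have := hr.continuousWithinAt
      unfold ContinuousWithinAt at this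
      rwa [hrq] at this
    · filter_upwards [self_mem_nhdsWithin] with p hp
      exact h.retr_mem hp
  have hev : ∀ᶠ p in 𝓝[wset b U] q, F (retr G p) = F' (retr G p) := ht.eventually heq
  have e1 : ∀ {F : Qs → ℝ}, DifferentiableWithinAt ℝ F (wset b U) q →
      HasFDerivWithinAt (fun p => F (retr G p)) ((fderivWithin ℝ F (wset b U) q).comp
        (fderivWithin ℝ (retr G) (wset b U) q)) (wset b U) q := by
    intro F hF
    have := hF.hasFDerivWithinAt
    rw [← hrq] at this
    have h2 := this.comp q hr hmaps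
    rw [hrq] at h2
    exact h2
  have h1 := e1 hF
  have h2 := (e1 hF').congr_of_eventuallyEq hev
    (by show F (retr G q) = F' (retr G q); rw [hrq]; exact heq.self_of_nhdsWithin hq)
  have h3 := (uniqueDiffOn_wset h.pos_b h.open_U q hqw).eq h1 h2
  have h4 := congrArg (fun L : Qs →L[ℝ] ℝ => L w) h3
  simp only [ContinuousLinearMap.comp_apply, h.fderivWithin_retr hq hw] at h4
  exact h4

theorem slice_congr (h : LMet b U G) {F : Qs → ℝ} {F' : E3 × Fm → ℝ} {t : ℝ} {y : E3 × Fm}
    (hq : (t, y) ∈ oset b U G) (hF : DifferentiableWithinAt ℝ F (wset b U) (t, y))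
    (hF' : DifferentiableAt ℝ F' y) (heq : ∀ y', (t, y') ∈ oset b U G → F (t, y') = F' y')
    {w : E3 × Fm} (hw : fderivWithin ℝ (Phi G) (wset b U) (t, y) (0, w) = 0) :
    fderivWithin ℝ F (wset b U) (t, y) (0, w) = fderiv ℝ F' y w := by
  have hqw := h.oset_sub hq
  have hr := BRE_hasF h hqw
  have hrq : retr G (t, y) = (t, y) := retr_eq hq
  have hmaps : MapsTo (retr G) (wset b U) (wset b U) := fun p hp => h.oset_sub (h.retr_mem hp)
  set S : Set (E3 × Fm) := U ×ˢ {a : Fm | (Matrix.of a).det ≠ 0} with hS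
  have hSo : IsOpen S := h.open_U.prod isOpen_inv
  have hyS : y ∈ S := hqw.2
  have hι : HasFDerivWithinAt (fun y' : E3 × Fm => ((t, y') : Qs))
      ((0 : (E3 × Fm) →L[ℝ] ℝ).prod (ContinuousLinearMap.id ℝ (E3 × Fm))) S y :=
    (hasFDerivWithinAt_const t y S).prodMk (hasFDerivWithinAt_id y S)
  have hιm : MapsTo (fun y' : E3 × Fm => ((t, y') : Qs)) S (wset b U) :=
    fun y' hy' => ⟨hq.1, hy'⟩
  have hrι : HasFDerivWithinAt (fun y' : E3 × Fm => retr G (t, y'))
      ((fderivWithin ℝ (retr G) (wset b U) (t, y)).comp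
        ((0 : (E3 × Fm) →L[ℝ] ℝ).prod (ContinuousLinearMap.id ℝ (E3 × Fm)))) S y :=
    hr.comp y hι hιm
  have hrιm : MapsTo (fun y' : E3 × Fm => retr G (t, y')) S (wset b U) :=
    fun y' hy' => hmaps (hιm hy')
  have hFr : HasFDerivWithinAt (fun y' : E3 × Fm => F (retr G (t, y')))
      ((fderivWithin ℝ F (wset b U) (t, y)).comp
        ((fderivWithin ℝ (retr G) (wset b U) (t, y)).comp
        ((0 : (E3 × Fm) →L[ℝ] ℝ).prod (ContinuousLinearMap.id ℝ (E3 × Fm))))) S y := by
    have h1 : HasFDerivWithinAt F (fderivWithin ℝ F (wset b U) (t, y)) (wset b U)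
        (retr G (t, y)) := by
      rw [hrq]; exact hF.hasFDerivWithinAt
    exact h1.comp y hrι hrιm
  have hFr' : HasFDerivWithinAt (fun y' : E3 × Fm => F' (retr G (t, y')).2)
      ((fderiv ℝ F' y).comp ((ContinuousLinearMap.snd ℝ ℝ (E3 × Fm)).comp
        ((fderivWithin ℝ (retr G) (wset b U) (t, y)).comp
        ((0 : (E3 × Fm) →L[ℝ] ℝ).prod (ContinuousLinearMap.id ℝ (E3 × Fm)))))) S y := by
    have h1 : HasFDerivAt F' (fderiv ℝ F' y) (retr G (t, y)).2 := by
      rw [hrq]; exact hF'.hasFDerivAt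
    have h2 : HasFDerivWithinAt (fun y' : E3 × Fm => (retr G (t, y')).2)
        ((ContinuousLinearMap.snd ℝ ℝ (E3 × Fm)).comp
        ((fderivWithin ℝ (retr G) (wset b U) (t, y)).comp
        ((0 : (E3 × Fm) →L[ℝ] ℝ).prod (ContinuousLinearMap.id ℝ (E3 × Fm))))) S y :=
      (hasFDerivAt_snd (p := retr G (t, y))).comp_hasFDerivWithinAt y hrι
    exact h1.comp_hasFDerivWithinAt y h2
  have hcong : ∀ y' ∈ S, F (retr G (t, y')) = F' (retr G (t, y')).2 := by
    intro y' hy'
    have hm := h.retr_mem (hιm hy')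
    have he : retr G (t, y') = (t, (retr G (t, y')).2) := rfl
    rw [he] at hm
    have := heq _ hm
    rw [← he] at this
    exact this
  have h2 := hFr'.congr hcong (hcong y hyS)
  have h3 := (hSo.uniqueDiffWithinAt hyS).eq hFr h2
  have h4 := congrArg (fun L : (E3 × Fm) →L[ℝ] ℝ => L w) h3
  simp only [ContinuousLinearMap.comp_apply, ContinuousLinearMap.prod_apply,
    ContinuousLinearMap.id_apply, ContinuousLinearMap.zero_apply,
    h.fderivWithin_retr hq hw, ContinuousLinearMap.coe_snd'] at h4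
  exact h4

end LMet

end Pool.Agent.RFS.BB
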