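import Pool.Agent.RFS.BCM
import Pool.Agent.RFS.BRE
import Pool.Agent.RFS.BJG

/-!
# RFS, chunk (b), module BTA: the ideal of the orthonormal frames; the local frame calculus

Proofs.
* `good`: `h_mem` by `cal_h` and the definition of `oset`; `D_mem` etc.: for `f` in the ideal and `q`
  in `oset`, `cal_D` gives `fderivWithin (ext0 f) (wset) q (hD G i q)`, which equals the same for the
  zero function by `deriv_congr` (`tangent_hD`), hence is `0`.  Similarly `T`, `V` (`tangent_hT`,
  `tangent_hV`).
-/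

open scoped Manifold ContDiff Matrix
open Set MeasureTheory

noncomputable section

namespace Pool.Agent.RFS.BB

namespace LMet

variable {b : ℝ} {U : Set E3} {G : ℝ → E3 → Mat3}

/-- The smooth functions which vanish on the orthonormal frames. -/
def ideal (h : LMet b U G) : Ideal (smAlg (wset b U)) where
  carrier := {f | ∀ q (hq : q ∈ oset b U G), f.1 ⟨q, h.oset_sub hq⟩ = 0}
  add_mem' := by
    intro f k hf hk q hq
    show f.1 ⟨q, h.oset_sub hq⟩ + k.1 ⟨q, h.oset_sub hq⟩ = 0
    rw [hf q hq, hk q hq, add_zero]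
  zero_mem' := by
    intro q hq
    rfl
  smul_mem' := by
    intro c f hf q hq
    show c.1 ⟨q, h.oset_sub hq⟩ * f.1 ⟨q, h.oset_sub hq⟩ = 0
    rw [hf q hq, mul_zero]

theorem mem_ideal (h : LMet b U G) (f : smAlg (wset b U)) :
    f ∈ h.ideal ↔ ∀ q (hq : q ∈ oset b U G), f.1 ⟨q, h.oset_sub hq⟩ = 0 := Iff.rfl

private theorem BTA_zero (h : LMet b U G) {f : smAlg (wset b U)} (hf : f ∈ h.ideal) {q : Qs}
    (hq : q ∈ oset b U G) {w : Qs} (hw : fderivWithin ℝ (Phi G) (wset b U) q w = 0) :
    fderivWithin ℝ (ext0 f.1) (wset b U) q w = 0 := by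
  have hqw := h.oset_sub hq
  have hd : DifferentiableWithinAt ℝ (ext0 f.1) (wset b U) q :=
    (f.2 q hqw).differentiableWithinAt (by simp)
  have h1 := h.deriv_congr hq hd (differentiableWithinAt_const (c := (0 : ℝ))) (by
    filter_upwards [self_mem_nhdsWithin] with p hp
    rw [ext0_apply f.1 (h.oset_sub hp)]
    exact hf p hp) hw
  rw [h1]
  simp

theorem good (h : LMet b U G) : h.cal.Good h.ideal where
  h_mem := by
    intro i j q hq
    have h1 : (if i = j then (1 : smAlg (wset b U)) else 0).1 ⟨q, h.oset_sub hq⟩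
        = one3 i j := by
      unfold one3
      split_ifs <;> rfl
    show (h.cal.h i j).1 ⟨q, h.oset_sub hq⟩
      - (if i = j then (1 : smAlg (wset b U)) else 0).1 ⟨q, h.oset_sub hq⟩ = 0
    rw [h.cal_h, h1, hq.2.2, sub_self]
  T_mem := by
    intro f hf q hq
    rw [h.cal_T]
    exact h.BTA_zero hf hq (h.tangent_hT (h.oset_sub hq))
  D_mem := by
    intro i f hf q hq
    rw [h.cal_D]
    exact h.BTA_zero hf hq (h.tangent_hD i (h.oset_sub hq))
  V_mem := by
    intro n f hf q hq
    rw [h.cal_V]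
    exact h.BTA_zero hf hq (h.tangent_hV n hq)

/-- The local frame calculus. -/
def lgalg (h : LMet b U G) : GAlg (smAlg (wset b U) ⧸ h.ideal) := (h.cal.jalg h.good).galg

end LMet

end Pool.Agent.RFS.BB
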