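import Pool.Agent.RFS.BDF

/-!
# RFS, chunk (b), module BTR: transfer of the calculus along a jointly injective family

Every field is an identity between elements built from `T, D, V, P, rho`, products, sums, real
multiples: apply `inj`, push `φ i` through (`map_sub`, `map_sum`, `map_mul`, `map_smul`, `hT`, ...)
and use the corresponding field of `S i`.
-/

open scoped Manifold ContDiff Matrix
open Set MeasureTheory

noncomputable section

namespace Pool.Agent.RFS.BB

/-- Transfer of the structure `GAlg`. -/
def GAlg.ofInj {A : Type*} [CommRing A] [Algebra ℝ A] {ι : Type*} {L : ι → Type*}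
    [∀ i, CommRing (L i)] [∀ i, Algebra ℝ (L i)] (S : ∀ i, GAlg (L i)) (φ : ∀ i, A →ₐ[ℝ] L i)
    (inj : ∀ f g : A, (∀ i, φ i f = φ i g) → f = g) (T : Derivation ℝ A A)
    (D V : Fin 3 → Derivation ℝ A A) (P rho : Fin 3 → Fin 3 → A)
    (hT : ∀ i f, φ i (T f) = (S i).T (φ i f))
    (hD : ∀ i k f, φ i (D k f) = (S i).D k (φ i f))
    (hV : ∀ i k f, φ i (V k f) = (S i).V k (φ i f))
    (hP : ∀ i k l, φ i (P k l) = (S i).P k l)
    (hrho : ∀ i k l, φ i (rho k l) = (S i).rho k l) : GAlg A where
  T := T
  D := D
  V := V
  P := P
  rho := rho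
  P_symm := by
    intro i j
    exact inj _ _ fun s => by rw [hP, hP, (S s).P_symm]
  rho_symm := by
    intro i j
    exact inj _ _ fun s => by rw [hrho, hrho, (S s).rho_symm]
  comm_VV := by
    intro m n f
    refine inj _ _ fun s => ?_
    simp only [map_sub, map_sum, map_smul, hV]
    exact (S s).comm_VV m n (φ s f)
  comm_VD := by
    intro n i f
    refine inj _ _ fun s => ?_
    simp only [map_sub, map_sum, map_smul, hV, hD]
    exact (S s).comm_VD n i (φ s f)
  V_P := by
    intro n i j
    refine inj _ _ fun s => ?_
    simp only [map_add, map_sum, map_smul, hV, hP]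
    exact (S s).V_P n i j
  V_rho := by
    intro n i j
    refine inj _ _ fun s => ?_
    simp only [map_add, map_sum, map_smul, hV, hrho]
    exact (S s).V_rho n i j
  comm_DD := by
    intro i j f
    refine inj _ _ fun s => ?_
    simp only [map_sub, map_sum, map_smul, map_mul, hV, hD, hP]
    exact (S s).comm_DD i j (φ s f)
  div_P := by
    intro j
    refine inj _ _ fun s => ?_
    simp only [map_zero, map_sum, hD, hP]
    exact (S s).div_P j
  comm_TV := by
    intro n f
    refine inj _ _ fun s => ?_
    simp only [hT, hV]
    exact (S s).comm_TV n (φ s f)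
  comm_TD := by
    intro i f
    refine inj _ _ fun s => ?_
    simp only [map_sub, map_add, map_sum, map_smul, map_mul, hT, hV, hD, hrho]
    exact (S s).comm_TD i (φ s f)
  T_P := by
    intro l n
    refine inj _ _ fun s => ?_
    simp only [map_sub, map_add, map_sum, map_smul, map_mul, hT, hD, hrho, hP]
    exact (S s).T_P l n

end Pool.Agent.RFS.BB
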