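import Pool.Agent.RFS.BPA
import Pool.Agent.RFS.BTA
import Pool.Agent.RFS.BTR

/-!
# RFS, chunk (b), module BGA: the frame calculus on the algebra `FA`

Proof.  `φ e = (Ideal.Quotient.mkₐ ℝ (hg.lmet e).ideal).comp (can g b e)`,
`GAlg.ofInj (fun e => (hg.lmet e).lgalg) φ`.
* `inj`: if `φ e f = φ e h` then `can e f - can e h ∈ ideal`, so `can0 f e q = can0 h e q` on `oset`,
  i.e. `f = h` at all points `frq g b e q` (`can0_eq`), and these are all points (`exists_frq`).
* `hD`: `φ e (D i f) = (lgalg).D i (φ e f)` says (`qder_mk`, `Ideal.Quotient.eq`) that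
  `can e (D i f) - cal.D i (can e f)` vanishes on `oset`: `can0_eq`, `der_apply`, `der0_rep` and
  `cal_D` (`ext0 (can e f).1` agrees with `can0 g b f.1 e` on `wset`, `fderivWithin_congr`).
  The same for `T`, `V` (`cal_T`, `cal_V`).
* `hP`, `hrho`: `PA_frq`, `rhoA_frq`, `cal_P`, `cal_rho`, `can0_eq` (note `gt g e t = (g t).c e`).
-/

open scoped Manifold ContDiff Matrix Topology
open Set MeasureTheory

noncomputable section

namespace Pool.Agent.RFS.BB

variable {M : Type*} [TopologicalSpace M] [ChartedSpace E3 M] [IsManifold (𝓡 3) ∞ M]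
  {g : ℝ → RMetric M} {b : ℝ} [Nonempty (Fr g b)]

/-- The local representation of the algebra. -/
def locA (hg : IsFam g b) (e : Ch M) :
    FA g b →ₐ[ℝ] (smAlg (wset b e.1.target) ⧸ (hg.lmet e).ideal) :=
  (Ideal.Quotient.mkₐ ℝ (hg.lmet e).ideal).comp (can g b e)

omit [IsManifold (𝓡 3) ∞ M] in
private theorem BGA_key (hg : IsFam g b) (e : Ch M) (f : FA g b)
    (x : smAlg (wset b e.1.target))
    (h : ∀ q (hq : q ∈ oset b e.1.target (gt g e)),
      f.1 (frq g b e q) = x.1 ⟨q, (hg.lmet e).oset_sub hq⟩) :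
    locA hg e f = Ideal.Quotient.mk (hg.lmet e).ideal x := by
  refine (Ideal.Quotient.mk_eq_mk_iff_sub_mem (I := (hg.lmet e).ideal) (can g b e f) x).2 ?_
  refine ((hg.lmet e).mem_ideal _).2 fun q hq => ?_
  show (can g b e f).1 ⟨q, (hg.lmet e).oset_sub hq⟩ - x.1 ⟨q, (hg.lmet e).oset_sub hq⟩ = 0
  rw [can_apply, ← h q hq]
  show can0 g b f.1 e q - f.1 (frq g b e q) = 0
  rw [can0_eq g b f.1 e hq, sub_self]

private theorem BGA_der (hg : IsFam g b) (e : Ch M) (N : NatField g b) (f : FA g b) {q : Qs}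
    (hq : q ∈ oset b e.1.target (gt g e)) : (N.der hg f).1 (frq g b e q) =
      fderivWithin ℝ (ext0 (can g b e f).1) (wset b e.1.target) q (N.X e q) := by
  have hqw := (hg.lmet e).oset_sub hq
  rw [N.der_apply hg, N.der0_rep hg f e hq]
  have h : ∀ y ∈ wset b e.1.target, can0 g b f.1 e y = ext0 (can g b e f).1 y := by
    intro y hy
    rw [ext0_apply _ hy, can_apply]
  rw [fderivWithin_congr h (h q hqw)]

theorem locA_inj (hg : IsFam g b) (f h : FA g b) (H : ∀ e, locA hg e f = locA hg e h) :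
    f = h := by
  refine FA_ext g b fun z => ?_
  obtain ⟨e, q, hq, rfl⟩ := exists_frq z
  have h1 := (Ideal.Quotient.mk_eq_mk_iff_sub_mem (I := (hg.lmet e).ideal)
    (can g b e f) (can g b e h)).1 (H e)
  have h2 : (can g b e f).1 ⟨q, (hg.lmet e).oset_sub hq⟩ -
      (can g b e h).1 ⟨q, (hg.lmet e).oset_sub hq⟩ = 0 := h1 q hq
  rw [can_apply, can_apply] at h2
  have h3 : can0 g b f.1 e q - can0 g b h.1 e q = 0 := h2
  rw [can0_eq g b f.1 e hq, can0_eq g b h.1 e hq] at h3
  exact sub_eq_zero.1 h3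

theorem locA_T (hg : IsFam g b) (e : Ch M) (f : FA g b) :
    locA hg e ((natT hg).der hg f) = ((hg.lmet e).lgalg).T (locA hg e f) := by
  have h1 : ((hg.lmet e).lgalg).T (locA hg e f) =
      Ideal.Quotient.mk (hg.lmet e).ideal ((hg.lmet e).cal.T (can g b e f)) :=
    qder_mk (hg.lmet e).cal.T (hg.lmet e).ideal (hg.lmet e).good.T_mem (can g b e f)
  rw [h1]
  refine BGA_key hg e _ _ fun q hq => ?_
  rw [BGA_der hg e (natT hg) f hq, (hg.lmet e).cal_T]
  rfl

theorem locA_D (hg : IsFam g b) (e : Ch M) (i : Fin 3) (f : FA g b) :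
    locA hg e ((natD hg i).der hg f) = ((hg.lmet e).lgalg).D i (locA hg e f) := by
  have h1 : ((hg.lmet e).lgalg).D i (locA hg e f) =
      Ideal.Quotient.mk (hg.lmet e).ideal ((hg.lmet e).cal.D i (can g b e f)) :=
    qder_mk ((hg.lmet e).cal.D i) (hg.lmet e).ideal ((hg.lmet e).good.D_mem i) (can g b e f)
  rw [h1]
  refine BGA_key hg e _ _ fun q hq => ?_
  rw [BGA_der hg e (natD hg i) f hq, (hg.lmet e).cal_D]
  rfl

theorem locA_V (hg : IsFam g b) (e : Ch M) (n : Fin 3) (f : FA g b) :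
    locA hg e ((natV hg n).der hg f) = ((hg.lmet e).lgalg).V n (locA hg e f) := by
  have h1 : ((hg.lmet e).lgalg).V n (locA hg e f) =
      Ideal.Quotient.mk (hg.lmet e).ideal ((hg.lmet e).cal.V n (can g b e f)) :=
    qder_mk ((hg.lmet e).cal.V n) (hg.lmet e).ideal ((hg.lmet e).good.V_mem n) (can g b e f)
  rw [h1]
  refine BGA_key hg e _ _ fun q hq => ?_
  rw [BGA_der hg e (natV hg n) f hq, (hg.lmet e).cal_V]
  rfl

theorem locA_P (hg : IsFam g b) (e : Ch M) (i j : Fin 3) :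
    locA hg e (PA hg i j) = ((hg.lmet e).lgalg).P i j := by
  refine BGA_key hg e _ _ fun q hq => ?_
  rw [PA_frq hg i j e hq, (hg.lmet e).cal_P]
  rfl

theorem locA_rho (hg : IsFam g b) (e : Ch M) (i j : Fin 3) :
    locA hg e (rhoA hg i j) = ((hg.lmet e).lgalg).rho i j := by
  refine BGA_key hg e _ _ fun q hq => ?_
  rw [rhoA_frq hg i j e hq, (hg.lmet e).cal_rho]

/-- The frame calculus of a smooth family of metrics. -/
def galgA (hg : IsFam g b) : GAlg (FA g b) :=
  GAlg.ofInj (fun e => (hg.lmet e).lgalg) (fun e => locA hg e) (locA_inj hg)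
    ((natT hg).der hg) (fun i => (natD hg i).der hg) (fun n => (natV hg n).der hg)
    (PA hg) (rhoA hg) (locA_T hg) (locA_D hg) (locA_V hg) (locA_P hg) (locA_rho hg)

end Pool.Agent.RFS.BB
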