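import Pool.Agent.RFS.BDF

/-!
# RFS, chunk (b), module BGS: the Gram-Schmidt matrix

`H` symmetric positive definite: `H 0 0 > 0`, `d2 > 0`, `d3 = det H > 0`
(`Matrix.PosDef` applied to `(1,0,0)`, to `(-H01, H00, 0)` (value `H00 * d2`), and
`Matrix.PosDef.det_pos`).

Proofs.
* `cgs_spec`: entry by entry (6 entries by symmetry): the numerators are polynomial identities:
  with `v0 = e0`, `v1 = (-H01, H00, 0)`, `v2 = (m0, m1, d2)` one has `vi H vj = 0` for `i ≠ j` and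
  `v0 H v0 = H00`, `v1 H v1 = H00 d2`, `v2 H v2 = d3 d2` (`ring` after using the symmetry of `H`);
  the `k`-th column of `cgs H` is `vk / √(vk H vk)`; `Real.mul_self_sqrt`, `field_simp`.
* `cgs_one`: `norm_num`.
* `contDiffAt_cgs`: each entry is a quotient of a polynomial by the square root of a positive
  polynomial (`ContDiffAt.sqrt`, `ContDiffAt.div`, `contDiffAt_pi`).
* `det_cgs`: from `cgs_spec`: `det c ^ 2 * det H = 1`.
-/

open scoped Manifold ContDiff Matrix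
open Set MeasureTheory

noncomputable section

namespace Pool.Agent.RFS.BB

/-- The three minors are positive. -/
private theorem BGS_pos {H : Fm} (hs : ∀ i j, H i j = H j i) (hp : (Matrix.of H).PosDef) :
    0 < H 0 0 ∧ 0 < H 0 0 * H 1 1 - H 0 1 * H 0 1 ∧
      0 < (H 0 1 * H 1 2 - H 0 2 * H 1 1) * H 0 2 + (H 0 1 * H 0 2 - H 0 0 * H 1 2) * H 1 2
        + (H 0 0 * H 1 1 - H 0 1 * H 0 1) * H 2 2 := by
  have h0 : 0 < H 0 0 := hp.diag_pos (i := 0)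
  have h10 := hs 1 0
  have h20 := hs 2 0
  have h21 := hs 2 1
  have h1 : 0 < H 0 0 * H 1 1 - H 0 1 * H 0 1 := by
    have h := hp.dotProduct_mulVec_pos (x := ![-H 0 1, H 0 0, 0]) (by
      intro h
      have := congrFun h 1
      simp at this
      exact h0.ne' this)
    simp only [dotProduct, Matrix.mulVec, Fin.sum_univ_three, Pi.star_apply, star_trivial,
      Matrix.of_apply, Matrix.cons_val_zero, Matrix.cons_val_one, Matrix.cons_val] at h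
    rw [h10] at h
    have e : 0 < H 0 0 * (H 0 0 * H 1 1 - H 0 1 * H 0 1) := by
      calc (0 : ℝ) < _ := h
        _ = _ := by ring
    exact (mul_pos_iff_of_pos_left h0).1 e
  refine ⟨h0, h1, ?_⟩
  have h := hp.dotProduct_mulVec_pos (x := ![H 0 1 * H 1 2 - H 0 2 * H 1 1,
    H 0 1 * H 0 2 - H 0 0 * H 1 2, H 0 0 * H 1 1 - H 0 1 * H 0 1]) (by
      intro h
      have := congrFun h 2
      simp at this
      exact h1.ne' this)
  simp only [dotProduct, Matrix.mulVec, Fin.sum_univ_three, Pi.star_apply, star_trivial,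
    Matrix.of_apply, Matrix.cons_val_zero, Matrix.cons_val_one, Matrix.cons_val] at h
  rw [h10, h20, h21] at h
  have e : 0 < (H 0 0 * H 1 1 - H 0 1 * H 0 1) *
      ((H 0 1 * H 1 2 - H 0 2 * H 1 1) * H 0 2 + (H 0 1 * H 0 2 - H 0 0 * H 1 2) * H 1 2
        + (H 0 0 * H 1 1 - H 0 1 * H 0 1) * H 2 2) := by
    calc (0 : ℝ) < _ := h
      _ = _ := by ring
  exact (mul_pos_iff_of_pos_left h1).1 e

private theorem BGS_sq {x : ℝ} (hx : 0 < x) : x * (√x)⁻¹ * (√x)⁻¹ = 1 := by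
  have h1 : √x ≠ 0 := (Real.sqrt_pos.2 hx).ne'
  have h2 : √x * √x = x := Real.mul_self_sqrt hx.le
  calc x * (√x)⁻¹ * (√x)⁻¹ = (√x * √x) * (√x)⁻¹ * (√x)⁻¹ := by rw [h2]
    _ = 1 := by field_simp

theorem cgs_spec {H : Fm} (hs : ∀ i j, H i j = H j i) (hp : (Matrix.of H).PosDef) :
    (Matrix.of (cgs H))ᵀ * Matrix.of H * Matrix.of (cgs H) = 1 := by
  obtain ⟨h0, h1, h2⟩ := BGS_pos hs hp
  have h10 := hs 1 0
  have h20 := hs 2 0
  have h21 := hs 2 1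
  have r0 := BGS_sq h0
  have r1 := BGS_sq (mul_pos h0 h1)
  have r2 := BGS_sq (mul_pos h2 h1)
  have hc : cgs H = ![![(√(H 0 0))⁻¹,
      -H 0 1 * (√(H 0 0 * (H 0 0 * H 1 1 - H 0 1 * H 0 1)))⁻¹,
      (H 0 1 * H 1 2 - H 0 2 * H 1 1) *
      (√(((H 0 1 * H 1 2 - H 0 2 * H 1 1) * H 0 2 + (H 0 1 * H 0 2 - H 0 0 * H 1 2) * H 1 2
        + (H 0 0 * H 1 1 - H 0 1 * H 0 1) * H 2 2) * (H 0 0 * H 1 1 - H 0 1 * H 0 1)))⁻¹],
      ![0, H 0 0 * (√(H 0 0 * (H 0 0 * H 1 1 - H 0 1 * H 0 1)))⁻¹,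
      (H 0 1 * H 0 2 - H 0 0 * H 1 2) *
      (√(((H 0 1 * H 1 2 - H 0 2 * H 1 1) * H 0 2 + (H 0 1 * H 0 2 - H 0 0 * H 1 2) * H 1 2
        + (H 0 0 * H 1 1 - H 0 1 * H 0 1) * H 2 2) * (H 0 0 * H 1 1 - H 0 1 * H 0 1)))⁻¹],
      ![0, 0, (H 0 0 * H 1 1 - H 0 1 * H 0 1) *
      (√(((H 0 1 * H 1 2 - H 0 2 * H 1 1) * H 0 2 + (H 0 1 * H 0 2 - H 0 0 * H 1 2) * H 1 2
        + (H 0 0 * H 1 1 - H 0 1 * H 0 1) * H 2 2) * (H 0 0 * H 1 1 - H 0 1 * H 0 1)))⁻¹]] := by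
    simp only [cgs, div_eq_mul_inv, one_mul]
  rw [hc]
  generalize (√(H 0 0))⁻¹ = t0 at *
  generalize (√(H 0 0 * (H 0 0 * H 1 1 - H 0 1 * H 0 1)))⁻¹ = t1 at *
  generalize (√(((H 0 1 * H 1 2 - H 0 2 * H 1 1) * H 0 2 + (H 0 1 * H 0 2 - H 0 0 * H 1 2) * H 1 2
        + (H 0 0 * H 1 1 - H 0 1 * H 0 1) * H 2 2) * (H 0 0 * H 1 1 - H 0 1 * H 0 1)))⁻¹ = t2 at *
  ext i j
  fin_cases i <;> fin_cases j <;>
    simp only [Matrix.mul_apply, Fin.sum_univ_three, Matrix.transpose_apply, Matrix.of_apply,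
      Fin.zero_eta, Fin.mk_one, Fin.reduceFinMk, Matrix.cons_val_zero,
      Matrix.cons_val_one, Matrix.cons_val, h10, h20, h21]
  · rw [Matrix.one_apply_eq]; linear_combination r0
  · rw [Matrix.one_apply_ne (by decide)]; ring
  · rw [Matrix.one_apply_ne (by decide)]; ring
  · rw [Matrix.one_apply_ne (by decide)]; ring
  · rw [Matrix.one_apply_eq]; linear_combination r1
  · rw [Matrix.one_apply_ne (by decide)]; ring
  · rw [Matrix.one_apply_ne (by decide)]; ring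
  · rw [Matrix.one_apply_ne (by decide)]; ring
  · rw [Matrix.one_apply_eq]; linear_combination r2

theorem cgs_one : cgs one3 = one3 := by
  funext i j
  fin_cases i <;> fin_cases j <;> simp [cgs, one3]

theorem contDiffAt_cgs {H : Fm} (hs : ∀ i j, H i j = H j i) (hp : (Matrix.of H).PosDef) :
    ContDiffAt ℝ ∞ cgs H := by
  obtain ⟨h0, h1, h2⟩ := BGS_pos hs hp
  have c : ∀ i j : Fin 3, ContDiffAt ℝ ∞ (fun K : Fm => K i j) H := fun i j =>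
    (contDiff_apply_apply ℝ ℝ i j).contDiffAt
  have d2 : ContDiffAt ℝ ∞ (fun K : Fm => K 0 0 * K 1 1 - K 0 1 * K 0 1) H :=
    ((c 0 0).mul (c 1 1)).sub ((c 0 1).mul (c 0 1))
  have m0 : ContDiffAt ℝ ∞ (fun K : Fm => K 0 1 * K 1 2 - K 0 2 * K 1 1) H :=
    ((c 0 1).mul (c 1 2)).sub ((c 0 2).mul (c 1 1))
  have m1 : ContDiffAt ℝ ∞ (fun K : Fm => K 0 1 * K 0 2 - K 0 0 * K 1 2) H :=
    ((c 0 1).mul (c 0 2)).sub ((c 0 0).mul (c 1 2))
  have d3 : ContDiffAt ℝ ∞ (fun K : Fm => (K 0 1 * K 1 2 - K 0 2 * K 1 1) * K 0 2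
      + (K 0 1 * K 0 2 - K 0 0 * K 1 2) * K 1 2 + (K 0 0 * K 1 1 - K 0 1 * K 0 1) * K 2 2) H :=
    ((m0.mul (c 0 2)).add (m1.mul (c 1 2))).add (d2.mul (c 2 2))
  have s0 : ContDiffAt ℝ ∞ (fun K : Fm => √(K 0 0)) H := (c 0 0).sqrt h0.ne'
  have s1 : ContDiffAt ℝ ∞ (fun K : Fm => √(K 0 0 * (K 0 0 * K 1 1 - K 0 1 * K 0 1))) H :=
    ((c 0 0).mul d2).sqrt (mul_pos h0 h1).ne'
  have s2 : ContDiffAt ℝ ∞ (fun K : Fm => √(((K 0 1 * K 1 2 - K 0 2 * K 1 1) * K 0 2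
      + (K 0 1 * K 0 2 - K 0 0 * K 1 2) * K 1 2 + (K 0 0 * K 1 1 - K 0 1 * K 0 1) * K 2 2)
      * (K 0 0 * K 1 1 - K 0 1 * K 0 1))) H :=
    (d3.mul d2).sqrt (mul_pos h2 h1).ne'
  have n0 : √(H 0 0) ≠ 0 := (Real.sqrt_pos.2 h0).ne'
  have n1 : √(H 0 0 * (H 0 0 * H 1 1 - H 0 1 * H 0 1)) ≠ 0 :=
    (Real.sqrt_pos.2 (mul_pos h0 h1)).ne'
  have n2 : √(((H 0 1 * H 1 2 - H 0 2 * H 1 1) * H 0 2
      + (H 0 1 * H 0 2 - H 0 0 * H 1 2) * H 1 2 + (H 0 0 * H 1 1 - H 0 1 * H 0 1) * H 2 2)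
      * (H 0 0 * H 1 1 - H 0 1 * H 0 1)) ≠ 0 := (Real.sqrt_pos.2 (mul_pos h2 h1)).ne'
  refine contDiffAt_pi.2 fun i => contDiffAt_pi.2 fun j => ?_
  fin_cases i <;> fin_cases j
  · exact contDiffAt_const.div s0 n0
  · exact (c 0 1).neg.div s1 n1
  · exact m0.div s2 n2
  · exact contDiffAt_const
  · exact (c 0 0).div s1 n1
  · exact m1.div s2 n2
  · exact contDiffAt_const
  · exact contDiffAt_const
  · exact d2.div s2 n2

theorem det_cgs {H : Fm} (hs : ∀ i j, H i j = H j i) (hp : (Matrix.of H).PosDef) :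
    (Matrix.of (cgs H)).det ≠ 0 := by
  intro h
  have h1 := congrArg Matrix.det (cgs_spec hs hp)
  rw [Matrix.det_mul, h, mul_zero, Matrix.det_one] at h1
  exact zero_ne_one h1

end Pool.Agent.RFS.BB
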