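import Pool.Agent.RFS.BDF

/-!
# RFS, chunk (b), module BJA: the Jacobi identity for `D, D, D`

Proofs (`z i j n = ∑ m, eps i j m • P n m`, `[D i, D j] f = ∑ n, z i j n * V n f`).
* `cancel_a`: if `∑ m-independent` combination vanishes after multiplication with the frame matrix it
  vanishes: from `∑ p, α p * a m p = 0` for all `m` and `ai_a` (multiply by `ai i m`, sum over `m`):
  `α i = 0`.
* `jac_DDD`: for every `f`,
  `∑_{cyclic (i,j,k)} (∑ n, D i (z j k n) * V n f - ∑ n, ∑ p, z j k n * (eps n i p • D p f)) = 0`.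
  It is `[D i,[D j,D k]] + cyclic = 0` (pure ring identity in the 12 elements `D D D f`), with
  `[D i, z V n] f = D i z * V n f + z * [D i, V n] f` and `comm_VD`.
* `P_symm`: apply `jac_DDD` with `(0,1,2)` to `f = x l`: `V n (x l) = 0`, `D p (x l) = a l p`; by
  `cancel_a`: `∑ i, ∑ n, P n i * eps n i p = 0` for all `p`, which are the three symmetries.
* `div_P`: apply it to `f = a m j`: the `D p`-part vanishes by `P_symm`, so
  `∑ n, (∑ i, D i (P n i)) * ∑ k, eps n j k • a m k = 0`, `cancel_a`: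
  `∑ n, (div P) n * eps n j k = 0` for all `j k`; choose `j, k` (e.g. `j = 1, k = 2` gives `n = 0`).
-/

open scoped Manifold ContDiff Matrix
open Set MeasureTheory

noncomputable section

namespace Pool.Agent.RFS.BB

namespace JAlg

variable {L : Type*} [CommRing L] [Algebra ℝ L] (J : JAlg L)

theorem cancel_a (α : Fin 3 → L) (h : ∀ m, ∑ p, α p * J.a m p = 0) (i : Fin 3) : α i = 0 := by
  have h1 : ∑ m, J.ai i m * ∑ p, α p * J.a m p = ∑ p, α p * ∑ m, J.ai i m * J.a m p := by
    simp only [Finset.mul_sum]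
    rw [Finset.sum_comm]
    refine Finset.sum_congr rfl fun _ _ => Finset.sum_congr rfl fun _ _ => ?_
    ring
  simp only [h, mul_zero, Finset.sum_const_zero, J.ai_a, mul_ite, mul_one,
    Finset.sum_ite_eq, Finset.mem_univ, if_true] at h1
  exact h1.symm

private theorem bja_DD (i j m : Fin 3) (hm : ∀ m', eps i j m' = if m' = m then 1 else 0)
    (f : L) : J.D i (J.D j f) - J.D j (J.D i f) = ∑ n, J.P n m * J.V n f := by
  rw [J.comm_DD]
  simp only [hm, ite_smul, one_smul, zero_smul]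
  rw [Finset.sum_comm]
  simp

private theorem bja_cyc (i j k : Fin 3) (hm : ∀ m', eps j k m' = if m' = i then 1 else 0)
    (f : L) : J.D i (J.D j (J.D k f)) - J.D i (J.D k (J.D j f)) -
      (J.D j (J.D k (J.D i f)) - J.D k (J.D j (J.D i f))) =
      ∑ n, J.D i (J.P n i) * J.V n f - ∑ n, ∑ p, J.P n i * (eps n i p • J.D p f) := by
  have h1 := congrArg (fun u => J.D i u) (J.bja_DD j k i hm f)
  have h2 := J.bja_DD j k i hm (J.D i f)
  simp only [map_sub, map_sum, Derivation.leibniz, smul_eq_mul] at h1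
  rw [h1, h2, ← Finset.sum_sub_distrib, ← Finset.sum_sub_distrib]
  refine Finset.sum_congr rfl fun n _ => ?_
  rw [← Finset.mul_sum, ← J.comm_VD]
  ring

theorem jac_DDD (f : L) :
    ∑ n, (J.D 0 (J.P n 0) + J.D 1 (J.P n 1) + J.D 2 (J.P n 2)) * J.V n f -
      ∑ n, ∑ i, ∑ p, J.P n i * (eps n i p • J.D p f) = 0 := by
  have e12 : ∀ m' : Fin 3, eps 1 2 m' = if m' = 0 then 1 else 0 := by
    intro m'
    fin_cases m' <;> simp [eps] <;> norm_num
  have e20 : ∀ m' : Fin 3, eps 2 0 m' = if m' = 1 then 1 else 0 := by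
    intro m'
    fin_cases m' <;> simp [eps] <;> norm_num
  have e01 : ∀ m' : Fin 3, eps 0 1 m' = if m' = 2 then 1 else 0 := by
    intro m'
    fin_cases m' <;> simp [eps] <;> norm_num
  have h0 := J.bja_cyc 0 1 2 e12 f
  have h1 := J.bja_cyc 1 2 0 e20 f
  have h2 := J.bja_cyc 2 0 1 e01 f
  have h3 : ∑ n, ∑ i, ∑ p, J.P n i * (eps n i p • J.D p f) =
      ∑ n, ∑ p, J.P n 0 * (eps n 0 p • J.D p f) + ∑ n, ∑ p, J.P n 1 * (eps n 1 p • J.D p f) +
      ∑ n, ∑ p, J.P n 2 * (eps n 2 p • J.D p f) := by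
    rw [← Finset.sum_add_distrib, ← Finset.sum_add_distrib]
    refine Finset.sum_congr rfl fun n _ => ?_
    rw [Fin.sum_univ_three]
  have h4 : ∑ n, (J.D 0 (J.P n 0) + J.D 1 (J.P n 1) + J.D 2 (J.P n 2)) * J.V n f =
      ∑ n, J.D 0 (J.P n 0) * J.V n f + ∑ n, J.D 1 (J.P n 1) * J.V n f +
      ∑ n, J.D 2 (J.P n 2) * J.V n f := by
    rw [← Finset.sum_add_distrib, ← Finset.sum_add_distrib]
    refine Finset.sum_congr rfl fun n _ => ?_
    ring
  rw [h3, h4]
  linear_combination -h0 - h1 - h2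

theorem P_symm (i j : Fin 3) : J.P i j = J.P j i := by
  have h : ∀ p, ∑ n, ∑ i, eps n i p • J.P n i = 0 := by
    refine fun p => J.cancel_a (fun p => ∑ n, ∑ i, eps n i p • J.P n i) (fun l => ?_) p
    have h1 := J.jac_DDD (J.x l)
    simp only [J.V_x, mul_zero, Finset.sum_const_zero, zero_sub, neg_eq_zero, J.D_x] at h1
    rw [← h1]
    simp only [Finset.sum_mul]
    rw [Finset.sum_comm]
    refine Finset.sum_congr rfl fun n _ => ?_
    rw [Finset.sum_comm]
    refine Finset.sum_congr rfl fun i _ => Finset.sum_congr rfl fun p _ => ?_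
    simp only [Algebra.smul_def]
    ring
  have h0 := h 0
  have h1 := h 1
  have h2 := h 2
  simp only [Fin.sum_univ_three, eps] at h0 h1 h2
  norm_num at h0 h1 h2
  have g0 : J.P 1 2 = J.P 2 1 := by linear_combination h0
  have g1 : J.P 0 2 = J.P 2 0 := by linear_combination -h1
  have g2 : J.P 0 1 = J.P 1 0 := by linear_combination h2
  fin_cases i <;> fin_cases j
  · rfl
  · exact g2
  · exact g1
  · exact g2.symm
  · rfl
  · exact g0
  · exact g1.symm
  · exact g0.symm
  · rfl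

theorem div_P (j : Fin 3) : ∑ i, J.D i (J.P i j) = 0 := by
  have hz : ∀ f, ∑ n, ∑ i, ∑ p, J.P n i * (eps n i p • J.D p f) = 0 := by
    intro f
    have g0 := J.P_symm 1 0
    have g1 := J.P_symm 2 0
    have g2 := J.P_symm 2 1
    simp only [Fin.sum_univ_three, Algebra.smul_def, g0, g1, g2]
    simp only [eps]
    norm_num
    ring
  have h : ∀ j k, ∑ n, eps n j k • (J.D 0 (J.P n 0) + J.D 1 (J.P n 1) + J.D 2 (J.P n 2)) = 0 := by
    intro j k
    refine J.cancel_a (fun k => ∑ n, eps n j k •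
      (J.D 0 (J.P n 0) + J.D 1 (J.P n 1) + J.D 2 (J.P n 2))) (fun m => ?_) k
    have h1 := J.jac_DDD (J.a m j)
    rw [hz, sub_zero] at h1
    rw [← h1]
    simp only [J.V_a, Finset.sum_mul, Finset.mul_sum]
    rw [Finset.sum_comm]
    refine Finset.sum_congr rfl fun n _ => Finset.sum_congr rfl fun k _ => ?_
    simp only [Algebra.smul_def]
    ring
  have h12 := h 1 2
  have h20 := h 2 0
  have h01 := h 0 1
  simp only [Fin.sum_univ_three, eps] at h12 h20 h01
  norm_num at h12 h20 h01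
  rw [Fin.sum_univ_three, J.P_symm 0 j, J.P_symm 1 j, J.P_symm 2 j]
  fin_cases j
  · exact h12
  · exact h20
  · exact h01

end JAlg

end Pool.Agent.RFS.BB
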