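import Pool.Agent.RFS.BJA

/-!
# RFS, chunk (b), module BJB: the Jacobi identity for `T, D, D`

Proof.  `z i j n = ∑ m, eps i j m • P n m`.  For all `f` (pure algebra from
`[T,[D i,D j]] = [[T,D i],D j] + [D i,[T,D j]]`, `comm_TV`, `comm_VD`, `comm_DD`):
LHS `= ∑ n, T (z i j n) * V n f`;
RHS `= ∑ p, rho i p * [D p, D j] f - ∑ p, D j (rho i p) * D p f + ∑ n, W i n * [V n, D j] f
 - ∑ n, D j (W i n) * V n f + ∑ p, rho j p * [D i, D p] f + ∑ p, D i (rho j p) * D p f
 + ∑ n, W j n * [D i, V n] f + ∑ n, D i (W j n) * V n f`.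
* `horiz`: apply it to `f = x l` (`V n (x l) = 0`) and use `cancel_a`.
* `W_eq`: `horiz` says `∑ n, (W i n eps n j p - W j n eps n i p) = D j (rho i p) - D i (rho j p)`.
  Put `Ω i j p = ∑ n, W i n eps n j p - (D j (rho p i) - D p (rho j i))`.  By `horiz` and
  `rho_symm`, `Ω i j p = Ω j i p`, and `Ω i j p = - Ω i p j`, hence `Ω = 0`
  (`Ω i j p = Ω j i p = -Ω j p i = -Ω p j i = Ω p i j = Ω i p j = -Ω i j p`, `2` is invertible).
  Then multiply by `eps n j p / 2` and sum.  (Or brute force with `fin_cases` and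
  `linear_combination` of the instances of `horiz`.)
* `vertical`: subtract `horiz` (multiplied by `D p f`) and apply to `f = a m q`, `cancel_a`, choose
  the indices; `∑ n, c n * ∑ k, eps n j k • a m k = 0` for all `m, j` gives `c = 0`.
-/

open scoped Manifold ContDiff Matrix
open Set MeasureTheory

noncomputable section

namespace Pool.Agent.RFS.BB

namespace JAlg

variable {L : Type*} [CommRing L] [Algebra ℝ L] (J : JAlg L)

private theorem BJB_e000 : eps 0 0 0 = 0 := by norm_num [eps]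
private theorem BJB_e001 : eps 0 0 1 = 0 := by norm_num [eps]
private theorem BJB_e002 : eps 0 0 2 = 0 := by norm_num [eps]
private theorem BJB_e010 : eps 0 1 0 = 0 := by norm_num [eps]
private theorem BJB_e011 : eps 0 1 1 = 0 := by norm_num [eps]
private theorem BJB_e012 : eps 0 1 2 = 1 := by norm_num [eps]
private theorem BJB_e020 : eps 0 2 0 = 0 := by norm_num [eps]
private theorem BJB_e021 : eps 0 2 1 = -1 := by norm_num [eps]
private theorem BJB_e022 : eps 0 2 2 = 0 := by norm_num [eps]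
private theorem BJB_e100 : eps 1 0 0 = 0 := by norm_num [eps]
private theorem BJB_e101 : eps 1 0 1 = 0 := by norm_num [eps]
private theorem BJB_e102 : eps 1 0 2 = -1 := by norm_num [eps]
private theorem BJB_e110 : eps 1 1 0 = 0 := by norm_num [eps]
private theorem BJB_e111 : eps 1 1 1 = 0 := by norm_num [eps]
private theorem BJB_e112 : eps 1 1 2 = 0 := by norm_num [eps]
private theorem BJB_e120 : eps 1 2 0 = 1 := by norm_num [eps]
private theorem BJB_e121 : eps 1 2 1 = 0 := by norm_num [eps]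
private theorem BJB_e122 : eps 1 2 2 = 0 := by norm_num [eps]
private theorem BJB_e200 : eps 2 0 0 = 0 := by norm_num [eps]
private theorem BJB_e201 : eps 2 0 1 = 1 := by norm_num [eps]
private theorem BJB_e202 : eps 2 0 2 = 0 := by norm_num [eps]
private theorem BJB_e210 : eps 2 1 0 = -1 := by norm_num [eps]
private theorem BJB_e211 : eps 2 1 1 = 0 := by norm_num [eps]
private theorem BJB_e212 : eps 2 1 2 = 0 := by norm_num [eps]
private theorem BJB_e220 : eps 2 2 0 = 0 := by norm_num [eps]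
private theorem BJB_e221 : eps 2 2 1 = 0 := by norm_num [eps]
private theorem BJB_e222 : eps 2 2 2 = 0 := by norm_num [eps]

private def BJB_z (i j n : Fin 3) : L := ∑ m, eps i j m • J.P n m

private theorem BJB_DD (i j : Fin 3) (f : L) :
    J.D i (J.D j f) - J.D j (J.D i f) = ∑ n, J.BJB_z i j n * J.V n f := by
  rw [J.comm_DD, Finset.sum_comm]
  refine Finset.sum_congr rfl fun n _ => ?_
  unfold BJB_z
  rw [Finset.sum_mul]
  refine Finset.sum_congr rfl fun m _ => ?_
  rw [smul_mul_assoc]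

private theorem BJB_main (i j : Fin 3) (f : L) :
    ∑ n, J.T (J.BJB_z i j n) * J.V n f =
      (∑ p, J.rho i p * ∑ n, J.BJB_z p j n * J.V n f)
      - (∑ p, J.D j (J.rho i p) * J.D p f)
      + (∑ n, J.W i n * ∑ k, eps n j k • J.D k f)
      - (∑ n, J.D j (J.W i n) * J.V n f)
      + (∑ p, J.D i (J.rho j p) * J.D p f)
      + (∑ p, J.rho j p * ∑ n, J.BJB_z i p n * J.V n f)
      + (∑ n, J.D i (J.W j n) * J.V n f)
      - (∑ n, J.W j n * ∑ k, eps n i k • J.D k f) := by
  have t1 := congrArg J.T (J.BJB_DD i j f)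
  have t2 := J.BJB_DD i j (J.T f)
  have t3 := J.comm_TD i (J.D j f)
  have t4 := J.comm_TD j (J.D i f)
  have t5 := congrArg (J.D i) (J.comm_TD j f)
  have t6 := congrArg (J.D j) (J.comm_TD i f)
  have t7 : ∀ p, _ := fun p => J.BJB_DD p j f
  have t8 : ∀ p, _ := fun p => J.BJB_DD i p f
  have t9 : ∀ n, _ := fun n => J.comm_VD n j f
  have t10 : ∀ n, _ := fun n => J.comm_VD n i f
  have tv : ∀ n, J.T (J.V n f) = J.V n (J.T f) := fun n => J.comm_TV n f
  have a0 := t7 0
  have a1 := t7 1
  have a2 := t7 2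
  have b0 := t8 0
  have b1 := t8 1
  have b2 := t8 2
  have c0 := t9 0
  have c1 := t9 1
  have c2 := t9 2
  have d0 := t10 0
  have d1 := t10 1
  have d2 := t10 2
  clear t7 t8 t9 t10
  simp only [Fin.sum_univ_three, map_sub, map_add, Derivation.leibniz, smul_eq_mul, tv]
    at t1 t2 t3 t4 t5 t6 a0 a1 a2 b0 b1 b2 c0 c1 c2 d0 d1 d2 ⊢
  linear_combination -t1 + t2 + t3 - t4 + t5 - t6 + J.rho i 0 * a0 + J.rho i 1 * a1
    + J.rho i 2 * a2 + J.rho j 0 * b0 + J.rho j 1 * b1 + J.rho j 2 * b2
    + J.W i 0 * c0 + J.W i 1 * c1 + J.W i 2 * c2 - J.W j 0 * d0 - J.W j 1 * d1 - J.W j 2 * d2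

theorem horiz (i j p : Fin 3) :
    ∑ n, (eps n j p • J.W i n - eps n i p • J.W j n) =
      J.D j (J.rho i p) - J.D i (J.rho j p) := by
  have h := J.cancel_a (fun p => ∑ n, (eps n j p • J.W i n - eps n i p • J.W j n)
    - (J.D j (J.rho i p) - J.D i (J.rho j p))) ?_ p
  · exact sub_eq_zero.mp h
  · intro l
    have hm := J.BJB_main i j (J.x l)
    simp only [J.V_x, J.D_x, mul_zero, Finset.sum_const_zero, Fin.sum_univ_three] at hm
    simp only [Fin.sum_univ_three]
    simp only [Algebra.smul_def] at hm ⊢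
    linear_combination -hm

private theorem BJB_half {x y : L} (h : x + x = y + y) : x = y := by
  have h2 : (1 / 2 : ℝ) • (x + x) = (1 / 2 : ℝ) • (y + y) := by rw [h]
  rw [← two_smul ℝ x, ← two_smul ℝ y, smul_smul, smul_smul] at h2
  norm_num at h2
  exact h2

theorem W_eq (i n : Fin 3) : J.W i n = ∑ p, ∑ q, eps p q n • J.D p (J.rho q i) := by
  have h012 := J.horiz 0 1 2
  have h120 := J.horiz 1 2 0
  have h201 := J.horiz 2 0 1
  have h020 := J.horiz 0 2 0
  have h010 := J.horiz 0 1 0
  have h101 := J.horiz 1 0 1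
  have h121 := J.horiz 1 2 1
  have h202 := J.horiz 2 0 2
  have h212 := J.horiz 2 1 2
  have s10 : J.rho 1 0 = J.rho 0 1 := J.rho_symm 1 0
  have s20 : J.rho 2 0 = J.rho 0 2 := J.rho_symm 2 0
  have s21 : J.rho 2 1 = J.rho 1 2 := J.rho_symm 2 1
  simp only [Fin.sum_univ_three, BJB_e000, BJB_e001, BJB_e002, BJB_e010, BJB_e011, BJB_e012, BJB_e020, BJB_e021, BJB_e022, BJB_e100, BJB_e101, BJB_e102, BJB_e110, BJB_e111, BJB_e112, BJB_e120, BJB_e121, BJB_e122, BJB_e200, BJB_e201, BJB_e202, BJB_e210, BJB_e211, BJB_e212, BJB_e220, BJB_e221, BJB_e222, zero_smul, one_smul, neg_smul,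
    s10, s20, s21, sub_zero, zero_sub, add_zero, zero_add, sub_self, neg_neg, sub_neg_eq_add]
    at h012 h120 h201 h020 h010 h101 h121 h202 h212
  fin_cases i <;> fin_cases n <;> simp only [Fin.sum_univ_three, Fin.zero_eta, Fin.mk_one,
    Fin.reduceFinMk, BJB_e000, BJB_e001, BJB_e002, BJB_e010, BJB_e011, BJB_e012, BJB_e020, BJB_e021, BJB_e022, BJB_e100, BJB_e101, BJB_e102, BJB_e110, BJB_e111, BJB_e112, BJB_e120, BJB_e121, BJB_e122, BJB_e200, BJB_e201, BJB_e202, BJB_e210, BJB_e211, BJB_e212, BJB_e220, BJB_e221, BJB_e222, zero_smul, one_smul, neg_smul,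
    s10, s20, s21, sub_zero, zero_sub, add_zero, zero_add]
  · exact BJB_half (by linear_combination h012 - h120 + h201)
  · linear_combination h020
  · linear_combination -h010
  · linear_combination -h121
  · exact BJB_half (by linear_combination h012 + h120 - h201)
  · linear_combination h101
  · linear_combination h212
  · linear_combination -h202
  · exact BJB_half (by linear_combination -h012 + h120 + h201)

theorem vertical (i j n : Fin 3) :
    ∑ m, eps i j m • J.T (J.P n m) =
      ∑ p, ∑ m, (J.rho i p * (eps p j m • J.P n m) + J.rho j p * (eps i p m • J.P n m))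
        - J.D j (J.W i n) + J.D i (J.W j n) := by
  -- the coefficients of the vertical part
  have key : ∀ f : L, ∑ n, (∑ m, eps i j m • J.T (J.P n m) -
      (∑ p, ∑ m, (J.rho i p * (eps p j m • J.P n m) + J.rho j p * (eps i p m • J.P n m))
        - J.D j (J.W i n) + J.D i (J.W j n))) * J.V n f = 0 := by
    intro f
    have hm := J.BJB_main i j f
    have q0 := J.horiz i j 0
    have q1 := J.horiz i j 1
    have q2 := J.horiz i j 2
    simp only [BJB_z, Fin.sum_univ_three, map_add, Derivation.map_smul] at hm q0 q1 q2 ⊢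
    simp only [Algebra.smul_def] at hm q0 q1 q2 ⊢
    linear_combination hm + J.D 0 f * q0 + J.D 1 f * q1 + J.D 2 f * q2
  have key2 : ∀ q k : Fin 3, ∑ n, eps n q k • (∑ m, eps i j m • J.T (J.P n m) -
      (∑ p, ∑ m, (J.rho i p * (eps p j m • J.P n m) + J.rho j p * (eps i p m • J.P n m))
        - J.D j (J.W i n) + J.D i (J.W j n))) = 0 := by
    intro q k
    refine J.cancel_a (fun k => ∑ n, eps n q k • (∑ m, eps i j m • J.T (J.P n m) -
      (∑ p, ∑ m, (J.rho i p * (eps p j m • J.P n m) + J.rho j p * (eps i p m • J.P n m))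
        - J.D j (J.W i n) + J.D i (J.W j n)))) (fun m => ?_) k
    have h := key (J.a m q)
    simp only [J.V_a] at h
    generalize hc : (fun n => (∑ m, eps i j m • J.T (J.P n m) -
      (∑ p, ∑ m, (J.rho i p * (eps p j m • J.P n m) + J.rho j p * (eps i p m • J.P n m))
        - J.D j (J.W i n) + J.D i (J.W j n)))) = c at h ⊢
    have hc' : ∀ n, (∑ m, eps i j m • J.T (J.P n m) -
      (∑ p, ∑ m, (J.rho i p * (eps p j m • J.P n m) + J.rho j p * (eps i p m • J.P n m))
        - J.D j (J.W i n) + J.D i (J.W j n))) = c n := fun n => congrFun hc n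
    simp only [hc'] at h ⊢
    simp only [Fin.sum_univ_three, Algebra.smul_def] at h ⊢
    linear_combination h
  generalize hc : (fun n => (∑ m, eps i j m • J.T (J.P n m) -
      (∑ p, ∑ m, (J.rho i p * (eps p j m • J.P n m) + J.rho j p * (eps i p m • J.P n m))
        - J.D j (J.W i n) + J.D i (J.W j n)))) = c at key2
  have hc' : ∀ n, (∑ m, eps i j m • J.T (J.P n m) -
      (∑ p, ∑ m, (J.rho i p * (eps p j m • J.P n m) + J.rho j p * (eps i p m • J.P n m))
        - J.D j (J.W i n) + J.D i (J.W j n))) = c n := fun n => congrFun hc n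
  simp only [hc'] at key2
  rw [← sub_eq_zero, hc' n]
  have k0 := key2 1 2
  have k1 := key2 2 0
  have k2 := key2 0 1
  simp only [Fin.sum_univ_three, BJB_e000, BJB_e001, BJB_e002, BJB_e010, BJB_e011, BJB_e012, BJB_e020, BJB_e021, BJB_e022, BJB_e100, BJB_e101, BJB_e102, BJB_e110, BJB_e111, BJB_e112, BJB_e120, BJB_e121, BJB_e122, BJB_e200, BJB_e201, BJB_e202, BJB_e210, BJB_e211, BJB_e212, BJB_e220, BJB_e221, BJB_e222, zero_smul, one_smul, neg_smul, add_zero, zero_add]
    at k0 k1 k2
  fin_cases n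
  · exact k0
  · exact k1
  · exact k2

end JAlg

end Pool.Agent.RFS.BB
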