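import Pool.Agent.RFS.BAL

/-!
# RFS, chunk (b), module BNF: natural vector fields and their derivations of the algebra `FA`

Proofs.
* `der0_eq`.  Let `z = frq g b e q`, `c = ch z.bs`; `z.bs = e.1.symm q.2.1`, so `q.2.1 ∈ ov e c`, and
  `coo c z = chg e c q =: q'` (`coo_frq`).  `der0 f z = fderivWithin (can0 f c) (wset c) q' (X c q')`
  and `X c q' = fderivWithin (chg e c) (wset e) q (X e q)` (`nat`).  The function
  `F₂ = can0 f c ∘ chg e c` is smooth on `wset b (ov e c)`, a neighbourhood of `q` within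
  `wset b e.1.target` (`ov e c` is open), and `F₂ = f ∘ frq e` on `oset` near `q` (`can0_eq`,
  `chg_mem_oset`, `frq_chg`).  By the chain rule (`fderivWithin_comp` on `wset b (ov e c)`,
  `fderivWithin_inter` / `fderivWithin_congr_set` to pass to `wset b e.1.target`)
  `fderivWithin F₂ (wset e) q (X e q) = fderivWithin (can0 f c) (wset c) q' (X c q')`, and by
  `LMet.deriv_congr` it equals `fderivWithin F (wset e) q (X e q)` (`tangent`).
* `der0_rep`: `der0_eq` with `F = can0 g b f e` (`can0_eq`, `smooth_can0`).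
* `der0_mem`: `mem_FA_of_rep` with `F q = fderivWithin (can0 f e) (wset e) q (X e q)`.
* `der`: additivity, `ℝ`-linearity and the Leibniz rule at the points `frq g b e q` (`exists_frq`) by
  `der0_rep`, `can0` is additive and multiplicative, `fderivWithin_add`, `fderivWithin_mul`.
-/

open scoped Manifold ContDiff Matrix Topology
open Set MeasureTheory

noncomputable section

namespace Pool.Agent.RFS.BB

variable {M : Type*} [TopologicalSpace M] [ChartedSpace E3 M]

/-- A natural smooth vector field on the full frame bundle, tangent to the orthonormal frames. -/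
structure NatField (g : ℝ → RMetric M) (b : ℝ) where
  X : Ch M → Qs → Qs
  smooth : ∀ e : Ch M, ContDiffOn ℝ ∞ (X e) (wset b e.1.target)
  tangent : ∀ e : Ch M, ∀ q ∈ oset b e.1.target (gt g e),
    fderivWithin ℝ (Phi (gt g e)) (wset b e.1.target) q (X e q) = 0
  nat : ∀ e e' : Ch M, ∀ q ∈ oset b e.1.target (gt g e), q.2.1 ∈ ov e e' →
    fderivWithin ℝ (chg e e') (wset b e.1.target) q (X e q) = X e' (chg e e' q)

namespace NatField

variable {g : ℝ → RMetric M} {b : ℝ} [Nonempty (Fr g b)]

/-- The derivative of `f` at the point `z`. -/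
def der0 (N : NatField g b) (f : Fr g b → ℝ) (z : Fr g b) : ℝ :=
  fderivWithin ℝ (can0 g b f (ch z.bs)) (wset b (ch z.bs).1.target) (coo (ch z.bs) z)
    (N.X (ch z.bs) (coo (ch z.bs) z))

variable [IsManifold (𝓡 3) ∞ M]

omit [Nonempty (Fr g b)] [IsManifold (𝓡 3) ∞ M] in
private theorem BNF_ud (hg : IsFam g b) (e : Ch M) : UniqueDiffOn ℝ (wset b e.1.target) :=
  uniqueDiffOn_wset hg.pos_b e.1.open_target

omit [Nonempty (Fr g b)] [IsManifold (𝓡 3) ∞ M] in
private theorem BNF_nhds (e e' : Ch M) {q : Qs}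
    (hx : q.2.1 ∈ ov e e') : wset b (ov e e') ∈ 𝓝[wset b e.1.target] q := by
  have h1 : {p : Qs | p.2.1 ∈ ov e e'} ∈ 𝓝 q :=
    (continuous_fst.comp continuous_snd).continuousAt.preimage_mem_nhds
      ((isOpen_ov e e').mem_nhds hx)
  have h2 : {p : Qs | p.2.1 ∈ ov e e'} ∩ wset b e.1.target ⊆ wset b (ov e e') := by
    rintro p ⟨hp1, hp2⟩
    exact ⟨hp2.1, hp1, hp2.2.2⟩
  refine Filter.mem_of_superset (Filter.inter_mem (mem_nhdsWithin_of_mem_nhds h1)
    self_mem_nhdsWithin) h2

theorem der0_eq (hg : IsFam g b) (N : NatField g b) (f : FA g b) (e : Ch M) {q : Qs}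
    (hq : q ∈ oset b e.1.target (gt g e)) (F : Qs → ℝ)
    (hF : DifferentiableWithinAt ℝ F (wset b e.1.target) q)
    (hFf : ∀ᶠ q' in 𝓝[oset b e.1.target (gt g e)] q, F q' = f.1 (frq g b e q')) :
    N.der0 f.1 (frq g b e q) = fderivWithin ℝ F (wset b e.1.target) q (N.X e q) := by
  have hl := hg.lmet e
  have hqw : q ∈ wset b e.1.target := hl.oset_sub hq
  obtain ⟨c, hc⟩ : ∃ c : Ch M, c = ch (frq g b e q).bs := ⟨_, rfl⟩
  have hx : q.2.1 ∈ ov e c := by
    refine ⟨hq.2.1, ?_⟩
    rw [hc, frq_bs e hq]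
    exact mem_source_ch _
  have hcoo : coo c (frq g b e q) = chg e c q := coo_frq e c hq hx
  have hq' : chg e c q ∈ oset b c.1.target (gt g c) := chg_mem_oset e c hq hx
  have hqw' : chg e c q ∈ wset b c.1.target := (hg.lmet c).oset_sub hq'
  have hW : wset b (ov e c) ∈ 𝓝[wset b e.1.target] q := BNF_nhds e c hx
  have hqo : q ∈ wset b (ov e c) := ⟨hqw.1, hx, hqw.2.2⟩
  have hsub : wset b (ov e c) ⊆ wset b e.1.target := fun p hp => ⟨hp.1, hp.2.1.1, hp.2.2⟩
  have h1 : HasFDerivWithinAt (chg e c) (fderivWithin ℝ (chg e c) (wset b e.1.target) q)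
      (wset b e.1.target) q :=
    ((((smooth_chg e c) q hqo).differentiableWithinAt (by simp)).mono_of_mem_nhdsWithin
      hW).hasFDerivWithinAt
  have h2 : HasFDerivWithinAt (can0 g b f.1 c)
      (fderivWithin ℝ (can0 g b f.1 c) (wset b c.1.target) (chg e c q)) (wset b c.1.target)
      (chg e c q) :=
    ((smooth_can0 g b f c (chg e c q) hqw').differentiableWithinAt (by simp)).hasFDerivWithinAt
  have h3 := h2.comp q (h1.mono hsub) (fun p hp => chg_mem_wset e c hp)
  have h4 := h3.mono_of_mem_nhdsWithin hW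
  have h5 : fderivWithin ℝ (can0 g b f.1 c ∘ chg e c) (wset b e.1.target) q (N.X e q)
      = fderivWithin ℝ (can0 g b f.1 c) (wset b c.1.target) (chg e c q)
        (N.X c (chg e c q)) := by
    rw [h4.fderivWithin (BNF_ud hg e q hqw), ← N.nat e c q hq hx]
    rfl
  have h6 : N.der0 f.1 (frq g b e q)
      = fderivWithin ℝ (can0 g b f.1 c) (wset b c.1.target) (chg e c q)
        (N.X c (chg e c q)) := by
    unfold der0
    rw [← hc, hcoo]
  have h7 : ∀ᶠ q' in 𝓝[oset b e.1.target (gt g e)] q, F q' = (can0 g b f.1 c ∘ chg e c) q' := by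
    have h8 : {p : Qs | p.2.1 ∈ ov e c} ∈ 𝓝[oset b e.1.target (gt g e)] q :=
      mem_nhdsWithin_of_mem_nhds ((continuous_fst.comp continuous_snd).continuousAt.preimage_mem_nhds
        ((isOpen_ov e c).mem_nhds hx))
    filter_upwards [hFf, self_mem_nhdsWithin, h8] with p hp1 hp2 hp3
    rw [hp1]
    show _ = can0 g b f.1 c (chg e c p)
    rw [can0_eq g b f.1 c (chg_mem_oset e c hp2 hp3), frq_chg e c hp2 hp3]
  rw [h6, ← h5]
  exact (hl.deriv_congr hq hF h4.differentiableWithinAt h7 (N.tangent e q hq)).symm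

theorem der0_rep (hg : IsFam g b) (N : NatField g b) (f : FA g b) (e : Ch M) {q : Qs}
    (hq : q ∈ oset b e.1.target (gt g e)) : N.der0 f.1 (frq g b e q) =
      fderivWithin ℝ (can0 g b f.1 e) (wset b e.1.target) q (N.X e q) := by
  refine N.der0_eq hg f e hq (can0 g b f.1 e)
    ((smooth_can0 g b f e q ((hg.lmet e).oset_sub hq)).differentiableWithinAt (by simp)) ?_
  filter_upwards [self_mem_nhdsWithin] with p hp
  exact can0_eq g b f.1 e hp

theorem der0_mem (hg : IsFam g b) (N : NatField g b) (f : FA g b) : N.der0 f.1 ∈ FA g b := by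
  refine mem_FA_of_rep g b hg _ fun e =>
    ⟨fun q => fderivWithin ℝ (can0 g b f.1 e) (wset b e.1.target) q (N.X e q), ?_,
      fun q hq => (N.der0_rep hg f e hq).symm⟩
  exact ((smooth_can0 g b f e).fderivWithin (BNF_ud hg e) (by simp)).clm_apply (N.smooth e)

omit [IsManifold (𝓡 3) ∞ M] in
private theorem BNF_diff (hg : IsFam g b) (f : FA g b) (e : Ch M) {q : Qs}
    (hq : q ∈ oset b e.1.target (gt g e)) :
    DifferentiableWithinAt ℝ (can0 g b f.1 e) (wset b e.1.target) q :=
  (smooth_can0 g b f e q ((hg.lmet e).oset_sub hq)).differentiableWithinAt (by simp)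

/-- The derivation of the algebra. -/
def der (hg : IsFam g b) (N : NatField g b) : Derivation ℝ (FA g b) (FA g b) :=
  Derivation.mk'
    { toFun := fun f => ⟨N.der0 f.1, N.der0_mem hg f⟩
      map_add' := by
        intro f h
        apply FA_ext
        intro z
        obtain ⟨e, q, hq, rfl⟩ := exists_frq z
        show N.der0 (f + h).1 (frq g b e q) = N.der0 f.1 (frq g b e q) + N.der0 h.1 (frq g b e q)
        rw [N.der0_rep hg (f + h) e hq, N.der0_rep hg f e hq, N.der0_rep hg h e hq]
        have h1 : can0 g b (f + h).1 e = can0 g b f.1 e + can0 g b h.1 e := rfl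
        rw [h1, fderivWithin_add (BNF_ud hg e q ((hg.lmet e).oset_sub hq)) (BNF_diff hg f e hq)
          (BNF_diff hg h e hq)]
        rfl
      map_smul' := by
        intro c f
        apply FA_ext
        intro z
        obtain ⟨e, q, hq, rfl⟩ := exists_frq z
        show N.der0 (c • f).1 (frq g b e q) = c * N.der0 f.1 (frq g b e q)
        rw [N.der0_rep hg (c • f) e hq, N.der0_rep hg f e hq]
        have h1 : can0 g b (c • f).1 e = c • can0 g b f.1 e := rfl
        rw [h1, fderivWithin_const_smul (BNF_ud hg e q ((hg.lmet e).oset_sub hq))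
          (BNF_diff hg f e hq)]
        rfl }
    (by
      intro f h
      apply FA_ext
      intro z
      obtain ⟨e, q, hq, rfl⟩ := exists_frq z
      show N.der0 (f * h).1 (frq g b e q) = f.1 (frq g b e q) * N.der0 h.1 (frq g b e q)
        + h.1 (frq g b e q) * N.der0 f.1 (frq g b e q)
      rw [N.der0_rep hg (f * h) e hq, N.der0_rep hg f e hq, N.der0_rep hg h e hq]
      have h1 : can0 g b (f * h).1 e = can0 g b f.1 e * can0 g b h.1 e := rfl
      rw [h1, fderivWithin_mul (BNF_ud hg e q ((hg.lmet e).oset_sub hq)) (BNF_diff hg f e hq)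
          (BNF_diff hg h e hq), ← can0_eq g b f.1 e hq, ← can0_eq g b h.1 e hq]
      rfl)

theorem der_apply (hg : IsFam g b) (N : NatField g b) (f : FA g b) (z : Fr g b) :
    (N.der hg f).1 z = N.der0 f.1 z := by
  rfl

end NatField

end Pool.Agent.RFS.BB
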