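import Pool.Agent.RFS.BNF

/-!
# RFS, chunk (b), module BNI: the natural fields `D i`, `V n`, `T`

Proofs.  `smooth`, `tangent`: module `BSF` (`IsFam.lmet`).  `nat`: derivative of
`chg e e' q = (q.1, φ q.2.1, J(q.2.1) q.2.2)` in the direction `(s, v, w)`:
`(s, fderiv φ v, fun m j => ∑ k, (fderiv (J m k) v * a k j + J m k * w k j))` (product rule; near `q`
within `wset b e.1.target`, `q.2.1 ∈ ov e e'` open).
* `V n`: `v = 0`, `J` commutes with the right multiplication.
* `D i`: `v = ∑ k, a k i • bv k`; `fderiv φ v = ∑ l (∑ k, J l k a k i) • bv l` (`fderiv_trans_bv`);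
  vertical part: `∑ r s, a r i a s j (pd r (J m s) - ∑ k, J m k Γ^k_rs) =
  - ∑ r s, a r i a s j ∑ k l, Γ'^m_kl J k r J l s` by `NN.chr_compat`.
* `T`: `v = 0`; `J G⁻¹ rdot a = G'⁻¹ rdot' J a`: `G = Jᵀ G' J`, `rdot = Jᵀ rdot' J` (differentiate
  `(g s).compat` in `s`, `rdot_compat`), `J` invertible (`jac_mul_jac`).
-/

open scoped Manifold ContDiff Matrix Topology
open Set MeasureTheory

noncomputable section

namespace Pool.Agent.RFS.BB

variable {M : Type*} [TopologicalSpace M] [ChartedSpace E3 M] [IsManifold (𝓡 3) ∞ M]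
  {g : ℝ → RMetric M} {b : ℝ}

/-- the derivative of the change of charts -/
private theorem BNI_chg (e e' : Ch M) {q : Qs} (hx : q.2.1 ∈ ov e e') :
    ∃ L : Qs →L[ℝ] Qs, HasFDerivAt (chg e e') L q ∧ ∀ X : Qs, L X =
      (X.1, fderiv ℝ (trans e e') q.2.1 X.2.1, fun m j => ∑ k,
        (jac e e' q.2.1 m k * X.2.2 k j
          + q.2.2 k j * fderiv ℝ (fun y => jac e e' y m k) q.2.1 X.2.1)) := by
  have h1 : HasFDerivAt (fun p : Qs => p.1) (ContinuousLinearMap.fst ℝ ℝ (E3 × Fm)) q :=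
    hasFDerivAt_fst
  have h2 : HasFDerivAt (fun p : Qs => p.2.1)
      ((ContinuousLinearMap.fst ℝ E3 Fm).comp (ContinuousLinearMap.snd ℝ ℝ (E3 × Fm))) q :=
    ((ContinuousLinearMap.fst ℝ E3 Fm).comp (ContinuousLinearMap.snd ℝ ℝ (E3 × Fm))).hasFDerivAt
  have h3 : ∀ k j : Fin 3, HasFDerivAt (fun p : Qs => p.2.2 k j)
      ((ContinuousLinearMap.proj (R := ℝ) (φ := fun _ : Fin 3 => ℝ) j).comp
        ((ContinuousLinearMap.proj (R := ℝ) (φ := fun _ : Fin 3 => Fin 3 → ℝ) k).comp
        ((ContinuousLinearMap.snd ℝ E3 Fm).comp (ContinuousLinearMap.snd ℝ ℝ (E3 × Fm))))) q :=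
    fun k j => ((ContinuousLinearMap.proj (R := ℝ) (φ := fun _ : Fin 3 => ℝ) j).comp
        ((ContinuousLinearMap.proj (R := ℝ) (φ := fun _ : Fin 3 => Fin 3 → ℝ) k).comp
        ((ContinuousLinearMap.snd ℝ E3 Fm).comp
          (ContinuousLinearMap.snd ℝ ℝ (E3 × Fm))))).hasFDerivAt
  have h4 := (differentiableAt_trans e e' hx).hasFDerivAt.comp q h2
  have h5 : ∀ m k : Fin 3, DifferentiableAt ℝ (fun y => jac e e' y m k) q.2.1 := fun m k =>
    ((contDiffOn_jac e e' m k).contDiffAt ((isOpen_ov e e').mem_nhds hx)).differentiableAt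
      (by simp)
  have h6 := fun m k : Fin 3 => (h5 m k).hasFDerivAt.comp q h2
  have h7 := fun m j : Fin 3 => HasFDerivAt.fun_sum (u := Finset.univ) fun (k : Fin 3) _ =>
    (h6 m k).mul (h3 k j)
  have h8 := hasFDerivAt_pi.2 fun m : Fin 3 => hasFDerivAt_pi.2 fun j : Fin 3 => h7 m j
  have h9 := h1.prodMk (h4.prodMk h8)
  refine ⟨_, h9, ?_⟩
  intro X
  refine Prod.ext rfl (Prod.ext rfl ?_)
  ext m j
  simp

private theorem BNI_fd (hg : IsFam g b) (e e' : Ch M) {q : Qs}
    (hq : q ∈ oset b e.1.target (gt g e)) (hx : q.2.1 ∈ ov e e') (X : Qs) :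
    fderivWithin ℝ (chg e e') (wset b e.1.target) q X =
      (X.1, fderiv ℝ (trans e e') q.2.1 X.2.1, fun m j => ∑ k,
        (jac e e' q.2.1 m k * X.2.2 k j
          + q.2.2 k j * fderiv ℝ (fun y => jac e e' y m k) q.2.1 X.2.1)) := by
  obtain ⟨L, hL, hL2⟩ := BNI_chg e e' hx
  have hud := uniqueDiffOn_wset hg.pos_b e.1.open_target q ((hg.lmet e).oset_sub hq)
  rw [hL.hasFDerivWithinAt.fderivWithin hud, hL2]

theorem rdot_compat (hg : IsFam g b) (e e' : Ch M) {t : ℝ} (ht : t ∈ Ico 0 b) {x : E3}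
    (hx : x ∈ ov e e') : rdot b (gt g e) t x =
      (jac e e' x)ᵀ * rdot b (gt g e') t (trans e e' x) * jac e e' x := by
  have hx' := (trans_mem e e' hx).1
  have hud : UniqueDiffWithinAt ℝ (Ico 0 b) t := uniqueDiffOn_Ico 0 b t ht
  have hd : ∀ i j : Fin 3, DifferentiableWithinAt ℝ
      (fun s => gt g e' s (trans e e' x) i j) (Ico 0 b) t := by
    intro i j
    have h1 := ((hg.smooth e' i j) (t, trans e e' x) ⟨ht, hx'⟩).differentiableWithinAt
      (by simp)
    have h2 : DifferentiableWithinAt ℝ (fun s : ℝ => (s, trans e e' x)) (Ico 0 b) t :=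
      (differentiableAt_id.prodMk (differentiableAt_const _)).differentiableWithinAt
    have h3 : MapsTo (fun s : ℝ => (s, trans e e' x)) (Ico 0 b) (Ico 0 b ×ˢ e'.1.target) :=
      fun s hs => ⟨hs, hx'⟩
    exact h1.comp t h2 h3
  ext i j
  have h3 : ∀ s, gt g e s x i j = ∑ k, ∑ l, jac e e' x k i * jac e e' x l j *
      gt g e' s (trans e e' x) k l := by
    intro s
    have h4 := (g s).compat e e' x hx.1 hx.2
    show (g s).c e x i j = _
    rw [h4]
    simp only [Matrix.mul_apply, Matrix.transpose_apply, Finset.sum_mul]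
    rw [Finset.sum_comm]
    refine Finset.sum_congr rfl fun k _ => Finset.sum_congr rfl fun l _ => ?_
    show _ = jac e e' x k i * jac e e' x l j * (g s).c e' (trans e e' x) k l
    ring
  have h5 : derivWithin (fun s => gt g e s x i j) (Ico 0 b) t = ∑ k, ∑ l,
      jac e e' x k i * jac e e' x l j *
        derivWithin (fun s => gt g e' s (trans e e' x) k l) (Ico 0 b) t := by
    have h6 : HasDerivWithinAt (fun s => ∑ k, ∑ l, jac e e' x k i * jac e e' x l j *
        gt g e' s (trans e e' x) k l) (∑ k, ∑ l,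
      jac e e' x k i * jac e e' x l j *
        derivWithin (fun s => gt g e' s (trans e e' x) k l) (Ico 0 b) t) (Ico 0 b) t :=
      HasDerivWithinAt.fun_sum fun k _ => HasDerivWithinAt.fun_sum fun l _ =>
        ((hd k l).hasDerivWithinAt).const_mul _
    rw [← h6.derivWithin hud]
    exact congrArg (fun f => derivWithin f (Ico 0 b) t) (funext h3)
  simp only [Matrix.mul_apply, Matrix.transpose_apply, rdot, Matrix.of_apply, h5]
  simp only [Finset.sum_mul, Finset.mul_sum]
  rw [Finset.sum_comm]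
  refine Finset.sum_congr rfl fun k _ => Finset.sum_congr rfl fun l _ => ?_
  ring

private theorem BNI_alg (J a : Fin 3 → Fin 3 → ℝ) (Γ Γ' : Fin 3 → Fin 3 → Fin 3 → ℝ)
    (H : Fin 3 → Fin 3 → Fin 3 → ℝ)
    (h : ∀ c i j, ∑ k, J c k * Γ k i j = H c i j + ∑ p, ∑ r, Γ' c p r * J p i * J r j)
    (i m j : Fin 3) :
    ∑ k, (J m k * (-∑ r, ∑ s, Γ k r s * a r i * a s j) + a k j * ∑ r, a r i * H m r k) =
      -∑ k, ∑ l, Γ' m k l * (∑ r, J k r * a r i) * (∑ s, J l s * a s j) := by
  have h1 : ∑ k, J m k * (-∑ r, ∑ s, Γ k r s * a r i * a s j) =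
      -∑ r, ∑ s, (∑ k, J m k * Γ k r s) * (a r i * a s j) := by
    simp only [Fin.sum_univ_three]
    ring
  rw [Finset.sum_add_distrib, h1]
  simp only [h]
  simp only [Fin.sum_univ_three]
  ring

/-- The horizontal fields. -/
def natD (hg : IsFam g b) (i : Fin 3) : NatField g b where
  X := fun e => hD (gt g e) i
  smooth := fun e => (hg.lmet e).smooth_hD i
  tangent := fun e _ hq => (hg.lmet e).tangent_hD i ((hg.lmet e).oset_sub hq)
  nat := by
    intro e e' q hq hx
    rw [BNI_fd hg e e' hq hx]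
    refine Prod.ext rfl (Prod.ext ?_ ?_)
    · show fderiv ℝ (trans e e') q.2.1 (∑ k, q.2.2 k i • bv k) =
        ∑ k, (∑ l, jac e e' q.2.1 k l * q.2.2 l i) • bv k
      rw [map_sum]
      simp only [map_smul, fderiv_trans_bv e e' hx, Finset.smul_sum, Finset.sum_smul, smul_smul]
      rw [Finset.sum_comm]
      refine Finset.sum_congr rfl fun k _ => Finset.sum_congr rfl fun l _ => ?_
      rw [mul_comm]
    · funext m j
      have h1 : ∀ k : Fin 3, fderiv ℝ (fun y => jac e e' y m k) q.2.1 (∑ r, q.2.2 r i • bv r) =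
          ∑ r, q.2.2 r i * pd r (fun y => jac e e' y m k) q.2.1 := by
        intro k
        rw [map_sum]
        refine Finset.sum_congr rfl fun r _ => ?_
        rw [map_smul]
        rfl
      show ∑ k, (jac e e' q.2.1 m k *
          (-∑ r, ∑ s, chr (gt g e q.1) q.2.1 k r s * q.2.2 r i * q.2.2 s j)
          + q.2.2 k j * fderiv ℝ (fun y => jac e e' y m k) q.2.1 (∑ r, q.2.2 r i • bv r)) =
        -∑ k, ∑ l, chr (gt g e' q.1) (trans e e' q.2.1) m k l *
          (∑ r, jac e e' q.2.1 k r * q.2.2 r i) * (∑ s, jac e e' q.2.1 l s * q.2.2 s j)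
      simp only [h1]
      exact BNI_alg (jac e e' q.2.1) q.2.2 (fun k r s => chr (gt g e q.1) q.2.1 k r s)
        (fun k r s => chr (gt g e' q.1) (trans e e' q.2.1) k r s)
        (fun c r s => pd r (fun y => jac e e' y c s) q.2.1)
        (fun c r s => NN.chr_compat (g q.1) e e' hx c r s) i m j

/-- The rotations. -/
def natV (hg : IsFam g b) (n : Fin 3) : NatField g b where
  X := fun _ => hV n
  smooth := fun _ => smooth_hV n _
  tangent := fun e _ hq => (hg.lmet e).tangent_hV n hq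
  nat := by
    intro e e' q hq hx
    rw [BNI_fd hg e e' hq hx]
    refine Prod.ext rfl (Prod.ext ?_ ?_)
    · show fderiv ℝ (trans e e') q.2.1 0 = 0
      rw [map_zero]
    · funext m j
      show ∑ k, (jac e e' q.2.1 m k * (∑ l, eps n j l * q.2.2 k l)
          + q.2.2 k j * fderiv ℝ (fun y => jac e e' y m k) q.2.1 0) =
        ∑ k, eps n j k * (∑ l, jac e e' q.2.1 m l * q.2.2 l k)
      simp only [map_zero, mul_zero, add_zero, Finset.mul_sum]
      rw [Finset.sum_comm]
      refine Finset.sum_congr rfl fun k _ => Finset.sum_congr rfl fun l _ => ?_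
      ring

/-- The time derivative. -/
def natT (hg : IsFam g b) : NatField g b where
  X := fun e => hT b (gt g e)
  smooth := fun e => (hg.lmet e).smooth_hT
  tangent := fun e _ hq => (hg.lmet e).tangent_hT ((hg.lmet e).oset_sub hq)
  nat := by
    intro e e' q hq hx
    rw [BNI_fd hg e e' hq hx]
    refine Prod.ext rfl (Prod.ext ?_ ?_)
    · show fderiv ℝ (trans e e') q.2.1 0 = 0
      rw [map_zero]
    · have h0 : jac e e' q.2.1 * (gt g e q.1 q.2.1)⁻¹ * (jac e e' q.2.1)ᵀ =
          (gt g e' q.1 (trans e e' q.2.1))⁻¹ :=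
        (NN.chg_of_metric (g q.1) e e').inv_law hx
      have h1 : jac e e' q.2.1 * ((gt g e q.1 q.2.1)⁻¹ * rdot b (gt g e) q.1 q.2.1) =
          ((gt g e' q.1 (trans e e' q.2.1))⁻¹ * rdot b (gt g e') q.1 (trans e e' q.2.1)) *
            jac e e' q.2.1 := by
        rw [rdot_compat hg e e' hq.1 hx, ← h0]
        simp only [Matrix.mul_assoc]
      have h2 : jac e e' q.2.1 * ((gt g e q.1 q.2.1)⁻¹ * rdot b (gt g e) q.1 q.2.1) *
          Matrix.of q.2.2 =
          ((gt g e' q.1 (trans e e' q.2.1))⁻¹ * rdot b (gt g e') q.1 (trans e e' q.2.1)) *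
            (jac e e' q.2.1 * Matrix.of q.2.2) := by
        rw [h1, Matrix.mul_assoc]
      funext m j
      have h3 := congrFun (congrFun h2 m) j
      show ∑ k, (jac e e' q.2.1 m k *
          (∑ l, (∑ p, (gt g e q.1 q.2.1)⁻¹ k p * rdot b (gt g e) q.1 q.2.1 p l) * q.2.2 l j)
          + q.2.2 k j * fderiv ℝ (fun y => jac e e' y m k) q.2.1 0) =
        ∑ l, (∑ p, (gt g e' q.1 (trans e e' q.2.1))⁻¹ m p *
          rdot b (gt g e') q.1 (trans e e' q.2.1) p l) *
          (∑ k, jac e e' q.2.1 l k * q.2.2 k j)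
      simp only [map_zero, mul_zero, add_zero]
      rw [Matrix.mul_assoc] at h3
      exact h3

end Pool.Agent.RFS.BB
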