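import Pool.Agent.RFS.BNI

/-!
# RFS, chunk (b), module BPA: tensors as elements of the algebra; `P` and `rho`

Proofs.  `tenA`: let `S e t x` be matrices with `S e t x = Jᵀ S e' t (φ x) J` on `ov e e'` (`t ∈ [0,b)`),
smooth in `(t, x)`.  The function `z ↦ (aᵀ S a) i j` (chart `ch z.bs`) is represented in every chart
`e` by `F q = (q.2.2ᵀ * S e q.1 q.2.1 * q.2.2) i j`: for `q ∈ oset`, `z = frq g b e q`, the coordinates
in `c = ch z.bs` are `chg e c q = (t, φ x, J a)` (`coo_frq`), and `(J a)ᵀ S_c (J a) = aᵀ S_e a`.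
Smooth: `smooth_lift`, products with the coordinates.  `mem_FA_of_rep`.
`P`: `S e t x = pten ((g t).c e) x`: `NN.pten_compat`, `LMet.smooth_pten`.
`rho`: `S e t x = rdot b (gt g e) t x`: `rdot_compat`, `LMet.smooth_rdot`.
-/

open scoped Manifold ContDiff Matrix Topology
open Set MeasureTheory

noncomputable section

namespace Pool.Agent.RFS.BB

variable {M : Type*} [TopologicalSpace M] [ChartedSpace E3 M] [IsManifold (𝓡 3) ∞ M]
  {g : ℝ → RMetric M} {b : ℝ} [Nonempty (Fr g b)]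

omit [IsManifold (𝓡 3) ∞ M] in
private theorem BPA_fm (e e' : Ch M) (q : Qs) :
    Matrix.of (chg e e' q).2.2 = jac e e' q.2.1 * Matrix.of q.2.2 := by
  ext m j
  rw [Matrix.mul_apply]
  rfl

private theorem BPA_tri (Y : Fm) (H : Mat3) (p j : Fin 3) :
    ((Matrix.of Y)ᵀ * H * Matrix.of Y) p j = ∑ k, ∑ l, Y k p * H k l * Y l j := by
  rw [Matrix.mul_apply, Finset.sum_comm]
  refine Finset.sum_congr rfl fun l _ => ?_
  rw [Matrix.mul_apply, Finset.sum_mul]
  rfl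

private theorem BPA_coord (m k : Fin 3) : ContDiff ℝ ∞ (fun q : Qs => q.2.2 m k) :=
  (contDiff_apply_apply ℝ ℝ m k).comp (contDiff_snd.comp contDiff_snd)

/-- the value of the tensor at a point of the bundle -/
private def BPA_val (S : Ch M → ℝ → E3 → Mat3) (i j : Fin 3) (z : Fr g b) : ℝ :=
  ((Matrix.of z.fm)ᵀ * S (ch z.bs) z.tm ((ch z.bs).1 z.bs) * Matrix.of z.fm) i j

private theorem BPA_frq (S : Ch M → ℝ → E3 → Mat3)
    (hc : ∀ e e' : Ch M, ∀ t ∈ Ico 0 b, ∀ x ∈ ov e e',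
      S e t x = (jac e e' x)ᵀ * S e' t (trans e e' x) * jac e e' x) (i j : Fin 3)
    (e : Ch M) (q : Qs) (hq : q ∈ oset b e.1.target (gt g e)) :
    ((Matrix.of q.2.2)ᵀ * S e q.1 q.2.1 * Matrix.of q.2.2) i j =
      BPA_val S i j (frq g b e q) := by
  set z := frq g b e q with hz
  have hb : z.bs = e.1.symm q.2.1 := frq_bs e hq
  have ht : z.tm = q.1 := frq_tm e hq
  have hov : q.2.1 ∈ ov e (ch z.bs) := by
    refine ⟨hq.2.1, ?_⟩
    rw [← hb]
    exact mem_source_ch _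
  have h1 : coo (ch z.bs) z = chg e (ch z.bs) q := coo_frq e (ch z.bs) hq hov
  have h2 : coo (ch z.bs) z = (z.tm, (ch z.bs).1 z.bs, z.fm) := by
    have h3 := chg_self (ch z.bs) (q := (z.tm, (ch z.bs).1 z.bs, z.fm))
      ((ch z.bs).1.map_source (mem_source_ch _))
    refine Prod.ext rfl (Prod.ext rfl ?_)
    show (chg (ch z.bs) (ch z.bs) (z.tm, (ch z.bs).1 z.bs, z.fm)).2.2 = z.fm
    rw [h3]
  rw [h2] at h1
  have e2 : (ch z.bs).1 z.bs = trans e (ch z.bs) q.2.1 := congrArg (fun w : Qs => w.2.1) h1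
  have e3 : z.fm = (chg e (ch z.bs) q).2.2 := congrArg (fun w : Qs => w.2.2) h1
  unfold BPA_val
  rw [e2, e3, BPA_fm, ht, Matrix.transpose_mul, hc e (ch z.bs) q.1 hq.1 q.2.1 hov]
  simp only [Matrix.mul_assoc]

theorem exists_tenA (hg : IsFam g b) (S : Ch M → ℝ → E3 → Mat3)
    (hs : ∀ e i j, ContDiffOn ℝ ∞ (fun q : ℝ × E3 => S e q.1 q.2 i j) (Ico 0 b ×ˢ e.1.target))
    (hc : ∀ e e' : Ch M, ∀ t ∈ Ico 0 b, ∀ x ∈ ov e e',
      S e t x = (jac e e' x)ᵀ * S e' t (trans e e' x) * jac e e' x) (i j : Fin 3) :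
    ∃ f : FA g b, ∀ (e : Ch M) (q : Qs), q ∈ oset b e.1.target (gt g e) →
      f.1 (frq g b e q) = ((Matrix.of q.2.2)ᵀ * S e q.1 q.2.1 * Matrix.of q.2.2) i j := by
  have hmem : BPA_val S i j ∈ FA g b := by
    refine mem_FA_of_rep g b hg _ fun e =>
      ⟨fun q => ∑ k, ∑ l, q.2.2 k i * S e q.1 q.2.1 k l * q.2.2 l j, ?_, fun q hq => ?_⟩
    · exact ContDiffOn.sum fun k _ => ContDiffOn.sum fun l _ =>
        ((BPA_coord k i).contDiffOn.mul (smooth_lift (hs e k l))).mul (BPA_coord l j).contDiffOn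
    · exact (BPA_tri q.2.2 (S e q.1 q.2.1) i j).symm.trans (BPA_frq S hc i j e q hq)
  exact ⟨⟨BPA_val S i j, hmem⟩, fun e q hq => (BPA_frq S hc i j e q hq).symm⟩

theorem exists_PA (hg : IsFam g b) (i j : Fin 3) :
    ∃ f : FA g b, ∀ (e : Ch M) (q : Qs), q ∈ oset b e.1.target (gt g e) → f.1 (frq g b e q) =
      ((Matrix.of q.2.2)ᵀ * pten ((g q.1).c e) q.2.1 * Matrix.of q.2.2) i j :=
  exists_tenA hg (fun e t x => pten ((g t).c e) x) (fun e k l => (hg.lmet e).smooth_pten k l)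
    (fun e e' t _ _ hx => NN.pten_compat (g t) e e' hx) i j

theorem exists_rhoA (hg : IsFam g b) (i j : Fin 3) :
    ∃ f : FA g b, ∀ (e : Ch M) (q : Qs), q ∈ oset b e.1.target (gt g e) → f.1 (frq g b e q) =
      ((Matrix.of q.2.2)ᵀ * rdot b (gt g e) q.1 q.2.1 * Matrix.of q.2.2) i j :=
  exists_tenA hg (fun e t x => rdot b (gt g e) t x) (fun e k l => (hg.lmet e).smooth_rdot k l)
    (fun e e' _ ht _ hx => rdot_compat hg e e' ht hx) i j

/-- The tensor `P`. -/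
def PA (hg : IsFam g b) (i j : Fin 3) : FA g b := Classical.choose (exists_PA hg i j)

theorem PA_frq (hg : IsFam g b) (i j : Fin 3) (e : Ch M) {q : Qs}
    (hq : q ∈ oset b e.1.target (gt g e)) : (PA hg i j).1 (frq g b e q) =
      ((Matrix.of q.2.2)ᵀ * pten ((g q.1).c e) q.2.1 * Matrix.of q.2.2) i j :=
  Classical.choose_spec (exists_PA hg i j) e q hq

/-- The tensor `rho = - (1 / 2) ∂ₜ g`. -/
def rhoA (hg : IsFam g b) (i j : Fin 3) : FA g b := Classical.choose (exists_rhoA hg i j)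

theorem rhoA_frq (hg : IsFam g b) (i j : Fin 3) (e : Ch M) {q : Qs}
    (hq : q ∈ oset b e.1.target (gt g e)) : (rhoA hg i j).1 (frq g b e q) =
      ((Matrix.of q.2.2)ᵀ * rdot b (gt g e) q.1 q.2.1 * Matrix.of q.2.2) i j :=
  Classical.choose_spec (exists_rhoA hg i j) e q hq

end Pool.Agent.RFS.BB
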