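import Pool.Agent.RFS.BDD

/-!
# RFS, chunk (b), module BQL: computations modulo the ideal

Proofs.
* `qder`: the linear map is `Submodule.mapQ` (or `Submodule.liftQ`) of `d` restricted to scalars `ℝ`;
  Leibniz rule and `map_one_eq_zero` by `Ideal.Quotient.mk_surjective`.
* `a_at_g`: in `B ⧸ I` the matrices `X = ((a_kq g_kl))` (rows `q`, columns `l`) and `a` satisfy
  `X * a = 1` (`Good.h_mem`), hence `a * X = 1` (`Matrix.mul_eq_one_comm`).
* `a_at`: multiply `a_at_g` by `gi l l'` and sum over `l` (`g_gi`).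
* `vert`: put `ζ q p = low w q p`.  Modulo `I`: `w m p = ∑ q, a m q * ζ q p` (`a_at_g`), and
  `ζ q p = ∑ n, z n * eps n p q`, `z n = (1/2) ∑ p q, eps n p q ζ q p` (as `ζ` is antisymmetric mod
  `I`: `∑ n, eps n p q eps n p' q' = δ_pp' δ_qq' - δ_pq' δ_qp'`), so
  `vec 0 0 w f = ∑ m p, w m p * da m p f = ∑ n, z n * (∑ m p q, eps n p q a m q da m p f)
  = ∑ n, z n * V n f`.
-/

open scoped Manifold ContDiff Matrix
open Set MeasureTheory

noncomputable section

namespace Pool.Agent.RFS.BB

private theorem bql_mk {B : Type*} [CommRing B] [Algebra ℝ B] (d : Derivation ℝ B B) (I : Ideal B)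
    (hd : ∀ f ∈ I, d f ∈ I) {f f' : B} (h : Ideal.Quotient.mk I f = Ideal.Quotient.mk I f') :
    Ideal.Quotient.mk I (d f) = Ideal.Quotient.mk I (d f') := by
  rw [Ideal.Quotient.mk_eq_mk_iff_sub_mem] at h ⊢
  rw [← map_sub]
  exact hd _ h

private theorem bql_inv {B : Type*} [CommRing B] (I : Ideal B) (q : B ⧸ I) :
    Ideal.Quotient.mk I (Function.surjInv Ideal.Quotient.mk_surjective q) = q :=
  Function.surjInv_eq _ q

/-- The derivation induced on the quotient by an invariant ideal. -/
def qder {B : Type*} [CommRing B] [Algebra ℝ B] (d : Derivation ℝ B B) (I : Ideal B)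
    (hd : ∀ f ∈ I, d f ∈ I) : Derivation ℝ (B ⧸ I) (B ⧸ I) :=
  Derivation.mk'
    { toFun := fun q => Ideal.Quotient.mk I (d (Function.surjInv Ideal.Quotient.mk_surjective q))
      map_add' := by
        intro p q
        rw [← map_add, ← map_add]
        refine bql_mk d I hd ?_
        rw [map_add, bql_inv, bql_inv, bql_inv]
      map_smul' := by
        intro c q
        simp only [RingHom.id_apply]
        have h1 : c • Ideal.Quotient.mk I (d (Function.surjInv Ideal.Quotient.mk_surjective q))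
            = Ideal.Quotient.mk I (d (c • Function.surjInv Ideal.Quotient.mk_surjective q)) := by
          rw [Derivation.map_smul]
          exact (map_smul (Ideal.Quotient.mkₐ ℝ I) c _).symm
        rw [h1]
        refine bql_mk d I hd ?_
        have h2 : Ideal.Quotient.mk I (c • Function.surjInv Ideal.Quotient.mk_surjective q)
            = c • Ideal.Quotient.mk I (Function.surjInv Ideal.Quotient.mk_surjective q) :=
          map_smul (Ideal.Quotient.mkₐ ℝ I) c _
        rw [h2, bql_inv, bql_inv] }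
    (by
      intro p q
      simp only [LinearMap.coe_mk, AddHom.coe_mk, smul_eq_mul]
      have h1 : Ideal.Quotient.mk I (Function.surjInv Ideal.Quotient.mk_surjective (p * q))
          = Ideal.Quotient.mk I (Function.surjInv Ideal.Quotient.mk_surjective p
            * Function.surjInv Ideal.Quotient.mk_surjective q) := by
        rw [map_mul, bql_inv, bql_inv, bql_inv]
      rw [bql_mk d I hd h1, Derivation.leibniz, map_add, smul_eq_mul, smul_eq_mul, map_mul,
        map_mul, bql_inv, bql_inv])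

theorem qder_mk {B : Type*} [CommRing B] [Algebra ℝ B] (d : Derivation ℝ B B) (I : Ideal B)
    (hd : ∀ f ∈ I, d f ∈ I) (f : B) :
    qder d I hd (Ideal.Quotient.mk I f) = Ideal.Quotient.mk I (d f) := by
  refine bql_mk d I hd ?_
  exact bql_inv I _

namespace Cal

variable {B : Type*} [CommRing B] [Algebra ℝ B] (C : Cal B) {I : Ideal B}

private theorem bql_mat (hI : C.Good I) :
    (Matrix.of fun m q => Ideal.Quotient.mk I (C.a m q))
      * ((Matrix.of fun m q => Ideal.Quotient.mk I (C.a m q))ᵀ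
        * (Matrix.of fun k l => Ideal.Quotient.mk I (C.g k l))) = 1 := by
  rw [mul_eq_one_comm]
  ext i j
  have h1 := hI.h_mem i j
  rw [← Ideal.Quotient.mk_eq_mk_iff_sub_mem] at h1
  simp only [Matrix.mul_apply, Matrix.transpose_apply, Matrix.of_apply, Matrix.one_apply,
    Finset.sum_mul]
  have h2 : Ideal.Quotient.mk I (if i = j then 1 else 0) = if i = j then 1 else 0 := by
    split_ifs <;> simp
  rw [h2] at h1
  rw [← h1]
  unfold h
  simp only [map_sum, map_mul]
  rw [Finset.sum_comm]

theorem a_at_g (hI : C.Good I) (m l : Fin 3) :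
    ∑ q, C.a m q * ∑ k, C.a k q * C.g k l - (if m = l then 1 else 0) ∈ I := by
  rw [← Ideal.Quotient.mk_eq_mk_iff_sub_mem]
  have h1 := congrFun (congrFun (bql_mat C hI) m) l
  simp only [Matrix.mul_apply, Matrix.transpose_apply, Matrix.of_apply, Matrix.one_apply] at h1
  simp only [map_sum, map_mul]
  rw [h1]
  split_ifs <;> simp

theorem a_at (hI : C.Good I) (m l : Fin 3) :
    ∑ q, C.a m q * C.a l q - C.gi m l ∈ I := by
  rw [← Ideal.Quotient.mk_eq_mk_iff_sub_mem]
  have h1 := bql_mat C hI
  have h2 : (Matrix.of fun k l => Ideal.Quotient.mk I (C.gi k l))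
      * (Matrix.of fun k l => Ideal.Quotient.mk I (C.g k l)) = 1 := by
    ext i j
    simp only [Matrix.mul_apply, Matrix.of_apply, Matrix.one_apply, ← map_mul, ← map_sum,
      C.gi_g i j]
    split_ifs <;> simp
  have h3 := mul_eq_one_comm.1 h2
  have h4 : (Matrix.of fun m q => Ideal.Quotient.mk I (C.a m q))
      * (Matrix.of fun m q => Ideal.Quotient.mk I (C.a m q))ᵀ
      = Matrix.of fun k l => Ideal.Quotient.mk I (C.gi k l) := by
    calc _ = (Matrix.of fun m q => Ideal.Quotient.mk I (C.a m q))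
      * (Matrix.of fun m q => Ideal.Quotient.mk I (C.a m q))ᵀ
        * ((Matrix.of fun k l => Ideal.Quotient.mk I (C.g k l))
          * (Matrix.of fun k l => Ideal.Quotient.mk I (C.gi k l))) := by rw [h3, mul_one]
      _ = (Matrix.of fun m q => Ideal.Quotient.mk I (C.a m q))
      * ((Matrix.of fun m q => Ideal.Quotient.mk I (C.a m q))ᵀ
        * (Matrix.of fun k l => Ideal.Quotient.mk I (C.g k l)))
          * (Matrix.of fun k l => Ideal.Quotient.mk I (C.gi k l)) := by
        simp only [Matrix.mul_assoc]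
      _ = _ := by rw [h1, one_mul]
  have h5 := congrFun (congrFun h4 m) l
  simp only [Matrix.mul_apply, Matrix.transpose_apply, Matrix.of_apply] at h5
  simp only [map_sum, map_mul]
  exact h5

private theorem bql_alg {L : Type*} [CommRing L] [Algebra ℝ L] (a : Fin 3 → L)
    (z : Fin 3 → Fin 3 → L) (F : Fin 3 → L) (hz : ∀ p q, z q p + z p q = 0) :
    ∑ p, (∑ q, a q * z q p) * F p = ∑ n, ((1 / 2 : ℝ) • ∑ p, ∑ q, eps n p q • z q p)
      * ∑ j, (∑ k, eps n j k • a k) * F j := by
  set c : L := algebraMap ℝ L (1 / 2) with hc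
  have h2 : 2 * c = 1 := by
    have h3 : (2 : L) = algebraMap ℝ L 2 := (map_ofNat _ 2).symm
    rw [hc, h3, ← map_mul]
    norm_num
  have h00 : z 0 0 = 0 := by linear_combination c * hz 0 0 - z 0 0 * h2
  have h11 : z 1 1 = 0 := by linear_combination c * hz 1 1 - z 1 1 * h2
  have h22 : z 2 2 = 0 := by linear_combination c * hz 2 2 - z 2 2 * h2
  have h01 : z 1 0 = -z 0 1 := by linear_combination hz 0 1
  have h02 : z 2 0 = -z 0 2 := by linear_combination hz 0 2
  have h12 : z 2 1 = -z 1 2 := by linear_combination hz 1 2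
  simp only [Algebra.smul_def, ← hc, Fin.sum_univ_three, eps, h00, h11, h22, h01, h02, h12]
  norm_num
  linear_combination (a 1 * z 0 1 * F 0 - a 1 * z 1 2 * F 2 - z 0 1 * a 0 * F 1
    + a 2 * z 0 2 * F 0 + a 2 * z 1 2 * F 1 - z 0 2 * a 0 * F 2) * h2

theorem vert (hI : C.Good I) (w : Fin 3 → Fin 3 → B)
    (hw : ∀ p q, C.low w q p + C.low w p q ∈ I) (f : B) :
    C.vec 0 0 w f -
      ∑ n, ((1 / 2 : ℝ) • ∑ p, ∑ q, eps n p q • C.low w q p) * C.V n f ∈ I := by
  rw [← Ideal.Quotient.mk_eq_mk_iff_sub_mem]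
  have hs : ∀ (c : ℝ) (u : B), Ideal.Quotient.mk I (c • u) = c • Ideal.Quotient.mk I u :=
    fun c u => map_smul (Ideal.Quotient.mkₐ ℝ I) c u
  set z : Fin 3 → Fin 3 → B ⧸ I := fun q p => Ideal.Quotient.mk I (C.low w q p) with hz
  have h1 : ∀ p q, z q p + z p q = 0 := by
    intro p q
    have h2 := hw p q
    rw [← Ideal.Quotient.eq_zero_iff_mem, map_add] at h2
    exact h2
  -- the components of `w`
  have h3 : ∀ m p, Ideal.Quotient.mk I (w m p)
      = ∑ q, Ideal.Quotient.mk I (C.a m q) * z q p := by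
    intro m p
    have h4 := congrArg (fun X => X * (Matrix.of fun l p => Ideal.Quotient.mk I (w l p)))
      (bql_mat C hI)
    simp only [one_mul, Matrix.mul_assoc] at h4
    have h5 := congrFun (congrFun h4 m) p
    simp only [Matrix.mul_apply, Matrix.transpose_apply, Matrix.of_apply] at h5
    rw [← h5]
    refine Finset.sum_congr rfl fun q _ => ?_
    congr 1
    rw [hz]
    unfold low
    simp only [map_sum, map_mul, Finset.mul_sum, mul_assoc]
  have h6 : Ideal.Quotient.mk I (C.vec 0 0 w f)
      = ∑ m, ∑ p, (∑ q, Ideal.Quotient.mk I (C.a m q) * z q p)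
        * Ideal.Quotient.mk I (C.da m p f) := by
    rw [C.vec_apply]
    simp only [Pi.zero_apply, zero_mul, Finset.sum_const_zero, zero_add, map_sum, map_mul, h3]
  have h7 : ∀ n, Ideal.Quotient.mk I (C.V n f) = ∑ m, ∑ j,
      (∑ k, eps n j k • Ideal.Quotient.mk I (C.a m k)) * Ideal.Quotient.mk I (C.da m j f) := by
    intro n
    unfold V
    rw [C.vec_apply]
    simp only [Pi.zero_apply, zero_mul, Finset.sum_const_zero, zero_add, map_sum, map_mul, hs]
  rw [h6]
  simp only [map_sum, map_mul, hs, h7]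
  have h8 : ∀ m, ∑ p, (∑ q, Ideal.Quotient.mk I (C.a m q) * z q p)
        * Ideal.Quotient.mk I (C.da m p f)
      = ∑ n, ((1 / 2 : ℝ) • ∑ p, ∑ q, eps n p q • z q p)
      * ∑ j, (∑ k, eps n j k • Ideal.Quotient.mk I (C.a m k))
        * Ideal.Quotient.mk I (C.da m j f) :=
    fun m => bql_alg (fun k => Ideal.Quotient.mk I (C.a m k)) z
      (fun j => Ideal.Quotient.mk I (C.da m j f)) h1
  rw [Finset.sum_congr rfl fun m _ => h8 m, Finset.sum_comm]
  refine Finset.sum_congr rfl fun n _ => ?_
  rw [← Finset.mul_sum]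

end Cal

end Pool.Agent.RFS.BB
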