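import Pool.Agent.RFS.BNI

/-!
# RFS, chunk (b), module BRO: rotations of the frames

`rotF Q (t, p, a) = (t, p, a Q)`, `rotq Q (t, x, a) = (t, x, a Q)`.

Proofs.
* `Phi_rotq`: `Phi (rotq Q q) = Qᵀ Phi(q) Q`.
* `frq_rot`: `(J a) Q = J (a Q)`, `Phi_rotq`, `Subtype.ext` (both sides by the values of `frq`, or via
  `frq_coo`).
* `rot_trans`: `Q = a⁻¹ a'`, `Qᵀ Q = 1` from `aᵀ G a = 1 = a'ᵀ G a'` (`G = (a⁻¹)ᵀ a⁻¹`).
* `RA`: `(RA Q f) z = f (rotF Q z)`; it is in `FA` by `mem_FA_of_rep` with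
  `F = can0 g b f e ∘ rotq Q`, smooth on `wset` (`rotq Q` is linear, maps `wset` to itself as
  `det (a Q) = det a * det Q ≠ 0`).
* `RA_der`: for natural fields `N, N'` with
  `fderivWithin (rotq Q) q (N.X e q) = N'.X e (rotq Q q)`: `der0_eq` with this `F` and the chain rule.
* `RA_D`: `rotq Q` is linear; `∑ j, Q j i • hD G j q` is mapped to `hD G i (rotq Q q)`; linearity of the
  derivative in the direction.  `RA_T`: `rotq Q (hT q) = hT (rotq Q q)` (vertical part).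
-/

open scoped Manifold ContDiff Matrix Topology
open Set MeasureTheory

noncomputable section

namespace Pool.Agent.RFS.BB

/-- Right multiplication of the frame. -/
def rotq (Q : O3) (q : Qs) : Qs := (q.1, q.2.1, fmul q.2.2 (fun i j => (Q : Mat3) i j))

private theorem BRO_orth (Q : O3) : (Q : Mat3)ᵀ * (Q : Mat3) = 1 := by
  have h := (Matrix.mem_orthogonalGroup_iff' (A := (Q : Mat3))).1 Q.2
  simpa [Matrix.star_eq_conjTranspose, Matrix.conjTranspose_eq_transpose_of_trivial] using h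

private theorem BRO_exQ (G A A' : Mat3) (hGs : Gᵀ = G) (e1 : Aᵀ * G * A = 1)
    (e2 : A'ᵀ * G * A' = 1) : ∃ Q : Mat3, Qᵀ * Q = 1 ∧ A * Q = A' := by
  have i1 : A * (Aᵀ * G) = 1 := mul_eq_one_comm.1 e1
  refine ⟨Aᵀ * G * A', ?_, ?_⟩
  · have h6 : A * Aᵀ * G = 1 := by rw [Matrix.mul_assoc]; exact i1
    have h7 : (Aᵀ * G * A')ᵀ * (Aᵀ * G * A') = A'ᵀ * Gᵀ * (A * Aᵀ * G) * A' := by
      rw [Matrix.transpose_mul, Matrix.transpose_mul, Matrix.transpose_transpose]
      simp only [Matrix.mul_assoc]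
    rw [h7, h6, hGs, Matrix.mul_one]
    exact e2
  · rw [← Matrix.mul_assoc, i1, Matrix.one_mul]

private theorem BRO_mat (Q : O3) (q : Qs) :
    Matrix.of (rotq Q q).2.2 = Matrix.of q.2.2 * (Q : Mat3) := by
  ext m n
  simp [rotq, fmul, Matrix.mul_apply]

theorem Phi_rotq (Q : O3) (G : ℝ → E3 → Mat3) {q : Qs} (hq : Phi G q = one3) :
    Phi G (rotq Q q) = one3 := by
  apply Matrix.of.injective
  have h1 := Phi_eq G q
  rw [hq, one3_eq] at h1
  rw [Phi_eq, BRO_mat, one3_eq, Matrix.transpose_mul]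
  have h3 : (rotq Q q).1 = q.1 := rfl
  have h4 : (rotq Q q).2.1 = q.2.1 := rfl
  rw [h3, h4]
  calc (Q : Mat3)ᵀ * (Matrix.of q.2.2)ᵀ * G q.1 q.2.1 * (Matrix.of q.2.2 * (Q : Mat3))
      = (Q : Mat3)ᵀ * ((Matrix.of q.2.2)ᵀ * G q.1 q.2.1 * Matrix.of q.2.2) * (Q : Mat3) := by
        simp only [Matrix.mul_assoc]
    _ = 1 := by rw [← h1, Matrix.mul_one, BRO_orth]

variable {M : Type*} [TopologicalSpace M] [ChartedSpace E3 M] [IsManifold (𝓡 3) ∞ M]
  {g : ℝ → RMetric M} {b : ℝ}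

/-- The rotation of a point of the bundle. -/
def rotF (Q : O3) (z : Fr g b) : Fr g b :=
  ⟨(z.1.1, z.1.2.1, fmul z.1.2.2 (fun i j => (Q : Mat3) i j)), z.2.1,
    Phi_rotq Q (gt g (ch z.1.2.1)) (q := (z.1.1, (ch z.1.2.1).1 z.1.2.1, z.1.2.2)) z.2.2⟩

theorem tm_rotF (Q : O3) (z : Fr g b) : (rotF Q z).tm = z.tm := rfl

theorem bs_rotF (Q : O3) (z : Fr g b) : (rotF Q z).bs = z.bs := rfl

theorem rot_transF (z z' : Fr g b) (h1 : z.tm = z'.tm) (h2 : z.bs = z'.bs) :
    ∃ Q, z' = rotF Q z := by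
  obtain ⟨⟨t, p, a⟩, hz⟩ := z
  obtain ⟨⟨t', p', a'⟩, hz'⟩ := z'
  have ht : t = t' := h1
  have hp : p = p' := h2
  subst ht
  subst hp
  have e1 := Phi_eq (gt g (ch p)) (t, (ch p).1 p, a)
  have e2 := Phi_eq (gt g (ch p)) (t, (ch p).1 p, a')
  rw [show Phi (gt g (ch p)) (t, (ch p).1 p, a) = one3 from hz.2, one3_eq] at e1
  rw [show Phi (gt g (ch p)) (t, (ch p).1 p, a') = one3 from hz'.2, one3_eq] at e2
  obtain ⟨Q, hQ1, hQ2⟩ := BRO_exQ (gt g (ch p) t ((ch p).1 p)) (Matrix.of a) (Matrix.of a')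
    ((g t).symm (ch p) _ ((ch p).1.map_source (mem_source_ch p))) e1.symm e2.symm
  refine ⟨⟨Q, (Matrix.mem_orthogonalGroup_iff' (A := Q)).2 hQ1⟩, ?_⟩
  apply Subtype.ext
  have h11 : a' = fmul a (fun i j => Q i j) := by
    apply Matrix.of.injective
    rw [← hQ2]
    rfl
  show (t, p, a') = (t, p, fmul a (fun i j => Q i j))
  rw [h11]

variable [Nonempty (Fr g b)]

private theorem BRO_mem (Q : O3) (e : Ch M) {q : Qs} (hq : q ∈ oset b e.1.target (gt g e)) :
    rotq Q q ∈ oset b e.1.target (gt g e) := ⟨hq.1, hq.2.1, Phi_rotq Q _ hq.2.2⟩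

private theorem BRO_chg (Q : O3) (e e' : Ch M) (t : ℝ) (x : E3) (a : Fm) :
    (chg e e' (t, x, fmul a (fun i j => (Q : Mat3) i j))).2.2 =
      fmul (chg e e' (t, x, a)).2.2 (fun i j => (Q : Mat3) i j) := by
  funext m j
  simp only [chg, fmul, Fin.sum_univ_three]
  ring

private theorem BRO_coo (Q : O3) (e : Ch M) (z : Fr g b) :
    coo e (rotF Q z) = rotq Q (coo e z) := by
  have h := BRO_chg Q (ch z.bs) e z.tm ((ch z.bs).1 z.bs) z.fm
  unfold coo rotq
  rw [tm_rotF, bs_rotF]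
  have h3 : (rotF Q z).fm = fmul z.fm (fun i j => (Q : Mat3) i j) := rfl
  rw [h3, h]

theorem frq_rot (Q : O3) (e : Ch M) {q : Qs} (hq : q ∈ oset b e.1.target (gt g e)) :
    rotF Q (frq g b e q) = frq g b e (rotq Q q) := by
  have hb : (frq g b e q).bs = e.1.symm q.2.1 := frq_bs e hq
  have hs : (rotF Q (frq g b e q)).bs ∈ e.1.source := by
    rw [bs_rotF, hb]
    exact e.1.map_target hq.2.1
  have h1 := frq_coo e hs
  rw [BRO_coo, coo_frq e e hq ⟨hq.2.1, e.1.map_target hq.2.1⟩, chg_self e hq.2.1] at h1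
  exact h1.symm

/-- `rotq Q` as a continuous linear map. -/
def rotL (Q : O3) : Qs →L[ℝ] Qs :=
  (ContinuousLinearMap.fst ℝ ℝ (E3 × Fm)).prod
    (((ContinuousLinearMap.fst ℝ E3 Fm).comp (ContinuousLinearMap.snd ℝ ℝ (E3 × Fm))).prod
      (ContinuousLinearMap.pi fun i => ContinuousLinearMap.pi fun j =>
        ∑ k, (Q : Mat3) k j • ((ContinuousLinearMap.proj k).comp
          ((ContinuousLinearMap.proj (R := ℝ) (φ := fun _ : Fin 3 => Fin 3 → ℝ) i).comp
          ((ContinuousLinearMap.snd ℝ E3 Fm).comp (ContinuousLinearMap.snd ℝ ℝ (E3 × Fm)))))))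

theorem rotL_apply (Q : O3) (q : Qs) : rotL Q q = rotq Q q := by
  refine Prod.ext rfl (Prod.ext rfl ?_)
  funext i j
  simp only [rotL, rotq, fmul, ContinuousLinearMap.prod_apply, ContinuousLinearMap.coe_pi',
    ContinuousLinearMap.sum_apply, ContinuousLinearMap.smul_apply, ContinuousLinearMap.comp_apply,
    ContinuousLinearMap.coe_snd', ContinuousLinearMap.proj_apply, smul_eq_mul]
  exact Finset.sum_congr rfl fun k _ => mul_comm _ _

theorem rotL_hD (Q : O3) (G : ℝ → E3 → Mat3) (i : Fin 3) (q : Qs) :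
    rotL Q (∑ j, (Q : Mat3) j i • hD G j q) = hD G i (rotq Q q) := by
  rw [rotL_apply]
  refine Prod.ext ?_ (Prod.ext ?_ ?_)
  · simp [rotq, hD, Fin.sum_univ_three]
  · simp only [rotq, hD, fmul, Prod.snd_sum, Prod.fst_sum, Prod.smul_snd, Prod.smul_fst]
    simp only [Fin.sum_univ_three, smul_add, smul_smul, add_smul]
    module
  · funext m n
    simp only [rotq, hD, fmul, Prod.snd_sum, Prod.fst_sum, Prod.smul_snd, Prod.smul_fst,
      Finset.sum_apply, Pi.smul_apply, smul_eq_mul]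
    simp only [Fin.sum_univ_three]
    ring

theorem rotL_hT (Q : O3) (b : ℝ) (G : ℝ → E3 → Mat3) (q : Qs) :
    rotL Q (hT b G q) = hT b G (rotq Q q) := by
  rw [rotL_apply]
  refine Prod.ext rfl (Prod.ext rfl ?_)
  funext m n
  simp only [rotq, hT, fmul]
  simp only [Fin.sum_univ_three]
  ring

theorem rotL_wset (Q : O3) {b : ℝ} {U : Set E3} {q : Qs} (hq : q ∈ wset b U) :
    rotL Q q ∈ wset b U := by
  rw [rotL_apply]
  refine ⟨hq.1, hq.2.1, ?_⟩
  have h1 : Matrix.of (rotq Q q).2.2 = Matrix.of q.2.2 * (Q : Mat3) := by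
    ext m n
    simp [rotq, fmul, Matrix.mul_apply]
  have h2 : (Q : Mat3).det ≠ 0 := by
    have h := (Matrix.mem_orthogonalGroup_iff' (A := (Q : Mat3))).1 Q.2
    intro h0
    have h3 := congrArg Matrix.det h
    rw [Matrix.det_mul, h0, mul_zero, Matrix.det_one] at h3
    exact zero_ne_one h3
  show (Matrix.of (rotq Q q).2.2).det ≠ 0
  rw [h1, Matrix.det_mul]
  exact mul_ne_zero hq.2.2 h2

theorem BRO_smooth (f : FA g b) (Q : O3) (e : Ch M) :
    ContDiffOn ℝ ∞ (fun q => can0 g b f.1 e (rotL Q q)) (wset b e.1.target) :=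
  (smooth_can0 g b f e).comp (rotL Q).contDiff.contDiffOn (fun _ hq => rotL_wset Q hq)

theorem BRO_rep (f : FA g b) (Q : O3) (e : Ch M) {q : Qs}
    (hq : q ∈ oset b e.1.target (gt g e)) :
    can0 g b f.1 e (rotL Q q) = f.1 (rotF Q (frq g b e q)) := by
  have h : rotq Q q ∈ oset b e.1.target (gt g e) := ⟨hq.1, hq.2.1, Phi_rotq Q _ hq.2.2⟩
  rw [rotL_apply, can0_eq g b f.1 e h, frq_rot Q e hq]

/-- The action of the rotations on the algebra. -/
def RA (hg : IsFam g b) (Q : O3) : FA g b →ₐ[ℝ] FA g b where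
  toFun := fun f => ⟨fun z => f.1 (rotF Q z), by
    exact mem_FA_of_rep g b hg _ fun e => ⟨_, BRO_smooth f Q e, fun q hq => BRO_rep f Q e hq⟩⟩
  map_one' := by
    rfl
  map_mul' := by
    intro f h
    rfl
  map_zero' := by
    rfl
  map_add' := by
    intro f h
    rfl
  commutes' := by
    intro r
    rfl

theorem RA_apply (hg : IsFam g b) (Q : O3) (f : FA g b) (z : Fr g b) :
    (RA hg Q f).1 z = f.1 (rotF Q z) := by
  rfl

theorem BRO_der (hg : IsFam g b) (N : NatField g b) (Q : O3) (f : FA g b) (e : Ch M) {q : Qs}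
    (hq : q ∈ oset b e.1.target (gt g e)) : (N.der hg (RA hg Q f)).1 (frq g b e q) =
      fderivWithin ℝ (can0 g b f.1 e) (wset b e.1.target) (rotq Q q) (rotL Q (N.X e q)) := by
  have hW := (hg.lmet e).oset_sub hq
  have hud : UniqueDiffOn ℝ (wset b e.1.target) := uniqueDiffOn_wset hg.pos_b e.1.open_target
  have hd : DifferentiableWithinAt ℝ (can0 g b f.1 e) (wset b e.1.target) (rotL Q q) :=
    (smooth_can0 g b f e).differentiableOn (by simp) _ (rotL_wset Q hW)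
  rw [N.der_apply, N.der0_eq hg (RA hg Q f) e hq (fun q => can0 g b f.1 e (rotL Q q))
    ((BRO_smooth f Q e).differentiableOn (by simp) _ hW)
    (by
      filter_upwards [self_mem_nhdsWithin] with q' hq'
      exact BRO_rep f Q e hq')]
  have h1 : HasFDerivWithinAt (fun q => can0 g b f.1 e (rotL Q q))
      ((fderivWithin ℝ (can0 g b f.1 e) (wset b e.1.target) (rotL Q q)).comp (rotL Q))
      (wset b e.1.target) q :=
    hd.hasFDerivWithinAt.comp q (rotL Q).hasFDerivWithinAt (fun _ h => rotL_wset Q h)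
  rw [h1.fderivWithin (hud q hW), ContinuousLinearMap.comp_apply, rotL_apply Q q]

theorem RA_D (hg : IsFam g b) (Q : O3) (i : Fin 3) (f : FA g b) :
    RA hg Q ((natD hg i).der hg f) = ∑ j, (Q : Mat3) j i • (natD hg j).der hg (RA hg Q f) := by
  apply FA_ext
  intro z
  obtain ⟨e, q, hq, rfl⟩ := exists_frq z
  have hq' : rotq Q q ∈ oset b e.1.target (gt g e) := ⟨hq.1, hq.2.1, Phi_rotq Q _ hq.2.2⟩
  rw [RA_apply, frq_rot Q e hq, NatField.der_apply, NatField.der0_rep hg _ f e hq', sum_FA]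
  have h1 : ∀ j, ((Q : Mat3) j i • (natD hg j).der hg (RA hg Q f)).1 (frq g b e q) =
      fderivWithin ℝ (can0 g b f.1 e) (wset b e.1.target) (rotq Q q)
        (rotL Q ((Q : Mat3) j i • hD (gt g e) j q)) := by
    intro j
    have h2 := BRO_der hg (natD hg j) Q f e hq
    have h3 : ((Q : Mat3) j i • (natD hg j).der hg (RA hg Q f)).1 (frq g b e q) =
        (Q : Mat3) j i * ((natD hg j).der hg (RA hg Q f)).1 (frq g b e q) := rfl
    rw [h3, h2, map_smul, map_smul, smul_eq_mul]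
    rfl
  simp only [h1]
  rw [← map_sum, ← map_sum, rotL_hD]
  rfl

theorem RA_T (hg : IsFam g b) (Q : O3) (f : FA g b) :
    RA hg Q ((natT hg).der hg f) = (natT hg).der hg (RA hg Q f) := by
  apply FA_ext
  intro z
  obtain ⟨e, q, hq, rfl⟩ := exists_frq z
  have hq' : rotq Q q ∈ oset b e.1.target (gt g e) := ⟨hq.1, hq.2.1, Phi_rotq Q _ hq.2.2⟩
  rw [RA_apply, frq_rot Q e hq, NatField.der_apply, NatField.der0_rep hg _ f e hq',
    BRO_der hg (natT hg) Q f e hq]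
  have h1 : (natT hg).X e q = hT b (gt g e) q := rfl
  rw [h1, rotL_hT]
  rfl

end Pool.Agent.RFS.BB
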