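import Pool.Agent.RFS.BDF

/-!
# RFS, chunk (b), module BSA: the ring of smooth functions on a set with its partial derivatives

`W` is a set with unique derivatives contained in the closure of its interior.
`smAlg W` = functions `f : W → ℝ` whose extension by zero `ext0 f` is `ContDiffOn ℝ ∞` on `W`.

Proofs.
* closure properties: on `W`, `ext0 (f * g) = ext0 f * ext0 g` etc., `ContDiffOn.congr`,
  `ContDiffOn.mul`, `ContDiffOn.add`, `contDiffOn_const` (`algebraMap`).
* `pder`: value `fderivWithin ℝ (ext0 f) W q v`; its extension agrees on `W` with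
  `fun q => fderivWithin ℝ (ext0 f) W q v`, which is `ContDiffOn ∞`
  (`ContDiffOn.fderivWithin`, `ContDiffOn.clm_apply`, `contDiffOn_const`).  Additivity and Leibniz:
  `fderivWithin_congr` (the extensions agree on `W`), `fderivWithin_add`, `fderivWithin_mul`
  (`hW.uniqueDiffWithinAt`), `fderivWithin_const`.
* `pder_congr`: `fderivWithin_congr`.
* `pder_comm`: `ContDiffWithinAt.isSymmSndFDerivWithinAt` and
  `fderivWithin (fun q => fderivWithin f W q w) W q v = fderivWithin (fderivWithin f W) W q v w`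
  (`fderivWithin_clm_apply` with a constant vector).
* `smEval`: evaluation at a point as an algebra homomorphism.
-/

open scoped Manifold ContDiff Matrix
open Set MeasureTheory

noncomputable section

namespace Pool.Agent.RFS.BB

variable {E : Type*} [NormedAddCommGroup E] [NormedSpace ℝ E]

theorem ext0_apply {W : Set E} (f : W → ℝ) {q : E} (hq : q ∈ W) : ext0 f q = f ⟨q, hq⟩ := by
  unfold ext0
  rw [dif_pos hq]

private theorem BSA_cd {W : Set E} {f : W → ℝ} {F : E → ℝ} (hF : ContDiffOn ℝ ∞ F W)
    (h : ∀ q : W, F q = f q) : ContDiffOn ℝ ∞ (ext0 f) W :=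
  hF.congr fun q hq => by rw [ext0_apply f hq]; exact (h ⟨q, hq⟩).symm

/-- The algebra of smooth functions on `W`. -/
def smAlg (W : Set E) : Subalgebra ℝ (W → ℝ) where
  carrier := {f | ContDiffOn ℝ ∞ (ext0 f) W}
  mul_mem' := by
    intro f g hf hg
    exact BSA_cd (ContDiffOn.mul hf hg) fun q => by
      show ext0 f q * ext0 g q = f q * g q
      rw [ext0_apply f q.2, ext0_apply g q.2]
  add_mem' := by
    intro f g hf hg
    exact BSA_cd (ContDiffOn.add hf hg) fun q => by
      show ext0 f q + ext0 g q = f q + g q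
      rw [ext0_apply f q.2, ext0_apply g q.2]
  algebraMap_mem' := by
    intro r
    exact BSA_cd (contDiffOn_const (c := r)) fun q => rfl

theorem mem_smAlg {W : Set E} {f : W → ℝ} : f ∈ smAlg W ↔ ContDiffOn ℝ ∞ (ext0 f) W := Iff.rfl

/-- The restriction of a smooth function. -/
def smMk {W : Set E} (F : E → ℝ) (hF : ContDiffOn ℝ ∞ F W) : smAlg W :=
  ⟨fun q => F q, by
    exact BSA_cd hF fun q => rfl⟩

theorem smMk_apply {W : Set E} (F : E → ℝ) (hF : ContDiffOn ℝ ∞ F W) (q : W) :
    (smMk F hF).1 q = F q := rfl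

theorem smAlg_ext {W : Set E} {f g : smAlg W} (h : ∀ q : W, f.1 q = g.1 q) : f = g :=
  Subtype.ext (funext h)

private theorem BSA_diff {W : Set E} (f : smAlg W) (q : W) :
    DifferentiableWithinAt ℝ (ext0 f.1) W q :=
  (f.2 q q.2).differentiableWithinAt (by simp)

private theorem BSA_smooth {W : Set E} (hW : UniqueDiffOn ℝ W) (v : E) {F : E → ℝ}
    (hF : ContDiffOn ℝ ∞ F W) : ContDiffOn ℝ ∞ (fun q => fderivWithin ℝ F W q v) W :=
  (hF.fderivWithin hW (by simp)).clm_apply contDiffOn_const

private theorem BSA_congr {W : Set E} (v : E) (f : W → ℝ) (F : E → ℝ)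
    (hF : ∀ q : W, F q = f q) (q : W) :
    fderivWithin ℝ (ext0 f) W q v = fderivWithin ℝ F W q v := by
  rw [fderivWithin_congr (f₁ := ext0 f) (f := F) (s := W) (x := (q : E))
    (fun y hy => by rw [ext0_apply f hy]; exact (hF ⟨y, hy⟩).symm)
    (by rw [ext0_apply f q.2]; exact (hF q).symm)]

/-- The derivative in the direction `v`. -/
def pder {W : Set E} (hW : UniqueDiffOn ℝ W) (v : E) : Derivation ℝ (smAlg W) (smAlg W) :=
  Derivation.mk'
    { toFun := fun f => ⟨fun q => fderivWithin ℝ (ext0 f.1) W q v,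
        BSA_cd (BSA_smooth hW v f.2) fun q => rfl⟩
      map_add' := by
        intro f g
        apply smAlg_ext
        intro q
        show fderivWithin ℝ (ext0 (f.1 + g.1)) W q v =
          fderivWithin ℝ (ext0 f.1) W q v + fderivWithin ℝ (ext0 g.1) W q v
        rw [BSA_congr v (f.1 + g.1) (ext0 f.1 + ext0 g.1) (fun q => by
          show ext0 f.1 q + ext0 g.1 q = f.1 q + g.1 q
          rw [ext0_apply f.1 q.2, ext0_apply g.1 q.2]) q,
          fderivWithin_add (hW q q.2) (BSA_diff f q) (BSA_diff g q)]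
        rfl
      map_smul' := by
        intro c f
        apply smAlg_ext
        intro q
        show fderivWithin ℝ (ext0 (c • f.1)) W q v = c * fderivWithin ℝ (ext0 f.1) W q v
        rw [BSA_congr v (c • f.1) (c • ext0 f.1) (fun q => by
          show c * ext0 f.1 q = c * f.1 q
          rw [ext0_apply f.1 q.2]) q,
          fderivWithin_const_smul (hW q q.2) (BSA_diff f q)]
        rfl }
    (by
      intro f g
      apply smAlg_ext
      intro q
      show fderivWithin ℝ (ext0 (f.1 * g.1)) W q v =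
        f.1 q * fderivWithin ℝ (ext0 g.1) W q v + g.1 q * fderivWithin ℝ (ext0 f.1) W q v
      rw [BSA_congr v (f.1 * g.1) (ext0 f.1 * ext0 g.1) (fun q => by
          show ext0 f.1 q * ext0 g.1 q = f.1 q * g.1 q
          rw [ext0_apply f.1 q.2, ext0_apply g.1 q.2]) q,
        fderivWithin_mul (hW q q.2) (BSA_diff f q) (BSA_diff g q)]
      show ext0 f.1 q * fderivWithin ℝ (ext0 g.1) W q v +
        ext0 g.1 q * fderivWithin ℝ (ext0 f.1) W q v = _
      rw [ext0_apply f.1 q.2, ext0_apply g.1 q.2])

theorem pder_apply {W : Set E} (hW : UniqueDiffOn ℝ W) (v : E) (f : smAlg W) (q : W) :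
    (pder hW v f).1 q = fderivWithin ℝ (ext0 f.1) W q v := rfl

theorem pder_congr {W : Set E} (hW : UniqueDiffOn ℝ W) (v : E) (f : smAlg W) (F : E → ℝ)
    (hF : ∀ q : W, F q = f.1 q) (q : W) : (pder hW v f).1 q = fderivWithin ℝ F W q v := by
  rw [pder_apply]
  exact BSA_congr v f.1 F hF q

theorem pder_comm {W : Set E} (hW : UniqueDiffOn ℝ W) (hcl : W ⊆ closure (interior W)) (v w : E)
    (f : smAlg W) : pder hW v (pder hW w f) = pder hW w (pder hW v f) := by
  have key : ∀ (v w : E) (q : W), (pder hW v (pder hW w f)).1 q =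
      fderivWithin ℝ (fderivWithin ℝ (ext0 f.1) W) W q v w := by
    intro v w q
    rw [pder_congr hW v (pder hW w f) (fun q => fderivWithin ℝ (ext0 f.1) W q w)
      (fun q => (pder_apply hW w f q).symm) q]
    have hd : DifferentiableWithinAt ℝ (fderivWithin ℝ (ext0 f.1) W) W q :=
      ((f.2.fderivWithin hW (m := ∞) (by simp)) q q.2).differentiableWithinAt (by simp)
    rw [fderivWithin_clm_apply (hW q q.2) hd (differentiableWithinAt_const _)]
    simp
  apply smAlg_ext
  intro q
  rw [key v w q, key w v q]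
  exact (f.2 q q.2).isSymmSndFDerivWithinAt (by
    rw [minSmoothness_of_isRCLikeNormedField]
    exact WithTop.coe_le_coe.mpr (le_top : (2 : ℕ∞) ≤ ⊤)) hW (hcl q.2) q.2 v w

theorem sum_apply {W : Set E} {ι : Type*} (s : Finset ι) (f : ι → smAlg W) (q : W) :
    (∑ i ∈ s, f i).1 q = ∑ i ∈ s, (f i).1 q := by
  have h : (∑ i ∈ s, f i).1 = ∑ i ∈ s, (f i).1 := by
    exact AddSubmonoidClass.coe_finsetSum f s
  rw [h, Finset.sum_apply]

end Pool.Agent.RFS.BB
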