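import Pool.Agent.RFS.BQL

/-!
# RFS, chunk (b), module BSE: the structure equation `[D i, D j] = eps i j m P n m V n`

`r j k = (aᵀ ric a) j k`.

Proofs.
* `contract`: `low (Z i j) i k = -∑ a_mi g_mM R^M_{l r s} a_ri a_sj a_lk`; sum over `i` and use
  `∑ i, a_mi a_ri = gi_mr` modulo `I` (`a_at`), `∑ m, gi_rm g_mM = δ_rM`:
  `∑ i, low (Z i j) i k = -∑_{r,s,l} R^r_{l r s} a_sj a_lk = -r j k`, because
  `ric s l = ∑ r, Rm r l r s` (compare the definitions).
* `sc_mem`: `sc = ∑ gi_kl ric_lk`, `a_at`.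
* `P_mem`: definition of `P`; `∑∑ a_ki g_kl a_lj = h i j ≡ δ_ij`, `sc_mem`.
* `lin_id`: all indices are in `Fin 3`; by the two antisymmetries everything is a linear
  combination of the nine elements `ζ i j q p` with `(i,j), (q,p)` in `{(0,1),(0,2),(1,2)}`.
  `fin_cases i <;> fin_cases j <;> fin_cases n <;> simp [Fin.sum_univ_three, eps, hr]` and
  `linear_combination` (rewrite all `ζ` to the nine representatives first; the diagonal ones
  `ζ i i q p` and `ζ i j q q` vanish because `2` is invertible: `ζ = -ζ` in a real algebra).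
* `comm_DD_mem`: `comm_DD_vec`, `vert` with `w = Z i j` (`Z_antisymm`), and `lin_id` in `B ⧸ I`
  with `ζ i j q p = low (Z i j) q p` (`Z_swap`, `Z_antisymm`, `contract`), `P_mem`.
-/

open scoped Manifold ContDiff Matrix
open Set MeasureTheory

noncomputable section

namespace Pool.Agent.RFS.BB

private theorem bse_eps (i j k : Fin 3) : eps i j k =
    (![![![0, 0, 0], ![0, 0, 1], ![0, -1, 0]], ![![0, 0, -1], ![0, 0, 0], ![1, 0, 0]],
      ![![0, 1, 0], ![-1, 0, 0], ![0, 0, 0]]] : Fin 3 → Fin 3 → Fin 3 → ℝ) i j k := by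
  fin_cases i <;> fin_cases j <;> fin_cases k <;> norm_num [eps]

theorem lin_id {L : Type*} [CommRing L] [Algebra ℝ L] (ζ : Fin 3 → Fin 3 → Fin 3 → Fin 3 → L)
    (h1 : ∀ i j q p, ζ i j q p = -ζ j i q p) (h2 : ∀ i j q p, ζ i j q p = -ζ i j p q)
    (r : Fin 3 → Fin 3 → L) (hr : ∀ j k, r j k = -∑ i, ζ i j i k) (i j n : Fin 3) :
    (1 / 2 : ℝ) • ∑ p, ∑ q, eps n p q • ζ i j q p =
      ∑ m, eps i j m • ((1 / 2 : ℝ) • ((∑ s, r s s) * (if n = m then 1 else 0)) - r n m) := by
  have ha : ∀ u : L, u = -u → u = 0 := by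
    intro u hu
    have h3 : (2 : ℝ) • u = 0 := by
      rw [two_smul]
      nth_rewrite 2 [hu]
      exact add_neg_cancel u
    rcases smul_eq_zero.1 h3 with h4 | h4
    · norm_num at h4
    · exact h4
  have hd1 : ∀ i q p, ζ i i q p = 0 := fun i q p => ha _ (h1 i i q p)
  have hd2 : ∀ i j q, ζ i j q q = 0 := fun i j q => ha _ (h2 i j q q)
  have k1 : ∀ q p, ζ 1 0 q p = -ζ 0 1 q p := fun q p => h1 1 0 q p
  have k2 : ∀ q p, ζ 2 0 q p = -ζ 0 2 q p := fun q p => h1 2 0 q p
  have k3 : ∀ q p, ζ 2 1 q p = -ζ 1 2 q p := fun q p => h1 2 1 q p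
  have l1 : ∀ i j, ζ i j 1 0 = -ζ i j 0 1 := fun i j => h2 i j 1 0
  have l2 : ∀ i j, ζ i j 2 0 = -ζ i j 0 2 := fun i j => h2 i j 2 0
  have l3 : ∀ i j, ζ i j 2 1 = -ζ i j 1 2 := fun i j => h2 i j 2 1
  simp only [hr, bse_eps, Fin.sum_univ_three]
  fin_cases i <;> fin_cases j <;> fin_cases n <;>
    simp [hd1, hd2, k1, k2, k3, l1, l2, l3] <;> module

namespace Cal

variable {B : Type*} [CommRing B] [Algebra ℝ B] (C : Cal B) {I : Ideal B}

/-- The Ricci tensor in the frame. -/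
def r (j k : Fin 3) : B := ∑ l, ∑ m, C.a l j * C.ric l m * C.a m k

private theorem bse_ric (s l : Fin 3) : C.ric s l = ∑ r, C.Rm r l r s := rfl

private theorem bse_smul (c : ℝ) (u : B) :
    Ideal.Quotient.mk I (c • u) = c • Ideal.Quotient.mk I u :=
  map_smul (Ideal.Quotient.mkₐ ℝ I) c u

theorem contract (hI : C.Good I) (j k : Fin 3) : ∑ i, C.low (C.Z i j) i k + C.r j k ∈ I := by
  obtain ⟨Y, hY⟩ : ∃ Y : Fin 3 → Fin 3 → B, ∀ M r, Y M r
      = ∑ s, ∑ l, C.Rm M l r s * C.a s j * C.a l k := ⟨_, fun _ _ => rfl⟩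
  have h1 : ∀ i, C.low (C.Z i j) i k = -∑ K, ∑ M, ∑ r, (C.a K i * C.a r i)
      * (C.g K M * Y M r) := by
    intro i
    unfold low
    rw [← Finset.sum_neg_distrib]
    refine Finset.sum_congr rfl fun K _ => ?_
    rw [← Finset.sum_neg_distrib]
    refine Finset.sum_congr rfl fun M _ => ?_
    have h2 : C.Z i j M k = -∑ r, C.a r i * Y M r := by
      unfold Z
      simp only [hY, Finset.mul_sum]
      rw [neg_inj]
      refine Finset.sum_congr rfl fun r _ => ?_
      refine Finset.sum_congr rfl fun s _ => ?_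
      refine Finset.sum_congr rfl fun l _ => ?_
      ring
    rw [h2, mul_neg, Finset.mul_sum]
    rw [neg_inj]
    refine Finset.sum_congr rfl fun r _ => ?_
    ring
  have h2 : ∑ i, C.low (C.Z i j) i k = -∑ K, ∑ M, ∑ r, (∑ i, C.a K i * C.a r i)
      * (C.g K M * Y M r) := by
    rw [Finset.sum_congr rfl fun i _ => h1 i, Finset.sum_neg_distrib, neg_inj]
    rw [Finset.sum_comm]
    refine Finset.sum_congr rfl fun K _ => ?_
    rw [Finset.sum_comm]
    refine Finset.sum_congr rfl fun M _ => ?_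
    rw [Finset.sum_comm]
    refine Finset.sum_congr rfl fun r _ => ?_
    rw [Finset.sum_mul]
  have h3 : ∑ K, ∑ M, ∑ r, C.gi K r * (C.g K M * Y M r) = ∑ M, Y M M := by
    rw [Finset.sum_comm]
    refine Finset.sum_congr rfl fun M _ => ?_
    rw [Finset.sum_comm]
    have h4 : ∀ r, ∑ K, C.gi K r * (C.g K M * Y M r) = (if r = M then 1 else 0) * Y M r := by
      intro r
      rw [← C.gi_g r M, Finset.sum_mul]
      refine Finset.sum_congr rfl fun K _ => ?_
      rw [C.gi_symm K r]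
      ring
    rw [Finset.sum_congr rfl fun r _ => h4 r]
    simp
  have h5 : C.r j k = ∑ M, Y M M := by
    have h6 : C.r j k = ∑ s, ∑ l, ∑ M, C.Rm M l M s * C.a s j * C.a l k := by
      show ∑ s, ∑ l, C.a s j * C.ric s l * C.a l k = _
      refine Finset.sum_congr rfl fun s _ => Finset.sum_congr rfl fun l _ => ?_
      rw [bse_ric, Finset.mul_sum, Finset.sum_mul]
      refine Finset.sum_congr rfl fun M _ => ?_
      ring
    rw [h6]
    simp only [hY]
    symm
    rw [Finset.sum_comm]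
    refine Finset.sum_congr rfl fun s _ => ?_
    rw [Finset.sum_comm]
  rw [h2, h5, ← h3]
  generalize hG : Y = Y'
  rw [neg_add_eq_sub, ← Finset.sum_sub_distrib]
  refine Ideal.sum_mem _ fun K _ => ?_
  rw [← Finset.sum_sub_distrib]
  refine Ideal.sum_mem _ fun M _ => ?_
  rw [← Finset.sum_sub_distrib]
  refine Ideal.sum_mem _ fun r _ => ?_
  rw [← sub_mul]
  refine Ideal.mul_mem_right _ _ ?_
  have h5 := I.neg_mem (C.a_at hI K r)
  rwa [neg_sub] at h5

theorem sc_mem (hI : C.Good I) : C.sc - ∑ i, C.r i i ∈ I := by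
  have h1 : ∑ i, C.r i i = ∑ l, ∑ m, (∑ i, C.a l i * C.a m i) * C.ric l m := by
    unfold r
    simp only [Finset.sum_mul]
    rw [Finset.sum_comm]
    refine Finset.sum_congr rfl fun l _ => ?_
    rw [Finset.sum_comm]
    refine Finset.sum_congr rfl fun m _ => Finset.sum_congr rfl fun i _ => ?_
    ring
  have h2 : C.sc = ∑ l, ∑ m, C.gi l m * C.ric l m := by
    unfold sc
    rw [Finset.sum_comm]
    refine Finset.sum_congr rfl fun l _ => Finset.sum_congr rfl fun m _ => ?_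
    rw [C.gi_symm]
  rw [h1, h2, ← Finset.sum_sub_distrib]
  refine Ideal.sum_mem _ fun l _ => ?_
  rw [← Finset.sum_sub_distrib]
  refine Ideal.sum_mem _ fun m _ => ?_
  rw [← sub_mul]
  refine Ideal.mul_mem_right _ _ ?_
  have h5 := I.neg_mem (C.a_at hI l m)
  rwa [neg_sub] at h5

theorem P_mem (hI : C.Good I) (i j : Fin 3) :
    C.P i j - ((1 / 2 : ℝ) • ((∑ s, C.r s s) * (if i = j then 1 else 0)) - C.r i j) ∈ I := by
  have h1 : C.P i j = (1 / 2 : ℝ) • (C.sc * C.h i j) - C.r i j := by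
    unfold P h r
    simp only [Finset.mul_sum, Finset.smul_sum, ← Finset.sum_sub_distrib]
    refine Finset.sum_congr rfl fun k _ => Finset.sum_congr rfl fun l _ => ?_
    simp only [mul_sub, sub_mul, mul_smul_comm, smul_mul_assoc]
    congr 2
    ring
  have h2 : C.P i j - ((1 / 2 : ℝ) • ((∑ s, C.r s s) * (if i = j then 1 else 0)) - C.r i j)
      = (1 / 2 : ℝ) • (C.sc * (C.h i j - (if i = j then 1 else 0))
        + (C.sc - ∑ s, C.r s s) * (if i = j then 1 else 0)) := by
    rw [h1, sub_sub_sub_cancel_right, ← smul_sub]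
    congr 1
    ring
  rw [h2]
  refine Submodule.smul_of_tower_mem I _ ?_
  exact I.add_mem (I.mul_mem_left _ (hI.h_mem i j)) (I.mul_mem_right _ (C.sc_mem hI))

theorem comm_DD_mem (hI : C.Good I) (i j : Fin 3) (f : B) :
    C.D i (C.D j f) - C.D j (C.D i f) - ∑ m, ∑ n, eps i j m • (C.P n m * C.V n f) ∈ I := by
  have hv := C.vert hI (C.Z i j) (fun p q => by
    rw [C.Z_antisymm i j p q, neg_add_cancel]
    exact I.zero_mem) f
  rw [C.comm_DD_vec]
  rw [← Ideal.Quotient.mk_eq_mk_iff_sub_mem] at hv ⊢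
  rw [hv]
  set ζ : Fin 3 → Fin 3 → Fin 3 → Fin 3 → B ⧸ I :=
    fun i j q p => Ideal.Quotient.mk I (C.low (C.Z i j) q p) with hζ
  have h1 : ∀ i j q p, ζ i j q p = -ζ j i q p := by
    intro i j q p
    simp only [hζ]
    rw [C.Z_swap i j p q, map_neg]
  have h2 : ∀ i j q p, ζ i j q p = -ζ i j p q := by
    intro i j q p
    simp only [hζ]
    rw [C.Z_antisymm i j p q, map_neg]
  have hr : ∀ j k, Ideal.Quotient.mk I (C.r j k) = -∑ i, ζ i j i k := by
    intro j k
    have h3 := C.contract hI j k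
    rw [← Ideal.Quotient.eq_zero_iff_mem, map_add, map_sum] at h3
    rw [eq_neg_iff_add_eq_zero, add_comm]
    exact h3
  have hP : ∀ n m, Ideal.Quotient.mk I (C.P n m)
      = (1 / 2 : ℝ) • ((∑ s, Ideal.Quotient.mk I (C.r s s)) * (if n = m then 1 else 0))
        - Ideal.Quotient.mk I (C.r n m) := by
    intro n m
    have h3 := C.P_mem hI n m
    rw [← Ideal.Quotient.mk_eq_mk_iff_sub_mem, map_sub, bse_smul, map_mul, map_sum] at h3
    rw [h3]
    congr 3
    split_ifs <;> simp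
  have hl := fun n => lin_id ζ h1 h2 (fun j k => Ideal.Quotient.mk I (C.r j k)) hr i j n
  simp only [map_sum, map_mul, bse_smul]
  have h4 : ∀ n, ((1 / 2 : ℝ) • ∑ p, ∑ q, eps n p q
      • Ideal.Quotient.mk I (C.low (C.Z i j) q p))
      = ∑ m, eps i j m • Ideal.Quotient.mk I (C.P n m) := by
    intro n
    simp only [hP]
    exact hl n
  simp only [h4, Finset.sum_mul, smul_mul_assoc]
  rw [Finset.sum_comm]

end Cal

end Pool.Agent.RFS.BB
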