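import Pool.Agent.RFS.BDF

/-!
# RFS, chunk (b), module BSM: smoothness of the coordinate quantities

Proofs.
* `uniqueDiffOn_Ico`: `uniqueDiffOn_Ico` of Mathlib (for `0 < b`).
* `uniqueDiffOn_wset`: `UniqueDiffOn.prod`, `IsOpen.uniqueDiffOn`; the set of invertible frames is
  open (`det` is continuous: `Matrix.det_fin_three` or `Continuous.matrix_det`).
* `wset_subset`: `interior (Ico 0 b) = Ioo 0 b`, `closure (Ioo 0 b) = Icc 0 b`, `interior_prod_eq`,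
  `closure_prod_eq`.
* `smooth_inv`: `(G⁻¹) i j = det⁻¹ * adjugate`, entries of the adjugate are polynomials
  (`Matrix.inv_def`, `Matrix.adjugate_fin_three`, `Matrix.det_fin_three`, `Ring.inverse_eq_inv'`),
  `ContDiffOn.inv` with `det ≠ 0` (`Matrix.PosDef.det_pos`).
* `smooth_pd`: for `u` smooth on `Ico 0 b ×ˢ U`: on this set
  `pd k (fun y => u (t, y)) x = fderivWithin ℝ u (Ico 0 b ×ˢ U) (t, x) (0, bv k)` (chain rule with
  `y ↦ (t, y)`, which maps `U` into the set, `HasFDerivWithinAt.comp_hasFDerivAt_of_mem_nhds` or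
  similar), and the right side is smooth (`ContDiffOn.fderivWithin`).
* `smooth_dt`: `derivWithin (fun s => u (s, x)) (Ico 0 b) t = fderivWithin ℝ u _ (t, x) (1, 0)`.
* `smooth_chr`, `smooth_ricci`, `smooth_scal`, `smooth_pten`: from the definitions, sums and products.
* `smooth_rdot`: `smooth_dt`.
-/

open scoped Manifold ContDiff Matrix
open Set MeasureTheory

noncomputable section

namespace Pool.Agent.RFS.BB

theorem isOpen_inv : IsOpen {a : Fm | (Matrix.of a).det ≠ 0} := by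
  have h : Continuous fun a : Fm => (Matrix.of a).det := by
    refine Continuous.matrix_det ?_
    exact continuous_id
  exact isOpen_ne.preimage h

theorem uniqueDiffOn_iu {b : ℝ} (hb : 0 < b) {U : Set E3} (hU : IsOpen U) :
    UniqueDiffOn ℝ (Ico 0 b ×ˢ U : Set (ℝ × E3)) :=
  (uniqueDiffOn_Ico 0 b).prod hU.uniqueDiffOn

theorem uniqueDiffOn_wset {b : ℝ} (hb : 0 < b) {U : Set E3} (hU : IsOpen U) :
    UniqueDiffOn ℝ (wset b U) :=
  (uniqueDiffOn_Ico 0 b).prod (hU.prod isOpen_inv).uniqueDiffOn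

theorem wset_subset {b : ℝ} (hb : 0 < b) {U : Set E3} (hU : IsOpen U) :
    wset b U ⊆ closure (interior (wset b U)) := by
  rw [wset, interior_prod_eq, closure_prod_eq, (hU.prod isOpen_inv).interior_eq, interior_Ico,
    closure_Ioo hb.ne]
  exact prod_mono Ico_subset_Icc_self subset_closure

theorem pd_eq_fderivWithin {b : ℝ} (hb : 0 < b) {U : Set E3} (hU : IsOpen U) {u : ℝ × E3 → ℝ}
    (hu : ContDiffOn ℝ ∞ u (Ico 0 b ×ˢ U)) (k : Fin 3) {t : ℝ} (ht : t ∈ Ico 0 b) {x : E3}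
    (hx : x ∈ U) :
    pd k (fun y => u (t, y)) x = fderivWithin ℝ u (Ico 0 b ×ˢ U) (t, x) (0, bv k) := by
  have h1 : HasFDerivWithinAt u (fderivWithin ℝ u (Ico 0 b ×ˢ U) (t, x)) (Ico 0 b ×ˢ U) (t, x) :=
    ((hu.differentiableOn (by simp)) (t, x) ⟨ht, hx⟩).hasFDerivWithinAt
  have h2 : HasFDerivWithinAt (fun y : E3 => ((t, y) : ℝ × E3))
      (ContinuousLinearMap.inr ℝ ℝ E3) U x := (hasFDerivAt_prodMk_right t x).hasFDerivWithinAt
  have h3 : HasFDerivWithinAt (fun y : E3 => u (t, y))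
      ((fderivWithin ℝ u (Ico 0 b ×ˢ U) (t, x)).comp (ContinuousLinearMap.inr ℝ ℝ E3)) U x :=
    h1.comp x h2 (fun y hy => ⟨ht, hy⟩)
  rw [pd, (h3.hasFDerivAt (hU.mem_nhds hx)).fderiv]
  simp

theorem smooth_pd {b : ℝ} (hb : 0 < b) {U : Set E3} (hU : IsOpen U) {u : ℝ × E3 → ℝ}
    (hu : ContDiffOn ℝ ∞ u (Ico 0 b ×ˢ U)) (k : Fin 3) :
    ContDiffOn ℝ ∞ (fun q : ℝ × E3 => pd k (fun y => u (q.1, y)) q.2) (Ico 0 b ×ˢ U) := by
  have h : ContDiffOn ℝ ∞ (fun q : ℝ × E3 => fderivWithin ℝ u (Ico 0 b ×ˢ U) q (0, bv k))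
      (Ico 0 b ×ˢ U) :=
    (hu.fderivWithin (uniqueDiffOn_iu hb hU) (by simp)).clm_apply contDiffOn_const
  exact h.congr fun q hq => pd_eq_fderivWithin hb hU hu k hq.1 hq.2

theorem derivWithin_eq_fderivWithin {b : ℝ} (hb : 0 < b) {U : Set E3} (hU : IsOpen U)
    {u : ℝ × E3 → ℝ} (hu : ContDiffOn ℝ ∞ u (Ico 0 b ×ˢ U)) {t : ℝ} (ht : t ∈ Ico 0 b) {x : E3}
    (hx : x ∈ U) : derivWithin (fun s => u (s, x)) (Ico 0 b) t =
      fderivWithin ℝ u (Ico 0 b ×ˢ U) (t, x) (1, 0) := by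
  have h1 : HasFDerivWithinAt u (fderivWithin ℝ u (Ico 0 b ×ˢ U) (t, x)) (Ico 0 b ×ˢ U) (t, x) :=
    ((hu.differentiableOn (by simp)) (t, x) ⟨ht, hx⟩).hasFDerivWithinAt
  have h2 : HasDerivWithinAt (fun s : ℝ => ((s, x) : ℝ × E3)) (1, 0) (Ico 0 b) t :=
    (hasDerivWithinAt_id t (Ico 0 b)).prodMk (hasDerivWithinAt_const t (Ico 0 b) x)
  have hm : MapsTo (fun s : ℝ => ((s, x) : ℝ × E3)) (Ico 0 b) (Ico 0 b ×ˢ U) :=
    fun s hs => ⟨hs, hx⟩
  have h3 : HasDerivWithinAt (fun s : ℝ => u (s, x))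
      (fderivWithin ℝ u (Ico 0 b ×ˢ U) (t, x) (1, 0)) (Ico 0 b) t :=
    HasFDerivWithinAt.comp_hasDerivWithinAt t h1 h2 hm
  exact h3.derivWithin (uniqueDiffOn_Ico 0 b t ht)

theorem smooth_dt {b : ℝ} (hb : 0 < b) {U : Set E3} (hU : IsOpen U) {u : ℝ × E3 → ℝ}
    (hu : ContDiffOn ℝ ∞ u (Ico 0 b ×ˢ U)) :
    ContDiffOn ℝ ∞ (fun q : ℝ × E3 => derivWithin (fun s => u (s, q.2)) (Ico 0 b) q.1)
      (Ico 0 b ×ˢ U) := by
  have h : ContDiffOn ℝ ∞ (fun q : ℝ × E3 => fderivWithin ℝ u (Ico 0 b ×ˢ U) q (1, 0))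
      (Ico 0 b ×ˢ U) :=
    (hu.fderivWithin (uniqueDiffOn_iu hb hU) (by simp)).clm_apply contDiffOn_const
  exact h.congr fun q hq => derivWithin_eq_fderivWithin hb hU hu hq.1 hq.2

section Inv

variable {X : Type*} [NormedAddCommGroup X] [NormedSpace ℝ X] {S : Set X} {H : X → Mat3}

private theorem contDiffOn_det_aux (hG : ∀ i j, ContDiffOn ℝ ∞ (fun x => H x i j) S) :
    ContDiffOn ℝ ∞ (fun x => (H x).det) S := by
  simp only [Matrix.det_fin_three]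
  exact (((((((hG 0 0).mul (hG 1 1)).mul (hG 2 2)).sub
    (((hG 0 0).mul (hG 1 2)).mul (hG 2 1))).sub
    (((hG 0 1).mul (hG 1 0)).mul (hG 2 2))).add (((hG 0 1).mul (hG 1 2)).mul (hG 2 0))).add
    (((hG 0 2).mul (hG 1 0)).mul (hG 2 1))).sub (((hG 0 2).mul (hG 1 1)).mul (hG 2 0))

private theorem contDiffOn_adj_aux (hG : ∀ i j, ContDiffOn ℝ ∞ (fun x => H x i j) S)
    (k l : Fin 3) : ContDiffOn ℝ ∞ (fun x => (H x).adjugate k l) S := by
  have h : ∀ i j i' j', ContDiffOn ℝ ∞ (fun x => H x i j * H x i' j') S := fun i j i' j' =>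
    (hG i j).mul (hG i' j')
  simp only [Matrix.adjugate_fin_three]
  fin_cases k <;> fin_cases l <;> simp <;>
    first
    | exact (h _ _ _ _).sub (h _ _ _ _)
    | exact ((h _ _ _ _).neg).add (h _ _ _ _)

private theorem contDiffOn_inv_aux (hG : ∀ i j, ContDiffOn ℝ ∞ (fun x => H x i j) S)
    (hd : ∀ x ∈ S, (H x).det ≠ 0) (k l : Fin 3) :
    ContDiffOn ℝ ∞ (fun x => (H x)⁻¹ k l) S := by
  have h : ContDiffOn ℝ ∞ (fun x => ((H x).det)⁻¹ * (H x).adjugate k l) S :=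
    ((contDiffOn_det_aux hG).inv hd).mul (contDiffOn_adj_aux hG k l)
  refine h.congr fun x hx => ?_
  rw [Matrix.inv_def, Ring.inverse_eq_inv', Matrix.smul_apply, smul_eq_mul]

end Inv

namespace LMet

variable {b : ℝ} {U : Set E3} {G : ℝ → E3 → Mat3}

theorem smooth_inv (h : LMet b U G) (i j : Fin 3) :
    ContDiffOn ℝ ∞ (fun q : ℝ × E3 => (G q.1 q.2)⁻¹ i j) (Ico 0 b ×ˢ U) :=
  contDiffOn_inv_aux (H := fun q : ℝ × E3 => G q.1 q.2) h.smooth
    (fun q hq => (h.posDef q.1 hq.1 q.2 hq.2).det_pos.ne') i j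

theorem smooth_chr (h : LMet b U G) (k i j : Fin 3) :
    ContDiffOn ℝ ∞ (fun q : ℝ × E3 => chr (G q.1) q.2 k i j) (Ico 0 b ×ˢ U) := by
  have hp : ∀ r k l, ContDiffOn ℝ ∞ (fun q : ℝ × E3 => pd r (fun y => G q.1 y k l) q.2)
      (Ico 0 b ×ˢ U) := fun r k l => smooth_pd h.pos_b h.open_U (h.smooth k l) r
  simp only [chr]
  refine contDiffOn_const.mul (ContDiffOn.sum fun l _ => ?_)
  exact (h.smooth_inv k l).mul (((hp i j l).add (hp j i l)).sub (hp l i j))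

theorem smooth_ricci (h : LMet b U G) (i j : Fin 3) :
    ContDiffOn ℝ ∞ (fun q : ℝ × E3 => ricci (G q.1) q.2 i j) (Ico 0 b ×ˢ U) := by
  have hp : ∀ r k l m, ContDiffOn ℝ ∞
      (fun q : ℝ × E3 => pd r (fun y => chr (G q.1) y k l m) q.2) (Ico 0 b ×ˢ U) :=
    fun r k l m => smooth_pd h.pos_b h.open_U (h.smooth_chr k l m) r
  simp only [ricci, Matrix.of_apply]
  refine ContDiffOn.sum fun s _ => ?_
  refine ((hp s s i j).sub (hp i s s j)).add (ContDiffOn.sum fun m _ => ?_)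
  exact ((h.smooth_chr s s m).mul (h.smooth_chr m i j)).sub
    ((h.smooth_chr s i m).mul (h.smooth_chr m s j))

theorem smooth_scal (h : LMet b U G) :
    ContDiffOn ℝ ∞ (fun q : ℝ × E3 => scal (G q.1) q.2) (Ico 0 b ×ˢ U) := by
  have h1 : ContDiffOn ℝ ∞ (fun q : ℝ × E3 => ∑ i, ∑ j, (G q.1 q.2)⁻¹ i j *
      ricci (G q.1) q.2 j i) (Ico 0 b ×ˢ U) :=
    ContDiffOn.sum fun i _ => ContDiffOn.sum fun j _ =>
      (h.smooth_inv i j).mul (h.smooth_ricci j i)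
  refine h1.congr fun q hq => ?_
  simp only [scal, Matrix.trace, Matrix.diag, Matrix.mul_apply]

theorem smooth_pten (h : LMet b U G) (i j : Fin 3) :
    ContDiffOn ℝ ∞ (fun q : ℝ × E3 => pten (G q.1) q.2 i j) (Ico 0 b ×ˢ U) := by
  have h1 : ContDiffOn ℝ ∞ (fun q : ℝ × E3 => scal (G q.1) q.2 / 2 * G q.1 q.2 i j -
      ricci (G q.1) q.2 i j) (Ico 0 b ×ˢ U) :=
    ((h.smooth_scal.div_const 2).mul (h.smooth i j)).sub (h.smooth_ricci i j)
  refine h1.congr fun q hq => ?_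
  simp only [pten, Matrix.sub_apply, Matrix.smul_apply, smul_eq_mul]

theorem smooth_rdot (h : LMet b U G) (i j : Fin 3) :
    ContDiffOn ℝ ∞ (fun q : ℝ × E3 => rdot b G q.1 q.2 i j) (Ico 0 b ×ˢ U) := by
  simp only [rdot, Matrix.of_apply]
  exact contDiffOn_const.mul (smooth_dt h.pos_b h.open_U (h.smooth i j))

end LMet

end Pool.Agent.RFS.BB
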