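import Pool.Agent.RFS.BDF

/-!
# RFS, chunk (b), module BVC: vector fields of the coordinate calculus

Proofs.
* `vec_apply`: unfold `Cal.vec`, `Derivation.add_apply`, `Derivation.coe_sum`/`Finset.sum_apply`
  (or `map_sum` for the additive map evaluate at f), `Derivation.smul_apply`, `smul_eq_mul`.
* `vec_x`, `vec_a`, `vec_base`: `vec_apply` and the fields of `Cal`, `Fin.sum_univ_three`,
  `Finset.sum_ite_eq`.
* `vec_comm`: put `X = vec u v w`, `Y = vec u' v' w'`.  By `vec_apply` and the Leibniz rule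
  `X (Y f) = X u' * dt f + ∑ X (v' k) * dx k f + ∑∑ X (w' m j) * da m j f + R X Y`,
  `R X Y = u' * X (dt f) + ∑ v' k * X (dx k f) + ∑∑ w' m j * X (da m j f)`, and
  `R X Y = R Y X`: expand with `vec_apply` again (`X (dt f) = u * dt (dt f) + ...`), use the
  commutation fields (`dt_dx`, `dt_da`, `dx_dx`, `dx_da`, `da_da`) and exchange the sums
  (`Finset.sum_comm`, `Finset.mul_sum`).  A convenient way: index all coordinates by
  `ι = Unit ⊕ Fin 3 ⊕ Fin 3 × Fin 3`, write `vec u v w f = ∑ c : ι, X c * ∂ c f`, prove the lemma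
  for a general finite commuting family `∂ : ι → Derivation ℝ B B`, and translate back
  (`Fintype.sum_sum_type`, `Fintype.sum_prod_type`).
-/

open scoped Manifold ContDiff Matrix
open Set MeasureTheory

noncomputable section

namespace Pool.Agent.RFS.BB

private theorem gen_comm {B ι : Type*} [CommRing B] [Algebra ℝ B] [Fintype ι]
    (pp : ι → Derivation ℝ B B) (hc : ∀ c d f, pp c (pp d f) = pp d (pp c f)) (X Y : ι → B)
    (f : B) :
    ∑ c, X c * pp c (∑ d, Y d * pp d f) - ∑ c, Y c * pp c (∑ d, X d * pp d f)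
      = ∑ d, ((∑ c, X c * pp c (Y d)) - ∑ c, Y c * pp c (X d)) * pp d f := by
  have h1 : ∀ X Y : ι → B, ∑ c, X c * pp c (∑ d, Y d * pp d f)
      = ∑ d, (∑ c, X c * pp c (Y d)) * pp d f + ∑ c, ∑ d, X c * Y d * pp c (pp d f) := by
    intro X Y
    have e1 : ∑ d, (∑ c, X c * pp c (Y d)) * pp d f = ∑ c, ∑ d, X c * pp c (Y d) * pp d f := by
      simp only [Finset.sum_mul]
      rw [Finset.sum_comm]
    rw [e1, ← Finset.sum_add_distrib]
    refine Finset.sum_congr rfl fun c _ => ?_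
    rw [map_sum, Finset.mul_sum, ← Finset.sum_add_distrib]
    refine Finset.sum_congr rfl fun d _ => ?_
    rw [Derivation.leibniz, smul_eq_mul, smul_eq_mul]
    ring
  have h2 : ∑ c, ∑ d, X c * Y d * pp c (pp d f) = ∑ c, ∑ d, Y c * X d * pp c (pp d f) := by
    rw [Finset.sum_comm]
    refine Finset.sum_congr rfl fun c _ => Finset.sum_congr rfl fun d _ => ?_
    rw [hc d c]
    ring
  rw [h1 X Y, h1 Y X, h2]
  simp only [sub_mul, Finset.sum_sub_distrib]
  ring

namespace Cal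

variable {B : Type*} [CommRing B] [Algebra ℝ B] (C : Cal B)

theorem vec_apply (u : B) (v : Fin 3 → B) (w : Fin 3 → Fin 3 → B) (f : B) :
    C.vec u v w f = u * C.dt f + ∑ k, v k * C.dx k f + ∑ m, ∑ j, w m j * C.da m j f := by
  simp only [vec, Fin.sum_univ_three, Derivation.add_apply, Derivation.smul_apply, smul_eq_mul]

theorem vec_x (u : B) (v : Fin 3 → B) (w : Fin 3 → Fin 3 → B) (k : Fin 3) :
    C.vec u v w (C.x k) = v k := by
  rw [vec_apply]
  simp [C.dt_x, C.dx_x, C.da_x]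

theorem vec_a (u : B) (v : Fin 3 → B) (w : Fin 3 → Fin 3 → B) (m j : Fin 3) :
    C.vec u v w (C.a m j) = w m j := by
  rw [vec_apply]
  simp [C.dt_a, C.dx_a, C.da_a, ite_and]

/-- all coordinate fields -/
private def pp : Unit ⊕ (Fin 3 ⊕ (Fin 3 × Fin 3)) → Derivation ℝ B B :=
  Sum.elim (fun _ => C.dt) (Sum.elim C.dx (fun q => C.da q.1 q.2))

private def cmp (u : B) (v : Fin 3 → B) (w : Fin 3 → Fin 3 → B) :
    Unit ⊕ (Fin 3 ⊕ (Fin 3 × Fin 3)) → B :=
  Sum.elim (fun _ => u) (Sum.elim v (fun q => w q.1 q.2))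

private theorem vec_gen (u : B) (v : Fin 3 → B) (w : Fin 3 → Fin 3 → B) (f : B) :
    C.vec u v w f = ∑ c, cmp u v w c * C.pp c f := by
  rw [vec_apply, Fintype.sum_sum_type, Fintype.sum_sum_type, Fintype.sum_prod_type]
  simp only [cmp, pp, Sum.elim_inl, Sum.elim_inr, Finset.univ_unique, Finset.sum_singleton]
  ring

private theorem pp_comm (c d : Unit ⊕ (Fin 3 ⊕ (Fin 3 × Fin 3))) (f : B) :
    C.pp c (C.pp d f) = C.pp d (C.pp c f) := by
  rcases c with c | c | c <;> rcases d with d | d | d <;>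
    simp only [pp, Sum.elim_inl, Sum.elim_inr]
  · exact C.dt_dx _ _
  · exact C.dt_da _ _ _
  · exact (C.dt_dx _ _).symm
  · exact C.dx_dx _ _ _
  · exact C.dx_da _ _ _ _
  · exact (C.dt_da _ _ _).symm
  · exact (C.dx_da _ _ _ _).symm
  · exact C.da_da _ _ _ _ _

theorem vec_comm (u u' : B) (v v' : Fin 3 → B) (w w' : Fin 3 → Fin 3 → B) (f : B) :
    C.vec u v w (C.vec u' v' w' f) - C.vec u' v' w' (C.vec u v w f) =
      C.vec (C.vec u v w u' - C.vec u' v' w' u)
        (fun k => C.vec u v w (v' k) - C.vec u' v' w' (v k))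
        (fun m j => C.vec u v w (w' m j) - C.vec u' v' w' (w m j)) f := by
  rw [C.vec_gen u v w (C.vec u' v' w' f), C.vec_gen u' v' w' (C.vec u v w f),
    C.vec_gen u' v' w' f, C.vec_gen u v w f, gen_comm C.pp C.pp_comm, C.vec_gen _ _ _ f]
  refine Finset.sum_congr rfl fun d _ => ?_
  congr 1
  rcases d with d | d | d
  · exact (congrArg₂ (· - ·) (C.vec_gen u v w u') (C.vec_gen u' v' w' u)).symm
  · exact (congrArg₂ (· - ·) (C.vec_gen u v w (v' d)) (C.vec_gen u' v' w' (v d))).symm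
  · exact (congrArg₂ (· - ·) (C.vec_gen u v w (w' d.1 d.2)) (C.vec_gen u' v' w' (w d.1 d.2))).symm

end Cal

end Pool.Agent.RFS.BB
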