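import Pool.Agent.RFS.BVC

/-!
# RFS, chunk (b), module BVV: rotations in the coordinate calculus

Proofs.  All by `vec_comm`, comparing the components, and `vec_apply`.
* `da_Gam ...`: `da m j` commutes with `dx`, `dt` and kills `g`, `gi`; Leibniz rule.
* `V_base`: `vec_apply` with `u = 0`, `v = 0`.
* `D_x`, `D_a`, `V_a`, `V_x`, `T_a`: `vec_x`, `vec_a`.
* `comm_VV`: components of `[V m, V n]` at `a M j`:
  `∑ k, eps n j k • V m (a M k) - ∑ k, eps m j k • V n (a M k)`
  `= ∑ k, ∑ l, (eps n j k * eps m k l - eps m j k * eps n k l) • a M l`, and the component of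
  `∑ k, eps m n k • V k` is `∑ k, ∑ l, (eps m n k * eps k j l) • a M l`; numerical identity of the
  Levi-Civita symbol for all values of the indices (`fin_cases`, `norm_num [eps]`, or
  `decide`-like brute force; first state it as a real identity
  `∀ m n j l, ∑ k, (eps n j k * eps m k l - eps m j k * eps n k l) = ∑ k, eps m n k * eps k j l`).
  The other components vanish.
* `comm_VD`: the `x`-component of `[V n, D i]` is `V n (a k i) = ∑ j, eps n i j • a k j`; the
  `a m p`-component is `V n (- ∑∑ Γ^m_kl a k i a l p) - D i (∑ q, eps n p q • a m q)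
  = - ∑∑ Γ^m_kl (∑ j, eps n i j a k j) a l p` (`V n` kills `Γ`, the other two terms cancel).
* `comm_TV`: the `a m j`-components of `[T, V n]`:
  `∑ k, eps n j k • T (a m k) - ∑ l (∑ p gi rt) * V n (a l j) = 0`; `V n` kills `gi`, `rt`.
* `V_P`, `V_rho`, `V_h`: Leibniz rule, `V n` kills the tensor components, `V_a`.
-/

open scoped Manifold ContDiff Matrix
open Set MeasureTheory

noncomputable section

namespace Pool.Agent.RFS.BB

private theorem eps_jac (m n j l : Fin 3) :
    ∑ k, (eps n j k * eps m k l - eps m j k * eps n k l) = ∑ k, eps m n k * eps k j l := by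
  fin_cases m <;> fin_cases n <;> fin_cases j <;> fin_cases l <;>
    norm_num [eps, Fin.sum_univ_three]

namespace Cal

variable {B : Type*} [CommRing B] [Algebra ℝ B] (C : Cal B)

theorem da_Gam (m j k i l : Fin 3) : C.da m j (C.Gam k i l) = 0 := by
  simp [Gam, ← C.dx_da, C.da_g, C.da_gi]

theorem da_ric (m j k l : Fin 3) : C.da m j (C.ric k l) = 0 := by
  simp [ric, ← C.dx_da, C.da_Gam]

theorem da_sc (m j : Fin 3) : C.da m j C.sc = 0 := by
  simp [sc, C.da_ric, C.da_gi]

theorem da_rt (m j k l : Fin 3) : C.da m j (C.rt k l) = 0 := by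
  simp [rt, ← C.dt_da, C.da_g]

theorem V_base (n : Fin 3) (f : B) (hf : ∀ m j, C.da m j f = 0) : C.V n f = 0 := by
  unfold V
  rw [vec_apply]
  simp [hf]

theorem D_x (i k : Fin 3) : C.D i (C.x k) = C.a k i := C.vec_x _ _ _ k

theorem D_a (i m j : Fin 3) :
    C.D i (C.a m j) = -∑ k, ∑ l, C.Gam m k l * C.a k i * C.a l j := C.vec_a _ _ _ m j

theorem V_x (n k : Fin 3) : C.V n (C.x k) = 0 := C.vec_x _ _ _ k

theorem V_a (n m j : Fin 3) : C.V n (C.a m j) = ∑ k, eps n j k • C.a m k := C.vec_a _ _ _ m j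

theorem T_a (m j : Fin 3) : C.T (C.a m j) = ∑ l, (∑ p, C.gi m p * C.rt p l) * C.a l j :=
  C.vec_a _ _ _ m j

private theorem V_sum (n : Fin 3) (c : Fin 3 → ℝ) (M : Fin 3) :
    C.V n (∑ k, c k • C.a M k) = ∑ k, c k • ∑ l, eps n k l • C.a M l := by
  simp only [map_sum, Derivation.map_smul, V_a]

private theorem fields_eq {u u' : B} {v v' : Fin 3 → B} {w w' : Fin 3 → Fin 3 → B} (f : B)
    (hu : u = u') (hv : ∀ k, v k = v' k) (hw : ∀ m j, w m j = w' m j) :
    C.vec u v w f = C.vec u' v' w' f := by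
  obtain rfl : v = v' := funext hv
  obtain rfl : w = w' := funext fun m => funext fun j => hw m j
  rw [hu]

private theorem sum_V (c : Fin 3 → ℝ) (f : B) :
    ∑ k, c k • C.V k f = C.vec 0 0 (fun m j => ∑ k, c k • ∑ l, eps k j l • C.a m l) f := by
  unfold V
  simp only [vec_apply, Pi.zero_apply, zero_mul, Finset.sum_const_zero, zero_add,
    Fin.sum_univ_three, Algebra.smul_def]
  ring

private theorem sum_D (c : Fin 3 → ℝ) (f : B) :
    ∑ k, c k • C.D k f = C.vec 0 (fun k => ∑ j, c j • C.a k j)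
      (fun m p => ∑ j, c j • -∑ k, ∑ l, C.Gam m k l * C.a k j * C.a l p) f := by
  unfold D
  simp only [vec_apply, zero_mul, zero_add, smul_add]
  simp only [Finset.smul_sum, Finset.sum_add_distrib, Finset.sum_mul]
  congr 1
  · rw [Finset.sum_comm]
    exact Finset.sum_congr rfl fun _ _ => Finset.sum_congr rfl fun _ _ => by
      rw [smul_mul_assoc]
  · rw [Finset.sum_comm]
    refine Finset.sum_congr rfl fun _ _ => ?_
    rw [Finset.sum_comm]
    exact Finset.sum_congr rfl fun _ _ => Finset.sum_congr rfl fun _ _ => by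
      rw [smul_mul_assoc]

theorem comm_VV (m n : Fin 3) (f : B) :
    C.V m (C.V n f) - C.V n (C.V m f) = ∑ k, eps m n k • C.V k f := by
  rw [sum_V]
  have h := C.vec_comm 0 0 0 0 (fun M j => ∑ k, eps m j k • C.a M k)
    (fun M j => ∑ k, eps n j k • C.a M k) f
  refine Eq.trans h (C.fields_eq f ?_ (fun k => ?_) (fun M j => ?_))
  · simp
  · simp
  · have h1 := C.V_sum m (fun k => eps n j k) M
    have h2 := C.V_sum n (fun k => eps m j k) M
    refine Eq.trans (congrArg₂ (· - ·) h1 h2) ?_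
    have e0 := eps_jac m n j 0
    have e1 := eps_jac m n j 1
    have e2 := eps_jac m n j 2
    simp only [Fin.sum_univ_three] at e0 e1 e2 ⊢
    have g0 := congrArg (algebraMap ℝ B) e0
    have g1 := congrArg (algebraMap ℝ B) e1
    have g2 := congrArg (algebraMap ℝ B) e2
    simp only [map_add, map_sub, map_mul] at g0 g1 g2
    simp only [Algebra.smul_def]
    linear_combination C.a M 0 * g0 + C.a M 1 * g1 + C.a M 2 * g2

theorem comm_VD (n i : Fin 3) (f : B) :
    C.V n (C.D i f) - C.D i (C.V n f) = ∑ j, eps n i j • C.D j f := by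
  rw [sum_D]
  have h := C.vec_comm 0 0 0 (fun k => C.a k i) (fun M j => ∑ k, eps n j k • C.a M k)
    (fun m j => -∑ k, ∑ l, C.Gam m k l * C.a k i * C.a l j) f
  refine Eq.trans h (C.fields_eq f ?_ (fun k => ?_) (fun M p => ?_))
  · simp
  · have h1 : C.vec 0 0 (fun M j => ∑ k, eps n j k • C.a M k) (C.a k i)
        = ∑ j, eps n i j • C.a k j := C.vec_a _ _ _ _ _
    rw [h1]
    simp
  · have hG : ∀ a b c, C.V n (C.Gam a b c) = 0 := fun a b c =>
      C.V_base n _ fun m j => C.da_Gam m j a b c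
    have h1 : C.V n (-∑ k, ∑ l, C.Gam M k l * C.a k i * C.a l p)
        = -∑ k, ∑ l, C.Gam M k l * ((∑ q, eps n i q • C.a k q) * C.a l p
          + C.a k i * ∑ q, eps n p q • C.a l q) := by
      simp only [map_neg, map_sum, Derivation.leibniz, smul_eq_mul, hG, V_a, mul_zero, add_zero]
      congr 1
      refine Finset.sum_congr rfl fun _ _ => Finset.sum_congr rfl fun _ _ => ?_
      ring
    have h2 : C.D i (∑ q, eps n p q • C.a M q)
        = ∑ q, eps n p q • -∑ k, ∑ l, C.Gam M k l * C.a k i * C.a l q := by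
      simp only [map_sum, Derivation.map_smul, D_a]
    refine Eq.trans (congrArg₂ (· - ·) h1 h2) ?_
    simp only [Fin.sum_univ_three, Algebra.smul_def]
    ring

theorem comm_TV (n : Fin 3) (f : B) : C.T (C.V n f) = C.V n (C.T f) := by
  rw [← sub_eq_zero]
  have h := C.vec_comm 1 0 0 0 (fun m j => ∑ l, (∑ p, C.gi m p * C.rt p l) * C.a l j)
    (fun M j => ∑ k, eps n j k • C.a M k) f
  have h0 : C.vec 0 0 0 f = 0 := by
    rw [vec_apply]
    simp
  refine Eq.trans (Eq.trans h (C.fields_eq f (u' := 0) (v' := 0) (w' := 0) ?_ (fun k => ?_)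
    (fun M j => ?_))) h0
  · simp
  · simp
  · have hG : ∀ a b, C.V n (C.gi a b) = 0 := fun a b => C.V_base n _ fun m j => C.da_gi m j a b
    have hR : ∀ a b, C.V n (C.rt a b) = 0 := fun a b => C.V_base n _ fun m j => C.da_rt m j a b
    have h1 : C.T (∑ k, eps n j k • C.a M k)
        = ∑ k, eps n j k • ∑ l, (∑ p, C.gi M p * C.rt p l) * C.a l k := by
      simp only [map_sum, Derivation.map_smul, T_a]
    have h2 : C.V n (∑ l, (∑ p, C.gi M p * C.rt p l) * C.a l j)
        = ∑ l, (∑ p, C.gi M p * C.rt p l) * ∑ k, eps n j k • C.a l k := by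
      simp only [map_sum, Derivation.leibniz, smul_eq_mul, hG, hR, V_a, mul_zero, add_zero,
        Finset.sum_const_zero]
    refine Eq.trans (congrArg₂ (· - ·) h1 h2) ?_
    simp only [Fin.sum_univ_three, Algebra.smul_def, Pi.zero_apply]
    ring

private theorem V_form (n : Fin 3) (M : Fin 3 → Fin 3 → B) (hM : ∀ k l, C.V n (M k l) = 0)
    (i j : Fin 3) :
    C.V n (∑ k, ∑ l, C.a k i * M k l * C.a l j)
      = ∑ q, (eps n i q • (∑ k, ∑ l, C.a k q * M k l * C.a l j)
        + eps n j q • ∑ k, ∑ l, C.a k i * M k l * C.a l q) := by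
  have h1 : C.V n (∑ k, ∑ l, C.a k i * M k l * C.a l j)
      = ∑ k, ∑ l, ((∑ q, eps n i q • C.a k q) * M k l * C.a l j
        + C.a k i * M k l * ∑ q, eps n j q • C.a l q) := by
    simp only [map_sum, Derivation.leibniz, smul_eq_mul, hM, V_a, mul_zero]
    refine Finset.sum_congr rfl fun _ _ => Finset.sum_congr rfl fun _ _ => ?_
    ring
  rw [h1]
  simp only [Fin.sum_univ_three, Algebra.smul_def]
  ring

theorem V_P (n i j : Fin 3) :
    C.V n (C.P i j) = ∑ k, (eps n i k • C.P k j + eps n j k • C.P i k) := by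
  have hM : ∀ k l, C.V n ((1 / 2 : ℝ) • (C.sc * C.g k l) - C.ric k l) = 0 := fun k l =>
    C.V_base n _ fun m j => by simp [C.da_sc, C.da_g, C.da_ric]
  exact C.V_form n _ hM i j

theorem V_rho (n i j : Fin 3) :
    C.V n (C.rho i j) = ∑ k, (eps n i k • C.rho k j + eps n j k • C.rho i k) :=
  C.V_form n _ (fun k l => C.V_base n _ fun m j => C.da_rt m j k l) i j

theorem rho_symm (i j : Fin 3) : C.rho i j = C.rho j i := by
  unfold rho
  rw [Finset.sum_comm]
  refine Finset.sum_congr rfl fun k _ => Finset.sum_congr rfl fun l _ => ?_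
  have h : C.rt l k = C.rt k l := by
    unfold rt
    rw [C.g_symm]
  rw [h]
  ring

end Cal

end Pool.Agent.RFS.BB
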