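import Pool.Agent.RFS.CLD

/-!
# RFS chunk (c), output: extension of flows with bounded curvature

The form used by the final assembly (`Extends M` of FFL).
-/

open scoped Manifold ContDiff Matrix
open Set

noncomputable section

namespace Pool.Agent.RFS

variable {M : Type} [TopologicalSpace M] [ChartedSpace E3 M] [MeasurableSpace M]

theorem extends_all (b : ℝ) (g : ℝ → RMetric M) (hb : 0 < b) (hg : IsRF g (Ico 0 b))
    (A : Type) (_ : CommRing A) (_ : Algebra ℝ A) (S : RFAlg A) (X : RFSpace.{0, 0, 0} S M b)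
    (R : FrRep X g) (hK : ∃ K : ℝ, ∀ z i j, |X.ev z (S.P i j)| ≤ K) :
    ∃ g' : ℝ → RMetric M, (∀ t ∈ Ico 0 b, g' t = g t) ∧ IsRF g' (Icc 0 b) :=
  hg.extend hb R hK

end Pool.Agent.RFS
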