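import Pool.Agent.RFS.Defs

/-!
# RFS chunk (c), module CG1: restriction, time shift and gluing of Ricci flows

PROOF. `mono`: `ContinuousOn.mono`, `HasDerivWithinAt.mono`. `congr`: the entries agree on the open
set `e.target` for all `t ∈ J`, so the iterated derivatives (`Filter.EventuallyEq.iteratedFDeriv`),
`pd`, `chr` and `ricci` agree at points of the target; `HasDerivWithinAt.congr`.
`shift`: compose with the translation `z ↦ (z.1 - b, z.2)`, `HasDerivWithinAt.comp_sub_const` or
`HasDerivWithinAt.scomp`. `glue`: `cont`: on `Icc 0 b ×ˢ target` the glued family is `g₁`, on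
`Icc b c ×ˢ target` it agrees with `g₂` on the target (at `t = b` by `hag`); two relatively closed sets
covering `Icc 0 c ×ˢ target` (`ContinuousOn.union_isClosed` or
`ContinuousWithinAt.union` at every point). `eqn`: `t < b` and `t > b` local; at `t = b`
`HasDerivWithinAt.union` of the derivatives within `Icc 0 b` and `Icc b c`, whose values agree because
`ricci` of `(g₁ b).c e` and `(g₂ b).c e` agree at `x` (functions equal on an open set).
-/

open scoped ContDiff Matrix Topology
open Set Filter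

noncomputable section

namespace Pool.Agent.RFS

variable {M : Type*} [TopologicalSpace M] [ChartedSpace E3 M]

private theorem pd_congr_cg {i : Fin 3} {f g : E3 → ℝ} {x : E3} (h : f =ᶠ[𝓝 x] g) :
    pd i f x = pd i g x := by
  unfold pd
  rw [h.fderiv_eq]

private theorem evEq_cg {β : Type*} {f g : E3 → β} {U : Set E3} (hU : IsOpen U)
    (h : ∀ x ∈ U, f x = g x) {x : E3} (hx : x ∈ U) : f =ᶠ[𝓝 x] g := by
  filter_upwards [hU.mem_nhds hx] with y hy using h y hy

private theorem chr_congr_cg {G G' : E3 → Mat3} {U : Set E3} (hU : IsOpen U)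
    (e : ∀ x ∈ U, G' x = G x) {x : E3} (hx : x ∈ U) (k i j : Fin 3) :
    chr G' x k i j = chr G x k i j := by
  unfold chr
  rw [e x hx]
  have h : ∀ a b c : Fin 3, pd a (fun y => G' y b c) x = pd a (fun y => G y b c) x := by
    intro a b c
    exact pd_congr_cg (evEq_cg hU (fun y hy => by rw [e y hy]) hx)
  simp only [h]

theorem ricci_congr {G G' : E3 → Mat3} {U : Set E3} (hU : IsOpen U)
    (e : ∀ x ∈ U, G' x = G x) {x : E3} (hx : x ∈ U) : ricci G' x = ricci G x := by
  unfold ricci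
  have h1 : ∀ k i j : Fin 3, chr G' x k i j = chr G x k i j := chr_congr_cg hU e hx
  have h2 : ∀ a k i j : Fin 3, pd a (fun y => chr G' y k i j) x = pd a (fun y => chr G y k i j) x := by
    intro a k i j
    exact pd_congr_cg (evEq_cg hU (fun y hy => chr_congr_cg hU e hy k i j) hx)
  simp only [h1, h2]

theorem IsRF.mono {g : ℝ → RMetric M} {J J' : Set ℝ} (h : IsRF g J) (hJ : J' ⊆ J) :
    IsRF g J' := by
  refine ⟨fun e i j k => (h.cont e i j k).mono (Set.prod_mono hJ le_rfl), ?_⟩
  intro e x hx t ht i j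
  exact (h.eqn e x hx t (hJ ht) i j).mono hJ

theorem IsRF.congr {g g' : ℝ → RMetric M} {J : Set ℝ} (h : IsRF g J)
    (hag : ∀ t ∈ J, ∀ e : Ch M, ∀ x ∈ e.1.target, (g' t).c e x = (g t).c e x) : IsRF g' J := by
  refine ⟨?_, ?_⟩
  · intro e i j k
    refine (h.cont e i j k).congr ?_
    rintro ⟨t, x⟩ ⟨ht, hx⟩
    have h1 : (fun y => (g' t).c e y i j) =ᶠ[𝓝 x] (fun y => (g t).c e y i j) :=
      evEq_cg e.1.open_target (fun y hy => by rw [hag t ht e y hy]) hx
    exact (h1.iteratedFDeriv ℝ k).self_of_nhds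
  · intro e x hx t ht i j
    have h1 := h.eqn e x hx t ht i j
    rw [← ricci_congr e.1.open_target (hag t ht e) hx] at h1
    exact h1.congr (fun s hs => by rw [hag s hs e x hx]) (by rw [hag t ht e x hx])

theorem IsRF.shift {g : ℝ → RMetric M} {c : ℝ} (h : IsRF g (Icc 0 c)) (b : ℝ) :
    IsRF (fun t => g (t - b)) (Icc b (b + c)) := by
  refine ⟨?_, ?_⟩
  · intro e i j k
    have h1 : ContinuousOn (fun z : ℝ × E3 => (z.1 - b, z.2)) (Icc b (b + c) ×ˢ e.1.target) :=
      (by fun_prop : Continuous (fun z : ℝ × E3 => (z.1 - b, z.2))).continuousOn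
    have h2 : MapsTo (fun z : ℝ × E3 => (z.1 - b, z.2)) (Icc b (b + c) ×ˢ e.1.target)
        (Icc 0 c ×ˢ e.1.target) := by
      rintro ⟨t, x⟩ ⟨ht, hx⟩
      have ht' : b ≤ t ∧ t ≤ b + c := ht
      exact ⟨⟨by simpa using ht'.1, by simp only; linarith [ht'.2]⟩, hx⟩
    exact (h.cont e i j k).comp h1 h2
  · intro e x hx t ht i j
    have ht' : t - b ∈ Icc 0 c := ⟨by linarith [ht.1], by linarith [ht.2]⟩
    have h1 := h.eqn e x hx (t - b) ht' i j
    have h2 : HasDerivWithinAt (fun s : ℝ => s - b) 1 (Icc b (b + c)) t :=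
      (hasDerivWithinAt_id t _).sub_const b
    have h3 : MapsTo (fun s : ℝ => s - b) (Icc b (b + c)) (Icc 0 c) := by
      intro s hs
      exact ⟨by linarith [hs.1], by linarith [hs.2]⟩
    have h4 := HasDerivWithinAt.comp t h1 h2 h3
    rw [mul_one] at h4
    exact h4

/-- Local criterion: if every `t ∈ J` has a relatively open neighbourhood in `J` on which the
family is a flow, it is a flow on `J`. -/
private theorem of_local_cg {g : ℝ → RMetric M} {J : Set ℝ}
    (h : ∀ t ∈ J, ∃ V : Set ℝ, IsOpen V ∧ t ∈ V ∧ IsRF g (J ∩ V)) : IsRF g J := by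
  refine ⟨?_, ?_⟩
  · intro e i j k
    rintro ⟨t, x⟩ ⟨ht, hx⟩
    obtain ⟨V, hV, htV, hf⟩ := h t ht
    have h1 := hf.cont e i j k (t, x) ⟨⟨ht, htV⟩, hx⟩
    refine h1.mono_of_mem_nhdsWithin ?_
    rw [mem_nhdsWithin]
    refine ⟨V ×ˢ univ, hV.prod isOpen_univ, ⟨htV, mem_univ _⟩, ?_⟩
    rintro ⟨s, y⟩ ⟨⟨hs, -⟩, hs', hy⟩
    exact ⟨⟨hs', hs⟩, hy⟩
  · intro e x hx t ht i j
    obtain ⟨V, hV, htV, hf⟩ := h t ht
    have h1 := hf.eqn e x hx t ⟨ht, htV⟩ i j
    refine h1.mono_of_mem_nhdsWithin ?_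
    rw [mem_nhdsWithin]
    refine ⟨V, hV, htV, ?_⟩
    rintro s ⟨hs, hs'⟩
    exact ⟨hs', hs⟩

theorem IsRF.glue {g₁ g₂ : ℝ → RMetric M} {b c : ℝ} (hb : 0 < b) (hbc : b < c)
    (h₁ : IsRF g₁ (Icc 0 b)) (h₂ : IsRF g₂ (Icc b c))
    (hag : ∀ e : Ch M, ∀ x ∈ e.1.target, (g₂ b).c e x = (g₁ b).c e x) :
    IsRF (fun t => if t ≤ b then g₁ t else g₂ t) (Icc 0 c) := by
  set g : ℝ → RMetric M := fun t => if t ≤ b then g₁ t else g₂ t with hg
  have k1 : IsRF g (Icc 0 b) := by
    refine h₁.congr ?_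
    intro t ht e x _
    simp only [hg]
    rw [if_pos ht.2]
  have k2 : IsRF g (Icc b c) := by
    refine h₂.congr ?_
    intro t ht e x hx
    simp only [hg]
    by_cases htb : t ≤ b
    · have : t = b := le_antisymm htb ht.1
      subst this
      rw [if_pos le_rfl]
      exact (hag e x hx).symm
    · rw [if_neg htb]
  have hu : Icc (0:ℝ) c = Icc 0 b ∪ Icc b c := (Icc_union_Icc_eq_Icc hb.le hbc.le).symm
  refine ⟨?_, ?_⟩
  · intro e i j k
    rw [hu, Set.union_prod]
    rintro ⟨t, x⟩ hz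
    have hx : x ∈ e.1.target := by
      rcases hz with hz | hz
      · exact hz.2
      · exact hz.2
    refine ContinuousWithinAt.union ?_ ?_
    · by_cases ht : t ∈ Icc 0 b
      · exact k1.cont e i j k (t, x) ⟨ht, hx⟩
      · have h0 : (t, x) ∉ closure (Icc 0 b ×ˢ e.1.target) := by
          intro hc
          rw [closure_prod_eq, closure_Icc] at hc
          exact ht hc.1
        rw [ContinuousWithinAt, notMem_closure_iff_nhdsWithin_eq_bot.mp h0]
        exact tendsto_bot
    · by_cases ht : t ∈ Icc b c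
      · exact k2.cont e i j k (t, x) ⟨ht, hx⟩
      · have h0 : (t, x) ∉ closure (Icc b c ×ˢ e.1.target) := by
          intro hc
          rw [closure_prod_eq, closure_Icc] at hc
          exact ht hc.1
        rw [ContinuousWithinAt, notMem_closure_iff_nhdsWithin_eq_bot.mp h0]
        exact tendsto_bot
  · intro e x hx t ht i j
    rw [hu]
    refine HasDerivWithinAt.union ?_ ?_
    · by_cases ht1 : t ∈ Icc 0 b
      · exact k1.eqn e x hx t ht1 i j
      · have h0 : t ∉ closure (Icc 0 b) := by rwa [closure_Icc]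
        exact (hasDerivWithinAt_iff_hasFDerivWithinAt.mpr (HasFDerivWithinAt.of_notMem_closure h0))
    · by_cases ht1 : t ∈ Icc b c
      · exact k2.eqn e x hx t ht1 i j
      · have h0 : t ∉ closure (Icc b c) := by rwa [closure_Icc]
        exact (hasDerivWithinAt_iff_hasFDerivWithinAt.mpr (HasFDerivWithinAt.of_notMem_closure h0))

/-- Local criterion: if every `t ∈ J` has a relatively open neighbourhood in `J` on which the
family is a flow, it is a flow on `J`. -/
theorem IsRF.of_local {g : ℝ → RMetric M} {J : Set ℝ}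
    (h : ∀ t ∈ J, ∃ V : Set ℝ, IsOpen V ∧ t ∈ V ∧ IsRF g (J ∩ V)) : IsRF g J :=
  of_local_cg h

end Pool.Agent.RFS
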