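import Pool.Agent.RFS.CG1

/-!
# RFS chunk (c), module CG2: the maximal Ricci flow

`Agree g g' t`: the two metrics have the same matrices on all chart targets.

PROOF. Preorder on pairs `p = (b, g)` with `0 < b`, `IsRF g (Ico 0 b)`, `Agree (g 0) g₀`:
`p ≤ q` iff `p.b ≤ q.b` and `Agree (p.g t) (q.g t)` for all `t ∈ Ico 0 p.b`. Nonempty by
`short` (restrict to `Ico 0 ε`). Every `b ≤ B`. Chains: for a nonempty chain `C` let
`b* = sSup {p.b}`; for `t ∈ Ico 0 b*` choose `p ∈ C` with `t < p.b` and put `g* t = p.g t`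
(`g* t = g₀` otherwise). For `p ∈ C` and `t ∈ Ico 0 p.b`, `g* t` agrees with `p.g t` (chain condition),
so `IsRF g* (Ico 0 p.b)` by `IsRF.congr`, and `IsRF g* (Ico 0 b*)` by `IsRF.of_local`
(`V = Iio p.b`). Zorn (`zorn_le_nonempty`-type lemma for preorders, e.g.
`exists_maximal_of_nonempty_chains_bounded`) gives a maximal `(b, g)`. If it satisfied `good` (bounded
curvature) then `ext` gives `g'` on `Icc 0 b`, `short` applied to `g' b` gives a flow `g''` on
`Icc 0 ε` from `g' b`; `shift`, `glue` give a flow on `Icc 0 (b + ε)`, a strictly larger element,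
contradiction.
-/

open scoped ContDiff Matrix Topology
open Set Filter

noncomputable section

namespace Pool.Agent.RFS

variable {M : Type*} [TopologicalSpace M] [ChartedSpace E3 M]

/-- The two metrics have the same matrices on all chart targets. -/
def Agree (g g' : RMetric M) : Prop := ∀ e : Ch M, ∀ x ∈ e.1.target, g.c e x = g'.c e x

private theorem agree_refl_cg (g : RMetric M) : Agree g g := fun _ _ _ => rfl

private theorem agree_symm_cg {g g' : RMetric M} (h : Agree g g') : Agree g' g :=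
  fun e x hx => (h e x hx).symm

private theorem agree_trans_cg {g g' g'' : RMetric M} (h : Agree g g') (h' : Agree g' g'') :
    Agree g g'' := fun e x hx => (h e x hx).trans (h' e x hx)

/-- `good b g` stands for: the curvature of `g` is bounded on `[0, b)`. -/
theorem exists_maximal_flow (good : ℝ → (ℝ → RMetric M) → Prop)
    (short : ∀ g₀ : RMetric M, ∃ ε > 0, ∃ g : ℝ → RMetric M, IsRF g (Icc 0 ε) ∧ Agree (g 0) g₀)
    (ext : ∀ (b : ℝ) (g : ℝ → RMetric M), 0 < b → IsRF g (Ico 0 b) → good b g →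
      ∃ g' : ℝ → RMetric M, (∀ t ∈ Ico 0 b, g' t = g t) ∧ IsRF g' (Icc 0 b))
    (g₀ : RMetric M) (B : ℝ)
    (hB : ∀ (b : ℝ) (g : ℝ → RMetric M), 0 < b → IsRF g (Ico 0 b) → Agree (g 0) g₀ → b ≤ B) :
    ∃ b : ℝ, 0 < b ∧ b ≤ B ∧ ∃ g : ℝ → RMetric M, IsRF g (Ico 0 b) ∧ Agree (g 0) g₀ ∧
      ¬ good b g := by
  classical
  let α := {p : ℝ × (ℝ → RMetric M) // 0 < p.1 ∧ IsRF p.2 (Ico 0 p.1) ∧ Agree (p.2 0) g₀}
  let r : α → α → Prop := fun p q => p.1.1 ≤ q.1.1 ∧ ∀ t ∈ Ico 0 p.1.1, Agree (p.1.2 t) (q.1.2 t)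
  have hne : Nonempty α := by
    obtain ⟨ε, hε, g, hg, hg0⟩ := short g₀
    exact ⟨⟨(ε, g), hε, hg.mono Ico_subset_Icc_self, hg0⟩⟩
  have htrans : ∀ {p q s : α}, r p q → r q s → r p s := by
    intro p q s h1 h2
    refine ⟨h1.1.trans h2.1, ?_⟩
    intro t ht
    exact agree_trans_cg (h1.2 t ht) (h2.2 t ⟨ht.1, ht.2.trans_le h1.1⟩)
  have hchain : ∀ C : Set α, IsChain r C → C.Nonempty → ∃ ub, ∀ p ∈ C, r p ub := by
    intro C hC hCne
    let S : Set ℝ := (fun p : α => p.1.1) '' C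
    have hSne : S.Nonempty := hCne.image _
    have hSB : BddAbove S := by
      refine ⟨B, ?_⟩
      rintro _ ⟨p, _, rfl⟩
      exact hB p.1.1 p.1.2 p.2.1 p.2.2.1 p.2.2.2
    let G : ℝ → RMetric M := fun t =>
      if h : ∃ p ∈ C, t < (p : α).1.1 then (Classical.choose h).1.2 t else g₀
    have hG : ∀ p ∈ C, ∀ t ∈ Ico 0 (p : α).1.1, Agree (p.1.2 t) (G t) := by
      intro p hp t ht
      have hex : ∃ p ∈ C, t < (p : α).1.1 := ⟨p, hp, ht.2⟩
      have hGt : G t = (Classical.choose hex).1.2 t := by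
        simp only [G]
        rw [dif_pos hex]
      rw [hGt]
      have hq := Classical.choose_spec hex
      by_cases hpq : p = Classical.choose hex
      · rw [← hpq]
        exact agree_refl_cg _
      · rcases hC hp hq.1 hpq with h | h
        · exact h.2 t ht
        · exact agree_symm_cg (h.2 t ⟨ht.1, hq.2⟩)
    have hpos : 0 < sSup S := by
      obtain ⟨p, hp⟩ := hCne
      exact p.2.1.trans_le (le_csSup hSB ⟨p, hp, rfl⟩)
    have hflow : IsRF G (Ico 0 (sSup S)) := by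
      refine IsRF.of_local ?_
      intro t ht
      obtain ⟨_, ⟨p, hp, rfl⟩, htp⟩ := exists_lt_of_lt_csSup hSne ht.2
      refine ⟨Iio p.1.1, isOpen_Iio, htp, ?_⟩
      have h1 : IsRF G (Ico 0 p.1.1) := by
        refine p.2.2.1.congr ?_
        intro s hs e x hx
        exact ((hG p hp s hs) e x hx).symm
      exact h1.mono (fun s hs => ⟨hs.1.1, hs.2⟩)
    have hG0 : Agree (G 0) g₀ := by
      obtain ⟨p, hp⟩ := hCne
      exact agree_trans_cg (agree_symm_cg (hG p hp 0 ⟨le_rfl, p.2.1⟩)) p.2.2.2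
    refine ⟨⟨(sSup S, G), hpos, hflow, hG0⟩, ?_⟩
    intro p hp
    exact ⟨le_csSup hSB ⟨p, hp, rfl⟩, hG p hp⟩
  obtain ⟨m, hm⟩ := exists_maximal_of_nonempty_chains_bounded hchain htrans
  obtain ⟨⟨b, g⟩, hb, hg, hg0⟩ := m
  simp only at hb hg hg0
  refine ⟨b, hb, hB b g hb hg hg0, g, hg, hg0, ?_⟩
  intro hgood
  obtain ⟨g', hg', hf'⟩ := ext b g hb hg hgood
  obtain ⟨ε, hε, g'', hf'', hg''⟩ := short (g' b)
  have h2 := hf''.shift b
  have hbc : b < b + ε := by linarith
  have h3 : IsRF (fun t => if t ≤ b then g' t else g'' (t - b)) (Icc 0 (b + ε)) := by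
    refine IsRF.glue hb hbc hf' h2 ?_
    intro e x hx
    simp only [sub_self]
    exact hg'' e x hx
  have h4 : Agree ((fun t => if t ≤ b then g' t else g'' (t - b)) 0) g₀ := by
    simp only [if_pos hb.le]
    rw [hg' 0 ⟨le_rfl, hb⟩]
    exact hg0
  have h5 := hm ⟨(b + ε, fun t => if t ≤ b then g' t else g'' (t - b)), by simp only; linarith,
    h3.mono Ico_subset_Icc_self, h4⟩ (by
      refine ⟨by simp only; linarith, ?_⟩
      intro t ht
      simp only at ht ⊢
      rw [if_pos ht.2.le, hg' t ht]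
      exact agree_refl_cg _)
  have h6 : b + ε ≤ b := h5.1
  linarith

end Pool.Agent.RFS
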