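import Mathlib

/-! Mixed partial derivatives: if d_t f = f' and f' has a jointly continuous spatial derivative,
then d_t (D_x f) = D_x f'.  Version within a convex set of times, and open version. -/

open Set Filter Topology
open scoped ContDiff

namespace Pool.Agent.RFS

variable {E F : Type*} [NormedAddCommGroup E] [NormedSpace ℝ E] [NormedAddCommGroup F]
  [NormedSpace ℝ F]

theorem hasDerivWithinAt_fderiv_of_continuous {J : Set ℝ} (hJ : Convex ℝ J) {U : Set E}
    (hU : IsOpen U) {f f' : ℝ → E → F}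
    (hf : ∀ t ∈ J, DifferentiableOn ℝ (f t) U)
    (hf' : ∀ t ∈ J, DifferentiableOn ℝ (f' t) U)
    (hder : ∀ t ∈ J, ∀ x ∈ U, HasDerivWithinAt (fun s => f s x) (f' t x) J t)
    (hcont : ContinuousOn (fun p : ℝ × E => fderiv ℝ (f' p.1) p.2) (J ×ˢ U))
    {t : ℝ} (ht : t ∈ J) {x : E} (hx : x ∈ U) :
    HasDerivWithinAt (fun s => fderiv ℝ (f s) x) (fderiv ℝ (f' t) x) J t := by
  rw [hasDerivWithinAt_iff_isLittleO, Asymptotics.isLittleO_iff]
  intro ε hε
  -- choose a product neighbourhood on which the derivative of f' is within ε/2 of its value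
  have hc : ContinuousWithinAt (fun p : ℝ × E => fderiv ℝ (f' p.1) p.2) (J ×ˢ U) (t, x) :=
    hcont _ ⟨ht, hx⟩
  have hc2 := (Metric.continuousWithinAt_iff.1 hc) (ε / 2) (by positivity)
  obtain ⟨δ, hδ, hδ'⟩ := hc2
  obtain ⟨δ₂, hδ₂, hU₂⟩ := Metric.isOpen_iff.1 hU x hx
  set r := min δ δ₂ with hr
  have hr0 : 0 < r := by positivity
  have hrδ : r ≤ δ := min_le_left _ _
  have hr2 : r ≤ δ₂ := min_le_right _ _
  have hBU : ∀ y, dist y x < r → y ∈ U := fun y hy => hU₂ (lt_of_lt_of_le hy hr2)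
  have hclose : ∀ s y, s ∈ J → dist s t < r → dist y x < r →
      ‖fderiv ℝ (f' s) y - fderiv ℝ (f' t) x‖ < ε / 2 := by
    intro s y hsJ hs hy
    have := @hδ' (s, y) ⟨hsJ, hBU y hy⟩ (by
      rw [Prod.dist_eq]; exact max_lt (lt_of_lt_of_le hs hrδ) (lt_of_lt_of_le hy hrδ))
    simpa [dist_eq_norm] using this
  filter_upwards [inter_mem_nhdsWithin J (Metric.ball_mem_nhds t hr0)] with s hs'
  obtain ⟨hsJ, hs⟩ := hs'
  rw [Metric.mem_ball] at hs
  have hsegJ : ∀ q ∈ uIcc t s, q ∈ J := by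
    intro q hq
    exact hJ.ordConnected.uIcc_subset ht hsJ hq
  -- Lipschitz bound for φ y = f s y - f t y - (s - t) • f' t y ... around x
  have key : ∀ y, dist y x < r →
      ‖(f s y - f t y - (s - t) • (fderiv ℝ (f' t) x) y)
        - (f s x - f t x - (s - t) • (fderiv ℝ (f' t) x) x)‖ ≤ (ε / 2 * ‖y - x‖) * |s - t| := by
    intro y hy
    -- mean value in time
    have hseg : ∀ q ∈ uIcc t s, dist q t < r := by
      intro q hq
      rw [Real.dist_eq] at hs ⊢
      exact lt_of_le_of_lt (abs_sub_left_of_mem_uIcc hq) hs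
    have hmv := Convex.norm_image_sub_le_of_norm_hasDerivWithin_le (𝕜 := ℝ)
      (f := fun q => f q y - f q x - q • (fderiv ℝ (f' t) x) (y - x))
      (f' := fun q => f' q y - f' q x - (fderiv ℝ (f' t) x) (y - x))
      (s := uIcc t s) (C := ε / 2 * ‖y - x‖) (x := t) (y := s) ?_ ?_ (convex_uIcc t s)
      left_mem_uIcc right_mem_uIcc
    · simp only [map_sub] at hmv
      refine le_trans (le_of_eq ?_) (le_trans hmv (le_of_eq (by rw [Real.norm_eq_abs])))
      congr 1
      simp only [smul_sub, sub_smul]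
      abel
    · intro q hq
      have hqJ := hsegJ q hq
      have h1 := (hder q hqJ y (hBU y hy)).mono (fun q hq => hsegJ q hq)
      have h2 := (hder q hqJ x hx).mono (fun q hq => hsegJ q hq)
      have h3 : HasDerivWithinAt (fun q : ℝ => q • (fderiv ℝ (f' t) x) (y - x))
          ((fderiv ℝ (f' t) x) (y - x)) (uIcc t s) q := by
        simpa using ((hasDerivAt_id q).smul_const ((fderiv ℝ (f' t) x) (y - x))).hasDerivWithinAt
      exact ((h1.sub h2).sub h3)
    · intro q hq
      have hqr := hseg q hq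
      have hqJ := hsegJ q hq
      have hball : ∀ z ∈ Metric.ball x r,
          HasFDerivWithinAt (fun z => f' q z - (fderiv ℝ (f' t) x) z)
            (fderiv ℝ (f' q) z - fderiv ℝ (f' t) x) (Metric.ball x r) z := by
        intro z hz
        have hzU := hBU z hz
        have hd : DifferentiableAt ℝ (f' q) z := (hf' q hqJ).differentiableAt (hU.mem_nhds hzU)
        exact (hd.hasFDerivAt.sub (fderiv ℝ (f' t) x).hasFDerivAt).hasFDerivWithinAt
      have hmv2 := Convex.norm_image_sub_le_of_norm_hasFDerivWithin_le (C := ε / 2) hball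
        (fun z hz => (hclose q z hqJ hqr hz).le) (convex_ball x r)
        (Metric.mem_ball_self hr0) (Metric.mem_ball.2 hy)
      refine le_trans (le_of_eq ?_) hmv2
      congr 1
      simp only [map_sub]
      abel
  -- conclude on the derivative at x
  have hfs : DifferentiableAt ℝ (f s) x := (hf s hsJ).differentiableAt (hU.mem_nhds hx)
  have hft : DifferentiableAt ℝ (f t) x := (hf t ht).differentiableAt (hU.mem_nhds hx)
  have hφ : HasFDerivAt (fun y => f s y - f t y - (s - t) • (fderiv ℝ (f' t) x) y)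
      (fderiv ℝ (f s) x - fderiv ℝ (f t) x - (s - t) • fderiv ℝ (f' t) x) x :=
    ((hfs.hasFDerivAt.sub hft.hasFDerivAt).sub
      ((fderiv ℝ (f' t) x).hasFDerivAt.const_smul (s - t)))
  have hle : ‖fderiv ℝ (f s) x - fderiv ℝ (f t) x - (s - t) • fderiv ℝ (f' t) x‖
      ≤ ε / 2 * |s - t| := by
    refine hφ.le_of_lip' (by positivity) ?_
    filter_upwards [Metric.ball_mem_nhds x hr0] with y hy
    refine (key y (Metric.mem_ball.1 hy)).trans (le_of_eq (by ring))
  calc ‖fderiv ℝ (f s) x - fderiv ℝ (f t) x - (s - t) • fderiv ℝ (f' t) x‖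
      ≤ ε / 2 * |s - t| := hle
    _ ≤ ε * ‖s - t‖ := by
        rw [Real.norm_eq_abs]
        nlinarith [abs_nonneg (s - t)]

/-- Version for an open interval of times. -/
theorem hasDerivAt_fderiv_of_continuous {J : Set ℝ} (hJ : IsOpen J) (hJc : Convex ℝ J)
    {U : Set E} (hU : IsOpen U) {f f' : ℝ → E → F}
    (hf : ∀ t ∈ J, DifferentiableOn ℝ (f t) U)
    (hf' : ∀ t ∈ J, DifferentiableOn ℝ (f' t) U)
    (hder : ∀ t ∈ J, ∀ x ∈ U, HasDerivAt (fun s => f s x) (f' t x) t)
    (hcont : ContinuousOn (fun p : ℝ × E => fderiv ℝ (f' p.1) p.2) (J ×ˢ U))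
    {t : ℝ} (ht : t ∈ J) {x : E} (hx : x ∈ U) :
    HasDerivAt (fun s => fderiv ℝ (f s) x) (fderiv ℝ (f' t) x) t :=
  (hasDerivWithinAt_fderiv_of_continuous hJc hU hf hf'
    (fun t ht x hx => (hder t ht x hx).hasDerivWithinAt) hcont ht hx).hasDerivAt
    (hJ.mem_nhds ht)

end Pool.Agent.RFS
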