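import Mathlib

/-! Functions of (t, x) all of whose spatial derivatives are jointly C^n. -/

open Set Filter Topology
open scoped ContDiff

namespace Pool.Agent.RFS

/-- Every slice is smooth on U and all its iterated derivatives are jointly C^n on J x U. -/
structure SpC (n : ℕ) (J : Set ℝ) {E F : Type} [NormedAddCommGroup E] [NormedSpace ℝ E]
    [NormedAddCommGroup F] [NormedSpace ℝ F] (U : Set E) (h : ℝ → E → F) : Prop where
  smooth : ∀ t ∈ J, ContDiffOn ℝ ∞ (h t) U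
  joint : ∀ k : ℕ, ContDiffOn ℝ n (fun p : ℝ × E => iteratedFDeriv ℝ k (h p.1) p.2) (J ×ˢ U)

section basic

variable {E F G : Type} [NormedAddCommGroup E] [NormedSpace ℝ E] [NormedAddCommGroup F]
  [NormedSpace ℝ F] [NormedAddCommGroup G] [NormedSpace ℝ G]
  {n : ℕ} {J : Set ℝ} {U : Set E} {h : ℝ → E → F}

theorem SpC.uncurry (H : SpC n J U h) : ContDiffOn ℝ n (fun p : ℝ × E => h p.1 p.2) (J ×ˢ U) := by
  have := H.joint 0
  have h2 := ((continuousMultilinearCurryFin0 ℝ E F).contDiff (n := n)).comp_contDiffOn this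
  refine h2.congr ?_
  intro p _
  simp [iteratedFDeriv_zero_eq_comp]

theorem iteratedFDeriv_fderiv_eq (k : ℕ) (f : E → F) (x : E) :
    iteratedFDeriv ℝ k (fun y => _root_.fderiv ℝ f y) x
      = (continuousMultilinearCurryRightEquiv' ℝ k E F) (iteratedFDeriv ℝ (k + 1) f x) := by
  rw [iteratedFDeriv_succ_eq_comp_right]
  simp

theorem SpC.fderiv (hU : IsOpen U) (H : SpC n J U h) :
    SpC n J U (fun t x => _root_.fderiv ℝ (h t) x) := by
  refine ⟨fun t ht => ((H.smooth t ht).fderiv_of_isOpen hU (by norm_cast)), fun k => ?_⟩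
  have hc : ContDiff ℝ n (continuousMultilinearCurryRightEquiv' ℝ k E F) := by fun_prop
  have h2 := hc.comp_contDiffOn (H.joint (k + 1))
  refine h2.congr ?_
  intro p _
  exact iteratedFDeriv_fderiv_eq k (h p.1) p.2

theorem SpC.prodMk {h' : ℝ → E → G} (hU : IsOpen U) (H : SpC n J U h) (H' : SpC n J U h') :
    SpC n J U (fun t x => (h t x, h' t x)) := by
  refine ⟨fun t ht => (H.smooth t ht).prodMk (H'.smooth t ht), fun k => ?_⟩
  have h2 := ((ContinuousMultilinearMap.prodL ℝ (fun _ : Fin k => E) F G).contDiff (n := n)).comp_contDiffOn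
    ((H.joint k).prodMk (H'.joint k))
  refine h2.congr ?_
  intro p hp
  have h3 := iteratedFDeriv_prodMk (𝕜 := ℝ) (f := h p.1) (g := h' p.1) (n := ∞)
    ((H.smooth p.1 hp.1).contDiffAt (hU.mem_nhds hp.2))
    ((H'.smooth p.1 hp.1).contDiffAt (hU.mem_nhds hp.2)) (i := k) (by exact_mod_cast le_top)
  rw [h3]
  rfl

theorem SpC.congr {h' : ℝ → E → F} (hU : IsOpen U) (H : SpC n J U h)
    (e : ∀ t ∈ J, ∀ x ∈ U, h' t x = h t x) : SpC n J U h' := by
  refine ⟨fun t ht => (H.smooth t ht).congr (e t ht), fun k => (H.joint k).congr ?_⟩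
  intro p hp
  have : h' p.1 =ᶠ[𝓝 p.2] h p.1 := by
    filter_upwards [hU.mem_nhds hp.2] with x hx using e _ hp.1 x hx
  exact this.iteratedFDeriv ℝ k |>.eq_of_nhds

end basic

/-- Auxiliary form of the composition lemma, by induction on the order of the derivative. -/
theorem SpC.comp_aux {E : Type} [NormedAddCommGroup E] [NormedSpace ℝ E] {n : ℕ} {J : Set ℝ}
    {U : Set E} (hU : IsOpen U) (k : ℕ) :
    ∀ {F G : Type} [NormedAddCommGroup F] [NormedSpace ℝ F] [NormedAddCommGroup G]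
      [NormedSpace ℝ G] {h : ℝ → E → F} {V : Set F} {Φ : F → G}, SpC n J U h → IsOpen V →
      ContDiffOn ℝ ∞ Φ V → (∀ t ∈ J, ∀ x ∈ U, h t x ∈ V) →
      ContDiffOn ℝ n (fun p : ℝ × E => iteratedFDeriv ℝ k (fun x => Φ (h p.1 x)) p.2) (J ×ˢ U) := by
  induction k with
  | zero =>
    intro F G _ _ _ _ h V Φ H hV hΦ hm
    have h1 : ContDiffOn ℝ n (fun p : ℝ × E => Φ (h p.1 p.2)) (J ×ˢ U) :=
      (hΦ.of_le (by exact_mod_cast le_top)).comp H.uncurry (fun p hp => hm _ hp.1 _ hp.2)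
    have h2 := ((continuousMultilinearCurryFin0 ℝ E G).symm.contDiff (n := n)).comp_contDiffOn h1
    refine h2.congr ?_
    intro p _
    simp [iteratedFDeriv_zero_eq_comp]
  | succ k ih =>
    intro F G _ _ _ _ h V Φ H hV hΦ hm
    -- the function (y, A) ↦ (fderiv Φ y) ∘ A
    let Ψ : F × (E →L[ℝ] F) → (E →L[ℝ] G) := fun q => (_root_.fderiv ℝ Φ q.1).comp q.2
    have hΨ : ContDiffOn ℝ ∞ Ψ (V ×ˢ univ) := by
      have h1 : ContDiffOn ℝ ∞ (fun q : F × (E →L[ℝ] F) => _root_.fderiv ℝ Φ q.1) (V ×ˢ univ) :=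
        (hΦ.fderiv_of_isOpen hV (by norm_cast)).comp contDiffOn_fst (fun q hq => hq.1)
      exact h1.clm_comp contDiffOn_snd
    have H2 : SpC n J U (fun t x => (h t x, _root_.fderiv ℝ (h t) x)) := H.prodMk hU (H.fderiv hU)
    have h1 := ih H2 (hV.prod isOpen_univ) hΨ (fun t ht x hx => ⟨hm t ht x hx, mem_univ _⟩)
    have h2 := ((continuousMultilinearCurryRightEquiv' ℝ k E G).symm.contDiff (n := n)).comp_contDiffOn h1
    refine h2.congr ?_
    intro p hp
    have e : (fun x => _root_.fderiv ℝ (fun x => Φ (h p.1 x)) x) =ᶠ[𝓝 p.2]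
        (fun x => Ψ (h p.1 x, _root_.fderiv ℝ (h p.1) x)) := by
      filter_upwards [hU.mem_nhds hp.2] with x hx
      have hd1 : DifferentiableAt ℝ Φ (h p.1 x) :=
        (hΦ.contDiffAt (hV.mem_nhds (hm _ hp.1 _ hx))).differentiableAt (by simp)
      have hd2 : DifferentiableAt ℝ (h p.1) x :=
        ((H.smooth _ hp.1).contDiffAt (hU.mem_nhds hx)).differentiableAt (by simp)
      exact fderiv_comp x hd1 hd2
    rw [iteratedFDeriv_succ_eq_comp_right]
    simp only [Function.comp_apply]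
    rw [(e.iteratedFDeriv ℝ k).eq_of_nhds]

theorem SpC.comp {E F G : Type} [NormedAddCommGroup E] [NormedSpace ℝ E] [NormedAddCommGroup F]
    [NormedSpace ℝ F] [NormedAddCommGroup G] [NormedSpace ℝ G] {n : ℕ} {J : Set ℝ} {U : Set E}
    {h : ℝ → E → F} {V : Set F} {Φ : F → G} (hU : IsOpen U) (H : SpC n J U h) (hV : IsOpen V)
    (hΦ : ContDiffOn ℝ ∞ Φ V) (hm : ∀ t ∈ J, ∀ x ∈ U, h t x ∈ V) :
    SpC n J U (fun t x => Φ (h t x)) :=
  ⟨fun t ht => hΦ.comp (H.smooth t ht) (fun x hx => hm t ht x hx),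
    fun k => SpC.comp_aux hU k H hV hΦ hm⟩

end Pool.Agent.RFS
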