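import Pool.Agent.RFS.CJ1
import Pool.Agent.RFS.CJ2

/-! Functions whose spatial and time derivatives have jointly C^n spatial derivatives. -/

open Set Filter Topology
open scoped ContDiff

namespace Pool.Agent.RFS

section

variable {E F : Type} [NormedAddCommGroup E] [NormedSpace ℝ E] [NormedAddCommGroup F]
  [NormedSpace ℝ F] {n : ℕ} {J : Set ℝ} {U : Set E} {f f' : ℝ → E → F}

theorem contDiff_toSpanSingleton_real {W : Type} [NormedAddCommGroup W] [NormedSpace ℝ W]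
    (m : WithTop ℕ∞) :
    ContDiff ℝ m (fun w : W => ContinuousLinearMap.toSpanSingleton ℝ w) :=
  (ContinuousLinearMap.toSpanSingletonLIE ℝ W).contDiff

theorem contDiff_coprod_real {W : Type} [NormedAddCommGroup W] [NormedSpace ℝ W]
    (m : WithTop ℕ∞) :
    ContDiff ℝ m (fun q : (ℝ →L[ℝ] W) × (E →L[ℝ] W) => q.1.coprod q.2) :=
  (ContinuousLinearMap.coprodEquivL (𝕜 := ℝ) (S := ℝ) (E := ℝ) (F := E) (G := W)).contDiff

/-- Total derivative from partial derivatives, within a set of times. -/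
theorem hasFDerivWithinAt_of_partials {W : Type} [NormedAddCommGroup W] [NormedSpace ℝ W]
    (hU : IsOpen U) {g : ℝ → E → W} {g' : W} {gx : ℝ → E → (E →L[ℝ] W)}
    {t : ℝ} (htJ : t ∈ J) {x : E} (hxU : x ∈ U)
    (ht : HasDerivWithinAt (fun s => g s x) g' J t)
    (hx : ∀ t ∈ J, ∀ x ∈ U, HasFDerivAt (fun y => g t y) (gx t x) x)
    (hxC : ContinuousWithinAt (fun p : ℝ × E => gx p.1 p.2) (J ×ˢ U) (t, x)) :
    HasFDerivWithinAt (fun p : ℝ × E => g p.1 p.2)
      ((ContinuousLinearMap.toSpanSingleton ℝ g').coprod (gx t x)) (J ×ˢ U) (t, x) := by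
  rw [hasFDerivWithinAt_iff_isLittleO, Asymptotics.isLittleO_iff]
  intro ε hε
  have h1 := (hasDerivWithinAt_iff_isLittleO.1 ht)
  rw [Asymptotics.isLittleO_iff] at h1
  have h1' := h1 (c := ε / 2) (by positivity)
  obtain ⟨δ₁, hδ₁, hδ₁'⟩ := Metric.mem_nhdsWithin_iff.1 h1'
  obtain ⟨δ₂, hδ₂, hδ₂'⟩ := (Metric.continuousWithinAt_iff.1 hxC) (ε / 2) (by positivity)
  obtain ⟨δ₃, hδ₃, hU₃⟩ := Metric.isOpen_iff.1 hU x hxU
  set r := min δ₁ (min δ₂ δ₃) with hr
  have hr0 : 0 < r := by positivity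
  have hr1 : r ≤ δ₁ := min_le_left _ _
  have hr2 : r ≤ δ₂ := (min_le_right _ _).trans (min_le_left _ _)
  have hr3 : r ≤ δ₃ := (min_le_right _ _).trans (min_le_right _ _)
  filter_upwards [inter_mem_nhdsWithin (J ×ˢ U) (Metric.ball_mem_nhds (t, x) hr0)] with p hp
  obtain ⟨⟨hpJ, hpU⟩, hpb⟩ := hp
  obtain ⟨s, y⟩ := p
  rw [Metric.mem_ball, Prod.dist_eq, max_lt_iff] at hpb
  simp only at hpb hpJ hpU
  have hb : ∀ z ∈ Metric.ball x r, HasFDerivWithinAt (fun z => g s z - (gx t x) z)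
      (gx s z - gx t x) (Metric.ball x r) z := by
    intro z hz
    exact ((hx s hpJ z (hU₃ (lt_of_lt_of_le hz hr3))).sub
      (gx t x).hasFDerivAt).hasFDerivWithinAt
  have hbd : ∀ z ∈ Metric.ball x r, ‖gx s z - gx t x‖ ≤ ε / 2 := by
    intro z hz
    have := @hδ₂' (s, z) ⟨hpJ, hU₃ (lt_of_lt_of_le hz hr3)⟩ (by
      rw [Prod.dist_eq]
      exact max_lt (lt_of_lt_of_le hpb.1 hr2) (lt_of_lt_of_le hz hr2))
    simpa [dist_eq_norm] using this.le
  have hmv := Convex.norm_image_sub_le_of_norm_hasFDerivWithin_le (C := ε / 2) hb hbd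
    (convex_ball x r) (Metric.mem_ball_self hr0) (Metric.mem_ball.2 hpb.2)
  have htm : ‖g s x - g t x - (s - t) • g'‖ ≤ ε / 2 * ‖s - t‖ :=
    hδ₁' ⟨lt_of_lt_of_le hpb.1 hr1, hpJ⟩
  have e1 : ‖s - t‖ ≤ ‖((s, y) : ℝ × E) - (t, x)‖ := by
    rw [Prod.mk_sub_mk, Prod.norm_mk]; exact le_max_left _ _
  have e2 : ‖y - x‖ ≤ ‖((s, y) : ℝ × E) - (t, x)‖ := by
    rw [Prod.mk_sub_mk, Prod.norm_mk]; exact le_max_right _ _
  calc ‖g s y - g t x - ((ContinuousLinearMap.toSpanSingleton ℝ g').coprod (gx t x))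
        ((s, y) - (t, x))‖
      = ‖((g s y - (gx t x) y) - (g s x - (gx t x) x)) + (g s x - g t x - (s - t) • g')‖ := by
        congr 1
        simp only [Prod.mk_sub_mk, ContinuousLinearMap.coprod_apply,
          ContinuousLinearMap.toSpanSingleton_apply, map_sub, sub_smul]
        abel
    _ ≤ ‖(g s y - (gx t x) y) - (g s x - (gx t x) x)‖ + ‖g s x - g t x - (s - t) • g'‖ :=
        norm_add_le _ _
    _ ≤ ε / 2 * ‖y - x‖ + ε / 2 * ‖s - t‖ := add_le_add hmv htm
    _ ≤ ε / 2 * ‖((s, y) : ℝ × E) - (t, x)‖ + ε / 2 * ‖((s, y) : ℝ × E) - (t, x)‖ := by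
        gcongr
    _ = ε * ‖((s, y) : ℝ × E) - (t, x)‖ := by ring

/-- A function of (t, x) whose two partial derivatives are jointly C^n is jointly C^(n+1). -/
theorem contDiffOn_succ_of_partials {W : Type} [NormedAddCommGroup W] [NormedSpace ℝ W]
    (hJ : UniqueDiffOn ℝ J) (hU : IsOpen U) {g g' : ℝ → E → W} {gx : ℝ → E → (E →L[ℝ] W)}
    (ht : ∀ t ∈ J, ∀ x ∈ U, HasDerivWithinAt (fun s => g s x) (g' t x) J t)
    (hx : ∀ t ∈ J, ∀ x ∈ U, HasFDerivAt (fun y => g t y) (gx t x) x)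
    (htC : ContDiffOn ℝ n (fun p : ℝ × E => g' p.1 p.2) (J ×ˢ U))
    (hxC : ContDiffOn ℝ n (fun p : ℝ × E => gx p.1 p.2) (J ×ˢ U)) :
    ContDiffOn ℝ ((n + 1 : ℕ) : WithTop ℕ∞) (fun p : ℝ × E => g p.1 p.2) (J ×ˢ U) := by
  have huniq : UniqueDiffOn ℝ (J ×ˢ U) := hJ.prod hU.uniqueDiffOn
  let D : ℝ × E → (ℝ × E →L[ℝ] W) := fun p =>
    (ContinuousLinearMap.toSpanSingleton ℝ (g' p.1 p.2)).coprod (gx p.1 p.2)
  have hD : ∀ p ∈ J ×ˢ U, HasFDerivWithinAt (fun p : ℝ × E => g p.1 p.2) (D p) (J ×ˢ U) p := by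
    rintro ⟨t, x⟩ hp
    exact hasFDerivWithinAt_of_partials hU hp.1 hp.2 (ht t hp.1 x hp.2) hx
      (hxC.continuousOn _ hp)
  rw [show ((n + 1 : ℕ) : WithTop ℕ∞) = (n : WithTop ℕ∞) + 1 by norm_cast]
  rw [contDiffOn_succ_iff_fderivWithin huniq]
  refine ⟨fun p hp => (hD p hp).differentiableWithinAt, by simp, ?_⟩
  have hDC : ContDiffOn ℝ n D (J ×ˢ U) := by
    have h1 : ContDiffOn ℝ n (fun p : ℝ × E =>
        ContinuousLinearMap.toSpanSingleton ℝ (g' p.1 p.2)) (J ×ˢ U) :=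
      (contDiff_toSpanSingleton_real n).comp_contDiffOn htC
    exact (contDiff_coprod_real n).comp_contDiffOn (h1.prodMk hxC)
  exact hDC.congr (fun p hp => (hD p hp).fderivWithin (huniq p hp))

/-- The time derivative commutes with iterated spatial derivatives. -/
theorem hasDerivWithinAt_iteratedFDeriv (hJ : Convex ℝ J) (hU : IsOpen U)
    (hf : SpC 0 J U f) (hf' : SpC 0 J U f')
    (hder : ∀ t ∈ J, ∀ x ∈ U, HasDerivWithinAt (fun s => f s x) (f' t x) J t) (k : ℕ) :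
    ∀ t ∈ J, ∀ x ∈ U,
      HasDerivWithinAt (fun s => iteratedFDeriv ℝ k (f s) x) (iteratedFDeriv ℝ k (f' t) x) J t := by
  induction k with
  | zero =>
    intro t ht x hx
    have h1 := ((continuousMultilinearCurryFin0 ℝ E F).symm.toContinuousLinearEquiv
      : F ≃L[ℝ] _).toContinuousLinearMap.hasFDerivAt.comp_hasDerivWithinAt t (hder t ht x hx)
    refine (h1.congr_deriv ?_).congr_of_eventuallyEq ?_ ?_
    · simp [iteratedFDeriv_zero_eq_comp]
    · exact Eventually.of_forall (fun s => by simp [iteratedFDeriv_zero_eq_comp])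
    · simp [iteratedFDeriv_zero_eq_comp]
  | succ k ih =>
    intro t ht x hx
    have h1 := hasDerivWithinAt_fderiv_of_continuous (J := J) hJ (U := U) hU
      (f := fun s y => iteratedFDeriv ℝ k (f s) y) (f' := fun s y => iteratedFDeriv ℝ k (f' s) y)
      (fun s hs y hy => ?_) (fun s hs y hy => ?_) ih ?_ ht hx
    · have h2 := ((continuousMultilinearCurryLeftEquiv ℝ (fun _ : Fin (k + 1) => E)
        F).symm.toContinuousLinearEquiv).toContinuousLinearMap.hasFDerivAt.comp_hasDerivWithinAt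
        t h1
      refine (h2.congr_deriv ?_).congr_of_eventuallyEq ?_ ?_
      · rfl
      · exact Eventually.of_forall (fun s => rfl)
      · rfl
    · have := ((hf.smooth s hs).contDiffAt (hU.mem_nhds hy)).differentiableAt_iteratedFDeriv
        (m := k) (by exact_mod_cast ENat.natCast_lt_top k)
      exact this.differentiableWithinAt
    · have := ((hf'.smooth s hs).contDiffAt (hU.mem_nhds hy)).differentiableAt_iteratedFDeriv
        (m := k) (by exact_mod_cast ENat.natCast_lt_top k)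
      exact this.differentiableWithinAt
    · have h3 := (hf'.joint (k + 1)).continuousOn
      have hc : Continuous (continuousMultilinearCurryLeftEquiv ℝ (fun _ : Fin (k + 1) => E) F) :=
        (continuousMultilinearCurryLeftEquiv ℝ (fun _ : Fin (k + 1) => E) F).continuous
      refine (hc.comp_continuousOn h3).congr ?_
      intro p _
      simp [iteratedFDeriv_succ_eq_comp_left]

/-- The open version. -/
theorem hasDerivAt_iteratedFDeriv (hJ : IsOpen J) (hJc : Convex ℝ J) (hU : IsOpen U)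
    (hf : SpC 0 J U f) (hf' : SpC 0 J U f')
    (hder : ∀ t ∈ J, ∀ x ∈ U, HasDerivAt (fun s => f s x) (f' t x) t) (k : ℕ) :
    ∀ t ∈ J, ∀ x ∈ U,
      HasDerivAt (fun s => iteratedFDeriv ℝ k (f s) x) (iteratedFDeriv ℝ k (f' t) x) t :=
  fun t ht x hx => (hasDerivWithinAt_iteratedFDeriv hJc hU hf hf'
    (fun t ht x hx => (hder t ht x hx).hasDerivWithinAt) k t ht x hx).hasDerivAt
    (hJ.mem_nhds ht)

/-- If f and its time derivative f' have jointly C^n spatial derivatives then f has jointly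
C^(n+1) spatial derivatives. -/
theorem SpC.succ (hJ : Convex ℝ J) (hJu : UniqueDiffOn ℝ J) (hU : IsOpen U)
    (hf : SpC n J U f) (hf' : SpC n J U f')
    (hder : ∀ t ∈ J, ∀ x ∈ U, HasDerivWithinAt (fun s => f s x) (f' t x) J t) :
    SpC (n + 1) J U f := by
  refine ⟨hf.smooth, fun k => ?_⟩
  have hf0 : SpC 0 J U f := ⟨hf.smooth, fun k => (hf.joint k).of_le (by simp)⟩
  have hf0' : SpC 0 J U f' := ⟨hf'.smooth, fun k => (hf'.joint k).of_le (by simp)⟩
  refine contDiffOn_succ_of_partials (g := fun t x => iteratedFDeriv ℝ k (f t) x)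
    (g' := fun t x => iteratedFDeriv ℝ k (f' t) x)
    (gx := fun t x => _root_.fderiv ℝ (iteratedFDeriv ℝ k (f t)) x) hJu hU
    (hasDerivWithinAt_iteratedFDeriv hJ hU hf0 hf0' hder k) ?_ (hf'.joint k) ?_
  · intro t htJ x hx
    exact (((hf.smooth t htJ).contDiffAt (hU.mem_nhds hx)).differentiableAt_iteratedFDeriv
        (m := k) (by exact_mod_cast ENat.natCast_lt_top k)).hasFDerivAt
  · have hc : ContDiff ℝ n (continuousMultilinearCurryLeftEquiv ℝ (fun _ : Fin (k + 1) => E) F) := by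
      fun_prop
    refine (hc.comp_contDiffOn (hf.joint (k + 1))).congr ?_
    intro p _
    simp [iteratedFDeriv_succ_eq_comp_left]

end

end Pool.Agent.RFS
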