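import Pool.Agent.RFS.CJ3

/-! Second order evolution equations: spatial regularity implies joint smoothness, on a convex set
of times with unique differentiability (for instance `Ico 0 b`). -/

open Set Filter Topology
open scoped ContDiff

namespace Pool.Agent.RFS

variable {E F : Type} [NormedAddCommGroup E] [NormedSpace ℝ E] [NormedAddCommGroup F]
  [NormedSpace ℝ F] {J : Set ℝ} {U : Set E} {f : ℝ → E → F}

/-- The 2-jet of a function. -/
noncomputable def jet2 (f : E → F) (x : E) : F × (E →L[ℝ] F) × (E →L[ℝ] E →L[ℝ] F) :=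
  (f x, fderiv ℝ f x, fderiv ℝ (fderiv ℝ f) x)

theorem SpC.jet2 {n : ℕ} (hU : IsOpen U) (hf : SpC n J U f) :
    SpC n J U (fun t x => jet2 (f t) x) :=
  hf.prodMk hU ((hf.fderiv hU).prodMk hU ((hf.fderiv hU).fderiv hU))

/-- If all spatial derivatives are jointly continuous and d_t f = Φ(2-jet of f) with Φ smooth,
then all spatial derivatives are jointly C^n for every n. -/
theorem SpC.of_evolution (hJ : Convex ℝ J) (hJu : UniqueDiffOn ℝ J) (hU : IsOpen U)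
    {V : Set (F × (E →L[ℝ] F) × (E →L[ℝ] E →L[ℝ] F))} (hV : IsOpen V)
    {Φ : F × (E →L[ℝ] F) × (E →L[ℝ] E →L[ℝ] F) → F} (hΦ : ContDiffOn ℝ ∞ Φ V)
    (hf : SpC 0 J U f) (hm : ∀ t ∈ J, ∀ x ∈ U, RFS.jet2 (f t) x ∈ V)
    (hder : ∀ t ∈ J, ∀ x ∈ U,
      HasDerivWithinAt (fun s => f s x) (Φ (RFS.jet2 (f t) x)) J t) (n : ℕ) :
    SpC n J U f := by
  induction n with
  | zero => exact hf
  | succ n ih =>
    exact SpC.succ hJ hJu hU ih (SpC.comp hU (ih.jet2 hU) hV hΦ hm) hder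

/-- Joint smoothness. -/
theorem contDiffOn_of_evolution (hJ : Convex ℝ J) (hJu : UniqueDiffOn ℝ J) (hU : IsOpen U)
    {V : Set (F × (E →L[ℝ] F) × (E →L[ℝ] E →L[ℝ] F))} (hV : IsOpen V)
    {Φ : F × (E →L[ℝ] F) × (E →L[ℝ] E →L[ℝ] F) → F} (hΦ : ContDiffOn ℝ ∞ Φ V)
    (hf : SpC 0 J U f) (hm : ∀ t ∈ J, ∀ x ∈ U, RFS.jet2 (f t) x ∈ V)
    (hder : ∀ t ∈ J, ∀ x ∈ U,
      HasDerivWithinAt (fun s => f s x) (Φ (RFS.jet2 (f t) x)) J t) :
    ContDiffOn ℝ ∞ (fun p : ℝ × E => f p.1 p.2) (J ×ˢ U) := by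
  rw [contDiffOn_infty]
  exact fun n => (SpC.of_evolution hJ hJu hU hV hΦ hf hm hder n).uncurry

end Pool.Agent.RFS
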