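import Pool.Agent.RFS.CL0
import Pool.Agent.RFS.CJ4
import Pool.Agent.RFS.NRI

/-!
# RFS chunk (c), module CJ5: the Ricci tensor is a smooth function of the 2-jet of the metric

PROOF. Put `V = {q | (Matrix.of q.1).det ≠ 0}` (open: `det` is continuous). For
`q = (y, A, B)` put `g = Matrix.of y`, `h = g⁻¹`, `d i j k = A (bv i) j k` (`= ∂ᵢ g_jk`),
`dd l i j k = (B (bv l)) (bv i) j k` (`= ∂ₗ ∂ᵢ g_jk`), `ch k i j = (1/2) ∑ l, h k l (d i j l + d j i l
- d l i j)`, `dh l k m = - ∑ a b, h k a * d l a b * h b m` (`= ∂ₗ h_km`),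
`dch n k i j = (1/2) ∑ l, (dh n k l (d i j l + d j i l - d l i j) + h k l (dd n i j l + dd n j i l
- dd n l i j))` (`= ∂ₙ Γ^k_ij`), and `Φ q j k` the formula of `ricci` with these. Every entry of
`h = (det g)⁻¹ • adjugate g` is smooth on `V` (polynomials and division by `det`), so `Φ` is smooth
on `V`. For a smooth `G` with `det (G x) ≠ 0`: `pd i (fun y => G y j k) x = d i j k`
(`pd` of an entry is the entry of the `fderiv` applied to `bv i`), the same for second
derivatives, and near `x` (where `det (G y) ≠ 0`) `(G y)⁻¹ k l` is differentiable with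
`pd l (fun y => (G y)⁻¹ k m) x = dh l k m` (differentiate `G * G⁻¹ = 1`).
-/

open scoped ContDiff Matrix
open Set

noncomputable section

namespace Pool.Agent.RFS

/-- The matrix function as a function with values in the normed space `M9`. -/
def toM9 (G : E3 → Mat3) (x : E3) : M9 := fun i j => G x i j

private theorem cj5_open {G : E3 → Mat3} {U : Set E3} (hU : IsOpen U)
    (hG : ∀ i j, ContDiffOn ℝ ∞ (fun x => G x i j) U) :
    IsOpen (U ∩ (fun y => (G y).det) ⁻¹' {z | z ≠ 0}) :=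
  (NN.contDiffOn_det hG).continuousOn.isOpen_inter_preimage hU isOpen_ne

theorem pd_inv_entry {G : E3 → Mat3} {U : Set E3} (hU : IsOpen U)
    (hG : ∀ i j, ContDiffOn ℝ ∞ (fun x => G x i j) U) {x : E3} (hx : x ∈ U)
    (hd : (G x).det ≠ 0) (l k m : Fin 3) :
    pd l (fun y => (G y)⁻¹ k m) x
      = - ∑ a, ∑ b, (G x)⁻¹ k a * pd l (fun y => G y a b) x * (G x)⁻¹ b m := by
  have hU' := cj5_open hU hG
  set U' := U ∩ (fun y => (G y).det) ⁻¹' {z | z ≠ 0} with hU'def
  have hx' : x ∈ U' := ⟨hx, hd⟩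
  have hGU : ∀ i j, ContDiffOn ℝ ∞ (fun x => G x i j) U' := fun i j =>
    (hG i j).mono inter_subset_left
  have hI : ∀ a b, ContDiffOn ℝ ∞ (fun y => (G y)⁻¹ a b) U' := fun a b =>
    NN.contDiffOn_inv_entry hGU (fun y hy => hy.2) a b
  have dG : ∀ a b, DifferentiableAt ℝ (fun y => G y a b) x := fun a b =>
    NN.differentiableAt_of_contDiffOn hU' (hGU a b) hx'
  have dI : ∀ a b, DifferentiableAt ℝ (fun y => (G y)⁻¹ a b) x := fun a b =>
    NN.differentiableAt_of_contDiffOn hU' (hI a b) hx'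
  have key : ∀ c, ∑ a, (pd l (fun y => G y c a) x * (G x)⁻¹ a m
      + G x c a * pd l (fun y => (G y)⁻¹ a m) x) = 0 := by
    intro c
    have e1 : pd l (fun y => ∑ a, G y c a * (G y)⁻¹ a m) x
        = pd l (fun _ => (1 : Mat3) c m) x := by
      refine NN.pd_congr_of_mem hU' hx' (fun y hy => ?_) l
      have e2 := congrFun (congrFun (Matrix.mul_nonsing_inv (G y) (isUnit_iff_ne_zero.2 hy.2)) c) m
      rw [Matrix.mul_apply] at e2
      exact e2
    have dM : ∀ a, DifferentiableAt ℝ (fun y => G y c a * (G y)⁻¹ a m) x := fun a =>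
      (dG c a).mul (dI a m)
    rw [NN.pd_const, NN.pd_sum_univ dM] at e1
    rw [← e1]
    exact Finset.sum_congr rfl fun a _ => (NN.pd_mul (dG c a) (dI a m) l).symm
  have hinv : ∀ a b, ∑ c, (G x)⁻¹ a c * G x c b = if a = b then 1 else 0 := by
    intro a b
    have e2 := congrFun (congrFun (Matrix.nonsing_inv_mul (G x) (isUnit_iff_ne_zero.2 hd)) a) b
    rw [Matrix.mul_apply, Matrix.one_apply] at e2
    exact e2
  have e3 : pd l (fun y => (G y)⁻¹ k m) x
      = ∑ j, (∑ c, (G x)⁻¹ k c * G x c j) * pd l (fun y => (G y)⁻¹ j m) x := by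
    simp only [hinv, ite_mul, one_mul, zero_mul, Finset.sum_ite_eq, Finset.mem_univ, if_true]
  have e4 : ∑ c, (G x)⁻¹ k c * (∑ a, (pd l (fun y => G y c a) x * (G x)⁻¹ a m
      + G x c a * pd l (fun y => (G y)⁻¹ a m) x)) = 0 := by
    simp only [key, mul_zero, Finset.sum_const_zero]
  rw [e3]
  simp only [Fin.sum_univ_three] at e4 ⊢
  linear_combination e4

theorem contDiffOn_inv_entry {G : E3 → Mat3} {U : Set E3} (hU : IsOpen U)
    (hG : ∀ i j, ContDiffOn ℝ ∞ (fun x => G x i j) U) (hd : ∀ x ∈ U, (G x).det ≠ 0)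
    (k m : Fin 3) : ContDiffOn ℝ ∞ (fun y => (G y)⁻¹ k m) U :=
  NN.contDiffOn_inv_entry hG hd k m

private abbrev Jt := M9 × (E3 →L[ℝ] M9) × (E3 →L[ℝ] E3 →L[ℝ] M9)

private def jh (q : Jt) (k l : Fin 3) : ℝ := (Matrix.of q.1 : Mat3)⁻¹ k l

private def jd (q : Jt) (i j k : Fin 3) : ℝ := q.2.1 (bv i) j k

private def jdd (q : Jt) (l i j k : Fin 3) : ℝ := q.2.2 (bv l) (bv i) j k

private def jch (q : Jt) (k i j : Fin 3) : ℝ :=
  (1 / 2) * ∑ l, jh q k l * (jd q i j l + jd q j i l - jd q l i j)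

private def jdh (q : Jt) (l k m : Fin 3) : ℝ := - ∑ a, ∑ b, jh q k a * jd q l a b * jh q b m

private def jdch (q : Jt) (n k i j : Fin 3) : ℝ :=
  (1 / 2) * ∑ l, (jdh q n k l * (jd q i j l + jd q j i l - jd q l i j)
    + jh q k l * (jdd q n i j l + jdd q n j i l - jdd q n l i j))

private def jric (q : Jt) : M9 := fun j k => ∑ i, (jdch q i i j k - jdch q j i i k
    + ∑ m, (jch q i i m * jch q m j k - jch q i j m * jch q m i k))

private def jV : Set Jt := {q | (Matrix.of q.1 : Mat3).det ≠ 0}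

private theorem contDiff_entry {X : Type*} [NormedAddCommGroup X] [NormedSpace ℝ X] {F : X → M9}
    (hF : ContDiff ℝ ∞ F) (j k : Fin 3) : ContDiff ℝ ∞ (fun q => F q j k) :=
  contDiff_pi.1 (contDiff_pi.1 hF j) k

private theorem contDiff_q1 (j k : Fin 3) : ContDiff ℝ ∞ (fun q : Jt => q.1 j k) :=
  contDiff_entry contDiff_fst j k

private theorem contDiff_jd (i j k : Fin 3) : ContDiff ℝ ∞ (fun q : Jt => jd q i j k) := by
  refine contDiff_entry (F := fun q : Jt => q.2.1 (bv i)) ?_ j k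
  exact (contDiff_fst.comp contDiff_snd).clm_apply contDiff_const

private theorem contDiff_jdd (l i j k : Fin 3) : ContDiff ℝ ∞ (fun q : Jt => jdd q l i j k) := by
  refine contDiff_entry (F := fun q : Jt => q.2.2 (bv l) (bv i)) ?_ j k
  exact ((contDiff_snd.comp contDiff_snd).clm_apply contDiff_const).clm_apply contDiff_const

private theorem isOpen_jV : IsOpen jV := by
  have h1 : ContDiffOn ℝ ∞ (fun q : Jt => (Matrix.of q.1 : Mat3).det) univ :=
    NN.contDiffOn_det (G := fun q : Jt => (Matrix.of q.1 : Mat3))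
      (fun i j => (contDiff_q1 i j).contDiffOn)
  exact isOpen_ne.preimage (contDiffOn_univ.1 h1).continuous

private theorem contDiffOn_jh (k l : Fin 3) : ContDiffOn ℝ ∞ (fun q : Jt => jh q k l) jV :=
  NN.contDiffOn_inv_entry (G := fun q : Jt => (Matrix.of q.1 : Mat3))
    (fun i j => (contDiff_q1 i j).contDiffOn) (fun _ hy => hy) k l

private theorem contDiffOn_jch (k i j : Fin 3) : ContDiffOn ℝ ∞ (fun q : Jt => jch q k i j) jV := by
  unfold jch
  refine contDiffOn_const.mul (ContDiffOn.sum fun l _ => ?_)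
  exact (contDiffOn_jh k l).mul (((contDiff_jd i j l).add (contDiff_jd j i l)).sub
    (contDiff_jd l i j)).contDiffOn

private theorem contDiffOn_jdh (l k m : Fin 3) : ContDiffOn ℝ ∞ (fun q : Jt => jdh q l k m) jV := by
  unfold jdh
  refine (ContDiffOn.sum fun a _ => ContDiffOn.sum fun b _ => ?_).neg
  exact ((contDiffOn_jh k a).mul (contDiff_jd l a b).contDiffOn).mul (contDiffOn_jh b m)

private theorem contDiffOn_jdch (n k i j : Fin 3) :
    ContDiffOn ℝ ∞ (fun q : Jt => jdch q n k i j) jV := by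
  unfold jdch
  refine contDiffOn_const.mul (ContDiffOn.sum fun l _ => ?_)
  refine ((contDiffOn_jdh n k l).mul (((contDiff_jd i j l).add (contDiff_jd j i l)).sub
    (contDiff_jd l i j)).contDiffOn).add ?_
  exact (contDiffOn_jh k l).mul (((contDiff_jdd n i j l).add (contDiff_jdd n j i l)).sub
    (contDiff_jdd n l i j)).contDiffOn

private theorem contDiffOn_jric : ContDiffOn ℝ ∞ jric jV := by
  refine contDiffOn_pi.2 fun j => contDiffOn_pi.2 fun k => ?_
  unfold jric
  refine ContDiffOn.sum fun i _ => ?_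
  refine ((contDiffOn_jdch i i j k).sub (contDiffOn_jdch j i i k)).add
    (ContDiffOn.sum fun m _ => ?_)
  exact ((contDiffOn_jch i i m).mul (contDiffOn_jch m j k)).sub
    ((contDiffOn_jch i j m).mul (contDiffOn_jch m i k))

private theorem hasFDerivAt_entry {F : E3 → M9} {F' : E3 →L[ℝ] M9} {x : E3}
    (h : HasFDerivAt F F' x) (j k : Fin 3) :
    HasFDerivAt (fun y => F y j k)
      ((ContinuousLinearMap.proj k).comp ((ContinuousLinearMap.proj (R := ℝ) j).comp F')) x := by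
  have h1 : HasFDerivAt (fun y => F y j) ((ContinuousLinearMap.proj (R := ℝ) j).comp F') x :=
    hasFDerivAt_pi'.1 h j
  exact hasFDerivAt_pi'.1 h1 k

private theorem contDiffOn_toM9 {G : E3 → Mat3} {U : Set E3}
    (hG : ∀ i j, ContDiffOn ℝ ∞ (fun x => G x i j) U) : ContDiffOn ℝ ∞ (toM9 G) U :=
  contDiffOn_pi.2 fun i => contDiffOn_pi.2 fun j => hG i j

private theorem jd_jet {G : E3 → Mat3} {U : Set E3} (hU : IsOpen U)
    (hG : ∀ i j, ContDiffOn ℝ ∞ (fun x => G x i j) U) {x : E3} (hx : x ∈ U) (i j k : Fin 3) :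
    fderiv ℝ (toM9 G) x (bv i) j k = pd i (fun y => G y j k) x := by
  have h1 : DifferentiableAt ℝ (toM9 G) x :=
    ((contDiffOn_toM9 hG).contDiffAt (hU.mem_nhds hx)).differentiableAt (by simp)
  have h2 : HasFDerivAt (fun y => G y j k) _ x := hasFDerivAt_entry h1.hasFDerivAt j k
  unfold pd
  rw [h2.fderiv]
  rfl

private theorem jdd_jet {G : E3 → Mat3} {U : Set E3} (hU : IsOpen U)
    (hG : ∀ i j, ContDiffOn ℝ ∞ (fun x => G x i j) U) {x : E3} (hx : x ∈ U) (l i j k : Fin 3) :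
    fderiv ℝ (fderiv ℝ (toM9 G)) x (bv l) (bv i) j k
      = pd l (fun y => pd i (fun z => G z j k) y) x := by
  have h0 : ContDiffOn ℝ ∞ (fderiv ℝ (toM9 G)) U :=
    (contDiffOn_toM9 hG).fderiv_of_isOpen hU (m := ∞) (by simp)
  have h1 : DifferentiableAt ℝ (fderiv ℝ (toM9 G)) x :=
    (h0.contDiffAt (hU.mem_nhds hx)).differentiableAt (by simp)
  have h2 : HasFDerivAt (fun y => fderiv ℝ (toM9 G) y (bv i))
      ((fderiv ℝ (fderiv ℝ (toM9 G)) x).flip (bv i)) x := by
    have := h1.hasFDerivAt.clm_apply (hasFDerivAt_const (bv i) x)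
    simpa using this
  have h3 : HasFDerivAt (fun y => fderiv ℝ (toM9 G) y (bv i) j k) _ x := hasFDerivAt_entry h2 j k
  have h4 : pd l (fun y => pd i (fun z => G z j k) y) x
      = pd l (fun y => fderiv ℝ (toM9 G) y (bv i) j k) x :=
    NN.pd_congr_of_mem hU hx (fun y hy => (jd_jet hU hG hy i j k).symm) l
  rw [h4]
  unfold pd
  rw [h3.fderiv]
  rfl

theorem exists_ricci_jet :
    ∃ (V : Set (M9 × (E3 →L[ℝ] M9) × (E3 →L[ℝ] E3 →L[ℝ] M9)))
      (Φ : M9 × (E3 →L[ℝ] M9) × (E3 →L[ℝ] E3 →L[ℝ] M9) → M9),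
      IsOpen V ∧ ContDiffOn ℝ ∞ Φ V ∧
      ∀ (U : Set E3), IsOpen U → ∀ G : E3 → Mat3,
        (∀ i j, ContDiffOn ℝ ∞ (fun x => G x i j) U) → ∀ x ∈ U, (G x).det ≠ 0 →
        jet2 (toM9 G) x ∈ V ∧ ∀ i j, Φ (jet2 (toM9 G) x) i j = ricci G x i j := by
  refine ⟨jV, jric, isOpen_jV, contDiffOn_jric, ?_⟩
  intro U hU G hG x hx hd
  refine ⟨hd, ?_⟩
  have hU' := cj5_open hU hG
  set U' := U ∩ (fun y => (G y).det) ⁻¹' {z | z ≠ 0} with hU'def
  have hx' : x ∈ U' := ⟨hx, hd⟩
  have hGU : ∀ i j, ContDiffOn ℝ ∞ (fun x => G x i j) U' := fun i j =>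
    (hG i j).mono inter_subset_left
  have hI : ∀ a b, ContDiffOn ℝ ∞ (fun y => (G y)⁻¹ a b) U' := fun a b =>
    NN.contDiffOn_inv_entry hGU (fun y hy => hy.2) a b
  have dI : ∀ a b, DifferentiableAt ℝ (fun y => (G y)⁻¹ a b) x := fun a b =>
    NN.differentiableAt_of_contDiffOn hU' (hI a b) hx'
  have dP : ∀ i a b, DifferentiableAt ℝ (fun y => pd i (fun z => G z a b) y) x := fun i a b =>
    NN.differentiableAt_of_contDiffOn hU' (NN.contDiffOn_pd hU' (hGU a b) i) hx'
  have hh : ∀ k l, jh (jet2 (toM9 G) x) k l = (G x)⁻¹ k l := fun _ _ => rfl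
  have hjd : ∀ i j k, jd (jet2 (toM9 G) x) i j k = pd i (fun y => G y j k) x := fun i j k =>
    jd_jet hU hG hx i j k
  have hjdd : ∀ l i j k, jdd (jet2 (toM9 G) x) l i j k
      = pd l (fun y => pd i (fun z => G z j k) y) x := fun l i j k => jdd_jet hU hG hx l i j k
  have hch : ∀ k i j, jch (jet2 (toM9 G) x) k i j = chr G x k i j := by
    intro k i j
    unfold jch chr
    simp only [hh, hjd]
  have hdh : ∀ l k m, jdh (jet2 (toM9 G) x) l k m = pd l (fun y => (G y)⁻¹ k m) x := by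
    intro l k m
    rw [pd_inv_entry hU hG hx hd]
    unfold jdh
    simp only [hh, hjd]
  have hdch : ∀ n k i j, jdch (jet2 (toM9 G) x) n k i j = pd n (fun y => chr G y k i j) x := by
    intro n k i j
    have dS : ∀ l, DifferentiableAt ℝ (fun y => pd i (fun z => G z j l) y
        + pd j (fun z => G z i l) y - pd l (fun z => G z i j) y) x := fun l =>
      ((dP i j l).add (dP j i l)).sub (dP l i j)
    have dM : ∀ l, DifferentiableAt ℝ (fun y => (G y)⁻¹ k l * (pd i (fun z => G z j l) y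
        + pd j (fun z => G z i l) y - pd l (fun z => G z i j) y)) x := fun l =>
      (dI k l).mul (dS l)
    have e1 : pd n (fun y => chr G y k i j) x = (1 / 2) * ∑ l, pd n (fun y => (G y)⁻¹ k l *
        (pd i (fun z => G z j l) y + pd j (fun z => G z i l) y - pd l (fun z => G z i j) y)) x := by
      unfold chr
      rw [NN.pd_const_mul (DifferentiableAt.fun_sum fun l _ => dM l), NN.pd_sum_univ dM]
    rw [e1]
    unfold jdch
    congr 1
    refine Finset.sum_congr rfl fun l _ => ?_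
    have dA : DifferentiableAt ℝ (fun y => pd i (fun z => G z j l) y
        + pd j (fun z => G z i l) y) x := (dP i j l).add (dP j i l)
    rw [NN.pd_mul (dI k l) (dS l), NN.pd_sub dA (dP l i j), NN.pd_add (dP i j l) (dP j i l)]
    simp only [hh, hjd, hjdd, hdh]
  intro j k
  unfold jric ricci
  rw [Matrix.of_apply]
  simp only [hch, hdch]

end Pool.Agent.RFS
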