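import Pool.Agent.RFS.CL2
import Pool.Agent.RFS.CJ6

/-!
# RFS chunk (c), module CL1: frame components of the covariant derivatives of Ric

PROOF of `ev_ricW`, induction on `k`.
`k = 0`: with `a` the matrix of the frame, `aᵀ G a = 1` gives `a aᵀ = G⁻¹`, so
`∑ k, (aᵀ pten a) k k = tr (pten G⁻¹) = (3/2) scal - scal = scal / 2`, and
`aᵀ ricci a = (scal/2) aᵀ G a - aᵀ pten a = (scal/2) 1 - aᵀ pten a`; use `R.ev_P`.
The right hand side for `k = 0` is `(aᵀ ricci a) (I 0) (I 1)`.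
Step: `R.ev_D` with `f = ricW S k (Fin.tail I)`, `i = I 0` and
`F (x', a') = ∑ J, ricT G k x' J * ∏ s, a' (J s) (Fin.tail I s)` (differentiable: slices of `ricT`
are smooth by `JS.slice`). The derivative of `F` in the direction `horiz G x a (I 0)` is
`∑ J ∑ k, a k (I 0) * pd k (ricT _ _ · J) x * ∏ s, a (J s) (tail I s)
 - ∑ J ∑ s ∑ k ∑ l, ricT J * chr (J s) k l * a k (I 0) * a l (tail I s) * ∏_{s' ≠ s} a (J s') (tail I s')`;
in the second sum, for fixed `s`, the substitution `J' = update J s l`, `m = J s` gives the second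
term of `covd`; then collect `(k, J)` into an index in `Fin (k + 3) → Fin 3` (`Fin.consEquiv`).
`ricW_mem`: induction, `Lsp_D`, and `ricA` is a combination of the `P i j`.
-/

open scoped ContDiff Matrix
open Set

noncomputable section

namespace Pool.Agent.RFS

variable {A : Type*} [CommRing A] [Algebra ℝ A]

private theorem CL1_P_mem (S : RFAlg A) (i j : Fin 3) : S.P i j ∈ Lsp S 0 :=
  Submodule.subset_span ⟨[], rfl, i, j, rfl⟩

private theorem CL1_ricA_mem (S : RFAlg A) (i j : Fin 3) : ricA S i j ∈ Lsp S 0 := by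
  unfold ricA
  refine Submodule.sub_mem _ ?_ (CL1_P_mem S i j)
  split_ifs
  · exact Submodule.sum_mem _ fun k _ => CL1_P_mem S k k
  · exact Submodule.zero_mem _

theorem ricW_mem (S : RFAlg A) (k : ℕ) (I : Fin (k + 2) → Fin 3) : ricW S k I ∈ Lsp S k := by
  induction k with
  | zero => exact CL1_ricA_mem S _ _
  | succ k ih => exact Lsp_D S k (ih (Fin.tail I)) _

private theorem CL1_swap {n : ℕ} (s : Fin n) (f : (Fin n → Fin 3) → Fin 3 → ℝ) :
    ∑ J, ∑ l, f J l = ∑ J : Fin n → Fin 3, ∑ m, f (Function.update J s m) (J s) := by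
  rw [← Fintype.sum_prod_type', ← Fintype.sum_prod_type']
  let Φ : (Fin n → Fin 3) × Fin 3 → (Fin n → Fin 3) × Fin 3 :=
    fun p => (Function.update p.1 s p.2, p.1 s)
  have hΦ : Function.Involutive Φ := by
    intro p
    simp only [Φ, Function.update_idem, Function.update_self, Function.update_eq_self]
  exact (Fintype.sum_equiv (Function.Involutive.toPerm Φ hΦ) _ _ fun p => rfl).symm

private theorem CL1_alg {n : ℕ} (T : (Fin n → Fin 3) → ℝ) (C : Fin 3 → Fin 3 → Fin 3 → ℝ)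
    (a : Fin 3 → Fin 3 → ℝ) (I : Fin n → Fin 3) (k0 : Fin 3) (s : Fin n) :
    ∑ J : Fin n → Fin 3, T J * ((∏ j ∈ Finset.univ.erase s, a (J j) (I j)) *
        ∑ l, C (J s) k0 l * a l (I s))
      = ∑ J : Fin n → Fin 3, (∑ m, C m k0 (J s) * T (Function.update J s m)) *
        ∏ j, a (J j) (I j) := by
  have e1 : ∀ J : Fin n → Fin 3, T J * ((∏ j ∈ Finset.univ.erase s, a (J j) (I j)) *
        ∑ l, C (J s) k0 l * a l (I s))
      = ∑ l, T J * ((∏ j ∈ Finset.univ.erase s, a (J j) (I j)) * (C (J s) k0 l * a l (I s))) := by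
    intro J
    rw [Finset.mul_sum, Finset.mul_sum]
  rw [Finset.sum_congr rfl fun J _ => e1 J]
  rw [CL1_swap s (fun J l => T J * ((∏ j ∈ Finset.univ.erase s, a (J j) (I j)) *
    (C (J s) k0 l * a l (I s))))]
  refine Finset.sum_congr rfl fun J _ => ?_
  rw [Finset.sum_mul]
  refine Finset.sum_congr rfl fun m _ => ?_
  have e2 : ∏ j ∈ Finset.univ.erase s, a (Function.update J s m j) (I j)
      = ∏ j ∈ Finset.univ.erase s, a (J j) (I j) := by
    refine Finset.prod_congr rfl fun j hj => ?_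
    rw [Function.update_of_ne (Finset.ne_of_mem_erase hj)]
  rw [e2, Function.update_self,
    ← Finset.mul_prod_erase Finset.univ (fun j => a (J j) (I j)) (Finset.mem_univ s)]
  ring

private theorem CL1_alg2 {n : ℕ} (T : (Fin n → Fin 3) → ℝ) (C : Fin 3 → Fin 3 → Fin 3 → ℝ)
    (D : Fin 3 → (Fin n → Fin 3) → ℝ)
    (a : Fin 3 → Fin 3 → ℝ) (I : Fin n → Fin 3) (i0 : Fin 3) :
    ∑ J : Fin n → Fin 3, (T J * ∑ s, (∏ j ∈ Finset.univ.erase s, a (J j) (I j)) *
        (- ∑ k0, ∑ l, C (J s) k0 l * a k0 i0 * a l (I s))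
        + (∏ j, a (J j) (I j)) * ∑ k0, a k0 i0 * D k0 J)
      = ∑ k0, ∑ J : Fin n → Fin 3, (D k0 J - ∑ s, ∑ m, C m k0 (J s) *
        T (Function.update J s m)) * (a k0 i0 * ∏ j, a (J j) (I j)) := by
  have e1 : ∀ k0, ∑ J : Fin n → Fin 3, (D k0 J - ∑ s, ∑ m, C m k0 (J s) *
        T (Function.update J s m)) * (a k0 i0 * ∏ j, a (J j) (I j))
      = ∑ J : Fin n → Fin 3, (D k0 J * (a k0 i0 * ∏ j, a (J j) (I j))
        - ∑ s, a k0 i0 * (T J * ((∏ j ∈ Finset.univ.erase s, a (J j) (I j)) *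
        ∑ l, C (J s) k0 l * a l (I s)))) := by
    intro k0
    rw [Finset.sum_sub_distrib]
    have e2 : ∑ J : Fin n → Fin 3, ∑ s, a k0 i0 *
        (T J * ((∏ j ∈ Finset.univ.erase s, a (J j) (I j)) * ∑ l, C (J s) k0 l * a l (I s)))
        = ∑ J : Fin n → Fin 3, (∑ s, ∑ m, C m k0 (J s) * T (Function.update J s m)) *
          (a k0 i0 * ∏ j, a (J j) (I j)) := by
      rw [Finset.sum_comm]
      rw [Finset.sum_congr rfl fun s _ => by
        rw [← Finset.mul_sum, CL1_alg T C a I k0 s, Finset.mul_sum]]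
      rw [Finset.sum_comm]
      refine Finset.sum_congr rfl fun J _ => ?_
      rw [Finset.sum_mul]
      refine Finset.sum_congr rfl fun s _ => ?_
      ring
    rw [e2, ← Finset.sum_sub_distrib]
    refine Finset.sum_congr rfl fun J _ => ?_
    ring
  rw [Finset.sum_congr rfl fun k0 _ => e1 k0, Finset.sum_comm]
  refine Finset.sum_congr rfl fun J _ => ?_
  rw [Finset.sum_sub_distrib]
  have e3 : ∑ k0, D k0 J * (a k0 i0 * ∏ j, a (J j) (I j))
      = (∏ j, a (J j) (I j)) * ∑ k0, a k0 i0 * D k0 J := by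
    rw [Finset.mul_sum]
    refine Finset.sum_congr rfl fun k0 _ => ?_
    ring
  have e4 : ∑ k0, ∑ s, a k0 i0 * (T J * ((∏ j ∈ Finset.univ.erase s, a (J j) (I j)) *
        ∑ l, C (J s) k0 l * a l (I s)))
      = - (T J * ∑ s, (∏ j ∈ Finset.univ.erase s, a (J j) (I j)) *
        (- ∑ k0, ∑ l, C (J s) k0 l * a k0 i0 * a l (I s))) := by
    rw [Finset.sum_comm, Finset.mul_sum, ← Finset.sum_neg_distrib]
    refine Finset.sum_congr rfl fun s _ => ?_
    have e5 : ∑ k0, ∑ l, C (J s) k0 l * a k0 i0 * a l (I s)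
        = ∑ k0, a k0 i0 * ∑ l, C (J s) k0 l * a l (I s) := by
      refine Finset.sum_congr rfl fun k0 _ => ?_
      rw [Finset.mul_sum]
      refine Finset.sum_congr rfl fun l _ => ?_
      ring
    rw [e5, mul_neg, mul_neg, neg_neg, Finset.mul_sum, Finset.mul_sum]
    refine Finset.sum_congr rfl fun k0 _ => ?_
    ring
  rw [e3, e4]
  ring

private theorem CL1_mat (G Rc B : Mat3) (c : ℝ) (hB : Bᵀ * G * B = 1)
    (hc : (G⁻¹ * Rc).trace = c) :
    Bᵀ * ((c / 2) • G - Rc) * B = (c / 2) • (1 : Mat3) - Bᵀ * Rc * B ∧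
      (Bᵀ * ((c / 2) • G - Rc) * B).trace = c / 2 := by
  have hinv : G⁻¹ = B * Bᵀ := by
    apply Matrix.inv_eq_left_inv
    rw [Matrix.mul_assoc]
    exact mul_eq_one_comm.1 hB
  have e1 : Bᵀ * ((c / 2) • G - Rc) * B = (c / 2) • (1 : Mat3) - Bᵀ * Rc * B := by
    rw [Matrix.mul_sub, Matrix.sub_mul, Matrix.mul_smul, Matrix.smul_mul, hB]
  refine ⟨e1, ?_⟩
  have e2 : (Bᵀ * Rc * B).trace = c := by
    rw [Matrix.trace_mul_comm, ← Matrix.mul_assoc, ← hinv, hc]
  rw [e1, Matrix.trace_sub, Matrix.trace_smul, Matrix.trace_one, e2]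
  simp only [Fintype.card_fin, smul_eq_mul]
  push_cast
  ring

private theorem CL1_sum2 (Rc : Mat3) (a : M9) (I : Fin 2 → Fin 3) :
    ∑ J : Fin 2 → Fin 3, Rc (J 0) (J 1) * ∏ s, a (J s) (I s)
      = ((Matrix.of a)ᵀ * Rc * Matrix.of a) (I 0) (I 1) := by
  rw [← (finTwoArrowEquiv (Fin 3)).symm.sum_comp, Fintype.sum_prod_type]
  simp only [Matrix.mul_apply, Fin.prod_univ_two, Matrix.transpose_apply, Matrix.of_apply,
    finTwoArrowEquiv_symm_apply, Matrix.cons_val_zero, Matrix.cons_val_one, Finset.sum_mul]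
  rw [Finset.sum_comm]
  refine Finset.sum_congr rfl fun l _ => Finset.sum_congr rfl fun k _ => ?_
  ring

variable {M : Type*} [TopologicalSpace M] [ChartedSpace E3 M] [MeasurableSpace M]
  {S : RFAlg A} {b : ℝ}

private theorem CL1_base {X : RFSpace S M b} {g : ℝ → RMetric M} (R : FrRep X g)
    (I : Fin 2 → Fin 3) (e : Ch M) (t : ℝ) (x : E3) (a : M9) (hok : FrOk g b e t x a) :
    X.ev (R.fr e t x a) (ricA S (I 0) (I 1)) =
      ∑ J : Fin 2 → Fin 3, ricci ((g t).c e) x (J 0) (J 1) * ∏ s, a (J s) (I s) := by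
  rw [CL1_sum2]
  obtain ⟨h1, h2⟩ := CL1_mat ((g t).c e x) (ricci ((g t).c e) x) (Matrix.of a)
    (scal ((g t).c e) x) hok.2.2 rfl
  have hP : ∀ i j, X.ev (R.fr e t x a) (S.P i j)
      = ((Matrix.of a)ᵀ * ((scal ((g t).c e) x / 2) • (g t).c e x - ricci ((g t).c e) x)
        * Matrix.of a) i j := fun i j => R.ev_P e t x a hok i j
  have htr : ∑ k, X.ev (R.fr e t x a) (S.P k k) = scal ((g t).c e) x / 2 := by
    rw [Finset.sum_congr rfl fun k _ => hP k k]
    exact h2
  unfold ricA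
  rw [map_sub, hP, h1]
  rw [Matrix.sub_apply, Matrix.smul_apply, Matrix.one_apply]
  split_ifs with hij
  · rw [map_sum, htr]
    simp
  · rw [map_zero]
    simp

private theorem CL1_fderiv {n : ℕ} (T : E3 → (Fin n → Fin 3) → ℝ) (I : Fin n → Fin 3) (x : E3)
    (a : M9) (hT : ∀ J, DifferentiableAt ℝ (fun y => T y J) x) :
    HasFDerivAt (fun p : E3 × M9 => ∑ J : Fin n → Fin 3, T p.1 J * ∏ s, p.2 (J s) (I s))
      (∑ J : Fin n → Fin 3, (T x J • (∑ s, (∏ j ∈ Finset.univ.erase s, a (J j) (I j)) •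
        ((ContinuousLinearMap.proj (R := ℝ) (φ := fun _ : Fin 3 => ℝ) (I s)).comp
          ((ContinuousLinearMap.proj (R := ℝ) (φ := fun _ : Fin 3 => Fin 3 → ℝ) (J s)).comp
            (ContinuousLinearMap.snd ℝ E3 M9)))) +
        (∏ s, a (J s) (I s)) • (fderiv ℝ (fun y => T y J) x).comp
          (ContinuousLinearMap.fst ℝ E3 M9))) (x, a) := by
  have key : ∀ J : Fin n → Fin 3, HasFDerivAt (fun p : E3 × M9 => T p.1 J * ∏ s, p.2 (J s) (I s))
      (T x J • (∑ s, (∏ j ∈ Finset.univ.erase s, a (J j) (I j)) •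
        ((ContinuousLinearMap.proj (R := ℝ) (φ := fun _ : Fin 3 => ℝ) (I s)).comp
          ((ContinuousLinearMap.proj (R := ℝ) (φ := fun _ : Fin 3 => Fin 3 → ℝ) (J s)).comp
            (ContinuousLinearMap.snd ℝ E3 M9)))) +
        (∏ s, a (J s) (I s)) • (fderiv ℝ (fun y => T y J) x).comp
          (ContinuousLinearMap.fst ℝ E3 M9)) (x, a) := by
    intro J
    have h1 : HasFDerivAt (fun p : E3 × M9 => T p.1 J)
        ((fderiv ℝ (fun y => T y J) x).comp (ContinuousLinearMap.fst ℝ E3 M9)) (x, a) :=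
      HasFDerivAt.comp (x, a) (g := fun y => T y J) (f := Prod.fst) (hT J).hasFDerivAt hasFDerivAt_fst
    have h2 : HasFDerivAt (fun p : E3 × M9 => ∏ s, p.2 (J s) (I s))
        (∑ s, (∏ j ∈ Finset.univ.erase s, a (J j) (I j)) •
        ((ContinuousLinearMap.proj (R := ℝ) (φ := fun _ : Fin 3 => ℝ) (I s)).comp
          ((ContinuousLinearMap.proj (R := ℝ) (φ := fun _ : Fin 3 => Fin 3 → ℝ) (J s)).comp
            (ContinuousLinearMap.snd ℝ E3 M9)))) (x, a) := by
      have := HasFDerivAt.finsetProd (𝕜 := ℝ) (u := (Finset.univ : Finset (Fin n)))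
        (g := fun s (p : E3 × M9) => p.2 (J s) (I s))
        (g' := fun s => ((ContinuousLinearMap.proj (R := ℝ) (φ := fun _ : Fin 3 => ℝ) (I s)).comp
          ((ContinuousLinearMap.proj (R := ℝ) (φ := fun _ : Fin 3 => Fin 3 → ℝ) (J s)).comp
            (ContinuousLinearMap.snd ℝ E3 M9)))) (x := (x, a))
        (fun s _ => ((ContinuousLinearMap.proj (R := ℝ) (φ := fun _ : Fin 3 => ℝ) (I s)).comp
          ((ContinuousLinearMap.proj (R := ℝ) (φ := fun _ : Fin 3 => Fin 3 → ℝ) (J s)).comp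
            (ContinuousLinearMap.snd ℝ E3 M9))).hasFDerivAt)
      exact this
    exact h1.mul h2
  exact HasFDerivAt.fun_sum fun J _ => key J

private theorem CL1_pd (T : E3 → ℝ) (x : E3) (a : M9) (i0 : Fin 3) :
    fderiv ℝ T x (∑ k, a k i0 • bv k) = ∑ k, a k i0 * pd k T x := by
  rw [map_sum]
  refine Finset.sum_congr rfl fun k _ => ?_
  rw [map_smul, smul_eq_mul]
  rfl

theorem ev_ricW {X : RFSpace S M b} {g : ℝ → RMetric M} (h : IsRF g (Ico 0 b)) (R : FrRep X g)
    (k : ℕ) (I : Fin (k + 2) → Fin 3) (e : Ch M) (t : ℝ) (x : E3) (a : M9) (ht : 0 < t)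
    (hok : FrOk g b e t x a) :
    X.ev (R.fr e t x a) (ricW S k I) =
      ∑ J : Fin (k + 2) → Fin 3, ricT ((g t).c e) k x J * ∏ s, a (J s) (I s) := by
  revert I x a
  induction k with
  | zero =>
    intro I x a hok
    exact CL1_base R I e t x a hok
  | succ k ih =>
    intro I x a hok
    have htI : t ∈ Ioo 0 b := ⟨ht, hok.1.2⟩
    have hL := h.locRF e
    have hT : ∀ J, DifferentiableAt ℝ (fun y => ricT ((g t).c e) k y J) x := by
      intro J
      have h1 := (hL.js_ricT k J).slice htI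
      exact (h1.contDiffAt (hL.isOpen.mem_nhds hok.2.1)).differentiableAt (by simp)
    have hF := CL1_fderiv (ricT ((g t).c e) k) (Fin.tail I) x a hT
    have h2 := R.ev_D (ricW S k (Fin.tail I)) e t x a ht hok _ hF.differentiableAt
      (fun x' a' hok' => ih (Fin.tail I) x' a' hok') (I 0)
    have h3 : X.ev (R.fr e t x a) (ricW S (k + 1) I)
        = X.ev (R.fr e t x a) (S.D (I 0) (ricW S k (Fin.tail I))) := rfl
    rw [h3, h2, hF.fderiv]
    have h4 : ∑ J : Fin (k + 1 + 2) → Fin 3, ricT ((g t).c e) (k + 1) x J * ∏ s, a (J s) (I s)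
        = ∑ k0, ∑ J : Fin (k + 2) → Fin 3, (pd k0 (fun y => ricT ((g t).c e) k y J) x
          - ∑ s, ∑ m, chr ((g t).c e) x m k0 (J s) * ricT ((g t).c e) k x (Function.update J s m))
          * (a k0 (I 0) * ∏ j, a (J j) (Fin.tail I j)) := by
      rw [← (Fin.consEquiv (fun _ : Fin (k + 2 + 1) => Fin 3)).sum_comp, Fintype.sum_prod_type]
      refine Finset.sum_congr rfl fun k0 _ => Finset.sum_congr rfl fun J _ => ?_
      have h5 : (Fin.consEquiv (fun _ : Fin (k + 2 + 1) => Fin 3)) (k0, J)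
          = (Fin.cons k0 J : Fin (k + 2 + 1) → Fin 3) := rfl
      rw [h5, Fin.prod_univ_succ]
      have h6 : ricT ((g t).c e) (k + 1) x (Fin.cons k0 J)
          = pd k0 (fun y => ricT ((g t).c e) k y J) x
          - ∑ s, ∑ m, chr ((g t).c e) x m k0 (J s)
            * ricT ((g t).c e) k x (Function.update J s m) := by
        simp only [ricT, covd, Fin.cons_zero, Fin.tail_cons, Fin.cons_succ]
      rw [h6]
      simp only [Fin.cons_zero, Fin.cons_succ]
      rfl
    rw [h4, ← CL1_alg2 (fun J => ricT ((g t).c e) k x J) (fun m k0 l => chr ((g t).c e) x m k0 l)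
      (fun k0 J => pd k0 (fun y => ricT ((g t).c e) k y J) x) a (Fin.tail I) (I 0)]
    rw [_root_.sum_apply]
    refine Finset.sum_congr rfl fun J _ => ?_
    rw [_root_.add_apply, _root_.smul_apply,
      _root_.smul_apply, _root_.sum_apply]
    simp only [smul_eq_mul]
    congr 1
    congr 1
    exact CL1_pd (fun y => ricT ((g t).c e) k y J) x a (I 0)

end Pool.Agent.RFS
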