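import Pool.Agent.RFS.CL0
import Pool.Agent.RFS.NRI

/-!
# RFS chunk (c), module CL2: jointly smooth functions of (t, x)

`JS b U h`: `h` is jointly smooth on `(0, b) × U`. Closed under algebra and under `pd`; the
Christoffel symbols and all covariant derivatives of the Ricci tensor of a local Ricci flow are
jointly smooth.

PROOF. `JS.pd`: on the open set `Ioo 0 b ×ˢ U` one has
`pd l (h z.1) z.2 = fderiv ℝ (fun z => h z.1 z.2) z (0, bv l)` (chain rule with `x ↦ (z.1, x)`), and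
`fderiv` of a smooth function on an open set is smooth (`ContDiffOn.fderiv_of_isOpen`), evaluation
at a fixed vector is linear. Inverse matrix: `(G)⁻¹ = (det G)⁻¹ • adjugate`, entries are
polynomials in the entries divided by `det ≠ 0` (`PosDef`); `ContDiffOn.inv`/`div`. Then `chr`,
`ricci`, `covd`, `ricT` (induction on `k`) are sums of products of such functions and of `pd`s
(remember `covd` for fixed `J`: finite sums over `s`, `m`).
-/

open scoped ContDiff Matrix
open Set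

noncomputable section

namespace Pool.Agent.RFS

/-- Joint smoothness on `(0, b) × U`. -/
def JS (b : ℝ) (U : Set E3) (h : ℝ → E3 → ℝ) : Prop :=
  ContDiffOn ℝ ∞ (fun z : ℝ × E3 => h z.1 z.2) (Ioo 0 b ×ˢ U)

variable {b : ℝ} {U : Set E3} {h h₁ h₂ : ℝ → E3 → ℝ}

theorem JS.slice (H : JS b U h) {t : ℝ} (ht : t ∈ Ioo 0 b) : ContDiffOn ℝ ∞ (h t) U := by
  have h1 : ContDiffOn ℝ ∞ (fun x : E3 => ((t, x) : ℝ × E3)) U :=
    (contDiff_const.prodMk contDiff_id).contDiffOn
  exact ContDiffOn.comp (t := Ioo 0 b ×ˢ U) H h1 (fun x hx => ⟨ht, hx⟩)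

theorem JS.add (H₁ : JS b U h₁) (H₂ : JS b U h₂) : JS b U (fun t x => h₁ t x + h₂ t x) := by
  exact ContDiffOn.add H₁ H₂

theorem JS.sub (H₁ : JS b U h₁) (H₂ : JS b U h₂) : JS b U (fun t x => h₁ t x - h₂ t x) := by
  exact ContDiffOn.sub H₁ H₂

theorem JS.neg (H : JS b U h) : JS b U (fun t x => - h t x) := by
  exact ContDiffOn.neg H

theorem JS.mul (H₁ : JS b U h₁) (H₂ : JS b U h₂) : JS b U (fun t x => h₁ t x * h₂ t x) := by
  exact ContDiffOn.mul H₁ H₂

theorem JS.const (c : ℝ) : JS b U (fun _ _ => c) := contDiffOn_const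

theorem JS.sum {ι : Type*} (s : Finset ι) {f : ι → ℝ → E3 → ℝ} (H : ∀ i ∈ s, JS b U (f i)) :
    JS b U (fun t x => ∑ i ∈ s, f i t x) := by
  exact ContDiffOn.sum H

theorem JS.congr (H : JS b U h₁) (e : ∀ t ∈ Ioo 0 b, ∀ x ∈ U, h₂ t x = h₁ t x) : JS b U h₂ := by
  exact ContDiffOn.congr H (fun z hz => e z.1 hz.1 z.2 hz.2)

theorem JS.pd (hU : IsOpen U) (H : JS b U h) (l : Fin 3) : JS b U (fun t x => pd l (h t) x) := by
  have ho : IsOpen (Ioo (0 : ℝ) b ×ˢ U) := isOpen_Ioo.prod hU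
  have h1 : ContDiffOn ℝ ∞ (fun z : ℝ × E3 =>
      fderiv ℝ (fun w : ℝ × E3 => h w.1 w.2) z ((0 : ℝ), bv l)) (Ioo 0 b ×ˢ U) :=
    (ContDiffOn.fderiv_of_isOpen (m := ∞) H ho (by simp)).clm_apply contDiffOn_const
  refine ContDiffOn.congr h1 (fun z hz => ?_)
  obtain ⟨t, x⟩ := z
  have h2 : DifferentiableAt ℝ (fun w : ℝ × E3 => h w.1 w.2) (t, x) :=
    (ContDiffOn.contDiffAt H (ho.mem_nhds hz)).differentiableAt (by simp)
  have h3 : HasFDerivAt (fun y : E3 => ((t, y) : ℝ × E3))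
      (ContinuousLinearMap.inr ℝ ℝ E3) x := hasFDerivAt_prodMk_right t x
  have h4 : HasFDerivAt (fun y : E3 => h t y)
      ((fderiv ℝ (fun w : ℝ × E3 => h w.1 w.2) (t, x)).comp (ContinuousLinearMap.inr ℝ ℝ E3)) x :=
    HasFDerivAt.comp x (g := fun w : ℝ × E3 => h w.1 w.2) h2.hasFDerivAt h3
  show Pool.Agent.RFS.pd l (h t) x = _
  unfold Pool.Agent.RFS.pd
  have h5 : fderiv ℝ (h t) x = _ := h4.fderiv
  rw [h5]
  simp

variable {G : ℝ → E3 → Mat3}

theorem LocRF.js (hG : LocRF G U b) (i j : Fin 3) : JS b U (fun t x => G t x i j) :=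
  hG.joint i j

theorem LocRF.js_inv (hG : LocRF G U b) (i j : Fin 3) : JS b U (fun t x => (G t x)⁻¹ i j) := by
  have h1 : ∀ i j, ContDiffOn ℝ ∞ (fun z : ℝ × E3 => (fun z : ℝ × E3 => G z.1 z.2) z i j)
      (Ioo 0 b ×ˢ U) := hG.joint
  exact NN.contDiffOn_inv_entry (G := fun z : ℝ × E3 => G z.1 z.2) h1
    (fun z hz => (hG.pos z.1 hz.1 z.2 hz.2).det_pos.ne') i j

theorem LocRF.js_chr (hG : LocRF G U b) (k i j : Fin 3) : JS b U (fun t x => chr (G t) x k i j) := by
  unfold chr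
  refine (JS.const (1 / 2)).mul (JS.sum _ fun l _ => ?_)
  exact (hG.js_inv k l).mul ((((hG.js j l).pd hG.isOpen i).add ((hG.js i l).pd hG.isOpen j)).sub
    ((hG.js i j).pd hG.isOpen l))

theorem LocRF.js_ricci (hG : LocRF G U b) (i j : Fin 3) :
    JS b U (fun t x => ricci (G t) x i j) := by
  have h1 : JS b U (fun t x => ∑ n, (pd n (fun y => chr (G t) y n i j) x
      - pd i (fun y => chr (G t) y n n j) x
      + ∑ m, (chr (G t) x n n m * chr (G t) x m i j - chr (G t) x n i m * chr (G t) x m n j))) := by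
    refine JS.sum _ fun n _ => ?_
    refine JS.add (JS.sub ?_ ?_) (JS.sum _ fun m _ => ?_)
    · exact (hG.js_chr n i j).pd hG.isOpen n
    · exact (hG.js_chr n n j).pd hG.isOpen i
    · exact ((hG.js_chr n n m).mul (hG.js_chr m i j)).sub
        ((hG.js_chr n i m).mul (hG.js_chr m n j))
  exact h1

theorem LocRF.js_ricT (hG : LocRF G U b) (k : ℕ) (J : Fin (k + 2) → Fin 3) :
    JS b U (fun t x => ricT (G t) k x J) := by
  induction k with
  | zero => exact hG.js_ricci (J 0) (J 1)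
  | succ k ih =>
    have h1 : JS b U (fun t x => pd (J 0) (fun y => ricT (G t) k y (Fin.tail J)) x
        - ∑ s : Fin (k + 2), ∑ m, chr (G t) x m (J 0) (J s.succ)
          * ricT (G t) k x (Function.update (Fin.tail J) s m)) := by
      refine JS.sub ?_ (JS.sum _ fun s _ => JS.sum _ fun m _ => ?_)
      · exact (ih (Fin.tail J)).pd hG.isOpen (J 0)
      · exact (hG.js_chr m (J 0) (J s.succ)).mul (ih (Function.update (Fin.tail J) s m))
    exact h1

end Pool.Agent.RFS
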