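import Pool.Agent.RFS.CJ5

/-!
# RFS chunk (c), module CL3: metric compatibility in coordinates

`∂ₗ g_ij = Γ^m_li g_mj + Γ^m_lj g_im`.

PROOF. `∑ m, chr m l i * G m j = (1/2) ∑ n (∑ m, G⁻¹ m n G m j) (...)_n = (1/2) (∂ₗ g_ij + ∂ᵢ g_lj -
∂_j g_li)` (symmetry of `G` and of `G⁻¹`, `G⁻¹ G = 1`; also `pd` of `g_ij` and `g_ji` agree because
`G` is symmetric on the open set `U`). Add the same with `i`, `j` exchanged.
-/

open scoped ContDiff Matrix
open Set

noncomputable section

namespace Pool.Agent.RFS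

private theorem CL3_pds {G : E3 → Mat3} {U : Set E3} (hU : IsOpen U)
    (hs : ∀ x ∈ U, (G x)ᵀ = G x) {x : E3} (hx : x ∈ U) (l i j : Fin 3) :
    pd l (fun y => G y i j) x = pd l (fun y => G y j i) x := by
  have h : (fun y => G y i j) =ᶠ[nhds x] fun y => G y j i := by
    filter_upwards [hU.mem_nhds hx] with y hy
    have := congrFun (congrFun (hs y hy) j) i
    simpa [Matrix.transpose_apply] using this
  unfold pd
  rw [h.fderiv_eq]

private theorem CL3_contract (H G : Mat3) (hH : Hᵀ = H) (hHG : H * G = 1) (D : Fin 3 → ℝ)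
    (j : Fin 3) :
    ∑ m, ((1 / 2) * ∑ n, H m n * D n) * G m j = (1 / 2) * D j := by
  have h1 : ∀ n, ∑ m, H m n * G m j = if n = j then 1 else 0 := by
    intro n
    have h2 : (H * G) n j = ∑ m, H n m * G m j := Matrix.mul_apply
    rw [hHG, Matrix.one_apply] at h2
    rw [h2]
    refine Finset.sum_congr rfl fun m _ => ?_
    have := congrFun (congrFun hH m) n
    rw [Matrix.transpose_apply] at this
    rw [← this]
  calc ∑ m, ((1 / 2) * ∑ n, H m n * D n) * G m j
      = (1 / 2) * ∑ n, D n * ∑ m, H m n * G m j := by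
        simp only [Finset.mul_sum, Finset.sum_mul]
        rw [Finset.sum_comm]
        refine Finset.sum_congr rfl fun n _ => Finset.sum_congr rfl fun m _ => ?_
        ring
    _ = (1 / 2) * D j := by
        congr 1
        rw [Finset.sum_congr rfl fun n _ => by rw [h1 n]]
        simp

theorem pd_metric {G : E3 → Mat3} {U : Set E3} (hU : IsOpen U)
    (hs : ∀ x ∈ U, (G x)ᵀ = G x) (hd : ∀ x ∈ U, (G x).det ≠ 0) {x : E3} (hx : x ∈ U)
    (l i j : Fin 3) :
    pd l (fun y => G y i j) x
      = ∑ m, (chr G x m l i * G x m j + chr G x m l j * G x i m) := by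
  have hH : ((G x)⁻¹)ᵀ = (G x)⁻¹ := by
    rw [Matrix.transpose_nonsing_inv, hs x hx]
  have hHG : (G x)⁻¹ * G x = 1 :=
    Matrix.nonsing_inv_mul _ (isUnit_iff_ne_zero.2 (hd x hx))
  have hGs : ∀ m, G x i m = G x m i := by
    intro m
    have := congrFun (congrFun (hs x hx) m) i
    simpa [Matrix.transpose_apply] using this
  rw [Finset.sum_add_distrib]
  have e1 : ∑ m, chr G x m l i * G x m j = (1 / 2) *
      (pd l (fun y => G y i j) x + pd i (fun y => G y l j) x - pd j (fun y => G y l i) x) :=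
    CL3_contract _ _ hH hHG
      (fun n => pd l (fun y => G y i n) x + pd i (fun y => G y l n) x - pd n (fun y => G y l i) x) j
  have e2 : ∑ m, chr G x m l j * G x i m = (1 / 2) *
      (pd l (fun y => G y j i) x + pd j (fun y => G y l i) x - pd i (fun y => G y l j) x) := by
    rw [Finset.sum_congr rfl fun m _ => by rw [hGs m]]
    exact CL3_contract _ _ hH hHG
      (fun n => pd l (fun y => G y j n) x + pd j (fun y => G y l n) x - pd n (fun y => G y l j) x) i
  rw [e1, e2, CL3_pds hU hs hx l j i]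
  ring

/-- Symmetry of the Christoffel symbols. -/
theorem chr_symm {G : E3 → Mat3} {U : Set E3} (hU : IsOpen U)
    (hs : ∀ x ∈ U, (G x)ᵀ = G x) {x : E3} (hx : x ∈ U) (k i j : Fin 3) :
    chr G x k i j = chr G x k j i := by
  unfold chr
  congr 1
  refine Finset.sum_congr rfl fun l _ => ?_
  rw [CL3_pds hU hs hx l j i]
  ring

end Pool.Agent.RFS
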