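import Pool.Agent.RFS.CL5
import Pool.Agent.RFS.CJ1

/-!
# RFS chunk (c), module CL6: integration in time of a function with bounded derivatives

PROOF. Induction on `m`, for all `h`, `h'`. Level `0`: let `K` be compact; `h t₀` is continuous on `K`
(`JS.slice`), so bounded by `C₀`, and `|h t x - h t₀ x| ≤ C (t - t₀)` by the mean value inequality
(`Convex.norm_image_sub_le_of_norm_hasDerivWithin_le` on `Icc t₀ t`). Level `m + 1`:
`pd l (h t) x` has time derivative `pd l (h' t) x` (`hasDerivAt_fderiv_of_continuous` of CJ1: the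
function `z ↦ fderiv ℝ (h' z.1) z.2` is jointly continuous because of joint smoothness), and
`JS.pd`.
-/

open scoped ContDiff Matrix
open Set

noncomputable section

namespace Pool.Agent.RFS

variable {b t₀ : ℝ} {U : Set E3} {h h' : ℝ → E3 → ℝ}

private theorem JS.diffAt_slice (hU : IsOpen U) (J : JS b U h) {t : ℝ} (ht : t ∈ Ioo 0 b)
    {x : E3} (hx : x ∈ U) : DifferentiableAt ℝ (h t) x :=
  ((J.slice ht).contDiffAt (hU.mem_nhds hx)).differentiableAt (by simp)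

private theorem JS.continuousOn_fderiv (hU : IsOpen U) (J : JS b U h) :
    ContinuousOn (fun p : ℝ × E3 => fderiv ℝ (h p.1) p.2) (Ioo 0 b ×ˢ U) := by
  have hO : IsOpen (Ioo 0 b ×ˢ U) := isOpen_Ioo.prod hU
  have h1 : ContinuousOn (fderiv ℝ (fun z : ℝ × E3 => h z.1 z.2)) (Ioo 0 b ×ˢ U) :=
    ContDiffOn.continuousOn_fderiv_of_isOpen J hO (by simp)
  have h2 : ContinuousOn (fun p : ℝ × E3 => (fderiv ℝ (fun z : ℝ × E3 => h z.1 z.2) p).comp
      (ContinuousLinearMap.inr ℝ ℝ E3)) (Ioo 0 b ×ˢ U) :=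
    h1.clm_comp continuousOn_const
  refine h2.congr fun p hp => ?_
  have d : DifferentiableAt ℝ (fun z : ℝ × E3 => h z.1 z.2) p :=
    (ContDiffOn.contDiffAt J (hO.mem_nhds hp)).differentiableAt (by simp)
  have d2 : HasFDerivAt (fun y : E3 => (p.1, y)) (ContinuousLinearMap.inr ℝ ℝ E3) p.2 :=
    hasFDerivAt_prodMk_right p.1 p.2
  have d3 : HasFDerivAt (fun z : ℝ × E3 => h z.1 z.2)
      (fderiv ℝ (fun z : ℝ × E3 => h z.1 z.2) p) ((fun y : E3 => (p.1, y)) p.2) := d.hasFDerivAt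
  exact (d3.comp p.2 d2).fderiv

/-- The time derivative commutes with `pd`. -/
theorem JS.hasDerivAt_pd (hU : IsOpen U) (J : JS b U h) (J' : JS b U h')
    (hd : ∀ t ∈ Ioo 0 b, ∀ x ∈ U, HasDerivAt (fun s => h s x) (h' t x) t) (l : Fin 3) :
    ∀ t ∈ Ioo 0 b, ∀ x ∈ U, HasDerivAt (fun s => RFS.pd l (h s) x) (RFS.pd l (h' t) x) t := by
  intro t ht x hx
  have h1 := hasDerivAt_fderiv_of_continuous (J := Ioo 0 b) isOpen_Ioo (convex_Ioo 0 b) hU
    (fun t ht y hy => (J.diffAt_slice hU ht hy).differentiableWithinAt)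
    (fun t ht y hy => (J'.diffAt_slice hU ht hy).differentiableWithinAt)
    hd (J'.continuousOn_fderiv hU) ht hx
  have h2 := h1.clm_apply (hasDerivAt_const t (bv l))
  simpa [RFS.pd] using h2

theorem Bd.of_deriv (hU : IsOpen U) (ht₀ : t₀ ∈ Ioo 0 b) {m : ℕ} (J : JS b U h) (J' : JS b U h')
    (hd : ∀ t ∈ Ioo 0 b, ∀ x ∈ U, HasDerivAt (fun s => h s x) (h' t x) t)
    (H' : Bd U t₀ b m h') : Bd U t₀ b m h := by
  have h0 : ∀ {h h' : ℝ → E3 → ℝ}, JS b U h →
      (∀ t ∈ Ioo 0 b, ∀ x ∈ U, HasDerivAt (fun s => h s x) (h' t x) t) →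
      (∀ K ⊆ U, IsCompact K → ∃ C : ℝ, ∀ t ∈ Ico t₀ b, ∀ x ∈ K, |h' t x| ≤ C) →
      ∀ K ⊆ U, IsCompact K → ∃ C : ℝ, ∀ t ∈ Ico t₀ b, ∀ x ∈ K, |h t x| ≤ C := by
    intro h h' J hd H' K hK hc
    obtain ⟨C, hC⟩ := H' K hK hc
    obtain ⟨C₀, hC₀⟩ := hc.exists_bound_of_continuousOn
      (((J.slice ht₀).continuousOn).mono hK)
    refine ⟨C₀ + |C| * (b - t₀), fun t ht x hx => ?_⟩
    have hI : ∀ s ∈ Icc t₀ t, s ∈ Ioo 0 b := fun s hs =>
      ⟨ht₀.1.trans_le hs.1, hs.2.trans_lt ht.2⟩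
    have h1 := Convex.norm_image_sub_le_of_norm_hasDerivWithin_le (𝕜 := ℝ)
      (f := fun s => h s x) (f' := fun s => h' s x) (s := Icc t₀ t) (C := C) (x := t₀) (y := t)
      (fun s hs => (hd s (hI s hs) x (hK hx)).hasDerivWithinAt)
      (fun s hs => by
        rw [Real.norm_eq_abs]
        exact hC s ⟨hs.1, hs.2.trans_lt ht.2⟩ x hx) (convex_Icc t₀ t)
      (left_mem_Icc.2 ht.1) (right_mem_Icc.2 ht.1)
    have h2 := hC₀ x hx
    rw [Real.norm_eq_abs] at h2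
    rw [Real.norm_eq_abs, Real.norm_eq_abs, abs_of_nonneg (sub_nonneg.2 ht.1)] at h1
    have h3 : C * (t - t₀) ≤ |C| * (b - t₀) :=
      mul_le_mul (le_abs_self C) (by linarith [ht.2]) (by linarith [ht.1]) (abs_nonneg C)
    have h4 : |h t x| ≤ |h t x - h t₀ x| + |h t₀ x| := by
      have := abs_add_le (h t x - h t₀ x) (h t₀ x)
      simpa using this
    linarith
  induction m generalizing h h' with
  | zero => exact h0 J hd H'
  | succ m ih =>
    exact ⟨h0 J hd H'.1, fun l => ih (J.pd hU l) (J'.pd hU l) (J.hasDerivAt_pd hU J' hd l)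
      (H'.2 l)⟩

end Pool.Agent.RFS
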