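import Pool.Agent.RFS.CL2
import Pool.Agent.RFS.CL3
import Pool.Agent.RFS.CJ1
import Pool.Agent.RFS.CL6

/-!
# RFS chunk (c), module CL4: evolution of the Christoffel symbols

`∂ₜ Γ^k_ij = - g^kl (∇ᵢ R_jl + ∇ⱼ R_il - ∇ₗ R_ij)` for a local Ricci flow.

PROOF. By `hasDerivAt_fderiv_of_continuous` (CJ1) and `LocRF.eqn`,
`d/ds (pd i (G s · j l) x) = -2 pd i (ricci (G t) · j l) x`. Write `c k i j` for `chr` and
`[ij,l] = (1/2)(∂ᵢ g_jl + ∂ⱼ g_il - ∂ₗ g_ij)`, so `chr k i j = ∑ l, g^kl [ij,l]` and
`∑ k, g_nk chr k i j = [ij,n]` (lowered form). Differentiate the lowered form in time: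
`∑ k, g_nk ∂ₜ chr k i j = ∂ₜ [ij,n] + 2 ∑ k R_nk chr k i j
 = - (∂ᵢ R_jn + ∂ⱼ R_in - ∂ₙ R_ij) + 2 ∑ k R_nk chr k i j`, and
`ricT 1 ![i, j, n] = ∂ᵢ R_jn - ∑ m (chr m i j R_mn + chr m i n R_jm)`, so
`ricT 1 ![i,j,n] + ricT 1 ![j,i,n] - ricT 1 ![n,i,j]
 = ∂ᵢ R_jn + ∂ⱼ R_in - ∂ₙ R_ij - 2 ∑ m chr m i j R_mn` (the other four sums cancel by `chr_symm` and
the symmetry of `R`, which follows from the equation `∂ₜ g_ij = -2 R_ij` and the symmetry of `g`).
Multiply with the inverse matrix.
-/

open scoped ContDiff Matrix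
open Set

noncomputable section

namespace Pool.Agent.RFS

variable {b : ℝ} {U : Set E3} {G : ℝ → E3 → Mat3}

theorem LocRF.ricci_symm (hG : LocRF G U b) {t : ℝ} (ht : t ∈ Ioo 0 b) {x : E3} (hx : x ∈ U)
    (i j : Fin 3) : ricci (G t) x i j = ricci (G t) x j i := by
  have h1 := hG.eqn t ht x hx i j
  have h2 := hG.eqn t ht x hx j i
  have h3 : (fun s => G s x j i) =ᶠ[nhds t] fun s => G s x i j := by
    filter_upwards [isOpen_Ioo.mem_nhds ht] with s hs
    have := congrFun (congrFun (hG.symm s hs x hx) i) j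
    simpa [Matrix.transpose_apply] using this
  have h4 := h1.unique (h2.congr_of_eventuallyEq h3.symm)
  linarith

private theorem ricT_one (G : E3 → Mat3) (x : E3) (i j n : Fin 3) :
    ricT G 1 x ![i, j, n] = pd i (fun y => ricci G y j n) x
      - ∑ m, (chr G x m i j * ricci G x m n + chr G x m i n * ricci G x j m) := by
  have h : ricT G 1 x ![i, j, n] = pd i (fun y => ricci G y j n) x - ∑ s : Fin 2, ∑ m,
      chr G x m i ((![j, n] : Fin 2 → Fin 3) s) *
        ricci G x (Function.update (![j, n] : Fin 2 → Fin 3) s m 0)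
          (Function.update (![j, n] : Fin 2 → Fin 3) s m 1) := rfl
  rw [h, Fin.sum_univ_two, Finset.sum_add_distrib]
  simp

private theorem JS.diffAt_time {h : ℝ → E3 → ℝ} (hU : IsOpen U) (J : JS b U h) {t : ℝ}
    (ht : t ∈ Ioo 0 b) {x : E3} (hx : x ∈ U) : DifferentiableAt ℝ (fun s => h s x) t := by
  have h1 : DifferentiableAt ℝ (fun z : ℝ × E3 => h z.1 z.2) (t, x) :=
    (ContDiffOn.contDiffAt J ((isOpen_Ioo.prod hU).mem_nhds ⟨ht, hx⟩)).differentiableAt (by simp)
  have h2 : DifferentiableAt ℝ (fun s : ℝ => (s, x)) t :=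
    differentiableAt_id.prodMk (differentiableAt_const x)
  exact DifferentiableAt.comp (f := fun s : ℝ => (s, x)) (g := fun z : ℝ × E3 => h z.1 z.2) t h1 h2

theorem LocRF.hasDerivAt_chr (hG : LocRF G U b) {t : ℝ} (ht : t ∈ Ioo 0 b) {x : E3} (hx : x ∈ U)
    (k i j : Fin 3) :
    HasDerivAt (fun s => chr (G s) x k i j)
      (- ∑ l, (G t x)⁻¹ k l * (ricT (G t) 1 x ![i, j, l] + ricT (G t) 1 x ![j, i, l]
        - ricT (G t) 1 x ![l, i, j])) t := by
  have hU := hG.isOpen
  have hO : IsOpen (Ioo 0 b ×ˢ U) := isOpen_Ioo.prod hU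
  -- the Christoffel symbols are differentiable in time
  have hchr : ∀ m, DifferentiableAt ℝ (fun s => chr (G s) x m i j) t := fun m =>
    JS.diffAt_time hU (hG.js_chr m i j) ht hx
  set D : Fin 3 → ℝ := fun m => deriv (fun s => chr (G s) x m i j) t with hD
  have hDm : ∀ m, HasDerivAt (fun s => chr (G s) x m i j) (D m) t := fun m => (hchr m).hasDerivAt
  -- time derivative of the spatial derivatives of the metric
  have hpd : ∀ l p q, HasDerivAt (fun s => pd l (fun y => G s y p q) x)
      (-2 * pd l (fun y => ricci (G t) y p q) x) t := by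
    intro l p q
    have h1 := JS.hasDerivAt_pd (h := fun s y => G s y p q)
      (h' := fun s y => -2 * ricci (G s) y p q) hU (hG.js p q)
      ((JS.const (-2)).mul (hG.js_ricci p q)) (fun s hs y hy => hG.eqn s hs y hy p q) l t ht x hx
    refine h1.congr_deriv ?_
    have h2 : DifferentiableAt ℝ (fun y => ricci (G t) y p q) x :=
      (((hG.js_ricci p q).slice ht).contDiffAt (hU.mem_nhds hx)).differentiableAt (by simp)
    simp only [pd, fderiv_const_mul h2, ContinuousLinearMap.smul_apply, smul_eq_mul]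
  -- the lowered Christoffel symbols
  have hdet : ∀ s ∈ Ioo 0 b, IsUnit (G s x).det := fun s hs =>
    (hG.pos s hs x hx).det_pos.ne'.isUnit
  have hlow : ∀ s ∈ Ioo 0 b, ∀ n, ∑ m, G s x n m * chr (G s) x m i j =
      (1 / 2) * (pd i (fun y => G s y j n) x + pd j (fun y => G s y i n) x
        - pd n (fun y => G s y i j) x) := by
    intro s hs n
    have h1 : ∀ l, ∑ m, G s x n m * (G s x)⁻¹ m l = if n = l then 1 else 0 := by
      intro l
      have := congrFun (congrFun (Matrix.mul_nonsing_inv (G s x) (hdet s hs)) n) l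
      simpa [Matrix.mul_apply, Matrix.one_apply] using this
    have h2 : ∑ m, G s x n m * chr (G s) x m i j = (1 / 2) * ∑ l, (∑ m, G s x n m * (G s x)⁻¹ m l) *
        (pd i (fun y => G s y j l) x + pd j (fun y => G s y i l) x
          - pd l (fun y => G s y i j) x) := by
      simp only [chr, Finset.mul_sum, Finset.sum_mul]
      rw [Finset.sum_comm]
      exact Finset.sum_congr rfl fun l _ => Finset.sum_congr rfl fun m _ => by ring
    rw [h2]
    simp only [h1]
    simp
  -- differentiate
  have hkey : ∀ n, ∑ m, G t x n m * D m =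
      - (pd i (fun y => ricci (G t) y j n) x + pd j (fun y => ricci (G t) y i n) x
        - pd n (fun y => ricci (G t) y i j) x)
      + 2 * ∑ m, ricci (G t) x n m * chr (G t) x m i j := by
    intro n
    have h1 : HasDerivAt (fun s => ∑ m, G s x n m * chr (G s) x m i j)
        (∑ m, (-2 * ricci (G t) x n m * chr (G t) x m i j + G t x n m * D m)) t :=
      HasDerivAt.fun_sum fun m _ => (hG.eqn t ht x hx n m).mul (hDm m)
    have h2 : HasDerivAt (fun s => (1 / 2) * (pd i (fun y => G s y j n) x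
        + pd j (fun y => G s y i n) x - pd n (fun y => G s y i j) x))
        ((1 / 2) * (-2 * pd i (fun y => ricci (G t) y j n) x
          + -2 * pd j (fun y => ricci (G t) y i n) x
          - -2 * pd n (fun y => ricci (G t) y i j) x)) t :=
      (((hpd i j n).add (hpd j i n)).sub (hpd n i j)).const_mul (1 / 2)
    have h3 : (fun s => ∑ m, G s x n m * chr (G s) x m i j) =ᶠ[nhds t]
        (fun s => (1 / 2) * (pd i (fun y => G s y j n) x
        + pd j (fun y => G s y i n) x - pd n (fun y => G s y i j) x)) := by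
      filter_upwards [isOpen_Ioo.mem_nhds ht] with s hs using hlow s hs n
    have h4 := h1.unique (h2.congr_of_eventuallyEq h3)
    simp only [Finset.sum_add_distrib] at h4
    have h5 : ∑ m, -2 * ricci (G t) x n m * chr (G t) x m i j =
        -2 * ∑ m, ricci (G t) x n m * chr (G t) x m i j := by
      rw [Finset.mul_sum]
      exact Finset.sum_congr rfl fun m _ => by ring
    rw [h5] at h4
    linarith
  -- the covariant form
  have hcov : ∀ n, ricT (G t) 1 x ![i, j, n] + ricT (G t) 1 x ![j, i, n]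
      - ricT (G t) 1 x ![n, i, j] = - ∑ m, G t x n m * D m := by
    intro n
    have hR := fun p q => hG.ricci_symm ht hx p q
    have hC := fun m p q => chr_symm (G := G t) hU (hG.symm t ht) hx m p q
    rw [hkey n, ricT_one, ricT_one, ricT_one]
    have e1 : ∑ m, (chr (G t) x m i j * ricci (G t) x m n + chr (G t) x m i n * ricci (G t) x j m)
        + ∑ m, (chr (G t) x m j i * ricci (G t) x m n + chr (G t) x m j n * ricci (G t) x i m)
        - ∑ m, (chr (G t) x m n i * ricci (G t) x m j + chr (G t) x m n j * ricci (G t) x i m)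
        = 2 * ∑ m, ricci (G t) x n m * chr (G t) x m i j := by
      rw [← Finset.sum_add_distrib, ← Finset.sum_sub_distrib, Finset.mul_sum]
      refine Finset.sum_congr rfl fun m _ => ?_
      rw [hC m j i, hC m i n, hC m j n, hR j m, hR m n]
      ring
    linarith
  -- invert
  have hinv : ∀ k, - ∑ l, (G t x)⁻¹ k l * (ricT (G t) 1 x ![i, j, l] + ricT (G t) 1 x ![j, i, l]
        - ricT (G t) 1 x ![l, i, j]) = D k := by
    intro k
    simp only [hcov]
    have h1 : ∀ m, ∑ l, (G t x)⁻¹ k l * G t x l m = if k = m then 1 else 0 := by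
      intro m
      have := congrFun (congrFun (Matrix.nonsing_inv_mul (G t x) (hdet t ht)) k) m
      simpa [Matrix.mul_apply, Matrix.one_apply] using this
    have h2 : - ∑ l, (G t x)⁻¹ k l * (- ∑ m, G t x l m * D m) =
        ∑ m, (∑ l, (G t x)⁻¹ k l * G t x l m) * D m := by
      simp only [mul_neg, Finset.sum_neg_distrib, neg_neg, Finset.mul_sum, Finset.sum_mul]
      rw [Finset.sum_comm]
      exact Finset.sum_congr rfl fun l _ => Finset.sum_congr rfl fun m _ => by ring
    rw [h2]
    simp only [h1]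
    simp
  rw [hinv k]
  exact hDm k

end Pool.Agent.RFS
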