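import Pool.Agent.RFS.CL2

/-!
# RFS chunk (c), module CL5: the classes `Bd m` are closed under algebraic operations

All functions are jointly smooth (`JS`), `0 < t₀`, so for `t ∈ Ico t₀ b` the slices are smooth on
the open set `U` and `pd` obeys the rules for sums and products at every point of `U`.

PROOF. `Bd.zero`: from the definition. `Bd.mono`, `Bd.congr`: induction on `m`; for `congr` use that
`pd l` of two functions which agree on the open set `U` agree on `U`. `Bd.add`, `Bd.mul` by induction on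
`m` for all functions: level `0` is the triangle inequality (`|h₁ h₂| ≤ C₁ C₂`), and for `m + 1`:
`pd l (h₁ h₂) = pd l h₁ * h₂ + h₁ * pd l h₂` on `U` (then `Bd.congr`), with `Bd m h₁`, `Bd m h₂` by
`Bd.mono` and `JS.pd`. Finite sums by induction over the finset.
-/

open scoped ContDiff Matrix
open Set

noncomputable section

namespace Pool.Agent.RFS

variable {b t₀ : ℝ} {U : Set E3} {h h₁ h₂ : ℝ → E3 → ℝ}

private theorem diffAt (hU : IsOpen U) (ht₀ : 0 < t₀) (J : JS b U h) {t : ℝ} (ht : t ∈ Ico t₀ b)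
    {x : E3} (hx : x ∈ U) : DifferentiableAt ℝ (h t) x :=
  ((J.slice ⟨ht₀.trans_le ht.1, ht.2⟩).contDiffAt (hU.mem_nhds hx)).differentiableAt (by simp)

theorem Bd.zero {m : ℕ} (H : Bd U t₀ b m h) : Bd U t₀ b 0 h := by
  cases m with
  | zero => exact H
  | succ m => exact H.1

theorem Bd.mono {m n : ℕ} (hmn : n ≤ m) (H : Bd U t₀ b m h) : Bd U t₀ b n h := by
  induction n generalizing m h with
  | zero => exact H.zero
  | succ n ih =>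
    obtain ⟨m, rfl⟩ : ∃ m', m = m' + 1 := ⟨m - 1, by omega⟩
    exact ⟨H.1, fun l => ih (by omega) (H.2 l)⟩

theorem Bd.congr (hU : IsOpen U) {m : ℕ} (H : Bd U t₀ b m h₁)
    (e : ∀ t ∈ Ico t₀ b, ∀ x ∈ U, h₂ t x = h₁ t x) : Bd U t₀ b m h₂ := by
  have h0 : ∀ {h₁ h₂ : ℝ → E3 → ℝ}, (∀ K ⊆ U, IsCompact K → ∃ C : ℝ, ∀ t ∈ Ico t₀ b, ∀ x ∈ K,
      |h₁ t x| ≤ C) → (∀ t ∈ Ico t₀ b, ∀ x ∈ U, h₂ t x = h₁ t x) →
      ∀ K ⊆ U, IsCompact K → ∃ C : ℝ, ∀ t ∈ Ico t₀ b, ∀ x ∈ K, |h₂ t x| ≤ C := by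
    intro h₁ h₂ H e K hK hc
    obtain ⟨C, hC⟩ := H K hK hc
    exact ⟨C, fun t ht x hx => by rw [e t ht x (hK hx)]; exact hC t ht x hx⟩
  induction m generalizing h₁ h₂ with
  | zero => exact h0 H e
  | succ m ih =>
    refine ⟨h0 H.1 e, fun l => ih (H.2 l) fun t ht x hx => ?_⟩
    have : h₂ t =ᶠ[nhds x] h₁ t := by
      filter_upwards [hU.mem_nhds hx] with y hy using e t ht y hy
    simp only [pd, this.fderiv_eq]

theorem Bd.const (m : ℕ) (c : ℝ) : Bd U t₀ b m (fun _ _ => c) := by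
  induction m generalizing c with
  | zero => exact fun K _ _ => ⟨|c|, fun t _ x _ => le_rfl⟩
  | succ m ih =>
    refine ⟨fun K _ _ => ⟨|c|, fun t _ x _ => le_rfl⟩, fun l => ?_⟩
    have : (fun (_ : ℝ) (x : E3) => pd l (fun _ : E3 => c) x) = fun _ _ => 0 := by
      funext t x
      simp [pd]
    exact this ▸ ih 0

theorem Bd.add (hU : IsOpen U) (ht₀ : 0 < t₀) {m : ℕ} (J₁ : JS b U h₁) (J₂ : JS b U h₂)
    (H₁ : Bd U t₀ b m h₁) (H₂ : Bd U t₀ b m h₂) : Bd U t₀ b m (fun t x => h₁ t x + h₂ t x) := by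
  have h0 : ∀ {h₁ h₂ : ℝ → E3 → ℝ}, (∀ K ⊆ U, IsCompact K → ∃ C : ℝ, ∀ t ∈ Ico t₀ b, ∀ x ∈ K,
      |h₁ t x| ≤ C) → (∀ K ⊆ U, IsCompact K → ∃ C : ℝ, ∀ t ∈ Ico t₀ b, ∀ x ∈ K,
      |h₂ t x| ≤ C) →
      ∀ K ⊆ U, IsCompact K → ∃ C : ℝ, ∀ t ∈ Ico t₀ b, ∀ x ∈ K, |h₁ t x + h₂ t x| ≤ C := by
    intro h₁ h₂ H₁ H₂ K hK hc
    obtain ⟨C₁, hC₁⟩ := H₁ K hK hc
    obtain ⟨C₂, hC₂⟩ := H₂ K hK hc
    exact ⟨C₁ + C₂, fun t ht x hx => (abs_add_le _ _).trans (add_le_add (hC₁ t ht x hx)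
      (hC₂ t ht x hx))⟩
  induction m generalizing h₁ h₂ with
  | zero => exact h0 H₁ H₂
  | succ m ih =>
    refine ⟨h0 H₁.1 H₂.1, fun l => ?_⟩
    refine (ih (J₁.pd hU l) (J₂.pd hU l) (H₁.2 l) (H₂.2 l)).congr hU fun t ht x hx => ?_
    have d₁ := diffAt hU ht₀ J₁ ht hx
    have d₂ := diffAt hU ht₀ J₂ ht hx
    simp only [pd, fderiv_fun_add d₁ d₂, ContinuousLinearMap.add_apply]

theorem Bd.neg (hU : IsOpen U) (ht₀ : 0 < t₀) {m : ℕ} (J₁ : JS b U h₁)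
    (H₁ : Bd U t₀ b m h₁) : Bd U t₀ b m (fun t x => - h₁ t x) := by
  have h0 : ∀ {h₁ : ℝ → E3 → ℝ}, (∀ K ⊆ U, IsCompact K → ∃ C : ℝ, ∀ t ∈ Ico t₀ b, ∀ x ∈ K,
      |h₁ t x| ≤ C) →
      ∀ K ⊆ U, IsCompact K → ∃ C : ℝ, ∀ t ∈ Ico t₀ b, ∀ x ∈ K, |-h₁ t x| ≤ C := by
    intro h₁ H₁ K hK hc
    obtain ⟨C₁, hC₁⟩ := H₁ K hK hc
    exact ⟨C₁, fun t ht x hx => by rw [abs_neg]; exact hC₁ t ht x hx⟩
  induction m generalizing h₁ with
  | zero => exact h0 H₁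
  | succ m ih =>
    refine ⟨h0 H₁.1, fun l => ?_⟩
    refine (ih (J₁.pd hU l) (H₁.2 l)).congr hU fun t ht x hx => ?_
    simp only [pd, fderiv_fun_neg, ContinuousLinearMap.neg_apply]

theorem Bd.mul (hU : IsOpen U) (ht₀ : 0 < t₀) {m : ℕ} (J₁ : JS b U h₁) (J₂ : JS b U h₂)
    (H₁ : Bd U t₀ b m h₁) (H₂ : Bd U t₀ b m h₂) : Bd U t₀ b m (fun t x => h₁ t x * h₂ t x) := by
  have h0 : ∀ {h₁ h₂ : ℝ → E3 → ℝ}, (∀ K ⊆ U, IsCompact K → ∃ C : ℝ, ∀ t ∈ Ico t₀ b, ∀ x ∈ K,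
      |h₁ t x| ≤ C) → (∀ K ⊆ U, IsCompact K → ∃ C : ℝ, ∀ t ∈ Ico t₀ b, ∀ x ∈ K,
      |h₂ t x| ≤ C) →
      ∀ K ⊆ U, IsCompact K → ∃ C : ℝ, ∀ t ∈ Ico t₀ b, ∀ x ∈ K, |h₁ t x * h₂ t x| ≤ C := by
    intro h₁ h₂ H₁ H₂ K hK hc
    obtain ⟨C₁, hC₁⟩ := H₁ K hK hc
    obtain ⟨C₂, hC₂⟩ := H₂ K hK hc
    refine ⟨C₁ * C₂, fun t ht x hx => ?_⟩
    rw [abs_mul]
    exact mul_le_mul (hC₁ t ht x hx) (hC₂ t ht x hx) (abs_nonneg _)
      ((abs_nonneg _).trans (hC₁ t ht x hx))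
  induction m generalizing h₁ h₂ with
  | zero => exact h0 H₁ H₂
  | succ m ih =>
    refine ⟨h0 H₁.1 H₂.1, fun l => ?_⟩
    have e₁ := ih (J₁.pd hU l) J₂ (H₁.2 l) (H₂.mono (Nat.le_succ m))
    have e₂ := ih J₁ (J₂.pd hU l) (H₁.mono (Nat.le_succ m)) (H₂.2 l)
    refine (Bd.add hU ht₀ ((J₁.pd hU l).mul J₂) (J₁.mul (J₂.pd hU l)) e₁ e₂).congr hU
      fun t ht x hx => ?_
    have d₁ := diffAt hU ht₀ J₁ ht hx
    have d₂ := diffAt hU ht₀ J₂ ht hx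
    simp only [pd, fderiv_fun_mul d₁ d₂, ContinuousLinearMap.add_apply,
      ContinuousLinearMap.smul_apply, smul_eq_mul]
    ring

theorem Bd.sum (hU : IsOpen U) (ht₀ : 0 < t₀) {m : ℕ} {ι : Type*} (s : Finset ι)
    {f : ι → ℝ → E3 → ℝ} (Js : ∀ i ∈ s, JS b U (f i)) (H : ∀ i ∈ s, Bd U t₀ b m (f i)) :
    Bd U t₀ b m (fun t x => ∑ i ∈ s, f i t x) := by
  classical
  induction s using Finset.induction_on with
  | empty => simpa using Bd.const (U := U) (t₀ := t₀) (b := b) m 0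
  | insert a s ha ih =>
    have e := Bd.add hU ht₀ (Js a (Finset.mem_insert_self a s))
      (JS.sum s fun i hi => Js i (Finset.mem_insert_of_mem hi)) (H a (Finset.mem_insert_self a s))
      (ih (fun i hi => Js i (Finset.mem_insert_of_mem hi))
        (fun i hi => H i (Finset.mem_insert_of_mem hi)))
    simpa only [Finset.sum_insert ha] using e

end Pool.Agent.RFS
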