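import Pool.Agent.RFS.CL4
import Pool.Agent.RFS.CL6

/-!
# RFS chunk (c), module CL7: all chart derivatives of the metric are bounded

PROOF. `Q m` := `Bd m` for all `g_ij`, `g^ij`, `chr k i j`, `ricT k J`. `Q 0`: `g`, `g^-1`, `ricT` are the
hypotheses; `chr` by `Bd.of_deriv` with `LocRF.hasDerivAt_chr` (right hand side: products of `g^-1`
and `ricT 1`, in `Bd 0` by `Bd.mul`, `Bd.sum`, `Bd.neg`). `Q m → Q (m+1)`:
* `pd l g_ij = ∑ (chr g + chr g)` (`pd_metric`), `pd l g^ij = - ∑ g^ia (pd l g_ab) g^bj`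
  (`pd_inv_entry`), `pd l (ricT k J) = ricT (k+1) (cons l J) + ∑ ∑ chr * ricT k` (definition of `covd`)
  on `U`: all in `Bd m`, so `g`, `g^-1`, `ricT` are in `Bd (m+1)` (with `Bd.congr`);
* `chr`: `Bd.of_deriv` at level `m + 1`, the right hand side of `hasDerivAt_chr` is now in
  `Bd (m+1)`.
`JS` of everything from CL2.
-/

open scoped ContDiff Matrix
open Set

noncomputable section

namespace Pool.Agent.RFS

variable {b t₀ : ℝ} {U : Set E3} {G : ℝ → E3 → Mat3}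

/-- Jointly smooth with bounds. -/
private def JB (U : Set E3) (t₀ b : ℝ) (m : ℕ) (h : ℝ → E3 → ℝ) : Prop :=
  JS b U h ∧ Bd U t₀ b m h

private theorem JB.add {m : ℕ} {h₁ h₂ : ℝ → E3 → ℝ} (hU : IsOpen U) (ht₀ : 0 < t₀)
    (H₁ : JB U t₀ b m h₁) (H₂ : JB U t₀ b m h₂) : JB U t₀ b m (fun t x => h₁ t x + h₂ t x) :=
  ⟨H₁.1.add H₂.1, Bd.add hU ht₀ H₁.1 H₂.1 H₁.2 H₂.2⟩

private theorem JB.neg {m : ℕ} {h₁ : ℝ → E3 → ℝ} (hU : IsOpen U) (ht₀ : 0 < t₀)
    (H₁ : JB U t₀ b m h₁) : JB U t₀ b m (fun t x => - h₁ t x) :=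
  ⟨H₁.1.neg, Bd.neg hU ht₀ H₁.1 H₁.2⟩

private theorem JB.mul {m : ℕ} {h₁ h₂ : ℝ → E3 → ℝ} (hU : IsOpen U) (ht₀ : 0 < t₀)
    (H₁ : JB U t₀ b m h₁) (H₂ : JB U t₀ b m h₂) : JB U t₀ b m (fun t x => h₁ t x * h₂ t x) :=
  ⟨H₁.1.mul H₂.1, Bd.mul hU ht₀ H₁.1 H₂.1 H₁.2 H₂.2⟩

private theorem JB.sum {m : ℕ} {ι : Type*} (s : Finset ι) {f : ι → ℝ → E3 → ℝ} (hU : IsOpen U)
    (ht₀ : 0 < t₀) (H : ∀ i ∈ s, JB U t₀ b m (f i)) :
    JB U t₀ b m (fun t x => ∑ i ∈ s, f i t x) :=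
  ⟨JS.sum s fun i hi => (H i hi).1, Bd.sum hU ht₀ s (fun i hi => (H i hi).1) fun i hi => (H i hi).2⟩

/-- The definition of `ricT (k + 1)` solved for the partial derivative. -/
private theorem CL7_pd_ricT (G : E3 → Mat3) (k : ℕ) (J : Fin (k + 2) → Fin 3) (l : Fin 3)
    (x : E3) :
    pd l (fun y => ricT G k y J) x = ricT G (k + 1) x (Fin.cons l J)
      + ∑ s : Fin (k + 2), ∑ m, chr G x m l (J s) * ricT G k x (Function.update J s m) := by
  have h : ricT G (k + 1) x (Fin.cons l J) = covd G (ricT G k) x (Fin.cons l J) := rfl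
  rw [h, covd]
  simp only [Fin.cons_zero, Fin.cons_succ, Fin.tail_cons]
  ring

theorem LocRF.bd_all (hG : LocRF G U b) (ht₀ : t₀ ∈ Ioo 0 b)
    (h0 : ∀ i j, Bd U t₀ b 0 (fun t x => G t x i j))
    (h1 : ∀ i j, Bd U t₀ b 0 (fun t x => (G t x)⁻¹ i j))
    (h2 : ∀ (k : ℕ) (J : Fin (k + 2) → Fin 3), Bd U t₀ b 0 (fun t x => ricT (G t) k x J))
    (m : ℕ) :
    (∀ i j, Bd U t₀ b m (fun t x => G t x i j)) ∧
    (∀ i j, Bd U t₀ b m (fun t x => (G t x)⁻¹ i j)) ∧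
    (∀ k i j, Bd U t₀ b m (fun t x => chr (G t) x k i j)) ∧
    (∀ (k : ℕ) (J : Fin (k + 2) → Fin 3), Bd U t₀ b m (fun t x => ricT (G t) k x J)) := by
  have hU := hG.isOpen
  have h0' := ht₀.1
  have hIoo : ∀ t ∈ Ico t₀ b, t ∈ Ioo 0 b := fun t ht => ⟨lt_of_lt_of_le h0' ht.1, ht.2⟩
  -- the Christoffel symbols from the other functions
  have hchr : ∀ m, (∀ i j, Bd U t₀ b m (fun t x => (G t x)⁻¹ i j)) →
      (∀ (k : ℕ) (J : Fin (k + 2) → Fin 3), Bd U t₀ b m (fun t x => ricT (G t) k x J)) →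
      ∀ k i j, Bd U t₀ b m (fun t x => chr (G t) x k i j) := by
    intro m hinv hric k i j
    have hI : ∀ i j, JB U t₀ b m (fun t x => (G t x)⁻¹ i j) := fun i j => ⟨hG.js_inv i j, hinv i j⟩
    have hR : ∀ J : Fin 3 → Fin 3, JB U t₀ b m (fun t x => ricT (G t) 1 x J) :=
      fun J => ⟨hG.js_ricT 1 J, hric 1 J⟩
    have hmain : JB U t₀ b m (fun t x => - ∑ l, (G t x)⁻¹ k l * (ricT (G t) 1 x ![i, j, l] +
        ricT (G t) 1 x ![j, i, l] + -ricT (G t) 1 x ![l, i, j])) := by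
      refine JB.neg hU h0' (JB.sum Finset.univ hU h0' fun l _ => ?_)
      exact JB.mul hU h0' (hI k l) (JB.add hU h0' (JB.add hU h0' (hR _) (hR _)) (JB.neg hU h0' (hR _)))
    refine Bd.of_deriv hU ht₀ (hG.js_chr k i j) hmain.1 (fun t ht x hx => ?_) hmain.2
    have := hG.hasDerivAt_chr ht hx k i j
    simpa only [sub_eq_add_neg] using this
  induction m with
  | zero =>
    exact ⟨h0, h1, hchr 0 h1 h2, h2⟩
  | succ m ih =>
    obtain ⟨q0, q1, q2, q3⟩ := ih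
    have hM : ∀ i j, JB U t₀ b m (fun t x => G t x i j) := fun i j => ⟨hG.js i j, q0 i j⟩
    have hI : ∀ i j, JB U t₀ b m (fun t x => (G t x)⁻¹ i j) := fun i j => ⟨hG.js_inv i j, q1 i j⟩
    have hC : ∀ k i j, JB U t₀ b m (fun t x => chr (G t) x k i j) :=
      fun k i j => ⟨hG.js_chr k i j, q2 k i j⟩
    have hR : ∀ (k : ℕ) (J : Fin (k + 2) → Fin 3), JB U t₀ b m (fun t x => ricT (G t) k x J) :=
      fun k J => ⟨hG.js_ricT k J, q3 k J⟩
    -- the derivatives of the metric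
    have hdM : ∀ l i j, JB U t₀ b m (fun t x => pd l (fun y => G t y i j) x) := by
      intro l i j
      refine ⟨JS.pd hU (hG.js i j) l, ?_⟩
      have hs : JB U t₀ b m (fun t x =>
          ∑ m, (chr (G t) x m l i * G t x m j + chr (G t) x m l j * G t x i m)) :=
        JB.sum Finset.univ hU h0' fun m' _ => JB.add hU h0'
          (JB.mul hU h0' (hC m' l i) (hM m' j)) (JB.mul hU h0' (hC m' l j) (hM i m'))
      refine Bd.congr hU hs.2 fun t ht x hx => ?_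
      exact pd_metric hU (hG.symm t (hIoo t ht)) (fun y hy => (hG.pos t (hIoo t ht) y hy).det_pos.ne')
        hx l i j
    have r0 : ∀ i j, Bd U t₀ b (m + 1) (fun t x => G t x i j) :=
      fun i j => ⟨h0 i j, fun l => (hdM l i j).2⟩
    have r1 : ∀ i j, Bd U t₀ b (m + 1) (fun t x => (G t x)⁻¹ i j) := by
      intro i j
      refine ⟨h1 i j, fun l => ?_⟩
      have hs : JB U t₀ b m (fun t x => - ∑ a, ∑ c, (G t x)⁻¹ i a * pd l (fun y => G t y a c) x *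
          (G t x)⁻¹ c j) :=
        JB.neg hU h0' (JB.sum Finset.univ hU h0' fun a _ => JB.sum Finset.univ hU h0' fun c _ =>
          JB.mul hU h0' (JB.mul hU h0' (hI i a) (hdM l a c)) (hI c j))
      refine Bd.congr hU hs.2 fun t ht x hx => ?_
      exact pd_inv_entry hU (fun i j => (hG.js i j).slice (hIoo t ht)) hx
        (hG.pos t (hIoo t ht) x hx).det_pos.ne' l i j
    have r3 : ∀ (k : ℕ) (J : Fin (k + 2) → Fin 3),
        Bd U t₀ b (m + 1) (fun t x => ricT (G t) k x J) := by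
      intro k J
      refine ⟨h2 k J, fun l => ?_⟩
      have hs : JB U t₀ b m (fun t x => ricT (G t) (k + 1) x (Fin.cons l J)
          + ∑ s : Fin (k + 2), ∑ m, chr (G t) x m l (J s) * ricT (G t) k x (Function.update J s m)) :=
        JB.add hU h0' (hR (k + 1) _) (JB.sum Finset.univ hU h0' fun s _ =>
          JB.sum Finset.univ hU h0' fun m' _ => JB.mul hU h0' (hC m' l (J s)) (hR k _))
      refine Bd.congr hU hs.2 fun t ht x hx => ?_
      exact CL7_pd_ricT (G t) k J l x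
    exact ⟨r0, r1, hchr (m + 1) r1 r3, r3⟩

end Pool.Agent.RFS
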