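import Pool.Agent.RFS.CLA

/-!
# RFS chunk (c), module CLB: the metrics of a flow with bounded curvature are uniformly equivalent

PROOF. Fix `e`, `x`, `v` and put `q t = v ⬝ G_t v`. For `0 < t < b`, `q' = -2 v ⬝ Ric v`
(`IsRF.eqn`, interior point). Let `a`, `c` be as in `exists_frame` for `G = G_t(x)` and `y = c v`,
so `v = a y` and `q t = ∑ y_i ^ 2`; `v ⬝ Ric v = ∑ i j, y_i y_j (aᵀ Ric a) i j`, hence
`|v ⬝ Ric v| ≤ K (∑ |y_i|)^2 ≤ 3 K q t`. So `|q'| ≤ 6 K q`; `q` is continuous on `Ico 0 b`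
(`IsRF.cont` with `k = 0`, or differentiability within), therefore `q t * exp (6 K t)` is monotone
and `q t * exp (-6 K t)` antitone on `Ico 0 b` (`monotoneOn_of_deriv_nonneg`).
-/

open scoped ContDiff Matrix
open Set

noncomputable section

namespace Pool.Agent.RFS

variable {M : Type*} [TopologicalSpace M] [ChartedSpace E3 M]

private theorem ric_bound {G R : Mat3} (hG : G.PosDef) {K : ℝ} (hK : 0 ≤ K)
    (hR : ∀ a : M9, (Matrix.of a)ᵀ * G * Matrix.of a = 1 →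
      ∀ i j, |((Matrix.of a)ᵀ * R * Matrix.of a) i j| ≤ K) (v : Fin 3 → ℝ) :
    |v ⬝ᵥ R *ᵥ v| ≤ 3 * K * (v ⬝ᵥ G *ᵥ v) := by
  obtain ⟨a, c, h1, h2, -, h4, -⟩ := exists_frame hG
  have hRa := hR a h1
  set y : Fin 3 → ℝ := Matrix.of c *ᵥ v with hy
  have hv : v = Matrix.of a *ᵥ y := by
    rw [hy, Matrix.mulVec_mulVec, h2, Matrix.one_mulVec]
  have hq : v ⬝ᵥ G *ᵥ v = ∑ i, y i * y i := by
    rw [h4, ← Matrix.mulVec_mulVec, Matrix.dotProduct_mulVec, Matrix.vecMul_transpose, ← hy]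
    rfl
  have hr : v ⬝ᵥ R *ᵥ v = ∑ i, ∑ j, y i * (((Matrix.of a)ᵀ * R * Matrix.of a) i j * y j) := by
    have e0 : ∀ (B : Mat3) (w : Fin 3 → ℝ), (B *ᵥ w) ⬝ᵥ R *ᵥ (B *ᵥ w) = w ⬝ᵥ (Bᵀ * R * B) *ᵥ w := by
      intro B w
      rw [Matrix.mulVec_mulVec, mul_assoc, ← Matrix.mulVec_mulVec w Bᵀ,
        Matrix.dotProduct_mulVec w, Matrix.vecMul_transpose]
    have e1 : v ⬝ᵥ R *ᵥ v = y ⬝ᵥ ((Matrix.of a)ᵀ * R * Matrix.of a) *ᵥ y := by
      rw [← e0, ← hv]
    rw [e1]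
    simp only [dotProduct, Matrix.mulVec, Finset.mul_sum]
  rw [hq, hr]
  calc |∑ i, ∑ j, y i * (((Matrix.of a)ᵀ * R * Matrix.of a) i j * y j)|
      ≤ ∑ i, ∑ j, |y i * (((Matrix.of a)ᵀ * R * Matrix.of a) i j * y j)| :=
        (Finset.abs_sum_le_sum_abs _ _).trans
          (Finset.sum_le_sum fun i _ => Finset.abs_sum_le_sum_abs _ _)
    _ ≤ ∑ i, ∑ j, |y i| * (K * |y j|) := by
        refine Finset.sum_le_sum fun i _ => Finset.sum_le_sum fun j _ => ?_
        rw [abs_mul, abs_mul]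
        exact mul_le_mul_of_nonneg_left (mul_le_mul_of_nonneg_right (hRa i j) (abs_nonneg _))
          (abs_nonneg _)
    _ ≤ 3 * K * ∑ i, y i * y i := by
        have e2 : ∀ i, y i * y i = |y i| * |y i| := fun i => (abs_mul_abs_self (y i)).symm
        simp only [e2, Fin.sum_univ_three]
        have e3 : 0 ≤ K * ((|y 0| - |y 1|) ^ 2 + (|y 0| - |y 2|) ^ 2 + (|y 1| - |y 2|) ^ 2) := by
          positivity
        nlinarith [e3]

theorem metric_equiv {g : ℝ → RMetric M} {b : ℝ} (h : IsRF g (Ico 0 b)) {K : ℝ} (hK : 0 ≤ K)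
    (hR : ∀ e t x a, FrOk g b e t x a → 0 < t →
      ∀ i j, |((Matrix.of a)ᵀ * ricci ((g t).c e) x * Matrix.of a) i j| ≤ K)
    (e : Ch M) {x : E3} (hx : x ∈ e.1.target) {t : ℝ} (ht : t ∈ Ico 0 b) (v : Fin 3 → ℝ) :
    Real.exp (-(6 * K * t)) * (v ⬝ᵥ (g 0).c e x *ᵥ v) ≤ v ⬝ᵥ (g t).c e x *ᵥ v ∧
      v ⬝ᵥ (g t).c e x *ᵥ v ≤ Real.exp (6 * K * t) * (v ⬝ᵥ (g 0).c e x *ᵥ v) := by
  set q : ℝ → ℝ := fun s => v ⬝ᵥ (g s).c e x *ᵥ v with hqdef
  have hqs : ∀ s, q s = ∑ i, ∑ j, v i * ((g s).c e x i j * v j) := by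
    intro s
    simp only [hqdef, dotProduct, Matrix.mulVec, Finset.mul_sum]
  have hder : ∀ s ∈ Ico 0 b, HasDerivWithinAt q (-2 * (v ⬝ᵥ ricci ((g s).c e) x *ᵥ v))
      (Ico 0 b) s := by
    intro s hs
    have h1 : HasDerivWithinAt (fun s => ∑ i, ∑ j, v i * ((g s).c e x i j * v j))
        (∑ i, ∑ j, v i * ((-2 * ricci ((g s).c e) x i j) * v j)) (Ico 0 b) s :=
      HasDerivWithinAt.fun_sum fun i _ => HasDerivWithinAt.fun_sum fun j _ =>
        ((h.eqn e x hx s hs i j).mul_const (v j)).const_mul (v i)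
    have h2 : q = fun s => ∑ i, ∑ j, v i * ((g s).c e x i j * v j) := funext hqs
    rw [h2]
    refine h1.congr_deriv ?_
    simp only [dotProduct, Matrix.mulVec, Finset.mul_sum]
    exact Finset.sum_congr rfl fun i _ => Finset.sum_congr rfl fun j _ => by ring
  have hbound : ∀ s ∈ Ioo 0 b, |v ⬝ᵥ ricci ((g s).c e) x *ᵥ v| ≤ 3 * K * q s := fun s hs =>
    ric_bound ((g s).pos e x hx) hK
      (fun a ha => hR e s x a ⟨⟨hs.1.le, hs.2⟩, hx, ha⟩ hs.1) v
  have hcont : ContinuousOn q (Icc 0 t) := fun s hs =>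
    ((hder s ⟨hs.1, hs.2.trans_lt ht.2⟩).continuousWithinAt).mono
      fun r hr => ⟨hr.1, hr.2.trans_lt ht.2⟩
  have hderA : ∀ s ∈ Ioo 0 t, HasDerivAt q (-2 * (v ⬝ᵥ ricci ((g s).c e) x *ᵥ v)) s := by
    intro s hs
    exact (hder s ⟨hs.1.le, hs.2.trans ht.2⟩).hasDerivAt
      (Ico_mem_nhds hs.1 (hs.2.trans ht.2))
  have hexp : ∀ κ s : ℝ, HasDerivAt (fun s => Real.exp (κ * s)) (Real.exp (κ * s) * κ) s := by
    intro κ s
    simpa using ((hasDerivAt_id s).const_mul κ).exp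
  have h0mem : (0 : ℝ) ∈ Icc 0 t := ⟨le_rfl, ht.1⟩
  have htmem : t ∈ Icc 0 t := ⟨ht.1, le_rfl⟩
  have hmono : MonotoneOn (fun s => q s * Real.exp (6 * K * s)) (Icc 0 t) := by
    refine monotoneOn_of_deriv_nonneg (convex_Icc 0 t)
      (hcont.mul (Real.continuous_exp.comp (continuous_const.mul continuous_id)).continuousOn)
      (fun s hs => ?_) (fun s hs => ?_)
    · rw [interior_Icc] at hs
      exact ((hderA s hs).mul (hexp (6 * K) s)).differentiableAt.differentiableWithinAt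
    · rw [interior_Icc] at hs
      rw [((hderA s hs).fun_mul (hexp (6 * K) s)).deriv]
      have h1 := hbound s ⟨hs.1, hs.2.trans ht.2⟩
      have h2 := (abs_le.1 h1).2
      have h3 : 0 ≤ (-2 * (v ⬝ᵥ ricci ((g s).c e) x *ᵥ v) + 6 * K * q s) *
          Real.exp (6 * K * s) := mul_nonneg (by linarith) (Real.exp_pos _).le
      linarith
  have hanti : AntitoneOn (fun s => q s * Real.exp (-(6 * K) * s)) (Icc 0 t) := by
    refine antitoneOn_of_deriv_nonpos (convex_Icc 0 t)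
      (hcont.mul (Real.continuous_exp.comp (continuous_const.mul continuous_id)).continuousOn)
      (fun s hs => ?_) (fun s hs => ?_)
    · rw [interior_Icc] at hs
      exact ((hderA s hs).mul (hexp (-(6 * K)) s)).differentiableAt.differentiableWithinAt
    · rw [interior_Icc] at hs
      rw [((hderA s hs).fun_mul (hexp (-(6 * K)) s)).deriv]
      have h1 := hbound s ⟨hs.1, hs.2.trans ht.2⟩
      have h2 := (abs_le.1 h1).1
      have h3 : 0 ≤ (2 * (v ⬝ᵥ ricci ((g s).c e) x *ᵥ v) + 6 * K * q s) *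
          Real.exp (-(6 * K) * s) := mul_nonneg (by linarith) (Real.exp_pos _).le
      linarith
  have e1 := hmono h0mem htmem ht.1
  have e2 := hanti h0mem htmem ht.1
  simp only [mul_zero, Real.exp_zero, mul_one] at e1 e2
  have e3 : Real.exp (6 * K * t) * Real.exp (-(6 * K * t)) = 1 := by
    rw [← Real.exp_add]; simp
  have e4 : Real.exp (-(6 * K) * t) = Real.exp (-(6 * K * t)) := by congr 1; ring
  rw [e4] at e2
  constructor
  · calc Real.exp (-(6 * K * t)) * q 0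
        ≤ Real.exp (-(6 * K * t)) * (q t * Real.exp (6 * K * t)) :=
          mul_le_mul_of_nonneg_left e1 (Real.exp_pos _).le
      _ = q t * (Real.exp (6 * K * t) * Real.exp (-(6 * K * t))) := by ring
      _ = q t := by rw [e3, mul_one]
  · calc q t = q t * Real.exp (-(6 * K * t)) * Real.exp (6 * K * t) := by
          rw [mul_assoc, mul_comm (Real.exp (-(6 * K * t))), e3, mul_one]
      _ ≤ q 0 * Real.exp (6 * K * t) := mul_le_mul_of_nonneg_right e2 (Real.exp_pos _).le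
      _ = Real.exp (6 * K * t) * q 0 := mul_comm _ _

end Pool.Agent.RFS
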