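import Pool.Agent.RFS.CS4
import Pool.Agent.RFS.CL1
import Pool.Agent.RFS.CLB

/-!
# RFS chunk (c), module CL8: level zero bounds from bounded curvature

PROOF. `frame_ricci_le`: `ricW S 0 I ∈ Lsp S 0` is bounded by `shi` (or directly by the hypothesis)
and `ev_ricW` with `k = 0` is `(aᵀ Ric a) (I 0) (I 1)`. Hence `metric_equiv` applies.
`bd_zero`: let `K ⊆ e.target` be compact. The entries of `G_0` are continuous, so bounded by `C₀` on
`K`, and `lam |v|^2 ≤ v G_0 v` on `K` (`exists_lower_bound`). With `Λ = exp (6 K b)`: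
`G_t j j ≤ Λ C₀` and `v G_t v ≥ Λ⁻¹ lam |v|^2`; `entry_le` and `inv_entry_le` bound `G_t` and `G_t⁻¹`.
`ricT`: by `shi` and `ricW_mem` all `|ev z (ricW S k I)| ≤ C_k`; `ev_ricW`, the frame of
`exists_frame` (`c i j ^ 2 ≤ G j j ≤ Λ C₀`) and `coord_le_of_frame`.
-/

open scoped ContDiff Matrix
open Set

noncomputable section

namespace Pool.Agent.RFS

variable {A : Type*} [CommRing A] [Algebra ℝ A] {S : RFAlg A}
  {M : Type*} [TopologicalSpace M] [ChartedSpace E3 M] [MeasurableSpace M] {b : ℝ}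

omit [ChartedSpace E3 M] in
/-- All frame components of `∇^k Ric` are bounded. -/
private theorem CL8_ricW_bound (hb : 0 < b) (X : RFSpace S M b)
    (hP : ∃ K : ℝ, ∀ z i j, |X.ev z (S.P i j)| ≤ K) (k : ℕ) :
    ∃ K : ℝ, 0 ≤ K ∧ ∀ z (I : Fin (k + 2) → Fin 3), |X.ev z (ricW S k I)| ≤ K := by
  have h1 : ∀ I : Fin (k + 2) → Fin 3, ∃ K : ℝ, ∀ z, |X.ev z (ricW S k I)| ≤ K :=
    fun I => shi hb X hP k (ricW_mem S k I)
  choose K hK using h1
  refine ⟨∑ I, |K I|, Finset.sum_nonneg fun I _ => abs_nonneg _, fun z I => ?_⟩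
  refine (hK I z).trans ((le_abs_self _).trans ?_)
  exact Finset.single_le_sum (f := fun I => |K I|) (fun I _ => abs_nonneg _) (Finset.mem_univ I)

private theorem CL8_sum_two (R : Mat3) (a : M9) (i j : Fin 3) :
    ∑ J : Fin 2 → Fin 3, R (J 0) (J 1) * ∏ s, a (J s) ((![i, j] : Fin 2 → Fin 3) s)
      = ((Matrix.of a)ᵀ * R * Matrix.of a) i j := by
  rw [← (finTwoArrowEquiv (Fin 3)).symm.sum_comp, Fintype.sum_prod_type, Finset.sum_comm,
    Matrix.mul_apply]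
  refine Finset.sum_congr rfl fun l _ => ?_
  rw [Matrix.mul_apply, Finset.sum_mul]
  refine Finset.sum_congr rfl fun k _ => ?_
  simp [finTwoArrowEquiv, Fin.prod_univ_two, Matrix.transpose_apply]
  ring

theorem frame_ricci_le (hb : 0 < b) {X : RFSpace S M b} {g : ℝ → RMetric M}
    (h : IsRF g (Ico 0 b)) (R : FrRep X g) (hP : ∃ K : ℝ, ∀ z i j, |X.ev z (S.P i j)| ≤ K) :
    ∃ K : ℝ, 0 ≤ K ∧ ∀ e t x a, FrOk g b e t x a → 0 < t →
      ∀ i j, |((Matrix.of a)ᵀ * ricci ((g t).c e) x * Matrix.of a) i j| ≤ K := by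
  obtain ⟨K, hK0, hK⟩ := CL8_ricW_bound hb X hP 0
  refine ⟨K, hK0, fun e t x a hok ht i j => ?_⟩
  have h1 := ev_ricW h R 0 ![i, j] e t x a ht hok
  have h2 := hK (R.fr e t x a) ![i, j]
  rw [h1] at h2
  have h3 := CL8_sum_two (ricci ((g t).c e) x) a i j
  rw [← h3]
  exact h2

theorem bd_zero (hb : 0 < b) {X : RFSpace S M b} {g : ℝ → RMetric M}
    (h : IsRF g (Ico 0 b)) (R : FrRep X g) (hP : ∃ K : ℝ, ∀ z i j, |X.ev z (S.P i j)| ≤ K)
    (e : Ch M) {t₀ : ℝ} (ht₀ : t₀ ∈ Ioo 0 b) :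
    (∀ i j, Bd e.1.target t₀ b 0 (fun t x => (g t).c e x i j)) ∧
    (∀ i j, Bd e.1.target t₀ b 0 (fun t x => ((g t).c e x)⁻¹ i j)) ∧
    (∀ (k : ℕ) (J : Fin (k + 2) → Fin 3),
      Bd e.1.target t₀ b 0 (fun t x => ricT ((g t).c e) k x J)) := by
  obtain ⟨K, hK0, hK⟩ := frame_ricci_le hb h R hP
  have hmem : ∀ t ∈ Ico t₀ b, t ∈ Ico 0 b ∧ 0 < t := fun t ht =>
    ⟨⟨ht₀.1.le.trans ht.1, ht.2⟩, lt_of_lt_of_le ht₀.1 ht.1⟩
  -- upper bound for the metric on compact sets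
  have hup : ∀ Kc ⊆ e.1.target, IsCompact Kc → ∃ C : ℝ, 0 ≤ C ∧ ∀ t ∈ Ico t₀ b, ∀ x ∈ Kc,
      ∀ j, (g t).c e x j j ≤ C := by
    intro Kc hKc hc
    have h1 : ∀ j : Fin 3, ∃ C : ℝ, ∀ x ∈ Kc, ‖(g 0).c e x j j‖ ≤ C := fun j =>
      hc.exists_bound_of_continuousOn (((g 0).smooth e j j).continuousOn.mono hKc)
    choose C hC using h1
    have hC' : ∀ x ∈ Kc, ∀ j, (g 0).c e x j j ≤ ∑ j, |C j| := by
      intro x hx j
      refine (le_abs_self _).trans ((hC j x hx).trans ((le_abs_self _).trans ?_))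
      exact Finset.single_le_sum (f := fun j => |C j|) (fun I _ => abs_nonneg _) (Finset.mem_univ j)
    have hS : 0 ≤ ∑ j, |C j| := Finset.sum_nonneg fun I _ => abs_nonneg _
    refine ⟨Real.exp (6 * K * b) * ∑ j, |C j|, by positivity, fun t ht x hx j => ?_⟩
    have h2 := (metric_equiv h hK0 hK e (hKc hx) (hmem t ht).1 (Pi.single j 1)).2
    have h3 : ∀ A : Mat3, Pi.single j (1 : ℝ) ⬝ᵥ A *ᵥ Pi.single j 1 = A j j := by
      intro A
      rw [single_one_dotProduct, Matrix.mulVec_single_one, Matrix.col_apply]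
    rw [h3, h3] at h2
    refine h2.trans ?_
    have h4 : Real.exp (6 * K * t) ≤ Real.exp (6 * K * b) := by
      apply Real.exp_le_exp.2
      have := ht.2
      nlinarith
    calc Real.exp (6 * K * t) * (g 0).c e x j j
        ≤ Real.exp (6 * K * t) * ∑ j, |C j| :=
          mul_le_mul_of_nonneg_left (hC' x hx j) (Real.exp_pos _).le
      _ ≤ _ := mul_le_mul_of_nonneg_right h4 hS
  refine ⟨fun i j Kc hKc hc => ?_, fun i j Kc hKc hc => ?_, fun k J Kc hKc hc => ?_⟩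
  · obtain ⟨C, hC0, hC⟩ := hup Kc hKc hc
    refine ⟨C, fun t ht x hx => ?_⟩
    have h1 := entry_le ((g t).pos e x (hKc hx)) i j
    have h2 := hC t ht x hx i
    have h3 := hC t ht x hx j
    linarith
  · obtain ⟨lam, hlam, hl⟩ := exists_lower_bound hc (G := (g 0).c e)
      (fun i j => ((g 0).smooth e i j).continuousOn.mono hKc) (fun x hx => (g 0).pos e x (hKc hx))
    refine ⟨1 / (Real.exp (-(6 * K * b)) * lam), fun t ht x hx => ?_⟩
    refine inv_entry_le ((g t).pos e x (hKc hx)) (by positivity) (fun v => ?_) i j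
    have h2 := (metric_equiv h hK0 hK e (hKc hx) (hmem t ht).1 v).1
    refine le_trans ?_ h2
    have h4 : Real.exp (-(6 * K * b)) ≤ Real.exp (-(6 * K * t)) := by
      apply Real.exp_le_exp.2
      have := ht.2
      nlinarith
    have h5 := hl x hx v
    have h6 : 0 ≤ v ⬝ᵥ v := by
      simp only [dotProduct]
      exact Finset.sum_nonneg fun i _ => mul_self_nonneg _
    calc Real.exp (-(6 * K * b)) * lam * (v ⬝ᵥ v)
        = Real.exp (-(6 * K * b)) * (lam * (v ⬝ᵥ v)) := by ring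
      _ ≤ Real.exp (-(6 * K * t)) * (lam * (v ⬝ᵥ v)) :=
          mul_le_mul_of_nonneg_right h4 (by positivity)
      _ ≤ _ := mul_le_mul_of_nonneg_left h5 (Real.exp_pos _).le
  · obtain ⟨C, hC0, hC⟩ := hup Kc hKc hc
    obtain ⟨K2, hK20, hK2⟩ := CL8_ricW_bound hb X hP k
    refine ⟨3 ^ (k + 2) * K2 * Real.sqrt C ^ (k + 2), fun t ht x hx => ?_⟩
    obtain ⟨a, c, h1, h2, -, -, h3⟩ := exists_frame ((g t).pos e x (hKc hx))
    have hok : FrOk g b e t x a := ⟨(hmem t ht).1, hKc hx, h1⟩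
    refine coord_le_of_frame (fun J => ricT ((g t).c e) k x J) h2 (fun i j => ?_) (fun I => ?_) J
    · apply Real.abs_le_sqrt
      exact (h3 i j).trans (hC t ht x hx j)
    · rw [← ev_ricW h R k I e t x a (hmem t ht).2 hok]
      exact hK2 _ I

end Pool.Agent.RFS
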