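import Pool.Agent.RFS.CL6
import Pool.Agent.RFS.CJ3

/-!
# RFS chunk (c), module CL9: all iterated derivatives are Lipschitz in time

PROOF. `iteratedFDeriv_bound`: induction on `k` for all `h`. `k = 0`: the norm of
`iteratedFDeriv ℝ 0 f x` is `|f x|`. Step: `‖iteratedFDeriv ℝ (k+1) f x‖ =
‖iteratedFDeriv ℝ k (fderiv ℝ f) x‖` (`norm_iteratedFDeriv_fderiv`) and
`fderiv ℝ f y = ∑ l, pd l f y • (proj l)` (`proj l : E3 →L[ℝ] ℝ` the coordinate), so for `f` smooth on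
the open set `U`, `x ∈ U`: `‖iteratedFDeriv ℝ k (fderiv ℝ f) x‖ ≤ ∑ l, ‖proj l‖ *
‖iteratedFDeriv ℝ k (pd l f) x‖` (`iteratedFDeriv` of a finite sum, and of the composition with the
continuous linear map `r ↦ r • proj l`).
`iteratedFDeriv_lipschitz`: `t ↦ iteratedFDeriv ℝ k (h t) x` has derivative
`iteratedFDeriv ℝ k (h' t) x` (`hasDerivAt_iteratedFDeriv` of CJ3; `SpC 0` from joint smoothness:
`JS.spC`, by induction on `k` the function `z ↦ iteratedFDeriv ℝ k (h z.1) z.2` is smooth on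
`Ioo 0 b ×ˢ U`), its norm is bounded on `K`; mean value inequality.
-/

open scoped ContDiff Matrix
open Set

noncomputable section

namespace Pool.Agent.RFS

variable {b t₀ : ℝ} {U : Set E3} {h h' : ℝ → E3 → ℝ}

private theorem cl9_fderiv {W : Type} [NormedAddCommGroup W] [NormedSpace ℝ W] {g : ℝ → E3 → W}
    (hU : IsOpen U) (J : ContDiffOn ℝ ∞ (fun z : ℝ × E3 => g z.1 z.2) (Ioo 0 b ×ˢ U)) :
    ContDiffOn ℝ ∞ (fun z : ℝ × E3 => fderiv ℝ (g z.1) z.2) (Ioo 0 b ×ˢ U) := by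
  have hO : IsOpen (Ioo 0 b ×ˢ U) := isOpen_Ioo.prod hU
  have h1 : ContDiffOn ℝ ∞ (fderiv ℝ (fun z : ℝ × E3 => g z.1 z.2)) (Ioo 0 b ×ˢ U) :=
    J.fderiv_of_isOpen hO (by norm_cast)
  have h2 : ContDiffOn ℝ ∞ (fun p : ℝ × E3 => (fderiv ℝ (fun z : ℝ × E3 => g z.1 z.2) p).comp
      (ContinuousLinearMap.inr ℝ ℝ E3)) (Ioo 0 b ×ˢ U) :=
    h1.clm_comp contDiffOn_const
  refine h2.congr fun p hp => ?_
  have d : DifferentiableAt ℝ (fun z : ℝ × E3 => g z.1 z.2) p :=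
    (J.contDiffAt (hO.mem_nhds hp)).differentiableAt (by simp)
  have d2 : HasFDerivAt (fun y : E3 => (p.1, y)) (ContinuousLinearMap.inr ℝ ℝ E3) p.2 :=
    hasFDerivAt_prodMk_right p.1 p.2
  have d3 : HasFDerivAt (fun z : ℝ × E3 => g z.1 z.2)
      (fderiv ℝ (fun z : ℝ × E3 => g z.1 z.2) p) ((fun y : E3 => (p.1, y)) p.2) := d.hasFDerivAt
  exact (d3.comp p.2 d2).fderiv

private theorem cl9_iter (hU : IsOpen U) (J : JS b U h) (k : ℕ) :
    ContDiffOn ℝ ∞ (fun z : ℝ × E3 => iteratedFDeriv ℝ k (h z.1) z.2) (Ioo 0 b ×ˢ U) := by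
  induction k with
  | zero =>
    have h2 := ((continuousMultilinearCurryFin0 ℝ E3 ℝ).symm.contDiff (n := ∞)).comp_contDiffOn J
    refine h2.congr fun p _ => ?_
    simp [iteratedFDeriv_zero_eq_comp]
  | succ k ih =>
    have h1 := cl9_fderiv (g := fun t x => iteratedFDeriv ℝ k (h t) x) hU ih
    have h2 := ((continuousMultilinearCurryLeftEquiv ℝ (fun _ : Fin (k + 1) => E3)
      ℝ).symm.contDiff (n := ∞)).comp_contDiffOn h1
    refine h2.congr fun p _ => ?_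
    simp [iteratedFDeriv_succ_eq_comp_left]

theorem JS.spC (hU : IsOpen U) (J : JS b U h) : SpC 0 (Ioo 0 b) U h :=
  ⟨fun _ ht => J.slice ht, fun k => (cl9_iter hU J k).of_le (by simp)⟩

/-- The coordinate functions. -/
private def cl9L (l : Fin 3) : E3 →L[ℝ] ℝ := EuclideanSpace.proj l

private theorem cl9_fderiv_eq (f : E3 → ℝ) :
    fderiv ℝ f = fun y => ∑ l, pd l f y • cl9L l := by
  funext y
  ext v
  have hv : v = ∑ i, v i • bv i := by
    ext k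
    simp [bv, Finset.sum_apply, Pi.single_apply]
  conv_lhs => rw [hv]
  rw [map_sum]
  simp [cl9L, pd, mul_comm]

private theorem cl9_norm_succ (k : ℕ) {f : E3 → ℝ} {x : E3} (hU : IsOpen U) (hx : x ∈ U)
    (hf : ContDiffOn ℝ ∞ f U) :
    ‖iteratedFDeriv ℝ (k + 1) f x‖ ≤ ∑ l, ‖cl9L l‖ * ‖iteratedFDeriv ℝ k (pd l f) x‖ := by
  have hpd : ∀ l, ContDiffAt ℝ k (pd l f) x := by
    intro l
    have h1 : ContDiffOn ℝ ∞ (fderiv ℝ f) U := hf.fderiv_of_isOpen hU (by norm_cast)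
    have h2 : ContDiffOn ℝ ∞ (fun y => fderiv ℝ f y (bv l)) U := h1.clm_apply contDiffOn_const
    exact (h2.contDiffAt (hU.mem_nhds hx)).of_le (by exact_mod_cast le_top)
  rw [← norm_iteratedFDeriv_fderiv, cl9_fderiv_eq]
  have e : ∀ l, ((fun y => pd l f y • cl9L l) : E3 → (E3 →L[ℝ] ℝ)) =
      (ContinuousLinearMap.toSpanSingleton ℝ (cl9L l)) ∘ (pd l f) := by
    intro l
    funext y
    simp
  have h3 : ∀ l ∈ (Finset.univ : Finset (Fin 3)),
      ContDiffAt ℝ k ((fun y => pd l f y • cl9L l) : E3 → (E3 →L[ℝ] ℝ)) x := fun l _ =>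
    (hpd l).smul contDiffAt_const
  rw [iteratedFDeriv_fun_sum_apply h3]
  refine (norm_sum_le _ _).trans (Finset.sum_le_sum fun l _ => ?_)
  rw [e l]
  have h4 := (ContinuousLinearMap.toSpanSingleton ℝ (cl9L l)).norm_iteratedFDeriv_comp_left
    (hpd l) (n := k) le_rfl
  rwa [ContinuousLinearMap.norm_toSpanSingleton] at h4

theorem iteratedFDeriv_bound (hU : IsOpen U) (ht₀ : 0 < t₀) (k : ℕ) (J : JS b U h)
    (H : Bd U t₀ b k h) {K : Set E3} (hK : K ⊆ U) (hKc : IsCompact K) :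
    ∃ C : ℝ, ∀ t ∈ Ico t₀ b, ∀ x ∈ K, ‖iteratedFDeriv ℝ k (h t) x‖ ≤ C := by
  induction k generalizing h with
  | zero =>
    obtain ⟨C, hC⟩ := H K hK hKc
    refine ⟨C, fun t ht x hx => ?_⟩
    rw [norm_iteratedFDeriv_zero, Real.norm_eq_abs]
    exact hC t ht x hx
  | succ k ih =>
    choose C hC using fun l => ih (J.pd hU l) (H.2 l)
    refine ⟨∑ l, ‖cl9L l‖ * C l, fun t ht x hx => ?_⟩
    refine (cl9_norm_succ k hU (hK hx) (J.slice ⟨ht₀.trans_le ht.1, ht.2⟩)).trans ?_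
    exact Finset.sum_le_sum fun l _ => mul_le_mul_of_nonneg_left (hC l t ht x hx) (norm_nonneg _)

theorem iteratedFDeriv_lipschitz (hU : IsOpen U) (ht₀ : t₀ ∈ Ioo 0 b) (J : JS b U h)
    (J' : JS b U h')
    (hd : ∀ t ∈ Ioo 0 b, ∀ x ∈ U, HasDerivAt (fun s => h s x) (h' t x) t)
    (H' : ∀ m, Bd U t₀ b m h') (k : ℕ) {K : Set E3} (hK : K ⊆ U) (hKc : IsCompact K) :
    ∃ C : ℝ, ∀ s ∈ Ico t₀ b, ∀ t ∈ Ico t₀ b, ∀ x ∈ K,
      ‖iteratedFDeriv ℝ k (h s) x - iteratedFDeriv ℝ k (h t) x‖ ≤ C * |s - t| := by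
  obtain ⟨C, hC⟩ := iteratedFDeriv_bound hU ht₀.1 k J' (H' k) hK hKc
  refine ⟨C, fun s hs t ht x hx => ?_⟩
  have hder := hasDerivAt_iteratedFDeriv isOpen_Ioo (convex_Ioo 0 b) hU (J.spC hU) (J'.spC hU)
    hd k
  have h1 := Convex.norm_image_sub_le_of_norm_hasDerivWithin_le (𝕜 := ℝ)
    (f := fun s => iteratedFDeriv ℝ k (h s) x) (f' := fun s => iteratedFDeriv ℝ k (h' s) x)
    (s := Ico t₀ b) (C := C) (x := t) (y := s)
    (fun r hr => (hder r ⟨ht₀.1.trans_le hr.1, hr.2⟩ x (hK hx)).hasDerivWithinAt)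
    (fun r hr => hC r hr x hx) (convex_Ico t₀ b) ht hs
  rwa [Real.norm_eq_abs] at h1

end Pool.Agent.RFS
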