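import Pool.Agent.RFS.CL0

/-!
# RFS chunk (c), module CLA: linear algebra of positive definite 3 x 3 matrices

PROOFS.
* `exists_frame`: take `c` with `G = cᵀ c` invertible (Mathlib: `Matrix.PosDef`/`PosSemidef`
  square root or Cholesky type lemma such as `Matrix.posSemidef_iff_eq_conjTranspose_mul_self`;
  `det G ≠ 0` gives `det c ≠ 0`), `a = c⁻¹`. Then `aᵀ G a = (c a)ᵀ (c a) = 1` and
  `∑ i, c i j ^ 2 = G j j`.
* `inv_entry_le`: `w = G⁻¹ e_j` satisfies `lam |w|^2 ≤ w ⬝ G w = w j ≤ |w|`, so `|w| ≤ 1 / lam` and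
  `|G⁻¹ i j| = |w i| ≤ |w|`.
* `entry_le`: `0 ≤ v ⬝ G v` for `v = e_i ± e_j` and symmetry give `2 |G i j| ≤ G i i + G j j`.
* `coord_le_of_frame`: `Ψ J = ∑ I, (∑ J', Ψ J' * ∏ s, a (J' s) (I s)) * ∏ s, c (I s) (J s)`
  because `∑ I, ∏ s, a (J' s) (I s) * c (I s) (J s) = ∏ s, (a c) (J' s) (J s)` (`Finset.prod_univ_sum`)
  is `1` if `J' = J`, else `0`. There are `3 ^ r` indices `I`.
-/

open scoped ContDiff Matrix
open Set

noncomputable section

namespace Pool.Agent.RFS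

open scoped MatrixOrder in
private theorem cla_sqrt {G : Mat3} (hG : G.PosDef) : ∃ B : Mat3, G = Bᵀ * B := by
  obtain ⟨B, hB⟩ := CStarAlgebra.nonneg_iff_eq_star_mul_self.mp hG.posSemidef.nonneg
  refine ⟨B, ?_⟩
  rw [hB, Matrix.star_eq_conjTranspose, Matrix.conjTranspose_eq_transpose_of_trivial]

theorem exists_frame {G : Mat3} (hG : G.PosDef) :
    ∃ a c : M9, (Matrix.of a)ᵀ * G * Matrix.of a = 1 ∧ Matrix.of a * Matrix.of c = 1 ∧
      Matrix.of c * Matrix.of a = 1 ∧ G = (Matrix.of c)ᵀ * Matrix.of c ∧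
      ∀ i j, c i j ^ 2 ≤ G j j := by
  obtain ⟨B, hB⟩ := cla_sqrt hG
  have hdet : B.det ≠ 0 := by
    intro h0
    have h1 := hG.det_pos
    rw [hB, Matrix.det_mul, Matrix.det_transpose, h0] at h1
    simp at h1
  have hu : IsUnit B.det := isUnit_iff_ne_zero.mpr hdet
  have h1 : B⁻¹ * B = 1 := Matrix.nonsing_inv_mul B hu
  have h2 : B * B⁻¹ = 1 := Matrix.mul_nonsing_inv B hu
  refine ⟨fun i j => B⁻¹ i j, fun i j => B i j, ?_, ?_, ?_, ?_, ?_⟩
  · change (B⁻¹)ᵀ * G * B⁻¹ = 1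
    rw [hB]
    have h3 : (B⁻¹)ᵀ * Bᵀ = 1 := by rw [← Matrix.transpose_mul, h2, Matrix.transpose_one]
    calc (B⁻¹)ᵀ * (Bᵀ * B) * B⁻¹ = ((B⁻¹)ᵀ * Bᵀ) * (B * B⁻¹) := by
          simp only [Matrix.mul_assoc]
      _ = 1 := by rw [h3, h2, Matrix.mul_one]
  · exact h1
  · exact h2
  · exact hB
  · intro i j
    change B i j ^ 2 ≤ G j j
    rw [hB, Matrix.mul_apply]
    have h3 : ∀ l ∈ (Finset.univ : Finset (Fin 3)), 0 ≤ Bᵀ j l * B l j := by
      intro l _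
      rw [Matrix.transpose_apply]
      exact mul_self_nonneg _
    have h4 := Finset.single_le_sum h3 (Finset.mem_univ i)
    rw [Matrix.transpose_apply] at h4
    rw [sq]
    exact h4

theorem inv_entry_le {G : Mat3} (hG : G.PosDef) {lam : ℝ} (hl : 0 < lam)
    (hv : ∀ v : Fin 3 → ℝ, lam * (v ⬝ᵥ v) ≤ v ⬝ᵥ G *ᵥ v) (i j : Fin 3) :
    |G⁻¹ i j| ≤ 1 / lam := by
  have hu : IsUnit G.det := isUnit_iff_ne_zero.mpr hG.det_pos.ne'
  have h2 : G * G⁻¹ = 1 := Matrix.mul_nonsing_inv G hu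
  set w : Fin 3 → ℝ := fun l => G⁻¹ l j with hw
  have h3 : G *ᵥ w = fun l => (1 : Mat3) l j := by
    rw [← h2]
    funext l
    rfl
  have h4 : w ⬝ᵥ G *ᵥ w = w j := by
    rw [h3]
    simp [dotProduct, Matrix.one_apply]
  have h5 := hv w
  rw [h4] at h5
  have hN : ∀ l, w l ^ 2 ≤ w ⬝ᵥ w := by
    intro l
    have h6 : ∀ l ∈ (Finset.univ : Finset (Fin 3)), 0 ≤ w l * w l := fun l _ => mul_self_nonneg _
    have h7 := Finset.single_le_sum h6 (Finset.mem_univ l)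
    rw [sq]
    exact h7
  have hN0 : 0 ≤ w ⬝ᵥ w := le_trans (sq_nonneg _) (hN i)
  have h8 : (lam * (w ⬝ᵥ w)) ^ 2 ≤ w ⬝ᵥ w := by
    have h9 : 0 ≤ lam * (w ⬝ᵥ w) := mul_nonneg hl.le hN0
    calc (lam * (w ⬝ᵥ w)) ^ 2 ≤ w j ^ 2 := by gcongr
      _ ≤ w ⬝ᵥ w := hN j
  have h9 : lam ^ 2 * (w ⬝ᵥ w) ≤ 1 := by
    rcases hN0.eq_or_lt with h0 | h0
    · rw [← h0]; norm_num
    · have : lam ^ 2 * (w ⬝ᵥ w) * (w ⬝ᵥ w) ≤ 1 * (w ⬝ᵥ w) := by nlinarith
      exact le_of_mul_le_mul_right this h0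
  have h10 : (lam * w i) ^ 2 ≤ 1 := by
    have := hN i
    have h11 : lam ^ 2 * w i ^ 2 ≤ lam ^ 2 * (w ⬝ᵥ w) := by gcongr
    nlinarith
  have h11 : |lam * w i| ≤ 1 := by
    rw [← Real.sqrt_sq_eq_abs]
    exact Real.sqrt_le_one.mpr h10
  rw [abs_mul, abs_of_pos hl] at h11
  rw [le_div_iff₀ hl]
  change |w i| * lam ≤ 1
  linarith [mul_comm |w i| lam]

theorem entry_le {G : Mat3} (hG : G.PosDef) (i j : Fin 3) : |G i j| ≤ (G i i + G j j) / 2 := by
  have hs : G j i = G i j := by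
    have h1 := hG.isHermitian
    have h2 := congrFun (congrFun h1 i) j
    rw [Matrix.conjTranspose_apply] at h2
    simpa using h2
  have hp : ∀ v : Fin 3 → ℝ, 0 ≤ v ⬝ᵥ G *ᵥ v := by
    intro v
    have := hG.posSemidef.dotProduct_mulVec_nonneg v
    simpa using this
  have h1 := hp (Pi.single i 1 + Pi.single j 1)
  have h2 := hp (Pi.single i 1 - Pi.single j 1)
  have e1 : (Pi.single i 1 + Pi.single j 1 : Fin 3 → ℝ) ⬝ᵥ G *ᵥ (Pi.single i 1 + Pi.single j 1)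
      = G i i + G i j + (G j i + G j j) := by
    simp [Matrix.mulVec_add, add_dotProduct, single_dotProduct]
    ring
  have e2 : (Pi.single i 1 - Pi.single j 1 : Fin 3 → ℝ) ⬝ᵥ G *ᵥ (Pi.single i 1 - Pi.single j 1)
      = G i i - G i j - (G j i - G j j) := by
    simp [Matrix.mulVec_sub, sub_dotProduct, single_dotProduct]
    ring
  rw [e1, hs] at h1
  rw [e2, hs] at h2
  rw [abs_le]
  constructor <;> linarith

theorem coord_le_of_frame {r : ℕ} (Ψ : (Fin r → Fin 3) → ℝ) {a c : M9} {C B : ℝ}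
    (hac : Matrix.of a * Matrix.of c = 1) (hB : ∀ i j, |c i j| ≤ B)
    (hC : ∀ I : Fin r → Fin 3, |∑ J : Fin r → Fin 3, Ψ J * ∏ s, a (J s) (I s)| ≤ C)
    (J : Fin r → Fin 3) : |Ψ J| ≤ 3 ^ r * C * B ^ r := by
  have hac' : ∀ i j, ∑ l, a i l * c l j = if i = j then 1 else 0 := by
    intro i j
    have h1 := congrFun (congrFun hac i) j
    rw [Matrix.mul_apply, Matrix.one_apply] at h1
    simpa using h1
  have h1 : ∀ J' : Fin r → Fin 3, ∑ I : Fin r → Fin 3, (∏ s, a (J' s) (I s)) * ∏ s, c (I s) (J s)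
      = if J' = J then 1 else 0 := by
    intro J'
    have h2 : ∏ s, ∑ i, a (J' s) i * c i (J s)
        = ∑ I : Fin r → Fin 3, ∏ s, (a (J' s) (I s) * c (I s) (J s)) := by
      rw [Finset.prod_univ_sum]
      simp
    simp only [← Finset.prod_mul_distrib]
    rw [← h2]
    simp only [hac']
    by_cases h : J' = J
    · subst h
      simp
    · rw [if_neg h]
      obtain ⟨s, hs⟩ := Function.ne_iff.mp h
      exact Finset.prod_eq_zero (Finset.mem_univ s) (if_neg hs)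
  have h2 : Ψ J = ∑ I : Fin r → Fin 3, (∑ J' : Fin r → Fin 3, Ψ J' * ∏ s, a (J' s) (I s))
      * ∏ s, c (I s) (J s) := by
    simp only [Finset.sum_mul]
    rw [Finset.sum_comm]
    have h3 : ∀ J' : Fin r → Fin 3, ∑ I : Fin r → Fin 3, Ψ J' * (∏ s, a (J' s) (I s))
        * ∏ s, c (I s) (J s) = Ψ J' * if J' = J then 1 else 0 := by
      intro J'
      rw [← h1 J', Finset.mul_sum]
      exact Finset.sum_congr rfl fun I _ => by ring
    simp only [h3]
    simp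
  have hB0 : 0 ≤ B := le_trans (abs_nonneg _) (hB 0 0)
  have hC0 : 0 ≤ C := le_trans (abs_nonneg _) (hC J)
  rw [h2]
  calc |∑ I : Fin r → Fin 3, (∑ J' : Fin r → Fin 3, Ψ J' * ∏ s, a (J' s) (I s))
      * ∏ s, c (I s) (J s)|
      ≤ ∑ I : Fin r → Fin 3, |(∑ J' : Fin r → Fin 3, Ψ J' * ∏ s, a (J' s) (I s))
      * ∏ s, c (I s) (J s)| := Finset.abs_sum_le_sum_abs _ _
    _ ≤ ∑ _I : Fin r → Fin 3, C * B ^ r := by
        refine Finset.sum_le_sum fun I _ => ?_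
        rw [abs_mul]
        refine mul_le_mul (hC I) ?_ (abs_nonneg _) hC0
        rw [Finset.abs_prod]
        calc ∏ s, |c (I s) (J s)| ≤ ∏ _s : Fin r, B :=
              Finset.prod_le_prod (fun s _ => abs_nonneg _) fun s _ => hB _ _
          _ = B ^ r := by simp
    _ = 3 ^ r * C * B ^ r := by
        simp [mul_assoc]

/-- Compactness: uniform ellipticity of a continuous family of positive definite matrices. -/
theorem exists_lower_bound {K : Set E3} (hK : IsCompact K) {G : E3 → Mat3}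
    (hc : ∀ i j, ContinuousOn (fun x => G x i j) K) (hp : ∀ x ∈ K, (G x).PosDef) :
    ∃ lam > 0, ∀ x ∈ K, ∀ v : Fin 3 → ℝ, lam * (v ⬝ᵥ v) ≤ v ⬝ᵥ G x *ᵥ v := by
  set S : Set (Fin 3 → ℝ) := {v | v ⬝ᵥ v = 1} with hS
  have hScont : Continuous fun v : Fin 3 → ℝ => v ⬝ᵥ v := by
    unfold dotProduct
    fun_prop
  have hSc : IsCompact S := by
    refine Metric.isCompact_of_isClosed_isBounded (isClosed_eq hScont continuous_const) ?_
    refine (Metric.isBounded_closedBall (x := (0 : Fin 3 → ℝ)) (r := 1)).subset ?_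
    intro v hv
    rw [mem_closedBall_zero_iff, pi_norm_le_iff_of_nonneg zero_le_one]
    intro i
    have h6 : ∀ l ∈ (Finset.univ : Finset (Fin 3)), 0 ≤ v l * v l := fun l _ => mul_self_nonneg _
    have h7 := Finset.single_le_sum h6 (Finset.mem_univ i)
    have h8 : v i * v i ≤ 1 := by
      have : (∑ l, v l * v l) = 1 := hv
      rw [← this]
      exact h7
    rw [Real.norm_eq_abs, ← Real.sqrt_sq_eq_abs]
    exact Real.sqrt_le_one.mpr (by rw [sq]; exact h8)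
  have hFc : ContinuousOn (fun q : E3 × (Fin 3 → ℝ) => q.2 ⬝ᵥ G q.1 *ᵥ q.2) (K ×ˢ S) := by
    simp only [dotProduct, Matrix.mulVec]
    refine continuousOn_finsetSum _ fun i _ => ContinuousOn.mul (by fun_prop) ?_
    refine continuousOn_finsetSum _ fun j _ => ContinuousOn.mul ?_ (by fun_prop)
    exact (hc i j).comp continuousOn_fst fun q hq => hq.1
  have hpos : ∀ x ∈ K, ∀ v : Fin 3 → ℝ, v ≠ 0 → 0 < v ⬝ᵥ G x *ᵥ v := by
    intro x hx v hv
    have := (hp x hx).dotProduct_mulVec_pos hv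
    simpa using this
  rcases K.eq_empty_or_nonempty with hKe | hKn
  · exact ⟨1, one_pos, fun x hx => by rw [hKe] at hx; exact absurd hx (notMem_empty x)⟩
  · have hSn : S.Nonempty := ⟨Pi.single 0 1, by simp [hS]⟩
    obtain ⟨q, hq, hmin⟩ := (hK.prod hSc).exists_isMinOn (hKn.prod hSn) hFc
    have hq2 : q.2 ≠ 0 := by
      intro h0
      have : q.2 ⬝ᵥ q.2 = 1 := hq.2
      rw [h0] at this
      simp at this
    refine ⟨q.2 ⬝ᵥ G q.1 *ᵥ q.2, hpos q.1 hq.1 q.2 hq2, fun x hx v => ?_⟩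
    by_cases hv : v = 0
    · subst hv
      simp
    · have hn : 0 < v ⬝ᵥ v := by
        have h1 : 0 ≤ v ⬝ᵥ v := Finset.sum_nonneg fun i _ => mul_self_nonneg _
        rcases h1.eq_or_lt with h2 | h2
        · exact absurd (dotProduct_self_eq_zero.mp h2.symm) hv
        · exact h2
      set c : ℝ := (Real.sqrt (v ⬝ᵥ v))⁻¹ with hcdef
      have hc2 : c * c * (v ⬝ᵥ v) = 1 := by
        rw [hcdef, ← mul_inv, Real.mul_self_sqrt hn.le]
        exact inv_mul_cancel₀ hn.ne'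
      have hmem : c • v ∈ S := by
        change (c • v) ⬝ᵥ (c • v) = 1
        rw [smul_dotProduct, dotProduct_smul, smul_eq_mul, smul_eq_mul, ← mul_assoc]
        exact hc2
      have h1 := hmin (show (x, c • v) ∈ K ×ˢ S from ⟨hx, hmem⟩)
      have h2 : (c • v) ⬝ᵥ G x *ᵥ (c • v) = c * c * (v ⬝ᵥ G x *ᵥ v) := by
        rw [Matrix.mulVec_smul, smul_dotProduct, dotProduct_smul, smul_eq_mul, smul_eq_mul,
          ← mul_assoc]
      have h3 : q.2 ⬝ᵥ G q.1 *ᵥ q.2 ≤ c * c * (v ⬝ᵥ G x *ᵥ v) := by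
        rw [← h2]
        exact h1
      calc q.2 ⬝ᵥ G q.1 *ᵥ q.2 * (v ⬝ᵥ v) ≤ c * c * (v ⬝ᵥ G x *ᵥ v) * (v ⬝ᵥ v) := by gcongr
        _ = (c * c * (v ⬝ᵥ v)) * (v ⬝ᵥ G x *ᵥ v) := by ring
        _ = v ⬝ᵥ G x *ᵥ v := by rw [hc2, one_mul]

end Pool.Agent.RFS
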