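import Pool.Agent.RFS.CL0

/-!
# RFS chunk (c), module CLC: smooth limit as time tends to b

PROOF. For `x ∈ U` and every `k`, `t ↦ iteratedFDeriv ℝ k (h t) x` is Cauchy as `t → b-` (take
`K = {x}`), let `L k x` be its limit. By `hL`, the convergence is uniform on compact subsets of `U`
(pass to the limit `s → b` in the inequality: `‖L k x - iteratedFDeriv ℝ k (h t) x‖ ≤ C (b - t)`),
so it is locally uniform on `U` (`E3` is locally compact), and every `L k` is continuous on `U`.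
`iteratedFDeriv ℝ k (h t)` has derivative `(curryLeft) iteratedFDeriv ℝ (k+1) (h t)` on `U`, so by
`hasFDerivAt_of_tendstoLocallyUniformlyOn` `L k` has derivative `curryLeft (L (k+1))` on `U`:
`L` is a Taylor series of `hb' = L 0` (up to `curry0`) on the open set `U`
(`HasFTaylorSeriesUpToOn`), hence `hb'` is smooth and `iteratedFDeriv ℝ k hb' x = L k x` on `U`.
Continuity on `Icc 0 b ×ˢ U` at `(t, x)` with `t < b`: near such a point `z.1 < b`, use `hc`; at
`(b, x)`: for `z = (t, y)` near, `y` in a compact neighbourhood `K ⊆ U` of `x`,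
`‖value at z - L k x‖ ≤ C (b - t) + ‖L k y - L k x‖`.
-/

open scoped ContDiff Matrix Topology
open Set Filter

noncomputable section

namespace Pool.Agent.RFS

private theorem clc_lim {E : Type*} [NormedAddCommGroup E] [NormedSpace ℝ E] [CompleteSpace E]
    {b t₀ C : ℝ} (ht : t₀ < b) {F : ℝ → E}
    (h : ∀ s ∈ Ico t₀ b, ∀ t ∈ Ico t₀ b, ‖F s - F t‖ ≤ C * |s - t|) :
    ∃ l, Tendsto F (𝓝[<] b) (𝓝 l) := by
  have hc : Cauchy (map F (𝓝[<] b)) := by
    rw [Metric.cauchy_iff]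
    refine ⟨inferInstance, fun ε hε => ?_⟩
    set C' : ℝ := |C| + 1 with hC'
    have hC'0 : 0 < C' := by positivity
    set t₁ : ℝ := max t₀ (b - ε / (2 * C')) with ht₁
    have ht₁b : t₁ < b := by
      rw [ht₁, max_lt_iff]
      refine ⟨ht, ?_⟩
      have : 0 < ε / (2 * C') := by positivity
      linarith
    refine ⟨F '' Ico t₁ b, ?_, ?_⟩
    · refine image_mem_map ?_
      exact mem_of_superset (Ioo_mem_nhdsLT ht₁b) Ioo_subset_Ico_self
    · rintro _ ⟨s, hs, rfl⟩ _ ⟨t, ht', rfl⟩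
      have h0 : t₀ ≤ t₁ := le_max_left _ _
      have h1 := h s ⟨h0.trans hs.1, hs.2⟩ t ⟨h0.trans ht'.1, ht'.2⟩
      have h2 : |s - t| ≤ ε / (2 * C') := by
        have h3 : b - ε / (2 * C') ≤ t₁ := le_max_right _ _
        rw [abs_le]
        constructor <;> linarith [hs.1, hs.2, ht'.1, ht'.2]
      rw [dist_eq_norm]
      calc ‖F s - F t‖ ≤ C * |s - t| := h1
        _ ≤ C' * |s - t| := by
          refine mul_le_mul_of_nonneg_right ?_ (abs_nonneg _)
          linarith [le_abs_self C]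
        _ ≤ C' * (ε / (2 * C')) := by gcongr
        _ = ε / 2 := by field_simp
        _ < ε := by linarith
  exact cauchy_iff_exists_le_nhds.mp hc

theorem exists_limit {U : Set E3} (hU : IsOpen U) {b : ℝ} (hb : 0 < b) {h : ℝ → E3 → ℝ}
    (hs : ∀ t ∈ Ico 0 b, ContDiffOn ℝ ∞ (h t) U)
    (hc : ∀ k : ℕ, ContinuousOn (fun z : ℝ × E3 => iteratedFDeriv ℝ k (h z.1) z.2)
      (Ico 0 b ×ˢ U))
    (hL : ∀ k : ℕ, ∀ K ⊆ U, IsCompact K → ∃ C t₀, t₀ ∈ Ico 0 b ∧ ∀ s ∈ Ico t₀ b,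
      ∀ t ∈ Ico t₀ b, ∀ x ∈ K,
        ‖iteratedFDeriv ℝ k (h s) x - iteratedFDeriv ℝ k (h t) x‖ ≤ C * |s - t|) :
    ∃ h₁ : E3 → ℝ, ContDiffOn ℝ ∞ h₁ U ∧
      (∀ x ∈ U, Tendsto (fun t => h t x) (𝓝[<] b) (𝓝 (h₁ x))) ∧
      ∀ k : ℕ, ContinuousOn (fun z : ℝ × E3 =>
        iteratedFDeriv ℝ k (if z.1 < b then h z.1 else h₁) z.2) (Icc 0 b ×ˢ U) := by
  have hb' : ∀ t₀ < b, Ico t₀ b ∈ 𝓝[<] b := fun t₀ ht =>
    mem_of_superset (Ioo_mem_nhdsLT ht) Ioo_subset_Ico_self
  -- the limits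
  have hex : ∀ (k : ℕ) (x : E3), x ∈ U →
      ∃ l, Tendsto (fun t => iteratedFDeriv ℝ k (h t) x) (𝓝[<] b) (𝓝 l) := by
    intro k x hx
    obtain ⟨C, t₀, ht₀, hC⟩ := hL k {x} (singleton_subset_iff.mpr hx) isCompact_singleton
    exact clc_lim ht₀.2 fun s hs t ht => hC s hs t ht x rfl
  choose! L hLt using hex
  -- uniform estimate
  have hest : ∀ (k : ℕ) (K : Set E3), K ⊆ U → IsCompact K → ∃ C t₀ : ℝ, 0 < C ∧ t₀ ∈ Ico 0 b ∧
      ∀ t ∈ Ico t₀ b, ∀ x ∈ K, ‖iteratedFDeriv ℝ k (h t) x - L k x‖ ≤ C * (b - t) := by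
    intro k K hKU hK
    obtain ⟨C, t₀, ht₀, hC⟩ := hL k K hKU hK
    refine ⟨|C| + 1, t₀, by positivity, ht₀, fun t ht x hx => ?_⟩
    have h1 : Tendsto (fun s => ‖iteratedFDeriv ℝ k (h t) x - iteratedFDeriv ℝ k (h s) x‖)
        (𝓝[<] b) (𝓝 ‖iteratedFDeriv ℝ k (h t) x - L k x‖) :=
      (tendsto_const_nhds.sub (hLt k x (hKU hx))).norm
    refine le_of_tendsto h1 ?_
    filter_upwards [hb' t ht.2] with s hs
    have h2 := hC t ht s ⟨ht.1.trans hs.1, hs.2⟩ x hx
    have h3 : |t - s| ≤ b - t := by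
      rw [abs_le]
      constructor <;> linarith [hs.1, hs.2]
    calc ‖iteratedFDeriv ℝ k (h t) x - iteratedFDeriv ℝ k (h s) x‖ ≤ C * |t - s| := h2
      _ ≤ (|C| + 1) * |t - s| := by
        refine mul_le_mul_of_nonneg_right ?_ (abs_nonneg _)
        linarith [le_abs_self C]
      _ ≤ (|C| + 1) * (b - t) := by gcongr
  have hsmall : ∀ C : ℝ, 0 < C → ∀ ε > 0, ∀ᶠ t in 𝓝[<] b, C * (b - t) < ε := by
    intro C hC ε hε
    have h1 : b - ε / C < b := by
      have : 0 < ε / C := by positivity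
      linarith
    filter_upwards [Ioo_mem_nhdsLT h1] with t ht
    have h2 : b - t < ε / C := by linarith [ht.1]
    calc C * (b - t) < C * (ε / C) := by gcongr
      _ = ε := by field_simp
  -- continuity of the limits
  have hcont : ∀ k : ℕ, ContinuousOn (L k) U := by
    intro k
    have h1 : TendstoLocallyUniformlyOn (fun t => iteratedFDeriv ℝ k (h t)) (L k) (𝓝[<] b) U := by
      rw [tendstoLocallyUniformlyOn_iff_forall_isCompact hU]
      intro K hKU hK
      obtain ⟨C, t₀, hC, ht₀, hCt⟩ := hest k K hKU hK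
      rw [Metric.tendstoUniformlyOn_iff]
      intro ε hε
      filter_upwards [hb' t₀ ht₀.2, hsmall C hC ε hε] with t ht hte x hx
      rw [dist_comm, dist_eq_norm]
      exact lt_of_le_of_lt (hCt t ht x hx) hte
    refine h1.continuousOn (Eventually.frequently ?_)
    filter_upwards [hb' 0 hb] with t ht
    exact (hc k).comp (f := fun x : E3 => (t, x)) (by fun_prop) fun x hx => ⟨ht, hx⟩
  -- derivatives of the limits
  have hder : ∀ (k : ℕ) (x : E3), x ∈ U → HasFDerivAt (L k) (L (k + 1) x).curryLeft x := by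
    intro k x hx
    obtain ⟨K, hK, hxK, hKU⟩ := exists_compact_subset hU hx
    obtain ⟨C, t₀, hC, ht₀, hCt⟩ := hest (k + 1) K hKU hK
    have hKn : K ∈ 𝓝 x := mem_interior_iff_mem_nhds.mp hxK
    refine hasFDerivAt_of_tendstoUniformlyOnFilter (l := 𝓝[<] b)
      (f := fun t => iteratedFDeriv ℝ k (h t))
      (f' := fun t y => (iteratedFDeriv ℝ (k + 1) (h t) y).curryLeft)
      (g' := fun y => (L (k + 1) y).curryLeft) ?_ ?_ ?_
    · rw [Metric.tendstoUniformlyOnFilter_iff]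
      intro ε hε
      have h1 : (Ico t₀ b ∩ {t | C * (b - t) < ε}) ×ˢ K ∈ (𝓝[<] b) ×ˢ 𝓝 x :=
        prod_mem_prod (inter_mem (hb' t₀ ht₀.2) (hsmall C hC ε hε)) hKn
      filter_upwards [h1] with q hq
      have h2 := hCt q.1 hq.1.1 q.2 hq.2
      have h3 : dist (L (k + 1) q.2).curryLeft (iteratedFDeriv ℝ (k + 1) (h q.1) q.2).curryLeft
          = dist (L (k + 1) q.2) (iteratedFDeriv ℝ (k + 1) (h q.1) q.2) :=
        (continuousMultilinearCurryLeftEquiv ℝ (fun _ : Fin (k + 1) => E3) ℝ).dist_map _ _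
      rw [h3, dist_comm, dist_eq_norm]
      exact lt_of_le_of_lt h2 hq.1.2
    · have h1 : Ico 0 b ×ˢ U ∈ (𝓝[<] b) ×ˢ 𝓝 x := prod_mem_prod (hb' 0 hb) (hU.mem_nhds hx)
      filter_upwards [h1] with q hq
      have h2 : ContDiffAt ℝ ∞ (h q.1) q.2 := (hs q.1 hq.1).contDiffAt (hU.mem_nhds hq.2)
      have h3 : DifferentiableAt ℝ (iteratedFDeriv ℝ k (h q.1)) q.2 :=
        h2.differentiableAt_iteratedFDeriv (by exact_mod_cast WithTop.coe_lt_top _)
      exact h3.hasFDerivAt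
    · filter_upwards [hU.mem_nhds hx] with y hy
      exact hLt k y hy
  set h₁ : E3 → ℝ := fun x => (L 0 x).curry0 with hh₁
  have htay : HasFTaylorSeriesUpToOn ∞ h₁ (fun x k => L k x) U := by
    refine ⟨fun x _ => rfl, fun m _ x hx => (hder m x hx).hasFDerivWithinAt, fun m _ => hcont m⟩
  have hsm : ContDiffOn ℝ ∞ h₁ U := htay.contDiffOn
  have hit : ∀ (k : ℕ) (x : E3), x ∈ U → iteratedFDeriv ℝ k h₁ x = L k x := by
    intro k x hx
    rw [← iteratedFDerivWithin_of_isOpen k hU hx]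
    exact (htay.eq_iteratedFDerivWithin_of_uniqueDiffOn (by exact_mod_cast le_top)
      hU.uniqueDiffOn hx).symm
  refine ⟨h₁, hsm, ?_, ?_⟩
  · intro x hx
    exact ((continuousMultilinearCurryFin0 ℝ E3 ℝ).continuous.tendsto (L 0 x)).comp (hLt 0 x hx)
  · intro k
    rintro ⟨t, x⟩ ⟨ht, hx⟩
    rcases ht.2.lt_or_eq with htb | htb
    · -- interior times
      have h1 := hc k (t, x) ⟨⟨ht.1, htb⟩, hx⟩
      have hN : {z : ℝ × E3 | z.1 < b} ∈ 𝓝 ((t, x) : ℝ × E3) :=
        (isOpen_lt continuous_fst continuous_const).mem_nhds htb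
      have h2 : Ico 0 b ×ˢ U ∈ 𝓝[Icc 0 b ×ˢ U] ((t, x) : ℝ × E3) := by
        filter_upwards [mem_nhdsWithin_of_mem_nhds hN, self_mem_nhdsWithin] with z hz hz2
        exact ⟨⟨hz2.1.1, hz⟩, hz2.2⟩
      refine (h1.mono_of_mem_nhdsWithin h2).congr_of_eventuallyEq ?_ ?_
      · filter_upwards [mem_nhdsWithin_of_mem_nhds hN] with z hz
        rw [if_pos hz]
      · change iteratedFDeriv ℝ k (if t < b then h t else h₁) x = _
        rw [if_pos htb]
    · subst htb
      obtain ⟨K, hK, hxK, hKU⟩ := exists_compact_subset hU hx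
      obtain ⟨C, t₀, hC, ht₀, hCt⟩ := hest k K hKU hK
      have hKn : K ∈ 𝓝 x := mem_interior_iff_mem_nhds.mp hxK
      have h1 : Tendsto (fun z : ℝ × E3 => L k z.2) (𝓝[Icc 0 t ×ˢ U] ((t, x) : ℝ × E3))
          (𝓝 (L k x)) :=
        (hcont k x hx).tendsto.comp (tendsto_nhdsWithin_iff.mpr
          ⟨(continuous_snd.tendsto _).mono_left nhdsWithin_le_nhds,
            by filter_upwards [self_mem_nhdsWithin] with z hz using hz.2⟩)
      have h2 : Tendsto (fun z : ℝ × E3 =>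
          iteratedFDeriv ℝ k (if z.1 < t then h z.1 else h₁) z.2 - L k z.2)
          (𝓝[Icc 0 t ×ˢ U] ((t, x) : ℝ × E3)) (𝓝 0) := by
        have h3 : Tendsto (fun z : ℝ × E3 => C * (t - z.1)) (𝓝[Icc 0 t ×ˢ U] ((t, x) : ℝ × E3))
            (𝓝 0) := by
          have h4 : Continuous fun z : ℝ × E3 => C * (t - z.1) := by fun_prop
          have h5 := (h4.tendsto ((t, x) : ℝ × E3)).mono_left
            (nhdsWithin_le_nhds (s := Icc 0 t ×ˢ U))
          simpa using h5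
        refine squeeze_zero_norm' ?_ h3
        have hN1 : {z : ℝ × E3 | t₀ < z.1} ∈ 𝓝 ((t, x) : ℝ × E3) :=
          (isOpen_lt continuous_const continuous_fst).mem_nhds ht₀.2
        have hN2 : {z : ℝ × E3 | z.2 ∈ K} ∈ 𝓝 ((t, x) : ℝ × E3) :=
          (continuous_snd.tendsto ((t, x) : ℝ × E3)) hKn
        filter_upwards [mem_nhdsWithin_of_mem_nhds hN1, mem_nhdsWithin_of_mem_nhds hN2,
          self_mem_nhdsWithin] with z hz1 hz2 hz3
        rcases hz3.1.2.lt_or_eq with hzt | hzt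
        · rw [if_pos hzt]
          exact hCt z.1 ⟨le_of_lt hz1, hzt⟩ z.2 hz2
        · rw [if_neg (by rw [hzt]; exact lt_irrefl _), hit k z.2 hz3.2, hzt]
          simp
      have h3 := h2.add h1
      have h4 : iteratedFDeriv ℝ k (if t < t then h t else h₁) x = L k x := by
        rw [if_neg (lt_irrefl _), hit k x hx]
      change Tendsto _ _ (𝓝 (iteratedFDeriv ℝ k (if t < t then h t else h₁) x))
      rw [h4]
      simpa using h3

end Pool.Agent.RFS
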