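import Pool.Agent.RFS.CL7
import Pool.Agent.RFS.CL8
import Pool.Agent.RFS.CL9
import Pool.Agent.RFS.CLC

/-!
# RFS chunk (c), module CLD: a flow with bounded curvature extends to the closed interval

PROOF. For every chart `e` and `i`, `j`: `IsRF.locRF` (CJ6), `bd_zero` (CL8) and `LocRF.bd_all`
(CL7) with `t₀ = b / 2`: `h = G_ij`, `h' = -2 ricci_ij = -2 ricT 0 ![i, j]` satisfies `Bd m` for all
`m`; `iteratedFDeriv_lipschitz` (CL9) and `exists_limit` (CLC; `hc` = `h.cont`, `hs` = `Sym2.smooth`)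
give `L e i j`. The limit metric `gb`: `c e x = Matrix.of fun i j => L e i j x`; `symm` and `compat` are
limits of identities (`tendsto_nhds_unique` along `𝓝[<] b`; matrix product entries are finite
sums); `pos`: symmetric and `v ⬝ gb v ≥ exp (-6 K b) v ⬝ G_0 v > 0` (limit of `metric_equiv`).
`g' t = if t < b then g t else gb`.
`IsRF g' (Icc 0 b)`: `cont` from `exists_limit`. `eqn` at `t < b`: `Ico 0 b` is a neighbourhood of `t`
within `Icc 0 b` and `g' = g` near `t`. `eqn` at `t = b`: `hasDerivWithinAt_Iic_of_tendsto_deriv`-type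
lemma: the entry is continuous within `Icc 0 b` at `b`, differentiable on `Ioo 0 b` with derivative
`-2 ricci (G_t) x i j`, which tends to `-2 ricci (G_b) x i j` because `ricci` is a continuous function
of the 2-jet (`exists_ricci_jet`) and the 2-jet of `toM9 (G_t)` at `x` converges (`cont` for
`k = 0, 1, 2`; write `fderiv` and `fderiv (fderiv)` through `iteratedFDeriv`).
-/

open scoped ContDiff Matrix Topology
open Set Filter

noncomputable section

namespace Pool.Agent.RFS

section CLDaux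

variable {E F G : Type} [NormedAddCommGroup E] [NormedSpace ℝ E] [NormedAddCommGroup F]
  [NormedSpace ℝ F] [NormedAddCommGroup G] [NormedSpace ℝ G]
  {n : ℕ} {J : Set ℝ} {U : Set E}

private theorem CLD_clm {h : ℝ → E → F} (hU : IsOpen U) (H : SpC n J U h) (L : F →L[ℝ] G) :
    SpC n J U (fun t x => L (h t x)) :=
  SpC.comp hU H isOpen_univ L.contDiff.contDiffOn (fun _ _ _ _ => mem_univ _)

private theorem CLD_zero : SpC n J U (fun _ _ => (0 : F)) := by
  refine ⟨fun _ _ => contDiffOn_const, fun k => ?_⟩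
  have : (fun p : ℝ × E => iteratedFDeriv ℝ k (fun _ : E => (0 : F)) p.2) = fun _ => 0 := by
    funext p
    have h0 := iteratedFDeriv_zero_fun (𝕜 := ℝ) (E := E) (F := F) (n := k)
    rw [show (fun _ : E => (0 : F)) = 0 from rfl] at *
    rw [h0]
    rfl
  rw [this]
  exact contDiffOn_const

private theorem CLD_add {h h' : ℝ → E → F} (hU : IsOpen U) (H : SpC n J U h)
    (H' : SpC n J U h') : SpC n J U (fun t x => h t x + h' t x) :=
  CLD_clm hU (H.prodMk hU H') (ContinuousLinearMap.fst ℝ F F + ContinuousLinearMap.snd ℝ F F)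

private theorem CLD_sum {ι : Type*} (s : Finset ι) {f : ι → ℝ → E → F} (hU : IsOpen U)
    (H : ∀ i ∈ s, SpC n J U (f i)) : SpC n J U (fun t x => ∑ i ∈ s, f i t x) := by
  classical
  induction s using Finset.induction_on with
  | empty => simpa using CLD_zero
  | insert a s ha ih =>
    have h1 := CLD_add hU (H a (Finset.mem_insert_self a s))
      (ih fun i hi => H i (Finset.mem_insert_of_mem hi))
    refine h1.congr hU fun t _ x _ => ?_
    rw [Finset.sum_insert ha]

end CLDaux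

private def CLD_unit (i j : Fin 3) : ℝ →L[ℝ] M9 :=
  (ContinuousLinearMap.single ℝ (fun _ : Fin 3 => Fin 3 → ℝ) i).comp
    (ContinuousLinearMap.single ℝ (fun _ : Fin 3 => ℝ) j)

private theorem CLD_unit_sum (B : M9) : ∑ i, ∑ j, CLD_unit i j (B i j) = B := by
  funext k l
  simp only [Finset.sum_apply, CLD_unit, ContinuousLinearMap.comp_apply,
    ContinuousLinearMap.single_apply]
  rw [Finset.sum_eq_single k]
  · rw [Finset.sum_eq_single l]
    · simp
    · intro j _ hj
      simp [Pi.single_apply, Ne.symm hj]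
    · simp
  · intro i _ hi
    refine Finset.sum_eq_zero fun j _ => ?_
    simp [Pi.single_apply, Ne.symm hi]
  · simp

private theorem CLD_toM9 {G : ℝ → E3 → Mat3} {J : Set ℝ} {U : Set E3} (hU : IsOpen U) {n : ℕ}
    (H : ∀ i j, SpC n J U (fun t x => G t x i j)) : SpC n J U (fun t => toM9 (G t)) := by
  have h1 : SpC n J U (fun t x => ∑ i, ∑ j, CLD_unit i j (G t x i j)) :=
    CLD_sum Finset.univ hU fun i _ => CLD_sum Finset.univ hU fun j _ => CLD_clm hU (H i j) _
  refine h1.congr hU fun t _ x _ => ?_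
  exact (CLD_unit_sum (toM9 (G t) x)).symm

variable {A : Type*} [CommRing A] [Algebra ℝ A] {S : RFAlg A}
  {M : Type*} [TopologicalSpace M] [ChartedSpace E3 M] [MeasurableSpace M] {b : ℝ}

omit [MeasurableSpace M] in
private theorem CLD_ricci_cont {g' : ℝ → RMetric M} {J : Set ℝ}
    (hc : ∀ e i j, ∀ k : ℕ, ContinuousOn
      (fun z : ℝ × E3 => iteratedFDeriv ℝ k (fun y => (g' z.1).c e y i j) z.2)
      (J ×ˢ e.1.target)) (e : Ch M) {x : E3} (hx : x ∈ e.1.target) (i j : Fin 3) :
    ContinuousOn (fun t => ricci ((g' t).c e) x i j) J := by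
  have hU : IsOpen e.1.target := e.1.open_target
  have hS : SpC 0 J e.1.target (fun t => toM9 ((g' t).c e)) := by
    refine CLD_toM9 hU fun i j => ⟨fun t _ => (g' t).smooth e i j, fun k => ?_⟩
    exact contDiffOn_zero.2 (hc e i j k)
  have hJ := (hS.jet2 hU).uncurry
  have hJc : ContinuousOn (fun p : ℝ × E3 => jet2 (toM9 ((g' p.1).c e)) p.2)
      (J ×ˢ e.1.target) := hJ.continuousOn
  obtain ⟨V, Φ, hV, hΦ, hR⟩ := exists_ricci_jet
  have h1 : ContinuousOn (fun t : ℝ => jet2 (toM9 ((g' t).c e)) x) J := by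
    have h2 : ContinuousOn (fun t : ℝ => (t, x)) J := by fun_prop
    exact hJc.comp (g := fun p : ℝ × E3 => jet2 (toM9 ((g' p.1).c e)) p.2) h2
      (fun t ht => ⟨ht, hx⟩)
  have hdet : ∀ t, ((g' t).c e x).det ≠ 0 := fun t => ((g' t).pos e x hx).det_pos.ne'
  have h3 : ∀ t, jet2 (toM9 ((g' t).c e)) x ∈ V ∧
      ∀ i j, Φ (jet2 (toM9 ((g' t).c e)) x) i j = ricci ((g' t).c e) x i j := fun t =>
    hR e.1.target hU ((g' t).c e) (fun i j => (g' t).smooth e i j) x hx (hdet t)
  have h4 : ContinuousOn (fun t : ℝ => Φ (jet2 (toM9 ((g' t).c e)) x)) J :=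
    hΦ.continuousOn.comp h1 (fun t _ => (h3 t).1)
  have h5 : ContinuousOn (fun t : ℝ => Φ (jet2 (toM9 ((g' t).c e)) x) i j) J :=
    continuousOn_pi.1 (continuousOn_pi.1 h4 i) j
  exact h5.congr fun t _ => ((h3 t).2 i j).symm

omit [MeasurableSpace M] in
private theorem CLD_entry_cont {g' : ℝ → RMetric M} {J : Set ℝ}
    (hc : ∀ e i j, ∀ k : ℕ, ContinuousOn
      (fun z : ℝ × E3 => iteratedFDeriv ℝ k (fun y => (g' z.1).c e y i j) z.2)
      (J ×ˢ e.1.target)) (e : Ch M) {x : E3} (hx : x ∈ e.1.target) (i j : Fin 3) :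
    ContinuousOn (fun t => (g' t).c e x i j) J := by
  have h0 := hc e i j 0
  have h2 : ContinuousOn (fun t : ℝ => (t, x)) J := by fun_prop
  have h3 := h0.comp h2 (fun t ht => ⟨ht, hx⟩)
  have h4 : Continuous (fun q : E3[×0]→L[ℝ] ℝ => q 0) := by fun_prop
  refine (h4.comp_continuousOn h3).congr fun t _ => ?_
  simp [iteratedFDeriv_zero_apply]

/-- If a flow on `[0, b)` and a family `g'` agree before `b`, all spatial derivatives of `g'` are
continuous up to `b`, then `g'` is a flow on `[0, b]`. -/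
theorem IsRF.of_cont_closed {g g' : ℝ → RMetric M} (hb : 0 < b) (h : IsRF g (Ico 0 b))
    (hag : ∀ t ∈ Ico 0 b, g' t = g t)
    (hc : ∀ e i j, ∀ k : ℕ, ContinuousOn
      (fun z : ℝ × E3 => iteratedFDeriv ℝ k (fun y => (g' z.1).c e y i j) z.2)
      (Icc 0 b ×ˢ e.1.target)) : IsRF g' (Icc 0 b) := by
  refine ⟨hc, ?_⟩
  have hlt : ∀ e : Ch M, ∀ x ∈ e.1.target, ∀ t ∈ Ico 0 b, ∀ i j,
      HasDerivWithinAt (fun s => (g' s).c e x i j) (-2 * ricci ((g' t).c e) x i j)
        (Icc 0 b) t := by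
    intro e x hx t ht i j
    have h1 := h.eqn e x hx t ht i j
    have h2 : Ico 0 b ∈ 𝓝[Icc 0 b] t :=
      mem_nhdsWithin.2 ⟨Iio b, isOpen_Iio, ht.2, fun y hy => ⟨hy.2.1, hy.1⟩⟩
    have h3 := h1.mono_of_mem_nhdsWithin h2
    rw [hag t ht]
    refine h3.congr_of_eventuallyEq ?_ (by rw [hag t ht])
    filter_upwards [h2] with s hs
    rw [hag s hs]
  intro e x hx t ht i j
  rcases lt_or_eq_of_le ht.2 with htb | htb
  · exact hlt e x hx t ⟨ht.1, htb⟩ i j
  · subst htb
    have hder : ∀ s ∈ Ioo 0 t, HasDerivAt (fun s => (g' s).c e x i j)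
        (-2 * ricci ((g' s).c e) x i j) s := fun s hs =>
      (hlt e x hx s ⟨hs.1.le, hs.2⟩ i j).hasDerivAt (Icc_mem_nhds hs.1 hs.2)
    have hmem : Ioo 0 t ∈ 𝓝[<] t := Ioo_mem_nhdsLT hb
    have h1 : ContinuousWithinAt (fun s => (g' s).c e x i j) (Ioo 0 t) t :=
      ((CLD_entry_cont hc e hx i j) t ht).mono Ioo_subset_Icc_self
    have h2 : Tendsto (fun s => ricci ((g' s).c e) x i j) (𝓝[<] t)
        (𝓝 (ricci ((g' t).c e) x i j)) := by
      have h3 := (CLD_ricci_cont hc e hx i j) t ht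
      have h4 : 𝓝[<] t ≤ 𝓝[Icc 0 t] t := by
        rw [← nhdsWithin_Ioo_eq_nhdsLT hb]
        exact nhdsWithin_mono _ Ioo_subset_Icc_self
      exact h3.tendsto.mono_left h4
    have h5 : Tendsto (fun s => deriv (fun s => (g' s).c e x i j) s) (𝓝[<] t)
        (𝓝 (-2 * ricci ((g' t).c e) x i j)) := by
      refine (h2.const_mul (-2)).congr' ?_
      filter_upwards [hmem] with s hs
      exact (hder s hs).deriv.symm
    have h6 := hasDerivWithinAt_Iic_of_tendsto_deriv
      (fun s hs => (hder s hs).differentiableAt.differentiableWithinAt) h1 hmem h5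
    exact h6.mono Icc_subset_Iic_self

private theorem CLD_limits {g : ℝ → RMetric M} (hb : 0 < b) (h : IsRF g (Ico 0 b))
    {X : RFSpace S M b} (R : FrRep X g) (hP : ∃ K : ℝ, ∀ z i j, |X.ev z (S.P i j)| ≤ K)
    (e : Ch M) (i j : Fin 3) :
    ∃ h₁ : E3 → ℝ, ContDiffOn ℝ ∞ h₁ e.1.target ∧
      (∀ x ∈ e.1.target, Tendsto (fun t => (g t).c e x i j) (𝓝[<] b) (𝓝 (h₁ x))) ∧
      ∀ k : ℕ, ContinuousOn (fun z : ℝ × E3 =>
        iteratedFDeriv ℝ k (if z.1 < b then (fun y => (g z.1).c e y i j) else h₁) z.2)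
        (Icc 0 b ×ˢ e.1.target) := by
  have hU : IsOpen e.1.target := e.1.open_target
  have ht₀ : b / 2 ∈ Ioo 0 b := ⟨by linarith, by linarith⟩
  have hL : LocRF (fun t => (g t).c e) e.1.target b := h.locRF e
  obtain ⟨z0, z1, z2⟩ := bd_zero hb h R hP e ht₀
  have hB : ∀ m, Bd e.1.target (b / 2) b m (fun t x => -2 * ricci ((g t).c e) x i j) := by
    intro m
    have h1 := (hL.bd_all ht₀ z0 z1 z2 m).2.2.2 0 ![i, j]
    exact Bd.mul hU ht₀.1 (JS.const (-2)) (hL.js_ricci i j) (Bd.const m (-2)) h1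
  have hlip := iteratedFDeriv_lipschitz hU ht₀ (hL.js i j)
    ((JS.const (-2)).mul (hL.js_ricci i j)) (fun t ht x hx => hL.eqn t ht x hx i j) hB
  exact exists_limit hU hb (h := fun t y => (g t).c e y i j) (fun t _ => (g t).smooth e i j)
    (fun k => h.cont e i j k) (fun k K hK hKc => by
      obtain ⟨C, hC⟩ := hlip k hK hKc
      exact ⟨C, b / 2, ⟨ht₀.1.le, ht₀.2⟩, hC⟩)

theorem IsRF.extend {g : ℝ → RMetric M} (hb : 0 < b) (h : IsRF g (Ico 0 b))
    {X : RFSpace S M b} (R : FrRep X g) (hP : ∃ K : ℝ, ∀ z i j, |X.ev z (S.P i j)| ≤ K) :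
    ∃ g' : ℝ → RMetric M, (∀ t ∈ Ico 0 b, g' t = g t) ∧ IsRF g' (Icc 0 b) := by
  classical
  choose L hLs hLt hLc using CLD_limits hb h R hP
  obtain ⟨K, hK, hKR⟩ := frame_ricci_le hb h R hP
  have hM : ∀ (e : Ch M), ∀ x ∈ e.1.target, Tendsto (fun t => (g t).c e x) (𝓝[<] b)
      (𝓝 (Matrix.of fun i j => L e i j x : Mat3)) := by
    intro e x hx
    exact tendsto_pi_nhds.2 fun i => tendsto_pi_nhds.2 fun j => hLt e i j x hx
  have hsymm : ∀ (e : Ch M), ∀ x ∈ e.1.target,
      (Matrix.of fun i j => L e i j x : Mat3)ᵀ = Matrix.of fun i j => L e i j x := by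
    intro e x hx
    have h1 : Tendsto (fun t => ((g t).c e x)ᵀ) (𝓝[<] b)
        (𝓝 (Matrix.of fun i j => L e i j x : Mat3)ᵀ) :=
      ((continuous_id.matrix_transpose).tendsto _).comp (hM e x hx)
    have h2 : Tendsto (fun t => ((g t).c e x)ᵀ) (𝓝[<] b)
        (𝓝 (Matrix.of fun i j => L e i j x : Mat3)) :=
      (hM e x hx).congr fun t => ((g t).symm e x hx).symm
    exact tendsto_nhds_unique h1 h2
  have hcompat : ∀ e e' : Ch M, ∀ x ∈ e.1.target, e.1.symm x ∈ e'.1.source →
      (Matrix.of fun i j => L e i j x : Mat3) = (jac e e' x)ᵀ *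
        (Matrix.of fun i j => L e' i j (trans e e' x)) * jac e e' x := by
    intro e e' x hx hx'
    have hy : trans e e' x ∈ e'.1.target := e'.1.map_source hx'
    have h1 : Tendsto (fun t => (jac e e' x)ᵀ * (g t).c e' (trans e e' x) * jac e e' x) (𝓝[<] b)
        (𝓝 ((jac e e' x)ᵀ * (Matrix.of fun i j => L e' i j (trans e e' x)) * jac e e' x)) := by
      have hcont : Continuous (fun B : Mat3 => (jac e e' x)ᵀ * B * jac e e' x) :=
        (continuous_const.matrix_mul continuous_id).matrix_mul continuous_const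
      exact (hcont.tendsto _).comp (hM e' _ hy)
    have h2 := h1.congr fun t => ((g t).compat e e' x hx hx').symm
    exact tendsto_nhds_unique (hM e x hx) h2
  have hpos : ∀ (e : Ch M), ∀ x ∈ e.1.target,
      (Matrix.of fun i j => L e i j x : Mat3).PosDef := by
    intro e x hx
    refine Matrix.PosDef.of_dotProduct_mulVec_pos ?_ ?_
    · show (Matrix.of fun i j => L e i j x : Mat3)ᴴ = _
      rw [Matrix.conjTranspose_eq_transpose_of_trivial]
      exact hsymm e x hx
    · intro v hv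
      have h0 : 0 < v ⬝ᵥ (g 0).c e x *ᵥ v := by
        simpa using ((g 0).pos e x hx).dotProduct_mulVec_pos hv
      have h1 : Tendsto (fun t => v ⬝ᵥ (g t).c e x *ᵥ v) (𝓝[<] b)
          (𝓝 (v ⬝ᵥ (Matrix.of fun i j => L e i j x : Mat3) *ᵥ v)) := by
        have hcont : Continuous (fun B : Mat3 => v ⬝ᵥ B *ᵥ v) :=
          continuous_const.dotProduct (continuous_id.matrix_mulVec continuous_const)
        exact (hcont.tendsto _).comp (hM e x hx)
      have h2 : Real.exp (-(6 * K * b)) * (v ⬝ᵥ (g 0).c e x *ᵥ v)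
          ≤ v ⬝ᵥ (Matrix.of fun i j => L e i j x : Mat3) *ᵥ v := by
        refine ge_of_tendsto h1 ?_
        filter_upwards [Ioo_mem_nhdsLT hb] with t ht
        have h3 := (metric_equiv h hK hKR e hx (t := t) ⟨ht.1.le, ht.2⟩ v).1
        refine le_trans ?_ h3
        refine mul_le_mul_of_nonneg_right ?_ h0.le
        apply Real.exp_le_exp.2
        have : K * t ≤ K * b := mul_le_mul_of_nonneg_left ht.2.le hK
        nlinarith
      have h4 : 0 < Real.exp (-(6 * K * b)) * (v ⬝ᵥ (g 0).c e x *ᵥ v) :=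
        mul_pos (Real.exp_pos _) h0
      have h5 := lt_of_lt_of_le h4 h2
      simpa using h5
  let gb : RMetric M :=
    { c := fun e x => Matrix.of fun i j => L e i j x
      smooth := fun e i j => hLs e i j
      symm := hsymm
      compat := hcompat
      pos := hpos }
  refine ⟨fun t => if t < b then g t else gb, fun t ht => if_pos ht.2, ?_⟩
  refine IsRF.of_cont_closed hb h (fun t ht => if_pos ht.2) ?_
  intro e i j k
  refine (hLc e i j k).congr fun z _ => ?_
  have h1 : (fun y => ((if z.1 < b then g z.1 else gb : RMetric M)).c e y i j)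
      = if z.1 < b then (fun y => (g z.1).c e y i j) else L e i j := by
    split_ifs with hz
    · rfl
    · rfl
  show iteratedFDeriv ℝ k (fun y => ((if z.1 < b then g z.1 else gb : RMetric M)).c e y i j) z.2
    = _
  rw [h1]

end Pool.Agent.RFS
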