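import Pool.Agent.RFS.Defs

/-!
# RFS chunk (c), module CS1: the spaces of k-th covariant derivatives of the curvature

`DI S I f` is the iterated horizontal derivative, `Lsp S k` the real span of all
`D_I P_ab` with `|I| = k`, `Ssp S k` the span of the products `X * Y`, `X ∈ Lsp i`, `Y ∈ Lsp j`,
`i + j = k`.  Constant coefficients everywhere.
-/

open scoped ContDiff
open Set

noncomputable section

namespace Pool.Agent.RFS

variable {A : Type*} [CommRing A] [Algebra ℝ A]

/-- The iterated horizontal derivative `D_{i₁} ⋯ D_{iₖ} f`, `I = [i₁, …, iₖ]`. -/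
def DI (S : RFAlg A) (I : List (Fin 3)) (f : A) : A := I.foldr (fun i h => S.D i h) f

@[simp] theorem DI_nil (S : RFAlg A) (f : A) : DI S [] f = f := rfl

@[simp] theorem DI_cons (S : RFAlg A) (i : Fin 3) (I : List (Fin 3)) (f : A) :
    DI S (i :: I) f = S.D i (DI S I f) := rfl

/-- The span of the k-th covariant derivatives of the curvature. -/
def Lsp (S : RFAlg A) (k : ℕ) : Submodule ℝ A :=
  Submodule.span ℝ {f | ∃ I : List (Fin 3), I.length = k ∧ ∃ a b, f = DI S I (S.P a b)}

/-- The span of the products of an i-th and a j-th derivative of the curvature, `i + j = k`. -/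
def Ssp (S : RFAlg A) (k : ℕ) : Submodule ℝ A :=
  Submodule.span ℝ {f | ∃ i j : ℕ, i + j = k ∧ ∃ X ∈ Lsp S i, ∃ Y ∈ Lsp S j, f = X * Y}

/-- The Laplacian `D_k D_k`. -/
def lap (S : RFAlg A) (f : A) : A := ∑ k, S.D k (S.D k f)

private theorem CS1_D (S : RFAlg A) (k : ℕ) {f : A} (hf : f ∈ Lsp S k) (i : Fin 3) :
    S.D i f ∈ Lsp S (k + 1) := by
  unfold Lsp at hf
  induction hf using Submodule.span_induction with
  | mem x hx =>
    obtain ⟨I, hI, a, b, rfl⟩ := hx
    exact Submodule.subset_span ⟨i :: I, by simp [hI], a, b, rfl⟩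
  | zero => rw [map_zero]; exact Submodule.zero_mem _
  | add x y _ _ hx hy => rw [map_add]; exact Submodule.add_mem _ hx hy
  | smul a x _ hx => rw [Derivation.map_smul]; exact Submodule.smul_mem _ a hx

private theorem CS1_gen (S : RFAlg A) (n : Fin 3) (a b : Fin 3) (I : List (Fin 3)) :
    S.V n (DI S I (S.P a b)) ∈ Lsp S I.length := by
  induction I with
  | nil =>
    rw [DI_nil, S.V_P]
    refine Submodule.sum_mem _ fun k _ => Submodule.add_mem _ ?_ ?_
    · exact Submodule.smul_mem _ _ (Submodule.subset_span ⟨[], rfl, k, b, rfl⟩)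
    · exact Submodule.smul_mem _ _ (Submodule.subset_span ⟨[], rfl, a, k, rfl⟩)
  | cons i I ih =>
    have h := S.comm_VD n i (DI S I (S.P a b))
    rw [sub_eq_iff_eq_add] at h
    rw [DI_cons, h, List.length_cons]
    refine Submodule.add_mem _ ?_ (CS1_D S _ ih i)
    refine Submodule.sum_mem _ fun j _ => Submodule.smul_mem _ _ ?_
    exact CS1_D S _ (Submodule.subset_span ⟨I, rfl, a, b, rfl⟩) j

private theorem CS1_V (S : RFAlg A) (k : ℕ) {f : A} (hf : f ∈ Lsp S k) (n : Fin 3) :
    S.V n f ∈ Lsp S k := by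
  unfold Lsp at hf
  induction hf using Submodule.span_induction with
  | mem x hx =>
    obtain ⟨I, rfl, a, b, rfl⟩ := hx
    exact CS1_gen S n a b I
  | zero => rw [map_zero]; exact Submodule.zero_mem _
  | add x y _ _ hx hy => rw [map_add]; exact Submodule.add_mem _ hx hy
  | smul a x _ hx => rw [Derivation.map_smul]; exact Submodule.smul_mem _ a hx

/-- Rotations map `Lsp k` to itself. -/
theorem Lsp_V (S : RFAlg A) (k : ℕ) {f : A} (hf : f ∈ Lsp S k) (n : Fin 3) :
    S.V n f ∈ Lsp S k :=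
  CS1_V S k hf n

theorem Lsp_D (S : RFAlg A) (k : ℕ) {f : A} (hf : f ∈ Lsp S k) (i : Fin 3) :
    S.D i f ∈ Lsp S (k + 1) :=
  CS1_D S k hf i

theorem Ssp_D (S : RFAlg A) (k : ℕ) {f : A} (hf : f ∈ Ssp S k) (i : Fin 3) :
    S.D i f ∈ Ssp S (k + 1) := by
  unfold Ssp at hf
  induction hf using Submodule.span_induction with
  | mem x hx =>
    obtain ⟨p, q, hpq, X, hX, Y, hY, rfl⟩ := hx
    rw [Derivation.leibniz, smul_eq_mul, smul_eq_mul]
    refine Submodule.add_mem _ ?_ ?_
    · exact Submodule.subset_span ⟨p, q + 1, by omega, X, hX, S.D i Y, CS1_D S q hY i, rfl⟩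
    · exact Submodule.subset_span ⟨q, p + 1, by omega, Y, hY, S.D i X, CS1_D S p hX i, rfl⟩
  | zero => rw [map_zero]; exact Submodule.zero_mem _
  | add x y _ _ hx hy => rw [map_add]; exact Submodule.add_mem _ hx hy
  | smul a x _ hx => rw [Derivation.map_smul]; exact Submodule.smul_mem _ a hx

theorem mul_mem_Ssp (S : RFAlg A) {i j k : ℕ} (h : i + j = k) {X Y : A} (hX : X ∈ Lsp S i)
    (hY : Y ∈ Lsp S j) : X * Y ∈ Ssp S k :=
  Submodule.subset_span ⟨i, j, h, X, hX, Y, hY, rfl⟩

end Pool.Agent.RFS
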