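import Pool.Agent.RFS.CS1

/-!
# RFS chunk (c), module CS2: the heat operator maps `Lsp k` into `Ssp k`

PROOF. Induction on `k`. For `k = 0`: `T P_ij - Lap P_ij` is by `T_P` a constant coefficient
combination of products `P * P`. Step: let `X ∈ Lsp k` with `T X - Lap X ∈ Ssp k`. Then
`T (D_i X) - Lap (D_i X) = D_i (T X - Lap X) + [T, D_i] X - [Lap, D_i] X`.
* `D_i (T X - Lap X) ∈ Ssp (k+1)` by `Ssp_D`.
* `[T, D_i] X` (`comm_TD`) `= (∑ P_kk) D_i X - ∑ P_ij D_j X + ∑ eps * (D_p (Ric_qi)) * V_n X`: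
  products `Lsp 0 * Lsp (k+1)` and `Lsp 1 * Lsp k` (`Lsp_V`).
* `[D_j D_j, D_i] X = D_j ([D_j, D_i] X) + [D_j, D_i] (D_j X)` and
  `[D_j, D_i] Y = ∑ eps_jim P_mn V_n Y`: `D_j (P_mn V_n X)` is a product `Lsp 1 * Lsp k` plus
  `Lsp 0 * Lsp (k+1)`; `P_mn V_n D_j X ∈ Lsp 0 * Lsp (k+1)`.
Every element of `Lsp (k+1)` is a combination of `D_i X`, `X ∈ Lsp k`.
-/

open Set

noncomputable section

namespace Pool.Agent.RFS

variable {A : Type*} [CommRing A] [Algebra ℝ A]

private theorem cs2_P_mem (S : RFAlg A) (a b : Fin 3) : S.P a b ∈ Lsp S 0 :=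
  Submodule.subset_span ⟨[], rfl, a, b, rfl⟩

private theorem cs2_comm_DD_mem (S : RFAlg A) (k : ℕ) {X : A} (hX : X ∈ Lsp S k) (i j : Fin 3) :
    S.D i (S.D j X) - S.D j (S.D i X) ∈ Ssp S k := by
  rw [S.comm_DD]
  refine Submodule.sum_mem _ fun m _ => Submodule.sum_mem _ fun n _ => ?_
  exact Submodule.smul_mem _ _ (mul_mem_Ssp S (Nat.zero_add k) (cs2_P_mem S m n) (Lsp_V S k hX n))

private theorem cs2_comm_TD_mem (S : RFAlg A) (k : ℕ) {X : A} (hX : X ∈ Lsp S k) (i : Fin 3) :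
    S.T (S.D i X) - S.D i (S.T X) ∈ Ssp S (k + 1) := by
  have htr : (∑ k, S.P k k) ∈ Lsp S 0 := Submodule.sum_mem _ fun j _ => cs2_P_mem S j j
  rw [S.comm_TD]
  refine Submodule.add_mem _ (Submodule.sub_mem _ ?_ ?_) ?_
  · exact mul_mem_Ssp S (Nat.zero_add _) htr (Lsp_D S k hX i)
  · exact Submodule.sum_mem _ fun j _ =>
      mul_mem_Ssp S (Nat.zero_add _) (cs2_P_mem S i j) (Lsp_D S k hX j)
  · refine Submodule.sum_mem _ fun n _ => Submodule.sum_mem _ fun p _ =>
      Submodule.sum_mem _ fun q _ => Submodule.smul_mem _ _ ?_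
    refine mul_mem_Ssp S (Nat.add_comm 1 k) (Lsp_D S 0 ?_ p) (Lsp_V S k hX n)
    refine Submodule.sub_mem _ ?_ (cs2_P_mem S q i)
    split_ifs
    · exact htr
    · exact Submodule.zero_mem _

private theorem cs2_step (S : RFAlg A) (k : ℕ) {X : A} (hX : X ∈ Lsp S k)
    (h : S.T X - lap S X ∈ Ssp S k) (i : Fin 3) :
    S.T (S.D i X) - lap S (S.D i X) ∈ Ssp S (k + 1) := by
  have h1 := Ssp_D S k h i
  have h2 := cs2_comm_TD_mem S k hX i
  have h3 : lap S (S.D i X) - S.D i (lap S X) ∈ Ssp S (k + 1) := by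
    have h4 : lap S (S.D i X) - S.D i (lap S X)
        = ∑ j, (S.D j (S.D j (S.D i X) - S.D i (S.D j X))
          + (S.D j (S.D i (S.D j X)) - S.D i (S.D j (S.D j X)))) := by
      simp only [lap, map_sum, map_sub, ← Finset.sum_sub_distrib]
      refine Finset.sum_congr rfl fun j _ => ?_
      ring
    rw [h4]
    refine Submodule.sum_mem _ fun j _ => Submodule.add_mem _ ?_ ?_
    · exact Ssp_D S k (cs2_comm_DD_mem S k hX j i) j
    · exact cs2_comm_DD_mem S (k + 1) (Lsp_D S k hX j) j i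
  have h5 : S.T (S.D i X) - lap S (S.D i X) = S.D i (S.T X - lap S X)
      + (S.T (S.D i X) - S.D i (S.T X)) - (lap S (S.D i X) - S.D i (lap S X)) := by
    rw [map_sub]
    ring
  rw [h5]
  exact Submodule.sub_mem _ (Submodule.add_mem _ h1 h2) h3

private theorem cs2_lap_add (S : RFAlg A) (x y : A) : lap S (x + y) = lap S x + lap S y := by
  simp [lap, Finset.sum_add_distrib]

private theorem cs2_lap_smul (S : RFAlg A) (c : ℝ) (x : A) : lap S (c • x) = c • lap S x := by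
  simp [lap, Finset.smul_sum]

private theorem cs2_gen (S : RFAlg A) (I : List (Fin 3)) (a b : Fin 3) :
    S.T (DI S I (S.P a b)) - lap S (DI S I (S.P a b)) ∈ Ssp S I.length := by
  induction I with
  | nil =>
    have hpp : ∀ i j k l, S.P i j * S.P k l ∈ Ssp S 0 := fun i j k l =>
      mul_mem_Ssp S (Nat.zero_add 0) (cs2_P_mem S i j) (cs2_P_mem S k l)
    have h1 : (∑ k, S.P a k * S.P k b) ∈ Ssp S 0 := Submodule.sum_mem _ fun k _ => hpp a k k b
    have h2 : (∑ k, ∑ l, ∑ m, ∑ n, (eps a k l * eps b m n) • (S.P k m * S.P l n)) ∈ Ssp S 0 :=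
      Submodule.sum_mem _ fun k _ => Submodule.sum_mem _ fun l _ => Submodule.sum_mem _ fun m _ =>
        Submodule.sum_mem _ fun n _ => Submodule.smul_mem _ _ (hpp k m l n)
    have h3 : 2 * (∑ k, S.P a k * S.P k b) ∈ Ssp S 0 := by
      rw [two_mul]
      exact Submodule.add_mem _ h1 h1
    have h5 : S.T (S.P a b) - lap S (S.P a b) = 2 * (∑ k, S.P a k * S.P k b)
        + ∑ k, ∑ l, ∑ m, ∑ n, (eps a k l * eps b m n) • (S.P k m * S.P l n) := by
      rw [S.T_P a b, add_assoc]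
      exact add_sub_cancel_left _ _
    change S.T (S.P a b) - lap S (S.P a b) ∈ Ssp S 0
    rw [h5]
    exact Submodule.add_mem _ h3 h2
  | cons i I ih =>
    rw [DI_cons, List.length_cons]
    exact cs2_step S I.length (Submodule.subset_span ⟨I, rfl, a, b, rfl⟩) ih i

theorem heat_Lsp (S : RFAlg A) (k : ℕ) {f : A} (hf : f ∈ Lsp S k) :
    S.T f - lap S f ∈ Ssp S k := by
  induction hf using Submodule.span_induction with
  | mem x hx =>
    obtain ⟨I, hI, a, b, rfl⟩ := hx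
    rw [← hI]
    exact cs2_gen S I a b
  | zero =>
    have : S.T (0 : A) - lap S 0 = 0 := by simp [lap]
    rw [this]
    exact Submodule.zero_mem _
  | add x y _ _ hx hy =>
    have : S.T (x + y) - lap S (x + y) = (S.T x - lap S x) + (S.T y - lap S y) := by
      rw [map_add, cs2_lap_add]
      ring
    rw [this]
    exact Submodule.add_mem _ hx hy
  | smul c x _ hx =>
    have : S.T (c • x) - lap S (c • x) = c • (S.T x - lap S x) := by
      rw [Derivation.map_smul, cs2_lap_smul, smul_sub]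
    rw [this]
    exact Submodule.smul_mem _ _ hx

end Pool.Agent.RFS
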