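import Pool.Agent.RFS.CS1

/-!
# RFS chunk (c), module CS3: linear maximum principle on the frame bundle

If `(T - Lap) f ≤ C f` at all points with positive time where `f > 0`, then `f` is bounded on
`[0, b)`.

PROOF. By `fc` (with `ψ s = exp (-(C+1) s)` and `f = τ`) there is `ε : A` with
`ev z ε = exp (-(C+1) tm z) > 0`, `ev z (T ε) = -(C+1) ev z ε`, `ev z (D_i ε) = 0` for all `z`;
by `ev_ext`, `D_i ε = 0` and `T ε = -(C+1) • ε`, so for `h = ε * f`: `T h = ε (T f - (C+1) f)`,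
`D_i D_i h = ε D_i D_i f`. Let `t₁ ∈ Ico 0 b` and `z` a maximum point of `h` over `tm ≤ t₁`
(`exists_max`). If `0 < tm z` then `0 ≤ ev z (T h)` and `ev z (D_i D_i h) ≤ 0`, hence
`0 ≤ ev z (T h - lap h) = ev z ε * (ev z (T f - lap f) - (C+1) ev z f)`. If moreover `ev z f > 0`,
then this is `≤ ev z ε * (-(ev z f)) < 0`, contradiction; so `ev z f ≤ 0`, `ev z h ≤ 0` and `h ≤ 0`
for all times `≤ t₁`. If `tm z ≤ 0` then `tm z = 0` (`tm_mem`) and `ev z h = ev z f ≤ K₀` with
`K₀ ≥ 0` the maximum of `f` over time `0` (`exists_max` with `t₁ = 0`). So `ev z' f ≤ K₀ exp ((C+1) b)`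
for all `z'`.
-/

open Set

noncomputable section

namespace Pool.Agent.RFS

variable {A : Type*} [CommRing A] [Algebra ℝ A]

theorem bounded_of_heat_le {S : RFAlg A} {M : Type*} [TopologicalSpace M] [MeasurableSpace M]
    {b : ℝ} (hb : 0 < b) (X : RFSpace S M b) {C : ℝ} (hC : 0 ≤ C) (f : A)
    (hf : ∀ z, 0 < X.tm z → 0 < X.ev z f → X.ev z (S.T f - lap S f) ≤ C * X.ev z f) :
    ∃ K : ℝ, ∀ z, X.ev z f ≤ K := by
  have hψ : ∀ s : ℝ, HasDerivAt (fun s : ℝ => Real.exp (-(C + 1) * s))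
      (-(C + 1) * Real.exp (-(C + 1) * s)) s := by
    intro s
    have h1 : HasDerivAt (fun s : ℝ => -(C + 1) * s) (-(C + 1) * 1) s :=
      (hasDerivAt_id s).const_mul _
    have h2 := h1.exp
    rw [mul_one] at h2
    rw [mul_comm]
    exact h2
  obtain ⟨ε, h1, h2, h3, -⟩ := X.fc (fun s : ℝ => Real.exp (-(C + 1) * s)) univ isOpen_univ
    (ContDiff.contDiffOn (by fun_prop)) X.τ (fun z => mem_univ _)
  have hε : ∀ z, X.ev z ε = Real.exp (-(C + 1) * X.tm z) := fun z => by rw [h1, X.ev_τ]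
  have hε0 : ∀ z, 0 < X.ev z ε := fun z => by rw [hε]; exact Real.exp_pos _
  have hTε : S.T ε = -(C + 1) • ε := by
    refine X.ev_ext _ _ fun z => ?_
    rw [h2, (hψ _).deriv, X.T_τ, map_one, mul_one, map_smul, h1, smul_eq_mul]
  have hDε : ∀ i, S.D i ε = 0 := by
    intro i
    refine X.ev_ext _ _ fun z => ?_
    rw [h3, X.D_τ, map_zero, mul_zero]
  have hTh : ∀ z, X.ev z (S.T (ε * f)) = X.ev z ε * (X.ev z (S.T f) - (C + 1) * X.ev z f) := by
    intro z
    rw [Derivation.leibniz, hTε, map_add, smul_eq_mul, smul_eq_mul, map_mul, map_mul, map_smul,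
      smul_eq_mul]
    ring
  have hDh : ∀ i, S.D i (ε * f) = ε * S.D i f := by
    intro i
    rw [Derivation.leibniz, hDε, smul_zero, add_zero, smul_eq_mul]
  have hDDh : ∀ z i, X.ev z (S.D i (S.D i (ε * f))) = X.ev z ε * X.ev z (S.D i (S.D i f)) := by
    intro z i
    rw [hDh, Derivation.leibniz, hDε, smul_zero, add_zero, smul_eq_mul, map_mul]
  obtain ⟨z0, -, hz0, -⟩ := X.exists_max f 0 ⟨le_rfl, hb⟩
  set K₀ := max 0 (X.ev z0 f) with hK₀
  have hmain : ∀ z', X.ev z' (ε * f) ≤ K₀ := by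
    intro z'
    obtain ⟨z, hz, hmax, hpos⟩ := X.exists_max (ε * f) (X.tm z') (X.tm_mem z')
    refine (hmax z' le_rfl).trans ?_
    rcases lt_or_ge 0 (X.tm z) with ht | ht
    · obtain ⟨hT, -, hDD⟩ := hpos ht
      rcases le_or_gt (X.ev z f) 0 with hfz | hfz
      · rw [map_mul]
        exact (mul_nonpos_of_nonneg_of_nonpos (hε0 z).le hfz).trans (le_max_left _ _)
      · exfalso
        have e1 := hf z ht hfz
        rw [hTh] at hT
        have e2 : 0 ≤ X.ev z (S.T f) - (C + 1) * X.ev z f := nonneg_of_mul_nonneg_right hT (hε0 z)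
        have e3 : X.ev z (lap S f) ≤ 0 := by
          unfold lap
          rw [map_sum]
          refine Finset.sum_nonpos fun k _ => ?_
          have e4 := hDD k
          rw [hDDh] at e4
          exact nonpos_of_mul_nonpos_right e4 (hε0 z)
        rw [map_sub] at e1
        linarith
    · have ht0 : X.tm z = 0 := le_antisymm ht (X.tm_mem z).1
      rw [map_mul, hε, ht0, mul_zero, Real.exp_zero, one_mul]
      exact (hz0 z ht).trans (le_max_right _ _)
  refine ⟨K₀ * Real.exp ((C + 1) * b), fun z => ?_⟩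
  have e1 := hmain z
  rw [map_mul, hε] at e1
  have e2 : Real.exp (-(C + 1) * X.tm z) * Real.exp ((C + 1) * X.tm z) = 1 := by
    rw [← Real.exp_add]
    ring_nf
    exact Real.exp_zero
  have e3 : X.ev z f = (Real.exp (-(C + 1) * X.tm z) * X.ev z f) * Real.exp ((C + 1) * X.tm z) := by
    rw [mul_right_comm, e2, one_mul]
  rw [e3]
  refine mul_le_mul e1 (Real.exp_le_exp.2 ?_) (Real.exp_pos _).le (le_max_left _ _)
  exact mul_le_mul_of_nonneg_left (X.tm_mem z).2.le (by linarith)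

end Pool.Agent.RFS
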