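import Pool.Agent.RFS.CS2
import Pool.Agent.RFS.CS3

/-!
# RFS chunk (c), module CS4: Shi type estimates

If the curvature is bounded on `[0, b)`, `b` finite, then all covariant derivatives of the
curvature are bounded on `[0, b)`.

PROOF. Strong induction on `k`; `k = 0` is the hypothesis (elements of `Lsp 0` are finite
combinations of the `P a b`). Let `k ≥ 1` and suppose that every element of `Lsp l`, `l < k`, is
bounded. Let `u = 1 + ∑_{I, |I| = k} ∑_{a, b} (D_I P_ab)^2` (finite sum over `Fin k → Fin 3`,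
`I = List.ofFn`). For `f ∈ Lsp k`: `|ev z f| ≤ C_f (ev z u)` and even `|ev z f| ≤ C_f sqrt (ev z u)`
(span induction). For `h ∈ Ssp k`: `|ev z h| ≤ C_h sqrt (ev z u)` (span induction; a product
`X * Y`, `X ∈ Lsp i`, `Y ∈ Lsp j`, `i + j = k`: either `i < k` and `j < k`, both bounded and
`1 ≤ sqrt u`; or one is in `Lsp k` and the other in `Lsp 0`, bounded).
`T (f^2) - lap (f^2) = 2 f (T f - lap f) - 2 ∑ (D_j f)^2`, so by `heat_Lsp`
`ev z (T u - lap u) ≤ ∑ 2 |f| |T f - lap f| ≤ C sqrt u sqrt u = C ev z u`.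
`bounded_of_heat_le` gives a bound for `u`, hence for all elements of `Lsp k`.
-/

open Set

noncomputable section

namespace Pool.Agent.RFS

variable {A : Type*} [CommRing A] [Algebra ℝ A]

/-- The elements of `A` bounded by a multiple of the weight `w`. -/
private def cs4Bd {Fr : Type*} (ev : Fr → A →ₐ[ℝ] ℝ) (w : Fr → ℝ) : Submodule ℝ A where
  carrier := {f | ∃ C : ℝ, 0 ≤ C ∧ ∀ z, |ev z f| ≤ C * w z}
  zero_mem' := ⟨0, le_rfl, fun z => by simp⟩
  add_mem' := by
    rintro f g ⟨C, hC, h1⟩ ⟨C', hC', h2⟩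
    refine ⟨C + C', add_nonneg hC hC', fun z => ?_⟩
    rw [map_add, add_mul]
    exact (abs_add_le _ _).trans (add_le_add (h1 z) (h2 z))
  smul_mem' := by
    rintro c f ⟨C, hC, h1⟩
    refine ⟨|c| * C, mul_nonneg (abs_nonneg _) hC, fun z => ?_⟩
    rw [map_smul, smul_eq_mul, abs_mul, mul_assoc]
    exact mul_le_mul_of_nonneg_left (h1 z) (abs_nonneg _)

private theorem cs4_heat_sq (S : RFAlg A) (f : A) :
    S.T (f * f) - lap S (f * f) = 2 * (f * (S.T f - lap S f)) - 2 * ∑ j, S.D j f * S.D j f := by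
  unfold lap
  simp only [Derivation.leibniz, smul_eq_mul, map_add, Fin.sum_univ_three]
  ring

private theorem cs4_heat_sum {ι : Type*} (S : RFAlg A) (s : Finset ι) (F : ι → A) :
    S.T (1 + ∑ q ∈ s, F q) - lap S (1 + ∑ q ∈ s, F q) = ∑ q ∈ s, (S.T (F q) - lap S (F q)) := by
  unfold lap
  simp only [map_add, map_sum, Derivation.map_one_eq_zero, zero_add, Fin.sum_univ_three,
    Finset.sum_sub_distrib, Finset.sum_add_distrib]

theorem shi {S : RFAlg A} {M : Type*} [TopologicalSpace M] [MeasurableSpace M]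
    {b : ℝ} (hb : 0 < b) (X : RFSpace S M b)
    (hP : ∃ K : ℝ, ∀ z i j, |X.ev z (S.P i j)| ≤ K) (k : ℕ) {f : A} (hf : f ∈ Lsp S k) :
    ∃ K : ℝ, ∀ z, |X.ev z f| ≤ K := by
  suffices H : ∀ k : ℕ, Lsp S k ≤ cs4Bd X.ev (fun _ => 1) by
    obtain ⟨C, -, h⟩ := H k hf
    exact ⟨C, fun z => by simpa using h z⟩
  intro k
  induction k using Nat.strong_induction_on with
  | _ k ih =>
  rcases Nat.eq_zero_or_pos k with rfl | hk
  · obtain ⟨K, hK⟩ := hP
    refine Submodule.span_le.2 ?_
    rintro _ ⟨I, hI, a, c, rfl⟩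
    obtain rfl : I = [] := List.length_eq_zero_iff.1 hI
    refine ⟨|K|, abs_nonneg _, fun z => ?_⟩
    rw [mul_one, DI_nil]
    exact (hK z a c).trans (le_abs_self K)
  · let F : (Fin k → Fin 3) × Fin 3 × Fin 3 → A := fun q =>
      DI S (List.ofFn q.1) (S.P q.2.1 q.2.2)
    let u : A := 1 + ∑ q, F q * F q
    have hu : ∀ z, X.ev z u = 1 + ∑ q, X.ev z (F q) * X.ev z (F q) := by
      intro z
      simp only [u, map_add, map_one, map_sum, map_mul]
    have hu1 : ∀ z, 1 ≤ X.ev z u := by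
      intro z
      rw [hu z]
      have : 0 ≤ ∑ q, X.ev z (F q) * X.ev z (F q) :=
        Finset.sum_nonneg fun q _ => mul_self_nonneg _
      linarith
    have hs1 : ∀ z, 1 ≤ Real.sqrt (X.ev z u) := fun z => Real.one_le_sqrt.2 (hu1 z)
    have hss : ∀ z, Real.sqrt (X.ev z u) * Real.sqrt (X.ev z u) = X.ev z u := fun z =>
      Real.mul_self_sqrt (zero_le_one.trans (hu1 z))
    have hF : ∀ q z, |X.ev z (F q)| ≤ Real.sqrt (X.ev z u) := by
      intro q z
      refine Real.abs_le_sqrt ?_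
      rw [hu z, sq]
      have : X.ev z (F q) * X.ev z (F q) ≤ ∑ q, X.ev z (F q) * X.ev z (F q) :=
        Finset.single_le_sum (f := fun q => X.ev z (F q) * X.ev z (F q))
          (fun q _ => mul_self_nonneg _) (Finset.mem_univ q)
      linarith
    have hL : Lsp S k ≤ cs4Bd X.ev (fun z => Real.sqrt (X.ev z u)) := by
      refine Submodule.span_le.2 ?_
      rintro _ ⟨I, hI, a, c, rfl⟩
      refine ⟨1, zero_le_one, fun z => ?_⟩
      subst hI
      have h1 := hF (fun i => I.get i, a, c) z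
      simp only [F, List.ofFn_get] at h1
      rw [one_mul]
      exact h1
    have hS : Ssp S k ≤ cs4Bd X.ev (fun z => Real.sqrt (X.ev z u)) := by
      refine Submodule.span_le.2 ?_
      rintro _ ⟨i, j, hij, Y, hY, Z, hZ, rfl⟩
      rcases Nat.eq_zero_or_pos i with rfl | hi
      · obtain ⟨C, hC, h1⟩ := ih 0 hk hY
        rw [zero_add] at hij
        subst hij
        obtain ⟨C', hC', h2⟩ := hL hZ
        refine ⟨C * C', mul_nonneg hC hC', fun z => ?_⟩
        rw [map_mul, abs_mul]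
        have h3 := h1 z
        rw [mul_one] at h3
        calc |X.ev z Y| * |X.ev z Z| ≤ C * (C' * Real.sqrt (X.ev z u)) :=
              mul_le_mul h3 (h2 z) (abs_nonneg _) hC
          _ = C * C' * Real.sqrt (X.ev z u) := by ring
      rcases Nat.eq_zero_or_pos j with rfl | hj
      · obtain ⟨C, hC, h1⟩ := ih 0 hk hZ
        rw [add_zero] at hij
        subst hij
        obtain ⟨C', hC', h2⟩ := hL hY
        refine ⟨C' * C, mul_nonneg hC' hC, fun z => ?_⟩
        rw [map_mul, abs_mul]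
        have h3 := h1 z
        rw [mul_one] at h3
        calc |X.ev z Y| * |X.ev z Z| ≤ (C' * Real.sqrt (X.ev z u)) * C :=
              mul_le_mul (h2 z) h3 (abs_nonneg _)
                (mul_nonneg hC' (Real.sqrt_nonneg _))
          _ = C' * C * Real.sqrt (X.ev z u) := by ring
      · obtain ⟨C, hC, h1⟩ := ih i (by omega) hY
        obtain ⟨C', hC', h2⟩ := ih j (by omega) hZ
        refine ⟨C * C', mul_nonneg hC hC', fun z => ?_⟩
        rw [map_mul, abs_mul]
        have h3 := h1 z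
        have h4 := h2 z
        rw [mul_one] at h3 h4
        calc |X.ev z Y| * |X.ev z Z| ≤ C * C' := mul_le_mul h3 h4 (abs_nonneg _) hC
          _ = C * C' * 1 := (mul_one _).symm
          _ ≤ C * C' * Real.sqrt (X.ev z u) :=
              mul_le_mul_of_nonneg_left (hs1 z) (mul_nonneg hC hC')
    have hFm : ∀ q, F q ∈ Lsp S k := fun q =>
      Submodule.subset_span ⟨List.ofFn q.1, List.length_ofFn, q.2.1, q.2.2, rfl⟩
    have hH : ∀ q, ∃ C : ℝ, 0 ≤ C ∧ ∀ z, |X.ev z (S.T (F q) - lap S (F q))|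
        ≤ C * Real.sqrt (X.ev z u) := fun q => hS (heat_Lsp S k (hFm q))
    choose C hC hCz using hH
    have hheat : ∀ z, X.ev z (S.T u - lap S u) ≤ (∑ q, 2 * C q) * X.ev z u := by
      intro z
      have e1 : S.T u - lap S u = ∑ q, (S.T (F q * F q) - lap S (F q * F q)) :=
        cs4_heat_sum S Finset.univ (fun q => F q * F q)
      rw [e1, map_sum, Finset.sum_mul]
      refine Finset.sum_le_sum fun q _ => ?_
      rw [cs4_heat_sq]
      have e2 : X.ev z (2 * (F q * (S.T (F q) - lap S (F q))) - 2 * ∑ j, S.D j (F q) * S.D j (F q))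
          = 2 * (X.ev z (F q) * X.ev z (S.T (F q) - lap S (F q)))
            - 2 * ∑ j, X.ev z (S.D j (F q)) * X.ev z (S.D j (F q)) := by
        simp only [map_sub, map_mul, map_sum, map_ofNat]
      rw [e2]
      have e3 : 0 ≤ ∑ j, X.ev z (S.D j (F q)) * X.ev z (S.D j (F q)) :=
        Finset.sum_nonneg fun j _ => mul_self_nonneg _
      have e4 : X.ev z (F q) * X.ev z (S.T (F q) - lap S (F q)) ≤ C q * X.ev z u := by
        calc X.ev z (F q) * X.ev z (S.T (F q) - lap S (F q))
            ≤ |X.ev z (F q) * X.ev z (S.T (F q) - lap S (F q))| := le_abs_self _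
          _ = |X.ev z (F q)| * |X.ev z (S.T (F q) - lap S (F q))| := abs_mul _ _
          _ ≤ Real.sqrt (X.ev z u) * (C q * Real.sqrt (X.ev z u)) :=
              mul_le_mul (hF q z) (hCz q z) (abs_nonneg _) (Real.sqrt_nonneg _)
          _ = C q * (Real.sqrt (X.ev z u) * Real.sqrt (X.ev z u)) := by ring
          _ = C q * X.ev z u := by rw [hss z]
      linarith
    obtain ⟨K, hK⟩ := bounded_of_heat_le hb X (C := ∑ q, 2 * C q)
      (Finset.sum_nonneg fun q _ => mul_nonneg zero_le_two (hC q)) u (fun z _ _ => hheat z)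
    intro g hg
    obtain ⟨C', hC', h1⟩ := hL hg
    refine ⟨C' * Real.sqrt K, mul_nonneg hC' (Real.sqrt_nonneg _), fun z => ?_⟩
    rw [mul_one]
    exact (h1 z).trans (mul_le_mul_of_nonneg_left (Real.sqrt_le_sqrt (hK z)) hC')

end Pool.Agent.RFS
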