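import Pool.Agent.RFS.Defs

/-!
# RFS chunk (d), part 1: the scalar invariants and their evolution equations
-/

set_option linter.unusedSimpArgs false

noncomputable section

namespace Pool.Agent.RFS.Ham

variable {A : Type*} [CommRing A] [Algebra ℝ A] (S : RFAlg A)

/-- `s = tr P / 3 = R / 6`. -/
def sS : A := (1 / 3 : ℝ) • ∑ k, S.P k k

/-- The trace free Ricci tensor `E = s I - P`. -/
def eS (i j : Fin 3) : A := (if i = j then sS S else 0) - S.P i j

/-- `n = |E|²`. -/
def nS : A := ∑ i, ∑ j, eS S i j * eS S i j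

/-- `T3 = tr E³`. -/
def tS : A := ∑ i, ∑ j, ∑ k, eS S i j * eS S j k * eS S k i

/-- `W = |∇E|²`. -/
def wS : A := ∑ k, ∑ i, ∑ j, S.D k (eS S i j) * S.D k (eS S i j)

/-- The scalar product of two gradients. -/
def ip (f h : A) : A := ∑ i, S.D i f * S.D i h

/-- The Laplacian. -/
def lap (f : A) : A := ∑ k, S.D k (S.D k f)

/-- The heat operator. -/
def heat (f : A) : A := S.T f - lap S f

/-- `|∇s|²`. -/
def gS : A := ip S (sS S) (sS S)

/-- `|∇²s|²`. -/
def hS : A := ∑ i, ∑ j, S.D i (S.D j (sS S)) * S.D i (S.D j (sS S))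

/-! ### The Levi-Civita symbol -/

theorem eps_vals : eps 0 1 2 = 1 ∧ eps 1 2 0 = 1 ∧ eps 2 0 1 = 1 ∧ eps 0 2 1 = -1 ∧ eps 2 1 0 = -1
    ∧ eps 1 0 2 = -1 := by
  simp only [eps]; norm_num

theorem eps_ii (i j : Fin 3) : eps i i j = 0 := by simp [eps]
theorem eps_ij (i j : Fin 3) : eps i j i = 0 := by simp [eps]
theorem eps_jj (i j : Fin 3) : eps i j j = 0 := by simp [eps]

@[simp] theorem eps012 : eps 0 1 2 = 1 := eps_vals.1
@[simp] theorem eps120 : eps 1 2 0 = 1 := eps_vals.2.1
@[simp] theorem eps201 : eps 2 0 1 = 1 := eps_vals.2.2.1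
@[simp] theorem eps021 : eps 0 2 1 = -1 := eps_vals.2.2.2.1
@[simp] theorem eps210 : eps 2 1 0 = -1 := eps_vals.2.2.2.2.1
@[simp] theorem eps102 : eps 1 0 2 = -1 := eps_vals.2.2.2.2.2

/-! ### Basic rules -/

theorem three_mul_eq (f : A) : (3 : A) * f = (3 : ℝ) • f := by
  rw [Algebra.smul_def, map_ofNat]

theorem three_s : 3 * sS S = S.P 0 0 + S.P 1 1 + S.P 2 2 := by
  simp only [sS, Fin.sum_univ_three]
  rw [show (3 : A) = algebraMap ℝ A 3 from (map_ofNat (algebraMap ℝ A) 3).symm, ← Algebra.smul_def,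
    smul_smul]
  norm_num

theorem heat_add (f h : A) : heat S (f + h) = heat S f + heat S h := by
  simp only [heat, lap, map_add, Finset.sum_add_distrib]; ring

theorem heat_sub (f h : A) : heat S (f - h) = heat S f - heat S h := by
  simp only [heat, lap, map_sub, Finset.sum_sub_distrib]; ring

theorem heat_smul (c : ℝ) (f : A) : heat S (c • f) = c • heat S f := by
  simp only [heat, lap, Derivation.map_smul, ← Finset.smul_sum, smul_sub]

theorem heat_zero : heat S 0 = 0 := by
  simp [heat, lap]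

theorem heat_sum {ι : Type*} (t : Finset ι) (f : ι → A) :
    heat S (∑ i ∈ t, f i) = ∑ i ∈ t, heat S (f i) := by
  classical
  induction t using Finset.induction_on with
  | empty => simp [heat_zero]
  | insert a t ha ih => rw [Finset.sum_insert ha, Finset.sum_insert ha, heat_add, ih]

theorem heat_mul (f h : A) : heat S (f * h) = f * heat S h + h * heat S f - 2 * ip S f h := by
  simp only [heat, lap, ip, Derivation.leibniz, smul_eq_mul, map_add, Fin.sum_univ_three]
  ring

theorem ip_comm (f h : A) : ip S f h = ip S h f := by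
  simp only [ip]; exact Finset.sum_congr rfl fun i _ => mul_comm _ _

theorem eS_symm (i j : Fin 3) : eS S i j = eS S j i := by
  simp only [eS, S.P_symm i j, eq_comm (a := i) (b := j)]

theorem eS_trace : eS S 0 0 + eS S 1 1 + eS S 2 2 = 0 := by
  have h := three_s S
  simp only [eS, if_true]
  linear_combination h

theorem P_eq (i j : Fin 3) : S.P i j = (if i = j then sS S else 0) - eS S i j := by
  simp only [eS]; ring

/-! ### Evolution of `P`, `s`, `E`, `n` -/

theorem heat_P (i j : Fin 3) : heat S (S.P i j) = 2 * ∑ k, S.P i k * S.P k j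
    + ∑ k, ∑ l, ∑ m, ∑ n, (eps i k l * eps j m n) • (S.P k m * S.P l n) := by
  simp only [heat, lap, S.T_P i j]; ring

theorem heat_s : 3 * heat S (sS S) = 12 * sS S ^ 2 + nS S := by
  have h3 : 3 * heat S (sS S) = heat S (S.P 0 0) + heat S (S.P 1 1) + heat S (S.P 2 2) := by
    have h : heat S (3 * sS S) = heat S (S.P 0 0 + S.P 1 1 + S.P 2 2) := by rw [three_s]
    rw [heat_add, heat_add] at h
    rw [← h, three_mul_eq (sS S), heat_smul, ← three_mul_eq]
  have hs := three_s S
  rw [h3, heat_P, heat_P, heat_P]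
  simp only [Fin.sum_univ_three, eps_ii, eps_ij, eps_jj, eps012, eps120, eps201, eps021, eps210,
    eps102, zero_mul, mul_zero, zero_smul, add_zero, zero_add, one_mul, mul_one, one_smul, neg_mul,
    mul_neg, neg_neg, neg_smul, neg_zero]
  simp only [nS, eS, Fin.sum_univ_three]
  simp only [S.P_symm 1 0, S.P_symm 2 0, S.P_symm 2 1]
  simp only [reduceCtorEq, if_true, if_false, zero_sub, neg_mul_neg, Fin.isValue, Fin.reduceEq]
  linear_combination (-(S.P 0 0 + S.P 1 1 + S.P 2 2 + 5 * sS S)) * hs

theorem eS22 : eS S 2 2 = -(eS S 0 0 + eS S 1 1) := by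
  linear_combination eS_trace S

theorem heat_P_E (i j : Fin 3) : eS S i j * heat S (eS S i j) =
    eS S i j * (if i = j then heat S (sS S) else 0) - eS S i j * heat S (S.P i j) := by
  have h : heat S (eS S i j) = (if i = j then heat S (sS S) else 0) - heat S (S.P i j) := by
    rw [eS, heat_sub]
    split_ifs <;> simp [heat_zero]
  rw [h]; ring

theorem heat_n : heat S (nS S) = -2 * wS S + 4 * sS S * nS S - 8 * tS S := by
  have h1 : heat S (nS S) = 2 * (∑ i, ∑ j, eS S i j * heat S (eS S i j)) - 2 * wS S := by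
    simp only [nS, heat_add, heat_mul, wS, ip, Fin.sum_univ_three]
    ring
  have hP : ∀ i j, eS S i j * heat S (eS S i j) =
      eS S i j * (if i = j then heat S (sS S) else 0) - eS S i j * heat S (S.P i j) :=
    heat_P_E S
  rw [h1]
  simp only [hP, heat_P]
  simp only [P_eq, Fin.sum_univ_three, eps_ii, eps_ij, eps_jj, eps012, eps120, eps201, eps021,
    eps210, eps102, zero_mul, mul_zero, zero_smul, add_zero, zero_add, one_mul, mul_one, one_smul,
    neg_mul, mul_neg, neg_neg, neg_smul, neg_zero]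
  simp only [nS, tS, Fin.sum_univ_three, if_true, if_false, Fin.isValue, Fin.reduceEq, zero_sub]
  simp only [eS_symm S 1 0, eS_symm S 2 0, eS_symm S 2 1, eS22 S]
  ring

/-! ### The gradient of `s` -/

theorem V_s (m : Fin 3) : S.V m (sS S) = 0 := by
  have h : S.V m (sS S) = (1 / 3 : ℝ) • ∑ k, S.V m (S.P k k) := by
    simp only [sS, Derivation.map_smul, map_sum]
  rw [h]
  simp only [S.V_P, Fin.sum_univ_three]
  fin_cases m <;>
  simp [eps_ii, eps_ij, eps_jj, S.P_symm 1 0, S.P_symm 2 0, S.P_symm 2 1]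

/-- Contracted second Bianchi identity. -/
theorem div_E (j : Fin 3) : ∑ i, S.D i (eS S i j) = S.D j (sS S) := by
  have h := S.div_P j
  have h2 : ∀ i, S.D i (eS S i j) = (if i = j then S.D i (sS S) else 0) - S.D i (S.P i j) := by
    intro i
    rw [eS, map_sub]
    split_ifs <;> simp
  simp only [h2, Finset.sum_sub_distrib, h, sub_zero]
  simp

theorem DD_s (i j : Fin 3) : S.D i (S.D j (sS S)) = S.D j (S.D i (sS S)) := by
  have h := S.comm_DD i j (sS S)
  simp only [V_s, mul_zero, smul_zero, Finset.sum_const_zero] at h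
  linear_combination h

/-- `D_i` commutes with the heat operator on `s`. -/
theorem heat_D_s (i : Fin 3) : heat S (S.D i (sS S)) = S.D i (heat S (sS S)) := by
  have hT := S.comm_TD i (sS S)
  simp only [V_s, mul_zero, smul_zero, Finset.sum_const_zero, add_zero] at hT
  have hL : ∀ k, S.D k (S.D k (S.D i (sS S))) = S.D i (S.D k (S.D k (sS S)))
      + ∑ m, ∑ n, eps k i m • (S.P m n * ∑ j, eps n k j • S.D j (sS S)) := by
    intro k
    have h1 := S.comm_DD k i (S.D k (sS S))
    have h2 : ∀ n, S.V n (S.D k (sS S)) = ∑ j, eps n k j • S.D j (sS S) := by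
      intro n
      have := S.comm_VD n k (sS S)
      rw [V_s, map_zero, sub_zero] at this
      exact this
    simp only [h2] at h1
    rw [DD_s S k i]
    linear_combination h1
  simp only [heat, lap, hL, map_sub, map_sum]
  simp only [Finset.sum_add_distrib]
  have key : ∑ k, ∑ m, ∑ n, eps k i m • (S.P m n * ∑ j, eps n k j • S.D j (sS S))
      = (∑ k, S.P k k) * S.D i (sS S) - ∑ j, S.P i j * S.D j (sS S) := by
    simp only [Fin.sum_univ_three]
    fin_cases i <;>
    · simp [eps_ii, eps_ij, eps_jj, S.P_symm 1 0, S.P_symm 2 0, S.P_symm 2 1]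
      ring
  rw [key]
  linear_combination hT

theorem heat_g : 3 * heat S (gS S) =
    -6 * hS S + 48 * sS S * gS S + 2 * ip S (sS S) (nS S) := by
  have h0 : heat S (gS S) = 2 * (∑ i, S.D i (sS S) * S.D i (heat S (sS S))) - 2 * hS S := by
    simp only [gS, ip, heat_add, heat_mul, heat_D_s, hS, Fin.sum_univ_three]
    ring
  have h1 : ∀ i, 3 * S.D i (heat S (sS S)) = 24 * sS S * S.D i (sS S) + S.D i (nS S) := by
    intro i
    have h := congrArg (S.D i) (heat_s S)
    rw [map_add, three_mul_eq, Derivation.map_smul, ← three_mul_eq] at h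
    rw [h]
    have : (12 : A) * sS S ^ 2 = (12 : ℝ) • (sS S * sS S) := by
      rw [Algebra.smul_def, map_ofNat]; ring
    rw [this, Derivation.map_smul, Derivation.leibniz, Algebra.smul_def, map_ofNat]
    simp only [smul_eq_mul]
    ring
  rw [h0]
  simp only [gS, ip, Fin.sum_univ_three]
  linear_combination (2 * S.D 0 (sS S)) * h1 0 + (2 * S.D 1 (sS S)) * h1 1
    + (2 * S.D 2 (sS S)) * h1 2

end Pool.Agent.RFS.Ham
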