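import Pool.Agent.RFS.DGrad

/-!
# RFS chunk (d), part 7: a time slice with almost constant curvature near the maximum of `s`
-/

set_option linter.unusedSimpArgs false

noncomputable section

open Set MeasureTheory

namespace Pool.Agent.RFS.Ham

variable {A : Type*} [CommRing A] [Algebra ℝ A] {S : RFAlg A} {M : Type*}
  [TopologicalSpace M] [MeasurableSpace M] {b : ℝ} (X : RFSpace S M b)

/-- Lower bound of the Ricci tensor `Ric = (tr P) I - P`. -/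
theorem ric_lower (z : X.Fr) (v : Fin 3 → ℝ) :
    (2 * X.ev z (sS S) - Real.sqrt (X.ev z (nS S))) * ∑ i, v i * v i ≤
      ∑ i, ∑ j, ((if i = j then ∑ k, X.ev z (S.P k k) else 0) - X.ev z (S.P i j)) * v i * v j := by
  have h := quad_array (fun i j => X.ev z (eS S i j)) v
  have hn : X.ev z (nS S) = ∑ i, ∑ j, X.ev z (eS S i j) * X.ev z (eS S i j) := by
    simp only [nS, map_sum, map_mul]
  have h3 : ∑ k, X.ev z (S.P k k) = 3 * X.ev z (sS S) := by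
    have := congrArg (X.ev z) (three_s S)
    simp only [map_mul, map_add, map_ofNat] at this
    rw [this, Fin.sum_univ_three]
  have hE : ∀ i j, X.ev z (eS S i j) = (if i = j then X.ev z (sS S) else 0) - X.ev z (S.P i j) := by
    intro i j
    rw [eS, map_sub]
    split_ifs <;> simp
  rw [hn, h3]
  have h4 := (abs_le.1 h).1
  have h5 : ∑ i, ∑ j, ((if i = j then 3 * X.ev z (sS S) else 0) - X.ev z (S.P i j)) * v i * v j =
      2 * X.ev z (sS S) * (∑ i, v i * v i) + ∑ i, ∑ j, X.ev z (eS S i j) * v i * v j := by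
    simp only [hE, Fin.sum_univ_three, if_true, if_false, Fin.isValue, Fin.reduceEq]
    ring
  rw [h5]
  linarith [h4]

/-- Final statement of chunk (d): if `s` is unbounded, there are times at which `s` is large
somewhere, its gradient is small and the curvature is almost constant where `s` is near its
maximum. -/
theorem final_slice (hb : 0 ≤ b)
    (h0 : ∀ z, X.tm z = 0 → 1 ≤ X.ev z (sS S) ∧ X.ev z (nS S) ≤ (3 / 2) * X.ev z (sS S) ^ 2)
    (hsup : ∀ L : ℝ, ∃ z, L ≤ X.ev z (sS S)) (θ : ℝ) (hθ : 0 < θ) (hθ1 : θ ≤ 1 / 2) :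
    ∃ t ∈ Ioo 0 b, ∃ z₀, X.tm z₀ = t ∧ 1 / θ ≤ X.ev z₀ (sS S) ∧
      (∀ z, X.tm z = t → X.ev z (sS S) ≤ X.ev z₀ (sS S)) ∧
      (∀ z, X.tm z = t → X.ev z (gS S) ≤ θ ^ 2 / 32 * X.ev z₀ (sS S) ^ 3) ∧
      ∀ z, X.tm z = t → (1 - θ) * X.ev z₀ (sS S) ≤ X.ev z (sS S) →
        X.ev z (nS S) ≤ θ ^ 4 * X.ev z (sS S) ^ 2 := by
  obtain ⟨h1, C, hC0, hC⟩ := final_pinch X h0
  obtain ⟨C1, hC1, hgrad⟩ := final_grad X hb h0 (θ ^ 2 / 64) (by positivity)
  obtain ⟨K0, hK0, hK⟩ := bdd_slice X (sS S) 0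
  set L : ℝ := max (max (1 / θ) (K0 + 1)) (max (1 + C1 * (64 / θ ^ 2)) (2 * C / θ ^ 20)) with hL
  obtain ⟨z1, hz1⟩ := hsup L
  have hL1 : 1 / θ ≤ L := (le_max_left _ _).trans (le_max_left _ _)
  have hL2 : K0 + 1 ≤ L := (le_max_right _ _).trans (le_max_left _ _)
  have hL3 : 1 + C1 * (64 / θ ^ 2) ≤ L := (le_max_left _ _).trans (le_max_right _ _)
  have hL4 : 2 * C / θ ^ 20 ≤ L := (le_max_right _ _).trans (le_max_right _ _)
  have ht0 : 0 < X.tm z1 := by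
    rcases eq_or_lt_of_le (X.tm_mem z1).1 with h | h
    · have := hK z1 h.symm
      linarith
    · exact h
  obtain ⟨z0, hz0, hmax, -⟩ := X.exists_max_slice (sS S) (X.tm z1) (X.tm_mem z1)
  have hm : L ≤ X.ev z0 (sS S) := hz1.trans (hmax z1 rfl)
  set m := X.ev z0 (sS S) with hmdef
  have hm1 : 1 ≤ m := (h1 z0).1
  refine ⟨X.tm z1, ⟨ht0, (X.tm_mem z1).2⟩, z0, hz0, hL1.trans hm, hmax, fun z hz => ?_,
    fun z hz hzs => ?_⟩
  · have hs := hmax z hz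
    have hs1 := (h1 z).1
    have hg := hgrad z
    have e1 : θ ^ 2 / 64 * X.ev z (sS S) ^ 3 ≤ θ ^ 2 / 64 * m ^ 3 := by gcongr
    have e2 : C1 * X.ev z (sS S) ≤ C1 * m := by gcongr
    have e3 : C1 * m ≤ θ ^ 2 / 64 * m ^ 3 := by
      have e4 : C1 * (64 / θ ^ 2) ≤ m := by linarith
      have e5 : C1 ≤ θ ^ 2 / 64 * m := by
        have : C1 = θ ^ 2 / 64 * (C1 * (64 / θ ^ 2)) := by field_simp
        rw [this]; gcongr
      have e6 : C1 * m ≤ (θ ^ 2 / 64 * m) * m := by gcongr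
      have e7 : (θ ^ 2 / 64 * m) * m ≤ (θ ^ 2 / 64 * m) * m * m := by
        have : 0 ≤ (θ ^ 2 / 64 * m) * m := by positivity
        nlinarith
      nlinarith
    have e8 : θ ^ 2 / 32 * m ^ 3 = θ ^ 2 / 64 * m ^ 3 + θ ^ 2 / 64 * m ^ 3 := by ring
    linarith
  · have hs1 := (h1 z).1
    have hn := ev_n_nonneg X z
    have e1 : C ≤ θ ^ 20 * X.ev z (sS S) := by
      have e2 : 2 * C / θ ^ 20 ≤ m := hL4.trans hm
      have e3 : 2 * C ≤ θ ^ 20 * m := by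
        have : 2 * C = θ ^ 20 * (2 * C / θ ^ 20) := by field_simp
        rw [this]; gcongr
      have e4 : m / 2 ≤ X.ev z (sS S) := by nlinarith
      have e5 : θ ^ 20 * (m / 2) ≤ θ ^ 20 * X.ev z (sS S) := by gcongr
      linarith
    have e2 : X.ev z (nS S) ^ 5 ≤ (θ ^ 4 * X.ev z (sS S) ^ 2) ^ 5 := by
      calc X.ev z (nS S) ^ 5 ≤ C * X.ev z (sS S) ^ 9 := hC z
        _ ≤ (θ ^ 20 * X.ev z (sS S)) * X.ev z (sS S) ^ 9 := by gcongr
        _ = _ := by ring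
    exact le_of_pow_le_pow_left₀ (by norm_num) (by positivity) e2

/-- The Ricci tensor at such a frame. -/
theorem ric_lower_slice (z : X.Fr) (m θ : ℝ) (hθ : 0 < θ) (hθ1 : θ ≤ 1 / 2)
    (hs : (1 - θ) * m ≤ X.ev z (sS S)) (hs1 : 0 ≤ X.ev z (sS S))
    (hn : X.ev z (nS S) ≤ θ ^ 4 * X.ev z (sS S) ^ 2) (v : Fin 3 → ℝ) :
    2 * ((1 - θ) ^ 2 * m) * ∑ i, v i * v i ≤
      ∑ i, ∑ j, ((if i = j then ∑ k, X.ev z (S.P k k) else 0) - X.ev z (S.P i j)) * v i * v j := by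
  refine le_trans ?_ (ric_lower X z v)
  have h1 : Real.sqrt (X.ev z (nS S)) ≤ θ ^ 2 * X.ev z (sS S) := by
    rw [show θ ^ 2 * X.ev z (sS S) = Real.sqrt ((θ ^ 2 * X.ev z (sS S)) ^ 2) from
      (Real.sqrt_sq (by positivity)).symm]
    refine Real.sqrt_le_sqrt ?_
    linarith [hn, show (θ ^ 2 * X.ev z (sS S)) ^ 2 = θ ^ 4 * X.ev z (sS S) ^ 2 by ring]
  have h2 : 0 ≤ ∑ i, v i * v i := Finset.sum_nonneg fun i _ => mul_self_nonneg _
  have h3 : 2 * ((1 - θ) ^ 2 * m) ≤ 2 * X.ev z (sS S) - Real.sqrt (X.ev z (nS S)) := by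
    have h4 : (1 - θ) ^ 2 * m ≤ (1 - θ) * X.ev z (sS S) := by
      have : (1 - θ) * ((1 - θ) * m) ≤ (1 - θ) * X.ev z (sS S) :=
        mul_le_mul_of_nonneg_left hs (by linarith)
      nlinarith
    have h5 : θ ^ 2 * X.ev z (sS S) ≤ 2 * θ * X.ev z (sS S) := by
      have : θ ^ 2 ≤ 2 * θ := by nlinarith
      gcongr
    linarith
  exact mul_le_mul_of_nonneg_right h3 h2

end Pool.Agent.RFS.Ham
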