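import Pool.Agent.RFS.DMain

/-!
# RFS chunk (d), part 6: the gradient estimate and the final statements
-/

set_option linter.unusedSimpArgs false

noncomputable section

open Set MeasureTheory

namespace Pool.Agent.RFS.Ham

variable {A : Type*} [CommRing A] [Algebra ℝ A] {S : RFAlg A} {M : Type*}
  [TopologicalSpace M] [MeasurableSpace M] {b : ℝ} (X : RFSpace S M b)

/-- `|∇²s - ∇s ⊗ ∇s / s|² ≥ 0`. -/
theorem ev_hess (z : X.Fr) (v : ℝ) :
    2 * v * X.ev z (ip S (gS S) (sS S)) ≤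
      2 * X.ev z (hS S) + 2 * v ^ 2 * X.ev z (gS S) ^ 2 := by
  have h0 : 0 ≤ ∑ i, ∑ j, (X.ev z (S.D i (S.D j (sS S)))
      - v * X.ev z (S.D i (sS S)) * X.ev z (S.D j (sS S))) ^ 2 := by positivity
  have h1 : X.ev z (ip S (gS S) (sS S)) = 2 * ∑ i, ∑ j, X.ev z (S.D i (S.D j (sS S)))
      * X.ev z (S.D j (sS S)) * X.ev z (S.D i (sS S)) := by
    simp only [gS, ip, map_sum, Derivation.leibniz, map_add, smul_eq_mul, map_mul,
      Fin.sum_univ_three]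
    ring
  have h2 : X.ev z (hS S) = ∑ i, ∑ j, X.ev z (S.D i (S.D j (sS S))) ^ 2 := by
    simp only [hS, map_sum, map_mul, pow_two]
  have h3 : X.ev z (gS S) ^ 2 = ∑ i, ∑ j, X.ev z (S.D i (sS S)) ^ 2 * X.ev z (S.D j (sS S)) ^ 2 := by
    simp only [gS, ip, map_sum, map_add, map_mul, Fin.sum_univ_three]
    ring
  rw [h1, h2, h3]
  simp only [Fin.sum_univ_three] at h0 ⊢
  nlinarith [h0]

/-- The scalar inequality behind the gradient estimate. -/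
theorem grad_scalar (s n W T g p v η h q Hs Hn Hg : ℝ) (hs : 0 < s) (hsv : s * v = 1) (hn : 0 ≤ n)
    (hns : n ≤ (3 / 2) * s ^ 2) (hW : 0 ≤ W) (hg : 0 ≤ g) (hkato : (3 / 5) * g ≤ W)
    (hT : 6 * T ^ 2 ≤ n ^ 3) (hp : p ^ 2 ≤ g * (4 * n * W)) (hη : 0 ≤ η) (hη2 : η ≤ 1 / 10)
    (hHs : Hs = 4 * s ^ 2 + n / 3) (hHn : Hn = -2 * W + 4 * s * n - 8 * T)
    (hHg : 3 * Hg = -6 * h + 48 * s * g + 2 * p) (hq : 2 * v * q ≤ 2 * h + 2 * v ^ 2 * g ^ 2) :
    v * Hg + g * (-v ^ 2 * Hs - 2 * v ^ 3 * g) + 2 * v ^ 2 * q + 12 * Hn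
      - η * (2 * s * Hs - 2 * g) ≤ 96 * s * n - 8 * η * s ^ 3 := by
  have hv : 0 < v := by
    by_contra h0
    push Not at h0
    nlinarith
  -- bound for `T`
  have hTb : |T| ≤ s * n / 2 := by
    refine abs_le_of_sq_le_sq ?_ (by positivity)
    have h1 : n ^ 3 ≤ n ^ 2 * ((3 / 2) * s ^ 2) := by
      have : n ^ 3 = n ^ 2 * n := by ring
      rw [this]
      gcongr
    nlinarith [h1]
  have hT2 : -T ≤ s * n / 2 := (neg_le_abs T).trans hTb
  -- bound for `v p`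
  have hvp : v * p ≤ 4 * W := by
    refine le_trans (le_abs_self _) (abs_le_of_sq_le_sq ?_ (by positivity))
    have h1 : g * (4 * n * W) ≤ (5 / 3 * W) * (4 * ((3 / 2) * s ^ 2) * W) := by
      have : g ≤ 5 / 3 * W := by linarith
      gcongr
    have h2 : v ^ 2 * p ^ 2 ≤ v ^ 2 * ((5 / 3 * W) * (4 * ((3 / 2) * s ^ 2) * W)) := by
      have := hp.trans h1
      gcongr
    have h3 : v ^ 2 * ((5 / 3 * W) * (4 * ((3 / 2) * s ^ 2) * W)) = 10 * W ^ 2 * (s * v) ^ 2 := by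
      ring
    rw [h3, hsv] at h2
    nlinarith [sq_nonneg W]
  have e1 : v * Hg = -2 * v * h + 16 * (s * v) * g + (2 / 3) * (v * p) := by
    linear_combination (v / 3) * hHg
  have e2 : g * (-v ^ 2 * Hs) = -4 * (s * v) ^ 2 * g - (v ^ 2 * g * n) / 3 := by
    rw [hHs]; ring
  have e3 : 2 * v ^ 2 * q ≤ 2 * v * h + 2 * v ^ 3 * g ^ 2 := by
    have : v * (2 * v * q) ≤ v * (2 * h + 2 * v ^ 2 * g ^ 2) := by gcongr
    nlinarith [this]
  have e4 : 0 ≤ (v ^ 2 * g * n) / 3 := by positivity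
  have e5 : 0 ≤ η * s * n := by positivity
  have e6 : η * g ≤ (1 / 10) * g := by gcongr
  rw [hsv] at e1 e2
  have e7 : g * (-v ^ 2 * Hs - 2 * v ^ 3 * g) = g * (-v ^ 2 * Hs) - 2 * v ^ 3 * g ^ 2 := by ring
  rw [e7, e1, e2, hHn, hHs]
  nlinarith [e3, e4, e5, e6, hT2, hvp, hkato]

/-- The gradient estimate. -/
theorem grad_est (hb : 0 ≤ b) (hpos : ∀ z, 0 < X.ev z (sS S))
    (h1 : ∀ z, X.ev z (nS S) ≤ (3 / 2) * X.ev z (sS S) ^ 2) (C : ℝ) (hC : 0 ≤ C)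
    (h5 : ∀ z, X.ev z (nS S) ^ 5 ≤ C * X.ev z (sS S) ^ 9) (η : ℝ) (hη : 0 < η) (hη2 : η ≤ 1 / 10) :
    ∃ C1 : ℝ, 0 ≤ C1 ∧ ∀ z, X.ev z (gS S) ≤ η * X.ev z (sS S) ^ 3 + C1 * X.ev z (sS S) := by
  obtain ⟨w, hw⟩ := exists_inv X (sS S) hpos
  have hsw : ∀ z, X.ev z (sS S) * X.ev z w = 1 := fun z => by
    have := congrArg (X.ev z) hw
    rwa [map_mul, map_one] at this
  set f : A := gS S * w + (12 : ℝ) • nS S - η • sS S ^ 2 with hf
  have hheat : heat S f = w * heat S (gS S) + gS S * (-w ^ 2 * heat S (sS S) - 2 * w ^ 3 * gS S)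
      + 2 * w ^ 2 * ip S (gS S) (sS S) + (12 : ℝ) • heat S (nS S)
      - η • (2 * sS S * heat S (sS S) - 2 * gS S) := by
    have h1 : heat S (sS S ^ 2) = 2 * sS S * heat S (sS S) - 2 * gS S := by
      have := heat_pow S (sS S) 0
      rw [zero_add] at this
      rw [this, gS]; push_cast; ring
    rw [hf, heat_sub, heat_add, heat_smul, heat_smul, h1, heat_mul, heat_inv hw, ip_inv hw, ← gS]
    ring
  obtain ⟨K, hK0, hK⟩ := bdd_slice X f 0
  set s0 : ℝ := C * (12 / η) ^ 5 with hs0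
  have hs0p : 0 ≤ s0 := by positivity
  have key := heat_max X f K (144 * s0 ^ 3) hK (fun z _ => by
    have hn := ev_n_nonneg X z
    have hs := hpos z
    have hb1 := grad_scalar (X.ev z (sS S)) (X.ev z (nS S)) (X.ev z (wS S)) (X.ev z (tS S))
      (X.ev z (gS S)) (X.ev z (ip S (sS S) (nS S))) (X.ev z w) η (X.ev z (hS S))
      (X.ev z (ip S (gS S) (sS S))) (X.ev z (heat S (sS S))) (X.ev z (heat S (nS S)))
      (X.ev z (heat S (gS S))) hs (hsw z) hn (h1 z) (ev_w_nonneg X z) (ev_g_nonneg X z)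
      (ev_kato X z) (ev_cubic X z)
      ((ev_cs X z (sS S) (nS S)).trans
        (mul_le_mul_of_nonneg_left (ev_dn X z) (ev_g_nonneg X z)))
      hη.le hη2 (ev_heat_s X z) (ev_heat_n X z) (ev_heat_g X z) (ev_hess X z _)
    have hb2 : X.ev z (heat S f) ≤ 96 * X.ev z (sS S) * X.ev z (nS S) - 8 * η * X.ev z (sS S) ^ 3 := by
      refine le_trans (le_of_eq ?_) hb1
      rw [hheat]
      simp only [map_add, map_sub, map_mul, map_pow, map_neg, map_ofNat, map_smul, smul_eq_mul]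
    refine hb2.trans ?_
    have h5z := h5 z
    have h1z := h1 z
    set s := X.ev z (sS S)
    set n := X.ev z (nS S)
    by_cases hcase : n ≤ (η / 12) * s ^ 2
    · have h6 : 96 * s * n ≤ 96 * s * ((η / 12) * s ^ 2) := by gcongr
      have h7 : 0 ≤ 144 * s0 ^ 3 := by positivity
      nlinarith [h6, h7]
    · push Not at hcase
      have h6 : ((η / 12) * s ^ 2) ^ 5 ≤ C * s ^ 9 :=
        le_trans (pow_le_pow_left₀ (by positivity) hcase.le 5) h5z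
      have h7 : s ≤ s0 := by
        have h8 : s ^ 9 * ((η / 12) ^ 5 * s) ≤ s ^ 9 * C := by nlinarith [h6]
        have h9 : (η / 12) ^ 5 * s ≤ C := le_of_mul_le_mul_left h8 (by positivity)
        have h10 : (12 / η) ^ 5 * ((η / 12) ^ 5 * s) ≤ (12 / η) ^ 5 * C := by gcongr
        have h11 : (12 / η) ^ 5 * (η / 12) ^ 5 = 1 := by
          rw [← mul_pow]; field_simp
        rw [← mul_assoc, h11, one_mul] at h10
        rw [hs0]; linarith
      have h12 : 96 * s * n ≤ 96 * s * ((3 / 2) * s ^ 2) := by gcongr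
      have h13 : s ^ 3 ≤ s0 ^ 3 := by gcongr
      have h14 : 0 ≤ 8 * η * s ^ 3 := by positivity
      nlinarith [h12, h13, h14])
  refine ⟨K + 144 * s0 ^ 3 * b, by positivity, fun z => ?_⟩
  have hkz := key z
  have htz := X.tm_mem z
  have hn := ev_n_nonneg X z
  have hs := hpos z
  have h2 : 144 * s0 ^ 3 * X.tm z ≤ 144 * s0 ^ 3 * b := by
    have := htz.2.le
    gcongr
  have h3 : X.ev z f = X.ev z (gS S) * X.ev z w + 12 * X.ev z (nS S) - η * X.ev z (sS S) ^ 2 := by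
    rw [hf]
    simp only [map_add, map_sub, map_mul, map_pow, map_smul, smul_eq_mul]
  have h4 : X.ev z (gS S) * X.ev z w ≤ η * X.ev z (sS S) ^ 2 + (K + 144 * s0 ^ 3 * b) := by
    rw [h3] at hkz
    linarith
  have h6 : X.ev z (gS S) = X.ev z (sS S) * (X.ev z (gS S) * X.ev z w) := by
    have := hsw z
    linear_combination (-X.ev z (gS S)) * this
  rw [h6]
  calc X.ev z (sS S) * (X.ev z (gS S) * X.ev z w)
      ≤ X.ev z (sS S) * (η * X.ev z (sS S) ^ 2 + (K + 144 * s0 ^ 3 * b)) := by gcongr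
    _ = _ := by ring

/-! ### The final statements of chunk (d) -/

/-- Positivity and pinching are preserved. -/
theorem final_pinch
    (h0 : ∀ z, X.tm z = 0 → 1 ≤ X.ev z (sS S) ∧ X.ev z (nS S) ≤ (3 / 2) * X.ev z (sS S) ^ 2) :
    (∀ z, 1 ≤ X.ev z (sS S) ∧ X.ev z (nS S) ≤ (3 / 2) * X.ev z (sS S) ^ 2) ∧
      ∃ C : ℝ, 0 ≤ C ∧ ∀ z, X.ev z (nS S) ^ 5 ≤ C * X.ev z (sS S) ^ 9 := by
  have h1 : ∀ z, 1 ≤ X.ev z (sS S) := s_lower X 1 fun z hz => (h0 z hz).1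
  have hpos : ∀ z, 0 < X.ev z (sS S) := fun z => one_pos.trans_le (h1 z)
  have h2 : ∀ z, X.ev z (nS S) ≤ (3 / 2) * X.ev z (sS S) ^ 2 :=
    pinch2 X hpos (3 / 2) fun z hz => (h0 z hz).2
  refine ⟨fun z => ⟨h1 z, h2 z⟩, ?_⟩
  obtain ⟨K, hK0, hK⟩ := bdd_slice X (sS S) 0
  refine ⟨8 * K, by positivity, pinch5 X hpos h2 (8 * K) fun z hz => ?_⟩
  have h3 := hK z hz
  have hn := ev_n_nonneg X z
  have hs := hpos z
  have h4 : X.ev z (nS S) ^ 5 ≤ ((3 / 2) * X.ev z (sS S) ^ 2) ^ 5 :=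
    pow_le_pow_left₀ hn (h2 z) 5
  have h5 : ((3 / 2) * X.ev z (sS S) ^ 2) ^ 5 ≤ 8 * X.ev z (sS S) * X.ev z (sS S) ^ 9 := by
    have : 0 < X.ev z (sS S) ^ 10 := by positivity
    nlinarith [this]
  have h6 : 8 * X.ev z (sS S) * X.ev z (sS S) ^ 9 ≤ 8 * K * X.ev z (sS S) ^ 9 := by gcongr
  linarith

/-- The gradient estimate, all `η`. -/
theorem final_grad (hb : 0 ≤ b)
    (h0 : ∀ z, X.tm z = 0 → 1 ≤ X.ev z (sS S) ∧ X.ev z (nS S) ≤ (3 / 2) * X.ev z (sS S) ^ 2)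
    (η : ℝ) (hη : 0 < η) :
    ∃ C1 : ℝ, 0 ≤ C1 ∧ ∀ z, X.ev z (gS S) ≤ η * X.ev z (sS S) ^ 3 + C1 * X.ev z (sS S) := by
  obtain ⟨h1, C, hC0, hC⟩ := final_pinch X h0
  obtain ⟨C1, hC1, h2⟩ := grad_est X hb (fun z => one_pos.trans_le (h1 z).1)
    (fun z => (h1 z).2) C hC0 hC (min η (1 / 10)) (lt_min hη (by norm_num)) (min_le_right _ _)
  refine ⟨C1, hC1, fun z => (h2 z).trans ?_⟩
  have := one_pos.trans_le (h1 z).1
  have h3 : min η (1 / 10) * X.ev z (sS S) ^ 3 ≤ η * X.ev z (sS S) ^ 3 := by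
    gcongr
    exact min_le_left _ _
  linarith

end Pool.Agent.RFS.Ham
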