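import Pool.Agent.RFS.Defs

/-!
# RFS chunk (d), part 3: the maximum principle for `RFSpace`
-/

noncomputable section

open Set MeasureTheory

namespace Pool.Agent.RFS.Ham

variable {A : Type*} [CommRing A] [Algebra ℝ A] {S : RFAlg A} {M : Type*}
  [TopologicalSpace M] [MeasurableSpace M] {b : ℝ} (X : RFSpace S M b)

/-- The maximum principle: if `T f ≤ c` at every frame (of positive time) where the first and
second order conditions of a spatial maximum hold, then `f ≤ K + c t`. -/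
theorem max_principle (f : A) (K c : ℝ) (h0 : ∀ z, X.tm z = 0 → X.ev z f ≤ K)
    (hT : ∀ z, 0 < X.tm z → (∀ i, X.ev z (S.D i f) = 0) → (∀ i, X.ev z (S.D i (S.D i f)) ≤ 0) →
      X.ev z (S.T f) ≤ c) (z : X.Fr) : X.ev z f ≤ K + c * X.tm z := by
  by_contra hcon
  push Not at hcon
  have hz := X.tm_mem z
  obtain ⟨ε, hε, hε2⟩ : ∃ ε > 0, K + (c + ε) * X.tm z < X.ev z f := by
    rcases eq_or_lt_of_le hz.1 with h | h
    · exact ⟨1, one_pos, by rw [← h]; rw [← h] at hcon; simpa using hcon⟩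
    · refine ⟨(X.ev z f - (K + c * X.tm z)) / (2 * X.tm z), div_pos (by linarith) (by linarith), ?_⟩
      have : (X.ev z f - (K + c * X.tm z)) / (2 * X.tm z) * X.tm z =
          (X.ev z f - (K + c * X.tm z)) / 2 := by
        field_simp
      nlinarith [this]
  obtain ⟨w, -, hmax, hpos⟩ := X.exists_max (f - (c + ε) • X.τ) (X.tm z) hz
  have h1 := hmax z le_rfl
  have hev : ∀ w, X.ev w (f - (c + ε) • X.τ) = X.ev w f - (c + ε) * X.tm w := by
    intro w; rw [map_sub, map_smul, X.ev_τ, smul_eq_mul]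
  have hT' : S.T (f - (c + ε) • X.τ) = S.T f - (c + ε) • 1 := by
    rw [map_sub, Derivation.map_smul, X.T_τ]
  have hD' : ∀ i, S.D i (f - (c + ε) • X.τ) = S.D i f := by
    intro i; rw [map_sub, Derivation.map_smul, X.D_τ, smul_zero, sub_zero]
  rw [hev, hev] at h1
  rcases eq_or_lt_of_le (X.tm_mem w).1 with hw | hw
  · have h2 := h0 w hw.symm
    rw [← hw] at h1
    linarith
  · obtain ⟨h2, h3, h4⟩ := hpos hw
    rw [hT', map_sub, map_smul, map_one, smul_eq_mul, mul_one] at h2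
    simp only [hD'] at h3 h4
    linarith [hT w hw h3 h4]

/-- An element of `A` is bounded above on every time slice. -/
theorem bdd_slice (f : A) (t : ℝ) : ∃ K : ℝ, 0 ≤ K ∧ ∀ z, X.tm z = t → X.ev z f ≤ K := by
  by_cases ht : t ∈ Ico 0 b
  · obtain ⟨z, -, hz, -⟩ := X.exists_max_slice f t ht
    exact ⟨max (X.ev z f) 0, le_max_right _ _, fun z' h => (hz z' h).trans (le_max_left _ _)⟩
  · exact ⟨0, le_rfl, fun z hz => absurd (hz ▸ X.tm_mem z) ht⟩

/-- The inverse of a positive element. -/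
theorem exists_inv (f : A) (hpos : ∀ z, 0 < X.ev z f) : ∃ w : A, f * w = 1 := by
  obtain ⟨w, hw, -, -, -⟩ := X.fc (fun x => x⁻¹) (Ioi 0) isOpen_Ioi
    (contDiffOn_inv ℝ |>.mono fun x hx => ne_of_gt hx) f hpos
  refine ⟨w, X.ev_ext _ _ fun z => ?_⟩
  rw [map_mul, map_one, hw, mul_inv_cancel₀ (hpos z).ne']

end Pool.Agent.RFS.Ham
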