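import Pool.Agent.RFS.DAlg
import Pool.Agent.RFS.DMax

/-!
# RFS chunk (d), part 4: invariance of the scalar quantities, powers and the inverse of `s`
-/

set_option linter.unusedSimpArgs false

noncomputable section

open Set MeasureTheory

namespace Pool.Agent.RFS.Ham

/-- `f` is invariant under rotations, i.e. a function of time and point. -/
def Inv {A : Type*} [CommRing A] [Algebra ℝ A] {S : RFAlg A} {M : Type*}
    [TopologicalSpace M] [MeasurableSpace M] {b : ℝ} (X : RFSpace S M b) (f : A) : Prop :=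
  ∀ Q, X.R Q f = f

section Rot

variable {A : Type*} [CommRing A] [Algebra ℝ A]

theorem orth1 (Q : O3) (i j : Fin 3) :
    ∑ k, (Q : Mat3) i k * (Q : Mat3) j k = if i = j then 1 else 0 := by
  have h := (Matrix.mem_orthogonalGroup_iff (Fin 3) ℝ).1 Q.2
  have h2 := congrFun (congrFun h i) j
  simp only [Matrix.mul_apply, Matrix.star_apply, star_trivial, Matrix.one_apply] at h2
  exact h2

theorem orth2 (Q : O3) (i j : Fin 3) :
    ∑ k, (Q : Mat3) k i * (Q : Mat3) k j = if i = j then 1 else 0 := by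
  have h := (Matrix.mem_orthogonalGroup_iff' (Fin 3) ℝ).1 Q.2
  have h2 := congrFun (congrFun h i) j
  simp only [Matrix.mul_apply, Matrix.star_apply, star_trivial, Matrix.one_apply] at h2
  exact h2

theorem rot_sum (Q : O3) (v w : Fin 3 → A) :
    ∑ i, (∑ k, (Q : Mat3) k i • v k) * (∑ k, (Q : Mat3) k i • w k) = ∑ k, v k * w k := by
  have h : ∀ i, (∑ k, (Q : Mat3) k i • v k) * (∑ k, (Q : Mat3) k i • w k)
      = ∑ k, ∑ l, ((Q : Mat3) k i * (Q : Mat3) l i) • (v k * w l) := by
    intro i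
    rw [Finset.sum_mul_sum]
    refine Finset.sum_congr rfl fun k _ => Finset.sum_congr rfl fun l _ => ?_
    rw [smul_mul_smul_comm]
  simp only [h]
  rw [Finset.sum_comm]
  refine Finset.sum_congr rfl fun k _ => ?_
  rw [Finset.sum_comm]
  simp only [← Finset.sum_smul, orth1]
  simp

end Rot

variable {A : Type*} [CommRing A] [Algebra ℝ A] {S : RFAlg A} {M : Type*}
  [TopologicalSpace M] [MeasurableSpace M] {b : ℝ} (X : RFSpace S M b)

theorem inv_s : Inv X (sS S) := by
  intro Q
  simp only [sS, map_smul, map_sum, X.R_P]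
  congr 1
  rw [Finset.sum_comm]
  refine Finset.sum_congr rfl fun k _ => ?_
  rw [Finset.sum_comm]
  simp only [← Finset.sum_smul, orth1]
  simp

theorem R_e (Q : O3) (i j : Fin 3) :
    X.R Q (eS S i j) = ∑ k, (Q : Mat3) k i • ∑ l, (Q : Mat3) l j • eS S k l := by
  have h : (X.R Q) (if i = j then sS S else 0) =
      ∑ k, (Q : Mat3) k i • ∑ l, (Q : Mat3) l j • (if k = l then sS S else 0) := by
    have h1 : ∀ k, ∑ l, (Q : Mat3) l j • (if k = l then sS S else 0) = (Q : Mat3) k j • sS S := by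
      intro k
      simp
    simp only [h1, smul_smul, ← Finset.sum_smul, orth2]
    split_ifs
    · rw [inv_s X Q, one_smul]
    · rw [map_zero, zero_smul]
  rw [eS, map_sub, h, X.R_P]
  simp only [eS, smul_sub, Finset.sum_sub_distrib, Finset.smul_sum, smul_smul]

theorem inv_n : Inv X (nS S) := by
  intro Q
  simp only [nS, map_sum, map_mul, R_e]
  rw [Finset.sum_comm]
  simp only [rot_sum Q]
  rw [Finset.sum_comm]
  simp only [rot_sum Q]

theorem R_Df {f : A} (hf : Inv X f) (Q : O3) (i : Fin 3) :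
    X.R Q (S.D i f) = ∑ j, (Q : Mat3) j i • S.D j f := by
  rw [X.R_D, hf Q]

theorem inv_ip {f h : A} (hf : Inv X f) (hh : Inv X h) : Inv X (ip S f h) := by
  intro Q
  simp only [ip, map_sum, map_mul, R_Df X hf, R_Df X hh]
  exact rot_sum Q _ _

theorem inv_g : Inv X (gS S) := inv_ip X (inv_s X) (inv_s X)

theorem Inv.mul {X : RFSpace S M b} {f h : A} (hf : Inv X f) (hh : Inv X h) : Inv X (f * h) :=
  fun Q => by rw [map_mul, hf Q, hh Q]

theorem Inv.pow {X : RFSpace S M b} {f : A} (hf : Inv X f) (n : ℕ) : Inv X (f ^ n) :=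
  fun Q => by rw [map_pow, hf Q]

theorem Inv.add {X : RFSpace S M b} {f h : A} (hf : Inv X f) (hh : Inv X h) : Inv X (f + h) :=
  fun Q => by rw [map_add, hf Q, hh Q]

theorem Inv.sub {X : RFSpace S M b} {f h : A} (hf : Inv X f) (hh : Inv X h) : Inv X (f - h) :=
  fun Q => by rw [map_sub, hf Q, hh Q]

theorem Inv.neg {X : RFSpace S M b} {f : A} (hf : Inv X f) : Inv X (-f) :=
  fun Q => by rw [map_neg, hf Q]

theorem Inv.smul {X : RFSpace S M b} {f : A} (hf : Inv X f) (c : ℝ) : Inv X (c • f) :=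
  fun Q => by rw [map_smul, hf Q]

/-! ### Calculus of powers -/

variable (S)

theorem D_pow (i : Fin 3) (f : A) (m : ℕ) : S.D i (f ^ (m + 1)) = (m + 1 : ℕ) * f ^ m * S.D i f := by
  rw [Derivation.leibniz_pow, Nat.add_sub_cancel, nsmul_eq_mul, smul_eq_mul, mul_assoc]

theorem T_pow (f : A) (m : ℕ) : S.T (f ^ (m + 1)) = (m + 1 : ℕ) * f ^ m * S.T f := by
  rw [Derivation.leibniz_pow, Nat.add_sub_cancel, nsmul_eq_mul, smul_eq_mul, mul_assoc]

theorem ip_pow (f h : A) (m : ℕ) : ip S (f ^ (m + 1)) h = (m + 1 : ℕ) * f ^ m * ip S f h := by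
  simp only [ip, D_pow, Finset.mul_sum]
  exact Finset.sum_congr rfl fun i _ => by ring

theorem heat_pow (f : A) (m : ℕ) : heat S (f ^ (m + 2)) =
    (m + 2 : ℕ) * f ^ (m + 1) * heat S f - (m + 2 : ℕ) * (m + 1 : ℕ) * f ^ m * ip S f f := by
  induction m with
  | zero => rw [zero_add, pow_two, heat_mul]; push_cast; ring
  | succ k ih =>
    rw [show k + 1 + 2 = (k + 2) + 1 from rfl, pow_succ f (k + 2), heat_mul, ih,
      show ip S (f ^ (k + 2)) f = (k + 1 + 1 : ℕ) * f ^ (k + 1) * ip S f f from ip_pow S f f (k + 1)]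
    push_cast
    ring

variable {S}

/-- The derivative of the inverse. -/
theorem D_inv {f w : A} (h : f * w = 1) (i : Fin 3) : S.D i w = -w ^ 2 * S.D i f := by
  have h1 := congrArg (S.D i) h
  rw [Derivation.leibniz, Derivation.map_one_eq_zero, smul_eq_mul, smul_eq_mul] at h1
  linear_combination (w) * h1 - S.D i w * h

theorem ip_inv {f w : A} (h : f * w = 1) (k : A) : ip S k w = -w ^ 2 * ip S k f := by
  simp only [ip, D_inv h, Finset.mul_sum]
  exact Finset.sum_congr rfl fun i _ => by ring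

theorem heat_one : heat S (1 : A) = 0 := by
  simp [heat, lap]

theorem heat_inv {f w : A} (h : f * w = 1) :
    heat S w = -w ^ 2 * heat S f - 2 * w ^ 3 * ip S f f := by
  have h1 := congrArg (heat S) h
  rw [heat_mul, heat_one, ip_inv h f] at h1
  linear_combination w * h1 - heat S w * h

end Pool.Agent.RFS.Ham
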