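import Mathlib

/-!
# RFS chunk (d), part 2: pointwise inequalities (real arrays)
-/

set_option linter.unusedSimpArgs false

noncomputable section

namespace Pool.Agent.RFS.Ham

open Matrix

/-- The cubic inequality for three real numbers with sum zero. -/
theorem cubic_real (x y z : ℝ) (h : x + y + z = 0) :
    6 * (x ^ 3 + y ^ 3 + z ^ 3) ^ 2 ≤ (x ^ 2 + y ^ 2 + z ^ 2) ^ 3 := by
  have hz : z = -(x + y) := by linarith
  subst hz
  have h2 : 0 ≤ ((x - y) * (2 * x + y) * (x + 2 * y)) ^ 2 := sq_nonneg _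
  nlinarith [h2]

theorem trace_pow_eq (M : Matrix (Fin 3) (Fin 3) ℝ) (hM : M.IsHermitian) (k : ℕ) :
    (M ^ k).trace = ∑ i, hM.eigenvalues i ^ k := by
  conv_lhs => rw [hM.spectral_theorem]
  rw [← map_pow, Matrix.diagonal_pow, Unitary.conjStarAlgAut_apply, Matrix.trace_mul_comm,
    ← mul_assoc, Unitary.coe_star_mul_self, one_mul, Matrix.trace_diagonal]
  simp

/-- `6 (tr E³)² ≤ |E|⁶` for symmetric trace free `E`. -/
theorem cubic_array (e : Fin 3 → Fin 3 → ℝ) (hs : ∀ i j, e i j = e j i)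
    (ht : e 0 0 + e 1 1 + e 2 2 = 0) :
    6 * (∑ i, ∑ j, ∑ k, e i j * e j k * e k i) ^ 2 ≤ (∑ i, ∑ j, e i j * e i j) ^ 3 := by
  let M : Matrix (Fin 3) (Fin 3) ℝ := Matrix.of e
  have hM : M.IsHermitian := by
    ext i j
    simp [M, Matrix.conjTranspose_apply, hs j i]
  have h1 : M.trace = 0 := by simp [M, Matrix.trace, Fin.sum_univ_three, ht]
  have h2 : (M ^ 2).trace = ∑ i, ∑ j, e i j * e i j := by
    simp only [pow_two, Matrix.trace, Matrix.diag, Matrix.mul_apply, M, Matrix.of_apply]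
    exact Finset.sum_congr rfl fun i _ => Finset.sum_congr rfl fun j _ => by rw [hs j i]
  have h3 : (M ^ 3).trace = ∑ i, ∑ j, ∑ k, e i j * e j k * e k i := by
    rw [pow_succ, pow_two]
    simp only [Matrix.trace, Matrix.diag, Matrix.mul_apply, M, Matrix.of_apply, Fin.sum_univ_three]
    ring
  have e1 := trace_pow_eq M hM 1
  have e2 := trace_pow_eq M hM 2
  have e3 := trace_pow_eq M hM 3
  rw [pow_one, h1] at e1
  rw [← h3, ← h2, e3, e2]
  simp only [Fin.sum_univ_three, pow_one] at e1 ⊢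
  exact cubic_real _ _ _ e1.symm


/-- `|∇E|² ≥ (3/5)|∇s|²` from the contracted Bianchi identity. -/
theorem kato_array (d : Fin 3 → Fin 3 → Fin 3 → ℝ) (t : Fin 3 → ℝ)
    (hs : ∀ k i j, d k i j = d k j i) (ht : ∀ k, d k 0 0 + d k 1 1 + d k 2 2 = 0)
    (hb : ∀ j, ∑ i, d i i j = t j) :
    (3 / 5) * ∑ i, t i * t i ≤ ∑ k, ∑ i, ∑ j, d k i j * d k i j := by
  have h0 : 0 ≤ ∑ k, ∑ i, ∑ j, (d k i j - (3 / 10) * ((if k = i then t j else 0)
      + (if k = j then t i else 0) - (2 / 3) * (if i = j then t k else 0))) ^ 2 := by positivity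
  have hz : ∀ k, d k 2 2 = -(d k 0 0 + d k 1 1) := fun k => by linarith [ht k]
  have hb' : ∀ j, t j = ∑ i, d i i j := fun j => (hb j).symm
  refine le_of_sub_nonneg (h0.trans (le_of_eq ?_))
  simp only [hb', Fin.sum_univ_three, if_true, if_false, Fin.isValue, Fin.reduceEq]
  simp only [hs _ 1 0, hs _ 2 0, hs _ 2 1, hz]
  ring

/-- Cauchy-Schwarz for arrays. -/
theorem cs_array (e d : Fin 3 → Fin 3 → ℝ) :
    (∑ i, ∑ j, e i j * d i j) ^ 2 ≤ (∑ i, ∑ j, e i j * e i j) * ∑ i, ∑ j, d i j * d i j := by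
  have h := Finset.sum_mul_sq_le_sq_mul_sq (Finset.univ : Finset (Fin 3 × Fin 3))
    (fun p => e p.1 p.2) (fun p => d p.1 p.2)
  simp only [Fintype.sum_prod_type, pow_two] at h
  simpa only [pow_two] using h

/-- Cauchy-Schwarz for vectors. -/
theorem cs_vec (e d : Fin 3 → ℝ) :
    (∑ i, e i * d i) ^ 2 ≤ (∑ i, e i * e i) * ∑ i, d i * d i := by
  have h := Finset.sum_mul_sq_le_sq_mul_sq (Finset.univ : Finset (Fin 3)) e d
  simp only [pow_two] at h
  simpa only [pow_two] using h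

/-- `|E(v,v)| ≤ |E| |v|²`. -/
theorem quad_array (e : Fin 3 → Fin 3 → ℝ) (v : Fin 3 → ℝ) :
    |∑ i, ∑ j, e i j * v i * v j| ≤ Real.sqrt (∑ i, ∑ j, e i j * e i j) * ∑ i, v i * v i := by
  have h := cs_array e (fun i j => v i * v j)
  have h2 : ∑ i, ∑ j, (v i * v j) * (v i * v j) = (∑ i, v i * v i) ^ 2 := by
    simp only [Fin.sum_univ_three]; ring
  rw [h2] at h
  have hv : 0 ≤ ∑ i, v i * v i := Finset.sum_nonneg fun i _ => mul_self_nonneg _
  have he : 0 ≤ ∑ i, ∑ j, e i j * e i j :=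
    Finset.sum_nonneg fun i _ => Finset.sum_nonneg fun j _ => mul_self_nonneg _
  simp only [mul_assoc]
  refine abs_le_of_sq_le_sq ?_ (by positivity)
  rw [mul_pow, Real.sq_sqrt he]
  exact h

/-! ### Scalar inequalities -/

/-- Step 1: the zero order term of the evolution of `n / s²`. -/
theorem zero_order2 (s n T : ℝ) (hs : 0 < s) (hn : 0 ≤ n) (hT : 6 * T ^ 2 ≤ n ^ 3) :
    s * (4 * s * n - 8 * T) - 2 * n * (4 * s ^ 2 + n / 3) ≤ 0 := by
  -- `-8 s T ≤ 4 s² n + (2/3) n²`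
  have h1 : -(8 * s * T) ≤ 4 * s ^ 2 * n + (2 / 3) * n ^ 2 := by
    have h2 : (8 * s * T) ^ 2 ≤ (4 * s ^ 2 * n + (2 / 3) * n ^ 2) ^ 2 := by
      have h3 : 64 * s ^ 2 * T ^ 2 ≤ (64 / 6) * s ^ 2 * n ^ 3 := by nlinarith [sq_nonneg s]
      have h4 : (64 / 6) * s ^ 2 * n ^ 3 ≤ (4 * s ^ 2 * n + (2 / 3) * n ^ 2) ^ 2 := by
        have : 0 ≤ n ^ 2 * (4 * s ^ 2 - (2 / 3) * n) ^ 2 := by positivity
        nlinarith [this]
      calc (8 * s * T) ^ 2 = 64 * s ^ 2 * T ^ 2 := by ring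
        _ ≤ _ := h3.trans h4
    have h5 : 0 ≤ 4 * s ^ 2 * n + (2 / 3) * n ^ 2 := by positivity
    have := abs_le_of_sq_le_sq h2 h5
    linarith [neg_abs_le (8 * s * T)]
  nlinarith [h1]

/-- Step 2: the zero order term of the evolution of `n⁵ / s⁹`. -/
theorem zero_order5 (s n T : ℝ) (hs : 0 < s) (hn : 0 ≤ n) (hns : n ≤ (3 / 2) * s ^ 2)
    (hT : 6 * T ^ 2 ≤ n ^ 3) :
    5 * s * (4 * s * n - 8 * T) - 9 * n * (4 * s ^ 2 + n / 3) ≤ 0 := by
  -- `-40 s T ≤ 16 s² n + 3 n²`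
  have h1 : -(40 * s * T) ≤ 16 * s ^ 2 * n + 3 * n ^ 2 := by
    have h2 : (40 * s * T) ^ 2 ≤ (16 * s ^ 2 * n + 3 * n ^ 2) ^ 2 := by
      have h3 : 1600 * s ^ 2 * T ^ 2 ≤ (1600 / 6) * s ^ 2 * n ^ 3 := by nlinarith [sq_nonneg s]
      have h4 : (1600 / 6) * s ^ 2 * n ^ 3 ≤ (16 * s ^ 2 * n + 3 * n ^ 2) ^ 2 := by
        have h6 : 0 ≤ n ^ 2 * (((3 / 2) * s ^ 2 - n) * ((512 / 3) * s ^ 2 - 9 * n)) := by
          have : 0 ≤ (512 / 3) * s ^ 2 - 9 * n := by nlinarith [sq_nonneg s]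
          have h7 : 0 ≤ (3 / 2) * s ^ 2 - n := by linarith
          positivity
        nlinarith [h6]
      calc (40 * s * T) ^ 2 = 1600 * s ^ 2 * T ^ 2 := by ring
        _ ≤ _ := h3.trans h4
    have h5 : 0 ≤ 16 * s ^ 2 * n + 3 * n ^ 2 := by positivity
    have := abs_le_of_sq_le_sq h2 h5
    linarith [neg_abs_le (40 * s * T)]
  nlinarith [h1]

end Pool.Agent.RFS.Ham
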