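import Pool.Agent.RFS.DInv
import Pool.Agent.RFS.DPt

/-!
# RFS chunk (d), part 5: pinching and the gradient estimate
-/

set_option linter.unusedSimpArgs false

noncomputable section

open Set MeasureTheory

namespace Pool.Agent.RFS.Ham

variable {A : Type*} [CommRing A] [Algebra ℝ A] {S : RFAlg A} {M : Type*}
  [TopologicalSpace M] [MeasurableSpace M] {b : ℝ} (X : RFSpace S M b)

/-! ### Evaluation at a frame -/

theorem ev_n_nonneg (z : X.Fr) : 0 ≤ X.ev z (nS S) := by
  simp only [nS, map_sum, map_mul]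
  exact Finset.sum_nonneg fun i _ => Finset.sum_nonneg fun j _ => mul_self_nonneg _

theorem ev_g_nonneg (z : X.Fr) : 0 ≤ X.ev z (gS S) := by
  simp only [gS, ip, map_sum, map_mul]
  exact Finset.sum_nonneg fun i _ => mul_self_nonneg _

theorem ev_w_nonneg (z : X.Fr) : 0 ≤ X.ev z (wS S) := by
  simp only [wS, map_sum, map_mul]
  exact Finset.sum_nonneg fun k _ => Finset.sum_nonneg fun i _ =>
    Finset.sum_nonneg fun j _ => mul_self_nonneg _

theorem ev_cubic (z : X.Fr) : 6 * X.ev z (tS S) ^ 2 ≤ X.ev z (nS S) ^ 3 := by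
  have h := cubic_array (fun i j => X.ev z (eS S i j)) (fun i j => by rw [eS_symm])
    (by have := congrArg (X.ev z) (eS_trace S); simpa using this)
  simpa only [tS, nS, map_sum, map_mul] using h

theorem ev_kato (z : X.Fr) : (3 / 5) * X.ev z (gS S) ≤ X.ev z (wS S) := by
  have h := kato_array (fun k i j => X.ev z (S.D k (eS S i j))) (fun i => X.ev z (S.D i (sS S)))
    (fun k i j => by rw [eS_symm])
    (fun k => by
      have := congrArg (fun f => X.ev z (S.D k f)) (eS_trace S)
      simpa using this)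
    (fun j => by rw [← map_sum, div_E])
  simpa only [gS, ip, wS, map_sum, map_mul] using h

theorem ev_dn (z : X.Fr) : X.ev z (ip S (nS S) (nS S)) ≤ 4 * X.ev z (nS S) * X.ev z (wS S) := by
  have h1 : ∀ k, X.ev z (S.D k (nS S)) =
      2 * ∑ i, ∑ j, X.ev z (eS S i j) * X.ev z (S.D k (eS S i j)) := by
    intro k
    simp only [nS, map_sum, Derivation.leibniz, map_add, smul_eq_mul, map_mul, Finset.mul_sum]
    exact Finset.sum_congr rfl fun i _ => Finset.sum_congr rfl fun j _ => by ring
  have h2 : ∀ k, X.ev z (S.D k (nS S)) * X.ev z (S.D k (nS S)) ≤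
      4 * X.ev z (nS S) * ∑ i, ∑ j, X.ev z (S.D k (eS S i j)) * X.ev z (S.D k (eS S i j)) := by
    intro k
    have h := cs_array (fun i j => X.ev z (eS S i j)) (fun i j => X.ev z (S.D k (eS S i j)))
    have h3 : X.ev z (nS S) = ∑ i, ∑ j, X.ev z (eS S i j) * X.ev z (eS S i j) := by
      simp only [nS, map_sum, map_mul]
    rw [h1, h3]
    nlinarith [h]
  have h4 : X.ev z (wS S) = ∑ k, ∑ i, ∑ j, X.ev z (S.D k (eS S i j)) * X.ev z (S.D k (eS S i j)) := by
    simp only [wS, map_sum, map_mul]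
  have h5 : X.ev z (ip S (nS S) (nS S)) = ∑ k, X.ev z (S.D k (nS S)) * X.ev z (S.D k (nS S)) := by
    simp only [ip, map_sum, map_mul]
  rw [h4, h5, Finset.mul_sum]
  exact Finset.sum_le_sum fun k _ => h2 k

theorem ev_cs (z : X.Fr) (f h : A) :
    X.ev z (ip S f h) ^ 2 ≤ X.ev z (ip S f f) * X.ev z (ip S h h) := by
  have := cs_vec (fun i => X.ev z (S.D i f)) (fun i => X.ev z (S.D i h))
  simpa only [ip, map_sum, map_mul] using this

theorem ev_heat_s (z : X.Fr) : X.ev z (heat S (sS S)) =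
    4 * X.ev z (sS S) ^ 2 + X.ev z (nS S) / 3 := by
  have h := congrArg (X.ev z) (heat_s S)
  simp only [map_mul, map_add, map_pow, map_ofNat] at h
  linarith

theorem ev_heat_n (z : X.Fr) : X.ev z (heat S (nS S)) =
    -2 * X.ev z (wS S) + 4 * X.ev z (sS S) * X.ev z (nS S) - 8 * X.ev z (tS S) := by
  have h := congrArg (X.ev z) (heat_n S)
  simpa only [map_mul, map_add, map_sub, map_neg, map_pow, map_ofNat] using h

theorem ev_heat_g (z : X.Fr) : 3 * X.ev z (heat S (gS S)) =
    -6 * X.ev z (hS S) + 48 * X.ev z (sS S) * X.ev z (gS S)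
      + 2 * X.ev z (ip S (sS S) (nS S)) := by
  have h := congrArg (X.ev z) (heat_g S)
  simpa only [map_mul, map_add, map_sub, map_neg, map_pow, map_ofNat] using h

/-! ### The maximum principle for the heat operator -/

theorem heat_max (f : A) (K c : ℝ)
    (h0 : ∀ z, X.tm z = 0 → X.ev z f ≤ K)
    (hT : ∀ z, (∀ i, X.ev z (S.D i f) = 0) → X.ev z (heat S f) ≤ c) (z : X.Fr) :
    X.ev z f ≤ K + c * X.tm z := by
  refine max_principle X f K c h0 (fun z _ hD hL => ?_) z
  have h1 := hT z hD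
  have h2 : X.ev z (S.T f) = X.ev z (heat S f) + ∑ i, X.ev z (S.D i (S.D i f)) := by
    simp only [heat, lap, map_sub, map_sum]; ring
  have h3 : ∑ i, X.ev z (S.D i (S.D i f)) ≤ 0 := Finset.sum_nonpos fun i _ => hL i
  linarith

/-- `s` is bounded below by its initial minimum. -/
theorem s_lower (κ : ℝ) (h0 : ∀ z, X.tm z = 0 → κ ≤ X.ev z (sS S)) (z : X.Fr) :
    κ ≤ X.ev z (sS S) := by
  have h := heat_max X (-sS S) (-κ) 0
    (fun z hz => by rw [map_neg]; linarith [h0 z hz])
    (fun z _ => by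
      have : heat S (-sS S) = -heat S (sS S) := by
        have := heat_sub S 0 (sS S)
        rw [heat_zero, zero_sub, zero_sub] at this
        exact this
      rw [this, map_neg, ev_heat_s]
      have := ev_n_nonneg X z
      nlinarith [sq_nonneg (X.ev z (sS S))]) z
  rw [map_neg, zero_mul, add_zero] at h
  linarith

/-! ### Step 1: the scale invariant pinching -/

theorem pinch2 (hpos : ∀ z, 0 < X.ev z (sS S)) (κ : ℝ)
    (h0 : ∀ z, X.tm z = 0 → X.ev z (nS S) ≤ κ * X.ev z (sS S) ^ 2) (z : X.Fr) :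
    X.ev z (nS S) ≤ κ * X.ev z (sS S) ^ 2 := by
  obtain ⟨w, hw⟩ := exists_inv X (sS S) hpos
  have hsw : ∀ z, X.ev z (sS S) * X.ev z w = 1 := fun z => by
    have := congrArg (X.ev z) hw
    rwa [map_mul, map_one] at this
  have hheat : heat S (nS S * w ^ 2) = w ^ 2 * heat S (nS S) - 2 * nS S * w ^ 3 * heat S (sS S)
      - 6 * nS S * w ^ 4 * gS S + 4 * w ^ 3 * ip S (nS S) (sS S) := by
    have h1 : heat S (w ^ 2) = 2 * w * heat S w - 2 * ip S w w := by
      have := heat_pow S w 0
      rw [zero_add] at this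
      rw [this]; push_cast; ring
    have h2 : ip S (nS S) (w ^ 2) = 2 * w * ip S (nS S) w := by
      rw [ip_comm, ip_pow S w (nS S) 1, ip_comm]; push_cast; ring
    have h3 : ip S w w = w ^ 4 * gS S := by
      rw [ip_inv hw, ip_comm, ip_inv hw, gS]; ring
    rw [heat_mul, h1, h2, h3, heat_inv hw, ip_inv hw, gS]
    ring
  have hD : ∀ z i, X.ev z (S.D i (nS S * w ^ 2)) =
      X.ev z w ^ 2 * (X.ev z (S.D i (nS S))
        - 2 * X.ev z (nS S) * X.ev z w * X.ev z (S.D i (sS S))) := by
    intro z i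
    rw [Derivation.leibniz, smul_eq_mul, smul_eq_mul, D_pow S i w 1, D_inv hw]
    simp only [map_add, map_mul, map_pow, map_neg, map_natCast]
    push_cast; ring
  have key := heat_max X (nS S * w ^ 2) κ 0
    (fun z hz => by
      have h1 := h0 z hz
      have h2 : X.ev z (nS S) * X.ev z w ^ 2 ≤ κ * X.ev z (sS S) ^ 2 * X.ev z w ^ 2 := by
        gcongr
      have h3 : κ * X.ev z (sS S) ^ 2 * X.ev z w ^ 2 = κ := by
        rw [mul_assoc, ← mul_pow, hsw z]; ring
      rw [map_mul, map_pow]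
      linarith)
    (fun z hz => by
      have hwpos : 0 < X.ev z w := by
        have := hsw z
        by_contra h
        push Not at h
        nlinarith [hpos z]
      have ha : ∀ i, X.ev z (S.D i (nS S)) =
          2 * X.ev z (nS S) * X.ev z w * X.ev z (S.D i (sS S)) := by
        intro i
        have h1 := hz i
        rw [hD] at h1
        have h2 : X.ev z w ^ 2 ≠ 0 := by positivity
        have := (mul_eq_zero.1 h1).resolve_left h2
        linarith
      have hip : X.ev z (ip S (nS S) (sS S)) = 2 * X.ev z (nS S) * X.ev z w * X.ev z (gS S) := by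
        simp only [gS, ip, map_sum, map_mul, ha, Finset.mul_sum]
        exact Finset.sum_congr rfl fun i _ => by ring
      have hnn : X.ev z (ip S (nS S) (nS S)) =
          4 * X.ev z (nS S) ^ 2 * X.ev z w ^ 2 * X.ev z (gS S) := by
        simp only [gS, ip, map_sum, map_mul, ha, Finset.mul_sum]
        exact Finset.sum_congr rfl fun i _ => by ring
      have hdn := ev_dn X z
      rw [hnn] at hdn
      have hn := ev_n_nonneg X z
      have hg := ev_g_nonneg X z
      have hW := ev_w_nonneg X z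
      have hcub := ev_cubic X z
      have hs := hpos z
      have hz2 := zero_order2 (X.ev z (sS S)) (X.ev z (nS S)) (X.ev z (tS S)) hs hn hcub
      have hsw' := hsw z
      rw [hheat]
      simp only [map_add, map_sub, map_mul, map_pow, map_ofNat, ev_heat_s, ev_heat_n, hip]
      set s := X.ev z (sS S)
      set n := X.ev z (nS S)
      set W := X.ev z (wS S)
      set T := X.ev z (tS S)
      set g := X.ev z (gS S)
      set v := X.ev z w
      have hWn : n * v ^ 2 * g ≤ W := by
        rcases eq_or_lt_of_le hn with h | h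
        · rw [← h]; simpa using hW
        · have h5 : n * (n * v ^ 2 * g) ≤ n * W := by nlinarith
          exact le_of_mul_le_mul_left h5 h
      have e1 : v ^ 2 = v ^ 3 * s := by
        linear_combination (-v ^ 2) * hsw'
      have e2 : v ^ 2 * (-2 * W + 4 * s * n - 8 * T) - 2 * n * v ^ 3 * (4 * s ^ 2 + n / 3)
          - 6 * n * v ^ 4 * g + 4 * v ^ 3 * (2 * n * v * g)
          = v ^ 3 * (s * (4 * s * n - 8 * T) - 2 * n * (4 * s ^ 2 + n / 3))
            + 2 * (v ^ 2 * (n * v ^ 2 * g - W)) := by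
        linear_combination (4 * s * n - 8 * T) * e1
      rw [e2]
      have h6 : v ^ 3 * (s * (4 * s * n - 8 * T) - 2 * n * (4 * s ^ 2 + n / 3)) ≤ 0 :=
        mul_nonpos_of_nonneg_of_nonpos (by positivity) hz2
      have h7 : v ^ 2 * (n * v ^ 2 * g - W) ≤ 0 :=
        mul_nonpos_of_nonneg_of_nonpos (by positivity) (by linarith)
      linarith) z
  rw [zero_mul, add_zero, map_mul, map_pow] at key
  have h1 := hsw z
  have h2 : X.ev z (nS S) = X.ev z (nS S) * X.ev z w ^ 2 * X.ev z (sS S) ^ 2 := by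
    rw [mul_assoc, ← mul_pow, mul_comm (X.ev z w), h1]; ring
  rw [h2]
  gcongr

/-! ### Step 2: the improved pinching -/

theorem pinch5 (hpos : ∀ z, 0 < X.ev z (sS S))
    (h1 : ∀ z, X.ev z (nS S) ≤ (3 / 2) * X.ev z (sS S) ^ 2) (C : ℝ)
    (h0 : ∀ z, X.tm z = 0 → X.ev z (nS S) ^ 5 ≤ C * X.ev z (sS S) ^ 9) (z : X.Fr) :
    X.ev z (nS S) ^ 5 ≤ C * X.ev z (sS S) ^ 9 := by
  obtain ⟨w, hw⟩ := exists_inv X (sS S) hpos
  have hsw : ∀ z, X.ev z (sS S) * X.ev z w = 1 := fun z => by
    have := congrArg (X.ev z) hw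
    rwa [map_mul, map_one] at this
  have hwpos : ∀ z, 0 < X.ev z w := fun z => by
    have := hsw z
    by_contra h
    push Not at h
    nlinarith [hpos z]
  have hheat : heat S (nS S ^ 5 * w ^ 9) = 5 * nS S ^ 4 * w ^ 9 * heat S (nS S)
      - 20 * nS S ^ 3 * w ^ 9 * ip S (nS S) (nS S) - 9 * nS S ^ 5 * w ^ 10 * heat S (sS S)
      - 90 * nS S ^ 5 * w ^ 11 * gS S + 90 * nS S ^ 4 * w ^ 10 * ip S (nS S) (sS S) := by
    have h1 := heat_pow S w 7
    have h1' := heat_pow S (nS S) 3
    have h2 : ip S (nS S ^ 5) (w ^ 9) = 45 * nS S ^ 4 * w ^ 8 * ip S (nS S) w := by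
      rw [ip_pow S (nS S) _ 4, ip_comm, ip_pow S w (nS S) 8, ip_comm]; push_cast; ring
    have h3 : ip S w w = w ^ 4 * gS S := by
      rw [ip_inv hw, ip_comm, ip_inv hw, gS]; ring
    rw [heat_mul, h1, h1', h2, h3, heat_inv hw, ip_inv hw, gS]
    push_cast
    ring
  have hD : ∀ z i, X.ev z (S.D i (nS S ^ 5 * w ^ 9)) =
      X.ev z (nS S) ^ 4 * X.ev z w ^ 9 * (5 * X.ev z (S.D i (nS S))
        - 9 * X.ev z (nS S) * X.ev z w * X.ev z (S.D i (sS S))) := by
    intro z i
    rw [Derivation.leibniz, smul_eq_mul, smul_eq_mul, D_pow S i w 8, D_pow S i (nS S) 4, D_inv hw]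
    simp only [map_add, map_mul, map_pow, map_neg, map_natCast]
    push_cast; ring
  have key := heat_max X (nS S ^ 5 * w ^ 9) C 0
    (fun z hz => by
      have h1 := h0 z hz
      have h2 : X.ev z (nS S) ^ 5 * X.ev z w ^ 9 ≤ C * X.ev z (sS S) ^ 9 * X.ev z w ^ 9 := by
        have := hwpos z
        gcongr
      have h3 : C * X.ev z (sS S) ^ 9 * X.ev z w ^ 9 = C := by
        rw [mul_assoc, ← mul_pow, hsw z]; ring
      rw [map_mul, map_pow, map_pow]
      linarith)
    (fun z hz => by
      have hwp := hwpos z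
      have hn := ev_n_nonneg X z
      have hg := ev_g_nonneg X z
      have hW := ev_w_nonneg X z
      have hcub := ev_cubic X z
      have hs := hpos z
      have hz2 := zero_order5 (X.ev z (sS S)) (X.ev z (nS S)) (X.ev z (tS S)) hs hn (h1 z) hcub
      have hsw' := hsw z
      rcases eq_or_lt_of_le hn with hn0 | hn0
      · rw [hheat]
        simp only [map_add, map_sub, map_mul, map_pow, ← hn0]
        simp
      have ha : ∀ i, X.ev z (S.D i (nS S)) =
          (9 / 5) * X.ev z (nS S) * X.ev z w * X.ev z (S.D i (sS S)) := by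
        intro i
        have h1 := hz i
        rw [hD] at h1
        have h2 : X.ev z (nS S) ^ 4 * X.ev z w ^ 9 ≠ 0 := by positivity
        have := (mul_eq_zero.1 h1).resolve_left h2
        linarith
      have hip : X.ev z (ip S (nS S) (sS S)) =
          (9 / 5) * X.ev z (nS S) * X.ev z w * X.ev z (gS S) := by
        simp only [gS, ip, map_sum, map_mul, ha, Finset.mul_sum]
        exact Finset.sum_congr rfl fun i _ => by ring
      have hnn : X.ev z (ip S (nS S) (nS S)) =
          (81 / 25) * X.ev z (nS S) ^ 2 * X.ev z w ^ 2 * X.ev z (gS S) := by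
        simp only [gS, ip, map_sum, map_mul, ha, Finset.mul_sum]
        exact Finset.sum_congr rfl fun i _ => by ring
      have hdn := ev_dn X z
      rw [hnn] at hdn
      rw [hheat]
      simp only [map_add, map_sub, map_mul, map_pow, map_ofNat, ev_heat_s, ev_heat_n, hip, hnn]
      set s := X.ev z (sS S)
      set n := X.ev z (nS S)
      set W := X.ev z (wS S)
      set T := X.ev z (tS S)
      set g := X.ev z (gS S)
      set v := X.ev z w
      have hWn : (81 / 100) * (n * v ^ 2 * g) ≤ W := by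
        have h5 : n * ((81 / 100) * (n * v ^ 2 * g)) ≤ n * W := by nlinarith
        exact le_of_mul_le_mul_left h5 hn0
      have e1 : v ^ 9 = v ^ 10 * s := by
        linear_combination (-v ^ 9) * hsw'
      have e2 : 5 * n ^ 4 * v ^ 9 * (-2 * W + 4 * s * n - 8 * T)
          - 20 * n ^ 3 * v ^ 9 * ((81 / 25) * n ^ 2 * v ^ 2 * g)
          - 9 * n ^ 5 * v ^ 10 * (4 * s ^ 2 + n / 3) - 90 * n ^ 5 * v ^ 11 * g
          + 90 * n ^ 4 * v ^ 10 * ((9 / 5) * n * v * g)
          = n ^ 4 * v ^ 10 * (5 * s * (4 * s * n - 8 * T) - 9 * n * (4 * s ^ 2 + n / 3))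
            + 10 * (n ^ 4 * v ^ 9) * ((81 / 100) * (n * v ^ 2 * g) - W)
            - (9 / 10) * (n ^ 5 * v ^ 11 * g) := by
        linear_combination (5 * n ^ 4 * (4 * s * n - 8 * T)) * e1
      rw [e2]
      have h6 : n ^ 4 * v ^ 10 * (5 * s * (4 * s * n - 8 * T) - 9 * n * (4 * s ^ 2 + n / 3)) ≤ 0 :=
        mul_nonpos_of_nonneg_of_nonpos (by positivity) hz2
      have h7 : 10 * (n ^ 4 * v ^ 9) * ((81 / 100) * (n * v ^ 2 * g) - W) ≤ 0 :=
        mul_nonpos_of_nonneg_of_nonpos (by positivity) (by linarith)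
      have h8 : 0 ≤ n ^ 5 * v ^ 11 * g := by positivity
      linarith) z
  rw [zero_mul, add_zero, map_mul, map_pow, map_pow] at key
  have h1 := hsw z
  have h2 : X.ev z (nS S) ^ 5 = X.ev z (nS S) ^ 5 * X.ev z w ^ 9 * X.ev z (sS S) ^ 9 := by
    rw [mul_assoc, ← mul_pow, mul_comm (X.ev z w), h1]; ring
  rw [h2]
  have := hpos z
  gcongr

end Pool.Agent.RFS.Ham
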