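import Pool.Agent.RFS.Defs1

/-!
# Project RFS (MP_7221a0_gt): common definitions

Part 1 (literal coordinate formulas: Christoffel symbols, Ricci tensor, Schouten tensor) is in
Defs1.lean.
Part 2: metrics on a 3-manifold as compatible families of matrix functions in the charts,
the Riemannian volume, the Ricci flow.
Part 3: the abstract frame calculus `RFAlg` and the abstract interface `RFSpace`.
-/

open scoped Manifold ContDiff Matrix
open Set MeasureTheory

noncomputable section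

namespace Pool.Agent.RFS

/-- The symmetric tensor `P = (R / 2) g - Ric`; its eigenvalues are the sectional curvatures. -/
def pten (G : E3 → Mat3) (x : E3) : Mat3 := (scal G x / 2) • G x - ricci G x

/-! ### Part 2: manifolds -/

section Manifold

variable (M : Type*) [TopologicalSpace M] [ChartedSpace E3 M]

/-- The charts of the given atlas. -/
abbrev Ch := ↥(atlas E3 M)

variable {M}

/-- The change of coordinates from `e` to `e'`. -/
def trans (e e' : Ch M) (x : E3) : E3 := e'.1 (e.1.symm x)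

/-- The Jacobi matrix of the change of coordinates; entry `(k, i)` is `∂ᵢ φ^k`. -/
def jac (e e' : Ch M) (x : E3) : Mat3 := Matrix.of fun k i => pd i (fun y => trans e e' y k) x

variable (M)

/-- A smooth symmetric covariant 2-tensor on `M`, given by its matrices in the charts. -/
structure Sym2 where
  /-- The matrix of the tensor in the chart `e`. -/
  c : Ch M → E3 → Mat3
  smooth : ∀ e i j, ContDiffOn ℝ ∞ (fun x => c e x i j) e.1.target
  symm : ∀ e, ∀ x ∈ e.1.target, (c e x)ᵀ = c e x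
  compat : ∀ e e' : Ch M, ∀ x ∈ e.1.target, e.1.symm x ∈ e'.1.source →
    c e x = (jac e e' x)ᵀ * c e' (trans e e' x) * jac e e' x

/-- A Riemannian metric on `M`. -/
structure RMetric extends Sym2 M where
  pos : ∀ e, ∀ x ∈ e.1.target, (c e x).PosDef

variable {M}

/-- `g` is a Ricci flow on the time interval `J`. -/
structure IsRF (g : ℝ → RMetric M) (J : Set ℝ) : Prop where
  cont : ∀ e i j, ∀ k : ℕ, ContinuousOn
    (fun z : ℝ × E3 => iteratedFDeriv ℝ k (fun y => (g z.1).c e y i j) z.2) (J ×ˢ e.1.target)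
  eqn : ∀ e, ∀ x ∈ e.1.target, ∀ t ∈ J, ∀ i j, HasDerivWithinAt (fun s => (g s).c e x i j)
    (-2 * ricci ((g t).c e) x i j) J t

/-- `μ` is the Riemannian volume of `g`: in every chart it has the density `√ det G`. -/
def IsVol [MeasurableSpace M] (g : RMetric M) (μ : Measure M) : Prop :=
  ∀ e : Ch M, ∀ B : Set M, MeasurableSet B → B ⊆ e.1.source →
    μ B = ∫⁻ x in e.1 '' B, ENNReal.ofReal (Real.sqrt (g.c e x).det)

end Manifold

/-! ### Part 3: the abstract frame calculus -/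

/-- The Levi-Civita symbol. -/
def eps (i j k : Fin 3) : ℝ :=
  (((j : ℕ) : ℝ) - ((i : ℕ) : ℝ)) * (((k : ℕ) : ℝ) - ((i : ℕ) : ℝ)) * (((k : ℕ) : ℝ) - ((j : ℕ) : ℝ)) / 2

/-- The frame calculus of a 3-dimensional Ricci flow.  `A` is a ring of functions on the bundle of
orthonormal frames (over space-time), `T` the time derivative (the frames evolve by
`∂ₜ aᵢ = Ric aᵢ`), `D i` the horizontal fields (covariant derivative in the direction of the
`i`-th frame vector), `V n` the rotations. -/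
structure RFAlg (A : Type*) [CommRing A] [Algebra ℝ A] where
  T : Derivation ℝ A A
  D : Fin 3 → Derivation ℝ A A
  V : Fin 3 → Derivation ℝ A A
  P : Fin 3 → Fin 3 → A
  P_symm : ∀ i j, P i j = P j i
  comm_VV : ∀ m n f, V m (V n f) - V n (V m f) = ∑ k, eps m n k • V k f
  comm_VD : ∀ n i f, V n (D i f) - D i (V n f) = ∑ j, eps n i j • D j f
  V_P : ∀ n i j, V n (P i j) = ∑ k, (eps n i k • P k j + eps n j k • P i k)
  comm_DD : ∀ i j f, D i (D j f) - D j (D i f) = ∑ m, ∑ n, eps i j m • (P m n * V n f)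
  div_P : ∀ j, ∑ i, D i (P i j) = 0
  comm_TV : ∀ n f, T (V n f) = V n (T f)
  comm_TD : ∀ i f, T (D i f) - D i (T f) =
    (∑ k, P k k) * D i f - ∑ j, P i j * D j f
      + ∑ n, ∑ p, ∑ q, eps p q n •
        (D p ((if q = i then ∑ k, P k k else 0) - P q i) * V n f)
  T_P : ∀ i j, T (P i j) = ∑ k, D k (D k (P i j)) + 2 * ∑ k, P i k * P k j
    + ∑ k, ∑ l, ∑ m, ∑ n, (eps i k l * eps j m n) • (P k m * P l n)

/-- Orthogonal matrices. -/
abbrev O3 := ↥(Matrix.orthogonalGroup (Fin 3) ℝ)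

/-- The abstract interface: a Ricci flow on the time interval `[0, b)` on the compact space `M`,
seen through the frame calculus `S`.  `Fr` is the set of points `z` of the frame bundle over
space-time, `tm z` the time, `bs z` the base point, `ev z` the evaluation of functions. -/
structure RFSpace {A : Type*} [CommRing A] [Algebra ℝ A] (S : RFAlg A) (M : Type*)
    [TopologicalSpace M] [MeasurableSpace M] (b : ℝ) where
  Fr : Type*
  tm : Fr → ℝ
  bs : Fr → M
  tm_mem : ∀ z, tm z ∈ Ico 0 b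
  exists_pt : ∀ t ∈ Ico 0 b, ∀ p, ∃ z, tm z = t ∧ bs z = p
  ev : Fr → A →ₐ[ℝ] ℝ
  ev_ext : ∀ f h : A, (∀ z, ev z f = ev z h) → f = h
  rot : O3 → Fr → Fr
  tm_rot : ∀ Q z, tm (rot Q z) = tm z
  bs_rot : ∀ Q z, bs (rot Q z) = bs z
  rot_trans : ∀ z z', tm z = tm z' → bs z = bs z' → ∃ Q, z' = rot Q z
  R : O3 → A →ₐ[ℝ] A
  ev_R : ∀ Q z f, ev z (R Q f) = ev (rot Q z) f
  R_D : ∀ Q i f, R Q (S.D i f) = ∑ j, (Q : Mat3) j i • S.D j (R Q f)
  R_T : ∀ Q f, R Q (S.T f) = S.T (R Q f)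
  R_P : ∀ Q i j, R Q (S.P i j) = ∑ k, ∑ l, ((Q : Mat3) k i * (Q : Mat3) l j) • S.P k l
  /-- the time function -/
  τ : A
  ev_τ : ∀ z, ev z τ = tm z
  T_τ : S.T τ = 1
  D_τ : ∀ i, S.D i τ = 0
  V_τ : ∀ n, S.V n τ = 0
  /-- functional calculus with smooth functions of one variable -/
  fc : ∀ (ψ : ℝ → ℝ) (U : Set ℝ), IsOpen U → ContDiffOn ℝ ∞ ψ U → ∀ f : A, (∀ z, ev z f ∈ U) →
    ∃ h : A, (∀ z, ev z h = ψ (ev z f)) ∧
      (∀ z, ev z (S.T h) = deriv ψ (ev z f) * ev z (S.T f)) ∧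
      (∀ z i, ev z (S.D i h) = deriv ψ (ev z f) * ev z (S.D i f)) ∧
      (∀ z n, ev z (S.V n h) = deriv ψ (ev z f) * ev z (S.V n f))
  /-- an element which is a function `u (t, p)` is continuous, also at `t = 0` -/
  cont : ∀ (f : A) (u : ℝ → M → ℝ), (∀ z, ev z f = u (tm z) (bs z)) →
    ContinuousOn (fun q : ℝ × M => u q.1 q.2) (Ico 0 b ×ˢ univ)
  /-- `T` is the time derivative on functions of `(t, p)` -/
  time_deriv : ∀ (f : A) (u : ℝ → M → ℝ), (∀ z, ev z f = u (tm z) (bs z)) →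
    ∀ z, 0 < tm z → HasDerivAt (fun s => u s (bs z)) (ev z (S.T f)) (tm z)
  /-- the maximum over the (compact) frame bundle over `[0, t₁]` is attained, and at a maximum
  with positive time the first and second order conditions hold -/
  exists_max : ∀ f : A, ∀ t₁ ∈ Ico 0 b, ∃ z, tm z ≤ t₁ ∧ (∀ z', tm z' ≤ t₁ → ev z' f ≤ ev z f) ∧
    (0 < tm z → 0 ≤ ev z (S.T f) ∧ (∀ i, ev z (S.D i f) = 0) ∧ ∀ i, ev z (S.D i (S.D i f)) ≤ 0)
  /-- the same for the maximum over the frame bundle at a fixed positive time -/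
  exists_max_slice : ∀ f : A, ∀ t ∈ Ico 0 b, ∃ z, tm z = t ∧
    (∀ z', tm z' = t → ev z' f ≤ ev z f) ∧
    (0 < t → (∀ i, ev z (S.D i f) = 0) ∧ ∀ i, ev z (S.D i (S.D i f)) ≤ 0)
  vol : ℝ → Measure M
  vol_fin : ∀ t ∈ Ico 0 b, IsFiniteMeasure (vol t)
  /-- the divergence theorem -/
  div_int : ∀ v : Fin 3 → A, (∀ Q i, R Q (v i) = ∑ j, (Q : Mat3) j i • v j) →
    ∀ u : ℝ → M → ℝ, (∀ z, ev z (∑ i, S.D i (v i)) = u (tm z) (bs z)) →
    ∀ t ∈ Ioo 0 b, ∫ p, u t p ∂(vol t) = 0
  /-- integrals depend continuously on the time, also at `t = 0` -/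
  int_cont : ∀ (f : A) (u : ℝ → M → ℝ), (∀ z, ev z f = u (tm z) (bs z)) →
    ContinuousOn (fun s => ∫ p, u s p ∂(vol s)) (Ico 0 b)
  /-- the derivative of an integral: `∂ₜ dv = - R dv`, `R = 2 tr P` -/
  int_deriv : ∀ (f : A) (u u' : ℝ → M → ℝ), (∀ z, ev z f = u (tm z) (bs z)) →
    (∀ z, ev z (S.T f - 2 * (∑ k, S.P k k) * f) = u' (tm z) (bs z)) →
    ∀ t ∈ Ioo 0 b, HasDerivAt (fun s => ∫ p, u s p ∂(vol s)) (∫ p, u' t p ∂(vol t)) t

end Pool.Agent.RFS
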