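import Mathlib

/-!
# Project RFS (MP_7221a0_gt): coordinate formulas for a metric

Literal coordinate formulas (Christoffel symbols, Ricci tensor, Schouten tensor) for a matrix
function `G` on Euclidean 3-space.
-/

noncomputable section

namespace Pool.Agent.RFS

/-- Euclidean 3-space, the model space. -/
abbrev E3 := EuclideanSpace ℝ (Fin 3)

/-- Real 3 x 3 matrices. -/
abbrev Mat3 := Matrix (Fin 3) (Fin 3) ℝ

/-- The standard basis vectors. -/
def bv (i : Fin 3) : E3 := EuclideanSpace.single i 1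

/-- The partial derivative `∂ᵢ f` at `x`. -/
def pd (i : Fin 3) (f : E3 → ℝ) (x : E3) : ℝ := fderiv ℝ f x (bv i)

/-! ### Part 1: coordinate formulas for a metric `G` -/

/-- Christoffel symbols `Γ^k_{ij}`. -/
def chr (G : E3 → Mat3) (x : E3) (k i j : Fin 3) : ℝ :=
  (1 / 2) * ∑ l, (G x)⁻¹ k l *
    (pd i (fun y => G y j l) x + pd j (fun y => G y i l) x - pd l (fun y => G y i j) x)

/-- The Ricci tensor `Ric_{jk}`. -/
def ricci (G : E3 → Mat3) (x : E3) : Mat3 :=
  Matrix.of fun j k => ∑ i, (pd i (fun y => chr G y i j k) x - pd j (fun y => chr G y i i k) x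
    + ∑ m, (chr G x i i m * chr G x m j k - chr G x i j m * chr G x m i k))

/-- The scalar curvature. -/
def scal (G : E3 → Mat3) (x : E3) : ℝ := ((G x)⁻¹ * ricci G x).trace

/-- The Schouten tensor `Ric - (R / 4) g`. -/
def schouten (G : E3 → Mat3) (x : E3) : Mat3 := ricci G x - (scal G x / 4) • G x

/-- `σ₁`: the sum of the eigenvalues of `g⁻¹ A`. -/
def sig1 (G : E3 → Mat3) (x : E3) : ℝ := ((G x)⁻¹ * schouten G x).trace

/-- `σ₂`: the second elementary symmetric function of the eigenvalues of `g⁻¹ A`. -/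
def sig2 (G : E3 → Mat3) (x : E3) : ℝ :=
  (((G x)⁻¹ * schouten G x).trace ^ 2
    - (((G x)⁻¹ * schouten G x) * ((G x)⁻¹ * schouten G x)).trace) / 2

end Pool.Agent.RFS
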