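import Mathlib

/-!
Project RFS, chunk (e): the real-number part of the main estimate.
-/

namespace RFSE

/-- elementary: `exp (-(c/ε)) ≤ 2 ε²/c²`. -/
lemma exp_small {c ε : ℝ} (hc : 0 < c) (hε : 0 < ε) :
    Real.exp (-(c / ε)) ≤ 2 * ε ^ 2 / c ^ 2 := by
  have h1 : 0 < c / ε := div_pos hc hε
  have h2 := Real.quadratic_le_exp_of_nonneg h1.le
  rw [Real.exp_neg]
  rw [inv_le_comm₀ (Real.exp_pos _) (by positivity)]
  have : (2 * ε ^ 2 / c ^ 2)⁻¹ = (c / ε) ^ 2 / 2 := by
    field_simp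
  rw [this]
  linarith

/-- Everything that the maximum principle gives at an interior maximum of `Z`,
in terms of real numbers. -/
structure MaxData (k C Kϕ c z0 ε P Q w q h lw al gh lh A : ℝ) : Prop where
  P0 : 0 < P
  P1 : k * P ≤ 1
  PQ : Q ^ 2 = 4 * P * (1 - k * P)
  Z : z0 ≤ P * w - Q
  wC : w ≤ C
  h0 : 0 < h
  h1 : h ≤ 2 * ε ^ 2 / c ^ 2
  hq : q = 1 + ε * w - h
  /-- `ΔZ ≤ 0`; `lw = Δw` -/
  hlw : P * lw ≤ 2 * Q * ((Q * w - (2 - 4 * k * P)) / P) * q -
    w * ((2 - 4 * k * P) * q + Q * w) + (-4 * k * Q * q + (2 - 4 * k * P) * w)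
  /-- `gh = <∇u,∇h>` -/
  hgh : |gh| ≤ h / ε * (2 * q + Kϕ)
  /-- `lh = Δh` -/
  hlh : -lh ≤ h / ε * (|w| + Kϕ)
  hal : al * q = -(1 / 2) * ε * ((Q * w - (2 - 4 * k * P)) / P) * q - gh / 2
  hA : (w - al) ^ 2 ≤ A
  hB : A - 2 * ((Q * w - (2 - 4 * k * P)) / P) * q + 4 * k * q ≤ ε * lw - lh

theorem maxData_absurd {k C Kϕ c z0 : ℝ} (hk : 0 < k) (hC : 0 ≤ C) (hK : 0 ≤ Kϕ) (hc : 0 < c)
    (hz : 0 < z0) : ∃ ε0 > 0, ∀ ε P Q w q h lw al gh lh A, 0 < ε → ε < ε0 →
      ¬ MaxData k C Kϕ c z0 ε P Q w q h lw al gh lh A := by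
  have hsk : 0 < √k := Real.sqrt_pos.2 hk
  set r0 : ℝ := z0 / (C / √k + 2) with hr0
  have hr0p : 0 < r0 := by positivity
  set W : ℝ := C + 2 / r0 with hW
  have hWp : 0 < W := by positivity
  set P0 : ℝ := r0 ^ 2 with hP0
  have hP0p : 0 < P0 := by positivity
  set B : ℝ := 2 / √k with hB
  have hBp : 0 < B := by positivity
  set X : ℝ := (B * W + 2) / P0 with hX
  have hXp : 0 < X := by positivity
  set E1 : ℝ := W + 2 / c ^ 2 with hE1
  have hE1p : 0 < E1 := by positivity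
  set G1 : ℝ := 2 / c ^ 2 * (3 + Kϕ) with hG1
  have hG1p : 0 < G1 := by positivity
  set A1 : ℝ := X / 2 + G1 with hA1
  have hA1p : 0 < A1 := by positivity
  set L1 : ℝ := (2 * B * X * (3 / 2) + W * (2 * (3 / 2) + B * W) + (4 * k * B * (3 / 2) + 2 * W)) / P0
    with hL1
  have hL1p : 0 < L1 := by positivity
  set H1 : ℝ := 2 / c ^ 2 * (W + Kϕ) with hH1
  have hH1p : 0 < H1 := by positivity
  set K : ℝ := 2 * W * A1 + (4 * k + 2 * X) * E1 + L1 + H1 with hKdef
  have hKp : 0 < K := by positivity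
  refine ⟨min 1 (min (1 / (2 * E1)) (z0 ^ 2 * k ^ 2 / K)), by positivity, ?_⟩
  intro ε P Q w q h lw al gh lh A hε hε0 D
  have e1 : ε < 1 := lt_of_lt_of_le hε0 (min_le_left _ _)
  have e2 : ε < 1 / (2 * E1) := lt_of_lt_of_le hε0 ((min_le_right _ _).trans (min_le_left _ _))
  have e3 : ε < z0 ^ 2 * k ^ 2 / K :=
    lt_of_lt_of_le hε0 ((min_le_right _ _).trans (min_le_right _ _))
  have e2' : ε * E1 < 1 / 2 := by
    rw [lt_div_iff₀ (by positivity)] at e2
    linarith
  have e3' : ε * K < z0 ^ 2 * k ^ 2 := by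
    rwa [lt_div_iff₀ hKp] at e3
  obtain ⟨dP0, dP1, dPQ, dZ, dwC, dh0, dh1, dq, dlw, dgh, dlh, dal, dA, dB⟩ := D
  -- the square root of P
  set r : ℝ := √P with hr
  have hrp : 0 < r := Real.sqrt_pos.2 dP0
  have hr2 : r ^ 2 = P := Real.sq_sqrt dP0.le
  have hQabs : |Q| ≤ 2 * r := by
    rw [← abs_of_pos (show (0 : ℝ) < 2 * r by positivity)]
    rw [← sq_le_sq]
    have h1 : 0 ≤ 4 * P * (k * P) := by positivity
    have h2 : (2 * r) ^ 2 = 4 * P := by rw [mul_pow, hr2]; norm_num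
    rw [h2, dPQ]
    have h3 : 4 * P * (1 - k * P) = 4 * P - 4 * P * (k * P) := by ring
    linarith
  have hkr : √k * r ≤ 1 := by
    rw [← Real.sqrt_mul hk.le]
    exact Real.sqrt_le_one.2 dP1 |>.trans le_rfl
  have hr1 : r ≤ 1 / √k := by
    rw [le_div_iff₀ hsk]; linarith
  have hQB : |Q| ≤ B := by
    refine hQabs.trans ?_
    rw [hB]
    calc 2 * r ≤ 2 * (1 / √k) := by linarith
      _ = 2 / √k := by ring
  have hrr0 : r0 ≤ r := by
    rw [hr0, div_le_iff₀ (by positivity)]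
    have h1 : P * w ≤ P * C := mul_le_mul_of_nonneg_left dwC dP0.le
    have h2 : P * C ≤ r * (C / √k) := by
      rw [← hr2]
      have h5 : r * C ≤ C / √k := by
        rw [le_div_iff₀ hsk]
        have h6 := mul_le_mul_of_nonneg_left hkr hC
        linarith
      have h7 := mul_le_mul_of_nonneg_left h5 hrp.le
      have h8 : r ^ 2 * C = r * (r * C) := by ring
      linarith
    have h3 := neg_abs_le Q
    have h4 : r * (C / √k + 2) = r * (C / √k) + 2 * r := by ring
    rw [h4]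
    have h5 := neg_le_of_abs_le hQabs
    linarith
  have hPP0 : P0 ≤ P := by
    rw [hP0, ← hr2]
    exact pow_le_pow_left₀ hr0p.le hrr0 2
  have hwlow : -(2 / r0) ≤ w := by
    have h1 : -(2 * r) ≤ Q := neg_le_of_abs_le hQabs
    have h2 : -(2 * r) ≤ P * w := by linarith
    have h3 : -(2 / r) ≤ w := by
      rw [← hr2] at h2
      have h4 : r ^ 2 * -(2 / r) = -(2 * r) := by field_simp
      rw [← h4] at h2
      exact le_of_mul_le_mul_left h2 (by positivity)
    have h5 : 2 / r ≤ 2 / r0 := by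
      apply div_le_div_of_nonneg_left _ hr0p hrr0
      norm_num
    linarith
  have hwabs : |w| ≤ W := by
    rw [abs_le]
    constructor
    · rw [hW]; linarith
    · rw [hW]
      have : 0 < 2 / r0 := by positivity
      linarith
  have hkPabs : |2 - 4 * k * P| ≤ 2 := by
    rw [abs_le]
    have := mul_pos hk dP0
    constructor <;> linarith
  set Ξ : ℝ := (Q * w - (2 - 4 * k * P)) / P with hΞ
  have hΞabs : |Ξ| ≤ X := by
    rw [hΞ, hX, abs_div, abs_of_pos dP0]
    apply div_le_div₀ (by positivity) _ hP0p hPP0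
    calc |Q * w - (2 - 4 * k * P)| ≤ |Q * w| + |2 - 4 * k * P| := abs_sub _ _
      _ ≤ B * W + 2 := by
        rw [abs_mul]
        have := mul_le_mul hQB hwabs (abs_nonneg _) hBp.le
        linarith
  have hhe : h / ε ≤ 2 / c ^ 2 * ε := by
    rw [div_le_iff₀ hε]
    calc h ≤ 2 * ε ^ 2 / c ^ 2 := dh1
      _ = 2 / c ^ 2 * ε * ε := by ring
  have hhe0 : 0 ≤ h / ε := (div_pos dh0 hε).le
  have hhE : h ≤ ε * (2 / c ^ 2) := by
    have : h ≤ 2 / c ^ 2 * ε * ε := by
      rw [div_le_iff₀ hε] at hhe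
      exact hhe
    have h2 : 2 / c ^ 2 * ε * ε ≤ 2 / c ^ 2 * ε * 1 :=
      mul_le_mul_of_nonneg_left e1.le (by positivity)
    linarith
  have hq1 : |q - 1| ≤ ε * E1 := by
    rw [dq, abs_le]
    have a1 := neg_le_of_abs_le hwabs
    have a2 := le_of_abs_le hwabs
    have a3 := mul_le_mul_of_nonneg_left a1 hε.le
    have a4 := mul_le_mul_of_nonneg_left a2 hε.le
    have a5 : 0 < ε * (2 / c ^ 2) := by positivity
    have a6 : ε * E1 = ε * W + ε * (2 / c ^ 2) := by rw [hE1]; ring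
    have a7 : ε * -W = -(ε * W) := by ring
    rw [a7] at a3
    constructor
    · linarith
    · linarith
  have hq2 : 1 / 2 ≤ q := by
    have := neg_le_of_abs_le hq1
    linarith
  have hq3 : q ≤ 3 / 2 := by
    have := le_of_abs_le hq1
    linarith
  have hgh : |gh| ≤ ε * G1 := by
    refine dgh.trans ?_
    calc h / ε * (2 * q + Kϕ) ≤ (2 / c ^ 2 * ε) * (3 + Kϕ) :=
          mul_le_mul hhe (by linarith) (by linarith) (by positivity)
      _ = ε * G1 := by rw [hG1]; ring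
  have hqp : 0 < q := by linarith
  have halabs : |al| ≤ ε * A1 := by
    have h1 : al = -(1 / 2) * ε * Ξ - gh / (2 * q) := by
      have : al * q = (-(1 / 2) * ε * Ξ - gh / (2 * q)) * q := by
        rw [dal]; field_simp
      exact mul_right_cancel₀ hqp.ne' this
    rw [h1]
    have h2 : |(-(1 / 2) * ε * Ξ)| ≤ ε * (X / 2) := by
      rw [abs_mul, abs_mul, abs_of_pos hε]
      have : |(-(1 / 2 : ℝ))| = 1 / 2 := by norm_num [abs_of_neg]
      rw [this]
      have := mul_le_mul_of_nonneg_left hΞabs hε.le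
      linarith
    have h3 : |gh / (2 * q)| ≤ ε * G1 := by
      rw [abs_div, abs_of_pos (show (0 : ℝ) < 2 * q by linarith)]
      rw [div_le_iff₀ (by linarith)]
      have : ε * G1 * 1 ≤ ε * G1 * (2 * q) :=
        mul_le_mul_of_nonneg_left (by linarith) (by positivity)
      linarith
    calc |(-(1 / 2) * ε * Ξ - gh / (2 * q))| ≤ |(-(1 / 2) * ε * Ξ)| + |gh / (2 * q)| := abs_sub _ _
      _ ≤ ε * A1 := by rw [hA1]; linarith
  have hlw : lw ≤ L1 := by
    have h1 : P * lw ≤ 2 * B * X * (3 / 2) + W * (2 * (3 / 2) + B * W) +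
        (4 * k * B * (3 / 2) + 2 * W) := by
      refine dlw.trans ?_
      have b1 : 2 * Q * Ξ * q ≤ 2 * B * X * (3 / 2) := by
        have : |2 * Q * Ξ * q| ≤ 2 * B * X * (3 / 2) := by
          rw [abs_mul, abs_mul, abs_mul, abs_of_pos hqp, abs_two]
          gcongr
        exact le_of_abs_le this
      have b2 : -(w * ((2 - 4 * k * P) * q + Q * w)) ≤ W * (2 * (3 / 2) + B * W) := by
        have : |w * ((2 - 4 * k * P) * q + Q * w)| ≤ W * (2 * (3 / 2) + B * W) := by
          rw [abs_mul]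
          gcongr
          refine (abs_add_le _ _).trans ?_
          rw [abs_mul, abs_mul, abs_of_pos hqp]
          gcongr
        have := neg_le_of_abs_le this
        linarith
      have b3 : -4 * k * Q * q ≤ 4 * k * B * (3 / 2) := by
        have : |-4 * k * Q * q| ≤ 4 * k * B * (3 / 2) := by
          rw [abs_mul, abs_mul, abs_mul, abs_of_pos hqp, abs_of_pos hk]
          have : |(-4 : ℝ)| = 4 := by norm_num
          rw [this]
          gcongr
        exact le_of_abs_le this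
      have b4 : (2 - 4 * k * P) * w ≤ 2 * W := by
        have : |(2 - 4 * k * P) * w| ≤ 2 * W := by
          rw [abs_mul]
          gcongr
        exact le_of_abs_le this
      linarith
    by_contra hcon
    push Not at hcon
    have h2 : P0 * L1 ≤ P * L1 := mul_le_mul_of_nonneg_right hPP0 hL1p.le
    have h3 : P * L1 < P * lw := mul_lt_mul_of_pos_left hcon dP0
    have h4 : P0 * L1 = 2 * B * X * (3 / 2) + W * (2 * (3 / 2) + B * W) +
        (4 * k * B * (3 / 2) + 2 * W) := by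
      rw [hL1]; field_simp
    linarith
  have hlh : -lh ≤ ε * H1 := by
    refine dlh.trans ?_
    calc h / ε * (|w| + Kϕ) ≤ (2 / c ^ 2 * ε) * (W + Kϕ) :=
          mul_le_mul hhe (by linarith) (by positivity) (by positivity)
      _ = ε * H1 := by rw [hH1]; ring
  -- final inequality
  have hfin : w ^ 2 + 4 * k - 2 * Ξ ≤ ε * K := by
    have h1 : w ^ 2 - 2 * W * (ε * A1) ≤ A := by
      have : w ^ 2 - 2 * (|w| * |al|) ≤ (w - al) ^ 2 := by
        have h2 : w * al ≤ |w| * |al| := by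
          rw [← abs_mul]; exact le_abs_self _
        have h2' : (w - al) ^ 2 = w ^ 2 - 2 * (w * al) + al ^ 2 := by ring
        have h2'' := sq_nonneg al
        linarith
      have h3 : |w| * |al| ≤ W * (ε * A1) := mul_le_mul hwabs halabs (abs_nonneg _) hWp.le
      have h3' : 2 * W * (ε * A1) = 2 * (W * (ε * A1)) := by ring
      linarith
    have h2 : (4 * k - 2 * Ξ) * q ≥ (4 * k - 2 * Ξ) - (4 * k + 2 * X) * (ε * E1) := by
      have h3 : |(4 * k - 2 * Ξ) * (q - 1)| ≤ (4 * k + 2 * X) * (ε * E1) := by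
        rw [abs_mul]
        apply mul_le_mul _ hq1 (abs_nonneg _) (by positivity)
        calc |4 * k - 2 * Ξ| ≤ |4 * k| + |2 * Ξ| := abs_sub _ _
          _ ≤ 4 * k + 2 * X := by
            rw [abs_of_pos (by positivity : (0 : ℝ) < 4 * k), abs_mul, abs_two]
            linarith
      have h4 := neg_le_of_abs_le h3
      have h4' : (4 * k - 2 * Ξ) * q = (4 * k - 2 * Ξ) + (4 * k - 2 * Ξ) * (q - 1) := by ring
      linarith
    have h5 := mul_le_mul_of_nonneg_left hlw hε.le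
    have h6 : ε * K = 2 * W * (ε * A1) + (4 * k + 2 * X) * (ε * E1) + ε * L1 + ε * H1 := by
      rw [hKdef]; ring
    have h7 : (4 * k - 2 * Ξ) * q = 4 * k * q - 2 * Ξ * q := by ring
    linarith
  have hid : w ^ 2 + 4 * k - 2 * Ξ = ((P * w - Q) / P) ^ 2 := by
    rw [hΞ]
    field_simp
    linear_combination (-1 : ℝ) * dPQ
  have hge : z0 * k ≤ (P * w - Q) / P := by
    rw [le_div_iff₀ dP0]
    calc z0 * k * P = z0 * (k * P) := by ring
      _ ≤ z0 * 1 := mul_le_mul_of_nonneg_left dP1 hz.le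
      _ ≤ P * w - Q := by linarith
  have hsq : z0 ^ 2 * k ^ 2 ≤ ((P * w - Q) / P) ^ 2 := by
    rw [← mul_pow]
    exact pow_le_pow_left₀ (by positivity) hge 2
  rw [hid] at hfin
  linarith

end RFSE
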