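import Pool.Agent.RFS.EModel

/-!
Project RFS, chunk (e), module EEnd (Mathlib only): the behaviour of `P`, `Q` near the end
`a + π/√k` (trigonometry).

PROOF. Put `s = a + π/√k - t`, `z = √k s`, `0 ≤ z ≤ 1/2`. `PP k a t = sin² z/k`,
`QQ k a t = -sin(2z)/√k` (`sin(2(π - z)) = -sin 2z`).
(1) `t` with `σ ≤ s ≤ σ0`, `√k σ0 ≤ 1/2`: `sin(2z) ≥ 1.6 z` (for `0 ≤ 2z ≤ 1`, `sin y ≥ 0.8 y`,
from `Real.sin_gt_sub_cube` or concavity), so `QQ ≤ -1.6 s ≤ -1.6 σ`, and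
`P w ≤ Q + σ/2 < 0` gives `w ≤ 0` (here `P > 0`).
(2) `s = σ`: `P ≤ σ²` (`sin z ≤ z`), `P w ≤ Q + σ/2 ≤ -1.6 σ + σ/2 = -1.1 σ`, so `w < 0` and
`w ≤ -1.1 σ/P ≤ -1.1/σ ≤ -1/σ`.
-/

namespace RFSE

private lemma eend_model {k a t σ : ℝ} (hk : 0 < k) (hσ : 0 < σ)
    (h1 : √k * (a + Real.pi / √k - t) ≤ 1 / 2) (h2 : t ≤ a + Real.pi / √k - σ) :
    0 < PP k a t ∧ PP k a t ≤ (a + Real.pi / √k - t) ^ 2 ∧ QQ k a t ≤ -(3 / 2) * σ := by
  have hk4 : 0 < √k := Real.sqrt_pos.2 hk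
  set s := a + Real.pi / √k - t with hs
  have hsσ : σ ≤ s := by rw [hs]; linarith
  have hz0 : 0 < √k * s := mul_pos hk4 (by linarith)
  have harg : √k * (t - a) = Real.pi - √k * s := by
    rw [hs]; field_simp; ring
  have hsq : √k ^ 2 = k := Real.sq_sqrt hk.le
  have hpi := Real.pi_gt_three
  have hsin : 0 < Real.sin (√k * s) := Real.sin_pos_of_pos_of_lt_pi hz0 (by linarith)
  have hsin2 : Real.sin (√k * s) ≤ √k * s := Real.sin_le hz0.le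
  have hP : PP k a t = Real.sin (√k * s) ^ 2 / k := by
    unfold PP; rw [harg, Real.sin_pi_sub]
  have hQ : QQ k a t = -Real.sin (2 * (√k * s)) / √k := by
    unfold QQ
    rw [harg, show 2 * (Real.pi - √k * s) = 2 * Real.pi - 2 * (√k * s) by ring,
      Real.sin_two_pi_sub]
  refine ⟨?_, ?_, ?_⟩
  · rw [hP]; positivity
  · rw [hP, div_le_iff₀ hk]
    calc Real.sin (√k * s) ^ 2 ≤ (√k * s) ^ 2 := pow_le_pow_left₀ hsin.le hsin2 2
      _ = s ^ 2 * k := by rw [mul_pow, hsq]; ring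
  · rw [hQ, div_le_iff₀ hk4]
    have h3 : 0 < 2 * (√k * s) := by linarith
    have h4 : 2 * (√k * s) ≤ 1 := by linarith
    have h5 := Real.sin_gt_sub_cube h3
    have h6 : (2 * (√k * s)) ^ 3 ≤ 2 * (√k * s) := by
      have : (2 * (√k * s)) ^ 2 ≤ 1 := pow_le_one₀ h3.le h4
      calc (2 * (√k * s)) ^ 3 = (2 * (√k * s)) ^ 2 * (2 * (√k * s)) := by ring
        _ ≤ 1 * (2 * (√k * s)) := mul_le_mul_of_nonneg_right this h3.le
        _ = _ := one_mul _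
    have h7 : σ * √k ≤ s * √k := mul_le_mul_of_nonneg_right hsσ hk4.le
    linarith

theorem end_neg {k a t w σ σ0 : ℝ} (hk : 0 < k) (hσ : 0 < σ) (hσ0 : √k * σ0 ≤ 1 / 2)
    (h1 : a + Real.pi / √k - σ0 ≤ t) (h2 : t ≤ a + Real.pi / √k - σ)
    (hw : PP k a t * w - QQ k a t ≤ σ / 2) : w ≤ 0 := by
  have hk4 : 0 < √k := Real.sqrt_pos.2 hk
  have h3 : √k * (a + Real.pi / √k - t) ≤ 1 / 2 :=
    (mul_le_mul_of_nonneg_left (by linarith) hk4.le).trans hσ0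
  obtain ⟨hP, -, hQ⟩ := eend_model hk hσ h3 h2
  by_contra hc
  push Not at hc
  have := mul_pos hP hc
  linarith

theorem end_sigma {k a t w σ : ℝ} (hk : 0 < k) (hσ : 0 < σ) (hσ0 : √k * σ ≤ 1 / 2)
    (h1 : t = a + Real.pi / √k - σ)
    (hw : PP k a t * w - QQ k a t ≤ σ / 2) : w ≤ -(1 / σ) := by
  have hs : a + Real.pi / √k - t = σ := by rw [h1]; ring
  obtain ⟨hP, hP2, hQ⟩ := eend_model (t := t) (a := a) hk hσ (by rw [hs]; exact hσ0) h1.le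
  rw [hs] at hP2
  have h4 : PP k a t * w ≤ -σ := by linarith
  by_contra hc
  push Not at hc
  have h5 : -(1 / σ) * PP k a t < w * PP k a t := mul_lt_mul_of_pos_right hc hP
  have h6 : -(1 / σ) * σ ^ 2 ≤ -(1 / σ) * PP k a t := by
    apply mul_le_mul_of_nonpos_left hP2
    have : 0 < 1 / σ := by positivity
    linarith
  have h7 : -(1 / σ) * σ ^ 2 = -σ := by field_simp
  linarith

end RFSE
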