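import Pool.Agent.RFS.ENot

/-!
Project RFS, chunk (e), module EFar.

If `Δu ≤ -β` on the level `{u = s}` and `Ric ≥ κ0 > 0` on `M`, then `Δu ≤ -β` on `{u ≥ s}`
(for small `ε`).

PROOF. Let `K = {x | s ≤ u x}` (compact; if empty, nothing to do), `y` a maximum of `w = Δu` on
`K`; suppose `w y > -β`. Then `u y ≠ s`, so `u y > s` and `y` is a local maximum of `w`, hence
`d w = 0`, `Δw ≤ 0` at `y` (`G.locmax`). Bochner (`G.bochner'`), `V.lap_gam`, `V.lap_h`: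
`2 |A|² + 0 + 2 Ric(∇u,∇u) = ε Δw - Δh ≤ -Δh ≤ (h/ε) (|w| + Kϕ)` with
`h = exp((u-ϕ)/ε) ≤ exp(-c/ε) ≤ 2 ε²/c²` (`exp_small`). `|w| ≤ β + C`.
`q = |∇u|² = 1 + ε w - h ≥ 1 - ε β - 2 ε²/c² ≥ 1/2` for small `ε`, so
`κ0 ≤ 2 κ0 q ≤ (2 ε/c²) (β + C + Kϕ)`, impossible for small `ε`.
(The proof of `maxData_of_locmax` in EMain.lean has the same computations.)
-/

namespace RFSE

open MeasureTheory Filter Topology

variable {M : Type*} [TopologicalSpace M] [MeasurableSpace M]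

theorem far_est [CompactSpace M] (G : SG M) {κ0 C Kϕ c β : ℝ} (hκ : 0 < κ0) (hC : 0 ≤ C)
    (hK : 0 ≤ Kϕ) (hc : 0 < c) (hβ : 0 < β) :
    ∃ ε0 > 0, ∀ ε, ε < ε0 → ∀ (u ϕ : M → ℝ) (s : ℝ), Visc G ε u ϕ →
      (∀ x, G.lap u x ≤ C) → (∀ x, |G.lap ϕ x| ≤ Kϕ) → (∀ x, G.RicGe κ0 x) →
      (∀ x, s ≤ u x → c ≤ ϕ x - u x) → (∀ x, u x = s → G.lap u x ≤ -β) →
      ∀ x, s ≤ u x → G.lap u x ≤ -β := by
  have hb : 0 < β + Kϕ := by linarith
  refine ⟨min (min (1 / (4 * β)) (c / 4)) (κ0 * c ^ 2 / (2 * (β + Kϕ))),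
    lt_min (lt_min (by positivity) (by positivity)) (by positivity), ?_⟩
  intro ε hε u ϕ s V hCu hKϕ hR hsep hlev x hx
  by_contra hcon
  push Not at hcon
  have hε0 := V.eps
  have hε1 : ε < 1 / (4 * β) := hε.trans_le ((min_le_left _ _).trans (min_le_left _ _))
  have hε2 : ε < c / 4 := hε.trans_le ((min_le_left _ _).trans (min_le_right _ _))
  have hε3 : ε < κ0 * c ^ 2 / (2 * (β + Kϕ)) := hε.trans_le (min_le_right _ _)
  have hK : IsCompact {x | s ≤ u x} := (isClosed_le continuous_const V.cu).isCompact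
  obtain ⟨y, hyK, hy⟩ := hK.exists_isMaxOn ⟨x, hx⟩ V.clap.continuousOn
  have hy' : ∀ z, s ≤ u z → G.lap u z ≤ G.lap u y := fun z hz => hy hz
  have hwy : -β < G.lap u y := hcon.trans_le (hy' x hx)
  have huy : s < u y :=
    lt_of_le_of_ne hyK (fun e => absurd (hlev y e.symm) (not_le.2 hwy))
  have hloc : IsLocalMax (G.lap u) y := by
    filter_upwards [(isOpen_lt continuous_const V.cu).mem_nhds huy] with z hz
    exact hy' z (le_of_lt hz)
  have hw := G.lap_mem' V.hu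
  obtain ⟨h1, h2⟩ := G.locmax _ hw y hloc
  have h2' : G.lap (G.lap u) y ≤ 0 := h2
  have hbo := G.bochner' V.hu y
  rw [V.lap_gam, V.lap_h] at hbo
  have h3 : G.gam u (G.lap u) y = 0 := by simp [SG.gam, h1]
  rw [h3] at hbo
  have h4 : κ0 * G.gam u u y ≤ ∑ i, ∑ j, G.Ric y i j * (G.d y i u * G.d y j u) :=
    hR y (fun i => G.d y i u)
  have h5 : 0 ≤ ∑ i, ∑ j, G.H y i j u ^ 2 :=
    Finset.sum_nonneg fun i _ => Finset.sum_nonneg fun j _ => sq_nonneg _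
  have hq := V.eq y
  set h := Real.exp ((u y - ϕ y) / ε) with hh
  have hh0 : 0 < h := Real.exp_pos _
  have hhs : h ≤ Real.exp (-(c / ε)) := by
    rw [hh]
    apply Real.exp_le_exp.2
    rw [div_le_iff₀ hε0]
    have e1 : -(c / ε) * ε = -c := by field_simp
    rw [e1]
    have := hsep y hyK
    linarith
  have hhe := hhs.trans (exp_small hc hε0)
  have hg : 0 ≤ G.gam (fun y => u y - ϕ y) (fun y => u y - ϕ y) y / ε ^ 2 :=
    div_nonneg (G.gam_self_nonneg _ _) (sq_nonneg _)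
  have hlϕ := (abs_le.1 (hKϕ y)).2
  -- the main inequality
  have h6 : 2 * (κ0 * G.gam u u y) ≤ h * ((β + Kϕ) / ε) := by
    have e1 : ε * G.lap (G.lap u) y ≤ 0 := mul_nonpos_of_nonneg_of_nonpos hε0.le h2'
    have e2 : -((β + Kϕ) / ε) ≤ (G.lap u y - G.lap ϕ y) / ε := by
      rw [← neg_div]
      exact div_le_div_of_nonneg_right (by linarith) hε0.le
    have e3 : h * -((β + Kϕ) / ε) ≤ h * ((G.lap u y - G.lap ϕ y) / ε +
        G.gam (fun y => u y - ϕ y) (fun y => u y - ϕ y) y / ε ^ 2) :=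
      mul_le_mul_of_nonneg_left (by linarith) hh0.le
    linarith
  have h7 : h * ((β + Kϕ) / ε) ≤ 2 * ε ^ 2 / c ^ 2 * ((β + Kϕ) / ε) :=
    mul_le_mul_of_nonneg_right hhe (by positivity)
  have h8 : 2 * ε ^ 2 / c ^ 2 * ((β + Kϕ) / ε) = 2 * ε * (β + Kϕ) / c ^ 2 := by
    field_simp
  have h9 : 2 * ε * (β + Kϕ) / c ^ 2 < κ0 := by
    rw [div_lt_iff₀ (by positivity)]
    rw [lt_div_iff₀ (by positivity)] at hε3
    linarith
  have h10 : ε * β < 1 / 4 := by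
    rw [lt_div_iff₀ (by positivity)] at hε1
    linarith
  have h11 : 2 * ε ^ 2 / c ^ 2 ≤ 1 / 8 := by
    rw [div_le_iff₀ (by positivity)]
    nlinarith
  have h12 : -(1 / 4) ≤ ε * G.lap u y := by
    have := mul_lt_mul_of_pos_left hwy hε0
    linarith
  have h13 : 1 / 2 ≤ G.gam u u y := by linarith
  have h14 : κ0 * (1 / 2) ≤ κ0 * G.gam u u y := mul_le_mul_of_nonneg_left h13 hκ.le
  linarith

end RFSE
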