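import Pool.Agent.RFS.ENot

/-!
Project RFS, chunk (e), module EMeas.

PROOF. `χ t = Real.smoothTransition ((t - s0)/(s1 - s0))`: smooth, `0 ≤ χ ≤ 1`, `χ = 0` for
`t ≤ s0`, `χ = 1` for `t ≥ s1`, `0 ≤ χ' ≤ K/(s1 - s0)`, `K` a bound for the derivative of
`Real.smoothTransition` (continuous with compact support; monotone). Let `X` be a primitive of
`χ` (`X t = ∫ s in 0..t, χ s`, smooth). `G.lap_comp`: `Δ(X(u)) = χ'(u) q + χ(u) w`, and its
integral is zero (`G.int_lap'`). So `∫ χ(u) (-w) = ∫ χ'(u) q ≤ 2 (K/(s1-s0)) μ(M)`. On the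
support of `χ(u)` (`u > s0`) we have `w ≤ 0` (if `u ≤ s2`) and `w ≤ -1/σ` (if `u ≥ s2`), where
`χ(u) = 1` since `s2 ≥ s1`. So `∫ χ(u)(-w) ≥ (1/σ) μ{u ≥ s2}`.
-/

namespace RFSE

open MeasureTheory Filter Topology

variable {M : Type*} [TopologicalSpace M] [MeasurableSpace M]

private theorem st_bound : ∃ K : ℝ, 0 < K ∧ ∀ t, deriv Real.smoothTransition t ≤ K := by
  have hc : Continuous (deriv Real.smoothTransition) :=
    (Real.smoothTransition.contDiff (n := 1)).continuous_deriv le_rfl
  obtain ⟨K, hK⟩ := (isCompact_Icc (a := (-1 : ℝ)) (b := 2)).exists_bound_of_continuousOn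
    hc.continuousOn
  refine ⟨|K| + 1, by positivity, fun t => ?_⟩
  by_cases h1 : t < 0
  · have h2 : Real.smoothTransition =ᶠ[𝓝 t] fun _ => 0 := by
      filter_upwards [isOpen_Iio.mem_nhds (show t ∈ Set.Iio (0 : ℝ) from h1)] with z hz
      exact Real.smoothTransition.zero_of_nonpos (le_of_lt hz)
    rw [h2.deriv_eq, deriv_const]
    positivity
  · by_cases h3 : 1 < t
    · have h2 : Real.smoothTransition =ᶠ[𝓝 t] fun _ => 1 := by
        filter_upwards [isOpen_Ioi.mem_nhds (show t ∈ Set.Ioi (1 : ℝ) from h3)] with z hz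
        exact Real.smoothTransition.one_of_one_le (le_of_lt hz)
      rw [h2.deriv_eq, deriv_const]
      positivity
    · push Not at h1 h3
      have h4 := hK t ⟨by linarith, by linarith⟩
      rw [Real.norm_eq_abs] at h4
      have h5 := le_abs_self (deriv Real.smoothTransition t)
      have h6 := le_abs_self K
      linarith

private theorem prim (s0 s1 : ℝ) :
    ∃ X : ℝ → ℝ, ContDiff ℝ (⊤ : ℕ∞) X ∧
      (∀ t, deriv X t = Real.smoothTransition ((t - s0) / (s1 - s0))) ∧
      ∀ t, deriv (deriv X) t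
        = deriv Real.smoothTransition ((t - s0) / (s1 - s0)) / (s1 - s0) := by
  set χ : ℝ → ℝ := fun t => Real.smoothTransition ((t - s0) / (s1 - s0)) with hχ
  have hχs : ContDiff ℝ (⊤ : ℕ∞) χ :=
    Real.smoothTransition.contDiff.comp ((contDiff_id.sub contDiff_const).div_const _)
  have hX : ∀ t, HasDerivAt (fun t => ∫ r in (0 : ℝ)..t, χ r) (χ t) t := fun t =>
    intervalIntegral.integral_hasDerivAt_right (hχs.continuous.intervalIntegrable _ _)
      (hχs.continuous.stronglyMeasurableAtFilter _ _) hχs.continuous.continuousAt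
  have hd : deriv (fun t => ∫ r in (0 : ℝ)..t, χ r) = χ := funext fun t => (hX t).deriv
  refine ⟨fun t => ∫ r in (0 : ℝ)..t, χ r, ?_, fun t => (hX t).deriv, fun t => ?_⟩
  · rw [contDiff_infty_iff_deriv, hd]
    exact ⟨fun t => (hX t).differentiableAt, hχs⟩
  · rw [hd]
    have h1 : HasDerivAt (fun t : ℝ => (t - s0) / (s1 - s0)) (1 / (s1 - s0)) t :=
      ((hasDerivAt_id t).sub_const s0).div_const _
    have h2 : HasDerivAt Real.smoothTransition
        (deriv Real.smoothTransition ((t - s0) / (s1 - s0))) ((t - s0) / (s1 - s0)) :=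
      ((Real.smoothTransition.contDiff (n := 1)).differentiable (by simp) _).hasDerivAt
    have h3 := h2.comp t h1
    have h4 : deriv χ t = _ := h3.deriv
    rw [h4]
    ring

theorem meas_est [CompactSpace M] [BorelSpace M] (G : SG M) :
    ∃ K0 : ℝ, 0 < K0 ∧ ∀ (u : M → ℝ) (s0 s1 s2 σ : ℝ), u ∈ G.S → s0 < s1 → s1 ≤ s2 → 0 < σ →
      (∀ x, G.gam u u x ≤ 2) → (∀ x, s0 ≤ u x → u x ≤ s2 → G.lap u x ≤ 0) →
      (∀ x, s2 ≤ u x → G.lap u x ≤ -(1 / σ)) →
      G.μ.real {x | s2 ≤ u x} ≤ K0 * σ / (s1 - s0) * G.μ.real Set.univ := by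
  obtain ⟨K, hK, hKb⟩ := st_bound
  refine ⟨2 * K, by positivity, ?_⟩
  intro u s0 s1 s2 σ hu h01 h12 hσ hgam hle hneg
  have : IsFiniteMeasure G.μ := G.fin
  have hcu := G.cont u hu
  obtain ⟨X, hXs, hX1, hX2⟩ := prim s0 s1
  have hXu : (fun x => X (u x)) ∈ G.S := G.comp_mem u hu X fun x => hXs.contDiffAt
  have hint := G.int_lap' hXu
  have hpos : 0 < s1 - s0 := by linarith
  set A : Set M := {x | s2 ≤ u x} with hA
  have hAm : MeasurableSet A := (isClosed_le continuous_const hcu).measurableSet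
  have hpt : ∀ x, G.lap (fun y => X (u y)) x
      ≤ 2 * K / (s1 - s0) - (1 / σ) * A.indicator (fun _ => (1 : ℝ)) x := by
    intro x
    rw [G.lap_comp hu (fun x => hXs.contDiffAt), hX2, hX1]
    have e1 : deriv Real.smoothTransition ((u x - s0) / (s1 - s0)) / (s1 - s0) * G.gam u u x
        ≤ 2 * K / (s1 - s0) := by
      have g0 := G.gam_self_nonneg u x
      have g2 := hgam x
      have k1 := hKb ((u x - s0) / (s1 - s0))
      have k2 : deriv Real.smoothTransition ((u x - s0) / (s1 - s0)) / (s1 - s0)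
          ≤ K / (s1 - s0) := div_le_div_of_nonneg_right k1 hpos.le
      have k3 : 0 ≤ K / (s1 - s0) := by positivity
      calc _ ≤ K / (s1 - s0) * G.gam u u x := mul_le_mul_of_nonneg_right k2 g0
        _ ≤ K / (s1 - s0) * 2 := mul_le_mul_of_nonneg_left g2 k3
        _ = 2 * K / (s1 - s0) := by ring
    have e2 : Real.smoothTransition ((u x - s0) / (s1 - s0)) * G.lap u x
        ≤ -((1 / σ) * A.indicator (fun _ => (1 : ℝ)) x) := by
      by_cases hx : x ∈ A
      · rw [Set.indicator_of_mem hx]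
        have hx' : s2 ≤ u x := hx
        have e3 : 1 ≤ (u x - s0) / (s1 - s0) := by
          rw [le_div_iff₀ hpos]
          linarith
        rw [Real.smoothTransition.one_of_one_le e3]
        have := hneg x hx'
        linarith
      · rw [Set.indicator_of_notMem hx, mul_zero, neg_zero]
        have hx' : u x < s2 := not_le.1 hx
        by_cases h0 : u x < s0
        · have e3 : (u x - s0) / (s1 - s0) ≤ 0 :=
            div_nonpos_of_nonpos_of_nonneg (by linarith) hpos.le
          rw [Real.smoothTransition.zero_of_nonpos e3, zero_mul]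
        · push Not at h0
          exact mul_nonpos_of_nonneg_of_nonpos (Real.smoothTransition.nonneg _)
            (hle x h0 hx'.le)
    linarith
  have hi1 : Integrable (G.lap (fun y => X (u y))) G.μ := by
    have hc : Continuous (G.lap (fun y => X (u y))) := G.cont _ (G.lap_mem' hXu)
    obtain ⟨B, hB⟩ := isCompact_univ.exists_bound_of_continuousOn hc.continuousOn
    exact Integrable.of_bound hc.aestronglyMeasurable B
      (Filter.Eventually.of_forall fun x => hB x (Set.mem_univ x))
  have hi2 : Integrable (fun x => (1 / σ) * A.indicator (fun _ => (1 : ℝ)) x) G.μ :=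
    ((integrable_const (1 : ℝ)).indicator hAm).const_mul _
  have hmono := integral_mono hi1 ((integrable_const (2 * K / (s1 - s0))).sub hi2) hpt
  have hint' : ∫ x, G.lap (fun y => X (u y)) x ∂G.μ = 0 := hint
  rw [hint'] at hmono
  have e5 : ∫ x, ((fun _ => 2 * K / (s1 - s0)) - fun x => (1 / σ) * A.indicator
      (fun _ => (1 : ℝ)) x : M → ℝ) x ∂G.μ
      = 2 * K / (s1 - s0) * G.μ.real Set.univ - (1 / σ) * G.μ.real A := by
    have e6 := integral_sub (integrable_const (2 * K / (s1 - s0)) (μ := G.μ)) hi2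
    have e7 : ∫ x, A.indicator (fun _ => (1 : ℝ)) x ∂G.μ = G.μ.real A := by
      rw [integral_indicator hAm]
      simp
    rw [integral_const_mul, e7] at e6
    refine Eq.trans e6 ?_
    rw [integral_const, smul_eq_mul]
    ring
  have hfin : 0 ≤ 2 * K / (s1 - s0) * G.μ.real Set.univ - (1 / σ) * G.μ.real A :=
    hmono.trans_eq e5
  have h8 : (1 / σ) * G.μ.real A ≤ 2 * K / (s1 - s0) * G.μ.real Set.univ := by linarith
  have h9 : G.μ.real A = σ * ((1 / σ) * G.μ.real A) := by field_simp
  rw [h9]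
  calc σ * ((1 / σ) * G.μ.real A) ≤ σ * (2 * K / (s1 - s0) * G.μ.real Set.univ) :=
        mul_le_mul_of_nonneg_left h8 hσ.le
    _ = 2 * K * σ / (s1 - s0) * G.μ.real Set.univ := by ring

end RFSE
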