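import Pool.Agent.RFS.ECons
import Pool.Agent.RFS.EFar
import Pool.Agent.RFS.EMeas
import Pool.Agent.RFS.EEnd

/-!
Project RFS, chunk (e), module EBey: the part of `M` where `u` is almost `a + π/√k` or larger has
small measure.

PROOF. `Y = a + π/√k`. Fix `σ0 > 0` with `√k σ0 ≤ 1/2` and `σ0 ≤ π/√k - (4δ - a)` (so that
`4δ ≤ Y - σ0`). For `0 < σ ≤ σ0/2`:
eventually (in `ε`) by `X.main` with `z = σ/2`: `P w - Q ≤ σ/2` on `{4δ ≤ u ≤ Y}`. So `w ≤ 0` on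
`{Y - σ0 ≤ u ≤ Y - σ}` (`end_neg`), `w ≤ -1/σ` on `{u = Y - σ}` (`end_sigma`); `far_est`
(`β = 1/σ`, `c = δ`, `s = Y - σ`; `sep` holds there since `Y - σ ≥ 4δ`): `w ≤ -1/σ` on
`{u ≥ Y - σ}`. `meas_est` with `s0 = Y - σ0`, `s1 = Y - σ0/2`, `s2 = Y - σ`
(`gam ≤ 2` by `X.gam_small`). So `K1 := 2 K0/σ0`.
-/

namespace RFSE

open MeasureTheory Filter Topology

variable {M : Type*} [TopologicalSpace M] [MeasurableSpace M]

/-- For all small `σ`, eventually `μ{u ≥ a + π/√k - σ} ≤ K1 σ μ(M)`; `K1`, `σ1` depend only on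
`k` and a lower bound for `π/√k - (4δ - a)`. -/
theorem beyond [CompactSpace M] [BorelSpace M] (G : SG M) {κ0 k : ℝ} (hκ : 0 < κ0)
    (hpos : ∀ x, G.RicGe κ0 x) (hk : 0 < k) :
    ∃ K1 > 0, ∃ σ1 > 0, ∀ (p : M) (N : M → ℝ) (δ a C Kϕ : ℝ) (U ϕ : ℝ → M → ℝ),
      Setup G p N k δ a C Kϕ U ϕ → δ ≤ σ1 →
      (∀ᶠ ε in 𝓝[>] (0 : ℝ), ∀ x, 4 * δ ≤ U ε x → U ε x ≤ a + Real.pi / √k →
        G.RicGe (2 * k) x) →
      ∀ σ, 0 < σ → σ ≤ σ1 → ∀ᶠ ε in 𝓝[>] (0 : ℝ),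
        G.μ.real {x | a + Real.pi / √k - σ ≤ U ε x} ≤ K1 * σ * G.μ.real Set.univ := by
  obtain ⟨K0, hK0, hmeas⟩ := meas_est G
  have hk4 : 0 < √k := Real.sqrt_pos.2 hk
  have hpi := Real.pi_gt_three
  -- the choice of `σ0`
  obtain ⟨σ0, hσ0, hσk, hσpi⟩ : ∃ σ0 : ℝ, 0 < σ0 ∧ √k * σ0 = 1 / 2 ∧
      σ0 / 2 ≤ Real.pi / √k - σ0 := by
    refine ⟨1 / (2 * √k), by positivity, by field_simp, ?_⟩
    have h1 : Real.pi / √k - 1 / (2 * √k) - 1 / (2 * √k) / 2 = (Real.pi - 3 / 4) / √k := by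
      field_simp; ring
    have h2 : 0 ≤ (Real.pi - 3 / 4) / √k := div_nonneg (by linarith) hk4.le
    linarith
  refine ⟨2 * K0 / σ0, by positivity, σ0 / 2, by positivity, ?_⟩
  intro p N δ a C Kϕ U ϕ X hδ hRic σ hσ hσ1
  have a0 := X.a0
  have hδ0 := X.hδ
  obtain ⟨ε0, hε0, hfar⟩ := far_est G (κ0 := κ0) (C := C) (Kϕ := Kϕ) (c := δ) (β := 1 / σ) hκ X.C0
    X.K0 X.hδ (by positivity)
  have hev : ∀ᶠ ε in 𝓝[>] (0 : ℝ), ε < ε0 :=
    Filter.Eventually.filter_mono nhdsWithin_le_nhds (eventually_lt_nhds hε0)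
  filter_upwards [hev, X.visc, X.lapϕ, X.lapu, X.sep, X.main hk hRic (z := σ / 2) (by positivity),
    X.gam_small (z := 1) one_pos] with ε h1 h2 h3 h4 h5 h6 h7
  have hY : 4 * δ ≤ a + Real.pi / √k - σ0 := by linarith
  have hlev : ∀ x, U ε x = a + Real.pi / √k - σ → G.lap (U ε) x ≤ -(1 / σ) := by
    intro x hx
    have hσk' : √k * σ ≤ 1 / 2 := by
      have : √k * σ ≤ √k * σ0 := mul_le_mul_of_nonneg_left (by linarith) hk4.le
      linarith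
    exact end_sigma hk hσ hσk' hx (h6 x (by rw [hx]; linarith) (by rw [hx]; linarith))
  have hfar' := hfar ε h1 (U ε) (ϕ ε) (a + Real.pi / √k - σ) h2 h4 h3 hpos
    (fun x hx => h5 x (by linarith)) hlev
  have hneg : ∀ x, a + Real.pi / √k - σ0 ≤ U ε x → U ε x ≤ a + Real.pi / √k - σ →
      G.lap (U ε) x ≤ 0 := by
    intro x hx1 hx2
    exact end_neg hk hσ hσk.le hx1 hx2 (h6 x (by linarith) (by linarith))
  have h8 := hmeas (U ε) (a + Real.pi / √k - σ0) (a + Real.pi / √k - σ0 / 2)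
    (a + Real.pi / √k - σ) σ h2.hu (by linarith) (by linarith) hσ (fun x => by linarith [h7 x])
    hneg hfar'
  refine h8.trans (le_of_eq ?_)
  have h9 : a + Real.pi / √k - σ0 / 2 - (a + Real.pi / √k - σ0) = σ0 / 2 := by ring
  rw [h9]
  field_simp

end RFSE
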