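import Pool.Agent.RFS.EModel

/-!
Project RFS, chunk (e), module EPsi (Mathlib only): the radial function of the model sphere.

PROOF. `Y = π/√k`. `P = PP k 0`, `Q = P' = QQ k 0` (`hasDerivAt_PP`), `P > 0` on `(0, Y)`
(`PP_pos`), `∫_0^Y P = π/(2 k √k)`. `χ1 t := Real.smoothTransition ((t - 2 y1)/y1)` (`0` for
`t ≤ 2 y1`, `1` for `t ≥ 3 y1`). `c := (∫_0^Y F P) / (∫_0^Y χ1 P)` (the denominator is positive).
`I y := ∫_0^y (F - c χ1) P`, so `I Y = 0`, `I = 0` for `y ≤ y1`, `I y = ∫_{y1}^y F P ≥ 0` for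
`y ≤ 2 y1`, `I y = c ∫_y^Y χ1 P ≥ 0` for `2 y1 ≤ y ≤ Y`. `Λ0 := I/P` on `(0, Y)`:
`Λ0' P + Q Λ0 = (F - c χ1) P`. `χ2 t := Real.smoothTransition ((Y - σ - t)/σ)` (`1` for
`t ≤ Y - 2σ`, `0` for `t ≥ Y - σ`, decreasing). `Λ := χ2 Λ0` on `(0, Y)`, `0` elsewhere: smooth on
`ℝ` (zero near `0` and near `Y` and outside). `Λ' P + Q Λ = χ2 (F - c χ1) P + χ2' Λ0 P ≤
F P - c 1_{[3 y1, Y - 2σ]} P` (`χ2' ≤ 0`, `0 ≤ χ2 ≤ 1`; `F = 0` for `t ≥ 2 y1`, `χ2 = 1` for
`t ≤ 2 y1` since `2 y1 ≤ Y - 2σ`).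
-/

namespace RFSE

open MeasureTheory

lemma integral_PP {k : ℝ} (hk : 0 < k) :
    (∫ s in (0 : ℝ)..(Real.pi / √k), PP k 0 s) = Real.pi / (2 * (k * √k)) := by
  have h1 : ∀ t ∈ Set.uIcc (0 : ℝ) (Real.pi / √k),
      HasDerivAt (fun t => t / (2 * k) - QQ k 0 t / (4 * k)) (PP k 0 t) t := by
    intro t _
    have h := ((hasDerivAt_id t).div_const (2 * k)).sub ((hasDerivAt_QQ hk 0 t).div_const (4 * k))
    refine h.congr_deriv ?_
    field_simp
    ring
  rw [intervalIntegral.integral_eq_sub_of_hasDerivAt h1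
    ((PP_smooth k 0).continuous.intervalIntegrable _ _)]
  have h2 := QQ_end hk 0
  rw [zero_add] at h2
  have h3 : QQ k 0 0 = 0 := by unfold QQ; simp
  have h4 : 0 < √k := Real.sqrt_pos.2 hk
  rw [h2, h3]
  field_simp
  ring

lemma smooth_integral {f : ℝ → ℝ} (hf : ContDiff ℝ (⊤ : ℕ∞) f) :
    ContDiff ℝ (⊤ : ℕ∞) (fun y => ∫ s in (0 : ℝ)..y, f s) := by
  have hd : ∀ y, HasDerivAt (fun y => ∫ s in (0 : ℝ)..y, f s) (f y) y := fun y =>
    (hf.continuous.integral_hasStrictDerivAt 0 y).hasDerivAt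
  rw [contDiff_infty_iff_deriv]
  refine ⟨fun y => (hd y).differentiableAt, ?_⟩
  have : deriv (fun y => ∫ s in (0 : ℝ)..y, f s) = f := funext fun y => (hd y).deriv
  rw [this]
  exact hf

theorem exists_model {k y1 σ : ℝ} (hk : 0 < k) (hy : 0 < y1) (hσ : 0 < σ)
    (h1 : 4 * y1 < Real.pi / √k) (h2 : 4 * σ < Real.pi / √k)
    {F : ℝ → ℝ} (hF : ContDiff ℝ (⊤ : ℕ∞) F) (hF0 : ∀ s, 0 ≤ F s)
    (hF1 : ∀ s, s ≤ y1 → F s = 0) (hF2 : ∀ s, 2 * y1 ≤ s → F s = 0) :
    ∃ (c B : ℝ) (Λ : ℝ → ℝ), ContDiff ℝ (⊤ : ℕ∞) Λ ∧ 0 ≤ c ∧ 0 ≤ B ∧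
      (∀ y, 0 ≤ Λ y ∧ Λ y ≤ B ∧ |deriv Λ y| ≤ B) ∧
      (∀ y, y ≤ y1 → Λ y = 0) ∧ (∀ y, Real.pi / √k - σ ≤ y → Λ y = 0) ∧
      (∀ y, 0 < y → y < Real.pi / √k →
        deriv Λ y * PP k 0 y + QQ k 0 y * Λ y ≤
          (F y - if 3 * y1 ≤ y ∧ y ≤ Real.pi / √k - 2 * σ then c else 0) * PP k 0 y) ∧
      (∫ s in (0 : ℝ)..(Real.pi / √k), F s * PP k 0 s) ≤ c * (Real.pi / (2 * (k * √k))) := by
  have hint := integral_PP hk
  set Y : ℝ := Real.pi / √k with hY
  have hY0 : 0 < Y := by linarith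
  -- the two cutoffs
  set χ1 : ℝ → ℝ := fun t => Real.smoothTransition ((t - 2 * y1) / y1) with hχ1
  set χ2 : ℝ → ℝ := fun t => Real.smoothTransition ((Y - σ - t) / σ) with hχ2
  have c1s : ContDiff ℝ (⊤ : ℕ∞) χ1 := by
    apply Real.smoothTransition.contDiff.comp
    fun_prop
  have c2s : ContDiff ℝ (⊤ : ℕ∞) χ2 := by
    apply Real.smoothTransition.contDiff.comp
    fun_prop
  have c1n : ∀ t, 0 ≤ χ1 t := fun t => Real.smoothTransition.nonneg _
  have c1l : ∀ t, χ1 t ≤ 1 := fun t => Real.smoothTransition.le_one _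
  have c2n : ∀ t, 0 ≤ χ2 t := fun t => Real.smoothTransition.nonneg _
  have c2l : ∀ t, χ2 t ≤ 1 := fun t => Real.smoothTransition.le_one _
  have c10 : ∀ t, t ≤ 2 * y1 → χ1 t = 0 := fun t ht =>
    Real.smoothTransition.zero_of_nonpos (div_nonpos_of_nonpos_of_nonneg (by linarith) hy.le)
  have c11 : ∀ t, 3 * y1 ≤ t → χ1 t = 1 := fun t ht =>
    Real.smoothTransition.one_of_one_le (by rw [le_div_iff₀ hy]; linarith)
  have c20 : ∀ t, Y - σ ≤ t → χ2 t = 0 := fun t ht =>
    Real.smoothTransition.zero_of_nonpos (div_nonpos_of_nonpos_of_nonneg (by linarith) hσ.le)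
  have c21 : ∀ t, t ≤ Y - 2 * σ → χ2 t = 1 := fun t ht =>
    Real.smoothTransition.one_of_one_le (by rw [le_div_iff₀ hσ]; linarith)
  have c2a : Antitone χ2 := by
    intro a b hab
    apply Real.smoothTransition.monotone
    gcongr
  have Pc : Continuous (PP k 0) := (PP_smooth k 0).continuous
  have Pn : ∀ t, 0 ≤ PP k 0 t := fun t => PP_nonneg hk 0 t
  have Ppos : ∀ t, 0 < t → t < Y → 0 < PP k 0 t := fun t h3 h4 =>
    PP_pos hk h3 (by rw [zero_add]; exact h4)
  have Fc := hF.continuous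
  have c1c := c1s.continuous
  -- the denominator
  have hD : 0 < ∫ s in (0 : ℝ)..Y, χ1 s * PP k 0 s := by
    apply intervalIntegral.integral_pos hY0 (c1c.mul Pc).continuousOn
    · intro x _
      exact mul_nonneg (c1n x) (Pn x)
    · refine ⟨3 * y1, ⟨by linarith, by linarith⟩, ?_⟩
      show 0 < χ1 (3 * y1) * PP k 0 (3 * y1)
      rw [c11 _ le_rfl, one_mul]
      exact Ppos _ (by linarith) (by linarith)
  have hN : 0 ≤ ∫ s in (0 : ℝ)..Y, F s * PP k 0 s :=
    intervalIntegral.integral_nonneg hY0.le fun s _ => mul_nonneg (hF0 s) (Pn s)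
  set c : ℝ := (∫ s in (0 : ℝ)..Y, F s * PP k 0 s) / ∫ s in (0 : ℝ)..Y, χ1 s * PP k 0 s with hc
  have hc0 : 0 ≤ c := div_nonneg hN hD.le
  set f : ℝ → ℝ := fun s => (F s - c * χ1 s) * PP k 0 s with hf
  have fs : ContDiff ℝ (⊤ : ℕ∞) f := by
    apply ContDiff.mul
    · exact hF.sub (contDiff_const.mul c1s)
    · exact PP_smooth k 0
  have fc := fs.continuous
  have fi : ∀ a b, IntervalIntegrable f volume a b := fun a b => fc.intervalIntegrable _ _
  set I : ℝ → ℝ := fun y => ∫ s in (0 : ℝ)..y, f s with hI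
  have Is : ContDiff ℝ (⊤ : ℕ∞) I := smooth_integral fs
  have Id : ∀ y, HasDerivAt I (f y) y := fun y =>
    (fc.integral_hasStrictDerivAt 0 y).hasDerivAt
  have I0 : ∀ y, y ≤ y1 → I y = 0 := by
    intro y hyy
    rw [hI]
    apply intervalIntegral.integral_zero_ae
    refine Filter.Eventually.of_forall fun x hx => ?_
    have hx' : x ≤ y1 := by
      have h3 := hx.2
      rcases le_total 0 y with h4 | h4
      · rw [max_eq_right h4] at h3
        linarith
      · rw [max_eq_left h4] at h3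
        linarith
    rw [hf]
    simp only
    rw [hF1 x hx', c10 x (by linarith)]
    ring
  have IY : I Y = 0 := by
    have e1 : I Y = (∫ s in (0 : ℝ)..Y, F s * PP k 0 s) -
        c * ∫ s in (0 : ℝ)..Y, χ1 s * PP k 0 s := by
      rw [← intervalIntegral.integral_const_mul, ← intervalIntegral.integral_sub]
      · apply intervalIntegral.integral_congr
        intro x _
        simp only [hf]
        ring
      · exact (Fc.mul Pc).intervalIntegrable _ _
      · exact (continuous_const.mul (c1c.mul Pc)).intervalIntegrable _ _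
    rw [e1, hc, div_mul_cancel₀ _ hD.ne', sub_self]
  have In : ∀ y, 0 ≤ y → y ≤ Y → 0 ≤ I y := by
    intro y hy0 hyY
    rcases le_total y (2 * y1) with h3 | h3
    · apply intervalIntegral.integral_nonneg hy0
      intro s hs
      simp only [hf]
      rw [c10 s (by linarith [hs.2]), mul_zero, sub_zero]
      exact mul_nonneg (hF0 s) (Pn s)
    · have e1 : I y + ∫ s in y..Y, f s = 0 := by
        rw [hI]
        simp only
        rw [intervalIntegral.integral_add_adjacent_intervals (fi _ _) (fi _ _)]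
        exact IY
      have e2 : 0 ≤ ∫ s in y..Y, - f s := by
        apply intervalIntegral.integral_nonneg hyY
        intro s hs
        simp only [hf]
        rw [hF2 s (by linarith [hs.1]), zero_sub, neg_mul, neg_neg]
        exact mul_nonneg (mul_nonneg hc0 (c1n s)) (Pn s)
      rw [intervalIntegral.integral_neg] at e2
      linarith
  -- the function
  set L : ℝ → ℝ := fun y => χ2 y * (I y / PP k 0 y) with hL
  have L0 : ∀ y, y ≤ y1 → L y = 0 := by
    intro y hyy
    simp only [hL, I0 y hyy, zero_div, mul_zero]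
  have L1 : ∀ y, Y - σ ≤ y → L y = 0 := by
    intro y hyy
    simp only [hL, c20 y hyy, zero_mul]
  have Lz0 : ∀ y, y < y1 → L =ᶠ[nhds y] fun _ => 0 := by
    intro y hyy
    filter_upwards [Iio_mem_nhds hyy] with z hz
    exact L0 z (le_of_lt hz)
  have Lz1 : ∀ y, Y - σ < y → L =ᶠ[nhds y] fun _ => 0 := by
    intro y hyy
    filter_upwards [Ioi_mem_nhds hyy] with z hz
    exact L1 z (le_of_lt hz)
  have Ls : ContDiff ℝ (⊤ : ℕ∞) L := by
    rw [contDiff_iff_contDiffAt]
    intro y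
    rcases lt_or_ge y y1 with h3 | h3
    · exact (contDiffAt_const (c := (0 : ℝ))).congr_of_eventuallyEq (Lz0 y h3)
    · rcases lt_or_ge y Y with h4 | h4
      · apply c2s.contDiffAt.mul
        exact Is.contDiffAt.div (PP_smooth k 0).contDiffAt (Ppos y (by linarith) h4).ne'
      · exact (contDiffAt_const (c := (0 : ℝ))).congr_of_eventuallyEq (Lz1 y (by linarith))
  have dLc : Continuous (deriv L) := Ls.continuous_deriv (by simp)
  obtain ⟨B1, hB1⟩ := (isCompact_Icc (a := (0 : ℝ)) (b := Y)).exists_bound_of_continuousOn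
    Ls.continuous.continuousOn
  obtain ⟨B2, hB2⟩ := (isCompact_Icc (a := (0 : ℝ)) (b := Y)).exists_bound_of_continuousOn
    dLc.continuousOn
  refine ⟨c, max 0 (max B1 B2), L, Ls, hc0, le_max_left _ _, ?_, L0, L1, ?_, ?_⟩
  · intro y
    rcases lt_or_ge y 0 with h3 | h3
    · have e1 := L0 y (by linarith)
      have e2 : deriv L y = 0 := by
        rw [(Lz0 y (by linarith)).deriv_eq]
        simp
      rw [e1, e2, abs_zero]
      exact ⟨le_rfl, le_max_left _ _, le_max_left _ _⟩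
    · rcases le_or_gt y Y with h4 | h4
      · refine ⟨?_, ?_, ?_⟩
        · exact mul_nonneg (c2n y) (div_nonneg (In y h3 h4) (Pn y))
        · have := hB1 y ⟨h3, h4⟩
          exact (le_abs_self _).trans (this.trans ((le_max_left _ _).trans (le_max_right _ _)))
        · have := hB2 y ⟨h3, h4⟩
          exact this.trans ((le_max_right _ _).trans (le_max_right _ _))
      · have e1 := L1 y (by linarith)
        have e2 : deriv L y = 0 := by
          rw [(Lz1 y (by linarith)).deriv_eq]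
          simp
        rw [e1, e2, abs_zero]
        exact ⟨le_rfl, le_max_left _ _, le_max_left _ _⟩
  · intro y hy0 hyY
    have hP := Ppos y hy0 hyY
    have hd2 : HasDerivAt χ2 (deriv χ2 y) y :=
      ((c2s.differentiable (by simp)) y).hasDerivAt
    have hdq : HasDerivAt (fun y => I y / PP k 0 y)
        ((f y * PP k 0 y - I y * QQ k 0 y) / PP k 0 y ^ 2) y :=
      (Id y).div (hasDerivAt_PP hk 0 y) hP.ne'
    have hdL : deriv L y = deriv χ2 y * (I y / PP k 0 y) +
        χ2 y * ((f y * PP k 0 y - I y * QQ k 0 y) / PP k 0 y ^ 2) := (hd2.mul hdq).deriv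
    have e1 : deriv L y * PP k 0 y + QQ k 0 y * L y = deriv χ2 y * I y + χ2 y * f y := by
      rw [hdL]
      simp only [hL]
      field_simp
      ring
    have e2 : deriv χ2 y ≤ 0 := hd2.nonpos_of_antitone c2a
    have e3 : deriv χ2 y * I y ≤ 0 :=
      mul_nonpos_of_nonpos_of_nonneg e2 (In y hy0.le hyY.le)
    have e4 : χ2 y * f y ≤
        (F y - if 3 * y1 ≤ y ∧ y ≤ Y - 2 * σ then c else 0) * PP k 0 y := by
      have e5 : χ2 y * f y = (χ2 y * F y - c * (χ1 y * χ2 y)) * PP k 0 y := by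
        simp only [hf]
        ring
      rw [e5]
      apply mul_le_mul_of_nonneg_right _ hP.le
      have e6 : χ2 y * F y ≤ F y := by
        have := mul_le_mul_of_nonneg_right (c2l y) (hF0 y)
        linarith
      split_ifs with h5
      · rw [c11 y h5.1, c21 y h5.2] at *
        linarith
      · have := mul_nonneg hc0 (mul_nonneg (c1n y) (c2n y))
        linarith
    rw [e1]
    linarith
  · have e1 : (∫ s in (0 : ℝ)..Y, F s * PP k 0 s) = c * ∫ s in (0 : ℝ)..Y, χ1 s * PP k 0 s := by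
      rw [hc, div_mul_cancel₀ _ hD.ne']
    rw [e1, ← hint]
    apply mul_le_mul_of_nonneg_left _ hc0
    apply intervalIntegral.integral_mono_on hY0.le
    · exact (c1c.mul Pc).intervalIntegrable _ _
    · exact Pc.intervalIntegrable _ _
    · intro x _
      have := mul_le_mul_of_nonneg_right (c1l x) (Pn x)
      linarith

end RFSE
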