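import Pool.Agent.RFS.ECons
import Pool.Agent.RFS.EPsi

/-!
Project RFS, chunk (e), module EInt: the integral inequality.

PROOF. `Λ, c, B` from `exists_model`, `Y = π/√k`, `ψ` a primitive of `-Λ` (smooth). Eventually
(in `ε`), with `u = U ε`, `y = u x - a`, `w = Δu`, `q = |∇u|²`: `Δ(ψ(u - a)) = -Λ'(y) q - Λ(y) w`
(`G.lap_comp` with `f t = ψ(t - a)`), integral zero (`G.int_lap'`). Pointwise claim:
`-Λ'(y) q - Λ(y) w ≥ c 1_{3 y1 ≤ y ≤ Y - 2σ} - F(y) - err`, `err := B z1/P0 + B z1 (1 + |w|)`: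
 * `y ≤ y1` or `y ≥ Y - σ`: `Λ = Λ' = 0` (derivative of a function vanishing on a half line;
   `Λ` is smooth), `F ≥ 0`, the indicator is zero (`3 y1 > y`, resp. `y > Y - 2σ`).
 * `y1 < y < Y - σ`: `u ≥ a + y1 ≥ 4δ` (`a ≥ 3δ`, `δ ≤ y1`), so `P w ≤ Q + z1` (`X.main`, note
   `PP k a u = PP k 0 y`), `P ≥ P0 := min of PP k 0 on [y1, Y - σ] > 0`,
   `Λ w P ≤ Λ Q + Λ z1`, `-Λ' q ≥ -Λ' - B |q - 1|`, `|q - 1| ≤ z1 (1 + |w|)` (`X.gam_near`);
   divide the inequality of `exists_model` by `P`.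
Integration: `∫ |w| ≤ 2 C μ(M)` (`w ≤ C`, `∫ w = 0`: `|w| = 2 w⁺ - w`). So
`c μ{3 y1 ≤ y ≤ Y - 2σ} ≤ ∫ F(u - a) + (B z1/P0 + B z1 (1 + 2C)) μ(M)`; choose `z1` small.
-/

namespace RFSE

open MeasureTheory Filter Topology

variable {M : Type*} [TopologicalSpace M] [MeasurableSpace M]

private lemma intgI [CompactSpace M] [BorelSpace M] (G : SG M) {u : M → ℝ} (hu : Continuous u) :
    Integrable u G.μ := by
  have := G.fin
  obtain ⟨B, hB⟩ := isCompact_univ.exists_bound_of_continuousOn hu.continuousOn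
  exact Integrable.of_bound hu.aestronglyMeasurable B
    (Filter.Eventually.of_forall fun x => hB x (Set.mem_univ x))

private lemma exists_prim {Λ : ℝ → ℝ} (hΛ : ContDiff ℝ (⊤ : ℕ∞) Λ) :
    ∃ ψ : ℝ → ℝ, ContDiff ℝ (⊤ : ℕ∞) ψ ∧ deriv ψ = Λ := by
  have hd : ∀ s, HasDerivAt (fun s => ∫ t in (0 : ℝ)..s, Λ t) (Λ s) s := fun s =>
    intervalIntegral.integral_hasDerivAt_right (hΛ.continuous.intervalIntegrable _ _)
      (hΛ.continuous.stronglyMeasurableAtFilter _ _) hΛ.continuous.continuousAt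
  have hde : deriv (fun s => ∫ t in (0 : ℝ)..s, Λ t) = Λ := funext fun s => (hd s).deriv
  refine ⟨fun s => ∫ t in (0 : ℝ)..s, Λ t, ?_, hde⟩
  rw [contDiff_infty_iff_deriv]
  exact ⟨fun s => (hd s).differentiableAt, by rw [hde]; exact hΛ⟩

/-- the integral identity -/
private lemma int_id (G : SG M) {u : M → ℝ} (hu : u ∈ G.S) (a : ℝ) {Λ : ℝ → ℝ}
    (hΛ : ContDiff ℝ (⊤ : ℕ∞) Λ) :
    ∫ x, (deriv Λ (u x - a) * G.gam u u x + Λ (u x - a) * G.lap u x) ∂G.μ = 0 := by
  obtain ⟨ψ, hψ, hψ'⟩ := exists_prim hΛ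
  have hs : (fun x => u x - a) ∈ G.S := G.sub_mem hu (G.const_mem a)
  have hsm : ∀ x, ContDiffAt ℝ (⊤ : ℕ∞) ψ (u x - a) := fun x => hψ.contDiffAt
  have h1 := G.int_lap' (G.comp_mem (fun x => u x - a) hs ψ hsm)
  rw [← h1]
  congr 1
  funext x
  have h2 := G.lap_comp (u := fun x => u x - a) hs (f := ψ) hsm x
  rw [h2, hψ']
  have h3 : G.gam (fun x => u x - a) (fun x => u x - a) x = G.gam u u x := by
    simp only [SG.gam, G.d_sub hu (G.const_mem a), G.d_const, sub_zero]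
  have h4 : G.lap (fun x => u x - a) x = G.lap u x := by
    rw [G.lap_sub hu (G.const_mem a), G.lap_const, sub_zero]
  rw [h3, h4]

private lemma int_abs_lap [CompactSpace M] [BorelSpace M] (G : SG M) {u : M → ℝ} (hu : u ∈ G.S)
    {C : ℝ} (hC : 0 ≤ C) (h : ∀ x, G.lap u x ≤ C) :
    ∫ x, |G.lap u x| ∂G.μ ≤ 2 * C * G.μ.real Set.univ := by
  have := G.fin
  have hc : Continuous (G.lap u) := G.cont _ (G.lap_mem' hu)
  have h1 : ∫ x, |G.lap u x| ∂G.μ ≤ ∫ x, (2 * C - G.lap u x) ∂G.μ := by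
    apply integral_mono (intgI G hc.abs) ((integrable_const _).sub (intgI G hc))
    intro x
    have := h x
    change |G.lap u x| ≤ 2 * C - G.lap u x
    rcases abs_cases (G.lap u x) with ⟨h2, h3⟩ | ⟨h2, h3⟩ <;> rw [h2] <;> linarith
  rw [integral_sub (integrable_const _) (intgI G hc), G.int_lap' hu, integral_const, sub_zero,
    smul_eq_mul] at h1
  linarith

theorem int_ineq [CompactSpace M] [BorelSpace M] {G : SG M} {p : M} {N : M → ℝ}
    {k δ a C Kϕ : ℝ} {U ϕ : ℝ → M → ℝ} (X : Setup G p N k δ a C Kϕ U ϕ) (hk : 0 < k)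
    (hRic : ∀ x, G.RicGe (2 * k) x)
    {y1 σ : ℝ} (hσ : 0 < σ) (hδ : δ ≤ y1)
    (h1 : 4 * y1 < Real.pi / √k) (h2 : 4 * σ < Real.pi / √k)
    {F : ℝ → ℝ} (hF : ContDiff ℝ (⊤ : ℕ∞) F) (hF0 : ∀ s, 0 ≤ F s)
    (hF1 : ∀ s, s ≤ y1 → F s = 0) (hF2 : ∀ s, 2 * y1 ≤ s → F s = 0) :
    ∃ c : ℝ, 0 ≤ c ∧
      (∫ s in (0 : ℝ)..(Real.pi / √k), F s * PP k 0 s) ≤ c * (Real.pi / (2 * (k * √k))) ∧
      ∀ z > 0, ∀ᶠ ε in 𝓝[>] (0 : ℝ),
        c * G.μ.real {x | 3 * y1 ≤ U ε x - a ∧ U ε x - a ≤ Real.pi / √k - 2 * σ} ≤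
          (∫ x, F (U ε x - a) ∂G.μ) + z := by
  have hfin := G.fin
  have hδ0 := X.hδ
  have hy1 : 0 < y1 := lt_of_lt_of_le hδ0 hδ
  obtain ⟨c, B, Λ, hΛ, hc, hB, b, v1, v2, ineq, intF⟩ :=
    exists_model hk hy1 hσ h1 h2 hF hF0 hF1 hF2
  refine ⟨c, hc, intF, fun z hz => ?_⟩
  -- lower bound of `P`
  obtain ⟨P0, hP0, hP⟩ : ∃ P0 : ℝ, 0 < P0 ∧ ∀ y, y1 ≤ y → y ≤ Real.pi / √k - σ →
      P0 ≤ PP k 0 y := by
    have hne : (Set.Icc y1 (Real.pi / √k - σ)).Nonempty := ⟨y1, le_rfl, by linarith⟩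
    obtain ⟨y0, hy0, hmin⟩ := isCompact_Icc.exists_isMinOn hne
      (PP_smooth k 0).continuous.continuousOn
    refine ⟨PP k 0 y0, PP_pos hk (by linarith [hy0.1]) (by linarith [hy0.2]), fun y ha hb => ?_⟩
    exact hmin ⟨ha, hb⟩
  set K : ℝ := (B / P0 + B * (1 + 2 * C)) * G.μ.real Set.univ with hK
  have hC := X.C0
  have hK0 : 0 ≤ K := by positivity
  set z1 : ℝ := z / (K + 1) with hz1
  have hz10 : 0 < z1 := by positivity
  have hz1K : z1 * K ≤ z := by
    rw [hz1, div_mul_eq_mul_div, div_le_iff₀ (by positivity)]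
    nlinarith
  have hR : ∀ᶠ ε in 𝓝[>] (0 : ℝ), ∀ x, 4 * δ ≤ U ε x → U ε x ≤ a + Real.pi / √k →
      G.RicGe (2 * k) x := Filter.Eventually.of_forall fun ε x _ _ => hRic x
  filter_upwards [X.main hk hR hz10, X.gam_near hz10, X.visc, X.lapu] with ε e1 e2 e3 e4
  have hu : U ε ∈ G.S := e3.hu
  have cu : Continuous (U ε) := e3.cu
  have cw : Continuous (G.lap (U ε)) := e3.clap
  have cq : Continuous (G.gam (U ε) (U ε)) := G.cont _ (G.gam_mem' hu hu)
  have cy : Continuous (fun x => U ε x - a) := cu.sub continuous_const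
  have cΛ : Continuous Λ := hΛ.continuous
  have cΛ' : Continuous (deriv Λ) := hΛ.continuous_deriv (by simp)
  set A : Set M := {x | 3 * y1 ≤ U ε x - a ∧ U ε x - a ≤ Real.pi / √k - 2 * σ} with hA
  have hAm : MeasurableSet A := by
    apply IsClosed.measurableSet
    exact (isClosed_le continuous_const cy).inter (isClosed_le cy continuous_const)
  have hpt : ∀ x, deriv Λ (U ε x - a) * G.gam (U ε) (U ε) x + Λ (U ε x - a) * G.lap (U ε) x ≤
      (F (U ε x - a) - A.indicator (fun _ => c) x) +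
        ((B * z1 / P0 + B * z1) + B * z1 * |G.lap (U ε) x|) := by
    intro x
    have herr : 0 ≤ (B * z1 / P0 + B * z1) + B * z1 * |G.lap (U ε) x| := by positivity
    have hzero : Λ (U ε x - a) = 0 → deriv Λ (U ε x - a) = 0 := fun h0 => by
      apply IsLocalMin.deriv_eq_zero
      exact Filter.Eventually.of_forall fun y => by
        rw [h0]
        exact (b y).1
    have hout : Λ (U ε x - a) = 0 → x ∉ A →
        deriv Λ (U ε x - a) * G.gam (U ε) (U ε) x + Λ (U ε x - a) * G.lap (U ε) x ≤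
      (F (U ε x - a) - A.indicator (fun _ => c) x) +
        ((B * z1 / P0 + B * z1) + B * z1 * |G.lap (U ε) x|) := by
      intro h0 hx
      rw [hzero h0, h0, Set.indicator_of_notMem hx]
      have := hF0 (U ε x - a)
      linarith
    by_cases hx1 : U ε x - a ≤ y1
    · exact hout (v1 _ hx1) (fun hx => by
        have := hx.1
        linarith)
    by_cases hx2 : Real.pi / √k - σ ≤ U ε x - a
    · exact hout (v2 _ hx2) (fun hx => by
        have := hx.2
        linarith)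
    push Not at hx1 hx2
    set y := U ε x - a with hy
    set q := G.gam (U ε) (U ε) x with hq
    set w := G.lap (U ε) x with hw
    have ha0 := X.a0
    have hu4 : 4 * δ ≤ U ε x := by linarith
    have m1 := e1 x hu4 (by linarith)
    have m2 := e2 x hu4
    have m3 := ineq y (by linarith) (by linarith)
    have p1 : PP k a (U ε x) = PP k 0 y := by
      simp only [PP, sub_zero, hy]
    have p2 : QQ k a (U ε x) = QQ k 0 y := by
      simp only [QQ, sub_zero, hy]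
    rw [p1, p2] at m1
    have hPy := hP y hx1.le hx2.le
    have hPy0 : 0 < PP k 0 y := lt_of_lt_of_le hP0 hPy
    obtain ⟨b1, b2, b3⟩ := b y
    have hind : A.indicator (fun _ => c) x =
        if 3 * y1 ≤ y ∧ y ≤ Real.pi / √k - 2 * σ then c else 0 := by
      rw [Set.indicator_apply]
      rfl
    rw [hind]
    set I : ℝ := if 3 * y1 ≤ y ∧ y ≤ Real.pi / √k - 2 * σ then c else 0 with hI
    -- Λ' q ≤ Λ' + B z1 (1 + |w|)
    have s1 : deriv Λ y * q ≤ deriv Λ y + B * (z1 * (1 + |w|)) := by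
      have t1 : deriv Λ y * (q - 1) ≤ |deriv Λ y| * |q - 1| := by
        rw [← abs_mul]
        exact le_abs_self _
      have t2 : |deriv Λ y| * |q - 1| ≤ B * (z1 * (1 + |w|)) :=
        mul_le_mul b3 m2 (abs_nonneg _) hB
      linarith
    -- Λ w ≤ Λ Q / P + B z1 / P0
    have s2 : Λ y * w * PP k 0 y ≤ Λ y * (QQ k 0 y) + Λ y * z1 := by
      have := mul_le_mul_of_nonneg_left (show PP k 0 y * w ≤ QQ k 0 y + z1 by linarith) b1
      linarith
    have s3 : (deriv Λ y + Λ y * w) * PP k 0 y ≤ (F y - I) * PP k 0 y + Λ y * z1 := by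
      linarith
    have s4 : Λ y * z1 ≤ (B * z1 / P0) * PP k 0 y := by
      have t1 : Λ y * z1 ≤ B * z1 := mul_le_mul_of_nonneg_right b2 hz10.le
      have t2 : B * z1 / P0 * P0 ≤ B * z1 / P0 * PP k 0 y :=
        mul_le_mul_of_nonneg_left hPy (by positivity)
      rw [div_mul_cancel₀ _ hP0.ne'] at t2
      linarith
    have s5 : deriv Λ y + Λ y * w ≤ (F y - I) + B * z1 / P0 := by
      by_contra hcon
      push Not at hcon
      have := mul_lt_mul_of_pos_right hcon hPy0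
      linarith
    linarith
  have i1 : Integrable (fun x => F (U ε x - a)) G.μ := intgI G (hF.continuous.comp cy)
  have i2 : Integrable (A.indicator (fun _ => c)) G.μ := (integrable_const c).indicator hAm
  have i3 : Integrable (fun x => B * z1 * |G.lap (U ε) x|) G.μ :=
    intgI G (continuous_const.mul cw.abs)
  have i4 : Integrable (fun _ : M => B * z1 / P0 + B * z1) G.μ := integrable_const _
  have i5 : Integrable (fun x => deriv Λ (U ε x - a) * G.gam (U ε) (U ε) x +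
      Λ (U ε x - a) * G.lap (U ε) x) G.μ :=
    intgI G (((cΛ'.comp cy).mul cq).add ((cΛ.comp cy).mul cw))
  have hmono := integral_mono i5 ((i1.sub i2).add (i4.add i3)) hpt
  rw [int_id G hu a hΛ] at hmono
  have hsplit : ∫ x, ((F (U ε x - a) - A.indicator (fun _ => c) x) +
        ((B * z1 / P0 + B * z1) + B * z1 * |G.lap (U ε) x|)) ∂G.μ =
      (∫ x, F (U ε x - a) ∂G.μ) - c * G.μ.real A +
        ((B * z1 / P0 + B * z1) * G.μ.real Set.univ +
          B * z1 * ∫ x, |G.lap (U ε) x| ∂G.μ) := by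
    have j1 := integral_add (i1.sub i2) (i4.add i3)
    have j2 := integral_sub i1 i2
    have j3 := integral_add i4 i3
    have j4 : ∫ x, A.indicator (fun _ => c) x ∂G.μ = G.μ.real A * c := by
      rw [integral_indicator_const c hAm, smul_eq_mul]
    have j5 : ∫ x, B * z1 * |G.lap (U ε) x| ∂G.μ = B * z1 * ∫ x, |G.lap (U ε) x| ∂G.μ :=
      integral_const_mul _ _
    have j6 : ∫ _ : M, (B * z1 / P0 + B * z1) ∂G.μ =
        G.μ.real Set.univ * (B * z1 / P0 + B * z1) := by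
      rw [integral_const, smul_eq_mul]
    simp only [Pi.add_apply, Pi.sub_apply] at j1 j2 j3
    rw [j1, j2, j3, j4, j5, j6]
    ring
  have hmono2 : 0 ≤ (∫ x, F (U ε x - a) ∂G.μ) - c * G.μ.real A +
        ((B * z1 / P0 + B * z1) * G.μ.real Set.univ +
          B * z1 * ∫ x, |G.lap (U ε) x| ∂G.μ) := by
    rw [← hsplit]
    exact hmono
  have hw := int_abs_lap G hu hC e4
  have hw2 : B * z1 * ∫ x, |G.lap (U ε) x| ∂G.μ ≤ B * z1 * (2 * C * G.μ.real Set.univ) :=
    mul_le_mul_of_nonneg_left hw (by positivity)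
  have hfinal : (B * z1 / P0 + B * z1) * G.μ.real Set.univ +
      B * z1 * (2 * C * G.μ.real Set.univ) = z1 * K := by
    rw [hK]
    ring
  linarith

end RFSE
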