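import Pool.Agent.RFS.ECons

/-!
Project RFS, chunk (e), module EShell: the mass of the shell.

`F1` is a fixed smooth function `≥ 0` with support in `[1, 2]`, Lipschitz constant `Lp`, and
`F s := y1⁻³ F1(s/y1)`.

PROOF. `hN.near η` gives `r1` (we may take `r1 ≤ 1`). Let `y1 ≤ r1/20`, `δ ≤ η y1`, `δ` also so
small that `r1²/(2δ) ≥ 2`.
(a) LOWER BOUND OF `u`. `B1 : ℝ → ℝ` smooth, `B1 s = s` for `s ≤ r1/2`, `0 ≤ B1' ≤ 1`, `B1`
constant (`≤ 1`) for `s ≥ r1`.  `ρ := (1 - 2η) B1(√(N + δ²)) ∈ S` (`N + δ² > 0`).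
`|∇√(N+δ²)|² = |∇N|²/(4 (N+δ²)) ≤ 1 + η` where `N < r1²`; where `N ≥ r1²` we have `B1' = 0`.
So `|∇ρ|² ≤ (1-2η)² (1+η) ≤ 1 - η`. `N/(2δ) - ρ ≥ t²/(2δ) - t - δ ≥ -3δ/2` (`t = √N`) if
`N < r1²`, and `≥ 0` else. `X.comp` (`m = -3δ/2`, `z = δ/2`): eventually `u ≥ ρ - 2δ`, i.e.
`u ≥ (1 - 2η) min(√N, r1/2) - 2δ` (`B1(√(N+δ²)) ≥ min(√N, r1/2)` as `B1` is nondecreasing).
(b) UPPER BOUND: `hN.near η` second part with `B = 1 + z`, `z` small, and `X.gam_small`, `X.up`: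
`u ≤ (1 + 2η) √N + δ` where `N < r1²`.
(c) `3δ ≤ a ≤ 4δ`: `|(u - a) - √N| ≤ 2η √N + 6δ` where `N < (r1/2)²`.
(d) If `F(u - a) ≠ 0` then `u - a ≤ 2 y1`, so by (a) `(1-2η) min(√N, r1/2) ≤ 2y1 + 6δ ≤ 3 y1`,
so `√N ≤ 4 y1 < r1/2` (`η ≤ 1/20`), `|(u-a) - √N| ≤ 8η y1 + 6η y1 = 14 η y1` and
`F(u - a) ≤ F(√N) + Lp y1⁻⁴ 14 η y1`. Let `H : ℝ → ℝ` continuous, `0 ≤ H ≤ 1`, `H = 1` on
`[0, 4 y1]`, `H s = 0` for `s ≥ 5 y1` (and `H s = 1` for `s ≤ 0`). Then on `M`
`F(u - a) ≤ F(√N) + 14 η Lp y1⁻³ H(√N)`, and the third part of `hN.near η`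
(`5 y1 < r1`): `∫ F(√N) ≤ (1+η) 4π ∫ F s² ds = (1+η) 4π ∫ F1 s² ds`,
`∫ H(√N) ≤ (1+η) 4π (5 y1)³/3 ≤ 600 y1³` (`π ≤ 3.15`).
(e) `{u - a < 3 y1}`: as in (d) `√N ≤ 5 y1` there (`(1-2η) min ≤ 3y1+6δ ≤ 3.3 y1`), so its measure
is `≤ ∫ H'(√N)`, `H' = 1` on `[0, 5y1]`, `0` for `s ≥ 6 y1`: `≤ (1+η) 4π 216 y1³/3 ≤ 1000 y1³`.
-/

namespace RFSE

open MeasureTheory Filter Topology

variable {M : Type*} [TopologicalSpace M] [MeasurableSpace M]

private lemma intgb [CompactSpace M] [BorelSpace M] (G : SG M) {u : M → ℝ} (hu : Continuous u) :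
    Integrable u G.μ := by
  have := G.fin
  obtain ⟨B, hB⟩ := isCompact_univ.exists_bound_of_continuousOn hu.continuousOn
  exact Integrable.of_bound hu.aestronglyMeasurable B
    (Filter.Eventually.of_forall fun x => hB x (Set.mem_univ x))

private lemma exists_B (r : ℝ) (hr : 0 < r) : ∃ B : ℝ → ℝ, ContDiff ℝ (⊤ : ℕ∞) B ∧
    (∀ s, 0 ≤ deriv B s ∧ deriv B s ≤ 1) ∧ (∀ s, r ≤ s → deriv B s = 0) ∧
    (∀ s, 0 ≤ s → s ≤ r / 2 → B s = s) ∧ Monotone B ∧ (∀ s, 0 ≤ s → B s ≤ s) := by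
  set χ : ℝ → ℝ := fun t => Real.smoothTransition ((r - t) / (r / 2)) with hχ
  have hc : ContDiff ℝ (⊤ : ℕ∞) χ :=
    Real.smoothTransition.contDiff.comp ((contDiff_const.sub contDiff_id).div_const _)
  have hd : ∀ s, HasDerivAt (fun s => ∫ t in (0 : ℝ)..s, χ t) (χ s) s := fun s =>
    intervalIntegral.integral_hasDerivAt_right (hc.continuous.intervalIntegrable _ _)
      (hc.continuous.stronglyMeasurableAtFilter _ _) hc.continuous.continuousAt
  have hde : deriv (fun s => ∫ t in (0 : ℝ)..s, χ t) = χ := funext fun s => (hd s).deriv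
  have h01 : ∀ s, 0 ≤ χ s ∧ χ s ≤ 1 := fun s =>
    ⟨Real.smoothTransition.nonneg _, Real.smoothTransition.le_one _⟩
  refine ⟨fun s => ∫ t in (0 : ℝ)..s, χ t, ?_, ?_, ?_, ?_, ?_, ?_⟩
  · rw [contDiff_infty_iff_deriv]
    exact ⟨fun s => (hd s).differentiableAt, by rw [hde]; exact hc⟩
  · intro s
    rw [hde]
    exact h01 s
  · intro s hs
    rw [hde]
    exact Real.smoothTransition.zero_of_nonpos
      (div_nonpos_of_nonpos_of_nonneg (by linarith) (by linarith))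
  · intro s hs0 hs
    have : ∫ t in (0 : ℝ)..s, χ t = ∫ t in (0 : ℝ)..s, (1 : ℝ) := by
      apply intervalIntegral.integral_congr
      intro t ht
      rw [Set.uIcc_of_le hs0] at ht
      apply Real.smoothTransition.one_of_one_le
      rw [le_div_iff₀ (by linarith)]
      linarith [ht.2]
    change ∫ t in (0 : ℝ)..s, χ t = s
    rw [this]
    simp
  · apply monotone_of_deriv_nonneg (fun s => (hd s).differentiableAt)
    intro s
    rw [hde]
    exact (h01 s).1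
  · intro s hs
    have : ∫ t in (0 : ℝ)..s, χ t ≤ ∫ t in (0 : ℝ)..s, (1 : ℝ) := by
      apply intervalIntegral.integral_mono_on hs (hc.continuous.intervalIntegrable _ _)
        (continuous_const.intervalIntegrable _ _)
      intro t _
      exact (h01 t).2
    simpa using this

/-- the comparison function -/
private lemma exists_rho (G : SG M) {p : M} {N : M → ℝ} (hN : LocN G p N) {η r δ : ℝ}
    (hη : 0 < η) (hη1 : η ≤ 1 / 20) (hr : 0 < r) (hδ : 0 < δ)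
    (hg : ∀ x, N x < r ^ 2 → G.gam N N x ≤ 4 * (1 + η) * N x) :
    ∃ ρ ∈ G.S, (∀ x, G.gam ρ ρ x ≤ 1 - η) ∧ (∀ x, -(3 * δ / 2) ≤ N x / (2 * δ) - ρ x) ∧
      (∀ x, (1 - 2 * η) * min (√(N x)) (r / 2) ≤ ρ x) := by
  obtain ⟨B, b1, b2, b3, b4, b5, b6⟩ := exists_B r hr
  have hN0 : ∀ x, 0 ≤ N x := fun x => by
    by_cases h : x = p
    · rw [h, hN.zero]
    · exact (hN.pos x h).le
  have hpos : ∀ x, 0 < N x + δ ^ 2 := fun x => by
    have := hN0 x
    positivity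
  have hsm : ∀ x, ContDiffAt ℝ (⊤ : ℕ∞) (fun t : ℝ => (1 - 2 * η) * B (√(t + δ ^ 2))) (N x) := by
    intro x
    have h1 : ContDiffAt ℝ (⊤ : ℕ∞) (fun t : ℝ => √(t + δ ^ 2)) (N x) :=
      (contDiffAt_id.add contDiffAt_const).sqrt (hpos x).ne'
    exact contDiffAt_const.mul (b1.contDiffAt.comp _ h1)
  have hder : ∀ x, deriv (fun t : ℝ => (1 - 2 * η) * B (√(t + δ ^ 2))) (N x) =
      (1 - 2 * η) * (deriv B (√(N x + δ ^ 2)) * (1 / (2 * √(N x + δ ^ 2)))) := by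
    intro x
    have h1 : HasDerivAt (fun t : ℝ => √(t + δ ^ 2)) (1 / (2 * √(N x + δ ^ 2))) (N x) :=
      ((hasDerivAt_id (N x)).add_const (δ ^ 2)).sqrt (hpos x).ne'
    have h2 : HasDerivAt B (deriv B (√(N x + δ ^ 2))) (√(N x + δ ^ 2)) :=
      (b1.differentiable (by simp) _).hasDerivAt
    exact ((h2.comp (N x) h1).const_mul (1 - 2 * η)).deriv
  refine ⟨fun x => (1 - 2 * η) * B (√(N x + δ ^ 2)),
    G.comp_mem N hN.mem (fun t : ℝ => (1 - 2 * η) * B (√(t + δ ^ 2))) hsm, ?_, ?_, ?_⟩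
  · intro x
    have h := G.gam_comp_comp hN.mem (f := fun t : ℝ => (1 - 2 * η) * B (√(t + δ ^ 2)))
      (g := fun t : ℝ => (1 - 2 * η) * B (√(t + δ ^ 2))) hsm hsm x
    rw [h, hder x]
    by_cases hx : N x < r ^ 2
    · have hs : √(N x + δ ^ 2) ^ 2 = N x + δ ^ 2 := Real.sq_sqrt (hpos x).le
      have hs0 : 0 < √(N x + δ ^ 2) := Real.sqrt_pos.2 (hpos x)
      obtain ⟨d0, d1⟩ := b2 (√(N x + δ ^ 2))
      have e1 : (1 - 2 * η) * (deriv B (√(N x + δ ^ 2)) * (1 / (2 * √(N x + δ ^ 2)))) *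
          ((1 - 2 * η) * (deriv B (√(N x + δ ^ 2)) * (1 / (2 * √(N x + δ ^ 2))))) *
          G.gam N N x = (1 - 2 * η) ^ 2 * (deriv B (√(N x + δ ^ 2))) ^ 2 *
            (G.gam N N x / (4 * (N x + δ ^ 2))) := by
        have e0 : 1 / (2 * √(N x + δ ^ 2)) * (1 / (2 * √(N x + δ ^ 2))) =
            1 / (4 * (N x + δ ^ 2)) := by
          have e00 : 2 * √(N x + δ ^ 2) * (2 * √(N x + δ ^ 2)) = 4 * (N x + δ ^ 2) := by
            linear_combination 4 * hs
          rw [← e00]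
          field_simp
        rw [div_eq_mul_one_div (G.gam N N x) (4 * (N x + δ ^ 2)), ← e0]
        ring
      rw [e1]
      have e2 : G.gam N N x / (4 * (N x + δ ^ 2)) ≤ 1 + η := by
        rw [div_le_iff₀ (by have := hpos x; positivity)]
        have a1 := hg x hx
        have a2 : 0 ≤ (1 + η) * δ ^ 2 := by positivity
        nlinarith
      have e3 : 0 ≤ G.gam N N x / (4 * (N x + δ ^ 2)) :=
        div_nonneg (G.gam_self_nonneg _ _) (by have := hpos x; positivity)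
      have e4 : (deriv B (√(N x + δ ^ 2))) ^ 2 ≤ 1 := by nlinarith
      have e5 : (1 - 2 * η) ^ 2 * (deriv B (√(N x + δ ^ 2))) ^ 2 ≤ (1 - 2 * η) ^ 2 * 1 :=
        mul_le_mul_of_nonneg_left e4 (sq_nonneg _)
      have e6 : (1 - 2 * η) ^ 2 * (deriv B (√(N x + δ ^ 2))) ^ 2 *
            (G.gam N N x / (4 * (N x + δ ^ 2))) ≤ (1 - 2 * η) ^ 2 * 1 * (1 + η) :=
        mul_le_mul e5 e2 e3 (by positivity)
      have e7 : (1 - 2 * η) ^ 2 * 1 * (1 + η) ≤ 1 - η := by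
        have : 4 * η ^ 3 ≤ 2 * η := by nlinarith [mul_pos hη hη]
        nlinarith
      linarith
    · have h1 : r ≤ √(N x + δ ^ 2) := by
        apply Real.le_sqrt_of_sq_le
        have := sq_nonneg δ
        linarith [not_lt.1 hx]
      rw [b3 _ h1]
      have : (1 - 2 * η) * (0 * (1 / (2 * √(N x + δ ^ 2)))) *
        ((1 - 2 * η) * (0 * (1 / (2 * √(N x + δ ^ 2))))) * G.gam N N x = 0 := by ring
      rw [this]
      linarith
  · intro x
    have ht : √(N x) ^ 2 = N x := Real.sq_sqrt (hN0 x)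
    have ht0 := Real.sqrt_nonneg (N x)
    have h1 : √(N x + δ ^ 2) ≤ √(N x) + δ := by
      rw [Real.sqrt_le_left (by positivity)]
      nlinarith
    have h2 : B (√(N x + δ ^ 2)) ≤ √(N x) + δ := (b6 _ (Real.sqrt_nonneg _)).trans h1
    have h3 : 0 ≤ B (√(N x + δ ^ 2)) := by
      have := b5 (Real.sqrt_nonneg (N x + δ ^ 2))
      rw [b4 0 le_rfl (by linarith)] at this
      exact this
    have h4 : (1 - 2 * η) * B (√(N x + δ ^ 2)) ≤ √(N x) + δ := by nlinarith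
    have h5 : √(N x) + δ - 3 * δ / 2 ≤ N x / (2 * δ) := by
      rw [le_div_iff₀ (by positivity)]
      nlinarith [sq_nonneg (√(N x) - δ), ht]
    linarith
  · intro x
    have h1 : min (√(N x)) (r / 2) ≤ B (√(N x + δ ^ 2)) := by
      have h2 : min (√(N x)) (r / 2) ≤ √(N x + δ ^ 2) :=
        (min_le_left _ _).trans (Real.sqrt_le_sqrt (by have := sq_nonneg δ; linarith))
      have h3 := b5 h2
      rw [b4 _ (le_min (Real.sqrt_nonneg _) (by linarith)) (min_le_right _ _)] at h3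
      exact h3
    exact mul_le_mul_of_nonneg_left h1 (by linarith)

private lemma shellJ1 {F1 : ℝ → ℝ} (hF : Continuous F1)
    (hF2 : ∀ s, 2 ≤ s → F1 s = 0) {y1 r1 : ℝ} (hy : 0 < y1) (h : 2 * y1 ≤ r1) :
    ∫ s in (0 : ℝ)..r1, ((y1 ^ 3)⁻¹ * F1 (s / y1)) * s ^ 2 =
      ∫ s in (0 : ℝ)..2, F1 s * s ^ 2 := by
  have h1 : ∀ s : ℝ, ((y1 ^ 3)⁻¹ * F1 (s / y1)) * s ^ 2 =
      y1⁻¹ * ((fun t => F1 t * t ^ 2) (s / y1)) := by
    intro s
    field_simp
  have hc : Continuous (fun t => F1 t * t ^ 2) := hF.mul (continuous_pow 2)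
  rw [intervalIntegral.integral_congr (fun s _ => h1 s), intervalIntegral.integral_const_mul,
    intervalIntegral.integral_comp_div (fun t => F1 t * t ^ 2) hy.ne', smul_eq_mul, ← mul_assoc, inv_mul_cancel₀ hy.ne',
    one_mul, zero_div]
  have h2 : (2 : ℝ) ≤ r1 / y1 := by
    rw [le_div_iff₀ hy]
    exact h
  rw [← intervalIntegral.integral_add_adjacent_intervals (b := 2)
    (hc.intervalIntegrable _ _) (hc.intervalIntegrable _ _)]
  have h3 : ∫ s in (2 : ℝ)..(r1 / y1), F1 s * s ^ 2 = ∫ s in (2 : ℝ)..(r1 / y1), (0 : ℝ) := by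
    apply intervalIntegral.integral_congr
    intro t ht
    rw [Set.uIcc_of_le h2] at ht
    change F1 t * t ^ 2 = 0
    rw [hF2 t ht.1, zero_mul]
  rw [h3]
  simp

private lemma shellJ2 {H : ℝ → ℝ} (hH : Continuous H) (h1 : ∀ s, H s ≤ 1)
    {y1 r1 : ℝ} (hy : 0 < y1) (h2 : ∀ s, 5 * y1 ≤ s → H s = 0) (h : 5 * y1 ≤ r1) :
    ∫ s in (0 : ℝ)..r1, H s * s ^ 2 ≤ 125 * y1 ^ 3 / 3 := by
  have hc : Continuous (fun t => H t * t ^ 2) := hH.mul (continuous_pow 2)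
  rw [← intervalIntegral.integral_add_adjacent_intervals (b := 5 * y1)
    (hc.intervalIntegrable _ _) (hc.intervalIntegrable _ _)]
  have h3 : ∫ s in (5 * y1)..r1, H s * s ^ 2 = ∫ s in (5 * y1)..r1, (0 : ℝ) := by
    apply intervalIntegral.integral_congr
    intro t ht
    rw [Set.uIcc_of_le h] at ht
    change H t * t ^ 2 = 0
    rw [h2 t ht.1, zero_mul]
  have h4 : ∫ s in (0 : ℝ)..(5 * y1), H s * s ^ 2 ≤ ∫ s in (0 : ℝ)..(5 * y1), s ^ 2 := by
    apply intervalIntegral.integral_mono_on (by positivity) (hc.intervalIntegrable _ _)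
      ((continuous_pow 2).intervalIntegrable _ _)
    intro t _
    have := h1 t
    nlinarith [sq_nonneg t]
  have h5 : ∫ s in (0 : ℝ)..(5 * y1), s ^ 2 = 125 * y1 ^ 3 / 3 := by
    rw [integral_pow]
    norm_num
    ring
  rw [h3]
  simp only [intervalIntegral.integral_zero, add_zero]
  linarith

theorem shell [CompactSpace M] [BorelSpace M] (G : SG M) {p : M} {N : M → ℝ}
    (hN : LocN G p N) {k : ℝ}
    {F1 : ℝ → ℝ} (hF : ContDiff ℝ (⊤ : ℕ∞) F1) (hF0 : ∀ s, 0 ≤ F1 s)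
    (hF1 : ∀ s, s ≤ 1 → F1 s = 0) (hF2 : ∀ s, 2 ≤ s → F1 s = 0)
    {Lp : ℝ} (hLp : 0 ≤ Lp) (hLip : ∀ s t, |F1 s - F1 t| ≤ Lp * |s - t|) :
    ∀ η, 0 < η → η ≤ 1 / 20 → ∃ ys > 0, ∀ y1, 0 < y1 → y1 < ys →
      ∃ δs > 0, ∀ (δ a C Kϕ : ℝ) (U ϕ : ℝ → M → ℝ), Setup G p N k δ a C Kϕ U ϕ → δ < δs →
        ∀ᶠ ε in 𝓝[>] (0 : ℝ),
          (∫ x, (y1 ^ 3)⁻¹ * F1 ((U ε x - a) / y1) ∂G.μ ≤
            (1 + η) * (4 * Real.pi * ∫ s in (0 : ℝ)..2, F1 s * s ^ 2) + 9000 * Lp * η) ∧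
          G.μ.real {x | U ε x - a < 3 * y1} ≤ 1000 * y1 ^ 3 := by
  intro η hη hη1
  obtain ⟨r1, hr1, n1, n2, n3⟩ := hN.near η hη
  refine ⟨r1 / 20, by positivity, fun y1 hy1 hys => ⟨η * y1, by positivity, ?_⟩⟩
  intro δ a C Kϕ U ϕ X hδ
  obtain ⟨ρ, hρ, ρ1, ρ2, ρ3⟩ := exists_rho G hN hη hη1 hr1 X.hδ n1
  have hNc : Continuous N := G.cont N hN.mem
  have hsq : Continuous (fun x => √(N x)) := hNc.sqrt
  have hN0 : ∀ x, 0 ≤ N x := fun x => by
    by_cases h : x = p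
    · rw [h, hN.zero]
    · exact (hN.pos x h).le
  have hδ0 := X.hδ
  have ha0 := X.a0
  have ha1 := X.a1
  have hηy : η * y1 ≤ y1 / 20 := by nlinarith
  filter_upwards [X.comp hρ hη ρ1 ρ2 (half_pos X.hδ), X.gam_small (half_pos hη), X.up δ X.hδ,
    X.visc] with ε c1 c2 c3 c4
  have hUc : Continuous (U ε) := c4.cu
  have low : ∀ x, (1 - 2 * η) * min (√(N x)) (r1 / 2) ≤ U ε x + 2 * δ := fun x => by
    have h1 := c1 x
    have h2 := ρ3 x
    linarith
  have upp : ∀ x, N x < r1 ^ 2 → U ε x ≤ (1 + 2 * η) * √(N x) + δ := fun x hx => by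
    have h1 := n2 (1 + η / 2) (by positivity) (U ε) c4.hu
      (fun z => (c2 z).trans (by nlinarith)) x hx
    have h2 : (1 + η / 2) * (1 + η) ≤ 1 + 2 * η := by nlinarith
    have h3 := mul_le_mul_of_nonneg_right h2 (Real.sqrt_nonneg (N x))
    linarith
  have sm : ∀ x, U ε x - a < 3 * y1 → √(N x) ≤ 4 * y1 := fun x hx => by
    have h1 := low x
    by_contra hc
    push Not at hc
    have h2 : 4 * y1 < min (√(N x)) (r1 / 2) := lt_min hc (by linarith)
    nlinarith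
  have near : ∀ x, √(N x) ≤ 4 * y1 → |(U ε x - a) - √(N x)| ≤ 14 * η * y1 := fun x hx => by
    have h0 := Real.sqrt_nonneg (N x)
    have h1 := low x
    rw [min_eq_left (by linarith)] at h1
    have h2 : N x < r1 ^ 2 := by
      have h3 := Real.sq_sqrt (hN0 x)
      nlinarith
    have h4 := upp x h2
    have h5 : η * √(N x) ≤ η * (4 * y1) := mul_le_mul_of_nonneg_left hx hη.le
    have h6 : 0 < η * y1 := by positivity
    rw [abs_le]
    constructor <;> linarith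
  set H : ℝ → ℝ := fun s => min 1 (max 0 (5 - s / y1)) with hHdef
  have H0 : ∀ s, 0 ≤ H s := fun s => le_min zero_le_one (le_max_left _ _)
  have H1 : ∀ s, H s ≤ 1 := fun s => min_le_left _ _
  have H2 : ∀ s, 5 * y1 ≤ s → H s = 0 := fun s hs => by
    have h1 : 5 - s / y1 ≤ 0 := by
      rw [sub_nonpos, le_div_iff₀ hy1]
      exact hs
    simp only [hHdef]
    rw [max_eq_left h1, min_eq_right zero_le_one]
  have H3 : ∀ s, s ≤ 4 * y1 → H s = 1 := fun s hs => by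
    have h1 : 1 ≤ 5 - s / y1 := by
      have : s / y1 ≤ 4 := by
        rw [div_le_iff₀ hy1]
        exact hs
      linarith
    simp only [hHdef]
    rw [min_eq_left (h1.trans (le_max_right _ _))]
  have Hc : Continuous H :=
    continuous_const.min (continuous_const.max (continuous_const.sub (continuous_id.div_const _)))
  have I2 : ∫ x, H (√(N x)) ∂G.μ ≤ 600 * y1 ^ 3 := by
    have h1 := n3 H Hc H0 (fun s hs => H2 s (by linarith))
    have h2 := shellJ2 Hc H1 hy1 H2 (by linarith : 5 * y1 ≤ r1)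
    have h3 : (1 + η) * (4 * Real.pi * ∫ s in (0 : ℝ)..r1, H s * s ^ 2) ≤
        (1 + 1 / 20) * (4 * 3.15 * (125 * y1 ^ 3 / 3)) := by
      have hpi := Real.pi_lt_d2
      have h0 : 0 ≤ ∫ s in (0 : ℝ)..r1, H s * s ^ 2 :=
        intervalIntegral.integral_nonneg hr1.le (fun s _ => mul_nonneg (H0 s) (sq_nonneg s))
      apply mul_le_mul (by linarith) _ (by positivity) (by norm_num)
      exact mul_le_mul (by linarith) h2 h0 (by norm_num)
    have h4 : 0 < y1 ^ 3 := by positivity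
    linarith
  have cF : Continuous F1 := hF.continuous
  have I1 : ∫ x, (y1 ^ 3)⁻¹ * F1 (√(N x) / y1) ∂G.μ ≤
      (1 + η) * (4 * Real.pi * ∫ s in (0 : ℝ)..2, F1 s * s ^ 2) := by
    have h1 := n3 (fun s => (y1 ^ 3)⁻¹ * F1 (s / y1))
      (continuous_const.mul (cF.comp (continuous_id.div_const _)))
      (fun s => mul_nonneg (by positivity) (hF0 _))
      (fun s hs => by
        have : (2 : ℝ) ≤ s / y1 := by
          rw [le_div_iff₀ hy1]
          linarith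
        rw [hF2 _ this, mul_zero])
    rw [shellJ1 cF hF2 hy1 (by linarith)] at h1
    exact h1
  have hy3 : 0 < (y1 ^ 3)⁻¹ := by positivity
  have int1 : Integrable (fun x => (y1 ^ 3)⁻¹ * F1 (√(N x) / y1)) G.μ :=
    intgb G (continuous_const.mul (cF.comp (hsq.div_const _)))
  have int2 : Integrable (fun x => H (√(N x))) G.μ := intgb G (Hc.comp hsq)
  have int3 : Integrable (fun x => (y1 ^ 3)⁻¹ * F1 ((U ε x - a) / y1)) G.μ :=
    intgb G (continuous_const.mul (cF.comp ((hUc.sub continuous_const).div_const _)))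
  refine ⟨?_, ?_⟩
  · have hpt : ∀ x, (y1 ^ 3)⁻¹ * F1 ((U ε x - a) / y1) ≤
        (y1 ^ 3)⁻¹ * F1 (√(N x) / y1) + (14 * η * Lp * (y1 ^ 3)⁻¹) * H (√(N x)) := by
      intro x
      by_cases hx : √(N x) ≤ 4 * y1
      · rw [H3 _ hx]
        have h1 := hLip ((U ε x - a) / y1) (√(N x) / y1)
        have h2 : |(U ε x - a) / y1 - √(N x) / y1| ≤ 14 * η := by
          rw [← sub_div, abs_div, abs_of_pos hy1, div_le_iff₀ hy1]
          exact near x hx
        have h3 := mul_le_mul_of_nonneg_left h2 hLp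
        have h4 := (abs_le.1 (h1.trans h3)).2
        have h5 : F1 ((U ε x - a) / y1) ≤ F1 (√(N x) / y1) + Lp * (14 * η) := by linarith
        have h6 := mul_le_mul_of_nonneg_left h5 hy3.le
        linarith
      · have h1 : 3 * y1 ≤ U ε x - a := by
          by_contra hc
          exact hx (sm x (not_le.1 hc))
        have h2 : (2 : ℝ) ≤ (U ε x - a) / y1 := by
          rw [le_div_iff₀ hy1]
          linarith
        rw [hF2 _ h2, mul_zero]
        have := hF0 (√(N x) / y1)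
        have := H0 (√(N x))
        positivity
    have h1 : ∫ x, (y1 ^ 3)⁻¹ * F1 ((U ε x - a) / y1) ∂G.μ ≤
        ∫ x, ((y1 ^ 3)⁻¹ * F1 (√(N x) / y1) + (14 * η * Lp * (y1 ^ 3)⁻¹) * H (√(N x))) ∂G.μ :=
      integral_mono int3 (int1.add (int2.const_mul _)) hpt
    rw [integral_add int1 (int2.const_mul _),
      integral_const_mul (14 * η * Lp * (y1 ^ 3)⁻¹)] at h1
    have h2 : (14 * η * Lp * (y1 ^ 3)⁻¹) * ∫ x, H (√(N x)) ∂G.μ ≤
        (14 * η * Lp * (y1 ^ 3)⁻¹) * (600 * y1 ^ 3) :=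
      mul_le_mul_of_nonneg_left I2 (by positivity)
    have h3 : (14 * η * Lp * (y1 ^ 3)⁻¹) * (600 * y1 ^ 3) = 8400 * Lp * η := by
      field_simp
      ring
    have h4 : 0 ≤ Lp * η := by positivity
    linarith
  · have hs : MeasurableSet {x | U ε x - a < 3 * y1} :=
      (isOpen_lt (hUc.sub continuous_const) continuous_const).measurableSet
    have := G.fin
    have h1 : G.μ.real {x | U ε x - a < 3 * y1} =
        ∫ x in {x | U ε x - a < 3 * y1}, (1 : ℝ) ∂G.μ := by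
      rw [setIntegral_const]
      simp
    have h2 : ∫ x in {x | U ε x - a < 3 * y1}, (1 : ℝ) ∂G.μ ≤
        ∫ x in {x | U ε x - a < 3 * y1}, H (√(N x)) ∂G.μ := by
      apply setIntegral_mono_on (integrable_const _).integrableOn int2.integrableOn hs
      intro x hx
      rw [H3 _ (sm x hx)]
    have h3 : ∫ x in {x | U ε x - a < 3 * y1}, H (√(N x)) ∂G.μ ≤ ∫ x, H (√(N x)) ∂G.μ :=
      setIntegral_le_integral int2 (Filter.Eventually.of_forall fun x => H0 _)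
    have h4 : 0 < y1 ^ 3 := by positivity
    linarith

end RFSE
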