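import Pool.Agent.RFS.ESet
import Pool.Agent.RFS.EBey
import Pool.Agent.RFS.EInt
import Pool.Agent.RFS.EShell

/-!
Project RFS, chunk (e), module EBish: Bishop's inequality for the total volume.

PROOF. `V = μ(M)`, `Y = π/√k`, `κ0 = 2k`. Fix `F1` smooth `≥ 0`, support in `[1,2]`, with
`4π ∫_0^2 F1 s² ds = 1` (a normalised bump), `Lp` its Lipschitz constant. Given `η ≤ 1/20`,
take `y1` small (`< ys`, and so small that `PP k 0 s ≥ (1-η) s²` for `s ≤ 2y1`), `σ` small, then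
`δ` small (`exists_setup`, `shell`, `beyond` with `2σ`, `δ ≤ y1`), `F s = y1⁻³ F1(s/y1)`.
`int_ineq`: `c` with `c π/(2 k√k) ≥ ∫ F P ≥ (1-η) ∫ F s² ds = (1-η)/(4π)`, so
`c ≥ (1-η) k√k/(2π²)`. One `ε` with everything (`z = η`):
`V ≤ μ{u-a < 3y1} + μ{3y1 ≤ u-a ≤ Y-2σ} + μ{u-a > Y-2σ} ≤ 1000 y1³ + ((1+η) + 9000 Lp η + η)/c
 + 2 K1 σ V`. (`beyond` gives the set `{a + Y - 2σ ≤ U ε}`.) Let `σ, y1 → 0`, then `η → 0`:
`V ≤ 2π²/(k√k)`. (Use `le_of_forall_pos_le_add` or a limit argument.)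
-/

namespace RFSE

open MeasureTheory Filter Topology

variable {M : Type*} [TopologicalSpace M] [MeasurableSpace M]

private lemma exists_F1 : ∃ (F1 : ℝ → ℝ) (Lp : ℝ), ContDiff ℝ (⊤ : ℕ∞) F1 ∧ (∀ s, 0 ≤ F1 s) ∧
    (∀ s, s ≤ 1 → F1 s = 0) ∧ (∀ s, 2 ≤ s → F1 s = 0) ∧ 0 ≤ Lp ∧
    (∀ s t, |F1 s - F1 t| ≤ Lp * |s - t|) ∧
    4 * Real.pi * (∫ s in (0 : ℝ)..2, F1 s * s ^ 2) = 1 := by
  let f : ContDiffBump (3 / 2 : ℝ) := ⟨1 / 4, 1 / 2, by norm_num, by norm_num⟩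
  have hcd : ContDiff ℝ (⊤ : ℕ∞) (fun s => f s) := f.contDiff
  have hcont : Continuous (fun s => f s) := hcd.continuous
  have hz1 : ∀ s : ℝ, s ≤ 1 → f s = 0 := by
    intro s hs
    apply f.zero_of_le_dist
    rw [Real.dist_eq, abs_of_nonpos (by linarith)]
    change (1 / 2 : ℝ) ≤ _
    linarith
  have hz2 : ∀ s : ℝ, 2 ≤ s → f s = 0 := by
    intro s hs
    apply f.zero_of_le_dist
    rw [Real.dist_eq, abs_of_nonneg (by linarith)]
    change (1 / 2 : ℝ) ≤ _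
    linarith
  have hI : 0 < ∫ s in (0 : ℝ)..2, f s * s ^ 2 := by
    apply intervalIntegral.integral_pos (by norm_num)
    · exact (hcont.mul (continuous_pow 2)).continuousOn
    · intro x _
      exact mul_nonneg f.nonneg (sq_nonneg x)
    · refine ⟨3 / 2, ⟨by norm_num, by norm_num⟩, ?_⟩
      have : f (3 / 2) = 1 := f.one_of_mem_closedBall (by
        simp only [Metric.mem_closedBall, dist_self]
        exact f.rIn_pos.le)
      rw [this]
      norm_num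
  obtain ⟨L, hL⟩ := ContDiff.lipschitzWith_of_hasCompactSupport (𝕂 := ℝ) f.hasCompactSupport hcd
    (by simp)
  set I := ∫ s in (0 : ℝ)..2, f s * s ^ 2 with hIdef
  set κ : ℝ := 1 / (4 * Real.pi * I) with hκ
  have hκ0 : 0 ≤ κ := by
    rw [hκ]
    exact (div_pos one_pos (mul_pos (mul_pos (by norm_num) Real.pi_pos) hI)).le
  refine ⟨fun s => κ * f s, κ * L, contDiff_const.mul hcd, fun s => mul_nonneg hκ0 f.nonneg,
    fun s hs => by simp [hz1 s hs], fun s hs => by simp [hz2 s hs],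
    mul_nonneg hκ0 L.2, ?_, ?_⟩
  · intro s t
    have h := hL.dist_le_mul s t
    rw [Real.dist_eq, Real.dist_eq] at h
    have : κ * f s - κ * f t = κ * (f s - f t) := by ring
    rw [this, abs_mul, abs_of_nonneg hκ0, mul_assoc]
    exact mul_le_mul_of_nonneg_left h hκ0
  · have h : (∫ s in (0 : ℝ)..2, κ * f s * s ^ 2) = κ * I := by
      rw [hIdef, ← intervalIntegral.integral_const_mul]
      congr 1
      funext s
      ring
    rw [h, hκ]
    have h1 : Real.pi ≠ 0 := Real.pi_pos.ne'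
    have h2 : I ≠ 0 := hI.ne'
    field_simp

private lemma PP_lower {k y1 η s : ℝ} (hk : 0 < k) (h2 : 2 * √k * y1 ≤ 1)
    (h3 : 2 * k * y1 ^ 2 ≤ η) (hs0 : 0 ≤ s) (hs1 : s ≤ 2 * y1) :
    (1 - η) * s ^ 2 ≤ PP k 0 s := by
  have hk4 : 0 < √k := Real.sqrt_pos.2 hk
  have hkk : √k * √k = k := Real.mul_self_sqrt hk.le
  rcases hs0.eq_or_lt with h0 | h0
  · subst h0
    simp [PP]
  have hz0 : 0 < √k * s := mul_pos hk4 h0
  have hz1 : √k * s ≤ 1 := by
    have := mul_le_mul_of_nonneg_left hs1 hk4.le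
    linarith
  have hsin := Real.sin_gt_sub_cube hz0
  set z := √k * s with hz
  have hzz : z ^ 2 = k * s ^ 2 := by
    rw [hz, mul_pow, Real.sq_sqrt hk.le]
  have hlow : 0 ≤ z - z ^ 3 / 6 := by
    have : z ^ 3 ≤ z := by
      have h := pow_le_one₀ hz0.le hz1 (n := 2)
      nlinarith
    linarith
  have hsq : (z - z ^ 3 / 6) ^ 2 ≤ Real.sin z ^ 2 := pow_le_pow_left₀ hlow hsin.le 2
  have h4 : z ^ 2 * (1 - z ^ 2 / 2) ≤ (z - z ^ 3 / 6) ^ 2 := by
    have : (z - z ^ 3 / 6) ^ 2 - z ^ 2 * (1 - z ^ 2 / 2) = z ^ 4 / 6 + z ^ 6 / 36 := by ring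
    have h5 : 0 ≤ z ^ 4 / 6 + z ^ 6 / 36 := by positivity
    linarith
  have h6 : z ^ 2 / 2 ≤ η := by
    rw [hzz]
    have : s ^ 2 ≤ (2 * y1) ^ 2 := pow_le_pow_left₀ hs0 hs1 2
    have := mul_le_mul_of_nonneg_left this hk.le
    nlinarith
  have h7 : z ^ 2 * (1 - η) ≤ Real.sin z ^ 2 := by
    have : z ^ 2 * (1 - η) ≤ z ^ 2 * (1 - z ^ 2 / 2) :=
      mul_le_mul_of_nonneg_left (by linarith) (sq_nonneg z)
    linarith
  have h8 : PP k 0 s = Real.sin z ^ 2 / k := by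
    unfold PP
    rw [sub_zero]
  rw [h8, le_div_iff₀ hk]
  rw [hzz] at h7
  linarith

private lemma model_int {k y1 η : ℝ} (hk : 0 < k) (hy : 0 < y1) (h4 : 4 * y1 < Real.pi / √k)
    (h2 : 2 * √k * y1 ≤ 1) (h3 : 2 * k * y1 ^ 2 ≤ η)
    {F1 : ℝ → ℝ} (hF : Continuous F1) (hF0 : ∀ s, 0 ≤ F1 s) (hF2 : ∀ s, 2 ≤ s → F1 s = 0) :
    (1 - η) * (∫ s in (0 : ℝ)..2, F1 s * s ^ 2) ≤
      ∫ s in (0 : ℝ)..(Real.pi / √k), ((y1 ^ 3)⁻¹ * F1 (s / y1)) * PP k 0 s := by
  have hPc : Continuous (PP k 0) := (PP_smooth k 0).continuous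
  have hc1 : Continuous (fun s => ((y1 ^ 3)⁻¹ * F1 (s / y1)) * PP k 0 s) := by
    have : Continuous (fun s : ℝ => F1 (s / y1)) := hF.comp (continuous_id.div_const y1)
    exact (continuous_const.mul this).mul hPc
  have hc2 : Continuous (fun s => (1 - η) * (((y1 ^ 3)⁻¹ * F1 (s / y1)) * s ^ 2)) := by
    have : Continuous (fun s : ℝ => F1 (s / y1)) := hF.comp (continuous_id.div_const y1)
    exact continuous_const.mul ((continuous_const.mul this).mul (continuous_pow 2))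
  have hsplit := intervalIntegral.integral_add_adjacent_intervals
    (hc1.intervalIntegrable (μ := volume) 0 (2 * y1))
    (hc1.intervalIntegrable (μ := volume) (2 * y1) (Real.pi / √k))
  have hzero : (∫ s in (2 * y1)..(Real.pi / √k), ((y1 ^ 3)⁻¹ * F1 (s / y1)) * PP k 0 s) = 0 := by
    apply intervalIntegral.integral_zero_ae
    refine Filter.Eventually.of_forall fun s hs => ?_
    rw [Set.uIoc_of_le (by linarith)] at hs
    have : 2 ≤ s / y1 := by
      rw [le_div_iff₀ hy]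
      exact hs.1.le
    rw [hF2 _ this]
    ring
  have hmono : (∫ s in (0 : ℝ)..(2 * y1), (1 - η) * (((y1 ^ 3)⁻¹ * F1 (s / y1)) * s ^ 2)) ≤
      ∫ s in (0 : ℝ)..(2 * y1), ((y1 ^ 3)⁻¹ * F1 (s / y1)) * PP k 0 s := by
    apply intervalIntegral.integral_mono_on (by linarith) (hc2.intervalIntegrable _ _)
      (hc1.intervalIntegrable _ _)
    intro s hs
    have h := PP_lower hk h2 h3 hs.1 hs.2
    have h5 : 0 ≤ (y1 ^ 3)⁻¹ * F1 (s / y1) := mul_nonneg (by positivity) (hF0 _)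
    have := mul_le_mul_of_nonneg_left h h5
    linarith
  have hsub : (∫ s in (0 : ℝ)..(2 * y1), (1 - η) * (((y1 ^ 3)⁻¹ * F1 (s / y1)) * s ^ 2)) =
      (1 - η) * (∫ s in (0 : ℝ)..2, F1 s * s ^ 2) := by
    rw [intervalIntegral.integral_const_mul]
    congr 1
    have h := intervalIntegral.integral_comp_div (a := 0) (b := 2 * y1)
      (fun t => F1 t * t ^ 2) hy.ne'
    rw [zero_div, mul_div_cancel_right₀ _ hy.ne', smul_eq_mul] at h
    have h5 : (∫ s in (0 : ℝ)..(2 * y1), ((y1 ^ 3)⁻¹ * F1 (s / y1)) * s ^ 2) =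
        ∫ s in (0 : ℝ)..(2 * y1), y1⁻¹ * (F1 (s / y1) * (s / y1) ^ 2) := by
      congr 1
      funext s
      field_simp
    rw [h5, intervalIntegral.integral_const_mul, h, ← mul_assoc, inv_mul_cancel₀ hy.ne', one_mul]
  linarith

theorem bishop [CompactSpace M] [ConnectedSpace M] [BorelSpace M] (G : SG M)
    (hE : Equi G) (hR : Resolv G) {p : M} {N : M → ℝ} (hN : LocN G p N)
    {k : ℝ} (hk : 0 < k) (hRic : ∀ x, G.RicGe (2 * k) x) :
    G.μ.real Set.univ ≤ 2 * Real.pi ^ 2 / (k * √k) := by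
  have := G.fin
  obtain ⟨F1, Lp, hF, hF0, hF1, hF2, hLp, hLip, hInt⟩ := exists_F1
  have hk4 : 0 < √k := Real.sqrt_pos.2 hk
  have hY : 0 < Real.pi / √k := div_pos Real.pi_pos hk4
  have hV0 : 0 ≤ G.μ.real Set.univ := measureReal_nonneg
  have hsm : ∀ b > (0 : ℝ), ∀ᶠ y in 𝓝[>] (0 : ℝ), y < b := fun b hb =>
    nhdsWithin_le_nhds (Iio_mem_nhds hb)
  have key : ∀ η, 0 < η → η ≤ 1 / 20 → G.μ.real Set.univ ≤
      2 * η + (1 + 2 * η + 9000 * Lp * η) / (1 - η) * (2 * Real.pi ^ 2 / (k * √k)) := by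
    intro η hη hη'
    obtain ⟨K1, hK1, σ1, hσ1, hbey⟩ := beyond G (κ0 := 2 * k) (by positivity) hRic hk
    have hRic0 : ∀ x, G.RicGe 0 x := by
      intro x b
      have h := hRic x b
      have h1 : 0 ≤ ∑ i, b i * b i := Finset.sum_nonneg fun i _ => mul_self_nonneg _
      have h2 : 0 ≤ 2 * k * ∑ i, b i * b i := mul_nonneg (by linarith) h1
      linarith
    obtain ⟨δ0, hδ0, hset⟩ := exists_setup G hE hR hRic0 hN hk
    obtain ⟨ys, hys, hsh⟩ := shell G hN (k := k) hF hF0 hF1 hF2 hLp hLip η hη hη'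
    -- choice of y1
    obtain ⟨y1, hy0, hyys, hyY, hyk, hyη, hyηk, hy1⟩ : ∃ y1 : ℝ, 0 < y1 ∧ y1 < ys ∧
        y1 < Real.pi / √k / 4 ∧ y1 < 1 / (2 * √k) ∧ y1 < η / 1000 ∧ y1 < η / (2 * k) ∧ y1 < 1 := by
      have h0 : ∀ᶠ y in 𝓝[>] (0 : ℝ), 0 < y := self_mem_nhdsWithin
      exact (h0.and ((hsm ys hys).and ((hsm _ (by positivity)).and ((hsm _ (by positivity)).and
        ((hsm _ (by positivity)).and ((hsm _ (by positivity)).and
          (hsm _ one_pos))))))).exists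
    obtain ⟨δs, hδs, hsh'⟩ := hsh y1 hy0 hyys
    obtain ⟨σ, hσ0, hσY, hσσ, hση⟩ : ∃ σ : ℝ, 0 < σ ∧ σ < Real.pi / √k / 4 ∧ σ < σ1 / 2 ∧
        σ < η / (2 * K1 * (G.μ.real Set.univ + 1)) := by
      have h0 : ∀ᶠ y in 𝓝[>] (0 : ℝ), 0 < y := self_mem_nhdsWithin
      exact (h0.and ((hsm _ (by positivity)).and ((hsm _ (by positivity)).and
        (hsm _ (by positivity))))).exists
    obtain ⟨δ, hδ, hδδ0, hδδs, hδσ, hδy⟩ : ∃ δ : ℝ, 0 < δ ∧ δ < δ0 ∧ δ < δs ∧ δ < σ1 ∧ δ < y1 := by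
      have h0 : ∀ᶠ y in 𝓝[>] (0 : ℝ), 0 < y := self_mem_nhdsWithin
      exact (h0.and ((hsm _ hδ0).and ((hsm _ hδs).and ((hsm _ hσ1).and (hsm _ hy0))))).exists
    obtain ⟨a, C, Kϕ, U, ϕ, X⟩ := hset δ hδ hδδ0
    have h4y : 4 * y1 < Real.pi / √k := by linarith
    have h4σ : 4 * σ < Real.pi / √k := by linarith
    have hsmF : ContDiff ℝ (⊤ : ℕ∞) (fun s => (y1 ^ 3)⁻¹ * F1 (s / y1)) :=
      contDiff_const.mul (hF.comp (contDiff_id.div_const y1))
    obtain ⟨c, hc0, hc1, hc2⟩ := int_ineq X hk hRic (y1 := y1) (σ := σ) hσ0 hδy.le h4y h4σ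
      (F := fun s => (y1 ^ 3)⁻¹ * F1 (s / y1)) hsmF
      (fun s => mul_nonneg (by positivity) (hF0 _))
      (fun s hs => by
        have : s / y1 ≤ 1 := by rw [div_le_one hy0]; exact hs
        simp only [hF1 _ this, mul_zero])
      (fun s hs => by
        have : 2 ≤ s / y1 := by rw [le_div_iff₀ hy0]; exact hs
        simp only [hF2 _ this, mul_zero])
    have E1 := hsh' δ a C Kϕ U ϕ X hδδs
    have E2 := hc2 η hη
    have E3 := hbey p N δ a C Kϕ U ϕ X hδσ.le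
      (Filter.Eventually.of_forall fun ε x _ _ => hRic x) (2 * σ) (by linarith) (by linarith)
    obtain ⟨ε, ⟨e1, e1'⟩, e2, e3⟩ := (E1.and (E2.and E3)).exists
    -- the three parts
    have hcov : (Set.univ : Set M) ⊆ {x | U ε x - a < 3 * y1} ∪
        ({x | 3 * y1 ≤ U ε x - a ∧ U ε x - a ≤ Real.pi / √k - 2 * σ} ∪
          {x | a + Real.pi / √k - 2 * σ ≤ U ε x}) := by
      intro x _
      by_cases hx1 : U ε x - a < 3 * y1
      · exact Or.inl hx1
      · by_cases hx2 : U ε x - a ≤ Real.pi / √k - 2 * σ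
        · exact Or.inr (Or.inl ⟨not_lt.1 hx1, hx2⟩)
        · right; right
          rw [not_le] at hx2
          change a + Real.pi / √k - 2 * σ ≤ U ε x
          linarith
    have hV : G.μ.real Set.univ ≤ G.μ.real {x | U ε x - a < 3 * y1} +
        (G.μ.real {x | 3 * y1 ≤ U ε x - a ∧ U ε x - a ≤ Real.pi / √k - 2 * σ} +
          G.μ.real {x | a + Real.pi / √k - 2 * σ ≤ U ε x}) := by
      refine (measureReal_mono hcov).trans ((measureReal_union_le _ _).trans ?_)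
      gcongr
      exact measureReal_union_le _ _
    set A := G.μ.real {x | 3 * y1 ≤ U ε x - a ∧ U ε x - a ≤ Real.pi / √k - 2 * σ} with hA
    have hA0 : 0 ≤ A := measureReal_nonneg
    have hmod := model_int hk hy0 h4y (η := η)
      (by
        rw [lt_div_iff₀ (by positivity)] at hyk
        linarith)
      (by
        rw [lt_div_iff₀ (by positivity)] at hyηk
        nlinarith)
      hF.continuous hF0 hF2
    have hcB : 1 - η ≤ c * (2 * Real.pi ^ 2 / (k * √k)) := by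
      have h1 := hmod.trans hc1
      have h2 := mul_le_mul_of_nonneg_left h1 (show (0 : ℝ) ≤ 4 * Real.pi by positivity)
      have h3 : 4 * Real.pi * ((1 - η) * ∫ s in (0 : ℝ)..2, F1 s * s ^ 2) = 1 - η := by
        calc 4 * Real.pi * ((1 - η) * ∫ s in (0 : ℝ)..2, F1 s * s ^ 2)
            = (1 - η) * (4 * Real.pi * ∫ s in (0 : ℝ)..2, F1 s * s ^ 2) := by ring
          _ = 1 - η := by rw [hInt, mul_one]
      rw [h3] at h2
      refine h2.trans (le_of_eq ?_)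
      field_simp
      ring
    have hB0 : 0 ≤ 2 * Real.pi ^ 2 / (k * √k) := by positivity
    have hcA : c * A ≤ 1 + 2 * η + 9000 * Lp * η := by
      have h1 : (∫ x, (y1 ^ 3)⁻¹ * F1 ((U ε x - a) / y1) ∂G.μ) ≤ (1 + η) + 9000 * Lp * η := by
        rw [hInt, mul_one] at e1
        exact e1
      have h2 : c * A ≤ (∫ x, (y1 ^ 3)⁻¹ * F1 ((U ε x - a) / y1) ∂G.μ) + η := e2
      linarith
    have hA1 : A ≤ (1 + 2 * η + 9000 * Lp * η) / (1 - η) * (2 * Real.pi ^ 2 / (k * √k)) := by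
      have h1 : (0 : ℝ) < 1 - η := by linarith
      rw [div_mul_eq_mul_div, le_div_iff₀ h1]
      have h2 := mul_le_mul_of_nonneg_left hcB hA0
      have h3 := mul_le_mul_of_nonneg_right hcA hB0
      calc A * (1 - η) ≤ A * (c * (2 * Real.pi ^ 2 / (k * √k))) := h2
        _ = c * A * (2 * Real.pi ^ 2 / (k * √k)) := by ring
        _ ≤ _ := h3
    have h3y : 1000 * y1 ^ 3 ≤ η := by
      have h1 : y1 ^ 2 ≤ 1 := pow_le_one₀ hy0.le hy1.le
      have h2 : y1 ^ 3 ≤ y1 := by nlinarith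
      linarith
    have hσV : K1 * (2 * σ) * G.μ.real Set.univ ≤ η := by
      rw [lt_div_iff₀ (by positivity)] at hση
      have : K1 * (2 * σ) * G.μ.real Set.univ ≤
          σ * (2 * K1 * (G.μ.real Set.univ + 1)) := by nlinarith [mul_pos hσ0 hK1]
      linarith
    linarith
  have hlim : Tendsto (fun η : ℝ => 2 * η + (1 + 2 * η + 9000 * Lp * η) / (1 - η) *
      (2 * Real.pi ^ 2 / (k * √k))) (𝓝[>] 0) (𝓝 (2 * Real.pi ^ 2 / (k * √k))) := by
    have hc : ContinuousAt (fun η : ℝ => 2 * η + (1 + 2 * η + 9000 * Lp * η) / (1 - η) *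
        (2 * Real.pi ^ 2 / (k * √k))) 0 := by
      apply ContinuousAt.add (by fun_prop)
      apply ContinuousAt.mul _ continuousAt_const
      apply ContinuousAt.div (by fun_prop) (by fun_prop)
      norm_num
    have h := hc.tendsto
    simp only [mul_zero, add_zero, sub_zero, div_one, one_mul, zero_add] at h
    exact h.mono_left nhdsWithin_le_nhds
  refine ge_of_tendsto hlim ?_
  have h0 : ∀ᶠ y in 𝓝[>] (0 : ℝ), 0 < y := self_mem_nhdsWithin
  filter_upwards [h0, hsm (1 / 20) (by norm_num)] with η h1 h2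
  exact key η h1 h2.le

end RFSE
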