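import Pool.Agent.RFS.ESG

/-!
Project RFS, chunk (e): derived rules of the scalar calculus `SG`.
-/

namespace RFSE

open MeasureTheory

namespace SG

variable {M : Type*} [TopologicalSpace M] [MeasurableSpace M] (G : SG M)

lemma lap_mem' {u : M → ℝ} (hu : u ∈ G.S) : G.lap u ∈ G.S := G.lap_mem u hu

lemma gam_mem' {u v : M → ℝ} (hu : u ∈ G.S) (hv : v ∈ G.S) : G.gam u v ∈ G.S :=
  G.gam_mem u hu v hv

lemma smul_mem {u : M → ℝ} (hu : u ∈ G.S) (c : ℝ) : (fun x => c * u x) ∈ G.S :=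
  G.mul_mem _ (G.const_mem c) u hu

lemma neg_mem {u : M → ℝ} (hu : u ∈ G.S) : (fun x => - u x) ∈ G.S := by
  have := G.smul_mem hu (-1)
  simpa using this

lemma sub_mem {u v : M → ℝ} (hu : u ∈ G.S) (hv : v ∈ G.S) : (fun x => u x - v x) ∈ G.S := by
  have := G.add_mem u hu _ (G.neg_mem hv)
  simpa [sub_eq_add_neg] using this

lemma d_const (c : ℝ) (x : M) (i : Fin 3) : G.d x i (fun _ => c) = 0 := by
  have h := G.d_comp (fun _ => c) (G.const_mem c) (fun _ => c)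
    (fun _ => contDiffAt_const) x i
  simpa using h

lemma H_const (c : ℝ) (x : M) (i j : Fin 3) : G.H x i j (fun _ => c) = 0 := by
  have h := G.H_comp (fun _ => c) (G.const_mem c) (fun _ => c)
    (fun _ => contDiffAt_const) x i j
  simpa using h

lemma d_smul {u : M → ℝ} (hu : u ∈ G.S) (c : ℝ) (x : M) (i : Fin 3) :
    G.d x i (fun y => c * u y) = c * G.d x i u := by
  have h := G.d_mul _ (G.const_mem c) u hu x i
  rw [h, G.d_const]; ring

lemma H_smul {u : M → ℝ} (hu : u ∈ G.S) (c : ℝ) (x : M) (i j : Fin 3) :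
    G.H x i j (fun y => c * u y) = c * G.H x i j u := by
  have h := G.H_mul _ (G.const_mem c) u hu x i j
  rw [h, G.d_const, G.d_const, G.H_const]; ring

lemma d_neg {u : M → ℝ} (hu : u ∈ G.S) (x : M) (i : Fin 3) :
    G.d x i (fun y => - u y) = - G.d x i u := by
  have h := G.d_smul hu (-1) x i
  simpa using h

lemma H_neg {u : M → ℝ} (hu : u ∈ G.S) (x : M) (i j : Fin 3) :
    G.H x i j (fun y => - u y) = - G.H x i j u := by
  have h := G.H_smul hu (-1) x i j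
  simpa using h

lemma d_sub {u v : M → ℝ} (hu : u ∈ G.S) (hv : v ∈ G.S) (x : M) (i : Fin 3) :
    G.d x i (fun y => u y - v y) = G.d x i u - G.d x i v := by
  have h := G.d_add u hu _ (G.neg_mem hv) x i
  rw [G.d_neg hv] at h
  simpa [sub_eq_add_neg] using h

lemma H_sub {u v : M → ℝ} (hu : u ∈ G.S) (hv : v ∈ G.S) (x : M) (i j : Fin 3) :
    G.H x i j (fun y => u y - v y) = G.H x i j u - G.H x i j v := by
  have h := G.H_add u hu _ (G.neg_mem hv) x i j
  rw [G.H_neg hv] at h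
  simpa [sub_eq_add_neg] using h

lemma lap_const (c : ℝ) (x : M) : G.lap (fun _ => c) x = 0 := by
  simp [lap, G.H_const]

lemma lap_smul {u : M → ℝ} (hu : u ∈ G.S) (c : ℝ) (x : M) :
    G.lap (fun y => c * u y) x = c * G.lap u x := by
  simp only [lap, G.H_smul hu, Finset.mul_sum]

lemma lap_neg {u : M → ℝ} (hu : u ∈ G.S) (x : M) :
    G.lap (fun y => - u y) x = - G.lap u x := by
  simp only [lap, G.H_neg hu, Finset.sum_neg_distrib]

lemma lap_add {u v : M → ℝ} (hu : u ∈ G.S) (hv : v ∈ G.S) (x : M) :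
    G.lap (fun y => u y + v y) x = G.lap u x + G.lap v x := by
  simp only [lap, G.H_add u hu v hv, Finset.sum_add_distrib]

lemma lap_sub {u v : M → ℝ} (hu : u ∈ G.S) (hv : v ∈ G.S) (x : M) :
    G.lap (fun y => u y - v y) x = G.lap u x - G.lap v x := by
  simp only [lap, G.H_sub hu hv, Finset.sum_sub_distrib]

lemma lap_mul {u v : M → ℝ} (hu : u ∈ G.S) (hv : v ∈ G.S) (x : M) :
    G.lap (fun y => u y * v y) x =
      u x * G.lap v x + v x * G.lap u x + 2 * G.gam u v x := by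
  simp only [lap, gam, G.H_mul u hu v hv, Fin.sum_univ_three]
  ring

lemma lap_comp {u : M → ℝ} (hu : u ∈ G.S) {f : ℝ → ℝ}
    (hf : ∀ x, ContDiffAt ℝ (⊤ : ℕ∞) f (u x)) (x : M) :
    G.lap (fun y => f (u y)) x =
      deriv (deriv f) (u x) * G.gam u u x + deriv f (u x) * G.lap u x := by
  simp only [lap, gam, G.H_comp u hu f hf, Fin.sum_univ_three]
  ring

lemma gam_comm (u v : M → ℝ) (x : M) : G.gam u v x = G.gam v u x := by
  simp only [gam, Fin.sum_univ_three]; ring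

lemma gam_self_nonneg (u : M → ℝ) (x : M) : 0 ≤ G.gam u u x := by
  simp only [gam, Fin.sum_univ_three]
  nlinarith [mul_self_nonneg (G.d x 0 u), mul_self_nonneg (G.d x 1 u),
    mul_self_nonneg (G.d x 2 u)]

lemma gam_comp_left {u v : M → ℝ} (hu : u ∈ G.S) {f : ℝ → ℝ}
    (hf : ∀ x, ContDiffAt ℝ (⊤ : ℕ∞) f (u x)) (x : M) :
    G.gam (fun y => f (u y)) v x = deriv f (u x) * G.gam u v x := by
  simp only [gam, G.d_comp u hu f hf, Fin.sum_univ_three]
  ring

lemma gam_comp_comp {u : M → ℝ} (hu : u ∈ G.S) {f g : ℝ → ℝ}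
    (hf : ∀ x, ContDiffAt ℝ (⊤ : ℕ∞) f (u x)) (hg : ∀ x, ContDiffAt ℝ (⊤ : ℕ∞) g (u x))
    (x : M) :
    G.gam (fun y => f (u y)) (fun y => g (u y)) x =
      deriv f (u x) * deriv g (u x) * G.gam u u x := by
  simp only [gam, G.d_comp u hu f hf, G.d_comp u hu g hg, Fin.sum_univ_three]
  ring

/-- Cauchy-Schwarz for gradients -/
lemma gam_sq_le (u v : M → ℝ) (x : M) :
    G.gam u v x ^ 2 ≤ G.gam u u x * G.gam v v x := by
  have h := Finset.sum_mul_sq_le_sq_mul_sq Finset.univ (fun i => G.d x i u)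
    (fun i => G.d x i v)
  simp only [gam]
  simpa [pow_two] using h

lemma locmin {u : M → ℝ} (hu : u ∈ G.S) {x : M} (h : IsLocalMin u x) :
    (∀ i, G.d x i u = 0) ∧ 0 ≤ G.lap u x := by
  have h' : IsLocalMax (fun y => - u y) x := h.neg
  obtain ⟨h1, h2⟩ := G.locmax _ (G.neg_mem hu) x h'
  refine ⟨fun i => ?_, ?_⟩
  · have := h1 i
    rw [G.d_neg hu] at this
    linarith
  · simp only [G.H_neg hu, Finset.sum_neg_distrib] at h2
    simp only [lap]
    linarith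

/-- derivative of `|grad u|^2` -/
lemma d_gam' {u : M → ℝ} (hu : u ∈ G.S) (x : M) (j : Fin 3) :
    G.d x j (G.gam u u) = 2 * ∑ i, G.d x i u * G.H x j i u := G.d_gam u hu x j

/-- Bochner formula -/
lemma bochner' {u : M → ℝ} (hu : u ∈ G.S) (x : M) :
    G.lap (G.gam u u) x = 2 * (∑ i, ∑ j, G.H x i j u ^ 2) + 2 * G.gam u (G.lap u) x +
      2 * (∑ i, ∑ j, G.Ric x i j * (G.d x i u * G.d x j u)) := G.bochner u hu x

lemma int_lap' {u : M → ℝ} (hu : u ∈ G.S) : ∫ x, G.lap u x ∂G.μ = 0 := G.int_lap u hu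

end SG

/-- matrix inequality: `(tr A - A(ν,ν))^2 ≤ 2 |A|^2` with `ν = b/|b|`. -/
lemma trace_ineq (A : Fin 3 → Fin 3 → ℝ) (b : Fin 3 → ℝ) {q : ℝ} (hq : q = ∑ i, b i * b i)
    (hq0 : 0 < q) :
    ((∑ i, A i i) - (∑ i, ∑ j, A i j * (b i * b j)) / q) ^ 2 ≤ 2 * ∑ i, ∑ j, A i j ^ 2 := by
  classical
  set P : Fin 3 → Fin 3 → ℝ := fun i j => (if i = j then 1 else 0) - b i * b j / q with hP
  have h1 : (∑ i, A i i) - (∑ i, ∑ j, A i j * (b i * b j)) / q = ∑ i, ∑ j, A i j * P i j := by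
    simp only [hP, Fin.sum_univ_three]
    have : q ≠ 0 := hq0.ne'
    field_simp
    simp
    ring
  have h2 : ∑ i, ∑ j, P i j ^ 2 = 2 := by
    simp only [hP, Fin.sum_univ_three]
    have hq' : q ≠ 0 := hq0.ne'
    rw [Fin.sum_univ_three] at hq
    simp
    field_simp
    subst hq
    ring
  have h3 : (∑ i, ∑ j, A i j * P i j) ^ 2 ≤ (∑ i, ∑ j, A i j ^ 2) * ∑ i, ∑ j, P i j ^ 2 := by
    have := Finset.sum_mul_sq_le_sq_mul_sq (Finset.univ : Finset (Fin 3 × Fin 3))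
      (fun p => A p.1 p.2) (fun p => P p.1 p.2)
    simpa [Fintype.sum_prod_type] using this
  rw [h1]
  rw [h2] at h3
  linarith

end RFSE
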