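import Pool.Agent.RFS.EMain2

/-!
Project RFS, chunk (e): the notions used in the final part of chunk (e).
-/

namespace RFSE

open MeasureTheory Filter Topology

variable {M : Type*} [TopologicalSpace M] [MeasurableSpace M]

/-- Equicontinuity of the smooth functions with `|∇u|² ≤ 2`. -/
def Equi (G : SG M) : Prop :=
  ∀ x : M, ∀ κ > 0, ∃ U ∈ 𝓝 x, ∀ u ∈ G.S, (∀ z, G.gam u u z ≤ 2) → ∀ y ∈ U, |u y - u x| < κ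

/-- Approximate solvability of `v - ε² Δ v = f`. -/
def Resolv (G : SG M) : Prop :=
  ∀ ε > 0, ∀ f ∈ G.S, (∀ x, 0 < f x) → ∀ τ > 0, ∃ v ∈ G.S, ∃ f' ∈ G.S,
    (∀ x, 0 < v x) ∧ (∀ x, 0 < f' x) ∧ (∀ x, v x - ε ^ 2 * G.lap v x = f' x) ∧
    (∀ x, |f' x - f x| ≤ τ) ∧
    (∀ x, G.gam (fun y => f' y - f y) (fun y => f' y - f y) x ≤ τ) ∧
    (∀ x, |G.lap (fun y => f' y - f y) x| ≤ τ)

/-- `N` is (near `p`) the square of the euclidean distance to `p` in suitable coordinates. -/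
structure LocN (G : SG M) (p : M) (N : M → ℝ) : Prop where
  mem : N ∈ G.S
  zero : N p = 0
  pos : ∀ x, x ≠ p → 0 < N x
  near : ∀ η > 0, ∃ r1 > 0,
    (∀ x, N x < r1 ^ 2 → G.gam N N x ≤ 4 * (1 + η) * N x) ∧
    (∀ B : ℝ, 0 ≤ B → ∀ u ∈ G.S, (∀ z, G.gam u u z ≤ B ^ 2) →
      ∀ x, N x < r1 ^ 2 → u x ≤ u p + B * (1 + η) * √(N x)) ∧
    (∀ F : ℝ → ℝ, Continuous F → (∀ s, 0 ≤ F s) → (∀ s, r1 ≤ s → F s = 0) →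
      ∫ x, F (√(N x)) ∂G.μ ≤ (1 + η) * (4 * Real.pi * ∫ s in (0 : ℝ)..r1, F s * s ^ 2))

/-- The families of solutions of the viscous eikonal equation with potential `≈ N/(2δ)`;
`a < 4δ` is the shift, `C` bounds `Δu`, `Kϕ` bounds the derivatives of the potential. -/
structure Setup (G : SG M) (p : M) (N : M → ℝ) (k δ a C Kϕ : ℝ) (U ϕ : ℝ → M → ℝ) : Prop where
  hδ : 0 < δ
  a0 : 3 * δ ≤ a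
  a1 : a < 4 * δ
  a2 : 4 * δ < a + Real.pi / √k
  C0 : 0 ≤ C
  K0 : 0 ≤ Kϕ
  init : PP k a (4 * δ) * C ≤ QQ k a (4 * δ)
  visc : ∀ᶠ ε in 𝓝[>] (0 : ℝ), Visc G ε (U ε) (ϕ ε)
  near : ∀ᶠ ε in 𝓝[>] (0 : ℝ), ∀ x, |ϕ ε x - N x / (2 * δ)| ≤ ε
  gamϕ : ∀ᶠ ε in 𝓝[>] (0 : ℝ), ∀ x, G.gam (ϕ ε) (ϕ ε) x ≤ Kϕ
  lapϕ : ∀ᶠ ε in 𝓝[>] (0 : ℝ), ∀ x, |G.lap (ϕ ε) x| ≤ Kϕ
  lapu : ∀ᶠ ε in 𝓝[>] (0 : ℝ), ∀ x, G.lap (U ε) x ≤ C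
  sep : ∀ᶠ ε in 𝓝[>] (0 : ℝ), ∀ x, 4 * δ ≤ U ε x → δ ≤ ϕ ε x - U ε x
  up : ∀ z > 0, ∀ᶠ ε in 𝓝[>] (0 : ℝ), U ε p ≤ z

end RFSE
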