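import Pool.Agent.RFS.Defs
import Pool.Agent.RFS.ENot

/-!
Project RFS, chunk (e): from the abstract calculus `SG` to a Riemannian metric on a closed
3-manifold. Definitions.
-/

open scoped Manifold ContDiff Matrix
open Set MeasureTheory

noncomputable section

namespace Pool.Agent.RFS.EE

open RFSE

variable {M : Type*} [TopologicalSpace M] [ChartedSpace E3 M]

/-- The function `u` in the chart `e`. -/
def loc (u : M → ℝ) (e : Ch M) : E3 → ℝ := fun x => u (e.1.symm x)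

/-- Smooth functions. -/
def Sm (u : M → ℝ) : Prop := ∀ e : Ch M, ContDiffOn ℝ ∞ (loc u e) e.1.target

/-- The scalar product of the gradients, in the chart `e`. -/
def gamC (g : RMetric M) (u v : M → ℝ) (e : Ch M) (x : E3) : ℝ :=
  ∑ k, ∑ l, (g.c e x)⁻¹ k l * (pd k (loc u e) x * pd l (loc v e) x)

/-- The Laplacian, in the chart `e`. -/
def lapC (g : RMetric M) (u : M → ℝ) (e : Ch M) (x : E3) : ℝ :=
  ∑ k, ∑ l, (g.c e x)⁻¹ k l *
    (pd k (fun y => pd l (loc u e) y) x - ∑ m, chr (g.c e) x m k l * pd m (loc u e) x)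

/-- `Ric ≥ c g` at the point with coordinates `x` in the chart `e`. -/
def RicC (g : RMetric M) (c : ℝ) (e : Ch M) (x : E3) : Prop :=
  ∀ v : Fin 3 → ℝ, c * ∑ i, ∑ j, g.c e x i j * v i * v j ≤
    ∑ i, ∑ j, ricci (g.c e) x i j * v i * v j

/-- `G` is the scalar calculus of the metric `g` with the measure `μ`. -/
structure IsSG [MeasurableSpace M] (g : RMetric M) (μ : Measure M) (G : SG M) : Prop where
  S_iff : ∀ u, u ∈ G.S ↔ Sm u
  μ_eq : G.μ = μ
  vol : IsVol g μ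
  gam_eq : ∀ u v, Sm u → Sm v → ∀ e : Ch M, ∀ x ∈ e.1.target,
    G.gam u v (e.1.symm x) = gamC g u v e x
  lap_eq : ∀ u, Sm u → ∀ e : Ch M, ∀ x ∈ e.1.target, G.lap u (e.1.symm x) = lapC g u e x
  ric : ∀ c : ℝ, ∀ e : Ch M, ∀ x ∈ e.1.target, RicC g c e x ↔ G.RicGe c (e.1.symm x)

/-- `F` is a solution of the heat equation of the static metric `g` on `[0, T] × M`. -/
structure IsHeat (g : RMetric M) (T : ℝ) (F : ℝ → M → ℝ) : Prop where
  smooth : ∀ e : Ch M, ContDiffOn ℝ ∞ (fun z : ℝ × E3 => F z.1 (e.1.symm z.2))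
    (Icc 0 T ×ˢ e.1.target)
  eqn : ∀ e : Ch M, ∀ x ∈ e.1.target, ∀ t ∈ Icc 0 T,
    HasDerivWithinAt (fun s => F s (e.1.symm x)) (lapC g (F t) e x) (Icc 0 T) t

/-- Global solvability of the heat equation (from chunk (a)). -/
def HasHeat (g : RMetric M) : Prop :=
  ∀ f : M → ℝ, Sm f → ∀ T, 0 < T → ∃ F : ℝ → M → ℝ, IsHeat g T F ∧ F 0 = f

end Pool.Agent.RFS.EE
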