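import Pool.Agent.RFS.ENot

/-!
Project RFS, chunk (e), module ECons: consequences of a `Setup` (all `∀ᶠ ε → 0+`).

PROOFS. All statements are `Filter.Eventually` combinations of the fields of `Setup` with
`Visc.gam_le` (`|∇u|² ≤ 1 + ε C`), `Visc.comparison` (`Cρ` = bound of `|Δρ|` on the compact `M`,
`η`, `m := m - ε`; errors `ε log(2/η) + ε → 0`), `Visc.lower`, `main_est` (with
`c = δ`, `u0 = 4δ`), `Visc.eq` and `exp_small` (on `{u ≥ 4δ}`: `h ≤ exp(-δ/ε) ≤ 2ε²/δ²`).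
-/

namespace RFSE

open MeasureTheory Filter Topology

variable {M : Type*} [TopologicalSpace M] [MeasurableSpace M]

private lemma ev_mul (c : ℝ) {z : ℝ} (hz : 0 < z) :
    ∀ᶠ ε in 𝓝[>] (0 : ℝ), ε * c ≤ z := by
  have h : Tendsto (fun ε : ℝ => ε * c) (𝓝[>] (0 : ℝ)) (𝓝 (0 * c)) :=
    ((continuous_id.mul continuous_const).tendsto 0).mono_left nhdsWithin_le_nhds
  rw [zero_mul] at h
  exact (h.eventually (gt_mem_nhds hz)).mono fun _ h => le_of_lt h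

private lemma ev_lt {z : ℝ} (hz : 0 < z) : ∀ᶠ ε in 𝓝[>] (0 : ℝ), ε < z :=
  nhdsWithin_le_nhds (gt_mem_nhds hz)

private lemma ev_pos : ∀ᶠ ε in 𝓝[>] (0 : ℝ), 0 < ε := self_mem_nhdsWithin

namespace Setup

variable {G : SG M} {p : M} {N : M → ℝ} {k δ a C Kϕ : ℝ} {U ϕ : ℝ → M → ℝ}

theorem gam_small (X : Setup G p N k δ a C Kϕ U ϕ) {z : ℝ} (hz : 0 < z) :
    ∀ᶠ ε in 𝓝[>] (0 : ℝ), ∀ x, G.gam (U ε) (U ε) x ≤ 1 + z := by
  filter_upwards [X.visc, X.lapu, ev_mul C hz] with ε V hl he x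
  have := V.gam_le hl x
  linarith

theorem ge_neg [CompactSpace M] (X : Setup G p N k δ a C Kϕ U ϕ) (hN : ∀ x, 0 ≤ N x)
    {z : ℝ} (hz : 0 < z) :
    ∀ᶠ ε in 𝓝[>] (0 : ℝ), ∀ x, -z ≤ U ε x := by
  filter_upwards [X.visc, X.near, ev_lt hz] with ε V hn he x
  have h1 : ∀ x, -ε ≤ ϕ ε x := fun x => by
    have h2 := (abs_le.1 (hn x)).1
    have h3 : 0 ≤ N x / (2 * δ) := div_nonneg (hN x) (by linarith [X.hδ])
    linarith
  have := V.lower h1 x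
  linarith

theorem comp [CompactSpace M] (X : Setup G p N k δ a C Kϕ U ϕ) {ρ : M → ℝ} (hρ : ρ ∈ G.S)
    {η m : ℝ} (hη : 0 < η) (h1 : ∀ x, G.gam ρ ρ x ≤ 1 - η) (hm : ∀ x, m ≤ N x / (2 * δ) - ρ x)
    {z : ℝ} (hz : 0 < z) :
    ∀ᶠ ε in 𝓝[>] (0 : ℝ), ∀ x, ρ x + m - z ≤ U ε x := by
  have hc : Continuous (G.lap ρ) := G.cont _ (G.lap_mem' hρ)
  obtain ⟨Cρ, hCρ⟩ : ∃ Cρ : ℝ, ∀ x, -Cρ ≤ G.lap ρ x := by
    obtain ⟨B, hB⟩ := (isCompact_range hc).bddBelow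
    exact ⟨-B, fun x => by rw [neg_neg]; exact hB (Set.mem_range_self x)⟩
  filter_upwards [X.visc, X.near, ev_mul Cρ (half_pos hη),
    ev_mul (1 + Real.log (2 / η)) hz] with ε V hn he1 he2 x
  have h2 : ∀ x, m - ε ≤ ϕ ε x - ρ x := fun x => by
    have h3 := (abs_le.1 (hn x)).1
    have h4 := hm x
    linarith
  have h5 := V.comparison hρ hη h1 hCρ he1 h2 x
  have h6 : ε * (1 + Real.log (2 / η)) = ε + ε * Real.log (2 / η) := by ring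
  rw [h6] at he2
  linarith

theorem main [CompactSpace M] (X : Setup G p N k δ a C Kϕ U ϕ) (hk : 0 < k)
    (hRic : ∀ᶠ ε in 𝓝[>] (0 : ℝ), ∀ x, 4 * δ ≤ U ε x → U ε x ≤ a + Real.pi / √k →
      G.RicGe (2 * k) x) {z : ℝ} (hz : 0 < z) :
    ∀ᶠ ε in 𝓝[>] (0 : ℝ), ∀ x, 4 * δ ≤ U ε x → U ε x ≤ a + Real.pi / √k →
      PP k a (U ε x) * G.lap (U ε) x - QQ k a (U ε x) ≤ z := by
  obtain ⟨ε0, h0, h⟩ := main_est G hk X.C0 X.K0 X.hδ hz
  filter_upwards [X.visc, X.lapu, X.gamϕ, X.lapϕ, X.sep, hRic, ev_lt h0]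
    with ε V hl hg hlϕ hs hR he
  exact h ε he (U ε) (ϕ ε) a (4 * δ) V hl hg hlϕ X.a1 X.a2 X.init hs hR

/-- `| |∇u|² - 1 | ≤ z (1 + |Δu|)` on `{u ≥ 4δ}` -/
theorem gam_near (X : Setup G p N k δ a C Kϕ U ϕ) {z : ℝ} (hz : 0 < z) :
    ∀ᶠ ε in 𝓝[>] (0 : ℝ), ∀ x, 4 * δ ≤ U ε x →
      |G.gam (U ε) (U ε) x - 1| ≤ z * (1 + |G.lap (U ε) x|) := by
  have hδ := X.hδ
  filter_upwards [X.visc, X.sep, ev_lt hz, ev_lt one_pos, ev_mul (2 / δ ^ 2) hz]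
    with ε V hs he he1 he2 x hx
  have hε := V.eps
  have h1 : Real.exp ((U ε x - ϕ ε x) / ε) ≤ 2 * ε ^ 2 / δ ^ 2 := by
    have h2 : Real.exp ((U ε x - ϕ ε x) / ε) ≤ Real.exp (-(δ / ε)) := by
      apply Real.exp_le_exp.2
      rw [div_le_iff₀ hε]
      have h3 : -(δ / ε) * ε = -δ := by field_simp
      rw [h3]
      linarith [hs x hx]
    exact h2.trans (exp_small hδ hε)
  have h4 : 2 * ε ^ 2 / δ ^ 2 ≤ z := by
    have h5 : 2 * ε ^ 2 / δ ^ 2 = ε * (2 / δ ^ 2) * ε := by ring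
    rw [h5]
    have h6 : 0 ≤ ε * (2 / δ ^ 2) := by positivity
    have h7 := mul_le_mul_of_nonneg_left he1.le h6
    linarith
  have h8 : 0 < Real.exp ((U ε x - ϕ ε x) / ε) := Real.exp_pos _
  have h9 : |ε * G.lap (U ε) x| ≤ z * |G.lap (U ε) x| := by
    rw [abs_mul, abs_of_pos hε]
    exact mul_le_mul_of_nonneg_right he.le (abs_nonneg _)
  obtain ⟨h10, h11⟩ := abs_le.1 h9
  rw [V.eq x]
  have h12 : z * (1 + |G.lap (U ε) x|) = z + z * |G.lap (U ε) x| := by ring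
  rw [h12, abs_le]
  constructor <;> linarith

end Setup

end RFSE
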