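import Pool.Agent.RFS.EMv

/-!
Project RFS, chunk (e), module EPol: integrals of functions of a quadratic form over `E3`.

PROOF. `A` positive definite: there is an invertible matrix `B` with `A = Bᵀ B` (e.g. the positive
square root, or `Matrix.posDef_iff`/Cholesky), so `qf A y = |B y|²` and `det A = (det B)²`. Change
of variables `y = B⁻¹ z` (`MeasureTheory.Measure.integral_comp_...`, `Real.map_matrix_volume_pi_eq_smul_volume_pi`,
or `MeasureTheory.Measure.addHaar_preimage_linearMap` / `integral_image_eq_integral_abs_det_fderiv_smul`):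
`∫ F(√(qf A y)) dy = |det B|⁻¹ ∫ F(|z|) dz`. Polar coordinates: `integral_fun_norm_addHaar`:
`∫ F(|z|) dz = 3 · vol(ball 0 1) · ∫_0^∞ s² F s ds`, `vol(ball 0 1) = 4π/3`
(`EuclideanSpace.volume_ball` with `Fin 3`, `Real.Gamma` at `5/2`; or
`InnerProductSpace.volume_ball`). `F = 0` beyond `r1`.
-/

open scoped Manifold ContDiff Matrix
open Set MeasureTheory

noncomputable section

namespace Pool.Agent.RFS.EE

open scoped MatrixOrder in
private lemma exists_root {A : Mat3} (hA : A.PosDef) : ∃ B : Mat3, A = Bᵀ * B := by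
  obtain ⟨B, hB⟩ := CStarAlgebra.nonneg_iff_eq_star_mul_self.mp hA.posSemidef.nonneg
  refine ⟨B, ?_⟩
  rw [hB, Matrix.star_eq_conjTranspose, Matrix.conjTranspose_eq_transpose_of_trivial]

private lemma norm_toE (B : Mat3) (v : E3) :
    ‖Matrix.toEuclideanLin B v‖ = √(qf (Bᵀ * B) v) := by
  rw [EuclideanSpace.norm_eq]
  congr 1
  simp only [Matrix.toLpLin_apply, Real.norm_eq_abs, sq_abs, qf, Fin.sum_univ_three,
    Matrix.mulVec, dotProduct, Matrix.mul_apply, Matrix.transpose_apply]
  ring

private lemma det_toE (B : Mat3) : LinearMap.det (Matrix.toEuclideanLin B) = B.det := by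
  rw [Matrix.toEuclideanLin_eq_toLin, LinearMap.det_toLin]

private lemma int_norm {F : ℝ → ℝ} {r1 : ℝ} (hr : 0 < r1) (hF0 : ∀ s, r1 ≤ s → F s = 0) :
    ∫ y : E3, F ‖y‖ = 4 * Real.pi * ∫ s in (0 : ℝ)..r1, F s * s ^ 2 := by
  rw [integral_fun_norm_addHaar]
  have h1 : (volume : Measure E3).real (Metric.ball 0 1) = Real.pi * 4 / 3 := by
    rw [Measure.real, EuclideanSpace.volume_ball_fin_three]
    simp only [ENNReal.ofReal_one, one_pow, one_mul]
    exact ENNReal.toReal_ofReal (by positivity)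
  have h2 : ∫ y in Ioi (0 : ℝ), y ^ (Module.finrank ℝ E3 - 1) • F y =
      ∫ s in (0 : ℝ)..r1, F s * s ^ 2 := by
    rw [intervalIntegral.integral_of_le hr.le]
    have h3 : Module.finrank ℝ E3 = 3 := by simp
    rw [h3, setIntegral_eq_of_subset_of_forall_diff_eq_zero measurableSet_Ioi
      (Ioc_subset_Ioi_self : Ioc (0 : ℝ) r1 ⊆ Ioi 0)]
    · apply setIntegral_congr_fun measurableSet_Ioc
      intro x _
      change x ^ (3 - 1) • F x = F x * x ^ 2
      rw [smul_eq_mul, mul_comm]
    · intro x hx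
      have hx1 : r1 < x := by
        by_contra hc
        exact hx.2 ⟨hx.1, not_lt.1 hc⟩
      rw [hF0 x hx1.le, smul_zero]
  rw [h1, h2]
  have h3 : Module.finrank ℝ E3 = 3 := by simp
  rw [h3]
  simp only [nsmul_eq_mul, smul_eq_mul]
  push_cast
  ring

theorem int_qf {A : Mat3} (hA : A.PosDef) {F : ℝ → ℝ} (hF : Continuous F) {r1 : ℝ}
    (hr : 0 < r1) (hF0 : ∀ s, r1 ≤ s → F s = 0) (x0 : E3) :
    Integrable (fun y : E3 => F (√(qf A (y - x0)))) ∧
    ∫ y : E3, F (√(qf A (y - x0))) =
      (√A.det)⁻¹ * (4 * Real.pi * ∫ s in (0 : ℝ)..r1, F s * s ^ 2) := by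
  obtain ⟨B, hB⟩ := exists_root hA
  set L := Matrix.toEuclideanLin B with hL
  have hdetA : A.det = B.det ^ 2 := by
    rw [hB, Matrix.det_mul, Matrix.det_transpose]
    ring
  have hdB : B.det ≠ 0 := by
    intro h
    have := hA.det_pos
    rw [hdetA, h] at this
    simp at this
  have hdL : LinearMap.det L ≠ 0 := by
    rw [hL, det_toE]
    exact hdB
  have hLc : Continuous L := LinearMap.continuous_of_finiteDimensional L
  have hnorm : ∀ v : E3, √(qf A v) = ‖L v‖ := fun v => by
    rw [hL, norm_toE, ← hB]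
  have hmap := Measure.map_linearMap_addHaar_eq_smul_addHaar (volume : Measure E3) hdL
  have hFn : Continuous (fun w : E3 => F ‖w‖) := hF.comp continuous_norm
  have hsupp : HasCompactSupport (fun w : E3 => F ‖w‖) := by
    apply HasCompactSupport.intro (isCompact_closedBall (0 : E3) r1)
    intro w hw
    apply hF0
    rw [mem_closedBall_zero_iff, not_le] at hw
    exact hw.le
  have hint : Integrable (fun w : E3 => F ‖w‖) := hFn.integrable_of_hasCompactSupport hsupp
  have hint2 : Integrable (fun w : E3 => F ‖w‖) (Measure.map L volume) := by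
    rw [hmap]
    exact hint.smul_measure ENNReal.ofReal_ne_top
  have hint3 : Integrable (fun v : E3 => F ‖L v‖) := hint2.comp_measurable hLc.measurable
  have hfun : (fun y : E3 => F (√(qf A (y - x0)))) = fun y => (fun v => F ‖L v‖) (y - x0) := by
    funext y
    rw [hnorm]
  refine ⟨?_, ?_⟩
  · rw [hfun]
    exact hint3.comp_sub_right x0
  · rw [hfun, integral_sub_right_eq_self (fun v : E3 => F ‖L v‖) x0]
    have h1 : ∫ v : E3, F ‖L v‖ = ∫ w, F ‖w‖ ∂(Measure.map L volume) :=
      (integral_map hLc.measurable.aemeasurable hFn.aestronglyMeasurable).symm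
    rw [h1, hmap, integral_smul_measure, int_norm hr hF0]
    congr 1
    rw [ENNReal.toReal_ofReal (abs_nonneg _), hL, det_toE, hdetA, Real.sqrt_sq_eq_abs, abs_inv]

end Pool.Agent.RFS.EE
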