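import Pool.Agent.RFS.FVO

/-!
# RFS, chunk (f), module FIN: integrals in a chart

Proof.  `μ.restrict e.1.source = Measure.map e.1.symm ((volume.restrict e.1.target).withDensity
(fun x => ENNReal.ofReal √det))`: both sides agree on measurable sets by `IsVol` and
`e.1.target ∩ e.1.symm ⁻¹' B = e.1 '' (B ∩ e.1.source)` (the map `e.1.symm` is a.e.-measurable with
respect to `volume.restrict e.1.target`).  Then `integral_map`,
`integral_withDensity_eq_integral_toReal_smul₀` (or `..._smul`), and
`∫ f ∂μ = ∫ in e.1.source, f ∂μ` because `f = 0` outside (`setIntegral_eq_integral_of_forall_compl_eq_zero`).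
Measurability: `f` is continuous on the open set `e.1.source`, so it is a.e.-strongly measurable
with respect to `μ.restrict e.1.source` (`ContinuousOn.aestronglyMeasurable`; `M` need not be second
countable here, but the target space `ℝ` is, use `ContinuousOn.aemeasurable`).
-/

open scoped Manifold ContDiff Matrix
open Set MeasureTheory

noncomputable section

namespace Pool.Agent.RFS

variable {M : Type*} [TopologicalSpace M] [ChartedSpace E3 M] [MeasurableSpace M] [BorelSpace M]

theorem restrict_source_eq (g : RMetric M) {μ : Measure M} (hμ : IsVol g μ) (e : Ch M) :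
    μ.restrict e.1.source = nuM g e := by
  ext B hB
  rw [Measure.restrict_apply hB, hμ e _ (hB.inter e.1.open_source.measurableSet)
    inter_subset_right, nuM_apply g e hB]

theorem integral_chart (g : RMetric M) {μ : Measure M} (hμ : IsVol g μ) (e : Ch M) (f : M → ℝ)
    (hf : ContinuousOn f e.1.source) (h0 : ∀ p, p ∉ e.1.source → f p = 0) :
    ∫ p, f p ∂μ = ∫ x in e.1.target, f (e.1.symm x) * Real.sqrt (g.c e x).det := by
  rw [← setIntegral_eq_integral_of_forall_compl_eq_zero h0]
  have hac : ((volume.restrict e.1.target).withDensity
    (fun x => ENNReal.ofReal (Real.sqrt (g.c e x).det))) ≪ volume.restrict e.1.target :=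
    withDensity_absolutelyContinuous _ _
  have hm : AEMeasurable (fun x => ENNReal.ofReal (Real.sqrt (g.c e x).det))
      (volume.restrict e.1.target) :=
    ((continuousOn_sqrt_det g e).aemeasurable e.1.open_target.measurableSet).ennreal_ofReal
  have hfm : AEStronglyMeasurable f (μ.restrict e.1.source) :=
    (hf.aemeasurable e.1.open_source.measurableSet).aestronglyMeasurable
  rw [restrict_source_eq g hμ e] at hfm ⊢
  rw [nuM] at hfm ⊢
  rw [integral_map ((aemeasurable_symm e).mono_ac hac) hfm]
  rw [integral_withDensity_eq_integral_toReal_smul₀ hm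
    (Filter.Eventually.of_forall fun x => ENNReal.ofReal_lt_top)]
  apply integral_congr_ae
  refine Filter.Eventually.of_forall fun x => ?_
  simp only [smul_eq_mul]
  rw [ENNReal.toReal_ofReal (Real.sqrt_nonneg _), mul_comm]

end Pool.Agent.RFS
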