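import Pool.Agent.RFS.ENfn
import Pool.Agent.RFS.EPol
import Pool.Agent.RFS.FIN

/-!
Project RFS, chunk (e), module ELoc: the function `N` has the properties `LocN`.

PROOF. `N` from `exists_N`, `e = chA p`, `x0 = e p`, `A = g.c e x0`. Given `η > 0` choose `η'`
with `(1+η')² ≤ 1 + η`, `0 < η' ≤ η`, and `r ≤ r0` with: `chart_mvt` (for `η'`), `qf_compare` (for
`η'`), `√det(g.c e x) ≤ (1+η) √det A` for `x ∈ ball x0 r` (continuity, `det A > 0`). `m` from the
last part of `exists_N` for `r`; `r1 > 0` with `r1² ≤ m`.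
(1) `N x < r1²`: `x = e.symm y`, `y ∈ ball x0 r`, and `N (e.symm ·) = qf A (· - x0)` near `y`, so
 `pd k (loc N e) y = 2 ∑ A k j z_j`, `z = y - x0`; `G.gam N N x = gamC = 4 (A z)^T (g.c e y)⁻¹ (A z)
 ≤ 4 (1+η')² z^T A z` (from `qf_compare`: `B ≥ (1+η')⁻² A` implies `B⁻¹ ≤ (1+η')² A⁻¹`; direct
 proof: put `w = A z`, `v = B⁻¹ w`; `w^T B⁻¹ w = v^T B v`, and `w^T v = z^T A v ≤ √(z^T A z) √(v^T A v)
 ≤ √(z^T A z) (1+η') √(v^T B v)`, so `w^T B⁻¹ w ≤ (1+η')² z^T A z`).
(2) `chart_mvt` and `N x = qf A (e x - x0)`.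
(3) `F(√(N x))` is continuous and vanishes unless `N x < r1²`, i.e. outside
 `{x ∈ e.source | e x ∈ ball x0 r}`; `integral_chart` (FIN): `∫ F(√N) dμ = ∫_{e.target} F(√(N(e.symm y)))
 √det(g.c e y) dy ≤ (1+η) √det A ∫_{E3} F(√(qf A (y - x0))) dy` (the integrand on the left vanishes
 outside the ball, `F ≥ 0`), then `int_qf`.
-/

open scoped Manifold ContDiff Matrix
open Set MeasureTheory

noncomputable section

namespace Pool.Agent.RFS.EE

open RFSE

variable {M : Type*} [TopologicalSpace M] [ChartedSpace E3 M] [IsManifold (𝓡 3) ∞ M]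
  [CompactSpace M] [T2Space M] [MeasurableSpace M] [BorelSpace M]

private lemma eloc_sum (B : Mat3) (W : Fin 3 → ℝ) :
    ∑ k, ∑ l, B k l * ((2 * W k) * (2 * W l)) = 4 * ∑ k, ∑ l, B k l * (W k * W l) := by
  simp only [Fin.sum_univ_three]
  ring

/-- `w^T B⁻¹ w ≤ c z^T A z` for `w = A z` if `A ≤ c B`. -/
private lemma eloc_alg {A B : Mat3} (hA : A.PosDef) (hB : B.PosDef) (z : E3) {c : ℝ}
    (hc : 0 ≤ c) (h : ∀ v, qf A v ≤ c * qf B v) :
    ∑ k, ∑ l, B⁻¹ k l * ((∑ j, A k j * z j) * ∑ j, A l j * z j) ≤ c * qf A z := by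
  have hAd : IsUnit A.det := isUnit_iff_ne_zero.2 hA.det_pos.ne'
  have hBd : IsUnit B.det := isUnit_iff_ne_zero.2 hB.det_pos.ne'
  set w : Fin 3 → ℝ := A.mulVec (fun i => z i) with hw
  have hwk : ∀ k, ∑ j, A k j * z j = w k := fun k => rfl
  simp only [hwk]
  set v : Fin 3 → ℝ := B⁻¹.mulVec w with hv
  set v' : E3 := WithLp.toLp 2 v with hv'
  have hv'v : ∀ i, v' i = v i := fun i => rfl
  -- the quantity
  have hS : ∑ k, ∑ l, B⁻¹ k l * (w k * w l) = ∑ k, w k * v k := by
    refine Finset.sum_congr rfl fun k _ => ?_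
    have : v k = ∑ l, B⁻¹ k l * w l := rfl
    rw [this, Finset.mul_sum]
    exact Finset.sum_congr rfl fun l _ => by ring
  have hBv : B.mulVec v = w := by
    rw [hv, Matrix.mulVec_mulVec, Matrix.mul_nonsing_inv B hBd, Matrix.one_mulVec]
  have hqB : qf B v' = ∑ k, w k * v k := by
    unfold qf
    refine Finset.sum_congr rfl fun i _ => ?_
    have h1 : w i = ∑ j, B i j * v j := by rw [← hBv]; rfl
    rw [h1, Finset.sum_mul]
    exact Finset.sum_congr rfl fun j _ => by rw [hv'v, hv'v]; ring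
  have hAw : A⁻¹.mulVec w = fun i => z i := by
    rw [hw, Matrix.mulVec_mulVec, Matrix.nonsing_inv_mul A hAd, Matrix.one_mulVec]
  have hqA : ∑ k, ∑ l, A⁻¹ k l * (w k * w l) = qf A z := by
    have h1 : ∑ k, ∑ l, A⁻¹ k l * (w k * w l) = ∑ k, w k * z k := by
      refine Finset.sum_congr rfl fun k _ => ?_
      have : z k = ∑ l, A⁻¹ k l * w l := (congrFun hAw k).symm
      rw [this, Finset.mul_sum]
      exact Finset.sum_congr rfl fun l _ => by ring
    rw [h1]
    unfold qf
    refine Finset.sum_congr rfl fun i _ => ?_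
    rw [← hwk, Finset.sum_mul]
    exact Finset.sum_congr rfl fun j _ => by ring
  have hcs := cs_inv hA w v'
  rw [hqA] at hcs
  have h1 := h v'
  rw [hqB] at h1
  rw [hS]
  have h2 : ∑ k, w k * v' k = ∑ k, w k * v k := rfl
  rw [h2] at hcs
  have hzA : 0 ≤ qf A z := by
    have h3 := hA.posSemidef.dotProduct_mulVec_nonneg (fun i => z i)
    have h4 : qf A z = star (fun i => z i) ⬝ᵥ A.mulVec (fun i => z i) := by
      unfold qf
      simp only [dotProduct, Matrix.mulVec, Pi.star_apply, star_trivial, Finset.mul_sum]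
      exact Finset.sum_congr rfl fun i _ => Finset.sum_congr rfl fun j _ => by ring
    rw [h4]
    exact h3
  generalize ∑ k, w k * v k = s at *
  generalize qf A z = q at *
  generalize qf A v' = r at *
  by_cases hs : s ≤ 0
  · exact hs.trans (mul_nonneg hc hzA)
  · push Not at hs
    have h5 : s ^ 2 ≤ q * (c * s) := hcs.trans (mul_le_mul_of_nonneg_left h1 hzA)
    have h6 : s * s ≤ (c * q) * s := by nlinarith
    exact le_of_mul_le_mul_right h6 hs

/-- The first derivatives of a quadratic form. -/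
private lemma eloc_pd {A : Mat3} (hs : Aᵀ = A) (x0 y : E3) (k : Fin 3) :
    pd k (fun x => qf A (x - x0)) y = 2 * ∑ j, A k j * (y - x0) j := by
  have hsym : ∀ i j, A i j = A j i := fun i j => by
    conv_lhs => rw [← hs]
    rfl
  have hc : ∀ i : Fin 3, HasFDerivAt (fun x : E3 => (x - x0) i)
      (EuclideanSpace.proj i : E3 →L[ℝ] ℝ) y := by
    intro i
    have h1 : HasFDerivAt (fun x : E3 => x - x0) (ContinuousLinearMap.id ℝ E3) y :=
      (hasFDerivAt_id y).sub_const x0
    exact (EuclideanSpace.proj i : E3 →L[ℝ] ℝ).hasFDerivAt.comp y h1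
  have hq : HasFDerivAt (fun x => qf A (x - x0))
      (∑ i, ∑ j, A i j • ((y - x0) i • (EuclideanSpace.proj j : E3 →L[ℝ] ℝ) +
        (y - x0) j • (EuclideanSpace.proj i : E3 →L[ℝ] ℝ))) y := by
    unfold qf
    exact HasFDerivAt.fun_sum fun i _ => HasFDerivAt.fun_sum fun j _ =>
      ((hc i).mul (hc j)).const_mul _
  rw [pd, hq.fderiv]
  have hb : ∀ i, (EuclideanSpace.proj i : E3 →L[ℝ] ℝ) (bv k) = if i = k then 1 else 0 := by
    intro i
    simp [bv]
  simp only [ContinuousLinearMap.sum_apply, ContinuousLinearMap.smul_apply,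
    ContinuousLinearMap.add_apply, hb, smul_eq_mul]
  simp only [Fin.sum_univ_three]
  fin_cases k <;> simp <;> (try rw [hsym 1 0]) <;> (try rw [hsym 2 0]) <;> (try rw [hsym 2 1]) <;>
    ring

theorem exists_LocN (g : RMetric M) {μ : Measure M} {G : SG M} (hG : IsSG g μ G) (p : M) :
    ∃ N, LocN G p N := by
  obtain ⟨N, hSm, hNc, hNp, hNpos, ⟨r0, hr0, hball0, hNloc⟩, hNsm⟩ := exists_N g p
  have hNS : N ∈ G.S := (hG.S_iff N).2 hSm
  refine ⟨N, { mem := hNS, zero := hNp, pos := hNpos, near := ?_ }⟩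
  intro η hη
  set e : Ch M := chA p with he
  set x0 : E3 := e.1 p with hx0d
  have hps : p ∈ e.1.source := mem_chA p
  have hx0 : x0 ∈ e.1.target := e.1.map_source hps
  have hpe : e.1.symm x0 = p := e.1.left_inv hps
  set A : Mat3 := g.c e x0 with hA
  have hAp : A.PosDef := g.pos e x0 hx0
  have hAdet : 0 < A.det := hAp.det_pos
  have hAs : Aᵀ = A := g.symm e x0 hx0
  obtain ⟨η', hη', hη1, hη2⟩ : ∃ η' : ℝ, 0 < η' ∧ η' ≤ η ∧ (1 + η') ^ 2 ≤ 1 + η := by
    refine ⟨min 1 η / 3, by positivity, ?_, ?_⟩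
    · have := min_le_right 1 η
      have : 0 < min 1 η := by positivity
      linarith
    · have h1 := min_le_right 1 η
      have h2 := min_le_left 1 η
      have h3 : 0 < min 1 η := by positivity
      nlinarith
  obtain ⟨ra, hra, hba, hqc⟩ := qf_compare g e hx0 hη'
  obtain ⟨rb, hrb, hbb, hmv⟩ := chart_mvt g hG e hx0 hη'
  obtain ⟨rc, hrc, hdet⟩ : ∃ rc > 0, ∀ x ∈ Metric.ball x0 rc, x ∈ e.1.target →
      Real.sqrt (g.c e x).det ≤ (1 + η) * Real.sqrt A.det := by
    have h1 := (continuousOn_sqrt_det g e).continuousAt (e.1.open_target.mem_nhds hx0)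
    have hs0 : 0 < Real.sqrt A.det := Real.sqrt_pos.2 hAdet
    have h2 : ∀ᶠ x in nhds x0, Real.sqrt (g.c e x).det < (1 + η) * Real.sqrt A.det := by
      apply h1.eventually_lt_const
      show Real.sqrt A.det < (1 + η) * Real.sqrt A.det
      nlinarith
    obtain ⟨rc, hrc, h3⟩ := Metric.eventually_nhds_iff_ball.1 h2
    exact ⟨rc, hrc, fun x hx _ => (h3 x hx).le⟩
  set r : ℝ := min r0 (min ra (min rb rc)) with hr
  have hr0' : 0 < r := by positivity
  have hra' : r ≤ ra := (min_le_right _ _).trans (min_le_left _ _)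
  have hrb' : r ≤ rb := (min_le_right _ _).trans ((min_le_right _ _).trans (min_le_left _ _))
  have hrc' : r ≤ rc := (min_le_right _ _).trans ((min_le_right _ _).trans (min_le_right _ _))
  obtain ⟨m, hm, hNm⟩ := hNsm r hr0'
  have hr1 : Real.sqrt m ^ 2 = m := Real.sq_sqrt hm.le
  have hN0 : ∀ x, 0 ≤ N x := by
    intro x
    by_cases h : x = p
    · rw [h, hNp]
    · exact (hNpos x h).le
  -- small values of `N`
  have hsmall : ∀ x, N x < Real.sqrt m ^ 2 → x ∈ e.1.source ∧ e.1 x ∈ Metric.ball x0 r := by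
    intro x hx
    rw [hr1] at hx
    exact hNm x hx
  have hNqf : ∀ y ∈ Metric.ball x0 r, N (e.1.symm y) = qf A (y - x0) := fun y hy =>
    hNloc y (Metric.ball_subset_ball (min_le_left _ _) hy)
  refine ⟨Real.sqrt m, Real.sqrt_pos.2 hm, ?_, ?_, ?_⟩
  · intro x hx
    obtain ⟨hxs, hxb⟩ := hsmall x hx
    set y : E3 := e.1 x with hy
    have hyt : y ∈ e.1.target := e.1.map_source hxs
    have hyx : e.1.symm y = x := e.1.left_inv hxs
    have hgam : G.gam N N x = gamC g N N e y := by
      rw [← hyx]; exact hG.gam_eq N N hSm hSm e y hyt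
    have hNx : N x = qf A (y - x0) := by rw [← hyx]; exact hNqf y hxb
    have hpd : ∀ k, pd k (loc N e) y = 2 * ∑ j, A k j * (y - x0) j := by
      intro k
      rw [← eloc_pd hAs x0 y k]
      unfold pd
      have h1 : loc N e =ᶠ[nhds y] fun x => qf A (x - x0) := by
        filter_upwards [Metric.isOpen_ball.mem_nhds hxb] with z hz
        exact hNqf z hz
      rw [h1.fderiv_eq]
    have hle := eloc_alg hAp (g.pos e y hyt) (y - x0) (sq_nonneg (1 + η'))
      (fun v => (hqc y (Metric.ball_subset_ball hra' hxb) v).2)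
    rw [hgam, gamC, hNx]
    simp only [hpd]
    have h5 := eloc_sum (g.c e y)⁻¹ fun k => ∑ j, A k j * (y - x0) j
    rw [h5]
    have hq0 : 0 ≤ qf A (y - x0) := by rw [← hNx]; exact hN0 x
    have h6 := mul_le_mul_of_nonneg_right hη2 hq0
    linarith
  · intro B hB u hu hgu x hx
    obtain ⟨hxs, hxb⟩ := hsmall x hx
    have hyx : e.1.symm (e.1 x) = x := e.1.left_inv hxs
    have h1 := hmv B hB u hu hgu (e.1 x) (Metric.ball_subset_ball hrb' hxb)
    rw [hyx, hpe] at h1
    have hNx : N x = qf A (e.1 x - x0) := by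
      have := hNqf (e.1 x) hxb
      rwa [hyx] at this
    rw [hNx]
    have h2 := (le_abs_self _).trans h1
    have h3 : B * (1 + η') * √(qf A (e.1 x - x0)) ≤ B * (1 + η) * √(qf A (e.1 x - x0)) := by
      apply mul_le_mul_of_nonneg_right _ (Real.sqrt_nonneg _)
      exact mul_le_mul_of_nonneg_left (by linarith) hB
    linarith
  · intro F hF hF0 hF1
    rw [hG.μ_eq]
    have hout : ∀ x, m ≤ N x → F (√(N x)) = 0 := fun x hx =>
      hF1 _ (Real.sqrt_le_sqrt hx)
    have hcont : Continuous fun x => F (√(N x)) := hF.comp (Real.continuous_sqrt.comp hNc)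
    rw [integral_chart g hG.vol e (fun x => F (√(N x))) hcont.continuousOn (fun q hq => by
      apply hout
      by_contra hc
      push Not at hc
      exact hq (hNm q hc).1)]
    obtain ⟨hint, hval⟩ := int_qf hAp hF (Real.sqrt_pos.2 hm) hF1 x0
    have hdom : ∀ x ∈ e.1.target, F (√(N (e.1.symm x))) * Real.sqrt (g.c e x).det ≤
        (1 + η) * Real.sqrt A.det * F (√(qf A (x - x0))) := by
      intro x hx
      have hs0 : 0 ≤ Real.sqrt A.det := Real.sqrt_nonneg _
      by_cases hc : m ≤ N (e.1.symm x)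
      · rw [hout _ hc, zero_mul]
        have := hF0 (√(qf A (x - x0)))
        positivity
      · push Not at hc
        have h1 := (hNm _ hc).2
        rw [e.1.right_inv hx] at h1
        rw [hNqf x h1, mul_comm]
        exact mul_le_mul_of_nonneg_right (hdet x (Metric.ball_subset_ball hrc' h1) hx) (hF0 _)
    have hint2 : Integrable (fun x : E3 => (1 + η) * Real.sqrt A.det * F (√(qf A (x - x0)))) :=
      hint.const_mul _
    have hnn : ∀ x : E3, 0 ≤ (1 + η) * Real.sqrt A.det * F (√(qf A (x - x0))) := by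
      intro x
      have := hF0 (√(qf A (x - x0)))
      have hs0 : 0 ≤ Real.sqrt A.det := Real.sqrt_nonneg _
      positivity
    calc ∫ x in e.1.target, F (√(N (e.1.symm x))) * Real.sqrt (g.c e x).det
        ≤ ∫ x in e.1.target, (1 + η) * Real.sqrt A.det * F (√(qf A (x - x0))) := by
          apply integral_mono_of_nonneg
          · exact Filter.Eventually.of_forall fun x =>
              mul_nonneg (hF0 _) (Real.sqrt_nonneg _)
          · exact hint2.integrableOn
          · rw [Filter.EventuallyLE, ae_restrict_iff' e.1.open_target.measurableSet]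
            exact Filter.Eventually.of_forall hdom
      _ ≤ ∫ x : E3, (1 + η) * Real.sqrt A.det * F (√(qf A (x - x0))) :=
          setIntegral_le_integral hint2 (Filter.Eventually.of_forall hnn)
      _ = (1 + η) * (4 * Real.pi * ∫ s in (0 : ℝ)..Real.sqrt m, F s * s ^ 2) := by
          rw [integral_const_mul, hval]
          have hs0 : Real.sqrt A.det ≠ 0 := (Real.sqrt_pos.2 hAdet).ne'
          field_simp

omit [IsManifold (𝓡 3) ∞ M] [CompactSpace M] [T2Space M] in
theorem isOpenPos (g : RMetric M) {μ : Measure M} (hμ : IsVol g μ) : μ.IsOpenPosMeasure := by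
  refine ⟨fun W hW hne h0 => ?_⟩
  obtain ⟨x, hx⟩ := hne
  set e : Ch M := ⟨chartAt E3 x, chart_mem_atlas E3 x⟩ with he
  have hxe : x ∈ e.1.source := mem_chart_source E3 x
  have hB : IsOpen (W ∩ e.1.source) := hW.inter e.1.open_source
  have h1 : μ (W ∩ e.1.source) = 0 := measure_mono_null inter_subset_left h0
  rw [hμ e _ hB.measurableSet inter_subset_right] at h1
  have hopen : IsOpen (e.1 '' (W ∩ e.1.source)) :=
    e.1.isOpen_image_of_subset_source hB inter_subset_right
  have hsub : e.1 '' (W ∩ e.1.source) ⊆ e.1.target := by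
    rintro _ ⟨y, hy, rfl⟩
    exact e.1.map_source hy.2
  have hm : AEMeasurable (fun x => ENNReal.ofReal (Real.sqrt (g.c e x).det))
      (volume.restrict (e.1 '' (W ∩ e.1.source))) :=
    (((continuousOn_sqrt_det g e).mono hsub).aemeasurable hopen.measurableSet).ennreal_ofReal
  rw [lintegral_eq_zero_iff' hm, Filter.EventuallyEq, ae_restrict_iff' hopen.measurableSet] at h1
  have h2 : ∀ᵐ y ∂(volume : Measure E3), y ∉ e.1 '' (W ∩ e.1.source) := by
    filter_upwards [h1] with y hy hmem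
    have h3 := hy hmem
    have h4 : 0 < (g.c e y).det := (g.pos e y (hsub hmem)).det_pos
    have h5 : 0 < ENNReal.ofReal (Real.sqrt (g.c e y).det) :=
      ENNReal.ofReal_pos.2 (Real.sqrt_pos.2 h4)
    rw [h3] at h5
    exact lt_irrefl _ h5
  have h3 : volume (e.1 '' (W ∩ e.1.source)) = 0 := measure_eq_zero_iff_ae_notMem.2 h2
  have h4 := hopen.measure_pos volume ⟨e.1 x, ⟨x, ⟨hx, hxe⟩, rfl⟩⟩
  exact h4.ne' h3

end Pool.Agent.RFS.EE
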