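import Pool.Agent.RFS.EChart

/-!
Project RFS, chunk (e), module EMv: mean value inequality in a chart, equicontinuity.

PROOF of `qf_compare`. `A x := g.c e x` is continuous on the open set `e.target`, `A x0` positive
definite: `qf (A x0) v ≥ c |v|²`, `c > 0` (compact unit sphere of `E3`, or
`Matrix.PosDef`), and `|qf (A x - A x0) v| ≤ 3 max |A x - A x0| |v|²`, so near `x0`
`qf (A x) v ≤ (1+η)² qf (A x0) v` and `qf (A x0) v ≤ (1+η)² qf (A x) v`.

PROOF of `cs_inv`. For positive definite symmetric `A`: `(∑ w_k v_k)² ≤ (w^T A⁻¹ w) (v^T A v)`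
(Cauchy-Schwarz for the scalar product `A` applied to `A⁻¹ w` and `v`; e.g. from the discriminant of
the nonnegative quadratic polynomial `t ↦ qf A (A⁻¹ w + t v)`).

PROOF of `chart_mvt`. `r` from `qf_compare` (ball inside the target). For `y` in the ball let
`z = y - x0`, `h s = loc u e (x0 + s z)`, `s ∈ [0,1]`; `h' s = ∑ pd k (loc u e) (x0 + s z) z_k`, so
by `cs_inv` `|h'|² ≤ gamC · qf (A (x0 + s z)) z ≤ B² (1+η)² qf (A x0) z`; mean value inequality
(`Convex.norm_image_sub_le_of_norm_fderiv_le` or `image_sub_le_mul_sub_of_deriv_le` for `h`).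

PROOF of `equi`. `x ∈ M`, `e = chA x`, `x0 = e x`, `η = 1`, `B = √2` (`B² = 2`):
`U := {y ∈ e.source | e y ∈ ball x0 r, √2 · 2 · √(qf (A x0) (e y - x0)) < κ}`, an open
neighbourhood of `x`.
-/

open scoped Manifold ContDiff Matrix
open Set MeasureTheory

noncomputable section

namespace Pool.Agent.RFS.EE

open RFSE

/-- The quadratic form of a matrix. -/
def qf (A : Mat3) (v : E3) : ℝ := ∑ i, ∑ j, A i j * (v i * v j)

private lemma qf_eq (A : Mat3) (v : E3) :
    qf A v = (fun k => v k) ⬝ᵥ (A *ᵥ (fun k => v k)) := by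
  simp only [qf, dotProduct, Matrix.mulVec, Finset.mul_sum]
  exact Finset.sum_congr rfl fun i _ => Finset.sum_congr rfl fun j _ => by ring

private lemma dp_nonneg {A : Mat3} (hA : A.PosDef) (x : Fin 3 → ℝ) : 0 ≤ x ⬝ᵥ (A *ᵥ x) := by
  have h := hA.posSemidef.dotProduct_mulVec_nonneg x
  simpa using h

theorem cs_inv {A : Mat3} (hA : A.PosDef) (w : Fin 3 → ℝ) (v : E3) :
    (∑ k, w k * v k) ^ 2 ≤ (∑ k, ∑ l, A⁻¹ k l * (w k * w l)) * qf A v := by
  have hu : IsUnit A.det := (Matrix.isUnit_iff_isUnit_det A).1 hA.isUnit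
  set u : Fin 3 → ℝ := A⁻¹ *ᵥ w with hudef
  set v' : Fin 3 → ℝ := fun k => v k with hv'
  have hAu : A *ᵥ u = w := by
    rw [hudef, Matrix.mulVec_mulVec, Matrix.mul_nonsing_inv _ hu, Matrix.one_mulVec]
  have hT : Aᵀ = A := by
    have h := hA.isHermitian
    rw [Matrix.IsHermitian, Matrix.conjTranspose_eq_transpose_of_trivial] at h
    exact h
  have hsymm : u ⬝ᵥ (A *ᵥ v') = w ⬝ᵥ v' := by
    rw [Matrix.dotProduct_mulVec, ← Matrix.mulVec_transpose, hT, hAu]
  have hq : qf A v = v' ⬝ᵥ (A *ᵥ v') := qf_eq A v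
  have hw : ∑ k, ∑ l, A⁻¹ k l * (w k * w l) = u ⬝ᵥ w := by
    rw [dotProduct_comm, hudef]
    simp only [dotProduct, Matrix.mulVec, Finset.mul_sum]
    exact Finset.sum_congr rfl fun i _ => Finset.sum_congr rfl fun j _ => by ring
  have hd : ∀ t : ℝ, 0 ≤ (v' ⬝ᵥ (A *ᵥ v')) * (t * t) + (2 * (w ⬝ᵥ v')) * t + u ⬝ᵥ w := by
    intro t
    have h := dp_nonneg hA (u + t • v')
    rw [Matrix.mulVec_add, Matrix.mulVec_smul, hAu, add_dotProduct, dotProduct_add,
      dotProduct_add, dotProduct_smul, smul_dotProduct, smul_dotProduct, dotProduct_smul,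
      hsymm, dotProduct_comm v' w] at h
    simp only [smul_eq_mul] at h
    linarith
  have h := discrim_le_zero hd
  unfold discrim at h
  have hdot : ∑ k, w k * v k = w ⬝ᵥ v' := rfl
  rw [hw, hq, hdot]
  nlinarith

private lemma qf_smul (A : Mat3) (c : ℝ) (v : E3) : qf A (c • v) = c ^ 2 * qf A v := by
  simp only [qf, Finset.mul_sum, PiLp.smul_apply, smul_eq_mul]
  exact Finset.sum_congr rfl fun i _ => Finset.sum_congr rfl fun j _ => by ring

private lemma qf_pos {A : Mat3} (hA : A.PosDef) {v : E3} (hv : v ≠ 0) : 0 < qf A v := by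
  rw [qf_eq]
  have hne : (fun k => v k : Fin 3 → ℝ) ≠ 0 := by
    intro h
    apply hv
    ext k
    exact congrFun h k
  have h := hA.dotProduct_mulVec_pos hne
  simpa using h

private lemma qf_zero (A : Mat3) : qf A 0 = 0 := by
  simp [qf]

private lemma qf_continuous (A : Mat3) : Continuous (qf A) := by
  unfold qf
  fun_prop

private lemma qf_coercive {A : Mat3} (hA : A.PosDef) : ∃ c > 0, ∀ v : E3, c * ‖v‖ ^ 2 ≤ qf A v := by
  have hne : (Metric.sphere (0 : E3) 1).Nonempty :=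
    NormedSpace.sphere_nonempty.2 zero_le_one
  obtain ⟨v0, hv0, hmin⟩ := (isCompact_sphere (0 : E3) 1).exists_isMinOn hne
    (qf_continuous A).continuousOn
  have hv0n : ‖v0‖ = 1 := by simpa using hv0
  have hv00 : v0 ≠ 0 := by
    intro h
    rw [h, norm_zero] at hv0n
    exact zero_ne_one hv0n
  refine ⟨qf A v0, qf_pos hA hv00, fun v => ?_⟩
  by_cases hv : v = 0
  · rw [hv, norm_zero, qf_zero]
    simp
  · have hn : 0 < ‖v‖ := norm_pos_iff.2 hv
    have h1 : ‖v‖⁻¹ • v ∈ Metric.sphere (0 : E3) 1 := by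
      rw [mem_sphere_zero_iff_norm, norm_smul, norm_inv, norm_norm, inv_mul_cancel₀ hn.ne']
    have h2 : qf A v0 ≤ qf A (‖v‖⁻¹ • v) := hmin h1
    rw [qf_smul, inv_pow, ← div_eq_inv_mul, le_div_iff₀ (by positivity)] at h2
    exact h2

private lemma abs_qf_sub_le {A B : Mat3} {ε : ℝ} (h : ∀ i j, |A i j - B i j| ≤ ε) (v : E3) :
    |qf A v - qf B v| ≤ 3 * ε * ‖v‖ ^ 2 := by
  have hε : 0 ≤ ε := (abs_nonneg _).trans (h 0 0)
  have h1 : qf A v - qf B v = ∑ i, ∑ j, (A i j - B i j) * (v i * v j) := by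
    simp only [qf, sub_mul, Finset.sum_sub_distrib]
  have h2 : |qf A v - qf B v| ≤ ∑ i, ∑ j, ε * (|v i| * |v j|) := by
    rw [h1]
    refine (Finset.abs_sum_le_sum_abs _ _).trans (Finset.sum_le_sum fun i _ => ?_)
    refine (Finset.abs_sum_le_sum_abs _ _).trans (Finset.sum_le_sum fun j _ => ?_)
    rw [abs_mul, abs_mul]
    exact mul_le_mul_of_nonneg_right (h i j) (by positivity)
  have h3 : ‖v‖ ^ 2 = v 0 ^ 2 + v 1 ^ 2 + v 2 ^ 2 := by
    rw [EuclideanSpace.norm_eq, Real.sq_sqrt (by positivity), Fin.sum_univ_three]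
    simp
  have h4 : ∑ i : Fin 3, ∑ j : Fin 3, ε * (|v i| * |v j|) ≤ 3 * ε * ‖v‖ ^ 2 := by
    rw [h3]
    simp only [Fin.sum_univ_three]
    rw [← sq_abs (v 0), ← sq_abs (v 1), ← sq_abs (v 2)]
    have k1 : 0 ≤ ε * (|v 0| - |v 1|) ^ 2 := by positivity
    have k2 : 0 ≤ ε * (|v 0| - |v 2|) ^ 2 := by positivity
    have k3 : 0 ≤ ε * (|v 1| - |v 2|) ^ 2 := by positivity
    linarith
  exact h2.trans h4

variable {M : Type*} [TopologicalSpace M] [ChartedSpace E3 M]

theorem qf_compare (g : RMetric M) (e : Ch M) {x0 : E3} (hx0 : x0 ∈ e.1.target) {η : ℝ}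
    (hη : 0 < η) :
    ∃ r > 0, Metric.ball x0 r ⊆ e.1.target ∧ ∀ x ∈ Metric.ball x0 r, ∀ v,
      qf (g.c e x) v ≤ (1 + η) ^ 2 * qf (g.c e x0) v ∧
      qf (g.c e x0) v ≤ (1 + η) ^ 2 * qf (g.c e x) v := by
  obtain ⟨c, hc, hco⟩ := qf_coercive (g.pos e x0 hx0)
  set θ : ℝ := η / (1 + η) with hθ
  have hθ0 : 0 < θ := by positivity
  have hθη : θ * (1 + η) = η := by
    rw [hθ]
    field_simp
  set ε : ℝ := c * θ / 3 with hε
  have hε0 : 0 < ε := by positivity
  have hev : ∀ᶠ x in nhds x0, ∀ i j, |g.c e x i j - g.c e x0 i j| ≤ ε := by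
    rw [Filter.eventually_all]
    intro i
    rw [Filter.eventually_all]
    intro j
    have h1 : ContinuousAt (fun x => g.c e x i j) x0 :=
      ((g.smooth e i j).contDiffAt (e.1.open_target.mem_nhds hx0)).continuousAt
    have h2 := (Metric.continuousAt_iff'.1 h1) ε hε0
    filter_upwards [h2] with x hx
    rw [Real.dist_eq] at hx
    exact hx.le
  obtain ⟨r, hr, hball⟩ := Metric.eventually_nhds_iff_ball.1
    (hev.and (e.1.open_target.mem_nhds hx0))
  refine ⟨r, hr, fun x hx => (hball x hx).2, fun x hx v => ?_⟩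
  have h1 := abs_qf_sub_le (hball x hx).1 v
  have h2 := hco v
  have h3 : 3 * ε * ‖v‖ ^ 2 ≤ θ * qf (g.c e x0) v := by
    have : 3 * ε * ‖v‖ ^ 2 = θ * (c * ‖v‖ ^ 2) := by
      rw [hε]
      ring
    rw [this]
    exact mul_le_mul_of_nonneg_left h2 hθ0.le
  obtain ⟨h4, h5⟩ := abs_le.1 (h1.trans h3)
  have hq0 : 0 ≤ qf (g.c e x0) v := by
    have : 0 ≤ c * ‖v‖ ^ 2 := by positivity
    linarith
  have hθ1 : θ ≤ η := by nlinarith
  constructor
  · have : qf (g.c e x) v ≤ (1 + θ) * qf (g.c e x0) v := by linarith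
    have h6 : (1 + θ) ≤ (1 + η) ^ 2 := by nlinarith
    exact this.trans (mul_le_mul_of_nonneg_right h6 hq0)
  · have h6 : (1 - θ) * qf (g.c e x0) v ≤ qf (g.c e x) v := by linarith
    have h7 : 1 ≤ (1 + η) ^ 2 * (1 - θ) := by nlinarith
    have h8 : (1 + η) ^ 2 * ((1 - θ) * qf (g.c e x0) v) ≤ (1 + η) ^ 2 * qf (g.c e x) v :=
      mul_le_mul_of_nonneg_left h6 (by positivity)
    nlinarith

private lemma fderiv_sum_pd (f : E3 → ℝ) (x v : E3) :
    fderiv ℝ f x v = ∑ a, pd a f x * v a := by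
  have h1 : v = ∑ i, v i • bv i := by
    ext k
    simp [bv, Finset.sum_apply, Pi.single_apply]
  conv_lhs => rw [h1]
  rw [map_sum]
  refine Finset.sum_congr rfl fun a _ => ?_
  rw [map_smul, smul_eq_mul, mul_comm]
  rfl

variable [MeasurableSpace M]

theorem chart_mvt (g : RMetric M) {μ : Measure M} {G : SG M} (hG : IsSG g μ G) (e : Ch M)
    {x0 : E3} (hx0 : x0 ∈ e.1.target) {η : ℝ} (hη : 0 < η) :
    ∃ r > 0, Metric.ball x0 r ⊆ e.1.target ∧ ∀ B : ℝ, 0 ≤ B → ∀ u ∈ G.S,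
      (∀ z, G.gam u u z ≤ B ^ 2) → ∀ y ∈ Metric.ball x0 r,
        |u (e.1.symm y) - u (e.1.symm x0)| ≤ B * (1 + η) * √(qf (g.c e x0) (y - x0)) := by
  obtain ⟨r, hr, hsub, hcmp⟩ := qf_compare g e hx0 hη
  refine ⟨r, hr, hsub, fun B hB u hu hgam y hy => ?_⟩
  have hsm : Sm u := (hG.S_iff u).1 hu
  set z : E3 := y - x0 with hz
  have hmem : ∀ s ∈ Icc (0 : ℝ) 1, x0 + s • z ∈ Metric.ball x0 r := by
    intro s hs
    rw [Metric.mem_ball, dist_eq_norm, add_sub_cancel_left, norm_smul, Real.norm_eq_abs,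
      abs_of_nonneg hs.1]
    have h1 : ‖z‖ < r := by
      rw [hz, ← dist_eq_norm]
      exact hy
    have h2 : s * ‖z‖ ≤ 1 * ‖z‖ := mul_le_mul_of_nonneg_right hs.2 (norm_nonneg _)
    linarith
  have hder : ∀ s ∈ Icc (0 : ℝ) 1, HasDerivWithinAt (fun s : ℝ => loc u e (x0 + s • z))
      (fderiv ℝ (loc u e) (x0 + s • z) z) (Icc 0 1) s := by
    intro s hs
    have h1 : HasDerivAt (fun s : ℝ => x0 + s • z) z s := by
      have := ((hasDerivAt_id s).smul_const z).const_add x0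
      simpa using this
    have h2 : DifferentiableAt ℝ (loc u e) (x0 + s • z) :=
      ((hsm e).contDiffAt (e.1.open_target.mem_nhds (hsub (hmem s hs)))).differentiableAt
        (by simp)
    exact (h2.hasFDerivAt.comp_hasDerivAt s h1).hasDerivWithinAt
  have hb : ∀ s ∈ Ico (0 : ℝ) 1, ‖fderiv ℝ (loc u e) (x0 + s • z) z‖ ≤
      B * (1 + η) * √(qf (g.c e x0) z) := by
    intro s hs
    have hs' : s ∈ Icc (0 : ℝ) 1 := ⟨hs.1, hs.2.le⟩
    have hx := hmem s hs'
    have hxt := hsub hx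
    rw [fderiv_sum_pd, Real.norm_eq_abs]
    have h1 := cs_inv (g.pos e _ hxt) (fun a => pd a (loc u e) (x0 + s • z)) z
    have h2 : G.gam u u (e.1.symm (x0 + s • z)) = gamC g u u e (x0 + s • z) :=
      hG.gam_eq u u hsm hsm e _ hxt
    have h3 : gamC g u u e (x0 + s • z) ≤ B ^ 2 := by
      rw [← h2]
      exact hgam _
    have h4 := (hcmp _ hx z).1
    have h5 : 0 ≤ qf (g.c e (x0 + s • z)) z := by
      rw [qf_eq]
      exact dp_nonneg (g.pos e _ hxt) _
    have h6 : (∑ a, pd a (loc u e) (x0 + s • z) * z a) ^ 2 ≤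
        B ^ 2 * ((1 + η) ^ 2 * qf (g.c e x0) z) := by
      refine h1.trans ?_
      exact mul_le_mul h3 h4 h5 (by positivity)
    have h7 : 0 ≤ qf (g.c e x0) z := by
      rw [qf_eq]
      exact dp_nonneg (g.pos e _ hx0) _
    have h8 := Real.abs_le_sqrt h6
    rw [← mul_assoc, ← mul_pow, Real.sqrt_mul (by positivity),
      Real.sqrt_sq (by positivity)] at h8
    exact h8
  have hfin := norm_image_sub_le_of_norm_deriv_le_segment_01' hder hb
  simp only [one_smul, zero_smul, add_zero, Real.norm_eq_abs] at hfin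
  have : x0 + z = y := by
    rw [hz]
    abel
  rw [this] at hfin
  exact hfin

theorem equi [IsManifold (𝓡 3) ∞ M] (g : RMetric M) {μ : Measure M} {G : SG M}
    (hG : IsSG g μ G) : Equi G := by
  intro x κ hκ
  set e : Ch M := ⟨chartAt E3 x, chart_mem_atlas E3 x⟩ with he
  have hxs : x ∈ e.1.source := mem_chart_source E3 x
  set x0 : E3 := e.1 x with hx0
  have hx0t : x0 ∈ e.1.target := e.1.map_source hxs
  obtain ⟨r, hr, hsub, hmvt⟩ := chart_mvt g hG e hx0t one_pos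
  have hcont : Continuous (fun y : E3 => √2 * (1 + 1) * √(qf (g.c e x0) (y - x0))) :=
    continuous_const.mul ((qf_continuous _).comp (continuous_id.sub continuous_const)).sqrt
  have hO : IsOpen (Metric.ball x0 r ∩
      {y : E3 | √2 * (1 + 1) * √(qf (g.c e x0) (y - x0)) < κ}) :=
    Metric.isOpen_ball.inter (isOpen_lt hcont continuous_const)
  have hmemO : e.1 x ∈ Metric.ball x0 r ∩
      {y : E3 | √2 * (1 + 1) * √(qf (g.c e x0) (y - x0)) < κ} := by
    refine ⟨Metric.mem_ball_self hr, ?_⟩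
    change √2 * (1 + 1) * √(qf (g.c e x0) (x0 - x0)) < κ
    rw [sub_self, qf_zero, Real.sqrt_zero, mul_zero]
    exact hκ
  refine ⟨e.1.source ∩ e.1 ⁻¹' (Metric.ball x0 r ∩
      {y : E3 | √2 * (1 + 1) * √(qf (g.c e x0) (y - x0)) < κ}), ?_, ?_⟩
  · exact Filter.inter_mem (e.1.open_source.mem_nhds hxs)
      ((e.1.continuousAt hxs).preimage_mem_nhds (hO.mem_nhds hmemO))
  · intro u hu hgam y hy
    have h2 : ∀ z, G.gam u u z ≤ (√2) ^ 2 := fun z => by
      rw [Real.sq_sqrt (by norm_num)]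
      exact hgam z
    have h1 := hmvt (√2) (Real.sqrt_nonneg _) u hu h2 (e.1 y) hy.2.1
    rw [e.1.left_inv hy.1, e.1.left_inv hxs] at h1
    exact lt_of_le_of_lt h1 hy.2.2

end Pool.Agent.RFS.EE
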