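import Pool.Agent.RFS.ESet
import Pool.Agent.RFS.EBey

/-!
Project RFS, chunk (e), module EMyers: the local Myers theorem.

PROOF. Let `Y0 = π/√k < L`. `Ric > 0` on the compact `M`. Choose `η ∈ (0, 1/4)`, `κ > 0`,
`δ1 > 0` with `(Y0 + κ + 6 δ1) / (1 - η) < L`. `ρ' := (1 - η) ρ` if ... (`gam ρ' ρ' ≤ (1-η)² ≤
1 - η`). From `hN.near (1/20)` with `B = 1`, `u = ρ`: `ρ x ≤ ρ p + 1.05 √(N x) ≤ 1.05 √(N x)` for
`N x < r1²`, so `-δ ≤ N x/(2δ) - ρ' x` there (`t²/(2δ) - 1.05 t ≥ -(1.05)² δ/2 ≥ -δ`, also when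
`ρ x ≤ 0`); for `N x ≥ r1²` it holds when `r1²/(2δ) ≥ sup |ρ|`. So (`Setup.comp`, `m = -δ`)
eventually `(1-η) ρ - δ - δ ≤ U ε` on `M` (`z = δ`).
On `{U ε ≤ a + Y0}`: `(1-η) ρ ≤ Y0 + 6δ`, so `ρ < L` and `RicGe (2k)`. So `beyond` applies.
`vol_lower` with `κ`: `m > 0`. Choose `σ` with `K1 σ μ(M) < m`, `σ ≤ κ`, `σ ≤ σ1`.
Eventually: let `x0` be a maximum point of `U ε` (if `M` is nonempty). If `U ε x0 > a + Y0 + κ`
then `{U ε x0 - κ < U ε} ⊆ {a + Y0 - σ ≤ U ε}`, so `m ≤ K1 σ μ(M)`, contradiction. So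
`U ε ≤ a + Y0 + κ ≤ Y0 + κ + 4δ` on `M` and `(1-η) ρ ≤ Y0 + κ + 6δ`, i.e. `ρ < L` on `M`
(one `ε` with all these properties is enough: `Filter.Eventually.exists`).
-/

namespace RFSE

open MeasureTheory Filter Topology

variable {M : Type*} [TopologicalSpace M] [MeasurableSpace M]

theorem localMyers [CompactSpace M] [ConnectedSpace M] [BorelSpace M] (G : SG M)
    [G.μ.IsOpenPosMeasure] (hE : Equi G) (hR : Resolv G) {p : M} {N : M → ℝ} (hN : LocN G p N)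
    {κ0 : ℝ} (hκ : 0 < κ0) (hpos : ∀ x, G.RicGe κ0 x)
    {ρ : M → ℝ} (hρ : ρ ∈ G.S) (hρ1 : ∀ x, G.gam ρ ρ x ≤ 1) (hρp : ρ p ≤ 0)
    {k L : ℝ} (hk : 0 < k) (hL : Real.pi / √k < L)
    (hRic : ∀ x, ρ x < L → G.RicGe (2 * k) x) : ∀ x, ρ x < L := by
  have hk4 : 0 < √k := Real.sqrt_pos.2 hk
  have hY0 : 0 < Real.pi / √k := div_pos Real.pi_pos hk4
  have hL0 : 0 < L := hY0.trans hL
  have hN0 : ∀ x, 0 ≤ N x := by
    intro x
    by_cases h : x = p
    · rw [h, hN.zero]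
    · exact (hN.pos x h).le
  -- constants
  obtain ⟨η, κ, δ1, hη0, hη1, hκ1, hδ1, hfin⟩ : ∃ η κ δ1 : ℝ, 0 < η ∧ η < 1 / 4 ∧ 0 < κ ∧ 0 < δ1 ∧
      Real.pi / √k + κ + 6 * δ1 < (1 - η) * L := by
    have hg : 0 < L - Real.pi / √k := by linarith
    refine ⟨(L - Real.pi / √k) / (8 * L), (L - Real.pi / √k) / 8, (L - Real.pi / √k) / 48,
      by positivity, ?_, by positivity, by positivity, ?_⟩
    · rw [div_lt_iff₀ (by positivity)]; linarith
    · have h : (1 - (L - Real.pi / √k) / (8 * L)) * L = L - (L - Real.pi / √k) / 8 := by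
        field_simp
      rw [h]; linarith
  have h0Ric : ∀ x, G.RicGe 0 x := by
    intro x c
    have h1 := hpos x c
    have h2 : 0 ≤ ∑ i, c i * c i := Finset.sum_nonneg fun i _ => mul_self_nonneg _
    have h3 := mul_nonneg hκ.le h2
    linarith
  obtain ⟨r1, hr1, -, hnear, -⟩ := hN.near (1 / 20) (by norm_num)
  obtain ⟨R, hR0, hRb⟩ : ∃ R : ℝ, 0 ≤ R ∧ ∀ x, ρ x ≤ R := by
    obtain ⟨K, hK⟩ := (isCompact_range (G.cont _ hρ)).bddAbove
    exact ⟨max 0 K, le_max_left _ _, fun x => (hK ⟨x, rfl⟩).trans (le_max_right _ _)⟩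
  obtain ⟨δ0, hδ0, hset⟩ := exists_setup G hE hR h0Ric hN hk
  obtain ⟨K1, hK1, σ1, hσ1, hbey⟩ := beyond G hκ hpos hk
  obtain ⟨m, hm, hvol⟩ := vol_lower G hE hκ1
  -- the choice of `δ`
  obtain ⟨δ, hδ, hδa, hδb, hδc, hδd⟩ : ∃ δ : ℝ, 0 < δ ∧ δ < δ0 ∧ δ ≤ δ1 ∧ δ ≤ σ1 ∧
      R ≤ r1 ^ 2 / (2 * δ) := by
    refine ⟨min (δ0 / 2) (min δ1 (min σ1 (r1 ^ 2 / (2 * (R + 1))))), by positivity, ?_, ?_, ?_, ?_⟩
    · exact lt_of_le_of_lt (min_le_left _ _) (by linarith)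
    · exact (min_le_right _ _).trans (min_le_left _ _)
    · exact (min_le_right _ _).trans ((min_le_right _ _).trans (min_le_left _ _))
    · have h : min (δ0 / 2) (min δ1 (min σ1 (r1 ^ 2 / (2 * (R + 1))))) ≤ r1 ^ 2 / (2 * (R + 1)) :=
        (min_le_right _ _).trans ((min_le_right _ _).trans (min_le_right _ _))
      have h0 : 0 < min (δ0 / 2) (min δ1 (min σ1 (r1 ^ 2 / (2 * (R + 1))))) := by positivity
      rw [le_div_iff₀ (by positivity)] at h ⊢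
      nlinarith
  obtain ⟨a, C, Kϕ, U, ϕ, X⟩ := hset δ hδ hδa
  -- comparison with `ρ' = (1 - η) ρ`
  have hρ' : (fun x => (1 - η) * ρ x) ∈ G.S := G.smul_mem hρ _
  have hgam' : ∀ x, G.gam (fun x => (1 - η) * ρ x) (fun x => (1 - η) * ρ x) x ≤ 1 - η := by
    intro x
    have h1 : G.gam (fun x => (1 - η) * ρ x) (fun x => (1 - η) * ρ x) x =
        (1 - η) ^ 2 * G.gam ρ ρ x := by
      simp only [SG.gam, G.d_smul hρ, Fin.sum_univ_three]
      ring
    rw [h1]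
    have h2 := hρ1 x
    have h3 := mul_le_mul_of_nonneg_left h2 (sq_nonneg (1 - η))
    nlinarith
  have hlow : ∀ x, -δ ≤ N x / (2 * δ) - (1 - η) * ρ x := by
    intro x
    rcases lt_or_ge (N x) (r1 ^ 2) with hc | hc
    · have h5 := hnear 1 zero_le_one ρ hρ (fun z => (hρ1 z).trans (by norm_num)) x hc
      have hr : 0 ≤ √(N x) := Real.sqrt_nonneg _
      have hr2 : √(N x) ^ 2 = N x := Real.sq_sqrt (hN0 x)
      generalize √(N x) = r at *
      have h6 : ρ x ≤ 21 / 20 * r := by linarith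
      have h7 : (1 - η) * ρ x ≤ 21 / 20 * r := by
        have h8 := mul_le_mul_of_nonneg_left h6 (show 0 ≤ 1 - η by linarith)
        nlinarith
      have h8 : 21 / 20 * r - δ ≤ N x / (2 * δ) := by
        rw [le_div_iff₀ (by positivity), ← hr2]
        nlinarith [sq_nonneg (r - 21 / 20 * δ)]
      linarith
    · have h5 := hRb x
      have h6 : r1 ^ 2 / (2 * δ) ≤ N x / (2 * δ) :=
        div_le_div_of_nonneg_right hc (by positivity)
      have h7 : (1 - η) * ρ x ≤ R := by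
        have h8 := mul_le_mul_of_nonneg_left h5 (show 0 ≤ 1 - η by linarith)
        nlinarith
      linarith
  have hcomp := X.comp hρ' hη0 hgam' hlow hδ
  have ha1 := X.a1
  have ha0 := X.a0
  have hRicU : ∀ᶠ ε in 𝓝[>] (0 : ℝ), ∀ x, 4 * δ ≤ U ε x → U ε x ≤ a + Real.pi / √k →
      G.RicGe (2 * k) x := by
    filter_upwards [hcomp] with ε h x _ hx
    apply hRic
    have h1 := h x
    have h2 : (1 - η) * ρ x < (1 - η) * L := by linarith
    exact lt_of_mul_lt_mul_left h2 (by linarith)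
  -- the choice of `σ`
  have hμ : 0 ≤ G.μ.real Set.univ := measureReal_nonneg
  obtain ⟨σ, hσ0, hσa, hσb⟩ : ∃ σ : ℝ, 0 < σ ∧ σ ≤ σ1 ∧ K1 * σ * G.μ.real Set.univ < m := by
    have hA : 0 < K1 * G.μ.real Set.univ + 1 := by positivity
    refine ⟨min σ1 (m / (2 * (K1 * G.μ.real Set.univ + 1))), by positivity, min_le_left _ _, ?_⟩
    have h := min_le_right σ1 (m / (2 * (K1 * G.μ.real Set.univ + 1)))
    have h0 : 0 < min σ1 (m / (2 * (K1 * G.μ.real Set.univ + 1))) := by positivity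
    generalize min σ1 (m / (2 * (K1 * G.μ.real Set.univ + 1))) = σ at *
    rw [le_div_iff₀ (by positivity)] at h
    nlinarith
  have hb := hbey p N δ a C Kϕ U ϕ X hδc hRicU σ hσ0 hσa
  obtain ⟨ε, e1, e2, e3, e4⟩ :=
    (hcomp.and (hb.and (X.visc.and (X.gam_small (z := 1) one_pos)))).exists
  intro x
  have : Nonempty M := ⟨x⟩
  obtain ⟨x0, -, hx0⟩ := isCompact_univ.exists_isMaxOn Set.univ_nonempty
    (G.cont _ e3.hu).continuousOn
  have hx0' : ∀ y, U ε y ≤ U ε x0 := fun y => hx0 (Set.mem_univ y)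
  have hmax : U ε x0 ≤ a + Real.pi / √k + κ := by
    by_contra hc
    push Not at hc
    have h1 := hvol (U ε) e3.hu (fun z => by linarith [e4 z]) x0 hx0'
    have h2 : {y | U ε x0 - κ < U ε y} ⊆ {x | a + Real.pi / √k - σ ≤ U ε x} := by
      intro y hy
      have hy' : U ε x0 - κ < U ε y := hy
      show a + Real.pi / √k - σ ≤ U ε y
      linarith
    let _ := G.fin
    have h3 : G.μ.real {y | U ε x0 - κ < U ε y} ≤ G.μ.real {x | a + Real.pi / √k - σ ≤ U ε x} :=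
      measureReal_mono h2
    linarith
  have h1 := e1 x
  have h2 := hx0' x
  have h3 : (1 - η) * ρ x < (1 - η) * L := by linarith
  exact lt_of_mul_lt_mul_left h3 (by linarith)

end RFSE
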