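import Pool.Agent.RFS.ERheat

/-!
Project RFS, chunk (e), module ERes: the approximate resolvent.

PROOF. Let `ε, τ > 0`, `f ∈ S`, `f > 0`; `m ≤ f ≤ K` with `m > 0`, `|∇f|² ≤ K`, `|Δf| ≤ K`
(compactness). `T` large (`e^{-T} (K + K + 1) ≤ min τ (m/2)`, `e^{-2T} K ≤ τ`). `F` from `HasHeat`
on `[0, ε² T]`, `F 0 = f`. `v := ∫ t in 0..T, e^{-t} F (ε² t)` (pointwise), positive. In each chart
`v` is smooth (`contDiffOn_param` for `h (t,x) = e^{-t} F (ε² t) (e.symm x)`) and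
`lapC g v = ∫ e^{-t} lapC g (F (ε² t))` (`fderiv_param` twice; finite sums and the coefficients
come out of the integral). `d/dt (e^{-t} F (ε² t) x) = -e^{-t} F + ε² e^{-t} Δ F (ε² t)`, so
`v - ε² Δ v = ∫ e^{-t} (F - ε² ΔF) dt = f - e^{-T} F (ε² T) =: f'`.
`f' - f = -e^{-T} F (ε² T)`: `|.| ≤ e^{-T} K`, `gam ≤ e^{-2T} K` (`gam_bd`), `|Δ| ≤ e^{-T} K`
(`lap_heat`, `sup_bd`), and `f' ≥ m - e^{-T} K ≥ m/2 > 0`.
-/

open scoped Manifold ContDiff Matrix
open Set MeasureTheory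

noncomputable section

namespace Pool.Agent.RFS.EE

open RFSE

variable {M : Type*} [TopologicalSpace M] [ChartedSpace E3 M] [IsManifold (𝓡 3) ∞ M]
  [CompactSpace M] [T2Space M] [MeasurableSpace M] [BorelSpace M]

/-! ### Integrals of families -/

private lemma eres_slice_cont {U : Set E3} {T : ℝ} {H : ℝ × E3 → ℝ}
    (hH : ContDiffOn ℝ ∞ H (Icc 0 T ×ˢ U)) {y : E3} (hy : y ∈ U) :
    ContinuousOn (fun t => H (t, y)) (Icc 0 T) :=
  hH.continuousOn.comp (f := fun t : ℝ => (t, y)) (by fun_prop) fun _ ht => ⟨ht, hy⟩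

private lemma eres_pd_smooth {U : Set E3} (hU : IsOpen U) {T : ℝ} (hT : 0 < T) {H : ℝ × E3 → ℝ}
    (hH : ContDiffOn ℝ ∞ H (Icc 0 T ×ˢ U)) (m : Fin 3) :
    ContDiffOn ℝ ∞ (fun z : ℝ × E3 => pd m (fun y => H (z.1, y)) z.2) (Icc 0 T ×ˢ U) :=
  (contDiffOn_fderiv_snd hU hT hH).clm_apply contDiffOn_const

private lemma eres_ii {f : ℝ → ℝ} {T : ℝ} (hT : 0 < T) (hf : ContinuousOn f (Icc 0 T)) :
    IntervalIntegrable f volume 0 T :=
  ContinuousOn.intervalIntegrable (by rwa [uIcc_of_le hT.le])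

private lemma eres_sum {T : ℝ} {f : Fin 3 → ℝ → ℝ}
    (h : ∀ i, IntervalIntegrable (f i) volume 0 T) :
    IntervalIntegrable (fun t => ∑ i, f i t) volume 0 T := by
  have h1 := IntervalIntegrable.sum Finset.univ fun i _ => h i
  have e : (∑ i, f i) = fun t => ∑ i, f i t := by funext t; simp
  rwa [e] at h1

private lemma eres_pd {U : Set E3} (hU : IsOpen U) {T : ℝ} (hT : 0 < T) {H : ℝ × E3 → ℝ}
    (hH : ContDiffOn ℝ ∞ H (Icc 0 T ×ˢ U)) {x : E3} (hx : x ∈ U) (m : Fin 3) :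
    pd m (fun y => ∫ t in (0 : ℝ)..T, H (t, y)) x =
      ∫ t in (0 : ℝ)..T, pd m (fun y => H (t, y)) x := by
  have h1 := fderiv_param hU hT hH hx
  have hc : ContinuousOn (fun t : ℝ => fderiv ℝ (fun y => H (t, y)) x) (Icc 0 T) :=
    (contDiffOn_fderiv_snd hU hT hH).continuousOn.comp (f := fun t : ℝ => (t, x)) (by fun_prop)
      fun _ ht => ⟨ht, hx⟩
  have hi : IntervalIntegrable (fun t : ℝ => fderiv ℝ (fun y => H (t, y)) x) volume 0 T :=
    ContinuousOn.intervalIntegrable (by rwa [uIcc_of_le hT.le])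
  rw [pd, h1.fderiv, ContinuousLinearMap.intervalIntegral_apply hi]
  rfl

private lemma eres_lap (g : RMetric M) {T : ℝ} (hT : 0 < T) {w : ℝ → M → ℝ} (e : Ch M)
    (hw : ContDiffOn ℝ ∞ (fun z : ℝ × E3 => w z.1 (e.1.symm z.2)) (Icc 0 T ×ˢ e.1.target))
    {x : E3} (hx : x ∈ e.1.target) :
    lapC g (fun p => ∫ t in (0 : ℝ)..T, w t p) e x = ∫ t in (0 : ℝ)..T, lapC g (w t) e x := by
  have hU := e.1.open_target
  have h1 : ∀ y ∈ e.1.target, ∀ m, pd m (loc (fun p => ∫ t in (0 : ℝ)..T, w t p) e) y =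
      ∫ t in (0 : ℝ)..T, pd m (loc (w t) e) y := fun y hy m => eres_pd hU hT hw hy m
  have hs : ∀ l, ContDiffOn ℝ ∞ (fun z : ℝ × E3 => pd l (loc (w z.1) e) z.2)
      (Icc 0 T ×ˢ e.1.target) := fun l => eres_pd_smooth hU hT hw l
  have hss : ∀ k l, ContDiffOn ℝ ∞ (fun z : ℝ × E3 => pd k (fun y => pd l (loc (w z.1) e) y) z.2)
      (Icc 0 T ×ˢ e.1.target) := fun k l => eres_pd_smooth hU hT (hs l) k
  have h2 : ∀ k l, pd k (fun y => pd l (loc (fun p => ∫ t in (0 : ℝ)..T, w t p) e) y) x =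
      ∫ t in (0 : ℝ)..T, pd k (fun y => pd l (loc (w t) e) y) x := by
    intro k l
    have h3 := eres_pd hU hT (hs l) hx k
    rw [← h3]
    unfold pd
    have h4 : (fun y => fderiv ℝ (loc (fun p => ∫ t in (0 : ℝ)..T, w t p) e) y (bv l)) =ᶠ[nhds x]
        fun y => ∫ t in (0 : ℝ)..T, fderiv ℝ (loc (w t) e) y (bv l) := by
      filter_upwards [hU.mem_nhds hx] with y hy
      exact h1 y hy l
    rw [h4.fderiv_eq]
  have i1 : ∀ m, IntervalIntegrable (fun t => pd m (loc (w t) e) x) volume 0 T := fun m =>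
    eres_ii hT (eres_slice_cont (hs m) hx)
  have i2 : ∀ k l, IntervalIntegrable (fun t => pd k (fun y => pd l (loc (w t) e) y) x)
      volume 0 T := fun k l => eres_ii hT (eres_slice_cont (hss k l) hx)
  simp only [lapC]
  rw [intervalIntegral.integral_finsetSum fun k _ => ?_]
  · refine Finset.sum_congr rfl fun k _ => ?_
    rw [intervalIntegral.integral_finsetSum fun l _ => ?_]
    · refine Finset.sum_congr rfl fun l _ => ?_
      rw [intervalIntegral.integral_const_mul, intervalIntegral.integral_sub (i2 k l) ?_,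
        intervalIntegral.integral_finsetSum fun m _ => ?_, h2]
      · congr 2
        refine Finset.sum_congr rfl fun m _ => ?_
        rw [intervalIntegral.integral_const_mul, h1 x hx]
      · exact (i1 m).const_mul _
      · exact eres_sum fun m => (i1 m).const_mul _
    · exact ((i2 k l).sub (eres_sum fun m => (i1 m).const_mul _)).const_mul _
  · exact eres_sum fun l =>
      ((i2 k l).sub (eres_sum fun m => (i1 m).const_mul _)).const_mul _

theorem resolv (g : RMetric M) {μ : Measure M} {G : SG M} (hG : IsSG g μ G) (hH : HasHeat g)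
    (hRic : ∀ x, G.RicGe 0 x) : Resolv G := by
  intro ε hε f hf hf0 τ hτ
  have hfSm : Sm f := (hG.S_iff f).1 hf
  -- bounds
  obtain ⟨m, hm, hfm⟩ : ∃ m > 0, ∀ x, m ≤ f x := by
    rcases isEmpty_or_nonempty M with hM | hM
    · exact ⟨1, one_pos, fun x => (hM.false x).elim⟩
    · obtain ⟨y, -, hy⟩ := isCompact_univ.exists_isMinOn univ_nonempty
        (G.cont _ hf).continuousOn
      exact ⟨f y, hf0 y, fun x => hy (mem_univ x)⟩
  obtain ⟨K, hK0, hK1, hK2, hK3⟩ : ∃ K : ℝ, 0 ≤ K ∧ (∀ x, f x ≤ K) ∧ (∀ x, G.gam f f x ≤ K) ∧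
      ∀ x, |G.lap f x| ≤ K := by
    obtain ⟨K1, h1⟩ := (isCompact_range (G.cont _ hf)).bddAbove
    obtain ⟨K2, h2⟩ := (isCompact_range (G.cont _ (G.gam_mem' hf hf))).bddAbove
    obtain ⟨K3, h3⟩ := (isCompact_range (G.cont _ (G.lap_mem' hf)).abs).bddAbove
    refine ⟨max 0 (max K1 (max K2 K3)), le_max_left _ _, fun x => ?_, fun x => ?_, fun x => ?_⟩
    · exact (h1 ⟨x, rfl⟩).trans ((le_max_left _ _).trans (le_max_right _ _))
    · exact (h2 ⟨x, rfl⟩).trans (((le_max_left _ _).trans (le_max_right _ _)).trans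
        (le_max_right _ _))
    · exact (h3 ⟨x, rfl⟩).trans (((le_max_right _ _).trans (le_max_right _ _)).trans
        (le_max_right _ _))
  -- the time `T`
  obtain ⟨T, hT, hTm, hTτ⟩ : ∃ T : ℝ, 0 < T ∧ Real.exp (-T) * K ≤ m / 2 ∧
      Real.exp (-T) * K ≤ τ := by
    have hc : 0 < min τ (m / 2) := by positivity
    refine ⟨(K + 1) / min τ (m / 2), by positivity, ?_⟩
    set T := (K + 1) / min τ (m / 2) with hTd
    have hT : 0 < T := by rw [hTd]; positivity
    have h1 : Real.exp (-T) ≤ 1 / T := by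
      rw [Real.exp_neg, ← one_div]
      apply one_div_le_one_div_of_le hT
      have := Real.add_one_le_exp T
      linarith
    have h2 : 1 / T * (K + 1) = min τ (m / 2) := by
      rw [hTd]; field_simp
    have h3 : Real.exp (-T) * K ≤ min τ (m / 2) := by
      calc Real.exp (-T) * K ≤ Real.exp (-T) * (K + 1) :=
            mul_le_mul_of_nonneg_left (by linarith) (Real.exp_pos _).le
        _ ≤ 1 / T * (K + 1) := mul_le_mul_of_nonneg_right h1 (by linarith)
        _ = _ := h2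
    exact ⟨h3.trans (min_le_right _ _), h3.trans (min_le_left _ _)⟩
  have hε2 : 0 < ε ^ 2 := by positivity
  have hεT : 0 < ε ^ 2 * T := by positivity
  obtain ⟨F, hF, hF0⟩ := hH f hfSm (ε ^ 2 * T) hεT
  have hTT : ε ^ 2 * T ∈ Icc 0 (ε ^ 2 * T) := ⟨hεT.le, le_rfl⟩
  have hmap : ∀ t ∈ Icc 0 T, ε ^ 2 * t ∈ Icc 0 (ε ^ 2 * T) := fun t ht =>
    ⟨mul_nonneg hε2.le ht.1, mul_le_mul_of_nonneg_left ht.2 hε2.le⟩
  -- bounds for `F`
  have hsup := hF.sup_bd hG hεT (A := m) (B := K) fun x => by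
    rw [hF0]; exact ⟨hfm x, hK1 x⟩
  have hgam := hF.gam_bd hG hεT hRic (A := K) fun x => by rw [hF0]; exact hK2 x
  have hLF := hF.lap_heat hG hεT
  have hlap := hLF.sup_bd hG hεT (A := -K) (B := K) fun x => by
    simp only [hF0]; exact abs_le.1 (hK3 x)
  have hFS : ∀ t ∈ Icc 0 (ε ^ 2 * T), F t ∈ G.S := fun t ht => (hG.S_iff _).2 (hF.slice ht)
  -- the family `w t = e^{-t} F (ε² t)`
  set w : ℝ → M → ℝ := fun t x => Real.exp (-t) * F (ε ^ 2 * t) x with hw
  have hws : ∀ e : Ch M, ContDiffOn ℝ ∞ (fun z : ℝ × E3 => w z.1 (e.1.symm z.2))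
      (Icc 0 T ×ˢ e.1.target) := by
    intro e
    have h1 : ContDiffOn ℝ ∞ (fun z : ℝ × E3 => F (ε ^ 2 * z.1) (e.1.symm z.2))
        (Icc 0 T ×ˢ e.1.target) :=
      (hF.smooth e).comp (f := fun z : ℝ × E3 => (ε ^ 2 * z.1, z.2)) (by fun_prop)
        fun z hz => ⟨hmap _ hz.1, hz.2⟩
    have h2 : ContDiff ℝ ∞ fun z : ℝ × E3 => Real.exp (-z.1) := by fun_prop
    exact h2.contDiffOn.mul h1
  have hwS : ∀ t ∈ Icc 0 T, w t ∈ G.S := fun t ht => G.smul_mem (hFS _ (hmap t ht)) _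
  set v : M → ℝ := fun x => ∫ t in (0 : ℝ)..T, w t x with hv
  have hvSm : Sm v := fun e => contDiffOn_param e.1.open_target hT (hws e)
  have hvS : v ∈ G.S := (hG.S_iff v).2 hvSm
  -- continuity in time
  have hFc : ∀ x, ContinuousOn (fun t => F t x) (Icc 0 (ε ^ 2 * T)) := fun x =>
    hF.cont.comp (f := fun t : ℝ => (t, x)) (by fun_prop) fun t ht => ⟨ht, mem_univ _⟩
  have hLFc : ∀ x, ContinuousOn (fun t => G.lap (F t) x) (Icc 0 (ε ^ 2 * T)) := fun x =>
    hLF.cont.comp (f := fun t : ℝ => (t, x)) (by fun_prop) fun t ht => ⟨ht, mem_univ _⟩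
  have hFc' : ∀ x, ContinuousOn (fun t => F (ε ^ 2 * t) x) (Icc 0 T) := fun x =>
    (hFc x).comp (f := fun t : ℝ => ε ^ 2 * t) (by fun_prop) hmap
  have hLFc' : ∀ x, ContinuousOn (fun t => G.lap (F (ε ^ 2 * t)) x) (Icc 0 T) := fun x =>
    (hLFc x).comp (f := fun t : ℝ => ε ^ 2 * t) (by fun_prop) hmap
  have hexp : Continuous fun t : ℝ => Real.exp (-t) := by fun_prop
  have i1 : ∀ x, IntervalIntegrable (fun t => w t x) volume 0 T := fun x =>
    eres_ii hT (hexp.continuousOn.mul (hFc' x))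
  have i2 : ∀ x, IntervalIntegrable (fun t => Real.exp (-t) * G.lap (F (ε ^ 2 * t)) x)
      volume 0 T := fun x => eres_ii hT (hexp.continuousOn.mul (hLFc' x))
  -- the Laplacian of `v`
  have hlapv : ∀ x, G.lap v x = ∫ t in (0 : ℝ)..T, Real.exp (-t) * G.lap (F (ε ^ 2 * t)) x := by
    intro x
    set e : Ch M := ⟨chartAt E3 x, chart_mem_atlas E3 x⟩ with he
    have hxe : x ∈ e.1.source := mem_chart_source E3 x
    have hyt : e.1 x ∈ e.1.target := e.1.map_source hxe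
    have hyx : e.1.symm (e.1 x) = x := e.1.left_inv hxe
    have h1 : G.lap v x = lapC g v e (e.1 x) := by
      rw [← hG.lap_eq v hvSm e _ hyt, hyx]
    rw [h1, hv, eres_lap g hT e (hws e) hyt]
    apply intervalIntegral.integral_congr
    intro t ht
    rw [uIcc_of_le hT.le] at ht
    show lapC g (w t) e (e.1 x) = Real.exp (-t) * G.lap (F (ε ^ 2 * t)) x
    rw [← hG.lap_eq (w t) ((hG.S_iff _).1 (hwS t ht)) e _ hyt, hyx, hw,
      G.lap_smul (hFS _ (hmap t ht))]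
  -- the fundamental theorem of calculus
  have hftc : ∀ x, v x - ε ^ 2 * G.lap v x = f x - Real.exp (-T) * F (ε ^ 2 * T) x := by
    intro x
    have hcont : ContinuousOn (fun t => w t x) (Icc 0 T) := hexp.continuousOn.mul (hFc' x)
    have hder : ∀ t ∈ Ioo 0 T, HasDerivAt (fun t => w t x)
        (-(w t x - ε ^ 2 * (Real.exp (-t) * G.lap (F (ε ^ 2 * t)) x))) t := by
      intro t ht
      have ht' : ε ^ 2 * t ∈ Ioo 0 (ε ^ 2 * T) :=
        ⟨mul_pos hε2 ht.1, mul_lt_mul_of_pos_left ht.2 hε2⟩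
      set e : Ch M := ⟨chartAt E3 x, chart_mem_atlas E3 x⟩ with he
      have hxe : x ∈ e.1.source := mem_chart_source E3 x
      have hyt : e.1 x ∈ e.1.target := e.1.map_source hxe
      have hyx : e.1.symm (e.1 x) = x := e.1.left_inv hxe
      have h1 := hF.eqn e _ hyt (ε ^ 2 * t) ⟨ht'.1.le, ht'.2.le⟩
      rw [hyx, ← hG.lap_eq _ (hF.slice ⟨ht'.1.le, ht'.2.le⟩) e _ hyt, hyx] at h1
      have h2 : HasDerivAt (fun s => F s x) (G.lap (F (ε ^ 2 * t)) x) (ε ^ 2 * t) :=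
        h1.hasDerivAt (Icc_mem_nhds ht'.1 ht'.2)
      have h3 : HasDerivAt (fun s : ℝ => ε ^ 2 * s) (ε ^ 2 * 1) t :=
        (hasDerivAt_id t).const_mul _
      have h4 : HasDerivAt (fun s => F (ε ^ 2 * s) x) (G.lap (F (ε ^ 2 * t)) x * (ε ^ 2 * 1)) t :=
        h2.comp t h3
      have h5 : HasDerivAt (fun s : ℝ => Real.exp (-s)) (Real.exp (-t) * (-1)) t :=
        (hasDerivAt_neg t).exp
      have h6 : HasDerivAt (fun s => w s x) (Real.exp (-t) * (-1) * F (ε ^ 2 * t) x +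
          Real.exp (-t) * (G.lap (F (ε ^ 2 * t)) x * (ε ^ 2 * 1))) t := h5.mul h4
      refine h6.congr_deriv ?_
      rw [hw]; ring
    have hint : IntervalIntegrable
        (fun t => -(w t x - ε ^ 2 * (Real.exp (-t) * G.lap (F (ε ^ 2 * t)) x))) volume 0 T :=
      ((i1 x).sub ((i2 x).const_mul _)).neg
    have h7 := intervalIntegral.integral_eq_sub_of_hasDerivAt_of_le hT.le hcont hder hint
    rw [intervalIntegral.integral_neg, intervalIntegral.integral_sub (i1 x) ((i2 x).const_mul _),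
      intervalIntegral.integral_const_mul, ← hlapv x] at h7
    have h8 : w 0 x = f x := by
      rw [hw]
      simp only [neg_zero, Real.exp_zero, one_mul, mul_zero, hF0]
    have h9 : w T x = Real.exp (-T) * F (ε ^ 2 * T) x := rfl
    rw [h8, h9] at h7
    have h10 : v x = ∫ t in (0 : ℝ)..T, w t x := rfl
    linarith
  -- the right-hand side
  have hFT : F (ε ^ 2 * T) ∈ G.S := hFS _ hTT
  have hdiff : (fun y => (f y - Real.exp (-T) * F (ε ^ 2 * T) y) - f y) =
      fun y => (-Real.exp (-T)) * F (ε ^ 2 * T) y := by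
    funext y; ring
  have hE0 : 0 < Real.exp (-T) := Real.exp_pos _
  have hE1 : Real.exp (-T) ≤ 1 := by
    rw [← Real.exp_zero]; exact Real.exp_le_exp.2 (by linarith)
  refine ⟨v, hvS, fun x => f x - Real.exp (-T) * F (ε ^ 2 * T) x,
    G.sub_mem hf (G.smul_mem hFT _), ?_, ?_, hftc, ?_, ?_, ?_⟩
  · intro x
    apply intervalIntegral.intervalIntegral_pos_of_pos_on (i1 x) _ hT
    intro t ht
    have h1 := (hsup _ (hmap t ⟨ht.1.le, ht.2.le⟩) x).1
    exact mul_pos (Real.exp_pos _) (lt_of_lt_of_le hm h1)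
  · intro x
    have h1 := (hsup _ hTT x).2
    have h2 := hfm x
    have h3 := mul_le_mul_of_nonneg_left h1 hE0.le
    show 0 < f x - Real.exp (-T) * F (ε ^ 2 * T) x
    linarith
  · intro x
    have h1 := hsup _ hTT x
    have h3 := mul_le_mul_of_nonneg_left h1.2 hE0.le
    have h4 : 0 ≤ Real.exp (-T) * F (ε ^ 2 * T) x := mul_nonneg hE0.le (hm.le.trans h1.1)
    show |f x - Real.exp (-T) * F (ε ^ 2 * T) x - f x| ≤ τ
    rw [abs_le]
    constructor <;> linarith
  · intro x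
    rw [hdiff]
    have h1 : G.gam (fun y => (-Real.exp (-T)) * F (ε ^ 2 * T) y)
        (fun y => (-Real.exp (-T)) * F (ε ^ 2 * T) y) x =
        Real.exp (-T) ^ 2 * G.gam (F (ε ^ 2 * T)) (F (ε ^ 2 * T)) x := by
      simp only [SG.gam, G.d_smul hFT, Fin.sum_univ_three]
      ring
    rw [h1]
    have h2 := hgam _ hTT x
    have h3 : Real.exp (-T) ^ 2 ≤ Real.exp (-T) := by nlinarith
    calc Real.exp (-T) ^ 2 * G.gam (F (ε ^ 2 * T)) (F (ε ^ 2 * T)) x
        ≤ Real.exp (-T) ^ 2 * K := mul_le_mul_of_nonneg_left h2 (by positivity)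
      _ ≤ Real.exp (-T) * K := mul_le_mul_of_nonneg_right h3 hK0
      _ ≤ τ := hTτ
  · intro x
    rw [hdiff, G.lap_smul hFT]
    have h1 := abs_le.2 (hlap _ hTT x)
    rw [abs_mul, abs_neg, abs_of_pos hE0]
    exact (mul_le_mul_of_nonneg_left h1 hE0.le).trans hTτ

end Pool.Agent.RFS.EE
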