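import Mathlib

/-!
# RFS, chunk (f), module FLM: the limit argument of the final assembly
-/

open Set MeasureTheory Filter

noncomputable section

namespace Pool.Agent.RFS

theorem le_of_theta (S0 C : ℝ)
    (h : ∀ θ : ℝ, 0 < θ → θ ≤ 1 / 4 →
      S0 ≤ (1 + C * θ ^ 4) * (2 * Real.pi ^ 2) / (1 - θ) ^ 3) : S0 ≤ 2 * Real.pi ^ 2 := by
  have hc : ContinuousAt (fun θ : ℝ => (1 + C * θ ^ 4) * (2 * Real.pi ^ 2) / (1 - θ) ^ 3) 0 := by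
    apply ContinuousAt.div
    · fun_prop
    · fun_prop
    · norm_num
  have h1 : Tendsto (fun θ : ℝ => (1 + C * θ ^ 4) * (2 * Real.pi ^ 2) / (1 - θ) ^ 3)
      (nhdsWithin 0 (Ioi 0)) (nhds (2 * Real.pi ^ 2)) := by
    have h2 := hc.tendsto.mono_left (nhdsWithin_le_nhds (s := Ioi (0 : ℝ)))
    simpa using h2
  apply ge_of_tendsto h1
  have h3 : Iic (1 / 4 : ℝ) ∈ nhdsWithin (0 : ℝ) (Ioi 0) :=
    mem_nhdsWithin_of_mem_nhds (Iic_mem_nhds (by norm_num))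
  filter_upwards [self_mem_nhdsWithin, h3] with θ hθ hθ'
  exact h θ hθ hθ'

/-- The bound at one time slice. -/
theorem slice_bound (S0 V m θ : ℝ) (hθ : 0 < θ) (hθ1 : θ ≤ 1 / 4) (hm : 0 < m)
    (hS : S0 ≤ (1 + θ ^ 4) * m ^ (3 / 2 : ℝ) * V)
    (hvol : V ≤ 2 * Real.pi ^ 2 / (((1 - θ) ^ 2 * m) * Real.sqrt ((1 - θ) ^ 2 * m))) :
    S0 ≤ (1 + 1 * θ ^ 4) * (2 * Real.pi ^ 2) / (1 - θ) ^ 3 := by
  have hθ2 : 0 < 1 - θ := by linarith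
  have h1 : m ^ (3 / 2 : ℝ) = m * Real.sqrt m := by
    rw [show (3 / 2 : ℝ) = 1 + 1 / 2 by norm_num, Real.rpow_add hm, Real.rpow_one,
      Real.sqrt_eq_rpow]
  rw [h1] at hS
  have h4 := hS.trans (mul_le_mul_of_nonneg_left hvol (by positivity))
  refine h4.trans (le_of_eq ?_)
  have h5 : Real.sqrt ((1 - θ) ^ 2 * m) = (1 - θ) * Real.sqrt m := by
    rw [Real.sqrt_mul (sq_nonneg _), Real.sqrt_sq hθ2.le]
  rw [h5]
  have h6 : Real.sqrt m ≠ 0 := (Real.sqrt_pos.2 hm).ne'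
  field_simp

end Pool.Agent.RFS
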