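import Pool.Agent.RFS.FEV
import Pool.Agent.RFS.FLM
import Pool.Agent.RFS.DFin

/-!
# RFS, chunk (f), module FSL: the time slices with almost constant curvature

From the pinching and gradient estimates, the local Myers theorem and the volume comparison.
-/

open scoped Manifold ContDiff Matrix
open Set MeasureTheory

noncomputable section

namespace Pool.Agent.RFS

open Ham

/-- Local Myers theorem (statement of chunk (e)). -/
def LocalMyers (M : Type*) [TopologicalSpace M] [ChartedSpace E3 M] : Prop :=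
  ∀ (g : RMetric M) (ρ : M → ℝ) (κ k L : ℝ) (p₀ : M), 0 < κ → 0 < k →
    Real.pi / Real.sqrt k < L →
    (∀ e : Ch M, ContDiffOn ℝ ∞ (fun x => ρ (e.1.symm x)) e.1.target) → ρ p₀ ≤ 0 →
    (∀ e : Ch M, ∀ x ∈ e.1.target, ∑ i, ∑ j, (g.c e x)⁻¹ i j *
      pd i (fun y => ρ (e.1.symm y)) x * pd j (fun y => ρ (e.1.symm y)) x ≤ 1) →
    (∀ e : Ch M, ∀ x ∈ e.1.target, ∀ v : Fin 3 → ℝ,
      κ * ∑ i, ∑ j, g.c e x i j * v i * v j ≤ ∑ i, ∑ j, ricci (g.c e) x i j * v i * v j) →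
    (∀ e : Ch M, ∀ x ∈ e.1.target, ρ (e.1.symm x) < L → ∀ v : Fin 3 → ℝ,
      2 * k * ∑ i, ∑ j, g.c e x i j * v i * v j ≤ ∑ i, ∑ j, ricci (g.c e) x i j * v i * v j) →
    ∀ p, ρ p < L

/-- Volume comparison (statement of chunk (e)). -/
def Bishop (M : Type*) [TopologicalSpace M] [ChartedSpace E3 M] [MeasurableSpace M] : Prop :=
  ∀ (g : RMetric M) (μ : Measure M) (k : ℝ), IsVol g μ → 0 < k →
    (∀ e : Ch M, ∀ x ∈ e.1.target, ∀ v : Fin 3 → ℝ,
      2 * k * ∑ i, ∑ j, g.c e x i j * v i * v j ≤ ∑ i, ∑ j, ricci (g.c e) x i j * v i * v j) →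
    (μ univ).toReal ≤ 2 * Real.pi ^ 2 / (k * Real.sqrt k)

variable {A : Type*} [CommRing A] [Algebra ℝ A] {S : RFAlg A} {M : Type*}
  [TopologicalSpace M] [MeasurableSpace M] {b : ℝ} (X : RFSpace S M b) [ChartedSpace E3 M]
  {g : ℝ → RMetric M}

theorem slice_le (hE1 : LocalMyers M) (hE2 : Bishop M) (R : FrRep X g)
    (hvol : ∀ t ∈ Ico 0 b, IsVol (g t) (X.vol t)) (hb : 0 < b)
    (h0 : ∀ z, X.tm z = 0 → 1 ≤ X.ev z (sS S) ∧ X.ev z (nS S) ≤ (3 / 2) * X.ev z (sS S) ^ 2)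
    (hsup : ∀ L : ℝ, ∃ z, L ≤ X.ev z (sS S)) (S0 : ℝ)
    (hmono : ∀ t ∈ Ioo 0 b, ∀ m ε : ℝ, (∀ z, X.tm z = t → X.ev z (sS S) ≤ m) → 0 ≤ ε →
      (∀ z, X.tm z = t → X.ev z (nS S) ≤ ε * X.ev z (sS S) ^ 2) →
      S0 ≤ (1 + ε) * m ^ (3 / 2 : ℝ) * (X.vol t univ).toReal) :
    S0 ≤ 2 * Real.pi ^ 2 := by
  refine le_of_theta S0 1 fun θ hθ hθ4 => ?_
  obtain ⟨t, ht, z₀, hz₀, hm1, hmax, hgrad, hpinch⟩ :=
    final_slice X hb.le h0 hsup θ hθ (by linarith)
  have htI : t ∈ Ico 0 b := ⟨ht.1.le, ht.2⟩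
  set m := X.ev z₀ (sS S) with hm
  have hm0 : 0 < m := lt_of_lt_of_le (by positivity) hm1
  have hsq : 0 < Real.sqrt m := Real.sqrt_pos.2 hm0
  have hs1 : ∀ z, 1 ≤ X.ev z (sS S) := fun z => ((final_pinch X h0).1 z).1
  choose pt hpt1 hpt2 using fun p => X.exists_pt t htI p
  set s : M → ℝ := fun p => X.ev (pt p) (sS S) with hs
  have hsz : ∀ z, X.tm z = t → X.ev z (sS S) = s (X.bs z) := fun z hz =>
    ev_inv (inv_s X) (hz.trans (hpt1 _).symm) (hpt2 _).symm
  have hsc : ∀ e : Ch M, ∀ x ∈ e.1.target, s (e.1.symm x) = scal ((g t).c e) x / 6 := by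
    intro e x hx
    obtain ⟨a, ha⟩ := exists_frOk (g := g) htI e hx
    have h1 := (scalar_values R ha).1
    have h2 := hsz (R.fr e t x a) (R.tm_fr e t x a ha)
    rw [R.bs_fr e t x a ha] at h2
    rw [← h2, h1]; ring
  -- the function ρ
  set κ : ℝ := Real.sqrt (32 / (θ ^ 2 * m ^ 3)) with hκ
  have hκ0 : 0 < κ := Real.sqrt_pos.2 (by positivity)
  have hκ2 : κ ^ 2 = 32 / (θ ^ 2 * m ^ 3) := Real.sq_sqrt (by positivity)
  set ρ : M → ℝ := fun p => κ * (m - s p) with hρ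
  set k : ℝ := (1 - θ) ^ 2 * m with hk
  have hθ1 : 0 < 1 - θ := by linarith
  have hk0 : 0 < k := by positivity
  have hsqk : Real.sqrt k = (1 - θ) * Real.sqrt m := by
    rw [hk, Real.sqrt_mul (sq_nonneg _), Real.sqrt_sq hθ1.le]
  have hL : Real.pi / Real.sqrt k < 5 / Real.sqrt m := by
    rw [hsqk, div_lt_div_iff₀ (by positivity) hsq]
    have hpi := Real.pi_lt_d2
    nlinarith
  have hclose : ∀ p, ρ p < 5 / Real.sqrt m → (1 - θ) * m ≤ s p := by
    intro p hp
    by_contra hcon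
    push Not at hcon
    have h1 : κ * (θ * m) < 5 / Real.sqrt m := by
      refine lt_of_le_of_lt ?_ hp
      exact mul_le_mul_of_nonneg_left (by linarith) hκ0.le
    have h2 : (κ * (θ * m)) ^ 2 < (5 / Real.sqrt m) ^ 2 := by
      exact pow_lt_pow_left₀ h1 (by positivity) two_ne_zero
    rw [mul_pow, hκ2, div_pow, Real.sq_sqrt hm0.le] at h2
    have h3 : 32 / (θ ^ 2 * m ^ 3) * (θ * m) ^ 2 = 32 / m := by
      field_simp
    rw [h3, div_lt_div_iff_of_pos_right hm0] at h2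
    norm_num at h2
  have hρc : ∀ e : Ch M, ∀ x ∈ e.1.target,
      ρ (e.1.symm x) = κ * (m - scal ((g t).c e) x / 6) := by
    intro e x hx
    simp only [hρ, hsc e x hx]
  have hscal : ∀ e : Ch M, ContDiffOn ℝ ∞ (scal ((g t).c e)) e.1.target := fun e =>
    contDiffOn_scal e.1.open_target ((g t).smooth e) fun x hx => ((g t).pos e x hx).det_pos.ne'
  have hscal6 : ∀ e : Ch M, ContDiffOn ℝ ∞ (fun x => scal ((g t).c e) x / 6) e.1.target := by
    intro e
    exact (hscal e).div_const 6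
  have hpd : ∀ e : Ch M, ∀ x ∈ e.1.target, ∀ i,
      pd i (fun y => ρ (e.1.symm y)) x = -κ * pd i (fun y => scal ((g t).c e) y / 6) x := by
    intro e x hx i
    have hd : DifferentiableAt ℝ (fun y => scal ((g t).c e) y / 6) x :=
      ((hscal6 e).contDiffAt (e.1.open_target.mem_nhds hx)).differentiableAt (by simp)
    have h1 : (fun y => ρ (e.1.symm y)) =ᶠ[nhds x]
        fun y => κ * (m - scal ((g t).c e) y / 6) := by
      filter_upwards [e.1.open_target.mem_nhds hx] with y hy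
      exact hρc e y hy
    have h2 : HasFDerivAt (fun y => κ * (m - scal ((g t).c e) y / 6))
        (κ • (-(fderiv ℝ (fun y => scal ((g t).c e) y / 6) x))) x :=
      (hd.hasFDerivAt.const_sub m).const_mul κ
    rw [pd, h1.fderiv_eq, h2.fderiv, pd]
    simp
  have hric : ∀ e : Ch M, ∀ x ∈ e.1.target, (1 - θ) * m ≤ s (e.1.symm x) → ∀ v : Fin 3 → ℝ,
      2 * k * ∑ i, ∑ j, (g t).c e x i j * v i * v j
        ≤ ∑ i, ∑ j, ricci ((g t).c e) x i j * v i * v j := by
    intro e x hx hsx v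
    obtain ⟨a, ha⟩ := exists_frOk (g := g) htI e hx
    set z := R.fr e t x a with hz
    have htz : X.tm z = t := R.tm_fr e t x a ha
    have hsz' : X.ev z (sS S) = s (e.1.symm x) := by
      rw [hsz z htz, R.bs_fr e t x a ha]
    refine ricci_lower R ha (2 * k) ?_ v
    intro w
    refine ric_lower_slice X z m θ hθ (by linarith) (by rw [hsz']; exact hsx)
      (zero_le_one.trans (hs1 z)) (hpinch z htz (by rw [hsz']; exact hsx)) w
  have hall : ∀ p, ρ p < 5 / Real.sqrt m := by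
    refine hE1 (g t) ρ (1 / 2) k (5 / Real.sqrt m) (X.bs z₀) (by norm_num) hk0 hL ?_ ?_ ?_ ?_ ?_
    · intro e
      refine ContDiffOn.congr ?_ (hρc e)
      exact contDiffOn_const.mul (contDiffOn_const.sub (hscal6 e))
    · simp only [hρ]
      rw [← hsz z₀ hz₀, ← hm]
      simp
    · intro e x hx
      obtain ⟨a, ha⟩ := exists_frOk (g := g) htI e hx
      have h1 := grad_value R ht.1 ha
      have h2 := hgrad (R.fr e t x a) (R.tm_fr e t x a ha)
      rw [← h1] at h2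
      have h3 : ∑ i, ∑ j, ((g t).c e x)⁻¹ i j *
          pd i (fun y => ρ (e.1.symm y)) x * pd j (fun y => ρ (e.1.symm y)) x
          = κ ^ 2 * ∑ i, ∑ j, ((g t).c e x)⁻¹ i j * pd i (fun y => scal ((g t).c e) y / 6) x
            * pd j (fun y => scal ((g t).c e) y / 6) x := by
        simp only [hpd e x hx, Finset.mul_sum]
        refine Finset.sum_congr rfl fun i _ => Finset.sum_congr rfl fun j _ => ?_
        ring
      rw [h3, hκ2]
      calc _ ≤ 32 / (θ ^ 2 * m ^ 3) * (θ ^ 2 / 32 * m ^ 3) :=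
            mul_le_mul_of_nonneg_left h2 (by positivity)
        _ = 1 := by field_simp
        _ ≤ 1 := le_refl _
    · intro e x hx v
      obtain ⟨a, ha⟩ := exists_frOk (g := g) htI e hx
      refine ricci_lower R ha (1 / 2) (fun w => ?_) v
      set z := R.fr e t x a with hz
      refine le_trans ?_ (ric_lower X z w)
      have h1 := (final_pinch X h0).1 z
      have h2 : Real.sqrt (X.ev z (nS S)) ≤ 5 / 4 * X.ev z (sS S) := by
        rw [Real.sqrt_le_left (by linarith [h1.1])]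
        nlinarith [h1.2, h1.1, sq_nonneg (X.ev z (sS S))]
      have h3 : 0 ≤ ∑ i, w i * w i := Finset.sum_nonneg fun i _ => mul_self_nonneg _
      exact mul_le_mul_of_nonneg_right (by linarith [h1.1]) h3
    · intro e x hx hρx v
      exact hric e x hx (hclose _ hρx) v
  have hslice : ∀ p, (1 - θ) * m ≤ s p := fun p => hclose p (hall p)
  have hv := hE2 (g t) (X.vol t) k (hvol t htI) hk0 (fun e x hx v => hric e x hx (hslice _) v)
  refine slice_bound S0 (X.vol t univ).toReal m θ hθ hθ4 hm0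
    (hmono t ht m (θ ^ 4) (fun z hz => hmax z hz) (by positivity) fun z hz => ?_) hv
  refine hpinch z hz ?_
  rw [hsz z hz]
  exact hslice _

end Pool.Agent.RFS
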