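import Pool.Agent.RFS.EIE
import Pool.Agent.RFS.EMv
import Pool.Agent.RFS.ELoc
import Pool.Agent.RFS.ERes
import Pool.Agent.RFS.EMyers
import Pool.Agent.RFS.EBish
import Pool.Agent.RFS.FSL

/-!
Project RFS, chunk (e), module EFin: local Myers theorem and Bishop's volume bound for a closed
Riemannian 3-manifold, in the form used by chunk (f).
-/

open scoped Manifold ContDiff Matrix
open Set MeasureTheory

noncomputable section

namespace Pool.Agent.RFS.EE

open RFSE

variable {M : Type*} [TopologicalSpace M] [ChartedSpace E3 M]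

private theorem ricGe_zero [MeasurableSpace M] {G : SG M} {κ : ℝ} (hκ : 0 ≤ κ) {x : M}
    (h : G.RicGe κ x) : G.RicGe 0 x := by
  intro b
  refine le_trans ?_ (h b)
  rw [zero_mul]
  exact mul_nonneg hκ (Finset.sum_nonneg fun i _ => mul_self_nonneg (b i))

private theorem ricGe_of [MeasurableSpace M] {g : RMetric M} {μ : Measure M} {G : SG M}
    (hG : IsSG g μ G) {c : ℝ} {p : M} (h : ∀ v : Fin 3 → ℝ,
      c * ∑ i, ∑ j, g.c (BB.ch p) ((BB.ch p).1 p) i j * v i * v j ≤
        ∑ i, ∑ j, ricci (g.c (BB.ch p)) ((BB.ch p).1 p) i j * v i * v j) : G.RicGe c p := by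
  have hp : p ∈ (BB.ch p).1.source := mem_chart_source E3 p
  have h1 := (hG.ric c (BB.ch p) ((BB.ch p).1 p) ((BB.ch p).1.map_source hp)).1 h
  rwa [(BB.ch p).1.left_inv hp] at h1

variable [IsManifold (𝓡 3) ∞ M] [CompactSpace M] [T2Space M] [ConnectedSpace M]

theorem localMyers_metric (hH : ∀ g : RMetric M, HasHeat g) : LocalMyers M := by
  intro g ρ κ k L p₀ hκ hk hL hρ hρ0 hgr hRic hRic2
  letI : MeasurableSpace M := borel M
  haveI : BorelSpace M := ⟨rfl⟩
  obtain ⟨μ, hμ⟩ := exists_isVol g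
  obtain ⟨G, hG⟩ := exists_SG g μ hμ
  have hmem : ∀ p : M, (BB.ch p).1 p ∈ (BB.ch p).1.target := fun p =>
    (BB.ch p).1.map_source (mem_chart_source E3 p)
  have hinv : ∀ p : M, (BB.ch p).1.symm ((BB.ch p).1 p) = p := fun p =>
    (BB.ch p).1.left_inv (mem_chart_source E3 p)
  have h1 : ∀ x, G.RicGe κ x := fun p => ricGe_of hG (hRic _ _ (hmem p))
  obtain ⟨N, hN⟩ := exists_LocN g hG p₀
  haveI : G.μ.IsOpenPosMeasure := by
    rw [hG.μ_eq]
    exact isOpenPos g hμ
  refine localMyers G (equi g hG)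
    (resolv g hG (hH g) fun x => ricGe_zero hκ.le (h1 x)) hN hκ h1 ((hG.S_iff ρ).2 hρ) ?_ hρ0 hk
    hL ?_
  · intro p
    have h2 := hG.gam_eq ρ ρ hρ hρ (BB.ch p) _ (hmem p)
    rw [hinv] at h2
    rw [h2, gamC]
    refine le_trans (le_of_eq ?_) (hgr (BB.ch p) _ (hmem p))
    refine Finset.sum_congr rfl fun i _ => Finset.sum_congr rfl fun j _ => ?_
    rw [mul_assoc]
    rfl
  · intro p hp
    exact ricGe_of hG (hRic2 _ _ (hmem p) (by rw [hinv]; exact hp))

theorem bishop_metric [MeasurableSpace M] [BorelSpace M] (hH : ∀ g : RMetric M, HasHeat g) :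
    Bishop M := by
  intro g μ k hμ hk hRic
  obtain ⟨G, hG⟩ := exists_SG g μ hμ
  have hmem : ∀ p : M, (BB.ch p).1 p ∈ (BB.ch p).1.target := fun p =>
    (BB.ch p).1.map_source (mem_chart_source E3 p)
  have h1 : ∀ x, G.RicGe (2 * k) x := fun p => ricGe_of hG (hRic _ _ (hmem p))
  obtain ⟨p⟩ : Nonempty M := inferInstance
  obtain ⟨N, hN⟩ := exists_LocN g hG p
  have h2 := bishop G (equi g hG)
    (resolv g hG (hH g) fun x => ricGe_zero (by positivity) (h1 x)) hN hk h1
  rw [hG.μ_eq] at h2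
  exact h2

end Pool.Agent.RFS.EE
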