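import Pool.Agent.RFS.EFin
import Pool.Agent.RFS.A2HT

/-!
Project RFS, chunk (e), module EHt: the output of chunk (e) without hypotheses.
-/

open scoped Manifold ContDiff Matrix
open Set MeasureTheory

noncomputable section

namespace Pool.Agent.RFS.EE

open RFSE

variable {M : Type*} [TopologicalSpace M] [ChartedSpace E3 M] [IsManifold (𝓡 3) ∞ M]
  [CompactSpace M] [T2Space M]

theorem hasHeat (g : RMetric M) : HasHeat g := by
  intro f hf T hT
  obtain ⟨h, h0, h1, h2⟩ := AA.heat_flow g f hf T hT
  exact ⟨h, ⟨h1, fun e x hx t ht => h2 t ht e x hx⟩, h0⟩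

variable [ConnectedSpace M]

/-- The local Myers theorem. -/
theorem localMyersM : LocalMyers M := localMyers_metric hasHeat

/-- Bishop's volume bound. -/
theorem bishopM [MeasurableSpace M] [BorelSpace M] : Bishop M := bishop_metric hasHeat

end Pool.Agent.RFS.EE
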