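import Pool.Agent.RFS.EChart
import Pool.Agent.RFS.BBA
import Pool.Agent.RFS.BRO

/-!
Project RFS, chunk (e), module EIA: smooth functions on `M` as elements of the algebra `FA` of the
constant family of metrics.

Proofs.
* `isFam_cf`: `one_pos`; the function does not depend on `q.1`: `(g.smooth e i j).comp contDiff_snd.contDiffOn`.
* `Sm.const`, `Sm.add`, `Sm.mul`: `contDiffOn_const`, `ContDiffOn.add`, `ContDiffOn.mul`.
* `Sm.comp`: `ContDiffAt.comp_contDiffWithinAt`.
* `contDiffAt_deriv`: `deriv f = fun y => fderiv ℝ f y 1`, `ContDiffAt.fderiv_right`.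
* `Sm.cont`: `continuous_of_charts` (module FDV).
* `til`: `basic_mem` with `u' := fun _ => u`; the function does not depend on `q.1`.
* `til_comp`: at `z = frq e q` (`exists_frq`) both sides by `basic_D`; with `x = q.2.1`,
  `pd k (fun y => f (loc u e y)) x = deriv f (loc u e x) * pd k (loc u e) x`
  (`HasDerivAt.comp_hasFDerivAt`), `(frq e q).bs = e.1.symm x` (`frq_bs`).
* `V_til`: `basic_V`.
* `RA_til`: `RA_apply`, `bs_rotF`, `FA_ext`.
* `DA_rot`: `RA_D` and `RA_til`.
-/

open scoped Manifold ContDiff Matrix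
open Set MeasureTheory

noncomputable section

namespace Pool.Agent.RFS.EE

open RFSE BB

variable {M : Type*} [TopologicalSpace M] [ChartedSpace E3 M]

/-- The constant family of metrics. -/
abbrev cf (g : RMetric M) : ℝ → RMetric M := fun _ => g

theorem isFam_cf (g : RMetric M) : IsFam (cf g) 1 := by
  refine ⟨one_pos, fun e i j => ?_⟩
  exact (g.smooth e i j).comp contDiff_snd.contDiffOn fun q hq => hq.2

theorem Sm.const (c : ℝ) : Sm (fun _ : M => c) := by
  intro e
  exact contDiffOn_const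

theorem Sm.add {u v : M → ℝ} (hu : Sm u) (hv : Sm v) : Sm (fun x => u x + v x) := by
  intro e
  exact (hu e).add (hv e)

theorem Sm.mul {u v : M → ℝ} (hu : Sm u) (hv : Sm v) : Sm (fun x => u x * v x) := by
  intro e
  exact (hu e).mul (hv e)

theorem Sm.comp {u : M → ℝ} (hu : Sm u) {f : ℝ → ℝ} (hf : ∀ x, ContDiffAt ℝ (⊤ : ℕ∞) f (u x)) :
    Sm (fun x => f (u x)) := by
  intro e y hy
  exact ContDiffAt.comp_contDiffWithinAt (g := f) (f := loc u e) y (hf (e.1.symm y)) (hu e y hy)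

theorem contDiffAt_deriv {f : ℝ → ℝ} {s : ℝ} (hf : ContDiffAt ℝ (⊤ : ℕ∞) f s) :
    ContDiffAt ℝ (⊤ : ℕ∞) (deriv f) s := by
  have h1 : ContDiffAt ℝ (⊤ : ℕ∞) (fun y => fderiv ℝ f y) s := hf.fderiv_right (by simp)
  have h2 : ContDiffAt ℝ (⊤ : ℕ∞) (fun y => fderiv ℝ f y 1) s := h1.clm_apply contDiffAt_const
  exact h2

theorem Sm.cont {u : M → ℝ} (hu : Sm u) : Continuous u := by
  rw [continuous_iff_continuousAt]
  intro p
  have hp : p ∈ (ch p).1.source := mem_source_ch p
  have h1 : ContinuousAt (loc u (ch p)) ((ch p).1 p) :=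
    (hu (ch p)).continuousOn.continuousAt
      ((ch p).1.open_target.mem_nhds ((ch p).1.map_source hp))
  have h2 : ContinuousAt (fun q => loc u (ch p) ((ch p).1 q)) p :=
    h1.comp ((ch p).1.continuousAt hp)
  refine h2.congr ?_
  filter_upwards [(ch p).1.open_source.mem_nhds hp] with q hq
  show u ((ch p).1.symm ((ch p).1 q)) = u q
  rw [(ch p).1.left_inv hq]

variable [IsManifold (𝓡 3) ∞ M] (g : RMetric M) [Nonempty (Fr (cf g) 1)]

/-- The smooth function `u` as element of the algebra. -/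
def til {u : M → ℝ} (hu : Sm u) : FA (cf g) 1 := ⟨fun z => u z.bs, by
  exact basic_mem (isFam_cf g) (fun _ => u) fun e =>
    (hu e).comp contDiff_snd.contDiffOn fun q hq => hq.2⟩

theorem til_apply {u : M → ℝ} (hu : Sm u) (z : Fr (cf g) 1) : (til g hu).1 z = u z.bs := rfl

/-- The horizontal derivations. -/
abbrev DA (i : Fin 3) : Derivation ℝ (FA (cf g) 1) (FA (cf g) 1) :=
  (natD (isFam_cf g) i).der (isFam_cf g)

theorem D_til_comp {u : M → ℝ} (hu : Sm u) {f : ℝ → ℝ}
    (hf : ∀ x, ContDiffAt ℝ (⊤ : ℕ∞) f (u x)) (i : Fin 3) :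
    DA g i (til g (hu.comp hf)) =
      til g (hu.comp fun x => contDiffAt_deriv (hf x)) * DA g i (til g hu) := by
  refine FA_ext _ _ fun z => ?_
  obtain ⟨e, q, hq, rfl⟩ := exists_frq z
  have h1 := basic_D (isFam_cf g) i (til g (hu.comp hf)) (fun _ x => f (u x)) (fun z => rfl) e hq
  have h2 := basic_D (isFam_cf g) i (til g hu) (fun _ => u) (fun z => rfl) e hq
  show (DA g i (til g (hu.comp hf))).1 (frq (cf g) 1 e q) =
    deriv f (u (frq (cf g) 1 e q).bs) * (DA g i (til g hu)).1 (frq (cf g) 1 e q)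
  rw [h1, h2, frq_bs e hq, Finset.mul_sum]
  refine Finset.sum_congr rfl fun k _ => ?_
  have h3 : DifferentiableAt ℝ (loc u e) q.2.1 :=
    ((hu e).contDiffAt (e.1.open_target.mem_nhds hq.2.1)).differentiableAt (by simp)
  have h4 : HasDerivAt f (deriv f (loc u e q.2.1)) (loc u e q.2.1) :=
    ((hf (e.1.symm q.2.1)).differentiableAt (by simp)).hasDerivAt
  have h5 := (h4.comp_hasFDerivAt q.2.1 h3.hasFDerivAt).fderiv
  have h6 : pd k (fun y => f (u (e.1.symm y))) q.2.1 =
      deriv f (u (e.1.symm q.2.1)) * pd k (fun y => u (e.1.symm y)) q.2.1 := by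
    have h7 := congrArg (fun L : E3 →L[ℝ] ℝ => L (bv k)) h5
    exact h7
  rw [h6]
  ring

theorem V_til {u : M → ℝ} (hu : Sm u) (n : Fin 3) :
    (natV (isFam_cf g) n).der (isFam_cf g) (til g hu) = 0 := by
  exact basic_V (isFam_cf g) n (til g hu) (fun _ => u) (fun z => rfl)

theorem RA_til {u : M → ℝ} (hu : Sm u) (Q : O3) :
    RA (isFam_cf g) Q (til g hu) = til g hu := by
  refine FA_ext _ _ fun z => ?_
  rw [RA_apply]
  rfl

theorem DA_rot {u : M → ℝ} (hu : Sm u) (Q : O3) (i : Fin 3) :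
    RA (isFam_cf g) Q (DA g i (til g hu)) = ∑ j, (Q : Mat3) j i • DA g j (til g hu) := by
  rw [RA_D, RA_til]

end Pool.Agent.RFS.EE
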