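import Pool.Agent.RFS.EIA
import Pool.Agent.RFS.FAL
import Pool.Agent.RFS.FSM

/-!
Project RFS, chunk (e), module EIB: local formulas for the first and second derivatives.

Notation: `q ∈ oset 1 e.1.target (gt (cf g) e)`, `z = frq (cf g) 1 e q`, `x = q.2.1`, `a = q.2.2`.

Proofs.
* `D_til`: `basic_D` (with `u' := fun _ => u`).
* `DD_til`: `NatField.der_apply`, and `NatField.der0_eq` for the element `DA g j (til g hu)` with
  `F q' = ∑ l, q'.2.2 l j * pd l (loc u e) q'.2.1`, which is `ContDiffOn ∞` on `wset 1 e.1.target`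
  (`contDiffOn_pd`, module FSM or NPD; it is enough: differentiable at `q`) and represents the
  element by `D_til`.  Its derivative at `q` in the direction
  `hD G i q = (0, ∑ k, a k i • bv k, fun m j => -∑ k, ∑ l, chr m k l * a k i * a l j)` is
  `∑ l, (w l j * pd l (loc u e) x + a l j * ∑ k, a k i * pd k (fun y => pd l (loc u e) y) x)`,
  `w m j` = the vertical part.  (`wset` is `Ico 0 1 ×ˢ (open set)`; the function is
  differentiable at `q` in the usual sense, so `fderivWithin = fderiv` by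
  `DifferentiableAt.fderivWithin` and `uniqueDiffOn_wset`, module BSA or BSF: `LMet.ud`.)
* `gam_til`, `lap_til`: `(Matrix.of a)ᵀ * g.c e x * Matrix.of a = 1` (`Phi_eq` or the definition of
  `oset`), so `(g.c e x)⁻¹ = a * aᵀ` (`frame_inv`, module FAL), i.e.
  `(g.c e x)⁻¹ k l = ∑ i, a k i * a l i`; exchange the sums.
* `contDiffOn_gamC`, `contDiffOn_lapC`: `contDiffOn_pd`, `contDiffOn_inv`, `contDiffOn_chr` (FSM; `det ≠ 0`:
  `det_ne_zero_of_metric` in NMF), sums and products.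
* `Sm_gam`, `Sm_lap`: at `x ∈ e.1.target` there is an orthonormal frame over `x` (`exists_point`, and
  `coo e z`, `frq_coo`, `coo_mem`: `z.bs = e.1.symm x`, so `q = coo e z` has `q.2.1 = x`); so if
  `w : M → ℝ` satisfies `w z.bs = (gradient expression) z` for all `z`, then
  `loc w e = gamC g u v e` on the target.
-/

open scoped Manifold ContDiff Matrix
open Set MeasureTheory

noncomputable section

namespace Pool.Agent.RFS.EE

open RFSE BB

variable {M : Type*} [TopologicalSpace M] [ChartedSpace E3 M]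

theorem contDiffOn_gamC (g : RMetric M) {u v : M → ℝ} (hu : Sm u) (hv : Sm v) (e : Ch M) :
    ContDiffOn ℝ ∞ (gamC g u v e) e.1.target := by
  have hd : ∀ x ∈ e.1.target, (g.c e x).det ≠ 0 := fun x hx => (g.pos e x hx).det_pos.ne'
  refine ContDiffOn.sum fun k _ => ContDiffOn.sum fun l _ => ?_
  exact (contDiffOn_inv (g.smooth e) hd k l).mul
    ((contDiffOn_pd e.1.open_target (hu e) k).mul (contDiffOn_pd e.1.open_target (hv e) l))

theorem contDiffOn_lapC (g : RMetric M) {u : M → ℝ} (hu : Sm u) (e : Ch M) :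
    ContDiffOn ℝ ∞ (lapC g u e) e.1.target := by
  have hd : ∀ x ∈ e.1.target, (g.c e x).det ≠ 0 := fun x hx => (g.pos e x hx).det_pos.ne'
  refine ContDiffOn.sum fun k _ => ContDiffOn.sum fun l _ => ?_
  refine (contDiffOn_inv (g.smooth e) hd k l).mul
    ((contDiffOn_pd e.1.open_target (contDiffOn_pd e.1.open_target (hu e) l) k).sub
      (ContDiffOn.sum fun m _ => ?_))
  exact (contDiffOn_chr e.1.open_target (g.smooth e) hd m k l).mul
    (contDiffOn_pd e.1.open_target (hu e) m)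

variable [IsManifold (𝓡 3) ∞ M] (g : RMetric M) [Nonempty (Fr (cf g) 1)]

theorem D_til {u : M → ℝ} (hu : Sm u) (i : Fin 3) (e : Ch M) {q : Qs}
    (hq : q ∈ oset 1 e.1.target (gt (cf g) e)) :
    (DA g i (til g hu)).1 (frq (cf g) 1 e q) = ∑ k, q.2.2 k i * pd k (loc u e) q.2.1 := by
  exact basic_D (isFam_cf g) i (til g hu) (fun _ => u) (fun _ => rfl) e hq

theorem DD_til {u : M → ℝ} (hu : Sm u) (i j : Fin 3) (e : Ch M) {q : Qs}
    (hq : q ∈ oset 1 e.1.target (gt (cf g) e)) :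
    (DA g i (DA g j (til g hu))).1 (frq (cf g) 1 e q) = ∑ k, ∑ l, q.2.2 k i * q.2.2 l j *
      (pd k (fun y => pd l (loc u e) y) q.2.1 - ∑ m, chr (g.c e) q.2.1 m k l * pd m (loc u e) q.2.1) := by
  have hg := isFam_cf g
  have hqw := (hg.lmet e).oset_sub hq
  let A : Fin 3 → Fin 3 → Qs →L[ℝ] ℝ := fun l j =>
    ((ContinuousLinearMap.proj j : (Fin 3 → ℝ) →L[ℝ] ℝ).comp
      (ContinuousLinearMap.proj l : (Fin 3 → Fin 3 → ℝ) →L[ℝ] (Fin 3 → ℝ))).comp
      ((ContinuousLinearMap.snd ℝ E3 Fm).comp (ContinuousLinearMap.snd ℝ ℝ (E3 × Fm)))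
  let X : Qs →L[ℝ] E3 :=
    (ContinuousLinearMap.fst ℝ E3 Fm).comp (ContinuousLinearMap.snd ℝ ℝ (E3 × Fm))
  have hD : ∀ l : Fin 3, HasFDerivAt (pd l (loc u e)) (fderiv ℝ (pd l (loc u e)) q.2.1) (X q) :=
    fun l => (((contDiffOn_pd e.1.open_target (hu e) l).contDiffAt
      (e.1.open_target.mem_nhds hq.2.1)).differentiableAt (by simp)).hasFDerivAt
  have hS : ∀ l : Fin 3, HasFDerivAt (fun q' : Qs => q'.2.2 l j * pd l (loc u e) q'.2.1)
      (q.2.2 l j • (fderiv ℝ (pd l (loc u e)) q.2.1).comp X + pd l (loc u e) q.2.1 • A l j) q :=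
    fun l => (A l j).hasFDerivAt.mul ((hD l).comp q X.hasFDerivAt)
  have hF : HasFDerivAt (fun q' : Qs => ∑ l, q'.2.2 l j * pd l (loc u e) q'.2.1)
      (∑ l, (q.2.2 l j • (fderiv ℝ (pd l (loc u e)) q.2.1).comp X +
        pd l (loc u e) q.2.1 • A l j)) q :=
    HasFDerivAt.fun_sum fun l _ => hS l
  have h1 : (DA g i (DA g j (til g hu))).1 (frq (cf g) 1 e q) =
      fderivWithin ℝ (fun q' : Qs => ∑ l, q'.2.2 l j * pd l (loc u e) q'.2.1)
        (wset 1 e.1.target) q ((natD hg i).X e q) := by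
    refine (natD hg i).der0_eq hg (DA g j (til g hu)) e hq _
      hF.differentiableAt.differentiableWithinAt ?_
    filter_upwards [self_mem_nhdsWithin] with q' hq'
    exact (D_til g hu j e hq').symm
  rw [h1, (hF.hasFDerivWithinAt (s := wset 1 e.1.target)).fderivWithin
    (uniqueDiffOn_wset hg.pos_b e.1.open_target q hqw)]
  have hX : X ((natD hg i).X e q) = ∑ k, q.2.2 k i • bv k := rfl
  have hA : ∀ l, A l j ((natD hg i).X e q) =
      -∑ k, ∑ l', chr (g.c e) q.2.1 l k l' * q.2.2 k i * q.2.2 l' j := fun l => rfl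
  have hL : ∀ l, (q.2.2 l j • (fderiv ℝ (pd l (loc u e)) q.2.1).comp X +
      pd l (loc u e) q.2.1 • A l j) ((natD hg i).X e q) =
      q.2.2 l j * (∑ k, q.2.2 k i * pd k (fun y => pd l (loc u e) y) q.2.1) +
      pd l (loc u e) q.2.1 *
        -∑ k, ∑ l', chr (g.c e) q.2.1 l k l' * q.2.2 k i * q.2.2 l' j := by
    intro l
    rw [add_apply, smul_apply,
      smul_apply, ContinuousLinearMap.comp_apply, hX, hA, map_sum]
    simp only [map_smul, smul_eq_mul]
    rfl
  rw [_root_.sum_apply, Finset.sum_congr rfl fun l _ => hL l]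
  simp only [Fin.sum_univ_three]
  ring

omit [IsManifold (𝓡 3) ∞ M] [Nonempty (Fr (cf g) 1)] in
theorem inv_frame (e : Ch M) {q : Qs} (hq : q ∈ oset 1 e.1.target (gt (cf g) e)) (k l : Fin 3) :
    (g.c e q.2.1)⁻¹ k l = ∑ i, q.2.2 k i * q.2.2 l i := by
  have h1 : (Matrix.of q.2.2)ᵀ * g.c e q.2.1 * Matrix.of q.2.2 = 1 := by
    have h2 := Phi_eq (gt (cf g) e) q
    rw [hq.2.2, one3_eq] at h2
    exact h2.symm
  rw [(frame_inv h1).1, Matrix.mul_apply]
  rfl

theorem gam_til {u v : M → ℝ} (hu : Sm u) (hv : Sm v) (e : Ch M) {q : Qs}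
    (hq : q ∈ oset 1 e.1.target (gt (cf g) e)) :
    (∑ i, DA g i (til g hu) * DA g i (til g hv)).1 (frq (cf g) 1 e q) = gamC g u v e q.2.1 := by
  have h1 : ∀ i, (DA g i (til g hu) * DA g i (til g hv)).1 (frq (cf g) 1 e q) =
      (∑ k, q.2.2 k i * pd k (loc u e) q.2.1) * (∑ k, q.2.2 k i * pd k (loc v e) q.2.1) := by
    intro i
    rw [← D_til g hu i e hq, ← D_til g hv i e hq]
    rfl
  rw [sum_FA, Finset.sum_congr rfl fun i _ => h1 i]
  unfold gamC
  simp only [inv_frame g e hq, Fin.sum_univ_three]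
  ring

theorem lap_til {u : M → ℝ} (hu : Sm u) (e : Ch M) {q : Qs}
    (hq : q ∈ oset 1 e.1.target (gt (cf g) e)) :
    (∑ i, DA g i (DA g i (til g hu))).1 (frq (cf g) 1 e q) = lapC g u e q.2.1 := by
  rw [sum_FA, Finset.sum_congr rfl fun i _ => DD_til g hu i i e hq]
  unfold lapC
  simp only [inv_frame g e hq, Finset.sum_mul]
  rw [Finset.sum_comm]
  refine Finset.sum_congr rfl fun k _ => ?_
  rw [Finset.sum_comm]

theorem exists_q (e : Ch M) {x : E3} (hx : x ∈ e.1.target) :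
    ∃ q : Qs, q ∈ oset 1 e.1.target (gt (cf g) e) ∧ q.2.1 = x ∧
      (frq (cf g) 1 e q).bs = e.1.symm x := by
  have : Nonempty M := ⟨e.1.symm x⟩
  obtain ⟨z, -, hz⟩ := exists_point (isFam_cf g) (t := 0) ⟨le_rfl, one_pos⟩ (e.1.symm x)
  have hs : z.bs ∈ e.1.source := by
    rw [hz]
    exact e.1.map_target hx
  refine ⟨coo e z, coo_mem e hs, ?_, ?_⟩
  · show e.1 z.bs = x
    rw [hz, e.1.right_inv hx]
  · rw [frq_coo e hs, hz]

theorem Sm_of_gam {u v w : M → ℝ} (hu : Sm u) (hv : Sm v)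
    (hw : ∀ z : Fr (cf g) 1, w z.bs = (∑ i, DA g i (til g hu) * DA g i (til g hv)).1 z) :
    Sm w ∧ ∀ e : Ch M, ∀ x ∈ e.1.target, w (e.1.symm x) = gamC g u v e x := by
  have h : ∀ e : Ch M, ∀ x ∈ e.1.target, w (e.1.symm x) = gamC g u v e x := by
    intro e x hx
    obtain ⟨q, hq, hqx, hqb⟩ := exists_q g e hx
    rw [← hqb, hw, gam_til g hu hv e hq, hqx]
  exact ⟨fun e => (contDiffOn_gamC g hu hv e).congr fun x hx => h e x hx, h⟩

theorem Sm_of_lap {u w : M → ℝ} (hu : Sm u)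
    (hw : ∀ z : Fr (cf g) 1, w z.bs = (∑ i, DA g i (DA g i (til g hu))).1 z) :
    Sm w ∧ ∀ e : Ch M, ∀ x ∈ e.1.target, w (e.1.symm x) = lapC g u e x := by
  have h : ∀ e : Ch M, ∀ x ∈ e.1.target, w (e.1.symm x) = lapC g u e x := by
    intro e x hx
    obtain ⟨q, hq, hqx, hqb⟩ := exists_q g e hx
    rw [← hqb, hw, lap_til g hu e hq, hqx]
  exact ⟨fun e => (contDiffOn_lapC g hu e).congr fun x hx => h e x hx, h⟩

end Pool.Agent.RFS.EE
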