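import Pool.Agent.RFS.BDF

/-!
Project RFS, chunk (e), module EIC: Bochner formula in the frame calculus.

Proofs. `f` with `V n f = 0`.
* `hess_symm`: `comm_DD` (all terms on the right side contain `V n f = 0`).
* `bochner`: `D j (∑ i, D i f * D i f) = 2 ∑ i, D i f * D j (D i f)`, so
  `∑ j, D j (D j (...)) = 2 ∑ i j, (D j (D i f))² + 2 ∑ i, D i f * ∑ j, D j (D j (D i f))`.  By `hess_symm`
  `D j (D j (D i f)) = D j (D i (D j f)) = D i (D j (D j f)) + ∑ m n, eps j i m • (P m n * V n (D j f))`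
  (`comm_DD`), and `V n (D j f) = ∑ k, eps n j k • D k f` (`comm_VD`, `V n f = 0`).  Summing over `j`:
  `∑ j, eps j i m * eps n j k = δ_ik δ_mn - δ_in δ_mk`, so the extra term is
  `(∑ m, P m m) * D i f - ∑ k, P k i * D k f`.
In Lean: `Fin.sum_univ_three`, the values of `eps` (see `e_val` in module BGR), then
`linear_combination` of `D j (hess_symm j i)`, `comm_DD j i (D j f)`, `comm_VD n j f`, `P_symm`.
-/

open scoped Manifold ContDiff Matrix
open Set MeasureTheory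

noncomputable section

namespace Pool.Agent.RFS.BB

namespace GAlg

variable {A : Type*} [CommRing A] [Algebra ℝ A] (S : GAlg A)

theorem hess_symm {f : A} (hf : ∀ n, S.V n f = 0) (i j : Fin 3) :
    S.D i (S.D j f) = S.D j (S.D i f) := by
  rw [← sub_eq_zero, S.comm_DD]
  simp only [hf, mul_zero, smul_zero, Finset.sum_const_zero]

private theorem EIC_val : (∀ j k : Fin 3, eps j j k = 0) ∧ (∀ j k : Fin 3, eps j k k = 0) ∧
    (∀ j k : Fin 3, eps j k j = 0) ∧ eps 0 1 2 = 1 ∧ eps 1 2 0 = 1 ∧ eps 2 0 1 = 1 ∧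
    eps 0 2 1 = -1 ∧ eps 1 0 2 = -1 ∧ eps 2 1 0 = -1 := by
  refine ⟨fun j k => ?_, fun j k => ?_, fun j k => ?_, ?_, ?_, ?_, ?_, ?_, ?_⟩ <;>
    simp [eps] <;> norm_num

private theorem EIC_VD {f : A} (hf : ∀ n, S.V n f = 0) (n j : Fin 3) :
    S.V n (S.D j f) = ∑ k, eps n j k • S.D k f := by
  have h := S.comm_VD n j f
  rw [hf, map_zero, sub_zero] at h
  exact h

private theorem EIC_comm {f : A} (hf : ∀ n, S.V n f = 0) (j i : Fin 3) :
    S.D j (S.D j (S.D i f)) = S.D i (S.D j (S.D j f)) +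
      ∑ m, ∑ n, eps j i m • (S.P m n * ∑ k, eps n j k • S.D k f) := by
  have h := S.comm_DD j i (S.D j f)
  simp only [S.EIC_VD hf] at h
  rw [S.hess_symm hf j i, ← h]
  ring

private theorem EIC_sq (j : Fin 3) (u : A) :
    S.D j (S.D j (u * u)) = 2 * (S.D j u * S.D j u) + 2 * (u * S.D j (S.D j u)) := by
  simp only [Derivation.leibniz, smul_eq_mul, map_add]
  ring

theorem bochner {f : A} (hf : ∀ n, S.V n f = 0) :
    ∑ j, S.D j (S.D j (∑ i, S.D i f * S.D i f)) =
      2 * (∑ i, ∑ j, S.D i (S.D j f) * S.D i (S.D j f)) +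
      2 * (∑ i, S.D i f * S.D i (∑ j, S.D j (S.D j f))) +
      2 * (∑ i, ∑ j, ((if i = j then ∑ k, S.P k k else 0) - S.P i j) * (S.D i f * S.D j f)) := by
  obtain ⟨a1, a2, a3, b1, b2, b3, b4, b5, b6⟩ := EIC_val
  have n01 : (0 : Fin 3) ≠ 1 := by decide
  have n02 : (0 : Fin 3) ≠ 2 := by decide
  have n12 : (1 : Fin 3) ≠ 2 := by decide
  have c01 := S.EIC_comm hf 0 1
  have c02 := S.EIC_comm hf 0 2
  have c10 := S.EIC_comm hf 1 0
  have c12 := S.EIC_comm hf 1 2
  have c20 := S.EIC_comm hf 2 0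
  have c21 := S.EIC_comm hf 2 1
  have s1 := S.P_symm 1 0
  have s2 := S.P_symm 2 0
  have s3 := S.P_symm 2 1
  have h1 := S.hess_symm hf 1 0
  have h2 := S.hess_symm hf 2 0
  have h3 := S.hess_symm hf 2 1
  simp only [Fin.sum_univ_three, a1, a2, a3, b1, b2, b3, b4, b5, b6, zero_smul, one_smul,
    neg_smul, add_zero, zero_add, mul_zero] at c01 c02 c10 c12 c20 c21
  simp only [Fin.sum_univ_three, map_add, EIC_sq, if_true, if_neg n01, if_neg n01.symm,
    if_neg n02, if_neg n02.symm, if_neg n12, if_neg n12.symm, zero_sub]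
  rw [c01, c02, c10, c12, c20, c21, s1, s2, s3, h1, h2, h3]
  ring

end GAlg

end Pool.Agent.RFS.BB
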