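import Pool.Agent.RFS.NPD

/-!
Project RFS, chunk (e), module EID: first and second order conditions at a local maximum of a
smooth function on `E3`.

Proofs.
* first part: `IsLocalMax.fderiv_eq_zero`.
* second part: let `w = ∑ k, v k • bv k` and `φ s = f (x + s • w)`.  Near `0`: `φ' s = fderiv ℝ f (x + s • w) w
  = ∑ l, v l * pd l f (x + s • w)` and `φ'' 0 = ∑ k, ∑ l, v k * v l * pd k (fun y => pd l f y) x`.
  `φ` has a local maximum at `0`.  If `φ'' 0 > 0`, then by `isLocalMin_of_deriv_deriv_pos` it has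
  also a local minimum at `0`, so `φ` is constant near `0` and `φ'' 0 = 0`, a contradiction.
* `RicC_iff`: `v = ∑ i, a · i * b i`; `aᵀ G a = 1`, so `∑ G v v = ∑ b²` and
  `∑ Ric v v = ∑ (aᵀ Ric a) b b`; `a` is invertible (`frame_inv`, module FAL), so every `v` is of this
  form.
-/

open scoped Manifold ContDiff Matrix
open Set MeasureTheory

noncomputable section

namespace Pool.Agent.RFS.EE

private theorem pd_pd_eq {f : E3 → ℝ} {x : E3} (hf : ContDiffAt ℝ ∞ f x) (a b : Fin 3) :
    pd a (fun y => pd b f y) x = fderiv ℝ (fderiv ℝ f) x (bv a) (bv b) := by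
  have hd : DifferentiableAt ℝ (fderiv ℝ f) x :=
    (hf.fderiv_right (m := 1) (WithTop.coe_le_coe.mpr (le_top (a := (2 : ℕ∞))))).differentiableAt
      (by simp)
  have h1 : HasFDerivAt (fun y => fderiv ℝ f y (bv b))
      ((fderiv ℝ (fderiv ℝ f) x).flip (bv b)) x := by
    have := hd.hasFDerivAt.clm_apply (hasFDerivAt_const (bv b) x)
    simpa using this
  unfold pd
  rw [h1.fderiv]
  rfl

private theorem second_nonpos {f : E3 → ℝ} {x : E3} (hf : ContDiffAt ℝ ∞ f x)
    (h : IsLocalMax f x) (w : E3) : fderiv ℝ (fderiv ℝ f) x w w ≤ 0 := by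
  have hd : DifferentiableAt ℝ (fderiv ℝ f) x :=
    (hf.fderiv_right (m := 1) (WithTop.coe_le_coe.mpr (le_top (a := (2 : ℕ∞))))).differentiableAt
      (by simp)
  have hline : ∀ s : ℝ, HasDerivAt (fun s : ℝ => x + s • w) w s := by
    intro s
    have := ((hasDerivAt_id s).smul_const w).const_add x
    simpa using this
  have hcont : ContinuousAt (fun s : ℝ => x + s • w) 0 := (hline 0).continuousAt
  have h0 : x + (0 : ℝ) • w = x := by simp
  have hev : ∀ᶠ y in nhds x, DifferentiableAt ℝ f y := by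
    have h1 := (hf.of_le (m := 1) (WithTop.coe_le_coe.mpr (le_top (a := (1 : ℕ∞))))).eventually
      (by simp)
    filter_upwards [h1] with y hy
    exact hy.differentiableAt (by simp)
  have hev2 : ∀ᶠ s in nhds (0 : ℝ), DifferentiableAt ℝ f (x + s • w) := by
    have : Filter.Tendsto (fun s : ℝ => x + s • w) (nhds 0) (nhds x) := by
      have := hcont.tendsto
      rwa [h0] at this
    exact this.eventually hev
  have hφ' : deriv (fun s : ℝ => f (x + s • w)) =ᶠ[nhds 0]
      fun s => fderiv ℝ f (x + s • w) w := by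
    filter_upwards [hev2] with s hs
    have := hs.hasFDerivAt.comp_hasDerivAt s (hline s)
    exact this.deriv
  have hφ'' : deriv (deriv (fun s : ℝ => f (x + s • w))) 0 = fderiv ℝ (fderiv ℝ f) x w w := by
    rw [hφ'.deriv_eq]
    have hd0 : DifferentiableAt ℝ (fderiv ℝ f) (x + (0 : ℝ) • w) := by rw [h0]; exact hd
    have h1 := hd0.hasFDerivAt.comp_hasDerivAt (0 : ℝ) (hline 0)
    have h2 := h1.clm_apply (hasDerivAt_const (0 : ℝ) w)
    have h3 := h2.deriv
    simp only [Function.comp_def, map_zero, add_zero] at h3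
    rw [h3, h0]
  by_contra hcon
  have hcon := lt_of_not_ge hcon
  rw [← hφ''] at hcon
  have hmaxφ : IsLocalMax (fun s : ℝ => f (x + s • w)) 0 := by
    have : Filter.Tendsto (fun s : ℝ => x + s • w) (nhds 0) (nhds x) := by
      have := hcont.tendsto
      rwa [h0] at this
    have h1 := this.eventually h
    show ∀ᶠ s in nhds (0 : ℝ), f (x + s • w) ≤ f (x + (0 : ℝ) • w)
    rw [h0]
    exact h1
  have hd1 : deriv (fun s : ℝ => f (x + s • w)) 0 = 0 := hmaxφ.deriv_eq_zero
  have hc0 : ContinuousAt (fun s : ℝ => f (x + s • w)) 0 := by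
    have h1 : DifferentiableAt ℝ f (x + (0 : ℝ) • w) := hev2.self_of_nhds
    exact ContinuousAt.comp (g := f) (f := fun s : ℝ => x + s • w) h1.continuousAt hcont
  have hmin := isLocalMin_of_deriv_deriv_pos hcon hd1 hc0
  have hconst : (fun s : ℝ => f (x + s • w)) =ᶠ[nhds 0] fun _ => f (x + (0 : ℝ) • w) := by
    have h1 : ∀ᶠ s in nhds (0 : ℝ), f (x + s • w) ≤ f (x + (0 : ℝ) • w) := hmaxφ
    have h2 : ∀ᶠ s in nhds (0 : ℝ), f (x + (0 : ℝ) • w) ≤ f (x + s • w) := hmin
    filter_upwards [h1, h2] with s hs1 hs2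
    exact le_antisymm hs1 hs2
  have h2 : deriv (fun s : ℝ => f (x + s • w)) =ᶠ[nhds 0] fun _ => 0 := by
    filter_upwards [hconst.eventuallyEq_nhds] with s hs
    rw [hs.deriv_eq]
    simp
  rw [h2.deriv_eq] at hcon
  simp at hcon

theorem locmax_pd {f : E3 → ℝ} {x : E3} (hf : ContDiffAt ℝ ∞ f x) (h : IsLocalMax f x) :
    (∀ k, pd k f x = 0) ∧
      ∀ v : Fin 3 → ℝ, ∑ k, ∑ l, v k * v l * pd k (fun y => pd l f y) x ≤ 0 := by
  constructor
  · intro k
    unfold pd
    rw [h.fderiv_eq_zero]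
    rfl
  · intro v
    have h1 := second_nonpos hf h (∑ k, v k • bv k)
    have h2 : fderiv ℝ (fderiv ℝ f) x (∑ k, v k • bv k) (∑ k, v k • bv k) =
        ∑ k, ∑ l, v k * v l * pd k (fun y => pd l f y) x := by
      have h3 : fderiv ℝ (fderiv ℝ f) x (∑ k, v k • bv k) =
          ∑ k, v k • fderiv ℝ (fderiv ℝ f) x (bv k) := by
        rw [map_sum]
        exact Finset.sum_congr rfl fun k _ => map_smul _ _ _
      rw [h3, map_sum]
      rw [Finset.sum_comm]
      refine Finset.sum_congr rfl fun l _ => ?_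
      rw [map_smul, sum_apply, smul_eq_mul, Finset.mul_sum]
      refine Finset.sum_congr rfl fun k _ => ?_
      rw [pd_pd_eq hf k l, smul_apply, smul_eq_mul]
      ring
    rw [← h2]
    exact h1

private theorem quad_change (Mx a : Mat3) (b : Fin 3 → ℝ) :
    ∑ i, ∑ j, Mx i j * (∑ k, a i k * b k) * (∑ k, a j k * b k) =
      ∑ i, ∑ j, (aᵀ * Mx * a) i j * (b i * b j) := by
  simp only [Fin.sum_univ_three, Matrix.mul_apply, Matrix.transpose_apply]
  ring

theorem quad_iff (c : ℝ) (G R a : Mat3) (ha : aᵀ * G * a = 1) :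
    (∀ v : Fin 3 → ℝ, c * ∑ i, ∑ j, G i j * v i * v j ≤ ∑ i, ∑ j, R i j * v i * v j) ↔
      ∀ b : Fin 3 → ℝ, c * ∑ i, b i * b i ≤ ∑ i, ∑ j, (aᵀ * R * a) i j * (b i * b j) := by
  have hG : ∀ b : Fin 3 → ℝ, ∑ i, ∑ j, G i j * (∑ k, a i k * b k) * (∑ k, a j k * b k) =
      ∑ i, b i * b i := by
    intro b
    rw [quad_change, ha]
    simp [Fin.sum_univ_three, Matrix.one_apply]
  have hdet : IsUnit a.det := by
    have h := congrArg Matrix.det ha
    rw [Matrix.det_mul, Matrix.det_mul, Matrix.det_transpose, Matrix.det_one] at h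
    rw [isUnit_iff_ne_zero]
    intro h0
    rw [h0] at h
    simp at h
  constructor
  · intro H b
    have h := H (fun i => ∑ k, a i k * b k)
    rw [hG, quad_change] at h
    exact h
  · intro H v
    have hv : ∀ i, ∑ k, a i k * (a⁻¹ *ᵥ v) k = v i := by
      intro i
      have h1 : a *ᵥ (a⁻¹ *ᵥ v) = v := by
        rw [Matrix.mulVec_mulVec, Matrix.mul_nonsing_inv _ hdet, Matrix.one_mulVec]
      exact congrFun h1 i
    have h := H (a⁻¹ *ᵥ v)
    rw [← hG, ← quad_change] at h
    simp only [hv] at h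
    exact h

end Pool.Agent.RFS.EE
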