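import Pool.Agent.RFS.EIB
import Pool.Agent.RFS.EIC
import Pool.Agent.RFS.EID
import Pool.Agent.RFS.BGA
import Pool.Agent.RFS.BDV
import Pool.Agent.RFS.FAL
import Pool.Agent.RFS.FVO

/-!
Project RFS, chunk (e), module EIE: existence of the scalar calculus `SG` of a Riemannian metric.

Construction.  `z p : Fr (cf g) 1` a point of the bundle over `p` (`exists_point`).
`d p i u = (DA g i (til g hu)).1 (z p)` if `hu : Sm u`, and `0` otherwise;
`H p i j u = (DA g i (DA g j (til g hu))).1 (z p)` if `hu : Sm u`, and `0` otherwise;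
`Ric p i j = ((if i = j then ∑ k, PA k k else 0) - PA i j).1 (z p)`.  `S = {u | Sm u}`.
The derivations `DA g i` are the `D i` of `galgA (isFam_cf g)` (definitional), `PA` its `P`, and
`V n (til u) = 0` (`V_til`).

Fields.
* `cont`, `const_mem`, `add_mem`, `mul_mem`, `comp_mem`: module EIA.
* `d_add`, `d_mul`, `H_add`, `H_mul`: `til (u + v) = til u + til v`, `til (u * v) = til u * til v`
  (`FA_ext`), `map_add`, `Derivation.leibniz`.
* `d_comp`, `H_comp`: `D_til_comp`, twice, with `Derivation.leibniz`.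
* `H_symm`: `GAlg.hess_symm`.
* `gam_mem`, `lap_mem`: `Sm_of_gam`, `Sm_of_lap`.  The hypothesis `hw` there says that
  `(∑ i, DA i u * DA i v).1 z` depends only on `z.bs`: let `z` be arbitrary and `z p`, `p = z.bs`; with
  `e = ch p`, `q = coo e z`, `q' = coo e (z p)`, both values are `gamC g u v e (e p)` by `gam_til`
  (`frq_coo`, `coo_mem`).  The same for `lap`.
* `d_gam`, `bochner`: `til (fun p => ∑ i, d p i u * d p i u) = ∑ i, DA i u * DA i u` (`FA_ext`),
  `til (fun p => ∑ i, H p i i u) = ∑ i, DA i (DA i u)`, and `GAlg.bochner`.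
* `locmax`: in the chart `e = ch p`, `loc u e` has a local maximum at `e p` (`e.symm` is continuous
  there); `locmax_pd`, `D_til`, `DD_til` (with `∑ m, chr * 0 = 0`) at `q = coo e (z p)`.
* `fin`: `isVol_finite`.  `int_lap`: `div_FA` with `v i = DA g i (til g hu)`, `DA_rot`, `t = 0`.
* `IsSG.gam_eq`, `lap_eq`: `Sm_of_gam`, `Sm_of_lap`.
* `IsSG.ric`: `z (e.symm x) = frq e q`, `q = coo e (z ..)`, `q.2.1 = x`; `PA_frq`; `frame_formulas` (module
  FAL) with `Q = aᵀ * pten * a` gives `Ric (e.symm x) i j = (aᵀ * ricci * a) i j`; then `quad_iff`.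
-/

open scoped Manifold ContDiff Matrix
open Set MeasureTheory

noncomputable section

namespace Pool.Agent.RFS.EE

open RFSE BB

variable {M : Type*} [TopologicalSpace M] [ChartedSpace E3 M] [IsManifold (𝓡 3) ∞ M]

section Aux

variable (g : RMetric M) [Nonempty (Fr (cf g) 1)]

/-- Evaluation at a point of the bundle. -/
private def evA (z : Fr (cf g) 1) : FA (cf g) 1 →ₐ[ℝ] ℝ :=
  (Pi.evalAlgHom ℝ (fun _ : Fr (cf g) 1 => ℝ) z).comp (FA (cf g) 1).val

omit [IsManifold (𝓡 3) ∞ M] in
private theorem evA_apply (z : Fr (cf g) 1) (f : FA (cf g) 1) : evA g z f = f.1 z := rfl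

private theorem til_add {u v : M → ℝ} (hu : Sm u) (hv : Sm v) :
    til g (hu.add hv) = til g hu + til g hv := FA_ext _ _ fun _ => rfl

private theorem til_mul {u v : M → ℝ} (hu : Sm u) (hv : Sm v) :
    til g (hu.mul hv) = til g hu * til g hv := FA_ext _ _ fun _ => rfl

private theorem base_dep (F : FA (cf g) 1) (C : Ch M → E3 → ℝ)
    (hF : ∀ (e : Ch M) (q : Qs), q ∈ oset 1 e.1.target (gt (cf g) e) →
      F.1 (frq (cf g) 1 e q) = C e q.2.1) (z z' : Fr (cf g) 1) (h : z.bs = z'.bs) :
    F.1 z = F.1 z' := by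
  have hz : z.bs ∈ (ch z.bs).1.source := mem_source_ch _
  have hz' : z'.bs ∈ (ch z.bs).1.source := by rw [← h]; exact hz
  have h1 := hF (ch z.bs) _ (coo_mem (ch z.bs) hz)
  have h2 := hF (ch z.bs) _ (coo_mem (ch z.bs) hz')
  rw [frq_coo (ch z.bs) hz] at h1
  rw [frq_coo (ch z.bs) hz'] at h2
  rw [h1, h2]
  show C (ch z.bs) ((ch z.bs).1 z.bs) = C (ch z.bs) ((ch z.bs).1 z'.bs)
  rw [h]

variable (z : M → Fr (cf g) 1)

open Classical in
/-- The first covariant derivative. -/
private def dSG (p : M) (i : Fin 3) (u : M → ℝ) : ℝ :=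
  if hu : Sm u then evA g (z p) (DA g i (til g hu)) else 0

open Classical in
/-- The second covariant derivative. -/
private def hSG (p : M) (i j : Fin 3) (u : M → ℝ) : ℝ :=
  if hu : Sm u then evA g (z p) (DA g i (DA g j (til g hu))) else 0

/-- The Ricci tensor. -/
private def rSG (p : M) (i j : Fin 3) : ℝ :=
  evA g (z p) ((if i = j then ∑ k, PA (isFam_cf g) k k else 0) - PA (isFam_cf g) i j)

variable {g z}

private theorem dSG_of {u : M → ℝ} (hu : Sm u) (p : M) (i : Fin 3) :
    dSG g z p i u = evA g (z p) (DA g i (til g hu)) := by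
  unfold dSG
  rw [dif_pos hu]

private theorem hSG_of {u : M → ℝ} (hu : Sm u) (p : M) (i j : Fin 3) :
    hSG g z p i j u = evA g (z p) (DA g i (DA g j (til g hu))) := by
  unfold hSG
  rw [dif_pos hu]

variable (hz : ∀ p, (z p).bs = p)

include hz

private theorem ev_til {u : M → ℝ} (hu : Sm u) (p : M) : evA g (z p) (til g hu) = u p := by
  show u (z p).bs = u p
  rw [hz]

private theorem gam_val {u v : M → ℝ} (hu : Sm u) (hv : Sm v) (z' : Fr (cf g) 1) :
    ∑ i, dSG g z z'.bs i u * dSG g z z'.bs i v =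
      (∑ i, DA g i (til g hu) * DA g i (til g hv)).1 z' := by
  rw [base_dep g (∑ i, DA g i (til g hu) * DA g i (til g hv)) (gamC g u v)
    (fun e q hq => gam_til g hu hv e hq) z' (z z'.bs) (hz _).symm]
  rw [← evA_apply, map_sum]
  refine Finset.sum_congr rfl fun i _ => ?_
  rw [dSG_of hu, dSG_of hv, map_mul]

private theorem lap_val {u : M → ℝ} (hu : Sm u) (z' : Fr (cf g) 1) :
    ∑ i, hSG g z z'.bs i i u = (∑ i, DA g i (DA g i (til g hu))).1 z' := by
  rw [base_dep g (∑ i, DA g i (DA g i (til g hu))) (lapC g u)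
    (fun e q hq => lap_til g hu e hq) z' (z z'.bs) (hz _).symm]
  rw [← evA_apply, map_sum]
  refine Finset.sum_congr rfl fun i _ => ?_
  rw [hSG_of hu]

private theorem gam_Sm {u v : M → ℝ} (hu : Sm u) (hv : Sm v) :
    Sm (fun p => ∑ i, dSG g z p i u * dSG g z p i v) ∧ ∀ e : Ch M, ∀ x ∈ e.1.target,
      ∑ i, dSG g z (e.1.symm x) i u * dSG g z (e.1.symm x) i v = gamC g u v e x :=
  Sm_of_gam g hu hv (w := fun p => ∑ i, dSG g z p i u * dSG g z p i v)
    fun z' => gam_val hz hu hv z'

private theorem lap_Sm {u : M → ℝ} (hu : Sm u) :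
    Sm (fun p => ∑ i, hSG g z p i i u) ∧ ∀ e : Ch M, ∀ x ∈ e.1.target,
      ∑ i, hSG g z (e.1.symm x) i i u = lapC g u e x :=
  Sm_of_lap g hu (w := fun p => ∑ i, hSG g z p i i u) fun z' => lap_val hz hu z'

private theorem til_gam {u : M → ℝ} (hu : Sm u) :
    til g (gam_Sm hz hu hu).1 = ∑ i, DA g i (til g hu) * DA g i (til g hu) :=
  FA_ext _ _ fun z' => gam_val hz hu hu z'

private theorem til_lap {u : M → ℝ} (hu : Sm u) :
    til g (lap_Sm hz hu).1 = ∑ i, DA g i (DA g i (til g hu)) :=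
  FA_ext _ _ fun z' => lap_val hz hu z'

private theorem d_gam' {u : M → ℝ} (hu : Sm u) (x : M) (j : Fin 3) :
    dSG g z x j (fun y => ∑ i, dSG g z y i u * dSG g z y i u) =
      2 * ∑ i, dSG g z x i u * hSG g z x j i u := by
  rw [dSG_of (gam_Sm hz hu hu).1, til_gam hz hu, map_sum, map_sum, Finset.mul_sum]
  refine Finset.sum_congr rfl fun i _ => ?_
  rw [Derivation.leibniz, dSG_of hu, hSG_of hu, map_add, smul_eq_mul, map_mul]
  ring

private theorem bochner' {u : M → ℝ} (hu : Sm u) (x : M) :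
    (∑ j, hSG g z x j j (fun y => ∑ i, dSG g z y i u * dSG g z y i u)) =
      2 * (∑ i, ∑ j, hSG g z x i j u ^ 2) +
      2 * (∑ i, dSG g z x i u * dSG g z x i (fun y => ∑ j, hSG g z y j j u)) +
      2 * (∑ i, ∑ j, rSG g z x i j * (dSG g z x i u * dSG g z x j u)) := by
  have h := congrArg (evA g (z x)) ((galgA (isFam_cf g)).bochner (f := til g hu)
    (fun n => V_til g hu n))
  have hL : (∑ j, hSG g z x j j (fun y => ∑ i, dSG g z y i u * dSG g z y i u)) =
      evA g (z x) (∑ j, (galgA (isFam_cf g)).D j ((galgA (isFam_cf g)).D j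
        (∑ i, (galgA (isFam_cf g)).D i (til g hu) * (galgA (isFam_cf g)).D i (til g hu)))) := by
    rw [map_sum]
    refine Finset.sum_congr rfl fun j _ => ?_
    rw [hSG_of (gam_Sm hz hu hu).1, til_gam hz hu]
    rfl
  rw [hL, h, map_add, map_add, map_mul, map_mul, map_mul]
  have h2 : evA g (z x) 2 = 2 := map_ofNat _ 2
  rw [h2]
  congr 1
  · congr 1
    · congr 1
      rw [map_sum]
      refine Finset.sum_congr rfl fun i _ => ?_
      rw [map_sum]
      refine Finset.sum_congr rfl fun j _ => ?_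
      rw [map_mul, hSG_of hu, pow_two]
      rfl
    · congr 1
      rw [map_sum]
      refine Finset.sum_congr rfl fun i _ => ?_
      rw [map_mul, dSG_of hu, dSG_of (lap_Sm hz hu).1, til_lap hz hu]
      rfl
  · congr 1
    rw [map_sum]
    refine Finset.sum_congr rfl fun i _ => ?_
    rw [map_sum]
    refine Finset.sum_congr rfl fun j _ => ?_
    rw [map_mul, map_mul, dSG_of hu, dSG_of hu]
    rfl

private theorem locmax' {u : M → ℝ} (hu : Sm u) (x : M) (hx : IsLocalMax u x) :
    (∀ i, dSG g z x i u = 0) ∧ ∑ i, hSG g z x i i u ≤ 0 := by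
  have hs : x ∈ (ch x).1.source := mem_source_ch x
  have hs' : (z x).bs ∈ (ch x).1.source := by rw [hz]; exact hs
  have hq := coo_mem (ch x) hs'
  have hf := frq_coo (ch x) hs'
  have hq1 : (coo (ch x) (z x)).2.1 = (ch x).1 x := by
    show (ch x).1 (z x).bs = (ch x).1 x
    rw [hz]
  have ht : (ch x).1 x ∈ (ch x).1.target := (ch x).1.map_source hs
  have hsm : ContDiffAt ℝ ∞ (loc u (ch x)) ((ch x).1 x) :=
    (hu (ch x)).contDiffAt ((ch x).1.open_target.mem_nhds ht)
  have hmax : IsLocalMax (loc u (ch x)) ((ch x).1 x) := by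
    have hc : ContinuousAt (ch x).1.symm ((ch x).1 x) :=
      (ch x).1.symm.continuousAt ht
    have hl : (ch x).1.symm ((ch x).1 x) = x := (ch x).1.left_inv hs
    have h1 : Filter.Tendsto (ch x).1.symm (nhds ((ch x).1 x)) (nhds x) := by
      have := hc.tendsto
      rwa [hl] at this
    have h2 := h1.eventually hx
    show ∀ᶠ y in nhds ((ch x).1 x), u ((ch x).1.symm y) ≤ u ((ch x).1.symm ((ch x).1 x))
    rw [hl]
    exact h2
  obtain ⟨h1, h2⟩ := locmax_pd hsm hmax
  constructor
  · intro i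
    rw [dSG_of hu, evA_apply, ← hf, D_til g hu i (ch x) hq, hq1]
    exact Finset.sum_eq_zero fun k _ => by rw [h1 k, mul_zero]
  · refine Finset.sum_nonpos fun i _ => ?_
    rw [hSG_of hu, evA_apply, ← hf, DD_til g hu i i (ch x) hq, hq1]
    have h3 := h2 (fun k => (coo (ch x) (z x)).2.2 k i)
    refine le_trans (le_of_eq ?_) h3
    refine Finset.sum_congr rfl fun k _ => Finset.sum_congr rfl fun l _ => ?_
    rw [Finset.sum_eq_zero (fun m _ => by rw [h1 m, mul_zero]), sub_zero]

private theorem ric' (c : ℝ) (e : Ch M) (x : E3) (hx : x ∈ e.1.target) :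
    RicC g c e x ↔ ∀ b : Fin 3 → ℝ, c * ∑ i, b i * b i ≤
      ∑ i, ∑ j, rSG g z (e.1.symm x) i j * (b i * b j) := by
  have hs' : (z (e.1.symm x)).bs ∈ e.1.source := by
    rw [hz]
    exact e.1.map_target hx
  have hq := coo_mem e hs'
  have hf := frq_coo e hs'
  have hq1 : (coo e (z (e.1.symm x))).2.1 = x := by
    show e.1 (z (e.1.symm x)).bs = x
    rw [hz]
    exact e.1.right_inv hx
  set q := coo e (z (e.1.symm x)) with hqd
  have ha : (Matrix.of q.2.2)ᵀ * g.c e x * Matrix.of q.2.2 = 1 := by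
    have h1 := Phi_eq (gt (cf g) e) q
    rw [hq.2.2, one3_eq, hq1] at h1
    exact h1.symm
  unfold RicC
  rw [quad_iff c (g.c e x) (ricci (g.c e) x) (Matrix.of q.2.2) ha]
  obtain ⟨-, h2, -, -⟩ := frame_formulas (g.c e) x (Matrix.of q.2.2) _ ha rfl
  rw [h2]
  have hP : ∀ i j, evA g (z (e.1.symm x)) (PA (isFam_cf g) i j) =
      ((Matrix.of q.2.2)ᵀ * pten (g.c e) x * Matrix.of q.2.2) i j := by
    intro i j
    rw [evA_apply, ← hf, PA_frq (isFam_cf g) i j e hq, hq1]
  have hR : ∀ i j, rSG g z (e.1.symm x) i j =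
      (((Matrix.of q.2.2)ᵀ * pten (g.c e) x * Matrix.of q.2.2).trace • (1 : Mat3) -
        (Matrix.of q.2.2)ᵀ * pten (g.c e) x * Matrix.of q.2.2) i j := by
    intro i j
    unfold rSG
    rw [map_sub, hP, Matrix.sub_apply, Matrix.smul_apply, smul_eq_mul, Matrix.one_apply]
    congr 1
    split_ifs with hij
    · rw [map_sum, mul_one]
      exact Finset.sum_congr rfl fun k _ => hP k k
    · rw [map_zero, mul_zero]
  simp only [hR]

end Aux

theorem exists_SG [CompactSpace M] [T2Space M] [Nonempty M] [MeasurableSpace M] [BorelSpace M]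
    (g : RMetric M) (μ : Measure M) (hμ : IsVol g μ) : ∃ G : SG M, IsSG g μ G := by
  have hne : Nonempty (Fr (cf g) 1) := nonempty_Fr (isFam_cf g)
  have hch : ∀ p : M, ∃ z : Fr (cf g) 1, z.bs = p := fun p => by
    obtain ⟨z, -, h⟩ := exists_point (isFam_cf g) (t := 0) ⟨le_rfl, one_pos⟩ p
    exact ⟨z, h⟩
  choose z hz using hch
  refine ⟨{
    S := {u | Sm u}
    μ := μ
    d := dSG g z
    H := hSG g z
    Ric := rSG g z
    cont := fun u hu => Sm.cont hu
    const_mem := fun c => Sm.const c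
    add_mem := fun u hu v hv => Sm.add hu hv
    mul_mem := fun u hu v hv => Sm.mul hu hv
    comp_mem := fun u hu f hf => Sm.comp hu hf
    d_add := ?_
    d_mul := ?_
    d_comp := ?_
    H_symm := ?_
    H_add := ?_
    H_mul := ?_
    H_comp := ?_
    gam_mem := fun u hu v hv => (gam_Sm hz hu hv).1
    lap_mem := fun u hu => (lap_Sm hz hu).1
    d_gam := fun u hu x j => d_gam' hz hu x j
    bochner := fun u hu x => bochner' hz hu x
    locmax := fun u hu x hx => locmax' hz hu x hx
    fin := isVol_finite g hμ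
    int_lap := ?_ }, ?_⟩
  · intro u hu v hv x i
    have hu : Sm u := hu
    have hv : Sm v := hv
    rw [dSG_of (hu.add hv), dSG_of hu, dSG_of hv, til_add g hu hv, map_add, map_add]
  · intro u hu v hv x i
    have hu : Sm u := hu
    have hv : Sm v := hv
    rw [dSG_of (hu.mul hv), dSG_of hu, dSG_of hv, til_mul g hu hv, Derivation.leibniz, map_add,
      smul_eq_mul, smul_eq_mul, map_mul, map_mul, ev_til hz, ev_til hz]
  · intro u hu f hf x i
    have hu : Sm u := hu
    rw [dSG_of (hu.comp hf), dSG_of hu, D_til_comp g hu hf i, map_mul, ev_til hz]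
  · intro u hu x i j
    have hu : Sm u := hu
    rw [hSG_of hu, hSG_of hu]
    exact congrArg (evA g (z x)) ((galgA (isFam_cf g)).hess_symm (f := til g hu)
      (fun n => V_til g hu n) i j)
  · intro u hu v hv x i j
    have hu : Sm u := hu
    have hv : Sm v := hv
    rw [hSG_of (hu.add hv), hSG_of hu, hSG_of hv, til_add g hu hv, map_add, map_add, map_add]
  · intro u hu v hv x i j
    have hu : Sm u := hu
    have hv : Sm v := hv
    rw [hSG_of (hu.mul hv), hSG_of hu, hSG_of hv, dSG_of hu, dSG_of hu, dSG_of hv, dSG_of hv,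
      til_mul g hu hv, Derivation.leibniz, map_add, smul_eq_mul, smul_eq_mul,
      Derivation.leibniz, Derivation.leibniz]
    simp only [map_add, smul_eq_mul, map_mul, ev_til hz]
    ring
  · intro u hu f hf x i j
    have hu : Sm u := hu
    rw [hSG_of (hu.comp hf), hSG_of hu, dSG_of hu, dSG_of hu, D_til_comp g hu hf j,
      Derivation.leibniz, D_til_comp g hu (fun x => contDiffAt_deriv (hf x)) i]
    simp only [map_add, smul_eq_mul, map_mul, ev_til hz]
    ring
  · intro u hu
    have hu : Sm u := hu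
    exact div_FA (isFam_cf g) (fun i => DA g i (til g hu)) (fun Q i => DA_rot g hu Q i)
      (fun _ p => ∑ i, hSG g z p i i u) (fun z' => (lap_val hz hu z').symm) (t := 0)
      ⟨le_rfl, one_pos⟩ hμ
  · exact {
      S_iff := fun _ => Iff.rfl
      μ_eq := rfl
      vol := hμ
      gam_eq := fun u v hu hv e x hx => (gam_Sm hz hu hv).2 e x hx
      lap_eq := fun u hu e x hx => (lap_Sm hz hu).2 e x hx
      ric := fun c e x hx => ric' hz c e x hx }

end Pool.Agent.RFS.EE
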