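import Mathlib

/-!
Project RFS, chunk (e): the model functions `P = S²`, `Q = 2 S S'`, `S(t) = sin(√k (t-a))/√k`.
-/

namespace RFSE

/-- `S(t)^2` -/
noncomputable def PP (k a t : ℝ) : ℝ := Real.sin (√k * (t - a)) ^ 2 / k

/-- `2 S(t) S'(t)` -/
noncomputable def QQ (k a t : ℝ) : ℝ := Real.sin (2 * (√k * (t - a))) / √k

lemma PP_smooth (k a : ℝ) : ContDiff ℝ (⊤ : ℕ∞) (PP k a) := by
  unfold PP
  fun_prop

lemma QQ_smooth (k a : ℝ) : ContDiff ℝ (⊤ : ℕ∞) (QQ k a) := by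
  unfold QQ
  fun_prop

lemma PP_nonneg {k : ℝ} (hk : 0 < k) (a t : ℝ) : 0 ≤ PP k a t :=
  div_nonneg (sq_nonneg _) hk.le

lemma PP_le {k : ℝ} (hk : 0 < k) (a t : ℝ) : k * PP k a t ≤ 1 := by
  unfold PP
  rw [mul_div_cancel₀ _ hk.ne']
  exact Real.sin_sq_le_one _

lemma QQ_sq {k : ℝ} (hk : 0 < k) (a t : ℝ) :
    QQ k a t ^ 2 = 4 * PP k a t * (1 - k * PP k a t) := by
  unfold QQ PP
  rw [Real.sin_two_mul, div_pow, Real.sq_sqrt hk.le, mul_div_cancel₀ _ hk.ne']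
  have h := Real.cos_sq' (√k * (t - a))
  rw [mul_pow, h]
  field_simp
  ring

lemma hasDerivAt_PP {k : ℝ} (hk : 0 < k) (a t : ℝ) :
    HasDerivAt (PP k a) (QQ k a t) t := by
  have h1 : HasDerivAt (fun t => √k * (t - a)) (√k * 1) t :=
    ((hasDerivAt_id t).sub_const a).const_mul _
  have h2 := ((h1.sin).pow 2).div_const k
  unfold PP QQ
  refine h2.congr_deriv ?_
  rw [Real.sin_two_mul]
  have h3 : √k * √k = k := Real.mul_self_sqrt hk.le
  have h4 : √k ≠ 0 := (Real.sqrt_pos.2 hk).ne'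
  rw [div_eq_div_iff hk.ne' h4]
  push_cast
  linear_combination (2 * Real.sin (√k * (t - a)) * Real.cos (√k * (t - a))) * h3

lemma hasDerivAt_QQ {k : ℝ} (hk : 0 < k) (a t : ℝ) :
    HasDerivAt (QQ k a) (2 - 4 * k * PP k a t) t := by
  have h1 : HasDerivAt (fun t => 2 * (√k * (t - a))) (2 * (√k * 1)) t :=
    (((hasDerivAt_id t).sub_const a).const_mul _).const_mul _
  have h2 := (h1.sin).div_const (√k)
  unfold PP QQ
  refine h2.congr_deriv ?_
  have h4 : √k ≠ 0 := (Real.sqrt_pos.2 hk).ne'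
  rw [Real.cos_two_mul, Real.cos_sq']
  field_simp
  ring

lemma deriv_PP {k : ℝ} (hk : 0 < k) (a : ℝ) : deriv (PP k a) = QQ k a :=
  funext fun t => (hasDerivAt_PP hk a t).deriv

lemma deriv_QQ {k : ℝ} (hk : 0 < k) (a : ℝ) :
    deriv (QQ k a) = fun t => 2 - 4 * k * PP k a t :=
  funext fun t => (hasDerivAt_QQ hk a t).deriv

lemma deriv2_PP {k : ℝ} (hk : 0 < k) (a : ℝ) :
    deriv (deriv (PP k a)) = fun t => 2 - 4 * k * PP k a t := by
  rw [deriv_PP hk, deriv_QQ hk]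

lemma deriv2_QQ {k : ℝ} (hk : 0 < k) (a : ℝ) :
    deriv (deriv (QQ k a)) = fun t => - 4 * k * QQ k a t := by
  rw [deriv_QQ hk]
  funext t
  have h := ((hasDerivAt_PP hk a t).const_mul (4 * k)).const_sub 2
  rw [h.deriv]
  ring

lemma PP_end {k : ℝ} (hk : 0 < k) (a : ℝ) : PP k a (a + Real.pi / √k) = 0 := by
  unfold PP
  have h4 : √k ≠ 0 := (Real.sqrt_pos.2 hk).ne'
  have : √k * (a + Real.pi / √k - a) = Real.pi := by field_simp; ring
  rw [this, Real.sin_pi]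
  simp

lemma QQ_end {k : ℝ} (hk : 0 < k) (a : ℝ) : QQ k a (a + Real.pi / √k) = 0 := by
  unfold QQ
  have h4 : √k ≠ 0 := (Real.sqrt_pos.2 hk).ne'
  have : √k * (a + Real.pi / √k - a) = Real.pi := by field_simp; ring
  rw [this, Real.sin_two_pi]
  simp

lemma PP_pos {k : ℝ} (hk : 0 < k) {a t : ℝ} (h1 : a < t) (h2 : t < a + Real.pi / √k) :
    0 < PP k a t := by
  unfold PP
  have h4 : 0 < √k := Real.sqrt_pos.2 hk
  apply div_pos _ hk
  apply pow_pos
  apply Real.sin_pos_of_pos_of_lt_pi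
  · exact mul_pos h4 (by linarith)
  · have : t - a < Real.pi / √k := by linarith
    rw [lt_div_iff₀ h4] at this
    linarith

end RFSE
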