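import Pool.Agent.RFS.EVisc
import Pool.Agent.RFS.EModel
import Pool.Agent.RFS.EAlg

/-!
Project RFS, chunk (e): the main estimate.  On `{u0 ≤ u ≤ a + π/√k}` the function
`Z = P(u) Δu - Q(u)` (`P = S²`, `Q = 2 S S'`) is at most `z0` for small `ε`.
-/

namespace RFSE

open MeasureTheory

variable {M : Type*} [TopologicalSpace M] [MeasurableSpace M]

/-- At a local maximum of `Z` all data of `MaxData` are available. -/
theorem maxData_of_locmax (G : SG M) {k C Kϕ c z0 ε a : ℝ} (hk : 0 < k) (hc : 0 < c)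
    {u ϕ : M → ℝ} (V : Visc G ε u ϕ)
    (hC : ∀ x, G.lap u x ≤ C) (hK1 : ∀ x, G.gam ϕ ϕ x ≤ Kϕ) (hK2 : ∀ x, |G.lap ϕ x| ≤ Kϕ)
    {x : M} (hx : IsLocalMax (fun y => PP k a (u y) * G.lap u y - QQ k a (u y)) x)
    (hP : 0 < PP k a (u x)) (hphi : c ≤ ϕ x - u x) (hR : G.RicGe (2 * k) x)
    (hq0 : 0 < G.gam u u x)
    (hZ : z0 ≤ PP k a (u x) * G.lap u x - QQ k a (u x)) :
    MaxData k C Kϕ c z0 ε (PP k a (u x)) (QQ k a (u x)) (G.lap u x) (G.gam u u x)
      (Real.exp ((u x - ϕ x) / ε)) (G.lap (G.lap u) x)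
      ((∑ i, ∑ j, G.H x i j u * (G.d x i u * G.d x j u)) / G.gam u u x)
      (G.gam u (fun y => Real.exp ((u y - ϕ y) / ε)) x)
      (G.lap (fun y => Real.exp ((u y - ϕ y) / ε)) x)
      (2 * ∑ i, ∑ j, G.H x i j u ^ 2) := by
  have hw := G.lap_mem' V.hu
  have hPm : (fun y => PP k a (u y)) ∈ G.S :=
    G.comp_mem u V.hu _ (fun _ => (PP_smooth k a).contDiffAt)
  have hQm : (fun y => QQ k a (u y)) ∈ G.S :=
    G.comp_mem u V.hu _ (fun _ => (QQ_smooth k a).contDiffAt)
  have hPw : (fun y => PP k a (u y) * G.lap u y) ∈ G.S := G.mul_mem _ hPm _ hw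
  have hZm : (fun y => PP k a (u y) * G.lap u y - QQ k a (u y)) ∈ G.S := G.sub_mem hPw hQm
  obtain ⟨h1, h2⟩ := G.locmax _ hZm x hx
  have h2' : G.lap (fun y => PP k a (u y) * G.lap u y - QQ k a (u y)) x ≤ 0 := h2
  set P := PP k a (u x) with hPdef
  set Q := QQ k a (u x) with hQdef
  set w := G.lap u x with hwdef
  set q := G.gam u u x with hqdef
  set h := Real.exp ((u x - ϕ x) / ε) with hhdef
  have hε := V.eps
  have hεn := hε.ne'
  set Ξ := (Q * w - (2 - 4 * k * P)) / P with hΞ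
  -- gradient of w
  have hdw : ∀ i, G.d x i (G.lap u) = -Ξ * G.d x i u := by
    intro i
    have e := h1 i
    rw [G.d_sub hPw hQm, G.d_mul _ hPm _ hw,
      G.d_comp u V.hu _ (fun _ => (PP_smooth k a).contDiffAt),
      G.d_comp u V.hu _ (fun _ => (QQ_smooth k a).contDiffAt), deriv_PP hk, deriv_QQ hk] at e
    have e' : P * G.d x i (G.lap u) + w * (Q * G.d x i u) - (2 - 4 * k * P) * G.d x i u = 0 := e
    have e2 : P * G.d x i (G.lap u) = P * (-Ξ * G.d x i u) := by
      rw [hΞ]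
      field_simp
      linarith
    exact mul_left_cancel₀ hP.ne' e2
  have hgw : G.gam u (G.lap u) x = -Ξ * q := by
    rw [hqdef]
    simp only [SG.gam, hdw, Fin.sum_univ_three]
    ring
  have hgPw : G.gam (fun y => PP k a (u y)) (G.lap u) x = -(Q * Ξ * q) := by
    rw [G.gam_comp_left V.hu (fun _ => (PP_smooth k a).contDiffAt), deriv_PP hk, hgw]
    ring
  have hlwle : P * G.lap (G.lap u) x ≤ 2 * Q * Ξ * q - w * ((2 - 4 * k * P) * q + Q * w) +
      (-4 * k * Q * q + (2 - 4 * k * P) * w) := by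
    rw [G.lap_sub hPw hQm, G.lap_mul hPm hw, hgPw,
      G.lap_comp V.hu (fun _ => (PP_smooth k a).contDiffAt),
      G.lap_comp V.hu (fun _ => (QQ_smooth k a).contDiffAt), deriv2_PP hk, deriv_PP hk,
      deriv2_QQ hk, deriv_QQ hk] at h2'
    have h3 : P * G.lap (G.lap u) x + w * ((2 - 4 * k * P) * q + Q * w) +
      2 * -(Q * Ξ * q) - (-4 * k * Q * q + (2 - 4 * k * P) * w) ≤ 0 := h2'
    linarith
  -- the equation for h
  have hs : (fun y => u y - ϕ y) ∈ G.S := G.sub_mem V.hu V.hϕ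
  have hf1 : ∀ t, ContDiffAt ℝ (⊤ : ℕ∞) (fun t => Real.exp (t / ε)) t := fun t => by
    apply ContDiffAt.exp
    exact (contDiffAt_id.div_const ε)
  have hdh : ∀ i, G.d x i (fun y => Real.exp ((u y - ϕ y) / ε)) =
      h / ε * (G.d x i u - G.d x i ϕ) := by
    intro i
    have e := G.d_comp _ hs (fun t => Real.exp (t / ε)) (fun y => hf1 _) x i
    have hd : deriv (fun t => Real.exp (t / ε)) (u x - ϕ x) = h / ε := by
      have : HasDerivAt (fun t => Real.exp (t / ε))
          (Real.exp ((u x - ϕ x) / ε) * (1 / ε)) (u x - ϕ x) :=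
        ((hasDerivAt_id _).div_const ε).exp
      rw [this.deriv, hhdef]
      ring
    have e' : G.d x i (fun y => Real.exp ((u y - ϕ y) / ε)) =
      deriv (fun t => Real.exp (t / ε)) (u x - ϕ x) * G.d x i (fun y => u y - ϕ y) := e
    rw [e', hd, G.d_sub V.hu V.hϕ]
  have hh0 : 0 < h := Real.exp_pos _
  have hhe0 : 0 < h / ε := div_pos hh0 hε
  have hgh : G.gam u (fun y => Real.exp ((u y - ϕ y) / ε)) x =
      h / ε * (q - G.gam u ϕ x) := by
    rw [hqdef]
    simp only [SG.gam, hdh, Fin.sum_univ_three]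
    ring
  have hq : q = 1 + ε * w - h := V.eq x
  -- Bochner
  have hb := G.bochner' V.hu x
  rw [V.lap_gam, hgw] at hb
  have hRic : 2 * k * q ≤ ∑ i, ∑ j, G.Ric x i j * (G.d x i u * G.d x j u) := by
    have := hR (fun i => G.d x i u)
    rw [hqdef]
    simpa [SG.gam] using this
  refine ⟨hP, PP_le hk _ _, QQ_sq hk _ _, hZ, hC x, hh0, ?_, hq, hlwle, ?_, ?_, ?_, ?_, ?_⟩
  · -- h small
    have : h ≤ Real.exp (-(c / ε)) := by
      rw [hhdef]
      apply Real.exp_le_exp.2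
      rw [div_le_iff₀ hε]
      have : -(c / ε) * ε = -c := by field_simp
      rw [this]; linarith
    exact this.trans (exp_small hc hε)
  · rw [hgh, abs_mul, abs_of_pos hhe0]
    apply mul_le_mul_of_nonneg_left _ hhe0.le
    have hcs := G.gam_sq_le u ϕ x
    have h5 : |G.gam u ϕ x| ≤ q + Kϕ := by
      have hK := hK1 x
      have hK0 := (G.gam_self_nonneg ϕ x)
      apply abs_le_of_sq_le_sq _ (by linarith)
      calc G.gam u ϕ x ^ 2 ≤ q * G.gam ϕ ϕ x := hcs
        _ ≤ q * Kϕ := mul_le_mul_of_nonneg_left hK hq0.le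
        _ ≤ (q + Kϕ) ^ 2 := by
          have : 0 ≤ q * Kϕ := mul_nonneg hq0.le (hK0.trans hK)
          nlinarith [sq_nonneg q, sq_nonneg Kϕ]
    calc |q - G.gam u ϕ x| ≤ |q| + |G.gam u ϕ x| := abs_sub _ _
      _ ≤ 2 * q + Kϕ := by rw [abs_of_pos hq0]; linarith
  · rw [V.lap_h]
    have h6 : 0 ≤ G.gam (fun y => u y - ϕ y) (fun y => u y - ϕ y) x / ε ^ 2 :=
      div_nonneg (G.gam_self_nonneg _ _) (sq_nonneg _)
    have h7 : -(h * ((w - G.lap ϕ x) / ε +
        G.gam (fun y => u y - ϕ y) (fun y => u y - ϕ y) x / ε ^ 2)) ≤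
        h / ε * (-(w - G.lap ϕ x)) := by
      have h8 : h * ((w - G.lap ϕ x) / ε +
        G.gam (fun y => u y - ϕ y) (fun y => u y - ϕ y) x / ε ^ 2) =
        h / ε * (w - G.lap ϕ x) +
        h * (G.gam (fun y => u y - ϕ y) (fun y => u y - ϕ y) x / ε ^ 2) := by
        field_simp
      rw [h8]
      have := mul_nonneg hh0.le h6
      linarith
    refine h7.trans ?_
    apply mul_le_mul_of_nonneg_left _ hhe0.le
    have h9 := neg_abs_le w
    have h10 := (le_abs_self (G.lap ϕ x)).trans (hK2 x)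
    linarith
  · -- al * q
    have hA : ∑ i, ∑ j, G.H x i j u * (G.d x i u * G.d x j u) =
        (1 / 2) * ∑ j, G.d x j u * G.d x j (G.gam u u) := by
      simp only [G.d_gam' V.hu, Fin.sum_univ_three]
      have s1 := G.H_symm u V.hu x 0 1
      have s2 := G.H_symm u V.hu x 0 2
      have s3 := G.H_symm u V.hu x 1 2
      rw [s1, s2, s3]
      ring
    have hdg : ∀ j, G.d x j (G.gam u u) = ε * (-Ξ * G.d x j u) -
        G.d x j (fun y => Real.exp ((u y - ϕ y) / ε)) := by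
      intro j
      have hfun : G.gam u u = fun y => ((fun _ => (1 : ℝ)) y + ε * G.lap u y) -
          Real.exp ((u y - ϕ y) / ε) := by
        funext y
        exact V.eq y
      have a1 := G.const_mem 1
      have a2 := G.smul_mem hw ε
      have a3 : (fun y => (fun _ => (1 : ℝ)) y + ε * G.lap u y) ∈ G.S := G.add_mem _ a1 _ a2
      rw [hfun, G.d_sub a3 V.h_mem, G.d_add _ a1 _ a2, G.d_const, G.d_smul hw, hdw]
      ring
    rw [div_mul_cancel₀ _ hq0.ne', hA]
    simp only [hdg]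
    have hgq : q = ∑ i, G.d x i u * G.d x i u := rfl
    have hgh2 : G.gam u (fun y => Real.exp ((u y - ϕ y) / ε)) x =
      ∑ i, G.d x i u * G.d x i (fun y => Real.exp ((u y - ϕ y) / ε)) := rfl
    rw [hgh2]
    rw [hgq]
    simp only [Fin.sum_univ_three]
    ring
  · exact trace_ineq (fun i j => G.H x i j u) (fun i => G.d x i u) (q := G.gam u u x) rfl hq0
  · have hl : 2 * (∑ i, ∑ j, G.H x i j u ^ 2) + 2 * (-Ξ * q) +
        2 * (2 * k * q) ≤ ε * G.lap (G.lap u) x -
        G.lap (fun y => Real.exp ((u y - ϕ y) / ε)) x := by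
      rw [hb]; linarith
    linarith

end RFSE
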