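import Pool.Agent.RFS.EMain

/-!
Project RFS, chunk (e): the main estimate, final form.
-/

namespace RFSE

open MeasureTheory

variable {M : Type*} [TopologicalSpace M] [MeasurableSpace M]

lemma w_lower {k C z0 P Q w : ℝ} (hk : 0 < k) (hC : 0 ≤ C) (hz : 0 < z0) (dP0 : 0 < P)
    (dP1 : k * P ≤ 1) (dPQ : Q ^ 2 = 4 * P * (1 - k * P)) (dZ : z0 ≤ P * w - Q) (dwC : w ≤ C) :
    -(2 / (z0 / (C / √k + 2))) ≤ w := by
  have hsk : 0 < √k := Real.sqrt_pos.2 hk
  set r0 : ℝ := z0 / (C / √k + 2) with hr0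
  have hr0p : 0 < r0 := by positivity
  set r : ℝ := √P with hr
  have hrp : 0 < r := Real.sqrt_pos.2 dP0
  have hr2 : r ^ 2 = P := Real.sq_sqrt dP0.le
  have hQabs : |Q| ≤ 2 * r := by
    rw [← abs_of_pos (show (0 : ℝ) < 2 * r by positivity)]
    rw [← sq_le_sq]
    have h1 : 0 ≤ 4 * P * (k * P) := by positivity
    have h2 : (2 * r) ^ 2 = 4 * P := by rw [mul_pow, hr2]; norm_num
    rw [h2, dPQ]
    have h3 : 4 * P * (1 - k * P) = 4 * P - 4 * P * (k * P) := by ring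
    linarith
  have hkr : √k * r ≤ 1 := by
    rw [← Real.sqrt_mul hk.le]
    exact Real.sqrt_le_one.2 dP1 |>.trans le_rfl
  have hrr0 : r0 ≤ r := by
    rw [hr0, div_le_iff₀ (by positivity)]
    have h1 : P * w ≤ P * C := mul_le_mul_of_nonneg_left dwC dP0.le
    have h2 : P * C ≤ r * (C / √k) := by
      rw [← hr2]
      have h5 : r * C ≤ C / √k := by
        rw [le_div_iff₀ hsk]
        have h6 := mul_le_mul_of_nonneg_left hkr hC
        linarith
      have h7 := mul_le_mul_of_nonneg_left h5 hrp.le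
      have h8 : r ^ 2 * C = r * (r * C) := by ring
      linarith
    have h4 : r * (C / √k + 2) = r * (C / √k) + 2 * r := by ring
    rw [h4]
    have h5 := neg_le_of_abs_le hQabs
    linarith
  have h1 : -(2 * r) ≤ Q := neg_le_of_abs_le hQabs
  have h2 : -(2 * r) ≤ P * w := by linarith
  have h3 : -(2 / r) ≤ w := by
    rw [← hr2] at h2
    have h4 : r ^ 2 * -(2 / r) = -(2 * r) := by field_simp
    rw [← h4] at h2
    exact le_of_mul_le_mul_left h2 (by positivity)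
  have h5 : 2 / r ≤ 2 / r0 := by
    apply div_le_div_of_nonneg_left _ hr0p hrr0
    norm_num
  linarith

/-- The main estimate. -/
theorem main_est [CompactSpace M] (G : SG M) {k C Kϕ c z0 : ℝ} (hk : 0 < k) (hC : 0 ≤ C)
    (hK : 0 ≤ Kϕ) (hc : 0 < c) (hz : 0 < z0) :
    ∃ ε0 > 0, ∀ ε, ε < ε0 → ∀ (u ϕ : M → ℝ) (a u0 : ℝ), Visc G ε u ϕ →
      (∀ x, G.lap u x ≤ C) → (∀ x, G.gam ϕ ϕ x ≤ Kϕ) → (∀ x, |G.lap ϕ x| ≤ Kϕ) →
      a < u0 → u0 < a + Real.pi / √k → PP k a u0 * C ≤ QQ k a u0 →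
      (∀ x, u0 ≤ u x → c ≤ ϕ x - u x) →
      (∀ x, u0 ≤ u x → u x ≤ a + Real.pi / √k → G.RicGe (2 * k) x) →
      ∀ x, u0 ≤ u x → u x ≤ a + Real.pi / √k →
        PP k a (u x) * G.lap u x - QQ k a (u x) ≤ z0 := by
  obtain ⟨ε1, hε1, hab⟩ := maxData_absurd (Kϕ := Kϕ) hk hC hK hc hz
  have hsk : 0 < √k := Real.sqrt_pos.2 hk
  set R : ℝ := 2 / (z0 / (C / √k + 2)) with hR
  have hRp : 0 < R := by positivity
  refine ⟨min ε1 (min 1 (1 / (2 * (R + 2 / c ^ 2)))), by positivity, ?_⟩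
  intro ε hε u ϕ a u0 V hCw hK1 hK2 ha0 ha1 hu0 hphi hRic x hx1 hx2
  have e1 : ε < ε1 := lt_of_lt_of_le hε (min_le_left _ _)
  have e2 : ε < 1 := lt_of_lt_of_le hε ((min_le_right _ _).trans (min_le_left _ _))
  have e3 : ε < 1 / (2 * (R + 2 / c ^ 2)) :=
    lt_of_lt_of_le hε ((min_le_right _ _).trans (min_le_right _ _))
  have hεp := V.eps
  by_contra hcon
  push Not at hcon
  set Z : M → ℝ := fun y => PP k a (u y) * G.lap u y - QQ k a (u y) with hZdef
  have hZc : Continuous Z := by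
    have h1 : Continuous (fun y => PP k a (u y)) := (PP_smooth k a).continuous.comp V.cu
    have h2 : Continuous (fun y => QQ k a (u y)) := (QQ_smooth k a).continuous.comp V.cu
    exact (h1.mul V.clap).sub h2
  set K : Set M := {y | u0 ≤ u y ∧ u y ≤ a + Real.pi / √k} with hKdef
  have hKc : IsCompact K := by
    apply IsClosed.isCompact
    exact (isClosed_le continuous_const V.cu).inter (isClosed_le V.cu continuous_const)
  obtain ⟨y, hyK, hy⟩ := hKc.exists_isMaxOn ⟨x, hx1, hx2⟩ hZc.continuousOn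
  have hyx : Z x ≤ Z y := hy ⟨hx1, hx2⟩
  have hZy : z0 < Z y := lt_of_lt_of_le hcon hyx
  have hy0 : u y ≠ u0 := by
    intro h
    have h1 : Z y = PP k a u0 * G.lap u y - QQ k a u0 := by simp only [hZdef, h]
    have h2 : PP k a u0 * G.lap u y ≤ PP k a u0 * C :=
      mul_le_mul_of_nonneg_left (hCw y) (PP_nonneg hk _ _)
    linarith
  have hy1 : u y ≠ a + Real.pi / √k := by
    intro h
    have h1 : Z y = PP k a (a + Real.pi / √k) * G.lap u y - QQ k a (a + Real.pi / √k) := by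
      simp only [hZdef, h]
    rw [PP_end hk, QQ_end hk] at h1
    linarith
  have hy0' : u0 < u y := lt_of_le_of_ne hyK.1 (Ne.symm hy0)
  have hy1' : u y < a + Real.pi / √k := lt_of_le_of_ne hyK.2 hy1
  have hloc : IsLocalMax Z y := by
    have hopen : {z | u0 < u z ∧ u z < a + Real.pi / √k} ∈ nhds y := by
      apply IsOpen.mem_nhds
      · exact (isOpen_lt continuous_const V.cu).inter (isOpen_lt V.cu continuous_const)
      · exact ⟨hy0', hy1'⟩
    filter_upwards [hopen] with z hz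
    exact hy ⟨hz.1.le, hz.2.le⟩
  have hP : 0 < PP k a (u y) := PP_pos hk (lt_trans ha0 hy0') hy1'
  have hphy := hphi y hyK.1
  have hwlow := w_lower hk hC hz hP (PP_le hk a (u y)) (QQ_sq hk a (u y)) hZy.le (hCw y)
  rw [← hR] at hwlow
  have hh : Real.exp ((u y - ϕ y) / ε) ≤ 2 * ε ^ 2 / c ^ 2 := by
    have : Real.exp ((u y - ϕ y) / ε) ≤ Real.exp (-(c / ε)) := by
      apply Real.exp_le_exp.2
      rw [div_le_iff₀ hεp]
      have : -(c / ε) * ε = -c := by field_simp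
      rw [this]; linarith
    exact this.trans (exp_small hc hεp)
  have hq0 : 0 < G.gam u u y := by
    rw [V.eq y]
    have h1 : ε * (R + 2 / c ^ 2) < 1 / 2 := by
      rw [lt_div_iff₀ (by positivity)] at e3
      linarith
    have h2 : -(ε * R) ≤ ε * G.lap u y := by
      have := mul_le_mul_of_nonneg_left hwlow hεp.le
      linarith
    have h3 : 2 * ε ^ 2 / c ^ 2 ≤ ε * (2 / c ^ 2) := by
      have h4 : 2 * ε ^ 2 / c ^ 2 = ε * (2 / c ^ 2) * ε := by ring
      rw [h4]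
      have : ε * (2 / c ^ 2) * ε ≤ ε * (2 / c ^ 2) * 1 :=
        mul_le_mul_of_nonneg_left e2.le (by positivity)
      linarith
    have h5 : ε * (R + 2 / c ^ 2) = ε * R + ε * (2 / c ^ 2) := by ring
    linarith
  exact hab _ _ _ _ _ _ _ _ _ _ _ hεp e1
    (maxData_of_locmax G hk hc V hCw hK1 hK2 hloc hP hphy (hRic y hyK.1 hyK.2) hq0 hZy.le)

end RFSE
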