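import Pool.Agent.RFS.FCH

/-!
# RFS, chunk (f), module FMM: from a Riemannian metric of Mathlib to `RMetric`

Proofs.
* `coeff_symm`: `g.symm`.
* `coeff_pos`: `∑ i j, v i v j coeff i j = g.inner p w w` with `w = mfderiv e.1.symm y v`, and `w ≠ 0` for
  `v ≠ 0` because `mfderiv e.1.symm y` is injective on the target (it has the left inverse `mfderiv e.1 p`:
  `OpenPartialHomeomorph.MDifferentiable.comp_symm_deriv`, `mdifferentiable_of_mem_atlas`); `g.pos`.
* `coeff_compat`: near `x` one has `e.1.symm = e'.1.symm ∘ trans e e'`, chain rule `mfderiv_comp`,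
  `mfderiv` of `trans e e'` is its `fderiv` (`mfderiv_eq_fderiv`), and
  `fderiv (trans e e') x (bv i) = ∑ k, jac e e' x k i • bv k` (`jac_apply`).  The base points
  `e.1.symm x` and `e'.1.symm (trans e e' x)` are equal, generalise over the point before rewriting
  (all the tangent spaces are `E3` by definition).
* `coeff_smooth`: `y ↦ (⟨e.1.symm y, coordVec e i y⟩ : TangentBundle (𝓡 3) M)` is `ContMDiffOn ∞` on the target
  (`ContMDiffOn.contMDiffOn_tangentMapWithin` for `e.1.symm`, which is `ContMDiffOn ∞` by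
  `contMDiffOn_symm_of_mem_maximalAtlas`, composed with the constant section `bv i`; on the open target
  `tangentMapWithin = tangentMap`), then apply `ContMDiffWithinAt.clm_bundle_apply₂` with
  `g.contMDiff` exactly as in the proof of `ContMDiffWithinAt.inner_bundle`
  (Mathlib.Geometry.Manifold.VectorBundle.Riemannian).
-/

open scoped Manifold ContDiff Matrix Bundle
open Set MeasureTheory

noncomputable section

namespace Pool.Agent.RFS

variable {M : Type*} [TopologicalSpace M] [ChartedSpace E3 M]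

/-- The coordinate vector field `∂ᵢ` of the chart `e`, at the point with coordinates `y`. -/
def coordVec (e : Ch M) (i : Fin 3) (y : E3) : TangentSpace (𝓡 3) (e.1.symm y) :=
  mfderiv (𝓡 3) (𝓡 3) e.1.symm y (bv i)

/-- The coefficients `g(∂ᵢ, ∂ⱼ)` of a Riemannian metric in the chart `e`. -/
def coeff [IsManifold (𝓡 3) ∞ M]
    (g : Bundle.ContMDiffRiemannianMetric (𝓡 3) ∞ E3 (fun p : M => TangentSpace (𝓡 3) p))
    (e : Ch M) (y : E3) : Mat3 :=
  Matrix.of fun i j => g.inner (e.1.symm y) (coordVec e i y) (coordVec e j y)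

variable [IsManifold (𝓡 3) ∞ M]
  (g : Bundle.ContMDiffRiemannianMetric (𝓡 3) ∞ E3 (fun p : M => TangentSpace (𝓡 3) p))

theorem coeff_symm (e : Ch M) (x : E3) : (coeff g e x)ᵀ = coeff g e x := by
  ext i j
  exact g.symm _ _ _

/-- The derivative of the inverse chart, as a linear map of `E3`. -/
def dsymm (e : Ch M) (x : E3) : E3 →L[ℝ] E3 := mfderiv (𝓡 3) (𝓡 3) e.1.symm x

/-- The metric as a bilinear form on `E3`. -/
def binn (p : M) : E3 →L[ℝ] E3 →L[ℝ] ℝ := g.inner p

theorem coeff_eq (e : Ch M) (x : E3) (i j : Fin 3) :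
    coeff g e x i j = binn g (e.1.symm x) (dsymm e x (bv i)) (dsymm e x (bv j)) := rfl

omit [IsManifold (𝓡 3) ∞ M] in
theorem dsymm_injective (e : Ch M) (x : E3) (hx : x ∈ e.1.target) [IsManifold (𝓡 3) ∞ M] :
    Function.Injective (dsymm e x) := by
  have he : e.1.MDifferentiable (𝓡 3) (𝓡 3) := mdifferentiable_of_mem_atlas e.2
  have h := he.comp_symm_deriv hx
  intro v w hvw
  have h1 : (mfderiv (𝓡 3) (𝓡 3) e.1 (e.1.symm x)) (dsymm e x v) = v :=
    congrArg (fun L : E3 →L[ℝ] E3 => L v) h
  have h2 : (mfderiv (𝓡 3) (𝓡 3) e.1 (e.1.symm x)) (dsymm e x w) = w :=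
    congrArg (fun L : E3 →L[ℝ] E3 => L w) h
  rw [← h1, ← h2, hvw]

theorem vec_eq_sum (v : E3) : v = ∑ i, v i • bv i := by
  ext l
  exact (sum_smul_bv (fun k => v k) l).symm

theorem bilin_expand (B : E3 →L[ℝ] E3 →L[ℝ] ℝ) (L : E3 →L[ℝ] E3) (v w : E3) :
    B (L v) (L w) = ∑ i, ∑ j, v i * w j * B (L (bv i)) (L (bv j)) := by
  conv_lhs => rw [vec_eq_sum v, vec_eq_sum w]
  simp only [map_sum, map_smul, _root_.sum_apply, _root_.smul_apply, smul_eq_mul,
    Finset.mul_sum, mul_assoc]
  rw [Finset.sum_comm]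
  refine Finset.sum_congr rfl fun i _ => Finset.sum_congr rfl fun j _ => ?_
  ring

theorem coeff_quad (e : Ch M) (x : E3) (v w : E3) :
    ∑ i, ∑ j, v i * w j * coeff g e x i j =
      binn g (e.1.symm x) (dsymm e x v) (dsymm e x w) := by
  rw [bilin_expand]
  rfl

theorem binn_pos (p : M) (v : E3) (hv : v ≠ 0) : 0 < binn g p v v := g.pos p v hv

theorem coeff_pos (e : Ch M) (x : E3) (hx : x ∈ e.1.target) : (coeff g e x).PosDef := by
  refine Matrix.PosDef.of_dotProduct_mulVec_pos ?_ ?_
  · ext i j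
    have := congrFun (congrFun (coeff_symm g e x) i) j
    simpa [Matrix.conjTranspose_apply, Matrix.transpose_apply] using this
  · intro v hv
    have hv' : (WithLp.toLp 2 v : E3) ≠ 0 := by
      intro h
      apply hv
      have := congrArg WithLp.ofLp h
      simpa using this
    have h1 : dsymm e x (WithLp.toLp 2 v) ≠ 0 := by
      intro h
      apply hv'
      apply dsymm_injective e x hx
      rw [h, map_zero]
    have h2 := binn_pos g (e.1.symm x) _ h1
    rw [← coeff_quad] at h2
    have h3 : star v ⬝ᵥ (coeff g e x).mulVec v = ∑ i, ∑ j,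
        (WithLp.toLp 2 v : E3) i * (WithLp.toLp 2 v : E3) j * coeff g e x i j := by
      simp only [dotProduct, Matrix.mulVec, star_trivial, Finset.mul_sum]
      refine Finset.sum_congr rfl fun i _ => Finset.sum_congr rfl fun j _ => ?_
      show v i * (coeff g e x i j * v j) = v i * v j * coeff g e x i j
      ring
    rw [h3]
    exact h2

theorem dsymm_trans (e e' : Ch M) {x : E3} (hx : x ∈ ov e e') (v : E3) :
    dsymm e x v = dsymm e' (trans e e' x) (fderiv ℝ (trans e e') x v) := by
  have h1 : MDifferentiableAt (𝓡 3) (𝓡 3) (trans e e') x :=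
    (differentiableAt_trans e e' hx).mdifferentiableAt
  have he' : e'.1.MDifferentiable (𝓡 3) (𝓡 3) := mdifferentiable_of_mem_atlas e'.2
  have h2 : MDifferentiableAt (𝓡 3) (𝓡 3) e'.1.symm (trans e e' x) :=
    he'.mdifferentiableAt_symm (trans_mem e e' hx).1
  have h3 := mfderiv_comp x h2 h1
  have h4 : (e'.1.symm ∘ trans e e') =ᶠ[nhds x] e.1.symm := by
    filter_upwards [(isOpen_ov e e').mem_nhds hx] with y hy
    exact (trans_mem e e' hy).2.1
  have h5 := h4.mfderiv_eq (I := 𝓡 3) (I' := 𝓡 3)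
  rw [h3] at h5
  have h6 := congrArg (fun L : E3 →L[ℝ] E3 => L v) h5
  rw [mfderiv_eq_fderiv] at h6
  exact h6.symm

theorem coeff_compat (e e' : Ch M) (x : E3) (hx : x ∈ e.1.target)
    (hx' : e.1.symm x ∈ e'.1.source) :
    coeff g e x = (jac e e' x)ᵀ * coeff g e' (trans e e' x) * jac e e' x := by
  have hov : x ∈ ov e e' := ⟨hx, hx'⟩
  have hp : e'.1.symm (trans e e' x) = e.1.symm x := (trans_mem e e' hov).2.1
  ext i j
  rw [coeff_eq, dsymm_trans e e' hov, dsymm_trans e e' hov, ← hp, ← coeff_quad]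
  simp only [Matrix.mul_apply, Matrix.transpose_apply, Finset.sum_mul]
  rw [Finset.sum_comm]
  apply Finset.sum_congr rfl
  intro l _
  apply Finset.sum_congr rfl
  intro k _
  rw [jac_apply e e' hov, jac_apply e e' hov]
  ring

theorem contMDiffOn_coordVec (e : Ch M) (i : Fin 3) :
    ContMDiffOn (𝓡 3) (𝓡 3).tangent ∞
      (fun y => (Bundle.TotalSpace.mk' E3 (e.1.symm y) (coordVec e i y) : TangentBundle (𝓡 3) M))
      e.1.target := by
  have h1 : ContMDiffOn (𝓡 3) (𝓡 3) ∞ e.1.symm e.1.target :=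
    contMDiffOn_symm_of_mem_maximalAtlas (IsManifold.subset_maximalAtlas e.2)
  have h2 := h1.contMDiffOn_tangentMapWithin (m := ∞) (by simp) e.1.open_target.uniqueMDiffOn
  have h3 : ContMDiffOn (𝓡 3) (𝓡 3).tangent ∞
      (fun y : E3 => (Bundle.TotalSpace.mk' E3 y (bv i) : TangentBundle (𝓡 3) E3)) e.1.target := by
    intro y hy
    exact contMDiffWithinAt_vectorSpace_iff_contDiffWithinAt.2 contDiffWithinAt_const
  have h4 := h2.comp h3 (fun y hy => hy)
  refine h4.congr fun y hy => ?_
  simp only [Function.comp_apply, tangentMapWithin]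
  rw [mfderivWithin_of_isOpen e.1.open_target hy]
  rfl

theorem coeff_smooth (e : Ch M) (i j : Fin 3) :
    ContDiffOn ℝ ∞ (fun x => coeff g e x i j) e.1.target := by
  have h1 : ContMDiffOn (𝓡 3) (𝓡 3) ∞ e.1.symm e.1.target :=
    contMDiffOn_symm_of_mem_maximalAtlas (IsManifold.subset_maximalAtlas e.2)
  have hg := g.contMDiff.comp_contMDiffOn h1
  have h2 : ContMDiffOn (𝓡 3) ((𝓡 3).prod 𝓘(ℝ)) ∞
      (fun y => Bundle.TotalSpace.mk' ℝ (E := Bundle.Trivial M ℝ) (e.1.symm y)
        (g.inner (e.1.symm y) (coordVec e i y) (coordVec e j y))) e.1.target := by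
    apply ContMDiffOn.clm_bundle_apply₂ (F₁ := E3) (F₂ := E3)
    · exact hg
    · exact contMDiffOn_coordVec e i
    · exact contMDiffOn_coordVec e j
  intro x hx
  have h3 := h2 x hx
  simp only [Bundle.contMDiffWithinAt_totalSpace] at h3
  exact contMDiffWithinAt_iff_contDiffWithinAt.1 h3.2

/-- The metric of Mathlib as a compatible family of matrix functions. -/
def ofMathlib : RMetric M where
  c := coeff g
  smooth := coeff_smooth g
  symm := fun e x _ => coeff_symm g e x
  compat := coeff_compat g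
  pos := coeff_pos g

end Pool.Agent.RFS
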