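import Pool.Agent.RFS.FGM
import Pool.Agent.RFS.FMM
import Pool.Agent.RFS.FVO

/-!
# RFS, chunk (f), module FST: the notions of the final statement, in literal terms

Everything is expressed through the charts `chartAt E3 z` of Mathlib.

Proofs.
* `isVol_ofMathlib`: let `e` be any chart of the atlas and `B ⊆ e.1.source` measurable.  By compactness
  finitely many sets `(chartAt E3 z_i).source` cover `M`; cut `B` into finitely many disjoint
  measurable pieces `B_i ⊆ (chartAt E3 z_i).source`; for each piece the formula for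
  `chartAt E3 z_i` and `lintegral_ov` (for `ofMathlib g`) give the formula for `e`; add up
  (`e.1` is injective on its source, so the images are disjoint: `lintegral_iUnion` or
  `lintegral_finset_biUnion`).
* `isRiemannianVolume_iff`: this and the trivial converse.
* `existsUnique_volume`: `exists_isVol`, `isVol_unique` for `ofMathlib g`.
-/

open scoped Manifold ContDiff Matrix Bundle
open Set MeasureTheory

noncomputable section

namespace Pool.Agent.RFS

variable {M : Type*} [TopologicalSpace M] [ChartedSpace E3 M] [IsManifold (𝓡 3) ∞ M]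

/-- The chart at `z` as an element of the atlas. -/
def chA (z : M) : Ch M := ⟨chartAt E3 z, chart_mem_atlas E3 z⟩

omit [IsManifold (𝓡 3) ∞ M] in
theorem mem_chA (p : M) : p ∈ (chA p).1.source := mem_chart_source E3 p

theorem metricCoeff_eq (g : Metric M) (z : M) : metricCoeff g z = (ofMathlib g).c (chA z) := rfl

omit [IsManifold (𝓡 3) ∞ M] in
/-- Cut a compact manifold into measurable pieces contained in charts `chartAt`. -/
theorem exists_cover_chA [CompactSpace M] [MeasurableSpace M] [BorelSpace M] :
    ∃ (n : ℕ) (f : Fin n → M) (A : Fin n → Set M), (∀ i, A i ⊆ (chA (f i)).1.source) ∧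
      (∀ i, MeasurableSet (A i)) ∧
      (Pairwise (Function.onFun Disjoint A)) ∧ (⋃ i, A i) = univ := by
  obtain ⟨t, ht⟩ := isCompact_univ.elim_finite_subcover
    (fun p : M => (chartAt E3 p).source) (fun p => (chartAt E3 p).open_source)
    (fun p _ => mem_iUnion.2 ⟨p, mem_chart_source E3 p⟩)
  obtain ⟨n, f, hf⟩ : ∃ (n : ℕ) (f : Fin n → M), (⋃ i, (chartAt E3 (f i)).source) = univ := by
    refine ⟨t.card, fun i => (t.equivFin.symm i : M), ?_⟩
    apply eq_univ_of_univ_subset
    intro p hp
    obtain ⟨q, hq, hpq⟩ := mem_iUnion₂.1 (ht hp)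
    refine mem_iUnion.2 ⟨t.equivFin ⟨q, hq⟩, ?_⟩
    simpa using hpq
  refine ⟨n, f, disjointed (fun i => (chartAt E3 (f i)).source),
    fun i => disjointed_subset _ i, ?_, disjoint_disjointed _, ?_⟩
  · intro i
    rw [disjointed_eq_inter_compl]
    exact (chartAt E3 (f i)).open_source.measurableSet.inter
      (MeasurableSet.biInter (to_countable _)
        (fun j _ => (chartAt E3 (f j)).open_source.measurableSet.compl))
  · rw [iUnion_disjointed, hf]

theorem isVol_ofMathlib [CompactSpace M] [MeasurableSpace M] [BorelSpace M] (g : Metric M)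
    {μ : Measure M} (hμ : IsRiemannianVolume g μ) : IsVol (ofMathlib g) μ := by
  obtain ⟨n, f, A, hAs, hAm, hAd, hAu⟩ := exists_cover_chA (M := M)
  intro e B hB hs
  have h1 : ∀ i, μ (B ∩ A i) = nuM (ofMathlib g) e (B ∩ A i) := by
    intro i
    have hm := hB.inter (hAm i)
    have hsi : B ∩ A i ⊆ (chA (f i)).1.source := inter_subset_right.trans (hAs i)
    have hse : B ∩ A i ⊆ e.1.source := inter_subset_left.trans hs
    rw [nuM_apply _ e hm, inter_eq_left.2 hse, ← lintegral_ov (ofMathlib g) (chA (f i)) e hm hsi hse]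
    exact hμ (f i) _ hm hsi
  rw [measure_eq_sum μ hAm hAd hAu hB]
  simp only [h1]
  rw [← measure_eq_sum _ hAm hAd hAu hB, nuM_apply _ e hB, inter_eq_left.2 hs]

theorem isRiemannianVolume_iff [CompactSpace M] [MeasurableSpace M] [BorelSpace M] (g : Metric M)
    (μ : Measure M) : IsRiemannianVolume g μ ↔ IsVol (ofMathlib g) μ :=
  ⟨isVol_ofMathlib g, fun h z A hA hs => h (chA z) A hA hs⟩

theorem existsUnique_volume [CompactSpace M] [MeasurableSpace M] [BorelSpace M] (g : Metric M) :
    ∃! μ : Measure M, IsRiemannianVolume g μ := by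
  obtain ⟨μ, hμ⟩ := exists_isVol (ofMathlib g)
  refine ⟨μ, (isRiemannianVolume_iff g μ).2 hμ, fun ν hν => ?_⟩
  exact isVol_unique (ofMathlib g) ((isRiemannianVolume_iff g ν).1 hν) hμ

end Pool.Agent.RFS
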