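import Pool.Agent.RFS.EMv
import Pool.Agent.RFS.FST

/-!
Project RFS, chunk (e), module ENfn: the function `N`.

PROOF. `e = chA p`, `x0 = e p`, `A = g.c e x0` (positive definite: `qf A v > 0` for `v ≠ 0`).
Take a smooth bump function `ψ : M → [0,1]` at `p` (Mathlib: `SmoothBumpFunction (𝓡 3) p`, or
`exists_partition`-like arguments): smooth in all charts, `tsupport ψ ⊆ e.source`, `ψ = 1` on a
neighbourhood of `p`. `N x := ψ x · qf A (e x - x0) + (1 - ψ x)` (first summand `0` outside
`e.source`). Smooth in every chart `e'` (on the open set `e.source`: composition with the smooth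
chart change `trans`, `contDiffOn_trans` in FCH; on the complement of `tsupport ψ` it is `1 - ψ`).
`N p = 0`; if `x ≠ p`: either `ψ x = 0` and `N x = 1`, or `x ∈ e.source`, `e x ≠ x0`, and both
summands are `≥ 0`, not both zero. Near `p`: `N (e.symm y) = qf A (y - x0)`.
Last part: the complement of the open set `{x ∈ e.source | e x ∈ ball x0 r}` is compact and `N` is
continuous and positive on it (if it is empty take `m = 1`).
-/

open scoped Manifold ContDiff Matrix
open Set MeasureTheory

noncomputable section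

namespace Pool.Agent.RFS.EE

open RFSE

variable {M : Type*} [TopologicalSpace M] [ChartedSpace E3 M] [IsManifold (𝓡 3) ∞ M]
  [CompactSpace M] [T2Space M]

private lemma qf_posN {A : Mat3} (hA : A.PosDef) {v : E3} (hv : v ≠ 0) : 0 < qf A v := by
  have hne : (fun k => v k : Fin 3 → ℝ) ≠ 0 := by
    intro h
    apply hv
    ext k
    exact congrFun h k
  have h := hA.dotProduct_mulVec_pos hne
  have h2 : qf A v = (fun k => v k) ⬝ᵥ (A *ᵥ (fun k => v k)) := by
    simp only [qf, dotProduct, Matrix.mulVec, Finset.mul_sum]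
    exact Finset.sum_congr rfl fun i _ => Finset.sum_congr rfl fun j _ => by ring
  rw [h2]
  simpa using h

private lemma qf_smoothN (A : Mat3) (x0 : E3) : ContDiff ℝ ∞ (fun y : E3 => qf A (y - x0)) := by
  unfold qf
  simp only [PiLp.sub_apply]
  fun_prop

theorem exists_N (g : RMetric M) (p : M) :
    ∃ N : M → ℝ, Sm N ∧ Continuous N ∧ N p = 0 ∧ (∀ x, x ≠ p → 0 < N x) ∧
      (∃ r0 > 0, Metric.ball ((chA p).1 p) r0 ⊆ (chA p).1.target ∧
        ∀ y ∈ Metric.ball ((chA p).1 p) r0, N ((chA p).1.symm y) =
          qf (g.c (chA p) ((chA p).1 p)) (y - (chA p).1 p)) ∧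
      (∀ r > 0, ∃ m > 0, ∀ x, N x < m → x ∈ (chA p).1.source ∧
        (chA p).1 x ∈ Metric.ball ((chA p).1 p) r) := by
  classical
  set e : Ch M := chA p with he
  set x0 : E3 := e.1 p with hx0
  have hps : p ∈ e.1.source := mem_chA p
  have hx0t : x0 ∈ e.1.target := e.1.map_source hps
  have hA := g.pos e x0 hx0t
  set A := g.c e x0 with hAdef
  obtain ⟨R, hR, hRsub⟩ : ∃ R > 0, Metric.closedBall x0 R ⊆ e.1.target :=
    Metric.nhds_basis_closedBall.mem_iff.1 (e.1.open_target.mem_nhds hx0t)
  let β : ContDiffBump x0 := ⟨R / 2, R, half_pos hR, half_lt_self hR⟩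
  set Q : E3 → ℝ := fun y => β y * qf A (y - x0) + (1 - β y) with hQ
  have hβs : ContDiff ℝ ∞ β := β.contDiff
  have hQs : ContDiff ℝ ∞ Q := (hβs.mul (qf_smoothN A x0)).add (contDiff_const.sub hβs)
  have hQ1 : ∀ y, y ∉ Metric.closedBall x0 R → Q y = 1 := fun y hy => by
    have h0 : β y = 0 := β.zero_of_le_dist (by
      rw [Metric.mem_closedBall, not_le] at hy
      exact hy.le)
    simp only [hQ, h0, zero_mul, sub_zero, zero_add]
  set N : M → ℝ := fun x => if x ∈ e.1.source then Q (e.1 x) else 1 with hN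
  set K : Set M := e.1.symm '' Metric.closedBall x0 R with hK
  have hKc : IsCompact K :=
    (isCompact_closedBall x0 R).image_of_continuousOn (e.1.continuousOn_symm.mono hRsub)
  have hKs : K ⊆ e.1.source := by
    rintro _ ⟨y, hy, rfl⟩
    exact e.1.map_target (hRsub hy)
  have hNin : ∀ x ∈ e.1.source, N x = Q (e.1 x) := fun x hx => by
    simp only [hN, if_pos hx]
  have hNout : ∀ x, x ∉ K → N x = 1 := fun x hx => by
    by_cases hxs : x ∈ e.1.source
    · rw [hNin x hxs]
      apply hQ1
      intro h
      exact hx ⟨e.1 x, h, e.1.left_inv hxs⟩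
    · simp only [hN, if_neg hxs]
  have hSm : Sm N := by
    intro e' y hy
    apply ContDiffAt.contDiffWithinAt
    by_cases hys : e'.1.symm y ∈ e.1.source
    · have hov : y ∈ ov e' e := ⟨hy, hys⟩
      have h1 : loc N e' =ᶠ[nhds y] fun z => Q (trans e' e z) := by
        filter_upwards [(isOpen_ov e' e).mem_nhds hov] with z hz
        exact hNin _ hz.2
      have h2 : ContDiffAt ℝ ∞ (fun z => Q (trans e' e z)) y :=
        hQs.contDiffAt.comp y ((contDiffOn_trans e' e).contDiffAt ((isOpen_ov e' e).mem_nhds hov))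
      exact h2.congr_of_eventuallyEq h1
    · have hyK : e'.1.symm y ∉ K := fun h => hys (hKs h)
      have h1 : loc N e' =ᶠ[nhds y] fun _ => (1 : ℝ) := by
        have h2 : ContinuousAt e'.1.symm y := e'.1.continuousAt_symm hy
        filter_upwards [h2.preimage_mem_nhds (hKc.isClosed.isOpen_compl.mem_nhds hyK)] with z hz
        exact hNout _ hz
      exact contDiffAt_const.congr_of_eventuallyEq h1
  have hNc : Continuous N := by
    rw [continuous_iff_continuousAt]
    intro x
    have hxs : x ∈ (chA x).1.source := mem_chA x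
    have h1 : ContinuousAt (loc N (chA x)) ((chA x).1 x) :=
      ((hSm (chA x)).contDiffAt
        ((chA x).1.open_target.mem_nhds ((chA x).1.map_source hxs))).continuousAt
    have h2 : N =ᶠ[nhds x] fun z => loc N (chA x) ((chA x).1 z) := by
      filter_upwards [(chA x).1.open_source.mem_nhds hxs] with z hz
      change N z = N ((chA x).1.symm ((chA x).1 z))
      rw [(chA x).1.left_inv hz]
    have h3 : ContinuousAt (fun z => loc N (chA x) ((chA x).1 z)) x :=
      ContinuousAt.comp (f := fun z => (chA x).1 z) h1 ((chA x).1.continuousAt hxs)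
    exact h3.congr h2.symm
  have hNp : N p = 0 := by
    rw [hNin p hps]
    have h1 : β x0 = 1 := β.one_of_mem_closedBall (Metric.mem_closedBall_self β.rIn_pos.le)
    have h2 : qf A (x0 - x0) = 0 := by simp [qf]
    simp only [hQ]
    rw [← hx0, h1, h2]
    ring
  have hpos : ∀ x, x ≠ p → 0 < N x := by
    intro x hx
    by_cases hxs : x ∈ e.1.source
    · rw [hNin x hxs]
      have h1 : e.1 x - x0 ≠ 0 := by
        intro h
        apply hx
        apply e.1.injOn hxs hps
        exact sub_eq_zero.1 h
      have h2 := qf_posN hA h1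
      have h3 : 0 ≤ β (e.1 x) := β.nonneg
      have h4 : β (e.1 x) ≤ 1 := β.le_one
      simp only [hQ]
      rcases h3.eq_or_lt with h5 | h5
      · rw [← h5]
        norm_num
      · have := mul_pos h5 h2
        linarith
    · simp only [hN, if_neg hxs]
      exact one_pos
  refine ⟨N, hSm, hNc, hNp, hpos, ⟨R / 2, half_pos hR, ?_, ?_⟩, ?_⟩
  · exact (Metric.ball_subset_closedBall.trans
      (Metric.closedBall_subset_closedBall (by linarith))).trans hRsub
  · intro y hy
    have hyt : y ∈ e.1.target :=
      hRsub (Metric.closedBall_subset_closedBall (by linarith) (Metric.ball_subset_closedBall hy))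
    rw [hNin _ (e.1.map_target hyt), e.1.right_inv hyt]
    have h1 : β y = 1 := β.one_of_mem_closedBall (Metric.ball_subset_closedBall hy)
    simp only [hQ]
    rw [h1]
    ring
  · intro r hr
    have hVo : IsOpen (e.1.source ∩ e.1 ⁻¹' Metric.ball x0 r) :=
      e.1.isOpen_inter_preimage Metric.isOpen_ball
    have hpV : p ∈ e.1.source ∩ e.1 ⁻¹' Metric.ball x0 r := ⟨hps, Metric.mem_ball_self hr⟩
    by_cases hne : (e.1.source ∩ e.1 ⁻¹' Metric.ball x0 r)ᶜ.Nonempty
    · obtain ⟨x1, hx1, hmin⟩ := hVo.isClosed_compl.isCompact.exists_isMinOn hne hNc.continuousOn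
      refine ⟨N x1, hpos x1 (fun h => hx1 (h ▸ hpV)), fun x hx => ?_⟩
      by_contra hc
      have : N x1 ≤ N x := hmin hc
      linarith
    · refine ⟨1, one_pos, fun x _ => ?_⟩
      by_contra hc
      exact hne ⟨x, hc⟩

end Pool.Agent.RFS.EE
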