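import Pool.Agent.RFS.ENot

/-!
Project RFS, chunk (e), module EOsc.

PROOF of `osc_bound`. Let `x0` be fixed (if `M` is empty trivial). The set `A` of the `x` such that
`∃ D, ∀ u ∈ S with |∇u|² ≤ 2, |u x - u x0| ≤ D` contains `x0`; by `Equi` with `κ = 1` it is open
and closed, so it is `M` (connected). Compactness: cover `M` by the interiors of the
neighbourhoods `U_x` of `Equi` (`κ = 1`), take a finite subcover `x_1, …, x_n`,
`D := 2 (1 + max D_{x_i})`.

PROOF of `vol_lower`. `Equi` with `κ/2`, finite subcover by the interiors `O_i` of `U_{x_i}`;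
`m := min μ(O_i) > 0` over the nonempty ones (open, `IsOpenPosMeasure`). If `x0 ∈ O_i` is the
maximum point, then for `y ∈ O_i`: `|u y - u x0| ≤ |u y - u x_i| + |u x_i - u x0| < κ`.
-/

namespace RFSE

open MeasureTheory Filter Topology

variable {M : Type*} [TopologicalSpace M] [MeasurableSpace M]

theorem osc_bound [CompactSpace M] [ConnectedSpace M] (G : SG M) (hE : Equi G) :
    ∃ D : ℝ, 0 ≤ D ∧ ∀ u ∈ G.S, (∀ z, G.gam u u z ≤ 2) → ∀ x y, u x ≤ u y + D := by
  obtain ⟨x0⟩ : Nonempty M := inferInstance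
  let A : Set M := {x | ∃ D : ℝ, ∀ u ∈ G.S, (∀ z, G.gam u u z ≤ 2) → |u x - u x0| ≤ D}
  have hA : IsClopen A := by
    constructor
    · rw [← isOpen_compl_iff, isOpen_iff_mem_nhds]
      intro x hx
      obtain ⟨U, hU, h⟩ := hE x 1 one_pos
      refine Filter.mem_of_superset hU fun y hy hyA => hx ?_
      obtain ⟨D, hD⟩ := hyA
      refine ⟨D + 1, fun u hu hg => ?_⟩
      have h1 := h u hu hg y hy
      have h2 := hD u hu hg
      rw [abs_lt] at h1
      rw [abs_le] at h2 ⊢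
      constructor <;> linarith [h1.1, h1.2, h2.1, h2.2]
    · rw [isOpen_iff_mem_nhds]
      intro x hx
      obtain ⟨U, hU, h⟩ := hE x 1 one_pos
      obtain ⟨D, hD⟩ := hx
      refine Filter.mem_of_superset hU fun y hy => ⟨D + 1, fun u hu hg => ?_⟩
      have h1 := h u hu hg y hy
      have h2 := hD u hu hg
      rw [abs_lt] at h1
      rw [abs_le] at h2 ⊢
      constructor <;> linarith [h1.1, h1.2, h2.1, h2.2]
  have hAu : A = Set.univ := hA.eq_univ ⟨x0, 0, fun u _ _ => by simp⟩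
  have key : ∃ D : ℝ, ∀ u ∈ G.S, (∀ z, G.gam u u z ≤ 2) → ∀ x ∈ (Set.univ : Set M),
      |u x - u x0| ≤ D := by
    refine isCompact_univ.induction_on
      (p := fun s : Set M => ∃ D : ℝ, ∀ u ∈ G.S, (∀ z, G.gam u u z ≤ 2) → ∀ x ∈ s,
        |u x - u x0| ≤ D) ?_ ?_ ?_ ?_
    · exact ⟨0, fun u _ _ x hx => hx.elim⟩
    · rintro s t hst ⟨D, hD⟩
      exact ⟨D, fun u hu hg x hx => hD u hu hg x (hst hx)⟩
    · rintro s t ⟨D, hD⟩ ⟨D', hD'⟩
      refine ⟨max D D', fun u hu hg x hx => ?_⟩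
      rcases hx with hx | hx
      · exact (hD u hu hg x hx).trans (le_max_left _ _)
      · exact (hD' u hu hg x hx).trans (le_max_right _ _)
    · intro x _
      obtain ⟨U, hU, h⟩ := hE x 1 one_pos
      have hx : x ∈ A := hAu ▸ Set.mem_univ x
      obtain ⟨D, hD⟩ := hx
      refine ⟨U, mem_nhdsWithin_of_mem_nhds hU, D + 1, fun u hu hg y hy => ?_⟩
      have h1 := h u hu hg y hy
      have h2 := hD u hu hg
      rw [abs_lt] at h1
      rw [abs_le] at h2 ⊢
      constructor <;> linarith [h1.1, h1.2, h2.1, h2.2]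
  obtain ⟨D, hD⟩ := key
  refine ⟨2 * |D|, by positivity, fun u hu hg x y => ?_⟩
  have h1 := hD u hu hg x (Set.mem_univ x)
  have h2 := hD u hu hg y (Set.mem_univ y)
  have h3 := le_abs_self D
  rw [abs_le] at h1 h2
  linarith [h1.2, h2.1]

theorem vol_lower [CompactSpace M] [BorelSpace M] (G : SG M) [G.μ.IsOpenPosMeasure]
    (hE : Equi G) {κ : ℝ} (hκ : 0 < κ) :
    ∃ m > 0, ∀ u ∈ G.S, (∀ z, G.gam u u z ≤ 2) → ∀ x0, (∀ y, u y ≤ u x0) →
      m ≤ G.μ.real {y | u x0 - κ < u y} := by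
  have := G.fin
  have hκ2 : 0 < κ / 2 := by linarith
  choose U hU hUe using fun x => hE x (κ / 2) hκ2
  obtain ⟨t, _, ht⟩ := isCompact_univ.elim_nhds_subcover (fun x => interior (U x))
    (fun x _ => interior_mem_nhds.2 (hU x))
  have hpos : ∀ x, 0 < G.μ.real (interior (U x)) := by
    intro x
    have h1 : (interior (U x)).Nonempty := ⟨x, mem_interior_iff_mem_nhds.2 (hU x)⟩
    have h2 : G.μ (interior (U x)) ≠ 0 := isOpen_interior.measure_ne_zero G.μ h1
    exact ENNReal.toReal_pos h2 (measure_ne_top _ _)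
  have hm : ∃ m > 0, ∀ x ∈ t, m ≤ G.μ.real (interior (U x)) := by
    rcases t.eq_empty_or_nonempty with rfl | hne
    · exact ⟨1, one_pos, fun x hx => absurd hx (Finset.notMem_empty x)⟩
    · obtain ⟨x, _, hmin⟩ := t.exists_min_image (fun x => G.μ.real (interior (U x))) hne
      exact ⟨G.μ.real (interior (U x)), hpos x, hmin⟩
  obtain ⟨m, hm0, hm⟩ := hm
  refine ⟨m, hm0, fun u hu hg x0 _ => ?_⟩
  have hx0 := ht (Set.mem_univ x0)
  rw [Set.mem_iUnion₂] at hx0
  obtain ⟨x, hxt, hx⟩ := hx0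
  refine (hm x hxt).trans (measureReal_mono ?_ (measure_ne_top _ _))
  intro y hy
  have h1 := hUe x u hu hg y (interior_subset hy)
  have h2 := hUe x u hu hg x0 (interior_subset hx)
  rw [abs_lt] at h1 h2
  show u x0 - κ < u y
  linarith [h1.1, h2.2]

end RFSE
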