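import Mathlib

/-!
Project RFS, chunk (e), module EPar (Mathlib only): integrals depending on a parameter.

PROOF. First for `C¹`: `hasFDerivAt_integral`. Let `x ∈ U`. `(t,y) ↦ fderiv ℝ (fun y => h (t,y)) y`
is continuous on `[0,T] × U` (it is the restriction of `fderivWithin ℝ h (Icc 0 T ×ˢ U)` to the second
factor; `Icc 0 T ×ˢ U` has unique derivatives), so by compactness of `[0,T] × {x}` (tube lemma)
bounded by `K` on `[0,T] × ball x r`; `intervalIntegral.hasFDerivAt_integral_of_dominated_of_fderiv_le`.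
Smoothness: induction on `n` for `ContDiffOn ℝ n` for all Banach spaces `F` at once:
`contDiffOn_succ_iff_fderiv_of_isOpen`, the derivative is
`x ↦ ∫ t in 0..T, fderiv ℝ (fun y => h (t,y)) x`, again of the same form with the smooth
function `(t,x) ↦ fderiv ℝ (fun y => h (t,y)) x`.
-/

open scoped ContDiff
open Set

namespace RFSE

universe u

variable {E : Type u} [NormedAddCommGroup E] [NormedSpace ℝ E]

private lemma par_ud {U : Set E} (hU : IsOpen U) {T : ℝ} (hT : 0 < T) :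
    UniqueDiffOn ℝ (Icc (0 : ℝ) T ×ˢ U) :=
  (uniqueDiffOn_Icc hT).prod hU.uniqueDiffOn

private lemma par_has {F : Type u} [NormedAddCommGroup F] [NormedSpace ℝ F]
    {U : Set E} (hU : IsOpen U) {T : ℝ} {h : ℝ × E → F} {t : ℝ} {x : E}
    {L : ℝ × E →L[ℝ] F} (ht : t ∈ Icc 0 T) (hx : x ∈ U)
    (hd : HasFDerivWithinAt h L (Icc (0 : ℝ) T ×ˢ U) (t, x)) :
    HasFDerivAt (fun y => h (t, y)) (L.comp (ContinuousLinearMap.inr ℝ ℝ E)) x := by
  have h1 : HasFDerivWithinAt (fun y : E => (t, y)) (ContinuousLinearMap.inr ℝ ℝ E) U x :=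
    (hasFDerivAt_prodMk_right t x).hasFDerivWithinAt
  have h2 : MapsTo (fun y : E => (t, y)) U (Icc (0 : ℝ) T ×ˢ U) := fun y hy => ⟨ht, hy⟩
  have h3 := hd.comp x h1 h2
  exact h3.hasFDerivAt (hU.mem_nhds hx)

private lemma par_hast {F : Type u} [NormedAddCommGroup F] [NormedSpace ℝ F]
    {U : Set E} {T : ℝ} {h : ℝ × E → F} {t : ℝ} {x : E}
    {L : ℝ × E →L[ℝ] F} (hx : x ∈ U)
    (hd : HasFDerivWithinAt h L (Icc (0 : ℝ) T ×ˢ U) (t, x)) :
    HasDerivWithinAt (fun s => h (s, x)) (L (1, 0)) (Icc (0 : ℝ) T) t := by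
  have h1 : HasFDerivWithinAt (fun s : ℝ => (s, x)) (ContinuousLinearMap.inl ℝ ℝ E)
      (Icc (0 : ℝ) T) t := (hasFDerivAt_prodMk_left t x).hasFDerivWithinAt
  have h2 : MapsTo (fun s : ℝ => (s, x)) (Icc (0 : ℝ) T) (Icc (0 : ℝ) T ×ˢ U) :=
    fun s hs => ⟨hs, hx⟩
  have h3 := (hd.comp t h1 h2).hasDerivWithinAt
  have h4 : (L.comp (ContinuousLinearMap.inl ℝ ℝ E)) 1 = L (1, 0) := by simp
  rw [h4] at h3
  exact h3

private lemma par_eq {F : Type u} [NormedAddCommGroup F] [NormedSpace ℝ F]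
    {U : Set E} (hU : IsOpen U) {T : ℝ} {h : ℝ × E → F}
    (hh : ContDiffOn ℝ ∞ h (Icc 0 T ×ˢ U)) {t : ℝ} {x : E} (ht : t ∈ Icc 0 T) (hx : x ∈ U) :
    fderiv ℝ (fun y => h (t, y)) x =
      (fderivWithin ℝ h (Icc 0 T ×ˢ U) (t, x)).comp (ContinuousLinearMap.inr ℝ ℝ E) := by
  have h1 : DifferentiableWithinAt ℝ h (Icc 0 T ×ˢ U) (t, x) :=
    (hh.differentiableOn (by simp)) (t, x) ⟨ht, hx⟩
  exact (par_has hU ht hx h1.hasFDerivWithinAt).fderiv

theorem contDiffOn_fderiv_snd {F : Type u} [NormedAddCommGroup F] [NormedSpace ℝ F]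
    {U : Set E} (hU : IsOpen U) {T : ℝ} (hT : 0 < T) {h : ℝ × E → F}
    (hh : ContDiffOn ℝ ∞ h (Icc 0 T ×ˢ U)) :
    ContDiffOn ℝ ∞ (fun z : ℝ × E => fderiv ℝ (fun y => h (z.1, y)) z.2) (Icc 0 T ×ˢ U) := by
  have h1 : ContDiffOn ℝ ∞ (fderivWithin ℝ h (Icc 0 T ×ˢ U)) (Icc 0 T ×ˢ U) :=
    hh.fderivWithin (par_ud hU hT) (by simp)
  have h2 : ContDiffOn ℝ ∞ (fun z : ℝ × E =>
      (fderivWithin ℝ h (Icc 0 T ×ˢ U) z).comp (ContinuousLinearMap.inr ℝ ℝ E))
      (Icc 0 T ×ˢ U) := h1.clm_comp contDiffOn_const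
  refine h2.congr ?_
  rintro ⟨t, x⟩ ⟨ht, hx⟩
  exact par_eq hU hh ht hx

private lemma par_contt {F : Type u} [NormedAddCommGroup F] [NormedSpace ℝ F]
    {U : Set E} {T : ℝ} {h : ℝ × E → F}
    (hh : ContinuousOn h (Icc 0 T ×ˢ U)) {y : E} (hy : y ∈ U) :
    ContinuousOn (fun t => h (t, y)) (Icc 0 T) :=
  hh.comp (by fun_prop) fun _ hs => ⟨hs, hy⟩

private lemma par_int {F : Type u} [NormedAddCommGroup F] [NormedSpace ℝ F]
    {U : Set E} {T : ℝ} (hT : 0 < T) {h : ℝ × E → F}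
    (hh : ContinuousOn h (Icc 0 T ×ˢ U)) {y : E} (hy : y ∈ U) :
    IntervalIntegrable (fun t => h (t, y)) MeasureTheory.volume 0 T := by
  apply ContinuousOn.intervalIntegrable
  rw [uIcc_of_le hT.le]
  exact par_contt hh hy

theorem fderiv_param {F : Type u} [NormedAddCommGroup F] [NormedSpace ℝ F] [CompleteSpace F]
    {U : Set E} (hU : IsOpen U) {T : ℝ} (hT : 0 < T) {h : ℝ × E → F}
    (hh : ContDiffOn ℝ ∞ h (Icc 0 T ×ˢ U)) {x : E} (hx : x ∈ U) :
    HasFDerivAt (fun x => ∫ t in (0 : ℝ)..T, h (t, x))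
      (∫ t in (0 : ℝ)..T, fderiv ℝ (fun y => h (t, y)) x) x := by
  set G : ℝ × E → (E →L[ℝ] F) := fun z => fderiv ℝ (fun y => h (z.1, y)) z.2 with hG
  have hGc : ContinuousOn G (Icc 0 T ×ˢ U) := (contDiffOn_fderiv_snd hU hT hh).continuousOn
  have hhc : ContinuousOn h (Icc 0 T ×ˢ U) := hh.continuousOn
  -- bound on the slice
  obtain ⟨K, hK⟩ : ∃ K : ℝ, ∀ t ∈ Icc (0 : ℝ) T, ‖G (t, x)‖ ≤ K := by
    obtain ⟨K, hK⟩ := (isCompact_Icc (a := (0 : ℝ)) (b := T)).exists_bound_of_continuousOn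
      (par_contt hGc hx)
    exact ⟨K, hK⟩
  obtain ⟨O, hO, hOe⟩ := (continuousOn_iff'.1 hGc.norm) (Iio (K + 1)) isOpen_Iio
  have hsub : Icc (0 : ℝ) T ×ˢ ({x} : Set E) ⊆ O := by
    rintro ⟨t, y⟩ ⟨ht, hy⟩
    have hy' : y = x := hy
    subst hy'
    have h1 : (t, y) ∈ (fun z => ‖G z‖) ⁻¹' Iio (K + 1) ∩ Icc 0 T ×ˢ U := by
      refine ⟨?_, ht, hx⟩
      have := hK t ht
      simp only [mem_preimage, mem_Iio]
      linarith
    rw [hOe] at h1
    exact h1.1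
  obtain ⟨A, V, -, hV, hA, hxV, hAV⟩ :=
    generalized_tube_lemma isCompact_Icc isCompact_singleton hO hsub
  have hVx : V ∩ U ∈ nhds x :=
    (hV.inter hU).mem_nhds ⟨hxV (mem_singleton x), hx⟩
  have hb : ∀ t ∈ Icc (0 : ℝ) T, ∀ y ∈ V ∩ U, ‖G (t, y)‖ ≤ K + 1 := by
    intro t ht y hy
    have h1 : (t, y) ∈ O ∩ Icc 0 T ×ˢ U := ⟨hAV ⟨hA ht, hy.1⟩, ht, hy.2⟩
    rw [← hOe] at h1
    exact le_of_lt h1.1
  have hI : ∀ t, t ∈ Set.uIoc (0 : ℝ) T → t ∈ Icc (0 : ℝ) T := by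
    intro t ht
    rw [uIoc_of_le hT.le] at ht
    exact ⟨ht.1.le, ht.2⟩
  have := intervalIntegral.hasFDerivAt_integral_of_dominated_of_fderiv_le
    (μ := MeasureTheory.volume) (F := fun y t => h (t, y)) (F' := fun y t => G (t, y))
    (x₀ := x) (s := V ∩ U) (bound := fun _ => K + 1) (a := 0) (b := T) hVx
    (by
      filter_upwards [hVx] with y hy
      exact (par_int hT hhc hy.2).def'.aestronglyMeasurable)
    (par_int hT hhc hx)
    ((par_int hT hGc hx).def'.aestronglyMeasurable)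
    (Filter.Eventually.of_forall fun t ht y hy => hb t (hI t ht) y hy)
    (by simp)
    (Filter.Eventually.of_forall fun t ht y hy => by
      have h1 : DifferentiableWithinAt ℝ h (Icc 0 T ×ˢ U) (t, y) :=
        (hh.differentiableOn (by simp)) (t, y) ⟨hI t ht, hy.2⟩
      exact (par_has hU (hI t ht) hy.2 h1.hasFDerivWithinAt).differentiableAt.hasFDerivAt)
  exact this

private lemma par_nat {U : Set E} (hU : IsOpen U) {T : ℝ} (hT : 0 < T) (n : ℕ) :
    ∀ {F : Type u} [NormedAddCommGroup F] [NormedSpace ℝ F] [CompleteSpace F]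
      {h : ℝ × E → F} (_ : ContDiffOn ℝ ∞ h (Icc 0 T ×ˢ U)),
    ContDiffOn ℝ n (fun x => ∫ t in (0 : ℝ)..T, h (t, x)) U := by
  induction n with
  | zero =>
    intro F _ _ _ h hh
    simp only [CharP.cast_eq_zero]
    rw [contDiffOn_zero]
    exact fun x hx => (fderiv_param hU hT hh hx).continuousAt.continuousWithinAt
  | succ n ih =>
    intro F _ _ _ h hh
    have h0 : ((n + 1 : ℕ) : WithTop ℕ∞) = (n : WithTop ℕ∞) + 1 := by push_cast; rfl
    rw [h0, contDiffOn_succ_iff_fderiv_of_isOpen hU]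
    refine ⟨fun x hx => (fderiv_param hU hT hh hx).differentiableAt.differentiableWithinAt,
      ?_, ?_⟩
    · intro h
      exact absurd h (by simp)
    · have h1 := ih (h := fun z : ℝ × E => fderiv ℝ (fun y => h (z.1, y)) z.2)
        (contDiffOn_fderiv_snd hU hT hh)
      exact h1.congr fun x hx => (fderiv_param hU hT hh hx).fderiv

theorem contDiffOn_param {F : Type u} [NormedAddCommGroup F] [NormedSpace ℝ F] [CompleteSpace F]
    {U : Set E} (hU : IsOpen U) {T : ℝ} (hT : 0 < T) {h : ℝ × E → F}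
    (hh : ContDiffOn ℝ ∞ h (Icc 0 T ×ˢ U)) :
    ContDiffOn ℝ ∞ (fun x => ∫ t in (0 : ℝ)..T, h (t, x)) U :=
  contDiffOn_infty.2 fun n => par_nat hU hT n hh

/-- The time derivative commutes with the space derivative. -/
theorem hasDerivWithinAt_fderiv_snd {F : Type u} [NormedAddCommGroup F] [NormedSpace ℝ F]
    {U : Set E} (hU : IsOpen U) {T : ℝ} (hT : 0 < T) {h : ℝ × E → F}
    (hh : ContDiffOn ℝ ∞ h (Icc 0 T ×ˢ U)) {x : E} (hx : x ∈ U) {t : ℝ} (ht : t ∈ Icc 0 T)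
    (v : E) :
    HasDerivWithinAt (fun s => fderiv ℝ (fun y => h (s, y)) x v)
      (fderiv ℝ (fun y => derivWithin (fun s => h (s, y)) (Icc 0 T) t) x v) (Icc 0 T) t := by
  set S : Set (ℝ × E) := Icc (0 : ℝ) T ×ˢ U with hS
  have hud : UniqueDiffOn ℝ S := par_ud hU hT
  set D : ℝ × E → (ℝ × E →L[ℝ] F) := fderivWithin ℝ h S with hD
  have hz : (t, x) ∈ S := ⟨ht, hx⟩
  have hDc : ContDiffOn ℝ ∞ D S := hh.fderivWithin hud (by simp)
  have hD2 : HasFDerivWithinAt D (fderivWithin ℝ D S (t, x)) S (t, x) :=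
    ((hDc.differentiableOn (by simp)) (t, x) hz).hasFDerivWithinAt
  set D2 := fderivWithin ℝ D S (t, x) with hD2def
  -- symmetry
  have hcl : (t, x) ∈ closure (interior S) := by
    rw [hS, interior_prod_eq, closure_prod_eq, interior_Icc, closure_Ioo hT.ne,
      hU.interior_eq]
    exact ⟨ht, subset_closure hx⟩
  have hsym : IsSymmSndFDerivWithinAt ℝ h S (t, x) := by
    apply ContDiffWithinAt.isSymmSndFDerivWithinAt (n := ∞) (hh (t, x) hz) _ hud hcl hz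
    rw [minSmoothness_of_isRCLikeNormedField]
    exact WithTop.coe_le_coe.2 le_top
  have hs := hsym.eq (1, 0) (0, v)
  rw [← hD, ← hD2def] at hs
  -- left
  have h1 : HasDerivWithinAt (fun s => D (s, x)) (D2 (1, 0)) (Icc 0 T) t := par_hast hx hD2
  have h2 : HasDerivWithinAt (fun s => D (s, x) (0, v)) (D2 (1, 0) (0, v)) (Icc 0 T) t := by
    have := h1.clm_apply (hasDerivWithinAt_const t (Icc 0 T) ((0 : ℝ), v))
    simpa using this
  have h3 : HasDerivWithinAt (fun s => fderiv ℝ (fun y => h (s, y)) x v)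
      (D2 (1, 0) (0, v)) (Icc 0 T) t := by
    refine h2.congr (fun s hs => ?_) ?_
    · rw [par_eq hU hh hs hx]; rfl
    · rw [par_eq hU hh ht hx]; rfl
  -- right
  have h4 : HasFDerivAt (fun y => D (t, y)) (D2.comp (ContinuousLinearMap.inr ℝ ℝ E)) x :=
    par_has hU ht hx hD2
  have h5 : HasFDerivAt (fun y => D (t, y) (1, 0))
      ((D2.comp (ContinuousLinearMap.inr ℝ ℝ E)).flip (1, 0)) x := by
    have := h4.clm_apply (hasFDerivAt_const ((1 : ℝ), (0 : E)) x)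
    simpa using this
  have h6 : (fun y => derivWithin (fun s => h (s, y)) (Icc 0 T) t) =ᶠ[nhds x]
      fun y => D (t, y) (1, 0) := by
    filter_upwards [hU.mem_nhds hx] with y hy
    have h7 : DifferentiableWithinAt ℝ h S (t, y) :=
      (hh.differentiableOn (by simp)) (t, y) ⟨ht, hy⟩
    exact (par_hast hy h7.hasFDerivWithinAt).derivWithin ((uniqueDiffOn_Icc hT) t ht)
  rw [h6.fderiv_eq, h5.fderiv]
  convert h3 using 1
  simpa using hs.symm

end RFSE
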