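import Pool.Agent.RFS.ENot

/-!
Project RFS, chunk (e), module EPhi: existence of the families of solutions.

PROOF. Fix `0 < ε < 1`, `f := exp(-Φ/(δ ε)) ∈ S`, `f > 0`. Let `g = 1/f ∈ S`; by compactness
`g`, `|∇g|²`, `|Δg|` are bounded by some `B ≥ 1`. Apply `hR` with `ε`, `f` and a small `τ`:
`v, f'`. Put `e := (f' - f) g` (so `f'/f = 1 + e`): `|e| ≤ τ B`, `|∇e|² ≤ 2 (τ² B + B² τ)`,
`|Δe| ≤ τ B + B τ + 2 √(τ B)`, all small when `τ` is small. `U ε := -ε log v`,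
`ϕ ε := -ε log f' = Φ/δ - ε log(1+e)` (`visc_of_resolvent`). `|log(1+e)| ≤ 2|e| ≤ 1`,
`∇ log(1+e) = ∇e/(1+e)`, `Δ log(1+e) = Δe/(1+e) - |∇e|²/(1+e)²` (`G.lap_comp`), so
`|∇ϕ|² ≤ 2 |∇Φ|²/δ² + 2 ε² |∇ log(1+e)|²`, `|Δϕ| ≤ |ΔΦ|/δ + ε |Δ log(1+e)|`.
Choice for each `ε`: `Classical.choose` (`choose`).
-/

namespace RFSE

open MeasureTheory Filter Topology

variable {M : Type*} [TopologicalSpace M] [MeasurableSpace M]

private lemma exists_bd [CompactSpace M] (G : SG M) {u : M → ℝ} (hu : u ∈ G.S) :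
    ∃ B : ℝ, ∀ x, |u x| ≤ B := by
  obtain ⟨B, hB⟩ := isCompact_univ.exists_bound_of_continuousOn (G.cont u hu).continuousOn
  exact ⟨B, fun x => hB x (Set.mem_univ x)⟩

private lemma abs_log_le {t : ℝ} (ht : |t| ≤ 1 / 256) : |Real.log (1 + t)| ≤ 1 := by
  obtain ⟨h1, h2⟩ := abs_le.1 ht
  have hp : (0 : ℝ) < 1 + t := by linarith
  have h3 := Real.log_le_sub_one_of_pos hp
  have h4 := Real.log_le_sub_one_of_pos (inv_pos.2 hp)
  rw [Real.log_inv] at h4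
  have h5 : (1 + t)⁻¹ ≤ 2 := by
    rw [inv_le_comm₀ hp (by norm_num)]
    linarith
  rw [abs_le]
  constructor <;> linarith

/-- derivatives of `log (1 + e)` -/
private lemma log_bd (G : SG M) {e : M → ℝ} (he : e ∈ G.S) (h1 : ∀ x, |e x| ≤ 1 / 256)
    (h2 : ∀ x, G.gam e e x ≤ 1 / 8) (h3 : ∀ x, |G.lap e x| ≤ 1 / 4) :
    (fun x => Real.log (1 + e x)) ∈ G.S ∧
      (∀ x, G.gam (fun y => Real.log (1 + e y)) (fun y => Real.log (1 + e y)) x ≤ 1) ∧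
      (∀ x, |G.lap (fun y => Real.log (1 + e y)) x| ≤ 1) := by
  have hp : ∀ x, (1 : ℝ) / 2 ≤ 1 + e x := fun x => by
    have := (abs_le.1 (h1 x)).1
    linarith
  have hp0 : ∀ x, (0 : ℝ) < 1 + e x := fun x => by
    have := hp x
    linarith
  have hs : ∀ x, ContDiffAt ℝ (⊤ : ℕ∞) (fun t : ℝ => Real.log (1 + t)) (e x) := fun x =>
    (contDiffAt_const.add contDiffAt_id).log (hp0 x).ne'
  have hinv : ∀ x, (1 + e x)⁻¹ ≤ 2 := fun x => by
    rw [inv_le_comm₀ (hp0 x) (by norm_num)]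
    have := hp x
    linarith
  have hinv0 : ∀ x, 0 < (1 + e x)⁻¹ := fun x => inv_pos.2 (hp0 x)
  have hd1 : ∀ t : ℝ, 1 + t ≠ 0 → deriv (fun t : ℝ => Real.log (1 + t)) t = (1 + t)⁻¹ := by
    intro t ht
    have : HasDerivAt (fun t : ℝ => Real.log (1 + t)) (1 / (1 + t)) t :=
      ((hasDerivAt_id t).const_add 1).log ht
    rw [this.deriv, one_div]
  have hd2 : ∀ t : ℝ, 1 + t ≠ 0 →
      deriv (deriv (fun t : ℝ => Real.log (1 + t))) t = -((1 + t)⁻¹ * (1 + t)⁻¹) := by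
    intro t ht
    have hev : deriv (fun t : ℝ => Real.log (1 + t)) =ᶠ[𝓝 t] fun t => (1 + t)⁻¹ := by
      have hopen : IsOpen {t : ℝ | 1 + t ≠ 0} :=
        isOpen_ne_fun (continuous_const.add continuous_id) continuous_const
      filter_upwards [hopen.mem_nhds ht] with s hs
      exact hd1 s hs
    rw [hev.deriv_eq]
    have : HasDerivAt (fun t : ℝ => (1 + t)⁻¹) (-1 / (1 + t) ^ 2) t :=
      ((hasDerivAt_id t).const_add 1).inv ht
    rw [this.deriv]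
    field_simp
  refine ⟨G.comp_mem e he (fun t => Real.log (1 + t)) hs, fun x => ?_, fun x => ?_⟩
  · have := G.gam_comp_comp he (f := fun t => Real.log (1 + t)) (g := fun t => Real.log (1 + t))
      hs hs x
    rw [this, hd1 _ (hp0 x).ne']
    have a1 := h2 x
    have a2 := G.gam_self_nonneg e x
    have a3 := hinv x
    have a4 := hinv0 x
    have a5 : (1 + e x)⁻¹ * (1 + e x)⁻¹ ≤ 2 * 2 := mul_le_mul a3 a3 a4.le (by norm_num)
    have a6 : (1 + e x)⁻¹ * (1 + e x)⁻¹ * G.gam e e x ≤ 2 * 2 * (1 / 8) :=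
      mul_le_mul a5 a1 a2 (by norm_num)
    linarith
  · have := G.lap_comp he (f := fun t => Real.log (1 + t)) hs x
    rw [this, hd1 _ (hp0 x).ne', hd2 _ (hp0 x).ne']
    have a1 := h2 x
    have a2 := G.gam_self_nonneg e x
    have a3 := hinv x
    have a4 := hinv0 x
    have a5 : (1 + e x)⁻¹ * (1 + e x)⁻¹ ≤ 2 * 2 := mul_le_mul a3 a3 a4.le (by norm_num)
    have a6 : (1 + e x)⁻¹ * (1 + e x)⁻¹ * G.gam e e x ≤ 2 * 2 * (1 / 8) :=
      mul_le_mul a5 a1 a2 (by norm_num)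
    have a7 : 0 ≤ (1 + e x)⁻¹ * (1 + e x)⁻¹ * G.gam e e x :=
      mul_nonneg (mul_nonneg a4.le a4.le) a2
    have a8 : |(1 + e x)⁻¹ * G.lap e x| ≤ 2 * (1 / 4) := by
      rw [abs_mul, abs_of_pos a4]
      exact mul_le_mul a3 (h3 x) (abs_nonneg _) (by norm_num)
    obtain ⟨a9, a10⟩ := abs_le.1 a8
    rw [abs_le]
    constructor <;> linarith

private lemma exists_one [CompactSpace M] (G : SG M) (hR : Resolv G) {Φ : M → ℝ} (hΦ : Φ ∈ G.S)
    {δ K : ℝ} (hδ : 0 < δ) (hK : 0 ≤ K) (h1 : ∀ x, G.gam Φ Φ x ≤ K)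
    (h2 : ∀ x, |G.lap Φ x| ≤ K) (ε : ℝ) (hε : 0 < ε) (hε1 : ε < 1) :
    ∃ U ϕ : M → ℝ, Visc G ε U ϕ ∧
      (∀ x, |ϕ x - Φ x / δ| ≤ ε) ∧ (∀ x, G.gam ϕ ϕ x ≤ 2 * K / δ ^ 2 + 2) ∧
      (∀ x, |G.lap ϕ x| ≤ K / δ + 1) := by
  set f : M → ℝ := fun x => Real.exp (-(Φ x) / (δ * ε)) with hfdef
  set g : M → ℝ := fun x => Real.exp (Φ x / (δ * ε)) with hgdef
  have hf : f ∈ G.S := G.comp_mem Φ hΦ (fun t => Real.exp (-t / (δ * ε)))
    (fun x => (contDiffAt_id.neg.div_const _).exp)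
  have hg : g ∈ G.S := G.comp_mem Φ hΦ (fun t => Real.exp (t / (δ * ε)))
    (fun x => (contDiffAt_id.div_const _).exp)
  have hf0 : ∀ x, 0 < f x := fun x => Real.exp_pos _
  have hg0 : ∀ x, 0 < g x := fun x => Real.exp_pos _
  have hfg : ∀ x, f x * g x = 1 := fun x => by
    simp only [hfdef, hgdef]
    rw [← Real.exp_add, neg_div, neg_add_cancel, Real.exp_zero]
  obtain ⟨B1, hB1⟩ := exists_bd G hg
  obtain ⟨B2, hB2⟩ := exists_bd G (G.gam_mem' hg hg)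
  obtain ⟨B3, hB3⟩ := exists_bd G (G.lap_mem' hg)
  obtain ⟨B, hB0, b1, b2, b3⟩ : ∃ B : ℝ, 1 ≤ B ∧ B1 ≤ B ∧ B2 ≤ B ∧ B3 ≤ B :=
    ⟨max 1 (max B1 (max B2 B3)), le_max_left _ _,
      (le_max_left _ _).trans (le_max_right _ _),
      ((le_max_left _ _).trans (le_max_right _ _)).trans (le_max_right _ _),
      ((le_max_right _ _).trans (le_max_right _ _)).trans (le_max_right _ _)⟩
  have hBp : 0 < B := by linarith
  set τ : ℝ := 1 / (256 * B ^ 2) with hτdef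
  have hτ0 : 0 < τ := by positivity
  have hτB2 : B ^ 2 * τ = 1 / 256 := by
    rw [hτdef]
    field_simp
  have hτB : τ * B ≤ 1 / 256 := by
    have : τ * B ≤ B ^ 2 * τ := by nlinarith
    linarith
  have hτ1 : τ ≤ 1 / 256 := by
    have : τ * 1 ≤ τ * B := mul_le_mul_of_nonneg_left hB0 hτ0.le
    linarith
  obtain ⟨v, hv, f', hf', hv0, hf'0, heq, c1, c2, c3⟩ := hR ε hε f hf hf0 τ hτ0
  set D : M → ℝ := fun y => f' y - f y with hD
  have hDm : D ∈ G.S := G.sub_mem hf' hf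
  set e : M → ℝ := fun x => D x * g x with hedef
  have he : e ∈ G.S := G.mul_mem D hDm g hg
  have hgB : ∀ x, g x ≤ B := fun x => ((le_abs_self _).trans (hB1 x)).trans b1
  have hggB : ∀ x, G.gam g g x ≤ B := fun x => ((le_abs_self _).trans (hB2 x)).trans b2
  have hlgB : ∀ x, |G.lap g x| ≤ B := fun x => (hB3 x).trans b3
  have e1 : ∀ x, |e x| ≤ 1 / 256 := fun x => by
    simp only [hedef]
    rw [abs_mul, abs_of_pos (hg0 x)]
    exact (mul_le_mul (c1 x) (hgB x) (hg0 x).le hτ0.le).trans hτB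
  have e2 : ∀ x, G.gam e e x ≤ 1 / 8 := fun x => by
    have k1 : G.gam e e x ≤ 2 * (D x ^ 2 * G.gam g g x) + 2 * (g x ^ 2 * G.gam D D x) := by
      simp only [SG.gam, hedef, G.d_mul D hDm g hg, Fin.sum_univ_three]
      nlinarith [sq_nonneg (D x * G.d x 0 g - g x * G.d x 0 D),
        sq_nonneg (D x * G.d x 1 g - g x * G.d x 1 D),
        sq_nonneg (D x * G.d x 2 g - g x * G.d x 2 D)]
    have k2 : D x ^ 2 ≤ τ ^ 2 := by
      rw [← sq_abs (D x)]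
      exact pow_le_pow_left₀ (abs_nonneg _) (c1 x) 2
    have k3 : D x ^ 2 * G.gam g g x ≤ τ ^ 2 * B :=
      mul_le_mul k2 (hggB x) (G.gam_self_nonneg _ _) (sq_nonneg _)
    have k4 : g x ^ 2 * G.gam D D x ≤ B ^ 2 * τ :=
      mul_le_mul (pow_le_pow_left₀ (hg0 x).le (hgB x) 2) (c2 x) (G.gam_self_nonneg _ _)
        (sq_nonneg _)
    have k5 : τ ^ 2 * B ≤ 1 / 256 * (1 / 256) := by
      have : τ ^ 2 * B = τ * (τ * B) := by ring
      rw [this]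
      exact mul_le_mul hτ1 hτB (by positivity) (by norm_num)
    linarith
  have e3 : ∀ x, |G.lap e x| ≤ 1 / 4 := fun x => by
    have k1 : G.lap e x = D x * G.lap g x + g x * G.lap D x + 2 * G.gam D g x :=
      G.lap_mul hDm hg x
    have k2 : |D x * G.lap g x| ≤ τ * B := by
      rw [abs_mul]
      exact mul_le_mul (c1 x) (hlgB x) (abs_nonneg _) hτ0.le
    have k3 : |g x * G.lap D x| ≤ B * τ := by
      rw [abs_mul, abs_of_pos (hg0 x)]
      exact mul_le_mul (hgB x) (c3 x) (abs_nonneg _) hBp.le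
    have k4 : |G.gam D g x| ≤ 1 / 16 := by
      have := G.gam_sq_le D g x
      have k5 : G.gam D D x * G.gam g g x ≤ τ * B :=
        mul_le_mul (c2 x) (hggB x) (G.gam_self_nonneg _ _) hτ0.le
      apply abs_le_of_sq_le_sq _ (by norm_num)
      linarith
    rw [k1]
    obtain ⟨k2a, k2b⟩ := abs_le.1 k2
    obtain ⟨k3a, k3b⟩ := abs_le.1 k3
    obtain ⟨k4a, k4b⟩ := abs_le.1 k4
    rw [abs_le]
    constructor <;> linarith
  obtain ⟨l1, l2, l3⟩ := log_bd G he e1 e2 e3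
  set L : M → ℝ := fun x => Real.log (1 + e x) with hL
  have hfe : ∀ x, f' x = f x * (1 + e x) := fun x => by
    simp only [hedef, hD]
    have := hfg x
    have : f x * (1 + (f' x - f x) * g x) = f x + (f' x - f x) * (f x * g x) := by ring
    rw [this, hfg x]
    ring
  have hp0 : ∀ x, (0 : ℝ) < 1 + e x := fun x => by
    have := (abs_le.1 (e1 x)).1
    linarith
  have hϕ : (fun x => -ε * Real.log (f' x)) = fun x => (1 / δ) * Φ x + (-ε) * L x := by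
    funext x
    rw [hfe x, Real.log_mul (hf0 x).ne' (hp0 x).ne']
    simp only [hfdef, hL, Real.log_exp]
    field_simp
    ring
  have hV := visc_of_resolvent G hε hv hf' hv0 hf'0 heq
  rw [hϕ] at hV
  have hΦs : (fun x => (1 / δ) * Φ x) ∈ G.S := G.smul_mem hΦ _
  have hLs : (fun x => (-ε) * L x) ∈ G.S := G.smul_mem l1 _
  refine ⟨_, _, hV, fun x => ?_, fun x => ?_, fun x => ?_⟩
  · have : (1 / δ) * Φ x + (-ε) * L x - Φ x / δ = -(ε * L x) := by ring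
    rw [this, abs_neg, abs_mul, abs_of_pos hε]
    have := abs_log_le (e1 x)
    calc ε * |L x| ≤ ε * 1 := mul_le_mul_of_nonneg_left this hε.le
      _ = ε := mul_one _
  · have k1 : G.gam (fun x => (1 / δ) * Φ x + (-ε) * L x) (fun x => (1 / δ) * Φ x + (-ε) * L x) x
        ≤ 2 * ((1 / δ) ^ 2 * G.gam Φ Φ x) + 2 * (ε ^ 2 * G.gam L L x) := by
      simp only [SG.gam, G.d_add _ hΦs _ hLs, G.d_smul hΦ, G.d_smul l1, Fin.sum_univ_three]
      nlinarith [sq_nonneg ((1 / δ) * G.d x 0 Φ - (-ε) * G.d x 0 L),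
        sq_nonneg ((1 / δ) * G.d x 1 Φ - (-ε) * G.d x 1 L),
        sq_nonneg ((1 / δ) * G.d x 2 Φ - (-ε) * G.d x 2 L)]
    have k2 : (1 / δ) ^ 2 * G.gam Φ Φ x ≤ (1 / δ) ^ 2 * K :=
      mul_le_mul_of_nonneg_left (h1 x) (sq_nonneg _)
    have k3 : ε ^ 2 * G.gam L L x ≤ 1 * 1 :=
      mul_le_mul (by nlinarith) (l2 x) (G.gam_self_nonneg _ _) (by norm_num)
    have k4 : 2 * ((1 / δ) ^ 2 * K) = 2 * K / δ ^ 2 := by field_simp
    linarith
  · rw [G.lap_add hΦs hLs, G.lap_smul hΦ, G.lap_smul l1]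
    have k1 : |(1 / δ) * G.lap Φ x| ≤ K / δ := by
      rw [abs_mul, abs_of_pos (by positivity : (0 : ℝ) < 1 / δ)]
      calc 1 / δ * |G.lap Φ x| ≤ 1 / δ * K :=
            mul_le_mul_of_nonneg_left (h2 x) (by positivity)
        _ = K / δ := by ring
    have k2 : |(-ε) * G.lap L x| ≤ 1 := by
      rw [abs_mul, abs_neg, abs_of_pos hε]
      calc ε * |G.lap L x| ≤ 1 * 1 := mul_le_mul hε1.le (l3 x) (abs_nonneg _) (by norm_num)
        _ = 1 := one_mul _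
    exact (abs_add_le _ _).trans (add_le_add k1 k2)

theorem exists_fam [CompactSpace M] (G : SG M) (hR : Resolv G) {Φ : M → ℝ} (hΦ : Φ ∈ G.S)
    {δ K : ℝ} (hδ : 0 < δ) (hK : 0 ≤ K) (h1 : ∀ x, G.gam Φ Φ x ≤ K)
    (h2 : ∀ x, |G.lap Φ x| ≤ K) :
    ∃ U ϕ : ℝ → M → ℝ, ∀ ε, 0 < ε → ε < 1 → Visc G ε (U ε) (ϕ ε) ∧
      (∀ x, |ϕ ε x - Φ x / δ| ≤ ε) ∧ (∀ x, G.gam (ϕ ε) (ϕ ε) x ≤ 2 * K / δ ^ 2 + 2) ∧
      (∀ x, |G.lap (ϕ ε) x| ≤ K / δ + 1) := by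
  have key := exists_one G hR hΦ hδ hK h1 h2
  have key2 : ∀ ε : ℝ, ∃ u : M → ℝ, ∃ w : M → ℝ, 0 < ε → ε < 1 → Visc G ε u w ∧
      (∀ x, |w x - Φ x / δ| ≤ ε) ∧ (∀ x, G.gam w w x ≤ 2 * K / δ ^ 2 + 2) ∧
      (∀ x, |G.lap w x| ≤ K / δ + 1) := by
    intro ε
    by_cases h : 0 < ε ∧ ε < 1
    · obtain ⟨u, w, h3⟩ := key ε h.1 h.2
      exact ⟨u, w, fun _ _ => h3⟩
    · exact ⟨fun _ => 0, fun _ => 0, fun a b => absurd ⟨a, b⟩ h⟩
  choose U W h using key2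
  exact ⟨U, W, h⟩

end RFSE
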