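import Pool.Agent.RFS.ENot

/-!
Project RFS, chunk (e), module ERmax: parabolic maximum principle in `SG`.

PROOF. Suppose `u t1 x1 > A` for some `t1 ∈ (0, T]`, `x1`. Take `c > 0` with
`u t1 x1 - c t1 > A`. The continuous function `u t x - c t` on the compact set `[0,T] × M` has a
maximum at `(t2, x2)`, with value `> A`, so `t2 > 0` (at `t = 0` it is `≤ A`). `x2` is a maximum of
`u t2`, so `G.lap (u t2) x2 ≤ 0` (`G.locmax`), hence `u' t2 x2 ≤ 0`. But `s ↦ u s x2 - c s` has on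
`[0,T]` a maximum at `t2 > 0`, so its derivative within `[0,T]` at `t2` is `≥ 0` (difference
quotients from the left): `u' t2 x2 - c ≥ 0`, contradiction.
-/

open Set

namespace RFSE

open MeasureTheory Filter Topology

variable {M : Type*} [TopologicalSpace M] [MeasurableSpace M]

theorem parab_max [CompactSpace M] (G : SG M) {T A : ℝ} (hT : 0 < T) {u u' : ℝ → M → ℝ}
    (hS : ∀ t ∈ Icc 0 T, u t ∈ G.S)
    (hc : ContinuousOn (fun z : ℝ × M => u z.1 z.2) (Icc 0 T ×ˢ univ))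
    (hd : ∀ t ∈ Icc 0 T, ∀ x, HasDerivWithinAt (fun s => u s x) (u' t x) (Icc 0 T) t)
    (hle : ∀ t ∈ Icc 0 T, ∀ x, u' t x ≤ G.lap (u t) x) (h0 : ∀ x, u 0 x ≤ A) :
    ∀ t ∈ Icc 0 T, ∀ x, u t x ≤ A := by
  intro t1 ht1 x1
  by_contra hlt
  push Not at hlt
  -- a small slope `c`
  obtain ⟨c, hc0, hcA⟩ : ∃ c : ℝ, 0 < c ∧ A < u t1 x1 - c * t1 := by
    refine ⟨(u t1 x1 - A) / (2 * (T + 1)), div_pos (by linarith) (by linarith), ?_⟩
    have h1 : (u t1 x1 - A) / (2 * (T + 1)) * t1 ≤ (u t1 x1 - A) / 2 := by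
      rw [div_mul_eq_mul_div, div_le_div_iff₀ (by linarith) (by norm_num)]
      have h2 : (u t1 x1 - A) * t1 ≤ (u t1 x1 - A) * T :=
        mul_le_mul_of_nonneg_left ht1.2 (by linarith)
      nlinarith
    linarith
  obtain ⟨z, hz, hmax⟩ := (isCompact_Icc.prod (isCompact_univ (X := M))).exists_isMaxOn
    (f := fun z : ℝ × M => u z.1 z.2 - c * z.1) ⟨(t1, x1), ⟨ht1, mem_univ _⟩⟩
    (hc.sub (continuous_const.mul continuous_fst).continuousOn)
  obtain ⟨t2, x2⟩ := z
  have ht2 : t2 ∈ Icc 0 T := hz.1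
  have hmax' : ∀ s ∈ Icc 0 T, ∀ y, u s y - c * s ≤ u t2 x2 - c * t2 := fun s hs y =>
    hmax (a := (s, y)) ⟨hs, mem_univ _⟩
  have hval : A < u t2 x2 - c * t2 := lt_of_lt_of_le hcA (hmax' t1 ht1 x1)
  have ht2pos : 0 < t2 := by
    rcases ht2.1.eq_or_lt with h | h
    · rw [← h] at hval
      have := h0 x2
      linarith
    · exact h
  -- the space maximum
  have hlap : G.lap (u t2) x2 ≤ 0 := by
    refine (G.locmax (u t2) (hS t2 ht2) x2 ?_).2
    exact Filter.Eventually.of_forall fun y => by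
      have := hmax' t2 ht2 y
      linarith
  have hu' : u' t2 x2 ≤ 0 := (hle t2 ht2 x2).trans hlap
  -- the time maximum
  have hder : HasDerivWithinAt (fun s => u s x2 - c * s) (u' t2 x2 - c) (Icc 0 T) t2 := by
    have := (hd t2 ht2 x2).sub (((hasDerivWithinAt_id t2 (Icc 0 T)).const_mul c))
    rw [mul_one] at this
    exact this
  have hder2 : HasDerivWithinAt (fun s => u s x2 - c * s) (u' t2 x2 - c) (Ico 0 t2) t2 :=
    hder.mono fun s hs => ⟨hs.1, (hs.2.le.trans ht2.2)⟩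
  have hnn : 0 ≤ u' t2 x2 - c := by
    rw [hasDerivWithinAt_iff_tendsto_slope' (by simp)] at hder2
    have hne : (𝓝[Ico 0 t2] t2).NeBot := by
      rw [← mem_closure_iff_nhdsWithin_neBot, closure_Ico ht2pos.ne]
      exact ⟨ht2pos.le, le_rfl⟩
    refine ge_of_tendsto hder2 ?_
    filter_upwards [self_mem_nhdsWithin] with s hs
    rw [slope_def_field]
    have h3 := hmax' s ⟨hs.1, hs.2.le.trans ht2.2⟩ x2
    exact div_nonneg_of_nonpos (by linarith) (by linarith [hs.2])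
  linarith

end RFSE
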