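import Pool.Agent.RFS.EChart
import Pool.Agent.RFS.EPar
import Pool.Agent.RFS.ERmax
import Pool.Agent.RFS.FSM

/-!
Project RFS, chunk (e), module ERheat: facts about solutions of the heat equation.

PROOFS. (`EPar` gives the joint smoothness of space derivatives and the exchange of `∂_t` with them.)
* `slice`: restriction of a jointly smooth function to `{t} × target`.
* `cont`: continuity of `(t,x) ↦ F t x` on `[0,T] × M`: locally in charts (`e.symm`, `e` are
  homeomorphisms between open sets).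
* `lap_heat`: in each chart `lapC g (F t) e x` is a jointly smooth function of `(t,x)`
  (`contDiffOn_fderiv_snd` twice; coefficients of `g` smooth: `contDiffOn_inv`, `contDiffOn_chr` in
  FSM), equal to `G.lap (F t) (e.symm x)`, and its time derivative is `lapC` applied to
  `∂_t F = G.lap (F t)` (`hasDerivWithinAt_fderiv_snd` twice).
* `sup_bd`, `lap_bd`: `parab_max` for `F`, `-F` and for `ΔF`, `-ΔF`.
* `gam_bd`: `w t := G.gam (F t) (F t)`; jointly smooth in charts,
  `∂_t w = 2 G.gam (F t) (Δ F t)` (product rule in the chart formula `gamC`), and by Bochner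
  `2 G.gam (F t) (Δ F t) = Δ w - 2|A|² - 2 Ric(∇F,∇F) ≤ Δ w`; `parab_max`.
-/

open scoped Manifold ContDiff Matrix
open Set MeasureTheory

noncomputable section

namespace Pool.Agent.RFS.EE

open RFSE

private theorem ERheat_pd_joint {U : Set E3} (hU : IsOpen U) {T : ℝ} (hT : 0 < T)
    {h : ℝ × E3 → ℝ} (hh : ContDiffOn ℝ ∞ h (Icc 0 T ×ˢ U)) (k : Fin 3) :
    ContDiffOn ℝ ∞ (fun z : ℝ × E3 => pd k (fun y => h (z.1, y)) z.2) (Icc 0 T ×ˢ U) :=
  (contDiffOn_fderiv_snd hU hT hh).clm_apply contDiffOn_const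

private theorem ERheat_pd_time {U : Set E3} (hU : IsOpen U) {T : ℝ} (hT : 0 < T)
    {h : ℝ × E3 → ℝ} (hh : ContDiffOn ℝ ∞ h (Icc 0 T ×ˢ U)) {V : E3 → ℝ} {t : ℝ}
    (ht : t ∈ Icc 0 T)
    (hV : ∀ y ∈ U, HasDerivWithinAt (fun s => h (s, y)) (V y) (Icc 0 T) t) {x : E3} (hx : x ∈ U)
    (k : Fin 3) :
    HasDerivWithinAt (fun s => pd k (fun y => h (s, y)) x) (pd k V x) (Icc 0 T) t := by
  have h1 := hasDerivWithinAt_fderiv_snd hU hT hh hx ht (bv k)
  have he : (fun y => derivWithin (fun s => h (s, y)) (Icc 0 T) t) =ᶠ[nhds x] V := by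
    filter_upwards [hU.mem_nhds hx] with y hy
    exact (hV y hy).derivWithin ((uniqueDiffOn_Icc hT) t ht)
  rw [he.fderiv_eq] at h1
  exact h1

private theorem ERheat_inv {M : Type*} [TopologicalSpace M] [ChartedSpace E3 M] (g : RMetric M)
    (e : Ch M) (T : ℝ) (k l : Fin 3) :
    ContDiffOn ℝ ∞ (fun z : ℝ × E3 => (g.c e z.2)⁻¹ k l) (Icc 0 T ×ˢ e.1.target) := by
  have h1 : ContDiffOn ℝ ∞ (fun x : E3 => (g.c e x)⁻¹ k l) e.1.target :=
    contDiffOn_inv (g.smooth e) (fun x hx => (g.pos e x hx).det_pos.ne') k l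
  exact h1.comp contDiffOn_snd fun z hz => hz.2

private theorem ERheat_chr {M : Type*} [TopologicalSpace M] [ChartedSpace E3 M] (g : RMetric M)
    (e : Ch M) (T : ℝ) (m k l : Fin 3) :
    ContDiffOn ℝ ∞ (fun z : ℝ × E3 => chr (g.c e) z.2 m k l) (Icc 0 T ×ˢ e.1.target) := by
  have h1 : ContDiffOn ℝ ∞ (fun x : E3 => chr (g.c e) x m k l) e.1.target :=
    contDiffOn_chr e.1.open_target (g.smooth e) (fun x hx => (g.pos e x hx).det_pos.ne') m k l
  exact h1.comp contDiffOn_snd fun z hz => hz.2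

private theorem ERheat_cont {M : Type*} [TopologicalSpace M] [ChartedSpace E3 M] {T : ℝ}
    {u : ℝ → M → ℝ} (h : ∀ e : Ch M, ContinuousOn (fun z : ℝ × E3 => u z.1 (e.1.symm z.2))
      (Icc 0 T ×ˢ e.1.target)) :
    ContinuousOn (fun z : ℝ × M => u z.1 z.2) (Icc 0 T ×ˢ univ) := by
  rintro ⟨t, p⟩ ⟨ht, -⟩
  set e : Ch M := ⟨chartAt E3 p, chart_mem_atlas E3 p⟩ with he
  have hp : p ∈ e.1.source := mem_chart_source E3 p
  have h1 : ContinuousOn (fun z : ℝ × M => ((z.1, e.1 z.2) : ℝ × E3)) (Icc 0 T ×ˢ e.1.source) :=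
    continuousOn_fst.prodMk (e.1.continuousOn.comp continuousOn_snd fun z hz => hz.2)
  have h2 : ContinuousOn (fun z : ℝ × M => u z.1 (e.1.symm (e.1 z.2)))
      (Icc 0 T ×ˢ e.1.source) :=
    (h e).comp h1 fun z hz => ⟨hz.1, e.1.map_source hz.2⟩
  have h3 : ContinuousOn (fun z : ℝ × M => u z.1 z.2) (Icc 0 T ×ˢ e.1.source) :=
    h2.congr fun z hz => by
      show u z.1 z.2 = u z.1 (e.1.symm (e.1 z.2))
      rw [e.1.left_inv hz.2]
  have h4 := h3 (t, p) ⟨ht, hp⟩
  refine h4.mono_of_mem_nhdsWithin ?_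
  have h5 : (univ : Set ℝ) ×ˢ e.1.source ∈ nhds (t, p) :=
    (isOpen_univ.prod e.1.open_source).mem_nhds ⟨mem_univ _, hp⟩
  filter_upwards [mem_nhdsWithin_of_mem_nhds h5, self_mem_nhdsWithin] with z hz1 hz2
  exact ⟨hz2.1, hz1.2⟩

private theorem ERheat_neg {M : Type*} [TopologicalSpace M] [MeasurableSpace M] (G : SG M)
    {u : M → ℝ} (hu : u ∈ G.S) : (fun x => -u x) ∈ G.S ∧
      ∀ x, G.lap (fun x => -u x) x = -G.lap u x := by
  have h1 : (fun x => -u x) ∈ G.S := by
    have := G.mul_mem _ (G.const_mem (-1)) u hu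
    have he : (fun x => (fun _ : M => (-1 : ℝ)) x * u x) = fun x => -u x := by
      funext x; simp
    rwa [he] at this
  refine ⟨h1, fun x => ?_⟩
  have h0 : ∀ i, G.H x i i (fun _ => (0 : ℝ)) = 0 := by
    intro i
    have := G.H_add _ (G.const_mem 0) _ (G.const_mem 0) x i i
    have he : (fun y : M => (fun _ : M => (0 : ℝ)) y + (fun _ : M => (0 : ℝ)) y)
        = fun _ => (0 : ℝ) := by
      funext y; simp
    rw [he] at this
    linarith
  have h2 : ∀ i, G.H x i i (fun y => -u y) = -G.H x i i u := by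
    intro i
    have := G.H_add u hu _ h1 x i i
    have he : (fun y : M => u y + (fun x => -u x) y) = fun _ => (0 : ℝ) := by
      funext y; simp
    rw [he, h0 i] at this
    linarith
  unfold SG.lap
  simp only [h2, Finset.sum_neg_distrib]

variable {M : Type*} [TopologicalSpace M] [ChartedSpace E3 M] [IsManifold (𝓡 3) ∞ M]
  [CompactSpace M] [T2Space M] [MeasurableSpace M] [BorelSpace M]

namespace IsHeat

variable {g : RMetric M} {μ : Measure M} {G : SG M} {T : ℝ} {F : ℝ → M → ℝ}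

theorem slice (hF : IsHeat g T F) {t : ℝ} (ht : t ∈ Icc 0 T) : Sm (F t) := by
  intro e
  have h1 : ContDiffOn ℝ ∞ (fun x : E3 => ((t, x) : ℝ × E3)) e.1.target :=
    contDiffOn_const.prodMk contDiffOn_id
  exact (hF.smooth e).comp h1 fun x hx => ⟨ht, hx⟩

theorem cont (hF : IsHeat g T F) :
    ContinuousOn (fun z : ℝ × M => F z.1 z.2) (Icc 0 T ×ˢ univ) :=
  ERheat_cont fun e => (hF.smooth e).continuousOn

omit [IsManifold (𝓡 3) ∞ M] [CompactSpace M] [T2Space M] [BorelSpace M] in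
private theorem ERheat_at (hG : IsSG g μ G) (hF : IsHeat g T F)
    (hs : ∀ t ∈ Icc 0 T, Sm (F t)) {t : ℝ} (ht : t ∈ Icc 0 T) (e : Ch M) {x : E3}
    (hx : x ∈ e.1.target) :
    HasDerivWithinAt (fun s => F s (e.1.symm x)) (G.lap (F t) (e.1.symm x)) (Icc 0 T) t := by
  rw [hG.lap_eq (F t) (hs t ht) e x hx]
  exact hF.eqn e x hx t ht

omit [IsManifold (𝓡 3) ∞ M] [CompactSpace M] [T2Space M] [BorelSpace M] in
private theorem ERheat_pd (hG : IsSG g μ G) (hT : 0 < T) (hF : IsHeat g T F)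
    (hs : ∀ t ∈ Icc 0 T, Sm (F t)) {t : ℝ} (ht : t ∈ Icc 0 T) (e : Ch M) (m : Fin 3) {x : E3}
    (hx : x ∈ e.1.target) :
    HasDerivWithinAt (fun s => pd m (loc (F s) e) x) (pd m (loc (G.lap (F t)) e) x)
      (Icc 0 T) t :=
  ERheat_pd_time e.1.open_target hT (hF.smooth e) ht
    (fun _ hy => ERheat_at hG hF hs ht e hy) hx m

theorem lap_heat (hG : IsSG g μ G) (hT : 0 < T) (hF : IsHeat g T F) :
    IsHeat g T (fun t => G.lap (F t)) := by
  have hs : ∀ t ∈ Icc 0 T, Sm (F t) := fun t ht => hF.slice ht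
  refine ⟨fun e => ?_, fun e x hx t ht => ?_⟩
  · have h1 : ContDiffOn ℝ ∞ (fun z : ℝ × E3 => lapC g (F z.1) e z.2)
        (Icc 0 T ×ˢ e.1.target) := by
      unfold lapC
      refine ContDiffOn.sum fun k _ => ContDiffOn.sum fun l _ => (ERheat_inv g e T k l).mul
        (ContDiffOn.sub ?_ (ContDiffOn.sum fun m _ => (ERheat_chr g e T m k l).mul ?_))
      · exact ERheat_pd_joint e.1.open_target hT
          (ERheat_pd_joint e.1.open_target hT (hF.smooth e) l) k
      · exact ERheat_pd_joint e.1.open_target hT (hF.smooth e) m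
    exact h1.congr fun z hz => hG.lap_eq _ (hs z.1 hz.1) e z.2 hz.2
  · have h2 : ∀ k l, HasDerivWithinAt (fun s => pd k (fun y => pd l (loc (F s) e) y) x)
        (pd k (fun y => pd l (loc (G.lap (F t)) e) y) x) (Icc 0 T) t := fun k l =>
      ERheat_pd_time e.1.open_target hT
        (ERheat_pd_joint e.1.open_target hT (hF.smooth e) l) ht
        (fun _ hy => ERheat_pd hG hT hF hs ht e l hy) hx k
    have h3 : HasDerivWithinAt (fun s => lapC g (F s) e x) (lapC g (G.lap (F t)) e x)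
        (Icc 0 T) t := by
      unfold lapC
      exact HasDerivWithinAt.fun_sum fun k _ => HasDerivWithinAt.fun_sum fun l _ =>
        ((h2 k l).sub (HasDerivWithinAt.fun_sum fun m _ =>
          (ERheat_pd hG hT hF hs ht e m hx).const_mul _)).const_mul _
    refine h3.congr (fun s hs' => ?_) ?_
    · exact hG.lap_eq _ (hs s hs') e x hx
    · exact hG.lap_eq _ (hs t ht) e x hx

omit [IsManifold (𝓡 3) ∞ M] [CompactSpace M] [T2Space M] [BorelSpace M] in
private theorem ERheat_pt (hG : IsSG g μ G) (hF : IsHeat g T F)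
    (hs : ∀ t ∈ Icc 0 T, Sm (F t)) {t : ℝ} (ht : t ∈ Icc 0 T) (p : M) :
    HasDerivWithinAt (fun s => F s p) (G.lap (F t) p) (Icc 0 T) t := by
  set e : Ch M := ⟨chartAt E3 p, chart_mem_atlas E3 p⟩ with he
  have hp : p ∈ e.1.source := mem_chart_source E3 p
  have h1 := ERheat_at (M := M) hG hF hs ht e (e.1.map_source hp)
  rw [e.1.left_inv hp] at h1
  exact h1

theorem sup_bd (hG : IsSG g μ G) (hT : 0 < T) (hF : IsHeat g T F) {A B : ℝ}
    (h0 : ∀ x, A ≤ F 0 x ∧ F 0 x ≤ B) : ∀ t ∈ Icc 0 T, ∀ x, A ≤ F t x ∧ F t x ≤ B := by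
  have hs : ∀ t ∈ Icc 0 T, Sm (F t) := fun t ht => hF.slice ht
  have hS : ∀ t ∈ Icc 0 T, F t ∈ G.S := fun t ht => (hG.S_iff _).mpr (hs t ht)
  have h1 := parab_max G hT (u := F) (u' := fun t => G.lap (F t)) (A := B) hS hF.cont
    (fun t ht x => ERheat_pt hG hF hs ht x) (fun t ht x => le_rfl) (fun x => (h0 x).2)
  have h2 := parab_max G hT (u := fun t x => -F t x) (u' := fun t x => -G.lap (F t) x)
    (A := -A) (fun t ht => (ERheat_neg G (hS t ht)).1) hF.cont.neg
    (fun t ht x => (ERheat_pt hG hF hs ht x).neg)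
    (fun t ht x => ((ERheat_neg G (hS t ht)).2 x).ge) (fun x => neg_le_neg (h0 x).1)
  exact fun t ht x => ⟨neg_le_neg_iff.mp (h2 t ht x), h1 t ht x⟩

theorem gam_bd (hG : IsSG g μ G) (hT : 0 < T) (hF : IsHeat g T F) (hRic : ∀ x, G.RicGe 0 x)
    {A : ℝ} (h0 : ∀ x, G.gam (F 0) (F 0) x ≤ A) :
    ∀ t ∈ Icc 0 T, ∀ x, G.gam (F t) (F t) x ≤ A := by
  have hs : ∀ t ∈ Icc 0 T, Sm (F t) := fun t ht => hF.slice ht
  have hS : ∀ t ∈ Icc 0 T, F t ∈ G.S := fun t ht => (hG.S_iff _).mpr (hs t ht)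
  have hsl : ∀ t ∈ Icc 0 T, Sm (G.lap (F t)) := fun t ht => (hF.lap_heat hG hT).slice ht
  have hc : ContinuousOn (fun z : ℝ × M => G.gam (F z.1) (F z.1) z.2) (Icc 0 T ×ˢ univ) := by
    refine ERheat_cont (u := fun t => G.gam (F t) (F t)) fun e => ?_
    have h1 : ContDiffOn ℝ ∞ (fun z : ℝ × E3 => gamC g (F z.1) (F z.1) e z.2)
        (Icc 0 T ×ˢ e.1.target) := by
      unfold gamC
      exact ContDiffOn.sum fun k _ => ContDiffOn.sum fun l _ => (ERheat_inv g e T k l).mul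
        ((ERheat_pd_joint e.1.open_target hT (hF.smooth e) k).mul
          (ERheat_pd_joint e.1.open_target hT (hF.smooth e) l))
    exact h1.continuousOn.congr fun z hz => hG.gam_eq _ _ (hs z.1 hz.1) (hs z.1 hz.1) e z.2 hz.2
  have hd : ∀ t ∈ Icc 0 T, ∀ x, HasDerivWithinAt (fun s => G.gam (F s) (F s) x)
      (2 * G.gam (F t) (G.lap (F t)) x) (Icc 0 T) t := by
    intro t ht p
    set e : Ch M := ⟨chartAt E3 p, chart_mem_atlas E3 p⟩ with he
    have hp : p ∈ e.1.source := mem_chart_source E3 p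
    set x := e.1 p with hx0
    have hx : x ∈ e.1.target := e.1.map_source hp
    have hpx : e.1.symm x = p := e.1.left_inv hp
    have h1 : HasDerivWithinAt (fun s => gamC g (F s) (F s) e x)
        (gamC g (G.lap (F t)) (F t) e x + gamC g (F t) (G.lap (F t)) e x) (Icc 0 T) t := by
      unfold gamC
      rw [← Finset.sum_add_distrib]
      refine HasDerivWithinAt.fun_sum fun k _ => ?_
      rw [← Finset.sum_add_distrib]
      refine HasDerivWithinAt.fun_sum fun l _ => ?_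
      rw [← mul_add]
      exact ((ERheat_pd hG hT hF hs ht e k hx).mul
        (ERheat_pd hG hT hF hs ht e l hx)).const_mul _
    have h2 : gamC g (G.lap (F t)) (F t) e x + gamC g (F t) (G.lap (F t)) e x =
        2 * G.gam (F t) (G.lap (F t)) p := by
      rw [← hG.gam_eq _ _ (hsl t ht) (hs t ht) e x hx, ← hG.gam_eq _ _ (hs t ht) (hsl t ht) e x hx,
        hpx]
      have h3 : G.gam (G.lap (F t)) (F t) p = G.gam (F t) (G.lap (F t)) p := by
        unfold SG.gam
        exact Finset.sum_congr rfl fun i _ => mul_comm _ _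
      rw [h3]; ring
    rw [h2] at h1
    refine h1.congr (fun s hs' => ?_) ?_
    · rw [← hG.gam_eq _ _ (hs s hs') (hs s hs') e x hx, hpx]
    · rw [← hG.gam_eq _ _ (hs t ht) (hs t ht) e x hx, hpx]
  refine parab_max G hT (u := fun t => G.gam (F t) (F t))
    (u' := fun t x => 2 * G.gam (F t) (G.lap (F t)) x)
    (fun t ht => G.gam_mem _ (hS t ht) _ (hS t ht)) hc hd ?_ h0
  intro t ht x
  have hb := G.bochner (F t) (hS t ht) x
  have hr := hRic x (fun i => G.d x i (F t))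
  have hsq : 0 ≤ ∑ i, ∑ j, G.H x i j (F t) ^ 2 :=
    Finset.sum_nonneg fun i _ => Finset.sum_nonneg fun j _ => sq_nonneg _
  have e1 : G.lap (G.gam (F t) (F t)) x =
      ∑ j, G.H x j j (fun y => ∑ i, G.d y i (F t) * G.d y i (F t)) := rfl
  have e2 : G.gam (F t) (G.lap (F t)) x =
      ∑ i, G.d x i (F t) * G.d x i (fun y => ∑ j, G.H y j j (F t)) := rfl
  show 2 * G.gam (F t) (G.lap (F t)) x ≤ G.lap (G.gam (F t) (F t)) x
  rw [e1, e2, hb]
  rw [zero_mul] at hr
  linarith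

end IsHeat

end Pool.Agent.RFS.EE
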