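import Mathlib

/-!
Project RFS, chunk (e): abstract scalar calculus of a closed Riemannian 3-manifold.

`SG M` : smooth functions `S`, first and second covariant derivatives `d x i u`, `H x i j u` of
`u` at `x` in a fixed orthonormal frame at `x`, Ricci tensor in the same frame, product and
chain rules, Bochner formula, local maximum principle, a finite measure for which the integral
of every Laplacian vanishes.
-/

namespace RFSE

open MeasureTheory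

structure SG (M : Type*) [TopologicalSpace M] [MeasurableSpace M] where
  S : Set (M → ℝ)
  μ : Measure M
  d : M → Fin 3 → (M → ℝ) → ℝ
  H : M → Fin 3 → Fin 3 → (M → ℝ) → ℝ
  Ric : M → Fin 3 → Fin 3 → ℝ
  cont : ∀ u ∈ S, Continuous u
  const_mem : ∀ c : ℝ, (fun _ => c) ∈ S
  add_mem : ∀ u ∈ S, ∀ v ∈ S, (fun x => u x + v x) ∈ S
  mul_mem : ∀ u ∈ S, ∀ v ∈ S, (fun x => u x * v x) ∈ S
  comp_mem : ∀ u ∈ S, ∀ f : ℝ → ℝ, (∀ x, ContDiffAt ℝ (⊤ : ℕ∞) f (u x)) →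
    (fun x => f (u x)) ∈ S
  d_add : ∀ u ∈ S, ∀ v ∈ S, ∀ x i, d x i (fun y => u y + v y) = d x i u + d x i v
  d_mul : ∀ u ∈ S, ∀ v ∈ S, ∀ x i,
    d x i (fun y => u y * v y) = u x * d x i v + v x * d x i u
  d_comp : ∀ u ∈ S, ∀ f : ℝ → ℝ, (∀ x, ContDiffAt ℝ (⊤ : ℕ∞) f (u x)) → ∀ x i,
    d x i (fun y => f (u y)) = deriv f (u x) * d x i u
  H_symm : ∀ u ∈ S, ∀ x i j, H x i j u = H x j i u
  H_add : ∀ u ∈ S, ∀ v ∈ S, ∀ x i j, H x i j (fun y => u y + v y) = H x i j u + H x i j v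
  H_mul : ∀ u ∈ S, ∀ v ∈ S, ∀ x i j, H x i j (fun y => u y * v y) =
    u x * H x i j v + v x * H x i j u + d x i u * d x j v + d x j u * d x i v
  H_comp : ∀ u ∈ S, ∀ f : ℝ → ℝ, (∀ x, ContDiffAt ℝ (⊤ : ℕ∞) f (u x)) → ∀ x i j,
    H x i j (fun y => f (u y)) =
      deriv (deriv f) (u x) * (d x i u * d x j u) + deriv f (u x) * H x i j u
  gam_mem : ∀ u ∈ S, ∀ v ∈ S, (fun x => ∑ i, d x i u * d x i v) ∈ S
  lap_mem : ∀ u ∈ S, (fun x => ∑ i, H x i i u) ∈ S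
  d_gam : ∀ u ∈ S, ∀ x j,
    d x j (fun y => ∑ i, d y i u * d y i u) = 2 * ∑ i, d x i u * H x j i u
  bochner : ∀ u ∈ S, ∀ x,
    (∑ j, H x j j (fun y => ∑ i, d y i u * d y i u)) =
      2 * (∑ i, ∑ j, H x i j u ^ 2) +
      2 * (∑ i, d x i u * d x i (fun y => ∑ j, H y j j u)) +
      2 * (∑ i, ∑ j, Ric x i j * (d x i u * d x j u))
  locmax : ∀ u ∈ S, ∀ x, IsLocalMax u x → (∀ i, d x i u = 0) ∧ ∑ i, H x i i u ≤ 0
  fin : IsFiniteMeasure μ
  int_lap : ∀ u ∈ S, ∫ x, (∑ i, H x i i u) ∂μ = 0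

namespace SG

variable {M : Type*} [TopologicalSpace M] [MeasurableSpace M] (G : SG M)

/-- Laplacian -/
def lap (u : M → ℝ) : M → ℝ := fun x => ∑ i, G.H x i i u

/-- scalar product of gradients -/
def gam (u v : M → ℝ) : M → ℝ := fun x => ∑ i, G.d x i u * G.d x i v

/-- `Ric ≥ c` at the point `x` -/
def RicGe (c : ℝ) (x : M) : Prop :=
  ∀ b : Fin 3 → ℝ, c * ∑ i, b i * b i ≤ ∑ i, ∑ j, G.Ric x i j * (b i * b j)

end SG

end RFSE
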