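import Pool.Agent.RFS.EPhi
import Pool.Agent.RFS.EOsc

/-!
Project RFS, chunk (e), module ESet: existence of the `Setup`.

PROOF. `Φ := N/2`, `K ≥ 1` a common bound of `|∇Φ|²`, `|ΔΦ|` (continuous on compact `M`), `D` from
`osc_bound`, `r1` from `hN.near (1/20)`. `δ0` small: `δ ≤ 1/4`, `√k δ ≤ 1`, `4 δ < π/√k`,
`r1²/(2 δ) ≥ D + 4`. Family from `exists_fam` (note `Φ/δ = N/(2δ)`). `C := K/δ + 1`,
`Kϕ := 2K/δ² + K/δ + 3`, `b := 1/C ≤ δ` (since `K ≥ 1`), `a := 4δ - b`.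
* init: `y := √k b ≤ 1`, `P(4δ) = sin² y/k`, `Q(4δ) = 2 sin y cos y/√k`, `cos y ≥ cos 1 ≥ 1/2`,
  `sin y ≤ y`, `C y = √k`: `C sin² y/k ≤ C y sin y/k = sin y/√k ≤ 2 sin y cos y/√k`.
* visc, near, gamϕ, lapϕ: from the family, `lapu`: `Visc.lap_le` with `RicGe 0` and
  `G.lap (ϕ ε) ≤ K/δ + 1`.
* up: `Visc.upper`: `U ε p ≤ ϕ ε p + ε² C ≤ ε + ε² C` (`N p = 0`).
* sep: `Visc.gam_le`: `|∇U|² ≤ 1 + ε C ≤ B²`, `B := 1 + ε C`, and `≤ 2` for small `ε`. Let
  `4δ ≤ U ε x`. If `N x < r1²`, `r := √(N x)`: `U ε x ≤ (ε + ε² C) + (1 + ε C)(1 + 1/20) r`.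
  For small `ε` (`r < r1`) this is `≤ 1.1 r + δ/100`, so `r ≥ 3.5 δ`, and
  `ϕ - U ≥ r²/(2δ) - ε - 1.1 r - δ/100 ≥ δ` (since `r²/(2δ) - 1.1 r ≥ 2.2 δ` for `r ≥ 3.5 δ`).
  If `N x ≥ r1²`: `ϕ ≥ r1²/(2δ) - ε ≥ D + 3`, `U ε x ≤ U ε p + D ≤ D + 1`.
-/

namespace RFSE

open MeasureTheory Filter Topology

variable {M : Type*} [TopologicalSpace M] [MeasurableSpace M]

private lemma eset_ev {P : ℝ → Prop} {ε1 : ℝ} (h1 : 0 < ε1) (h : ∀ ε, 0 < ε → ε < ε1 → P ε) :
    ∀ᶠ ε in 𝓝[>] (0 : ℝ), P ε := by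
  filter_upwards [Ioo_mem_nhdsGT h1] with ε hε
  exact h ε hε.1 hε.2

omit [MeasurableSpace M] in
private lemma eset_bd [CompactSpace M] {f : M → ℝ} (hf : Continuous f) : ∃ K, ∀ x, f x ≤ K := by
  obtain ⟨K, hK⟩ := (isCompact_range hf).bddAbove
  exact ⟨K, fun x => hK ⟨x, rfl⟩⟩

/-- The initial condition. -/
private lemma eset_init {k b δ : ℝ} (hk : 0 < k) (hb : 0 < b) (hb1 : √k * b ≤ 1) :
    PP k (4 * δ - b) (4 * δ) * (1 / b) ≤ QQ k (4 * δ - b) (4 * δ) := by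
  have hk4 : 0 < √k := Real.sqrt_pos.2 hk
  have hsq : √k * √k = k := Real.mul_self_sqrt hk.le
  have hy0 : 0 < √k * b := mul_pos hk4 hb
  have hpi := Real.pi_gt_three
  have harg : √k * (4 * δ - (4 * δ - b)) = √k * b := by ring
  unfold PP QQ
  rw [harg, Real.sin_two_mul]
  have hsin : 0 < Real.sin (√k * b) := Real.sin_pos_of_pos_of_lt_pi hy0 (by linarith)
  have hsin2 : Real.sin (√k * b) ≤ √k * b := Real.sin_le hy0.le
  have hcos : 1 / 2 ≤ Real.cos (√k * b) := by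
    have h := Real.one_sub_sq_div_two_le_cos (x := √k * b)
    have h2 : (√k * b) ^ 2 ≤ 1 := pow_le_one₀ hy0.le hb1
    linarith
  have h1 : Real.sin (√k * b) ^ 2 / k * (1 / b) =
      Real.sin (√k * b) * (Real.sin (√k * b) / (√k * b)) / √k := by
    have h0 : ∀ q S : ℝ, 0 < q → S ^ 2 / (q * q) * (1 / b) = S * (S / (q * b)) / q := by
      intro q S hq
      field_simp
    have h := h0 (√k) (Real.sin (√k * b)) hk4
    rw [hsq] at h
    exact h
  rw [h1]
  apply div_le_div_of_nonneg_right _ hk4.le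
  have h2 : Real.sin (√k * b) / (√k * b) ≤ 1 := (div_le_one hy0).2 hsin2
  have h3 : Real.sin (√k * b) * (Real.sin (√k * b) / (√k * b)) ≤ Real.sin (√k * b) * 1 :=
    mul_le_mul_of_nonneg_left h2 hsin.le
  have h4 : Real.sin (√k * b) * (1 / 2) ≤ Real.sin (√k * b) * Real.cos (√k * b) :=
    mul_le_mul_of_nonneg_left hcos hsin.le
  linarith

theorem exists_setup [CompactSpace M] [ConnectedSpace M] (G : SG M) (hE : Equi G)
    (hR : Resolv G) (hRic : ∀ x, G.RicGe 0 x) {p : M} {N : M → ℝ} (hN : LocN G p N)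
    {k : ℝ} (hk : 0 < k) :
    ∃ δ0 > 0, ∀ δ, 0 < δ → δ < δ0 → ∃ (a C Kϕ : ℝ) (U ϕ : ℝ → M → ℝ),
      Setup G p N k δ a C Kϕ U ϕ := by
  have hk4 : 0 < √k := Real.sqrt_pos.2 hk
  have hΦ : (fun x => (1 / 2 : ℝ) * N x) ∈ G.S := G.smul_mem hN.mem _
  set Φ : M → ℝ := fun x => (1 / 2 : ℝ) * N x with hΦd
  have hN0 : ∀ x, 0 ≤ N x := by
    intro x
    by_cases h : x = p
    · rw [h, hN.zero]
    · exact (hN.pos x h).le
  obtain ⟨K1, hK1⟩ := eset_bd (G.cont _ (G.gam_mem' hΦ hΦ))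
  obtain ⟨K2, hK2⟩ := eset_bd (G.cont _ (G.lap_mem' hΦ))
  obtain ⟨K3, hK3⟩ := eset_bd (G.cont _ (G.lap_mem' hΦ)).neg
  obtain ⟨K, hK0, hKg, hKl⟩ : ∃ K : ℝ, 1 ≤ K ∧ (∀ x, G.gam Φ Φ x ≤ K) ∧
      ∀ x, |G.lap Φ x| ≤ K := by
    refine ⟨max 1 (max K1 (max K2 K3)), le_max_left _ _, fun x => ?_, fun x => ?_⟩
    · exact (hK1 x).trans ((le_max_left _ _).trans (le_max_right _ _))
    · rw [abs_le]
      have h1 : max K2 K3 ≤ max 1 (max K1 (max K2 K3)) :=
        (le_max_right _ _).trans (le_max_right _ _)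
      have h2 := hK2 x
      have h3 : -G.lap Φ x ≤ K3 := hK3 x
      have h4 := le_max_left K2 K3
      have h5 := le_max_right K2 K3
      constructor <;> linarith
  obtain ⟨D, hD0, hD⟩ := osc_bound G hE
  obtain ⟨r1, hr1, -, hnear, -⟩ := hN.near (1 / 20) (by norm_num)
  refine ⟨min (1 / 4) (min (1 / √k) (r1 ^ 2 / (2 * (D + 4)))), by positivity, ?_⟩
  intro δ hδ hδ0
  have hδ1 : δ < 1 / 4 := lt_of_lt_of_le hδ0 (min_le_left _ _)
  have hδ2 : √k * δ < 1 := by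
    have h := lt_of_lt_of_le hδ0 ((min_le_right _ _).trans (min_le_left _ _))
    rw [lt_div_iff₀ hk4] at h
    linarith
  have hδ3 : D + 4 ≤ r1 ^ 2 / (2 * δ) := by
    have h := lt_of_lt_of_le hδ0 ((min_le_right _ _).trans (min_le_right _ _))
    rw [lt_div_iff₀ (by positivity)] at h
    rw [le_div_iff₀ (by positivity)]
    linarith
  obtain ⟨U, ϕ, hfam⟩ := exists_fam G hR hΦ hδ (by linarith : (0 : ℝ) ≤ K) hKg hKl
  -- constants
  set C : ℝ := K / δ + 1 with hC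
  have hKδ : 0 < K / δ := by positivity
  have hC0 : 0 < C := by rw [hC]; linarith
  have hb0 : 0 < 1 / C := by positivity
  have hbδ : 1 / C ≤ δ := by
    rw [div_le_iff₀ hC0, hC]
    have : δ * (K / δ + 1) = K + δ := by field_simp
    rw [this]; linarith
  have hkb : √k * (1 / C) ≤ 1 := by
    have := mul_le_mul_of_nonneg_left hbδ hk4.le
    linarith
  have hpi := Real.pi_gt_three
  have hlapϕ : ∀ ε, 0 < ε → ε < 1 → ∀ x, G.lap (ϕ ε) x ≤ C := fun ε h0 h1 x =>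
    (le_abs_self _).trans ((hfam ε h0 h1).2.2.2 x)
  have hlapu : ∀ ε, 0 < ε → ε < 1 → ∀ x, G.lap (U ε) x ≤ C := fun ε h0 h1 =>
    (hfam ε h0 h1).1.lap_le hRic (hlapϕ ε h0 h1)
  have hnearϕ : ∀ ε, 0 < ε → ε < 1 → ∀ x, |ϕ ε x - N x / (2 * δ)| ≤ ε := by
    intro ε h0 h1 x
    have h2 := (hfam ε h0 h1).2.1 x
    have h3 : Φ x / δ = N x / (2 * δ) := by
      rw [hΦd]; field_simp
    rw [h3] at h2
    exact h2
  have hup : ∀ ε, 0 < ε → ε < 1 → U ε p ≤ ε * (1 + C) := by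
    intro ε h0 h1
    have h2 := (hfam ε h0 h1).1.upper (hlapϕ ε h0 h1) p
    have h3 := (abs_le.1 (hnearϕ ε h0 h1 p)).2
    rw [hN.zero, zero_div, sub_zero] at h3
    have h4 : ε ^ 2 * C ≤ ε * C := by
      have : ε ^ 2 ≤ ε := by nlinarith
      exact mul_le_mul_of_nonneg_right this hC0.le
    linarith
  refine ⟨4 * δ - 1 / C, C, 2 * K / δ ^ 2 + K / δ + 3, U, ϕ, ?_⟩
  have hKK : 0 < 2 * K / δ ^ 2 := by positivity
  refine
    { hδ := hδ
      a0 := by linarith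
      a1 := by linarith
      a2 := ?_
      C0 := hC0.le
      K0 := by linarith
      init := ?_
      visc := eset_ev one_pos fun ε h0 h1 => (hfam ε h0 h1).1
      near := eset_ev one_pos hnearϕ
      gamϕ := eset_ev one_pos fun ε h0 h1 x => by
        have := (hfam ε h0 h1).2.2.1 x
        linarith
      lapϕ := eset_ev one_pos fun ε h0 h1 x => by
        have := (hfam ε h0 h1).2.2.2 x
        linarith
      lapu := eset_ev one_pos hlapu
      sep := ?_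
      up := ?_ }
  · have h1 : 1 / C < Real.pi / √k := by
      rw [lt_div_iff₀ hk4]
      linarith
    linarith
  · have h := eset_init (k := k) (b := 1 / C) (δ := δ) hk hb0 hkb
    have h2 : 1 / (1 / C) = C := by field_simp
    rw [h2] at h
    exact h
  · -- separation
    have hε1 : 0 < δ / (100 * (1 + C)) := by positivity
    refine eset_ev hε1 fun ε h0 h1 x hx => ?_
    have h2 : ε * (1 + C) < δ / 100 := by
      rw [lt_div_iff₀ (by positivity)] at h1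
      linarith
    have h3 : 0 < ε * C := mul_pos h0 hC0
    have h4 : ε < 1 := by linarith
    have hu : U ε ∈ G.S := (hfam ε h0 h4).1.hu
    have hgam := (hfam ε h0 h4).1.gam_le (hlapu ε h0 h4)
    have hUp := hup ε h0 h4
    have hph := (abs_le.1 (hnearϕ ε h0 h4 x)).1
    rcases lt_or_ge (N x) (r1 ^ 2) with hc | hc
    · have h5 := hnear (1 + ε * C) (by linarith) (U ε) hu
        (fun z => (hgam z).trans (by nlinarith)) x hc
      have hr : 0 ≤ √(N x) := Real.sqrt_nonneg _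
      have hr2 : √(N x) ^ 2 = N x := Real.sq_sqrt (hN0 x)
      generalize √(N x) = r at *
      have h6 : (1 + ε * C) * (1 + 1 / 20) * r ≤ 11 / 10 * r := by
        apply mul_le_mul_of_nonneg_right _ hr
        linarith
      have h7 : 7 / 2 * δ ≤ r := by linarith
      have h8 : 11 / 10 * r + 11 / 5 * δ ≤ N x / (2 * δ) := by
        rw [le_div_iff₀ (by positivity), ← hr2]
        nlinarith
      linarith
    · have h5 := hD (U ε) hu (fun z => (hgam z).trans (by linarith)) x p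
      have h6 : r1 ^ 2 / (2 * δ) ≤ N x / (2 * δ) := by
        apply div_le_div_of_nonneg_right hc (by positivity)
      linarith
  · intro z hz
    have hε1 : 0 < min 1 (z / (1 + C)) := by positivity
    refine eset_ev hε1 fun ε h0 h1 => ?_
    have h2 : ε < 1 := lt_of_lt_of_le h1 (min_le_left _ _)
    have h3 := lt_of_lt_of_le h1 (min_le_right _ _)
    rw [lt_div_iff₀ (by positivity)] at h3
    exact (hup ε h0 h2).trans h3.le

end RFSE
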