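import Pool.Agent.RFS.ECal

/-!
Project RFS, chunk (e): the viscous eikonal equation `|grad u|^2 = 1 + ε Δu - e^{(u-ϕ)/ε}`,
its origin in the linear equation `v - ε² Δ v = f`, and the elementary bounds from the maximum
principle.
-/

namespace RFSE

open MeasureTheory

variable {M : Type*} [TopologicalSpace M] [MeasurableSpace M]

/-- `u` solves the viscous eikonal equation with parameter `ε` and potential `ϕ`. -/
structure Visc (G : SG M) (ε : ℝ) (u ϕ : M → ℝ) : Prop where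
  eps : 0 < ε
  hu : u ∈ G.S
  hϕ : ϕ ∈ G.S
  eq : ∀ x, G.gam u u x = 1 + ε * G.lap u x - Real.exp ((u x - ϕ x) / ε)

/-- `v - ε² Δ v = f` with `v, f > 0` gives the viscous eikonal equation. -/
theorem visc_of_resolvent (G : SG M) {ε : ℝ} (hε : 0 < ε) {v f : M → ℝ}
    (hv : v ∈ G.S) (hf : f ∈ G.S) (hv0 : ∀ x, 0 < v x) (hf0 : ∀ x, 0 < f x)
    (h : ∀ x, v x - ε ^ 2 * G.lap v x = f x) :
    Visc G ε (fun x => -ε * Real.log (v x)) (fun x => -ε * Real.log (f x)) := by
  have hlv : ∀ x, ContDiffAt ℝ (⊤ : ℕ∞) Real.log (v x) := fun x =>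
    Real.contDiffAt_log.2 (hv0 x).ne'
  have hlf : ∀ x, ContDiffAt ℝ (⊤ : ℕ∞) Real.log (f x) := fun x =>
    Real.contDiffAt_log.2 (hf0 x).ne'
  have hLv : (fun x => Real.log (v x)) ∈ G.S := G.comp_mem v hv _ hlv
  have hLf : (fun x => Real.log (f x)) ∈ G.S := G.comp_mem f hf _ hlf
  have hU : (fun x => -ε * Real.log (v x)) ∈ G.S := G.smul_mem hLv _
  refine ⟨hε, hU, G.smul_mem hLf _, fun x => ?_⟩
  have h1 : G.lap (fun x => -ε * Real.log (v x)) x =
      -ε * (-(v x ^ 2)⁻¹ * G.gam v v x + (v x)⁻¹ * G.lap v x) := by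
    rw [G.lap_smul hLv, G.lap_comp hv hlv]
    have : deriv (deriv Real.log) (v x) = -(v x ^ 2)⁻¹ := by
      rw [Real.deriv_log']
      simp
    rw [this, Real.deriv_log]
  have h2 : G.gam (fun x => -ε * Real.log (v x)) (fun x => -ε * Real.log (v x)) x =
      ε ^ 2 * ((v x)⁻¹ * (v x)⁻¹ * G.gam v v x) := by
    simp only [SG.gam, G.d_smul hLv, G.d_comp v hv _ hlv, Real.deriv_log, Fin.sum_univ_three]
    ring
  have h3 : Real.exp ((-ε * Real.log (v x) - -ε * Real.log (f x)) / ε) = f x / v x := by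
    have : (-ε * Real.log (v x) - -ε * Real.log (f x)) / ε = Real.log (f x) - Real.log (v x) := by
      field_simp
      ring
    rw [this, Real.exp_sub, Real.exp_log (hf0 x), Real.exp_log (hv0 x)]
  rw [h1, h2, h3, ← h x]
  have := (hv0 x).ne'
  field_simp
  ring

namespace Visc

variable {G : SG M} {ε : ℝ} {u ϕ : M → ℝ} (V : Visc G ε u ϕ)

include V

lemma cu : Continuous u := G.cont u V.hu
lemma cϕ : Continuous ϕ := G.cont ϕ V.hϕ
lemma clap : Continuous (G.lap u) := G.cont _ (G.lap_mem' V.hu)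

/-- (2): lower bound -/
theorem lower [CompactSpace M] {m : ℝ} (hm : ∀ x, m ≤ ϕ x) : ∀ x, m ≤ u x := by
  intro x
  have : Nonempty M := ⟨x⟩
  obtain ⟨y, -, hy⟩ := isCompact_univ.exists_isMinOn Set.univ_nonempty V.cu.continuousOn
  have hy' : ∀ z, u y ≤ u z := fun z => hy (Set.mem_univ z)
  have hloc : IsLocalMin u y := Filter.Eventually.of_forall hy'
  obtain ⟨h1, h2⟩ := G.locmin V.hu hloc
  have h3 : G.gam u u y = 0 := by simp [SG.gam, h1]
  have h4 := V.eq y
  rw [h3] at h4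
  have h5 : 1 ≤ Real.exp ((u y - ϕ y) / ε) := by
    have := mul_nonneg V.eps.le h2
    linarith
  have h6 : 0 ≤ (u y - ϕ y) / ε := by
    by_contra hc
    push Not at hc
    have := (Real.exp_lt_one_iff.2 hc)
    linarith
  have h7 : 0 ≤ u y - ϕ y := by
    have := mul_nonneg h6 V.eps.le
    rwa [div_mul_cancel₀ _ V.eps.ne'] at this
  have := hy' x
  have := hm y
  linarith

/-- Laplacian of `h = e^{(u-ϕ)/ε}` -/
lemma lap_h (x : M) :
    G.lap (fun y => Real.exp ((u y - ϕ y) / ε)) x =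
      Real.exp ((u x - ϕ x) / ε) * ((G.lap u x - G.lap ϕ x) / ε +
        G.gam (fun y => u y - ϕ y) (fun y => u y - ϕ y) x / ε ^ 2) := by
  have hs : (fun y => u y - ϕ y) ∈ G.S := G.sub_mem V.hu V.hϕ
  set f : ℝ → ℝ := fun t => Real.exp (t / ε) with hf
  have hf1 : ∀ t, ContDiffAt ℝ (⊤ : ℕ∞) f t := fun t => by
    apply ContDiffAt.exp
    exact (contDiffAt_id.div_const ε)
  have hd1 : deriv f = fun t => Real.exp (t / ε) * ε⁻¹ := by
    funext t
    have : HasDerivAt f (Real.exp (t / ε) * (1 / ε)) t :=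
      ((hasDerivAt_id t).div_const ε).exp
    rw [this.deriv, one_div]
  have hd2 : deriv (deriv f) = fun t => Real.exp (t / ε) * ε⁻¹ * ε⁻¹ := by
    rw [hd1]
    funext t
    have : HasDerivAt (fun t => Real.exp (t / ε) * ε⁻¹) (Real.exp (t / ε) * (1 / ε) * ε⁻¹) t :=
      (((hasDerivAt_id t).div_const ε).exp).mul_const _
    rw [this.deriv, one_div]
  have := G.lap_comp hs (f := f) (fun x => hf1 _) x
  simp only [hf] at this
  rw [this]
  change deriv (deriv f) _ * _ + deriv f _ * _ = _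
  rw [hd2, hd1, G.lap_sub V.hu V.hϕ]
  have := V.eps.ne'
  field_simp
  ring

lemma h_mem : (fun y => Real.exp ((u y - ϕ y) / ε)) ∈ G.S := by
  have hs : (fun y => u y - ϕ y) ∈ G.S := G.sub_mem V.hu V.hϕ
  exact G.comp_mem _ hs (fun t => Real.exp (t / ε))
    (fun x => ContDiffAt.exp (contDiffAt_id.div_const ε))

/-- `Δ|∇u|² = ε Δw - Δh` -/
lemma lap_gam (x : M) :
    G.lap (G.gam u u) x = ε * G.lap (G.lap u) x -
      G.lap (fun y => Real.exp ((u y - ϕ y) / ε)) x := by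
  have hfun : G.gam u u = fun y => ((fun _ => (1 : ℝ)) y + ε * G.lap u y) -
      Real.exp ((u y - ϕ y) / ε) := by
    funext y
    exact V.eq y
  have hw := G.lap_mem' V.hu
  have h1 := G.const_mem 1
  have h2 := G.smul_mem hw ε
  have h3 : (fun y => (fun _ => (1 : ℝ)) y + ε * G.lap u y) ∈ G.S := G.add_mem _ h1 _ h2
  rw [hfun, G.lap_sub h3 V.h_mem, G.lap_add h1 h2, G.lap_const, G.lap_smul hw]
  ring

/-- (3): upper bound of the Laplacian -/
theorem lap_le [CompactSpace M] {C : ℝ} (hR : ∀ x, G.RicGe 0 x)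
    (hC : ∀ x, G.lap ϕ x ≤ C) : ∀ x, G.lap u x ≤ C := by
  intro x
  have : Nonempty M := ⟨x⟩
  obtain ⟨y, -, hy⟩ := isCompact_univ.exists_isMaxOn Set.univ_nonempty V.clap.continuousOn
  have hy' : ∀ z, G.lap u z ≤ G.lap u y := fun z => hy (Set.mem_univ z)
  have hloc : IsLocalMax (G.lap u) y := Filter.Eventually.of_forall hy'
  have hw := G.lap_mem' V.hu
  obtain ⟨h1, h2⟩ := G.locmax _ hw y hloc
  have h2' : G.lap (G.lap u) y ≤ 0 := h2
  have hb := G.bochner' V.hu y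
  rw [V.lap_gam, V.lap_h] at hb
  have h3 : G.gam u (G.lap u) y = 0 := by simp [SG.gam, h1]
  rw [h3] at hb
  have h4 : 0 ≤ ∑ i, ∑ j, G.Ric y i j * (G.d y i u * G.d y j u) := by
    have := hR y (fun i => G.d y i u)
    simpa using this
  have h5 : 0 ≤ ∑ i, ∑ j, G.H y i j u ^ 2 :=
    Finset.sum_nonneg fun i _ => Finset.sum_nonneg fun j _ => sq_nonneg _
  by_contra hc
  push Not at hc
  have h6 : C < G.lap u y := lt_of_lt_of_le hc (hy' x)
  have h7 := hC y
  have hpos : 0 < (G.lap u y - G.lap ϕ y) / ε := div_pos (by linarith) V.eps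
  have hg : 0 ≤ G.gam (fun y => u y - ϕ y) (fun y => u y - ϕ y) y / ε ^ 2 :=
    div_nonneg (G.gam_self_nonneg _ _) (sq_nonneg _)
  have he : 0 < Real.exp ((u y - ϕ y) / ε) := Real.exp_pos _
  have := mul_pos he (add_pos_of_pos_of_nonneg hpos hg)
  have := mul_nonpos_of_nonneg_of_nonpos V.eps.le h2'
  linarith

/-- (4): gradient bound -/
theorem gam_le {C : ℝ} (h : ∀ x, G.lap u x ≤ C) : ∀ x, G.gam u u x ≤ 1 + ε * C := by
  intro x
  rw [V.eq x]
  have := mul_le_mul_of_nonneg_left (h x) V.eps.le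
  have := Real.exp_pos ((u x - ϕ x) / ε)
  linarith

/-- (5): upper bound -/
theorem upper [CompactSpace M] {C : ℝ} (hC : ∀ x, G.lap ϕ x ≤ C) :
    ∀ x, u x ≤ ϕ x + ε ^ 2 * C := by
  intro x
  have : Nonempty M := ⟨x⟩
  have hs : (fun y => u y - ϕ y) ∈ G.S := G.sub_mem V.hu V.hϕ
  obtain ⟨y, -, hy⟩ := isCompact_univ.exists_isMaxOn Set.univ_nonempty
    (G.cont _ hs).continuousOn
  have hy' : ∀ z, u z - ϕ z ≤ u y - ϕ y := fun z => hy (Set.mem_univ z)
  have hloc : IsLocalMax (fun y => u y - ϕ y) y := Filter.Eventually.of_forall hy'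
  obtain ⟨h1, h2⟩ := G.locmax _ hs y hloc
  have h2' : G.lap (fun y => u y - ϕ y) y ≤ 0 := h2
  rw [G.lap_sub V.hu V.hϕ] at h2'
  have h3 := V.eq y
  have h4 := hC y
  have h5 : Real.exp ((u y - ϕ y) / ε) ≤ 1 + ε * C := by
    have := G.gam_self_nonneg u y
    have := mul_le_mul_of_nonneg_left (show G.lap u y ≤ C by linarith) V.eps.le
    linarith
  have h6 : (u y - ϕ y) / ε ≤ ε * C := by
    have h7 := Real.add_one_le_exp (ε * C)
    have : Real.exp ((u y - ϕ y) / ε) ≤ Real.exp (ε * C) := by linarith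
    exact Real.exp_le_exp.1 this
  have h8 : u y - ϕ y ≤ ε ^ 2 * C := by
    rw [div_le_iff₀ V.eps] at h6
    nlinarith
  have := hy' x
  linarith

/-- (6): comparison with functions of gradient `< 1` -/
theorem comparison [CompactSpace M] {ρ : M → ℝ} (hρ : ρ ∈ G.S) {η Cρ m : ℝ} (hη : 0 < η)
    (h1 : ∀ x, G.gam ρ ρ x ≤ 1 - η) (h2 : ∀ x, - Cρ ≤ G.lap ρ x) (h3 : ε * Cρ ≤ η / 2)
    (hm : ∀ x, m ≤ ϕ x - ρ x) : ∀ x, ρ x + m - ε * Real.log (2 / η) ≤ u x := by
  intro x
  have : Nonempty M := ⟨x⟩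
  have hs : (fun y => u y - ρ y) ∈ G.S := G.sub_mem V.hu hρ
  obtain ⟨y, -, hy⟩ := isCompact_univ.exists_isMinOn Set.univ_nonempty
    (G.cont _ hs).continuousOn
  have hy' : ∀ z, u y - ρ y ≤ u z - ρ z := fun z => hy (Set.mem_univ z)
  have hloc : IsLocalMin (fun y => u y - ρ y) y := Filter.Eventually.of_forall hy'
  obtain ⟨h4, h5⟩ := G.locmin hs hloc
  rw [G.lap_sub V.hu hρ] at h5
  have h6 : G.gam u u y = G.gam ρ ρ y := by
    have h7 : ∀ i, G.d y i u = G.d y i ρ := fun i => by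
      have := h4 i
      rw [G.d_sub V.hu hρ] at this
      linarith
    simp [SG.gam, h7]
  have h8 := V.eq y
  have h9 : η / 2 ≤ Real.exp ((u y - ϕ y) / ε) := by
    have a1 := h1 y
    have a2 := h2 y
    have a3 : - (ε * Cρ) ≤ ε * G.lap u y := by
      have := mul_le_mul_of_nonneg_left (show - Cρ ≤ G.lap u y by linarith) V.eps.le
      linarith
    linarith
  have h10 : Real.log (η / 2) ≤ (u y - ϕ y) / ε := by
    rw [← Real.log_exp ((u y - ϕ y) / ε)]
    exact Real.log_le_log (by linarith) h9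
  have h11 : Real.log (η / 2) = - Real.log (2 / η) := by
    rw [← Real.log_inv]
    congr 1
    field_simp
  rw [h11, le_div_iff₀ V.eps] at h10
  have := hy' x
  have := hm y
  linarith

end Visc

end RFSE
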