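import Pool.Agent.RFS.Defs

/-!
# RFS, chunk (f), module FCH: changes of charts

Elementary facts on the changes of coordinates `trans e e'` and their Jacobi matrices.

Proofs.
* `isOpen_ov`: it is `(e.1.symm.trans e'.1).source`, `OpenPartialHomeomorph.open_source`.
* `contDiffOn_trans`: `contDiffGroupoid ∞ (𝓡 3)` contains `e.1.symm ≫ₕ e'.1`
  (`HasGroupoid.compatible`, `IsManifold`), unfold with
  `contDiffGroupoid`, `mem_groupoid_of_pregroupoid`, the model with corners is the identity.
* `jac_apply`: `pd i (fun y => φ y k) x = fderiv φ x (bv i) k`, chain rule with the continuous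
  linear projection on the coordinate `k` (`EuclideanSpace.proj k`).
* `pd_comp`: near `x` we have `f (e.1.symm y) = (f ∘ e'.1.symm) (trans e e' y)`; chain rule, and
  `fderiv φ x (bv i) = ∑ k, jac k i • bv k`.
* `jac_mul_jac`: `trans e' e (trans e e' y) = y` near `x`, differentiate.
-/

open scoped Manifold ContDiff Matrix
open Set MeasureTheory

noncomputable section

namespace Pool.Agent.RFS

variable {M : Type*} [TopologicalSpace M] [ChartedSpace E3 M]

/-- The domain of the change of coordinates from `e` to `e'`. -/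
def ov (e e' : Ch M) : Set E3 := {x | x ∈ e.1.target ∧ e.1.symm x ∈ e'.1.source}

theorem ov_eq (e e' : Ch M) : ov e e' = (e.1.symm.trans e'.1).source := by
  ext x
  simp [ov]

theorem isOpen_ov (e e' : Ch M) : IsOpen (ov e e') := by
  rw [ov_eq]
  exact (e.1.symm.trans e'.1).open_source

theorem trans_mem (e e' : Ch M) {x : E3} (hx : x ∈ ov e e') :
    trans e e' x ∈ e'.1.target ∧ e'.1.symm (trans e e' x) = e.1.symm x ∧
      trans e e' x ∈ ov e' e ∧ trans e' e (trans e e' x) = x := by
  have h1 : trans e e' x ∈ e'.1.target := e'.1.map_source hx.2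
  have h2 : e'.1.symm (trans e e' x) = e.1.symm x := e'.1.left_inv hx.2
  refine ⟨h1, h2, ⟨h1, ?_⟩, ?_⟩
  · rw [h2]
    exact e.1.map_target hx.1
  · show e.1 (e'.1.symm (trans e e' x)) = x
    rw [h2]
    exact e.1.right_inv hx.1

theorem contDiffOn_trans [IsManifold (𝓡 3) ∞ M] (e e' : Ch M) :
    ContDiffOn ℝ ∞ (trans e e') (ov e e') := by
  have h := HasGroupoid.compatible (G := contDiffGroupoid ∞ (𝓡 3)) e.2 e'.2
  rw [contDiffGroupoid, mem_groupoid_of_pregroupoid] at h
  have h1 := h.1
  simp only [contDiffPregroupoid] at h1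
  rw [ov_eq]
  simp only [modelWithCornersSelf_coe, modelWithCornersSelf_coe_symm, Function.comp_id,
    Function.id_comp, preimage_id, range_id, inter_univ] at h1
  exact h1

theorem differentiableAt_trans [IsManifold (𝓡 3) ∞ M] (e e' : Ch M) {x : E3}
    (hx : x ∈ ov e e') : DifferentiableAt ℝ (trans e e') x :=
  ((contDiffOn_trans e e').contDiffAt ((isOpen_ov e e').mem_nhds hx)).differentiableAt (by simp)

theorem jac_apply [IsManifold (𝓡 3) ∞ M] (e e' : Ch M) {x : E3} (hx : x ∈ ov e e')
    (k i : Fin 3) : jac e e' x k i = fderiv ℝ (trans e e') x (bv i) k := by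
  have h := (differentiableAt_trans e e' hx).hasFDerivAt
  have h2 : HasFDerivAt (fun y => trans e e' y k)
      ((EuclideanSpace.proj k : E3 →L[ℝ] ℝ).comp (fderiv ℝ (trans e e') x)) x :=
    (EuclideanSpace.proj k : E3 →L[ℝ] ℝ).hasFDerivAt.comp x h
  show fderiv ℝ (fun y => trans e e' y k) x (bv i) = _
  rw [h2.fderiv]
  rfl

theorem det_fderiv_trans [IsManifold (𝓡 3) ∞ M] (e e' : Ch M) {x : E3} (hx : x ∈ ov e e') :
    (fderiv ℝ (trans e e') x).det = (jac e e' x).det := by
  rw [ContinuousLinearMap.det,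
    ← LinearMap.det_toMatrix (EuclideanSpace.basisFun (Fin 3) ℝ).toBasis]
  congr 1
  ext k i
  rw [jac_apply e e' hx, LinearMap.toMatrix_apply]
  simp [bv]

theorem contDiffOn_jac [IsManifold (𝓡 3) ∞ M] (e e' : Ch M) (k i : Fin 3) :
    ContDiffOn ℝ ∞ (fun x => jac e e' x k i) (ov e e') := by
  have h1 : ContDiffOn ℝ ∞ (fderiv ℝ (trans e e')) (ov e e') :=
    (contDiffOn_trans e e').fderiv_of_isOpen (isOpen_ov e e') (by simp)
  have h2 : ContDiffOn ℝ ∞ (fun x => fderiv ℝ (trans e e') x (bv i)) (ov e e') :=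
    h1.clm_apply contDiffOn_const
  have h3 : ContDiffOn ℝ ∞ (fun x => (EuclideanSpace.proj k : E3 →L[ℝ] ℝ)
      (fderiv ℝ (trans e e') x (bv i))) (ov e e') :=
    (EuclideanSpace.proj k : E3 →L[ℝ] ℝ).contDiff.comp_contDiffOn h2
  exact h3.congr fun x hx => jac_apply e e' hx k i

theorem sum_smul_bv (c : Fin 3 → ℝ) (l : Fin 3) : (∑ k, c k • bv k) l = c l := by
  rw [Fin.sum_univ_three]
  fin_cases l <;> simp [bv]

theorem fderiv_trans_bv [IsManifold (𝓡 3) ∞ M] (e e' : Ch M) {x : E3} (hx : x ∈ ov e e')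
    (i : Fin 3) : fderiv ℝ (trans e e') x (bv i) = ∑ k, jac e e' x k i • bv k := by
  ext l
  rw [← jac_apply e e' hx]
  exact (sum_smul_bv (fun k => jac e e' x k i) l).symm

theorem jac_mul_jac [IsManifold (𝓡 3) ∞ M] (e e' : Ch M) {x : E3} (hx : x ∈ ov e e') :
    jac e' e (trans e e' x) * jac e e' x = 1 := by
  have hx' := (trans_mem e e' hx).2.2.1
  have h1 := (differentiableAt_trans e e' hx).hasFDerivAt
  have h2 := (differentiableAt_trans e' e hx').hasFDerivAt
  have h3 := h2.comp x h1
  have h4 : (trans e' e ∘ trans e e') =ᶠ[nhds x] id := by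
    filter_upwards [(isOpen_ov e e').mem_nhds hx] with y hy
    exact (trans_mem e e' hy).2.2.2
  have h5 : HasFDerivAt (trans e' e ∘ trans e e') (ContinuousLinearMap.id ℝ E3) x :=
    (hasFDerivAt_id x).congr_of_eventuallyEq h4
  have h6 := h3.unique h5
  ext l i
  have h7 := congrArg (fun L : E3 →L[ℝ] E3 => L (bv i) l) h6
  simp only [ContinuousLinearMap.comp_apply, ContinuousLinearMap.id_apply] at h7
  rw [fderiv_trans_bv e e' hx, map_sum] at h7
  simp only [map_smul] at h7
  have h8 : (∑ k, jac e e' x k i • fderiv ℝ (trans e' e) (trans e e' x) (bv k)) l =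
      ∑ k, jac e e' x k i * fderiv ℝ (trans e' e) (trans e e' x) (bv k) l := by
    rw [Fin.sum_univ_three, Fin.sum_univ_three]
    simp
  rw [h8] at h7
  rw [Matrix.mul_apply, Matrix.one_apply]
  have h9 : (bv i) l = if l = i then (1 : ℝ) else 0 := by
    fin_cases l <;> fin_cases i <;> simp [bv]
  rw [← h9, ← h7]
  apply Finset.sum_congr rfl
  intro k _
  rw [jac_apply e' e hx']
  ring

/-- The chain rule for a function on the manifold. -/
theorem pd_comp [IsManifold (𝓡 3) ∞ M] (e e' : Ch M) {x : E3} (hx : x ∈ ov e e') (f : M → ℝ)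
    (hf : DifferentiableAt ℝ (fun y => f (e'.1.symm y)) (trans e e' x)) (i : Fin 3) :
    pd i (fun y => f (e.1.symm y)) x =
      ∑ k, jac e e' x k i * pd k (fun y => f (e'.1.symm y)) (trans e e' x) := by
  have h1 := (differentiableAt_trans e e' hx).hasFDerivAt
  have h2 := hf.hasFDerivAt.comp x h1
  have h4 : (fun y => f (e.1.symm y)) =ᶠ[nhds x]
      ((fun y => f (e'.1.symm y)) ∘ trans e e') := by
    filter_upwards [(isOpen_ov e e').mem_nhds hx] with y hy
    simp only [Function.comp_apply, (trans_mem e e' hy).2.1]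
  have h5 := h2.congr_of_eventuallyEq h4
  rw [pd, h5.fderiv, ContinuousLinearMap.comp_apply, fderiv_trans_bv e e' hx, map_sum]
  simp only [map_smul, smul_eq_mul, pd]

end Pool.Agent.RFS
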