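import Pool.Agent.RFS.CL0
import Pool.Agent.RFS.CLA
import Pool.Agent.RFS.DInv
import Pool.Agent.RFS.FAL
import Pool.Agent.RFS.FSM

/-!
# RFS, chunk (f), module FEV: values of the scalar invariants `s`, `n`, `|∇s|²` in a chart
-/

open scoped Manifold ContDiff Matrix
open Set MeasureTheory

noncomputable section

namespace Pool.Agent.RFS

open Ham

variable {A : Type*} [CommRing A] [Algebra ℝ A] {S : RFAlg A} {M : Type*}
  [TopologicalSpace M] [MeasurableSpace M] {b : ℝ} (X : RFSpace S M b)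

theorem ev_sS (z : X.Fr) : X.ev z (sS S) = (1 / 3) * ∑ k, X.ev z (S.P k k) := by
  simp only [sS, map_smul, map_sum, smul_eq_mul]

theorem ev_eS (z : X.Fr) (i j : Fin 3) :
    X.ev z (eS S i j) = (if i = j then X.ev z (sS S) else 0) - X.ev z (S.P i j) := by
  rw [eS, map_sub]
  split_ifs <;> simp

theorem ev_P_symm (z : X.Fr) (i j : Fin 3) : X.ev z (S.P i j) = X.ev z (S.P j i) := by
  rw [S.P_symm]

theorem ev_nS (z : X.Fr) :
    X.ev z (nS S) = (∑ i, ∑ j, X.ev z (S.P i j) ^ 2) - 3 * X.ev z (sS S) ^ 2 := by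
  have h3 : X.ev z (S.P 0 0) + X.ev z (S.P 1 1) + X.ev z (S.P 2 2) = 3 * X.ev z (sS S) := by
    rw [ev_sS, Fin.sum_univ_three]; ring
  have h4 : X.ev z (nS S) = ∑ i, ∑ j, ((if i = j then X.ev z (sS S) else 0)
      - X.ev z (S.P i j)) * ((if i = j then X.ev z (sS S) else 0) - X.ev z (S.P i j)) := by
    simp only [nS, map_sum, map_mul, ev_eS]
  rw [h4]
  simp only [Fin.sum_univ_three, if_true, if_false, Fin.isValue, Fin.reduceEq]
  linear_combination (-2 * X.ev z (sS S)) * h3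

/-- The absolute value of the entries of `P`. -/
theorem abs_P_le (z : X.Fr) (i j : Fin 3) :
    X.ev z (S.P i j) ^ 2 ≤ X.ev z (nS S) + 3 * X.ev z (sS S) ^ 2 := by
  have h : X.ev z (S.P i j) ^ 2 ≤ ∑ i, ∑ j, X.ev z (S.P i j) ^ 2 :=
    (Finset.single_le_sum (f := fun j => X.ev z (S.P i j) ^ 2)
      (fun k _ => sq_nonneg _) (Finset.mem_univ j)).trans
    (Finset.single_le_sum (f := fun i => ∑ j, X.ev z (S.P i j) ^ 2)
      (fun k _ => Finset.sum_nonneg fun l _ => sq_nonneg _) (Finset.mem_univ i))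
  rw [ev_nS]
  linarith

/-- The value of an invariant element depends only on time and base point. -/
theorem ev_inv {X : RFSpace S M b} {f : A} (hf : Inv X f) {z z' : X.Fr} (ht : X.tm z = X.tm z')
    (hb : X.bs z = X.bs z') : X.ev z f = X.ev z' f := by
  obtain ⟨Q, rfl⟩ := X.rot_trans z z' ht hb
  rw [← X.ev_R, hf Q]

variable [ChartedSpace E3 M] {g : ℝ → RMetric M} {X}

theorem scalar_values (R : FrRep X g) {e : Ch M} {t : ℝ} {x : E3} {a : M9}
    (h : FrOk g b e t x a) :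
    scal ((g t).c e) x = 6 * X.ev (R.fr e t x a) (sS S) ∧
      sig1 ((g t).c e) x = 3 / 2 * X.ev (R.fr e t x a) (sS S) ∧
      sig2 ((g t).c e) x =
        (3 * X.ev (R.fr e t x a) (sS S) ^ 2 - 2 * X.ev (R.fr e t x a) (nS S)) / 4 := by
  set z := R.fr e t x a with hz
  set Q : Mat3 := (Matrix.of a)ᵀ * pten ((g t).c e) x * Matrix.of a with hQ
  obtain ⟨h1, -, h3, h4⟩ := frame_formulas ((g t).c e) x (Matrix.of a) Q h.2.2 hQ
  have hP : ∀ i j, Q i j = X.ev z (S.P i j) := fun i j => (R.ev_P e t x a h i j).symm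
  have htr : Q.trace = 3 * X.ev z (sS S) := by
    rw [ev_sS, Matrix.trace]
    simp only [Matrix.diag_apply, hP]
    ring
  have htr2 : (Q * Q).trace = X.ev z (nS S) + 3 * X.ev z (sS S) ^ 2 := by
    rw [ev_nS, Matrix.trace]
    simp only [Matrix.diag_apply, Matrix.mul_apply, hP]
    have : ∀ i j, X.ev z (S.P i j) * X.ev z (S.P j i) = X.ev z (S.P i j) ^ 2 := by
      intro i j
      rw [ev_P_symm X z j i]; ring
    simp only [this]
    ring
  refine ⟨by rw [h1, htr]; ring, by rw [h3, htr]; ring, by rw [h4, htr, htr2]; ring⟩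

omit [MeasurableSpace M] in
/-- Existence of orthonormal frames. -/
theorem exists_frOk {t : ℝ} (ht : t ∈ Ico 0 b) (e : Ch M) {x : E3} (hx : x ∈ e.1.target) :
    ∃ a : M9, FrOk g b e t x a := by
  obtain ⟨a, c, ha, -⟩ := exists_frame ((g t).pos e x hx)
  exact ⟨a, ht, hx, ha⟩

/-- The lower bound of the Ricci tensor in a chart. -/
theorem ricci_lower (R : FrRep X g) {e : Ch M} {t : ℝ} {x : E3} {a : M9}
    (h : FrOk g b e t x a) (c : ℝ)
    (hc : ∀ v : Fin 3 → ℝ, c * ∑ i, v i * v i ≤ ∑ i, ∑ j,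
      ((if i = j then ∑ k, X.ev (R.fr e t x a) (S.P k k) else 0)
        - X.ev (R.fr e t x a) (S.P i j)) * v i * v j) (v : Fin 3 → ℝ) :
    c * ∑ i, ∑ j, (g t).c e x i j * v i * v j ≤ ∑ i, ∑ j, ricci ((g t).c e) x i j * v i * v j := by
  set z := R.fr e t x a with hz
  set B : Mat3 := Matrix.of a with hB
  set Q : Mat3 := Bᵀ * pten ((g t).c e) x * B with hQ
  obtain ⟨-, h2, -, -⟩ := frame_formulas ((g t).c e) x B Q h.2.2 hQ
  have hP : ∀ i j, Q i j = X.ev z (S.P i j) := fun i j => (R.ev_P e t x a h i j).symm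
  obtain ⟨hinv, hu⟩ := frame_inv h.2.2
  -- v = B w
  set w : Fin 3 → ℝ := B⁻¹ *ᵥ v with hw
  have hBw : B *ᵥ w = v := by
    rw [hw, Matrix.mulVec_mulVec, Matrix.mul_nonsing_inv _ hu, Matrix.one_mulVec]
  have hquad : ∀ N : Mat3, ∑ i, ∑ j, N i j * v i * v j = ∑ i, ∑ j, (Bᵀ * N * B) i j * w i * w j := by
    intro N
    have e1 : ∑ i, ∑ j, N i j * v i * v j = v ⬝ᵥ (N *ᵥ v) := by
      simp only [dotProduct, Matrix.mulVec, Finset.mul_sum]
      refine Finset.sum_congr rfl fun i _ => Finset.sum_congr rfl fun j _ => ?_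
      ring
    have e2 : ∑ i, ∑ j, (Bᵀ * N * B) i j * w i * w j = w ⬝ᵥ ((Bᵀ * N * B) *ᵥ w) := by
      simp only [dotProduct, Matrix.mulVec, Finset.mul_sum]
      refine Finset.sum_congr rfl fun i _ => Finset.sum_congr rfl fun j _ => ?_
      ring
    rw [e1, e2, ← hBw, ← Matrix.mulVec_mulVec, ← Matrix.mulVec_mulVec, Matrix.dotProduct_mulVec w Bᵀ,
      Matrix.vecMul_transpose]
  rw [hquad, hquad, h.2.2, h2]
  have e3 : ∑ i, ∑ j, (1 : Mat3) i j * w i * w j = ∑ i, w i * w i := by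
    simp only [Matrix.one_apply, Fin.sum_univ_three, if_true, if_false, Fin.isValue, Fin.reduceEq]
    ring
  have e4 : ∀ i j, (Q.trace • (1 : Mat3) - Q) i j
      = (if i = j then ∑ k, X.ev z (S.P k k) else 0) - X.ev z (S.P i j) := by
    intro i j
    rw [Matrix.sub_apply, Matrix.smul_apply, Matrix.one_apply, hP, Matrix.trace]
    simp only [Matrix.diag_apply, hP]
    split_ifs <;> simp
  rw [e3]
  simp only [e4]
  exact hc w

/-- `|∇s|²` in a chart. -/
theorem grad_value (R : FrRep X g) {e : Ch M} {t : ℝ} {x : E3} {a : M9} (ht : 0 < t)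
    (h : FrOk g b e t x a) :
    ∑ k, ∑ l, ((g t).c e x)⁻¹ k l * pd k (fun y => scal ((g t).c e) y / 6) x
      * pd l (fun y => scal ((g t).c e) y / 6) x = X.ev (R.fr e t x a) (gS S) := by
  set f : E3 → ℝ := fun y => scal ((g t).c e) y / 6 with hf
  set B : Mat3 := Matrix.of a with hB
  have hsm : ContDiffOn ℝ ∞ (scal ((g t).c e)) e.1.target :=
    contDiffOn_scal e.1.open_target ((g t).smooth e) fun x hx => ((g t).pos e x hx).det_pos.ne'
  have hd0 : DifferentiableAt ℝ (scal ((g t).c e)) x :=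
    (hsm.contDiffAt (e.1.open_target.mem_nhds h.2.1)).differentiableAt (by simp)
  have hd : DifferentiableAt ℝ f x := by
    have h1 := hd0.mul_const (1 / 6 : ℝ)
    have h2 : f = fun y => scal ((g t).c e) y * (1 / 6) := by
      funext y; simp only [hf]; ring
    rw [h2]; exact h1
  have hF : DifferentiableAt ℝ (fun q : E3 × M9 => f q.1) (x, a) :=
    DifferentiableAt.comp (x, a) (f := Prod.fst) (g := f) hd differentiableAt_fst
  have hD : ∀ i, X.ev (R.fr e t x a) (S.D i (sS S)) = ∑ k, a k i * pd k f x := by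
    intro i
    have h1 := R.ev_D (sS S) e t x a ht h (fun q => f q.1) hF (by
      intro x' a' h'
      have := (scalar_values R h').1
      simp only [hf]
      rw [this]; ring) i
    rw [h1]
    have h2 : fderiv ℝ (fun q : E3 × M9 => f q.1) (x, a) = (fderiv ℝ f x).comp
        (ContinuousLinearMap.fst ℝ E3 M9) := by
      have := (hd.hasFDerivAt.comp (x, a) (hasFDerivAt_fst (𝕜 := ℝ) (E := E3) (F := M9)))
      exact this.fderiv
    rw [h2, ContinuousLinearMap.comp_apply, ContinuousLinearMap.coe_fst']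
    simp only [horiz, map_sum, map_smul, smul_eq_mul, pd]
  rw [gS, ip]
  simp only [map_sum, map_mul, hD]
  rw [(frame_inv h.2.2).1]
  simp only [Matrix.mul_apply, Matrix.transpose_apply, Matrix.of_apply, Fin.sum_univ_three]
  ring

end Pool.Agent.RFS
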