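import Pool.Agent.RFS.FFL
import Pool.Agent.RFS.FST
import Pool.Agent.RFS.NMF

/-!
# RFS, chunk (f), module FFI: the final theorem, from the statements of the other chunks
-/

open scoped Manifold ContDiff Matrix Bundle
open Set MeasureTheory

noncomputable section

namespace Pool.Agent.RFS

variable {M : Type*} [TopologicalSpace M] [ChartedSpace E3 M] [IsManifold (𝓡 3) ∞ M]

omit [IsManifold (𝓡 3) ∞ M] in
theorem sig1_eq_scal (g : RMetric M) (e : Ch M) {x : E3} (hx : x ∈ e.1.target) :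
    sig1 (g.c e) x = scal (g.c e) x / 4 := by
  obtain ⟨a, c, ha, -⟩ := exists_frame (g.pos e x hx)
  obtain ⟨h1, -, h3, -⟩ := frame_formulas (g.c e) x (Matrix.of a) _ ha rfl
  rw [h1, h3]; ring

theorem sig1_compat (g : RMetric M) (e e' : Ch M) {x : E3} (hx : x ∈ ov e e') :
    sig1 (g.c e) x = sig1 (g.c e') (trans e e' x) := by
  rw [sig1_eq_scal g e hx.1, NN.scal_compat g e e' hx,
    sig1_eq_scal g e' (trans_mem e e' hx).1]

theorem sig2_compat (g : RMetric M) (e e' : Ch M) {x : E3} (hx : x ∈ ov e e') :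
    sig2 (g.c e) x = sig2 (g.c e') (trans e e' x) := by
  set y := trans e e' x with hy
  have hy' : y ∈ e'.1.target := (trans_mem e e' hx).1
  obtain ⟨a, c, ha, -⟩ := exists_frame (g.pos e x hx.1)
  set J := jac e e' x with hJ
  set B : Mat3 := J * Matrix.of a with hB
  have hGB : Bᵀ * g.c e' y * B = 1 := by
    have h1 := g.compat e e' x hx.1 hx.2
    rw [h1] at ha
    rw [hB, Matrix.transpose_mul, ← ha]
    simp only [Matrix.mul_assoc]
    rfl
  have hP : (Matrix.of a)ᵀ * pten (g.c e) x * Matrix.of a = Bᵀ * pten (g.c e') y * B := by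
    rw [NN.pten_compat g e e' hx, hB, Matrix.transpose_mul]
    simp only [Matrix.mul_assoc]
    rfl
  obtain ⟨-, -, -, h4⟩ := frame_formulas (g.c e) x (Matrix.of a) _ ha rfl
  obtain ⟨-, -, -, h4'⟩ := frame_formulas (g.c e') y B _ hGB rfl
  rw [h4, h4', hP]

theorem sigma1_eq (g : Metric M) (e : Ch M) {x : E3} (hx : x ∈ e.1.target) :
    sigma1 g (e.1.symm x) = sig1 ((ofMathlib g).c e) x := by
  set p := e.1.symm x with hp
  have hov : x ∈ ov e (chA p) := ⟨hx, mem_chA p⟩
  rw [sig1_compat (ofMathlib g) e (chA p) hov]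
  rfl

theorem sigma2_eq (g : Metric M) (e : Ch M) {x : E3} (hx : x ∈ e.1.target) :
    sigma2 g (e.1.symm x) = sig2 ((ofMathlib g).c e) x := by
  set p := e.1.symm x with hp
  have hov : x ∈ ov e (chA p) := ⟨hx, mem_chA p⟩
  rw [sig2_compat (ofMathlib g) e (chA p) hov]
  rfl

theorem final_of [CompactSpace M] [T2Space M] [Nonempty M] [MeasurableSpace M] [BorelSpace M]
    (hA : ShortTime M) (hB : HasSpace M) (hC : Extends M) (hE1 : LocalMyers M) (hE2 : Bishop M)
    (g : Metric M) (μ : Measure M) (hμ : IsRiemannianVolume g μ)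
    (h1 : ∀ p, 0 < sigma1 g p) (h2 : ∀ p, 1 / 2 ≤ sigma2 g p / sigma1 g p) :
    ∫ p, sigma1 g p ∂μ ≤ 3 * Real.pi ^ 2 := by
  have h := core_bound hA hB hC hE1 hE2 (ofMathlib g)
    (fun e x hx => by rw [← sigma1_eq g e hx]; exact h1 _)
    (fun e x hx => by rw [← sigma1_eq g e hx, ← sigma2_eq g e hx]; exact h2 _)
    (fun p => (2 / 3) * sigma1 g p)
    (fun e x hx => by
      rw [sigma1_eq g e hx, sig1_eq_scal _ e hx]; ring)
    (fun μ ν h h' => isVol_unique (ofMathlib g) h h')
    μ ((isRiemannianVolume_iff g μ).1 hμ)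
  rw [integral_const_mul] at h
  linarith

end Pool.Agent.RFS
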