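import Pool.Agent.RFS.PCD

/-!
# RFS phase 1: the certificate (helper15, helper2)

The functional `F = s^(3/2) y + s r (1 + y/4) - (3/4) s^(1/2) r`, `r = 2 n / (3 s²)`, `y = 1 - r`,
with `Φ = -(1/2) s^(-1/2) X + (1/9) n s^(-5/2) X + (7/12) s^(-3/2) X²` and
`Ψ = (19/36) s^(-5/2) (X ⊗ X² - X² ⊗ X)` satisfies all the pointwise inequalities.
-/

noncomputable section

namespace Pool.Agent.RFS.Ph1

/-- `16 e² ≤ r³` for a trace free triple, `r = 2 n / 3`. -/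
private theorem ee_sq_le {x : Fin 3 → ℝ} (hx : x 2 = -x 0 - x 1) :
    16 * ee x ^ 2 ≤ (2 / 3 * nn x) ^ 3 := by
  have h := sq_nonneg ((x 0 - x 1) * (x 1 - x 2) * (x 2 - x 0))
  have e : (2 / 3 * nn x) ^ 3 - 16 * ee x ^ 2 =
      16 / 27 * ((x 0 - x 1) * (x 1 - x 2) * (x 2 - x 0)) ^ 2 := by
    simp only [nn, ee, Fin.sum_univ_three]
    rw [hx]
    ring
  linarith

/-- The zero order part as an affine function of `e = x₁ x₂ x₃`; here `r = ρ²`. -/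
private def ZA (r w : ℝ) : ℝ :=
  r * (5 / 2 - 15 / 2 * w + 6 * w ^ 2 + 5 / 2 * w ^ 3 - 3 * w ^ 4
    + r * (-(27 / 32) + 15 / 8 * w + 9 / 16 * w ^ 2 - 1 / 2 * w ^ 3) + 3 / 8 * r ^ 2 * w)

private def ZB (r w : ℝ) : ℝ :=
  4 * (-(25 / 16) + 5 * w - 3 * w ^ 2 + r * (7 / 32 - 2 * w))

private theorem Zf_eq {x : Fin 3 → ℝ} (w : ℝ) (hx : x 2 = -x 0 - x 1) :
    Zf p0 w x = ZA (2 / 3 * nn x) w + ee x * ZB (2 / 3 * nn x) w := by
  simp only [Zf, fs, fn, f0, p0, ZA, ZB, nn, ee, Fin.sum_univ_three]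
  rw [hx]
  ring

private theorem Z_axis (t w : ℝ) (hw : 0 ≤ w) (hd : 0 ≤ 1 - w ^ 2 - t ^ 2) :
    0 ≤ ZA (t ^ 2) w + t ^ 3 / 4 * ZB (t ^ 2) w := by
  have h := mul_nonneg (sq_nonneg t) (certZ t w hw hd)
  exact le_of_le_of_eq h (by unfold ZA ZB; ring)

private theorem Z_nonneg (x : Fin 3 → ℝ) (w : ℝ) (hx : ∑ i, x i = 0) (hw : 0 ≤ w)
    (hd : 3 * w ^ 2 ≤ 3 - 2 * nn x) : 0 ≤ Zf p0 w x := by
  have hx2 : x 2 = -x 0 - x 1 := by
    simp only [Fin.sum_univ_three] at hx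
    linarith
  have hn : 0 ≤ nn x := by
    simp only [nn]
    positivity
  obtain ⟨t, ht0, ht⟩ : ∃ t : ℝ, 0 ≤ t ∧ t ^ 2 = 2 / 3 * nn x :=
    ⟨Real.sqrt (2 / 3 * nn x), Real.sqrt_nonneg _, Real.sq_sqrt (by positivity)⟩
  have h1 := Z_axis t w hw (by rw [ht]; linarith)
  have h2 := Z_axis (-t) w hw (by rw [neg_sq, ht]; linarith)
  have he := ee_sq_le hx2
  rw [Zf_eq w hx2, ← ht]
  rw [neg_sq] at h2
  rw [← ht] at he
  have he2 : |ee x| ≤ t ^ 3 / 4 := by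
    apply abs_le_of_sq_le_sq _ (by positivity)
    nlinarith
  obtain ⟨l1, l2⟩ := abs_le.mp he2
  have h3 : (-t) ^ 3 / 4 = -(t ^ 3 / 4) := by ring
  rw [h3] at h2
  rcases le_total 0 (ZB (t ^ 2) w) with hB | hB
  · nlinarith
  · nlinarith

private theorem F_ge (n w : ℝ) (hn : 0 ≤ n) (hw : 0 ≤ w) (hd : 3 * w ^ 2 ≤ 3 - 2 * n) :
    w ≤ f0 p0 n w := by
  have hw1 : w ≤ 1 := by nlinarith
  have hy : 0 ≤ 1 - 2 / 3 * n - w ^ 2 := by linarith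
  have hy0 : 0 ≤ 1 - 2 / 3 * n := by nlinarith
  have h1 : 0 ≤ 3 / 4 * (2 / 3 * n) * (1 - 2 / 3 * n - w ^ 2) := by positivity
  have h2 : 0 ≤ (1 - w) ^ 3 / 4 := by
    have : 0 ≤ 1 - w := by linarith
    positivity
  have h3 : 0 ≤ (1 - 2 / 3 * n - w ^ 2) * (3 - w) / 4 := by
    have : 0 ≤ 3 - w := by linarith
    positivity
  have h4 := mul_nonneg hy0 (add_nonneg h2 h3)
  have e : f0 p0 n w - w = 3 / 4 * (2 / 3 * n) * (1 - 2 / 3 * n - w ^ 2)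
      + (1 - 2 / 3 * n) * ((1 - w) ^ 3 / 4 + (1 - 2 / 3 * n - w ^ 2) * (3 - w) / 4) := by
    simp only [f0, p0]
    ring
  linarith

private theorem F_le (n w : ℝ) (hn : 0 ≤ n) (hw : 0 ≤ w) (hd : 3 * w ^ 2 ≤ 3 - 2 * n) :
    f0 p0 n w ≤ 1 + n := by
  have hw1 : w ≤ 1 := by nlinarith
  have h1 : 0 ≤ n * (5 / 6 * (1 - w)) := by
    have : 0 ≤ 1 - w := by linarith
    positivity
  have h2 : 0 ≤ n * (5 / 6 + w * n / 9 + w ^ 2 / 2) := by positivity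
  have e : 1 + n - f0 p0 n w = n * (5 / 6 * (1 - w)) + n * (5 / 6 + w * n / 9 + w ^ 2 / 2) := by
    simp only [f0, p0]
    ring
  linarith

theorem exists_good : ∃ p : Par, Good p :=
  ⟨p0, fun x w β hx hw hd hs hc => Qf_nonneg x w β hx hw hd hs hc,
    fun x w hx hw hd => Z_nonneg x w hx hw hd,
    fun n w hn hw hd => F_ge n w hn hw hd,
    fun n w hn hw hd => F_le n w hn hw hd⟩

end Pool.Agent.RFS.Ph1
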