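import Pool.Agent.RFS.PMon
import Pool.Agent.RFS.PCer

/-!
# RFS phase 1: the consequence of the monotonicity, given the preserved domain
-/

open Set MeasureTheory

noncomputable section

namespace Pool.Agent.RFS.Ph1

open Pool.Agent.RFS.Ham

variable {A : Type*} [CommRing A] [Algebra ℝ A] {S : RFAlg A} {M : Type*} [TopologicalSpace M]
  [MeasurableSpace M] {b : ℝ}

theorem PFinT_total [CompactSpace M] [BorelSpace M] (X : RFSpace S M b) (hb0 : 0 < b)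
    (hb : b ≤ 1 / 4) (hD : Dom X)
    (v : M → ℝ) (hv : ∀ z, X.tm z = 0 → X.ev z (sS S) = v (X.bs z))
    (t : ℝ) (ht : t ∈ Ioo 0 b) (m ε : ℝ) (hm : ∀ z, X.tm z = t → X.ev z (sS S) ≤ m)
    (hε : 0 ≤ ε) (hn : ∀ z, X.tm z = t → X.ev z (nS S) ≤ ε * X.ev z (sS S) ^ 2) :
    ∫ p, v p ∂(X.vol 0) ≤ (1 + ε) * m ^ (3 / 2 : ℝ) * (X.vol t univ).toReal := by
  obtain ⟨p, hp⟩ := exists_good
  obtain ⟨u, hr, hmu⟩ := exists_aux X hb fun z => (hD z).1
  have hu : AuxOk X u := ⟨hr, hmu⟩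
  obtain ⟨U, hU⟩ := PMon_exists_rep X (FS_inv X u hr hmu p)
  obtain ⟨w, hw⟩ := PMon_exists_rep X (inv_s X)
  have h00 : (0 : ℝ) ∈ Ico 0 b := ⟨le_rfl, hb0⟩
  have ht' : t ∈ Ico 0 b := ⟨ht.1.le, ht.2⟩
  have hvw : v = fun q => w 0 q := by
    funext q
    obtain ⟨z, hz1, hz2⟩ := X.exists_pt 0 h00 q
    have e1 := hv z hz1
    have e2 := hw z
    rw [hz2] at e1
    rw [hz1, hz2] at e2
    rw [← e1, ← e2]
  have step1 : ∫ q, v q ∂(X.vol 0) ≤ ∫ q, U 0 q ∂(X.vol 0) := by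
    rw [hvw]
    apply integral_mono (PMon_integrable X hw h00) (PMon_integrable X hU h00)
    intro q
    obtain ⟨z, hz1, hz2⟩ := X.exists_pt 0 h00 q
    have e1 := hU z
    have e2 := hw z
    rw [hz1, hz2] at e1 e2
    show w 0 q ≤ U 0 q
    rw [← e1, ← e2]
    exact FS_ge X hb hD u hu p hp z hz1
  have step2 := W_mono X hb0 hb hD u hu p hp U hU t ht'
  let _ : IsFiniteMeasure (X.vol t) := X.vol_fin t ht'
  have step3 : ∫ q, U t q ∂(X.vol t) ≤ ∫ _q, (1 + ε) * m ^ (3 / 2 : ℝ) ∂(X.vol t) := by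
    apply integral_mono (PMon_integrable X hU ht') (integrable_const _)
    intro q
    obtain ⟨z, hz1, hz2⟩ := X.exists_pt t ht' q
    have e1 := hU z
    rw [hz1, hz2] at e1
    show U t q ≤ (1 + ε) * m ^ (3 / 2 : ℝ)
    rw [← e1]
    have hs := (hD z).1
    have h1 := hm z hz1
    have h2 := hn z hz1
    refine (FS_le X hb hD u hu p hp z).trans ?_
    have h3 : X.ev z (sS S) ^ (3 / 2 : ℝ) ≤ m ^ (3 / 2 : ℝ) :=
      Real.rpow_le_rpow hs.le h1 (by norm_num)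
    have h4 : X.ev z (nS S) / X.ev z (sS S) ^ 2 ≤ ε := by
      rw [div_le_iff₀ (by positivity)]; exact h2
    have h5 : 0 ≤ X.ev z (sS S) ^ (3 / 2 : ℝ) := Real.rpow_nonneg hs.le _
    have h6 : 0 ≤ m ^ (3 / 2 : ℝ) := h5.trans h3
    calc X.ev z (sS S) ^ (3 / 2 : ℝ) * (1 + X.ev z (nS S) / X.ev z (sS S) ^ 2)
        ≤ X.ev z (sS S) ^ (3 / 2 : ℝ) * (1 + ε) := mul_le_mul_of_nonneg_left (by linarith) h5
      _ ≤ m ^ (3 / 2 : ℝ) * (1 + ε) := mul_le_mul_of_nonneg_right h3 (by linarith)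
      _ = (1 + ε) * m ^ (3 / 2 : ℝ) := mul_comm _ _
  rw [integral_const, smul_eq_mul, mul_comm] at step3
  exact step1.trans (step2.trans step3)

end Pool.Agent.RFS.Ph1
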