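import Pool.Agent.RFS.PFinD
import Pool.Agent.RFS.PFinT

/-!
# RFS phase 1: output statements

`domain_preserved` is proved in PFinD.lean; here is its consequence for the functional.
-/

open Set MeasureTheory

noncomputable section

namespace Pool.Agent.RFS.Ph1

variable {A : Type*} [CommRing A] [Algebra ℝ A] {S : RFAlg A} {M : Type*} [TopologicalSpace M]
  [MeasurableSpace M] {b : ℝ}

/-- The consequence of the monotonicity of `W_t = ∫ λ^(-3/2) F (λ P) dv`, `λ = 1 - 4t`. -/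
theorem total_le [Nonempty M] [CompactSpace M] [BorelSpace M] (X : RFSpace S M b) (hb : 0 < b)
    (h0 : ∀ z, X.tm z = 0 → 0 < X.ev z (Ham.sS S) ∧
      3 * X.ev z (Ham.sS S) ≤ 3 * X.ev z (Ham.sS S) ^ 2 - 2 * X.ev z (Ham.nS S))
    (u : M → ℝ) (hu : ∀ z, X.tm z = 0 → X.ev z (Ham.sS S) = u (X.bs z))
    (t : ℝ) (ht : t ∈ Ioo 0 b) (m ε : ℝ) (hm : ∀ z, X.tm z = t → X.ev z (Ham.sS S) ≤ m)
    (hε : 0 ≤ ε) (hn : ∀ z, X.tm z = t → X.ev z (Ham.nS S) ≤ ε * X.ev z (Ham.sS S) ^ 2) :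
    ∫ p, u p ∂(X.vol 0) ≤ (1 + ε) * m ^ (3 / 2 : ℝ) * (X.vol t univ).toReal := by
  obtain ⟨hb4, hD⟩ := domain_preserved X hb h0
  exact PFinT_total X hb hb4 hD u hu t ht m ε hm hε hn

end Pool.Agent.RFS.Ph1
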