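import Pool.Agent.RFS.FSL
import Pool.Agent.RFS.PFin
import Pool.Agent.RFS.CG2

/-!
# RFS, chunk (f), module FFL: the sharp bound for the initial metric, from the flow
-/

open scoped Manifold ContDiff Matrix
open Set MeasureTheory

noncomputable section

namespace Pool.Agent.RFS

open Ham

universe u

/-- Short time existence (statement of chunk (a)). -/
def ShortTime (M : Type u) [TopologicalSpace M] [ChartedSpace E3 M] : Prop :=
  ∀ g₀ : RMetric M, ∃ ε > 0, ∃ g : ℝ → RMetric M, IsRF g (Icc 0 ε) ∧ Agree (g 0) g₀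

/-- Existence of the frame calculus (statement of chunk (b)). -/
def HasSpace (M : Type u) [TopologicalSpace M] [ChartedSpace E3 M] [MeasurableSpace M] : Prop :=
  ∀ (b : ℝ) (g : ℝ → RMetric M), 0 < b → IsRF g (Ico 0 b) →
    ∃ (A : Type u) (_ : CommRing A) (_ : Algebra ℝ A) (S : RFAlg A) (X : RFSpace.{u, u, u} S M b)
      (_ : FrRep X g), ∀ t ∈ Ico 0 b, IsVol (g t) (X.vol t)

/-- Extension of flows with bounded curvature (statement of chunk (c)). -/
def Extends (M : Type u) [TopologicalSpace M] [ChartedSpace E3 M] [MeasurableSpace M] : Prop :=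
  ∀ (b : ℝ) (g : ℝ → RMetric M), 0 < b → IsRF g (Ico 0 b) →
    ∀ (A : Type u) (_ : CommRing A) (_ : Algebra ℝ A) (S : RFAlg A) (X : RFSpace.{u, u, u} S M b)
      (_ : FrRep X g), (∃ K : ℝ, ∀ z i j, |X.ev z (S.P i j)| ≤ K) →
      ∃ g' : ℝ → RMetric M, (∀ t ∈ Ico 0 b, g' t = g t) ∧ IsRF g' (Icc 0 b)

variable {M : Type u} [TopologicalSpace M] [ChartedSpace E3 M]

theorem IsRF.update {g : ℝ → RMetric M} {J : Set ℝ} (h : IsRF g J) {g₀ : RMetric M}
    (h0 : Agree g₀ (g 0)) : IsRF (Function.update g 0 g₀) J := by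
  refine h.congr fun t _ e x hx => ?_
  by_cases ht : t = 0
  · subst ht
    rw [Function.update_self]
    exact h0 e x hx
  · rw [Function.update_of_ne ht]

variable [MeasurableSpace M]

/-- The condition at the initial time. -/
theorem initial_cond {A : Type*} [CommRing A] [Algebra ℝ A] {S : RFAlg A} {b : ℝ}
    {X : RFSpace S M b} {g : ℝ → RMetric M} (R : FrRep X g)
    (h1 : ∀ e : Ch M, ∀ x ∈ e.1.target, 0 < sig1 ((g 0).c e) x)
    (h2 : ∀ e : Ch M, ∀ x ∈ e.1.target, 1 / 2 ≤ sig2 ((g 0).c e) x / sig1 ((g 0).c e) x)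
    (z : X.Fr) (hz : X.tm z = 0) :
    0 < X.ev z (sS S) ∧ 3 * X.ev z (sS S) ≤ 3 * X.ev z (sS S) ^ 2 - 2 * X.ev z (nS S) := by
  obtain ⟨e, t, x, a, ha, rfl⟩ := R.surj z
  have ht : t = 0 := by rw [← R.tm_fr e t x a ha, hz]
  subst ht
  obtain ⟨-, e1, e2⟩ := scalar_values R ha
  have h3 := h1 e x ha.2.1
  have h4 := h2 e x ha.2.1
  rw [le_div_iff₀ h3] at h4
  rw [e1] at h3 h4
  rw [e2] at h4
  constructor <;> linarith

theorem core_bound [CompactSpace M] [BorelSpace M] [Nonempty M]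
    (hA : ShortTime M) (hB : HasSpace M) (hC : Extends M) (hE1 : LocalMyers M) (hE2 : Bishop M)
    (g₀ : RMetric M)
    (h1 : ∀ e : Ch M, ∀ x ∈ e.1.target, 0 < sig1 (g₀.c e) x)
    (h2 : ∀ e : Ch M, ∀ x ∈ e.1.target, 1 / 2 ≤ sig2 (g₀.c e) x / sig1 (g₀.c e) x)
    (s : M → ℝ) (hs : ∀ e : Ch M, ∀ x ∈ e.1.target, s (e.1.symm x) = scal (g₀.c e) x / 6)
    (huniq : ∀ μ ν : Measure M, IsVol g₀ μ → IsVol g₀ ν → μ = ν)
    (μ : Measure M) (hμ : IsVol g₀ μ) : ∫ p, s p ∂μ ≤ 2 * Real.pi ^ 2 := by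
  -- the bound of the life time
  have hlife : ∀ (b : ℝ) (g : ℝ → RMetric M), 0 < b → IsRF g (Ico 0 b) → Agree (g 0) g₀ →
      b ≤ 1 / 4 := by
    intro b g hb hg hag
    have hg' : IsRF (Function.update g 0 g₀) (Ico 0 b) :=
      hg.update fun e x hx => (hag e x hx).symm
    obtain ⟨A, _, _, S, X, R, -⟩ := hB b _ hb hg'
    have h0 : (Function.update g 0 g₀) 0 = g₀ := Function.update_self _ _ _
    exact (Ph1.domain_preserved X hb
      (initial_cond R (by rw [h0]; exact h1) (by rw [h0]; exact h2))).1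
  obtain ⟨b, hb, hb4, g, hg, hag, hgood⟩ := exists_maximal_flow
    (fun b g => ∃ g' : ℝ → RMetric M, (∀ t ∈ Ico 0 b, g' t = g t) ∧ IsRF g' (Icc 0 b))
    hA (fun b g _ _ h => h) g₀ (1 / 4) hlife
  have hag' : Agree g₀ (g 0) := fun e x hx => (hag e x hx).symm
  set γ : ℝ → RMetric M := Function.update g 0 g₀ with hγ
  have hγ0 : γ 0 = g₀ := Function.update_self _ _ _
  have hγf : IsRF γ (Ico 0 b) := hg.update hag'
  obtain ⟨A, _, _, S, X, R, hvol⟩ := hB b γ hb hγf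
  have hunb : ¬ ∃ K : ℝ, ∀ z i j, |X.ev z (S.P i j)| ≤ K := by
    intro hK
    obtain ⟨γ', hγ'1, hγ'2⟩ := hC b γ hb hγf A _ _ S X R hK
    refine hgood ⟨Function.update γ' 0 (g 0), fun t ht => ?_, ?_⟩
    · by_cases h : t = 0
      · subst h
        rw [Function.update_self]
      · rw [Function.update_of_ne h, hγ'1 t ht, hγ, Function.update_of_ne h]
    · refine hγ'2.update ?_
      rw [hγ'1 0 ⟨le_refl _, hb⟩, hγ0]
      exact hag
  have hini := initial_cond R (by rw [hγ0]; exact h1) (by rw [hγ0]; exact h2)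
  obtain ⟨-, hdom⟩ := Ph1.domain_preserved X hb hini
  have hn : ∀ z, X.ev z (nS S) ≤ (3 / 2) * X.ev z (sS S) ^ 2 := by
    intro z
    obtain ⟨d1, d2⟩ := hdom z
    have d3 : 0 < 1 - 4 * X.tm z := by
      have := (X.tm_mem z).2
      linarith
    by_contra hcon
    push Not at hcon
    have d4 : (1 - 4 * X.tm z) * (3 * X.ev z (sS S) ^ 2 - 2 * X.ev z (nS S)) ≤ 0 :=
      mul_nonpos_of_nonneg_of_nonpos d3.le (by linarith)
    linarith
  have hsup : ∀ L : ℝ, ∃ z, L ≤ X.ev z (sS S) := by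
    intro L
    by_contra hcon
    push Not at hcon
    refine hunb ⟨3 * L, fun z i j => ?_⟩
    have d1 := abs_P_le X z i j
    have d2 := hn z
    have d3 := (hdom z).1
    have d4 := hcon z
    refine abs_le_of_sq_le_sq ?_ (by linarith)
    nlinarith
  have h0 : ∀ z, X.tm z = 0 → 1 ≤ X.ev z (sS S) ∧ X.ev z (nS S) ≤ (3 / 2) * X.ev z (sS S) ^ 2 := by
    intro z hz
    obtain ⟨d1, d2⟩ := hini z hz
    refine ⟨?_, hn z⟩
    have d3 := ev_n_nonneg X z
    by_contra hcon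
    push Not at hcon
    nlinarith
  have hu : ∀ z, X.tm z = 0 → X.ev z (sS S) = s (X.bs z) := by
    intro z hz
    obtain ⟨e, t, x, a, ha, rfl⟩ := R.surj z
    have ht : t = 0 := by rw [← R.tm_fr e t x a ha, hz]
    subst ht
    rw [R.bs_fr e 0 x a ha, hs e x ha.2.1, ← hγ0, (scalar_values R ha).1]
    ring
  have hμ0 : X.vol 0 = μ := by
    have h := hvol 0 ⟨le_refl _, hb⟩
    rw [hγ0] at h
    exact huniq _ _ h hμ
  rw [← hμ0]
  refine slice_le X hE1 hE2 R hvol hb h0 hsup _ fun t ht m ε hm hε hne => ?_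
  exact Ph1.total_le X hb hini s hu t ht m ε hm hε hne

end Pool.Agent.RFS
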