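import Pool.Agent.RFS.Defs1

/-!
# RFS, chunk (f), module FGM: the notions of the final statement, in literal terms

Riemannian metrics (in the sense of Mathlib) in coordinates.  The manifold `M` is modelled on the
normed space `E`; in Mathlib the tangent space at every point of `M` is a copy of `E`.  Everything
is expressed through the charts `chartAt E z` of Mathlib.
-/

open scoped Manifold ContDiff Matrix
open Set MeasureTheory

noncomputable section

namespace Pool.Agent.RFS

section Generic

variable {E : Type*} [NormedAddCommGroup E] [NormedSpace ℝ E]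
  {M : Type*} [TopologicalSpace M] [ChartedSpace E M]

variable (E M) in
/-- Smooth Riemannian metrics on the manifold `M` modelled on `E` (in the sense of Mathlib). -/
abbrev RiemMetric [IsManifold 𝓘(ℝ, E) ∞ M] :=
  Bundle.ContMDiffRiemannianMetric 𝓘(ℝ, E) ∞ E (fun p : M => TangentSpace 𝓘(ℝ, E) p)

/-- The scalar product `g_p` on the tangent space at `p` (which is `E` in Mathlib). -/
def innerAt [IsManifold 𝓘(ℝ, E) ∞ M] (g : RiemMetric E M) (p : M) : E →L[ℝ] E →L[ℝ] ℝ :=
  g.inner p

/-- The derivative of the inverse of the chart at `z`, at the point with coordinates `y`, as a map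
of the tangent spaces (which are `E` in Mathlib). -/
def dChart (z : M) (y : E) : E →L[ℝ] E :=
  mfderiv 𝓘(ℝ, E) 𝓘(ℝ, E) (chartAt E z).symm y

/-- The metric `g(v, w)` in the coordinates of the chart at `z`. -/
def chartInner [IsManifold 𝓘(ℝ, E) ∞ M] (g : RiemMetric E M) (z : M) (y v w : E) : ℝ :=
  innerAt g ((chartAt E z).symm y) (dChart z y v) (dChart z y w)

end Generic

variable {M : Type*} [TopologicalSpace M] [ChartedSpace E3 M] [IsManifold (𝓡 3) ∞ M]

variable (M) in
/-- Smooth Riemannian metrics on the 3-manifold `M` (in the sense of Mathlib). -/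
abbrev Metric := RiemMetric E3 M

/-- The coefficients `g(∂ᵢ, ∂ⱼ)` of the metric in the chart at `z`, at the point with coordinates
`y`. -/
def metricCoeff (g : Metric M) (z : M) (y : E3) : Mat3 :=
  Matrix.of fun i j => chartInner g z y (bv i) (bv j)

/-- `σ₁(g)` at the point `p`. -/
def sigma1 (g : Metric M) (p : M) : ℝ := sig1 (metricCoeff g p) (chartAt E3 p p)

/-- `σ₂(g)` at the point `p`. -/
def sigma2 (g : Metric M) (p : M) : ℝ := sig2 (metricCoeff g p) (chartAt E3 p p)

/-- `μ` is the Riemannian volume measure: in each chart it is `√(det Gᵢⱼ)` times Lebesgue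
measure. -/
def IsRiemannianVolume [MeasurableSpace M] (g : Metric M) (μ : Measure M) : Prop :=
  ∀ (z : M) (A : Set M), MeasurableSet A → A ⊆ (chartAt E3 z).source →
    μ A = ∫⁻ y in (chartAt E3 z) '' A, ENNReal.ofReal (Real.sqrt (metricCoeff g z y).det)

end Pool.Agent.RFS
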