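import Pool.Agent.RFS.FFI
import Pool.Agent.RFS.FDV

/-!
# RFS, chunk (f), module FIG: `σ₁` is continuous and integrable
-/

open scoped Manifold ContDiff Matrix Bundle
open Set MeasureTheory

noncomputable section

namespace Pool.Agent.RFS

variable {M : Type*} [TopologicalSpace M] [ChartedSpace E3 M] [IsManifold (𝓡 3) ∞ M]

theorem continuous_sigma1 (g : Metric M) : Continuous (sigma1 g) := by
  refine continuous_of_charts (M := M) (sigma1 g) fun e => ?_
  have h : ContDiffOn ℝ ∞ (scal ((ofMathlib g).c e)) e.1.target :=
    contDiffOn_scal e.1.open_target ((ofMathlib g).smooth e)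
      fun x hx => ((ofMathlib g).pos e x hx).det_pos.ne'
  refine (h.continuousOn.div_const 4).congr fun x hx => ?_
  rw [sigma1_eq g e hx, sig1_eq_scal _ e hx]

theorem integrable_sigma1 [CompactSpace M] [MeasurableSpace M] [BorelSpace M] (g : Metric M)
    {μ : Measure M} (hμ : IsRiemannianVolume g μ) : Integrable (sigma1 g) μ := by
  have := isVol_finite (ofMathlib g) ((isRiemannianVolume_iff g μ).1 hμ)
  exact (continuous_sigma1 g).integrable_of_hasCompactSupport
    (HasCompactSupport.of_compactSpace _)

end Pool.Agent.RFS
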