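import Pool.Agent.RFS.FIG
import Pool.Agent.RFS.CFin
import Pool.Agent.RFS.A2FN
import Pool.Agent.RFS.BEX
import Pool.Agent.RFS.EHt

/-!
# RFS, chunk (f), module FTop: the outputs of the other chunks in the form of the assembly
-/

open scoped Manifold ContDiff Matrix Bundle
open Set MeasureTheory

noncomputable section

namespace Pool.Agent.RFS

universe u

theorem extends_holds (M : Type u) [TopologicalSpace M] [ChartedSpace E3 M]
    [MeasurableSpace M] : Extends M :=
  fun _b _g hb hg _A _ _ _S _X R hK => IsRF.extend hb hg R hK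

theorem shortTime_holds (M : Type u) [TopologicalSpace M] [ChartedSpace E3 M]
    [IsManifold (𝓡 3) ∞ M] [CompactSpace M] [T2Space M] : ShortTime M := by
  intro g₀
  obtain ⟨ε, hε, g, h1, h2⟩ := AA.short_time g₀
  exact ⟨ε, hε, g, h2, h1⟩

theorem hasSpace_holds (M : Type u) [TopologicalSpace M] [ChartedSpace E3 M]
    [IsManifold (𝓡 3) ∞ M] [CompactSpace M] [T2Space M] [Nonempty M] [MeasurableSpace M]
    [BorelSpace M] : HasSpace M := by
  intro b g hb hg
  obtain ⟨A, i1, i2, S, X, ⟨R⟩, hv⟩ := exists_RFSpace hb g hg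
  exact ⟨A, i1, i2, S, X, R, hv⟩

theorem localMyers_holds (M : Type u) [TopologicalSpace M] [ChartedSpace E3 M]
    [IsManifold (𝓡 3) ∞ M] [CompactSpace M] [T2Space M] [ConnectedSpace M] : LocalMyers M :=
  EE.localMyersM

theorem bishop_holds (M : Type u) [TopologicalSpace M] [ChartedSpace E3 M]
    [IsManifold (𝓡 3) ∞ M] [CompactSpace M] [T2Space M] [ConnectedSpace M] [MeasurableSpace M]
    [BorelSpace M] : Bishop M :=
  EE.bishopM

/-- The comparison inequality for the `σ₂ / σ₁` quotient in dimension three. -/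
theorem sigma_bound (M : Type u) [TopologicalSpace M] [T2Space M] [CompactSpace M]
    [ConnectedSpace M] [ChartedSpace E3 M] [IsManifold (𝓡 3) ∞ M] [MeasurableSpace M]
    [BorelSpace M] (g : Metric M) (μ : Measure M) (hμ : IsRiemannianVolume g μ)
    (h1 : ∀ p : M, 0 < sigma1 g p) (h2 : ∀ p : M, 1 / 2 ≤ sigma2 g p / sigma1 g p) :
    ∫ p, sigma1 g p ∂μ ≤ 3 * Real.pi ^ 2 :=
  final_of (shortTime_holds M) (hasSpace_holds M) (extends_holds M) (localMyers_holds M)
    (bishop_holds M) g μ hμ h1 h2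

end Pool.Agent.RFS
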