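import Pool.Agent.RFS.FCH

/-!
# RFS, chunk (f), module FVA: the volume density does not depend on the chart

Proof of `lintegral_ov`: write `e'.1 '' A = trans e e' '' (e.1 '' A)` and apply
`MeasureTheory.lintegral_image_eq_lintegral_abs_det_fderiv_mul` (the map `trans e e'` is injective
on `e.1 '' A`); `√ det G_e (x) = |det jac| √ det G_{e'} (trans e e' x)` by `g.compat`.
Proof of `measurableSet_image`: `e '' A = e.target ∩ e.symm ⁻¹' A`, the restriction of `e.symm` to
the (measurable) subtype `e.target` is continuous, `MeasurableSet.subtype_image`.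
-/

open scoped Manifold ContDiff Matrix
open Set MeasureTheory

noncomputable section

namespace Pool.Agent.RFS

variable {M : Type*} [TopologicalSpace M] [ChartedSpace E3 M] [MeasurableSpace M] [BorelSpace M]

theorem measurableSet_image (e : Ch M) {A : Set M} (hA : MeasurableSet A)
    (hs : A ⊆ e.1.source) : MeasurableSet (e.1 '' A) := by
  rw [e.1.image_eq_target_inter_inv_preimage hs]
  have h1 : Measurable (e.1.target.domRestrict e.1.symm) :=
    (continuousOn_iff_continuous_domRestrict.1 e.1.symm.continuousOn).measurable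
  have h2 : MeasurableSet ((e.1.target.domRestrict e.1.symm) ⁻¹' A) := h1 hA
  have h3 := e.1.open_target.measurableSet.subtype_image h2
  convert h3 using 1
  ext x
  constructor
  · rintro ⟨h, h'⟩
    exact ⟨⟨x, h⟩, h', rfl⟩
  · rintro ⟨⟨y, h⟩, h', rfl⟩
    exact ⟨h, h'⟩

theorem lintegral_ov [IsManifold (𝓡 3) ∞ M] (g : RMetric M) (e e' : Ch M) {A : Set M}
    (hA : MeasurableSet A) (hs : A ⊆ e.1.source) (hs' : A ⊆ e'.1.source) :
    ∫⁻ x in e.1 '' A, ENNReal.ofReal (Real.sqrt (g.c e x).det) =
      ∫⁻ x in e'.1 '' A, ENNReal.ofReal (Real.sqrt (g.c e' x).det) := by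
  have him : e'.1 '' A = (trans e e') '' (e.1 '' A) := by
    rw [← image_comp]
    apply image_congr
    intro a ha
    simp [trans, e.1.left_inv (hs ha)]
  have hmem : ∀ x ∈ e.1 '' A, x ∈ ov e e' := by
    rintro x ⟨a, ha, rfl⟩
    refine ⟨e.1.map_source (hs ha), ?_⟩
    rw [e.1.left_inv (hs ha)]
    exact hs' ha
  have hinj : InjOn (trans e e') (e.1 '' A) := by
    rintro x ⟨a, ha, rfl⟩ y ⟨b, hb, rfl⟩ hxy
    simp only [trans, e.1.left_inv (hs ha), e.1.left_inv (hs hb)] at hxy
    rw [e'.1.injOn (hs' ha) (hs' hb) hxy]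
  have hd : ∀ x ∈ e.1 '' A, DifferentiableAt ℝ (trans e e') x := fun x hx =>
    ((contDiffOn_trans e e').contDiffAt ((isOpen_ov e e').mem_nhds (hmem x hx))).differentiableAt
      (by simp)
  rw [him, lintegral_image_eq_lintegral_abs_det_fderiv_mul volume (measurableSet_image e hA hs)
    (fun x hx => (hd x hx).hasFDerivAt.hasFDerivWithinAt) hinj]
  apply setLIntegral_congr_fun (measurableSet_image e hA hs)
  intro x hx
  have hx' := hmem x hx
  simp only
  rw [g.compat e e' x hx'.1 hx'.2, det_fderiv_trans e e' hx', Matrix.det_mul, Matrix.det_mul,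
    Matrix.det_transpose]
  rw [show (jac e e' x).det * (g.c e' (trans e e' x)).det * (jac e e' x).det =
    (jac e e' x).det ^ 2 * (g.c e' (trans e e' x)).det by ring]
  rw [Real.sqrt_mul (sq_nonneg _), Real.sqrt_sq_eq_abs, ENNReal.ofReal_mul (abs_nonneg _)]

end Pool.Agent.RFS
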