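import Pool.Agent.RFS.NSY

/-!
# RFS, chunk N, module NJT: Christoffel symbols and Ricci tensor as functions of the 2-jet

`chrJ g dg`, `dchrJ g dg ddg`, `ricciJ g dg ddg`: explicit rational functions, smooth for
`det g ≠ 0`, with `chr G x = chrJ (G x) (dmat G x)`, `∂ₙ chr = dchrJ (G x) (dmat G x) (ddmat G x)`,
`ricci G x = ricciJ (G x) (dmat G x) (ddmat G x)`.
-/

open scoped Manifold ContDiff Matrix Topology
open Set

noncomputable section

namespace Pool.Agent.RFS.NN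

/-- Christoffel symbols as a function of the 1-jet; `dg i` is the matrix `∂ᵢ g`. -/
def chrJ (g : Mat3) (dg : Fin 3 → Mat3) (k i j : Fin 3) : ℝ :=
  (1 / 2) * ∑ l, g⁻¹ k l * (dg i j l + dg j i l - dg l i j)

/-- First derivatives of the Christoffel symbols as a function of the 2-jet;
`ddg n m` is the matrix `∂ₙ ∂ₘ g`. -/
def dchrJ (g : Mat3) (dg : Fin 3 → Mat3) (ddg : Fin 3 → Fin 3 → Mat3) (n k i j : Fin 3) : ℝ :=
  (1 / 2) * ∑ l, ((-(g⁻¹ * dg n * g⁻¹)) k l * (dg i j l + dg j i l - dg l i j)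
    + g⁻¹ k l * (ddg n i j l + ddg n j i l - ddg n l i j))

/-- The Ricci tensor as a function of the 2-jet. -/
def ricciJ (g : Mat3) (dg : Fin 3 → Mat3) (ddg : Fin 3 → Fin 3 → Mat3) (j k : Fin 3) : ℝ :=
  ∑ i, (dchrJ g dg ddg i i j k - dchrJ g dg ddg j i i k
    + ∑ m, (chrJ g dg i i m * chrJ g dg m j k - chrJ g dg i j m * chrJ g dg m i k))

/-- the matrices of the second partial derivatives -/
def ddmat (G : E3 → Mat3) (x : E3) (n m : Fin 3) : Mat3 :=
  Matrix.of fun a b => pd n (fun y => pd m (fun z => G z a b) y) x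

theorem chr_eq_chrJ (G : E3 → Mat3) (x : E3) (k i j : Fin 3) :
    chr G x k i j = chrJ (G x) (dmat G x) k i j := rfl

section

variable {U : Set E3} {G : E3 → Mat3}

theorem ddmat_comm (hU : IsOpen U) (hG : ∀ i j, ContDiffOn ℝ ∞ (fun y => G y i j) U)
    {x : E3} (hx : x ∈ U) (n m : Fin 3) : ddmat G x n m = ddmat G x m n := by
  ext a b
  exact pd_comm_of_contDiffOn hU (hG a b) hx n m

theorem ddmat_symm (hU : IsOpen U) (hs : ∀ y ∈ U, (G y)ᵀ = G y) {x : E3} (hx : x ∈ U)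
    (n m : Fin 3) : (ddmat G x n m)ᵀ = ddmat G x n m := by
  ext a b
  exact pd_congr_of_mem hU hx (fun y hy =>
    pd_congr_of_mem hU hy (fun z hz => mat_symm_apply (hs z hz) b a) m) n

theorem pd_chr_eq (hU : IsOpen U) (hG : ∀ i j, ContDiffOn ℝ ∞ (fun y => G y i j) U)
    (hd : ∀ y ∈ U, (G y).det ≠ 0) {x : E3} (hx : x ∈ U) (n k i j : Fin 3) :
    pd n (fun y => chr G y k i j) x = dchrJ (G x) (dmat G x) (ddmat G x) n k i j := by
  have dI : ∀ a b, DifferentiableAt ℝ (fun y => (G y)⁻¹ a b) x := fun a b =>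
    differentiableAt_of_contDiffOn hU (contDiffOn_inv_entry hG hd a b) hx
  have dD : ∀ n a b, DifferentiableAt ℝ (fun y => pd n (fun z => G z a b) y) x := fun n a b =>
    differentiableAt_of_contDiffOn hU (contDiffOn_pd hU (hG a b) n) hx
  have d1 : ∀ l, DifferentiableAt ℝ (fun y => pd i (fun z => G z j l) y
      + pd j (fun z => G z i l) y) x := fun l => (dD i j l).add (dD j i l)
  have d2 : ∀ l, DifferentiableAt ℝ (fun y => pd i (fun z => G z j l) y
      + pd j (fun z => G z i l) y - pd l (fun z => G z i j) y) x := fun l =>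
    (d1 l).sub (dD l i j)
  have d3 : ∀ l, DifferentiableAt ℝ (fun y => (G y)⁻¹ k l * (pd i (fun z => G z j l) y
      + pd j (fun z => G z i l) y - pd l (fun z => G z i j) y)) x := fun l => (dI k l).mul (d2 l)
  unfold chr dchrJ
  rw [pd_const_mul (DifferentiableAt.fun_sum fun l _ => d3 l), pd_sum_univ d3]
  congr 1
  refine Finset.sum_congr rfl fun l _ => ?_
  rw [pd_mul (dI k l) (d2 l), pd_sub (d1 l) (dD l i j), pd_add (dD i j l) (dD j i l),
    ← dmat_inv hU hG hd hx n]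
  rfl

theorem ricci_eq_ricciJ (hU : IsOpen U) (hG : ∀ i j, ContDiffOn ℝ ∞ (fun y => G y i j) U)
    (hd : ∀ y ∈ U, (G y).det ≠ 0) {x : E3} (hx : x ∈ U) (j k : Fin 3) :
    ricci G x j k = ricciJ (G x) (dmat G x) (ddmat G x) j k := by
  unfold ricciJ
  simp only [← pd_chr_eq hU hG hd hx]
  rfl

end

section Smooth

variable {E : Type*} [NormedAddCommGroup E] [NormedSpace ℝ E] {r : WithTop ℕ∞} {S : Set E}
  {g : E → Mat3} {dg : E → Fin 3 → Mat3} {ddg : E → Fin 3 → Fin 3 → Mat3}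

theorem contDiffOn_mul_entry {A B : E → Mat3} (hA : ∀ a b, ContDiffOn ℝ r (fun z => A z a b) S)
    (hB : ∀ a b, ContDiffOn ℝ r (fun z => B z a b) S) (a b : Fin 3) :
    ContDiffOn ℝ r (fun z => (A z * B z) a b) S := by
  simp only [Matrix.mul_apply]
  exact ContDiffOn.sum fun c _ => (hA a c).mul (hB c b)

theorem contDiffOn_dinv_entry (hg : ∀ a b, ContDiffOn ℝ r (fun z => g z a b) S)
    (hd : ∀ z ∈ S, (g z).det ≠ 0) (hdg : ∀ n a b, ContDiffOn ℝ r (fun z => dg z n a b) S)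
    (n a b : Fin 3) :
    ContDiffOn ℝ r (fun z => (-((g z)⁻¹ * dg z n * (g z)⁻¹)) a b) S := by
  have h1 := contDiffOn_inv_entry hg hd
  simp only [Matrix.neg_apply]
  exact (contDiffOn_mul_entry (contDiffOn_mul_entry h1 (hdg n)) h1 a b).neg

theorem contDiffOn_chrJ (hg : ∀ a b, ContDiffOn ℝ r (fun z => g z a b) S)
    (hd : ∀ z ∈ S, (g z).det ≠ 0) (hdg : ∀ n a b, ContDiffOn ℝ r (fun z => dg z n a b) S)
    (k i j : Fin 3) : ContDiffOn ℝ r (fun z => chrJ (g z) (dg z) k i j) S := by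
  unfold chrJ
  refine contDiffOn_const.mul (ContDiffOn.sum fun l _ => ?_)
  exact (contDiffOn_inv_entry hg hd k l).mul (((hdg i j l).add (hdg j i l)).sub (hdg l i j))

theorem contDiffOn_dchrJ (hg : ∀ a b, ContDiffOn ℝ r (fun z => g z a b) S)
    (hd : ∀ z ∈ S, (g z).det ≠ 0) (hdg : ∀ n a b, ContDiffOn ℝ r (fun z => dg z n a b) S)
    (hddg : ∀ n m a b, ContDiffOn ℝ r (fun z => ddg z n m a b) S) (n k i j : Fin 3) :
    ContDiffOn ℝ r (fun z => dchrJ (g z) (dg z) (ddg z) n k i j) S := by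
  unfold dchrJ
  refine contDiffOn_const.mul (ContDiffOn.sum fun l _ => ?_)
  exact ((contDiffOn_dinv_entry hg hd hdg n k l).mul
    (((hdg i j l).add (hdg j i l)).sub (hdg l i j))).add
    ((contDiffOn_inv_entry hg hd k l).mul
      (((hddg n i j l).add (hddg n j i l)).sub (hddg n l i j)))

theorem contDiffOn_ricciJ (hg : ∀ a b, ContDiffOn ℝ r (fun z => g z a b) S)
    (hd : ∀ z ∈ S, (g z).det ≠ 0) (hdg : ∀ n a b, ContDiffOn ℝ r (fun z => dg z n a b) S)
    (hddg : ∀ n m a b, ContDiffOn ℝ r (fun z => ddg z n m a b) S) (j k : Fin 3) :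
    ContDiffOn ℝ r (fun z => ricciJ (g z) (dg z) (ddg z) j k) S := by
  have h1 := contDiffOn_chrJ hg hd hdg
  have h2 := contDiffOn_dchrJ hg hd hdg hddg
  unfold ricciJ
  refine ContDiffOn.sum fun i _ => ((h2 i i j k).sub (h2 j i i k)).add
    (ContDiffOn.sum fun m _ => ?_)
  exact ((h1 i i m).mul (h1 m j k)).sub ((h1 i j m).mul (h1 m i k))

end Smooth

end Pool.Agent.RFS.NN
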