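import Pool.Agent.RFS.PDef

/-!
# RFS phase 1: the certificates of the 3 x 3 block and of the zero order term

Scalar sums of squares for two polynomial inequalities on the half ball, the 3 x 3 block
(diagonally dominant with these polynomials) and the zero order term on the axis `x_2 = x_3`
(up to the factor `x²`).
-/

noncomputable section

namespace Pool.Agent.RFS.Ph1

private theorem c3_q0 (z0 z1 z2 z3 z4 z5 : ℝ) : 0 ≤ 55/36*z0^2 - 10/3*z0*z1 - 2/3*z0*z2 +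
    1/18*z0*z3 - 31/72*z0*z4 - 13/18*z0*z5 + 77/36*z1^2 + 23/36*z1*z2 + 5/36*z1*z3 - 1/18*z1*z4
    + 2/3*z1*z5 + 29/216*z2^2 - 7/72*z2*z3 + 31/108*z2*z4 + 1/6*z2*z5 + 3/8*z3^2 - 23/18*z3*z4
    - 7/24*z3*z5 + 16/9*z4^2 - 1/18*z4*z5 + 11/36*z5^2 := by
  have e : 55/36*z0^2 - 10/3*z0*z1 - 2/3*z0*z2 + 1/18*z0*z3 - 31/72*z0*z4 - 13/18*z0*z5 +
    77/36*z1^2 + 23/36*z1*z2 + 5/36*z1*z3 - 1/18*z1*z4 + 2/3*z1*z5 + 29/216*z2^2 - 7/72*z2*z3 +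
    31/108*z2*z4 + 1/6*z2*z5 + 3/8*z3^2 - 23/18*z3*z4 - 7/24*z3*z5 + 16/9*z4^2 - 1/18*z4*z5 +
    11/36*z5^2 = (55/36)*(z0 - 12/11*z1 - 12/55*z2 + 1/55*z3 - 31/220*z4 - 13/55*z5)^2 +
    (127/396)*(z1 - 35/254*z2 + 79/254*z3 - 104/127*z4 - 24/127*z5)^2 + (15209/274320)*(z2 -
    7902/15209*z3 + 16558/15209*z4 - 1044/15209*z5)^2 + (239819/730032)*(z3 - 1143079/719457*z4
    - 268057/719457*z5)^2 + (264150245/414407232)*(z4 - 132034592/264150245*z5)^2 +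
    (414107801/114112905840)*(z5)^2 := by ring
  rw [e]; positivity

private theorem c3_q1 (z0 z1 : ℝ) : 0 ≤ 103/216*z0^2 - 11/36*z0*z1 + 73/216*z1^2 := by
  have e : 103/216*z0^2 - 11/36*z0*z1 + 73/216*z1^2 = (103/216)*(z0 - 33/103*z1)^2 +
    (3215/11124)*(z1)^2 := by ring
  rw [e]; positivity

private theorem c3_q2 (z0 z1 z2 : ℝ) : 0 ≤ 5/3*z0^2 - 10/3*z0*z1 - 7/24*z0*z2 + 77/36*z1^2 -
    1/18*z1*z2 + 11/36*z2^2 := by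
  have e : 5/3*z0^2 - 10/3*z0*z1 - 7/24*z0*z2 + 77/36*z1^2 - 1/18*z1*z2 + 11/36*z2^2 = (5/3)*(z0
    - z1 - 7/80*z2)^2 + (17/36)*(z1 - 25/68*z2)^2 + (14947/65280)*(z2)^2 := by ring
  rw [e]; positivity

private theorem c3_q3 (z0 : ℝ) : 0 ≤ 29/72*z0^2 := by
  have e : 29/72*z0^2 = (29/72)*(z0)^2 := by ring
  rw [e]; positivity

theorem certE (x d w : ℝ) (_hw : 0 ≤ w)
    (hd : 0 ≤ 1 - w^2 - 1/3*d^2 - x^2) :
    0 ≤ 5/3 - 10/3*w - 7/24*x + 2*w^2 - 11/72*d^2 - 71/72*x^2 + 4/9*d^2*w + 4/3*x^2*w := by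
  exact le_of_le_of_eq (add_nonneg (add_nonneg (add_nonneg (c3_q0 (w) (w^2) (d^2) (x) (x*w) (x^2))
      (c3_q1 (d*w) (x*d)))
      (mul_nonneg hd (c3_q2 (1) (w) (x))))
      (mul_nonneg hd (c3_q3 (d)))) (by ring)

private theorem cz_q0 (z0 z1 z2 z3 z4 : ℝ) : 0 ≤ 97/48*z0^2 - 21/4*z0*z1 - 83/48*z0*z2 +
    67/24*z0*z3 - 89/48*z0*z4 + 167/48*z1^2 + 53/24*z1*z2 - 17/6*z1*z3 + 53/24*z1*z4 +
    23/32*z2^2 - 29/12*z2*z3 + 37/96*z2*z4 + 13/3*z3^2 - 2*z3*z4 + 37/48*z4^2 := by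
  have e : 97/48*z0^2 - 21/4*z0*z1 - 83/48*z0*z2 + 67/24*z0*z3 - 89/48*z0*z4 + 167/48*z1^2 +
    53/24*z1*z2 - 17/6*z1*z3 + 53/24*z1*z4 + 23/32*z2^2 - 29/12*z2*z3 + 37/96*z2*z4 + 13/3*z3^2
    - 2*z3*z4 + 37/48*z4^2 = (97/48)*(z0 - 126/97*z1 - 83/194*z2 + 67/97*z3 - 89/194*z4)^2 +
    (323/4656)*(z1 - 88/323*z2 + 1846/323*z3 - 466/323*z4)^2 + (7105/20672)*(z2 -
    31202/21315*z3 - 14338/21315*z4)^2 + (187619/511560)*(z3 - 257981/750476*z4)^2 +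
    (163223/72045696)*(z4)^2 := by ring
  rw [e]; positivity

private theorem cz_q1 (z0 z1 z2 : ℝ) : 0 ≤ 23/48*z0^2 - 7/3*z0*z1 + 1/6*z0*z2 + 3*z1^2 +
    37/48*z2^2 := by
  have e : 23/48*z0^2 - 7/3*z0*z1 + 1/6*z0*z2 + 3*z1^2 + 37/48*z2^2 = (23/48)*(z0 - 56/23*z1 +
    4/23*z2)^2 + (11/69)*(z1 + 14/11*z2)^2 + (263/528)*(z2)^2 := by ring
  rw [e]; positivity

private theorem cz_q2 (z0 z1 z2 : ℝ) : 0 ≤ 1/12*z0^2 - 1/12*z0*z1 - 1/4*z0*z2 + 1/4*z1^2 -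
    1/4*z1*z2 + 3/8*z2^2 := by
  have e : 1/12*z0^2 - 1/12*z0*z1 - 1/4*z0*z2 + 1/4*z1^2 - 1/4*z1*z2 + 3/8*z2^2 = (1/12)*(z0 -
    1/2*z1 - 3/2*z2)^2 + (11/48)*(z1 - 9/11*z2)^2 + (3/88)*(z2)^2 := by ring
  rw [e]; positivity

private theorem cz_q3 (z0 : ℝ) : 0 ≤ 1/4*z0^2 := by
  have e : 1/4*z0^2 = (1/4)*(z0)^2 := by ring
  rw [e]; positivity

theorem certZ (x w : ℝ) (hw : 0 ≤ w)
    (hd : 0 ≤ 1 - w^2 - x^2) :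
    0 ≤ 5/2 - 15/2*w - 25/16*x + 6*w^2 + 5*x*w - 27/32*x^2 + 5/2*w^3 - 3*x*w^2 + 15/8*x^2*w +
      7/32*x^3 - 3*w^4 + 9/16*x^2*w^2 - 2*x^3*w - 1/2*x^2*w^3 + 3/8*x^4*w := by
  exact le_of_le_of_eq (add_nonneg (add_nonneg (add_nonneg (cz_q0 (1) (w) (x) (x*w) (x^2))
      (mul_nonneg hd (cz_q1 (1) (w) (x))))
      (mul_nonneg hw (cz_q2 (1) (w^2) (x^2))))
      (mul_nonneg (mul_nonneg hw hd) (cz_q3 (w)))) (by ring)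

/-- The quadratic form of the first jets with three different indices. -/
def form3 (x y z w h V U : ℝ) : ℝ :=
  (8 / 3 - 10 / 3 * w + 2 * w ^ 2 + 8 / 9 * w * (x ^ 2 + y ^ 2 + z ^ 2)) *
    (h ^ 2 + V ^ 2 + U ^ 2)
  + 2 * (-(1 / 2) + 7 / 24 * z + 19 / 36 * z ^ 2 - 5 / 12 * (x ^ 2 + y ^ 2 + z ^ 2)) * (h * V)
  + 2 * (-(1 / 2) + 7 / 24 * y + 19 / 36 * y ^ 2 - 5 / 12 * (x ^ 2 + y ^ 2 + z ^ 2)) * (h * U)
  + 2 * (-(1 / 2) + 7 / 24 * x + 19 / 36 * x ^ 2 - 5 / 12 * (x ^ 2 + y ^ 2 + z ^ 2)) * (V * U)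

private theorem neg_coef (x y z : ℝ) (hs : x + y + z = 0) :
    0 ≤ 1 / 2 - 7 / 24 * x - 19 / 36 * x ^ 2 + 5 / 12 * (x ^ 2 + y ^ 2 + z ^ 2) := by
  have hz : z = -x - y := by linarith
  subst hz
  nlinarith [sq_nonneg (y - (-x - y)), sq_nonneg (x - 3 / 2), sq_nonneg x, sq_nonneg (x + 2 * y)]

private theorem dom_coef (x y z w : ℝ) (hs : x + y + z = 0) (hw : 0 ≤ w)
    (hd : 3 * w ^ 2 ≤ 3 - 2 * (x ^ 2 + y ^ 2 + z ^ 2)) :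
    0 ≤ (8 / 3 - 10 / 3 * w + 2 * w ^ 2 + 8 / 9 * w * (x ^ 2 + y ^ 2 + z ^ 2))
      + (-(1 / 2) + 7 / 24 * y + 19 / 36 * y ^ 2 - 5 / 12 * (x ^ 2 + y ^ 2 + z ^ 2))
      + (-(1 / 2) + 7 / 24 * z + 19 / 36 * z ^ 2 - 5 / 12 * (x ^ 2 + y ^ 2 + z ^ 2)) := by
  have hz : z = -x - y := by linarith
  subst hz
  have h1 := certE x (y - (-x - y)) w hw (by nlinarith)
  exact le_of_le_of_eq h1 (by ring)

theorem cert3 (x y z w h V U : ℝ) (hs : x + y + z = 0) (hw : 0 ≤ w)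
    (hd : 3 * w ^ 2 ≤ 3 - 2 * (x ^ 2 + y ^ 2 + z ^ 2)) : 0 ≤ form3 x y z w h V U := by
  have a1 := mul_nonneg (neg_coef z x y (by linarith)) (sq_nonneg (h - V))
  have a2 := mul_nonneg (neg_coef y z x (by linarith)) (sq_nonneg (h - U))
  have a3 := mul_nonneg (neg_coef x y z hs) (sq_nonneg (V - U))
  have b1 := mul_nonneg (dom_coef x y z w hs hw hd) (sq_nonneg h)
  have b2 := mul_nonneg (dom_coef y z x w (by linarith) hw (by linarith)) (sq_nonneg V)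
  have b3 := mul_nonneg (dom_coef z x y w (by linarith) hw (by linarith)) (sq_nonneg U)
  have s := add_nonneg (add_nonneg (add_nonneg a1 a2) (add_nonneg a3 b1)) (add_nonneg b2 b3)
  exact le_of_le_of_eq s (by unfold form3; ring)

end Pool.Agent.RFS.Ph1
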