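import Pool.Agent.RFS.PC4
import Pool.Agent.RFS.PCS

/-!
# RFS phase 1: the quadratic form splits into three 4 x 4 blocks and one 3 x 3 block
-/

noncomputable section

namespace Pool.Agent.RFS.Ph1

/-- The parameters of the certificate. -/
def p0 : Par where
  A1 := -(2 / 3)
  B1 := 5 / 6
  B2 := -(1 / 9)
  C1 := -(1 / 2)
  a := -(1 / 2)
  a1 := 1 / 9
  b := 7 / 12
  q := 19 / 36

/-- The part of the quadratic form which comes from the second derivatives of `F`. -/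
private def QA (x : Fin 3 → ℝ) (w : ℝ) (β : Fin 3 → Fin 3 → Fin 3 → ℝ) : ℝ :=
  ∑ i, (-fss p0 (nn x) w * hh β i ^ 2 - 2 * fsn p0 (nn x) w * hh β i * dn x β i
    - fnn p0 w * dn x β i ^ 2
    - 2 * fn p0 (nn x) w * ((∑ j, ∑ k, β i j k ^ 2) - 3 * hh β i ^ 2))

/-- The part of the quadratic form which comes from `Φ`. -/
private def QB (x : Fin 3 → ℝ) (β : Fin 3 → Fin 3 → Fin 3 → ℝ) : ℝ :=
  ∑ i, ∑ j, ∑ k, dPhi p0 x β i j k * β j i k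

/-- The part of the quadratic form which comes from `Ψ`. -/
private def QC (x : Fin 3 → ℝ) (β : Fin 3 → Fin 3 → Fin 3 → ℝ) : ℝ :=
  ∑ i, ∑ j, ∑ k, ∑ l, dPsi x β i j k l * β j k l

private theorem Qf_split (x : Fin 3 → ℝ) (w : ℝ) (β : Fin 3 → Fin 3 → Fin 3 → ℝ) :
    Qf p0 w x β = QA x w β + QB x β + 19 / 36 * QC x β := by
  simp only [Qf, QA, QB, QC, p0]

private def gA (x d w h V U W : ℝ) : ℝ :=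
  5/4*h^2 - 5/2*w*h^2 + 3/2*w^2*h^2 + 1/4*d^2*h^2 - 1/2*d^2*w*h^2 + 15/16*d^2*w^2*h^2 +
    1/3*d^4*w*h^2 + 2*x*h^2 - 5*x*w*h^2 + 9/2*x*w^2*h^2 + 2*x*d^2*w*h^2 + 3/4*x^2*h^2 +
    1/2*x^2*w*h^2 + 45/16*x^2*w^2*h^2 + 2*x^2*d^2*w*h^2 + 6*x^3*w*h^2 + 3*x^4*w*h^2 + 4*h*V -
    5*w*h*V + 3*w^2*h*V + 2/3*d^2*w*h*V + 2*x*h*V - 5*x*w*h*V + 9/2*x*w^2*h*V + 2*x*d^2*w*h*V +
    6*x^2*w*h*V + 6*x^3*w*h*V - 2/3*d*h*U + 5/3*d*w*h*U - 3/2*d*w^2*h*U - 2/3*d^3*w*h*U -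
    4/3*x*d*w*h*U - 2*x^2*d*w*h*U + 10/3*V^2 - 25/6*w*V^2 + 5/2*w^2*V^2 + 5/9*d^2*w*V^2 +
    11/3*x^2*w*V^2 - 4/3*x*d*w*V*U + 2/3*U^2 - 5/6*w*U^2 + 1/2*w^2*U^2 + 1/3*d^2*w*U^2 +
    1/3*x^2*w*U^2 + 4/3*W^2 - 5/3*w*W^2 + w^2*W^2 + 2/9*d^2*w*W^2 + 2/3*x^2*w*W^2

private def gB (x d _w h V U W : ℝ) : ℝ :=
  -3/2*h*V - 5/96*d^2*h*V + 15/16*x*h*V + 5/24*x*d^2*h*V + 53/32*x^2*h*V + 5/8*x^3*h*V +
    41/48*d*h*W - 5/72*d^3*h*W + 13/48*x*d*h*W - 5/24*x^2*d*h*W - 5/4*V^2 + 5/36*d^2*V^2 +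
    7/6*x*V^2 + 11/12*x^2*V^2 + 7/16*d*V*U - 1/6*x*d*V*U + 35/48*d*V*W - 1/6*x*d*V*W - 1/2*U*W
    + 1/9*d^2*U*W - 7/48*x*U*W + 1/6*x^2*U*W - 1/4*W^2 + 1/36*d^2*W^2 + 7/48*x*W^2 +
    1/12*x^2*W^2

private def gC (x d _w h V U W : ℝ) : ℝ :=
  -1/4*d^2*h*V - 5/8*x*d^2*h*V - 3*x^2*h*V - 15/8*x^3*h*V + 11/4*x*d*h*W + 5/2*x^2*d*h*W -
    11/4*x^2*V^2 + 3/4*x*d*V*U + 11/4*x*d*V*W - 5/4*x^2*U*W - 1/4*d^2*W^2 - 1/4*x^2*W^2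

private def tA (x y z w h V U : ℝ) : ℝ :=
  (8 / 3 - 10 / 3 * w + 2 * w ^ 2 + 8 / 9 * w * (x ^ 2 + y ^ 2 + z ^ 2)) *
    (h ^ 2 + V ^ 2 + U ^ 2)

private def tB (x y z _w h V U : ℝ) : ℝ :=
  (-1 + 2 / 9 * (x ^ 2 + y ^ 2 + z ^ 2) + 7 / 12 * z) * (h * V)
  + (-1 + 2 / 9 * (x ^ 2 + y ^ 2 + z ^ 2) + 7 / 12 * y) * (h * U)
  + (-1 + 2 / 9 * (x ^ 2 + y ^ 2 + z ^ 2) + 7 / 12 * x) * (V * U)

private def tC (x y z _w h V U : ℝ) : ℝ :=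
  -2 * ((x ^ 2 + y ^ 2) * (h * V) + (x ^ 2 + z ^ 2) * (h * U) + (y ^ 2 + z ^ 2) * (V * U))

private theorem form4_split (x d w h V U W : ℝ) : form4 x d w h V U W =
    gA x d w h V U W + gB x d w h V U W + 19 / 36 * gC x d w h V U W := by
  unfold form4 gA gB gC; ring

private theorem form3_split (x y z w h V U : ℝ) : form3 x y z w h V U =
    tA x y z w h V U + tB x y z w h V U + 19 / 36 * tC x y z w h V U := by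
  unfold form3 tA tB tC; ring

private theorem e01 : ((0 : Fin 3) = 1) = False := by decide
private theorem e02 : ((0 : Fin 3) = 2) = False := by decide
private theorem e10 : ((1 : Fin 3) = 0) = False := by decide
private theorem e12 : ((1 : Fin 3) = 2) = False := by decide
private theorem e20 : ((2 : Fin 3) = 0) = False := by decide
private theorem e21 : ((2 : Fin 3) = 1) = False := by decide

variable {x : Fin 3 → ℝ} {β : Fin 3 → Fin 3 → Fin 3 → ℝ}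

private theorem QA_eq (w : ℝ) (hx : x 2 = -x 0 - x 1)
    (hs : ∀ i j k, β i j k = β i k j) (h0 : β 0 0 0 = -β 1 1 0 - β 2 2 0)
    (h1 : β 1 1 1 = -β 0 0 1 - β 2 2 1) (h2 : β 2 2 2 = -β 0 0 2 - β 1 1 2) :
    QA x w β = gA (x 0) (x 1 - x 2) w ((β 0 0 0 + β 0 1 1 + β 0 2 2) / 3) (β 1 0 1 + β 2 0 2)
      (β 0 1 1 - β 0 2 2) (β 1 0 1 - β 2 0 2)
    + gA (x 1) (x 2 - x 0) w ((β 1 1 1 + β 1 2 2 + β 1 0 0) / 3) (β 2 1 2 + β 0 1 0)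
      (β 1 2 2 - β 1 0 0) (β 2 1 2 - β 0 1 0)
    + gA (x 2) (x 0 - x 1) w ((β 2 2 2 + β 2 0 0 + β 2 1 1) / 3) (β 0 2 0 + β 1 2 1)
      (β 2 0 0 - β 2 1 1) (β 0 2 0 - β 1 2 1)
    + tA (x 0) (x 1) (x 2) w (β 0 1 2) (β 1 2 0) (β 2 0 1) := by
  simp only [QA, fss, fsn, fn, fnn, nn, hh, dn, p0, gA, tA, Fin.sum_univ_three]
  rw [hs 0 1 0, hs 0 2 0, hs 0 2 1, hs 1 1 0, hs 1 2 0, hs 1 2 1, hs 2 1 0, hs 2 2 0, hs 2 2 1] at *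
  rw [hx, h0, h1, h2]
  ring

private theorem QB_eq (w : ℝ) (hx : x 2 = -x 0 - x 1)
    (hs : ∀ i j k, β i j k = β i k j) (h0 : β 0 0 0 = -β 1 1 0 - β 2 2 0)
    (h1 : β 1 1 1 = -β 0 0 1 - β 2 2 1) (h2 : β 2 2 2 = -β 0 0 2 - β 1 1 2) :
    QB x β = gB (x 0) (x 1 - x 2) w ((β 0 0 0 + β 0 1 1 + β 0 2 2) / 3) (β 1 0 1 + β 2 0 2)
      (β 0 1 1 - β 0 2 2) (β 1 0 1 - β 2 0 2)
    + gB (x 1) (x 2 - x 0) w ((β 1 1 1 + β 1 2 2 + β 1 0 0) / 3) (β 2 1 2 + β 0 1 0)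
      (β 1 2 2 - β 1 0 0) (β 2 1 2 - β 0 1 0)
    + gB (x 2) (x 0 - x 1) w ((β 2 2 2 + β 2 0 0 + β 2 1 1) / 3) (β 0 2 0 + β 1 2 1)
      (β 2 0 0 - β 2 1 1) (β 0 2 0 - β 1 2 1)
    + tB (x 0) (x 1) (x 2) w (β 0 1 2) (β 1 2 0) (β 2 0 1) := by
  simp only [QB, dPhi, dX, dX2, dg, dg2, nn, hh, dn, p0, gB, tB, Fin.sum_univ_three, if_true,
    e01, e02, e10, e12, e20, e21, if_false, mul_zero, zero_add, sub_zero]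
  rw [hs 0 1 0, hs 0 2 0, hs 0 2 1, hs 1 1 0, hs 1 2 0, hs 1 2 1, hs 2 1 0, hs 2 2 0, hs 2 2 1] at *
  rw [hx, h0, h1, h2]
  ring

private theorem QC_eq (w : ℝ) (hx : x 2 = -x 0 - x 1)
    (hs : ∀ i j k, β i j k = β i k j) (h0 : β 0 0 0 = -β 1 1 0 - β 2 2 0)
    (h1 : β 1 1 1 = -β 0 0 1 - β 2 2 1) (h2 : β 2 2 2 = -β 0 0 2 - β 1 1 2) :
    QC x β = gC (x 0) (x 1 - x 2) w ((β 0 0 0 + β 0 1 1 + β 0 2 2) / 3) (β 1 0 1 + β 2 0 2)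
      (β 0 1 1 - β 0 2 2) (β 1 0 1 - β 2 0 2)
    + gC (x 1) (x 2 - x 0) w ((β 1 1 1 + β 1 2 2 + β 1 0 0) / 3) (β 2 1 2 + β 0 1 0)
      (β 1 2 2 - β 1 0 0) (β 2 1 2 - β 0 1 0)
    + gC (x 2) (x 0 - x 1) w ((β 2 2 2 + β 2 0 0 + β 2 1 1) / 3) (β 0 2 0 + β 1 2 1)
      (β 2 0 0 - β 2 1 1) (β 0 2 0 - β 1 2 1)
    + tC (x 0) (x 1) (x 2) w (β 0 1 2) (β 1 2 0) (β 2 0 1) := by
  simp only [QC, dPsi, dX, dX2, dg, dg2, hh, gC, tC, Fin.sum_univ_three, if_true,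
    e01, e02, e10, e12, e20, e21, if_false, mul_zero, zero_mul, add_zero, zero_add, sub_zero]
  rw [hs 0 1 0, hs 0 2 0, hs 0 2 1, hs 1 1 0, hs 1 2 0, hs 1 2 1, hs 2 1 0, hs 2 2 0, hs 2 2 1] at *
  rw [hx, h0, h1, h2]
  ring

theorem Qf_nonneg (x : Fin 3 → ℝ) (w : ℝ) (β : Fin 3 → Fin 3 → Fin 3 → ℝ) (hx : ∑ i, x i = 0)
    (hw : 0 ≤ w) (hd : 3 * w ^ 2 ≤ 3 - 2 * nn x) (hs : ∀ i j k, β i j k = β i k j)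
    (hc : ∀ k, ∑ i, β i i k = 0) : 0 ≤ Qf p0 w x β := by
  simp only [nn, Fin.sum_univ_three] at hx hd hc
  have hx2 : x 2 = -x 0 - x 1 := by linarith
  have h0 : β 0 0 0 = -β 1 1 0 - β 2 2 0 := by linarith [hc 0]
  have h1 : β 1 1 1 = -β 0 0 1 - β 2 2 1 := by linarith [hc 1]
  have h2 : β 2 2 2 = -β 0 0 2 - β 1 1 2 := by linarith [hc 2]
  rw [Qf_split, QA_eq w hx2 hs h0 h1 h2, QB_eq w hx2 hs h0 h1 h2, QC_eq w hx2 hs h0 h1 h2]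
  have a0 := cert4 (x 0) (x 1 - x 2) w ((β 0 0 0 + β 0 1 1 + β 0 2 2) / 3) (β 1 0 1 + β 2 0 2)
      (β 0 1 1 - β 0 2 2) (β 1 0 1 - β 2 0 2) hw (by rw [hx2] at hd ⊢; linarith)
  have a1 := cert4 (x 1) (x 2 - x 0) w ((β 1 1 1 + β 1 2 2 + β 1 0 0) / 3) (β 2 1 2 + β 0 1 0)
      (β 1 2 2 - β 1 0 0) (β 2 1 2 - β 0 1 0) hw (by rw [hx2] at hd ⊢; linarith)
  have a2 := cert4 (x 2) (x 0 - x 1) w ((β 2 2 2 + β 2 0 0 + β 2 1 1) / 3) (β 0 2 0 + β 1 2 1)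
      (β 2 0 0 - β 2 1 1) (β 0 2 0 - β 1 2 1) hw (by rw [hx2] at hd ⊢; linarith)
  have a3 := cert3 (x 0) (x 1) (x 2) w (β 0 1 2) (β 1 2 0) (β 2 0 1) (by linarith) hw
    (by linarith)
  rw [form4_split] at a0 a1 a2
  rw [form3_split] at a3
  linarith

end Pool.Agent.RFS.Ph1
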