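import Pool.Agent.RFS.DAlg

/-!
# RFS phase 1: definitions (v2)

The functional is `W_t = ∫ λ^(-3/2) F (λ P) dv`, `λ = 1 - 4t`, with `F` a function of `s` and
`n = |E|²`.  Everything is written with `r = √s`, `ri = 1/r`, `mu = λ^(-1/2)`; the scale invariant
variables at a diagonal frame are `x_i = K_i / s - 1` and `w = mu * ri = (λ s)^(-1/2)`.
-/

noncomputable section

namespace Pool.Agent.RFS.Ph1

open Pool.Agent.RFS.Ham

/-- The parameters of the functional. -/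
structure Par where
  A1 : ℝ
  B1 : ℝ
  B2 : ℝ
  C1 : ℝ
  a : ℝ
  a1 : ℝ
  b : ℝ
  q : ℝ

/-! ### Real polynomials -/

section Poly

variable (p : Par) (n w : ℝ)

/-- `f`, the function `F` at `s = 1`. -/
def f0 : ℝ := 1 + p.A1 * n + w * (p.B1 * n + p.B2 * n ^ 2) + w ^ 2 * p.C1 * n
/-- `∂f/∂s`. -/
def fs : ℝ := 3 / 2 - 1 / 2 * p.A1 * n - w * (p.B1 * n + 3 * p.B2 * n ^ 2)
  - 3 / 2 * w ^ 2 * p.C1 * n
/-- `∂f/∂n`. -/
def fn : ℝ := p.A1 + w * (p.B1 + 2 * p.B2 * n) + w ^ 2 * p.C1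
/-- `∂²f/∂s²`. -/
def fss : ℝ := 3 / 4 + 3 / 4 * p.A1 * n + w * (2 * p.B1 * n + 12 * p.B2 * n ^ 2)
  + 15 / 4 * w ^ 2 * p.C1 * n
/-- `∂²f/∂s∂n`. -/
def fsn : ℝ := -(1 / 2) * p.A1 - w * (p.B1 + 6 * p.B2 * n) - 3 / 2 * w ^ 2 * p.C1
/-- `∂²f/∂n²`. -/
def fnn : ℝ := 2 * w * p.B2

variable (x : Fin 3 → ℝ) (β : Fin 3 → Fin 3 → Fin 3 → ℝ)

/-- `|x|²`. -/
def nn : ℝ := ∑ i, x i ^ 2
/-- `x₁ x₂ x₃`. -/
def ee : ℝ := x 0 * x 1 * x 2

/-- The derivative of `s` in the direction `i`. -/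
def hh (i : Fin 3) : ℝ := (∑ j, β i j j) / 3
/-- The derivative of `n` in the direction `i`. -/
def dn (i : Fin 3) : ℝ := 2 * ∑ j, x j * β i j j

/-- `X_jk` at the diagonal frame. -/
def dg (j k : Fin 3) : ℝ := if j = k then x j else 0
/-- `(X²)_jk` at the diagonal frame. -/
def dg2 (j k : Fin 3) : ℝ := if j = k then x j ^ 2 else 0
/-- The derivative of `X_jk` in the direction `i`. -/
def dX (i j k : Fin 3) : ℝ := β i j k - if j = k then hh β i else 0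
/-- The derivative of `(X²)_jk` in the direction `i`. -/
def dX2 (i j k : Fin 3) : ℝ := (x j + x k) * dX β i j k

/-- The derivative of `Φ_jk` in the direction `i`. -/
def dPhi (i j k : Fin 3) : ℝ :=
  ((-(1 / 2) * p.a - 5 / 2 * p.a1 * nn x) * hh β i + p.a1 * dn x β i) * dg x j k
  + (p.a + p.a1 * nn x) * dX β i j k
  - 3 / 2 * p.b * hh β i * dg2 x j k + p.b * dX2 x β i j k

/-- The derivative of `Ψ_ijkl = X_ik (X²)_jl - (X²)_ik X_jl` (times `s^(-5/2)`) in the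
direction `i` (the same `i`). -/
def dPsi (i j k l : Fin 3) : ℝ :=
  -(5 / 2) * hh β i * (dg x i k * dg2 x j l - dg2 x i k * dg x j l)
  + dX β i i k * dg2 x j l + dg x i k * dX2 x β i j l
  - dX2 x β i i k * dg x j l - dg2 x i k * dX β i j l

/-- The quadratic form in the derivatives `β i j k = ∇_i P_jk`. -/
def Qf : ℝ :=
  ∑ i, (-fss p (nn x) w * hh β i ^ 2 - 2 * fsn p (nn x) w * hh β i * dn x β i
    - fnn p w * dn x β i ^ 2 - 2 * fn p (nn x) w * ((∑ j, ∑ k, β i j k ^ 2) - 3 * hh β i ^ 2))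
  + ∑ i, ∑ j, ∑ k, dPhi p x β i j k * β j i k
  + p.q * ∑ i, ∑ j, ∑ k, ∑ l, dPsi x β i j k l * β j k l

/-- The zero order part. -/
def Zf : ℝ :=
  fs p (nn x) w * (4 + nn x / 3) + fn p (nn x) w * (4 * nn x + 24 * ee x) - 6 * f0 p (nn x) w
  + 4 * w ^ 2 * (1 / 2 * w * (p.B1 * nn x + p.B2 * nn x ^ 2) + w ^ 2 * p.C1 * nn x)
  + (p.a + p.a1 * nn x) * (3 * nn x - 9 * ee x) + p.b * (9 * ee x - nn x ^ 2 / 2)
  + p.q * (x 0 * x 1 * (x 0 - x 1) ^ 2 * (1 + x 2) + x 1 * x 2 * (x 1 - x 2) ^ 2 * (1 + x 0)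
    + x 2 * x 0 * (x 2 - x 0) ^ 2 * (1 + x 1))

/-- The properties which the parameters must have (the certificate). -/
structure Good : Prop where
  Q : ∀ (x : Fin 3 → ℝ) (w : ℝ) (β : Fin 3 → Fin 3 → Fin 3 → ℝ), ∑ i, x i = 0 → 0 ≤ w →
    3 * w ^ 2 ≤ 3 - 2 * nn x → (∀ i j k, β i j k = β i k j) → (∀ k, ∑ i, β i i k = 0) →
    0 ≤ Qf p w x β
  Z : ∀ (x : Fin 3 → ℝ) (w : ℝ), ∑ i, x i = 0 → 0 ≤ w → 3 * w ^ 2 ≤ 3 - 2 * nn x → 0 ≤ Zf p w x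
  F : ∀ n w : ℝ, 0 ≤ n → 0 ≤ w → 3 * w ^ 2 ≤ 3 - 2 * n → w ≤ f0 p n w
  U : ∀ n w : ℝ, 0 ≤ n → 0 ≤ w → 3 * w ^ 2 ≤ 3 - 2 * n → f0 p n w ≤ 1 + n

end Poly

/-! ### The functional in the frame calculus -/

variable {A : Type*} [CommRing A] [Algebra ℝ A] (S : RFAlg A)

/-- The auxiliary elements `r = √s`, `ri = 1 / r`, `mu = (1 - 4t)^(-1/2)`. -/
structure Aux where
  r : A
  ri : A
  mu : A
  r_sq : r * r = sS S
  r_ri : r * ri = 1
  T_mu : S.T mu = 2 * mu ^ 3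
  D_mu : ∀ i, S.D i mu = 0

/-- `X = P - s I`. -/
def xS (i j : Fin 3) : A := S.P i j - if i = j then sS S else 0
/-- `X²`. -/
def x2S (i j : Fin 3) : A := ∑ k, xS S i k * xS S k j

variable {S} (p : Par) (u : Aux S)

/-- The density `λ^(-3/2) F (λ P)`. -/
def FS : A := u.r ^ 3 + p.A1 • (nS S * u.ri)
  + u.mu * (p.B1 • (nS S * u.ri ^ 2) + p.B2 • (nS S ^ 2 * u.ri ^ 6))
  + p.C1 • (u.mu ^ 2 * nS S * u.ri ^ 3)

/-- The tensor `Φ`. -/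
def PhiS (j k : Fin 3) : A :=
  p.a • (u.ri * xS S j k) + p.a1 • (nS S * u.ri ^ 5 * xS S j k) + p.b • (u.ri ^ 3 * x2S S j k)

/-- The tensor `Ψ_ijkl = s^(-5/2) (X_ik (X²)_jl - (X²)_ik X_jl)`. -/
def PsiS (i j k l : Fin 3) : A :=
  u.ri ^ 5 * (xS S i k * x2S S j l - x2S S i k * xS S j l)

/-- The vector field of the null Lagrangians. -/
def VS (i : Fin 3) : A := (∑ j, ∑ k, PhiS p u j k * S.D j (S.P i k))
  + p.q • ∑ j, ∑ k, ∑ l, PsiS u i j k l * S.D j (S.P k l)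

/-- The total vector field. -/
def YS (i : Fin 3) : A := S.D i (FS p u) - VS p u i

/-- What remains: the integrand of `d/dt W`. -/
def QdS : A := S.T (FS p u) - 2 * (∑ k, S.P k k) * FS p u - ∑ i, S.D i (YS p u i)

end Pool.Agent.RFS.Ph1
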