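import Pool.Agent.RFS.PIdn

/-!
# RFS phase 1: evaluation of `QdS` at a diagonal frame (v2)

PROOF.  Apply `e` to `QdS_eq`, `D_Phi`, `D_Psi`, `Ham.heat_s`, `Ham.heat_n`.  At `z` write
`s = e s > 0`, `r = e r > 0`, `r ^ 2 = s`, `e ri = 1 / r`, `w = e mu / r`, `e (P i j) = 0` for
`i ≠ j`, `e (P i i) = s (1 + x i)` and `β i j k = e (D_i P_jk)`.  Then `∑ x i = 0` (definition of
`s`), `e n = s^2 nn x`, `e (tr E^3) = -3 s^3 ee x` (because `∑ x_i^3 = 3 x_0 x_1 x_2`),
`e (D_i s) = hh β i`, `e (D_i n) = s dn x β i`, `e (|∇E|^2) = ∑ β^2 - 3 ∑ hh^2`,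
`e (xS i j) = s dg x i j`, `e (x2S i j) = s^2 dg2 x i j`, `e (D_i xS j k) = dX β i j k`,
`e (D_i x2S j k) = s dX2 x β i j k` (here the off diagonal entries of X vanish).
Every term is then a multiple of `r^(-1)` (the part quadratic in `β`) or of `r^5`; in the zero
order part `∑ Phi_jk (3 s P_jk - (P^2)_jk - 2 cof_jk)` is
`r^5 ((a + a1 nn) (3 nn - 9 ee) + b (9 ee - nn^2 / 2))` and
`(1/2) ∑ Psi_ijkl RS_ijkl = r^5 ∑_(i<j) x_i x_j (x_i - x_j)^2 (1 + x_k)`.
-/

set_option linter.unusedSimpArgs false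

noncomputable section

namespace Pool.Agent.RFS.Ph1

open Pool.Agent.RFS.Ham

variable {A : Type*} [CommRing A] [Algebra ℝ A] {S : RFAlg A} (p : Par) (u : Aux S)

/-- The situation at a diagonal frame. -/
private structure At (u : Aux S) (e : A →ₐ[ℝ] ℝ) (r w : ℝ) (x : Fin 3 → ℝ)
    (β : Fin 3 → Fin 3 → Fin 3 → ℝ) : Prop where
  r0 : 0 < r
  er : e u.r = r
  eri : e u.ri = r⁻¹
  emu : e u.mu = r * w
  es : e (sS S) = r ^ 2
  eP : ∀ i j, e (S.P i j) = if i = j then r ^ 2 * (1 + x i) else 0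
  eD : ∀ i j k, e (S.D i (S.P j k)) = β i j k
  sx : x 0 + x 1 + x 2 = 0
  sβ : ∀ i j k, β i j k = β i k j

private theorem at_intro (u : Aux S) (e : A →ₐ[ℝ] ℝ) (hr : 0 < e u.r)
    (hd : ∀ i j, i ≠ j → e (S.P i j) = 0) :
    At u e (e u.r) (e u.mu / e u.r) (fun i => e (S.P i i) / (e u.r) ^ 2 - 1)
      (fun i j k => e (S.D i (S.P j k))) := by
  have hs : e (sS S) = (e u.r) ^ 2 := by
    rw [← u.r_sq, map_mul]; ring
  have hr0 : e u.r ≠ 0 := hr.ne'
  have hs3 : e (S.P 0 0) + e (S.P 1 1) + e (S.P 2 2) = 3 * (e u.r) ^ 2 := by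
    rw [← hs]
    have := congrArg e (three_s S)
    simp only [map_mul, map_add, map_ofNat] at this
    exact this.symm
  refine ⟨hr, rfl, ?_, ?_, hs, ?_, fun _ _ _ => rfl, ?_, ?_⟩
  · have h := congrArg e u.r_ri
    rw [map_mul, map_one] at h
    exact eq_inv_of_mul_eq_one_right h
  · field_simp
  · intro i j
    split_ifs with h
    · subst h
      field_simp
      ring
    · exact hd i j h
  · have h3 : (e (S.P 0 0) + e (S.P 1 1) + e (S.P 2 2)) / (e u.r) ^ 2 = 3 := by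
      rw [hs3]; field_simp
    linear_combination h3
  · intro i j k
    rw [S.P_symm]

section

variable {u : Aux S} {e : A →ₐ[ℝ] ℝ} {r w : ℝ} {x : Fin 3 → ℝ}
  {β : Fin 3 → Fin 3 → Fin 3 → ℝ} (H : At u e r w x β)

include H

private theorem e_x (i j : Fin 3) : e (xS S i j) = r ^ 2 * dg x i j := by
  rw [xS, map_sub, H.eP, dg]
  split_ifs
  · rw [H.es]; ring
  · rw [map_zero]; ring

private theorem e_x2 (i j : Fin 3) : e (x2S S i j) = r ^ 4 * dg2 x i j := by
  simp only [x2S, map_sum, map_mul, e_x H]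
  fin_cases i <;> fin_cases j <;>
    simp [dg, dg2, Fin.sum_univ_three] <;> ring

private theorem e_e (i j : Fin 3) : e (eS S i j) = -(r ^ 2 * dg x i j) := by
  rw [← e_x H, xS, eS, map_sub, map_sub]
  ring

private theorem e_n : e (nS S) = r ^ 4 * nn x := by
  simp only [nS, map_sum, map_mul, e_e H, nn]
  simp [dg, Fin.sum_univ_three]
  ring

private theorem e_Ds (i : Fin 3) : e (S.D i (sS S)) = hh β i := by
  simp only [sS, Derivation.map_smul, map_sum, map_smul, H.eD, hh, smul_eq_mul]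
  ring

private theorem e_De (i j k : Fin 3) : e (S.D i (eS S j k)) = -dX β i j k := by
  have h : S.D i (eS S j k) = (if j = k then S.D i (sS S) else 0) - S.D i (S.P j k) := by
    rw [eS, map_sub]
    split_ifs <;> simp
  rw [h, map_sub, H.eD, dX]
  split_ifs
  · rw [e_Ds H]; ring
  · rw [map_zero]; ring

private theorem e_Dx (i j k : Fin 3) : e (S.D i (xS S j k)) = dX β i j k := by
  have h : xS S j k = -eS S j k := by rw [xS, eS, neg_sub]
  rw [h, map_neg, map_neg, e_De H, neg_neg]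

private theorem e_Dx2 (i j k : Fin 3) : e (S.D i (x2S S j k)) = r ^ 2 * dX2 x β i j k := by
  simp only [x2S, map_sum, Derivation.leibniz, smul_eq_mul, map_add, map_mul, e_x H, e_Dx H, dX2]
  have h1 : ∑ m, (r ^ 2 * dg x j m * dX β i m k + r ^ 2 * dg x m k * dX β i j m)
      = ∑ m, (if j = m then r ^ 2 * x j * dX β i m k else 0)
        + ∑ m, (if m = k then r ^ 2 * x m * dX β i j m else 0) := by
    rw [← Finset.sum_add_distrib]
    refine Finset.sum_congr rfl fun m _ => ?_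
    simp only [dg]
    split_ifs <;> ring
  rw [h1, Finset.sum_ite_eq, Finset.sum_ite_eq']
  simp only [Finset.mem_univ, if_true]
  ring

private theorem e_Dn (i : Fin 3) : e (S.D i (nS S)) = r ^ 2 * dn x β i := by
  simp only [nS, map_sum, Derivation.leibniz, smul_eq_mul, map_add, map_mul, e_e H, e_De H]
  simp only [dg, dX, dn, Fin.sum_univ_three, if_true, if_false, Fin.isValue, Fin.reduceEq]
  linear_combination (-2 * r ^ 2 * hh β i) * H.sx

private theorem e_g : e (gS S) = ∑ i, hh β i ^ 2 := by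
  simp only [gS, ip, map_sum, map_mul, e_Ds H]
  exact Finset.sum_congr rfl fun i _ => by ring

private theorem e_ipsn : e (ip S (sS S) (nS S)) = r ^ 2 * ∑ i, hh β i * dn x β i := by
  simp only [ip, map_sum, map_mul, e_Ds H, e_Dn H, Finset.mul_sum]
  exact Finset.sum_congr rfl fun i _ => by ring

private theorem e_ipnn : e (ip S (nS S) (nS S)) = r ^ 4 * ∑ i, dn x β i ^ 2 := by
  simp only [ip, map_sum, map_mul, e_Dn H, Finset.mul_sum]
  exact Finset.sum_congr rfl fun i _ => by ring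

private theorem e_w : e (wS S) = ∑ i, ((∑ j, ∑ k, β i j k ^ 2) - 3 * hh β i ^ 2) := by
  simp only [wS, map_sum, map_mul, e_De H]
  refine Finset.sum_congr rfl fun i _ => ?_
  simp only [dX, hh, Fin.sum_univ_three, if_true, if_false, Fin.isValue, Fin.reduceEq]
  ring

private theorem e_t : e (tS S) = -(3 * r ^ 6 * ee x) := by
  simp only [tS, map_sum, map_mul, e_e H]
  simp only [dg, ee, Fin.sum_univ_three, if_true, if_false, Fin.isValue, Fin.reduceEq]
  have h2 : x 2 = -(x 0 + x 1) := by linarith [H.sx]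
  rw [h2]
  ring

private theorem e_heat_s : e (heat S (sS S)) = r ^ 4 * (4 + nn x / 3) := by
  have h := congrArg e (heat_s (S := S))
  simp only [map_mul, map_add, map_pow, map_ofNat, H.es, e_n H] at h
  linear_combination h / 3

private theorem e_heat_n : e (heat S (nS S)) =
    -2 * ∑ i, ((∑ j, ∑ k, β i j k ^ 2) - 3 * hh β i ^ 2) + r ^ 6 * (4 * nn x + 24 * ee x) := by
  have h := congrArg e (heat_n (S := S))
  simp only [map_mul, map_add, map_sub, map_neg, map_pow, map_ofNat, H.es, e_n H, e_w H,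
    e_t H] at h
  rw [h]
  ring

private theorem e_F : e (FS p u) = r ^ 3 * f0 p (nn x) w := by
  have hr := H.r0.ne'
  simp only [FS, map_add, map_mul, map_pow, map_smul, H.er, H.eri, H.emu, e_n H, smul_eq_mul, f0]
  field_simp

private theorem e_Fs : e (FsS p u) = r * fs p (nn x) w := by
  have hr := H.r0.ne'
  simp only [FsS, map_add, map_sub, map_mul, map_pow, map_smul, H.er, H.eri, H.emu, e_n H,
    smul_eq_mul, fs]
  field_simp

private theorem e_Fn : e (FnS p u) = r⁻¹ * fn p (nn x) w := by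
  have hr := H.r0.ne'
  simp only [FnS, map_add, map_sub, map_mul, map_pow, map_smul, H.er, H.eri, H.emu, e_n H,
    smul_eq_mul, fn]
  field_simp

private theorem e_Fm : e (FmS p u) =
    r ^ 2 * (p.B1 * nn x + p.B2 * nn x ^ 2 + 2 * p.C1 * w * nn x) := by
  have hr := H.r0.ne'
  simp only [FmS, map_add, map_sub, map_mul, map_pow, map_smul, H.er, H.eri, H.emu, e_n H,
    smul_eq_mul]
  field_simp

private theorem e_Fss : e (FssS p u) = r⁻¹ * fss p (nn x) w := by
  have hr := H.r0.ne'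
  simp only [FssS, map_add, map_sub, map_mul, map_pow, map_smul, H.er, H.eri, H.emu, e_n H,
    smul_eq_mul, fss]
  field_simp

private theorem e_Fsn : e (FsnS p u) = r⁻¹ ^ 3 * fsn p (nn x) w := by
  have hr := H.r0.ne'
  simp only [FsnS, map_add, map_sub, map_neg, map_mul, map_pow, map_smul, H.er, H.eri, H.emu,
    e_n H, smul_eq_mul, fsn]
  field_simp

private theorem e_Fnn : e (FnnS p u) = r⁻¹ ^ 5 * fnn p w := by
  have hr := H.r0.ne'
  simp only [FnnS, map_mul, map_pow, map_smul, H.eri, H.emu, smul_eq_mul, fnn]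
  field_simp

private theorem e_DPhi (i j k : Fin 3) : e (S.D i (PhiS p u j k)) = r⁻¹ * dPhi p x β i j k := by
  have hr := H.r0.ne'
  rw [D_Phi]
  simp only [map_add, map_sub, map_mul, map_pow, map_smul, H.er, H.eri, H.emu, e_n H, e_Ds H,
    e_Dn H, e_x H, e_x2 H, e_Dx H, e_Dx2 H, smul_eq_mul, dPhi]
  field_simp

private theorem e_DPsi (i j k l : Fin 3) :
    e (S.D i (PsiS u i j k l)) = r⁻¹ * dPsi x β i j k l := by
  have hr := H.r0.ne'
  rw [D_Psi]
  simp only [map_add, map_sub, map_neg, map_mul, map_pow, map_smul, H.er, H.eri, H.emu, e_n H,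
    e_Ds H, e_Dn H, e_x H, e_x2 H, e_Dx H, e_Dx2 H, smul_eq_mul, dPsi]
  field_simp
  ring

private theorem e_Phi (j k : Fin 3) : e (PhiS p u j k) =
    r * (if j = k then (p.a + p.a1 * nn x) * x j + p.b * x j ^ 2 else 0) := by
  have hr := H.r0.ne'
  simp only [PhiS, map_add, map_mul, map_pow, map_smul, H.eri, e_n H, e_x H, e_x2 H, dg, dg2,
    smul_eq_mul]
  split_ifs
  · field_simp
  · ring

private theorem e_Psi (i j k l : Fin 3) : e (PsiS u i j k l) =
    r * (dg x i k * dg2 x j l - dg2 x i k * dg x j l) := by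
  have hr := H.r0.ne'
  simp only [PsiS, map_mul, map_sub, map_pow, H.eri, e_x H, e_x2 H]
  field_simp

private theorem e_cof (j : Fin 3) : e (cofS S j j) =
    2 * r ^ 4 * (if j = 0 then (1 + x 1) * (1 + x 2) else
      if j = 1 then (1 + x 0) * (1 + x 2) else (1 + x 0) * (1 + x 1)) := by
  simp only [cofS, map_sum, map_smul, map_mul, H.eP, smul_eq_mul]
  fin_cases j <;> simp [Fin.sum_univ_three, eps_ii, eps_ij, eps_jj] <;> ring

private theorem e_RS (i j k l : Fin 3) : e (RS S i j k l) =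
    r ^ 4 * ∑ m, eps i j m * (1 + x m) * (eps m k l * (1 + x l) + eps m l k * (1 + x k)) := by
  simp only [RS, map_sum, map_smul, map_mul, map_add, H.eP, smul_eq_mul]
  rw [Finset.mul_sum]
  refine Finset.sum_congr rfl fun m _ => ?_
  have h1 : ∀ n : Fin 3, ∑ a, (eps n k a * (if a = l then r ^ 2 * (1 + x a) else 0)
      + eps n l a * (if k = a then r ^ 2 * (1 + x k) else 0))
      = r ^ 2 * (eps n k l * (1 + x l) + eps n l k * (1 + x k)) := by
    intro n
    rw [Finset.sum_add_distrib]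
    simp only [mul_ite, mul_zero, Finset.sum_ite_eq, Finset.sum_ite_eq', Finset.mem_univ, if_true]
    ring
  simp only [h1]
  simp only [ite_mul, zero_mul, mul_ite, mul_zero, Finset.sum_ite_eq, Finset.mem_univ,
    if_true]
  ring

private theorem e_Z1 : e (∑ j, ∑ k, PhiS p u j k *
        (3 * sS S * S.P j k - (∑ l, S.P j l * S.P l k) - cofS S j k)) =
    r ^ 5 * ((p.a + p.a1 * nn x) * (3 * nn x - 9 * ee x) + p.b * (9 * ee x - nn x ^ 2 / 2)) := by
  simp only [map_sum, map_mul, map_sub, map_ofNat, e_Phi p H]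
  have h1 : ∀ j, ∑ k, r * (if j = k then (p.a + p.a1 * nn x) * x j + p.b * x j ^ 2 else 0) *
      (3 * e (sS S) * e (S.P j k) - ∑ l, e (S.P j l) * e (S.P l k) - e (cofS S j k))
      = r * ((p.a + p.a1 * nn x) * x j + p.b * x j ^ 2) *
      (3 * e (sS S) * e (S.P j j) - ∑ l, e (S.P j l) * e (S.P l j) - e (cofS S j j)) := by
    intro j
    rw [Finset.sum_eq_single j]
    · rw [if_pos rfl]
    · intro k _ hk
      rw [if_neg (Ne.symm hk)]
      ring
    · simp
  simp only [h1, H.eP, H.es]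
  have h2 : x 2 = -(x 0 + x 1) := by linarith [H.sx]
  simp only [nn, ee, Fin.sum_univ_three, e_cof H, if_true, if_false, Fin.isValue, Fin.reduceEq]
  rw [h2]
  ring

private theorem e_Z2 : e (∑ i, ∑ j, ∑ k, ∑ l, PsiS u i j k l * RS S i j k l) =
    2 * r ^ 5 * (x 0 * x 1 * (x 0 - x 1) ^ 2 * (1 + x 2) + x 1 * x 2 * (x 1 - x 2) ^ 2 * (1 + x 0)
    + x 2 * x 0 * (x 2 - x 0) ^ 2 * (1 + x 1)) := by
  simp only [map_sum, map_mul, e_Psi H, e_RS H]
  simp [Fin.sum_univ_three, eps_ii, eps_ij, eps_jj, dg, dg2]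
  ring

end

theorem ev_QdS (e : A →ₐ[ℝ] ℝ) (hr : 0 < e u.r) (hd : ∀ i j, i ≠ j → e (S.P i j) = 0) :
    e (QdS p u) =
      (e u.r)⁻¹ * Qf p (e u.mu / e u.r) (fun i => e (S.P i i) / (e u.r) ^ 2 - 1)
        (fun i j k => e (S.D i (S.P j k)))
      + (e u.r) ^ 5 * Zf p (e u.mu / e u.r) (fun i => e (S.P i i) / (e u.r) ^ 2 - 1) := by
  have H := at_intro u e hr hd
  generalize hrr : e u.r = r at *
  generalize hww : e u.mu / r = w at *
  generalize hxx : (fun i => e (S.P i i) / r ^ 2 - 1) = x at *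
  generalize hββ : (fun i j k => e (S.D i (S.P j k))) = β at *
  have hr0 : r ≠ 0 := H.r0.ne'
  rw [QdS_eq]
  have e1 : e (∑ i, ∑ j, ∑ k, S.D i (PhiS p u j k) * S.D j (S.P i k))
      = r⁻¹ * ∑ i, ∑ j, ∑ k, dPhi p x β i j k * β j i k := by
    simp only [map_sum, map_mul, e_DPhi p H, H.eD, Finset.mul_sum, mul_assoc]
  have e2 : e (∑ i, ∑ j, ∑ k, ∑ l, S.D i (PsiS u i j k l) * S.D j (S.P k l))
      = r⁻¹ * ∑ i, ∑ j, ∑ k, ∑ l, dPsi x β i j k l * β j k l := by
    simp only [map_sum, map_mul, e_DPsi H, H.eD, Finset.mul_sum, mul_assoc]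
  have e3 : ∑ i, (-fss p (nn x) w * hh β i ^ 2 - 2 * fsn p (nn x) w * hh β i * dn x β i
      - fnn p w * dn x β i ^ 2
      - 2 * fn p (nn x) w * ((∑ j, ∑ k, β i j k ^ 2) - 3 * hh β i ^ 2))
      = -fss p (nn x) w * ∑ i, hh β i ^ 2 - 2 * fsn p (nn x) w * ∑ i, hh β i * dn x β i
        - fnn p w * ∑ i, dn x β i ^ 2
        - 2 * fn p (nn x) w * ∑ i, ((∑ j, ∑ k, β i j k ^ 2) - 3 * hh β i ^ 2) := by
    rw [Finset.mul_sum, Finset.mul_sum, Finset.mul_sum, Finset.mul_sum,
      ← Finset.sum_sub_distrib, ← Finset.sum_sub_distrib, ← Finset.sum_sub_distrib]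
    exact Finset.sum_congr rfl fun i _ => by ring
  have e4 : e (2 * u.mu ^ 3 * FmS p u) = r ^ 5 * (4 * w ^ 2 * (1 / 2 * w *
      (p.B1 * nn x + p.B2 * nn x ^ 2) + w ^ 2 * p.C1 * nn x)) := by
    simp only [map_mul, map_pow, map_ofNat, H.emu, e_Fm p H]
    ring
  have e5 : e (6 * sS S * FS p u) = r ^ 5 * (6 * f0 p (nn x) w) := by
    simp only [map_mul, map_ofNat, H.es, e_F p H]
    ring
  rw [map_add, map_add, map_add, map_add, map_sub, map_sub, map_add, map_add, e4, e5, map_mul,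
    map_mul, e_Fs p H, e_Fn p H, e_heat_s H, e_heat_n H, map_add, map_add, map_mul, map_mul,
    map_mul, map_mul, map_ofNat, e_Fss p H, e_g H, e_Fsn p H, e_ipsn H, e_Fnn p H, e_ipnn H, e1,
    e_Z1 p H, map_smul, map_smul, e2, e_Z2 H, Qf, Zf, e3]
  simp only [smul_eq_mul]
  field_simp
  ring

/-- At a diagonal frame `x` has sum 0 and `n = s² |x|²`. -/
theorem x_facts (e : A →ₐ[ℝ] ℝ) (hr : 0 < e u.r) (hd : ∀ i j, i ≠ j → e (S.P i j) = 0) :
    (∑ i, (e (S.P i i) / (e u.r) ^ 2 - 1)) = 0 ∧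
      e (nS S) = (e u.r) ^ 4 * nn (fun i => e (S.P i i) / (e u.r) ^ 2 - 1) := by
  have H := at_intro u e hr hd
  refine ⟨?_, e_n H⟩
  rw [Fin.sum_univ_three]
  exact H.sx

end Pool.Agent.RFS.Ph1
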