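import Pool.Agent.RFS.DMain
import Pool.Agent.RFS.DGrad

/-!
# RFS phase 1: the preserved domain

`q ≥ (1/2) / (1 - 4t)` is preserved: with `qh = (3 s² - 2 n) / (3 s)` one has
`(T - Lap) qh ≥ 4 qh²`, hence for `f = (1 - 4t) qh - 1`: `(T - Lap) f ≥ 4 qh f`.
-/

set_option linter.unusedSimpArgs false

open Set MeasureTheory

noncomputable section

namespace Pool.Agent.RFS.Ph1

open Ham

variable {A : Type*} [CommRing A] [Algebra ℝ A] {S : RFAlg A} {M : Type*} [TopologicalSpace M]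
  [MeasurableSpace M] {b : ℝ}

/-- A minimum principle with a linear zero order term. -/
theorem nonneg_of_heat_ge (X : RFSpace S M b) (t₁ : ℝ) (ht₁ : t₁ ∈ Ico 0 b) (f : A) (κ : ℝ)
    (h0 : ∀ z, X.tm z = 0 → 0 ≤ X.ev z f)
    (hH : ∀ z, 0 < X.tm z → X.tm z ≤ t₁ → X.ev z f < 0 → κ * X.ev z f ≤ X.ev z (heat S f))
    (z : X.Fr) (hz : X.tm z ≤ t₁) : 0 ≤ X.ev z f := by
  obtain ⟨ε, hε, hεT, hεD, -⟩ := X.fc (fun x => Real.exp (-(κ + 1) * x)) univ isOpen_univ
    (Real.contDiff_exp.comp (contDiff_const.mul contDiff_id)).contDiffOn X.τ (fun _ => mem_univ _)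
  have hpos : ∀ z, 0 < X.ev z ε := fun z => by rw [hε]; exact Real.exp_pos _
  have hder : ∀ x : ℝ, deriv (fun x => Real.exp (-(κ + 1) * x)) x =
      -(κ + 1) * Real.exp (-(κ + 1) * x) := by
    intro x
    have h1 : HasDerivAt (fun x : ℝ => -(κ + 1) * x) (-(κ + 1) * 1) x :=
      (hasDerivAt_id x).const_mul _
    rw [(h1.exp).deriv]; ring
  have hD : ∀ i, S.D i ε = 0 := fun i => X.ev_ext _ _ fun z => by
    rw [hεD, X.D_τ, map_zero, mul_zero]
  have hT : S.T ε = (-(κ + 1)) • ε := X.ev_ext _ _ fun z => by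
    rw [hεT, X.T_τ, map_one, mul_one, hder, map_smul, hε, smul_eq_mul]
  have hheatε : heat S ε = (-(κ + 1)) • ε := by
    simp only [heat, lap, hD, map_zero, Finset.sum_const_zero, sub_zero, hT]
  have hip : ip S ε f = 0 := by
    simp only [ip, hD, zero_mul, Finset.sum_const_zero]
  have hh : heat S (-(ε * f)) = -(ε * heat S f + f * ((-(κ + 1)) • ε)) := by
    have h1 : heat S (-(ε * f)) = -heat S (ε * f) := by
      have := heat_sub S 0 (ε * f)
      rwa [heat_zero, zero_sub, zero_sub] at this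
    rw [h1, heat_mul, hheatε, hip, mul_zero, sub_zero]
  obtain ⟨w, hw1, hmax, hw⟩ := X.exists_max (-(ε * f)) t₁ ht₁
  have hev : ∀ z, X.ev z (-(ε * f)) = -(X.ev z ε * X.ev z f) := fun z => by
    rw [map_neg, map_mul]
  have hwf : 0 ≤ X.ev w f := by
    rcases eq_or_lt_of_le (X.tm_mem w).1 with h | h
    · exact h0 w h.symm
    · obtain ⟨hT', -, hL⟩ := hw h
      by_contra hneg
      push Not at hneg
      have h1 := hH w h hw1 hneg
      have h2 : 0 ≤ X.ev w (heat S (-(ε * f))) := by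
        have h3 : ∑ k, X.ev w (S.D k (S.D k (-(ε * f)))) ≤ 0 := Finset.sum_nonpos fun i _ => hL i
        simp only [heat, lap, map_sub, map_sum]
        linarith
      rw [hh, map_neg, map_add, map_mul, map_mul, map_smul, smul_eq_mul] at h2
      have h4 := hpos w
      have h5 : X.ev w ε * X.ev w f < 0 := mul_neg_of_pos_of_neg h4 hneg
      have h6 : X.ev w ε * (κ * X.ev w f) ≤ X.ev w ε * X.ev w (heat S f) :=
        mul_le_mul_of_nonneg_left h1 h4.le
      nlinarith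
  have h1 := hmax z hz
  rw [hev, hev] at h1
  have h2 : 0 ≤ X.ev w ε * X.ev w f := mul_nonneg (hpos w).le hwf
  have h3 : 0 ≤ X.ev z ε * X.ev z f := by linarith
  exact nonneg_of_mul_nonneg_right (by linarith [h3] : 0 ≤ X.ev z ε * X.ev z f) (hpos z)

/-- The preserved domain: `q ≥ (1/2) / (1 - 4t)`, that is `(1 - 4t) (3 s² - 2 n) ≥ 3 s`. -/
theorem domain_preserved [Nonempty M] (X : RFSpace S M b) (hb : 0 < b)
    (h0 : ∀ z, X.tm z = 0 → 0 < X.ev z (Ham.sS S) ∧
      3 * X.ev z (Ham.sS S) ≤ 3 * X.ev z (Ham.sS S) ^ 2 - 2 * X.ev z (Ham.nS S)) :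
    b ≤ 1 / 4 ∧ ∀ z, 0 < X.ev z (Ham.sS S) ∧
      3 * X.ev z (Ham.sS S) ≤
        (1 - 4 * X.tm z) * (3 * X.ev z (Ham.sS S) ^ 2 - 2 * X.ev z (Ham.nS S)) := by
  -- positivity and pinching
  have h00 : ∀ z, X.tm z = 0 → 1 ≤ X.ev z (sS S) ∧ X.ev z (nS S) ≤ (3 / 2) * X.ev z (sS S) ^ 2 := by
    intro z hz
    obtain ⟨h1, h2⟩ := h0 z hz
    have hn := ev_n_nonneg X z
    refine ⟨?_, by nlinarith⟩
    by_contra h
    push Not at h
    nlinarith
  obtain ⟨hpp, -⟩ := final_pinch X h00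
  have hpos : ∀ z, 0 < X.ev z (sS S) := fun z => one_pos.trans_le (hpp z).1
  obtain ⟨w, hw⟩ := exists_inv X (sS S) hpos
  have hsw : ∀ z, X.ev z (sS S) * X.ev z w = 1 := fun z => by
    have := congrArg (X.ev z) hw
    rwa [map_mul, map_one] at this
  have hwpos : ∀ z, 0 < X.ev z w := fun z => by
    have := hsw z
    by_contra h
    push Not at h
    nlinarith [hpos z]
  -- `qh`
  set qh : A := sS S - (2 / 3 : ℝ) • (nS S * w) with hqh
  have hevq : ∀ z, X.ev z qh = X.ev z (sS S) - 2 / 3 * (X.ev z (nS S) * X.ev z w) := fun z => by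
    rw [hqh, map_sub, map_smul, map_mul, smul_eq_mul]
  have hq0 : ∀ z, 0 ≤ X.ev z qh := by
    intro z
    rw [hevq]
    have h1 := (hpp z).2
    have h2 := hsw z
    have h3 := hwpos z
    have h4 : X.ev z (nS S) * X.ev z w ≤ (3 / 2) * X.ev z (sS S) ^ 2 * X.ev z w := by gcongr
    have h5 : (3 / 2) * X.ev z (sS S) ^ 2 * X.ev z w = (3 / 2) * X.ev z (sS S) := by
      linear_combination (3 / 2 * X.ev z (sS S)) * h2
    linarith
  have hheat : heat S qh = heat S (sS S) - (2 / 3 : ℝ) • (w * heat S (nS S)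
      + nS S * (-w ^ 2 * heat S (sS S) - 2 * w ^ 3 * gS S) + 2 * w ^ 2 * ip S (nS S) (sS S)) := by
    rw [hqh, heat_sub, heat_smul, heat_mul, heat_inv hw, ip_inv hw, ← gS]
    congr 2
    ring
  have hheatq : ∀ z, 4 * X.ev z qh ^ 2 ≤ X.ev z (heat S qh) := by
    intro z
    have hn := ev_n_nonneg X z
    have hs := hpos z
    have hv := hwpos z
    have hcub := ev_cubic X z
    have hns := (hpp z).2
    have hsv := hsw z
    -- the square
    have hsq : 0 ≤ X.ev z (wS S) - X.ev z w * X.ev z (ip S (nS S) (sS S))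
        + X.ev z (nS S) * X.ev z w ^ 2 * X.ev z (gS S) := by
      have h1 : X.ev z (wS S) - X.ev z w * X.ev z (ip S (nS S) (sS S))
          + X.ev z (nS S) * X.ev z w ^ 2 * X.ev z (gS S) =
          ∑ k, ∑ i, ∑ j, (X.ev z (S.D k (eS S i j))
            - X.ev z w * X.ev z (eS S i j) * X.ev z (S.D k (sS S))) ^ 2 := by
        simp only [wS, ip, nS, gS, map_sum, Derivation.leibniz, map_add, smul_eq_mul, map_mul,
          Fin.sum_univ_three]
        ring
      rw [h1]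
      positivity
    rw [hheat, hevq]
    simp only [map_add, map_sub, map_mul, map_pow, map_neg, map_ofNat, map_smul, smul_eq_mul,
      ev_heat_s, ev_heat_n]
    set s := X.ev z (sS S)
    set n := X.ev z (nS S)
    set W := X.ev z (wS S)
    set T := X.ev z (tS S)
    set g := X.ev z (gS S)
    set v := X.ev z w
    set p := X.ev z (ip S (nS S) (sS S))
    have hTb : |T| ≤ s * n / 2 := by
      refine abs_le_of_sq_le_sq ?_ (by positivity)
      have h1 : n ^ 3 ≤ n ^ 2 * ((3 / 2) * s ^ 2) := by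
        have : n ^ 3 = n ^ 2 * n := by ring
        rw [this]
        gcongr
      nlinarith [h1]
    have hvT : -(v * T) ≤ n / 2 := by
      have h1 : v * (-T) ≤ v * (s * n / 2) := by
        have := (neg_le_abs T).trans hTb
        gcongr
      have h2 : v * (s * n / 2) = n / 2 := by linear_combination (n / 2) * hsv
      linarith
    have hnv : n * v ^ 2 ≤ 3 / 2 := by
      have h1 : n * v ^ 2 ≤ (3 / 2) * s ^ 2 * v ^ 2 := by gcongr
      have h2 : (3 / 2) * s ^ 2 * v ^ 2 = 3 / 2 := by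
        linear_combination (3 / 2 * (s * v + 1)) * hsv
      linarith
    have hnv2 : n ^ 2 * v ^ 2 ≤ 3 / 2 * n := by
      have : n * (n * v ^ 2) ≤ n * (3 / 2) := by gcongr
      nlinarith
    have e1 : 4 * s ^ 2 + n / 3 - 2 / 3 * (v * (-2 * W + 4 * s * n - 8 * T)
        + n * (-v ^ 2 * (4 * s ^ 2 + n / 3) - 2 * v ^ 3 * g) + 2 * v ^ 2 * p)
        - 4 * (s - 2 / 3 * (n * v)) ^ 2
        = (17 / 3) * n + (16 / 3) * (v * T) - (14 / 9) * (n ^ 2 * v ^ 2)
          + (4 / 3) * (v * (W - v * p + n * v ^ 2 * g)) := by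
      linear_combination (-(8 / 3) * n + (8 / 3) * n * (s * v + 1) + (16 / 3) * n) * hsv
    have h7 : 0 ≤ v * (W - v * p + n * v ^ 2 * g) := mul_nonneg hv.le hsq
    linarith
  -- `f = (1 - 4t) qh - 1`
  set f : A := (1 - (4 : ℝ) • X.τ) * qh - 1 with hf
  have hevf : ∀ z, X.ev z f = (1 - 4 * X.tm z) * X.ev z qh - 1 := fun z => by
    rw [hf, map_sub, map_mul, map_sub, map_one, map_smul, X.ev_τ, smul_eq_mul]
  have hheatl : heat S (1 - (4 : ℝ) • X.τ) = -4 := by
    simp only [heat, lap, map_sub, Derivation.map_one_eq_zero, Derivation.map_smul, X.T_τ, X.D_τ,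
      smul_zero, sub_zero, Finset.sum_const_zero, zero_sub, map_zero, neg_zero]
    rw [Algebra.smul_def, map_ofNat, mul_one]
  have hheatf : heat S f = (1 - (4 : ℝ) • X.τ) * heat S qh - 4 * qh := by
    have h1 : ip S (1 - (4 : ℝ) • X.τ) qh = 0 := by
      simp only [ip, map_sub, Derivation.map_one_eq_zero, Derivation.map_smul, X.D_τ, smul_zero,
        sub_zero, zero_mul, Finset.sum_const_zero]
    rw [hf, heat_sub, heat_one, heat_mul, hheatl, h1]
    ring
  have hf0 : ∀ z, X.tm z = 0 → 0 ≤ X.ev z f := by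
    intro z hz
    rw [hevf, hz, hevq]
    have h1 := (h0 z hz).2
    have h2 := hsw z
    have h3 := hwpos z
    have h4 : 0 ≤ X.ev z w * (3 * X.ev z (sS S) ^ 2 - 2 * X.ev z (nS S) - 3 * X.ev z (sS S)) :=
      mul_nonneg h3.le (by linarith)
    have h5 : X.ev z w * (3 * X.ev z (sS S) ^ 2 - 2 * X.ev z (nS S) - 3 * X.ev z (sS S)) =
        3 * (X.ev z (sS S) - 2 / 3 * (X.ev z (nS S) * X.ev z w) - 1) := by
      linear_combination (3 * X.ev z (sS S) - 3) * h2
    linarith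
  have hmain : ∀ t₁ ∈ Ico 0 b, t₁ ≤ 1 / 4 → ∀ z, X.tm z ≤ t₁ → 0 ≤ X.ev z f := by
    intro t₁ ht₁ ht14
    obtain ⟨w1, -, hK, -⟩ := X.exists_max qh t₁ ht₁
    refine nonneg_of_heat_ge X t₁ ht₁ f (4 * X.ev w1 qh) hf0 fun z hz0 hz1 hneg => ?_
    have hlam : 0 ≤ 1 - 4 * X.tm z := by linarith
    have h1 : X.ev z (heat S f) = (1 - 4 * X.tm z) * X.ev z (heat S qh) - 4 * X.ev z qh := by
      rw [hheatf, map_sub, map_mul, map_sub, map_one, map_smul, X.ev_τ, smul_eq_mul, map_mul,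
        map_ofNat]
    have h2 : (1 - 4 * X.tm z) * (4 * X.ev z qh ^ 2) ≤ (1 - 4 * X.tm z) * X.ev z (heat S qh) :=
      mul_le_mul_of_nonneg_left (hheatq z) hlam
    have h3 : 4 * X.ev z qh * X.ev z f = (1 - 4 * X.tm z) * (4 * X.ev z qh ^ 2) - 4 * X.ev z qh := by
      rw [hevf]; ring
    have h4 : 4 * X.ev w1 qh * X.ev z f ≤ 4 * X.ev z qh * X.ev z f := by
      have := hK z hz1
      nlinarith
    linarith
  have hb4 : b ≤ 1 / 4 := by
    by_contra h
    push Not at h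
    have hm : (1 / 4 : ℝ) ∈ Ico 0 b := ⟨by norm_num, h⟩
    obtain ⟨z, hz, -⟩ := X.exists_pt (1 / 4) hm (Classical.arbitrary M)
    have h1 := hmain (1 / 4) hm le_rfl z hz.le
    rw [hevf, hz] at h1
    norm_num at h1
  refine ⟨hb4, fun z => ⟨hpos z, ?_⟩⟩
  have hz := X.tm_mem z
  have h1 := hmain (X.tm z) hz (hz.2.le.trans hb4) z le_rfl
  rw [hevf, hevq] at h1
  have h2 := hsw z
  have h3 := hpos z
  have h4 : 0 ≤ 3 * X.ev z (sS S) * ((1 - 4 * X.tm z) *
      (X.ev z (sS S) - 2 / 3 * (X.ev z (nS S) * X.ev z w)) - 1) := by positivity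
  have h5 : 3 * X.ev z (sS S) * ((1 - 4 * X.tm z) *
      (X.ev z (sS S) - 2 / 3 * (X.ev z (nS S) * X.ev z w)) - 1) =
      (1 - 4 * X.tm z) * (3 * X.ev z (sS S) ^ 2 - 2 * X.ev z (nS S)) - 3 * X.ev z (sS S) := by
    linear_combination (-2 * (1 - 4 * X.tm z) * X.ev z (nS S)) * h2
  linarith

end Pool.Agent.RFS.Ph1
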