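import Pool.Agent.RFS.PDef

/-!
# RFS phase 1: the algebraic identity for `QdS` (v2)

PROOF.  Let `n = nS S`, `s = sS S`, `r, ri, mu` as in `Aux`; note `s * ri ^ 2 = 1` and (apply any
derivation `X` to `r * r = s` and to `r * ri = 1`) `X r = (1/2) ri X s`, `X ri = -(1/2) ri^3 X s`.
Hence `X (FS) = Fs * X s + Fn * X n + Fm * X mu` with the elements FsS, FnS, FmS below, and for the
horizontal `D_i` (`D_i mu = 0`) once more `D_i Fs = Fss D_i s + Fsn D_i n`,
`D_i Fn = Fsn D_i s + Fnn D_i n`.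
So `T F - ∑ D_i D_i F = Fs heat s + Fn heat n + 2 mu^3 Fm - (Fss g + 2 Fsn ip s n + Fnn ip n n)`.
`∑_i D_i (VS i)`: product rule; the terms with second derivatives of `P` are
(1) `∑_jk Phi_jk (∑_i D_i D_j P_ik)` and, by `div_P`,
`∑_i D_i D_j P_ik = ∑_i (D_i D_j - D_j D_i) P_ik
   = ∑_i ∑_m ∑_n eps i j m • (P m n * V n (P i k)) = 3 s P_jk - (P^2)_jk - 2 cof(P)_jk`
(`comm_DD`, `V_P`), `2 cof(P)_jk = ∑ eps j a b * eps k c d • (P a c * P b d)`;
(2) `q ∑ Psi_ijkl D_i D_j P_kl = (q/2) ∑ Psi_ijkl (D_i D_j - D_j D_i) P_kl` because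
`Psi_jilk = - Psi_ijkl` and `P_kl = P_lk`; again `comm_DD`, `V_P`:
`(D_i D_j - D_j D_i) P_kl = ∑_mn eps i j m • (P m n * V n (P k l)) =: RS i j k l`.
-/

noncomputable section

namespace Pool.Agent.RFS.Ph1

open Pool.Agent.RFS.Ham

variable {A : Type*} [CommRing A] [Algebra ℝ A] {S : RFAlg A} (p : Par) (u : Aux S)

/-- The derivative of the square root. -/
private theorem dr (r s : A) (X : Derivation ℝ A A) (ri : A) (h : r * r = s) (h2 : r * ri = 1) :
    X r = (1 / 2 : ℝ) • (ri * X s) := by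
  have e : X s = 2 * (r * X r) := by
    rw [← h, Derivation.leibniz, smul_eq_mul]; ring
  rw [e]
  linear_combination (norm := algebra) (-(X r)) * h2

private theorem dri (r s : A) (X : Derivation ℝ A A) (ri : A) (h : r * r = s) (h2 : r * ri = 1) :
    X ri = -((1 / 2 : ℝ) • (ri ^ 3 * X s)) := by
  have e : ri * X r + r * X ri = 0 := by
    have := congrArg X h2
    rw [Derivation.leibniz, smul_eq_mul, smul_eq_mul, Derivation.map_one_eq_zero] at this
    linear_combination this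
  have e2 := dr r s X ri h h2
  rw [e2] at e
  linear_combination (norm := algebra) ri * e - (X ri) * h2

private theorem dpow (X : Derivation ℝ A A) (f : A) (k : ℕ) :
    X (f ^ (k + 1)) = ((k : ℝ) + 1) • (f ^ k * X f) := by
  induction k with
  | zero => simp
  | succ k ih =>
    rw [pow_succ, Derivation.leibniz, ih]
    simp only [smul_eq_mul]
    push_cast
    algebra

/-- `∂F/∂s`. -/
def FsS : A := (3 / 2 : ℝ) • u.r - (1 / 2 * p.A1) • (nS S * u.ri ^ 3)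
  - u.mu * (p.B1 • (nS S * u.ri ^ 4) + (3 * p.B2) • (nS S ^ 2 * u.ri ^ 8))
  - (3 / 2 * p.C1) • (u.mu ^ 2 * nS S * u.ri ^ 5)
/-- `∂F/∂n`. -/
def FnS : A := p.A1 • u.ri
  + u.mu * (p.B1 • u.ri ^ 2 + (2 * p.B2) • (nS S * u.ri ^ 6)) + p.C1 • (u.mu ^ 2 * u.ri ^ 3)
/-- `∂F/∂mu`. -/
def FmS : A := p.B1 • (nS S * u.ri ^ 2) + p.B2 • (nS S ^ 2 * u.ri ^ 6)
  + (2 * p.C1) • (u.mu * nS S * u.ri ^ 3)
/-- `∂²F/∂s²`. -/
def FssS : A := (3 / 4 : ℝ) • u.ri + (3 / 4 * p.A1) • (nS S * u.ri ^ 5)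
  + u.mu * ((2 * p.B1) • (nS S * u.ri ^ 6) + (12 * p.B2) • (nS S ^ 2 * u.ri ^ 10))
  + (15 / 4 * p.C1) • (u.mu ^ 2 * nS S * u.ri ^ 7)
/-- `∂²F/∂s∂n`. -/
def FsnS : A := -((1 / 2 * p.A1) • u.ri ^ 3)
  - u.mu * (p.B1 • u.ri ^ 4 + (6 * p.B2) • (nS S * u.ri ^ 8))
  - (3 / 2 * p.C1) • (u.mu ^ 2 * u.ri ^ 5)
/-- `∂²F/∂n²`. -/
def FnnS : A := (2 * p.B2) • (u.mu * u.ri ^ 6)

/-- Twice the cofactor matrix of `P`. -/
def cofS (S : RFAlg A) (j k : Fin 3) : A :=
  ∑ a, ∑ b, ∑ c, ∑ d, (eps j a b * eps k c d) • (S.P a c * S.P b d)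

/-- The commutator `(D_i D_j - D_j D_i) P_kl`. -/
def RS (S : RFAlg A) (i j k l : Fin 3) : A :=
  ∑ m, ∑ n, eps i j m • (S.P m n * ∑ a, (eps n k a • S.P a l + eps n l a • S.P k a))

private theorem d1 (X : Derivation ℝ A A) :
    X (FS p u) = FsS p u * X (sS S) + FnS p u * X (nS S) + FmS p u * X u.mu := by
  have h1 := dr _ _ X _ u.r_sq u.r_ri
  have h2 := dri _ _ X _ u.r_sq u.r_ri
  simp only [FS, map_add, Derivation.map_smul, Derivation.leibniz, smul_eq_mul,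
    dpow X _ 1, dpow X _ 2, dpow X _ 5, h1, h2, FsS, FnS, FmS]
  have h3 : u.r ^ 2 * u.ri = u.r := by linear_combination u.r * u.r_ri
  linear_combination (norm := (push_cast; algebra)) (3 / 2 : ℝ) • (X (sS S)) * h3

private theorem d2 (i : Fin 3) :
    S.D i (FsS p u) = FssS p u * S.D i (sS S) + FsnS p u * S.D i (nS S) := by
  have h1 := dr _ _ (S.D i) _ u.r_sq u.r_ri
  have h2 := dri _ _ (S.D i) _ u.r_sq u.r_ri
  simp only [FsS, map_add, map_sub, Derivation.map_smul, Derivation.leibniz, smul_eq_mul, u.D_mu,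
    mul_zero, add_zero, dpow (S.D i) _ 1, dpow (S.D i) _ 2, dpow (S.D i) _ 3, dpow (S.D i) _ 4,
    dpow (S.D i) _ 7, h1, h2, FssS, FsnS, smul_zero]
  push_cast; algebra

private theorem d3 (i : Fin 3) :
    S.D i (FnS p u) = FsnS p u * S.D i (sS S) + FnnS p u * S.D i (nS S) := by
  have h2 := dri _ _ (S.D i) _ u.r_sq u.r_ri
  simp only [FnS, map_add, Derivation.map_smul, Derivation.leibniz, smul_eq_mul, u.D_mu,
    mul_zero, add_zero, dpow (S.D i) _ 1, dpow (S.D i) _ 2, dpow (S.D i) _ 5, h2, FnnS, FsnS,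
    smul_zero]
  push_cast; algebra

private theorem d4 : S.T (FS p u) - ∑ i, S.D i (S.D i (FS p u)) =
    FsS p u * heat S (sS S) + FnS p u * heat S (nS S) + 2 * u.mu ^ 3 * FmS p u
    - (FssS p u * gS S + 2 * FsnS p u * ip S (sS S) (nS S)
      + FnnS p u * ip S (nS S) (nS S)) := by
  simp only [d1, map_add, Derivation.leibniz, smul_eq_mul, u.D_mu, mul_zero, add_zero, d2, d3,
    u.T_mu, heat, lap, gS, ip, Fin.sum_univ_three]
  ring

private theorem f3 (p : Fin 3 → Prop) : (∀ i, p i) ↔ p 0 ∧ p 1 ∧ p 2 :=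
  ⟨fun h => ⟨h 0, h 1, h 2⟩, fun h i => by fin_cases i; exacts [h.1, h.2.1, h.2.2]⟩

private theorem dRS (i j k l : Fin 3) :
    S.D i (S.D j (S.P k l)) - S.D j (S.D i (S.P k l)) = RS S i j k l := by
  rw [S.comm_DD i j (S.P k l)]
  simp only [S.V_P, RS]

/-- the contracted commutator -/
private theorem d5 (j k : Fin 3) : ∑ i, S.D i (S.D j (S.P i k)) =
    3 * sS S * S.P j k - (∑ l, S.P j l * S.P l k) - cofS S j k := by
  have h0 : ∑ i, S.D j (S.D i (S.P i k)) = 0 := by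
    rw [← map_sum, S.div_P, map_zero]
  have h1 : ∀ i, S.D i (S.D j (S.P i k)) = S.D j (S.D i (S.P i k)) + RS S i j i k := by
    intro i
    linear_combination dRS (S := S) i j i k
  rw [Finset.sum_congr rfl fun i _ => h1 i, Finset.sum_add_distrib, h0, zero_add]
  rw [three_s]
  clear h1 h0
  revert j k
  have e10 := S.P_symm 1 0
  have e20 := S.P_symm 2 0
  have e21 := S.P_symm 2 1
  simp only [cofS, RS, Fin.sum_univ_three, f3,
    eps_ii, eps_ij, eps_jj, eps012, eps120, eps201, eps021, eps210,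
    eps102, zero_mul, mul_zero, zero_smul, add_zero, zero_add, one_mul, mul_one, one_smul, neg_mul,
    mul_neg, neg_neg, neg_smul, neg_zero, e10, e20, e21]
  refine ⟨⟨?_, ?_, ?_⟩, ⟨?_, ?_, ?_⟩, ?_, ?_, ?_⟩ <;> ring

private theorem d7 : ∑ i, ∑ j, ∑ k, ∑ l, PsiS u i j k l * S.D i (S.D j (S.P k l)) =
    (1 / 2 : ℝ) • ∑ i, ∑ j, ∑ k, ∑ l, PsiS u i j k l * RS S i j k l := by
  have h1 : ∑ i, ∑ j, ∑ k, ∑ l, PsiS u i j k l * S.D i (S.D j (S.P k l)) =
      -∑ i, ∑ j, ∑ k, ∑ l, PsiS u i j k l * S.D j (S.D i (S.P k l)) := by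
    rw [Finset.sum_comm]
    simp only [← Finset.sum_neg_distrib]
    refine Finset.sum_congr rfl fun i _ => Finset.sum_congr rfl fun j _ => ?_
    rw [Finset.sum_comm]
    refine Finset.sum_congr rfl fun k _ => Finset.sum_congr rfl fun l _ => ?_
    rw [S.P_symm l k]
    simp only [PsiS]
    ring
  have h2 : ∑ i, ∑ j, ∑ k, ∑ l, PsiS u i j k l * RS S i j k l =
      ∑ i, ∑ j, ∑ k, ∑ l, PsiS u i j k l * S.D i (S.D j (S.P k l))
      - ∑ i, ∑ j, ∑ k, ∑ l, PsiS u i j k l * S.D j (S.D i (S.P k l)) := by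
    simp only [← Finset.sum_sub_distrib, ← mul_sub, dRS]
  rw [h2]
  linear_combination (norm := algebra) (1 / 2 : ℝ) • h1

private theorem d6 (i : Fin 3) : S.D i (VS p u i) =
    ∑ j, ∑ k, (S.D i (PhiS p u j k) * S.D j (S.P i k)
      + PhiS p u j k * S.D i (S.D j (S.P i k)))
    + p.q • ∑ j, ∑ k, ∑ l, (S.D i (PsiS u i j k l) * S.D j (S.P k l)
      + PsiS u i j k l * S.D i (S.D j (S.P k l))) := by
  simp only [VS, map_sum, map_add, Derivation.map_smul, Derivation.leibniz, smul_eq_mul]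
  congr 1
  · exact Finset.sum_congr rfl fun j _ => Finset.sum_congr rfl fun k _ => by ring
  · congr 1
    exact Finset.sum_congr rfl fun j _ => Finset.sum_congr rfl fun k _ =>
      Finset.sum_congr rfl fun l _ => by ring

theorem QdS_eq : QdS p u =
    FsS p u * heat S (sS S) + FnS p u * heat S (nS S) + 2 * u.mu ^ 3 * FmS p u
    - 6 * sS S * FS p u
    - (FssS p u * gS S + 2 * FsnS p u * ip S (sS S) (nS S) + FnnS p u * ip S (nS S) (nS S))
    + ∑ i, ∑ j, ∑ k, S.D i (PhiS p u j k) * S.D j (S.P i k)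
    + ∑ j, ∑ k, PhiS p u j k *
        (3 * sS S * S.P j k - (∑ l, S.P j l * S.P l k) - cofS S j k)
    + p.q • ∑ i, ∑ j, ∑ k, ∑ l, S.D i (PsiS u i j k l) * S.D j (S.P k l)
    + (p.q / 2) • ∑ i, ∑ j, ∑ k, ∑ l, PsiS u i j k l * RS S i j k l := by
  have h6 : ∑ j, ∑ k, PhiS p u j k *
        (3 * sS S * S.P j k - (∑ l, S.P j l * S.P l k) - cofS S j k) =
        ∑ i, ∑ j, ∑ k, PhiS p u j k * S.D i (S.D j (S.P i k)) := by
    have h8 := fun j k => (d5 (S := S) j k).symm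
    simp only [Fin.sum_univ_three] at h8 ⊢
    simp only [h8]
    ring
  have h7 : ∑ k, S.P k k = 3 * sS S := by rw [three_s]; simp [Fin.sum_univ_three]
  rw [QdS, h7, h6]
  simp only [YS, map_sub, Finset.sum_sub_distrib, d6, Finset.sum_add_distrib, smul_add,
    ← Finset.smul_sum]
  linear_combination (norm := algebra) d4 p u + p.q • d7 u

theorem D_Phi (i j k : Fin 3) : S.D i (PhiS p u j k) =
    ((-(1 / 2) * p.a) • (u.ri ^ 3 * S.D i (sS S))
      - (5 / 2 * p.a1) • (nS S * u.ri ^ 7 * S.D i (sS S)) + p.a1 • (u.ri ^ 5 * S.D i (nS S)))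
        * xS S j k
    + (p.a • u.ri + p.a1 • (nS S * u.ri ^ 5)) * S.D i (xS S j k)
    - (3 / 2 * p.b) • (u.ri ^ 5 * S.D i (sS S) * x2S S j k)
    + p.b • (u.ri ^ 3 * S.D i (x2S S j k)) := by
  have h2 := dri _ _ (S.D i) _ u.r_sq u.r_ri
  simp only [PhiS, map_add, Derivation.map_smul, Derivation.leibniz, smul_eq_mul,
    dpow (S.D i) _ 2, dpow (S.D i) _ 4, h2]
  push_cast; algebra

theorem D_Psi (i j k l : Fin 3) : S.D i (PsiS u i j k l) =
    -((5 / 2 : ℝ) • (u.ri ^ 7 * S.D i (sS S) * (xS S i k * x2S S j l - x2S S i k * xS S j l)))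
    + u.ri ^ 5 * (S.D i (xS S i k) * x2S S j l + xS S i k * S.D i (x2S S j l)
      - S.D i (x2S S i k) * xS S j l - x2S S i k * S.D i (xS S j l)) := by
  have h2 := dri _ _ (S.D i) _ u.r_sq u.r_ri
  simp only [PsiS, map_sub, Derivation.leibniz, smul_eq_mul, dpow (S.D i) _ 4, h2]
  push_cast; algebra

end Pool.Agent.RFS.Ph1
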