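import Pool.Agent.RFS.PDef
import Pool.Agent.RFS.DInv

/-!
# RFS phase 1: facts on a Ricci flow space

* `exists_diag`: over every point there is a frame in which `P` is diagonal.
* `exists_aux`: `r = √s` and `mu = (1 - 4t)^(-1/2)` exist.
* `YS_equivariant`.

PROOFS.
`exists_diag`: `H i j = ev z (P i j)` is a real symmetric matrix; the spectral theorem
(`Matrix.IsHermitian`) gives an orthogonal `Q` with `Qᵀ H Q` diagonal; `rot Q z` has
`ev (P i j) = ∑ Q k i Q l j H k l` by `ev_R`, `R_P`.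
`exists_aux`: `X.fc` with `ψ = Real.sqrt` on `(0, ∞)` gives `r` with `ev z r = √(ev z s)`, hence
`r * r = s` by `ev_ext`; `X.fc` with `ψ y = y⁻¹` on `(0, ∞)` gives `ri`; `X.fc` with
`ψ t = (√(1 - 4 t))⁻¹` on `t < 1/4` applied to `τ` gives `mu`; `ψ' (t) = 2 (√(1-4t))⁻¹ ^ 3`,
`T τ = 1`, `D τ = 0`.
`YS_equivariant`: `R Q` fixes `s, n, r, ri, mu` (Ham.inv_s, inv_n; `r, ri > 0` are determined by
`s` through evaluation, `mu` by `tm_rot`), hence `R Q (FS) = FS`, `R Q (D_i FS) = ∑ Q j i • D_j FS`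
by `R_D`; `R Q (PhiS j k) = ∑ Q a j Q b k • PhiS a b` (`R_P`, orthogonality of `Q` for `x2S`);
`R Q (D_j P_ik) = ∑ Q b j Q a i Q c k • D_b P_ac`; so `R Q (VS i) = ∑ Q a i • VS a` by
`Q Qᵀ = 1` twice.
-/

open scoped ContDiff

noncomputable section

namespace Pool.Agent.RFS.Ph1

open Pool.Agent.RFS.Ham

variable {A : Type*} [CommRing A] [Algebra ℝ A] {S : RFAlg A} {M : Type*} [TopologicalSpace M]
  [MeasurableSpace M] {b : ℝ}

theorem exists_diag (X : RFSpace S M b) (z : X.Fr) :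
    ∃ z', X.tm z' = X.tm z ∧ X.bs z' = X.bs z ∧ ∀ i j, i ≠ j → X.ev z' (S.P i j) = 0 := by
  set H : Mat3 := Matrix.of fun i j => X.ev z (S.P i j) with hH
  have hherm : H.IsHermitian := by
    ext i j
    simp only [hH, Matrix.conjTranspose_apply, Matrix.of_apply, star_trivial]
    rw [S.P_symm]
  set Q : O3 := hherm.eigenvectorUnitary with hQ
  refine ⟨X.rot Q z, X.tm_rot Q z, X.bs_rot Q z, fun i j hij => ?_⟩
  rw [← X.ev_R, X.R_P]
  simp only [map_sum, map_smul, smul_eq_mul]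
  have h1 : ∑ k, ∑ l, (Q : Mat3) k i * (Q : Mat3) l j * X.ev z (S.P k l)
      = (star (Q : Mat3) * H * (Q : Mat3)) i j := by
    simp only [Matrix.mul_apply, Matrix.star_apply, star_trivial, Finset.sum_mul]
    rw [Finset.sum_comm]
    refine Finset.sum_congr rfl fun k _ => Finset.sum_congr rfl fun l _ => ?_
    simp only [hH, Matrix.of_apply]
    ring
  rw [h1]
  have h2 := hherm.conjStarAlgAut_star_eigenvectorUnitary
  rw [Unitary.conjStarAlgAut_apply, Unitary.coe_star, star_star] at h2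
  have h3 : star (Q : Mat3) * H * (Q : Mat3)
      = Matrix.diagonal (RCLike.ofReal ∘ hherm.eigenvalues) := h2
  rw [h3, Matrix.diagonal_apply_ne _ hij]

theorem exists_aux (X : RFSpace S M b) (hb : b ≤ 1 / 4) (hs : ∀ z, 0 < X.ev z (sS S)) :
    ∃ u : Aux S, (∀ z, X.ev z u.r = Real.sqrt (X.ev z (sS S))) ∧
      ∀ z, X.ev z u.mu = (Real.sqrt (1 - 4 * X.tm z))⁻¹ := by
  obtain ⟨r, hr, -⟩ := X.fc Real.sqrt (Set.Ioi 0) isOpen_Ioi
    (fun y hy => (Real.contDiffAt_sqrt (ne_of_gt hy)).contDiffWithinAt) (sS S) hs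
  obtain ⟨ri, hri, -⟩ := X.fc (fun y => y⁻¹) (Set.Ioi 0) isOpen_Ioi
    (fun y hy => (contDiffAt_inv ℝ (ne_of_gt hy)).contDiffWithinAt) r
    (fun z => by rw [hr z]; exact Real.sqrt_pos.2 (hs z))
  have hψ : ∀ t : ℝ, t < 1 / 4 → HasDerivAt (fun t => (Real.sqrt (1 - 4 * t))⁻¹)
      (2 * ((Real.sqrt (1 - 4 * t))⁻¹) ^ 3) t := by
    intro t ht
    have h0 : 0 < 1 - 4 * t := by linarith
    have h1 : HasDerivAt (fun t : ℝ => 1 - 4 * t) (-(4 * 1)) t :=
      ((hasDerivAt_id t).const_mul 4).const_sub 1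
    have h2 := (h1.sqrt h0.ne').inv (Real.sqrt_pos.2 h0).ne'
    refine h2.congr_deriv ?_
    have h3 : Real.sqrt (1 - 4 * t) ≠ 0 := (Real.sqrt_pos.2 h0).ne'
    field_simp
    ring
  obtain ⟨mu, hmu, hmuT, hmuD, -⟩ := X.fc (fun t => (Real.sqrt (1 - 4 * t))⁻¹)
    (Set.Iio (1 / 4)) isOpen_Iio (by
      intro t ht
      have h0 : 0 < 1 - 4 * t := by
        have : t < 1 / 4 := ht
        linarith
      have h1 : ContDiffAt ℝ ∞ (fun t : ℝ => 1 - 4 * t) t := by fun_prop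
      exact (((Real.contDiffAt_sqrt h0.ne').comp t h1).inv
        (Real.sqrt_pos.2 h0).ne').contDiffWithinAt) X.τ
    (fun z => by
      rw [X.ev_τ]
      exact lt_of_lt_of_le (X.tm_mem z).2 hb)
  have ht : ∀ z, X.tm z < 1 / 4 := fun z => lt_of_lt_of_le (X.tm_mem z).2 hb
  refine ⟨⟨r, ri, mu, ?_, ?_, ?_, ?_⟩, hr, fun z => ?_⟩
  · refine X.ev_ext _ _ fun z => ?_
    rw [map_mul, hr z, Real.mul_self_sqrt (hs z).le]
  · refine X.ev_ext _ _ fun z => ?_
    rw [map_mul, hri z, hr z, map_one]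
    exact mul_inv_cancel₀ (Real.sqrt_pos.2 (hs z)).ne'
  · refine X.ev_ext _ _ fun z => ?_
    rw [hmuT z, X.T_τ, X.ev_τ, (hψ _ (ht z)).deriv, map_one, mul_one, map_mul, map_pow, hmu z,
      X.ev_τ, map_ofNat]
  · intro i
    refine X.ev_ext _ _ fun z => ?_
    rw [hmuD z i, X.D_τ, map_zero, mul_zero]
  · rw [hmu z, X.ev_τ]

theorem inv_of_ev {X : RFSpace S M b} {f : A} (φ : ℝ → ℝ → ℝ)
    (h : ∀ z, X.ev z f = φ (X.tm z) (X.ev z (sS S))) : Inv X f := by
  intro Q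
  refine X.ev_ext _ _ fun z => ?_
  rw [X.ev_R, h, h, X.tm_rot, ← X.ev_R, inv_s X Q]

theorem r_inv (X : RFSpace S M b) (u : Aux S)
    (hr : ∀ z, X.ev z u.r = Real.sqrt (X.ev z (sS S))) : Inv X u.r :=
  inv_of_ev (fun _ s => Real.sqrt s) hr

theorem mu_inv (X : RFSpace S M b) (u : Aux S)
    (hmu : ∀ z, X.ev z u.mu = (Real.sqrt (1 - 4 * X.tm z))⁻¹) : Inv X u.mu :=
  inv_of_ev (fun t _ => (Real.sqrt (1 - 4 * t))⁻¹) hmu

theorem ri_inv (X : RFSpace S M b) (u : Aux S)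
    (hr : ∀ z, X.ev z u.r = Real.sqrt (X.ev z (sS S))) : Inv X u.ri := by
  refine inv_of_ev (fun _ s => (Real.sqrt s)⁻¹) fun z => ?_
  rw [← hr z]
  have h := congrArg (X.ev z) u.r_ri
  rw [map_mul, map_one] at h
  exact eq_inv_of_mul_eq_one_right h

theorem FS_inv (X : RFSpace S M b) (u : Aux S)
    (hr : ∀ z, X.ev z u.r = Real.sqrt (X.ev z (sS S)))
    (hmu : ∀ z, X.ev z u.mu = (Real.sqrt (1 - 4 * X.tm z))⁻¹) (p : Par) :
    Inv X (FS p u) := by
  intro Q
  simp only [FS, map_add, map_mul, map_pow, map_smul, r_inv X u hr Q, ri_inv X u hr Q,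
    mu_inv X u hmu Q, inv_n X Q]

/-- An equivariant vector. -/
private def Eq1 (X : RFSpace S M b) (v : Fin 3 → A) : Prop :=
  ∀ (Q : O3) i, X.R Q (v i) = ∑ a, (Q : Mat3) a i • v a

/-- An equivariant 2-tensor. -/
private def Eq2 (X : RFSpace S M b) (T : Fin 3 → Fin 3 → A) : Prop :=
  ∀ (Q : O3) i j, X.R Q (T i j) = ∑ a, (Q : Mat3) a i • ∑ c, (Q : Mat3) c j • T a c

private theorem swap2 (Q : O3) (T : Fin 3 → Fin 3 → A) (i j : Fin 3) :
    ∑ a, (Q : Mat3) a i • ∑ c, (Q : Mat3) c j • T a c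
      = ∑ c, (Q : Mat3) c j • ∑ a, (Q : Mat3) a i • T a c := by
  simp only [Finset.smul_sum, smul_smul]
  rw [Finset.sum_comm]
  refine Finset.sum_congr rfl fun c _ => Finset.sum_congr rfl fun a _ => ?_
  rw [mul_comm]

private theorem Eq2.mulVec {X : RFSpace S M b} {T : Fin 3 → Fin 3 → A} {v : Fin 3 → A}
    (hT : Eq2 X T) (hv : Eq1 X v) : Eq1 X (fun i => ∑ k, T i k * v k) := by
  intro Q i
  simp only [map_sum, map_mul, hT Q, hv Q]
  simp only [swap2 Q T]
  rw [rot_sum Q (fun c => ∑ a, (Q : Mat3) a i • T a c) v]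
  simp only [Finset.sum_mul, smul_mul_assoc, Finset.smul_sum]
  rw [Finset.sum_comm]

private theorem Eq2.mul {X : RFSpace S M b} {T U : Fin 3 → Fin 3 → A}
    (hT : Eq2 X T) (hU : Eq2 X U) : Eq2 X (fun i j => ∑ k, T i k * U k j) := by
  intro Q i j
  simp only [map_sum, map_mul, hT Q, hU Q]
  simp only [swap2 Q T]
  rw [rot_sum Q (fun c => ∑ a, (Q : Mat3) a i • T a c) (fun k => ∑ c, (Q : Mat3) c j • U k c)]
  simp only [Finset.sum_mul, smul_mul_assoc, Finset.smul_sum]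
  rw [Finset.sum_comm]
  refine Finset.sum_congr rfl fun a _ => ?_
  simp only [Finset.mul_sum, mul_smul_comm, Finset.smul_sum]
  rw [Finset.sum_comm]

private theorem Eq2.inv_mul {X : RFSpace S M b} {T : Fin 3 → Fin 3 → A} {f : A}
    (hf : Inv X f) (hT : Eq2 X T) : Eq2 X (fun i j => f * T i j) := by
  intro Q i j
  rw [map_mul, hf Q, hT Q, Finset.mul_sum]
  refine Finset.sum_congr rfl fun a _ => ?_
  rw [mul_smul_comm, Finset.mul_sum]
  simp only [mul_smul_comm]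

private theorem Eq2.smul {X : RFSpace S M b} {T : Fin 3 → Fin 3 → A} (c : ℝ)
    (hT : Eq2 X T) : Eq2 X (fun i j => c • T i j) := by
  intro Q i j
  rw [map_smul, hT Q, Finset.smul_sum]
  refine Finset.sum_congr rfl fun a _ => ?_
  rw [smul_comm, Finset.smul_sum]
  simp only [smul_comm c]

private theorem Eq2.add {X : RFSpace S M b} {T U : Fin 3 → Fin 3 → A}
    (hT : Eq2 X T) (hU : Eq2 X U) : Eq2 X (fun i j => T i j + U i j) := by
  intro Q i j
  rw [map_add, hT Q, hU Q]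
  simp only [smul_add, Finset.sum_add_distrib]

private theorem Eq1.add {X : RFSpace S M b} {v w : Fin 3 → A}
    (hv : Eq1 X v) (hw : Eq1 X w) : Eq1 X (fun i => v i + w i) := by
  intro Q i
  rw [map_add, hv Q, hw Q]
  simp only [smul_add, Finset.sum_add_distrib]

private theorem Eq1.sub {X : RFSpace S M b} {v w : Fin 3 → A}
    (hv : Eq1 X v) (hw : Eq1 X w) : Eq1 X (fun i => v i - w i) := by
  intro Q i
  rw [map_sub, hv Q, hw Q]
  simp only [smul_sub, Finset.sum_sub_distrib]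

private theorem Eq1.smul {X : RFSpace S M b} {v : Fin 3 → A} (c : ℝ)
    (hv : Eq1 X v) : Eq1 X (fun i => c • v i) := by
  intro Q i
  rw [map_smul, hv Q, Finset.smul_sum]
  simp only [smul_comm c]

private theorem Eq1.inv_mul {X : RFSpace S M b} {v : Fin 3 → A} {f : A}
    (hf : Inv X f) (hv : Eq1 X v) : Eq1 X (fun i => f * v i) := by
  intro Q i
  rw [map_mul, hf Q, hv Q, Finset.mul_sum]
  simp only [mul_smul_comm]

private theorem R_DP (X : RFSpace S M b) (Q : O3) (j k l : Fin 3) :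
    X.R Q (S.D j (S.P k l)) = ∑ d, (Q : Mat3) d j • ∑ a, (Q : Mat3) a k •
      ∑ c, (Q : Mat3) c l • S.D d (S.P a c) := by
  rw [X.R_D, X.R_P]
  refine Finset.sum_congr rfl fun d _ => ?_
  simp only [map_sum, Derivation.map_smul, Finset.smul_sum, smul_smul]

private theorem Eq2.contract {X : RFSpace S M b} {Y : Fin 3 → Fin 3 → A}
    (hY : Eq2 X Y) : Eq1 X (fun k => ∑ j, ∑ l, Y j l * S.D j (S.P k l)) := by
  intro Q k
  simp only [map_sum, map_mul, hY Q, R_DP]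
  rw [Finset.sum_comm]
  have h1 : ∀ l, ∑ j, (∑ a, (Q : Mat3) a j • ∑ c, (Q : Mat3) c l • Y a c) *
      (∑ d, (Q : Mat3) d j • ∑ a, (Q : Mat3) a k • ∑ c, (Q : Mat3) c l • S.D d (S.P a c))
      = ∑ a, (∑ c, (Q : Mat3) c l • Y a c) *
        (∑ c, (Q : Mat3) c l • ∑ d, (Q : Mat3) d k • S.D a (S.P d c)) := by
    intro l
    rw [rot_sum Q (fun a => ∑ c, (Q : Mat3) c l • Y a c)
      (fun d => ∑ a, (Q : Mat3) a k • ∑ c, (Q : Mat3) c l • S.D d (S.P a c))]
    refine Finset.sum_congr rfl fun a _ => ?_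
    rw [swap2 Q (fun d c => S.D a (S.P d c))]
  simp only [h1]
  rw [Finset.sum_comm]
  have h2 : ∀ a, ∑ l, (∑ c, (Q : Mat3) c l • Y a c) *
        (∑ c, (Q : Mat3) c l • ∑ d, (Q : Mat3) d k • S.D a (S.P d c))
      = ∑ d, (Q : Mat3) d k • ∑ c, Y a c * S.D a (S.P d c) := by
    intro a
    rw [rot_sum Q (fun c => Y a c) (fun c => ∑ d, (Q : Mat3) d k • S.D a (S.P d c))]
    simp only [Finset.mul_sum, mul_smul_comm, Finset.smul_sum]
    rw [Finset.sum_comm]
  simp only [h2]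
  rw [Finset.sum_comm]
  simp only [← Finset.smul_sum]

private theorem eq2_x (X : RFSpace S M b) : Eq2 X (xS S) := by
  intro Q i j
  have h : ∀ i j, xS S i j = (-1 : ℝ) • eS S i j := by
    intro i j
    rw [xS, eS, neg_smul, one_smul, neg_sub]
  rw [h, map_smul, R_e]
  simp only [h, Finset.smul_sum, smul_smul]
  refine Finset.sum_congr rfl fun a _ => Finset.sum_congr rfl fun c _ => ?_
  congr 1
  ring

theorem YS_equivariant (X : RFSpace S M b) (u : Aux S)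
    (hr : ∀ z, X.ev z u.r = Real.sqrt (X.ev z (sS S)))
    (hmu : ∀ z, X.ev z u.mu = (Real.sqrt (1 - 4 * X.tm z))⁻¹) (p : Par) (Q : O3) (i : Fin 3) :
    X.R Q (YS p u i) = ∑ j, (Q : Mat3) j i • YS p u j := by
  have hx := eq2_x X
  have hx2 : Eq2 X (x2S S) := hx.mul hx
  have hri := ri_inv X u hr
  have hPhi : Eq2 X (PhiS p u) := by
    have h := (((Eq2.inv_mul hri hx).smul p.a).add
      ((Eq2.inv_mul ((inv_n X).mul (hri.pow 5)) hx).smul p.a1)).add
      ((Eq2.inv_mul (hri.pow 3) hx2).smul p.b)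
    exact h
  have hVS : Eq1 X (VS p u) := by
    have h1 := hPhi.contract
    have h2 := hx.mulVec hx2.contract
    have h3 := hx2.mulVec hx.contract
    have h4 := h1.add ((Eq1.inv_mul (hri.pow 5) (h2.sub h3)).smul p.q)
    have h5 : VS p u = fun i => (∑ j, ∑ l, PhiS p u j l * S.D j (S.P i l)) +
        p.q • (u.ri ^ 5 * ((∑ k, xS S i k * ∑ j, ∑ l, x2S S j l * S.D j (S.P k l)) -
          ∑ k, x2S S i k * ∑ j, ∑ l, xS S j l * S.D j (S.P k l))) := by
      funext i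
      rw [VS]
      congr 2
      simp only [PsiS, Finset.mul_sum, ← Finset.sum_sub_distrib]
      rw [Finset.sum_comm]
      refine Finset.sum_congr rfl fun k _ => Finset.sum_congr rfl fun j _ =>
        Finset.sum_congr rfl fun l _ => ?_
      ring
    rw [h5]
    exact h4
  have hDF : Eq1 X (fun i => S.D i (FS p u)) := by
    intro Q i
    rw [X.R_D, FS_inv X u hr hmu p Q]
  exact (hDF.sub hVS) Q i

end Pool.Agent.RFS.Ph1
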