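import Pool.Agent.RFS.PEvl
import Pool.Agent.RFS.PSpc

/-!
# RFS phase 1: monotonicity from the certificate

PROOF of `QdS_nonneg`.  `exists_diag` gives `z'` over the same point; `QdS` is rotation invariant
(`FS_inv`, `R_T`, `YS_equivariant`, `R_D`, orthogonality), so `ev z QdS = ev z' QdS` (use
`rot_trans`, `ev_R`).  At `z'` use `ev_QdS` and `Good`: `x` has sum 0 and `n = r^4 nn x`
(`x_facts`); `w = mu / r`, `w^2 = 1 / (λ s)`, and `3 s ≤ λ (3 s^2 - 2 n)` is `3 w^2 ≤ 3 - 2 nn x`;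
`β i j k = β i k j` by `P_symm`, `∑ β i i k = 0` by `div_P`.

PROOF of `W_mono`.  Let `U, U', Y', Q'` represent the invariant elements `FS`,
`T FS - 2 tr P FS`, `∑ D_i YS_i`, `QdS` (`exists_inv` or the value at any frame).  `int_deriv`:
`d/dt ∫ U = ∫ U' = ∫ Y' + ∫ Q'` (continuity by `cont`, `vol_fin`, compactness give integrability),
`∫ Y' = 0` by `div_int` and `YS_equivariant`, `∫ Q' ≥ 0`.  `int_cont` and the derivative test for
monotone functions on `[0, t]`.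

PROOF of `FS_ge`, `FS_le`.  With `n^ = n / s^2`, `w = mu / r`: `ev FS = r^3 f0 p n^ w`, and
`Good.F`, `Good.U`; at time 0 `mu = 1`, `w = 1 / r`.
-/

noncomputable section

open Set MeasureTheory

namespace Pool.Agent.RFS.Ph1

open Pool.Agent.RFS.Ham

variable {A : Type*} [CommRing A] [Algebra ℝ A] {S : RFAlg A} {M : Type*} [TopologicalSpace M]
  [MeasurableSpace M] {b : ℝ}

/-- The domain condition at all frames. -/
def Dom (X : RFSpace S M b) : Prop := ∀ z, 0 < X.ev z (sS S) ∧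
  3 * X.ev z (sS S) ≤ (1 - 4 * X.tm z) * (3 * X.ev z (sS S) ^ 2 - 2 * X.ev z (nS S))

/-- The auxiliary elements have the right values. -/
def AuxOk (X : RFSpace S M b) (u : Aux S) : Prop :=
  (∀ z, X.ev z u.r = Real.sqrt (X.ev z (sS S))) ∧
    ∀ z, X.ev z u.mu = (Real.sqrt (1 - 4 * X.tm z))⁻¹

/-! ### Auxiliary facts -/

private theorem pmon_ev_FS (e : A →ₐ[ℝ] ℝ) (u : Aux S) (p : Par) (hr : 0 < e u.r) :
    e (FS p u) = (e u.r) ^ 3 * f0 p (e (nS S) / (e u.r) ^ 4) (e u.mu / e u.r) := by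
  have hri : e u.ri = (e u.r)⁻¹ := by
    have h := congrArg e u.r_ri
    rw [map_mul, map_one] at h
    exact eq_inv_of_mul_eq_one_right h
  simp only [FS, map_add, map_mul, map_pow, map_smul, hri, smul_eq_mul, f0]
  generalize e u.r = r at *
  generalize e u.mu = m at *
  generalize e (nS S) = n at *
  have h0 : r ≠ 0 := hr.ne'
  field_simp

private theorem pmon_ev_eq (X : RFSpace S M b) {f : A} (hf : Inv X f) {z z' : X.Fr}
    (h1 : X.tm z = X.tm z') (h2 : X.bs z = X.bs z') : X.ev z' f = X.ev z f := by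
  obtain ⟨Q, hQ⟩ := X.rot_trans z z' h1 h2
  rw [hQ, ← X.ev_R, hf Q]

theorem PMon_exists_rep (X : RFSpace S M b) {f : A} (hf : Inv X f) :
    ∃ v : ℝ → M → ℝ, ∀ z, X.ev z f = v (X.tm z) (X.bs z) := by
  classical
  refine ⟨fun t q => if h : ∃ z, X.tm z = t ∧ X.bs z = q then X.ev h.choose f else 0,
    fun z => ?_⟩
  have h : ∃ z', X.tm z' = X.tm z ∧ X.bs z' = X.bs z := ⟨z, rfl, rfl⟩
  have h2 : (if h : ∃ z', X.tm z' = X.tm z ∧ X.bs z' = X.bs z then X.ev h.choose f else 0)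
      = X.ev h.choose f := dif_pos h
  exact (pmon_ev_eq X hf h.choose_spec.1 h.choose_spec.2).trans h2.symm

private theorem pmon_inv_tr (X : RFSpace S M b) : Inv X (∑ k, S.P k k) := by
  intro Q
  have h3 : (∑ k, S.P k k) = (3 : ℝ) • sS S := by
    simp only [sS, smul_smul]; norm_num
  rw [h3, map_smul, inv_s X Q]

private theorem pmon_inv_div (X : RFSpace S M b) (v : Fin 3 → A)
    (hv : ∀ Q i, X.R Q (v i) = ∑ j, (Q : Mat3) j i • v j) : Inv X (∑ i, S.D i (v i)) := by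
  intro Q
  simp only [map_sum, X.R_D, hv, Derivation.map_smul, Finset.smul_sum, smul_smul]
  rw [Finset.sum_comm]
  refine Finset.sum_congr rfl fun j _ => ?_
  rw [Finset.sum_comm]
  simp only [← Finset.sum_smul, orth1]
  simp

private theorem pmon_inv_G (X : RFSpace S M b) (u : Aux S) (hu : AuxOk X u) (p : Par) :
    Inv X (S.T (FS p u) - 2 * (∑ k, S.P k k) * FS p u) := by
  intro Q
  have hF := FS_inv X u hu.1 hu.2 p Q
  have h2 : X.R Q (2 : A) = 2 := map_ofNat _ 2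
  rw [map_sub, map_mul, map_mul, X.R_T, hF, h2, pmon_inv_tr X Q]

private theorem pmon_inv_Y (X : RFSpace S M b) (u : Aux S) (hu : AuxOk X u) (p : Par) :
    Inv X (∑ i, S.D i (YS p u i)) :=
  pmon_inv_div X _ fun Q i => YS_equivariant X u hu.1 hu.2 p Q i

private theorem pmon_inv_Q (X : RFSpace S M b) (u : Aux S) (hu : AuxOk X u) (p : Par) :
    Inv X (QdS p u) := by
  intro Q
  rw [QdS, map_sub, pmon_inv_G X u hu p Q, pmon_inv_Y X u hu p Q]

private theorem pmon_ev_n (e : A →ₐ[ℝ] ℝ) : 0 ≤ e (nS S) := by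
  simp only [nS, map_sum, map_mul]
  exact Finset.sum_nonneg fun i _ => Finset.sum_nonneg fun j _ => mul_self_nonneg _

/-- The variables `w` and `n / s²` lie in the domain of the certificate. -/
private theorem pmon_facts (X : RFSpace S M b) (hb : b ≤ 1 / 4) (hD : Dom X) (u : Aux S)
    (hu : AuxOk X u) (z : X.Fr) : 0 < X.ev z u.r ∧ X.ev z u.r ^ 2 = X.ev z (sS S) ∧
      0 ≤ X.ev z u.mu / X.ev z u.r ∧
      3 * (X.ev z u.mu / X.ev z u.r) ^ 2 ≤ 3 - 2 * (X.ev z (nS S) / X.ev z u.r ^ 4) := by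
  obtain ⟨hs, hs2⟩ := hD z
  have hr := hu.1 z
  have hmu := hu.2 z
  have hr0 : 0 < X.ev z u.r := by rw [hr]; exact Real.sqrt_pos.2 hs
  have hr2 : X.ev z u.r ^ 2 = X.ev z (sS S) := by rw [hr]; exact Real.sq_sqrt hs.le
  have hl : 0 < 1 - 4 * X.tm z := by
    have := (X.tm_mem z).2
    linarith
  have hmu2 : X.ev z u.mu ^ 2 = (1 - 4 * X.tm z)⁻¹ := by
    rw [hmu, inv_pow, Real.sq_sqrt hl.le]
  have hmu0 : 0 ≤ X.ev z u.mu := by rw [hmu]; positivity
  refine ⟨hr0, hr2, div_nonneg hmu0 hr0.le, ?_⟩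
  rw [div_pow, hmu2, show X.ev z u.r ^ 4 = (X.ev z u.r ^ 2) ^ 2 by ring, hr2]
  generalize X.ev z (sS S) = s at *
  generalize X.ev z (nS S) = n at *
  generalize 1 - 4 * X.tm z = l at *
  have key : 3 - 2 * (n / s ^ 2) - 3 * (l⁻¹ / s) = (l * (3 * s ^ 2 - 2 * n) - 3 * s) / (l * s ^ 2)
      := by
    have := hs.ne'
    have := hl.ne'
    field_simp
  have h2 : 0 ≤ (l * (3 * s ^ 2 - 2 * n) - 3 * s) / (l * s ^ 2) :=
    div_nonneg (by linarith) (by positivity)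
  linarith

theorem QdS_nonneg (X : RFSpace S M b) (hb : b ≤ 1 / 4) (hD : Dom X) (u : Aux S) (hu : AuxOk X u)
    (p : Par) (hp : Good p) (z : X.Fr) : 0 ≤ X.ev z (QdS p u) := by
  obtain ⟨z', h1, h2, hd⟩ := exists_diag X z
  rw [pmon_ev_eq X (pmon_inv_Q X u hu p) h1 h2]
  obtain ⟨hr0, hr2, hw0, hw⟩ := pmon_facts X hb hD u hu z'
  obtain ⟨hx, hn⟩ := x_facts (X.ev z') (u := u) hr0 hd
  rw [ev_QdS p u (X.ev z') hr0 hd]
  have hn2 : X.ev z' (nS S) / X.ev z' u.r ^ 4 =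
      nn (fun i => X.ev z' (S.P i i) / (X.ev z' u.r) ^ 2 - 1) := by
    rw [hn]; field_simp
  rw [hn2] at hw
  have hQ := hp.Q _ _ (fun i j k => X.ev z' (S.D i (S.P j k))) hx hw0 hw
    (fun i j k => by rw [S.P_symm j k]) (fun k => by
      have := congrArg (X.ev z') (S.div_P k)
      rw [map_sum, map_zero] at this
      exact this)
  have hZ := hp.Z _ _ hx hw0 hw
  have h5 : 0 ≤ (X.ev z' u.r)⁻¹ := by positivity
  have h6 : 0 ≤ (X.ev z' u.r) ^ 5 := by positivity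
  exact add_nonneg (mul_nonneg h5 hQ) (mul_nonneg h6 hZ)

theorem FS_ge (X : RFSpace S M b) (hb : b ≤ 1 / 4) (hD : Dom X) (u : Aux S) (hu : AuxOk X u)
    (p : Par) (hp : Good p) (z : X.Fr) (hz : X.tm z = 0) :
    X.ev z (sS S) ≤ X.ev z (FS p u) := by
  obtain ⟨hr0, hr2, hw0, hw⟩ := pmon_facts X hb hD u hu z
  have hn := pmon_ev_n (S := S) (X.ev z)
  rw [pmon_ev_FS (X.ev z) u p hr0]
  have hF := hp.F _ _ (div_nonneg hn (by positivity)) hw0 hw
  have hmu : X.ev z u.mu = 1 := by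
    rw [hu.2 z, hz]; simp
  calc X.ev z (sS S) = X.ev z u.r ^ 3 * (X.ev z u.mu / X.ev z u.r) := by
        rw [← hr2, hmu]; field_simp
    _ ≤ _ := mul_le_mul_of_nonneg_left hF (by positivity)

theorem FS_le (X : RFSpace S M b) (hb : b ≤ 1 / 4) (hD : Dom X) (u : Aux S) (hu : AuxOk X u)
    (p : Par) (hp : Good p) (z : X.Fr) :
    X.ev z (FS p u) ≤
      X.ev z (sS S) ^ (3 / 2 : ℝ) * (1 + X.ev z (nS S) / X.ev z (sS S) ^ 2) := by
  obtain ⟨hr0, hr2, hw0, hw⟩ := pmon_facts X hb hD u hu z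
  have hn := pmon_ev_n (S := S) (X.ev z)
  rw [pmon_ev_FS (X.ev z) u p hr0]
  have hF := hp.U _ _ (div_nonneg hn (by positivity)) hw0 hw
  have h3 : X.ev z (sS S) ^ (3 / 2 : ℝ) = X.ev z u.r ^ 3 := by
    rw [hu.1 z, Real.sqrt_eq_rpow, ← Real.rpow_natCast, ← Real.rpow_mul (hD z).1.le]
    norm_num
  have h4 : X.ev z (sS S) ^ 2 = X.ev z u.r ^ 4 := by rw [← hr2]; ring
  rw [h3, h4]
  exact mul_le_mul_of_nonneg_left hF (by positivity)

/-- Functions of `(t, p)` which represent elements are integrable at every time. -/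
theorem PMon_integrable [CompactSpace M] [BorelSpace M] (X : RFSpace S M b) {f : A}
    {v : ℝ → M → ℝ} (hv : ∀ z, X.ev z f = v (X.tm z) (X.bs z)) {t : ℝ} (ht : t ∈ Ico 0 b) :
    Integrable (fun q => v t q) (X.vol t) := by
  have hc : Continuous fun q => v t q := by
    have h1 := X.cont f v hv
    have h2 : ContinuousOn (fun q : M => v t q) univ :=
      h1.comp (f := fun q : M => (t, q)) (by fun_prop) (fun q _ => ⟨ht, mem_univ _⟩)
    exact continuousOn_univ.1 h2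
  let _ : IsFiniteMeasure (X.vol t) := X.vol_fin t ht
  exact (BoundedContinuousFunction.mkOfCompact ⟨_, hc⟩).integrable (X.vol t)

theorem W_mono [CompactSpace M] [BorelSpace M] (X : RFSpace S M b) (hb0 : 0 < b)
    (hb : b ≤ 1 / 4) (hD : Dom X) (u : Aux S) (hu : AuxOk X u) (p : Par) (hp : Good p)
    (U : ℝ → M → ℝ) (hU : ∀ z, X.ev z (FS p u) = U (X.tm z) (X.bs z)) (t : ℝ)
    (ht : t ∈ Ico 0 b) : ∫ q, U 0 q ∂(X.vol 0) ≤ ∫ q, U t q ∂(X.vol t) := by
  obtain ⟨G, hG⟩ := PMon_exists_rep X (pmon_inv_G X u hu p)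
  obtain ⟨Y, hY⟩ := PMon_exists_rep X (pmon_inv_Y X u hu p)
  obtain ⟨Q, hQ⟩ := PMon_exists_rep X (pmon_inv_Q X u hu p)
  have hder : ∀ τ ∈ Ioo 0 b, HasDerivAt (fun s => ∫ q, U s q ∂(X.vol s))
      (∫ q, G τ q ∂(X.vol τ)) τ := fun τ hτ => X.int_deriv _ U G hU hG τ hτ
  have hpos : ∀ τ ∈ Ioo 0 b, 0 ≤ ∫ q, G τ q ∂(X.vol τ) := by
    intro τ hτ
    have hτ' : τ ∈ Ico 0 b := ⟨hτ.1.le, hτ.2⟩
    have h1 : (fun q => G τ q) = fun q => Y τ q + Q τ q := by
      funext q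
      obtain ⟨z, hz1, hz2⟩ := X.exists_pt τ hτ' q
      have e1 := hG z
      have e2 := hY z
      have e3 := hQ z
      rw [hz1, hz2] at e1 e2 e3
      rw [← e1, ← e2, ← e3, ← map_add]
      congr 1
      rw [QdS]; ring
    rw [h1, integral_add (PMon_integrable X hY hτ') (PMon_integrable X hQ hτ')]
    have h2 : ∫ q, Y τ q ∂(X.vol τ) = 0 :=
      X.div_int (YS p u) (fun Q' i => YS_equivariant X u hu.1 hu.2 p Q' i) Y hY τ hτ
    rw [h2, zero_add]
    apply integral_nonneg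
    intro q
    obtain ⟨z, hz1, hz2⟩ := X.exists_pt τ hτ' q
    have e3 := hQ z
    rw [hz1, hz2] at e3
    show 0 ≤ Q τ q
    rw [← e3]
    exact QdS_nonneg X hb hD u hu p hp z
  have hcont := X.int_cont (FS p u) U hU
  have hmono : MonotoneOn (fun s => ∫ q, U s q ∂(X.vol s)) (Icc 0 t) := by
    apply monotoneOn_of_deriv_nonneg (convex_Icc 0 t)
    · exact hcont.mono fun s hs => ⟨hs.1, lt_of_le_of_lt hs.2 ht.2⟩
    · rw [interior_Icc]
      intro s hs
      exact (hder s ⟨hs.1, hs.2.trans ht.2⟩).differentiableAt.differentiableWithinAt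
    · rw [interior_Icc]
      intro s hs
      rw [(hder s ⟨hs.1, hs.2.trans ht.2⟩).deriv]
      exact hpos s ⟨hs.1, hs.2.trans ht.2⟩
  exact hmono ⟨le_rfl, ht.1⟩ ⟨ht.1, le_rfl⟩ ht.1

end Pool.Agent.RFS.Ph1
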